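import Mathlib

set_option autoImplicit false

open Filter Topology
open scoped ENNReal

namespace Q101.BanachV

section Norms

/-- `N` is a complete norm on the real vector space `V`. -/
structure IsCompleteNorm {V : Type} [AddCommGroup V] [Module ℝ V] (N : V → ℝ) : Prop where
  add_le : ∀ v w, N (v + w) ≤ N v + N w
  smul : ∀ (c : ℝ) (v : V), N (c • v) = |c| * N v
  eq_zero : ∀ v, N v = 0 → v = 0
  complete : ∀ u : ℕ → V,
    (∀ ε : ℝ, 0 < ε → ∃ n₀ : ℕ, ∀ m ≥ n₀, ∀ n ≥ n₀, N (u m - u n) < ε) →
      ∃ v, Tendsto (fun n => N (u n - v)) atTop (𝓝 0)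

theorem IsCompleteNorm.exists_banach {V : Type} [AddCommGroup V] [Module ℝ V] {N : V → ℝ}
    (hN : IsCompleteNorm N) : ∃ (W : Type) (_ : NormedAddCommGroup W) (_ : NormedSpace ℝ W)
      (_ : CompleteSpace W) (e : W ≃ₗ[ℝ] V), ∀ w, ‖w‖ = N (e w) := by
  have h0 : N 0 = 0 := by simpa using hN.smul 0 0
  have hneg : ∀ v, N (-v) = N v := fun v => by simpa using hN.smul (-1) v
  have hnn : ∀ v, 0 ≤ N v := by
    intro v
    have := hN.add_le v (-v)
    rw [add_neg_cancel, h0, hneg] at this
    linarith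
  let _ : Norm V := ⟨N⟩
  have core : NormedSpace.Core ℝ V :=
    { norm_nonneg := hnn
      norm_smul := fun c v => hN.smul c v
      norm_triangle := hN.add_le
      norm_eq_zero_iff := fun v => ⟨hN.eq_zero v, fun h => by rw [h]; exact h0⟩ }
  let i1 : NormedAddCommGroup V := NormedAddCommGroup.ofCore core
  let i2 : NormedSpace ℝ V := NormedSpace.ofCore core
  refine ⟨V, i1, i2, ?_, LinearEquiv.refl ℝ V, fun w => rfl⟩
  refine Metric.complete_of_cauchySeq_tendsto fun u hu => ?_
  obtain ⟨v, hv⟩ := hN.complete u (fun ε hε => by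
    obtain ⟨n₀, hn₀⟩ := Metric.cauchySeq_iff.1 hu ε hε
    refine ⟨n₀, fun m hm n hn => ?_⟩
    have := hn₀ m hm n hn
    rwa [dist_eq_norm] at this)
  refine ⟨v, ?_⟩
  rw [tendsto_iff_norm_sub_tendsto_zero]
  exact hv

end Norms

section Eta

/-- `s log |s|` -/
noncomputable def eta (s : ℝ) : ℝ := s * Real.log s

theorem continuous_eta : Continuous eta := Real.continuous_mul_log

theorem eta_zero : eta 0 = 0 := by simp [eta]
theorem eta_one : eta 1 = 0 := by simp [eta]
theorem eta_neg (s : ℝ) : eta (-s) = -eta s := by simp [eta, Real.log_neg_eq_log]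

theorem eta_mul (a s : ℝ) : eta (a * s) = a * eta s + eta a * s := by
  rcases eq_or_ne a 0 with rfl | ha
  · simp [eta]
  rcases eq_or_ne s 0 with rfl | hs
  · simp [eta]
  rw [eta, Real.log_mul ha hs, eta, eta]; ring

theorem abs_eta_le {s : ℝ} (hs : |s| ≤ 1) : |eta s| ≤ 1 := by
  have key : ∀ t : ℝ, 0 < t → t ≤ 1 → |eta t| ≤ 1 := fun t h1 h2 => by
    rw [eta, mul_comm]; exact (Real.abs_log_mul_self_lt t h1 h2).le
  rcases lt_trichotomy s 0 with h | h | h
  · have := key (-s) (by linarith) (by linarith [(abs_le.1 hs).1])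
    rwa [eta_neg, abs_neg] at this
  · rw [h, eta_zero]; norm_num
  · exact key s h (le_of_abs_le hs)

/-- the defect of additivity -/
theorem eta_pos {a b : ℝ} (ha : 0 ≤ a) (hb : 0 ≤ b) : |eta (a + b) - eta a - eta b| ≤ a + b := by
  rcases ha.eq_or_lt with rfl | ha
  · rw [eta_zero]; simpa using hb
  rcases hb.eq_or_lt with rfl | hb
  · rw [eta_zero]; simpa using ha.le
  have h1 : eta (a + b) - eta a - eta b =
      a * Real.log ((a + b) / a) + b * Real.log ((a + b) / b) := by
    rw [Real.log_div (by positivity) ha.ne', Real.log_div (by positivity) hb.ne', eta, eta, eta]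
    ring
  have h2 : 0 ≤ Real.log ((a + b) / a) := Real.log_nonneg (by rw [le_div_iff₀ ha]; linarith)
  have h3 : 0 ≤ Real.log ((a + b) / b) := Real.log_nonneg (by rw [le_div_iff₀ hb]; linarith)
  have h4 : a * Real.log ((a + b) / a) ≤ b := by
    have := Real.log_le_sub_one_of_pos (show 0 < (a + b) / a by positivity)
    calc a * Real.log ((a + b) / a) ≤ a * ((a + b) / a - 1) := by gcongr
      _ = b := by field_simp; ring
  have h5 : b * Real.log ((a + b) / b) ≤ a := by
    have := Real.log_le_sub_one_of_pos (show 0 < (a + b) / b by positivity)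
    calc b * Real.log ((a + b) / b) ≤ b * ((a + b) / b - 1) := by gcongr
      _ = a := by field_simp; ring
  rw [h1, abs_of_nonneg (by positivity)]
  linarith

theorem eta_defect (a b : ℝ) : |eta (a + b) - eta a - eta b| ≤ |a| + |b| := by
  have neg : ∀ a b : ℝ, |eta (-a + -b) - eta (-a) - eta (-b)| = |eta (a + b) - eta a - eta b| := by
    intro a b
    rw [← neg_add, eta_neg, eta_neg, eta_neg, ← abs_neg]
    congr 1; ring
  -- opposite signs, `a ≥ |b|`
  have opp : ∀ a b : ℝ, 0 ≤ b → b ≤ a → |eta (a + -b) - eta a - eta (-b)| ≤ a + b := by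
    intro a b hb hab
    have h1 := eta_pos (a := a - b) (b := b) (by linarith) hb
    rw [sub_add_cancel] at h1
    have h2 : |eta (a + -b) - eta a - eta (-b)| = |eta a - eta (a - b) - eta b| := by
      rw [eta_neg, ← abs_neg, ← sub_eq_add_neg]
      congr 1; ring
    rw [h2]
    linarith
  rcases le_total 0 a with ha | ha
  · rcases le_total 0 b with hb | hb
    · rw [abs_of_nonneg ha, abs_of_nonneg hb]; exact eta_pos ha hb
    · rw [abs_of_nonneg ha, abs_of_nonpos hb]
      rcases le_total (-b) a with h | h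
      · have := opp a (-b) (by linarith) h
        rwa [neg_neg] at this
      · have := opp (-b) a ha h
        have h2 := neg a b
        rw [add_comm (-a)] at h2
        rw [← h2]
        have h3 : eta (-b + -a) - eta (-a) - eta (-b) = eta (-b + -a) - eta (-b) - eta (-a) := by
          ring
        rw [h3]; linarith
  · rcases le_total 0 b with hb | hb
    · rw [abs_of_nonpos ha, abs_of_nonneg hb]
      rcases le_total (-a) b with h | h
      · have := opp b (-a) (by linarith) h
        rw [neg_neg] at this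
        have h3 : eta (a + b) - eta a - eta b = eta (b + a) - eta b - eta a := by
          rw [add_comm]; ring
        rw [h3]; linarith
      · have := opp (-a) b hb h
        rw [← neg a b]
        exact this
    · rw [abs_of_nonpos ha, abs_of_nonpos hb, ← neg a b]
      exact eta_pos (by linarith) (by linarith)

end Eta

section Block

variable {ι : Type} [Fintype ι]

/-- the functional `F` on one block -/
noncomputable def bF (x : ι → ℝ) : ℝ := ∑ i, eta (x i) - eta (∑ i, x i)

theorem bF_smul (c : ℝ) (x : ι → ℝ) : bF (c • x) = c * bF x := by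
  unfold bF
  simp only [Pi.smul_apply, smul_eq_mul]
  rw [← Finset.mul_sum]
  simp only [eta_mul]
  rw [Finset.sum_add_distrib, ← Finset.mul_sum, ← Finset.mul_sum]
  ring

theorem bF_defect (x y : ι → ℝ) :
    |bF (x + y) - bF x - bF y| ≤ 2 * (∑ i, |x i| + ∑ i, |y i|) := by
  have h1 : bF (x + y) - bF x - bF y =
      ∑ i, (eta (x i + y i) - eta (x i) - eta (y i)) -
        (eta (∑ i, x i + ∑ i, y i) - eta (∑ i, x i) - eta (∑ i, y i)) := by
    unfold bF
    simp only [Pi.add_apply, Finset.sum_add_distrib, Finset.sum_sub_distrib]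
    ring
  have h2 : |∑ i, (eta (x i + y i) - eta (x i) - eta (y i))| ≤ ∑ i, |x i| + ∑ i, |y i| := by
    refine (Finset.abs_sum_le_sum_abs _ _).trans ?_
    rw [← Finset.sum_add_distrib]
    exact Finset.sum_le_sum fun i _ => eta_defect _ _
  have h3 := eta_defect (∑ i, x i) (∑ i, y i)
  have h4 := Finset.abs_sum_le_sum_abs x Finset.univ
  have h5 := Finset.abs_sum_le_sum_abs y Finset.univ
  rw [h1]
  have h6 := abs_sub (∑ i, (eta (x i + y i) - eta (x i) - eta (y i)))
    (eta (∑ i, x i + ∑ i, y i) - eta (∑ i, x i) - eta (∑ i, y i))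
  linarith

theorem abs_bF_le (x : ι → ℝ) : |bF x| ≤ (Fintype.card ι + 1) * ∑ i, |x i| := by
  set r := ∑ i, |x i| with hr
  have hr0 : 0 ≤ r := Finset.sum_nonneg fun i _ => abs_nonneg _
  rcases hr0.eq_or_lt with h | h
  · have hx : ∀ i, x i = 0 := by
      intro i
      have := (Finset.sum_eq_zero_iff_of_nonneg (fun i _ => abs_nonneg (x i))).1 (h ▸ hr.symm) i
        (Finset.mem_univ i)
      exact abs_eq_zero.1 this
    have : bF x = 0 := by simp [bF, hx, eta_zero]
    rw [this, ← h]; simp
  · have h1 : x = r • (r⁻¹ • x) := by rw [smul_smul, mul_inv_cancel₀ h.ne', one_smul]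
    have h2 : |bF (r⁻¹ • x)| ≤ Fintype.card ι + 1 := by
      unfold bF
      have e1 : |∑ i, eta ((r⁻¹ • x) i)| ≤ Fintype.card ι := by
        refine (Finset.abs_sum_le_sum_abs _ _).trans ?_
        refine (Finset.sum_le_sum (g := fun _ => (1 : ℝ)) fun i _ => ?_).trans (by simp)
        apply abs_eta_le
        rw [Pi.smul_apply, smul_eq_mul, abs_mul, abs_of_pos (inv_pos.2 h), inv_mul_le_iff₀ h,
          mul_one]
        exact Finset.single_le_sum (f := fun i => |x i|) (fun i _ => abs_nonneg _)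
          (Finset.mem_univ i)
      have e2 : |eta (∑ i, (r⁻¹ • x) i)| ≤ 1 := by
        apply abs_eta_le
        simp only [Pi.smul_apply, smul_eq_mul]
        rw [← Finset.mul_sum, abs_mul, abs_of_pos (inv_pos.2 h), inv_mul_le_iff₀ h, mul_one]
        exact Finset.abs_sum_le_sum_abs _ _
      have := abs_sub (∑ i, eta ((r⁻¹ • x) i)) (eta (∑ i, (r⁻¹ • x) i))
      linarith
    rw [h1, bF_smul, abs_mul, abs_of_pos h, mul_comm]
    exact mul_le_mul_of_nonneg_right h2 h.le

theorem continuous_bF : Continuous (bF : (ι → ℝ) → ℝ) := by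
  unfold bF
  refine Continuous.sub ?_ ?_
  · exact continuous_finsetSum _ fun i _ => continuous_eta.comp (continuous_apply i)
  · exact continuous_eta.comp (continuous_finsetSum _ fun i _ => continuous_apply i)

end Block

section Ell

variable {α : Type}

/-- `ℓ_1(α)` -/
abbrev L1 (α : Type) : Type := lp (fun _ : α => ℝ) 1

theorem summable_abs (x : L1 α) : Summable fun a => |x a| := by
  have h := (lp.memℓp x).summable (by norm_num)
  simpa using h

theorem norm_eq (x : L1 α) : ‖x‖ = ∑' a, |x a| := by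
  have h := lp.norm_eq_tsum_rpow (p := 1) (by norm_num) x
  simpa using h

theorem abs_apply_le (x : L1 α) (a : α) : |x a| ≤ ‖x‖ := by
  rw [norm_eq]
  exact (summable_abs x).le_tsum a fun _ _ => abs_nonneg _

/-- constructor -/
def mk (f : α → ℝ) (h : Summable fun a => |f a|) : L1 α :=
  ⟨f, memℓp_gen (by simpa using h)⟩

theorem mk_apply (f : α → ℝ) (h : Summable fun a => |f a|) (a : α) : mk f h a = f a := rfl

theorem continuous_coord (a : α) : Continuous fun x : L1 α => x a := by
  refine Metric.continuous_iff.2 fun x ε hε => ⟨ε, hε, fun y hy => ?_⟩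
  rw [dist_eq_norm] at hy
  rw [Real.dist_eq]
  exact (abs_apply_le (y - x) a).trans_lt hy

/-- coordinate functionals -/
noncomputable def coord (a : α) : L1 α →L[ℝ] ℝ :=
  LinearMap.mkContinuous (⟨⟨fun x => x a, fun _ _ => rfl⟩, fun _ _ => rfl⟩ : L1 α →ₗ[ℝ] ℝ) 1
    fun x => by rw [one_mul]; exact abs_apply_le x a

@[simp] theorem coord_apply (a : α) (x : L1 α) : coord a x = x a := rfl

end Ell

section Main

/-- block sizes -/
def B (n : ℕ) : ℕ := 2 ^ (n + 1) ^ 2

theorem B_pos (n : ℕ) : 0 < B n := by unfold B; positivity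

theorem log_B (n : ℕ) : Real.log (B n) = ((n : ℝ) + 1) ^ 2 * Real.log 2 := by
  unfold B; push_cast; rw [Real.log_pow]; push_cast; ring

/-- the index set -/
abbrev I : Type := Σ n : ℕ, Fin (B n)

/-- a block of a vector -/
def blk (x : I → ℝ) (n : ℕ) : Fin (B n) → ℝ := fun i => x ⟨n, i⟩

/-- weights -/
noncomputable def w (n : ℕ) : ℝ := ((B n : ℝ) + 1)⁻¹

theorem w_pos (n : ℕ) : 0 < w n := by unfold w; positivity

theorem w_le_one (n : ℕ) : w n ≤ 1 := by
  unfold w
  apply inv_le_one_of_one_le₀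
  have : (0 : ℝ) ≤ B n := Nat.cast_nonneg _
  linarith

theorem summable_blk (x : L1 I) : Summable fun n => ∑ i, |blk x n i| := by
  have h := (summable_abs x).sigma
  simpa [blk] using h

theorem abs_wF_le (x : L1 I) (n : ℕ) : |w n * bF (blk x n)| ≤ ∑ i, |blk x n i| := by
  rw [abs_mul, abs_of_pos (w_pos n)]
  have h := abs_bF_le (blk x n)
  rw [Fintype.card_fin] at h
  have h2 := mul_le_mul_of_nonneg_left h (w_pos n).le
  rwa [← mul_assoc, w, inv_mul_cancel₀ (by positivity), one_mul] at h2

/-- the nonlinear map -/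
noncomputable def FF (x : L1 I) : L1 ℕ :=
  mk (fun n => w n * bF (blk x n))
    (Summable.of_nonneg_of_le (fun _ => abs_nonneg _) (abs_wF_le x) (summable_blk x))

theorem FF_apply (x : L1 I) (n : ℕ) : FF x n = w n * bF (blk x n) := rfl

/-- the map `φ` -/
noncomputable def phi (x : L1 I) : L1 ℕ × L1 I := (FF x, x)

/-- the inclusion of `ℓ_1` in its weighted version -/
noncomputable def jj : L1 ℕ →ₗ[ℝ] L1 ℕ × L1 I where
  toFun m := (mk (fun n => w n * m n) (Summable.of_nonneg_of_le (fun _ => abs_nonneg _)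
    (fun n => by
      rw [abs_mul, abs_of_pos (w_pos n)]
      exact mul_le_of_le_one_left (abs_nonneg _) (w_le_one n)) (summable_abs m)), 0)
  map_add' m m' := by
    refine Prod.ext ?_ (by simp)
    apply lp.ext; funext n
    show w n * (m n + m' n) = w n * m n + w n * m' n
    ring
  map_smul' c m := by
    refine Prod.ext ?_ (by simp)
    apply lp.ext; funext n
    show w n * (c * m n) = c * (w n * m n)
    ring

theorem jj_fst (m : L1 ℕ) (n : ℕ) : (jj m).1 n = w n * m n := rfl
theorem jj_snd (m : L1 ℕ) : (jj m).2 = 0 := rfl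

theorem jj_injective : Function.Injective jj := by
  intro m m' h
  apply lp.ext; funext n
  have h1 : (jj m).1 n = (jj m').1 n := by rw [h]
  rw [jj_fst, jj_fst] at h1
  exact mul_left_cancel₀ (w_pos n).ne' h1

theorem norm_jj_le (m : L1 ℕ) : ‖jj m‖ ≤ ‖m‖ := by
  rw [Prod.norm_def, jj_snd, norm_zero]
  refine max_le ?_ (norm_nonneg _)
  rw [norm_eq, norm_eq]
  refine (summable_abs _).tsum_le_tsum (fun n => ?_) (summable_abs m)
  rw [jj_fst, abs_mul, abs_of_pos (w_pos n)]
  exact mul_le_of_le_one_left (abs_nonneg _) (w_le_one n)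

/-- `M` -/
noncomputable def MM : Submodule ℝ (L1 ℕ × L1 I) := LinearMap.range jj

/-- `M` is a copy of `ℓ_1` -/
noncomputable def ee : L1 ℕ ≃ₗ[ℝ] MM := LinearEquiv.ofInjective jj jj_injective

/-- the norm of `M` -/
noncomputable def NM (m : MM) : ℝ := ‖ee.symm m‖

theorem complete_of_equiv {V : Type} [AddCommGroup V] [Module ℝ V] {W : Type}
    [NormedAddCommGroup W] [NormedSpace ℝ W] [CompleteSpace W] (e : W ≃ₗ[ℝ] V) :
    IsCompleteNorm fun v => ‖e.symm v‖ where
  add_le v w := by rw [map_add]; exact norm_add_le _ _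
  smul c v := by rw [map_smul, norm_smul, Real.norm_eq_abs]
  eq_zero v hv := by
    rw [norm_eq_zero] at hv
    exact (LinearEquiv.map_eq_zero_iff _).1 hv
  complete u hu := by
    have h1 : CauchySeq fun n => e.symm (u n) := by
      rw [Metric.cauchySeq_iff]
      intro ε hε
      obtain ⟨n₀, hn₀⟩ := hu ε hε
      refine ⟨n₀, fun m hm n hn => ?_⟩
      rw [dist_eq_norm, ← map_sub]
      exact hn₀ m hm n hn
    obtain ⟨w, hw⟩ := cauchySeq_tendsto_of_complete h1
    refine ⟨e w, ?_⟩
    rw [tendsto_iff_norm_sub_tendsto_zero] at hw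
    refine hw.congr fun n => ?_
    rw [map_sub, e.symm_apply_apply]

theorem NM_complete : IsCompleteNorm NM := complete_of_equiv ee

theorem norm_le_NM (m : MM) : ‖(m : L1 ℕ × L1 I)‖ ≤ NM m := by
  obtain ⟨x, rfl⟩ := ee.surjective m
  rw [NM, ee.symm_apply_apply]
  exact norm_jj_le x

theorem phi_linear_mod (a b : ℝ) (x y : L1 I) :
    phi (a • x + b • y) - (a • phi x + b • phi y) ∈ MM := by
  have hs : Summable fun n => |bF (blk (a • x + b • y : L1 I) n) - a * bF (blk x n) -
      b * bF (blk y n)| := by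
    refine Summable.of_nonneg_of_le (fun _ => abs_nonneg _) (fun n => ?_)
      (((summable_blk (a • x)).add (summable_blk (b • y))).mul_left 2)
    have h := bF_defect (blk (a • x : L1 I) n) (blk (b • y : L1 I) n)
    have e1 : blk (a • x : L1 I) n = a • blk x n := rfl
    have e2 : blk (b • y : L1 I) n = b • blk y n := rfl
    have e3 : blk (a • x + b • y : L1 I) n = blk (a • x : L1 I) n + blk (b • y : L1 I) n := rfl
    rw [e3, ← bF_smul, ← bF_smul, ← e1, ← e2]
    exact h
  refine ⟨mk _ hs, ?_⟩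
  refine Prod.ext ?_ ?_
  · apply lp.ext; funext n
    show w n * (bF (blk (a • x + b • y : L1 I) n) - a * bF (blk x n) - b * bF (blk y n)) =
      w n * bF (blk (a • x + b • y : L1 I) n) -
        (a * (w n * bF (blk x n)) + b * (w n * bF (blk y n)))
    ring
  · show (0 : L1 I) = (a • x + b • y) - (a • x + b • y)
    rw [sub_self]

/-- finite sections of `φ` -/
noncomputable def phiN (N : ℕ) (x : L1 I) : L1 ℕ × L1 I :=
  (∑ n ∈ Finset.range N, lp.single 1 n (FF x n), x)

theorem continuous_phiN (N : ℕ) : Continuous (phiN N) := by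
  refine Continuous.prodMk ?_ continuous_id
  refine continuous_finsetSum _ fun n _ => ?_
  have h1 : Continuous fun x : L1 I => FF x n := by
    have h2 : Continuous fun x : L1 I => blk x n :=
      continuous_pi fun i => continuous_coord (⟨n, i⟩ : I)
    exact continuous_const.mul (continuous_bF.comp h2)
  have h3 : Continuous fun c : ℝ => (lp.single 1 n c : L1 ℕ) := by
    have : (fun c : ℝ => (lp.single 1 n c : L1 ℕ)) = fun c => c • (lp.single 1 n (1 : ℝ) : L1 ℕ) := by
      funext c
      rw [← lp.single_smul]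
      simp
    rw [this]
    exact continuous_id.smul continuous_const
  exact h3.comp h1

theorem tendsto_phiN (x : L1 I) : Tendsto (fun N => phiN N x) atTop (𝓝 (phi x)) := by
  refine Tendsto.prodMk_nhds ?_ tendsto_const_nhds
  exact (lp.hasSum_single (by norm_num) (FF x)).tendsto_sum_nat

theorem measurable_phi : @Measurable (L1 I) (L1 ℕ × L1 I) (borel _) (borel _) phi := by
  let _ : MeasurableSpace (L1 I) := borel _
  let i2 : MeasurableSpace (L1 ℕ × L1 I) := borel _
  have _ : BorelSpace (L1 I) := ⟨rfl⟩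
  have b2 : @BorelSpace (L1 ℕ × L1 I) _ i2 := @BorelSpace.mk _ _ i2 rfl
  exact @measurable_of_tendsto_metrizable _ _ _ _ _ i2 b2 _ _
    (fun N => @Continuous.measurable _ _ _ _ _ _ i2 b2 _ (continuous_phiN N))
    (tendsto_pi_nhds.2 tendsto_phiN)

theorem separable (α : Type) [Countable α] : TopologicalSpace.SeparableSpace (L1 α) := by
  classical
  have h1 : (Set.range fun a : α => (lp.single 1 a (1 : ℝ) : L1 α)).Countable :=
    Set.countable_range _
  have h2 : TopologicalSpace.IsSeparable
      (Submodule.span ℝ (Set.range fun a : α => (lp.single 1 a (1 : ℝ) : L1 α)) : Set (L1 α)) :=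
    h1.isSeparable.span
  have h3 : closure (Submodule.span ℝ
      (Set.range fun a : α => (lp.single 1 a (1 : ℝ) : L1 α)) : Set (L1 α)) = Set.univ := by
    rw [Set.eq_univ_iff_forall]
    intro f
    refine mem_closure_of_tendsto (lp.hasSum_single (by norm_num) f)
      (Eventually.of_forall fun s => ?_)
    refine Submodule.sum_mem _ fun a _ => ?_
    have : (lp.single 1 a (f a) : L1 α) = f a • (lp.single 1 a (1 : ℝ) : L1 α) := by
      rw [← lp.single_smul]; simp
    rw [this]
    exact Submodule.smul_mem _ _ (Submodule.subset_span ⟨a, rfl⟩)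
  rw [← TopologicalSpace.isSeparable_univ_iff, ← h3]
  exact h2.closure

/-- selecting one coordinate of each block -/
noncomputable def sel (c : ∀ n, Fin (B n)) : L1 ℕ →ₗ[ℝ] L1 I where
  toFun a := mk (fun s : I => if s.2 = c s.1 then a s.1 else 0) (by
    rw [summable_sigma_of_nonneg fun _ => abs_nonneg _]
    refine ⟨fun n => Summable.of_finite, ?_⟩
    refine (summable_abs a).congr fun n => ?_
    rw [tsum_fintype]
    simp only [apply_ite abs, abs_zero]
    rw [Finset.sum_ite_eq']
    simp)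
  map_add' a b := by
    apply lp.ext; funext s
    show (if s.2 = c s.1 then a s.1 + b s.1 else 0) =
      (if s.2 = c s.1 then a s.1 else 0) + (if s.2 = c s.1 then b s.1 else 0)
    split_ifs <;> simp
  map_smul' r a := by
    apply lp.ext; funext s
    show (if s.2 = c s.1 then r * a s.1 else 0) = r * (if s.2 = c s.1 then a s.1 else 0)
    split_ifs <;> simp

theorem sel_apply (c : ∀ n, Fin (B n)) (a : L1 ℕ) (n : ℕ) (i : Fin (B n)) :
    sel c a ⟨n, i⟩ = if i = c n then a n else 0 := rfl

theorem bF_sel (c : ∀ n, Fin (B n)) (a : L1 ℕ) (n : ℕ) : bF (blk (sel c a) n) = 0 := by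
  unfold bF blk
  simp only [sel_apply, apply_ite eta, eta_zero]
  rw [Finset.sum_ite_eq', Finset.sum_ite_eq']
  simp

theorem phi_sel (c : ∀ n, Fin (B n)) (a : L1 ℕ) : phi (sel c a) = (0, sel c a) := by
  refine Prod.ext ?_ rfl
  apply lp.ext; funext n
  show w n * bF (blk (sel c a) n) = 0
  rw [bF_sel, mul_zero]

theorem not_banach {V : Submodule ℝ (L1 ℕ × L1 I)}
    (hV : ∀ y, y ∈ V ↔ ∃ x, ∃ m ∈ MM, y = phi x + m) {N : V → ℝ} (hN : IsCompleteNorm N) {C : ℝ}
    (hC : ∀ v : V, ‖(v : L1 ℕ × L1 I)‖ ≤ C * N v) : False := by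
  classical
  obtain ⟨W, _, _, _, e, he⟩ := hN.exists_banach
  let T : W →L[ℝ] L1 ℕ × L1 I := LinearMap.mkContinuous (V.subtype ∘ₗ e.toLinearMap) C (fun v => by
    rw [he]; exact hC _)
  have hT : ∀ v, T v = (e v : L1 ℕ × L1 I) := fun v => rfl
  have hTinj : Function.Injective T := fun v v' h => e.injective (Subtype.ext h)
  have hmem : ∀ (c : ∀ n, Fin (B n)) (a : L1 ℕ), ((0, sel c a) : L1 ℕ × L1 I) ∈ V := fun c a =>
    (hV _).2 ⟨sel c a, 0, zero_mem _, by rw [phi_sel, add_zero]⟩
  let Tc : (∀ n, Fin (B n)) → L1 ℕ →ₗ[ℝ] W := fun c =>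
    e.symm.toLinearMap ∘ₗ LinearMap.codRestrict V (LinearMap.prod 0 (sel c)) (hmem c)
  have hTTc : ∀ c a, T (Tc c a) = (0, sel c a) := by
    intro c a
    rw [hT]
    simp only [Tc, LinearMap.comp_apply, LinearEquiv.coe_coe, LinearEquiv.apply_symm_apply]
    rfl
  have hcont : ∀ c, Continuous (Tc c) := by
    intro c
    refine LinearMap.continuous_of_seq_closed_graph _ fun u x y hu hTu => ?_
    apply hTinj
    have h1 : Tendsto (fun k => T (Tc c (u k))) atTop (𝓝 (T y)) :=
      (T.continuous.tendsto y).comp hTu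
    simp only [hTTc] at h1 ⊢
    have h2 : Tendsto (fun k => sel c (u k)) atTop (𝓝 (T y).2) :=
      (continuous_snd.tendsto _).comp h1
    have h3 : Tendsto (fun _ : ℕ => (0 : L1 ℕ)) atTop (𝓝 (T y).1) :=
      (continuous_fst.tendsto _).comp h1
    refine Prod.ext (tendsto_nhds_unique h3 tendsto_const_nhds) ?_
    apply lp.ext; funext s
    have h4 : Tendsto (fun k => sel c (u k) s) atTop (𝓝 ((T y).2 s)) :=
      ((continuous_coord s).tendsto _).comp h2
    have h5 : Tendsto (fun k => sel c (u k) s) atTop (𝓝 (sel c x s)) := by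
      obtain ⟨n, i⟩ := s
      simp only [sel_apply]
      split_ifs
      · exact ((continuous_coord n).tendsto _).comp hu
      · exact tendsto_const_nhds
    exact tendsto_nhds_unique h4 h5
  -- the vectors `g n i`
  have hBne : ∀ n, Nonempty (Fin (B n)) := fun n => ⟨⟨0, B_pos n⟩⟩
  have hsingle : ∀ (c : ∀ n, Fin (B n)) (n : ℕ),
      sel c (lp.single 1 n (1 : ℝ) : L1 ℕ) = (lp.single 1 (⟨n, c n⟩ : I) (1 : ℝ) : L1 I) := by
    intro c n
    apply lp.ext; funext s
    obtain ⟨m, i⟩ := s
    rw [sel_apply, lp.single_apply, lp.single_apply]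
    by_cases hmn : m = n
    · subst hmn
      by_cases hi : i = c m
      · subst hi; simp
      · rw [if_neg hi, Pi.single_eq_of_ne]
        intro h; apply hi; simpa using h
    · have : (⟨m, i⟩ : I) ≠ ⟨n, c n⟩ := by
        intro h; apply hmn; exact (Sigma.mk.inj_iff.1 h).1
      rw [Pi.single_eq_of_ne this, Pi.single_eq_of_ne hmn, ite_self]
  have hmem2 : ∀ s : I, ((0, lp.single 1 s (1 : ℝ)) : L1 ℕ × L1 I) ∈ V := by
    rintro ⟨n, i⟩
    let c : ∀ n, Fin (B n) := Function.update (fun n => ⟨0, B_pos n⟩) n i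
    have h := hmem c (lp.single 1 n (1 : ℝ))
    rw [hsingle] at h
    have : c n = i := Function.update_self _ _ _
    rwa [this] at h
  let g : I → W := fun s => e.symm ⟨(0, lp.single 1 s (1 : ℝ)), hmem2 s⟩
  have hTg : ∀ s, T (g s) = (0, lp.single 1 s (1 : ℝ)) := by
    intro s; rw [hT]; simp [g]
  have hmax : ∀ n, ∃ i : Fin (B n), ∀ j : Fin (B n), ‖g ⟨n, j⟩‖ ≤ ‖g ⟨n, i⟩‖ := fun n =>
    Finite.exists_max fun j => ‖g ⟨n, j⟩‖
  choose c hc using hmax
  let S : L1 ℕ →L[ℝ] W := ⟨Tc c, hcont c⟩
  have hgS : ∀ n, g ⟨n, c n⟩ = S (lp.single 1 n (1 : ℝ)) := by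
    intro n
    apply hTinj
    rw [hTg]
    show _ = T (Tc c _)
    rw [hTTc, hsingle]
  have hK : ∀ s : I, ‖g s‖ ≤ ‖S‖ := by
    rintro ⟨n, j⟩
    refine (hc n j).trans ?_
    rw [hgS]
    refine (S.le_opNorm _).trans ?_
    rw [lp.norm_single (by norm_num), norm_one, mul_one]
  -- averages
  let av : ℕ → W := fun n => ((B n : ℝ))⁻¹ • ∑ i, g ⟨n, i⟩
  have hav : ∀ n, ‖av n‖ ≤ ‖S‖ := by
    intro n
    have hB : (0 : ℝ) < B n := by exact_mod_cast B_pos n
    rw [norm_smul, norm_inv, Real.norm_of_nonneg hB.le, inv_mul_le_iff₀ hB]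
    refine (norm_sum_le _ _).trans ?_
    refine (Finset.sum_le_sum fun i _ => hK ⟨n, i⟩).trans ?_
    simp
  have hTav : ∀ n, T (av n) =
      (0, ((B n : ℝ))⁻¹ • ∑ i : Fin (B n), (lp.single 1 (⟨n, i⟩ : I) (1 : ℝ) : L1 I)) := by
    intro n
    simp only [av, map_smul, map_sum, hTg]
    refine Prod.ext ?_ ?_
    · simp [Prod.fst_sum]
    · simp [Prod.snd_sum]
  let a : ℕ → ℝ := fun n => 1 / ((n : ℝ) + 1) ^ 2
  have ha0 : ∀ n, 0 < a n := fun n => by positivity
  have ha : Summable a := by
    have := (summable_nat_add_iff 1).2 (Real.summable_one_div_nat_pow.2 (one_lt_two))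
    simpa [a] using this
  have hsum : Summable fun n => a n • av n := by
    refine Summable.of_norm_bounded (ha.mul_right ‖S‖) fun n => ?_
    rw [norm_smul, Real.norm_of_nonneg (ha0 n).le]
    exact mul_le_mul_of_nonneg_left (hav n) (ha0 n).le
  let v : W := ∑' n, a n • av n
  have hTv : HasSum (fun n => a n • T (av n)) (T v) := by
    have := hsum.hasSum.mapL T
    simpa using this
  have hv1 : (T v).1 = 0 := by
    have h1 : HasSum (fun n => (a n • T (av n)).1) (T v).1 :=
      hTv.map (ContinuousLinearMap.fst ℝ (L1 ℕ) (L1 I)) (ContinuousLinearMap.continuous _)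
    have h2 : HasSum (fun n => (a n • T (av n)).1) 0 := by
      have : (fun n => (a n • T (av n)).1) = fun _ => (0 : L1 ℕ) := by
        funext n; rw [hTav]; simp
      rw [this]; exact hasSum_zero
    exact h1.unique h2
  have hv2 : ∀ m (i : Fin (B m)), (T v).2 ⟨m, i⟩ = a m / B m := by
    intro m i
    have h1 : HasSum (fun n => (a n • T (av n)).2 ⟨m, i⟩) ((T v).2 ⟨m, i⟩) :=
      hTv.map ((coord (⟨m, i⟩ : I)).comp (ContinuousLinearMap.snd ℝ (L1 ℕ) (L1 I)))
        (ContinuousLinearMap.continuous _)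
    have h2 : HasSum (fun n => (a n • T (av n)).2 ⟨m, i⟩) (a m / B m) := by
      have h3 : ∀ n, (a n • T (av n)).2 ⟨m, i⟩ = if n = m then a m / B m else 0 := by
        intro n
        rw [hTav]
        show a n * ((B n : ℝ)⁻¹ * (∑ j : Fin (B n), (lp.single 1 (⟨n, j⟩ : I) (1 : ℝ) : L1 I)) ⟨m, i⟩) = _
        have h4 : (∑ j : Fin (B n), (lp.single 1 (⟨n, j⟩ : I) (1 : ℝ) : L1 I)) ⟨m, i⟩ =
            ∑ j : Fin (B n), (lp.single 1 (⟨n, j⟩ : I) (1 : ℝ) : L1 I) ⟨m, i⟩ := by
          rw [← coord_apply, map_sum]; rfl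
        rw [h4]
        by_cases hnm : n = m
        · subst hnm
          have h5 : ∑ j : Fin (B n), (lp.single 1 (⟨n, j⟩ : I) (1 : ℝ) : L1 I) ⟨n, i⟩ = 1 := by
            rw [Finset.sum_eq_single i]
            · simp
            · intro j _ hj
              rw [lp.single_apply, Pi.single_eq_of_ne]
              intro h; apply hj; simpa using h.symm
            · intro h; exact absurd (Finset.mem_univ _) h
          rw [h5, if_pos rfl]; ring
        · have h5 : ∑ j : Fin (B n), (lp.single 1 (⟨n, j⟩ : I) (1 : ℝ) : L1 I) ⟨m, i⟩ = 0 := by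
            refine Finset.sum_eq_zero fun j _ => ?_
            rw [lp.single_apply, Pi.single_eq_of_ne]
            intro h; apply hnm; exact (Sigma.mk.inj_iff.1 h).1.symm
          rw [h5, if_neg hnm]; ring
      simp only [h3]
      have := hasSum_ite_eq m (a m / B m : ℝ)
      exact this
    exact h1.unique h2
  obtain ⟨x, m, ⟨m', rfl⟩, hx⟩ := (hV _).1 (e v).2
  rw [← hT] at hx
  have hx2 : (T v).2 = x := by
    rw [hx, Prod.snd_add, jj_snd, add_zero]; rfl
  have hm : ∀ n, m' n = Real.log 2 := by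
    intro n
    have h1 : (T v).1 n = w n * bF (blk x n) + w n * m' n := by
      rw [hx]; rfl
    have h1' : (0 : ℝ) = w n * (bF (blk x n) + m' n) := by
      rw [mul_add, ← h1, hv1]; rfl
    have h2 : bF (blk x n) + m' n = 0 := by
      rcases mul_eq_zero.1 h1'.symm with h | h
      · exact absurd h (w_pos n).ne'
      · exact h
    have hB : (0 : ℝ) < B n := by exact_mod_cast B_pos n
    have h3 : blk x n = fun _ => a n / B n := by
      funext i
      rw [← hx2]; exact hv2 n i
    have h4 : bF (blk x n) = - Real.log 2 := by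
      rw [h3]
      unfold bF
      rw [Finset.sum_const, Finset.sum_const, Finset.card_univ, Fintype.card_fin, nsmul_eq_mul,
        nsmul_eq_mul, mul_div_cancel₀ _ hB.ne', eta, eta, Real.log_div (ha0 n).ne' hB.ne', log_B]
      have : ((n : ℝ) + 1) ≠ 0 := by positivity
      simp only [a]
      field_simp
      ring
    linarith
  have h5 := (summable_abs m').tendsto_atTop_zero
  simp only [hm] at h5
  have h6 := tendsto_nhds_unique h5 tendsto_const_nhds
  have h7 := Real.log_pos one_lt_two
  rw [abs_of_pos h7] at h6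
  linarith

end Main

end Q101.BanachV
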