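import Mathlib

set_option autoImplicit false
set_option linter.unusedSectionVars false

open scoped ENNReal

namespace Q101.Blocks

/-- A norm on the coefficient space `ι → ℝ`. -/
structure NormOn (ι : Type) where
  N : (ι → ℝ) → ℝ
  add_le : ∀ u v, N (u + v) ≤ N u + N v
  smul_eq : ∀ (c : ℝ) u, N (c • u) = |c| * N u
  eq_zero : ∀ u, N u = 0 → u = 0

namespace NormOn

variable {ι : Type} (d : NormOn ι)

theorem zero : d.N 0 = 0 := by
  have := d.smul_eq 0 0
  simpa using this

theorem neg (u : ι → ℝ) : d.N (-u) = d.N u := by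
  have := d.smul_eq (-1) u
  simpa using this

theorem nonneg (u : ι → ℝ) : 0 ≤ d.N u := by
  have h := d.add_le u (-u)
  rw [add_neg_cancel, d.zero, d.neg] at h
  linarith

end NormOn

/-- The space `ι → ℝ` with the norm `d`. -/
def Blk {ι : Type} (_ : NormOn ι) : Type := ι → ℝ

namespace Blk

variable {ι : Type} (d : NormOn ι)

instance : AddCommGroup (Blk d) := inferInstanceAs (AddCommGroup (ι → ℝ))
instance : Module ℝ (Blk d) := inferInstanceAs (Module ℝ (ι → ℝ))
instance : Norm (Blk d) := ⟨fun u => d.N u⟩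

theorem norm_def (u : Blk d) : ‖u‖ = d.N u := rfl

theorem core : NormedSpace.Core ℝ (Blk d) where
  norm_nonneg u := d.nonneg u
  norm_smul c u := d.smul_eq c u
  norm_triangle u v := d.add_le u v
  norm_eq_zero_iff u := ⟨fun h => d.eq_zero u h, fun h => by subst h; exact d.zero⟩

noncomputable instance : NormedAddCommGroup (Blk d) := NormedAddCommGroup.ofCore (core d)
noncomputable instance : NormedSpace ℝ (Blk d) := NormedSpace.ofCore (core d)

instance [Finite ι] : FiniteDimensional ℝ (Blk d) :=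
  inferInstanceAs (FiniteDimensional ℝ (ι → ℝ))

instance [Finite ι] : CompleteSpace (Blk d) := FiniteDimensional.complete ℝ _

end Blk

section Sum

variable {ι : ℕ → Type} [∀ j, DecidableEq (ι j)]
  (d : ∀ j, NormOn (ι j)) (p : ℝ≥0∞) [Fact (1 ≤ p)]

/-- The `ℓ_p`-sum of the blocks. -/
abbrev Sp : Type := lp (fun j => Blk (d j)) p

/-- The element of the sum supported on block `j` with coefficients `u`. -/
noncomputable def blk (j : ℕ) (u : ι j → ℝ) : Sp d p :=
  lp.single (E := fun j => Blk (d j)) p j u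

/-- The basis vectors of the sum. -/
noncomputable def bv (s : Σ j, ι j) : Sp d p :=
  blk d p s.1 (Pi.single s.2 (1 : ℝ))

/-- The coordinate functionals. -/
def cf (s : Σ j, ι j) : Sp d p →ₗ[ℝ] ℝ where
  toFun f := (f s.1 : ι s.1 → ℝ) s.2
  map_add' _ _ := rfl
  map_smul' _ _ := rfl

/-- The coefficients in block `j`. -/
def co (f : Sp d p) (j : ℕ) : ι j → ℝ := f j

theorem co_apply (f : Sp d p) (j : ℕ) (i : ι j) : co d p f j i = cf d p ⟨j, i⟩ f := rfl

omit [∀ j, DecidableEq (ι j)] [Fact (1 ≤ p)] in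
theorem norm_apply (f : Sp d p) (j : ℕ) : ‖f j‖ = (d j).N (co d p f j) := rfl

theorem co_blk_same (j : ℕ) (u : ι j → ℝ) : co d p (blk d p j u) j = u :=
  lp.single_apply_self (E := fun j => Blk (d j)) p j u

theorem co_blk_ne {j k : ℕ} (h : k ≠ j) (u : ι j → ℝ) : co d p (blk d p j u) k = 0 :=
  lp.single_apply_ne (E := fun j => Blk (d j)) p j u h

theorem norm_blk (j : ℕ) (u : ι j → ℝ) : ‖blk d p j u‖ = (d j).N u := by
  have hp : 0 < p := zero_lt_one.trans_le Fact.out
  exact lp.norm_single (E := fun j => Blk (d j)) hp j u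

theorem cf_blk_same (j : ℕ) (i : ι j) (u : ι j → ℝ) : cf d p ⟨j, i⟩ (blk d p j u) = u i := by
  rw [← co_apply, co_blk_same]

theorem cf_blk_ne {j k : ℕ} (h : k ≠ j) (i : ι k) (u : ι j → ℝ) :
    cf d p ⟨k, i⟩ (blk d p j u) = 0 := by
  rw [← co_apply, co_blk_ne d p h]; rfl

theorem cf_bv (s t : Σ j, ι j) : cf d p s (bv d p t) = if s = t then 1 else 0 := by
  obtain ⟨j, i⟩ := s
  obtain ⟨k, l⟩ := t
  by_cases h : j = k
  · subst h
    rw [bv, cf_blk_same]
    by_cases h' : i = l
    · subst h'; simp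
    · rw [Pi.single_eq_of_ne h', if_neg]
      intro h''
      simp only [Sigma.mk.injEq, heq_eq_eq, true_and] at h''
      exact h' h''
  · rw [bv, cf_blk_ne d p h, if_neg]
    intro h''
    exact h (congrArg Sigma.fst h'')

theorem norm_bv (s : Σ j, ι j) : ‖bv d p s‖ = (d s.1).N (Pi.single s.2 1) := norm_blk d p _ _

theorem norm_block_le (f : Sp d p) (j : ℕ) : (d j).N (co d p f j) ≤ ‖f‖ := by
  have hp : p ≠ 0 := (zero_lt_one.trans_le Fact.out).ne'
  exact lp.norm_apply_le_norm hp f j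

theorem abs_cf_le {M : ℝ} (hM0 : 0 ≤ M) (hM : ∀ (j : ℕ) (i : ι j) (u : ι j → ℝ), |u i| ≤ M * (d j).N u)
    (s : Σ j, ι j) (f : Sp d p) : |cf d p s f| ≤ M * ‖f‖ :=
  (hM s.1 s.2 (co d p f s.1)).trans (mul_le_mul_of_nonneg_left (norm_block_le d p f s.1) hM0)

theorem co_add (f g : Sp d p) (j : ℕ) : co d p (f + g) j = co d p f j + co d p g j := rfl
theorem co_smul (c : ℝ) (f : Sp d p) (j : ℕ) : co d p (c • f) j = c • co d p f j := rfl
theorem co_sub (f g : Sp d p) (j : ℕ) : co d p (f - g) j = co d p f j - co d p g j := rfl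

theorem cf_sum (A : Finset (Σ j, ι j)) (c : (Σ j, ι j) → ℝ) (s : Σ j, ι j) :
    cf d p s (∑ t ∈ A, c t • bv d p t) = if s ∈ A then c s else 0 := by
  rw [map_sum]
  simp only [map_smul, cf_bv, smul_eq_mul, mul_ite, mul_one, mul_zero]
  rw [Finset.sum_ite_eq]

theorem co_sum (A : Finset (Σ j, ι j)) (c : (Σ j, ι j) → ℝ) (j : ℕ) :
    co d p (∑ t ∈ A, c t • bv d p t) j = fun i => if (⟨j, i⟩ : Σ j, ι j) ∈ A then c ⟨j, i⟩ else 0 := by
  funext i
  rw [co_apply, cf_sum]

theorem norm_le_of_block_le {C : ℝ} (hC : 0 ≤ C) (f g : Sp d p)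
    (h : ∀ j, (d j).N (co d p g j) ≤ C * (d j).N (co d p f j)) : ‖g‖ ≤ C * ‖f‖ := by
  have hp : p ≠ 0 := (zero_lt_one.trans_le Fact.out).ne'
  have h2 : ‖g‖ ≤ ‖C • f‖ := by
    apply lp.norm_mono hp
    intro j
    have : (C • f) j = C • f j := rfl
    rw [this, norm_smul, Real.norm_eq_abs, abs_of_nonneg hC]
    exact h j
  rwa [norm_smul, Real.norm_eq_abs, abs_of_nonneg hC] at h2

/-- an element is determined by its coefficients -/
theorem ext_cf {f g : Sp d p} (h : ∀ s, cf d p s f = cf d p s g) : f = g := by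
  apply lp.ext
  funext j
  funext i
  exact h ⟨j, i⟩

variable [∀ j, Fintype (ι j)]

theorem blk_mem_span (j : ℕ) (u : ι j → ℝ) :
    blk d p j u ∈ Submodule.span ℝ (Set.range (bv d p)) := by
  have : blk d p j u = ∑ i, u i • bv d p ⟨j, i⟩ := by
    apply ext_cf
    rintro ⟨k, l⟩
    rw [map_sum]
    simp only [map_smul, smul_eq_mul]
    by_cases h : k = j
    · subst h
      rw [cf_blk_same]
      rw [Finset.sum_eq_single l]
      · rw [cf_bv, if_pos rfl, mul_one]
      · intro b _ hb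
        rw [cf_bv, if_neg, mul_zero]
        intro h'
        simp only [Sigma.mk.injEq, heq_eq_eq, true_and] at h'
        exact hb h'.symm
      · simp
    · rw [cf_blk_ne d p h, Finset.sum_eq_zero]
      intro i _
      rw [cf_bv, if_neg, mul_zero]
      intro h'
      exact h (congrArg Sigma.fst h')
  rw [this]
  exact Submodule.sum_mem _ fun i _ => Submodule.smul_mem _ _ (Submodule.subset_span ⟨_, rfl⟩)

theorem dense_span (hp : p ≠ ⊤) (f : Sp d p) {ε : ℝ} (hε : 0 < ε) :
    ∃ g ∈ Submodule.span ℝ (Set.range (bv d p)), ‖f - g‖ < ε := by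
  have h := lp.hasSum_single (E := fun j => Blk (d j)) hp f
  rw [HasSum] at h
  have h2 := (Metric.tendsto_nhds.1 h ε hε).exists
  obtain ⟨s, hs⟩ := h2
  refine ⟨∑ j ∈ s, lp.single (E := fun j => Blk (d j)) p j (f j), ?_, ?_⟩
  · exact Submodule.sum_mem _ fun j _ => blk_mem_span d p j _
  · rw [dist_eq_norm] at hs
    rwa [norm_sub_rev] at hs

end Sum

section Iso

variable {ι : ℕ → Type} {d d' : ∀ j, NormOn (ι j)} {p : ℝ≥0∞} [Fact (1 ≤ p)]

/-- The blockwise map as a map of the sums. -/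
noncomputable def mapFun (φ : ∀ j, (ι j → ℝ) ≃ₗ[ℝ] (ι j → ℝ))
    (h : ∀ j u, (d' j).N (φ j u) = (d j).N u) (f : Sp d p) : Sp d' p :=
  ⟨(fun j => φ j (co d p f j) : ∀ j, Blk (d' j)),
    Memℓp.mono' (E := fun j => Blk (d' j)) (F := fun j => Blk (d j)) (lp.memℓp f)
      fun j => le_of_eq (h j (co d p f j))⟩

theorem co_mapFun (φ : ∀ j, (ι j → ℝ) ≃ₗ[ℝ] (ι j → ℝ))
    (h : ∀ j u, (d' j).N (φ j u) = (d j).N u) (f : Sp d p) (j : ℕ) :
    co d' p (mapFun φ h f) j = φ j (co d p f j) := rfl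

/-- Blockwise isometric isomorphisms give an isometric isomorphism of the sums. -/
noncomputable def mapIso (φ : ∀ j, (ι j → ℝ) ≃ₗ[ℝ] (ι j → ℝ))
    (h : ∀ j u, (d' j).N (φ j u) = (d j).N u) : Sp d p ≃ₗᵢ[ℝ] Sp d' p where
  toFun := mapFun φ h
  invFun := mapFun (fun j => (φ j).symm) (fun j u => by rw [← h j, LinearEquiv.apply_symm_apply])
  left_inv f := by
    apply lp.ext
    funext j
    exact (φ j).symm_apply_apply _
  right_inv f := by
    apply lp.ext
    funext j
    exact (φ j).apply_symm_apply _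
  map_add' f g := by
    apply lp.ext
    funext j
    exact map_add (φ j) _ _
  map_smul' c f := by
    apply lp.ext
    funext j
    exact map_smul (φ j) c _
  norm_map' f := by
    have hp : p ≠ 0 := (zero_lt_one.trans_le Fact.out).ne'
    exact le_antisymm (lp.norm_mono hp fun j => (h j (co d p f j)).le)
      (lp.norm_mono hp fun j => (h j (co d p f j)).ge)

end Iso

section Enum

variable (ι : ℕ → Type) [∀ j, Fintype (ι j)] [∀ j, Nonempty (ι j)]

theorem nonempty_enum : Nonempty (ℕ ≃ Σ j, ι j) := by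
  classical
  have : Infinite (Σ j, ι j) := by
    apply Infinite.of_injective (fun j : ℕ => (⟨j, Classical.arbitrary (ι j)⟩ : Σ j, ι j))
    intro a b h
    exact congrArg Sigma.fst h
  have : Countable (Σ j, ι j) := by infer_instance
  obtain ⟨h⟩ := nonempty_denumerable (Σ j, ι j)
  exact ⟨(Denumerable.eqv _).symm⟩

end Enum

end Q101.Blocks
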