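import Pool.Agent.Q101.BmS2

/-!
# Radial functions, limits of exponents, exponent two, metric transforms
-/

set_option autoImplicit false
set_option linter.unusedVariables false
set_option linter.unusedSectionVars false

namespace Pool.Agent.Q101.Bm

open MeasureTheory Filter Topology
open scoped BigOperators InnerProductSpace ENNReal

theorem rad : S_rad := by
  intro E _ _ hAT h hc hinv x y hxy
  rcases eq_or_ne x 0 with rfl | hx
  · rw [norm_zero] at hxy
    rw [norm_eq_zero.1 hxy.symm]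
  have hs : 0 < ‖x‖ := norm_pos_iff.2 hx
  set s := ‖x‖ with hs'
  have hx1 : ‖s⁻¹ • x‖ = 1 := by
    rw [norm_smul, norm_inv, Real.norm_of_nonneg hs.le, ← hs', inv_mul_cancel₀ hs.ne']
  have hy1 : ‖s⁻¹ • y‖ = 1 := by
    rw [norm_smul, norm_inv, Real.norm_of_nonneg hs.le, ← hxy, inv_mul_cancel₀ hs.ne']
  by_contra hne
  have hpos : 0 < |h x - h y| := abs_pos.2 (sub_ne_zero.2 hne)
  obtain ⟨δ, hδ, hδ'⟩ := Metric.continuous_iff.1 hc y _ hpos
  obtain ⟨T, hT⟩ := hAT _ _ hx1 hy1 (δ / s) (div_pos hδ hs)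
  have h1 : ‖T x - y‖ < δ := by
    have e : T x - y = s • (T (s⁻¹ • x) - s⁻¹ • y) := by
      rw [smul_sub, map_smul, smul_smul, smul_smul, mul_inv_cancel₀ hs.ne', one_smul, one_smul]
    rw [e, norm_smul, Real.norm_of_nonneg hs.le]
    calc s * ‖T (s⁻¹ • x) - s⁻¹ • y‖ < s * (δ / s) := by
          exact mul_lt_mul_of_pos_left hT hs
      _ = δ := by field_simp
  have h2 := hδ' (T x) (by rw [dist_eq_norm]; exact h1)
  rw [hinv, Real.dist_eq] at h2
  exact lt_irrefl _ h2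

theorem lim : S_lim := by
  intro E _ α hα h n x c hc
  have key : ∀ η : ℝ, 0 < η → ∃ β : ℝ, 0 < β ∧ CND (fun x : E => ‖x‖ ^ β) ∧
      |∑ i, ∑ j, c i * c j * ‖x i - x j‖ ^ β - ∑ i, ∑ j, c i * c j * ‖x i - x j‖ ^ α| < η := by
    intro η hη
    have hcont : ContinuousAt (fun β : ℝ => ∑ i, ∑ j, c i * c j * ‖x i - x j‖ ^ β) α := by
      apply tendsto_finsetSum
      intro i _
      apply tendsto_finsetSum
      intro j _
      apply Tendsto.const_mul
      rcases eq_or_ne ‖x i - x j‖ 0 with h0 | h0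
      · rw [h0]
        have : ∀ᶠ β in 𝓝 α, (0:ℝ) ^ α = (0:ℝ) ^ β := by
          filter_upwards [lt_mem_nhds hα] with β hβ
          rw [Real.zero_rpow hα.ne', Real.zero_rpow hβ.ne']
        exact tendsto_const_nhds.congr' this
      · exact (Real.continuousAt_const_rpow h0)
    obtain ⟨δ, hδ, hδ'⟩ := Metric.continuousAt_iff.1 hcont η hη
    obtain ⟨β, hβ, hβ', hβ''⟩ := h δ hδ
    refine ⟨β, hβ, hβ'', ?_⟩
    have := hδ' (x := β) (by rw [Real.dist_eq]; exact hβ')
    rwa [Real.dist_eq] at this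
  by_contra hcon
  push Not at hcon
  obtain ⟨β, hβ, hβ', hβ''⟩ := key _ hcon
  have h1 := hβ' n x c hc
  simp only at h1
  rw [abs_lt] at hβ''
  linarith [hβ''.1]

theorem par : S_par := by
  intro E _ _
  constructor
  · intro h
    have four : ∀ u v : E, ‖(2:ℝ) • u‖ ^ 2 + ‖(2:ℝ) • v‖ ^ 2 ≤ 2 * ‖u - v‖ ^ 2 + 2 * ‖u + v‖ ^ 2 := by
      intro u v
      have h1 := h 4 ![u, -u, v, -v] ![1, 1, -1, -1] (by simp [Fin.sum_univ_succ])
      have e1 : ‖u - -u‖ = ‖(2:ℝ) • u‖ := by congr 1; rw [two_smul]; abel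
      have e2 : ‖-u - u‖ = ‖(2:ℝ) • u‖ := by rw [← norm_neg]; congr 1; rw [two_smul]; abel
      have e3 : ‖v - -v‖ = ‖(2:ℝ) • v‖ := by congr 1; rw [two_smul]; abel
      have e4 : ‖-v - v‖ = ‖(2:ℝ) • v‖ := by rw [← norm_neg]; congr 1; rw [two_smul]; abel
      have e5 : ‖u - -v‖ = ‖u + v‖ := by congr 1; abel
      have e6 : ‖v - -u‖ = ‖u + v‖ := by congr 1; abel
      have e7 : ‖-u - v‖ = ‖u + v‖ := by rw [← norm_neg]; congr 1; abel
      have e8 : ‖-v - u‖ = ‖u + v‖ := by rw [← norm_neg]; congr 1; abel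
      have e9 : ‖v - u‖ = ‖u - v‖ := norm_sub_rev _ _
      have e10 : ‖-u - -v‖ = ‖u - v‖ := by rw [← norm_neg]; congr 1; abel
      have e11 : ‖-v - -u‖ = ‖u - v‖ := by congr 1; abel
      simp only [Fin.sum_univ_succ, Fin.sum_univ_zero, Matrix.cons_val_zero, Matrix.cons_val_succ,
        Real.rpow_two, e1, e2, e3, e4, e5, e6, e7, e8, e9, e10, e11, sub_self, norm_zero] at h1
      norm_num at h1
      linarith
    intro x y
    have h2 : ∀ u : E, ‖(2:ℝ) • u‖ = 2 * ‖u‖ := by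
      intro u; rw [norm_smul]; simp
    have a1 := four x y
    have a2 := four (x + y) (x - y)
    have e1 : x + y - (x - y) = (2:ℝ) • y := by rw [two_smul]; abel
    have e2 : x + y + (x - y) = (2:ℝ) • x := by rw [two_smul]; abel
    rw [e1, e2, h2, h2, h2, h2] at a2
    rw [h2, h2] at a1
    nlinarith
  · intro h x y
    rw [not_lt, rank_le_one_iff] at h
    obtain ⟨e, he⟩ := h
    obtain ⟨a, rfl⟩ := he x
    obtain ⟨b, rfl⟩ := he y
    rw [← add_smul, ← sub_smul, norm_smul, norm_smul, norm_smul, norm_smul]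
    simp only [Real.norm_eq_abs]
    have s1 := abs_mul_abs_self (a + b)
    have s2 := abs_mul_abs_self (a - b)
    have s3 := abs_mul_abs_self a
    have s4 := abs_mul_abs_self b
    calc |a + b| * ‖e‖ * (|a + b| * ‖e‖) + |a - b| * ‖e‖ * (|a - b| * ‖e‖)
        = (|a + b| * |a + b| + |a - b| * |a - b|) * (‖e‖ * ‖e‖) := by ring
      _ = 2 * (|a| * |a| + |b| * |b|) * (‖e‖ * ‖e‖) := by rw [s1, s2, s3, s4]; ring
      _ = _ := by ring

theorem mt (h : S_exp) : S_mt := by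
  intro E _ _ K _ _ f τ hf hτ hne
  have hτ0 : ∀ x : E, ‖f x - f 0‖ = τ ‖x‖ := fun x => by rw [hτ, sub_zero]
  refine ⟨fun x => Real.exp (-(‖f x - f 0‖ ^ 2)), by fun_prop, ?_, ?_, by simp, ?_⟩
  · refine h E (fun x => ‖f x - f 0‖ ^ 2) ?_ ?_ (by simp)
    · intro n x c hc
      have e : ∀ i j, ‖f (x i - x j) - f 0‖ ^ 2 = ‖f (x i) - f (x j)‖ ^ 2 := by
        intro i j; rw [hτ0, hτ]
      simp only [e]
      have key : ∑ i, ∑ j, c i * c j * ‖f (x i) - f (x j)‖ ^ 2 =
          -2 * ‖∑ i, c i • f (x i)‖ ^ 2 := by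
        have e1 : ∀ i j, c i * c j * ‖f (x i) - f (x j)‖ ^ 2 =
            c j * (c i * ‖f (x i)‖ ^ 2) + c i * (c j * ‖f (x j)‖ ^ 2)
              - 2 * (⟪c i • f (x i), c j • f (x j)⟫_ℝ) := by
          intro i j
          rw [norm_sub_sq_real, real_inner_smul_left, real_inner_smul_right]
          ring
        simp only [e1, Finset.sum_sub_distrib, Finset.sum_add_distrib]
        have e2 : ∑ i, ∑ j, c j * (c i * ‖f (x i)‖ ^ 2) = 0 := by
          simp only [← Finset.sum_mul, hc, zero_mul, Finset.sum_const_zero]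
        have e3 : ∑ i, ∑ j, c i * (c j * ‖f (x j)‖ ^ 2) = 0 := by
          simp only [← Finset.mul_sum]
          rw [← Finset.sum_mul, hc, zero_mul]
        have e4 : ∑ i, ∑ j, 2 * ⟪c i • f (x i), c j • f (x j)⟫_ℝ =
            2 * ‖∑ i, c i • f (x i)‖ ^ 2 := by
          rw [← real_inner_self_eq_norm_sq, sum_inner, Finset.mul_sum]
          apply Finset.sum_congr rfl
          intro i _
          rw [inner_sum, Finset.mul_sum]
        rw [e2, e3, e4]; ring
      rw [key]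
      nlinarith [sq_nonneg ‖∑ i, c i • f (x i)‖]
    · intro x
      show ‖f (-x) - f 0‖ ^ 2 = ‖f x - f 0‖ ^ 2
      rw [hτ0, hτ0, norm_neg]
  · intro x y hxy
    show Real.exp _ = Real.exp _
    rw [hτ0, hτ0, hxy]
  · obtain ⟨x, y, hxy⟩ := hne
    refine ⟨x - y, ?_⟩
    have h1 : 0 < ‖f x - f y‖ := norm_pos_iff.2 (sub_ne_zero.2 hxy)
    have h2 : ‖f (x - y) - f 0‖ = ‖f x - f y‖ := by rw [hτ0, hτ]
    show Real.exp (-(‖f (x - y) - f 0‖ ^ 2)) < 1
    rw [h2, Real.exp_lt_one_iff]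
    have := pow_pos h1 2
    linarith

end Pool.Agent.Q101.Bm
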