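import Pool.Agent.Q101.BmSg

/-!
# The dyadic decomposition by norms
-/

set_option autoImplicit false
set_option linter.unusedVariables false
set_option linter.unusedSectionVars false

namespace Pool.Agent.Q101.Bm

section

variable {E : Type} [NormedAddCommGroup E] [NormedSpace ℝ E]

lemma bkt_unit (h : S_kah) {r R δ : ℝ} (hr : 1 ≤ r) (hR : 0 ≤ R) (hδ : 0 ≤ δ)
    (H : ∀ l : List E, (∀ z ∈ l, ‖z‖ = 1) → sg (fun x : E => ‖x‖ ^ r) l 0 ≤ R + δ * l.length)
    (l : List E) (hl : ∀ z ∈ l, ‖z‖ = 1) (n : ℕ) (hn : l.length ≤ n) :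
    sN l 0 ≤ 3 * (R + δ * n) ^ (1 / r) := by
  have h1 : 0 ≤ sg (fun x : E => ‖x‖) l 0 := sgl_nonneg (fun x => norm_nonneg x) l 0
  have h2 : sN l 0 ≤ 3 * sg (fun x : E => ‖x‖) l 0 := by
    have : sN l 0 ^ 2 ≤ (3 * sg (fun x : E => ‖x‖) l 0) ^ 2 := by
      rw [sN_sq, mul_pow]
      have := h E l
      linarith
    exact (abs_le_of_sq_le_sq' this (by positivity)).2
  have h3 : sg (fun x : E => ‖x‖) l 0 ≤ (R + δ * n) ^ (1 / r) := by
    have h4 : (sg (fun x : E => ‖x‖) l 0) ^ r ≤ R + δ * n := by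
      refine (sgl_rpow_le (fun x => norm_nonneg x) hr l 0).trans ((H l hl).trans ?_)
      have : (l.length : ℝ) ≤ n := by exact_mod_cast hn
      nlinarith
    have hr0 : r ≠ 0 := by linarith
    calc sg (fun x : E => ‖x‖) l 0 = ((sg (fun x : E => ‖x‖) l 0) ^ r) ^ (1 / r) := by
          rw [← Real.rpow_mul h1, mul_one_div_cancel hr0, Real.rpow_one]
      _ ≤ _ := Real.rpow_le_rpow (Real.rpow_nonneg h1 _) h4 (by positivity)
  linarith

/-- normalised vectors -/
noncomputable def bkt_u (e z : E) : E := by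
  classical exact if z = 0 then e else ‖z‖⁻¹ • z

lemma bkt_u_norm {e : E} (he : ‖e‖ = 1) (z : E) : ‖bkt_u e z‖ = 1 := by
  unfold bkt_u
  split_ifs with h
  · exact he
  · rw [norm_smul, norm_inv, norm_norm, inv_mul_cancel₀ (norm_ne_zero_iff.2 h)]

lemma bkt_u_smul {e : E} (z : E) : ‖z‖ • bkt_u e z = z := by
  unfold bkt_u
  split_ifs with h
  · rw [h, norm_zero, zero_smul]
  · rw [smul_smul, mul_inv_cancel₀ (norm_ne_zero_iff.2 h), one_smul]

lemma bkt_small (h : S_kah) {r R δ : ℝ} (hr : 1 ≤ r) (hR : 0 ≤ R) (hδ : 0 ≤ δ)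
    (H : ∀ l : List E, (∀ z ∈ l, ‖z‖ = 1) → sg (fun x : E => ‖x‖ ^ r) l 0 ≤ R + δ * l.length)
    {e : E} (he : ‖e‖ = 1) {c : ℝ} (hc : 0 < c)
    (l : List E) (hl : ∀ z ∈ l, ‖z‖ ≤ c) (n : ℕ) (hn : l.length ≤ n) :
    sN l 0 ≤ c * (3 * (R + δ * n) ^ (1 / r)) := by
  have h1 := bkt_unit h hr hR hδ H (l.map (bkt_u e)) (by
    intro z hz
    obtain ⟨w, _, rfl⟩ := List.mem_map.1 hz
    exact bkt_u_norm he w) n (by rwa [List.length_map])
  have hconv : ConvexOn ℝ Set.univ (fun x : E => ‖x‖ ^ 2) :=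
    convexOn_univ_norm.pow (fun x _ => norm_nonneg x) 2
  have h2 : List.Forall₂ (fun z w => ∃ t : ℝ, |t| ≤ 1 ∧ z = t • w) l
      ((l.map (bkt_u e)).map fun z => c • z) := by
    clear h1 hn
    induction l with
    | nil => exact List.Forall₂.nil
    | cons z l ih =>
      rw [List.map_cons, List.map_cons]
      refine List.Forall₂.cons ⟨‖z‖ / c, ?_, ?_⟩ (ih fun w hw => hl w (List.mem_cons_of_mem _ hw))
      · rw [abs_of_nonneg (by positivity), div_le_one hc]
        exact hl z List.mem_cons_self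
      · rw [smul_smul, div_mul_cancel₀ _ hc.ne', bkt_u_smul]
  have h3 := sgl_contr hconv h2 0
  have h4 := sgl_map_smul (fun x : E => ‖x‖ ^ 2) c (l.map (bkt_u e)) 0
  rw [smul_zero] at h4
  have e1 : (fun y : E => ‖c • y‖ ^ 2) = fun y => c ^ 2 * ‖y‖ ^ 2 := by
    funext y
    rw [norm_smul, mul_pow, Real.norm_of_nonneg hc.le]
  rw [e1, sgl_mul] at h4
  rw [h4, ← sN_sq, ← sN_sq, ← mul_pow] at h3
  have h5 := abs_le_of_sq_le_sq' h3 (mul_nonneg hc.le (sN_nonneg _ _)) |>.2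
  exact h5.trans (mul_le_mul_of_nonneg_left h1 hc.le)

lemma bkt_sum_filter (p : E → Bool) (l : List E) :
    ((l.filter p).map fun z => ‖z‖ ^ 2).sum ≤ (l.map fun z => ‖z‖ ^ 2).sum := by
  induction l with
  | nil => simp
  | cons z l ih =>
    rw [List.filter_cons]
    split_ifs
    · simpa using ih
    · rw [List.map_cons, List.sum_cons]
      have := sq_nonneg ‖z‖
      linarith

lemma bkt_count {b : ℝ} (hb : 0 ≤ b) (l : List E) (hl : ∀ z ∈ l, b ≤ ‖z‖) :
    (l.length : ℝ) * b ^ 2 ≤ (l.map fun z => ‖z‖ ^ 2).sum := by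
  induction l with
  | nil => simp
  | cons z l ih =>
    rw [List.map_cons, List.sum_cons, List.length_cons]
    have h1 := ih fun w hw => hl w (List.mem_cons_of_mem _ hw)
    have h2 := pow_le_pow_left₀ hb (hl z List.mem_cons_self) 2
    push_cast
    linarith

lemma bkt_dec (h : S_kah) {r R δ : ℝ} (hr : 1 ≤ r) (hR : 0 ≤ R) (hδ : 0 ≤ δ)
    (H : ∀ l : List E, (∀ z ∈ l, ‖z‖ = 1) → sg (fun x : E => ‖x‖ ^ r) l 0 ≤ R + δ * l.length)
    {e : E} (he : ‖e‖ = 1) {s : ℝ} (hs : 0 < s) (M : ℕ) (i : ℕ) : ∀ (j : ℕ), j + i = M →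
    ∀ l : List E, l.length ≤ 4 ^ M → (∀ z ∈ l, ‖z‖ ≤ (1 / 2) ^ j * s) →
      (l.map fun z => ‖z‖ ^ 2).sum ≤ s ^ 2 →
      sN l 0 ≤ ∑ k ∈ Finset.Ico j (M + 1),
        ((1 / 2 : ℝ) ^ k * s) * (3 * (R + δ * ((4 ^ (k + 1) : ℕ) : ℝ)) ^ (1 / r)) := by
  induction i with
  | zero =>
    intro j hj l hl1 hl2 hl3
    obtain rfl : j = M := by omega
    rw [Nat.Ico_succ_singleton, Finset.sum_singleton]
    exact bkt_small h hr hR hδ H he (by positivity) l hl2 _
      (hl1.trans (Nat.pow_le_pow_right (by norm_num) (by omega)))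
  | succ i ih =>
    intro j hj l hl1 hl2 hl3
    classical
    set p : E → Bool := fun z => decide ((1 / 2 : ℝ) ^ (j + 1) * s < ‖z‖) with hp
    have hperm := (List.filter_append_perm p l).symm
    rw [sN_perm hperm]
    refine (sN_append_le _ _).trans ?_
    rw [Finset.sum_eq_sum_Ico_succ_bot (by omega)]
    refine add_le_add ?_ ?_
    · refine bkt_small h hr hR hδ H he (by positivity) _ ?_ _ ?_
      · intro z hz
        exact hl2 z (List.mem_of_mem_filter hz)
      · have h1 := bkt_count (b := (1 / 2 : ℝ) ^ (j + 1) * s) (by positivity) (l.filter p) (by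
          intro z hz
          have := List.of_mem_filter hz
          rw [hp, decide_eq_true_eq] at this
          exact this.le)
        have h2 := h1.trans ((bkt_sum_filter p l).trans hl3)
        have h3 : ((1 / 2 : ℝ) ^ (j + 1) * s) ^ 2 * 4 ^ (j + 1) = s ^ 2 := by
          rw [mul_pow, ← pow_mul, mul_comm (j + 1) 2, pow_mul, mul_right_comm, ← mul_pow]
          norm_num
        have h4 : ((l.filter p).length : ℝ) * s ^ 2 ≤ 4 ^ (j + 1) * s ^ 2 := by
          calc ((l.filter p).length : ℝ) * s ^ 2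
              = ((l.filter p).length : ℝ) * ((1 / 2 : ℝ) ^ (j + 1) * s) ^ 2 * 4 ^ (j + 1) := by
                rw [mul_assoc, h3]
            _ ≤ s ^ 2 * 4 ^ (j + 1) := mul_le_mul_of_nonneg_right h2 (by positivity)
            _ = _ := mul_comm _ _
        have h5 := le_of_mul_le_mul_right h4 (by positivity)
        exact_mod_cast h5
    · refine ih (j + 1) (by omega) _ ?_ ?_ ?_
      · exact (List.length_filter_le _ _).trans hl1
      · intro z hz
        have := List.of_mem_filter hz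
        simp only [hp, Bool.not_eq_true', decide_eq_false_iff_not, not_lt] at this
        exact this
      · exact (bkt_sum_filter _ l).trans hl3

end

theorem bkt (h : S_kah) : S_bkt := by
  intro E _ _ r hr hr2 H
  have hr0 : 0 < r := by linarith
  -- the ratio
  set g : ℝ := (4 : ℝ) ^ (1 / r) / 2 with hg
  have hg1 : 1 < g := by
    rw [hg, lt_div_iff₀ (by norm_num)]
    have h1 : (4 : ℝ) ^ (1 / 2 : ℝ) < (4 : ℝ) ^ (1 / r) :=
      Real.rpow_lt_rpow_of_exponent_lt (by norm_num) (one_div_lt_one_div_of_lt hr0 hr2)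
    have h2 : (4 : ℝ) ^ (1 / 2 : ℝ) = 2 := by
      rw [show (4 : ℝ) = 2 ^ (2 : ℝ) by norm_num, ← Real.rpow_mul (by norm_num)]
      norm_num
    linarith
  have hg0 : 0 < g := by linarith
  have hgM : ∀ M : ℕ, (2 : ℝ) ^ ((2 / r - 1) * M) = g ^ M := by
    intro M
    rw [Real.rpow_mul (by norm_num), Real.rpow_natCast]
    congr 1
    rw [hg, Real.rpow_sub (by norm_num), Real.rpow_one,
      show (4 : ℝ) = 2 ^ (2 : ℝ) by norm_num, ← Real.rpow_mul (by norm_num)]
    congr 2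
    ring
  have h4r : (4 : ℝ) ^ (1 / r) ≤ 4 := by
    have : (4 : ℝ) ^ (1 / r) ≤ (4 : ℝ) ^ (1 : ℝ) :=
      Real.rpow_le_rpow_of_exponent_le (by norm_num) (by
        rw [div_le_one hr0]; exact hr)
    rwa [Real.rpow_one] at this
  set κ : ℝ := (g - 1) / (48 * g) with hκ
  have hκ0 : 0 < κ := div_pos (by linarith) (by positivity)
  set δ : ℝ := κ ^ r with hδ
  have hδ0 : 0 < δ := Real.rpow_pos_of_pos hκ0 _
  have hδ1 : δ ^ (1 / r) = κ := by
    rw [hδ, ← Real.rpow_mul hκ0.le, mul_one_div_cancel hr0.ne', Real.rpow_one]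
  obtain ⟨R₀, hR₀⟩ := H δ hδ0
  set R : ℝ := max R₀ 0 with hR
  have hR0 : 0 ≤ R := le_max_right _ _
  have H' : ∀ l : List E, (∀ z ∈ l, ‖z‖ = 1) →
      sg (fun x : E => ‖x‖ ^ r) l 0 ≤ R + δ * l.length := by
    intro l hl
    refine (hR₀ l hl).trans ?_
    have := le_max_left R₀ 0
    linarith
  obtain ⟨m, hm⟩ := pow_unbounded_of_one_lt (24 * R ^ (1 / r)) hg1
  refine ⟨m + 1, by omega, ?_⟩
  intro l hl
  set M := m + 1 with hM
  have hRM : 6 * R ^ (1 / r) ≤ g ^ M / 4 := by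
    have : g ^ m ≤ g ^ M := pow_le_pow_right₀ hg1.le (by omega)
    linarith
  rw [hgM]
  set T : ℝ := (l.map fun z => ‖z‖ ^ 2).sum with hT
  have hT0 : 0 ≤ T := List.sum_nonneg (by
    intro x hx
    obtain ⟨w, _, rfl⟩ := List.mem_map.1 hx
    exact sq_nonneg _)
  by_cases hE : ∃ e : E, ‖e‖ = 1
  swap
  · have h0 : ∀ x : E, ‖x‖ = 0 := by
      intro x
      by_contra hx
      exact hE ⟨‖x‖⁻¹ • x, by rw [norm_smul, norm_inv, norm_norm, inv_mul_cancel₀ hx]⟩
    have h1 : (fun x : E => ‖x‖ ^ 2) = fun _ => 0 := by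
      funext x; rw [h0]; norm_num
    rw [h1, sgl_const]
    positivity
  obtain ⟨e, he⟩ := hE
  -- the main estimate
  have main : ∀ s : ℝ, 0 < s → T ≤ s ^ 2 → sN l 0 ≤ s * (g ^ M / 2) := by
    intro s hs hTs
    have h1 := bkt_dec h hr hR0 hδ0.le H' he hs M M 0 (by omega) l hl (by
      intro z hz
      have h2 : ‖z‖ ^ 2 ≤ T := by
        apply List.single_le_sum
        · intro x hx
          obtain ⟨w, _, rfl⟩ := List.mem_map.1 hx
          exact sq_nonneg _
        · exact List.mem_map.2 ⟨z, hz, rfl⟩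
      rw [pow_zero, one_mul]
      exact (abs_le_of_sq_le_sq' (h2.trans hTs) hs.le).2) hTs
    refine h1.trans ?_
    have h2 : ∀ k ∈ Finset.Ico 0 (M + 1),
        ((1 / 2 : ℝ) ^ k * s) * (3 * (R + δ * ((4 ^ (k + 1) : ℕ) : ℝ)) ^ (1 / r)) ≤
          (3 * s * R ^ (1 / r)) * (1 / 2 : ℝ) ^ k + (12 * s * κ) * g ^ k := by
      intro k _
      have h3 : (R + δ * ((4 ^ (k + 1) : ℕ) : ℝ)) ^ (1 / r) ≤
          R ^ (1 / r) + (δ * ((4 ^ (k + 1) : ℕ) : ℝ)) ^ (1 / r) :=
        Real.rpow_add_le_add_rpow hR0 (by positivity) (by positivity) (by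
          rw [div_le_one hr0]; exact hr)
      have h4 : (δ * ((4 ^ (k + 1) : ℕ) : ℝ)) ^ (1 / r) = κ * ((4 : ℝ) ^ (1 / r) * (2 * g) ^ k) := by
        rw [Real.mul_rpow hδ0.le (by positivity), hδ1]
        congr 1
        push_cast
        rw [← Real.rpow_natCast, ← Real.rpow_mul (by norm_num), mul_comm, Real.rpow_mul (by norm_num),
          Real.rpow_natCast, pow_succ, mul_comm]
        congr 2
        rw [hg]; ring
      have h5 : (1 / 2 : ℝ) ^ k * (2 * g) ^ k = g ^ k := by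
        rw [← mul_pow]; congr 1; ring
      calc ((1 / 2 : ℝ) ^ k * s) * (3 * (R + δ * ((4 ^ (k + 1) : ℕ) : ℝ)) ^ (1 / r))
          ≤ ((1 / 2 : ℝ) ^ k * s) * (3 * (R ^ (1 / r) + κ * ((4 : ℝ) ^ (1 / r) * (2 * g) ^ k))) := by
            rw [h4] at h3
            gcongr
        _ = (3 * s * R ^ (1 / r)) * (1 / 2 : ℝ) ^ k
              + (3 * s * κ) * ((4 : ℝ) ^ (1 / r) * ((1 / 2 : ℝ) ^ k * (2 * g) ^ k)) := by ring
        _ ≤ (3 * s * R ^ (1 / r)) * (1 / 2 : ℝ) ^ k + (3 * s * κ) * (4 * g ^ k) := by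
            rw [h5]
            gcongr
        _ = _ := by ring
    refine (Finset.sum_le_sum h2).trans ?_
    rw [Finset.sum_add_distrib, ← Finset.mul_sum, ← Finset.mul_sum, Nat.Ico_zero_eq_range]
    have h6 : ∑ k ∈ Finset.range (M + 1), (1 / 2 : ℝ) ^ k ≤ 2 := by
      rw [geom_sum_eq (by norm_num)]
      have : (0 : ℝ) < (1 / 2 : ℝ) ^ (M + 1) := by positivity
      rw [div_le_iff_of_neg (by norm_num)]
      linarith
    have h7 : ∑ k ∈ Finset.range (M + 1), g ^ k ≤ g ^ M * g / (g - 1) := by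
      rw [geom_sum_eq hg1.ne', pow_succ]
      have : 0 < g - 1 := by linarith
      gcongr
      linarith
    calc (3 * s * R ^ (1 / r)) * ∑ k ∈ Finset.range (M + 1), (1 / 2 : ℝ) ^ k
          + (12 * s * κ) * ∑ k ∈ Finset.range (M + 1), g ^ k
        ≤ (3 * s * R ^ (1 / r)) * 2 + (12 * s * κ) * (g ^ M * g / (g - 1)) := by
          have : 0 ≤ R ^ (1 / r) := Real.rpow_nonneg hR0 _
          gcongr
      _ = s * (6 * R ^ (1 / r)) + s * (g ^ M / 4) := by
          rw [hκ]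
          have : g - 1 ≠ 0 := by linarith
          field_simp
          ring
      _ ≤ s * (g ^ M / 4) + s * (g ^ M / 4) := by gcongr
      _ = _ := by ring
  have hc : 0 < g ^ M / 2 := by positivity
  have fin : sN l 0 ≤ Real.sqrt T * (g ^ M / 2) := by
    by_contra hcon
    push Not at hcon
    set c := g ^ M / 2 with hc'
    have hs1 : Real.sqrt T < sN l 0 / c := by rwa [lt_div_iff₀ hc]
    have h1 := main ((Real.sqrt T + sN l 0 / c) / 2) (by
      have := Real.sqrt_nonneg T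
      linarith) (by
      have h2 : Real.sqrt T ≤ (Real.sqrt T + sN l 0 / c) / 2 := by linarith
      calc T = Real.sqrt T ^ 2 := (Real.sq_sqrt hT0).symm
        _ ≤ _ := pow_le_pow_left₀ (Real.sqrt_nonneg _) h2 2)
    have h3 : (Real.sqrt T + sN l 0 / c) / 2 * c = (Real.sqrt T * c + sN l 0) / 2 := by
      field_simp
    rw [h3] at h1
    linarith
  have := pow_le_pow_left₀ (sN_nonneg _ _) fin 2
  rw [sN_sq, mul_pow, Real.sq_sqrt hT0] at this
  linarith

end Pool.Agent.Q101.Bm
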