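import Pool.Agent.Q101.BmS2

/-!
# The operators `P U(x) P` commute
-/

set_option autoImplicit false
set_option linter.unusedVariables false
set_option linter.unusedSectionVars false

namespace Pool.Agent.Q101.Bm

open MeasureTheory Filter Topology
open scoped BigOperators InnerProductSpace ENNReal

section

variable {E H : Type} [NormedAddCommGroup E] [NormedSpace ℝ E] [NormedAddCommGroup H]
    [InnerProductSpace ℝ H] [CompleteSpace H] (ρ : Rep E H)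

/-- equality of two vectors of `Fix` -/
lemma com_ext {a b : H} (ha : a ∈ ρ.Fix) (hb : b ∈ ρ.Fix)
    (h : ∀ v ∈ ρ.Fix, ⟪a, v⟫_ℝ = ⟪b, v⟫_ℝ) : a = b := by
  have h1 : ⟪a - b, a - b⟫_ℝ = 0 := by
    rw [inner_sub_left, h _ (Submodule.sub_mem _ ha hb), sub_self]
  exact sub_eq_zero.1 (inner_self_eq_zero.1 h1)

lemma com_rad (h2 : S_rad) (hAT : AT E) {u v : H} (hu : u ∈ ρ.Fix) (hv : v ∈ ρ.Fix) {x y : E}
    (hxy : ‖x‖ = ‖y‖) : ⟪ρ.U x u, v⟫_ℝ = ⟪ρ.U y u, v⟫_ℝ := by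
  refine h2 E hAT (fun x => ⟪ρ.U x u, v⟫_ℝ) ?_ ?_ x y hxy
  · exact (ρ.cont u).inner continuous_const
  · intro T x
    show ⟪ρ.U (T x) u, v⟫_ℝ = ⟪ρ.U x u, v⟫_ℝ
    have e1 : ρ.U (T x) u = ρ.g T (ρ.U x u) := by rw [ρ.g_U, hu T]
    rw [e1, ρ.inner_g, hv]

/-- two matrix coefficients which agree have the same mean -/
lemma com_mean (h1 : S_mean) (a b a' b' : H)
    (h : ∀ T, ⟪ρ.g T a, b⟫_ℝ = ⟪ρ.g T a', b'⟫_ℝ) : ⟪ρ.P a, b⟫_ℝ = ⟪ρ.P a', b'⟫_ℝ := by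
  have k1 := h1 E H ρ 2 ![a, a'] ![b, -b'] 0 (fun T => by
    simp [Fin.sum_univ_two, inner_neg_right, h T])
  have k2 := h1 E H ρ 2 ![a, a'] ![-b, b'] 0 (fun T => by
    simp [Fin.sum_univ_two, inner_neg_right, h T])
  simp [Fin.sum_univ_two, inner_neg_right] at k1 k2
  linarith

end

theorem com (h1 : S_mean) (h2 : S_rad) : S_com := by
  intro E H _ _ _ _ _ ρ hAT
  have c1 : ∀ x y : E, ‖x‖ = ‖y‖ → ∀ u ∈ ρ.Fix, ρ.P (ρ.U x u) = ρ.P (ρ.U y u) := by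
    intro x y hxy u hu
    refine com_ext ρ (ρ.P_mem _) (ρ.P_mem _) fun v hv => ?_
    rw [ρ.inner_P_left hv, ρ.inner_P_left hv]
    exact com_rad ρ h2 hAT hu hv hxy
  have c2 : ∀ (x : E), ∀ u ∈ ρ.Fix, ∀ v ∈ ρ.Fix,
      ⟪ρ.P (ρ.U x u), v⟫_ℝ = ⟪u, ρ.P (ρ.U x v)⟫_ℝ := by
    intro x u hu v hv
    rw [ρ.inner_P_left hv, ρ.inner_U, ρ.inner_P_right hu, real_inner_comm,
      real_inner_comm (ρ.U x v) u]
    exact com_rad ρ h2 hAT hv hu (norm_neg x)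
  refine ⟨c1, c2, ?_, ?_⟩
  · intro x y u hu
    refine com_ext ρ (ρ.P_mem _) (ρ.P_mem _) fun v hv => ?_
    have hP1 := ρ.P_mem (ρ.U y u)
    have hP2 := ρ.P_mem (ρ.U x u)
    have key := com_mean ρ h1 (ρ.U y u) (ρ.U (-x) v) (ρ.U (-y) v) (ρ.U x u) (fun T => by
      rw [ρ.g_U, ρ.g_U, hu T, hv T, map_neg, ρ.inner_U, real_inner_comm (ρ.U x u) _, ρ.inner_U,
        ρ.U_comm])
    calc ⟪ρ.P (ρ.U x (ρ.P (ρ.U y u))), v⟫_ℝ = ⟪ρ.U x (ρ.P (ρ.U y u)), v⟫_ℝ := ρ.inner_P_left hv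
      _ = ⟪ρ.P (ρ.U y u), ρ.U (-x) v⟫_ℝ := ρ.inner_U _ _ _
      _ = ⟪ρ.P (ρ.U (-y) v), ρ.U x u⟫_ℝ := key
      _ = ⟪ρ.P (ρ.U y v), ρ.U x u⟫_ℝ := by rw [c1 (-y) y (norm_neg y) v hv]
      _ = ⟪ρ.P (ρ.U y v), ρ.P (ρ.U x u)⟫_ℝ := (ρ.inner_P_right (ρ.P_mem _)).symm
      _ = ⟪v, ρ.P (ρ.U y (ρ.P (ρ.U x u)))⟫_ℝ := c2 y v hv _ hP2
      _ = ⟪ρ.P (ρ.U y (ρ.P (ρ.U x u))), v⟫_ℝ := real_inner_comm _ _
  · intro x u hu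
    have e1 : ρ.P (ρ.U x u) = ρ.P ((1 / 2 : ℝ) • (ρ.U x u + ρ.U (-x) u)) := by
      rw [map_smul, map_add, c1 (-x) x (norm_neg x) u hu, ← two_smul ℝ, smul_smul]
      norm_num
    have e2 : ‖ρ.P (ρ.U x u)‖ ^ 2 ≤ ‖(1 / 2 : ℝ) • (ρ.U x u + ρ.U (-x) u)‖ ^ 2 := by
      rw [e1]
      exact pow_le_pow_left₀ (norm_nonneg _) (ρ.norm_P_le _) 2
    have e3 : ‖(1 / 2 : ℝ) • (ρ.U x u + ρ.U (-x) u)‖ ^ 2 =
        (‖u‖ ^ 2 + ⟪ρ.U ((2 : ℝ) • x) u, u⟫_ℝ) / 2 := by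
      have e4 : ⟪ρ.U ((2 : ℝ) • x) u, u⟫_ℝ = ⟪ρ.U x u, ρ.U (-x) u⟫_ℝ := by
        rw [two_smul, ρ.U_add, ρ.inner_U]
      rw [norm_smul, mul_pow, norm_add_sq_real, LinearIsometryEquiv.norm_map,
        LinearIsometryEquiv.norm_map, e4]
      norm_num
      ring
    rw [e3] at e2
    linarith

end Pool.Agent.Q101.Bm
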