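import Pool.Agent.Q101.BmS2

/-!
# The regularised positive definite function
-/

set_option autoImplicit false
set_option linter.unusedVariables false
set_option linter.unusedSectionVars false

namespace Pool.Agent.Q101.Bm

open MeasureTheory Filter Topology
open scoped BigOperators InnerProductSpace ENNReal

section

variable {E H : Type} [NormedAddCommGroup E] [NormedSpace ℝ E] [NormedAddCommGroup H]
    [InnerProductSpace ℝ H] [CompleteSpace H] (ρ : Rep E H)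

lemma con_AL_mem {u : H} (hu : u ∈ ρ.Fix) : ∀ l : List E, ρ.AL l u ∈ ρ.Fix
  | [] => hu
  | _ :: _ => ρ.P_mem _

lemma con_AL_append (l l' : List E) (u : H) : ρ.AL (l ++ l') u = ρ.AL l (ρ.AL l' u) := by
  induction l with
  | nil => rfl
  | cons y l ih => show ρ.P (ρ.U y (ρ.AL (l ++ l') u)) = ρ.P (ρ.U y _); rw [ih]

lemma con_AL_norm (u : H) : ∀ l : List E, ‖ρ.AL l u‖ ≤ ‖u‖
  | [] => le_rfl
  | y :: l => by
    show ‖ρ.P (ρ.U y (ρ.AL l u))‖ ≤ ‖u‖
    refine (ρ.norm_P_le _).trans ?_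
    rw [LinearIsometryEquiv.norm_map]
    exact con_AL_norm u l

lemma con_AL_perm (c3 : ∀ x y : E, ∀ u ∈ ρ.Fix,
    ρ.P (ρ.U x (ρ.P (ρ.U y u))) = ρ.P (ρ.U y (ρ.P (ρ.U x u)))) {u : H} (hu : u ∈ ρ.Fix)
    {l l' : List E} (h : l.Perm l') : ρ.AL l u = ρ.AL l' u := by
  induction h with
  | nil => rfl
  | cons y _ ih => show ρ.P (ρ.U y _) = ρ.P (ρ.U y _); rw [ih]
  | swap x y l => exact c3 _ _ _ (con_AL_mem ρ hu l)
  | trans _ _ ih1 ih2 => exact ih1.trans ih2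

lemma con_decr (c2 : ∀ (x : E), ∀ u ∈ ρ.Fix, ∀ v ∈ ρ.Fix,
      ⟪ρ.P (ρ.U x u), v⟫_ℝ = ⟪u, ρ.P (ρ.U x v)⟫_ℝ) {u : H} (hu : u ∈ ρ.Fix) (y : E) (m : ℕ) :
    (m + 1 : ℝ) * (‖ρ.AL (List.replicate m y) u‖ ^ 2 - ‖ρ.AL (List.replicate (m + 1) y) u‖ ^ 2) ≤
      ‖u‖ ^ 2 := by
  set a : ℕ → ℝ := fun i => ‖ρ.AL (List.replicate i y) u‖ ^ 2 with ha
  have hconv : ∀ i, a (i + 1) - a (i + 2) ≤ a i - a (i + 1) := by
    intro i
    have hv := con_AL_mem ρ hu (List.replicate i y)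
    set v := ρ.AL (List.replicate i y) u with hvdef
    have e1 : ρ.AL (List.replicate (i + 1) y) u = ρ.P (ρ.U y v) := rfl
    have e2 : ρ.AL (List.replicate (i + 2) y) u = ρ.P (ρ.U y (ρ.P (ρ.U y v))) := rfl
    have h1 : 0 ≤ ‖v - ρ.P (ρ.U y (ρ.P (ρ.U y v)))‖ ^ 2 := sq_nonneg _
    rw [norm_sub_sq_real, ← c2 y v hv _ (ρ.P_mem _), real_inner_self_eq_norm_sq] at h1
    simp only [ha, e1, e2]
    rw [← hvdef]
    linarith
  have key : ∀ m : ℕ, (m + 1 : ℝ) * (a m - a (m + 1)) ≤ a 0 - a (m + 1) := by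
    intro m
    induction m with
    | zero => simp
    | succ m ih =>
      have h1 := hconv m
      have h2 : (m + 1 : ℝ) * (a (m + 1) - a (m + 2)) ≤ (m + 1 : ℝ) * (a m - a (m + 1)) :=
        mul_le_mul_of_nonneg_left h1 (by positivity)
      push_cast
      have e : m + 1 + 1 = m + 2 := rfl
      rw [e]
      nlinarith
  have h1 := key m
  have h2 : 0 ≤ a (m + 1) := sq_nonneg _
  have h3 : a 0 = ‖u‖ ^ 2 := rfl
  simp only [ha] at h1 h2 h3 ⊢
  linarith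

end

lemma con_sc (s : ℝ) (k : ℕ) : sc s k = (1 / 2 : ℝ) ^ k * s := by
  unfold sc
  rw [Real.rpow_neg (by norm_num), Real.rpow_natCast]
  congr 1
  rw [one_div, inv_pow]

lemma con_bigL {E : Type} [AddCommGroup E] [Module ℝ E] (e : E) (q' s : ℝ) {j : ℕ} (hj : 1 ≤ j) :
    ∀ K : ℕ, j ≤ K → ∃ rest : List E,
      (bigL e q' s K).Perm (List.replicate (mm q' j) (sc s j • e) ++ rest) := by
  intro K
  induction K with
  | zero => intro h; omega
  | succ K ih =>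
    intro h
    rcases Nat.lt_or_ge K j with h1 | h1
    · have : j = K + 1 := by omega
      subst this
      exact ⟨bigL e q' s K, List.Perm.refl _⟩
    · obtain ⟨rest, hrest⟩ := ih h1
      refine ⟨List.replicate (mm q' (K + 1)) (sc s (K + 1) • e) ++ rest, ?_⟩
      show (List.replicate (mm q' (K + 1)) (sc s (K + 1) • e) ++ bigL e q' s K).Perm _
      refine (hrest.append_left _).trans ?_
      rw [← List.append_assoc, ← List.append_assoc]
      exact List.Perm.append_right _ List.perm_append_comm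

theorem con (h1 : S_com) (h2 : S_sum) : S_con := by
  intro E H _ _ _ _ _ ρ ξ e q' s δ hAT hrk hξ hξ1 he hq' hs hδ hK
  obtain ⟨c1, c2, c3, c4⟩ := h1 E H ρ hAT
  set ζ : ℕ → H := fun K => ρ.AL (bigL e q' s K) ξ with hζ
  have hζF : ∀ K, ζ K ∈ ρ.Fix := fun K => con_AL_mem ρ hξ _
  have hζ1 : ∀ K, ‖ζ K‖ ≤ 1 := fun K => (con_AL_norm ρ ξ _).trans hξ1.le
  have hζξ : ∀ K, ‖ζ K - ξ‖ ≤ Real.sqrt (2 * δ) := by
    intro K
    apply Real.le_sqrt_of_sq_le
    rw [norm_sub_sq_real, hξ1]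
    have h3 := hK K
    have h4 : ‖ζ K‖ ^ 2 ≤ 1 := by
      have := pow_le_pow_left₀ (norm_nonneg _) (hζ1 K) 2
      simpa using this
    simp only [hζ] at h4 ⊢
    linarith
  set f' : ℕ → E → ℝ := fun K x => ⟪ρ.U x (ζ K), ζ K⟫_ℝ with hf'
  -- elementary properties of `f'`
  have hf0 : ∀ K, f' K 0 = ‖ζ K‖ ^ 2 := by
    intro K
    simp only [hf', ρ.U_zero, real_inner_self_eq_norm_sq]
  have hfb : ∀ K x, |f' K x| ≤ 1 := by
    intro K x
    have h3 := abs_real_inner_le_norm (ρ.U x (ζ K)) (ζ K)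
    rw [LinearIsometryEquiv.norm_map] at h3
    have h4 := hζ1 K
    have h5 := norm_nonneg (ζ K)
    simp only [hf']
    nlinarith
  have hfrad : ∀ K x y, ‖x‖ = ‖y‖ → f' K x = f' K y := by
    intro K x y hxy
    simp only [hf']
    rw [← ρ.inner_P_left (hζF K), c1 x y hxy _ (hζF K), ρ.inner_P_left (hζF K)]
  have hg : ∀ K x, f' K 0 - f' K x = ‖ρ.U x (ζ K) - ζ K‖ ^ 2 / 2 := by
    intro K x
    rw [hf0, norm_sub_sq_real, LinearIsometryEquiv.norm_map]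
    simp only [hf']
    ring
  have hgadd : ∀ K x y, f' K 0 - f' K (x + y) ≤
      2 * (f' K 0 - f' K x) + 2 * (f' K 0 - f' K y) := by
    intro K x y
    rw [hg, hg, hg]
    have e1 : ρ.U (x + y) (ζ K) - ζ K = ρ.U x (ρ.U y (ζ K) - ζ K) + (ρ.U x (ζ K) - ζ K) := by
      rw [ρ.U_add, map_sub]; abel
    have h3 : ‖ρ.U (x + y) (ζ K) - ζ K‖ ≤ ‖ρ.U y (ζ K) - ζ K‖ + ‖ρ.U x (ζ K) - ζ K‖ := by
      rw [e1]
      refine (norm_add_le _ _).trans ?_
      rw [LinearIsometryEquiv.norm_map]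
    have h4 := pow_le_pow_left₀ (norm_nonneg _) h3 2
    nlinarith [sq_nonneg (‖ρ.U y (ζ K) - ζ K‖ - ‖ρ.U x (ζ K) - ζ K‖)]
  have hfc : ∀ K x y, (f' K x - f' K y) ^ 2 ≤ 2 * (f' K 0 - f' K (x - y)) := by
    intro K x y
    rw [hg]
    have e1 : f' K x - f' K y = ⟪ρ.U y (ρ.U (x - y) (ζ K) - ζ K), ζ K⟫_ℝ := by
      simp only [hf']
      rw [map_sub, ← ρ.U_add, add_sub_cancel, inner_sub_left]
    have h3 := abs_real_inner_le_norm (ρ.U y (ρ.U (x - y) (ζ K) - ζ K)) (ζ K)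
    rw [LinearIsometryEquiv.norm_map, ← e1] at h3
    have h4 : |f' K x - f' K y| ≤ ‖ρ.U (x - y) (ζ K) - ζ K‖ := by
      have := hζ1 K
      nlinarith [norm_nonneg (ρ.U (x - y) (ζ K) - ζ K)]
    have h5 := pow_le_pow_left₀ (abs_nonneg _) h4 2
    rw [sq_abs] at h5
    linarith
  have hfξ : ∀ K x, |f' K x - ⟪ρ.U x ξ, ξ⟫_ℝ| ≤ 2 * Real.sqrt (2 * δ) := by
    intro K x
    have e1 : f' K x - ⟪ρ.U x ξ, ξ⟫_ℝ =
        ⟪ρ.U x (ζ K - ξ), ζ K⟫_ℝ + ⟪ρ.U x ξ, ζ K - ξ⟫_ℝ := by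
      simp only [hf']
      rw [map_sub, inner_sub_left, inner_sub_right]; ring
    have h3 := abs_real_inner_le_norm (ρ.U x (ζ K - ξ)) (ζ K)
    have h4 := abs_real_inner_le_norm (ρ.U x ξ) (ζ K - ξ)
    rw [LinearIsometryEquiv.norm_map] at h3 h4
    rw [hξ1] at h4
    rw [e1]
    refine (abs_add_le _ _).trans ?_
    have h5 := hζ1 K
    have h6 := hζξ K
    have h7 := norm_nonneg (ζ K - ξ)
    nlinarith
  have hdec : ∀ j K : ℕ, 1 ≤ j → j ≤ K →
      f' K 0 - f' K ((2 * sc s j) • e) ≤ 2 * (2 : ℝ) ^ (-((j : ℝ) * q')) := by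
    intro j K hj hjK
    obtain ⟨rest, hrest⟩ := con_bigL e q' s hj K hjK
    set y : E := sc s j • e with hy
    set m : ℕ := mm q' j with hm
    set η : H := ρ.AL rest ξ with hη
    have hηF : η ∈ ρ.Fix := con_AL_mem ρ hξ _
    have hη1 : ‖η‖ ≤ 1 := (con_AL_norm ρ ξ _).trans hξ1.le
    have e1 : ζ K = ρ.AL (List.replicate m y) η := by
      simp only [hζ]
      rw [con_AL_perm ρ c3 hξ hrest, con_AL_append]
    have e2 : ρ.P (ρ.U y (ζ K)) = ρ.AL (List.replicate (m + 1) y) η := by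
      rw [e1]; rfl
    have h3 := c4 y (ζ K) (hζF K)
    have h4 := con_decr ρ c2 hηF y m
    rw [← e2, ← e1] at h4
    have e3 : (2 * sc s j) • e = (2 : ℝ) • y := by rw [hy, smul_smul]
    have h5 : f' K 0 - f' K ((2 * sc s j) • e) ≤ 2 * (‖ζ K‖ ^ 2 - ‖ρ.P (ρ.U y (ζ K))‖ ^ 2) := by
      rw [hf0, e3]
      simp only [hf']
      linarith
    have h6 : ‖η‖ ^ 2 ≤ 1 := by
      have := pow_le_pow_left₀ (norm_nonneg _) hη1 2
      simpa using this
    have hm2 : (2 : ℝ) ^ ((j : ℝ) * q') ≤ m := by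
      rw [hm]; unfold mm; exact Nat.le_ceil _
    have hpos : 0 < (2 : ℝ) ^ ((j : ℝ) * q') := Real.rpow_pos_of_pos (by norm_num) _
    rw [Real.rpow_neg (by norm_num), ← div_eq_mul_inv, le_div_iff₀ hpos]
    have h7 : 0 ≤ ‖ζ K‖ ^ 2 - ‖ρ.P (ρ.U y (ζ K))‖ ^ 2 := by
      have h8 : ‖ρ.P (ρ.U y (ζ K))‖ ≤ ‖ζ K‖ := by
        refine (ρ.norm_P_le _).trans ?_
        rw [LinearIsometryEquiv.norm_map]
      have := pow_le_pow_left₀ (norm_nonneg _) h8 2
      linarith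
    have h9 : (‖ζ K‖ ^ 2 - ‖ρ.P (ρ.U y (ζ K))‖ ^ 2) * (2 : ℝ) ^ ((j : ℝ) * q') ≤
        (‖ζ K‖ ^ 2 - ‖ρ.P (ρ.U y (ζ K))‖ ^ 2) * (m + 1) :=
      mul_le_mul_of_nonneg_left (by linarith) h7
    nlinarith
  -- the limit
  have hlim : ∀ x, ∃ L : ℝ, Tendsto (fun K => f' K x) (hyperfilter ℕ : Filter ℕ) (𝓝 L) := by
    intro x
    obtain ⟨L, -, hL⟩ := (isCompact_Icc (a := (-1:ℝ)) (b := 1)).ultrafilter_le_nhds
      ((hyperfilter ℕ).map fun K => f' K x) (by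
        rw [le_principal_iff]
        show (fun K => f' K x) ⁻¹' _ ∈ (hyperfilter ℕ : Filter ℕ)
        exact Filter.univ_mem' fun K => abs_le.1 (hfb K x))
    exact ⟨L, hL⟩
  choose f hf using hlim
  have hbig : ∀ j : ℕ, ∀ᶠ K in (hyperfilter ℕ : Filter ℕ), j ≤ K := fun j =>
    Nat.hyperfilter_le_atTop (eventually_ge_atTop j)
  have hpd : PD f := by
    intro n x c
    have h3 : Tendsto (fun K => ∑ i, ∑ j, c i * c j * f' K (x i - x j))
        (hyperfilter ℕ : Filter ℕ) (𝓝 (∑ i, ∑ j, c i * c j * f (x i - x j))) :=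
      tendsto_finsetSum _ fun i _ => tendsto_finsetSum _ fun j _ => (hf _).const_mul _
    refine ge_of_tendsto' h3 fun K => ?_
    have e1 : ∑ i, ∑ j, c i * c j * f' K (x i - x j) = ‖∑ i, c i • ρ.U (x i) (ζ K)‖ ^ 2 := by
      rw [← real_inner_self_eq_norm_sq, sum_inner]
      refine Finset.sum_congr rfl fun i _ => ?_
      rw [inner_sum]
      refine Finset.sum_congr rfl fun j _ => ?_
      rw [real_inner_smul_left, real_inner_smul_right]
      simp only [hf']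
      rw [sub_eq_neg_add, ρ.U_add, ρ.inner_U, neg_neg]
      ring
    rw [e1]
    positivity
  have hrad : ∀ x y, ‖x‖ = ‖y‖ → f x = f y := by
    intro x y hxy
    refine tendsto_nhds_unique (hf x) ?_
    have : (fun K => f' K x) = fun K => f' K y := funext fun K => hfrad K x y hxy
    rw [this]
    exact hf y
  have hg0 : ∀ x, 0 ≤ f 0 - f x := fun x =>
    ge_of_tendsto' ((hf 0).sub (hf x)) fun K => by rw [hg]; positivity
  have hg2 : ∀ x, f 0 - f x ≤ 2 := fun x =>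
    le_of_tendsto' ((hf 0).sub (hf x)) fun K => by
      have h3 := abs_le.1 (hfb K 0)
      have h4 := abs_le.1 (hfb K x)
      linarith [h3.2, h4.1]
  have hgadd' : ∀ x y, f 0 - f (x + y) ≤ 2 * (f 0 - f x) + 2 * (f 0 - f y) := fun x y =>
    le_of_tendsto_of_tendsto' ((hf 0).sub (hf _))
      ((((hf 0).sub (hf x)).const_mul 2).add (((hf 0).sub (hf y)).const_mul 2))
      fun K => hgadd K x y
  have hfc' : ∀ x y, (f x - f y) ^ 2 ≤ 2 * (f 0 - f (x - y)) := fun x y =>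
    le_of_tendsto_of_tendsto' (((hf x).sub (hf y)).pow 2) (((hf 0).sub (hf _)).const_mul 2)
      fun K => hfc K x y
  have hfξ' : ∀ x, |f x - ⟪ρ.U x ξ, ξ⟫_ℝ| ≤ 2 * Real.sqrt (2 * δ) := fun x =>
    le_of_tendsto' ((hf x).sub_const _).abs fun K => hfξ K x
  have hdec' : ∀ j : ℕ, 1 ≤ j → f 0 - f ((2 * sc s j) • e) ≤ 2 * (2 : ℝ) ^ (-((j : ℝ) * q')) := by
    intro j hj
    exact le_of_tendsto ((hf 0).sub (hf _)) ((hbig j).mono fun K hK => hdec j K hj hK)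
  -- the bound
  have hsq : 0 < s ^ q' := Real.rpow_pos_of_pos hs _
  have hbound : ∀ x, f 0 - f x ≤ 8 / s ^ q' * ‖x‖ ^ q' := by
    intro x
    rcases eq_or_ne x 0 with rfl | hx
    · rw [sub_self]; positivity
    have hx0 : 0 < ‖x‖ := norm_pos_iff.2 hx
    have e0 : 8 / s ^ q' * ‖x‖ ^ q' = 8 * (‖x‖ / s) ^ q' := by
      rw [Real.div_rpow hx0.le hs.le]; ring
    rw [e0]
    rcases le_or_gt ‖x‖ s with hxs | hxs
    · obtain ⟨n, hn1, hn2⟩ := exists_nat_pow_near_of_lt_one (x := ‖x‖ / s) (y := (1 / 2 : ℝ))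
        (div_pos hx0 hs) ((div_le_one hs).2 hxs) (by norm_num) (by norm_num)
      set t : ℝ := (1 / 2 : ℝ) ^ (n + 1) * s with ht
      have ht0 : 0 < t := by positivity
      have hxt : ‖x‖ ≤ 2 * t := by
        rw [div_le_iff₀ hs] at hn2
        rw [ht, pow_succ]
        linarith
      obtain ⟨u, v, hu, hv, rfl⟩ := h2 E hrk x t ht0 hxt
      have e1 : t = 2 * sc s (n + 2) := by
        rw [con_sc, ht]; ring
      have hte : ‖t • e‖ = t := by rw [norm_smul, he, Real.norm_of_nonneg ht0.le, mul_one]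
      have h3 := hdec' (n + 2) (by omega)
      rw [← e1] at h3
      have h4 := hgadd' u v
      rw [hrad u (t • e) (by rw [hu, hte]), hrad v (t • e) (by rw [hv, hte])] at h4
      have h5 : (2 : ℝ) ^ (-(((n + 2 : ℕ) : ℝ) * q')) ≤ (‖u + v‖ / s) ^ q' := by
        have e2 : (2 : ℝ) ^ (-(((n + 2 : ℕ) : ℝ) * q')) = ((1 / 2 : ℝ) ^ (n + 2)) ^ q' := by
          rw [← Real.rpow_natCast (1 / 2 : ℝ), ← Real.rpow_mul (by norm_num), one_div,
            Real.inv_rpow (by norm_num), Real.rpow_neg (by norm_num)]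
        rw [e2]
        apply Real.rpow_le_rpow (by positivity) _ hq'.le
        have : (1 / 2 : ℝ) ^ (n + 2) ≤ (1 / 2 : ℝ) ^ (n + 1) :=
          pow_le_pow_of_le_one (by norm_num) (by norm_num) (by omega)
        linarith
      linarith
    · have h3 := hg2 x
      have h4 : 1 ≤ (‖x‖ / s) ^ q' := Real.one_le_rpow ((one_le_div hs).2 hxs.le) hq'.le
      linarith
  refine ⟨f, hpd, ?_, hrad, ⟨_, hbound⟩, hfξ'⟩
  rw [Metric.continuous_iff]
  intro y ε hε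
  have h3 : Tendsto (fun x : E => 2 * (8 / s ^ q' * ‖x - y‖ ^ q')) (𝓝 y) (𝓝 0) := by
    have h2 : Tendsto (fun x : E => ‖x - y‖) (𝓝 y) (𝓝 0) := by
      have : Tendsto (fun x : E => ‖x - y‖) (𝓝 y) (𝓝 ‖y - y‖) :=
        (continuous_id.sub continuous_const).norm.tendsto y
      simpa using this
    have h3 := h2.rpow_const (p := q') (Or.inr hq'.le)
    rw [Real.zero_rpow hq'.ne'] at h3
    have h4 := (h3.const_mul (8 / s ^ q')).const_mul 2
    simpa using h4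
  obtain ⟨η, hη, hη'⟩ := Metric.eventually_nhds_iff.1 (h3.eventually (gt_mem_nhds (pow_pos hε 2)))
  refine ⟨η, hη, fun x hx => ?_⟩
  have h5 := hη' hx
  have h6 := hfc' x y
  have h7 := hbound (x - y)
  rw [Real.dist_eq]
  have h8 : |f x - f y| ^ 2 < ε ^ 2 := by rw [sq_abs]; linarith
  exact lt_of_pow_lt_pow_left₀ 2 hε.le h8

end Pool.Agent.Q101.Bm
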