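import Pool.Agent.Q101.BmSta

/-!
# Asymptotic `ℓ_r` from the part of the cocycle orthogonal to `M`
-/

set_option autoImplicit false
set_option linter.unusedVariables false
set_option linter.unusedSectionVars false

namespace Pool.Agent.Q101.Bm

open MeasureTheory Filter Topology
open scoped BigOperators InnerProductSpace ENNReal

section csa

variable {H : Type} [NormedAddCommGroup H] [InnerProductSpace ℝ H] [CompleteSpace H]

lemma csa_proj (K : Submodule ℝ H) [K.HasOrthogonalProjection] (W : H ≃ₗᵢ[ℝ] H)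
    (h1 : ∀ v ∈ K, W v ∈ K) (h2 : ∀ v ∈ K, W.symm v ∈ K) (v : H) :
    W (K.starProjection v) = K.starProjection (W v) := by
  symm
  apply Submodule.eq_starProjection_of_mem_of_inner_eq_zero
  · exact h1 _ (Submodule.starProjection_apply_mem _ _)
  · intro w hw
    have h3 := Submodule.starProjection_inner_eq_zero (K := K) v (W.symm w) (h2 w hw)
    rw [← map_sub, ← W.symm.inner_map_map, W.symm_apply_apply]
    exact h3

variable {E : Type} [NormedAddCommGroup E] [NormedSpace ℝ E] (ρ : Rep E H)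

lemma csa_M_map (W : H ≃ₗᵢ[ℝ] H) (h : ∀ (x : E), ∀ u ∈ ρ.Fix, W (ρ.U x u) ∈ ρ.M) :
    ∀ v ∈ ρ.M, W v ∈ ρ.M := by
  have hcl : IsClosed (ρ.M : Set H) := Submodule.isClosed_topologicalClosure _
  have h1 : ρ.M ≤ ρ.M.comap (W.toLinearEquiv : H →ₗ[ℝ] H) := by
    refine Submodule.topologicalClosure_minimal _ ?_ ?_
    · rw [Submodule.span_le]
      rintro v ⟨x, u, hu, rfl⟩
      exact h x u hu
    · exact hcl.preimage W.continuous
  exact fun v hv => h1 hv

lemma csa_mem_M (x : E) {u : H} (hu : u ∈ ρ.Fix) : ρ.U x u ∈ ρ.M :=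
  Submodule.le_topologicalClosure _ (Submodule.subset_span ⟨x, u, hu, rfl⟩)

lemma csa_fix_M {u : H} (hu : u ∈ ρ.Fix) : u ∈ ρ.M := by
  have := csa_mem_M ρ 0 hu
  rwa [ρ.U_zero] at this

lemma csa_U_symm (x : E) (v : H) : (ρ.U x).symm v = ρ.U (-x) v := by
  rw [LinearIsometryEquiv.symm_apply_eq, ρ.U_U_neg]

lemma csa_g_symm (T : E ≃ₗᵢ[ℝ] E) (v : H) : (ρ.g T).symm v = ρ.g T⁻¹ v := by
  rw [LinearIsometryEquiv.symm_apply_eq, ρ.g_g_inv]

lemma csa_span (hno : ∀ w : H, (∀ x, ρ.U x w = w) → w = 0) (v : H) (ε : ℝ) (hε : 0 < ε) :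
    ∃ (d : H) (C : ℝ) (Z : List E), 0 ≤ C ∧ ‖v - d‖ < ε ∧
      ∀ w : H, |⟪d, w⟫_ℝ| ≤ C * (Z.map fun z => ‖ρ.U z w - w‖).sum := by
  set S : Submodule ℝ H := Submodule.span ℝ {d | ∃ (z : E) (w : H), d = ρ.U z w - w} with hS
  have htop : S.topologicalClosure = ⊤ := by
    rw [Submodule.topologicalClosure_eq_top_iff, Submodule.eq_bot_iff]
    intro w hw
    apply hno
    intro z
    have h1 : ∀ u : H, ⟪u, ρ.U z w - w⟫_ℝ = 0 := by
      intro u
      have h2 := (Submodule.mem_orthogonal _ _).1 hw _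
        (Submodule.subset_span ⟨-z, u, rfl⟩)
      rw [inner_sub_left, ρ.inner_U, neg_neg] at h2
      rw [inner_sub_right]
      exact h2
    exact sub_eq_zero.1 (inner_self_eq_zero.1 (h1 (ρ.U z w - w)))
  have hv : v ∈ S.topologicalClosure := by rw [htop]; trivial
  obtain ⟨d, hd, hd'⟩ := Metric.mem_closure_iff.1 hv ε hε
  have key : ∀ d ∈ S, ∃ (C : ℝ) (Z : List E), 0 ≤ C ∧
      ∀ w : H, |⟪d, w⟫_ℝ| ≤ C * (Z.map fun z => ‖ρ.U z w - w‖).sum := by
    have hnn : ∀ (Z : List E) (w : H), 0 ≤ (Z.map fun z => ‖ρ.U z w - w‖).sum := by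
      intro Z w
      apply List.sum_nonneg
      intro a ha
      obtain ⟨z, -, rfl⟩ := List.mem_map.1 ha
      exact norm_nonneg _
    intro d hd
    induction hd using Submodule.span_induction with
    | mem d hd =>
      obtain ⟨z, u, rfl⟩ := hd
      refine ⟨‖u‖, [-z], norm_nonneg _, fun w => ?_⟩
      simp only [List.map_cons, List.map_nil, List.sum_cons, List.sum_nil, add_zero]
      have h1 : ⟪ρ.U z u - u, w⟫_ℝ = ⟪u, ρ.U (-z) w - w⟫_ℝ := by
        rw [inner_sub_left, inner_sub_right, ρ.inner_U]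
      rw [h1]
      exact abs_real_inner_le_norm _ _
    | zero => exact ⟨0, [], le_rfl, fun w => by simp⟩
    | add d d' _ _ h1 h2 =>
      obtain ⟨C, Z, hC, h1⟩ := h1
      obtain ⟨C', Z', hC', h2⟩ := h2
      refine ⟨C + C', Z ++ Z', add_nonneg hC hC', fun w => ?_⟩
      rw [inner_add_left, List.map_append, List.sum_append]
      refine (abs_add_le _ _).trans ?_
      have := h1 w
      have := h2 w
      have := mul_nonneg hC (hnn Z' w)
      have := mul_nonneg hC' (hnn Z w)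
      linarith
    | smul a d _ h1 =>
      obtain ⟨C, Z, hC, h1⟩ := h1
      refine ⟨|a| * C, Z, mul_nonneg (abs_nonneg _) hC, fun w => ?_⟩
      rw [real_inner_smul_left, abs_mul, mul_assoc]
      exact mul_le_mul_of_nonneg_left (h1 w) (abs_nonneg _)
  obtain ⟨C, Z, hC, hCZ⟩ := key d hd
  exact ⟨d, C, Z, hC, by rwa [← dist_eq_norm], hCZ⟩

/-- asymptotic orthogonality -/
lemma csa_asym (h1 : S_mean) (hno : ∀ w : H, (∀ x, ρ.U x w = w) → w = 0) {β : E → H}
    (hadd : ∀ x y, β (x + y) = β x + ρ.U x (β y)) (heqv : ∀ T x, ρ.g T (β x) = β (T x))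
    (hP : ∀ x, ρ.P (β x) = 0) (n : ℕ) (x y : Fin n → E) (ε : ℝ) (hε : 0 < ε) :
    ∃ T : E ≃ₗᵢ[ℝ] E, ∀ i, |⟪β (x i), β (T (y i))⟫_ℝ| < ε := by
  -- step 1
  have step : ∀ (L : List (E × E)) (δ : ℝ), 0 < δ → ∃ T : E ≃ₗᵢ[ℝ] E, ∀ p ∈ L,
      ‖ρ.U p.1 (β (T p.2)) - β (T p.2)‖ < δ := by
    intro L δ hδ
    by_contra hcon
    push Not at hcon
    have hid : ∀ (z w : E), ‖ρ.U z (β w) - β w‖ ^ 2 = 2 * ⟪β w + β (-w), β z⟫_ℝ := by
      intro z w
      rw [coc_quad ρ hadd, real_inner_comm, inner_add_right, coc_inner ρ hadd, coc_inner ρ hadd,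
        coc_norm_neg ρ hadd, sub_neg_eq_add]
      ring
    have h2 := h1 E H ρ L.length (fun k => β (L.get k).2 + β (-(L.get k).2))
      (fun k => β (L.get k).1) (δ ^ 2 / 2) (fun T => by
        obtain ⟨p, hp, hp'⟩ := hcon T
        obtain ⟨k, rfl⟩ := List.get_of_mem hp
        have e : ∀ k : Fin L.length, ⟪ρ.g T (β (L.get k).2 + β (-(L.get k).2)), β (L.get k).1⟫_ℝ =
            ‖ρ.U (L.get k).1 (β (T (L.get k).2)) - β (T (L.get k).2)‖ ^ 2 / 2 := by
          intro k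
          rw [hid, map_add, heqv, heqv, map_neg]; ring
        simp only [e]
        have h3 : ‖ρ.U (L.get k).1 (β (T (L.get k).2)) - β (T (L.get k).2)‖ ^ 2 / 2 ≤
            ∑ k : Fin L.length,
              ‖ρ.U (L.get k).1 (β (T (L.get k).2)) - β (T (L.get k).2)‖ ^ 2 / 2 :=
          Finset.single_le_sum (f := fun k : Fin L.length =>
            ‖ρ.U (L.get k).1 (β (T (L.get k).2)) - β (T (L.get k).2)‖ ^ 2 / 2)
            (fun k _ => by positivity) (Finset.mem_univ k)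
        have h4 := pow_le_pow_left₀ hδ.le hp' 2
        linarith)
    have h3 : ∑ k : Fin L.length,
        ⟪ρ.P (β (L.get k).2 + β (-(L.get k).2)), β (L.get k).1⟫_ℝ = 0 := by
      apply Finset.sum_eq_zero
      intro k _
      rw [map_add, hP, hP, add_zero, inner_zero_left]
    rw [h3] at h2
    have : 0 < δ ^ 2 := by positivity
    linarith
  set B : ℝ := ∑ i, ‖β (y i)‖ + 1 with hB
  have hB0 : 0 < B := by
    have : 0 ≤ ∑ i, ‖β (y i)‖ := Finset.sum_nonneg fun i _ => norm_nonneg _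
    linarith
  have hBi : ∀ i, ‖β (y i)‖ < B := by
    intro i
    have := Finset.single_le_sum (f := fun i => ‖β (y i)‖) (fun i _ => norm_nonneg _)
      (Finset.mem_univ i)
    linarith
  choose d C Z hC hd hCZ using fun i => csa_span ρ hno (β (x i)) (ε / (2 * B)) (by positivity)
  set D : ℝ := ∑ i, C i * ((Z i).length : ℝ) + 1 with hD
  have hCZ0 : ∀ i, 0 ≤ C i * ((Z i).length : ℝ) := fun i => mul_nonneg (hC i) (Nat.cast_nonneg _)
  have hD0 : 0 < D := by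
    have : 0 ≤ ∑ i, C i * ((Z i).length : ℝ) := Finset.sum_nonneg fun i _ => hCZ0 i
    linarith
  have hDi : ∀ i, C i * ((Z i).length : ℝ) ≤ D := by
    intro i
    have := Finset.single_le_sum (f := fun i => C i * ((Z i).length : ℝ)) (fun i _ => hCZ0 i)
      (Finset.mem_univ i)
    linarith
  obtain ⟨T, hT⟩ := step ((List.finRange n).flatMap fun i => (Z i).map fun z => (z, y i))
    (ε / (2 * D)) (by positivity)
  refine ⟨T, fun i => ?_⟩
  have hTn : ‖β (T (y i))‖ = ‖β (y i)‖ := by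
    rw [← heqv, LinearIsometryEquiv.norm_map]
  have h2 : ⟪β (x i), β (T (y i))⟫_ℝ =
      ⟪β (x i) - d i, β (T (y i))⟫_ℝ + ⟪d i, β (T (y i))⟫_ℝ := by
    rw [inner_sub_left]; ring
  have h3 : |⟪β (x i) - d i, β (T (y i))⟫_ℝ| < ε / 2 := by
    refine (abs_real_inner_le_norm _ _).trans_lt ?_
    rw [hTn]
    have h4 : ‖β (x i) - d i‖ * ‖β (y i)‖ ≤ ε / (2 * B) * ‖β (y i)‖ :=
      mul_le_mul_of_nonneg_right (hd i).le (norm_nonneg _)
    have h5 : ε / (2 * B) * ‖β (y i)‖ < ε / (2 * B) * B :=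
      mul_lt_mul_of_pos_left (hBi i) (by positivity)
    have h6 : ε / (2 * B) * B = ε / 2 := by field_simp
    linarith
  have h4 : |⟪d i, β (T (y i))⟫_ℝ| ≤ ε / 2 := by
    refine (hCZ i _).trans ?_
    have h5 : ((Z i).map fun z => ‖ρ.U z (β (T (y i))) - β (T (y i))‖).sum ≤
        (Z i).length • (ε / (2 * D)) := by
      have h6 := List.sum_le_card_nsmul
        ((Z i).map fun z => ‖ρ.U z (β (T (y i))) - β (T (y i))‖) (ε / (2 * D)) (by
          intro a ha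
          obtain ⟨z, hz, rfl⟩ := List.mem_map.1 ha
          exact (hT (z, y i) (List.mem_flatMap.2 ⟨i, List.mem_finRange i,
            List.mem_map.2 ⟨z, hz, rfl⟩⟩)).le)
      simpa using h6
    calc C i * ((Z i).map fun z => ‖ρ.U z (β (T (y i))) - β (T (y i))‖).sum
        ≤ C i * ((Z i).length • (ε / (2 * D))) := mul_le_mul_of_nonneg_left h5 (hC i)
      _ = (C i * ((Z i).length : ℝ)) * (ε / (2 * D)) := by rw [nsmul_eq_mul]; ring
      _ ≤ D * (ε / (2 * D)) := mul_le_mul_of_nonneg_right (hDi i) (by positivity)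
      _ = ε / 2 := by field_simp
  rw [h2]
  refine (abs_add_le _ _).trans_lt ?_
  linarith

end csa

theorem csa (h1 : S_mean) (h2 : S_rad) (h4 : S_nof) : S_csa := by
  intro E H _ _ _ _ _ r A hAT hr hr2 hM
  set ρ : Rep E H := A.toRep with hρ
  have hno : ∀ w : H, (∀ x, ρ.U x w = w) → w = 0 := h4 E H r A hr hr2
  have hcl : IsClosed (ρ.M : Set H) := Submodule.isClosed_topologicalClosure _
  have : CompleteSpace ρ.M := hcl.completeSpace_coe
  have hbadd : ∀ x y, A.b (x + y) = A.b x + ρ.U x (A.b y) := A.b_add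
  have hb0 : A.b 0 = 0 := coc_zero ρ hbadd
  have hbc : Continuous A.b := by
    rw [Metric.continuous_iff]
    intro y ε hε
    have h1 : Tendsto (fun x : E => ‖x - y‖ ^ r) (𝓝 y) (𝓝 0) := by
      have h2 : Tendsto (fun x : E => ‖x - y‖) (𝓝 y) (𝓝 0) := by
        have : Tendsto (fun x : E => ‖x - y‖) (𝓝 y) (𝓝 ‖y - y‖) :=
          (continuous_id.sub continuous_const).norm.tendsto y
        simpa using this
      have h3 := h2.rpow_const (p := r) (Or.inr hr.le)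
      rwa [Real.zero_rpow hr.ne'] at h3
    have h4 := h1.eventually (gt_mem_nhds (pow_pos hε 2))
    obtain ⟨η, hη, hη'⟩ := Metric.eventually_nhds_iff.1 h4
    refine ⟨η, hη, fun x hx => ?_⟩
    have h5 := hη' hx
    rw [← A.b_norm, ← coc_norm_sub ρ hbadd, ← dist_eq_norm] at h5
    exact lt_of_pow_lt_pow_left₀ 2 hε.le h5
  -- invariance of `M`
  have hMU : ∀ (x : E), ∀ v ∈ ρ.M, ρ.U x v ∈ ρ.M := by
    intro x
    refine csa_M_map ρ (ρ.U x) fun y u hu => ?_
    rw [← ρ.U_add]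
    exact csa_mem_M ρ _ hu
  have hMg : ∀ (T : E ≃ₗᵢ[ℝ] E), ∀ v ∈ ρ.M, ρ.g T v ∈ ρ.M := by
    intro T
    refine csa_M_map ρ (ρ.g T) fun y u hu => ?_
    rw [ρ.g_U, hu T]
    exact csa_mem_M ρ _ hu
  have hQU : ∀ (x : E) (v : H), ρ.U x (ρ.M.starProjection v) = ρ.M.starProjection (ρ.U x v) :=
    fun x v => csa_proj ρ.M (ρ.U x) (hMU x)
      (fun v hv => by rw [csa_U_symm]; exact hMU _ _ hv) v
  have hQg : ∀ (T : E ≃ₗᵢ[ℝ] E) (v : H),
      ρ.g T (ρ.M.starProjection v) = ρ.M.starProjection (ρ.g T v) :=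
    fun T v => csa_proj ρ.M (ρ.g T) (hMg T)
      (fun v hv => by rw [csa_g_symm]; exact hMg _ _ hv) v
  set β : E → H := fun x => A.b x - ρ.M.starProjection (A.b x) with hβ
  have hβadd : ∀ x y, β (x + y) = β x + ρ.U x (β y) := by
    intro x y
    simp only [hβ]
    rw [hbadd, map_add, map_sub, hQU]
    abel
  have hβg : ∀ T x, ρ.g T (β x) = β (T x) := by
    intro T x
    simp only [hβ]
    rw [map_sub, hQg]
    have : ρ.g T (A.b x) = A.b (T x) := A.b_eqv T x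
    rw [this]
  have hβc : Continuous β := hbc.sub (ρ.M.starProjection.continuous.comp hbc)
  have hβorth : ∀ x, ∀ m ∈ ρ.M, ⟪β x, m⟫_ℝ = 0 := fun x m hm =>
    Submodule.starProjection_inner_eq_zero (K := ρ.M) (A.b x) m hm
  have hβP : ∀ x, ρ.P (β x) = 0 := by
    intro x
    have h5 : ⟪ρ.P (β x), ρ.P (β x)⟫_ℝ = 0 := by
      rw [ρ.inner_P_left (ρ.P_mem _)]
      exact hβorth x _ (csa_fix_M ρ (ρ.P_mem _))
    exact inner_self_eq_zero.1 h5
  -- homogeneity
  have hβdil : ∀ (t : ℝ), 0 < t → ∀ x, ‖β (t • x)‖ ^ 2 = t ^ r * ‖β x‖ ^ 2 := by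
    intro t ht x
    obtain ⟨D, hDb, hDU, hDg⟩ := A.dil t ht
    have hDU' : ∀ x v, D (ρ.U x v) = ρ.U (t • x) (D v) := hDU
    have hDg' : ∀ T v, D (ρ.g T v) = ρ.g T (D v) := hDg
    have hDF : ∀ u ∈ ρ.Fix, D u ∈ ρ.Fix := by
      intro u hu T
      rw [← hDg', hu T]
    have hDF' : ∀ u ∈ ρ.Fix, D.symm u ∈ ρ.Fix := by
      intro u hu T
      rw [LinearIsometryEquiv.eq_symm_apply, hDg', D.apply_symm_apply, hu T]
    have hQD : D (ρ.M.starProjection (A.b x)) = ρ.M.starProjection (D (A.b x)) := by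
      refine csa_proj ρ.M D ?_ ?_ _
      · refine csa_M_map ρ D fun y u hu => ?_
        rw [hDU']
        exact csa_mem_M ρ _ (hDF u hu)
      · refine csa_M_map ρ D.symm fun y u hu => ?_
        have : D.symm (ρ.U y u) = ρ.U (t⁻¹ • y) (D.symm u) := by
          rw [LinearIsometryEquiv.symm_apply_eq, hDU', smul_smul, mul_inv_cancel₀ ht.ne', one_smul,
            D.apply_symm_apply]
        rw [this]
        exact csa_mem_M ρ _ (hDF' u hu)
    have h5 : D (β x) = (t ^ (-(r / 2))) • β (t • x) := by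
      simp only [hβ]
      rw [map_sub, hQD, hDb, map_smul, smul_sub]
    have h6 : ‖β x‖ = t ^ (-(r / 2)) * ‖β (t • x)‖ := by
      rw [← D.norm_map, h5, norm_smul, Real.norm_of_nonneg (Real.rpow_nonneg ht.le _)]
    rw [h6, mul_pow, ← mul_assoc]
    have h7 : t ^ r * (t ^ (-(r / 2))) ^ 2 = 1 := by
      rw [← Real.rpow_natCast (t ^ (-(r / 2))), ← Real.rpow_mul ht.le, ← Real.rpow_add ht]
      have : r + -(r / 2) * ((2 : ℕ) : ℝ) = 0 := by push_cast; ring
      rw [this, Real.rpow_zero]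
    rw [h7, one_mul]
  obtain ⟨x₀, hx₀⟩ := hM
  have hx0 : x₀ ≠ 0 := by
    rintro rfl
    rw [hb0] at hx₀
    exact hx₀ (Submodule.zero_mem _)
  have hn0 : 0 < ‖x₀‖ := norm_pos_iff.2 hx0
  have hβ0 : β x₀ ≠ 0 := by
    intro h5
    apply hx₀
    have : A.b x₀ = ρ.M.starProjection (A.b x₀) := sub_eq_zero.1 h5
    rw [this]
    exact Submodule.starProjection_apply_mem _ _
  have hrad : ∀ x y, ‖x‖ = ‖y‖ → ‖β x‖ ^ 2 = ‖β y‖ ^ 2 := by
    refine h2 E hAT (fun x => ‖β x‖ ^ 2) (by fun_prop) ?_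
    intro T x
    show ‖β (T x)‖ ^ 2 = ‖β x‖ ^ 2
    rw [← hβg, LinearIsometryEquiv.norm_map]
  set c : ℝ := ‖β (‖x₀‖⁻¹ • x₀)‖ ^ 2 with hc
  have hunit : ‖‖x₀‖⁻¹ • x₀‖ = 1 := by
    rw [norm_smul, norm_inv, norm_norm, inv_mul_cancel₀ hn0.ne']
  have hnorm : ∀ x, ‖β x‖ ^ 2 = c * ‖x‖ ^ r := by
    intro x
    rcases eq_or_ne x 0 with rfl | hx
    · rw [coc_zero ρ hβadd, norm_zero, norm_zero, Real.zero_rpow hr.ne']; ring
    have hxn : 0 < ‖x‖ := norm_pos_iff.2 hx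
    have e1 : x = ‖x‖ • (‖x‖⁻¹ • x) := by
      rw [smul_smul, mul_inv_cancel₀ hxn.ne', one_smul]
    have e2 : ‖β x‖ ^ 2 = ‖β (‖x‖ • (‖x‖⁻¹ • x))‖ ^ 2 := by rw [← e1]
    rw [e2, hβdil _ hxn, hrad (‖x‖⁻¹ • x) (‖x₀‖⁻¹ • x₀) (by
      rw [hunit, norm_smul, norm_inv, norm_norm, inv_mul_cancel₀ hxn.ne']), ← hc]
    ring
  have hc0 : 0 < c := by
    have h5 : 0 < ‖β x₀‖ ^ 2 := pow_pos (norm_pos_iff.2 hβ0) 2
    rw [hnorm] at h5
    have h6 : 0 < ‖x₀‖ ^ r := Real.rpow_pos_of_pos hn0 _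
    by_contra h7
    push Not at h7
    have := mul_nonpos_of_nonpos_of_nonneg h7 h6.le
    linarith
  intro n x y ε hε
  obtain ⟨T, hT⟩ := csa_asym ρ h1 hno hβadd hβg hβP n x y (c * ε / 2) (by positivity)
  refine ⟨T.trans (LinearIsometryEquiv.neg ℝ), fun i => ?_⟩
  have e1 : x i + (T.trans (LinearIsometryEquiv.neg ℝ)) (y i) = x i - T (y i) := by
    rw [LinearIsometryEquiv.trans_apply, LinearIsometryEquiv.coe_neg, sub_eq_add_neg]
  have h5 := coc_inner ρ hβadd (x i) (T (y i))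
  rw [hnorm, hnorm, hnorm, T.norm_map] at h5
  have h6 := hT i
  rw [h5] at h6
  have h7 : (c * ‖x i‖ ^ r + c * ‖y i‖ ^ r - c * ‖x i - T (y i)‖ ^ r) / 2 =
      -(c / 2) * (‖x i - T (y i)‖ ^ r - ‖x i‖ ^ r - ‖y i‖ ^ r) := by ring
  rw [h7, abs_mul, abs_neg, abs_of_pos (by positivity)] at h6
  rw [e1]
  have h8 : c * ε / 2 = c / 2 * ε := by ring
  rw [h8] at h6
  exact lt_of_mul_lt_mul_left h6 (by positivity)

end Pool.Agent.Q101.Bm
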