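import Pool.Agent.Q101.BmS

/-!
# A cocycle with values in `M` is approximately a coboundary of fixed vectors
-/

set_option autoImplicit false
set_option linter.unusedVariables false
set_option linter.unusedSectionVars false

namespace Pool.Agent.Q101.Bm

open MeasureTheory Filter Topology
open scoped BigOperators InnerProductSpace ENNReal

section csb

variable {E H : Type} [NormedAddCommGroup E] [NormedSpace ℝ E]
  [NormedAddCommGroup H] [InnerProductSpace ℝ H]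

lemma csb_inv (ρ : Rep E H) {w : H} (hw : w ∈ ρ.Fix) (T : E ≃ₗᵢ[ℝ] E) (x : E) :
    ρ.U (T x) w - w = ρ.g T (ρ.U x w - w) := by
  have h : ρ.g T w = w := hw T
  rw [map_sub, ρ.g_U, h]

lemma csb_rad (h2 : S_rad) (ρ : Rep E H) (hAT : AT E) {w : H} (hw : w ∈ ρ.Fix) {x y : E}
    (hxy : ‖x‖ = ‖y‖) : ‖ρ.U x w - w‖ = ‖ρ.U y w - w‖ := by
  refine h2 E hAT (fun x => ‖ρ.U x w - w‖) (((ρ.cont w).sub continuous_const).norm) ?_ x y hxy
  intro T x
  show ‖ρ.U (T x) w - w‖ = ‖ρ.U x w - w‖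
  rw [csb_inv ρ hw, LinearIsometryEquiv.norm_map]

lemma csb_add (ρ : Rep E H) (x y : E) (w : H) :
    ‖ρ.U (x + y) w - w‖ ≤ ‖ρ.U x w - w‖ + ‖ρ.U y w - w‖ := by
  have h : ρ.U (x + y) w - w = ρ.U x (ρ.U y w - w) + (ρ.U x w - w) := by
    rw [ρ.U_add, map_sub]
    abel
  rw [h]
  refine (norm_add_le _ _).trans ?_
  rw [LinearIsometryEquiv.norm_map, add_comm]

lemma csb_nsmul (ρ : Rep E H) (y : E) (w : H) (n : ℕ) :
    ‖ρ.U (n • y) w - w‖ ≤ n * ‖ρ.U y w - w‖ := by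
  induction n with
  | zero => simp [ρ.U_zero]
  | succ n ih =>
    rw [succ_nsmul]
    refine (csb_add ρ _ _ w).trans ?_
    push_cast
    linarith

lemma csb_bound (h2 : S_rad) (h3 : S_sum) (ρ : Rep E H) (hAT : AT E)
    (hr : 1 < Module.rank ℝ E) {x₀ : E} (hx₀ : ‖x₀‖ = 1) (x : E) :
    ∃ N : ℝ, 0 ≤ N ∧ ∀ w ∈ ρ.Fix, ‖ρ.U x w - w‖ ≤ N * ‖ρ.U x₀ w - w‖ := by
  obtain ⟨m, hm⟩ := exists_nat_ge ‖x‖
  have hm1 : (0 : ℝ) < ((m + 1 : ℕ) : ℝ) := by positivity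
  set y : E := (((m + 1 : ℕ) : ℝ))⁻¹ • x with hy
  have hyn : ‖y‖ ≤ 2 * 1 := by
    rw [hy, norm_smul, norm_inv, Real.norm_of_nonneg hm1.le, inv_mul_le_iff₀ hm1]
    push_cast
    linarith [norm_nonneg x]
  obtain ⟨u, v, hu, hv, huv⟩ := h3 E hr y 1 one_pos hyn
  have hx : x = (m + 1) • y := by
    rw [hy, ← Nat.cast_smul_eq_nsmul ℝ, smul_smul, mul_inv_cancel₀ hm1.ne', one_smul]
  refine ⟨((m + 1 : ℕ) : ℝ) * 2, by positivity, fun w hw => ?_⟩
  have h5 := csb_nsmul ρ y w (m + 1)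
  rw [← hx] at h5
  refine h5.trans ?_
  rw [mul_assoc]
  refine mul_le_mul_of_nonneg_left ?_ hm1.le
  have h6 := csb_add ρ u v w
  rw [← huv, csb_rad h2 ρ hAT hw (hu.trans hx₀.symm), csb_rad h2 ρ hAT hw (hv.trans hx₀.symm)] at h6
  linarith

lemma csb_bsub {r : ℝ} (A : Aff E H r) (x y : E) : ‖A.b x - A.b y‖ ^ 2 = ‖x - y‖ ^ r := by
  have h : A.b x = A.b y + A.U y (A.b (x - y)) := by
    rw [← A.b_add, add_sub_cancel]
  rw [h, add_sub_cancel_left, LinearIsometryEquiv.norm_map, A.b_norm]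

lemma csb_bcont {r : ℝ} (hr : 0 < r) (A : Aff E H r) : Continuous A.b := by
  rw [continuous_iff_continuousAt]
  intro y
  rw [ContinuousAt, tendsto_iff_norm_sub_tendsto_zero]
  have h1 : Tendsto (fun x : E => ‖x - y‖ ^ r) (𝓝 y) (𝓝 0) := by
    have h2 : Continuous fun x : E => ‖x - y‖ ^ r :=
      (continuous_norm.comp (continuous_id.sub continuous_const)).rpow_const
        (fun _ => Or.inr hr.le)
    have h3 := h2.tendsto y
    simpa [Real.zero_rpow hr.ne'] using h3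
  have h2 : (fun x : E => ‖A.b x - A.b y‖) = fun x => Real.sqrt (‖x - y‖ ^ r) := by
    funext x
    rw [← csb_bsub A, Real.sqrt_sq (norm_nonneg _)]
  rw [h2]
  have h3 := (Real.continuous_sqrt.tendsto 0).comp h1
  rw [Real.sqrt_zero] at h3
  exact h3

variable [CompleteSpace H]

/-- A cocycle `β` which is a limit of invariant ones. -/
lemma csb_core (h1 : S_mean) (ρ : Rep E H) (β : E → H)
    (hadd : ∀ x y, β (x + y) = β x + ρ.U x (β y)) (heqv : ∀ T x, ρ.g T (β x) = β (T x))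
    (x y : E) {η : H} (hη : η ∈ ρ.Fix) :
    ⟪ρ.U x (ρ.P (β y)) - ρ.P (β y), η⟫_ℝ = ⟪ρ.U y (ρ.P (β x)) - ρ.P (β x), η⟫_ℝ := by
  have hgη : ∀ T, ρ.g T η = η := fun T => hη T
  have e1 : ∀ T, ⟪ρ.g T (β y), ρ.U (-x) η - η⟫_ℝ = ⟪ρ.g T (ρ.U (-y) η - η), β x⟫_ℝ := by
    intro T
    have a1 : ⟪ρ.g T (β y), ρ.U (-x) η - η⟫_ℝ = ⟪β (x + T y) - β x - β (T y), η⟫_ℝ := by
      rw [heqv, inner_sub_right, ← ρ.inner_U, ← inner_sub_left]
      congr 1
      rw [hadd x (T y)]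
      abel
    have a2 : ⟪ρ.g T (ρ.U (-y) η - η), β x⟫_ℝ = ⟪β (x + T y) - β x - β (T y), η⟫_ℝ := by
      rw [map_sub, ρ.g_U, hgη, inner_sub_left, ρ.inner_U, map_neg, neg_neg, ← inner_sub_right,
        real_inner_comm]
      congr 1
      rw [add_comm x (T y), hadd (T y) x]
      abel
    rw [a1, a2]
  have hs1 : ∀ s : ℝ, (0 : ℝ) ≤ s * (⟪ρ.P (β y), ρ.U (-x) η - η⟫_ℝ -
      ⟪ρ.P (ρ.U (-y) η - η), β x⟫_ℝ) := by
    intro s
    have h := h1 E H ρ 2 ![β y, ρ.U (-y) η - η] ![s • (ρ.U (-x) η - η), -(s • β x)] 0 (by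
      intro T
      simp only [Fin.sum_univ_two, Matrix.cons_val_zero, Matrix.cons_val_one,
        real_inner_smul_right, inner_neg_right]
      rw [e1 T]
      exact le_of_eq (by ring))
    simp only [Fin.sum_univ_two, Matrix.cons_val_zero, Matrix.cons_val_one,
        real_inner_smul_right, inner_neg_right] at h
    linarith
  have h0 : ⟪ρ.P (β y), ρ.U (-x) η - η⟫_ℝ = ⟪ρ.P (ρ.U (-y) η - η), β x⟫_ℝ := by
    have := hs1 1
    have := hs1 (-1)
    linarith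
  have b1 : ⟪ρ.U x (ρ.P (β y)) - ρ.P (β y), η⟫_ℝ = ⟪ρ.P (β y), ρ.U (-x) η - η⟫_ℝ := by
    rw [inner_sub_right, inner_sub_left, ρ.inner_U]
  have b2 : ⟪ρ.U y (ρ.P (β x)) - ρ.P (β x), η⟫_ℝ = ⟪ρ.P (ρ.U (-y) η - η), β x⟫_ℝ := by
    rw [← ρ.inner_P_right (ρ.P_mem _), ρ.inner_P_left (ρ.P_mem _), inner_sub_left, inner_sub_left,
      real_inner_comm (ρ.P (β x)) (ρ.U (-y) η), ← ρ.inner_U, real_inner_comm (ρ.P (β x)) η]
  rw [b1, b2, h0]

theorem csb_aux (h1 : S_mean) (h2 : S_rad) (h3 : S_sum) (h4 : S_nof) {r : ℝ} (A : Aff E H r)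
    (hAT : AT E) (hrk : 1 < Module.rank ℝ E) (hr : 0 < r) (hr2 : r < 2)
    (hM : ∀ x, A.b x ∈ A.toRep.M) (x₀ : E) (hx₀ : ‖x₀‖ = 1) :
    A.b x₀ ∈ closure {z | ∃ w ∈ A.toRep.Fix, z = A.U x₀ w - w} := by
  set ρ : Rep E H := A.toRep with hρ
  set D : H →ₗ[ℝ] H := (ρ.U x₀).toLinearEquiv.toLinearMap - LinearMap.id with hD
  have hDa : ∀ w, D w = ρ.U x₀ w - w := fun w => rfl
  set V : Submodule ℝ H := (Submodule.map D ρ.Fix).topologicalClosure with hV
  have hVc : IsClosed (V : Set H) := Submodule.isClosed_topologicalClosure _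
  have hcomp : CompleteSpace V := hVc.completeSpace_coe
  set v : H := V.starProjection (A.b x₀) with hv
  have hvV : v ∈ V := Submodule.starProjection_apply_mem _ _
  have hVset : (V : Set H) = closure {z | ∃ w ∈ ρ.Fix, z = ρ.U x₀ w - w} := by
    rw [hV, Submodule.topologicalClosure_coe]
    congr 1
    ext z
    constructor
    · rintro ⟨w, hw, rfl⟩
      exact ⟨w, hw, hDa w⟩
    · rintro ⟨w, hw, rfl⟩
      exact ⟨w, hw, hDa w⟩
  have hvcl : v ∈ closure {z | ∃ w ∈ ρ.Fix, z = ρ.U x₀ w - w} := by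
    rw [← hVset]
    exact hvV
  obtain ⟨z, hz, hzlim⟩ := mem_closure_iff_seq_limit.1 hvcl
  choose w hwF hwz using hz
  have hwlim : Tendsto (fun n => ρ.U x₀ (w n) - w n) atTop (𝓝 v) := by
    simpa only [← hwz] using hzlim
  -- the limit cocycle
  have hcau : ∀ x, ∃ l, Tendsto (fun n => ρ.U x (w n) - w n) atTop (𝓝 l) := by
    intro x
    obtain ⟨N, hN0, hN⟩ := csb_bound h2 h3 ρ hAT hrk hx₀ x
    refine cauchySeq_tendsto_of_complete ?_
    have hc0 : CauchySeq (fun n => ρ.U x₀ (w n) - w n) := hwlim.cauchySeq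
    rw [Metric.cauchySeq_iff] at hc0 ⊢
    intro ε hε
    obtain ⟨n₀, hn₀⟩ := hc0 (ε / (N + 1)) (by positivity)
    refine ⟨n₀, fun m hm n hn => ?_⟩
    have h5 := hn₀ m hm n hn
    rw [dist_eq_norm] at h5 ⊢
    have e1 : ρ.U x (w m) - w m - (ρ.U x (w n) - w n) = ρ.U x (w m - w n) - (w m - w n) := by
      rw [map_sub]
      abel
    have e2 : ρ.U x₀ (w m) - w m - (ρ.U x₀ (w n) - w n) = ρ.U x₀ (w m - w n) - (w m - w n) := by
      rw [map_sub]
      abel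
    rw [e1]
    rw [e2] at h5
    have h6 := hN (w m - w n) (ρ.Fix.sub_mem (hwF m) (hwF n))
    rw [lt_div_iff₀ (by positivity)] at h5
    nlinarith [norm_nonneg (ρ.U x₀ (w m - w n) - (w m - w n))]
  choose b' hb' using hcau
  have hb'0 : b' x₀ = v := tendsto_nhds_unique (hb' x₀) hwlim
  set β : E → H := fun x => A.b x - b' x with hβ
  have hb'add : ∀ x y, b' (x + y) = b' x + ρ.U x (b' y) := by
    intro x y
    refine tendsto_nhds_unique (hb' (x + y)) ?_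
    have h5 : Tendsto (fun n => (ρ.U x (w n) - w n) + ρ.U x (ρ.U y (w n) - w n)) atTop
        (𝓝 (b' x + ρ.U x (b' y))) :=
      (hb' x).add (((ρ.U x).continuous.tendsto _).comp (hb' y))
    refine h5.congr fun n => ?_
    rw [map_sub, ρ.U_add]
    abel
  have hb'eqv : ∀ T x, ρ.g T (b' x) = b' (T x) := by
    intro T x
    refine tendsto_nhds_unique (((ρ.g T).continuous.tendsto _).comp (hb' x)) ?_
    refine (hb' (T x)).congr fun n => ?_
    exact csb_inv ρ (hwF n) T x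
  have hadd : ∀ x y, β (x + y) = β x + ρ.U x (β y) := by
    intro x y
    simp only [hβ]
    rw [A.b_add, hb'add, map_sub]
    abel
  have heqv : ∀ T x, ρ.g T (β x) = β (T x) := by
    intro T x
    simp only [hβ]
    rw [map_sub, hb'eqv, A.b_eqv]
  have hβ00 : β 0 = 0 := by
    have h5 := hadd 0 0
    rw [add_zero, ρ.U_zero] at h5
    simpa using h5
  have hrad : ∀ η ∈ ρ.Fix, ∀ x y : E, ‖x‖ = ‖y‖ → ⟪β x, η⟫_ℝ = ⟪β y, η⟫_ℝ := by
    intro η hη x y hxy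
    have hlim : ∀ x, Tendsto (fun n => ⟪A.b x - (ρ.U x (w n) - w n), η⟫_ℝ) atTop
        (𝓝 ⟪β x, η⟫_ℝ) := by
      intro x
      exact ((tendsto_const_nhds.sub (hb' x)).inner tendsto_const_nhds)
    refine tendsto_nhds_unique (hlim x) ((hlim y).congr fun n => ?_)
    refine h2 E hAT (fun x => ⟪A.b x - (ρ.U x (w n) - w n), η⟫_ℝ) ?_ ?_ y x hxy.symm
    · exact ((csb_bcont hr A).sub ((ρ.cont (w n)).sub continuous_const)).inner continuous_const
    · intro T x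
      show ⟪A.b (T x) - (ρ.U (T x) (w n) - w n), η⟫_ℝ = ⟪A.b x - (ρ.U x (w n) - w n), η⟫_ℝ
      rw [csb_inv ρ (hwF n), ← A.b_eqv, ← map_sub, ρ.inner_g]
      have : ρ.g T⁻¹ η = η := hη T⁻¹
      rw [this]
  -- step 2
  have hortV : ∀ w ∈ ρ.Fix, ⟪β x₀, ρ.U x₀ w - w⟫_ℝ = 0 := by
    intro w hw
    have h5 : ρ.U x₀ w - w ∈ V := Submodule.le_topologicalClosure _ ⟨w, hw, hDa w⟩
    have h6 := Submodule.starProjection_inner_eq_zero (K := V) (A.b x₀) _ h5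
    rw [← hv, ← hb'0] at h6
    exact h6
  have hP0 : ∀ η ∈ ρ.Fix, ⟪β x₀, η⟫_ℝ = 0 := by
    intro η hη
    have h5 := hortV η hη
    have h6 : ρ.U (-x₀) (β x₀) = -β (-x₀) := by
      have := hadd (-x₀) x₀
      rw [neg_add_cancel, hβ00] at this
      exact (neg_eq_of_add_eq_zero_right this.symm).symm
    rw [inner_sub_right, real_inner_comm (ρ.U x₀ η) (β x₀), ρ.inner_U, real_inner_comm _ η, h6,
      inner_neg_left, hrad η hη (-x₀) x₀ (norm_neg _)] at h5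
    linarith
  have hPx0 : ρ.P (β x₀) = 0 := by
    have h5 := hP0 _ (ρ.P_mem (β x₀))
    rw [← ρ.inner_P_left (ρ.P_mem _)] at h5
    exact inner_self_eq_zero.1 h5
  -- step 4
  have hPy : ∀ y, ρ.P (β y) = 0 := by
    intro y
    set u : H := ρ.P (β y) with hu
    have huF : u ∈ ρ.Fix := ρ.P_mem _
    have h5 := csb_core h1 ρ β hadd heqv x₀ y huF
    rw [hPx0, map_zero, sub_zero, inner_zero_left, ← hu, inner_sub_left] at h5
    have h6 : ‖ρ.U x₀ u - u‖ ^ 2 = 0 := by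
      rw [@norm_sub_sq_real, LinearIsometryEquiv.norm_map, ← real_inner_self_eq_norm_sq u]
      linarith
    have h7 : ‖ρ.U x₀ u - u‖ = 0 := by
      exact pow_eq_zero_iff (two_ne_zero) |>.1 h6
    refine h4 E H r A hr hr2 u fun x => ?_
    obtain ⟨N, hN0, hN⟩ := csb_bound h2 h3 ρ hAT hrk hx₀ x
    have h8 := hN u huF
    rw [h7, mul_zero] at h8
    exact sub_eq_zero.1 (norm_le_zero_iff.1 h8)
  have hin : ∀ y, ∀ η ∈ ρ.Fix, ⟪β y, η⟫_ℝ = 0 := by
    intro y η hη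
    rw [← ρ.inner_P_left hη, hPy, inner_zero_left]
  -- step 5
  have hM' : ∀ m ∈ ρ.M, ⟪β x₀, m⟫_ℝ = 0 := by
    have hsp : Submodule.span ℝ {v | ∃ x : E, ∃ u ∈ ρ.Fix, v = ρ.U x u} ≤
        (LinearMap.ker (innerSL ℝ (β x₀)).toLinearMap) := by
      refine Submodule.span_le.2 ?_
      rintro _ ⟨x, u, hu, rfl⟩
      show ⟪β x₀, ρ.U x u⟫_ℝ = 0
      rw [real_inner_comm, ρ.inner_U, real_inner_comm]
      have h5 : ρ.U (-x) (β x₀) = β (-x + x₀) - β (-x) := by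
        rw [hadd]
        abel
      rw [h5, inner_sub_left, hin _ u hu, hin _ u hu, sub_zero]
    have hcl : IsClosed ((LinearMap.ker (innerSL ℝ (β x₀)).toLinearMap : Submodule ℝ H) : Set H) :=
      (innerSL ℝ (β x₀)).isClosed_ker
    intro m hm
    exact Submodule.topologicalClosure_minimal _ hsp hcl hm
  have hvM : v ∈ ρ.M := by
    have hVM : V ≤ ρ.M := by
      refine Submodule.topologicalClosure_minimal _ ?_ (Submodule.isClosed_topologicalClosure _)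
      rintro _ ⟨u, hu, rfl⟩
      rw [hDa]
      refine ρ.M.sub_mem (Submodule.le_topologicalClosure _ (Submodule.subset_span ⟨x₀, u, hu, rfl⟩))
        (Submodule.le_topologicalClosure _ (Submodule.subset_span ⟨0, u, hu, (ρ.U_zero u).symm⟩))
    exact hVM hvV
  have hβM : β x₀ ∈ ρ.M := by
    simp only [hβ]
    rw [hb'0]
    exact ρ.M.sub_mem (hM x₀) hvM
  have hβ0 : β x₀ = 0 := inner_self_eq_zero.1 (hM' _ hβM)
  have hfin : A.b x₀ = v := by
    have : A.b x₀ - b' x₀ = 0 := hβ0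
    rw [hb'0] at this
    exact sub_eq_zero.1 this
  rw [hfin]
  exact hvcl

end csb

theorem csb (h1 : S_mean) (h2 : S_rad) (h3 : S_sum) (h4 : S_nof) : S_csb := by
  intro E H _ _ _ _ _ r A hAT hrk hr hr2 hM x₀ hx₀ ε hε
  have h := csb_aux h1 h2 h3 h4 A hAT hrk hr hr2 hM x₀ hx₀
  obtain ⟨z, ⟨w, hw, rfl⟩, hz⟩ := Metric.mem_closure_iff.1 h ε hε
  refine ⟨w, hw, ?_⟩
  rwa [dist_eq_norm] at hz

end Pool.Agent.Q101.Bm
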