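import Pool.Agent.Q101.BmS2

/-!
# Almost isometric copies of `ℓ_r`
-/

set_option autoImplicit false
set_option linter.unusedVariables false
set_option linter.unusedSectionVars false

namespace Pool.Agent.Q101.Bm

open MeasureTheory Filter Topology
open scoped BigOperators InnerProductSpace ENNReal

section ell

variable {E : Type} [NormedAddCommGroup E] [NormedSpace ℝ E]

lemma ell_fin {r : ℝ} (h : Asy2 E r) (t : Set E) (ht : t.Finite) (ε : ℝ) (hε : 0 < ε) :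
    ∃ w : E, ‖w‖ = 1 ∧ ∀ x ∈ t, |‖x + w‖ ^ r - ‖x‖ ^ r - 1| < ε := by
  obtain ⟨w, hw, hw2⟩ := h _ (fun i => ((ht.toFinset).equivFin.symm i : E)) ε hε
  refine ⟨w, hw, fun x hx => ?_⟩
  have h1 := hw2 ((ht.toFinset).equivFin ⟨x, ht.mem_toFinset.2 hx⟩)
  simpa using h1

lemma ell_unif {r : ℝ} (hr : 0 < r) (R ε : ℝ) (hε : 0 < ε) : ∃ ζ : ℝ, 0 < ζ ∧
    ∀ s t : ℝ, 0 ≤ s → s ≤ R → 0 ≤ t → t ≤ R → |s - t| < ζ → |s ^ r - t ^ r| < ε := by
  have h1 : ContinuousOn (fun t : ℝ => t ^ r) (Set.Icc 0 R) :=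
    (Real.continuous_rpow_const hr.le).continuousOn
  have h2 := (isCompact_Icc (a := (0 : ℝ)) (b := R)).uniformContinuousOn_of_continuous h1
  rw [Metric.uniformContinuousOn_iff] at h2
  obtain ⟨ζ, hζ, h3⟩ := h2 ε hε
  refine ⟨ζ, hζ, fun s t hs hs' ht ht' hst => ?_⟩
  have := h3 s ⟨hs, hs'⟩ t ⟨ht, ht'⟩ (by rwa [Real.dist_eq])
  rwa [Real.dist_eq] at this

lemma ell_far {r : ℝ} (hr : 0 < r) (η : ℝ) (hη : 0 < η) : ∃ R : ℝ, 1 ≤ R ∧
    ∀ y w : E, ‖w‖ = 1 → R ≤ ‖y‖ → |‖y + w‖ ^ r - ‖y‖ ^ r - 1| ≤ η * (‖y‖ ^ r + 1) := by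
  have hc : ContinuousAt (fun t : ℝ => t ^ r) 1 := (Real.continuous_rpow_const hr.le).continuousAt
  obtain ⟨ζ, hζ, h1⟩ := Metric.continuousAt_iff.1 hc (η / 2) (half_pos hη)
  refine ⟨max (max 1 (2 / ζ)) ((2 / η) ^ (1 / r)), (le_max_left _ _).trans (le_max_left _ _),
    fun y w hw hy => ?_⟩
  have hy1 : 1 ≤ ‖y‖ := ((le_max_left _ _).trans (le_max_left _ _)).trans hy
  have hy2 : 2 / ζ ≤ ‖y‖ := ((le_max_right _ _).trans (le_max_left _ _)).trans hy
  have hy3 : (2 / η) ^ (1 / r) ≤ ‖y‖ := (le_max_right _ _).trans hy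
  have hy0 : 0 < ‖y‖ := lt_of_lt_of_le one_pos hy1
  have h2 : |‖y + w‖ / ‖y‖ - 1| < ζ := by
    have h3 : |‖y + w‖ - ‖y‖| ≤ 1 := by
      have := abs_norm_sub_norm_le (y + w) y
      rwa [add_sub_cancel_left, hw] at this
    have h4 : ‖y + w‖ / ‖y‖ - 1 = (‖y + w‖ - ‖y‖) / ‖y‖ := by
      field_simp
    rw [h4, abs_div, abs_of_pos hy0, div_lt_iff₀ hy0]
    rw [div_le_iff₀ hζ] at hy2
    linarith
  have h5 := h1 (x := ‖y + w‖ / ‖y‖) (by rwa [Real.dist_eq])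
  rw [Real.dist_eq, Real.one_rpow, Real.div_rpow (norm_nonneg _) (norm_nonneg _)] at h5
  have hyr : 0 < ‖y‖ ^ r := Real.rpow_pos_of_pos hy0 _
  have h6 : |‖y + w‖ ^ r - ‖y‖ ^ r| ≤ η / 2 * ‖y‖ ^ r := by
    have h7 : ‖y + w‖ ^ r - ‖y‖ ^ r = (‖y + w‖ ^ r / ‖y‖ ^ r - 1) * ‖y‖ ^ r := by
      field_simp
    rw [h7, abs_mul, abs_of_pos hyr]
    exact mul_le_mul_of_nonneg_right h5.le hyr.le
  have h8 : 1 ≤ η / 2 * ‖y‖ ^ r := by
    have h9 : 2 / η ≤ ‖y‖ ^ r := by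
      have := Real.rpow_le_rpow (by positivity) hy3 hr.le
      rwa [← Real.rpow_mul (by positivity), one_div, inv_mul_cancel₀ hr.ne', Real.rpow_one] at this
    rw [div_le_iff₀ hη] at h9
    linarith
  calc |‖y + w‖ ^ r - ‖y‖ ^ r - 1| ≤ |‖y + w‖ ^ r - ‖y‖ ^ r| + |1| := abs_sub _ _
    _ ≤ η / 2 * ‖y‖ ^ r + η / 2 * ‖y‖ ^ r := by
        rw [abs_one]
        exact add_le_add h6 h8
    _ ≤ η * (‖y‖ ^ r + 1) := by linarith

lemma ell_claim {r : ℝ} (hr : 0 < r) (h : Asy2 E r) (F : Submodule ℝ E) [FiniteDimensional ℝ F]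
    (η : ℝ) (hη : 0 < η) : ∃ w : E, ‖w‖ = 1 ∧ ∀ x ∈ F, ∀ a : ℝ,
      |‖x + a • w‖ ^ r - ‖x‖ ^ r - |a| ^ r| ≤ η * (‖x‖ ^ r + |a| ^ r) := by
  obtain ⟨R, hR1, hR⟩ := ell_far (E := E) hr η hη
  obtain ⟨ζ, hζ, hun⟩ := ell_unif hr (R + 3) (η / 3) (by positivity)
  have hprop : ProperSpace F := FiniteDimensional.proper_real F
  obtain ⟨t, hts, htf, htc⟩ := (isCompact_closedBall (0 : F) R).finite_cover_balls
    (e := min ζ 1) (lt_min hζ one_pos)
  obtain ⟨w, hw, hw2⟩ := ell_fin h ((fun f : F => (f : E)) '' t) (htf.image _) (η / 3) (by positivity)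
  refine ⟨w, hw, ?_⟩
  have key : ∀ y ∈ F, |‖y + w‖ ^ r - ‖y‖ ^ r - 1| ≤ η * (‖y‖ ^ r + 1) := by
    intro y hy
    by_cases hyR : R ≤ ‖y‖
    · exact hR y w hw hyR
    · push Not at hyR
      have h1 : (⟨y, hy⟩ : F) ∈ Metric.closedBall (0 : F) R := by
        rw [mem_closedBall_zero_iff]
        exact hyR.le
      have h2 := htc h1
      simp only [Set.mem_iUnion] at h2
      obtain ⟨y', hy't, hyy'⟩ := h2
      rw [Metric.mem_ball, dist_eq_norm] at hyy'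
      have h3 : ‖y - (y' : E)‖ < min ζ 1 := hyy'
      have h4 := hw2 (y' : E) ⟨y', hy't, rfl⟩
      have hy' : ‖(y' : E)‖ ≤ R + 1 := by
        have h5 : ‖(y' : E)‖ ≤ ‖y‖ + ‖y - (y' : E)‖ := by
          have := norm_sub_norm_le (y' : E) y
          rw [norm_sub_rev] at this
          linarith
        have := min_le_right ζ 1
        linarith
      have h6 : |‖y + w‖ ^ r - ‖(y' : E) + w‖ ^ r| < η / 3 := by
        refine hun _ _ (norm_nonneg _) ?_ (norm_nonneg _) ?_ ?_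
        · have := norm_add_le y w
          linarith
        · have := norm_add_le (y' : E) w
          linarith
        · have h7 := abs_norm_sub_norm_le (y + w) ((y' : E) + w)
          rw [add_sub_add_right_eq_sub] at h7
          exact lt_of_le_of_lt h7 (h3.trans_le (min_le_left _ _))
      have h8 : |‖y‖ ^ r - ‖(y' : E)‖ ^ r| < η / 3 := by
        refine hun _ _ (norm_nonneg _) (by linarith) (norm_nonneg _) (by linarith) ?_
        exact lt_of_le_of_lt (abs_norm_sub_norm_le _ _) (h3.trans_le (min_le_left _ _))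
      have h9 : |‖y + w‖ ^ r - ‖y‖ ^ r - 1| ≤ η := by
        rw [abs_lt] at h4 h6 h8
        rw [abs_le]
        constructor <;> linarith [h4.1, h4.2, h6.1, h6.2, h8.1, h8.2]
      have h10 : 0 ≤ ‖y‖ ^ r := Real.rpow_nonneg (norm_nonneg _) _
      nlinarith
  intro x hx a
  by_cases ha : a = 0
  · rw [ha, zero_smul, add_zero, abs_zero, Real.zero_rpow hr.ne']
    simp only [sub_self, abs_zero, sub_zero, add_zero]
    positivity
  · have ha' : 0 < |a| := abs_pos.2 ha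
    have har : 0 < |a| ^ r := Real.rpow_pos_of_pos ha' _
    have h1 := key (a⁻¹ • x) (F.smul_mem _ hx)
    have h2 : x + a • w = a • (a⁻¹ • x + w) := by
      rw [smul_add, smul_smul, mul_inv_cancel₀ ha, one_smul]
    have h3 : ‖x + a • w‖ ^ r = |a| ^ r * ‖a⁻¹ • x + w‖ ^ r := by
      rw [h2, norm_smul, Real.norm_eq_abs, Real.mul_rpow ha'.le (norm_nonneg _)]
    have h4 : ‖x‖ ^ r = |a| ^ r * ‖a⁻¹ • x‖ ^ r := by
      have h5 : x = a • (a⁻¹ • x) := by rw [smul_smul, mul_inv_cancel₀ ha, one_smul]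
      conv_lhs => rw [h5]
      rw [norm_smul, Real.norm_eq_abs, Real.mul_rpow ha'.le (norm_nonneg _)]
    have h6 : ‖x + a • w‖ ^ r - ‖x‖ ^ r - |a| ^ r =
        |a| ^ r * (‖a⁻¹ • x + w‖ ^ r - ‖a⁻¹ • x‖ ^ r - 1) := by
      rw [h3, h4]
      ring
    rw [h6, abs_mul, abs_of_pos har]
    calc |a| ^ r * |‖a⁻¹ • x + w‖ ^ r - ‖a⁻¹ • x‖ ^ r - 1|
        ≤ |a| ^ r * (η * (‖a⁻¹ • x‖ ^ r + 1)) := mul_le_mul_of_nonneg_left h1 har.le
      _ = η * (‖x‖ ^ r + |a| ^ r) := by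
          rw [h4]
          ring

/-- The chosen vector. -/
noncomputable def ellW {r : ℝ} (hr : 0 < r) (h : Asy2 E r)
    (F : {F : Submodule ℝ E // FiniteDimensional ℝ F}) (η : ℝ) (hη : 0 < η) : E :=
  haveI := F.2
  (ell_claim hr h F.1 η hη).choose

lemma ellW_spec {r : ℝ} (hr : 0 < r) (h : Asy2 E r)
    (F : {F : Submodule ℝ E // FiniteDimensional ℝ F}) (η : ℝ) (hη : 0 < η) :
    ‖ellW hr h F η hη‖ = 1 ∧ ∀ x ∈ F.1, ∀ a : ℝ,
      |‖x + a • ellW hr h F η hη‖ ^ r - ‖x‖ ^ r - |a| ^ r| ≤ η * (‖x‖ ^ r + |a| ^ r) :=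
  haveI := F.2
  (ell_claim hr h F.1 η hη).choose_spec

lemma ell_eta {ε : ℝ} (hε : 0 < ε) (n : ℕ) : 0 < ε * (1 / 2) ^ (n + 2) := by positivity

/-- The increasing finite-dimensional subspaces. -/
noncomputable def ellF {r : ℝ} (hr : 0 < r) (h : Asy2 E r) {ε : ℝ} (hε : 0 < ε) :
    ℕ → {F : Submodule ℝ E // FiniteDimensional ℝ F}
  | 0 => ⟨⊥, inferInstance⟩
  | n + 1 => ⟨(ellF hr h hε n).1 ⊔ Submodule.span ℝ {ellW hr h (ellF hr h hε n) _ (ell_eta hε n)}, by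
      haveI := (ellF hr h hε n).2
      infer_instance⟩

lemma ell_mem {r : ℝ} (hr : 0 < r) (h : Asy2 E r) {ε : ℝ} (hε : 0 < ε) (a : ℕ → ℝ) (n : ℕ) :
    ∑ i ∈ Finset.range n, a i • ellW hr h (ellF hr h hε i) _ (ell_eta hε i) ∈
      (ellF hr h hε n).1 := by
  induction n with
  | zero =>
    simp
  | succ n ih =>
    rw [Finset.sum_range_succ]
    refine Submodule.add_mem _ ?_ ?_
    · exact Submodule.mem_sup_left ih
    · exact Submodule.mem_sup_right (Submodule.smul_mem _ _ (Submodule.mem_span_singleton_self _))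

lemma ell_range {r : ℝ} (hr : 0 < r) (h : Asy2 E r) {ε : ℝ} (hε : 0 < ε) (hε1 : ε ≤ 1)
    (a : ℕ → ℝ) (n : ℕ) :
    (1 - ε * (1 - (1 / 2) ^ n)) * ∑ i ∈ Finset.range n, |a i| ^ r ≤
      ‖∑ i ∈ Finset.range n, a i • ellW hr h (ellF hr h hε i) _ (ell_eta hε i)‖ ^ r ∧
    ‖∑ i ∈ Finset.range n, a i • ellW hr h (ellF hr h hε i) _ (ell_eta hε i)‖ ^ r ≤
      (1 + ε * (1 - (1 / 2) ^ n)) * ∑ i ∈ Finset.range n, |a i| ^ r := by
  induction n with
  | zero =>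
    simp [Real.zero_rpow hr.ne']
  | succ n ih =>
    rw [Finset.sum_range_succ, Finset.sum_range_succ]
    have hm := ell_mem hr h hε a n
    set y := ∑ i ∈ Finset.range n, a i • ellW hr h (ellF hr h hε i) _ (ell_eta hε i) with hy
    set S := ∑ i ∈ Finset.range n, |a i| ^ r with hS
    have hS0 : 0 ≤ S := Finset.sum_nonneg fun i _ => Real.rpow_nonneg (abs_nonneg _) _
    have h1 := (ellW_spec hr h (ellF hr h hε n) _ (ell_eta hε n)).2 y hm (a n)
    set w := ellW hr h (ellF hr h hε n) _ (ell_eta hε n) with hw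
    set b := |a n| ^ r with hb
    have hb0 : 0 ≤ b := Real.rpow_nonneg (abs_nonneg _) _
    set Y := ‖y‖ ^ r with hY
    set Z := ‖y + a n • w‖ ^ r with hZ
    obtain ⟨h2, h3⟩ := ih
    have hp0 : 0 < ((1 : ℝ) / 2) ^ n := by positivity
    have hp1 : ((1 : ℝ) / 2) ^ n ≤ 1 := pow_le_one₀ (by norm_num) (by norm_num)
    set p := ((1 : ℝ) / 2) ^ n with hp
    have e1 : ((1 : ℝ) / 2) ^ (n + 1) = p / 2 := by
      rw [pow_succ]
      ring
    have e2 : ((1 : ℝ) / 2) ^ (n + 2) = p / 4 := by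
      rw [pow_succ, pow_succ]
      ring
    rw [e2] at h1
    rw [e1]
    rw [abs_le] at h1
    obtain ⟨h4, h5⟩ := h1
    have hεp : 0 < ε * p := by positivity
    have hεp1 : ε * p ≤ 1 := by nlinarith
    have hY0 : 0 ≤ Y := Real.rpow_nonneg (norm_nonneg _) _
    constructor
    · have h6 : (1 - ε * (1 - p)) * (S + b) ≤ Y + b := by
        have : (1 - ε * (1 - p)) * b ≤ b := by nlinarith [mul_nonneg (mul_nonneg hε.le (sub_nonneg.2 hp1)) hb0]
        nlinarith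
      have h7 : (1 - ε * (p / 4)) * (Y + b) ≤ Z := by nlinarith
      have h8 : (1 - ε * (p / 4)) * ((1 - ε * (1 - p)) * (S + b)) ≤ Z :=
        (mul_le_mul_of_nonneg_left h6 (by nlinarith)).trans h7
      refine le_trans ?_ h8
      have h9 : 0 ≤ S + b := by positivity
      have h10 : 1 - ε * (1 - p / 2) ≤ (1 - ε * (p / 4)) * (1 - ε * (1 - p)) := by
        nlinarith [mul_nonneg hεp.le (mul_nonneg hε.le (sub_nonneg.2 hp1))]
      rw [← mul_assoc]
      exact mul_le_mul_of_nonneg_right h10 h9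
    · have h6 : Y + b ≤ (1 + ε * (1 - p)) * (S + b) := by
        nlinarith [mul_nonneg (mul_nonneg hε.le (sub_nonneg.2 hp1)) hb0]
      have h7 : Z ≤ (1 + ε * (p / 4)) * (Y + b) := by nlinarith
      have h8 : Z ≤ (1 + ε * (p / 4)) * ((1 + ε * (1 - p)) * (S + b)) :=
        h7.trans (mul_le_mul_of_nonneg_left h6 (by nlinarith))
      refine h8.trans ?_
      have h9 : 0 ≤ S + b := by positivity
      have h10 : (1 + ε * (p / 4)) * (1 + ε * (1 - p)) ≤ 1 + ε * (1 - p / 2) := by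
        have h11 : ε * (1 - p) ≤ 1 := by nlinarith
        nlinarith [mul_le_mul_of_nonneg_left h11 hεp.le]
      rw [← mul_assoc]
      exact mul_le_mul_of_nonneg_right h10 h9

end ell

theorem ell2 : S_ell2 := by
  intro E _ _ r hr h ε₀ hε₀
  set ε : ℝ := min ε₀ 1 with hεdef
  have hε : 0 < ε := lt_min hε₀ one_pos
  have hε1 : ε ≤ 1 := min_le_right _ _
  have hεε : ε ≤ ε₀ := min_le_left _ _
  refine ⟨fun i => ellW hr h (ellF hr h hε i) _ (ell_eta hε i), fun s a => ?_⟩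
  set x : ℕ → E := fun i => ellW hr h (ellF hr h hε i) _ (ell_eta hε i) with hx
  obtain ⟨N, hN⟩ := s.exists_nat_subset_range
  set a' : ℕ → ℝ := fun i => if i ∈ s then a i else 0 with ha'
  have h1 := ell_range hr h hε hε1 a' N
  have e1 : ∑ i ∈ Finset.range N, |a' i| ^ r = ∑ i ∈ s, |a i| ^ r := by
    rw [← Finset.sum_subset hN]
    · refine Finset.sum_congr rfl fun i hi => ?_
      simp [ha', hi]
    · intro i _ hi
      simp [ha', hi, Real.zero_rpow hr.ne']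
  have e2 : ∑ i ∈ Finset.range N, a' i • ellW hr h (ellF hr h hε i) _ (ell_eta hε i) =
      ∑ i ∈ s, a i • x i := by
    rw [← Finset.sum_subset hN]
    · refine Finset.sum_congr rfl fun i hi => ?_
      simp [ha', hi, hx]
    · intro i _ hi
      simp [ha', hi]
  rw [e1, e2] at h1
  have hS0 : 0 ≤ ∑ i ∈ s, |a i| ^ r :=
    Finset.sum_nonneg fun i _ => Real.rpow_nonneg (abs_nonneg _) _
  have hp : 0 < ((1 : ℝ) / 2) ^ N := by positivity
  constructor
  · refine le_trans (mul_le_mul_of_nonneg_right ?_ hS0) h1.1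
    nlinarith
  · refine h1.2.trans (mul_le_mul_of_nonneg_right ?_ hS0)
    nlinarith

end Pool.Agent.Q101.Bm
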