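import Pool.Agent.Q101.BmS

/-!
# Schoenberg: exponentials of functions of negative type are positive definite
-/

set_option autoImplicit false
set_option linter.unusedVariables false
set_option linter.unusedSectionVars false

namespace Pool.Agent.Q101.Bm

open MeasureTheory Filter Topology
open scoped BigOperators InnerProductSpace ENNReal

lemma exp_kern {X : Type} [AddCommGroup X] (ψ : X → ℝ) (h : CND ψ) (he : ∀ x, ψ (-x) = ψ x)
    (h0 : ψ 0 = 0) (n : ℕ) (x : Fin n → X) (c : Fin n → ℝ) :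
    0 ≤ ∑ i, ∑ j, c i * c j * (ψ (x i) + ψ (x j) - ψ (x i - x j)) := by
  have h1 := h (n + 1) (Fin.cons 0 x) (Fin.cons (-∑ i, c i) c) (by
    rw [Fin.sum_univ_succ]
    simp)
  rw [Fin.sum_univ_succ] at h1
  simp only [Fin.sum_univ_succ, Fin.cons_zero, Fin.cons_succ, sub_zero, h0, mul_zero, zero_add,
    zero_sub, he] at h1
  have e1 : ∑ i, -(∑ i, c i) * c i * ψ (x i) = -(∑ i, c i) * ∑ i, c i * ψ (x i) := by
    rw [Finset.mul_sum]
    exact Finset.sum_congr rfl fun i _ => by ring
  have e2 : ∑ i, (c i * -(∑ i, c i) * ψ (x i) + ∑ j, c i * c j * ψ (x i - x j)) =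
      -(∑ i, c i) * (∑ i, c i * ψ (x i)) + ∑ i, ∑ j, c i * c j * ψ (x i - x j) := by
    rw [Finset.sum_add_distrib, Finset.mul_sum]
    congr 1
    exact Finset.sum_congr rfl fun i _ => by ring
  rw [e1, e2] at h1
  have e3 : ∑ i, ∑ j, c i * c j * (ψ (x i) + ψ (x j) - ψ (x i - x j)) =
      2 * ((∑ i, c i) * (∑ i, c i * ψ (x i))) - ∑ i, ∑ j, c i * c j * ψ (x i - x j) := by
    have a1 : ∑ i, ∑ j, c i * c j * ψ (x i) = (∑ i, c i) * (∑ i, c i * ψ (x i)) := by
      rw [mul_comm, Finset.sum_mul_sum]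
      exact Finset.sum_congr rfl fun i _ => Finset.sum_congr rfl fun j _ => by ring
    have a2 : ∑ i, ∑ j, c i * c j * ψ (x j) = (∑ i, c i) * (∑ i, c i * ψ (x i)) := by
      rw [Finset.sum_mul_sum]
      exact Finset.sum_congr rfl fun i _ => Finset.sum_congr rfl fun j _ => by ring
    have a3 : ∀ i j : Fin n, c i * c j * (ψ (x i) + ψ (x j) - ψ (x i - x j)) =
        c i * c j * ψ (x i) + c i * c j * ψ (x j) - c i * c j * ψ (x i - x j) := by
      intro i j
      ring
    simp_rw [a3, Finset.sum_sub_distrib, Finset.sum_add_distrib]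
    rw [a1, a2]
    ring
  rw [e3]
  linarith

lemma exp_pow {n : ℕ} (M : Matrix (Fin n) (Fin n) ℝ) (hM : M.PosSemidef) (k : ℕ) :
    (Matrix.of fun i j => M i j ^ k).PosSemidef := by
  induction k with
  | zero =>
    have h1 := Matrix.posSemidef_vecMulVec_self_star (fun _ : Fin n => (1 : ℝ))
    convert h1 using 1
    ext i j
    simp [Matrix.vecMulVec_apply]
  | succ k ih =>
    have h1 : (Matrix.of fun i j => M i j ^ (k + 1)) =
        (Matrix.of fun i j => M i j ^ k).hadamard M := by
      ext i j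
      simp [Matrix.hadamard, pow_succ]
    rw [h1]
    exact ih.hadamard hM

lemma exp_quad {n : ℕ} (M : Matrix (Fin n) (Fin n) ℝ) (hM : M.PosSemidef) (c : Fin n → ℝ) :
    0 ≤ ∑ i, ∑ j, c i * c j * M i j := by
  have h1 := hM.dotProduct_mulVec_nonneg c
  refine h1.trans (le_of_eq ?_)
  simp only [dotProduct, Matrix.mulVec, Pi.star_apply, star_trivial]
  refine Finset.sum_congr rfl fun i _ => ?_
  rw [Finset.mul_sum]
  exact Finset.sum_congr rfl fun j _ => by ring

lemma exp_exp {n : ℕ} (M : Matrix (Fin n) (Fin n) ℝ) (hM : M.PosSemidef) (c : Fin n → ℝ) :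
    0 ≤ ∑ i, ∑ j, c i * c j * Real.exp (M i j) := by
  have h1 : HasSum (fun k : ℕ => ∑ i, ∑ j, c i * c j * (M i j ^ k / (k.factorial : ℝ)))
      (∑ i, ∑ j, c i * c j * Real.exp (M i j)) := by
    refine hasSum_sum fun i _ => hasSum_sum fun j _ => ?_
    refine HasSum.mul_left _ ?_
    rw [Real.exp_eq_exp_ℝ]
    exact NormedSpace.expSeries_div_hasSum_exp (M i j)
  refine h1.nonneg fun k => ?_
  have h2 := exp_quad _ (exp_pow M hM k) c
  have h3 : ∑ i, ∑ j, c i * c j * (M i j ^ k / (k.factorial : ℝ)) =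
      (∑ i, ∑ j, c i * c j * (Matrix.of fun i j => M i j ^ k) i j) / (k.factorial : ℝ) := by
    rw [Finset.sum_div]
    refine Finset.sum_congr rfl fun i _ => ?_
    rw [Finset.sum_div]
    refine Finset.sum_congr rfl fun j _ => ?_
    simp only [Matrix.of_apply]
    ring
  rw [h3]
  exact div_nonneg h2 (Nat.cast_nonneg _)

theorem exp_pd : S_exp := by
  intro X _ ψ h he h0 n x c
  let M : Matrix (Fin n) (Fin n) ℝ :=
    Matrix.of fun i j => ψ (x i) + ψ (x j) - ψ (x i - x j)
  have hM : M.PosSemidef := by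
    refine Matrix.PosSemidef.of_dotProduct_mulVec_nonneg ?_ fun d => ?_
    · ext i j
      simp only [M, Matrix.conjTranspose_apply, Matrix.of_apply, star_trivial]
      rw [← he (x i - x j), neg_sub]
      ring
    · refine (exp_kern ψ h he h0 n x d).trans (le_of_eq ?_)
      simp only [dotProduct, Matrix.mulVec, Pi.star_apply, star_trivial]
      refine Finset.sum_congr rfl fun i _ => ?_
      rw [Finset.mul_sum]
      refine Finset.sum_congr rfl fun j _ => ?_
      simp only [M, Matrix.of_apply]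
      ring
  refine (exp_exp M hM (fun i => c i * Real.exp (-ψ (x i)))).trans (le_of_eq ?_)
  refine Finset.sum_congr rfl fun i _ => Finset.sum_congr rfl fun j _ => ?_
  have e1 : Real.exp (-ψ (x i - x j)) =
      Real.exp (-ψ (x i)) * Real.exp (-ψ (x j)) * Real.exp (M i j) := by
    rw [← Real.exp_add, ← Real.exp_add]
    congr 1
    simp only [M, Matrix.of_apply]
    ring
  show c i * Real.exp (-ψ (x i)) * (c j * Real.exp (-ψ (x j))) * Real.exp (M i j) =
    c i * c j * Real.exp (-ψ (x i - x j))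
  rw [e1]
  ring

end Pool.Agent.Q101.Bm
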