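import Pool.Agent.Q101.BmS2

/-!
# The representations of a radial positive definite function and of a norm power of negative type
-/

set_option autoImplicit false
set_option linter.unusedVariables false
set_option linter.unusedSectionVars false

namespace Pool.Agent.Q101.Bm

open MeasureTheory Filter Topology
open scoped BigOperators InnerProductSpace ENNReal

section tot

variable {X H : Type} [NormedAddCommGroup H] [InnerProductSpace ℝ H] [CompleteSpace H]
  {δ : X → H}

lemma tot_top (htot : ∀ h : H, (∀ x, ⟪δ x, h⟫_ℝ = 0) → h = 0) (S : Submodule ℝ H)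
    (hS : IsClosed (S : Set H)) (h : ∀ x, δ x ∈ S) (v : H) : v ∈ S := by
  have : CompleteSpace S := hS.completeSpace_coe
  have h1 : Sᗮ = ⊥ := by
    rw [Submodule.eq_bot_iff]
    intro w hw
    exact htot w fun x => (Submodule.mem_orthogonal _ _).1 hw _ (h x)
  have h2 : S = ⊤ := (Submodule.orthogonal_eq_bot_iff).1 h1
  rw [h2]; trivial

lemma tot_ext (htot : ∀ h : H, (∀ x, ⟪δ x, h⟫_ℝ = 0) → h = 0) (A B : H ≃ₗᵢ[ℝ] H)
    (h : ∀ x, A (δ x) = B (δ x)) (v : H) : A v = B v := by
  refine tot_top htot
    { carrier := {v | A v = B v}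
      add_mem' := by
        intro a b ha hb
        show A (a + b) = B (a + b)
        rw [map_add, map_add, show A a = B a from ha, show A b = B b from hb]
      zero_mem' := by
        show A 0 = B 0
        rw [map_zero, map_zero]
      smul_mem' := by
        intro c a ha
        show A (c • a) = B (c • a)
        rw [map_smul, map_smul, show A a = B a from ha] } ?_ h v
  exact isClosed_eq A.continuous B.continuous

lemma tot_cont (htot : ∀ h : H, (∀ x, ⟪δ x, h⟫_ℝ = 0) → h = 0) {Y : Type} [TopologicalSpace Y]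
    (U : Y → H ≃ₗᵢ[ℝ] H) (h : ∀ x, Continuous fun y => U y (δ x)) (v : H) :
    Continuous fun y => U y v := by
  refine tot_top htot
    { carrier := {v | Continuous fun y => U y v}
      add_mem' := by
        intro a b ha hb
        show Continuous fun y => U y (a + b)
        have ha' : Continuous fun y => U y a := ha
        have hb' : Continuous fun y => U y b := hb
        simp only [map_add]
        exact ha'.add hb'
      zero_mem' := by
        show Continuous fun y => U y (0 : H)
        simp only [map_zero]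
        exact continuous_const
      smul_mem' := by
        intro c a ha
        show Continuous fun y => U y (c • a)
        have ha' : Continuous fun y => U y a := ha
        simp only [map_smul]
        exact ha'.const_smul c } ?_ h v
  apply isClosed_of_closure_subset
  intro w hw
  show Continuous fun y => U y w
  refine continuous_of_uniform_approx_of_continuous ?_
  intro u hu
  obtain ⟨ε, hε, hε'⟩ := Metric.mem_uniformity_dist.1 hu
  obtain ⟨w', hw', hww'⟩ := Metric.mem_closure_iff.1 hw ε hε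
  refine ⟨fun y => U y w', hw', fun y => hε' ?_⟩
  show dist (U y w) (U y w') < ε
  rw [(U y).dist_map]
  exact hww'

end tot

theorem gns (h1 : S_ker) (h2 : S_gram) : S_gns := by
  intro E _ _ F hFc hFpd hFn hFinv
  obtain ⟨H, i1, i2, i3, δ, hδ, htot⟩ := h1 E (fun x y => F (x - y))
    (fun x y => by rw [← hFn, neg_sub]) (fun n x c => hFpd n x c)
  have hU : ∀ y : E, ∃ W : H ≃ₗᵢ[ℝ] H, ∀ x, W (δ x) = δ (x + y) := by
    intro y
    refine h2 E H δ (fun x => δ (x + y)) (fun a b => ?_) htot (fun h hh => htot h fun x => ?_)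
    · rw [hδ, hδ]; congr 1; abel
    · simpa using hh (x - y)
  have hG : ∀ T : E ≃ₗᵢ[ℝ] E, ∃ W : H ≃ₗᵢ[ℝ] H, ∀ x, W (δ x) = δ (T x) := by
    intro T
    refine h2 E H δ (fun x => δ (T x)) (fun a b => ?_) htot (fun h hh => htot h fun x => ?_)
    · rw [hδ, hδ, ← map_sub, hFinv]
    · simpa using hh (T.symm x)
  choose U hU using hU
  choose g hG using hG
  have hdist : ∀ a b : E, ‖δ a - δ b‖ ^ 2 = 2 * F 0 - 2 * F (a - b) := by
    intro a b
    rw [norm_sub_sq_real, ← real_inner_self_eq_norm_sq, ← real_inner_self_eq_norm_sq, hδ, hδ, hδ,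
      sub_self, sub_self]
    ring
  have hδc : Continuous δ := by
    rw [Metric.continuous_iff]
    intro y ε hε
    have h3 : Tendsto (fun x : E => 2 * F 0 - 2 * F (x - y)) (𝓝 y) (𝓝 0) := by
      have h4 : Continuous fun x : E => 2 * F 0 - 2 * F (x - y) := by fun_prop
      have h5 := h4.tendsto y
      simpa using h5
    obtain ⟨η, hη, hη'⟩ := Metric.eventually_nhds_iff.1 (h3.eventually (gt_mem_nhds (pow_pos hε 2)))
    refine ⟨η, hη, fun x hx => ?_⟩
    have h5 := hη' hx
    rw [← hdist, ← dist_eq_norm] at h5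
    exact lt_of_pow_lt_pow_left₀ 2 hε.le h5
  refine ⟨H, i1, i2, i3,
    { U := U
      g := g
      U_zero := fun v => tot_ext htot (U 0) (LinearIsometryEquiv.refl ℝ H) (fun x => by
        rw [hU, add_zero]; rfl) v
      U_add := fun x y v => tot_ext htot (U (x + y)) ((U y).trans (U x)) (fun z => by
        rw [hU, LinearIsometryEquiv.trans_apply, hU, hU]; congr 1; abel) v
      g_one := fun v => tot_ext htot (g 1) (LinearIsometryEquiv.refl ℝ H) (fun x => by
        rw [hG]; rfl) v
      g_mul := fun S T v => tot_ext htot (g (S * T)) ((g T).trans (g S)) (fun z => by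
        rw [hG, LinearIsometryEquiv.trans_apply, hG, hG]; rfl) v
      g_U := fun T x v => tot_ext htot ((U x).trans (g T)) ((g T).trans (U (T x))) (fun z => by
        rw [LinearIsometryEquiv.trans_apply, LinearIsometryEquiv.trans_apply, hU, hG, hG, hU,
          map_add]) v
      cont := tot_cont htot U fun x => by
        simp only [hU]
        exact hδc.comp (continuous_const.add continuous_id) }, δ 0, ?_, ?_⟩
  · intro x
    show ⟪U x (δ 0), δ 0⟫_ℝ = F x
    rw [hU, hδ, zero_add, sub_zero]
  · intro T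
    show g T (δ 0) = δ 0
    rw [hG, map_zero]

lemma cnd_kernel {X : Type} [AddCommGroup X] {ψ : X → ℝ} (h : CND ψ) (hn : ∀ x, ψ (-x) = ψ x)
    (h0 : ψ 0 = 0) (n : ℕ) (x : Fin n → X) (c : Fin n → ℝ) :
    0 ≤ ∑ i, ∑ j, c i * c j * ((ψ (x i) + ψ (x j) - ψ (x i - x j)) / 2) := by
  obtain ⟨s, hs⟩ : ∃ s : ℝ, s = ∑ i, c i := ⟨_, rfl⟩
  have h1 := h (n + 1) (Fin.cons 0 x) (Fin.cons (-s) c) (by
    rw [Fin.sum_univ_succ]; simp [hs])
  simp only [Fin.sum_univ_succ, Fin.cons_zero, Fin.cons_succ, h0, zero_sub, sub_zero,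
    hn, mul_zero, zero_add] at h1
  rw [Finset.sum_add_distrib] at h1
  have e1 : ∑ i, -s * c i * ψ (x i) = -(s * ∑ i, c i * ψ (x i)) := by
    rw [Finset.mul_sum, ← Finset.sum_neg_distrib]
    exact Finset.sum_congr rfl fun i _ => by ring
  have e2 : ∑ i, c i * -s * ψ (x i) = -(s * ∑ i, c i * ψ (x i)) := by
    rw [Finset.mul_sum, ← Finset.sum_neg_distrib]
    exact Finset.sum_congr rfl fun i _ => by ring
  have e3 : ∑ i, ∑ j, c i * c j * ((ψ (x i) + ψ (x j) - ψ (x i - x j)) / 2) =
      (2 * (s * ∑ i, c i * ψ (x i)) - ∑ i, ∑ j, c i * c j * ψ (x i - x j)) / 2 := by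
    have e4 : ∀ i j, c i * c j * ((ψ (x i) + ψ (x j) - ψ (x i - x j)) / 2) =
        (c j * (c i * ψ (x i)) / 2 + c i * (c j * ψ (x j)) / 2) - c i * c j * ψ (x i - x j) / 2 := by
      intro i j; ring
    simp only [e4, Finset.sum_sub_distrib, Finset.sum_add_distrib, ← Finset.sum_div]
    have e5 : ∑ i, ∑ j, c j * (c i * ψ (x i)) = s * ∑ i, c i * ψ (x i) := by
      rw [Finset.mul_sum]
      exact Finset.sum_congr rfl fun i _ => by rw [← Finset.sum_mul, hs]
    have e6 : ∑ i, ∑ j, c i * (c j * ψ (x j)) = s * ∑ i, c i * ψ (x i) := by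
      rw [hs, Finset.sum_mul]
      exact Finset.sum_congr rfl fun i _ => by rw [← Finset.mul_sum]
    rw [e5, e6]; ring
  rw [e3]
  rw [e1, e2] at h1
  linarith

theorem aff (h1 : S_ker) (h2 : S_gram) : S_aff := by
  intro E _ _ r hr hψ
  set ψ : E → ℝ := fun x => ‖x‖ ^ r with hψdef
  have hψ0 : ψ 0 = 0 := by simp [hψdef, Real.zero_rpow hr.ne']
  have hψn : ∀ x, ψ (-x) = ψ x := fun x => by simp [hψdef]
  obtain ⟨H, i1, i2, i3, b, hb, htot⟩ := h1 E (fun x y => (ψ x + ψ y - ψ (x - y)) / 2)
    (fun x y => by rw [← hψn (x - y), neg_sub]; ring)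
    (fun n x c => cnd_kernel hψ hψn hψ0 n x c)
  have hbn : ∀ x, ‖b x‖ ^ 2 = ψ x := by
    intro x
    rw [← real_inner_self_eq_norm_sq, hb, sub_self, hψ0]; ring
  have hb0 : b 0 = 0 := by
    have := hbn 0
    rw [hψ0] at this
    exact norm_eq_zero.1 (pow_eq_zero_iff two_ne_zero |>.1 this)
  have hdist : ∀ x y, ‖b x - b y‖ ^ 2 = ψ (x - y) := by
    intro x y
    rw [norm_sub_sq_real, hbn, hbn, hb]; ring
  have hbc : Continuous b := by
    rw [Metric.continuous_iff]
    intro y ε hε
    have h3 : Tendsto (fun x : E => ψ (x - y)) (𝓝 y) (𝓝 0) := by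
      have h2 : Tendsto (fun x : E => ‖x - y‖) (𝓝 y) (𝓝 0) := by
        have : Tendsto (fun x : E => ‖x - y‖) (𝓝 y) (𝓝 ‖y - y‖) :=
          (continuous_id.sub continuous_const).norm.tendsto y
        simpa using this
      have h3 := h2.rpow_const (p := r) (Or.inr hr.le)
      rwa [Real.zero_rpow hr.ne'] at h3
    obtain ⟨η, hη, hη'⟩ := Metric.eventually_nhds_iff.1 (h3.eventually (gt_mem_nhds (pow_pos hε 2)))
    refine ⟨η, hη, fun x hx => ?_⟩
    have h5 := hη' hx
    rw [← hdist, ← dist_eq_norm] at h5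
    exact lt_of_pow_lt_pow_left₀ 2 hε.le h5
  have hU : ∀ y : E, ∃ W : H ≃ₗᵢ[ℝ] H, ∀ x, W (b x) = b (x + y) - b y := by
    intro y
    refine h2 E H b (fun x => b (x + y) - b y) (fun x z => ?_) htot (fun h hh => htot h fun x => ?_)
    · rw [inner_sub_left, inner_sub_right, inner_sub_right, hb, hb, hb, hb, hb]
      have e1 : x + y - (z + y) = x - z := by abel
      have e2 : x + y - y = x := by abel
      have e3 : y - (z + y) = -z := by abel
      rw [e1, e2, e3, hψn, sub_self, hψ0]
      ring
    · have a1 := hh (-y)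
      rw [neg_add_cancel, hb0, zero_sub, inner_neg_left] at a1
      have a2 := hh (x - y)
      rw [sub_add_cancel, inner_sub_left] at a2
      linarith
  have hG : ∀ T : E ≃ₗᵢ[ℝ] E, ∃ W : H ≃ₗᵢ[ℝ] H, ∀ x, W (b x) = b (T x) := by
    intro T
    have hT : ∀ x, ψ (T x) = ψ x := fun x => by simp [hψdef]
    refine h2 E H b (fun x => b (T x)) (fun x y => ?_) htot (fun h hh => htot h fun x => ?_)
    · rw [hb, hb, ← map_sub, hT, hT, hT]
    · simpa using hh (T.symm x)
  have hD : ∀ t : ℝ, 0 < t → ∃ W : H ≃ₗᵢ[ℝ] H, ∀ x, W (b x) = (t ^ (-(r / 2))) • b (t • x) := by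
    intro t ht
    have hT : ∀ x : E, ψ (t • x) = t ^ r * ψ x := by
      intro x
      simp only [hψdef]
      rw [norm_smul, Real.norm_of_nonneg ht.le, Real.mul_rpow ht.le (norm_nonneg _)]
    have htt : (t ^ (-(r / 2))) * (t ^ (-(r / 2))) * t ^ r = 1 := by
      rw [← Real.rpow_add ht, ← Real.rpow_add ht]
      have : -(r / 2) + -(r / 2) + r = 0 := by ring
      rw [this, Real.rpow_zero]
    refine h2 E H b (fun x => (t ^ (-(r / 2))) • b (t • x)) (fun x y => ?_) htot
      (fun h hh => htot h fun x => ?_)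
    · rw [real_inner_smul_left, real_inner_smul_right, hb, hb, ← smul_sub, hT, hT, hT]
      have : t ^ (-(r / 2)) * (t ^ (-(r / 2)) * ((t ^ r * ψ x + t ^ r * ψ y -
          t ^ r * ψ (x - y)) / 2)) = (t ^ (-(r / 2)) * t ^ (-(r / 2)) * t ^ r) *
          ((ψ x + ψ y - ψ (x - y)) / 2) := by ring
      rw [this, htt, one_mul]
    · have a1 := hh (t⁻¹ • x)
      rw [smul_smul, mul_inv_cancel₀ ht.ne', one_smul, real_inner_smul_left] at a1
      have a2 : 0 < t ^ (-(r / 2)) := Real.rpow_pos_of_pos ht _
      rcases mul_eq_zero.1 a1 with a3 | a3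
      · exact absurd a3 a2.ne'
      · exact a3
  choose U hU using hU
  choose g hG using hG
  refine ⟨H, i1, i2, i3, ⟨
    { U := U
      g := g
      U_zero := fun v => tot_ext htot (U 0) (LinearIsometryEquiv.refl ℝ H) (fun x => by
        rw [hU, add_zero, hb0, sub_zero]; rfl) v
      U_add := fun x y v => tot_ext htot (U (x + y)) ((U y).trans (U x)) (fun z => by
        rw [hU, LinearIsometryEquiv.trans_apply, hU, map_sub, hU, hU, add_comm y x,
          ← add_assoc z, add_right_comm z x y]
        abel) v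
      g_one := fun v => tot_ext htot (g 1) (LinearIsometryEquiv.refl ℝ H) (fun x => by
        rw [hG]; rfl) v
      g_mul := fun S T v => tot_ext htot (g (S * T)) ((g T).trans (g S)) (fun z => by
        rw [hG, LinearIsometryEquiv.trans_apply, hG, hG]; rfl) v
      g_U := fun T x v => tot_ext htot ((U x).trans (g T)) ((g T).trans (U (T x))) (fun z => by
        rw [LinearIsometryEquiv.trans_apply, LinearIsometryEquiv.trans_apply, hU, hG, map_sub, hG,
          hG, hU, map_add]) v
      cont := tot_cont htot U fun x => by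
        simp only [hU]
        exact (hbc.comp (continuous_const.add continuous_id)).sub hbc
      b := b
      b_add := fun x y => by rw [hU, add_comm y x]; abel
      b_eqv := fun T x => hG T x
      b_norm := hbn
      total := htot
      dil := fun t ht => ?_ }⟩⟩
  obtain ⟨D, hDb⟩ := hD t ht
  refine ⟨D, hDb, fun x v => ?_, fun T v => ?_⟩
  · refine tot_ext htot ((U x).trans D) (D.trans (U (t • x))) (fun z => ?_) v
    rw [LinearIsometryEquiv.trans_apply, LinearIsometryEquiv.trans_apply, hU, map_sub, hDb, hDb,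
      hDb, map_smul, hU, smul_add, smul_sub]
  · refine tot_ext htot ((g T).trans D) (D.trans (g T)) (fun z => ?_) v
    rw [LinearIsometryEquiv.trans_apply, LinearIsometryEquiv.trans_apply, hG, hDb, hDb, map_smul,
      hG, map_smul]

end Pool.Agent.Q101.Bm
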