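import Pool.Agent.Q101.BmS

/-!
# Families with equal Gram matrices
-/

set_option autoImplicit false
set_option linter.unusedVariables false
set_option linter.unusedSectionVars false

namespace Pool.Agent.Q101.Bm

open MeasureTheory Filter Topology
open scoped BigOperators InnerProductSpace ENNReal

lemma gram_dense {X H : Type} [NormedAddCommGroup H] [InnerProductSpace ℝ H] [CompleteSpace H]
    (v : X → H) (hv : ∀ h : H, (∀ x, ⟪v x, h⟫_ℝ = 0) → h = 0) :
    DenseRange (Finsupp.linearCombination ℝ v) := by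
  have h1 : (Submodule.span ℝ (Set.range v)).topologicalClosure = ⊤ := by
    rw [Submodule.topologicalClosure_eq_top_iff, Submodule.eq_bot_iff]
    intro h hh
    refine hv h fun x => ?_
    exact (Submodule.mem_orthogonal _ _).1 hh (v x) (Submodule.subset_span ⟨x, rfl⟩)
  have h2 : Dense ((Submodule.span ℝ (Set.range v) : Submodule ℝ H) : Set H) :=
    Submodule.dense_iff_topologicalClosure_eq_top.2 h1
  rw [← Finsupp.range_linearCombination] at h2
  exact h2

lemma gram_inner {X H : Type} [NormedAddCommGroup H] [InnerProductSpace ℝ H]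
    (v : X → H) (f : X →₀ ℝ) :
    ⟪Finsupp.linearCombination ℝ v f, Finsupp.linearCombination ℝ v f⟫_ℝ =
      ∑ x ∈ f.support, ∑ y ∈ f.support, f x * (f y * ⟪v x, v y⟫_ℝ) := by
  rw [Finsupp.linearCombination_apply, Finsupp.sum, sum_inner]
  refine Finset.sum_congr rfl fun x _ => ?_
  rw [inner_sum]
  refine Finset.sum_congr rfl fun y _ => ?_
  rw [real_inner_smul_left, real_inner_smul_right]

theorem gram : S_gram := by
  intro X H _ _ _ v w hvw hv hw
  have hn : ∀ f : X →₀ ℝ, ‖Finsupp.linearCombination ℝ w (LinearEquiv.refl ℝ (X →₀ ℝ) f)‖ =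
      ‖Finsupp.linearCombination ℝ v f‖ := by
    intro f
    have h1 : ⟪Finsupp.linearCombination ℝ w f, Finsupp.linearCombination ℝ w f⟫_ℝ =
        ⟪Finsupp.linearCombination ℝ v f, Finsupp.linearCombination ℝ v f⟫_ℝ := by
      rw [gram_inner, gram_inner]
      simp_rw [hvw]
    rw [real_inner_self_eq_norm_sq, real_inner_self_eq_norm_sq] at h1
    exact (sq_eq_sq₀ (norm_nonneg _) (norm_nonneg _)).1 h1
  refine ⟨LinearEquiv.extendOfIsometry (LinearEquiv.refl ℝ (X →₀ ℝ))
    (Finsupp.linearCombination ℝ v) (Finsupp.linearCombination ℝ w)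
    (gram_dense v hv) (gram_dense w hw) hn, fun x => ?_⟩
  have h2 := LinearEquiv.extendOfIsometry_eq (LinearEquiv.refl ℝ (X →₀ ℝ))
    (Finsupp.linearCombination ℝ v) (Finsupp.linearCombination ℝ w)
    (gram_dense v hv) (gram_dense w hw) hn (Finsupp.single x 1)
  simpa using h2

end Pool.Agent.Q101.Bm
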