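import Pool.Agent.Q101.BmS

/-!
# Integrals over dilations and powers of the norm of negative type
-/

set_option autoImplicit false
set_option linter.unusedVariables false
set_option linter.unusedSectionVars false

namespace Pool.Agent.Q101.Bm

open MeasureTheory Filter Topology
open scoped BigOperators InnerProductSpace ENNReal

lemma int_contOn {φ : ℝ → ℝ} (hc : Continuous φ) (α s : ℝ) :
    ContinuousOn (fun t : ℝ => φ (s * t) * t ^ (-1 - α)) (Set.Ioi 0) := by
  refine ContinuousOn.mul (by fun_prop) ?_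
  intro t ht
  exact (Real.continuousAt_rpow_const t _ (Or.inl (ne_of_gt ht))).continuousWithinAt

lemma int_integrable {φ : ℝ → ℝ} (hc : Continuous φ) {B C q α : ℝ} (h0 : ∀ s, 0 ≤ φ s)
    (hB : ∀ s, φ s ≤ B) (hC : ∀ s, 0 ≤ s → φ s ≤ C * s ^ q) (hα : 0 < α) (hαq : α < q)
    (s : ℝ) (hs : 0 ≤ s) :
    IntegrableOn (fun t : ℝ => φ (s * t) * t ^ (-1 - α)) (Set.Ioi 0) := by
  have hU : Set.Ioi (0 : ℝ) = Set.Ioc 0 1 ∪ Set.Ioi 1 :=
    (Set.Ioc_union_Ioi_eq_Ioi zero_le_one).symm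
  have hm : AEStronglyMeasurable (fun t : ℝ => φ (s * t) * t ^ (-1 - α))
      (volume.restrict (Set.Ioi 0)) := (int_contOn hc α s).aestronglyMeasurable measurableSet_Ioi
  rw [hU]
  refine IntegrableOn.union ?_ ?_
  · have h1 : IntegrableOn (fun t : ℝ => C * s ^ q * t ^ (q - 1 - α)) (Set.Ioc 0 1) := by
      refine Integrable.const_mul ?_ _
      have := intervalIntegral.intervalIntegrable_rpow' (a := 0) (b := 1) (r := q - 1 - α)
        (by linarith)
      rw [intervalIntegrable_iff_integrableOn_Ioc_of_le zero_le_one] at this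
      exact this
    refine Integrable.mono' h1 (hm.mono_measure (Measure.restrict_mono Set.Ioc_subset_Ioi_self le_rfl)) ?_
    refine (ae_restrict_mem measurableSet_Ioc).mono fun t ht => ?_
    have ht0 : 0 < t := ht.1
    rw [Real.norm_of_nonneg (mul_nonneg (h0 _) (Real.rpow_nonneg ht0.le _))]
    calc φ (s * t) * t ^ (-1 - α) ≤ C * (s * t) ^ q * t ^ (-1 - α) :=
          mul_le_mul_of_nonneg_right (hC _ (mul_nonneg hs ht0.le)) (Real.rpow_nonneg ht0.le _)
      _ = C * s ^ q * t ^ (q - 1 - α) := by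
          rw [Real.mul_rpow hs ht0.le]
          have : t ^ (q - 1 - α) = t ^ q * t ^ (-1 - α) := by
            rw [← Real.rpow_add ht0]
            congr 1
            ring
          rw [this]
          ring
  · have h1 : IntegrableOn (fun t : ℝ => B * t ^ (-1 - α)) (Set.Ioi 1) :=
      Integrable.const_mul (integrableOn_Ioi_rpow_of_lt (by linarith) one_pos) _
    refine Integrable.mono' h1 (hm.mono_measure (Measure.restrict_mono
      (Set.Ioi_subset_Ioi zero_le_one) le_rfl)) ?_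
    refine (ae_restrict_mem measurableSet_Ioi).mono fun t ht => ?_
    have ht0 : 0 < t := lt_trans one_pos ht
    rw [Real.norm_of_nonneg (mul_nonneg (h0 _) (Real.rpow_nonneg ht0.le _))]
    exact mul_le_mul_of_nonneg_right (hB _) (Real.rpow_nonneg ht0.le _)

lemma int_scale {φ : ℝ → ℝ} (hφ0 : φ 0 = 0) {α : ℝ} (hα : 0 < α) (s : ℝ) (hs : 0 ≤ s) :
    ∫ t in Set.Ioi (0 : ℝ), φ (s * t) * t ^ (-1 - α) =
      s ^ α * ∫ t in Set.Ioi (0 : ℝ), φ t * t ^ (-1 - α) := by
  rcases hs.eq_or_lt with h | h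
  · rw [← h, Real.zero_rpow hα.ne', zero_mul]
    simp [hφ0]
  · have h1 := integral_comp_mul_left_Ioi (fun t : ℝ => φ t * t ^ (-1 - α)) 0 h
    rw [mul_zero, smul_eq_mul] at h1
    have h2 : ∫ t in Set.Ioi (0 : ℝ), φ (s * t) * (s * t) ^ (-1 - α) =
        s ^ (-1 - α) * ∫ t in Set.Ioi (0 : ℝ), φ (s * t) * t ^ (-1 - α) := by
      rw [← integral_const_mul]
      refine setIntegral_congr_fun measurableSet_Ioi fun t ht => ?_
      have ht0 : (0 : ℝ) < t := ht
      show φ (s * t) * (s * t) ^ (-1 - α) = s ^ (-1 - α) * (φ (s * t) * t ^ (-1 - α))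
      rw [Real.mul_rpow h.le ht0.le]
      ring
    rw [h2] at h1
    have h3 : s ^ α = s ^ (1 + α) * s⁻¹ := by
      rw [Real.rpow_add h, Real.rpow_one]
      field_simp
    have h4 : s ^ (1 + α) * s ^ (-1 - α) = 1 := by
      rw [← Real.rpow_add h]
      have : (1 + α + (-1 - α)) = 0 := by ring
      rw [this, Real.rpow_zero]
    calc ∫ t in Set.Ioi (0 : ℝ), φ (s * t) * t ^ (-1 - α)
        = s ^ (1 + α) * (s ^ (-1 - α) * ∫ t in Set.Ioi (0 : ℝ), φ (s * t) * t ^ (-1 - α)) := by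
          rw [← mul_assoc, h4, one_mul]
      _ = s ^ (1 + α) * (s⁻¹ * ∫ t in Set.Ioi (0 : ℝ), φ t * t ^ (-1 - α)) := by rw [h1]
      _ = _ := by rw [h3, mul_assoc]

lemma int_pos {φ : ℝ → ℝ} (hc : Continuous φ) {B C q α : ℝ} (h0 : ∀ s, 0 ≤ φ s)
    (hB : ∀ s, φ s ≤ B) (hC : ∀ s, 0 ≤ s → φ s ≤ C * s ^ q) (hα : 0 < α) (hαq : α < q)
    (s₀ : ℝ) (hs₀ : 0 < s₀) (hs : 0 < φ s₀) :
    0 < ∫ t in Set.Ioi (0 : ℝ), φ t * t ^ (-1 - α) := by
  have hi := int_integrable hc h0 hB hC hα hαq 1 zero_le_one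
  have hco := int_contOn hc α 1
  simp only [one_mul] at hi hco
  have hnn : ∀ᵐ t ∂(volume.restrict (Set.Ioi (0 : ℝ))), 0 ≤ φ t * t ^ (-1 - α) :=
    (ae_restrict_mem measurableSet_Ioi).mono fun t ht =>
      mul_nonneg (h0 _) (Real.rpow_nonneg (le_of_lt ht) _)
  have h1 : 0 ≤ ∫ t in Set.Ioi (0 : ℝ), φ t * t ^ (-1 - α) := integral_nonneg_of_ae hnn
  refine lt_of_le_of_ne h1 fun h2 => ?_
  have h3 := (setIntegral_eq_zero_iff_of_nonneg_ae hnn hi).1 h2.symm
  have h4 := Measure.eqOn_open_of_ae_eq h3 isOpen_Ioi hco continuousOn_const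
  have h5 : φ s₀ * s₀ ^ (-1 - α) = 0 := h4 hs₀
  have h6 : 0 < φ s₀ * s₀ ^ (-1 - α) := mul_pos hs (Real.rpow_pos_of_pos hs₀ _)
  exact h6.ne' h5

lemma int_bound {E : Type} [AddCommGroup E] (f : E → ℝ) (hf : PD f) (he : ∀ x, f (-x) = f x)
    (x : E) : |f x| ≤ f 0 := by
  have h1 := hf 2 ![x, 0] ![1, 1]
  have h2 := hf 2 ![x, 0] ![1, -1]
  simp [Fin.sum_univ_two, he] at h1 h2
  rw [abs_le]
  constructor <;> linarith

theorem int_cnd : S_int := by
  intro E _ _ f q C hq hc hpd hrad hC hne α hα hαq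
  have he : ∀ x, f (-x) = f x := fun x => hrad _ _ (norm_neg x)
  have hb := int_bound f hpd he
  obtain ⟨x₀, hx₀⟩ := hne
  have hx0 : x₀ ≠ 0 := by
    rintro rfl
    exact lt_irrefl _ hx₀
  have hxn : 0 < ‖x₀‖ := norm_pos_iff.2 hx0
  set e : E := ‖x₀‖⁻¹ • x₀ with hedef
  have hen : ‖e‖ = 1 := by
    rw [hedef, norm_smul, norm_inv, norm_norm, inv_mul_cancel₀ hxn.ne']
  set φ : ℝ → ℝ := fun s => f 0 - f (s • e) with hφ
  have hφf : ∀ x, f 0 - f x = φ ‖x‖ := by
    intro x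
    rw [hφ]
    simp only
    rw [hrad x (‖x‖ • e) (by rw [norm_smul, norm_norm, hen, mul_one])]
  have hφc : Continuous φ := by
    rw [hφ]
    fun_prop
  have hφ0 : φ 0 = 0 := by simp [hφ]
  have h0 : ∀ s, 0 ≤ φ s := by
    intro s
    have := (abs_le.1 (hb (s • e))).2
    simp only [hφ]
    linarith
  have hB : ∀ s, φ s ≤ 2 * f 0 := by
    intro s
    have := (abs_le.1 (hb (s • e))).1
    simp only [hφ]
    linarith
  have hC' : ∀ s, 0 ≤ s → φ s ≤ C * s ^ q := by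
    intro s hs
    have := hC (s • e)
    rwa [norm_smul, hen, mul_one, Real.norm_of_nonneg hs] at this
  have hpos : 0 < ∫ t in Set.Ioi (0 : ℝ), φ t * t ^ (-1 - α) :=
    int_pos hφc h0 hB hC' hα hαq ‖x₀‖ hxn (by
      rw [← hφf]
      linarith)
  set G := ∫ t in Set.Ioi (0 : ℝ), φ t * t ^ (-1 - α) with hG
  intro n x c hsum
  have hkey : (∑ i, ∑ j, c i * c j * ‖x i - x j‖ ^ α) * G =
      ∫ t in Set.Ioi (0 : ℝ), ∑ i, ∑ j, c i * c j * (φ (‖x i - x j‖ * t) * t ^ (-1 - α)) := by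
    rw [integral_finsetSum _ (fun i _ => integrable_finsetSum _ fun j _ =>
      (int_integrable hφc h0 hB hC' hα hαq _ (norm_nonneg _)).const_mul _), Finset.sum_mul]
    refine Finset.sum_congr rfl fun i _ => ?_
    rw [integral_finsetSum _ fun j _ =>
      (int_integrable hφc h0 hB hC' hα hαq _ (norm_nonneg _)).const_mul _, Finset.sum_mul]
    refine Finset.sum_congr rfl fun j _ => ?_
    rw [integral_const_mul, int_scale hφ0 hα _ (norm_nonneg _)]
    ring
  have hle : ∫ t in Set.Ioi (0 : ℝ), ∑ i, ∑ j,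
      c i * c j * (φ (‖x i - x j‖ * t) * t ^ (-1 - α)) ≤ 0 := by
    refine integral_nonpos_of_ae ((ae_restrict_mem measurableSet_Ioi).mono fun t ht => ?_)
    have ht0 : (0 : ℝ) < t := ht
    show ∑ i, ∑ j, c i * c j * (φ (‖x i - x j‖ * t) * t ^ (-1 - α)) ≤ 0
    have e1 : ∀ i j, φ (‖x i - x j‖ * t) = f 0 - f (t • x i - t • x j) := by
      intro i j
      rw [hφf, ← smul_sub, norm_smul, Real.norm_of_nonneg ht0.le, mul_comm]
    have e2 : ∑ i, ∑ j, c i * c j * (φ (‖x i - x j‖ * t) * t ^ (-1 - α)) =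
        -((∑ i, ∑ j, c i * c j * f (t • x i - t • x j)) * t ^ (-1 - α)) := by
      have e3 : ∀ i j, c i * c j * (φ (‖x i - x j‖ * t) * t ^ (-1 - α)) =
          (f 0 * t ^ (-1 - α)) * (c i * c j) -
            (c i * c j * f (t • x i - t • x j)) * t ^ (-1 - α) := by
        intro i j
        rw [e1]
        ring
      simp_rw [e3, Finset.sum_sub_distrib, ← Finset.mul_sum, ← Finset.sum_mul]
      rw [hsum]
      ring
    rw [e2]
    have h1 := hpd n (fun i => t • x i) c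
    exact neg_nonpos.2 (mul_nonneg h1 (Real.rpow_nonneg ht0.le _))
  rw [← hkey] at hle
  by_contra hcon
  push Not at hcon
  exact absurd hle (not_le.2 (mul_pos hcon hpos))

end Pool.Agent.Q101.Bm
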