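import Pool.Agent.Q101.BmSg

/-!
# Kahane's inequality between the first and the second moments
-/

set_option autoImplicit false
set_option linter.unusedVariables false
set_option linter.unusedSectionVars false

namespace Pool.Agent.Q101.Bm

/-- two-point hypercontractivity -/
lemma kah_two {ρ m m' : ℝ} (hρ : ρ ^ 2 = 1 / 3) :
    ((((1 + ρ) / 2) * m + ((1 - ρ) / 2) * m') ^ 4
      + (((1 - ρ) / 2) * m + ((1 + ρ) / 2) * m') ^ 4) / 2 ≤ ((m ^ 2 + m' ^ 2) / 2) ^ 2 := by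
  set a := (m + m') / 2 with ha
  set b := (m - m') / 2 with hb
  have e1 : ((1 + ρ) / 2) * m + ((1 - ρ) / 2) * m' = a + ρ * b := by rw [ha, hb]; ring
  have e2 : ((1 - ρ) / 2) * m + ((1 + ρ) / 2) * m' = a - ρ * b := by rw [ha, hb]; ring
  have e3 : (m ^ 2 + m' ^ 2) / 2 = a ^ 2 + b ^ 2 := by rw [ha, hb]; ring
  rw [e1, e2, e3]
  have e4 : ((a + ρ * b) ^ 4 + (a - ρ * b) ^ 4) / 2 =
      a ^ 4 + 6 * ρ ^ 2 * (a ^ 2 * b ^ 2) + (ρ ^ 2) ^ 2 * b ^ 4 := by ring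
  rw [e4, hρ]
  nlinarith [sq_nonneg (b ^ 2)]

section

variable {E : Type} [NormedAddCommGroup E] [NormedSpace ℝ E]

lemma kah_four (ρ : ℝ) (h0 : 0 ≤ ρ) (h1 : ρ ≤ 1) (hρ : ρ ^ 2 = 1 / 3) (l : List E) (a : E) :
    sg (fun x : E => ‖x‖ ^ 4) (l.map fun z => ρ • z) a ≤ (sN l a ^ 2) ^ 2 := by
  induction l generalizing a with
  | nil =>
    rw [sN_nil, List.map_nil, sgl_nil]
    exact le_of_eq (by ring)
  | cons z l ih =>
    rw [List.map_cons, sgl_cons, sN_cons_sq]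
    have e1 : a + ρ • z = ((1 + ρ) / 2) • (a + z) + ((1 - ρ) / 2) • (a - z) := by module
    have e2 : a - ρ • z = ((1 - ρ) / 2) • (a + z) + ((1 + ρ) / 2) • (a - z) := by module
    have h2 : sN l (a + ρ • z) ≤ ((1 + ρ) / 2) * sN l (a + z) + ((1 - ρ) / 2) * sN l (a - z) := by
      rw [e1]; exact sN_convex l (by linarith) (by linarith) (by ring) _ _
    have h3 : sN l (a - ρ • z) ≤ ((1 - ρ) / 2) * sN l (a + z) + ((1 + ρ) / 2) * sN l (a - z) := by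
      rw [e2]; exact sN_convex l (by linarith) (by linarith) (by ring) _ _
    have h4 := pow_le_pow_left₀ (sN_nonneg _ _) h2 4
    have h5 := pow_le_pow_left₀ (sN_nonneg _ _) h3 4
    have h6 := kah_two (m := sN l (a + z)) (m' := sN l (a - z)) hρ
    have h7 := ih (a + ρ • z)
    have h8 := ih (a - ρ • z)
    have e3 : (sN l (a + ρ • z) ^ 2) ^ 2 = sN l (a + ρ • z) ^ 4 := by ring
    have e4 : (sN l (a - ρ • z) ^ 2) ^ 2 = sN l (a - ρ • z) ^ 4 := by ring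
    rw [e3] at h7
    rw [e4] at h8
    linarith

end

theorem kah : S_kah := by
  intro E _ _ l
  obtain ⟨ρ, h0, h1, hρ⟩ : ∃ ρ : ℝ, 0 ≤ ρ ∧ ρ ≤ 1 ∧ ρ ^ 2 = 1 / 3 := by
    refine ⟨Real.sqrt (1 / 3), Real.sqrt_nonneg _, ?_, Real.sq_sqrt (by norm_num)⟩
    exact Real.sqrt_le_one.2 (by norm_num)
  set E1 := sg (fun x : E => ‖x‖) l 0 with hE1
  set E2 := sg (fun x : E => ‖x‖ ^ 2) l 0 with hE2
  set E3 := sg (fun x : E => ‖x‖ * ‖x‖ ^ 2) l 0 with hE3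
  set E4 := sg (fun x : E => ‖x‖ ^ 4) l 0 with hE4
  have n1 : 0 ≤ E1 := sgl_nonneg (fun x => norm_nonneg x) l 0
  have n2 : 0 ≤ E2 := sgl_nonneg (fun x => sq_nonneg _) l 0
  have a1 : E4 ≤ 9 * E2 ^ 2 := by
    have h := kah_four ρ h0 h1 hρ l 0
    rw [sN_sq] at h
    have e := sgl_map_smul (fun x : E => ‖x‖ ^ 4) ρ l 0
    rw [smul_zero] at e
    have e' : (fun y : E => ‖ρ • y‖ ^ 4) = fun y => (1 / 9) * ‖y‖ ^ 4 := by
      funext y
      rw [norm_smul, mul_pow, Real.norm_of_nonneg h0]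
      have : ρ ^ 4 = 1 / 9 := by
        calc ρ ^ 4 = (ρ ^ 2) ^ 2 := by ring
          _ = _ := by rw [hρ]; norm_num
      rw [this]
    rw [e', sgl_mul] at e
    rw [e] at h
    linarith
  have a2 : E3 ^ 2 ≤ E2 * E4 := by
    have := sgl_cs (fun x : E => ‖x‖) (fun x : E => ‖x‖ ^ 2) l 0
    have e : (fun y : E => (‖y‖ ^ 2) ^ 2) = fun y => ‖y‖ ^ 4 := by funext y; ring
    rwa [e] at this
  have a3 : E2 ^ 2 ≤ E1 * E3 := by
    have := sgl_cs (fun x : E => Real.sqrt ‖x‖) (fun x : E => Real.sqrt ‖x‖ * ‖x‖) l 0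
    have e1 : (fun y : E => Real.sqrt ‖y‖ * (Real.sqrt ‖y‖ * ‖y‖)) = fun y => ‖y‖ ^ 2 := by
      funext y
      rw [← mul_assoc, Real.mul_self_sqrt (norm_nonneg y)]
      ring
    have e2 : (fun y : E => Real.sqrt ‖y‖ ^ 2) = fun y => ‖y‖ := by
      funext y
      rw [Real.sq_sqrt (norm_nonneg y)]
    have e3 : (fun y : E => (Real.sqrt ‖y‖ * ‖y‖) ^ 2) = fun y => ‖y‖ * ‖y‖ ^ 2 := by
      funext y
      rw [mul_pow, Real.sq_sqrt (norm_nonneg y)]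
    rwa [e1, e2, e3] at this
  have n3 : 0 ≤ E3 := sgl_nonneg (fun x => mul_nonneg (norm_nonneg x) (sq_nonneg _)) l 0
  rcases n2.eq_or_lt with h | h
  · rw [← h]; positivity
  -- E2^4 ≤ E1^2 E3^2 ≤ 9 E1^2 E2^3
  have b1 : E2 ^ 4 ≤ E1 ^ 2 * E3 ^ 2 := by
    have := pow_le_pow_left₀ (sq_nonneg E2) a3 2
    calc E2 ^ 4 = (E2 ^ 2) ^ 2 := by ring
      _ ≤ _ := this
      _ = _ := by ring
  have b2 : E3 ^ 2 ≤ E2 * (9 * E2 ^ 2) := a2.trans (mul_le_mul_of_nonneg_left a1 n2)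
  have b3 : E2 ^ 4 ≤ E1 ^ 2 * (E2 * (9 * E2 ^ 2)) :=
    b1.trans (mul_le_mul_of_nonneg_left b2 (sq_nonneg _))
  have b4 : E2 ^ 3 * E2 ≤ E2 ^ 3 * (9 * E1 ^ 2) := by
    calc E2 ^ 3 * E2 = E2 ^ 4 := by ring
      _ ≤ _ := b3
      _ = _ := by ring
  exact le_of_mul_le_mul_left b4 (pow_pos h 3)

end Pool.Agent.Q101.Bm
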