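import Pool.Agent.Q101.BmS

/-!
# The Hilbert space of a real positive semidefinite kernel
-/

set_option autoImplicit false
set_option linter.unusedVariables false
set_option linter.unusedSectionVars false

namespace Pool.Agent.Q101.Bm

open MeasureTheory Filter Topology
open scoped BigOperators InnerProductSpace ENNReal

lemma ker_finset {X : Type} (K : X → X → ℝ)
    (h : ∀ (n : ℕ) (x : Fin n → X) (c : Fin n → ℝ), 0 ≤ ∑ i, ∑ j, c i * c j * K (x i) (x j))
    (s : Finset X) (c : X → ℝ) : 0 ≤ ∑ x ∈ s, ∑ y ∈ s, c x * c y * K x y := by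
  have e := s.equivFin
  have h1 := h s.card (fun i => (e.symm i : X)) (fun i => c (e.symm i : X))
  have h2 : ∀ f : X → ℝ, ∑ i : Fin s.card, f (e.symm i : X) = ∑ x ∈ s, f x := by
    intro f
    rw [← Finset.sum_coe_sort s f]
    exact Equiv.sum_comp e.symm (fun x : s => f (x : X))
  calc (0 : ℝ) ≤ _ := h1
    _ = ∑ i : Fin s.card, ∑ y ∈ s, c (e.symm i : X) * c y * K (e.symm i : X) y := by
        refine Finset.sum_congr rfl fun i _ => ?_
        exact h2 (fun y => c (e.symm i : X) * c y * K (e.symm i : X) y)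
    _ = _ := h2 (fun x => ∑ y ∈ s, c x * c y * K x y)

theorem ker : S_ker := by
  intro X K hsym hpd0
  have hpd := ker_finset K hpd0
  let M : Matrix X X (ℝ →L[ℝ] ℝ) := fun x y => K x y • ContinuousLinearMap.id ℝ ℝ
  have hherm : M.IsHermitian := by
    ext x y
    rw [Matrix.conjTranspose_apply]
    have : star (M y x) = M y x := by
      show star (K y x • ContinuousLinearMap.id ℝ ℝ) = K y x • ContinuousLinearMap.id ℝ ℝ
      rw [star_smul]
      congr 1
      exact star_one _
    rw [this]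
    show (K y x • ContinuousLinearMap.id ℝ ℝ) 1 = (K x y • ContinuousLinearMap.id ℝ ℝ) 1
    rw [hsym x y]
  have hpsd : M.PosSemidef := by
    have htf := (RKHS.posSemidef_tfae (K := M)).out 0 2
    refine htf.2 ⟨hherm, fun c => ?_⟩
    have h1 := hpd c.support c
    rw [RCLike.re_to_real]
    refine h1.trans (le_of_eq ?_)
    unfold Finsupp.sum
    refine Finset.sum_congr rfl fun x _ => Finset.sum_congr rfl fun y _ => ?_
    show _ = inner ℝ ((K y x • ContinuousLinearMap.id ℝ ℝ) (c x)) (c y)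
    rw [hsym y x]
    simp
    ring
  have : Fact M.PosSemidef := ⟨hpsd⟩
  have hin : ∀ x y, inner ℝ (RKHS.kerFun (RKHS.OfKernel M) x (1 : ℝ))
      (RKHS.kerFun (RKHS.OfKernel M) y (1 : ℝ)) = K x y := by
    intro x y
    rw [← RKHS.kernel_inner (H := RKHS.OfKernel M) y x (1 : ℝ) (1 : ℝ), RKHS.OfKernel.kernel_ofKernel]
    show inner ℝ ((K y x • ContinuousLinearMap.id ℝ ℝ) (1 : ℝ)) (1 : ℝ) = _
    rw [hsym y x]
    simp
  refine ⟨RKHS.OfKernel M, inferInstance, inferInstance, inferInstance,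
    fun x => RKHS.kerFun (RKHS.OfKernel M) x 1, hin, fun w hw => ?_⟩
  have hev : ∀ x, w x = 0 := by
    intro x
    have h1 : inner ℝ (w x) (1 : ℝ) = 0 := by
      rw [← RKHS.inner_kerFun (H := RKHS.OfKernel M) x (1 : ℝ) w]
      rw [real_inner_comm]
      exact hw x
    simpa using h1
  apply DFunLike.ext
  intro x
  rw [hev x]
  have h0 := congrFun (RKHS.coe_zero (𝕜 := ℝ) (X := X) (V := ℝ) (H := RKHS.OfKernel M)) x
  exact h0.symm

end Pool.Agent.Q101.Bm
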