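import Pool.Agent.Q101.BmS2

/-!
# A positive quadratic form on a subspace of `L_p`, `p > 2`, gives an isomorphism with a Hilbert
space
-/

set_option autoImplicit false
set_option linter.unusedVariables false
set_option linter.unusedSectionVars false

namespace Pool.Agent.Q101.Bm

open MeasureTheory Filter Topology
open scoped BigOperators InnerProductSpace ENNReal

theorem kpa : S_kpa := by
  intro E _ _ _ Ω _ μ p hp hpt J hJ n x c hc hlow
  have hP : 2 < p.toReal := by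
    have := (ENNReal.toReal_lt_toReal (by norm_num) hpt).2 hp
    simpa using this
  set P : ℝ := p.toReal with hPdef
  have hpP : p = ENNReal.ofReal P := (ENNReal.ofReal_toReal hpt).symm
  set q0 : ℝ≥0∞ := ENNReal.ofReal ((P - 2) / 2) with hq0
  have hq0r : q0.toReal = (P - 2) / 2 := ENNReal.toReal_ofReal (by linarith)
  have hq0pos : 0 < (P - 2) / 2 := by linarith
  have hP0 : 0 < P := by linarith
  have hT : ENNReal.HolderTriple (p / q0) p 2 := by
    constructor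
    rw [hpP, hq0, ← ENNReal.ofReal_div_of_pos hq0pos, ← ENNReal.ofReal_inv_of_pos (by positivity),
      ← ENNReal.ofReal_inv_of_pos hP0, ← ENNReal.ofReal_add (by positivity) (by positivity)]
    have : (2 : ℝ≥0∞) = ENNReal.ofReal 2 := by norm_num
    rw [this, ← ENNReal.ofReal_inv_of_pos (by norm_num)]
    congr 1
    field_simp
    ring
  have hg : ∀ i, MemLp (fun ω => ‖J (x i) ω‖ ^ q0.toReal) (p / q0) μ := fun i =>
    (Lp.memLp (J (x i))).norm_rpow_div q0
  set g : Fin n → Lp ℝ (p / q0) μ := fun i => (hg i).toLp _ with hgdef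
  set Λ : Fin n → (E →ₗ[ℝ] Lp ℝ 2 μ) := fun i =>
    ((ContinuousLinearMap.mul ℝ ℝ).holderₗ μ (p / q0) p 2 (g i)).comp J with hΛ
  have hΛb : ∀ i w, ‖Λ i w‖ ≤ (‖ContinuousLinearMap.mul ℝ ℝ‖ * ‖g i‖) * ‖w‖ := by
    intro i w
    have h1 := (ContinuousLinearMap.mul ℝ ℝ).norm_holder_apply_apply_le (r := 2) (g i) (J w)
    rw [hJ] at h1
    exact h1
  have hΛn : ∀ i w, ‖Λ i w‖ ^ 2 = ∫ ω, |J (x i) ω| ^ (P - 2) * (J w ω) ^ 2 ∂μ := by
    intro i w
    rw [← real_inner_self_eq_norm_sq, L2.inner_def]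
    apply integral_congr_ae
    have h1 : (Λ i w : Ω → ℝ) =ᵐ[μ] fun ω => ContinuousLinearMap.mul ℝ ℝ (g i ω) (J w ω) :=
      (ContinuousLinearMap.mul ℝ ℝ).coeFn_holder (r := 2) (g i) (J w)
    have h2 : (g i : Ω → ℝ) =ᵐ[μ] fun ω => ‖J (x i) ω‖ ^ q0.toReal := (hg i).coeFn_toLp
    filter_upwards [h1, h2] with ω e1 e2
    rw [e1, e2, ContinuousLinearMap.mul_apply', hq0r, real_inner_self_eq_norm_sq, norm_mul, mul_pow,
      Real.norm_eq_abs (J w ω), sq_abs]
    congr 1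
    rw [Real.norm_of_nonneg (Real.rpow_nonneg (norm_nonneg _) _), Real.norm_eq_abs,
      ← Real.rpow_natCast, ← Real.rpow_mul (abs_nonneg _)]
    congr 1
    push_cast
    ring
  set Λc : Fin n → (E →L[ℝ] Lp ℝ 2 μ) := fun i => (Λ i).mkContinuous _ (hΛb i) with hΛc
  set L : E →L[ℝ] PiLp 2 (fun _ : Fin n => Lp ℝ 2 μ) :=
    ((PiLp.continuousLinearEquiv 2 ℝ (fun _ : Fin n => Lp ℝ 2 μ)).symm :
      ((_ : Fin n) → Lp ℝ 2 μ) →L[ℝ] PiLp 2 (fun _ : Fin n => Lp ℝ 2 μ)).comp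
      (ContinuousLinearMap.pi Λc) with hL
  have hLn : ∀ w, ‖L w‖ ^ 2 = ∑ i, ∫ ω, |J (x i) ω| ^ (P - 2) * (J w ω) ^ 2 ∂μ := by
    intro w
    rw [PiLp.norm_sq_eq_of_L2]
    exact Finset.sum_congr rfl fun i _ => hΛn i w
  have hanti : AntilipschitzWith (Real.toNNReal (Real.sqrt c))⁻¹ L := by
    refine L.antilipschitz_of_bound fun w => ?_
    have hs : 0 < Real.sqrt c := Real.sqrt_pos.2 hc
    have h1 : Real.sqrt c * ‖w‖ ≤ ‖L w‖ := by
      apply le_of_sq_le_sq _ (norm_nonneg _)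
      rw [mul_pow, Real.sq_sqrt hc.le, hLn]
      exact hlow w
    rw [NNReal.coe_inv, Real.coe_toNNReal _ hs.le]
    show ‖w‖ ≤ (Real.sqrt c)⁻¹ * ‖L w‖
    rw [inv_mul_eq_div, le_div_iff₀ hs]
    linarith
  have hcl : IsClosed (Set.range L) := hanti.isClosed_range L.uniformContinuous
  have hcl' : IsClosed ((L.range : Submodule ℝ _) : Set (PiLp 2 (fun _ : Fin n => Lp ℝ 2 μ))) := by
    have e : ((L.range : Submodule ℝ _) : Set (PiLp 2 (fun _ : Fin n => Lp ℝ 2 μ))) =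
        Set.range L := by
      ext v; simp
    rw [e]; exact hcl
  exact ⟨↥L.range, inferInstance, inferInstance, hcl'.completeSpace_coe,
    ⟨L.equivRange hanti.injective hcl⟩⟩

end Pool.Agent.Q101.Bm
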