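import Pool.Agent.Q101.BmS2

/-!
# Almost disjoint functions in `L_p`
-/

set_option autoImplicit false
set_option linter.unusedVariables false
set_option linter.unusedSectionVars false

namespace Pool.Agent.Q101.Bm

open MeasureTheory Filter Topology
open scoped BigOperators InnerProductSpace ENNReal

/-- the norm of `L_p` as an integral -/
lemma kpc_norm {Ω : Type} [MeasurableSpace Ω] {μ : Measure Ω} {p : ℝ≥0∞} (h0 : p ≠ 0) (h1 : p ≠ ∞)
    (f : Lp ℝ p μ) : ‖f‖ ^ p.toReal = ∫ ω, |f ω| ^ p.toReal ∂μ := by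
  have hp : 0 < p.toReal := ENNReal.toReal_pos h0 h1
  have h2 : 0 ≤ ∫ ω, ‖f ω‖ ^ p.toReal ∂μ := integral_nonneg fun ω => by positivity
  rw [Lp.norm_def, (Lp.memLp f).eLpNorm_eq_integral_rpow_norm h0 h1,
    ENNReal.toReal_ofReal (by positivity), ← Real.rpow_mul h2, inv_mul_cancel₀ hp.ne',
    Real.rpow_one]
  rfl

lemma kpc_int {Ω : Type} [MeasurableSpace Ω] {μ : Measure Ω} {p : ℝ≥0∞} (h0 : p ≠ 0) (h1 : p ≠ ∞)
    (f : Lp ℝ p μ) : Integrable (fun ω => |f ω| ^ p.toReal) μ :=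
  (Lp.memLp f).integrable_norm_rpow h0 h1

lemma kpc_le {s a b : ℝ} (hs : 2 < s) : |a| ^ (s - 2) * b ^ 2 ≤ |a| ^ s + |b| ^ s := by
  have ha := abs_nonneg a
  have hb := abs_nonneg b
  have h0 : 0 ≤ |a| ^ s := by positivity
  have h0' : 0 ≤ |b| ^ s := by positivity
  have e : ∀ t : ℝ, 0 ≤ t → t ^ (s - 2) * t ^ 2 = t ^ s := by
    intro t ht
    rw [← Real.rpow_natCast t 2, ← Real.rpow_add' ht (by push_cast; linarith)]
    congr 1
    push_cast; ring
  rw [← sq_abs b]
  rcases le_total (|b|) (|a|) with h | h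
  · have : |a| ^ (s - 2) * |b| ^ 2 ≤ |a| ^ (s - 2) * |a| ^ 2 := by gcongr
    rw [e _ ha] at this
    linarith
  · have : |a| ^ (s - 2) * |b| ^ 2 ≤ |b| ^ (s - 2) * |b| ^ 2 := by
      have := Real.rpow_le_rpow ha h (show 0 ≤ s - 2 by linarith)
      gcongr
    rw [e _ hb] at this
    linarith

lemma kpc_point {s : ℝ} (hs : 2 < s) {η : ℝ} (hη : 0 < η) :
    ∃ C : ℝ, 0 ≤ C ∧ ∀ a b : ℝ,
      |(|a + b| ^ s - |a| ^ s - |b| ^ s)| ≤ η * (|a| ^ s + |b| ^ s) + C * (|a| ^ (s - 2) * b ^ 2) := by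
  -- choice of the threshold
  obtain ⟨t, ht0, ht1, h1, h2, h3⟩ : ∃ t : ℝ, 0 < t ∧ t < 1 ∧ (1 + t) ^ s ≤ 1 + η / 2 ∧
      1 - η / 2 ≤ (1 - t) ^ s ∧ t ^ s ≤ η / 2 := by
    have c1 : Tendsto (fun t : ℝ => (1 + t) ^ s) (𝓝[>] 0) (𝓝 1) := by
      have : ContinuousAt (fun t : ℝ => (1 + t) ^ s) 0 :=
        (continuousAt_const.add continuousAt_id).rpow_const (Or.inr (by linarith))
      have h := this.tendsto.mono_left (nhdsWithin_le_nhds (s := Set.Ioi 0))
      simpa using h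
    have c2 : Tendsto (fun t : ℝ => (1 - t) ^ s) (𝓝[>] 0) (𝓝 1) := by
      have : ContinuousAt (fun t : ℝ => (1 - t) ^ s) 0 :=
        (continuousAt_const.sub continuousAt_id).rpow_const (Or.inr (by linarith))
      have h := this.tendsto.mono_left (nhdsWithin_le_nhds (s := Set.Ioi 0))
      simpa using h
    have c3 : Tendsto (fun t : ℝ => t ^ s) (𝓝[>] 0) (𝓝 0) := by
      have : ContinuousAt (fun t : ℝ => t ^ s) 0 :=
        continuousAt_id.rpow_const (Or.inr (by linarith))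
      have h := this.tendsto.mono_left (nhdsWithin_le_nhds (s := Set.Ioi 0))
      have e : (0 : ℝ) ^ s = 0 := Real.zero_rpow (by linarith)
      simpa [e] using h
    have e1 := c1.eventually (ge_mem_nhds (show (1 : ℝ) < 1 + η / 2 by linarith))
    have e2 := c2.eventually (le_mem_nhds (show 1 - η / 2 < (1 : ℝ) by linarith))
    have e3 := c3.eventually (ge_mem_nhds (show (0 : ℝ) < η / 2 by linarith))
    have e4 : ∀ᶠ t : ℝ in 𝓝[>] 0, t < 1 := (gt_mem_nhds one_pos).filter_mono nhdsWithin_le_nhds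
    obtain ⟨t, h⟩ := ((e1.and e2).and (e3.and (e4.and self_mem_nhdsWithin))).exists
    exact ⟨t, h.2.2.2, h.2.2.1, h.1.1, h.1.2, h.2.1⟩
  have hs0 : 0 ≤ s := by linarith
  have sm : ∀ a b : ℝ, |a| ≤ t * |b| → |(|a + b| ^ s - |a| ^ s - |b| ^ s)| ≤ η * |b| ^ s := by
    intro a b hab
    have hb := abs_nonneg b
    have ha := abs_nonneg a
    have u1 : |a + b| ≤ (1 + t) * |b| := (abs_add_le a b).trans (by linarith)
    have u2 : (1 - t) * |b| ≤ |a + b| := by
      have := abs_sub_abs_le_abs_sub b (-a)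
      rw [abs_neg, sub_neg_eq_add, add_comm b a] at this
      linarith
    have v1 : |a + b| ^ s ≤ (1 + t) ^ s * |b| ^ s := by
      rw [← Real.mul_rpow (by linarith) hb]
      exact Real.rpow_le_rpow (abs_nonneg _) u1 hs0
    have v2 : (1 - t) ^ s * |b| ^ s ≤ |a + b| ^ s := by
      rw [← Real.mul_rpow (by linarith) hb]
      exact Real.rpow_le_rpow (mul_nonneg (by linarith) hb) u2 hs0
    have v3 : |a| ^ s ≤ t ^ s * |b| ^ s := by
      rw [← Real.mul_rpow ht0.le hb]
      exact Real.rpow_le_rpow ha hab hs0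
    have v4 : 0 ≤ |a| ^ s := by positivity
    have v5 : 0 ≤ |b| ^ s := by positivity
    rw [abs_le]
    constructor
    · nlinarith
    · nlinarith
  refine ⟨3 * (1 + 1 / t) ^ s / t ^ 2, by positivity, ?_⟩
  intro a b
  have ha := abs_nonneg a
  have hb := abs_nonneg b
  have w1 : 0 ≤ |a| ^ s := by positivity
  have w2 : 0 ≤ |b| ^ s := by positivity
  have w3 : 0 ≤ |a| ^ (s - 2) * b ^ 2 := by positivity
  have w4 : 0 ≤ 3 * (1 + 1 / t) ^ s / t ^ 2 := by positivity
  rcases le_total (|a|) (t * |b|) with h | h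
  · have := sm a b h
    have := mul_nonneg w4 w3
    nlinarith
  rcases le_total (|b|) (t * |a|) with h' | h'
  · have := sm b a h'
    have e : |b + a| ^ s - |b| ^ s - |a| ^ s = |a + b| ^ s - |a| ^ s - |b| ^ s := by
      rw [add_comm b a]; ring
    rw [e] at this
    have := mul_nonneg w4 w3
    nlinarith
  · -- comparable
    have x1 : |b| ≤ 1 / t * |a| := by
      rw [one_div, ← div_eq_inv_mul, le_div_iff₀ ht0]; linarith
    have x2 : |a + b| ≤ (1 + 1 / t) * |a| := (abs_add_le a b).trans (by linarith)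
    have y1 : |a + b| ^ s ≤ (1 + 1 / t) ^ s * |a| ^ s := by
      rw [← Real.mul_rpow (by positivity) ha]
      exact Real.rpow_le_rpow (abs_nonneg _) x2 hs0
    have y2 : |b| ^ s ≤ (1 + 1 / t) ^ s * |a| ^ s := by
      rw [← Real.mul_rpow (by positivity) ha]
      refine Real.rpow_le_rpow hb ?_ hs0
      linarith
    have y3 : |a| ^ s ≤ (1 + 1 / t) ^ s * |a| ^ s := by
      rw [← Real.mul_rpow (by positivity) ha]
      refine Real.rpow_le_rpow ha ?_ hs0
      have : 0 ≤ 1 / t * |a| := by positivity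
      linarith
    have y4 : t ^ 2 * |a| ^ s ≤ |a| ^ (s - 2) * b ^ 2 := by
      have e : |a| ^ (s - 2) * |a| ^ 2 = |a| ^ s := by
        rw [← Real.rpow_natCast (|a|) 2, ← Real.rpow_add' ha (by push_cast; linarith)]
        congr 1
        push_cast; ring
      rw [← e, ← sq_abs b]
      calc t ^ 2 * (|a| ^ (s - 2) * |a| ^ 2) = |a| ^ (s - 2) * (t * |a|) ^ 2 := by ring
        _ ≤ _ := by gcongr
    have y5 : |(|a + b| ^ s - |a| ^ s - |b| ^ s)| ≤ 3 * ((1 + 1 / t) ^ s * |a| ^ s) := by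
      have : 0 ≤ |a + b| ^ s := by positivity
      rw [abs_le]
      constructor <;> linarith
    have y6 : 3 * ((1 + 1 / t) ^ s * |a| ^ s) =
        3 * (1 + 1 / t) ^ s / t ^ 2 * (t ^ 2 * |a| ^ s) := by
      field_simp
    have y7 := mul_le_mul_of_nonneg_left y4 w4
    rw [← y6] at y7
    have : 0 ≤ η * (|a| ^ s + |b| ^ s) := by positivity
    linarith

theorem kpc : S_kpc := by
  intro E _ _ Ω _ μ p hp2 hpt J hJ x ε hε
  have hp0 : p ≠ 0 := by
    rintro rfl
    simp at hp2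
  set s := p.toReal with hs
  have hs2 : 2 < s := by
    have := (ENNReal.toReal_lt_toReal (by norm_num) hpt).2 hp2
    simpa using this
  have hn : ∀ u : E, ‖u‖ ^ s = ∫ ω, |J u ω| ^ s ∂μ := by
    intro u
    rw [← hJ u]
    exact kpc_norm hp0 hpt (J u)
  have hi : ∀ u : E, Integrable (fun ω => |J u ω| ^ s) μ := fun u => kpc_int hp0 hpt (J u)
  have hx0 : 0 ≤ ‖x‖ ^ s := by positivity
  set η : ℝ := ε / 2 / (‖x‖ ^ s + 1) with hη
  have hη0 : 0 < η := by positivity
  obtain ⟨C, hC0, hC⟩ := kpc_point hs2 hη0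
  refine ⟨ε / 2 / (C + 1), by positivity, ?_⟩
  intro w hw hI
  have hm : ∀ u : E, AEStronglyMeasurable (fun ω => J u ω) μ := fun u => Lp.aestronglyMeasurable _
  have hint : Integrable (fun ω => |J x ω| ^ (s - 2) * (J w ω) ^ 2) μ := by
    refine Integrable.mono ((hi x).add (hi w)) ?_ ?_
    · have m1 : AEStronglyMeasurable (fun ω => |J x ω|) μ := (hm x).norm
      have m2 : AEStronglyMeasurable (fun ω => |J x ω| ^ (s - 2)) μ :=
        (m1.aemeasurable.pow_const (s - 2)).aestronglyMeasurable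
      exact m2.mul ((hm w).pow 2)
    · refine Eventually.of_forall fun ω => ?_
      have := kpc_le (a := J x ω) (b := J w ω) hs2
      rw [Real.norm_of_nonneg (by positivity)]
      simp only [Pi.add_apply]
      rw [Real.norm_of_nonneg (by positivity)]
      exact this
  have e1 : ‖x + w‖ ^ s - ‖x‖ ^ s - 1 =
      ∫ ω, (|J x ω + J w ω| ^ s - |J x ω| ^ s - |J w ω| ^ s) ∂μ := by
    have e2 : ‖x + w‖ ^ s = ∫ ω, |J x ω + J w ω| ^ s ∂μ := by
      rw [hn]
      refine integral_congr_ae ?_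
      have := Lp.coeFn_add (J x) (J w)
      filter_upwards [this] with ω hω
      rw [map_add, hω]
      rfl
    have e3 : Integrable (fun ω => |J x ω + J w ω| ^ s) μ := by
      refine (hi (x + w)).congr ?_
      have := Lp.coeFn_add (J x) (J w)
      filter_upwards [this] with ω hω
      rw [map_add, hω]
      rfl
    have e4 : (1 : ℝ) = ∫ ω, |J w ω| ^ s ∂μ := by
      rw [← hn, hw, Real.one_rpow]
    rw [e2, hn x, e4]
    have e6 : Integrable (fun ω => |J x ω + J w ω| ^ s - |J x ω| ^ s) μ := e3.sub (hi x)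
    rw [integral_sub e6 (hi w), integral_sub e3 (hi x)]
  rw [e1]
  have e5 : |∫ ω, (|J x ω + J w ω| ^ s - |J x ω| ^ s - |J w ω| ^ s) ∂μ| ≤
      ∫ ω, (η * (|J x ω| ^ s + |J w ω| ^ s) + C * (|J x ω| ^ (s - 2) * (J w ω) ^ 2)) ∂μ := by
    rw [← Real.norm_eq_abs]
    refine norm_integral_le_of_norm_le ?_ (Eventually.of_forall fun ω => hC _ _)
    exact (((hi x).add (hi w)).const_mul η).add (hint.const_mul C)
  refine e5.trans_lt ?_
  have f1 : Integrable (fun ω => η * (|J x ω| ^ s + |J w ω| ^ s)) μ :=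
    ((hi x).add (hi w)).const_mul η
  have f2 : Integrable (fun ω => C * (|J x ω| ^ (s - 2) * (J w ω) ^ 2)) μ := hint.const_mul C
  rw [integral_add f1 f2, integral_const_mul, integral_const_mul, integral_add (hi x) (hi w),
    ← hn, ← hn, hw, Real.one_rpow]
  have f3 : η * (‖x‖ ^ s + 1) = ε / 2 := by
    rw [hη]; field_simp
  have f4 : C * ∫ ω, |J x ω| ^ (s - 2) * (J w ω) ^ 2 ∂μ ≤ C * (ε / 2 / (C + 1)) :=
    mul_le_mul_of_nonneg_left hI.le hC0
  have f5 : C * (ε / 2 / (C + 1)) < ε / 2 := by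
    rw [← mul_div_assoc, div_lt_iff₀ (by linarith)]
    nlinarith
  linarith

end Pool.Agent.Q101.Bm
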