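import Pool.Agent.Q101.BmS

/-!
# Lower bound for sign averages along the multi-scale lists
-/

set_option autoImplicit false
set_option linter.unusedVariables false
set_option linter.unusedSectionVars false

namespace Pool.Agent.Q101.Bm

open MeasureTheory Filter Topology
open scoped BigOperators InnerProductSpace ENNReal

lemma low_mono {X : Type} [AddCommGroup X] {φ ψ : X → ℝ} (h : ∀ x, φ x ≤ ψ x) (l : List X)
    (x : X) : sg φ l x ≤ sg ψ l x := by
  induction l generalizing x with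
  | nil => exact h x
  | cons z l ih =>
    simp only [sg]
    have := ih (x + z)
    have := ih (x - z)
    linarith

lemma low_lin {X : Type} [AddCommGroup X] (φ : X → ℝ) (a b : ℝ) (l : List X) (x : X) :
    sg (fun x => a + b * φ x) l x = a + b * sg φ l x := by
  induction l generalizing x with
  | nil => rfl
  | cons z l ih =>
    simp only [sg]
    rw [ih, ih]
    ring

lemma low_append {X : Type} [AddCommGroup X] (φ : X → ℝ) (l₁ l₂ : List X) (x : X) :
    sg φ (l₁ ++ l₂) x = sg (fun x => sg φ l₂ x) l₁ x := by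
  induction l₁ generalizing x with
  | nil => rfl
  | cons z l ih =>
    simp only [List.cons_append, sg]
    rw [ih, ih]

lemma low_norm_add {E : Type} [NormedAddCommGroup E] (l : List E) (x y : E) :
    sg (fun x : E => ‖x‖) l (x + y) ≤ sg (fun x : E => ‖x‖) l x + ‖y‖ := by
  induction l generalizing x with
  | nil => exact norm_add_le x y
  | cons z l ih =>
    simp only [sg]
    have h1 := ih (x + z)
    have h2 := ih (x - z)
    have e1 : x + y + z = x + z + y := by abel
    have e2 : x + y - z = x - z + y := by abel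
    rw [e1, e2]
    linarith

lemma low_norm_append {E : Type} [NormedAddCommGroup E] (l₁ l₂ : List E) :
    sg (fun x : E => ‖x‖) (l₁ ++ l₂) 0 ≤
      sg (fun x : E => ‖x‖) l₁ 0 + sg (fun x : E => ‖x‖) l₂ 0 := by
  rw [low_append]
  refine (low_mono (ψ := fun x => sg (fun x : E => ‖x‖) l₂ 0 + 1 * ‖x‖) ?_ l₁ 0).trans ?_
  · intro x
    have := low_norm_add l₂ 0 x
    rw [zero_add] at this
    linarith
  · rw [low_lin (fun x : E => ‖x‖)]
    linarith

lemma low_smul {E : Type} [NormedAddCommGroup E] [NormedSpace ℝ E] (c : ℝ) (l : List E) (x : E) :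
    sg (fun x : E => ‖x‖) (l.map (fun z => c • z)) (c • x) = |c| * sg (fun x : E => ‖x‖) l x := by
  induction l generalizing x with
  | nil =>
    simp only [List.map_nil, sg]
    rw [norm_smul, Real.norm_eq_abs]
  | cons z l ih =>
    simp only [List.map_cons, sg]
    rw [← smul_add, ← smul_sub, ih, ih]
    ring

lemma low_block {E : Type} [NormedAddCommGroup E] [NormedSpace ℝ E] {q C : ℝ}
    (h : HasTy E q C) {s : ℝ} (hs : 0 < s) (l : List E) (hl : ∀ z ∈ l, ‖z‖ = s) :
    sg (fun x : E => ‖x‖) l 0 ≤ s * (C * (l.length : ℝ) ^ (1 / q)) := by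
  have h1 := h (l.map (fun z => s⁻¹ • z)) (by
    intro z hz
    obtain ⟨w, hw, rfl⟩ := List.mem_map.1 hz
    rw [norm_smul, hl w hw, norm_inv, Real.norm_of_nonneg hs.le, inv_mul_cancel₀ hs.ne'])
  have h2 := low_smul s⁻¹ l (0 : E)
  rw [smul_zero, abs_of_pos (inv_pos.2 hs)] at h2
  rw [h2, List.length_map, inv_mul_le_iff₀ hs] at h1
  exact h1

lemma low_split {α β : Type} {R : α → β → Prop} : ∀ (l₁ l₂ : List α) (l' : List β),
    List.Forall₂ R (l₁ ++ l₂) l' → ∃ a b, l' = a ++ b ∧ List.Forall₂ R l₁ a ∧ List.Forall₂ R l₂ b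
  | [], l₂, l', h => ⟨[], l', rfl, List.Forall₂.nil, h⟩
  | z :: l₁, l₂, l', h => by
    rw [List.cons_append] at h
    cases h with
    | cons hr ht =>
      obtain ⟨a, b, rfl, ha, hb⟩ := low_split l₁ l₂ _ ht
      exact ⟨_ :: a, b, rfl, List.Forall₂.cons hr ha, hb⟩

lemma low_rep {E : Type} [NormedAddCommGroup E] (x : E) : ∀ (n : ℕ) (l' : List E),
    List.Forall₂ (fun a b => ‖a‖ = ‖b‖) (List.replicate n x) l' →
      l'.length = n ∧ ∀ z ∈ l', ‖z‖ = ‖x‖
  | 0, l', h => by
    rw [List.replicate_zero] at h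
    cases h
    exact ⟨rfl, by simp⟩
  | n + 1, l', h => by
    rw [List.replicate_succ] at h
    cases h with
    | cons hr ht =>
      obtain ⟨h1, h2⟩ := low_rep x n _ ht
      refine ⟨by rw [List.length_cons, h1], ?_⟩
      intro z hz
      rcases List.mem_cons.1 hz with rfl | hz
      · exact hr.symm
      · exact h2 z hz

lemma low_sum {E : Type} [NormedAddCommGroup E] [NormedSpace ℝ E] {q C : ℝ}
    (h : HasTy E q C) (e : E) (he : ‖e‖ = 1) (q' : ℝ) {s : ℝ} (hs : 0 < s) :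
    ∀ (K : ℕ) (l' : List E), List.Forall₂ (fun a b => ‖a‖ = ‖b‖) (bigL e q' s K) l' →
      sg (fun x : E => ‖x‖) l' 0 ≤
        ∑ k ∈ Finset.range K, sc s (k + 1) * (C * ((mm q' (k + 1) : ℕ) : ℝ) ^ (1 / q))
  | 0, l', hl => by
    rw [bigL] at hl
    cases hl
    simp [sg]
  | K + 1, l', hl => by
    rw [bigL] at hl
    obtain ⟨a, b, rfl, ha, hb⟩ := low_split _ _ _ hl
    have h1 := low_sum h e he q' hs K b hb
    obtain ⟨h2, h3⟩ := low_rep _ _ _ ha
    have hsc : 0 < sc s (K + 1) := mul_pos (Real.rpow_pos_of_pos two_pos _) hs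
    have h4 : ‖sc s (K + 1) • e‖ = sc s (K + 1) := by
      rw [norm_smul, he, mul_one, Real.norm_of_nonneg hsc.le]
    rw [h4] at h3
    have h5 := low_block h hsc a h3
    rw [h2] at h5
    rw [Finset.sum_range_succ]
    refine (low_norm_append a b).trans ?_
    linarith

lemma low_mm {q' : ℝ} (hq' : 0 < q') {q : ℝ} (hq : q' < q) (k : ℕ) :
    (2 : ℝ) ^ (-(k : ℝ)) * ((mm q' k : ℕ) : ℝ) ^ (1 / q) ≤
      2 ^ (1 / q) * ((2 : ℝ) ^ (q' / q - 1)) ^ k := by
  have hq0 : 0 < q := hq'.trans hq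
  have h1 : (1 : ℝ) ≤ 2 ^ ((k : ℝ) * q') := Real.one_le_rpow one_le_two (by positivity)
  have h2 : ((mm q' k : ℕ) : ℝ) ≤ 2 * 2 ^ ((k : ℝ) * q') := by
    have := Nat.ceil_lt_add_one (a := (2 : ℝ) ^ ((k : ℝ) * q')) (by positivity)
    rw [mm]
    linarith
  have h3 : ((mm q' k : ℕ) : ℝ) ^ (1 / q) ≤ (2 * 2 ^ ((k : ℝ) * q')) ^ (1 / q) :=
    Real.rpow_le_rpow (Nat.cast_nonneg _) h2 (by positivity)
  refine (mul_le_mul_of_nonneg_left h3 (by positivity)).trans (le_of_eq ?_)
  rw [Real.mul_rpow two_pos.le (by positivity), ← Real.rpow_mul two_pos.le,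
    ← Real.rpow_natCast, ← Real.rpow_mul two_pos.le, ← Real.rpow_add two_pos, ← Real.rpow_add two_pos,
    ← Real.rpow_add two_pos]
  congr 1
  field_simp
  ring

theorem low : S_low := by
  intro E _ _ F e q q' C δ hF hF0 hF1 hty hq' hqq he hδ
  have hq0 : 0 < q := hq'.trans hqq
  have hC : 1 ≤ C := by
    have h1 := hty [e] (by simp [he])
    simp [sg, he] at h1
    exact h1
  set ρ : ℝ := (2 : ℝ) ^ (q' / q - 1) with hρ
  have hρ0 : 0 < ρ := Real.rpow_pos_of_pos two_pos _
  have hρ1 : ρ < 1 := by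
    refine Real.rpow_lt_one_of_one_lt_of_neg one_lt_two ?_
    have : q' / q < 1 := (div_lt_one hq0).2 hqq
    linarith
  set B : ℝ := C * (2 ^ (1 / q) * (1 - ρ)⁻¹) with hB
  have hB0 : 0 < B := by
    have : 0 < (1 - ρ)⁻¹ := inv_pos.2 (by linarith)
    positivity
  obtain ⟨η, hη, hηF⟩ := Metric.continuousAt_iff.1 (hF.continuousAt (x := (0 : E))) (δ / 2)
    (half_pos hδ)
  have hlow : ∀ x, (1 - δ / 2) + (-(2 / η)) * ‖x‖ ≤ F x := by
    intro x
    by_cases hx : ‖x‖ < η
    · have h1 := hηF (x := x) (by simpa [dist_zero_right] using hx)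
      rw [hF0, Real.dist_eq] at h1
      have h2 := (abs_lt.1 h1).1
      have h3 : 0 ≤ 2 / η * ‖x‖ := by positivity
      linarith
    · push Not at hx
      have h3 : 2 ≤ 2 / η * ‖x‖ := by
        rw [div_mul_eq_mul_div, le_div_iff₀ hη]
        linarith
      have := hF1 x
      linarith
  refine ⟨δ * η / (4 * B), by positivity, fun K l' hl => ?_⟩
  set s : ℝ := δ * η / (4 * B) with hs
  have hs0 : 0 < s := by positivity
  have h1 := low_sum hty e he q' hs0 K l' hl
  have h2 : ∑ k ∈ Finset.range K, sc s (k + 1) * (C * ((mm q' (k + 1) : ℕ) : ℝ) ^ (1 / q)) ≤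
      s * B := by
    have h3 : ∀ k ∈ Finset.range K, sc s (k + 1) * (C * ((mm q' (k + 1) : ℕ) : ℝ) ^ (1 / q)) ≤
        (s * C * 2 ^ (1 / q)) * ρ ^ (k + 1) := by
      intro k _
      have h4 := low_mm hq' hqq (k + 1)
      rw [← hρ] at h4
      have h5 : sc s (k + 1) * (C * ((mm q' (k + 1) : ℕ) : ℝ) ^ (1 / q)) =
          (s * C) * ((2 : ℝ) ^ (-((k + 1 : ℕ) : ℝ)) * ((mm q' (k + 1) : ℕ) : ℝ) ^ (1 / q)) := by
        rw [sc]
        ring
      rw [h5]
      refine (mul_le_mul_of_nonneg_left h4 (by positivity)).trans (le_of_eq (by ring))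
    refine (Finset.sum_le_sum h3).trans ?_
    rw [← Finset.mul_sum]
    have h6 : ∑ k ∈ Finset.range K, ρ ^ (k + 1) ≤ (1 - ρ)⁻¹ := by
      rw [← tsum_geometric_of_lt_one hρ0.le hρ1]
      refine (Finset.sum_le_sum (g := fun k => ρ ^ k) fun k _ => ?_).trans
        ((summable_geometric_of_lt_one hρ0.le hρ1).sum_le_tsum _ (fun k _ => by positivity))
      exact pow_le_pow_of_le_one hρ0.le hρ1.le (Nat.le_succ k)
    refine (mul_le_mul_of_nonneg_left h6 (by positivity)).trans (le_of_eq ?_)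
    rw [hB]
    ring
  have h7 : sg (fun x => (1 - δ / 2) + (-(2 / η)) * ‖x‖) l' 0 ≤ sg F l' 0 := low_mono hlow l' 0
  rw [low_lin (fun x : E => ‖x‖)] at h7
  have h8 : (2 / η) * sg (fun x : E => ‖x‖) l' 0 ≤ (2 / η) * (s * B) :=
    mul_le_mul_of_nonneg_left (h1.trans h2) (by positivity)
  have h9 : (2 / η) * (s * B) = δ / 2 := by
    rw [hs]
    field_simp
    ring
  linarith

end Pool.Agent.Q101.Bm
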