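import Pool.Agent.Q101.BmKpc

/-!
# Negative type in `L_p`, `p ≤ 2`
-/

set_option autoImplicit false
set_option linter.unusedVariables false
set_option linter.unusedSectionVars false

namespace Pool.Agent.Q101.Bm

open MeasureTheory Filter Topology
open scoped BigOperators InnerProductSpace ENNReal

lemma lp_cos_pd : PD (X := ℝ) Real.cos := by
  intro n x c
  have e : ∑ i, ∑ j, c i * c j * Real.cos (x i - x j) =
      (∑ i, c i * Real.cos (x i)) ^ 2 + (∑ i, c i * Real.sin (x i)) ^ 2 := by
    rw [sq, sq, Finset.sum_mul_sum, Finset.sum_mul_sum, ← Finset.sum_add_distrib]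
    apply Finset.sum_congr rfl
    intro i _
    rw [← Finset.sum_add_distrib]
    apply Finset.sum_congr rfl
    intro j _
    rw [Real.cos_sub]
    ring
  rw [e]
  positivity

lemma lp_real (h : S_int) {s : ℝ} (hs0 : 0 < s) (hs2 : s ≤ 2) : CND (fun x : ℝ => ‖x‖ ^ s) := by
  rcases hs2.eq_or_lt with rfl | hs2
  · intro n x c hc
    have e : ∑ i, ∑ j, c i * c j * ‖x i - x j‖ ^ (2 : ℝ) = -2 * (∑ i, c i * x i) ^ 2 := by
      have e1 : ∀ i j, c i * c j * ‖x i - x j‖ ^ (2 : ℝ) =
          c j * (c i * x i ^ 2) + c i * (c j * x j ^ 2) - 2 * ((c i * x i) * (c j * x j)) := by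
        intro i j
        rw [Real.rpow_two, Real.norm_eq_abs, sq_abs]
        ring
      simp only [e1, Finset.sum_sub_distrib, Finset.sum_add_distrib]
      have e2 : ∑ i, ∑ j, c j * (c i * x i ^ 2) = 0 := by
        simp only [← Finset.sum_mul, hc, zero_mul, Finset.sum_const_zero]
      have e3 : ∑ i, ∑ j, c i * (c j * x j ^ 2) = 0 := by
        simp only [← Finset.mul_sum]
        rw [← Finset.sum_mul, hc, zero_mul]
      have e4 : ∑ i, ∑ j, 2 * ((c i * x i) * (c j * x j)) = 2 * (∑ i, c i * x i) ^ 2 := by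
        rw [sq, Finset.sum_mul_sum, Finset.mul_sum]
        apply Finset.sum_congr rfl
        intro i _
        rw [Finset.mul_sum]
      rw [e2, e3, e4]
      ring
    simp only at e ⊢
    rw [e]
    nlinarith [sq_nonneg (∑ i, c i * x i)]
  · refine h ℝ Real.cos 2 (1 / 2) (by norm_num) Real.continuous_cos lp_cos_pd ?_ ?_ ?_ s hs0 hs2
    · intro x y hxy
      rw [Real.norm_eq_abs, Real.norm_eq_abs] at hxy
      rw [← Real.cos_abs x, hxy, Real.cos_abs]
    · intro x
      rw [Real.cos_zero, Real.rpow_two, Real.norm_eq_abs, sq_abs]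
      have := Real.one_sub_sq_div_two_le_cos (x := x)
      linarith
    · refine ⟨Real.pi, ?_⟩
      rw [Real.cos_pi, Real.cos_zero]
      norm_num

theorem lp (h : S_int) : S_lp := by
  intro E _ _ Ω _ μ p hp0 hp2 J hJ n x c hc
  have hpt : p ≠ ∞ := ne_top_of_le_ne_top (by norm_num) hp2
  have hs0 : 0 < p.toReal := ENNReal.toReal_pos hp0 hpt
  have hs2 : p.toReal ≤ 2 := by
    have := ENNReal.toReal_mono (by norm_num) hp2
    simpa using this
  have hreal := lp_real h hs0 hs2
  have hn : ∀ u : E, ‖u‖ ^ p.toReal = ∫ ω, |J u ω| ^ p.toReal ∂μ := by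
    intro u
    rw [← hJ u]
    exact kpc_norm hp0 hpt (J u)
  have hi : ∀ u : E, Integrable (fun ω => |J u ω| ^ p.toReal) μ := fun u => kpc_int hp0 hpt (J u)
  have e : ∑ i, ∑ j, c i * c j * ‖x i - x j‖ ^ p.toReal =
      ∫ ω, ∑ i, ∑ j, c i * c j * |J (x i - x j) ω| ^ p.toReal ∂μ := by
    rw [integral_finsetSum _ (fun i _ => integrable_finsetSum _ fun j _ =>
      (hi (x i - x j)).const_mul (c i * c j))]
    apply Finset.sum_congr rfl
    intro i _
    rw [integral_finsetSum _ (fun j _ => (hi (x i - x j)).const_mul (c i * c j))]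
    apply Finset.sum_congr rfl
    intro j _
    rw [integral_const_mul, ← hn]
  simp only at e ⊢
  rw [e]
  refine integral_nonpos_of_ae ?_
  have hae : ∀ᵐ ω ∂μ, ∀ i j, J (x i - x j) ω = J (x i) ω - J (x j) ω := by
    rw [ae_all_iff]
    intro i
    rw [ae_all_iff]
    intro j
    have := Lp.coeFn_sub (J (x i)) (J (x j))
    filter_upwards [this] with ω hω
    rw [map_sub, hω]
    rfl
  filter_upwards [hae] with ω hω
  have := hreal n (fun i => J (x i) ω) c hc
  simp only [Real.norm_eq_abs] at this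
  simp only [hω]
  exact this

end Pool.Agent.Q101.Bm
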