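import Pool.Agent.Q101.BmS

/-!
# Alaoglu-Birkhoff: the mean over the isometry group
-/

set_option autoImplicit false
set_option linter.unusedVariables false
set_option linter.unusedSectionVars false

namespace Pool.Agent.Q101.Bm

open MeasureTheory Filter Topology
open scoped BigOperators InnerProductSpace ENNReal

section mean

variable {E H : Type} [NormedAddCommGroup E] [NormedSpace ℝ E]
  [NormedAddCommGroup H] [InnerProductSpace ℝ H] (ρ : Rep E H)

/-- The diagonal action on `H ^ n`. -/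
noncomputable def meanG (n : ℕ) (S : E ≃ₗᵢ[ℝ] E) :
    PiLp 2 (fun _ : Fin n => H) →ₗᵢ[ℝ] PiLp 2 (fun _ : Fin n => H) where
  toFun k := WithLp.toLp 2 (fun i => ρ.g S (k i))
  map_add' a b := by
    ext i
    simp
  map_smul' c a := by
    ext i
    simp
  norm_map' a := by
    show ‖WithLp.toLp 2 (fun i => ρ.g S (a i))‖ = ‖a‖
    rw [PiLp.norm_eq_of_L2, PiLp.norm_eq_of_L2]
    simp

/-- Elements of minimal norm of a convex set are unique. -/
lemma mean_unique {W : Type} [NormedAddCommGroup W] [InnerProductSpace ℝ W] {K : Set W}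
    (hK : Convex ℝ K) {p q : W} (hp : p ∈ K) (hq : q ∈ K) (hmin : ∀ k ∈ K, ‖p‖ ≤ ‖k‖)
    (hpq : ‖q‖ = ‖p‖) : q = p := by
  have h1 : (1 / 2 : ℝ) • p + (1 / 2 : ℝ) • q ∈ K :=
    hK hp hq (by norm_num) (by norm_num) (by norm_num)
  have h2 := hmin _ h1
  have h3 : ‖(1 / 2 : ℝ) • p + (1 / 2 : ℝ) • q‖ = (1 / 2) * ‖p + q‖ := by
    rw [← smul_add, norm_smul]
    norm_num
  rw [h3] at h2
  have h4 := parallelogram_law_with_norm ℝ q p
  rw [hpq, add_comm q p] at h4
  have h5 : ‖q - p‖ = 0 := by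
    have : ‖q - p‖ * ‖q - p‖ ≤ 0 := by nlinarith [norm_nonneg p, norm_nonneg (p + q)]
    have h6 : ‖q - p‖ * ‖q - p‖ = 0 := le_antisymm this (mul_self_nonneg _)
    exact mul_self_eq_zero.1 h6
  exact sub_eq_zero.1 (norm_eq_zero.1 h5)

variable [CompleteSpace H]

theorem mean_aux (n : ℕ) (u v : Fin n → H) (c : ℝ)
    (hc : ∀ T, c ≤ ∑ i, ⟪ρ.g T (u i), v i⟫_ℝ) : c ≤ ∑ i, ⟪ρ.P (u i), v i⟫_ℝ := by
  set orb : (E ≃ₗᵢ[ℝ] E) → PiLp 2 (fun _ : Fin n => H) :=
    fun T => WithLp.toLp 2 (fun i => ρ.g T (u i)) with horb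
  set C : Set (PiLp 2 (fun _ : Fin n => H)) := convexHull ℝ (Set.range orb) with hC
  set K : Set (PiLp 2 (fun _ : Fin n => H)) := closure C with hK
  have hKconv : Convex ℝ K := (convex_convexHull ℝ _).closure
  have hKcl : IsClosed K := isClosed_closure
  have hsub : ∀ L : Set (PiLp 2 (fun _ : Fin n => H)), Convex ℝ L → IsClosed L →
      (∀ T, orb T ∈ L) → K ⊆ L := by
    intro L h1 h2 h3
    refine closure_minimal (convexHull_min ?_ h1) h2
    rintro _ ⟨T, rfl⟩
    exact h3 T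
  have hne : K.Nonempty :=
    ⟨orb 1, subset_closure (subset_convexHull ℝ _ ⟨1, rfl⟩)⟩
  obtain ⟨p, hpK, hp⟩ := exists_norm_eq_iInf_of_complete_convex hne hKcl.isComplete hKconv
    (0 : PiLp 2 (fun _ : Fin n => H))
  have hmin : ∀ k ∈ K, ‖p‖ ≤ ‖k‖ := by
    intro k hk
    have h1 : ⨅ w : K, ‖(0 : PiLp 2 (fun _ : Fin n => H)) - w‖ ≤ ‖(0 : PiLp 2 (fun _ : Fin n => H)) - k‖ :=
      ciInf_le ⟨0, by
        rintro _ ⟨w, rfl⟩
        exact norm_nonneg _⟩ (⟨k, hk⟩ : K)
    rw [← hp] at h1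
    simpa using h1
  have hmaps : ∀ S : E ≃ₗᵢ[ℝ] E, ∀ k ∈ K, meanG ρ n S k ∈ K := by
    intro S k hk
    refine map_mem_closure (meanG ρ n S).continuous hk ?_
    intro z hz
    have h1 : (meanG ρ n S).toLinearMap '' C = convexHull ℝ ((meanG ρ n S).toLinearMap '' Set.range orb) := by
      rw [hC]
      exact (meanG ρ n S).toLinearMap.image_convexHull _
    have h2 : (meanG ρ n S).toLinearMap z ∈ (meanG ρ n S).toLinearMap '' C := ⟨z, hz, rfl⟩
    rw [h1] at h2
    refine convexHull_mono ?_ h2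
    rintro _ ⟨_, ⟨T, rfl⟩, rfl⟩
    refine ⟨S * T, ?_⟩
    show WithLp.toLp 2 (fun i => ρ.g (S * T) (u i)) =
      WithLp.toLp 2 (fun i => ρ.g S ((orb T) i))
    congr 1
    funext i
    rw [ρ.g_mul]
  have hfix : ∀ i, p i ∈ ρ.Fix := by
    intro i S
    have h1 : meanG ρ n S p = p :=
      mean_unique hKconv hpK (hmaps S p hpK) hmin ((meanG ρ n S).norm_map p)
    exact congrArg (fun k : PiLp 2 (fun _ : Fin n => H) => k i) h1
  have hproj : ∀ i, ρ.P (u i) = p i := by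
    intro i
    refine Submodule.eq_starProjection_of_mem_of_inner_eq_zero (hfix i) fun w hw => ?_
    have h1 : K ⊆ {k | ⟪k i, w⟫_ℝ = ⟪u i, w⟫_ℝ} := by
      refine hsub _ ?_ ?_ ?_
      · intro a ha b hb s t hs ht hst
        simp only [Set.mem_setOf_eq] at ha hb ⊢
        rw [PiLp.add_apply, PiLp.smul_apply, PiLp.smul_apply, inner_add_left,
          real_inner_smul_left, real_inner_smul_left, ha, hb, ← add_mul, hst, one_mul]
      · exact isClosed_eq (by fun_prop) continuous_const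
      · intro T
        show ⟪ρ.g T (u i), w⟫_ℝ = ⟪u i, w⟫_ℝ
        rw [ρ.inner_g, hw]
    have h2 : ⟪p i, w⟫_ℝ = ⟪u i, w⟫_ℝ := h1 hpK
    rw [inner_sub_left, h2, sub_self]
  simp_rw [hproj]
  have h1 : K ⊆ {k | c ≤ ∑ i, ⟪k i, v i⟫_ℝ} := by
    refine hsub _ ?_ ?_ ?_
    · intro a ha b hb s t hs ht hst
      simp only [Set.mem_setOf_eq] at ha hb ⊢
      have e1 : ∑ i, ⟪(s • a + t • b) i, v i⟫_ℝ =
          s * (∑ i, ⟪a i, v i⟫_ℝ) + t * (∑ i, ⟪b i, v i⟫_ℝ) := by
        rw [Finset.mul_sum, Finset.mul_sum, ← Finset.sum_add_distrib]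
        refine Finset.sum_congr rfl fun i _ => ?_
        rw [PiLp.add_apply, PiLp.smul_apply, PiLp.smul_apply, inner_add_left,
          real_inner_smul_left, real_inner_smul_left]
      rw [e1]
      calc c = s * c + t * c := by rw [← add_mul, hst, one_mul]
        _ ≤ _ := add_le_add (mul_le_mul_of_nonneg_left ha hs) (mul_le_mul_of_nonneg_left hb ht)
    · exact isClosed_le continuous_const (by fun_prop)
    · intro T
      exact hc T
  exact h1 hpK

end mean

theorem mean : S_mean := by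
  intro E H _ _ _ _ _ ρ n u v c hc
  exact mean_aux ρ n u v c hc

end Pool.Agent.Q101.Bm
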