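import Pool.Agent.Q101.BmS2

/-!
# Products of the operators `P U(y) P` are bounded below by sign averages
-/

set_option autoImplicit false
set_option linter.unusedVariables false
set_option linter.unusedSectionVars false

namespace Pool.Agent.Q101.Bm

open MeasureTheory Filter Topology
open scoped BigOperators InnerProductSpace ENNReal

section

variable {E H : Type} [NormedAddCommGroup E] [NormedSpace ℝ E] [NormedAddCommGroup H]
    [InnerProductSpace ℝ H] (ρ : Rep E H)

/-- `C(y) = (U(y) + U(-y)) / 2` -/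
noncomputable def sgaC (y : E) (w : H) : H := (1 / 2 : ℝ) • (ρ.U y w + ρ.U (-y) w)

lemma sgaC_inner (y : E) (w v : H) : ⟪sgaC ρ y w, v⟫_ℝ = ⟪w, sgaC ρ y v⟫_ℝ := by
  unfold sgaC
  rw [real_inner_smul_left, real_inner_smul_right, inner_add_left, inner_add_right, ρ.inner_U,
    ρ.inner_U, neg_neg]
  ring

lemma sgaC_g (T : E ≃ₗᵢ[ℝ] E) (y : E) (w : H) :
    ρ.g T (sgaC ρ y w) = sgaC ρ (T y) (ρ.g T w) := by
  unfold sgaC
  rw [map_smul, map_add, ρ.g_U, ρ.g_U, map_neg]

/-- `C(z₁) ⋯ C(z_k) w` -/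
noncomputable def sgaCL (z : List E) (w : H) : H := z.foldr (fun y v => sgaC ρ y v) w

lemma sgaCL_append (z z' : List E) (w : H) :
    sgaCL ρ (z ++ z') w = sgaCL ρ z (sgaCL ρ z' w) := by
  unfold sgaCL; rw [List.foldr_append]

lemma sgaCL_inner (z : List E) : ∀ w v : H, ⟪sgaCL ρ z w, v⟫_ℝ = ⟪w, sgaCL ρ z.reverse v⟫_ℝ := by
  induction z with
  | nil => intro w v; rfl
  | cons y z ih =>
    intro w v
    rw [List.reverse_cons, sgaCL_append, ← ih]
    show ⟪sgaC ρ y (sgaCL ρ z w), v⟫_ℝ = ⟪sgaCL ρ z w, sgaC ρ y v⟫_ℝ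
    exact sgaC_inner ρ _ _ _

lemma sgaCL_sg (ξ : H) (z : List E) : ∀ x : E,
    ⟪ρ.U x (sgaCL ρ z ξ), ξ⟫_ℝ = sg (fun x => ⟪ρ.U x ξ, ξ⟫_ℝ) z x := by
  induction z with
  | nil => intro x; rfl
  | cons y z ih =>
    intro x
    show ⟪ρ.U x (sgaC ρ y (sgaCL ρ z ξ)), ξ⟫_ℝ = (_ + _) / 2
    rw [← ih, ← ih]
    unfold sgaC
    rw [map_smul, map_add, real_inner_smul_left, inner_add_left, sub_eq_add_neg, ρ.U_add, ρ.U_add]
    ring

end

lemma sga_AL_mem {E H : Type} [NormedAddCommGroup E] [NormedSpace ℝ E] [NormedAddCommGroup H]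
    [InnerProductSpace ℝ H] [CompleteSpace H] (ρ : Rep E H) {ξ : H} (hξ : ξ ∈ ρ.Fix) :
    ∀ l : List E, ρ.AL l ξ ∈ ρ.Fix
  | [] => hξ
  | y :: l => ρ.P_mem _

theorem sga (h1 : S_mean) (h3 : S_com) : S_sga := by
  intro E H _ _ _ _ _ ρ hAT ξ hξ
  obtain ⟨c1, -, -, -⟩ := h3 E H ρ hAT
  have claim : ∀ (l z : List E) (m : ℝ),
      (∀ z' l' : List E, List.Forall₂ (fun a b => ‖a‖ = ‖b‖) z z' →
        List.Forall₂ (fun a b => ‖a‖ = ‖b‖) l l' →
        m ≤ sg (fun x => ⟪ρ.U x ξ, ξ⟫_ℝ) (z' ++ l') 0) →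
      m ≤ ⟪sgaCL ρ z (ρ.AL l ξ), ξ⟫_ℝ := by
    intro l
    induction l with
    | nil =>
      intro z m hm
      have h4 := hm z [] (List.forall₂_refl _) List.Forall₂.nil
      rw [List.append_nil, ← sgaCL_sg, ρ.U_zero] at h4
      exact h4
    | cons y l ih =>
      intro z m hm
      have hw := sga_AL_mem ρ hξ l
      set w := ρ.AL l ξ with hwdef
      have e1 : ρ.AL (y :: l) ξ = ρ.P (sgaC ρ y w) := by
        show ρ.P (ρ.U y w) = _
        unfold sgaC
        rw [map_smul, map_add, c1 (-y) y (norm_neg y) w hw, ← two_smul ℝ, smul_smul]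
        norm_num
      rw [e1, sgaCL_inner]
      have h5 := h1 E H ρ 1 ![sgaC ρ y w] ![sgaCL ρ z.reverse ξ] m (fun T => by
        simp only [Fin.sum_univ_one, Matrix.cons_val_zero, Matrix.cons_val_fin_one]
        rw [sgaC_g, hw T, ← sgaCL_inner]
        have e2 : sgaCL ρ z (sgaC ρ (T y) w) = sgaCL ρ (z ++ [T y]) w := by
          rw [sgaCL_append]; rfl
        rw [e2]
        apply ih (z ++ [T y]) m
        intro z' l' hz' hl'
        obtain ⟨z1, z2, h6, h7, rfl⟩ : ∃ z1 z2, List.Forall₂ (fun a b => ‖a‖ = ‖b‖) z z1 ∧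
            List.Forall₂ (fun a b => ‖a‖ = ‖b‖) [T y] z2 ∧ z' = z1 ++ z2 := by
          refine ⟨z'.take z.length, z'.drop z.length, ?_, ?_, (List.take_append_drop _ _).symm⟩
          · have := List.forall₂_take_append z' z [T y] hz'.flip
            exact this.flip
          · have := List.forall₂_drop_append z' z [T y] hz'.flip
            exact this.flip
        rcases h7 with _ | ⟨h8, h9⟩
        rcases h9 with _ | _
        rename_i y'
        rw [List.append_assoc]
        apply hm z1 ([y'] ++ l') h6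
        refine List.Forall₂.cons ?_ hl'
        rw [← h8, T.norm_map])
      simpa only [Fin.sum_univ_one, Matrix.cons_val_zero, Matrix.cons_val_fin_one] using h5
  intro l m hm
  have := claim l [] m (fun z' l' hz' hl' => by
    rw [List.forall₂_nil_left_iff] at hz'
    subst hz'
    exact hm l' hl')
  exact this

end Pool.Agent.Q101.Bm
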