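import Pool.Agent.Q101.BmS2

/-!
# Approximate coboundaries give small sign averages
-/

set_option autoImplicit false
set_option linter.unusedVariables false
set_option linter.unusedSectionVars false

namespace Pool.Agent.Q101.Bm

open MeasureTheory Filter Topology
open scoped BigOperators InnerProductSpace ENNReal

section coc

variable {E H : Type} [NormedAddCommGroup E] [NormedSpace ℝ E]
  [NormedAddCommGroup H] [InnerProductSpace ℝ H] (ρ : Rep E H) {β : E → H}

lemma coc_zero (h : ∀ x y, β (x + y) = β x + ρ.U x (β y)) : β 0 = 0 := by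
  have := h 0 0
  rw [add_zero, ρ.U_zero] at this
  exact left_eq_add.1 this

lemma coc_sub (h : ∀ x y, β (x + y) = β x + ρ.U x (β y)) (x y : E) :
    β x - β y = ρ.U y (β (x - y)) := by
  have := h y (x - y)
  rw [add_sub_cancel] at this
  rw [this, add_sub_cancel_left]

lemma coc_norm_sub (h : ∀ x y, β (x + y) = β x + ρ.U x (β y)) (x y : E) :
    ‖β x - β y‖ = ‖β (x - y)‖ := by
  rw [coc_sub ρ h, LinearIsometryEquiv.norm_map]

lemma coc_neg (h : ∀ x y, β (x + y) = β x + ρ.U x (β y)) (x : E) :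
    ρ.U (-x) (β x) = -β (-x) := by
  have := h (-x) x
  rw [neg_add_cancel, coc_zero ρ h] at this
  exact (eq_neg_of_add_eq_zero_right this.symm)

lemma coc_norm_neg (h : ∀ x y, β (x + y) = β x + ρ.U x (β y)) (x : E) :
    ‖β (-x)‖ = ‖β x‖ := by
  have := coc_neg ρ h x
  rw [← norm_neg (β (-x)), ← this, LinearIsometryEquiv.norm_map]

lemma coc_inner (h : ∀ x y, β (x + y) = β x + ρ.U x (β y)) (x y : E) :
    ⟪β x, β y⟫_ℝ = (‖β x‖ ^ 2 + ‖β y‖ ^ 2 - ‖β (x - y)‖ ^ 2) / 2 := by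
  rw [← coc_norm_sub ρ h, norm_sub_sq_real]; ring

lemma coc_quad (h : ∀ x y, β (x + y) = β x + ρ.U x (β y)) (x y : E) :
    ‖ρ.U x (β y) - β y‖ ^ 2 =
      2 * ‖β x‖ ^ 2 + 2 * ‖β y‖ ^ 2 - ‖β (x + y)‖ ^ 2 - ‖β (x - y)‖ ^ 2 := by
  have e1 : ρ.U x (β y) = β (x + y) - β x := by rw [h, add_sub_cancel_left]
  have h1 := coc_inner ρ h (x + y) y
  have h2 := coc_inner ρ h x y
  have h3 := coc_inner ρ h (x + y) x
  rw [add_sub_cancel_right] at h1
  rw [add_sub_cancel_left] at h3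
  have e2 : ‖ρ.U x (β y) - β y‖ ^ 2 = ‖ρ.U x (β y)‖ ^ 2 - 2 * ⟪ρ.U x (β y), β y⟫_ℝ + ‖β y‖ ^ 2 :=
    norm_sub_sq_real _ _
  rw [e2, LinearIsometryEquiv.norm_map, e1, inner_sub_left, h1, h2]
  ring

end coc

theorem sta (hrad : S_rad) : S_sta := by
  intro E H _ _ _ _ _ r A hAT hr happ δ hδ
  by_cases hun : ∃ e : E, ‖e‖ = 1
  swap
  · refine ⟨0, fun l hl => ?_⟩
    have : l = [] := by
      rcases l with _ | ⟨z, l⟩
      · rfl
      · exact absurd ⟨z, hl z List.mem_cons_self⟩ hun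
    subst this
    simp [sg, Real.zero_rpow hr.ne']
  obtain ⟨x₀, hx₀⟩ := hun
  obtain ⟨w, hw, hw'⟩ := happ x₀ hx₀ (Real.sqrt (δ / 2)) (Real.sqrt_pos.2 (by linarith))
  set β : E → H := fun x => A.b x - (A.U x w - w) with hβ
  have hβadd : ∀ x y, β (x + y) = β x + A.toRep.U x (β y) := by
    intro x y
    simp only [hβ]
    rw [A.b_add, A.U_add, map_sub, map_sub]
    abel
  have hbadd : ∀ x y, A.b (x + y) = A.b x + A.toRep.U x (A.b y) := A.b_add
  have hbc : Continuous A.b := by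
    rw [Metric.continuous_iff]
    intro y ε hε
    have h1 : Tendsto (fun x : E => ‖x - y‖ ^ r) (𝓝 y) (𝓝 0) := by
      have h2 : Tendsto (fun x : E => ‖x - y‖) (𝓝 y) (𝓝 0) := by
        have : Tendsto (fun x : E => ‖x - y‖) (𝓝 y) (𝓝 ‖y - y‖) :=
          (continuous_id.sub continuous_const).norm.tendsto y
        simpa using this
      have h3 := h2.rpow_const (p := r) (Or.inr hr.le)
      rwa [Real.zero_rpow hr.ne'] at h3
    have h4 := h1.eventually (gt_mem_nhds (pow_pos hε 2))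
    obtain ⟨η, hη, hη'⟩ := Metric.eventually_nhds_iff.1 h4
    refine ⟨η, hη, fun x hx => ?_⟩
    have h5 := hη' hx
    rw [← A.b_norm, ← coc_norm_sub A.toRep hbadd, ← dist_eq_norm] at h5
    exact lt_of_pow_lt_pow_left₀ 2 hε.le h5
  have hβc : Continuous β := by
    have := A.cont w
    fun_prop
  have hβg : ∀ (T : E ≃ₗᵢ[ℝ] E) x, β (T x) = A.g T (β x) := by
    intro T x
    simp only [hβ]
    rw [map_sub, map_sub, A.b_eqv, A.g_U, hw T]
  set ψ : E → ℝ := fun x => ‖β x‖ ^ 2 with hψ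
  have hψrad : ∀ x y, ‖x‖ = ‖y‖ → ψ x = ψ y := by
    refine hrad E hAT ψ (by fun_prop) ?_
    intro T x
    simp only [hψ]
    rw [hβg, LinearIsometryEquiv.norm_map]
  have hψ1 : ∀ z : E, ‖z‖ = 1 → ψ z ≤ δ / 2 := by
    intro z hz
    rw [hψrad z x₀ (by rw [hz, hx₀])]
    have : ‖β x₀‖ < Real.sqrt (δ / 2) := hw'
    calc ‖β x₀‖ ^ 2 ≤ (Real.sqrt (δ / 2)) ^ 2 := pow_le_pow_left₀ (norm_nonneg _) this.le 2
      _ = δ / 2 := Real.sq_sqrt (by linarith)
  have hψq : ∀ x y, ψ (x + y) + ψ (x - y) ≤ 2 * ψ x + 2 * ψ y := by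
    intro x y
    have := coc_quad A.toRep hβadd x y
    have h0 := sq_nonneg ‖A.toRep.U x (β y) - β y‖
    simp only [hψ]
    linarith
  have hsg : ∀ (l : List E) x, sg ψ l x ≤ ψ x + (l.map ψ).sum := by
    intro l
    induction l with
    | nil => intro x; simp [sg]
    | cons z l ih =>
      intro x
      have h1 := ih (x + z)
      have h2 := ih (x - z)
      have h3 := hψq x z
      simp only [sg, List.map_cons, List.sum_cons]
      linarith
  have hψ0 : ψ 0 = 0 := by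
    simp only [hψ]
    rw [coc_zero A.toRep hβadd]; simp
  have hpt : ∀ x : E, ‖x‖ ^ r ≤ 2 * ψ x + 8 * ‖w‖ ^ 2 := by
    intro x
    rw [← A.b_norm]
    have h1 : A.b x = β x + (A.U x w - w) := by simp [hβ]
    have h2 : ‖A.b x‖ ≤ ‖β x‖ + ‖A.U x w - w‖ := by rw [h1]; exact norm_add_le _ _
    have h3 : ‖A.U x w - w‖ ≤ 2 * ‖w‖ := by
      have := norm_sub_le (A.U x w) w
      rw [LinearIsometryEquiv.norm_map] at this
      linarith
    have h4 : ‖A.b x‖ ≤ ‖β x‖ + 2 * ‖w‖ := h2.trans (by linarith)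
    have h5 := pow_le_pow_left₀ (norm_nonneg _) h4 2
    simp only [hψ]
    nlinarith [sq_nonneg (‖β x‖ - 2 * ‖w‖)]
  have hmono : ∀ (l : List E) x, sg (fun x : E => ‖x‖ ^ r) l x ≤ 2 * sg ψ l x + 8 * ‖w‖ ^ 2 := by
    intro l
    induction l with
    | nil => intro x; simpa [sg] using hpt x
    | cons z l ih =>
      intro x
      have h1 := ih (x + z)
      have h2 := ih (x - z)
      simp only [sg]
      linarith
  refine ⟨8 * ‖w‖ ^ 2, fun l hl => ?_⟩
  have h1 := hmono l 0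
  have h2 := hsg l 0
  have h3 : (l.map ψ).sum ≤ l.length * (δ / 2) := by
    clear h1 h2
    induction l with
    | nil => simp
    | cons z l ih =>
      have h4 := ih (fun y hy => hl y (List.mem_cons_of_mem _ hy))
      have h5 := hψ1 z (hl z List.mem_cons_self)
      simp only [List.map_cons, List.sum_cons, List.length_cons]
      push_cast
      linarith
  rw [hψ0] at h2
  linarith

end Pool.Agent.Q101.Bm
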