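import Pool.Agent.Q101.BmS2

/-!
# Vectors of norm at most `2t` are sums of two vectors of norm `t`; no translation-fixed vectors
-/

set_option autoImplicit false
set_option linter.unusedVariables false
set_option linter.unusedSectionVars false

namespace Pool.Agent.Q101.Bm

open MeasureTheory Filter Topology
open scoped BigOperators InnerProductSpace ENNReal

theorem sum_two : S_sum := by
  intro E _ _ hrk x t ht hx
  have hconn : IsPreconnected (Metric.sphere (0 : E) t) := isPreconnected_sphere hrk 0 t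
  rcases eq_or_ne x 0 with rfl | hx0
  · have : Nontrivial E := by
      rw [← rank_pos_iff_nontrivial (R := ℝ)]
      exact lt_trans zero_lt_one hrk
    obtain ⟨u, hu⟩ := exists_ne (0 : E)
    have hun : 0 < ‖u‖ := norm_pos_iff.2 hu
    have h1 : ‖(t / ‖u‖) • u‖ = t := by
      rw [norm_smul, Real.norm_of_nonneg (by positivity)]; field_simp
    exact ⟨(t / ‖u‖) • u, -((t / ‖u‖) • u), h1, by rw [norm_neg, h1], by simp⟩
  · have hn : 0 < ‖x‖ := norm_pos_iff.2 hx0
    set a : E := (t / ‖x‖) • x with ha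
    have ha1 : ‖a‖ = t := by
      rw [ha, norm_smul, Real.norm_of_nonneg (by positivity)]; field_simp
    have h1 : ‖x - a‖ ≤ t := by
      have : x - a = (1 - t / ‖x‖) • x := by rw [sub_smul, one_smul]
      rw [this, norm_smul, Real.norm_eq_abs]
      have h2 : |1 - t / ‖x‖| * ‖x‖ = |‖x‖ - t| := by
        rw [← abs_of_pos hn, ← abs_mul, abs_of_pos hn]
        congr 1; field_simp
      rw [h2, abs_le]; constructor <;> linarith
    have h2 : t ≤ ‖x - -a‖ := by
      have : x - -a = (1 + t / ‖x‖) • x := by rw [add_smul, one_smul, sub_neg_eq_add]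
      rw [this, norm_smul, Real.norm_of_nonneg (by positivity)]
      have : (1 + t / ‖x‖) * ‖x‖ = ‖x‖ + t := by field_simp
      linarith
    have hc : ContinuousOn (fun u : E => ‖x - u‖) (Metric.sphere (0 : E) t) := by fun_prop
    have hm := hconn.intermediate_value (a := a) (b := -a) (by simp [ha1]) (by simp [ha1]) hc
    obtain ⟨u, hu, hu'⟩ := hm ⟨h1, h2⟩
    refine ⟨u, x - u, by simpa using hu, hu', by abel⟩

theorem nof : S_nof := by
  intro E H _ _ _ _ _ r A hr hr2 w hw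
  have hadd : ∀ x y, ⟪A.b (x + y), w⟫_ℝ = ⟪A.b x, w⟫_ℝ + ⟪A.b y, w⟫_ℝ := by
    intro x y
    rw [A.b_add, inner_add_left]
    congr 1
    have := A.toRep.inner_U x (A.b y) w
    rw [this, hw]
  have hnat : ∀ (n : ℕ) (x : E), ⟪A.b (n • x), w⟫_ℝ = n * ⟪A.b x, w⟫_ℝ := by
    intro n x
    induction n with
    | zero =>
      have h0 : ⟪A.b (0 : E), w⟫_ℝ = 0 := by
        have := hadd 0 0
        rw [add_zero] at this
        linarith
      simp [h0]
    | succ n ih =>
      rw [succ_nsmul, hadd, ih]; push_cast; ring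
  have hb : ∀ x, ‖A.b x‖ = ‖x‖ ^ (r / 2) := by
    intro x
    have h1 := A.b_norm x
    have h2 : (‖x‖ ^ (r / 2)) ^ 2 = ‖x‖ ^ r := by
      rw [← Real.rpow_natCast, ← Real.rpow_mul (norm_nonneg _)]
      congr 1; push_cast; ring
    rw [← h2] at h1
    exact (pow_left_inj₀ (norm_nonneg _) (by positivity) two_ne_zero).1 h1
  apply A.total
  intro x
  by_contra hne
  have hpos : 0 < |⟪A.b x, w⟫_ℝ| := abs_pos.2 hne
  have hbound : ∀ n : ℕ, (n : ℝ) ^ (1 - r / 2) * |⟪A.b x, w⟫_ℝ| ≤ ‖x‖ ^ (r / 2) * ‖w‖ := by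
    intro n
    rcases Nat.eq_zero_or_pos n with rfl | hn
    · have : (0:ℝ) ^ (1 - r / 2) = 0 := Real.zero_rpow (by linarith)
      rw [Nat.cast_zero, this, zero_mul]; positivity
    have hn' : (0:ℝ) < n := Nat.cast_pos.2 hn
    have h1 := abs_real_inner_le_norm (A.b (n • x)) w
    rw [hnat, hb, abs_mul, Nat.abs_cast, ← Nat.cast_smul_eq_nsmul ℝ, norm_smul,
      Real.norm_natCast, Real.mul_rpow hn'.le (norm_nonneg _)] at h1
    have h2 : (n:ℝ) = (n:ℝ) ^ (1 - r / 2) * (n:ℝ) ^ (r / 2) := by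
      rw [← Real.rpow_add hn']; simp
    have h3 : 0 < (n:ℝ) ^ (r / 2) := Real.rpow_pos_of_pos hn' _
    rw [h2] at h1
    have h4 : (n:ℝ) ^ (r / 2) * ((n:ℝ) ^ (1 - r / 2) * |⟪A.b x, w⟫_ℝ|) ≤
        (n:ℝ) ^ (r / 2) * (‖x‖ ^ (r / 2) * ‖w‖) := by
      have e : ((n:ℝ) ^ (1 - r / 2) * (n:ℝ) ^ (r / 2)) ^ (r / 2) = (n:ℝ) ^ (r / 2) := by
        rw [← h2]
      rw [e] at h1
      linarith
    exact le_of_mul_le_mul_left h4 h3
  have htend : Tendsto (fun n : ℕ => (n : ℝ) ^ (1 - r / 2) * |⟪A.b x, w⟫_ℝ|) atTop atTop :=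
    ((tendsto_rpow_atTop (by linarith)).comp tendsto_natCast_atTop_atTop).atTop_mul_const hpos
  obtain ⟨n, hn⟩ := (htend.eventually_gt_atTop (‖x‖ ^ (r / 2) * ‖w‖)).exists
  exact absurd (hbound n) (not_le.2 hn)

end Pool.Agent.Q101.Bm
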