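import Pool.Agent.Q101.BmSg

/-!
# Improved type
-/

set_option autoImplicit false
set_option linter.unusedVariables false
set_option linter.unusedSectionVars false

namespace Pool.Agent.Q101.Bm

section

variable {E : Type} [NormedAddCommGroup E] [NormedSpace ℝ E]

lemma typ_one : Ty2 E 1 1 := by
  intro l hl
  match l, hl with
  | [], _ => simp [sgl_nil]
  | [z], _ => simp [sgl_cons, sgl_nil]
  | a :: b :: l, hl => simp at hl

lemma typ_pow (h2 : S_sub) {N : ℕ} {a : ℝ} (ha : 0 ≤ a) (h : Ty2 E N a) (j : ℕ) :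
    Ty2 E (N ^ j) (a ^ j) := by
  induction j with
  | zero => rw [pow_zero, pow_zero]; exact typ_one
  | succ j ih =>
    rw [pow_succ, pow_succ]
    exact h2 E _ _ _ _ (pow_nonneg ha j) ha ih h

lemma typ_unit_sum (l : List E) (hl : ∀ z ∈ l, ‖z‖ = 1) :
    (l.map fun z => ‖z‖ ^ 2).sum = l.length := by
  induction l with
  | nil => simp
  | cons z l ih =>
    rw [List.map_cons, List.sum_cons, hl z List.mem_cons_self,
      ih fun w hw => hl w (List.mem_cons_of_mem _ hw), List.length_cons]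
    push_cast
    ring

end

theorem typ (h1 : S_bkt) (h2 : S_sub) : S_typ := by
  intro E _ _ r hr hr2 H
  have hr0 : 0 < r := by linarith
  by_cases hE : ∃ e : E, ‖e‖ = 1
  swap
  · refine ⟨r + 1, 1, by linarith, ?_⟩
    intro l hl
    match l, hl with
    | [], _ =>
      rw [sgl_nil, norm_zero, one_mul]
      exact Real.rpow_nonneg (by positivity) _
    | z :: l, hl => exact absurd ⟨z, hl z List.mem_cons_self⟩ hE
  obtain ⟨e, he⟩ := hE
  obtain ⟨M, hM, hT⟩ := h1 E r hr hr2 H
  set A : ℝ := ((2 : ℝ) ^ ((2 / r - 1) * M) / 2) ^ 2 with hA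
  have hA0 : 0 ≤ A := sq_nonneg _
  have hA1 : 1 ≤ A := by
    have := hT [e] (by simpa using Nat.one_le_pow _ _ (by norm_num))
    simpa [sgl_cons, sgl_nil, he] using this
  have hMpos : (0 : ℝ) < M := by exact_mod_cast hM
  set α : ℝ := 2 / r - 1 - 1 / M with hα
  have hAN : A = ((4 : ℝ) ^ M) ^ α := by
    have e1 : ((4 : ℝ) ^ M) = (2 : ℝ) ^ (2 * M : ℝ) := by
      rw [show (4 : ℝ) = 2 ^ (2 : ℝ) by norm_num, ← Real.rpow_natCast, ← Real.rpow_mul (by norm_num)]
    rw [e1, ← Real.rpow_mul (by norm_num), hA]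
    have e2 : (2 : ℝ) ^ ((2 / r - 1) * M) / 2 = (2 : ℝ) ^ ((2 / r - 1) * M - 1) := by
      rw [Real.rpow_sub (by norm_num), Real.rpow_one]
    rw [e2, ← Real.rpow_natCast, ← Real.rpow_mul (by norm_num)]
    congr 1
    rw [hα]
    push_cast
    field_simp
  have h4M : (1 : ℝ) < (4 : ℝ) ^ M := one_lt_pow₀ (by norm_num) (by omega)
  have hα0 : 0 ≤ α := by
    by_contra hcon
    push Not at hcon
    have : ((4 : ℝ) ^ M) ^ α < 1 := Real.rpow_lt_one_of_one_lt_of_neg h4M hcon
    linarith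
  have hq : 0 < (1 + α) / 2 := by linarith
  refine ⟨((1 + α) / 2)⁻¹, A, ?_, ?_⟩
  · rw [lt_inv_comm₀ hr0 hq]
    have : (1 + α) / 2 = r⁻¹ - 1 / (2 * M) := by
      rw [hα]; field_simp; ring
    rw [this]
    have : (0 : ℝ) < 1 / (2 * M) := by positivity
    linarith
  intro l hl
  rw [one_div, inv_inv]
  rcases Nat.eq_zero_or_pos l.length with h0 | hpos
  · have : l = [] := List.eq_nil_of_length_eq_zero h0
    subst this
    rw [sgl_nil, norm_zero]
    have : (0 : ℝ) ≤ (([] : List E).length : ℝ) ^ ((1 + α) / 2) :=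
      Real.rpow_nonneg (by positivity) _
    positivity
  set n := l.length with hn
  set N : ℕ := 4 ^ M with hN
  have hN1 : 1 < N := Nat.one_lt_pow (by omega) (by norm_num)
  set j := Nat.clog N n with hj
  have hnj : n ≤ N ^ j := Nat.le_pow_clog hN1 n
  have hnR : (1 : ℝ) ≤ n := by exact_mod_cast hpos
  have hAj : A ^ j ≤ A * (n : ℝ) ^ α := by
    rcases Nat.eq_zero_or_pos j with hj0 | hjpos
    · rw [hj0, pow_zero]
      have : (1 : ℝ) ≤ (n : ℝ) ^ α := Real.one_le_rpow hnR hα0
      nlinarith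
    · obtain ⟨i, hi⟩ : ∃ i, j = i + 1 := ⟨j - 1, by omega⟩
      have h3 : N ^ i < n := by
        have hn1 : 1 < n := by
          by_contra hcon
          have hn1 : n = 1 := by omega
          rw [hj, hn1, Nat.clog_one_right] at hjpos
          exact absurd hjpos (lt_irrefl _)
        have := Nat.pow_pred_clog_lt_self hN1 hn1
        rw [← hj, hi] at this
        simpa using this
      rw [hi, pow_succ, mul_comm]
      refine mul_le_mul_of_nonneg_left ?_ hA0
      have h4 : A ^ i = ((N ^ i : ℕ) : ℝ) ^ α := by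
        rw [hAN, hN]
        push_cast
        rw [← Real.rpow_natCast, ← Real.rpow_mul (by positivity), mul_comm,
          Real.rpow_mul (by positivity), Real.rpow_natCast]
      rw [h4]
      exact Real.rpow_le_rpow (by positivity) (by exact_mod_cast h3.le) hα0
  have h5 := typ_pow h2 hA0 hT j l hnj
  rw [typ_unit_sum l hl, ← hn] at h5
  have h6 : sg (fun x : E => ‖x‖) l 0 ^ 2 ≤ (A * (n : ℝ) ^ ((1 + α) / 2)) ^ 2 := by
    refine (sgl_sq_le _ l 0).trans (h5.trans ?_)
    have h7 : (A * (n : ℝ) ^ ((1 + α) / 2)) ^ 2 = A * (A * (n : ℝ) ^ α) * n := by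
      rw [mul_pow, ← Real.rpow_natCast ((n : ℝ) ^ ((1 + α) / 2)), ← Real.rpow_mul (by positivity)]
      have e1 : (1 + α) / 2 * ((2 : ℕ) : ℝ) = α + 1 := by push_cast; ring
      rw [e1, Real.rpow_add_one (by positivity)]
      ring
    rw [h7]
    refine mul_le_mul_of_nonneg_right ?_ (by positivity)
    have h8 : 0 ≤ A * (n : ℝ) ^ α := by positivity
    calc A ^ j ≤ A * (n : ℝ) ^ α := hAj
      _ ≤ _ := le_mul_of_one_le_left h8 hA1
  exact (abs_le_of_sq_le_sq' h6 (by positivity)).2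

end Pool.Agent.Q101.Bm
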