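import Pool.Agent.Q101.BmMain
import Pool.Agent.Q101.BmKer
import Pool.Agent.Q101.BmGram
import Pool.Agent.Q101.BmMean
import Pool.Agent.Q101.BmExp
import Pool.Agent.Q101.BmInt
import Pool.Agent.Q101.BmGns
import Pool.Agent.Q101.BmCom
import Pool.Agent.Q101.BmSga
import Pool.Agent.Q101.BmCon
import Pool.Agent.Q101.BmSum
import Pool.Agent.Q101.BmCsa
import Pool.Agent.Q101.BmCsb
import Pool.Agent.Q101.BmSta
import Pool.Agent.Q101.BmKah
import Pool.Agent.Q101.BmBkt
import Pool.Agent.Q101.BmSub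
import Pool.Agent.Q101.BmTyp
import Pool.Agent.Q101.BmKpa
import Pool.Agent.Q101.BmLow
import Pool.Agent.Q101.BmLp
import Pool.Agent.Q101.BmKpc
import Pool.Agent.Q101.BmEll
import Pool.Agent.H770R2.MazL9

/-!
# The dichotomy theorem for almost transitive norms
-/

set_option autoImplicit false
set_option linter.unusedVariables false
set_option linter.unusedSectionVars false

namespace Pool.Agent.Q101.Bm

open MeasureTheory Filter Topology
open scoped BigOperators InnerProductSpace ENNReal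

/-- A nonconstant continuous radial positive definite function. -/
def RadPD (E : Type) [NormedAddCommGroup E] : Prop :=
  ∃ F : E → ℝ, Continuous F ∧ PD F ∧ (∀ x y, ‖x‖ = ‖y‖ → F x = F y) ∧ F 0 = 1 ∧ ∃ x, F x < 1

theorem fin_main (E : Type) [NormedAddCommGroup E] [NormedSpace ℝ E] (hAT : AT E)
    (hF : RadPD E) :
    Par E ∨ ∃ r : ℝ, 1 ≤ r ∧ r < 2 ∧ CND (fun x : E => ‖x‖ ^ r) ∧
      (∀ β : ℝ, 0 < β → β ≤ 2 → CND (fun x : E => ‖x‖ ^ β) → β ≤ r) ∧ Asym E r ∧ Ell E r := by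
  obtain ⟨F, h1, h2, h3, h4, h5⟩ := hF
  by_cases hrk : 1 < Module.rank ℝ E
  · have hgns := gns ker gram
    have hcom := com mean rad
    rcases main_of hgns low (sga mean hcom) (con hcom sum_two) int_cnd (aff ker gram)
      (csb mean rad sum_two nof) (csa mean rad nof) (sta rad) (typ (bkt kah) sub) E hAT hrk F h1 h2
      h3 h4 h5 with h | ⟨r, hr1, hr2, hr3, hr4, hr5⟩
    · exact Or.inl h
    · refine Or.inr ⟨r, hr1, hr2, hr3, hr4, hr5, ?_⟩
      refine ell2 E r (by linarith) (asy2_of_asym ?_ hr5)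
      obtain ⟨x, hx⟩ := h5
      have hx0 : x ≠ 0 := by
        rintro rfl
        rw [h4] at hx
        exact lt_irrefl _ hx
      exact ⟨‖x‖⁻¹ • x, by
        rw [norm_smul, norm_inv, norm_norm, inv_mul_cancel₀ (norm_ne_zero_iff.2 hx0)]⟩
  · exact Or.inl ((par E).2 hrk)

theorem fin_type (E : Type) [NormedAddCommGroup E] [NormedSpace ℝ E] (hAT : AT E)
    (hF : RadPD E) (hTy : ∀ q : ℝ, 0 < q → q < 2 → ∃ C : ℝ, HasTy E q C) : Par E := by
  obtain ⟨F, h1, h2, h3, h4, h5⟩ := hF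
  have hcom := com mean rad
  exact type_of (gns ker gram) low (sga mean hcom) (con hcom sum_two) int_cnd E hAT F h1 h2 h3 h4
    h5 hTy

theorem fin_hilb (E : Type) [NormedAddCommGroup E] [NormedSpace ℝ E] [CompleteSpace E]
    (h : Par E) :
    ∃ (H : Type) (instH : NormedAddCommGroup H) (instI : InnerProductSpace ℝ H)
      (instC : CompleteSpace H), Nonempty (E ≃ₗᵢ[ℝ] H) :=
  ⟨E, inferInstance, InnerProductSpace.ofNorm ℝ h, inferInstance, ⟨LinearIsometryEquiv.refl ℝ E⟩⟩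

theorem fin_lp (E : Type) [NormedAddCommGroup E] [NormedSpace ℝ E] [CompleteSpace E] (hAT : AT E)
    (Ω : Type) [MeasurableSpace Ω] (μ : Measure Ω) (p : ℝ≥0∞) (hp0 : p ≠ 0) (hpt : p ≠ ∞)
    (J : E →ₗ[ℝ] Lp ℝ p μ) (hJ : ∀ u, ‖J u‖ = ‖u‖) :
    Par E ∨ ∃ r : ℝ, 1 ≤ r ∧ r ≠ 2 ∧ p.toReal ≤ r ∧ (2 < p → r = p.toReal) ∧
      (p ≤ 2 → r < 2 ∧ CND (fun x : E => ‖x‖ ^ r) ∧
        (∀ β : ℝ, 0 < β → β ≤ 2 → CND (fun x : E => ‖x‖ ^ β) → β ≤ r) ∧ Asym E r) ∧
      Ell E r := by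
  rcases le_or_gt p 2 with hp | hp
  · -- `p ≤ 2`
    have hpr : 0 < p.toReal := ENNReal.toReal_pos hp0 hpt
    have hpr2 : p.toReal ≤ 2 := by
      have := ENNReal.toReal_mono (by norm_num) hp
      simpa using this
    have hcnd := lp int_cnd E Ω μ p hp0 hp J hJ
    rcases subsingleton_or_nontrivial E with hE | hE
    · left
      intro x y
      rw [Subsingleton.elim x 0, Subsingleton.elim y 0]; simp
    obtain ⟨x, hx⟩ := exists_ne (0 : E)
    have hF : RadPD E := by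
      refine ⟨fun x => Real.exp (-(‖x‖ ^ p.toReal)), ?_, ?_, ?_, ?_, x, ?_⟩
      · exact Real.continuous_exp.comp ((continuous_norm.rpow_const fun _ => Or.inr hpr.le).neg)
      · exact exp_pd E _ hcnd (fun x => by simp) (by simp [Real.zero_rpow hpr.ne'])
      · intro x y hxy
        show Real.exp _ = Real.exp _
        rw [hxy]
      · simp [Real.zero_rpow hpr.ne']
      · have : 0 < ‖x‖ ^ p.toReal := Real.rpow_pos_of_pos (norm_pos_iff.2 hx) _
        show Real.exp (-(‖x‖ ^ p.toReal)) < 1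
        rw [Real.exp_lt_one_iff]
        linarith
    rcases fin_main E hAT hF with h | ⟨r, hr1, hr2, hr3, hr4, hr5, hr6⟩
    · exact Or.inl h
    · exact Or.inr ⟨r, hr1, hr2.ne, hr4 _ hpr hpr2 hcnd, fun h => absurd h (not_lt.2 hp),
        fun _ => ⟨hr2, hr3, hr4, hr5⟩, hr6⟩
  · -- `p > 2`
    have hP : 2 < p.toReal := by
      have := (ENNReal.toReal_lt_toReal (by norm_num) hpt).2 hp
      simpa using this
    rcases kp_of kpa kpc ell2 E Ω μ p hp hpt J hJ with ⟨H, i1, i2, i3, ⟨T⟩⟩ | h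
    · left
      have hct : ∀ x y : E, ‖x‖ = 1 → ‖y‖ = 1 →
          y ∈ closure (convexHull ℝ {z : E | ∃ T : E ≃ₗᵢ[ℝ] E, T x = z}) := by
        intro x y hx hy
        apply closure_mono (subset_convexHull ℝ _)
        rw [Metric.mem_closure_iff]
        intro ε hε
        obtain ⟨T, hT⟩ := hAT x y hx hy ε hε
        exact ⟨T x, ⟨T, rfl⟩, by rw [dist_comm, dist_eq_norm]; exact hT⟩
      obtain ⟨Φ, c, C, hc, hC, hbd, hinv⟩ := Pool.H770R2.MazL.exists_Phi hp0 hpt J hJ T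
      exact Pool.H770R2.MazL.paral_of_Phi Φ hc hC hbd hinv hct
    · exact Or.inr ⟨p.toReal, by linarith, hP.ne', le_rfl, fun _ => rfl,
        fun h' => absurd hp (not_lt.2 h'), h⟩

theorem fin_mt (E : Type) [NormedAddCommGroup E] [NormedSpace ℝ E] (K : Type)
    [NormedAddCommGroup K] [InnerProductSpace ℝ K] (f : E → K) (τ : ℝ → ℝ) (hf : Continuous f)
    (hτ : ∀ x y, ‖f x - f y‖ = τ ‖x - y‖) (hne : ∃ x y, f x ≠ f y) : RadPD E :=
  mt exp_pd E K f τ hf hτ hne

end Pool.Agent.Q101.Bm
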