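import Pool.Agent.Q101.BmA

/-!
# Assembly of the dichotomy theorem
-/

set_option autoImplicit false
set_option linter.unusedVariables false
set_option linter.unusedSectionVars false

namespace Pool.Agent.Q101.Bm

open MeasureTheory Filter Topology
open scoped BigOperators InnerProductSpace ENNReal

theorem pow_of (hgns : S_gns) (hlow : S_low) (hsga : S_sga) (hcon : S_con) (hint : S_int) :
    S_pow := by
  intro E _ _ hAT hrk F hFc hFpd hFr hF0 hne q C hq hTy α hα hαq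
  obtain ⟨x₀, hx₀⟩ := hne
  have hFneg : ∀ x, F (-x) = F x := fun x => hFr _ _ (norm_neg x)
  have hFinv : ∀ (T : E ≃ₗᵢ[ℝ] E) x, F (T x) = F x := fun T x => hFr _ _ (T.norm_map x)
  obtain ⟨H, i1, i2, i3, ρ, ξ, hξ, hξF⟩ := hgns E F hFc hFpd hFneg hFinv
  have hξ1 : ‖ξ‖ = 1 := by
    have h1 := hξ 0
    rw [ρ.U_zero, hF0, real_inner_self_eq_norm_sq] at h1
    have h2 : ‖ξ‖ ^ 2 = 1 ^ 2 := by rw [h1]; norm_num
    exact (pow_left_inj₀ (norm_nonneg _) zero_le_one two_ne_zero).1 h2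
  have hx0 : x₀ ≠ 0 := by
    rintro rfl
    rw [hF0] at hx₀
    exact lt_irrefl _ hx₀
  have hn0 : 0 < ‖x₀‖ := norm_pos_iff.2 hx0
  set e : E := ‖x₀‖⁻¹ • x₀ with he
  have he1 : ‖e‖ = 1 := by
    rw [he, norm_smul, norm_inv, norm_norm, inv_mul_cancel₀ hn0.ne']
  set δ : ℝ := ((1 - F x₀) / 8) ^ 2 / 2 with hδ
  have hgap : 0 < 1 - F x₀ := by linarith
  have hδ0 : 0 < δ := by rw [hδ]; positivity
  have hsq : Real.sqrt (2 * δ) = (1 - F x₀) / 8 := by
    have : 2 * δ = ((1 - F x₀) / 8) ^ 2 := by rw [hδ]; ring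
    rw [this, Real.sqrt_sq (by positivity)]
  set q' : ℝ := (α + q) / 2 with hq'
  have hq'1 : α < q' := by rw [hq']; linarith
  have hq'2 : q' < q := by rw [hq']; linarith
  have hq'0 : 0 < q' := hα.trans hq'1
  have hFm : ∀ x, -1 ≤ F x := by
    intro x
    have h1 := abs_real_inner_le_norm (ρ.U x ξ) ξ
    rw [LinearIsometryEquiv.norm_map, hξ1, hξ, one_mul] at h1
    exact (abs_le.1 h1).1
  obtain ⟨s, hs, hs'⟩ := hlow E F e q q' C δ hFc hF0 hFm hTy hq'0 hq'2 he1 hδ0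
  have hK : ∀ K : ℕ, 1 - δ ≤ ⟪ρ.AL (bigL e q' s K) ξ, ξ⟫_ℝ := by
    intro K
    refine hsga E H ρ hAT ξ hξF (bigL e q' s K) (1 - δ) ?_
    intro l' hl'
    have : (fun x => ⟪ρ.U x ξ, ξ⟫_ℝ) = F := funext hξ
    rw [this]
    exact hs' K l' hl'
  obtain ⟨f, hf1, hf2, hf3, ⟨C', hf4⟩, hf5⟩ :=
    hcon E H ρ ξ e q' s δ hAT hrk hξF hξ1 he1 hq'0 hs hδ0 hK
  refine hint E f q' C' hq'0 hf2 hf1 hf3 hf4 ⟨x₀, ?_⟩ α hα hq'1
  have a1 := abs_le.1 (hf5 x₀)
  have a2 := abs_le.1 (hf5 0)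
  rw [hξ, hsq] at a1 a2
  rw [hF0] at a2
  linarith [a1.2, a2.1]

theorem hasTy_one (E : Type) [NormedAddCommGroup E] : HasTy E 1 1 := by
  have key : ∀ (l : List E), (∀ z ∈ l, ‖z‖ = 1) → ∀ x : E,
      sg (fun x : E => ‖x‖) l x ≤ ‖x‖ + l.length := by
    intro l
    induction l with
    | nil => intro _ x; simp [sg]
    | cons z l ih =>
      intro hl x
      have h1 := ih (fun w hw => hl w (List.mem_cons_of_mem _ hw)) (x + z)
      have h2 := ih (fun w hw => hl w (List.mem_cons_of_mem _ hw)) (x - z)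
      have h3 := norm_add_le x z
      have h4 := norm_sub_le x z
      have h5 := hl z List.mem_cons_self
      simp only [sg, List.length_cons, Nat.cast_add, Nat.cast_one]
      linarith
  intro l hl
  have := key l hl 0
  rw [norm_zero, zero_add] at this
  simpa using this

/-- The main dichotomy. -/
theorem main_of (hgns : S_gns) (hlow : S_low) (hsga : S_sga) (hcon : S_con) (hint : S_int)
    (haff : S_aff) (hcsb : S_csb) (hcsa : S_csa) (hsta : S_sta) (htyp : S_typ)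
    (E : Type) [NormedAddCommGroup E] [NormedSpace ℝ E] (hAT : AT E)
    (hrk : 1 < Module.rank ℝ E) (F : E → ℝ) (hFc : Continuous F) (hFpd : PD F)
    (hFr : ∀ x y, ‖x‖ = ‖y‖ → F x = F y) (hF0 : F 0 = 1) (hne : ∃ x, F x < 1) :
    Par E ∨ ∃ r : ℝ, 1 ≤ r ∧ r < 2 ∧ CND (fun x : E => ‖x‖ ^ r) ∧
      (∀ β : ℝ, 0 < β → β ≤ 2 → CND (fun x : E => ‖x‖ ^ β) → β ≤ r) ∧ Asym E r := by
  have hpow := pow_of hgns hlow hsga hcon hint E hAT hrk F hFc hFpd hFr hF0 hne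
  set Λ : Set ℝ := {α | 0 < α ∧ α ≤ 2 ∧ CND (fun x : E => ‖x‖ ^ α)} with hΛ
  have hlt : ∀ α : ℝ, 0 < α → α < 1 → α ∈ Λ := by
    intro α h0 h1
    exact ⟨h0, by linarith, hpow 1 1 one_pos (hasTy_one E) α h0 h1⟩
  have hbd : BddAbove Λ := ⟨2, fun α hα => hα.2.1⟩
  have hnon : Λ.Nonempty := ⟨1 / 2, hlt _ (by norm_num) (by norm_num)⟩
  set r : ℝ := sSup Λ with hr
  have hr1 : 1 ≤ r := by
    by_contra hcon'
    push Not at hcon'
    have h0 : 1 / 2 ≤ r := le_csSup hbd (hlt _ (by norm_num) (by norm_num))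
    have h1 : (r + 1) / 2 ≤ r := le_csSup hbd (hlt _ (by linarith) (by linarith))
    linarith
  have hr2 : r ≤ 2 := csSup_le hnon fun α hα => hα.2.1
  have hrc : CND (fun x : E => ‖x‖ ^ r) := by
    refine lim E r (by linarith) ?_
    intro ε hε
    obtain ⟨β, hβ, hβ'⟩ := exists_lt_of_lt_csSup hnon (show r - ε < sSup Λ by rw [← hr]; linarith)
    have hβ2 : β ≤ r := le_csSup hbd hβ
    exact ⟨β, hβ.1, by rw [abs_lt]; constructor <;> linarith, hβ.2.2⟩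
  rcases hr2.lt_or_eq with hr2 | hr2
  · right
    refine ⟨r, hr1, hr2, hrc, fun β h0 h2 hβ => le_csSup hbd ⟨h0, h2, hβ⟩, ?_⟩
    obtain ⟨H, i1, i2, i3, ⟨A⟩⟩ := haff E r (by linarith) hrc
    by_contra hAs
    have hM : ∀ x, A.b x ∈ A.toRep.M := by
      by_contra hM
      push Not at hM
      exact hAs (hcsa E H r A hAT (by linarith) hr2 hM)
    have h1 := hcsb E H r A hAT hrk (by linarith) hr2 hM
    have h2 := hsta E H r A hAT (by linarith) h1
    obtain ⟨q, C, hq, hTy⟩ := htyp E r hr1 hr2 h2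
    have hm : r < min q 2 := lt_min hq hr2
    set α : ℝ := (r + min q 2) / 2 with hα
    have hα1 : r < α := by rw [hα]; linarith
    have hα2 : α < min q 2 := by rw [hα]; linarith
    have h3 := hpow q C (by linarith) hTy α (by linarith) (hα2.trans_le (min_le_left _ _))
    have h4 : α ≤ r := le_csSup hbd ⟨by linarith, (hα2.le.trans (min_le_right _ _)), h3⟩
    linarith
  · left
    rw [hr2] at hrc
    exact (par E).1 hrc

/-- Type `q` for all `q < 2` and a nonconstant radial positive definite function. -/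
theorem type_of (hgns : S_gns) (hlow : S_low) (hsga : S_sga) (hcon : S_con) (hint : S_int)
    (E : Type) [NormedAddCommGroup E] [NormedSpace ℝ E] (hAT : AT E)
    (F : E → ℝ) (hFc : Continuous F) (hFpd : PD F)
    (hFr : ∀ x y, ‖x‖ = ‖y‖ → F x = F y) (hF0 : F 0 = 1) (hne : ∃ x, F x < 1)
    (hTy : ∀ q : ℝ, 0 < q → q < 2 → ∃ C : ℝ, HasTy E q C) : Par E := by
  by_cases hrk : 1 < Module.rank ℝ E
  · refine (par E).1 (lim E 2 two_pos ?_)
    intro ε hε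
    set m : ℝ := min ε 1 with hm
    have hm0 : 0 < m := lt_min hε one_pos
    have hm1 : m ≤ 1 := min_le_right _ _
    have hm2 : m ≤ ε := min_le_left _ _
    obtain ⟨C, hC⟩ := hTy (2 - m / 4) (by linarith) (by linarith)
    refine ⟨2 - m / 2, by linarith, ?_, ?_⟩
    · rw [abs_lt]; constructor <;> linarith
    · exact pow_of hgns hlow hsga hcon hint E hAT hrk F hFc hFpd hFr hF0 hne _ C (by linarith) hC
        _ (by linarith) (by linarith)
  · exact (par E).2 hrk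

theorem asy2_of_asym {E : Type} [NormedAddCommGroup E] [NormedSpace ℝ E] {r : ℝ}
    (he : ∃ e : E, ‖e‖ = 1) (h : Asym E r) : Asy2 E r := by
  obtain ⟨e, he⟩ := he
  intro n x ε hε
  obtain ⟨T, hT⟩ := h n x (fun _ => e) ε hε
  refine ⟨T e, by rw [T.norm_map, he], fun i => ?_⟩
  have := hT i
  rw [he, Real.one_rpow] at this
  exact this

theorem kp_of (h1 : S_kpa) (h2 : S_kpc) (h3 : S_ell2) : S_kp := by
  intro E _ _ _ Ω _ μ p hp hpt J hJ
  by_cases hc : ∃ (n : ℕ) (x : Fin n → E) (c : ℝ), 0 < c ∧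
      ∀ w : E, c * ‖w‖ ^ 2 ≤ ∑ i, ∫ ω, |J (x i) ω| ^ (p.toReal - 2) * (J w ω) ^ 2 ∂μ
  · obtain ⟨n, x, c, hc, hc'⟩ := hc
    exact Or.inl (h1 E Ω μ p hp hpt J hJ n x c hc hc')
  · right
    push Not at hc
    have hp0 : 0 < p.toReal := ENNReal.toReal_pos (by rintro rfl; simp at hp) hpt
    refine h3 E p.toReal hp0 ?_
    intro n x ε hε
    choose δ hδ hδ' using fun i => h2 E Ω μ p hp hpt J hJ (x i) ε hε
    obtain ⟨m, hm0, hm⟩ : ∃ m : ℝ, 0 < m ∧ ∀ i, m ≤ δ i := by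
      rcases Nat.eq_zero_or_pos n with rfl | hn
      · exact ⟨1, one_pos, fun i => i.elim0⟩
      · have : Nonempty (Fin n) := ⟨⟨0, hn⟩⟩
        obtain ⟨i₀, hi₀⟩ := Finite.exists_min δ
        exact ⟨δ i₀, hδ i₀, hi₀⟩
    obtain ⟨w, hw⟩ := hc n x m hm0
    have hw0 : w ≠ 0 := by
      rintro rfl
      have h0 : m * ‖(0 : E)‖ ^ 2 = 0 := by rw [norm_zero]; ring
      rw [h0] at hw
      have : 0 ≤ ∑ i, ∫ ω, |J (x i) ω| ^ (p.toReal - 2) * (J (0 : E) ω) ^ 2 ∂μ :=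
        Finset.sum_nonneg fun i _ => integral_nonneg fun ω => by positivity
      linarith
    have hwn : 0 < ‖w‖ := norm_pos_iff.2 hw0
    refine ⟨‖w‖⁻¹ • w, by rw [norm_smul, norm_inv, norm_norm, inv_mul_cancel₀ hwn.ne'], ?_⟩
    intro i
    apply hδ'
    · rw [norm_smul, norm_inv, norm_norm, inv_mul_cancel₀ hwn.ne']
    · have e1 : ∫ ω, |J (x i) ω| ^ (p.toReal - 2) * (J (‖w‖⁻¹ • w) ω) ^ 2 ∂μ =
          (‖w‖⁻¹) ^ 2 * ∫ ω, |J (x i) ω| ^ (p.toReal - 2) * (J w ω) ^ 2 ∂μ := by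
        rw [← integral_const_mul]
        apply integral_congr_ae
        have h4 : (J (‖w‖⁻¹ • w) : Ω → ℝ) =ᵐ[μ] ‖w‖⁻¹ • (J w : Ω → ℝ) := by
          rw [map_smul]
          exact Lp.coeFn_smul _ _
        filter_upwards [h4] with ω hω
        rw [hω, Pi.smul_apply, smul_eq_mul]
        ring
      rw [e1]
      have h5 : ∫ ω, |J (x i) ω| ^ (p.toReal - 2) * (J w ω) ^ 2 ∂μ ≤
          ∑ i, ∫ ω, |J (x i) ω| ^ (p.toReal - 2) * (J w ω) ^ 2 ∂μ :=
        Finset.single_le_sum (f := fun i => ∫ ω, |J (x i) ω| ^ (p.toReal - 2) * (J w ω) ^ 2 ∂μ)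
          (fun i _ => integral_nonneg fun ω => by positivity) (Finset.mem_univ i)
      have h6 : ∫ ω, |J (x i) ω| ^ (p.toReal - 2) * (J w ω) ^ 2 ∂μ < m * ‖w‖ ^ 2 :=
        h5.trans_lt hw
      calc (‖w‖⁻¹) ^ 2 * ∫ ω, |J (x i) ω| ^ (p.toReal - 2) * (J w ω) ^ 2 ∂μ
          < (‖w‖⁻¹) ^ 2 * (m * ‖w‖ ^ 2) := mul_lt_mul_of_pos_left h6 (by positivity)
        _ = m := by field_simp
        _ ≤ δ i := hm i

end Pool.Agent.Q101.Bm
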