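import Mathlib

/-!
# Almost transitive norms and radial positive definite functions: definitions and statements

Statements (`S_...`) used for the dichotomy theorem on almost transitive Banach spaces inside `L_p`.
-/

set_option autoImplicit false
set_option linter.unusedVariables false
set_option linter.unusedSectionVars false

namespace Pool.Agent.Q101.Bm

open MeasureTheory Filter Topology
open scoped BigOperators InnerProductSpace ENNReal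

/-- The linear isometry group of `E` has dense orbits on the unit sphere. -/
def AT (E : Type) [NormedAddCommGroup E] [NormedSpace ℝ E] : Prop :=
  ∀ x y : E, ‖x‖ = 1 → ‖y‖ = 1 → ∀ ε : ℝ, 0 < ε → ∃ T : E ≃ₗᵢ[ℝ] E, ‖T x - y‖ < ε

/-- Positive definite real functions on a commutative group. -/
def PD {X : Type} [AddCommGroup X] (F : X → ℝ) : Prop :=
  ∀ (n : ℕ) (x : Fin n → X) (c : Fin n → ℝ), 0 ≤ ∑ i, ∑ j, c i * c j * F (x i - x j)

/-- Conditionally negative definite real functions (functions of negative type). -/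
def CND {X : Type} [AddCommGroup X] (ψ : X → ℝ) : Prop :=
  ∀ (n : ℕ) (x : Fin n → X) (c : Fin n → ℝ), ∑ i, c i = 0 →
    ∑ i, ∑ j, c i * c j * ψ (x i - x j) ≤ 0

/-- The mean of `φ (x ± z₁ ± ⋯ ± zₙ)` over all choices of signs. -/
noncomputable def sg {X : Type} [AddCommGroup X] (φ : X → ℝ) : List X → X → ℝ
  | [], x => φ x
  | z :: l, x => (sg φ l (x + z) + sg φ l (x - z)) / 2

/-- Equal norm type `q` with constant `C`. -/
def HasTy (E : Type) [NormedAddCommGroup E] (q C : ℝ) : Prop :=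
  ∀ l : List E, (∀ z ∈ l, ‖z‖ = 1) →
    sg (fun x : E => ‖x‖) l 0 ≤ C * (l.length : ℝ) ^ (1 / q)

/-- Isometries send `y` asymptotically `ℓ_r`-far away. -/
def Asym (E : Type) [NormedAddCommGroup E] [NormedSpace ℝ E] (r : ℝ) : Prop :=
  ∀ (n : ℕ) (x y : Fin n → E) (ε : ℝ), 0 < ε → ∃ T : E ≃ₗᵢ[ℝ] E,
    ∀ i, |‖x i + T (y i)‖ ^ r - ‖x i‖ ^ r - ‖y i‖ ^ r| < ε

/-- `E` contains almost isometric copies of `ℓ_r`. -/
def Ell (E : Type) [NormedAddCommGroup E] [NormedSpace ℝ E] (r : ℝ) : Prop :=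
  ∀ ε : ℝ, 0 < ε → ∃ x : ℕ → E, ∀ (s : Finset ℕ) (a : ℕ → ℝ),
    (1 - ε) * ∑ i ∈ s, |a i| ^ r ≤ ‖∑ i ∈ s, a i • x i‖ ^ r ∧
      ‖∑ i ∈ s, a i • x i‖ ^ r ≤ (1 + ε) * ∑ i ∈ s, |a i| ^ r

/-- The norm of `E` satisfies the parallelogram identity. -/
def Par (E : Type) [NormedAddCommGroup E] : Prop :=
  ∀ x y : E, ‖x + y‖ * ‖x + y‖ + ‖x - y‖ * ‖x - y‖ = 2 * (‖x‖ * ‖x‖ + ‖y‖ * ‖y‖)

/-- An orthogonal representation of `E ⋊ Iso(E)`. -/
structure Rep (E H : Type) [NormedAddCommGroup E] [NormedSpace ℝ E]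
    [NormedAddCommGroup H] [InnerProductSpace ℝ H] where
  /-- translations -/
  U : E → H ≃ₗᵢ[ℝ] H
  /-- linear isometries -/
  g : (E ≃ₗᵢ[ℝ] E) → H ≃ₗᵢ[ℝ] H
  U_zero : ∀ v, U 0 v = v
  U_add : ∀ x y v, U (x + y) v = U x (U y v)
  g_one : ∀ v, g 1 v = v
  g_mul : ∀ S T v, g (S * T) v = g S (g T v)
  g_U : ∀ T x v, g T (U x v) = U (T x) (g T v)
  cont : ∀ v, Continuous fun x => U x v

section rep

variable {E H : Type} [NormedAddCommGroup E] [NormedSpace ℝ E]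
  [NormedAddCommGroup H] [InnerProductSpace ℝ H] (ρ : Rep E H)

lemma Rep.U_neg_U (x : E) (v : H) : ρ.U (-x) (ρ.U x v) = v := by
  rw [← ρ.U_add, neg_add_cancel, ρ.U_zero]

lemma Rep.U_U_neg (x : E) (v : H) : ρ.U x (ρ.U (-x) v) = v := by
  rw [← ρ.U_add, add_neg_cancel, ρ.U_zero]

lemma Rep.inner_U (x : E) (u v : H) : ⟪ρ.U x u, v⟫_ℝ = ⟪u, ρ.U (-x) v⟫_ℝ := by
  rw [← (ρ.U (-x)).inner_map_map (ρ.U x u) v, ρ.U_neg_U]

lemma Rep.U_comm (x y : E) (v : H) : ρ.U x (ρ.U y v) = ρ.U y (ρ.U x v) := by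
  rw [← ρ.U_add, ← ρ.U_add, add_comm]

lemma Rep.g_inv_g (T : E ≃ₗᵢ[ℝ] E) (v : H) : ρ.g T⁻¹ (ρ.g T v) = v := by
  rw [← ρ.g_mul, inv_mul_cancel, ρ.g_one]

lemma Rep.g_g_inv (T : E ≃ₗᵢ[ℝ] E) (v : H) : ρ.g T (ρ.g T⁻¹ v) = v := by
  rw [← ρ.g_mul, mul_inv_cancel, ρ.g_one]

lemma Rep.inner_g (T : E ≃ₗᵢ[ℝ] E) (u v : H) : ⟪ρ.g T u, v⟫_ℝ = ⟪u, ρ.g T⁻¹ v⟫_ℝ := by
  rw [← (ρ.g T⁻¹).inner_map_map (ρ.g T u) v, ρ.g_inv_g]

/-- The vectors fixed by all linear isometries. -/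
def Rep.Fix : Submodule ℝ H where
  carrier := {v | ∀ T, ρ.g T v = v}
  add_mem' := by
    intro a b ha hb T
    rw [map_add, ha T, hb T]
  zero_mem' := by
    intro T
    rw [map_zero]
  smul_mem' := by
    intro c v hv T
    rw [map_smul, hv T]

lemma Rep.mem_Fix {v : H} : v ∈ ρ.Fix ↔ ∀ T, ρ.g T v = v := Iff.rfl

lemma Rep.isClosed_Fix : IsClosed (ρ.Fix : Set H) := by
  have : (ρ.Fix : Set H) = ⋂ T, {v | ρ.g T v = v} := by
    ext v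
    simp [Rep.mem_Fix]
  rw [this]
  exact isClosed_iInter fun T => isClosed_eq (ρ.g T).continuous continuous_id

/-- The closed span of the `E`-translates of the fixed vectors. -/
def Rep.M : Submodule ℝ H :=
  (Submodule.span ℝ {v | ∃ x : E, ∃ u ∈ ρ.Fix, v = ρ.U x u}).topologicalClosure

variable [CompleteSpace H]

instance Rep.instProjFix : ρ.Fix.HasOrthogonalProjection := by
  have : CompleteSpace ρ.Fix := ρ.isClosed_Fix.completeSpace_coe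
  infer_instance

/-- The orthogonal projection onto the vectors fixed by all linear isometries. -/
noncomputable def Rep.P : H →L[ℝ] H := ρ.Fix.starProjection

lemma Rep.P_mem (v : H) : ρ.P v ∈ ρ.Fix := Submodule.starProjection_apply_mem _ _

lemma Rep.g_P (T : E ≃ₗᵢ[ℝ] E) (v : H) : ρ.g T (ρ.P v) = ρ.P v := ρ.P_mem v T

lemma Rep.P_of_mem {v : H} (hv : v ∈ ρ.Fix) : ρ.P v = v :=
  Submodule.starProjection_eq_self_iff.2 hv

lemma Rep.inner_P_left {v w : H} (hw : w ∈ ρ.Fix) : ⟪ρ.P v, w⟫_ℝ = ⟪v, w⟫_ℝ := by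
  have := Submodule.starProjection_inner_eq_zero (K := ρ.Fix) v w hw
  rw [inner_sub_left, sub_eq_zero] at this
  exact this.symm

lemma Rep.inner_P_right {v w : H} (hv : v ∈ ρ.Fix) : ⟪v, ρ.P w⟫_ℝ = ⟪v, w⟫_ℝ := by
  rw [real_inner_comm, ρ.inner_P_left hv, real_inner_comm]

lemma Rep.norm_P_le (v : H) : ‖ρ.P v‖ ≤ ‖v‖ := Submodule.norm_starProjection_apply_le _ v

/-- `A_{y₁} ⋯ A_{yₙ} u` with `A_y = P U(y)`. -/
noncomputable def Rep.AL : List E → H → H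
  | [], u => u
  | y :: l, u => ρ.P (ρ.U y (Rep.AL l u))

end rep

/-- A cocycle `b` for a representation of `E ⋊ Iso(E)` with `‖b x‖² = ‖x‖ʳ`, together with the
dilations. -/
structure Aff (E H : Type) [NormedAddCommGroup E] [NormedSpace ℝ E]
    [NormedAddCommGroup H] [InnerProductSpace ℝ H] (r : ℝ) extends Rep E H where
  /-- the cocycle -/
  b : E → H
  b_add : ∀ x y, b (x + y) = b x + U x (b y)
  b_eqv : ∀ T x, g T (b x) = b (T x)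
  b_norm : ∀ x, ‖b x‖ ^ 2 = ‖x‖ ^ r
  total : ∀ w : H, (∀ x, ⟪b x, w⟫_ℝ = 0) → w = 0
  dil : ∀ t : ℝ, 0 < t → ∃ D : H ≃ₗᵢ[ℝ] H, (∀ x, D (b x) = (t ^ (-(r / 2))) • b (t • x)) ∧
    (∀ x v, D (U x v) = U (t • x) (D v)) ∧ (∀ T v, D (g T v) = g T (D v))

/-- `2 ^ (-k) * s` -/
noncomputable def sc (s : ℝ) (k : ℕ) : ℝ := (2 : ℝ) ^ (-(k : ℝ)) * s

/-- the multiplicities `⌈2 ^ (k q')⌉` -/
noncomputable def mm (q' : ℝ) (k : ℕ) : ℕ := ⌈(2 : ℝ) ^ ((k : ℝ) * q')⌉₊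

/-- The list with `mm q' k` copies of `2 ^ (-k) s e`, `1 ≤ k ≤ K`. -/
noncomputable def bigL {E : Type} [AddCommGroup E] [Module ℝ E] (e : E) (q' s : ℝ) : ℕ → List E
  | 0 => []
  | K + 1 => List.replicate (mm q' (K + 1)) (sc s (K + 1) • e) ++ bigL e q' s K

/-! ### Kernels -/

/-- KER: Hilbert space of a positive semidefinite kernel. -/
def S_ker : Prop :=
  ∀ (X : Type) (K : X → X → ℝ), (∀ x y, K x y = K y x) →
    (∀ (n : ℕ) (x : Fin n → X) (c : Fin n → ℝ), 0 ≤ ∑ i, ∑ j, c i * c j * K (x i) (x j)) →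
    ∃ (H : Type) (_ : NormedAddCommGroup H) (_ : InnerProductSpace ℝ H) (_ : CompleteSpace H)
      (δ : X → H), (∀ x y, ⟪δ x, δ y⟫_ℝ = K x y) ∧ (∀ w : H, (∀ x, ⟪δ x, w⟫_ℝ = 0) → w = 0)

/-- GRAM: equal Gram matrices of total families give an isometry. -/
def S_gram : Prop :=
  ∀ (X H : Type) [NormedAddCommGroup H] [InnerProductSpace ℝ H] [CompleteSpace H]
    (v w : X → H), (∀ x y, ⟪v x, v y⟫_ℝ = ⟪w x, w y⟫_ℝ) →
    (∀ h : H, (∀ x, ⟪v x, h⟫_ℝ = 0) → h = 0) → (∀ h : H, (∀ x, ⟪w x, h⟫_ℝ = 0) → h = 0) →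
    ∃ W : H ≃ₗᵢ[ℝ] H, ∀ x, W (v x) = w x

/-- GNS: the representation of a continuous positive definite function invariant under the linear
isometries. -/
def S_gns : Prop :=
  ∀ (E : Type) [NormedAddCommGroup E] [NormedSpace ℝ E] (F : E → ℝ),
    Continuous F → PD F → (∀ x, F (-x) = F x) → (∀ (T : E ≃ₗᵢ[ℝ] E) x, F (T x) = F x) →
    ∃ (H : Type) (_ : NormedAddCommGroup H) (_ : InnerProductSpace ℝ H) (_ : CompleteSpace H)
      (ρ : Rep E H) (ξ : H), (∀ x, ⟪ρ.U x ξ, ξ⟫_ℝ = F x) ∧ ξ ∈ ρ.Fix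

/-- AFF: the affine representation of the norm to a power of negative type. -/
def S_aff : Prop :=
  ∀ (E : Type) [NormedAddCommGroup E] [NormedSpace ℝ E] (r : ℝ), 0 < r →
    CND (fun x : E => ‖x‖ ^ r) →
    ∃ (H : Type) (_ : NormedAddCommGroup H) (_ : InnerProductSpace ℝ H) (_ : CompleteSpace H),
      Nonempty (Aff E H r)

/-- EXP: Schoenberg, `exp (-ψ)`. -/
def S_exp : Prop :=
  ∀ (X : Type) [AddCommGroup X] (ψ : X → ℝ), CND ψ → (∀ x, ψ (-x) = ψ x) → ψ 0 = 0 →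
    PD (fun x => Real.exp (-ψ x))

/-- INT: a radial positive definite function which is `O(‖x‖^q)`-close to `f 0` at the origin
makes all the lower powers of the norm functions of negative type. -/
def S_int : Prop :=
  ∀ (E : Type) [NormedAddCommGroup E] [NormedSpace ℝ E] (f : E → ℝ) (q C : ℝ), 0 < q →
    Continuous f → PD f → (∀ x y, ‖x‖ = ‖y‖ → f x = f y) → (∀ x, f 0 - f x ≤ C * ‖x‖ ^ q) →
    (∃ x, f x < f 0) → ∀ α : ℝ, 0 < α → α < q → CND (fun x : E => ‖x‖ ^ α)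

/-- LIM: closedness of the set of exponents. -/
def S_lim : Prop :=
  ∀ (E : Type) [NormedAddCommGroup E] (α : ℝ), 0 < α →
    (∀ ε : ℝ, 0 < ε → ∃ β : ℝ, 0 < β ∧ |β - α| < ε ∧ CND (fun x : E => ‖x‖ ^ β)) →
    CND (fun x : E => ‖x‖ ^ α)

/-- PAR: exponent two. -/
def S_par : Prop :=
  ∀ (E : Type) [NormedAddCommGroup E] [NormedSpace ℝ E],
    (CND (fun x : E => ‖x‖ ^ (2 : ℝ)) → Par E) ∧ (¬ 1 < Module.rank ℝ E → Par E)

/-! ### Means over the isometry group -/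

/-- MEAN (Alaoglu–Birkhoff). -/
def S_mean : Prop :=
  ∀ (E H : Type) [NormedAddCommGroup E] [NormedSpace ℝ E] [NormedAddCommGroup H]
    [InnerProductSpace ℝ H] [CompleteSpace H] (ρ : Rep E H) (n : ℕ) (u v : Fin n → H) (c : ℝ),
    (∀ T, c ≤ ∑ i, ⟪ρ.g T (u i), v i⟫_ℝ) → c ≤ ∑ i, ⟪ρ.P (u i), v i⟫_ℝ

/-- RAD: continuous functions invariant under the isometries are radial. -/
def S_rad : Prop :=
  ∀ (E : Type) [NormedAddCommGroup E] [NormedSpace ℝ E], AT E → ∀ h : E → ℝ, Continuous h →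
    (∀ (T : E ≃ₗᵢ[ℝ] E) x, h (T x) = h x) → ∀ x y, ‖x‖ = ‖y‖ → h x = h y

/-- COM: the operators `A_x = P U(x) P` commute, are symmetric, and `2 A_x² ≤ 1 + A_{2x}`. -/
def S_com : Prop :=
  ∀ (E H : Type) [NormedAddCommGroup E] [NormedSpace ℝ E] [NormedAddCommGroup H]
    [InnerProductSpace ℝ H] [CompleteSpace H] (ρ : Rep E H), AT E →
    (∀ x y : E, ‖x‖ = ‖y‖ → ∀ u ∈ ρ.Fix, ρ.P (ρ.U x u) = ρ.P (ρ.U y u)) ∧
    (∀ (x : E), ∀ u ∈ ρ.Fix, ∀ v ∈ ρ.Fix, ⟪ρ.P (ρ.U x u), v⟫_ℝ = ⟪u, ρ.P (ρ.U x v)⟫_ℝ) ∧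
    (∀ x y : E, ∀ u ∈ ρ.Fix, ρ.P (ρ.U x (ρ.P (ρ.U y u))) = ρ.P (ρ.U y (ρ.P (ρ.U x u)))) ∧
    (∀ (x : E), ∀ u ∈ ρ.Fix, 2 * ‖ρ.P (ρ.U x u)‖ ^ 2 ≤ ‖u‖ ^ 2 + ⟪ρ.U ((2 : ℝ) • x) u, u⟫_ℝ)

/-- SGA: a product of operators `A_y` is bounded below by sign averages. -/
def S_sga : Prop :=
  ∀ (E H : Type) [NormedAddCommGroup E] [NormedSpace ℝ E] [NormedAddCommGroup H]
    [InnerProductSpace ℝ H] [CompleteSpace H] (ρ : Rep E H), AT E → ∀ ξ ∈ ρ.Fix,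
    ∀ (l : List E) (m : ℝ),
      (∀ l' : List E, List.Forall₂ (fun a b => ‖a‖ = ‖b‖) l l' →
        m ≤ sg (fun x => ⟪ρ.U x ξ, ξ⟫_ℝ) l' 0) →
      m ≤ ⟪ρ.AL l ξ, ξ⟫_ℝ

/-- LOW: lower bound for the sign averages along `bigL`. -/
def S_low : Prop :=
  ∀ (E : Type) [NormedAddCommGroup E] [NormedSpace ℝ E] (F : E → ℝ) (e : E) (q q' C δ : ℝ),
    Continuous F → F 0 = 1 → (∀ x, -1 ≤ F x) → HasTy E q C → 0 < q' → q' < q → ‖e‖ = 1 →
    0 < δ → ∃ s : ℝ, 0 < s ∧ ∀ (K : ℕ) (l' : List E),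
      List.Forall₂ (fun a b => ‖a‖ = ‖b‖) (bigL e q' s K) l' → 1 - δ ≤ sg F l' 0

/-- SUM: in dimension at least two, vectors of norm at most `2t` are sums of two vectors of norm
`t`. -/
def S_sum : Prop :=
  ∀ (E : Type) [NormedAddCommGroup E] [NormedSpace ℝ E], 1 < Module.rank ℝ E →
    ∀ (x : E) (t : ℝ), 0 < t → ‖x‖ ≤ 2 * t → ∃ u v : E, ‖u‖ = t ∧ ‖v‖ = t ∧ x = u + v

/-- CON: the regularised positive definite function. -/
def S_con : Prop :=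
  ∀ (E H : Type) [NormedAddCommGroup E] [NormedSpace ℝ E] [NormedAddCommGroup H]
    [InnerProductSpace ℝ H] [CompleteSpace H] (ρ : Rep E H) (ξ : H) (e : E) (q' s δ : ℝ),
    AT E → 1 < Module.rank ℝ E → ξ ∈ ρ.Fix → ‖ξ‖ = 1 → ‖e‖ = 1 → 0 < q' → 0 < s → 0 < δ →
    (∀ K : ℕ, 1 - δ ≤ ⟪ρ.AL (bigL e q' s K) ξ, ξ⟫_ℝ) →
    ∃ f : E → ℝ, PD f ∧ Continuous f ∧ (∀ x y, ‖x‖ = ‖y‖ → f x = f y) ∧
      (∃ C : ℝ, ∀ x, f 0 - f x ≤ C * ‖x‖ ^ q') ∧
      (∀ x, |f x - ⟪ρ.U x ξ, ξ⟫_ℝ| ≤ 2 * Real.sqrt (2 * δ))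

/-- POW: a nonconstant continuous radial positive definite function and equal norm type `q` make
`‖x‖^α` a function of negative type for all `α < q`. -/
def S_pow : Prop :=
  ∀ (E : Type) [NormedAddCommGroup E] [NormedSpace ℝ E], AT E → 1 < Module.rank ℝ E →
    ∀ (F : E → ℝ), Continuous F → PD F → (∀ x y, ‖x‖ = ‖y‖ → F x = F y) → F 0 = 1 →
      (∃ x, F x < 1) → ∀ (q C : ℝ), 0 < q → HasTy E q C →
      ∀ α : ℝ, 0 < α → α < q → CND (fun x : E => ‖x‖ ^ α)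

/-! ### The cocycle -/

/-- NOF: no vectors fixed by the translations if `r < 2`. -/
def S_nof : Prop :=
  ∀ (E H : Type) [NormedAddCommGroup E] [NormedSpace ℝ E] [NormedAddCommGroup H]
    [InnerProductSpace ℝ H] [CompleteSpace H] (r : ℝ) (A : Aff E H r), 0 < r → r < 2 →
    ∀ w : H, (∀ x, A.U x w = w) → w = 0

/-- CSB: if `b` takes its values in `M`, it is approximately a coboundary of fixed vectors. -/
def S_csb : Prop :=
  ∀ (E H : Type) [NormedAddCommGroup E] [NormedSpace ℝ E] [NormedAddCommGroup H]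
    [InnerProductSpace ℝ H] [CompleteSpace H] (r : ℝ) (A : Aff E H r), AT E →
    1 < Module.rank ℝ E → 0 < r → r < 2 → (∀ x, A.b x ∈ A.toRep.M) →
    ∀ x₀ : E, ‖x₀‖ = 1 → ∀ ε : ℝ, 0 < ε → ∃ w ∈ A.toRep.Fix, ‖A.b x₀ - (A.U x₀ w - w)‖ < ε

/-- CSA: otherwise the isometries separate vectors asymptotically in the sense of `ℓ_r`. -/
def S_csa : Prop :=
  ∀ (E H : Type) [NormedAddCommGroup E] [NormedSpace ℝ E] [NormedAddCommGroup H]
    [InnerProductSpace ℝ H] [CompleteSpace H] (r : ℝ) (A : Aff E H r), AT E →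
    0 < r → r < 2 → (∃ x, A.b x ∉ A.toRep.M) → Asym E r

/-- STA: approximate coboundaries give small sign averages. -/
def S_sta : Prop :=
  ∀ (E H : Type) [NormedAddCommGroup E] [NormedSpace ℝ E] [NormedAddCommGroup H]
    [InnerProductSpace ℝ H] [CompleteSpace H] (r : ℝ) (A : Aff E H r), AT E → 0 < r →
    (∀ x₀ : E, ‖x₀‖ = 1 → ∀ ε : ℝ, 0 < ε →
      ∃ w ∈ A.toRep.Fix, ‖A.b x₀ - (A.U x₀ w - w)‖ < ε) →
    ∀ δ : ℝ, 0 < δ → ∃ R : ℝ, ∀ l : List E, (∀ z ∈ l, ‖z‖ = 1) →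
      sg (fun x : E => ‖x‖ ^ r) l 0 ≤ R + δ * l.length

/-! ### Type -/

/-- KAH: Kahane's inequality between the first and the second moments. -/
def S_kah : Prop :=
  ∀ (E : Type) [NormedAddCommGroup E] [NormedSpace ℝ E] (l : List E),
    sg (fun x : E => ‖x‖ ^ 2) l 0 ≤ 9 * (sg (fun x : E => ‖x‖) l 0) ^ 2

/-- TYP: sign averages `o(n)` of the `r`-th power of the norm improve the type. -/
def S_typ : Prop :=
  ∀ (E : Type) [NormedAddCommGroup E] [NormedSpace ℝ E] (r : ℝ), 1 ≤ r → r < 2 →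
    (∀ δ : ℝ, 0 < δ → ∃ R : ℝ, ∀ l : List E, (∀ z ∈ l, ‖z‖ = 1) →
      sg (fun x : E => ‖x‖ ^ r) l 0 ≤ R + δ * l.length) →
    ∃ q C : ℝ, r < q ∧ HasTy E q C

/-! ### Copies of `ℓ_r`, embeddings -/

/-- ELL -/
def S_ell : Prop :=
  ∀ (E : Type) [NormedAddCommGroup E] [NormedSpace ℝ E] (r : ℝ), 0 < r → (∃ e : E, ‖e‖ = 1) →
    Asym E r → Ell E r

/-- LP: for `p ≤ 2` the `p`-th power of the norm of a subspace of `L_p` is of negative type. -/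
def S_lp : Prop :=
  ∀ (E : Type) [NormedAddCommGroup E] [NormedSpace ℝ E] (Ω : Type) [MeasurableSpace Ω]
    (μ : Measure Ω) (p : ℝ≥0∞), p ≠ 0 → p ≤ 2 → (J : E →ₗ[ℝ] Lp ℝ p μ) → (∀ u, ‖J u‖ = ‖u‖) →
    CND (fun x : E => ‖x‖ ^ p.toReal)

/-- KP: for `p > 2` a subspace of `L_p` is isomorphic to a Hilbert space or contains almost
isometric copies of `ℓ_p`. -/
def S_kp : Prop :=
  ∀ (E : Type) [NormedAddCommGroup E] [NormedSpace ℝ E] [CompleteSpace E] (Ω : Type)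
    [MeasurableSpace Ω] (μ : Measure Ω) (p : ℝ≥0∞), 2 < p → p ≠ ∞ →
    (J : E →ₗ[ℝ] Lp ℝ p μ) → (∀ u, ‖J u‖ = ‖u‖) →
    (∃ (H : Type) (_ : NormedAddCommGroup H) (_ : InnerProductSpace ℝ H) (_ : CompleteSpace H),
      Nonempty (E ≃L[ℝ] H)) ∨ Ell E p.toReal

/-- MT: a nonconstant metric transform gives a radial positive definite function. -/
def S_mt : Prop :=
  ∀ (E : Type) [NormedAddCommGroup E] [NormedSpace ℝ E] (K : Type) [NormedAddCommGroup K]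
    [InnerProductSpace ℝ K] (f : E → K) (τ : ℝ → ℝ), Continuous f →
    (∀ x y, ‖f x - f y‖ = τ ‖x - y‖) → (∃ x y, f x ≠ f y) →
    ∃ F : E → ℝ, Continuous F ∧ PD F ∧ (∀ x y, ‖x‖ = ‖y‖ → F x = F y) ∧ F 0 = 1 ∧ ∃ x, F x < 1

end Pool.Agent.Q101.Bm
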