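import Pool.Agent.Q101.BmS

/-!
# Further statements for the dichotomy theorem
-/

set_option autoImplicit false
set_option linter.unusedVariables false
set_option linter.unusedSectionVars false

namespace Pool.Agent.Q101.Bm

open MeasureTheory Filter Topology
open scoped BigOperators InnerProductSpace ENNReal

/-- Unit vectors asymptotically `ℓ_r`-far away from finitely many vectors. -/
def Asy2 (E : Type) [NormedAddCommGroup E] (r : ℝ) : Prop :=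
  ∀ (n : ℕ) (x : Fin n → E) (ε : ℝ), 0 < ε → ∃ w : E, ‖w‖ = 1 ∧
    ∀ i, |‖x i + w‖ ^ r - ‖x i‖ ^ r - 1| < ε

/-- ELL: almost isometric copies of `ℓ_r` from `Asy2`. -/
def S_ell2 : Prop :=
  ∀ (E : Type) [NormedAddCommGroup E] [NormedSpace ℝ E] (r : ℝ), 0 < r → Asy2 E r → Ell E r

/-- The second moment inequality `E ‖∑ ± z‖² ≤ a ∑ ‖z‖²` for lists of length at most `N`. -/
def Ty2 (E : Type) [NormedAddCommGroup E] (N : ℕ) (a : ℝ) : Prop :=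
  ∀ l : List E, l.length ≤ N →
    sg (fun x : E => ‖x‖ ^ 2) l 0 ≤ a * (l.map (fun z => ‖z‖ ^ 2)).sum

/-- BKT: the dyadic decomposition. -/
def S_bkt : Prop :=
  ∀ (E : Type) [NormedAddCommGroup E] [NormedSpace ℝ E] (r : ℝ), 1 ≤ r → r < 2 →
    (∀ δ : ℝ, 0 < δ → ∃ R : ℝ, ∀ l : List E, (∀ z ∈ l, ‖z‖ = 1) →
      sg (fun x : E => ‖x‖ ^ r) l 0 ≤ R + δ * l.length) →
    ∃ M : ℕ, 1 ≤ M ∧ Ty2 E (4 ^ M) (((2 : ℝ) ^ ((2 / r - 1) * M) / 2) ^ 2)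

/-- SUB: submultiplicativity. -/
def S_sub : Prop :=
  ∀ (E : Type) [NormedAddCommGroup E] [NormedSpace ℝ E] (N N' : ℕ) (a a' : ℝ), 0 ≤ a → 0 ≤ a' →
    Ty2 E N a → Ty2 E N' a' → Ty2 E (N * N') (a * a')

/-- KPA: a positive quadratic form gives an isomorphism with a Hilbert space. -/
def S_kpa : Prop :=
  ∀ (E : Type) [NormedAddCommGroup E] [NormedSpace ℝ E] [CompleteSpace E] (Ω : Type)
    [MeasurableSpace Ω] (μ : Measure Ω) (p : ℝ≥0∞), 2 < p → p ≠ ∞ →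
    (J : E →ₗ[ℝ] Lp ℝ p μ) → (∀ u, ‖J u‖ = ‖u‖) → ∀ (n : ℕ) (x : Fin n → E) (c : ℝ), 0 < c →
    (∀ w : E, c * ‖w‖ ^ 2 ≤ ∑ i, ∫ ω, |J (x i) ω| ^ (p.toReal - 2) * (J w ω) ^ 2 ∂μ) →
    ∃ (H : Type) (_ : NormedAddCommGroup H) (_ : InnerProductSpace ℝ H) (_ : CompleteSpace H),
      Nonempty (E ≃L[ℝ] H)

/-- KPC: almost disjoint functions. -/
def S_kpc : Prop :=
  ∀ (E : Type) [NormedAddCommGroup E] [NormedSpace ℝ E] (Ω : Type)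
    [MeasurableSpace Ω] (μ : Measure Ω) (p : ℝ≥0∞), 2 < p → p ≠ ∞ →
    (J : E →ₗ[ℝ] Lp ℝ p μ) → (∀ u, ‖J u‖ = ‖u‖) → ∀ (x : E) (ε : ℝ), 0 < ε →
    ∃ δ : ℝ, 0 < δ ∧ ∀ w : E, ‖w‖ = 1 →
      ∫ ω, |J x ω| ^ (p.toReal - 2) * (J w ω) ^ 2 ∂μ < δ →
      |‖x + w‖ ^ p.toReal - ‖x‖ ^ p.toReal - 1| < ε

end Pool.Agent.Q101.Bm
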