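import Pool.Agent.Q101.BmS2

/-!
# Sign averages: basic lemmas
-/

set_option autoImplicit false
set_option linter.unusedVariables false
set_option linter.unusedSectionVars false

namespace Pool.Agent.Q101.Bm

section basic

variable {X : Type} [AddCommGroup X]

lemma sgl_nil (φ : X → ℝ) (x : X) : sg φ [] x = φ x := rfl

lemma sgl_cons (φ : X → ℝ) (z : X) (l : List X) (x : X) :
    sg φ (z :: l) x = (sg φ l (x + z) + sg φ l (x - z)) / 2 := rfl

lemma sgl_mono {φ ψ : X → ℝ} (h : ∀ x, φ x ≤ ψ x) (l : List X) (x : X) :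
    sg φ l x ≤ sg ψ l x := by
  induction l generalizing x with
  | nil => exact h x
  | cons z l ih =>
    rw [sgl_cons, sgl_cons]
    linarith [ih (x + z), ih (x - z)]

lemma sgl_add (φ ψ : X → ℝ) (l : List X) (x : X) :
    sg (fun y => φ y + ψ y) l x = sg φ l x + sg ψ l x := by
  induction l generalizing x with
  | nil => rfl
  | cons z l ih =>
    rw [sgl_cons, sgl_cons, sgl_cons, ih, ih]
    ring

lemma sgl_mul (c : ℝ) (φ : X → ℝ) (l : List X) (x : X) :
    sg (fun y => c * φ y) l x = c * sg φ l x := by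
  induction l generalizing x with
  | nil => rfl
  | cons z l ih =>
    rw [sgl_cons, sgl_cons, ih, ih]
    ring

lemma sgl_const (c : ℝ) (l : List X) (x : X) : sg (fun _ : X => c) l x = c := by
  induction l generalizing x with
  | nil => rfl
  | cons z l ih =>
    rw [sgl_cons, ih, ih]
    ring

lemma sgl_nonneg {φ : X → ℝ} (h : ∀ x, 0 ≤ φ x) (l : List X) (x : X) : 0 ≤ sg φ l x := by
  have := sgl_mono h l x
  rwa [sgl_const] at this

lemma sgl_neg (φ : X → ℝ) (l : List X) (x : X) :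
    sg φ l (-x) = sg (fun y => φ (-y)) l x := by
  induction l generalizing x with
  | nil => rfl
  | cons z l ih =>
    rw [sgl_cons, sgl_cons]
    have e1 : -x + z = -(x - z) := by abel
    have e2 : -x - z = -(x + z) := by abel
    rw [e1, e2, ih, ih]
    ring

lemma sgl_append (φ : X → ℝ) (l₁ l₂ : List X) (x : X) :
    sg φ (l₁ ++ l₂) x = sg (fun y => sg φ l₂ y) l₁ x := by
  induction l₁ generalizing x with
  | nil => rfl
  | cons z l ih =>
    rw [List.cons_append, sgl_cons, sgl_cons, ih, ih]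

lemma sgl_perm (φ : X → ℝ) {l₁ l₂ : List X} (h : l₁.Perm l₂) (x : X) :
    sg φ l₁ x = sg φ l₂ x := by
  induction h generalizing x with
  | nil => rfl
  | cons z _ ih => rw [sgl_cons, sgl_cons, ih, ih]
  | swap a b l =>
    rw [sgl_cons, sgl_cons, sgl_cons, sgl_cons, sgl_cons, sgl_cons]
    have e1 : x + b + a = x + a + b := by abel
    have e2 : x + b - a = x - a + b := by abel
    have e3 : x - b + a = x + a - b := by abel
    have e4 : x - b - a = x - a - b := by abel
    rw [e1, e2, e3, e4]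
    ring
  | trans _ _ ih1 ih2 => rw [ih1, ih2]

/-- Cauchy–Schwarz for sign averages. -/
lemma sgl_cs (φ ψ : X → ℝ) (l : List X) (x : X) :
    (sg (fun y => φ y * ψ y) l x) ^ 2 ≤ sg (fun y => φ y ^ 2) l x * sg (fun y => ψ y ^ 2) l x := by
  have key : ∀ t : ℝ, 0 ≤ sg (fun y => φ y ^ 2) l x * (t * t)
      + 2 * sg (fun y => φ y * ψ y) l x * t + sg (fun y => ψ y ^ 2) l x := by
    intro t
    have h := sgl_nonneg (φ := fun y => (t * φ y + ψ y) ^ 2) (fun y => sq_nonneg _) l x
    have e : (fun y => (t * φ y + ψ y) ^ 2) =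
        fun y => ((t * t) * φ y ^ 2 + (2 * t) * (φ y * ψ y)) + ψ y ^ 2 := by
      funext y; ring
    rw [e, sgl_add, sgl_add (fun y => (t * t) * φ y ^ 2), sgl_mul, sgl_mul] at h
    linarith
  have := discrim_le_zero key
  rw [discrim] at this
  nlinarith

lemma sgl_sq_le (φ : X → ℝ) (l : List X) (x : X) :
    (sg φ l x) ^ 2 ≤ sg (fun y => φ y ^ 2) l x := by
  have := sgl_cs φ (fun _ => (1 : ℝ)) l x
  simp only [mul_one, one_pow] at this
  rwa [sgl_const, mul_one] at this

/-- Jensen for powers. -/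
lemma sgl_rpow_le {φ : X → ℝ} (h0 : ∀ x, 0 ≤ φ x) {r : ℝ} (hr : 1 ≤ r) (l : List X) (x : X) :
    (sg φ l x) ^ r ≤ sg (fun y => φ y ^ r) l x := by
  induction l generalizing x with
  | nil => exact le_rfl
  | cons z l ih =>
    rw [sgl_cons, sgl_cons]
    have h1 := sgl_nonneg h0 l (x + z)
    have h2 := sgl_nonneg h0 l (x - z)
    have := (convexOn_rpow hr).2 (Set.mem_Ici.2 h1) (Set.mem_Ici.2 h2)
      (show (0 : ℝ) ≤ 1 / 2 by norm_num) (show (0 : ℝ) ≤ 1 / 2 by norm_num) (by norm_num)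
    simp only [smul_eq_mul] at this
    have e1 : (sg φ l (x + z) + sg φ l (x - z)) / 2
        = 1 / 2 * sg φ l (x + z) + 1 / 2 * sg φ l (x - z) := by ring
    rw [e1]
    refine this.trans ?_
    linarith [ih (x + z), ih (x - z)]

end basic

section normed

variable {E : Type} [NormedAddCommGroup E] [NormedSpace ℝ E]

lemma sgl_map_smul (φ : E → ℝ) (c : ℝ) (l : List E) (x : E) :
    sg φ (l.map fun z => c • z) (c • x) = sg (fun y => φ (c • y)) l x := by
  induction l generalizing x with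
  | nil => rfl
  | cons z l ih =>
    rw [List.map_cons, sgl_cons, sgl_cons, ← smul_add, ← smul_sub, ih, ih]

lemma sgl_convex {φ : E → ℝ} (h : ConvexOn ℝ Set.univ φ) (l : List E) :
    ConvexOn ℝ Set.univ (sg φ l) := by
  induction l with
  | nil => exact h
  | cons z l ih =>
    refine ⟨convex_univ, ?_⟩
    intro x _ y _ a b ha hb hab
    simp only [sgl_cons]
    have e1 : a • x + b • y + z = a • (x + z) + b • (y + z) := by
      rw [smul_add, smul_add, add_add_add_comm, ← add_smul, hab, one_smul]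
    have e2 : a • x + b • y - z = a • (x - z) + b • (y - z) := by
      rw [smul_sub, smul_sub, sub_add_sub_comm, ← add_smul, hab, one_smul]
    have h1 := ih.2 (Set.mem_univ (x + z)) (Set.mem_univ (y + z)) ha hb hab
    have h2 := ih.2 (Set.mem_univ (x - z)) (Set.mem_univ (y - z)) ha hb hab
    rw [e1, e2]
    simp only [smul_eq_mul] at h1 h2 ⊢
    linarith

/-- Contraction principle. -/
lemma sgl_contr {φ : E → ℝ} (h : ConvexOn ℝ Set.univ φ) {l l' : List E}
    (hl : List.Forall₂ (fun z w => ∃ t : ℝ, |t| ≤ 1 ∧ z = t • w) l l') (x : E) :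
    sg φ l x ≤ sg φ l' x := by
  induction hl generalizing x with
  | nil => exact le_rfl
  | @cons z w l l' hzw _ ih =>
    obtain ⟨t, ht, rfl⟩ := hzw
    rw [sgl_cons, sgl_cons]
    have ht' := abs_le.1 ht
    have e1 : x + t • w = ((1 + t) / 2) • (x + w) + ((1 - t) / 2) • (x - w) := by
      module
    have e2 : x - t • w = ((1 - t) / 2) • (x + w) + ((1 + t) / 2) • (x - w) := by
      module
    have hc := sgl_convex h l
    have h1 := hc.2 (Set.mem_univ (x + w)) (Set.mem_univ (x - w))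
      (show 0 ≤ (1 + t) / 2 by linarith) (show 0 ≤ (1 - t) / 2 by linarith) (by ring)
    have h2 := hc.2 (Set.mem_univ (x + w)) (Set.mem_univ (x - w))
      (show 0 ≤ (1 - t) / 2 by linarith) (show 0 ≤ (1 + t) / 2 by linarith) (by ring)
    rw [← e1] at h1
    rw [← e2] at h2
    simp only [smul_eq_mul] at h1 h2
    linarith [ih (x + w), ih (x - w)]

/-- The second moment as a norm. -/
noncomputable def sN (l : List E) (a : E) : ℝ := Real.sqrt (sg (fun x : E => ‖x‖ ^ 2) l a)

lemma sN_nonneg (l : List E) (a : E) : 0 ≤ sN l a := Real.sqrt_nonneg _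

lemma sN_sq (l : List E) (a : E) : sN l a ^ 2 = sg (fun x : E => ‖x‖ ^ 2) l a :=
  Real.sq_sqrt (sgl_nonneg (fun x => sq_nonneg _) l a)

lemma sN_nil (a : E) : sN [] a = ‖a‖ := by
  rw [sN, sgl_nil, Real.sqrt_sq (norm_nonneg a)]

lemma sN_cons_sq (z : E) (l : List E) (a : E) :
    sN (z :: l) a ^ 2 = (sN l (a + z) ^ 2 + sN l (a - z) ^ 2) / 2 := by
  rw [sN_sq, sN_sq, sN_sq, sgl_cons]

/-- two-point Minkowski inequality -/
lemma two_mink {p p' q q' m n : ℝ} (hp : 0 ≤ p) (hp' : 0 ≤ p') (hq : 0 ≤ q) (hq' : 0 ≤ q')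
    (hm : 0 ≤ m) (hn : 0 ≤ n) (h1 : m ^ 2 = (p ^ 2 + p' ^ 2) / 2)
    (h2 : n ^ 2 = (q ^ 2 + q' ^ 2) / 2) :
    ((p + q) ^ 2 + (p' + q') ^ 2) / 2 ≤ (m + n) ^ 2 := by
  have h3 : (p * q + p' * q') / 2 ≤ m * n := by
    have h4 : ((p * q + p' * q') / 2) ^ 2 ≤ (m * n) ^ 2 := by
      rw [mul_pow, h1, h2]
      nlinarith [sq_nonneg (p * q' - p' * q)]
    exact (abs_le_of_sq_le_sq' h4 (mul_nonneg hm hn)).2
  nlinarith

lemma sN_add_le (l : List E) (a h : E) : sN l (a + h) ≤ sN l a + ‖h‖ := by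
  induction l generalizing a with
  | nil => rw [sN_nil, sN_nil]; exact norm_add_le _ _
  | cons z l ih =>
    have h1 : sN l (a + h + z) ≤ sN l (a + z) + ‖h‖ := by
      have := ih (a + z)
      rwa [add_right_comm] at this
    have h2 : sN l (a + h - z) ≤ sN l (a - z) + ‖h‖ := by
      have := ih (a - z)
      have e : a - z + h = a + h - z := by abel
      rwa [e] at this
    have h3 : sN (z :: l) (a + h) ^ 2 ≤ (sN (z :: l) a + ‖h‖) ^ 2 := by
      rw [sN_cons_sq]
      refine le_trans ?_ (two_mink (sN_nonneg l (a + z)) (sN_nonneg l (a - z)) (norm_nonneg h)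
        (norm_nonneg h) (sN_nonneg _ _) (norm_nonneg h) (sN_cons_sq z l a) (by ring))
      have := pow_le_pow_left₀ (sN_nonneg _ _) h1 2
      have := pow_le_pow_left₀ (sN_nonneg _ _) h2 2
      linarith
    exact abs_le_of_sq_le_sq' h3 (add_nonneg (sN_nonneg _ _) (norm_nonneg _)) |>.2

lemma sN_convex (l : List E) {t u : ℝ} (ht : 0 ≤ t) (hu : 0 ≤ u) (htu : t + u = 1) (a b : E) :
    sN l (t • a + u • b) ≤ t * sN l a + u * sN l b := by
  induction l generalizing a b with
  | nil =>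
    rw [sN_nil, sN_nil, sN_nil]
    refine (norm_add_le _ _).trans ?_
    rw [norm_smul, norm_smul, Real.norm_of_nonneg ht, Real.norm_of_nonneg hu]
  | cons z l ih =>
    have e1 : t • a + u • b + z = t • (a + z) + u • (b + z) := by
      rw [smul_add, smul_add, add_add_add_comm, ← add_smul, htu, one_smul]
    have e2 : t • a + u • b - z = t • (a - z) + u • (b - z) := by
      rw [smul_sub, smul_sub, sub_add_sub_comm, ← add_smul, htu, one_smul]
    have h1 := ih (a + z) (b + z)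
    have h2 := ih (a - z) (b - z)
    rw [← e1] at h1
    rw [← e2] at h2
    have h3 : sN (z :: l) (t • a + u • b) ^ 2 ≤ (t * sN (z :: l) a + u * sN (z :: l) b) ^ 2 := by
      rw [sN_cons_sq]
      refine le_trans ?_ (two_mink (mul_nonneg ht (sN_nonneg l (a + z)))
        (mul_nonneg ht (sN_nonneg l (a - z))) (mul_nonneg hu (sN_nonneg l (b + z)))
        (mul_nonneg hu (sN_nonneg l (b - z))) (mul_nonneg ht (sN_nonneg _ _))
        (mul_nonneg hu (sN_nonneg _ _)) ?_ ?_)
      · have := pow_le_pow_left₀ (sN_nonneg _ _) h1 2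
        have := pow_le_pow_left₀ (sN_nonneg _ _) h2 2
        linarith
      · rw [mul_pow, sN_cons_sq]; ring
      · rw [mul_pow, sN_cons_sq]; ring
    exact abs_le_of_sq_le_sq' h3 (add_nonneg (mul_nonneg ht (sN_nonneg _ _))
      (mul_nonneg hu (sN_nonneg _ _))) |>.2

/-- first moment below second moment -/
lemma sgl_norm_le_sN (l : List E) (a : E) : sg (fun x : E => ‖x‖) l a ≤ sN l a :=
  Real.le_sqrt_of_sq_le (sgl_sq_le _ l a)

lemma sN_append_le (l₁ l₂ : List E) : sN (l₁ ++ l₂) 0 ≤ sN l₁ 0 + sN l₂ 0 := by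
  have h : sN (l₁ ++ l₂) 0 ^ 2 ≤ (sN l₁ 0 + sN l₂ 0) ^ 2 := by
    rw [sN_sq, sgl_append]
    have h1 : ∀ y : E, sg (fun x : E => ‖x‖ ^ 2) l₂ y ≤
        (‖y‖ ^ 2 + (2 * sN l₂ 0) * ‖y‖) + sN l₂ 0 ^ 2 := by
      intro y
      rw [← sN_sq]
      have := sN_add_le l₂ 0 y
      rw [zero_add] at this
      have := pow_le_pow_left₀ (sN_nonneg _ _) this 2
      nlinarith
    refine (sgl_mono h1 l₁ 0).trans ?_
    rw [sgl_add (fun y : E => ‖y‖ ^ 2 + (2 * sN l₂ 0) * ‖y‖), sgl_add, sgl_mul, sgl_const, ← sN_sq]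
    have := mul_le_mul_of_nonneg_left (sgl_norm_le_sN l₁ 0)
      (show 0 ≤ 2 * sN l₂ 0 from mul_nonneg (by norm_num) (sN_nonneg _ _))
    nlinarith
  exact abs_le_of_sq_le_sq' h (add_nonneg (sN_nonneg _ _) (sN_nonneg _ _)) |>.2

lemma sN_perm {l₁ l₂ : List E} (h : l₁.Perm l₂) (a : E) : sN l₁ a = sN l₂ a := by
  rw [sN, sN, sgl_perm _ h]

end normed

end Pool.Agent.Q101.Bm
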