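import Pool.Agent.Q101.BmSg

/-!
# Submultiplicativity of the type constants
-/

set_option autoImplicit false
set_option linter.unusedVariables false
set_option linter.unusedSectionVars false

namespace Pool.Agent.Q101.Bm

section

variable {E : Type} [NormedAddCommGroup E]

/-- iterated sign averages over blocks -/
noncomputable def sub_blk (φ : E → ℝ) : List (List E) → List E → ℝ
  | [], ys => sg φ ys 0
  | l :: L, ys => sg (fun y => sub_blk φ L (y :: ys)) l 0

lemma sub_blk_eq (φ : E → ℝ) (L : List (List E)) (ys : List E) :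
    sub_blk φ L ys = sg φ (L.flatten ++ ys) 0 := by
  induction L generalizing ys with
  | nil => rfl
  | cons l L ih =>
    rw [sub_blk]
    have e1 : (fun y => sub_blk φ L (y :: ys)) =
        fun y => (sg φ (L.flatten ++ ys) y + sg φ (L.flatten ++ ys) (-y)) / 2 := by
      funext y
      rw [ih, sgl_perm φ (List.perm_middle : (L.flatten ++ y :: ys).Perm (y :: (L.flatten ++ ys))),
        sgl_cons, zero_add, zero_sub]
    rw [e1]
    have e2 : (fun y => (sg φ (L.flatten ++ ys) y + sg φ (L.flatten ++ ys) (-y)) / 2) =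
        fun y => (1 / 2 : ℝ) * sg φ (L.flatten ++ ys) y
          + (1 / 2 : ℝ) * (fun z => sg φ (L.flatten ++ ys) (-z)) y := by
      funext y; ring
    rw [e2, sgl_add (fun y => (1 / 2 : ℝ) * sg φ (L.flatten ++ ys) y), sgl_mul,
      sgl_mul (1 / 2) (fun z => sg φ (L.flatten ++ ys) (-z)), ← sgl_neg, neg_zero,
      List.flatten_cons, List.append_assoc, sgl_append φ l]
    ring

lemma sub_blk_le {N' : ℕ} {a' : ℝ} (ha' : 0 ≤ a') (h : Ty2 E N' a') (L : List (List E))
    (ys : List E) (hL : L.length + ys.length ≤ N') :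
    sub_blk (fun x : E => ‖x‖ ^ 2) L ys ≤
      a' * ((ys.map fun z => ‖z‖ ^ 2).sum
        + (L.map fun l => sg (fun x : E => ‖x‖ ^ 2) l 0).sum) := by
  induction L generalizing ys with
  | nil =>
    rw [sub_blk]
    simpa using h ys (by simpa using hL)
  | cons l L ih =>
    rw [sub_blk]
    have h1 : ∀ y : E, sub_blk (fun x : E => ‖x‖ ^ 2) L (y :: ys) ≤
        a' * ‖y‖ ^ 2 + a' * ((ys.map fun z => ‖z‖ ^ 2).sum
        + (L.map fun l => sg (fun x : E => ‖x‖ ^ 2) l 0).sum) := by
      intro y
      refine (ih (y :: ys) (by simp at hL ⊢; omega)).trans (le_of_eq ?_)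
      rw [List.map_cons, List.sum_cons]
      ring
    refine (sgl_mono h1 l 0).trans (le_of_eq ?_)
    rw [sgl_add (fun y : E => a' * ‖y‖ ^ 2), sgl_mul, sgl_const, List.map_cons, List.sum_cons]
    ring

lemma sub_split (N : ℕ) (m : ℕ) (l : List E) (hl : l.length ≤ N * m) :
    ∃ L : List (List E), L.flatten = l ∧ L.length ≤ m ∧ ∀ b ∈ L, b.length ≤ N := by
  induction m generalizing l with
  | zero =>
    refine ⟨[], ?_, le_rfl, by simp⟩
    rw [mul_zero] at hl
    rw [List.flatten_nil, List.eq_nil_of_length_eq_zero (Nat.le_zero.1 hl)]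
  | succ m ih =>
    obtain ⟨L, h1, h2, h3⟩ := ih (l.drop N) (by
      rw [List.length_drop]
      have : N * (m + 1) = N * m + N := by ring
      omega)
    refine ⟨l.take N :: L, ?_, by simpa using h2, ?_⟩
    · rw [List.flatten_cons, h1, List.take_append_drop]
    · intro b hb
      rcases List.mem_cons.1 hb with rfl | hb
      · rw [List.length_take]; exact min_le_left _ _
      · exact h3 b hb

end

theorem sub : S_sub := by
  intro E _ _ N N' a a' ha ha' h h' l hl
  obtain ⟨L, h1, h2, h3⟩ := sub_split N N' l hl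
  have e := sub_blk_eq (fun x : E => ‖x‖ ^ 2) L []
  rw [List.append_nil, h1] at e
  rw [← e]
  refine (sub_blk_le ha' h' L [] (by simpa using h2)).trans ?_
  have h4 : ∀ M : List (List E), (∀ b ∈ M, b.length ≤ N) →
      (M.map fun l => sg (fun x : E => ‖x‖ ^ 2) l 0).sum ≤
        a * (M.flatten.map fun z => ‖z‖ ^ 2).sum := by
    intro M hM
    induction M with
    | nil => simp
    | cons b M ih =>
      rw [List.map_cons, List.sum_cons, List.flatten_cons, List.map_append, List.sum_append]
      have := ih (fun c hc => hM c (List.mem_cons_of_mem _ hc))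
      have := h b (hM b List.mem_cons_self)
      linarith
  have h5 := h4 L h3
  rw [h1] at h5
  have h6 := mul_le_mul_of_nonneg_left h5 ha'
  simp only [List.map_nil, List.sum_nil, zero_add]
  linarith

end Pool.Agent.Q101.Bm
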