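import Mathlib

set_option autoImplicit false

namespace Q101.CbA

/-- finite initial part of a binary sequence -/
def pre (b : ℕ → Bool) (m : ℕ) : List Bool := List.ofFn (fun r : Fin m => b r)

theorem length_pre (b : ℕ → Bool) (m : ℕ) : (pre b m).length = m := by simp [pre]

/-- countable vector space of cylinder functions -/
abbrev Cyl : Type := List Bool →₀ ℚ

/-- value at a binary sequence -/
noncomputable def val (b : ℕ → Bool) : Cyl →ₗ[ℚ] ℚ :=
  Finsupp.linearCombination ℚ (fun l : List Bool => if l = pre b l.length then (1:ℚ) else 0)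

theorem pre_inj {b b' : ℕ → Bool} {m r : ℕ} (hr : r < m) (h : pre b m = pre b' m) :
    b r = b' r := by
  unfold pre at h
  have := List.ofFn_injective h
  exact congrFun this ⟨r, hr⟩

theorem interp {S : Type*} (b : S → (ℕ → Bool)) (hb : Function.Injective b) (T : Finset S)
    (c : S → ℚ) : ∃ q : Cyl, ∀ s ∈ T, val (b s) q = c s := by
  classical
  have hex : ∀ s s' : S, ∃ r, s ≠ s' → b s r ≠ b s' r := by
    intro s s'
    by_cases h : s = s'
    · exact ⟨0, fun h' => absurd h h'⟩
    · have : b s ≠ b s' := fun h' => h (hb h')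
      obtain ⟨r, hr⟩ := Function.ne_iff.1 this
      exact ⟨r, fun _ => hr⟩
  choose r hr using hex
  set m : ℕ := (T ×ˢ T).sup (fun p => r p.1 p.2) + 1 with hm
  have hlt : ∀ s ∈ T, ∀ s' ∈ T, r s s' < m := by
    intro s hs s' hs'
    have : r s s' ≤ (T ×ˢ T).sup (fun p => r p.1 p.2) :=
      Finset.le_sup (f := fun p : S × S => r p.1 p.2) (Finset.mk_mem_product hs hs')
    omega
  refine ⟨∑ s ∈ T, Finsupp.single (pre (b s) m) (c s), ?_⟩
  intro s' hs'
  rw [map_sum]
  rw [Finset.sum_eq_single s']
  · simp [val, Finsupp.linearCombination_single, length_pre]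
  · intro s hs hne
    have : pre (b s) m ≠ pre (b s') m := fun h => hr s s' hne (pre_inj (hlt s hs s' hs') h)
    simp [val, Finsupp.linearCombination_single, length_pre, this]
  · intro h; exact absurd hs' h

end Q101.CbA
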