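import Pool.Agent.Q101.CbA

set_option autoImplicit false

namespace Q101.CbB

open Q101.CbA Filter Topology

/-- The overcomplete system with its data. -/
structure Sys (E : Type) [NormedAddCommGroup E] [NormedSpace ℝ E] where
  x : ℕ → E
  D : ℕ → ℕ × ℕ × Cyl
  φ : E →L[ℝ] ℝ
  hx : ∀ i, ‖x i‖ ≤ 1
  hφ : ∀ i, φ (x i) = 1
  hφ1 : ∀ v, |φ v| ≤ ‖v‖
  hdense : ∀ v : E, ∀ ε > 0, ∃ (N : ℕ) (u : ℕ → ℝ), ‖v - ∑ l ∈ Finset.range N, u l • x l‖ < ε
  hinj : ∀ δ : ℕ → ℝ, Summable δ → ∑' i, δ i • x i = 0 → ∀ i, δ i = 0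
  hinf : ∀ d N, ∃ i ≥ N, D i = d
  happ : ∀ i, (D i).1 < i → (D i).2.1 < i →
    ‖x i - (1 / 2 : ℝ) • (x (D i).1 + x (D i).2.1)‖ ≤ (1 / 2) ^ i

variable {E : Type} [NormedAddCommGroup E] [NormedSpace ℝ E]

/-- decomposition of the space: absolutely convergent sums plus a Hamel complement -/
structure Dec (𝔰 : Sys E) where
  S : Type
  w : S → E
  b : S → ℕ → Bool
  hb : Function.Injective b
  co : E → (ℕ → ℝ) × (S →₀ ℝ)
  hco : ∀ y, Summable (co y).1 ∧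
    y = ∑' i, (co y).1 i • 𝔰.x i + (co y).2.sum (fun s r => r • w s)
  huniq : ∀ (δ : ℕ → ℝ) (c : S →₀ ℝ), Summable δ →
    co (∑' i, δ i • 𝔰.x i + c.sum (fun s r => r • w s)) = (δ, c)

variable {𝔰 : Sys E}

/-- the coefficient of index `i` of the generator `w s` -/
noncomputable def Dec.al (𝔡 : Dec 𝔰) (i : ℕ) (s : 𝔡.S) : ℝ := ((val (𝔡.b s) (𝔰.D i).2.2 : ℚ) : ℝ)

/-- the coefficients -/
noncomputable def Dec.f (𝔡 : Dec 𝔰) (i : ℕ) (y : E) : ℝ :=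
  (𝔡.co y).1 i + (𝔡.co y).2.sum (fun s r => r * 𝔡.al i s)

/-- partial sums -/
noncomputable def Dec.SA (𝔡 : Dec 𝔰) (A : Finset ℕ) (y : E) : E := ∑ i ∈ A, 𝔡.f i y • 𝔰.x i

/-- partial sums for a generator -/
noncomputable def Dec.G (𝔡 : Dec 𝔰) (A : Finset ℕ) (s : 𝔡.S) : E := ∑ i ∈ A, 𝔡.al i s • 𝔰.x i

theorem SA_eq (𝔡 : Dec 𝔰) (A : Finset ℕ) (y : E) :
    𝔡.SA A y = ∑ i ∈ A, (𝔡.co y).1 i • 𝔰.x i + (𝔡.co y).2.sum (fun s r => r • 𝔡.G A s) := by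
  unfold Dec.SA Dec.f Dec.G
  simp only [add_smul, Finset.sum_add_distrib]
  congr 1
  simp only [Finsupp.sum, Finset.sum_smul, Finset.smul_sum, smul_smul]
  rw [Finset.sum_comm]

theorem dec_norm_sum_le (𝔡 : Dec 𝔰) (c : 𝔡.S →₀ ℝ) (v : 𝔡.S → E) (η : ℝ)
    (hv : ∀ s ∈ c.support, ‖v s‖ ≤ η) :
    ‖c.sum (fun s r => r • v s)‖ ≤ (c.sum (fun _ r => |r|)) * η := by
  unfold Finsupp.sum
  refine (norm_sum_le _ _).trans ?_
  rw [Finset.sum_mul]
  apply Finset.sum_le_sum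
  intro s hs
  rw [norm_smul, Real.norm_eq_abs]
  exact mul_le_mul_of_nonneg_left (hv s hs) (abs_nonneg _)

theorem abs_sum_nonneg (𝔡 : Dec 𝔰) (c : 𝔡.S →₀ ℝ) : 0 ≤ c.sum (fun _ r => |r|) :=
  Finset.sum_nonneg (fun _ _ => abs_nonneg _)

/-- midpoints -/
noncomputable def mid (𝔰 : Sys E) (j k : ℕ) : E := (1 / 2 : ℝ) • (𝔰.x j + 𝔰.x k)

theorem mid_self (𝔰 : Sys E) (j : ℕ) : mid 𝔰 j j = 𝔰.x j := by
  unfold mid
  rw [← two_smul ℝ (𝔰.x j), smul_smul]; norm_num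

theorem near (𝔰 : Sys E) (j k : ℕ) (q : Cyl) (N : ℕ) (η : ℝ) (hη : 0 < η) :
    ∃ i ≥ N, 𝔰.D i = (j, k, q) ∧ ‖𝔰.x i - mid 𝔰 j k‖ < η := by
  obtain ⟨n, hn⟩ := exists_pow_lt_of_lt_one hη (show (1/2:ℝ) < 1 by norm_num)
  obtain ⟨i, hi, hd⟩ := 𝔰.hinf (j, k, q) (max (max N n) (max (j + 1) (k + 1)))
  have h1 : N ≤ i := le_trans (le_trans (le_max_left _ _) (le_max_left _ _)) hi
  have h2 : n ≤ i := le_trans (le_trans (le_max_right _ _) (le_max_left _ _)) hi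
  have h3 : j < i := le_trans (le_trans (le_max_left _ _) (le_max_right _ _)) hi
  have h4 : k < i := le_trans (le_trans (le_max_right _ _) (le_max_right _ _)) hi
  refine ⟨i, h1, hd, ?_⟩
  have h5 := 𝔰.happ i (by rw [hd]; exact h3) (by rw [hd]; exact h4)
  rw [hd] at h5
  simp only at h5
  refine lt_of_le_of_lt h5 (lt_of_le_of_lt ?_ hn)
  exact pow_le_pow_of_le_one (by norm_num) (by norm_num) h2

theorem summable_smul [CompleteSpace E] (𝔰 : Sys E) {δ : ℕ → ℝ} (h : Summable δ) :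
    Summable (fun i => δ i • 𝔰.x i) := by
  apply Summable.of_norm_bounded (g := fun i => |δ i|) h.abs
  intro i
  rw [norm_smul, Real.norm_eq_abs]
  have := 𝔰.hx i
  nlinarith [abs_nonneg (δ i)]

/-- rational version of the density -/
theorem dense_rat (𝔰 : Sys E) (v : E) (ε : ℝ) (hε : 0 < ε) :
    ∃ (N : ℕ) (u : ℕ → ℚ), ‖v - ∑ l ∈ Finset.range N, (u l : ℝ) • 𝔰.x l‖ < ε := by
  obtain ⟨N, u, hu⟩ := 𝔰.hdense v (ε / 2) (by linarith)
  have : ∀ l : ℕ, ∃ r : ℚ, |u l - r| < ε / (2 * (N + 1)) := by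
    intro l
    obtain ⟨r, h1, h2⟩ := exists_rat_btwn (show u l - ε / (2 * (N + 1)) < u l by
      have : 0 < ε / (2 * ((N:ℝ) + 1)) := by positivity
      linarith)
    exact ⟨r, by rw [abs_lt]; constructor <;> linarith⟩
  choose r hr using this
  refine ⟨N, r, ?_⟩
  have e : v - ∑ l ∈ Finset.range N, (r l : ℝ) • 𝔰.x l =
      (v - ∑ l ∈ Finset.range N, u l • 𝔰.x l) +
        ∑ l ∈ Finset.range N, (u l - r l) • 𝔰.x l := by
    simp only [sub_smul, Finset.sum_sub_distrib]; abel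
  rw [e]
  have h1 : ‖∑ l ∈ Finset.range N, (u l - r l) • 𝔰.x l‖ ≤ N * (ε / (2 * (N + 1))) := by
    refine (norm_sum_le _ _).trans ?_
    refine (Finset.sum_le_sum (g := fun _ => ε / (2 * ((N:ℝ) + 1))) (fun l _ => ?_)).trans ?_
    · rw [norm_smul, Real.norm_eq_abs]
      have := 𝔰.hx l
      have h2 := hr l
      nlinarith [abs_nonneg (u l - r l)]
    · simp
  have h2 : (N:ℝ) * (ε / (2 * (N + 1))) ≤ ε / 2 := by
    rw [← mul_div_assoc, div_le_iff₀ (by positivity)]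
    nlinarith
  have := norm_add_le (v - ∑ l ∈ Finset.range N, u l • 𝔰.x l)
    (∑ l ∈ Finset.range N, (u l - r l) • 𝔰.x l)
  linarith

/-- the identity is a pointwise limit of the `SA A` -/
theorem approx [CompleteSpace E] (𝔡 : Dec 𝔰) (Ξ : Finset E) (ε : ℝ) (hε : 0 < ε) (B : Finset ℕ) :
    ∃ A : Finset ℕ, B ⊆ A ∧ ∀ y ∈ Ξ, ‖y - 𝔡.SA A y‖ < ε := by
  classical
  -- tails of the absolutely convergent parts
  have h1 : ∀ y : E, ∃ F : Finset ℕ, ∀ A, F ⊆ A →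
      ‖∑' i, (𝔡.co y).1 i • 𝔰.x i - ∑ i ∈ A, (𝔡.co y).1 i • 𝔰.x i‖ < ε / 2 := by
    intro y
    have hs := (summable_smul 𝔰 (𝔡.hco y).1).hasSum
    obtain ⟨F, hF⟩ := Metric.tendsto_atTop.1 hs (ε / 2) (by linarith)
    refine ⟨F, fun A hA => ?_⟩
    have := hF A hA
    rwa [dist_comm, dist_eq_norm] at this
  choose F hF using h1
  set B1 : Finset ℕ := B ∪ Ξ.biUnion F with hB1
  set S' : Finset 𝔡.S := Ξ.biUnion (fun y => (𝔡.co y).2.support) with hS'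
  set M : ℝ := ∑ y ∈ Ξ, (𝔡.co y).2.sum (fun _ r => |r|) with hM
  have hM0 : 0 ≤ M := Finset.sum_nonneg (fun y _ => abs_sum_nonneg 𝔡 _)
  have hMy : ∀ y ∈ Ξ, (𝔡.co y).2.sum (fun _ r => |r|) ≤ M := fun y hy =>
    Finset.single_le_sum (f := fun y => (𝔡.co y).2.sum (fun _ r => |r|))
      (fun y _ => abs_sum_nonneg 𝔡 _) hy
  set ε' : ℝ := ε / (4 * (M + 1)) with hε'
  have hε'0 : 0 < ε' := by positivity
  choose N u hu using fun s : 𝔡.S => dense_rat 𝔰 (𝔡.w s - 𝔡.G B1 s) ε' hε'0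
  set N' : ℕ := S'.sup N with hN'
  let u' : 𝔡.S → ℕ → ℚ := fun s l => if l < N s then u s l else 0
  have hu' : ∀ s ∈ S', ∑ l ∈ Finset.range N', (u' s l : ℝ) • 𝔰.x l =
      ∑ l ∈ Finset.range (N s), (u s l : ℝ) • 𝔰.x l := by
    intro s hs
    have hle : N s ≤ N' := Finset.le_sup hs
    rw [← Finset.sum_subset (Finset.range_subset_range.2 hle)]
    · apply Finset.sum_congr rfl
      intro l hl
      rw [Finset.mem_range] at hl
      simp only [u', if_pos hl]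
    · intro l _ hl
      rw [Finset.mem_range, not_lt] at hl
      simp only [u', if_neg (not_lt.2 hl), Rat.cast_zero, zero_smul]
  -- interpolating cylinder functions
  choose q hq using fun l : ℕ => interp 𝔡.b 𝔡.hb S' (fun s => u' s l)
  set U : ℝ := ∑ s ∈ S', ∑ l ∈ Finset.range N', |(u' s l : ℝ)| with hU
  have hU0 : 0 ≤ U := Finset.sum_nonneg (fun s _ => Finset.sum_nonneg (fun l _ => abs_nonneg _))
  choose g hg1 hg2 hg3 using fun l : ℕ => near 𝔰 l l (q l) (B1.sup id + 1) (ε' / (U + 1))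
    (by positivity)
  have hginj : Function.Injective g := by
    intro a b hab
    have h1 := hg2 a
    have h2 := hg2 b
    rw [hab, h2] at h1
    exact (Prod.ext_iff.1 h1).1.symm
  have hgB : ∀ l, g l ∉ B1 := by
    intro l hl
    have h2 : g l ≤ B1.sup id := Finset.le_sup (f := id) hl
    have := hg1 l
    omega
  set A : Finset ℕ := B1 ∪ (Finset.range N').image g with hA
  have hdisj : Disjoint B1 ((Finset.range N').image g) := by
    rw [Finset.disjoint_right]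
    intro i hi
    obtain ⟨l, _, rfl⟩ := Finset.mem_image.1 hi
    exact hgB l
  have hGA : ∀ s ∈ S', ‖𝔡.w s - 𝔡.G A s‖ < 2 * ε' := by
    intro s hs
    have e1 : 𝔡.G A s = 𝔡.G B1 s + ∑ l ∈ Finset.range N', (u' s l : ℝ) • 𝔰.x (g l) := by
      unfold Dec.G
      rw [hA, Finset.sum_union hdisj, Finset.sum_image (fun a _ b _ h => hginj h)]
      congr 1
      apply Finset.sum_congr rfl
      intro l _
      unfold Dec.al
      rw [hg2 l]
      simp only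
      rw [hq l s hs]
    have e2 : 𝔡.w s - 𝔡.G A s = ((𝔡.w s - 𝔡.G B1 s) -
        ∑ l ∈ Finset.range (N s), (u s l : ℝ) • 𝔰.x l) -
        ∑ l ∈ Finset.range N', (u' s l : ℝ) • (𝔰.x (g l) - 𝔰.x l) := by
      rw [e1, ← hu' s hs]
      simp only [smul_sub, Finset.sum_sub_distrib]
      abel
    rw [e2]
    have h3 : ‖∑ l ∈ Finset.range N', (u' s l : ℝ) • (𝔰.x (g l) - 𝔰.x l)‖ ≤ U * (ε' / (U + 1)) := by
      refine (_root_.norm_sum_le _ _).trans ?_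
      have h4 : ∀ l ∈ Finset.range N', ‖(u' s l : ℝ) • (𝔰.x (g l) - 𝔰.x l)‖ ≤
          |(u' s l : ℝ)| * (ε' / (U + 1)) := by
        intro l _
        rw [norm_smul, Real.norm_eq_abs]
        have := hg3 l
        rw [mid_self] at this
        exact mul_le_mul_of_nonneg_left this.le (abs_nonneg _)
      refine (Finset.sum_le_sum h4).trans ?_
      rw [← Finset.sum_mul]
      apply mul_le_mul_of_nonneg_right _ (by positivity)
      exact Finset.single_le_sum (f := fun s => ∑ l ∈ Finset.range N', |(u' s l : ℝ)|)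
        (fun s _ => Finset.sum_nonneg (fun l _ => abs_nonneg _)) hs
    have h5 : U * (ε' / (U + 1)) ≤ ε' := by
      rw [← mul_div_assoc, div_le_iff₀ (by positivity)]
      nlinarith
    have h6 := hu s
    have h7 := norm_sub_le ((𝔡.w s - 𝔡.G B1 s) - ∑ l ∈ Finset.range (N s), (u s l : ℝ) • 𝔰.x l)
      (∑ l ∈ Finset.range N', (u' s l : ℝ) • (𝔰.x (g l) - 𝔰.x l))
    linarith
  refine ⟨A, ?_, ?_⟩
  · exact (Finset.subset_union_left.trans (show B ∪ Ξ.biUnion F ⊆ B1 from subset_rfl)).trans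
      Finset.subset_union_left
  · intro y hy
    have hFA : F y ⊆ A := by
      refine (Finset.subset_biUnion_of_mem F hy).trans ?_
      exact (Finset.subset_union_right (s₁ := B)).trans Finset.subset_union_left
    have hsupp : ∀ s ∈ (𝔡.co y).2.support, s ∈ S' := fun s hs =>
      Finset.mem_biUnion.2 ⟨y, hy, hs⟩
    have e3 : y - 𝔡.SA A y = (∑' i, (𝔡.co y).1 i • 𝔰.x i - ∑ i ∈ A, (𝔡.co y).1 i • 𝔰.x i) +
        (𝔡.co y).2.sum (fun s r => r • (𝔡.w s - 𝔡.G A s)) := by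
      rw [SA_eq]
      refine (congrArg (fun z => z - (∑ i ∈ A, (𝔡.co y).1 i • 𝔰.x i +
        (𝔡.co y).2.sum (fun s r => r • 𝔡.G A s))) (𝔡.hco y).2).trans ?_
      simp only [Finsupp.sum, smul_sub, Finset.sum_sub_distrib]
      abel
    rw [e3]
    have h8 := dec_norm_sum_le 𝔡 (𝔡.co y).2 (fun s => 𝔡.w s - 𝔡.G A s) (2 * ε')
      (fun s hs => (hGA s (hsupp s hs)).le)
    have h9 := hF y A hFA
    have h10 : (𝔡.co y).2.sum (fun _ r => |r|) * (2 * ε') ≤ ε / 2 := by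
      have := hMy y hy
      have h11 : (𝔡.co y).2.sum (fun _ r => |r|) * (2 * ε') ≤ (M + 1) * (2 * ε') :=
        mul_le_mul_of_nonneg_right (by linarith) (by positivity)
      have h12 : (M + 1) * (2 * ε') = ε / 2 := by rw [hε']; field_simp; norm_num
      linarith
    have := norm_add_le (∑' i, (𝔡.co y).1 i • 𝔰.x i - ∑ i ∈ A, (𝔡.co y).1 i • 𝔰.x i)
      ((𝔡.co y).2.sum (fun s r => r • (𝔡.w s - 𝔡.G A s)))
    linarith

/-- null families of coefficients -/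
def Null (𝔡 : Dec 𝔰) (γ : ℕ → ℝ) : Prop :=
  ∀ ε > 0, ∃ (Ξ : Finset E) (ε1 : ℝ) (B : Finset ℕ), 0 < ε1 ∧ ∀ A : Finset ℕ, B ⊆ A →
    (∀ y ∈ Ξ, ‖y - 𝔡.SA A y‖ < ε1) → ‖∑ i ∈ A, γ i • 𝔰.x i‖ < ε

theorem star [CompleteSpace E] (𝔡 : Dec 𝔰) (γ : ℕ → ℝ) (hγ : Null 𝔡 γ) :
    ∀ ε > 0, ∃ (S' : Finset 𝔡.S) (ε1 : ℝ) (n : ℕ), 0 < ε1 ∧ ∀ C : Finset ℕ, (∀ i ∈ C, n < i) →
      (∀ s ∈ S', ‖𝔡.G C s‖ < ε1) → ‖∑ i ∈ C, γ i • 𝔰.x i‖ < ε := by
  classical
  intro ε hε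
  obtain ⟨Ξ, e1, B, he1, h1⟩ := hγ (ε / 2) (by linarith)
  have h2 : ∀ y : E, ∃ F : Finset ℕ, ∀ t : Finset ℕ, Disjoint t F →
      ‖∑ i ∈ t, (𝔡.co y).1 i • 𝔰.x i‖ < e1 / 4 := by
    intro y
    exact summable_iff_vanishing_norm.1 (summable_smul 𝔰 (𝔡.hco y).1) (e1 / 4) (by linarith)
  choose F hF using h2
  obtain ⟨A0, hA0, hA1⟩ := approx 𝔡 Ξ (e1 / 2) (by linarith) (B ∪ Ξ.biUnion F)
  set M : ℝ := ∑ y ∈ Ξ, (𝔡.co y).2.sum (fun _ r => |r|) with hM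
  have hM0 : 0 ≤ M := Finset.sum_nonneg (fun y _ => abs_sum_nonneg 𝔡 _)
  refine ⟨Ξ.biUnion (fun y => (𝔡.co y).2.support), e1 / (4 * (M + 1)), A0.sup id, by positivity, ?_⟩
  intro C hC hCs
  have hdisj : Disjoint A0 C := by
    rw [Finset.disjoint_right]
    intro i hi hi'
    have h3 : i ≤ A0.sup id := Finset.le_sup (f := id) hi'
    have := hC i hi
    omega
  have hunion : ∀ y ∈ Ξ, ‖y - 𝔡.SA (A0 ∪ C) y‖ < e1 := by
    intro y hy
    have e2 : 𝔡.SA (A0 ∪ C) y = 𝔡.SA A0 y + 𝔡.SA C y := Finset.sum_union hdisj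
    have e3 : y - 𝔡.SA (A0 ∪ C) y = (y - 𝔡.SA A0 y) - 𝔡.SA C y := by rw [e2]; abel
    have h4 : ‖𝔡.SA C y‖ < e1 / 2 := by
      rw [SA_eq]
      have h5 : ‖∑ i ∈ C, (𝔡.co y).1 i • 𝔰.x i‖ < e1 / 4 := by
        apply hF y C
        apply hdisj.symm.mono_right
        refine (Finset.subset_biUnion_of_mem F hy).trans ?_
        exact (Finset.subset_union_right (s₁ := B)).trans hA0
      have h6 := dec_norm_sum_le 𝔡 (𝔡.co y).2 (𝔡.G C) (e1 / (4 * (M + 1)))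
        (fun s hs => (hCs s (Finset.mem_biUnion.2 ⟨y, hy, hs⟩)).le)
      have h7 : (𝔡.co y).2.sum (fun _ r => |r|) ≤ M :=
        Finset.single_le_sum (f := fun y => (𝔡.co y).2.sum (fun _ r => |r|))
          (fun y _ => abs_sum_nonneg 𝔡 _) hy
      have h8 : (𝔡.co y).2.sum (fun _ r => |r|) * (e1 / (4 * (M + 1))) ≤
          (M + 1) * (e1 / (4 * (M + 1))) :=
        mul_le_mul_of_nonneg_right (by linarith) (by positivity)
      have h9 : (M + 1) * (e1 / (4 * (M + 1))) = e1 / 4 := by field_simp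
      have := norm_add_le (∑ i ∈ C, (𝔡.co y).1 i • 𝔰.x i)
        ((𝔡.co y).2.sum (fun s r => r • 𝔡.G C s))
      linarith
    rw [e3]
    have := norm_sub_le (y - 𝔡.SA A0 y) (𝔡.SA C y)
    have := hA1 y hy
    linarith
  have hB0 : B ⊆ A0 := Finset.subset_union_left.trans hA0
  have h10 := h1 A0 hB0 (fun y hy => by have := hA1 y hy; linarith)
  have h11 := h1 (A0 ∪ C) (hB0.trans Finset.subset_union_left) hunion
  rw [Finset.sum_union hdisj] at h11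
  have e4 : ∑ i ∈ C, γ i • 𝔰.x i = (∑ i ∈ A0, γ i • 𝔰.x i + ∑ i ∈ C, γ i • 𝔰.x i) -
      ∑ i ∈ A0, γ i • 𝔰.x i := by abel
  rw [e4]
  have := norm_sub_le (∑ i ∈ A0, γ i • 𝔰.x i + ∑ i ∈ C, γ i • 𝔰.x i) (∑ i ∈ A0, γ i • 𝔰.x i)
  linarith

end Q101.CbB
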