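import Pool.Agent.Q101.CbB

set_option autoImplicit false

namespace Q101.CbC

open Q101.CbA Q101.CbB Filter Topology

variable {E : Type} [NormedAddCommGroup E] [NormedSpace ℝ E] {𝔰 : Sys E}

/-- midpoint of a datum -/
noncomputable def md (𝔰 : Sys E) (d : ℕ × ℕ × Cyl) : E := mid 𝔰 d.1 d.2.1

theorem φ_mid (𝔰 : Sys E) (j k : ℕ) : 𝔰.φ (mid 𝔰 j k) = 1 := by
  unfold mid
  rw [map_smul, map_add, 𝔰.hφ, 𝔰.hφ]; norm_num

/-- conclusion of `star` -/
def Star (𝔡 : Dec 𝔰) (γ : ℕ → ℝ) : Prop :=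
  ∀ ε > 0, ∃ (S' : Finset 𝔡.S) (ε1 : ℝ) (n : ℕ), 0 < ε1 ∧ ∀ C : Finset ℕ, (∀ i ∈ C, n < i) →
      (∀ s ∈ S', ‖𝔡.G C s‖ < ε1) → ‖∑ i ∈ C, γ i • 𝔰.x i‖ < ε

theorem rel_fin (𝔡 : Dec 𝔰) (γ : ℕ → ℝ) (hγ : Star 𝔡 γ) (r : ℕ) (d : ℕ → ℕ × ℕ × Cyl)
    (hrel : ∀ s : 𝔡.S, ∑ t ∈ Finset.range r, ((val (𝔡.b s) (d t).2.2 : ℚ) : ℝ) • md 𝔰 (d t) = 0)
    (ε : ℝ) (hε : 0 < ε) :
    ∃ η > 0, ∃ n : ℕ, ∀ g : ℕ → ℕ, Set.InjOn g (Finset.range r) →
      (∀ t ∈ Finset.range r, 𝔰.D (g t) = d t ∧ n < g t ∧ ‖𝔰.x (g t) - md 𝔰 (d t)‖ < η) →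
      ‖∑ t ∈ Finset.range r, γ (g t) • 𝔰.x (g t)‖ < ε := by
  classical
  obtain ⟨S', e1, n, he1, h⟩ := hγ ε hε
  set V : ℝ := ∑ s ∈ S', ∑ t ∈ Finset.range r, |((val (𝔡.b s) (d t).2.2 : ℚ) : ℝ)| with hV
  have hV0 : 0 ≤ V := Finset.sum_nonneg (fun s _ => Finset.sum_nonneg (fun t _ => abs_nonneg _))
  refine ⟨e1 / (V + 1), by positivity, n, ?_⟩
  intro g hg hgt
  have h1 := h ((Finset.range r).image g) (by
    intro i hi
    obtain ⟨t, ht, rfl⟩ := Finset.mem_image.1 hi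
    exact (hgt t ht).2.1) (by
    intro s hs
    have e : 𝔡.G ((Finset.range r).image g) s = ∑ t ∈ Finset.range r,
        ((val (𝔡.b s) (d t).2.2 : ℚ) : ℝ) • (𝔰.x (g t) - md 𝔰 (d t)) := by
      unfold Dec.G
      rw [Finset.sum_image hg]
      simp only [smul_sub, Finset.sum_sub_distrib]
      rw [hrel s, sub_zero]
      apply Finset.sum_congr rfl
      intro t ht
      unfold Dec.al
      rw [(hgt t ht).1]
    rw [e]
    have h2 : ‖∑ t ∈ Finset.range r,
        ((val (𝔡.b s) (d t).2.2 : ℚ) : ℝ) • (𝔰.x (g t) - md 𝔰 (d t))‖ ≤ V * (e1 / (V + 1)) := by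
      refine (norm_sum_le _ _).trans ?_
      have h3 : ∀ t ∈ Finset.range r,
          ‖((val (𝔡.b s) (d t).2.2 : ℚ) : ℝ) • (𝔰.x (g t) - md 𝔰 (d t))‖ ≤
          |((val (𝔡.b s) (d t).2.2 : ℚ) : ℝ)| * (e1 / (V + 1)) := by
        intro t ht
        rw [norm_smul, Real.norm_eq_abs]
        exact mul_le_mul_of_nonneg_left (hgt t ht).2.2.le (abs_nonneg _)
      refine (Finset.sum_le_sum h3).trans ?_
      rw [← Finset.sum_mul]
      apply mul_le_mul_of_nonneg_right _ (by positivity)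
      exact Finset.single_le_sum (f := fun s => ∑ t ∈ Finset.range r,
        |((val (𝔡.b s) (d t).2.2 : ℚ) : ℝ)|)
        (fun s _ => Finset.sum_nonneg (fun l _ => abs_nonneg _)) hs
    have h4 : V * (e1 / (V + 1)) < e1 := by
      rw [← mul_div_assoc, div_lt_iff₀ (by positivity)]
      nlinarith
    linarith)
  rwa [Finset.sum_image hg] at h1

theorem eventually_near (𝔰 : Sys E) (d : ℕ × ℕ × Cyl) (η : ℝ) (hη : 0 < η) :
    ∃ N, ∀ i ≥ N, 𝔰.D i = d → ‖𝔰.x i - md 𝔰 d‖ < η := by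
  obtain ⟨n, hn⟩ := exists_pow_lt_of_lt_one hη (show (1/2:ℝ) < 1 by norm_num)
  refine ⟨max n (max (d.1 + 1) (d.2.1 + 1)), fun i hi hd => ?_⟩
  have h2 : n ≤ i := le_trans (le_max_left _ _) hi
  have h3 : d.1 < i := le_trans (le_trans (le_max_left _ _) (le_max_right _ _)) hi
  have h4 : d.2.1 < i := le_trans (le_trans (le_max_right _ _) (le_max_right _ _)) hi
  have h5 := 𝔰.happ i (by rw [hd]; exact h3) (by rw [hd]; exact h4)
  rw [hd] at h5
  refine lt_of_le_of_lt h5 (lt_of_le_of_lt ?_ hn)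
  exact pow_le_pow_of_le_one (by norm_num) (by norm_num) h2

theorem φ_le (𝔰 : Sys E) (v : E) : |𝔰.φ v| ≤ ‖v‖ := 𝔰.hφ1 v

theorem cauchy (𝔡 : Dec 𝔰) (γ : ℕ → ℝ) (hγ : Star 𝔡 γ) (d : ℕ × ℕ × Cyl) (η : ℝ) (hη : 0 < η) :
    ∃ N, ∀ i ≥ N, ∀ i' ≥ N, 𝔰.D i = d → 𝔰.D i' = d → |γ i - γ i'| < η := by
  obtain ⟨j, k, q⟩ := d
  let dd : ℕ → ℕ × ℕ × Cyl := fun t => if t = 0 then (j, k, q) else (j, k, -q)
  obtain ⟨e, he, n, h⟩ := rel_fin 𝔡 γ hγ 2 dd (by
    intro s
    simp [Finset.sum_range_succ, dd, md]) (η / 2) (by linarith)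
  obtain ⟨N1, hN1⟩ := eventually_near 𝔰 (j, k, q) e he
  have key : ∀ i ≥ max N1 (n + 1), 𝔰.D i = (j, k, q) → ∀ i'', i < i'' → 𝔰.D i'' = (j, k, -q) →
      ‖𝔰.x i'' - md 𝔰 (j, k, -q)‖ < e → |γ i + γ i''| < η / 2 := by
    intro i hi hd i'' hi'' hd'' hn''
    have h1 := h (fun t => if t = 0 then i else i'') (by
      intro a ha b hb hab
      simp only [Finset.coe_range, Set.mem_Iio] at ha hb
      interval_cases a <;> interval_cases b <;> simp at hab ⊢ <;> omega) (by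
      intro t ht
      rw [Finset.mem_range] at ht
      interval_cases t
      · simp only [dd, if_true]
        exact ⟨hd, by have := le_trans (le_max_right _ _) hi; omega,
          hN1 i (le_trans (le_max_left _ _) hi) hd⟩
      · simp only [dd, if_neg one_ne_zero]
        exact ⟨hd'', by have := le_trans (le_max_right _ _) hi; omega, hn''⟩)
    simp only [Finset.sum_range_succ, Finset.sum_range_zero, zero_add, if_true,
      if_neg one_ne_zero] at h1
    have h2 := φ_le 𝔰 (γ i • 𝔰.x i + γ i'' • 𝔰.x i'')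
    rw [map_add, map_smul, map_smul, 𝔰.hφ, 𝔰.hφ, smul_eq_mul, smul_eq_mul, mul_one, mul_one] at h2
    linarith
  refine ⟨max N1 (n + 1), fun i hi i' hi' hd hd' => ?_⟩
  obtain ⟨i'', hi'', hd'', hn''⟩ := near 𝔰 j k (-q) (max i i' + 1) e he
  have h1 := key i hi hd i'' (by have := le_max_left i i'; omega) hd'' hn''
  have h2 := key i' hi' hd' i'' (by have := le_max_right i i'; omega) hd'' hn''
  rw [abs_lt] at h1 h2 ⊢
  constructor <;> linarith

theorem exists_lim (𝔡 : Dec 𝔰) (γ : ℕ → ℝ) (hγ : Star 𝔡 γ) (d : ℕ × ℕ × Cyl) :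
    ∃ L : ℝ, ∀ η > 0, ∃ N, ∀ i ≥ N, 𝔰.D i = d → |γ i - L| < η := by
  choose a ha1 ha2 using fun n => 𝔰.hinf d n
  have hc : CauchySeq (fun n => γ (a n)) := by
    rw [Metric.cauchySeq_iff']
    intro η hη
    obtain ⟨N, hN⟩ := cauchy 𝔡 γ hγ d η hη
    exact ⟨N, fun n hn => hN _ (le_trans hn (ha1 n)) _ (ha1 N) (ha2 n) (ha2 N)⟩
  obtain ⟨L, hL⟩ := cauchySeq_tendsto_of_complete hc
  refine ⟨L, fun η hη => ?_⟩
  obtain ⟨N, hN⟩ := cauchy 𝔡 γ hγ d (η / 2) (by linarith)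
  obtain ⟨M, hM⟩ := Metric.tendsto_atTop.1 hL (η / 2) (by linarith)
  refine ⟨N, fun i hi hd => ?_⟩
  have h1 := hM (max M N) (le_max_left _ _)
  rw [Real.dist_eq] at h1
  have h2 := hN i hi (a (max M N)) (le_trans (le_max_right _ _) (ha1 _)) hd (ha2 _)
  have := abs_sub_le (γ i) (γ (a (max M N))) L
  linarith

/-- successive choice -/
theorem choice (𝔰 : Sys E) (γ : ℕ → ℝ) (ψ : ℕ × ℕ × Cyl → ℝ)
    (hψ : ∀ d, ∀ η > 0, ∃ N, ∀ i ≥ N, 𝔰.D i = d → |γ i - ψ d| < η)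
    (d : ℕ → ℕ × ℕ × Cyl) (n : ℕ) (η : ℝ) (hη : 0 < η) :
    ∃ g : ℕ → ℕ, StrictMono g ∧ ∀ t, 𝔰.D (g t) = d t ∧ n < g t ∧ ‖𝔰.x (g t) - md 𝔰 (d t)‖ < η ∧
      |γ (g t) - ψ (d t)| < η := by
  have one : ∀ (t m : ℕ), ∃ i, m < i ∧ n < i ∧ 𝔰.D i = d t ∧ ‖𝔰.x i - md 𝔰 (d t)‖ < η ∧
      |γ i - ψ (d t)| < η := by
    intro t m
    obtain ⟨N, hN⟩ := hψ (d t) η hη
    obtain ⟨i, hi, hd, hnear⟩ := near 𝔰 (d t).1 (d t).2.1 (d t).2.2
      (max (max (m + 1) (n + 1)) N) η hη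
    refine ⟨i, ?_, ?_, hd, hnear, hN i (le_trans (le_max_right _ _) hi) hd⟩
    · exact lt_of_lt_of_le (Nat.lt_succ_self m) (le_trans (le_trans (le_max_left _ _)
        (le_max_left _ _)) hi)
    · exact lt_of_lt_of_le (Nat.lt_succ_self n) (le_trans (le_trans (le_max_right _ _)
        (le_max_left _ _)) hi)
  choose F h1 h2 h3 h4 h5 using one
  let g : ℕ → ℕ := fun t => Nat.rec (F 0 0) (fun t p => F (t + 1) p) t
  have hg0 : g 0 = F 0 0 := rfl
  have hgs : ∀ t, g (t + 1) = F (t + 1) (g t) := fun t => rfl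
  refine ⟨g, strictMono_nat_of_lt_succ (fun t => by rw [hgs]; exact h1 _ _), ?_⟩
  intro t
  cases t with
  | zero => rw [hg0]; exact ⟨h3 _ _, h2 _ _, h4 _ _, h5 _ _⟩
  | succ t => rw [hgs]; exact ⟨h3 _ _, h2 _ _, h4 _ _, h5 _ _⟩

theorem rel_lim (𝔡 : Dec 𝔰) (γ : ℕ → ℝ) (hγ : Star 𝔡 γ) (ψ : ℕ × ℕ × Cyl → ℝ)
    (hψ : ∀ d, ∀ η > 0, ∃ N, ∀ i ≥ N, 𝔰.D i = d → |γ i - ψ d| < η)
    (r : ℕ) (d : ℕ → ℕ × ℕ × Cyl)
    (hrel : ∀ s : 𝔡.S, ∑ t ∈ Finset.range r, ((val (𝔡.b s) (d t).2.2 : ℚ) : ℝ) • md 𝔰 (d t) = 0) :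
    ∑ t ∈ Finset.range r, ψ (d t) • md 𝔰 (d t) = 0 := by
  rw [← norm_eq_zero]
  apply le_antisymm _ (norm_nonneg _)
  apply le_of_forall_pos_lt_add
  intro ε hε
  obtain ⟨e, he, n, h⟩ := rel_fin 𝔡 γ hγ r d hrel (ε / 2) (by linarith)
  set P : ℝ := ∑ t ∈ Finset.range r, (1 + |ψ (d t)|) with hP
  have hP0 : 0 ≤ P := Finset.sum_nonneg (fun t _ => by positivity)
  set η : ℝ := min e (ε / (2 * (P + 1))) with hη
  have hη0 : 0 < η := lt_min he (by positivity)
  obtain ⟨g, hg, hgt⟩ := choice 𝔰 γ ψ hψ d n η hη0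
  have h1 := h g hg.injective.injOn (fun t _ => ⟨(hgt t).1, (hgt t).2.1,
    lt_of_lt_of_le (hgt t).2.2.1 (min_le_left _ _)⟩)
  have e1 : ∑ t ∈ Finset.range r, ψ (d t) • md 𝔰 (d t) =
      ∑ t ∈ Finset.range r, γ (g t) • 𝔰.x (g t) -
      ∑ t ∈ Finset.range r, ((γ (g t) - ψ (d t)) • 𝔰.x (g t) +
        ψ (d t) • (𝔰.x (g t) - md 𝔰 (d t))) := by
    rw [← Finset.sum_sub_distrib]
    apply Finset.sum_congr rfl
    intro t _
    simp only [sub_smul, smul_sub]; abel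
  have h2 : ‖∑ t ∈ Finset.range r, ((γ (g t) - ψ (d t)) • 𝔰.x (g t) +
        ψ (d t) • (𝔰.x (g t) - md 𝔰 (d t)))‖ ≤ P * η := by
    refine (norm_sum_le _ _).trans ?_
    rw [hP, Finset.sum_mul]
    apply Finset.sum_le_sum
    intro t _
    refine (norm_add_le _ _).trans ?_
    rw [norm_smul, norm_smul, Real.norm_eq_abs, Real.norm_eq_abs]
    have a1 := (hgt t).2.2.2
    have a2 := (hgt t).2.2.1
    have a3 := 𝔰.hx (g t)
    have a4 : |γ (g t) - ψ (d t)| * ‖𝔰.x (g t)‖ ≤ η * 1 :=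
      mul_le_mul a1.le a3 (norm_nonneg _) hη0.le
    have a5 : |ψ (d t)| * ‖𝔰.x (g t) - md 𝔰 (d t)‖ ≤ |ψ (d t)| * η :=
      mul_le_mul_of_nonneg_left a2.le (abs_nonneg _)
    nlinarith
  have h3 : P * η ≤ ε / 2 := by
    have : η ≤ ε / (2 * (P + 1)) := min_le_right _ _
    calc P * η ≤ P * (ε / (2 * (P + 1))) := mul_le_mul_of_nonneg_left this hP0
      _ ≤ ε / 2 := by
        rw [← mul_div_assoc, div_le_iff₀ (by positivity)]; nlinarith
  rw [e1]
  have := norm_sub_le (∑ t ∈ Finset.range r, γ (g t) • 𝔰.x (g t))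
    (∑ t ∈ Finset.range r, ((γ (g t) - ψ (d t)) • 𝔰.x (g t) +
        ψ (d t) • (𝔰.x (g t) - md 𝔰 (d t))))
  linarith

theorem indep (𝔰 : Sys E) {j k : ℕ} (hjk : j ≠ k) {a b : ℝ}
    (h : a • 𝔰.x j + b • 𝔰.x k = 0) : a = 0 ∧ b = 0 := by
  classical
  let δ : ℕ → ℝ := fun i => if i = j then a else if i = k then b else 0
  have hsupp : ∀ i ∉ ({j, k} : Finset ℕ), δ i = 0 := by
    intro i hi
    simp only [Finset.mem_insert, Finset.mem_singleton, not_or] at hi
    simp only [δ, if_neg hi.1, if_neg hi.2]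
  have hs : Summable δ := summable_of_ne_finset_zero (s := {j, k}) hsupp
  have ht : ∑' i, δ i • 𝔰.x i = 0 := by
    rw [tsum_eq_sum (s := {j, k}) (fun i hi => by rw [hsupp i hi, zero_smul]),
      Finset.sum_pair hjk]
    simp only [δ, if_true, if_neg hjk.symm]
    exact h
  have := 𝔰.hinj δ hs ht
  exact ⟨by simpa [δ] using this j, by simpa [δ, hjk.symm] using this k⟩

theorem additive_of (P : Cyl → ℝ) (h : ∀ q q', P q + P q' + P (-(q + q')) = 0) :
    ∀ q q', P (q + q') = P q + P q' := by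
  have h0 : P 0 = 0 := by have := h 0 0; simp only [add_zero, neg_zero] at this; linarith
  have hn : ∀ q, P (-q) = - P q := by
    intro q; have := h q 0; rw [add_zero, h0] at this; linarith
  intro q q'
  have := h q q'
  rw [hn] at this
  linarith

/-- null families vanish -/
theorem null_zero [CompleteSpace E] (𝔡 : Dec 𝔰) (γ : ℕ → ℝ) (hγ0 : Null 𝔡 γ) : ∀ i, γ i = 0 := by
  classical
  have hγ : Star 𝔡 γ := star 𝔡 γ hγ0
  choose ψ hψ using fun d => exists_lim 𝔡 γ hγ d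
  -- additivity
  have hadd0 : ∀ j k q q', ψ (j, k, q) + ψ (j, k, q') + ψ (j, k, -(q + q')) = 0 := by
    intro j k q q'
    let dd : ℕ → ℕ × ℕ × Cyl := fun t => if t = 0 then (j, k, q) else if t = 1 then (j, k, q')
      else (j, k, -(q + q'))
    have := rel_lim 𝔡 γ hγ ψ hψ 3 dd (by
      intro s
      simp only [Finset.sum_range_succ, Finset.sum_range_zero, zero_add, dd, md, if_true,
        if_neg one_ne_zero, if_neg two_ne_zero, show (2:ℕ) ≠ 1 by norm_num, if_false, ← add_smul]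
      rw [map_neg, map_add]
      push_cast
      rw [add_neg_cancel, zero_smul])
    simp only [Finset.sum_range_succ, Finset.sum_range_zero, zero_add, dd, md, if_true,
        if_neg one_ne_zero, if_neg two_ne_zero, show (2:ℕ) ≠ 1 by norm_num, if_false,
        ← add_smul] at this
    have h2 := congrArg 𝔰.φ this
    rw [map_smul, φ_mid, map_zero, smul_eq_mul, mul_one] at h2
    exact h2
  have hadd : ∀ j k q q', ψ (j, k, q + q') = ψ (j, k, q) + ψ (j, k, q') := fun j k =>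
    additive_of (fun q => ψ (j, k, q)) (hadd0 j k)
  have hzero : ∀ j k, ψ (j, k, 0) = 0 := by
    intro j k; have := hadd j k 0 0; rw [add_zero] at this; linarith
  have hneg : ∀ j k q, ψ (j, k, -q) = -ψ (j, k, q) := by
    intro j k q; have := hadd j k q (-q); rw [add_neg_cancel, hzero] at this; linarith
  -- independence of the base points
  have hmid : ∀ j k q, j ≠ k → ψ (j, k, q) = ψ (j, j, q) ∧ ψ (j, k, q) = ψ (k, k, q) := by
    intro j k q hjk
    let dd : ℕ → ℕ × ℕ × Cyl := fun t => if t = 0 then (j, k, q + q) else if t = 1 then (j, j, -q)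
      else (k, k, -q)
    have := rel_lim 𝔡 γ hγ ψ hψ 3 dd (by
      intro s
      simp only [Finset.sum_range_succ, Finset.sum_range_zero, zero_add, dd, md, if_true,
        if_neg one_ne_zero, if_neg two_ne_zero, show (2:ℕ) ≠ 1 by norm_num, if_false]
      rw [mid_self, mid_self, map_neg, map_add]
      unfold mid
      push_cast
      module)
    simp only [Finset.sum_range_succ, Finset.sum_range_zero, zero_add, dd, md, if_true,
        if_neg one_ne_zero, if_neg two_ne_zero, show (2:ℕ) ≠ 1 by norm_num, if_false] at this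
    rw [mid_self, mid_self, hadd, hneg, hneg] at this
    have h2 : (ψ (j, k, q) - ψ (j, j, q)) • 𝔰.x j + (ψ (j, k, q) - ψ (k, k, q)) • 𝔰.x k = 0 := by
      rw [← this]; unfold mid; module
    obtain ⟨h3, h4⟩ := indep 𝔰 hjk h2
    exact ⟨by linarith, by linarith⟩
  have hbase : ∀ j k q, ψ (j, k, q) = ψ (0, 0, q) := by
    have hjj : ∀ j q, ψ (j, j, q) = ψ (0, 0, q) := by
      intro j q
      rcases eq_or_ne j 0 with rfl | hj
      · rfl
      · obtain ⟨h1, h2⟩ := hmid j 0 q hj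
        rw [← h1, h2]
    intro j k q
    rcases eq_or_ne j k with rfl | hjk
    · exact hjj j q
    · rw [(hmid j k q hjk).1, hjj]
  let Ψ : Cyl →+ ℝ := AddMonoidHom.mk' (fun q => ψ (0, 0, q)) (hadd 0 0)
  have hΨ : ∀ q, Ψ q = ψ (0, 0, q) := fun q => rfl
  -- finite dependence
  obtain ⟨S1, e1, n1, he1, h1⟩ := hγ 1 one_pos
  have hvan : ∀ q : Cyl, (∀ s ∈ S1, val (𝔡.b s) q = 0) → Ψ q = 0 := by
    have hb : ∀ q : Cyl, (∀ s ∈ S1, val (𝔡.b s) q = 0) → |Ψ q| ≤ 1 := by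
      intro q hq
      apply le_of_forall_pos_lt_add
      intro η hη
      obtain ⟨N, hN⟩ := hψ (0, 0, q) η hη
      obtain ⟨i, hi, hd⟩ := 𝔰.hinf (0, 0, q) (max N (n1 + 1))
      have h2 := hN i (le_trans (le_max_left _ _) hi) hd
      have h3 := h1 {i} (by
        intro i' hi'
        rw [Finset.mem_singleton] at hi'
        rw [hi']
        exact lt_of_lt_of_le (Nat.lt_succ_self n1) (le_trans (le_max_right _ _) hi)) (by
        intro s hs
        unfold Dec.G Dec.al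
        rw [Finset.sum_singleton, hd]
        simp only
        rw [hq s hs]
        simpa using he1)
      rw [Finset.sum_singleton] at h3
      have h4 := φ_le 𝔰 (γ i • 𝔰.x i)
      rw [map_smul, 𝔰.hφ, smul_eq_mul, mul_one] at h4
      rw [hΨ]
      have := abs_sub_abs_le_abs_sub (ψ (0, 0, q)) (γ i)
      rw [abs_sub_comm] at this
      linarith
    intro q hq
    by_contra hne
    obtain ⟨t, ht⟩ := exists_nat_gt (1 / |Ψ q|)
    have hpos : 0 < |Ψ q| := abs_pos.2 hne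
    rw [div_lt_iff₀ hpos] at ht
    have h2 := hb (t • q) (fun s hs => by rw [map_nsmul, hq s hs, smul_zero])
    rw [map_nsmul, nsmul_eq_mul, abs_mul, Nat.abs_cast] at h2
    linarith
  choose e he using fun s : 𝔡.S => interp 𝔡.b 𝔡.hb S1 (fun s' => if s' = s then 1 else 0)
  have hform : ∀ q : Cyl, Ψ q = ∑ s ∈ S1, ((val (𝔡.b s) q : ℚ) : ℝ) * Ψ (e s) := by
    intro q
    have h2 := hvan (q - ∑ s ∈ S1, (val (𝔡.b s) q) • e s) (by
      intro s hs
      rw [map_sub, map_sum, Finset.sum_eq_single s]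
      · rw [map_smul, he s s hs]; simp
      · intro s' hs' hne
        rw [map_smul, he s' s hs, if_neg hne.symm, smul_zero]
      · intro h; exact absurd hs h)
    rw [map_sub, map_sum, sub_eq_zero] at h2
    rw [h2]
    apply Finset.sum_congr rfl
    intro s _
    rw [map_rat_smul, Rat.smul_def]
  -- the absolutely summable part
  let δ : ℕ → ℝ := fun i => γ i - Ψ (𝔰.D i).2.2
  have hδ : Summable δ := by
    rw [summable_iff_vanishing_norm]
    intro ε hε
    obtain ⟨S', e', n, he', h2⟩ := hγ (ε / 2) (by linarith)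
    refine ⟨Finset.range (n + 1), fun t ht => ?_⟩
    set V : ℝ := ∑ s ∈ S', ∑ i ∈ t, |𝔡.al i s| with hV
    have hV0 : 0 ≤ V := Finset.sum_nonneg (fun s _ => Finset.sum_nonneg (fun t _ => abs_nonneg _))
    obtain ⟨κ, hκ⟩ : ∃ κ : ℝ, κ = (t.card : ℝ) := ⟨_, rfl⟩
    have hκ0 : 0 ≤ κ := by rw [hκ]; exact Nat.cast_nonneg _
    set η : ℝ := min (e' / (V + 1)) (ε / (4 * (κ + 1))) with hη
    have hη0 : 0 < η := lt_min (by positivity) (by positivity)
    have hpart : ∀ i : ℕ, ∃ g, max (t.sup id) n < g ∧ 𝔰.D g = (i, i, -(𝔰.D i).2.2) ∧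
        ‖𝔰.x g - 𝔰.x i‖ < η ∧ |γ g - ψ (i, i, -(𝔰.D i).2.2)| < η := by
      intro i
      obtain ⟨N, hN⟩ := hψ (i, i, -(𝔰.D i).2.2) η hη0
      obtain ⟨g, hg, hd, hnear⟩ := near 𝔰 i i (-(𝔰.D i).2.2) (max (max (t.sup id) n + 1) N) η hη0
      rw [mid_self] at hnear
      exact ⟨g, lt_of_lt_of_le (Nat.lt_succ_self _) (le_trans (le_max_left _ _) hg), hd, hnear,
        hN g (le_trans (le_max_right _ _) hg) hd⟩
    choose g hg1 hg2 hg3 hg4 using hpart
    have hginj : Function.Injective g := by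
      intro a b hab
      have h3 := hg2 a
      have h4 := hg2 b
      rw [hab, h4] at h3
      exact (Prod.ext_iff.1 h3).1.symm
    have hdisj : Disjoint t (t.image g) := by
      rw [Finset.disjoint_right]
      intro i hi hi'
      obtain ⟨l, _, rfl⟩ := Finset.mem_image.1 hi
      have h3 : g l ≤ t.sup id := Finset.le_sup (f := id) hi'
      have h4 := hg1 l
      have h5 := le_max_left (t.sup id) n
      omega
    have h3 := h2 (t ∪ t.image g) (by
      intro i hi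
      rcases Finset.mem_union.1 hi with hi | hi
      · by_contra hcon
        exact (Finset.disjoint_left.1 ht hi) (Finset.mem_range.2 (by omega))
      · obtain ⟨l, _, rfl⟩ := Finset.mem_image.1 hi
        have h4 := hg1 l
        have h5 := le_max_right (t.sup id) n
        omega) (by
      intro s hs
      have e2 : 𝔡.G (t ∪ t.image g) s = ∑ i ∈ t, 𝔡.al i s • (𝔰.x i - 𝔰.x (g i)) := by
        unfold Dec.G
        rw [Finset.sum_union hdisj, Finset.sum_image hginj.injOn, ← Finset.sum_add_distrib]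
        apply Finset.sum_congr rfl
        intro i _
        have : 𝔡.al (g i) s = - 𝔡.al i s := by
          unfold Dec.al; rw [hg2 i]; simp only; rw [map_neg]; push_cast; rfl
        rw [this, smul_sub, neg_smul]; abel
      rw [e2]
      have h4 : ‖∑ i ∈ t, 𝔡.al i s • (𝔰.x i - 𝔰.x (g i))‖ ≤ V * η := by
        refine (norm_sum_le _ _).trans ?_
        have h5 : ∀ i ∈ t, ‖𝔡.al i s • (𝔰.x i - 𝔰.x (g i))‖ ≤ |𝔡.al i s| * η := by
          intro i _
          rw [norm_smul, Real.norm_eq_abs, norm_sub_rev]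
          exact mul_le_mul_of_nonneg_left (hg3 i).le (abs_nonneg _)
        refine (Finset.sum_le_sum h5).trans ?_
        rw [← Finset.sum_mul]
        apply mul_le_mul_of_nonneg_right _ hη0.le
        exact Finset.single_le_sum (f := fun s => ∑ i ∈ t, |𝔡.al i s|)
          (fun s _ => Finset.sum_nonneg (fun l _ => abs_nonneg _)) hs
      have h5 : V * η < e' := by
        have h6 : V * η ≤ V * (e' / (V + 1)) := mul_le_mul_of_nonneg_left (min_le_left _ _) hV0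
        have h7 : V * (e' / (V + 1)) < e' := by
          rw [← mul_div_assoc, div_lt_iff₀ (by positivity)]; nlinarith
        linarith
      linarith)
    rw [Finset.sum_union hdisj, Finset.sum_image hginj.injOn] at h3
    have h4 := φ_le 𝔰 (∑ i ∈ t, γ i • 𝔰.x i + ∑ i ∈ t, γ (g i) • 𝔰.x (g i))
    simp only [map_add, map_sum, map_smul, 𝔰.hφ, smul_eq_mul, mul_one] at h4
    have e3 : ∑ i ∈ t, δ i = (∑ i ∈ t, γ i + ∑ i ∈ t, γ (g i)) -
        ∑ i ∈ t, (γ (g i) - ψ (i, i, -(𝔰.D i).2.2)) := by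
      rw [← Finset.sum_add_distrib, ← Finset.sum_sub_distrib]
      apply Finset.sum_congr rfl
      intro i _
      simp only [δ]
      rw [hΨ, hneg, hbase i i]
      ring
    have h5 : |∑ i ∈ t, (γ (g i) - ψ (i, i, -(𝔰.D i).2.2))| ≤ κ * η := by
      refine (Finset.abs_sum_le_sum_abs _ _).trans ?_
      refine (Finset.sum_le_sum (fun i _ => (hg4 i).le)).trans ?_
      rw [Finset.sum_const, nsmul_eq_mul, hκ]
    have h6 : κ * η ≤ ε / 4 := by
      have h7 : η ≤ ε / (4 * (κ + 1)) := min_le_right _ _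
      have h8 : κ * η ≤ κ * (ε / (4 * (κ + 1))) := mul_le_mul_of_nonneg_left h7 hκ0
      have h9 : κ * (ε / (4 * (κ + 1))) ≤ ε / 4 := by
        rw [← mul_div_assoc, div_le_iff₀ (by positivity)]
        have : ε / 4 * (4 * (κ + 1)) = κ * ε + ε := by ring
        rw [this]
        linarith
      exact h8.trans h9
    rw [Real.norm_eq_abs, e3]
    have := abs_sub (∑ i ∈ t, γ i + ∑ i ∈ t, γ (g i))
      (∑ i ∈ t, (γ (g i) - ψ (i, i, -(𝔰.D i).2.2)))
    linarith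
  -- the limit
  let c : 𝔡.S →₀ ℝ := Finsupp.indicator S1 (fun s _ => Ψ (e s))
  set y : E := ∑' i, δ i • 𝔰.x i + c.sum (fun s r => r • 𝔡.w s) with hy
  have hco : 𝔡.co y = (δ, c) := 𝔡.huniq δ c hδ
  have hf : ∀ i, 𝔡.f i y = γ i := by
    intro i
    unfold Dec.f
    rw [hco]
    simp only
    have : c.sum (fun s r => r * 𝔡.al i s) = ∑ s ∈ S1, Ψ (e s) * 𝔡.al i s := by
      rw [Finsupp.sum_of_support_subset (s := S1)]
      · apply Finset.sum_congr rfl
        intro s hs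
        simp only [c]
        rw [Finsupp.indicator_of_mem hs]
      · exact Finsupp.support_indicator_subset _ _
      · intro s _; simp
    rw [this]
    simp only [δ]
    have h2 := hform (𝔰.D i).2.2
    have h3 : ∑ s ∈ S1, Ψ (e s) * 𝔡.al i s = Ψ (𝔰.D i).2.2 := by
      rw [h2]
      apply Finset.sum_congr rfl
      intro s _
      unfold Dec.al
      ring
    rw [h3]; ring
  have hy0 : y = 0 := by
    rw [← norm_eq_zero]
    apply le_antisymm _ (norm_nonneg _)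
    apply le_of_forall_pos_lt_add
    intro ε hε
    obtain ⟨Ξ, e2, B, he2, h2⟩ := hγ0 (ε / 2) (by linarith)
    obtain ⟨A, hA1, hA2⟩ := approx 𝔡 (insert y Ξ) (min e2 (ε / 2)) (lt_min he2 (by linarith)) B
    have h3 := h2 A hA1 (fun z hz => lt_of_lt_of_le (hA2 z (Finset.mem_insert_of_mem hz))
      (min_le_left _ _))
    have h4 := lt_of_lt_of_le (hA2 y (Finset.mem_insert_self _ _)) (min_le_right _ _)
    have e3 : 𝔡.SA A y = ∑ i ∈ A, γ i • 𝔰.x i := by
      unfold Dec.SA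
      apply Finset.sum_congr rfl
      intro i _
      rw [hf]
    rw [e3] at h4
    have := norm_add_le (y - ∑ i ∈ A, γ i • 𝔰.x i) (∑ i ∈ A, γ i • 𝔰.x i)
    rw [sub_add_cancel] at this
    linarith
  have h0 : 𝔡.co 0 = (0, 0) := by
    have h2 := 𝔡.huniq (fun _ => 0) 0 summable_zero
    simp only [zero_smul, tsum_zero, Finsupp.sum_zero_index, add_zero] at h2
    exact h2
  intro i
  rw [← hf i, hy0]
  unfold Dec.f
  rw [h0]
  simp

end Q101.CbC
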