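import Pool.Agent.Q101.CbC

set_option autoImplicit false

namespace Q101.CbD

open Q101.CbA Q101.CbB Filter Topology

/-- the coordinates -/
noncomputable def tt (D : ℕ → ℕ × ℕ × Cyl) : ℕ → ℕ → ℝ
  | i, n =>
    if i < n then (if (Nat.unpair n).1 = i then 1 else 0)
    else if h : (D i).1 < i ∧ (D i).2.1 < i then
      have := h.1
      have := h.2
      (tt D (D i).1 n + tt D (D i).2.1 n) / 2
    else (if n = 0 then 1 else 0)
  termination_by i => i

theorem tt_lt (D : ℕ → ℕ × ℕ × Cyl) {i n : ℕ} (h : i < n) :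
    tt D i n = if (Nat.unpair n).1 = i then 1 else 0 := by
  rw [tt, if_pos h]

theorem tt_mid (D : ℕ → ℕ × ℕ × Cyl) {i n : ℕ} (h : ¬ i < n) (h1 : (D i).1 < i)
    (h2 : (D i).2.1 < i) : tt D i n = (tt D (D i).1 n + tt D (D i).2.1 n) / 2 := by
  rw [tt, if_neg h, dif_pos ⟨h1, h2⟩]

theorem tt_mem (D : ℕ → ℕ × ℕ × Cyl) (n : ℕ) : ∀ i, 0 ≤ tt D i n ∧ tt D i n ≤ 1 := by
  intro i
  induction i using Nat.strong_induction_on with
  | _ i ih =>
    by_cases h : i < n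
    · rw [tt_lt D h]; split_ifs <;> norm_num
    · by_cases h2 : (D i).1 < i ∧ (D i).2.1 < i
      · rw [tt_mid D h h2.1 h2.2]
        have a1 := ih _ h2.1
        have a2 := ih _ h2.2
        constructor <;> linarith
      · rw [tt, if_neg h, dif_neg h2]; split_ifs <;> norm_num

theorem tt_zero (D : ℕ → ℕ × ℕ × Cyl) : ∀ i, tt D i 0 = 1 := by
  intro i
  induction i using Nat.strong_induction_on with
  | _ i ih =>
    by_cases h2 : (D i).1 < i ∧ (D i).2.1 < i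
    · rw [tt_mid D (Nat.not_lt_zero _) h2.1 h2.2, ih _ h2.1, ih _ h2.2]; norm_num
    · rw [tt, if_neg (Nat.not_lt_zero _), dif_neg h2]; simp

/-- the vectors -/
noncomputable def xx (D : ℕ → ℕ × ℕ × Cyl) (i : ℕ) : BoundedContinuousFunction ℕ ℝ :=
  BoundedContinuousFunction.ofNormedAddCommGroupDiscrete (fun n => (1 / 2 : ℝ) ^ n * tt D i n) 1 (by
    intro n
    rw [Real.norm_eq_abs, abs_of_nonneg (mul_nonneg (by positivity) (tt_mem D n i).1)]
    have h1 : (1 / 2 : ℝ) ^ n ≤ 1 := pow_le_one₀ (by norm_num) (by norm_num)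
    have h2 := tt_mem D n i
    have h3 : (0:ℝ) ≤ (1 / 2 : ℝ) ^ n := by positivity
    nlinarith)

theorem xx_apply (D : ℕ → ℕ × ℕ × Cyl) (i n : ℕ) : xx D i n = (1 / 2 : ℝ) ^ n * tt D i n := rfl

theorem xx_norm (D : ℕ → ℕ × ℕ × Cyl) (i : ℕ) : ‖xx D i‖ ≤ 1 := by
  rw [BoundedContinuousFunction.norm_le zero_le_one]
  intro n
  rw [xx_apply, Real.norm_eq_abs, abs_of_nonneg (mul_nonneg (by positivity) (tt_mem D n i).1)]
  have h1 : (1 / 2 : ℝ) ^ n ≤ 1 := pow_le_one₀ (by norm_num) (by norm_num)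
  have h2 := tt_mem D n i
  have h3 : (0:ℝ) ≤ (1 / 2 : ℝ) ^ n := by positivity
  nlinarith

theorem xx_app (D : ℕ → ℕ × ℕ × Cyl) (i : ℕ) (h1 : (D i).1 < i) (h2 : (D i).2.1 < i) :
    ‖xx D i - (1 / 2 : ℝ) • (xx D (D i).1 + xx D (D i).2.1)‖ ≤ (1 / 2) ^ i := by
  rw [BoundedContinuousFunction.norm_le (by positivity)]
  intro n
  rw [BoundedContinuousFunction.sub_apply, BoundedContinuousFunction.smul_apply,
    BoundedContinuousFunction.add_apply, xx_apply, xx_apply, xx_apply, Real.norm_eq_abs, smul_eq_mul]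
  by_cases h : i < n
  · have a1 := tt_mem D n (D i).1
    have a2 := tt_mem D n (D i).2.1
    have a3 := tt_mem D n i
    have e : (1 / 2 : ℝ) ^ n * tt D i n - 1 / 2 * ((1 / 2 : ℝ) ^ n * tt D (D i).1 n +
      (1 / 2 : ℝ) ^ n * tt D (D i).2.1 n) = (1 / 2 : ℝ) ^ n *
        (tt D i n - (tt D (D i).1 n + tt D (D i).2.1 n) / 2) := by ring
    rw [e, abs_mul, abs_of_nonneg (show (0:ℝ) ≤ (1 / 2 : ℝ) ^ n by positivity)]
    have b1 : |tt D i n - (tt D (D i).1 n + tt D (D i).2.1 n) / 2| ≤ 1 := by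
      rw [abs_le]; constructor <;> linarith
    have b2 : (1 / 2 : ℝ) ^ n ≤ (1 / 2 : ℝ) ^ i :=
      pow_le_pow_of_le_one (by norm_num) (by norm_num) h.le
    have b3 : (0:ℝ) ≤ (1 / 2 : ℝ) ^ n := by positivity
    calc (1 / 2 : ℝ) ^ n * |tt D i n - (tt D (D i).1 n + tt D (D i).2.1 n) / 2|
        ≤ (1 / 2 : ℝ) ^ n * 1 := mul_le_mul_of_nonneg_left b1 b3
      _ ≤ (1 / 2 : ℝ) ^ i := by rw [mul_one]; exact b2
  · rw [tt_mid D h h1 h2]
    have e : (1 / 2 : ℝ) ^ n * ((tt D (D i).1 n + tt D (D i).2.1 n) / 2) -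
      1 / 2 * ((1 / 2 : ℝ) ^ n * tt D (D i).1 n + (1 / 2 : ℝ) ^ n * tt D (D i).2.1 n) = 0 := by ring
    rw [e, abs_zero]
    positivity

theorem xx_inj (D : ℕ → ℕ × ℕ × Cyl) (δ : ℕ → ℝ) (hδ : Summable δ)
    (h : ∀ n, ∑' i, δ i * tt D i n = 0) : ∀ i, δ i = 0 := by
  intro j
  have hs : ∀ n, Summable (fun i => δ i * tt D i n) := by
    intro n
    apply Summable.of_norm_bounded (g := fun i => |δ i|) hδ.abs
    intro i
    rw [Real.norm_eq_abs, abs_mul, abs_of_nonneg (tt_mem D n i).1]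
    have := (tt_mem D n i).2
    nlinarith [abs_nonneg (δ i)]
  have hb : ∀ n, j < n → (Nat.unpair n).1 = j → |δ j| ≤ ∑' k, |δ (k + n)| := by
    intro n hm hn
    have h1 := (hs n).sum_add_tsum_nat_add n
    rw [h n] at h1
    have h2 : ∑ i ∈ Finset.range n, δ i * tt D i n = δ j := by
      rw [Finset.sum_eq_single j]
      · rw [tt_lt D hm, hn, if_pos rfl, mul_one]
      · intro i hi hne
        rw [Finset.mem_range] at hi
        rw [tt_lt D hi, hn, if_neg (fun h => hne h.symm), mul_zero]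
      · intro hj; exact absurd (Finset.mem_range.2 hm) hj
    rw [h2] at h1
    have h3 : δ j = - ∑' k, δ (k + n) * tt D (k + n) n := by linarith
    rw [h3, abs_neg]
    have h4 : Summable (fun k => |δ (k + n)|) := (summable_nat_add_iff n).2 hδ.abs
    have h5 : Summable (fun k => |δ (k + n) * tt D (k + n) n|) :=
      (summable_nat_add_iff n).2 (hs n).abs
    have h6 : |∑' k, δ (k + n) * tt D (k + n) n| ≤ ∑' k, |δ (k + n) * tt D (k + n) n| :=
      norm_tsum_le_tsum_norm (f := fun k => δ (k + n) * tt D (k + n) n) h5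
    refine h6.trans (Summable.tsum_le_tsum (fun k => ?_) h5 h4)
    rw [abs_mul, abs_of_nonneg (tt_mem D n (k + n)).1]
    have := (tt_mem D n (k + n)).2
    nlinarith [abs_nonneg (δ (k + n))]
  have ht : Tendsto (fun m => ∑' k, |δ (k + Nat.pair j m)|) atTop (𝓝 0) :=
    (tendsto_sum_nat_add (fun k => |δ k|)).comp
      (tendsto_atTop_mono (fun m => Nat.right_le_pair j m) tendsto_id)
  have h0 : |δ j| ≤ 0 := by
    refine ge_of_tendsto ht ?_
    filter_upwards [eventually_gt_atTop j] with m hm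
    exact hb _ (lt_of_lt_of_le hm (Nat.right_le_pair j m)) (by rw [Nat.unpair_pair])
  exact abs_eq_zero.1 (le_antisymm h0 (abs_nonneg _))

/-- the closed span -/
noncomputable abbrev EE (D : ℕ → ℕ × ℕ × Cyl) : Submodule ℝ (BoundedContinuousFunction ℕ ℝ) :=
  (Submodule.span ℝ (Set.range (xx D))).topologicalClosure

theorem xx_memEE (D : ℕ → ℕ × ℕ × Cyl) (i : ℕ) : xx D i ∈ EE D :=
  Submodule.le_topologicalClosure _ (Submodule.subset_span ⟨i, rfl⟩)

/-- vectors in the closed span -/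
noncomputable def xE (D : ℕ → ℕ × ℕ × Cyl) (i : ℕ) : EE D := ⟨xx D i, xx_memEE D i⟩

/-- evaluation -/
noncomputable def ev (D : ℕ → ℕ × ℕ × Cyl) (n : ℕ) : EE D →L[ℝ] ℝ :=
  (BoundedContinuousFunction.evalCLM ℝ n).comp (EE D).subtypeL

theorem ev_apply (D : ℕ → ℕ × ℕ × Cyl) (n : ℕ) (v : EE D) : ev D n v = v.1 n := rfl

noncomputable instance (D : ℕ → ℕ × ℕ × Cyl) : CompleteSpace (EE D) :=
  (Submodule.isClosed_topologicalClosure _).completeSpace_coe

theorem xE_norm (D : ℕ → ℕ × ℕ × Cyl) (i : ℕ) : ‖xE D i‖ ≤ 1 := by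
  rw [← Submodule.norm_coe]
  exact xx_norm D i

theorem ev_xE (D : ℕ → ℕ × ℕ × Cyl) (i n : ℕ) : ev D n (xE D i) = (1 / 2 : ℝ) ^ n * tt D i n := by
  rw [ev_apply]
  exact xx_apply D i n

theorem xE_dense (D : ℕ → ℕ × ℕ × Cyl) (v : EE D) (ε : ℝ) (hε : 0 < ε) :
    ∃ (N : ℕ) (u : ℕ → ℝ), ‖v - ∑ l ∈ Finset.range N, u l • xE D l‖ < ε := by
  have hv : v.1 ∈ closure (Submodule.span ℝ (Set.range (xx D)) : Set _) := v.2
  obtain ⟨w, hw, hd⟩ := Metric.mem_closure_iff.1 hv ε hε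
  obtain ⟨c, hc⟩ := Finsupp.mem_span_range_iff_exists_finsupp.1 hw
  refine ⟨c.support.sup id + 1, c, ?_⟩
  have e1 : ∑ l ∈ Finset.range (c.support.sup id + 1), c l • xx D l = w := by
    rw [← hc]
    symm
    apply Finsupp.sum_of_support_subset
    · intro l hl
      rw [Finset.mem_range]
      exact Nat.lt_succ_of_le (Finset.le_sup (f := id) hl)
    · intro l _; rw [zero_smul]
  rw [dist_eq_norm] at hd
  have e2 : (v - ∑ l ∈ Finset.range (c.support.sup id + 1), c l • xE D l).1 = v.1 - w := by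
    rw [← e1, Submodule.coe_sub, Submodule.coe_sum]
    rfl
  rw [← Submodule.norm_coe, e2]
  exact hd

theorem gen_zero {F : Type} [NormedAddCommGroup F] [NormedSpace ℝ F] [CompleteSpace F] (x : ℕ → F)
    (hx : ∀ i, ‖x i‖ ≤ 1) (L : F →L[ℝ] ℝ) (δ : ℕ → ℝ) (hδ : Summable δ)
    (h : ∑' i, δ i • x i = 0) : ∑' i, δ i * L (x i) = 0 := by
  have hs : Summable (fun i => δ i • x i) := by
    apply Summable.of_norm_bounded (g := fun i => |δ i|) hδ.abs
    intro i
    rw [norm_smul, Real.norm_eq_abs]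
    exact mul_le_of_le_one_right (abs_nonneg _) (hx i)
  have h1 := L.map_tsum hs
  rw [h, map_zero] at h1
  rw [h1]
  apply tsum_congr
  intro i
  rw [map_smul, smul_eq_mul]

theorem xE_inj (D : ℕ → ℕ × ℕ × Cyl) (δ : ℕ → ℝ) (hδ : Summable δ)
    (h : ∑' i, δ i • xE D i = 0) : ∀ i, δ i = 0 := by
  apply xx_inj D δ hδ
  intro n
  have h1 := gen_zero (xE D) (xE_norm D) (ev D n) δ hδ h
  have h2 : ∀ i, δ i * ev D n (xE D i) = (1 / 2 : ℝ) ^ n * (δ i * tt D i n) := by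
    intro i
    rw [ev_xE]; ring
  simp only [h2] at h1
  rw [tsum_mul_left] at h1
  have h3 : (1 / 2 : ℝ) ^ n ≠ 0 := by positivity
  rcases mul_eq_zero.1 h1 with h4 | h4
  · exact absurd h4 h3
  · exact h4

theorem xE_app (D : ℕ → ℕ × ℕ × Cyl) (i : ℕ) (h1 : (D i).1 < i) (h2 : (D i).2.1 < i) :
    ‖xE D i - (1 / 2 : ℝ) • (xE D (D i).1 + xE D (D i).2.1)‖ ≤ (1 / 2) ^ i := by
  rw [← Submodule.norm_coe]
  exact xx_app D i h1 h2

theorem ev_le (D : ℕ → ℕ × ℕ × Cyl) (v : EE D) : |ev D 0 v| ≤ ‖v‖ := by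
  rw [ev_apply, ← Submodule.norm_coe]
  exact v.1.norm_coe_le_norm 0

theorem exists_sys : ∃ (E : Type) (_ : NormedAddCommGroup E) (_ : NormedSpace ℝ E)
    (_ : CompleteSpace E) (_ : Sys E), ∃ g : E → (ℕ → ℝ), Function.Injective g := by
  obtain ⟨e, he⟩ := exists_surjective_nat (ℕ × ℕ × Cyl)
  obtain ⟨D, hD⟩ : ∃ D : ℕ → ℕ × ℕ × Cyl, ∀ i, D i = e (Nat.unpair i).1 :=
    ⟨fun i => e (Nat.unpair i).1, fun _ => rfl⟩
  refine ⟨EE D, inferInstance, inferInstance, inferInstance, ?_, fun v => v.1, ?_⟩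
  · refine
      { x := xE D
        D := D
        φ := ev D 0
        hx := fun i => xE_norm D i
        hφ := ?_
        hφ1 := ev_le D
        hdense := xE_dense D
        hinj := xE_inj D
        hinf := ?_
        happ := xE_app D }
    · intro i
      rw [ev_xE, tt_zero]; norm_num
    · intro d N
      obtain ⟨a, ha⟩ := he d
      refine ⟨Nat.pair a N, Nat.right_le_pair a N, ?_⟩
      rw [hD, Nat.unpair_pair]
      exact ha
  · intro v w h
    apply Subtype.ext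
    ext n
    exact congrFun h n

end Q101.CbD
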