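import Mathlib

set_option autoImplicit false

namespace Q101.CbDefs

variable {I E : Type} [NormedAddCommGroup E] [NormedSpace ℝ E]

/-- `y = ∑^𝒟 α i • X i`: for every `ε > 0` there is `d ∈ 𝒟` such that the sum over every `d' ∈ 𝒟`
with `d ⊆ d'` is `ε`-close to `y`. -/
def DSum (𝒟 : Set (Finset I)) (X : I → E) (α : I → ℝ) (y : E) : Prop :=
  ∀ ε > 0, ∃ d ∈ 𝒟, ∀ d' ∈ 𝒟, d ⊆ d' → ‖y - ∑ i ∈ d', α i • X i‖ < ε

/-- `X` is an `(I, 𝒟)`-conditional basis: every `y` has exactly one family of coefficients. -/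
def IsCondBasis (𝒟 : Set (Finset I)) (X : I → E) : Prop :=
  ∀ y : E, ∃! α : I → ℝ, DSum 𝒟 X α y

end Q101.CbDefs
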