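import Pool.Agent.Q101.CbD

set_option autoImplicit false

namespace Q101.CbE

open Q101.CbA Q101.CbB Q101.CbD Filter Topology

theorem exists_code {T : Type} (g : T → (ℕ → ℝ)) (hg : Function.Injective g) :
    ∃ b : T → (ℕ → Bool), Function.Injective b := by
  have h1 : Cardinal.mk (ℕ → ℝ) = Cardinal.mk (ℕ → Bool) := by
    rw [← Cardinal.power_def, ← Cardinal.power_def, Cardinal.mk_real, Cardinal.mk_nat,
      Cardinal.continuum_power_aleph0, Cardinal.mk_bool, Cardinal.two_power_aleph0]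
  obtain ⟨e⟩ := Cardinal.eq.1 h1
  exact ⟨fun t => e (g t), e.injective.comp hg⟩

variable {E : Type} [NormedAddCommGroup E] [NormedSpace ℝ E] [CompleteSpace E]

/-- the absolutely convergent sums -/
def RR (𝔰 : Sys E) : Submodule ℝ E where
  carrier := {y | ∃ δ : ℕ → ℝ, Summable δ ∧ y = ∑' i, δ i • 𝔰.x i}
  add_mem' := by
    rintro _ _ ⟨δ, hδ, rfl⟩ ⟨δ', hδ', rfl⟩
    refine ⟨fun i => δ i + δ' i, hδ.add hδ', ?_⟩
    rw [← (summable_smul 𝔰 hδ).tsum_add (summable_smul 𝔰 hδ')]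
    simp only [add_smul]
  zero_mem' := ⟨fun _ => 0, summable_zero, by simp⟩
  smul_mem' := by
    rintro r _ ⟨δ, hδ, rfl⟩
    refine ⟨fun i => r * δ i, hδ.mul_left r, ?_⟩
    rw [← (summable_smul 𝔰 hδ).tsum_const_smul r]
    simp only [smul_smul]

theorem exists_dec (𝔰 : Sys E) (hg : ∃ g : E → (ℕ → ℝ), Function.Injective g) :
    Nonempty (Dec 𝔰) := by
  classical
  obtain ⟨g, hg⟩ := hg
  obtain ⟨W, hW⟩ := Submodule.exists_isCompl (RR 𝔰)
  let B := Module.Basis.ofVectorSpace ℝ W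
  let S : Type := Module.Basis.ofVectorSpaceIndex ℝ W
  let w : S → E := fun s => ((B s : W) : E)
  have hsum : ∀ c : S →₀ ℝ, c.sum (fun s r => r • w s) =
      ((Finsupp.linearCombination ℝ B c : W) : E) := by
    intro c
    rw [Finsupp.linearCombination_apply]
    unfold Finsupp.sum
    rw [Submodule.coe_sum]
    rfl
  obtain ⟨b, hb⟩ := exists_code (T := S) (fun s => g (w s)) (by
    intro s s' h
    have h1 : w s = w s' := hg h
    exact B.injective (Subtype.ext h1))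
  have hex : ∀ y : E, ∃ p : (ℕ → ℝ) × (S →₀ ℝ), Summable p.1 ∧
      y = ∑' i, p.1 i • 𝔰.x i + p.2.sum (fun s r => r • w s) := by
    intro y
    have hy : y ∈ RR 𝔰 ⊔ W := by rw [hW.sup_eq_top]; trivial
    obtain ⟨r, ⟨δ, hδ, rfl⟩, v, hv, rfl⟩ := Submodule.mem_sup.1 hy
    refine ⟨(δ, B.repr ⟨v, hv⟩), hδ, ?_⟩
    simp only
    rw [hsum, B.linearCombination_repr]
  choose co hco using hex
  refine ⟨{ S := S, w := w, b := b, hb := hb, co := co, hco := hco, huniq := ?_ }⟩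
  intro δ c hδ
  set y : E := ∑' i, δ i • 𝔰.x i + c.sum (fun s r => r • w s) with hy
  obtain ⟨h1, h2⟩ := hco y
  obtain ⟨⟨δ', c'⟩, hcoy⟩ : ∃ p, co y = p := ⟨_, rfl⟩
  rw [hcoy] at h1 h2
  simp only at h1 h2
  have h3 : ∑' i, δ' i • 𝔰.x i - ∑' i, δ i • 𝔰.x i =
      ((Finsupp.linearCombination ℝ B c : W) : E) - ((Finsupp.linearCombination ℝ B c' : W) : E) := by
    rw [← hsum, ← hsum]
    have : ∑' i, δ i • 𝔰.x i + c.sum (fun s r => r • w s) =
      ∑' i, δ' i • 𝔰.x i + c'.sum (fun s r => r • w s) := by rw [← h2]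
    rw [sub_eq_sub_iff_add_eq_add, ← this]
    abel
  have h4 : ∑' i, δ' i • 𝔰.x i - ∑' i, δ i • 𝔰.x i ∈ RR 𝔰 :=
    Submodule.sub_mem _ ⟨δ', h1, rfl⟩ ⟨δ, hδ, rfl⟩
  have h5 : ∑' i, δ' i • 𝔰.x i - ∑' i, δ i • 𝔰.x i ∈ W := by
    rw [h3]
    exact Submodule.sub_mem _ (Submodule.coe_mem _) (Submodule.coe_mem _)
  have h6 : ∑' i, δ' i • 𝔰.x i - ∑' i, δ i • 𝔰.x i = 0 := by
    have := Submodule.mem_inf.2 ⟨h4, h5⟩
    rwa [hW.inf_eq_bot, Submodule.mem_bot] at this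
  have h7 : δ' = δ := by
    have h8 : ∑' i, (δ' i - δ i) • 𝔰.x i = 0 := by
      simp only [sub_smul]
      rw [(summable_smul 𝔰 h1).tsum_sub (summable_smul 𝔰 hδ)]
      exact h6
    funext i
    exact sub_eq_zero.1 (𝔰.hinj (fun i => δ' i - δ i) (h1.sub hδ) h8 i)
  have h8 : c' = c := by
    rw [h6] at h3
    have h9 : (Finsupp.linearCombination ℝ B c : W) = Finsupp.linearCombination ℝ B c' :=
      Subtype.ext (sub_eq_zero.1 h3.symm)
    exact (B.linearIndependent h9).symm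
  rw [hcoy, h7, h8]

end Q101.CbE
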