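import Pool.Agent.Q101.CbE
import Pool.Agent.Q101.CbDefs

set_option autoImplicit false

namespace Q101.CbF

open Q101.CbA Q101.CbB Q101.CbC Q101.CbD Q101.CbE Q101.CbDefs Filter Topology

section tags

variable {T : Type}

open Classical in
/-- unit vectors -/
noncomputable def uu (t : T) : lp (fun _ : T => ℝ) 1 := lp.single 1 t (1 : ℝ)

open Classical in
theorem smul_uu (t : T) (a : ℝ) : a • uu t = lp.single 1 t a := by
  unfold uu
  rw [← lp.single_smul, smul_eq_mul, mul_one]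

theorem tag_lim (z : lp (fun _ : T => ℝ) 1) (ε : ℝ) (hε : 0 < ε) :
    ∃ P : Finset T, ∀ Q : Finset T, P ⊆ Q → ‖z - ∑ t ∈ Q, z t • uu t‖ < ε := by
  classical
  have h := lp.hasSum_single (p := 1) ENNReal.one_ne_top z
  obtain ⟨P, hP⟩ := Metric.tendsto_atTop.1 h ε hε
  refine ⟨P, fun Q hQ => ?_⟩
  have h2 := hP Q hQ
  rw [dist_comm, dist_eq_norm] at h2
  simp only [smul_uu]
  exact h2

theorem tag_coord (γ : T → ℝ) (Q : Finset T) (t : T) (ht : t ∈ Q) :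
    |γ t| ≤ ‖∑ s ∈ Q, γ s • uu s‖ := by
  classical
  have h := lp.norm_apply_le_norm (p := 1) one_ne_zero (∑ s ∈ Q, γ s • uu s) t
  have e : (∑ s ∈ Q, γ s • uu s) t = γ t := by
    rw [lp.coeFn_sum, Finset.sum_apply, Finset.sum_eq_single t]
    · rw [lp.coeFn_smul, Pi.smul_apply]
      unfold uu
      rw [lp.single_apply_self, smul_eq_mul, mul_one]
    · intro s _ hne
      rw [lp.coeFn_smul, Pi.smul_apply]
      unfold uu
      rw [lp.single_apply_ne _ _ _ hne.symm, smul_zero]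
    · intro h; exact absurd ht h
  rw [e] at h
  exact h

end tags

variable {E : Type} [NormedAddCommGroup E] [NormedSpace ℝ E] {𝔰 : Sys E}

/-- the family of finite sets -/
def DD (𝔡 : Dec 𝔰) : Set (Finset (ℕ ⊕ (E × ℕ))) :=
  {d | ∀ y n, Sum.inr (y, n) ∈ d → ‖y - 𝔡.SA d.toLeft y‖ < 1 / ((n : ℝ) + 1)}

/-- the vectors -/
noncomputable def XX (𝔰 : Sys E) : ℕ ⊕ (E × ℕ) → E × lp (fun _ : E × ℕ => ℝ) 1 :=
  Sum.elim (fun i => (𝔰.x i, 0)) (fun t => (0, uu t))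

theorem sum_XX (𝔰 : Sys E) (α : ℕ ⊕ (E × ℕ) → ℝ) (d : Finset (ℕ ⊕ (E × ℕ))) :
    ∑ i ∈ d, α i • XX 𝔰 i =
      (∑ i ∈ d.toLeft, α (Sum.inl i) • 𝔰.x i, ∑ t ∈ d.toRight, α (Sum.inr t) • uu t) := by
  conv_lhs => rw [← Finset.toLeft_disjSum_toRight (u := d)]
  rw [Finset.sum_disjSum]
  have h1 : ∀ i, α (Sum.inl i) • XX 𝔰 (Sum.inl i) = (α (Sum.inl i) • 𝔰.x i, 0) := by
    intro i; simp [XX]
  have h2 : ∀ t, α (Sum.inr t) • XX 𝔰 (Sum.inr t) = (0, α (Sum.inr t) • uu t) := by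
    intro t; simp [XX]
  simp only [h1, h2]
  ext1
  · rw [Prod.fst_add, Prod.fst_sum, Prod.fst_sum]; simp
  · rw [Prod.snd_add, Prod.snd_sum, Prod.snd_sum]; simp

theorem mem_DD_of (𝔡 : Dec 𝔰) (A : Finset ℕ) (Q : Finset (E × ℕ)) (N : ℕ)
    (hN : ∀ t ∈ Q, t.2 ≤ N) (h : ∀ t ∈ Q, ‖t.1 - 𝔡.SA A t.1‖ < 1 / ((N : ℝ) + 1)) :
    A.disjSum Q ∈ DD 𝔡 := by
  intro y n hyn
  rw [Finset.inr_mem_disjSum] at hyn
  rw [Finset.toLeft_disjSum]
  refine lt_of_lt_of_le (h _ hyn) ?_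
  have h1 : (n : ℝ) ≤ N := by exact_mod_cast hN _ hyn
  have h2 : (0:ℝ) ≤ n := Nat.cast_nonneg n
  exact one_div_le_one_div_of_le (by linarith) (by linarith)

variable [CompleteSpace E]

theorem exists_big (𝔡 : Dec 𝔰) (F : Finset (ℕ ⊕ (E × ℕ))) : ∃ d ∈ DD 𝔡, F ⊆ d := by
  classical
  set N : ℕ := F.toRight.sup (fun t => t.2) with hN
  obtain ⟨A, hA1, hA2⟩ := approx 𝔡 (F.toRight.image (fun t => t.1)) (1 / ((N : ℝ) + 1))
    (by positivity) F.toLeft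
  refine ⟨A.disjSum F.toRight, ?_, ?_⟩
  · apply mem_DD_of 𝔡 A F.toRight N
    · intro t ht
      exact Finset.le_sup (f := fun t : E × ℕ => t.2) ht
    · intro t ht
      exact hA2 _ (Finset.mem_image_of_mem _ ht)
  · rw [← Finset.toLeft_disjSum_toRight (u := F)]
    rw [Finset.toRight_disjSum]
    exact Finset.disjSum_mono hA1 (Finset.Subset.refl _)

theorem covering (𝔡 : Dec 𝔰) (i : ℕ ⊕ (E × ℕ)) : ∃ d ∈ DD 𝔡, i ∈ d := by
  obtain ⟨d, hd, h⟩ := exists_big 𝔡 {i}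
  exact ⟨d, hd, h (Finset.mem_singleton_self i)⟩

theorem directed (𝔡 : Dec 𝔰) (d d' : Finset (ℕ ⊕ (E × ℕ))) :
    ∃ d'' ∈ DD 𝔡, d ⊆ d'' ∧ d' ⊆ d'' := by
  classical
  obtain ⟨d'', hd, h⟩ := exists_big 𝔡 (d ∪ d')
  exact ⟨d'', hd, Finset.subset_union_left.trans h, Finset.subset_union_right.trans h⟩

/-- the coefficients of `(y, z)` -/
noncomputable def coef (𝔡 : Dec 𝔰) (p : E × lp (fun _ : E × ℕ => ℝ) 1) : ℕ ⊕ (E × ℕ) → ℝ :=
  Sum.elim (fun i => 𝔡.f i p.1) (fun t => p.2 t)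

theorem coef_DSum (𝔡 : Dec 𝔰) (p : E × lp (fun _ : E × ℕ => ℝ) 1) :
    DSum (DD 𝔡) (XX 𝔰) (coef 𝔡 p) p := by
  classical
  intro ε hε
  obtain ⟨P, hP⟩ := tag_lim p.2 ε hε
  obtain ⟨n, hn⟩ := exists_nat_one_div_lt hε
  obtain ⟨d, hd, hF⟩ := exists_big 𝔡 (Finset.disjSum (∅ : Finset ℕ) (insert (p.1, n) P))
  refine ⟨d, hd, fun d' hd' hdd' => ?_⟩
  have hF' := hF.trans hdd'
  rw [sum_XX]
  rw [Prod.norm_def, max_lt_iff]
  have h1 : insert (p.1, n) P ⊆ d'.toRight := by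
    intro t ht
    rw [Finset.mem_toRight]
    exact hF' (Finset.inr_mem_disjSum.2 ht)
  constructor
  · have h2 := hd' p.1 n (Finset.mem_toRight.1 (h1 (Finset.mem_insert_self _ _)))
    exact lt_trans h2 hn
  · exact hP d'.toRight ((Finset.subset_insert _ _).trans h1)

theorem DSum_zero (𝔡 : Dec 𝔰) (γ : ℕ ⊕ (E × ℕ) → ℝ) (h : DSum (DD 𝔡) (XX 𝔰) γ 0) :
    ∀ i, γ i = 0 := by
  classical
  have hr : ∀ t, γ (Sum.inr t) = 0 := by
    intro t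
    have h1 : ∀ ε > 0, |γ (Sum.inr t)| ≤ ε := by
      intro ε hε
      obtain ⟨d, hd, h2⟩ := h ε hε
      obtain ⟨d', hd', h3⟩ := exists_big 𝔡 (insert (Sum.inr t) d)
      have h4 := h2 d' hd' ((Finset.subset_insert _ _).trans h3)
      rw [sum_XX, zero_sub, norm_neg, Prod.norm_def, max_lt_iff] at h4
      have h5 := tag_coord (fun t => γ (Sum.inr t)) d'.toRight t
        (Finset.mem_toRight.2 (h3 (Finset.mem_insert_self _ _)))
      exact h5.trans h4.2.le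
    have h2 : |γ (Sum.inr t)| ≤ 0 := le_of_forall_pos_le_add (by
      intro ε hε; rw [zero_add]; exact h1 ε hε)
    exact abs_eq_zero.1 (le_antisymm h2 (abs_nonneg _))
  have hl : ∀ i, γ (Sum.inl i) = 0 := by
    apply null_zero 𝔡 (fun i => γ (Sum.inl i))
    intro ε hε
    obtain ⟨d, hd, h2⟩ := h ε hε
    set N : ℕ := d.toRight.sup (fun t => t.2) with hN
    refine ⟨d.toRight.image (fun t => t.1), 1 / ((N : ℝ) + 1), d.toLeft, by positivity, ?_⟩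
    intro A hA hΞ
    have h3 : A.disjSum d.toRight ∈ DD 𝔡 := by
      apply mem_DD_of 𝔡 A d.toRight N
      · intro t ht
        exact Finset.le_sup (f := fun t : E × ℕ => t.2) ht
      · intro t ht
        exact hΞ _ (Finset.mem_image_of_mem _ ht)
    have h4 : d ⊆ A.disjSum d.toRight := by
      conv_lhs => rw [← Finset.toLeft_disjSum_toRight (u := d)]
      exact Finset.disjSum_mono hA (Finset.Subset.refl _)
    have h5 := h2 _ h3 h4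
    rw [sum_XX, zero_sub, norm_neg, Prod.norm_def, max_lt_iff, Finset.toLeft_disjSum] at h5
    exact h5.1
  rintro (i | t)
  · exact hl i
  · exact hr t

theorem isCondBasis (𝔡 : Dec 𝔰) : IsCondBasis (DD 𝔡) (XX 𝔰) := by
  intro p
  refine ⟨coef 𝔡 p, coef_DSum 𝔡 p, ?_⟩
  intro β hβ
  have h : DSum (DD 𝔡) (XX 𝔰) (fun i => β i - coef 𝔡 p i) 0 := by
    intro ε hε
    obtain ⟨d1, hd1, h1⟩ := hβ (ε / 2) (by linarith)
    obtain ⟨d2, hd2, h2⟩ := coef_DSum 𝔡 p (ε / 2) (by linarith)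
    obtain ⟨d, hd, hs1, hs2⟩ := directed 𝔡 d1 d2
    refine ⟨d, hd, fun d' hd' hdd' => ?_⟩
    have h3 := h1 d' hd' (hs1.trans hdd')
    have h4 := h2 d' hd' (hs2.trans hdd')
    have e : (0 : E × lp (fun _ : E × ℕ => ℝ) 1) - ∑ i ∈ d', (β i - coef 𝔡 p i) • XX 𝔰 i =
        (p - ∑ i ∈ d', β i • XX 𝔰 i) - (p - ∑ i ∈ d', coef 𝔡 p i • XX 𝔰 i) := by
      simp only [sub_smul, Finset.sum_sub_distrib]
      abel
    rw [e]
    have := norm_sub_le (p - ∑ i ∈ d', β i • XX 𝔰 i) (p - ∑ i ∈ d', coef 𝔡 p i • XX 𝔰 i)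
    linarith
  funext i
  exact sub_eq_zero.1 (DSum_zero 𝔡 _ h i)

omit [CompleteSpace E] in
theorem not_cont (𝔡 : Dec 𝔰) (f : E × lp (fun _ : E × ℕ => ℝ) 1 → ℝ)
    (hf : ∀ p, f p = 𝔡.f 0 p.1) : ¬ Continuous f := by
  classical
  intro hc
  have hx : ∀ i, 𝔡.f 0 (𝔰.x i) = if i = 0 then 1 else 0 := by
    intro i
    have h1 := 𝔡.huniq (Pi.single i 1) 0 (by
      apply summable_of_ne_finset_zero (s := {i})
      intro j hj
      rw [Pi.single_eq_of_ne (by simpa using hj)])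
    have h2 : ∑' j, (Pi.single i (1:ℝ) : ℕ → ℝ) j • 𝔰.x j = 𝔰.x i := by
      rw [tsum_eq_single i]
      · rw [Pi.single_eq_same, one_smul]
      · intro j hj
        rw [Pi.single_eq_of_ne hj, zero_smul]
    rw [h2, Finsupp.sum_zero_index, add_zero] at h1
    unfold Dec.f
    rw [h1]
    simp only [Finsupp.sum_zero_index, add_zero]
    by_cases h : i = 0
    · rw [if_pos h, h, Pi.single_eq_same]
    · rw [if_neg h, Pi.single_eq_of_ne (fun h' => h h'.symm)]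
  have h1 := hc.continuousAt (x := (𝔰.x 0, (0 : lp (fun _ : E × ℕ => ℝ) 1)))
  obtain ⟨η, hη, h2⟩ := Metric.continuousAt_iff.1 h1 1 one_pos
  obtain ⟨i, hi, _, hn⟩ := near 𝔰 0 0 0 1 η hη
  rw [mid_self] at hn
  have h3 := @h2 (𝔰.x i, (0 : lp (fun _ : E × ℕ => ℝ) 1)) (by
    rw [Prod.dist_eq, dist_self, dist_eq_norm]
    exact max_lt hn hη)
  rw [hf, hf, hx, hx, if_pos rfl, if_neg (by omega), Real.dist_eq] at h3
  norm_num at h3

theorem main : ∃ (I : Type) (𝒟 : Set (Finset I)) (E : Type) (_ : NormedAddCommGroup E)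
    (_ : NormedSpace ℝ E) (_ : CompleteSpace E) (X : I → E),
    (∀ i, ∃ d ∈ 𝒟, i ∈ d) ∧ (∀ d ∈ 𝒟, ∀ d' ∈ 𝒟, ∃ d'' ∈ 𝒟, d ⊆ d'' ∧ d' ⊆ d'') ∧
    IsCondBasis 𝒟 X ∧
    ∃ (i : I) (f : E → ℝ), (∀ y α, DSum 𝒟 X α y → f y = α i) ∧ ¬ Continuous f := by
  obtain ⟨E, _, _, _, 𝔰, hg⟩ := exists_sys
  obtain ⟨𝔡⟩ := exists_dec 𝔰 hg
  refine ⟨ℕ ⊕ (E × ℕ), DD 𝔡, E × lp (fun _ : E × ℕ => ℝ) 1, inferInstance, inferInstance,
    inferInstance, XX 𝔰, covering 𝔡, fun d _ d' _ => directed 𝔡 d d', isCondBasis 𝔡,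
    Sum.inl 0, fun p => 𝔡.f 0 p.1, ?_, not_cont 𝔡 _ (fun _ => rfl)⟩
  intro y α hα
  have h1 := (isCondBasis 𝔡 y).unique hα (coef_DSum 𝔡 y)
  rw [h1]
  rfl

end Q101.CbF
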