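import Mathlib

set_option autoImplicit false

namespace Q101.ChDefs

variable {E : Type} [NormedAddCommGroup E] [NormedSpace ℝ E]

/-- Markushevich basis with its (total) biorthogonal functionals, both bounded -/
structure IsMarkushevich (x : ℕ → E) (xs : ℕ → E →L[ℝ] ℝ) : Prop where
  biorth : ∀ i j, xs i (x j) = if i = j then 1 else 0
  dense : ∀ v : E, v ∈ closure (Submodule.span ℝ (Set.range x) : Set E)
  total : ∀ f : E, (∀ n, xs n f = 0) → f = 0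
  bdd : ∃ c, ∀ n, ‖x n‖ ≤ c ∧ ‖xs n‖ ≤ c

/-- coordinate projection on a finite set -/
noncomputable def proj (x : ℕ → E) (xs : ℕ → E →L[ℝ] ℝ) (A : Finset ℕ) (f : E) : E :=
  ∑ n ∈ A, xs n f • x n

/-- greedy set -/
def IsGreedy (xs : ℕ → E →L[ℝ] ℝ) (A : Finset ℕ) (f : E) : Prop :=
  ∀ n ∈ A, ∀ k, k ∉ A → |xs k f| ≤ |xs n f|

/-- the set chosen by the thresholding greedy algorithm (ties: natural order) -/
def IsTGA (xs : ℕ → E →L[ℝ] ℝ) (A : Finset ℕ) (f : E) : Prop :=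
  ∀ n ∈ A, ∀ k, k ∉ A → |xs k f| < |xs n f| ∨ (|xs k f| = |xs n f| ∧ n < k)

/-- `g_m ≤ C` -/
def QG (x : ℕ → E) (xs : ℕ → E →L[ℝ] ℝ) (m : ℕ) (C : ℝ) : Prop :=
  ∀ (f : E) (A : Finset ℕ), A.card ≤ m → IsGreedy xs A f → ‖proj x xs A f‖ ≤ C * ‖f‖

/-- `L_m^ch ≤ C` -/
def Cheb (x : ℕ → E) (xs : ℕ → E →L[ℝ] ℝ) (m : ℕ) (C : ℝ) : Prop :=
  ∀ (f : E) (A : Finset ℕ), A.card = m → IsTGA xs A f →
    ∀ y : E, (∃ S : Finset ℕ, S.card ≤ m ∧ ∀ n, n ∉ S → xs n y = 0) →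
      ∃ a : ℕ → ℝ, ‖f - ∑ n ∈ A, a n • x n‖ ≤ C * ‖f - y‖

end Q101.ChDefs
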