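import Pool.Agent.Q101.ChSpace
import Pool.Agent.Q101.ChDefs

set_option autoImplicit false

namespace Q101.ChA

open Q101.ChSpace Q101.ChDefs

/-- signs -/
noncomputable def w (m n : ℕ) : ℝ := if n < m then 1 else -1

theorem abs_w (m n : ℕ) : |w m n| = 1 := by unfold w; split_ifs <;> simp

theorem w_mul (m n : ℕ) : w m n * w m n = 1 := by unfold w; split_ifs <;> simp

/-- the space -/
theorem exists_spaceK (K m : ℕ) :
    ∃ (E : Type) (_ : NormedAddCommGroup E) (_ : NormedSpace ℝ E) (_ : CompleteSpace E)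
      (x : ℕ → E) (xs : ℕ → E →L[ℝ] ℝ),
      (∀ i j, xs i (x j) = if i = j then 1 else 0) ∧
      (∀ v : E, v ∈ closure (Submodule.span ℝ (Set.range x) : Set E)) ∧
      (∀ (f : E) (n : ℕ), |xs n f| ≤ ‖f‖) ∧
      (∀ (f : E), |(1 / 2) * ∑ n ∈ Finset.range (2 * m), w m n * xs n f| ≤ ‖f‖) ∧
      (∀ (f : E) (D : Finset ℕ), (∀ n ∈ D, 2 * m ≤ n) → D.card ≤ K → ∑ n ∈ D, |xs n f| ≤ ‖f‖) ∧
      (∀ (f : E) (c : ℝ), 0 ≤ c → (∀ n, |xs n f| ≤ c) →
        |(1 / 2) * ∑ n ∈ Finset.range (2 * m), w m n * xs n f| ≤ c →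
        (∀ D : Finset ℕ, (∀ n ∈ D, 2 * m ≤ n) → D.card ≤ K → ∑ n ∈ D, |xs n f| ≤ c) →
        ‖f‖ ≤ c) := by
  classical
  -- the functionals
  let ψ : ℕ →₀ ℝ := Finsupp.onFinset (Finset.range (2 * m))
    (fun n => if n < 2 * m then (1 / 2) * w m n else 0) (by
      intro n hn
      rw [Finset.mem_range]
      by_contra h
      exact hn (if_neg h))
  have hψ : ∀ n, ψ n = if n < 2 * m then (1 / 2) * w m n else 0 := fun n => rfl
  let P : (ℕ →₀ ℝ) → Prop := fun t => (∃ n, t = Finsupp.single n 1) ∨ t = ψ ∨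
    (t.support.card ≤ K ∧ (∀ n ∈ t.support, 2 * m ≤ n) ∧ ∀ n, |t n| ≤ 1)
  obtain ⟨E, i1, i2, i3, x, xs, h1, h2, h3, h4⟩ := exists_space {t // P t} (fun t => t.1) (by
    rintro ⟨t, ht⟩ n
    simp only
    rcases ht with ⟨k, rfl⟩ | rfl | h
    · rw [Finsupp.single_apply]; split_ifs <;> simp
    · rw [hψ]
      split_ifs
      · rw [abs_mul, abs_w]; norm_num
      · simp
    · exact h.2.2 n) (fun n => ⟨⟨Finsupp.single n 1, Or.inl ⟨n, rfl⟩⟩, rfl⟩)
  have hψsum : ∀ f, ψ.sum (fun n a => a * xs n f) =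
      (1 / 2) * ∑ n ∈ Finset.range (2 * m), w m n * xs n f := by
    intro f
    rw [Finsupp.sum_of_support_subset (s := Finset.range (2 * m))]
    · rw [Finset.mul_sum]
      apply Finset.sum_congr rfl
      intro n hn
      rw [hψ, if_pos (Finset.mem_range.1 hn)]; ring
    · intro n hn
      rw [Finset.mem_range]
      by_contra h
      rw [Finsupp.mem_support_iff, hψ, if_neg h] at hn
      exact hn rfl
    · intro n _; ring
  refine ⟨E, i1, i2, i3, x, xs, h1, h2, ?_, ?_, ?_, ?_⟩
  · intro f n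
    have := h3 f ⟨Finsupp.single n 1, Or.inl ⟨n, rfl⟩⟩
    simp only at this
    rw [Finsupp.sum_single_index (by ring), one_mul] at this
    exact this
  · intro f
    have := h3 f ⟨ψ, Or.inr (Or.inl rfl)⟩
    simp only at this
    rw [hψsum] at this
    exact this
  · intro f D hD hDc
    let t : ℕ →₀ ℝ := Finsupp.onFinset D (fun n => if n ∈ D then SignType.sign (xs n f) else 0) (by
      intro n hn
      by_contra h
      exact hn (if_neg h))
    have ht : ∀ n, t n = if n ∈ D then ((SignType.sign (xs n f) : SignType) : ℝ) else 0 :=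
      fun n => rfl
    have hsup : t.support ⊆ D := by
      intro n hn
      by_contra h
      rw [Finsupp.mem_support_iff, ht, if_neg h] at hn
      exact hn rfl
    have := h3 f ⟨t, Or.inr (Or.inr ⟨(Finset.card_le_card hsup).trans hDc,
      fun n hn => hD n (hsup hn), fun n => by
        rw [ht]
        split_ifs
        · rcases lt_trichotomy (xs n f) 0 with h | h | h
          · simp [sign_neg h]
          · simp [h]
          · simp [sign_pos h]
        · simp⟩)⟩
    simp only at this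
    rw [Finsupp.sum_of_support_subset t hsup _ (fun n _ => by ring)] at this
    refine le_trans (le_of_eq ?_) (le_trans (le_abs_self _) this)
    apply Finset.sum_congr rfl
    intro n hn
    rw [ht, if_pos hn]
    exact (sign_mul_self (xs n f)).symm
  · intro f c hc hb1 hb2 hb3
    apply h4 f c hc
    rintro ⟨t, ht⟩
    simp only
    rcases ht with ⟨k, rfl⟩ | rfl | h
    · rw [Finsupp.sum_single_index (by ring), one_mul]
      exact hb1 k
    · rw [hψsum]; exact hb2
    · refine le_trans ?_ (hb3 t.support h.2.1 h.1)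
      refine (Finset.abs_sum_le_sum_abs _ _).trans ?_
      apply Finset.sum_le_sum
      intro n _
      rw [abs_mul]
      have := h.2.2 n
      nlinarith [abs_nonneg (xs n f)]

end Q101.ChA
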