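import Pool.Agent.Q101.ChA

set_option autoImplicit false

namespace Q101.ChB

open Q101.ChDefs Q101.ChA

variable {E : Type} [NormedAddCommGroup E] [NormedSpace ℝ E]

/-- the structure of the example -/
structure Ex (K m : ℕ) (x : ℕ → E) (xs : ℕ → E →L[ℝ] ℝ) : Prop where
  bi : ∀ i j, xs i (x j) = if i = j then 1 else 0
  n1 : ∀ (f : E) (n : ℕ), |xs n f| ≤ ‖f‖
  n2 : ∀ (f : E), |(1 / 2) * ∑ n ∈ Finset.range (2 * m), w m n * xs n f| ≤ ‖f‖
  n3 : ∀ (f : E) (D : Finset ℕ), (∀ n ∈ D, 2 * m ≤ n) → D.card ≤ K → ∑ n ∈ D, |xs n f| ≤ ‖f‖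
  n4 : ∀ (f : E) (c : ℝ), 0 ≤ c → (∀ n, |xs n f| ≤ c) →
        |(1 / 2) * ∑ n ∈ Finset.range (2 * m), w m n * xs n f| ≤ c →
        (∀ D : Finset ℕ, (∀ n ∈ D, 2 * m ≤ n) → D.card ≤ K → ∑ n ∈ D, |xs n f| ≤ c) →
        ‖f‖ ≤ c

variable {K m : ℕ} {x : ℕ → E} {xs : ℕ → E →L[ℝ] ℝ}

theorem total (h : Ex K m x xs) (f : E) (hf : ∀ n, xs n f = 0) : f = 0 := by
  rw [← norm_le_zero_iff]
  apply h.n4 f 0 le_rfl
  · intro n; rw [hf, abs_zero]
  · simp [hf]
  · intro D _ _; simp [hf]

theorem coord_sum (h : Ex K m x xs) (A : Finset ℕ) (a : ℕ → ℝ) (n : ℕ) :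
    xs n (∑ k ∈ A, a k • x k) = if n ∈ A then a n else 0 := by
  rw [map_sum]
  simp only [map_smul, h.bi, smul_eq_mul, mul_ite, mul_one, mul_zero]
  rw [Finset.sum_ite_eq]

theorem abs_half_sum (A : Finset ℕ) (g : ℕ → ℝ) (c : ℝ) (hg : ∀ n ∈ A, |g n| ≤ c) :
    |(1 / 2) * ∑ n ∈ A, w m n * g n| ≤ (1 / 2) * (A.card * c) := by
  rw [abs_mul, abs_of_pos (show (0:ℝ) < 1 / 2 by norm_num)]
  apply mul_le_mul_of_nonneg_left _ (by norm_num)
  refine (Finset.abs_sum_le_sum_abs _ _).trans ?_
  rw [← nsmul_eq_mul, ← Finset.sum_const]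
  apply Finset.sum_le_sum
  intro n hn
  rw [abs_mul, abs_w, one_mul]
  exact hg n hn

theorem cheb (h : Ex K m x xs) (hK : 1 ≤ K) (hm : m = 2 * K ^ 2) (M : ℕ) :
    Cheb x xs M (2 * K + 9) := by
  classical
  intro f G hG hT y hy
  obtain ⟨S, hS, hSy⟩ := hy
  obtain ⟨r, hr⟩ : ∃ r, r = ‖f - y‖ := ⟨_, rfl⟩
  have hr0 : 0 ≤ r := by rw [hr]; exact norm_nonneg _
  have hK0 : (1:ℝ) ≤ K := by exact_mod_cast hK
  rw [← hr]
  obtain ⟨e, he⟩ : ∃ e : ℕ → ℝ, ∀ n, e n = xs n f - xs n y := ⟨_, fun _ => rfl⟩
  have he' : ∀ n, xs n (f - y) = e n := fun n => by rw [map_sub, he]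
  have her : ∀ n, |e n| ≤ r := fun n => by rw [← he', hr]; exact h.n1 _ _
  have heψ : |(1 / 2) * ∑ n ∈ Finset.range (2 * m), w m n * e n| ≤ r := by
    have := h.n2 (f - y)
    simp only [he'] at this
    rw [hr]; exact this
  have heD : ∀ D : Finset ℕ, (∀ n ∈ D, 2 * m ≤ n) → D.card ≤ K → ∑ n ∈ D, |e n| ≤ r := by
    intro D h1 h2
    have := h.n3 (f - y) D h1 h2
    simp only [he'] at this
    rw [hr]; exact this
  have hle : ∀ n ∈ G, ∀ k, k ∉ G → |xs k f| ≤ |xs n f| := by
    intro n hn k hk
    rcases hT n hn k hk with h1 | h1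
    · exact h1.le
    · exact h1.1.le
  by_cases hH : G \ S = ∅
  · -- the approximant lives on the greedy set
    have hsub : G ⊆ S := Finset.sdiff_eq_empty_iff_subset.1 hH
    have hGS : G = S := Finset.eq_of_subset_of_card_le hsub (by rw [hG]; exact hS)
    refine ⟨fun n => xs n y, ?_⟩
    have hy : y = ∑ n ∈ G, xs n y • x n := by
      rw [← sub_eq_zero]
      apply total h
      intro n
      rw [map_sub, coord_sum h]
      split_ifs with hn
      · rw [sub_self]
      · rw [hSy n (by rw [← hGS]; exact hn), sub_zero]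
    rw [← hy, ← hr]
    nlinarith
  obtain ⟨n0, hn0⟩ := Finset.nonempty_iff_ne_empty.2 hH
  rw [Finset.mem_sdiff] at hn0
  have hfr : ∀ k, k ∉ G → |xs k f| ≤ r := by
    intro k hk
    refine (hle n0 hn0.1 k hk).trans ?_
    have h1 : xs n0 f = e n0 := by rw [he, hSy n0 hn0.2, sub_zero]
    rw [h1]; exact her n0
  -- cardinalities
  have hcard : (S \ G).card ≤ (G \ S).card := by
    have h1 := Finset.card_sdiff_add_card_inter S G
    have h2 := Finset.card_sdiff_add_card_inter G S
    rw [Finset.inter_comm] at h2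
    omega
  set E0 : Finset ℕ := (S \ G).filter (fun n => n < 2 * m) with hE0
  set G0 : Finset ℕ := G.filter (fun n => n < 2 * m) with hG0
  have hE0card : E0.card ≤ (S \ G).card := Finset.card_filter_le _ _
  have hyE : ∀ n ∈ S \ G, |xs n y| ≤ 2 * r := by
    intro n hn
    rw [Finset.mem_sdiff] at hn
    have h1 : xs n y = xs n f - e n := by rw [he]; ring
    rw [h1]
    have h2 := hfr n hn.2
    have h3 := her n
    have h4 := abs_sub (xs n f) (e n)
    linarith
  -- general scheme
  have finish : ∀ ρ : ℕ → ℝ, (∀ n, 2 * m ≤ n → ρ n = e n) → (∀ n ∈ G, |ρ n| ≤ 9 * r) →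
      |(1 / 2) * ∑ n ∈ Finset.range (2 * m), w m n * (if n ∈ G then ρ n else xs n f)| ≤
        (2 * K + 9) * r →
      ∃ a : ℕ → ℝ, ‖f - ∑ n ∈ G, a n • x n‖ ≤ (2 * K + 9) * r := by
    intro ρ h1 h2 h3
    refine ⟨fun n => xs n f - ρ n, ?_⟩
    have hco : ∀ n, xs n (f - ∑ n ∈ G, (xs n f - ρ n) • x n) = if n ∈ G then ρ n else xs n f := by
      intro n
      rw [map_sub, coord_sum h]
      split_ifs <;> ring
    have hc0 : 0 ≤ (2 * (K:ℝ) + 9) * r := by positivity
    apply h.n4 _ _ hc0
    · intro n
      rw [hco]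
      split_ifs with hn
      · exact (h2 n hn).trans (by nlinarith)
      · exact (hfr n hn).trans (by nlinarith)
    · simp only [hco]
      exact h3
    · intro D hD hDK
      simp only [hco]
      have h4 : ∀ n ∈ D, |if n ∈ G then ρ n else xs n f| ≤ |e n| + r := by
        intro n hn
        split_ifs with hnG
        · rw [h1 n (hD n hn)]; linarith
        · have := hfr n hnG
          linarith [abs_nonneg (e n)]
      refine (Finset.sum_le_sum h4).trans ?_
      rw [Finset.sum_add_distrib, Finset.sum_const, nsmul_eq_mul]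
      have h5 := heD D hD hDK
      have h6 : (D.card : ℝ) ≤ K := by exact_mod_cast hDK
      nlinarith
  -- the general form of the residual
  have hform : ∀ ρ : ℕ → ℝ, ∑ n ∈ Finset.range (2 * m), w m n * (if n ∈ G then ρ n else xs n f) =
      ∑ n ∈ Finset.range (2 * m), w m n * e n + ∑ n ∈ E0, w m n * xs n y -
        ∑ n ∈ G0, w m n * (e n - ρ n) := by
    intro ρ
    have h1 : ∑ n ∈ E0, w m n * xs n y =
        ∑ n ∈ Finset.range (2 * m), if n ∈ S \ G then w m n * xs n y else 0 := by
      rw [← Finset.sum_filter]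
      apply Finset.sum_congr _ (fun _ _ => rfl)
      ext n
      simp only [hE0, Finset.mem_filter, Finset.mem_range]
      tauto
    have h2 : ∑ n ∈ G0, w m n * (e n - ρ n) =
        ∑ n ∈ Finset.range (2 * m), if n ∈ G then w m n * (e n - ρ n) else 0 := by
      rw [← Finset.sum_filter]
      apply Finset.sum_congr _ (fun _ _ => rfl)
      ext n
      simp only [hG0, Finset.mem_filter, Finset.mem_range]
      tauto
    rw [h1, h2, ← Finset.sum_add_distrib, ← Finset.sum_sub_distrib]
    apply Finset.sum_congr rfl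
    intro n _
    by_cases hnG : n ∈ G
    · have : n ∉ S \ G := by rw [Finset.mem_sdiff]; tauto
      rw [if_pos hnG, if_neg this, if_pos hnG]; ring
    · by_cases hnS : n ∈ S
      · have : n ∈ S \ G := Finset.mem_sdiff.2 ⟨hnS, hnG⟩
        rw [if_neg hnG, if_pos this, if_neg hnG, he]; ring
      · have : n ∉ S \ G := by rw [Finset.mem_sdiff]; tauto
        rw [if_neg hnG, if_neg this, if_neg hnG, he, hSy n hnS]; ring
  have hE0y : ∀ n ∈ E0, |xs n y| ≤ 2 * r := fun n hn => hyE n (Finset.mem_of_mem_filter n hn)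
  have hE0sum : |∑ n ∈ E0, w m n * xs n y| ≤ E0.card * (2 * r) := by
    refine (Finset.abs_sum_le_sum_abs _ _).trans ?_
    rw [← nsmul_eq_mul, ← Finset.sum_const]
    apply Finset.sum_le_sum
    intro n hn
    rw [abs_mul, abs_w, one_mul]
    exact hE0y n hn
  by_cases c1 : E0.card ≤ 2 * K
  · -- few errors
    apply finish e (fun _ _ => rfl) (fun n _ => (her n).trans (by linarith))
    rw [hform]
    have h1 : ∑ n ∈ G0, w m n * (e n - e n) = 0 := by simp
    rw [h1, sub_zero, mul_add]
    have h2 := abs_add_le ((1 / 2) * ∑ n ∈ Finset.range (2 * m), w m n * e n)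
      ((1 / 2) * ∑ n ∈ E0, w m n * xs n y)
    have h3 : |(1 / 2) * ∑ n ∈ E0, w m n * xs n y| ≤ (1 / 2) * (E0.card * (2 * r)) := by
      rw [abs_mul, abs_of_pos (show (0:ℝ) < 1 / 2 by norm_num)]
      linarith
    have h4 : (E0.card : ℝ) ≤ 2 * K := by exact_mod_cast c1
    nlinarith
  · by_cases c2 : E0.card ≤ 4 * G0.card
    · -- correction by the greedy elements of the block
      have hg0 : 0 < G0.card := by omega
      have hg0' : (0:ℝ) < G0.card := by exact_mod_cast hg0
      obtain ⟨c0, hc0⟩ : ∃ c0 : ℝ, c0 = (∑ n ∈ E0, w m n * xs n y) / G0.card := ⟨_, rfl⟩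
      have hc0' : |c0| ≤ 8 * r := by
        rw [hc0, abs_div, abs_of_pos hg0', div_le_iff₀ hg0']
        have h4 : (E0.card : ℝ) ≤ 4 * G0.card := by exact_mod_cast c2
        nlinarith
      apply finish (fun n => if n < 2 * m then e n - w m n * c0 else e n)
      · intro n hn; rw [if_neg (by omega)]
      · intro n _
        split_ifs
        · have h1 := abs_sub (e n) (w m n * c0)
          rw [abs_mul, abs_w, one_mul] at h1
          have := her n
          linarith
        · exact (her n).trans (by linarith)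
      · rw [hform]
        have h1 : ∑ n ∈ G0, w m n * (e n - (if n < 2 * m then e n - w m n * c0 else e n)) =
            ∑ n ∈ E0, w m n * xs n y := by
          have h2 : ∀ n ∈ G0, w m n * (e n - (if n < 2 * m then e n - w m n * c0 else e n)) =
              c0 := by
            intro n hn
            rw [if_pos (Finset.mem_filter.1 hn).2]
            have := w_mul m n
            linear_combination c0 * this
          rw [Finset.sum_congr rfl h2, Finset.sum_const, nsmul_eq_mul, hc0]
          field_simp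
        rw [h1, add_sub_cancel_right]
        refine heψ.trans ?_
        nlinarith
    · -- many expensive greedy elements
      have hH1 : ((G \ S).filter (fun n => n < 2 * m)).card ≤ G0.card := by
        apply Finset.card_le_card
        intro n hn
        rw [Finset.mem_filter, Finset.mem_sdiff] at hn
        exact Finset.mem_filter.2 ⟨hn.1.1, hn.2⟩
      have hH2 := Finset.card_filter_add_card_filter_not (s := G \ S) (fun n => n < 2 * m)
      have hH3 : K ≤ ((G \ S).filter (fun n => ¬ n < 2 * m)).card := by omega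
      obtain ⟨D, hD1, hD2⟩ := Finset.exists_subset_card_eq hH3
      have hDm : ∀ n ∈ D, 2 * m ≤ n := by
        intro n hn
        have := (Finset.mem_filter.1 (hD1 hn)).2
        omega
      have hDs := heD D hDm hD2.le
      have hsmall : ∀ k, k ∉ G → (K:ℝ) * |xs k f| ≤ r := by
        intro k hk
        refine le_trans ?_ hDs
        have h1 : ∀ n ∈ D, |xs k f| ≤ |e n| := by
          intro n hn
          have h2 := Finset.mem_sdiff.1 (Finset.mem_of_mem_filter n (hD1 hn))
          have h3 : e n = xs n f := by rw [he, hSy n h2.2, sub_zero]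
          rw [h3]
          exact hle n h2.1 k hk
        have h4 := Finset.sum_le_sum h1
        rw [Finset.sum_const, nsmul_eq_mul, hD2] at h4
        exact h4
      apply finish (fun n => if n < 2 * m then 0 else e n)
      · intro n hn; rw [if_neg (by omega)]
      · intro n _
        split_ifs
        · rw [abs_zero]; positivity
        · exact (her n).trans (by linarith)
      · have h1 : ∀ n ∈ Finset.range (2 * m), |if n ∈ G then (if n < 2 * m then 0 else e n)
            else xs n f| ≤ r / K := by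
          intro n hn
          rw [if_pos (Finset.mem_range.1 hn)]
          split_ifs with hnG
          · rw [abs_zero]; positivity
          · rw [le_div_iff₀ (by linarith)]
            have := hsmall n hnG
            linarith
        refine (abs_half_sum (m := m) _ _ _ h1).trans ?_
        rw [Finset.card_range]
        have h2 : (1 / 2) * (((2 * m : ℕ) : ℝ) * (r / K)) = 2 * K * r := by
          rw [hm]; push_cast; field_simp
        rw [h2]
        nlinarith

end Q101.ChB
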