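import Pool.Agent.Q101.ChB

set_option autoImplicit false

namespace Q101.ChC

open Q101.ChDefs Q101.ChA Q101.ChB

variable {E : Type} [NormedAddCommGroup E] [NormedSpace ℝ E] {K m : ℕ} {x : ℕ → E}
  {xs : ℕ → E →L[ℝ] ℝ}

theorem norm_x (h : Ex K m x xs) (n : ℕ) : ‖x n‖ = 1 := by
  classical
  apply le_antisymm
  · apply h.n4 _ _ zero_le_one
    · intro k
      rw [h.bi]; split_ifs <;> simp
    · simp only [h.bi, mul_ite, mul_one, mul_zero]
      rw [Finset.sum_ite_eq']
      split_ifs
      · rw [abs_mul, abs_w]; norm_num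
      · simp
    · intro D _ _
      have h1 : ∀ k ∈ D, |xs k (x n)| = if k = n then 1 else 0 := by
        intro k _
        rw [h.bi]; split_ifs <;> simp
      rw [Finset.sum_congr rfl h1, Finset.sum_ite_eq']
      split_ifs <;> norm_num
  · have := h.n1 (x n) n
    rw [h.bi, if_pos rfl, abs_one] at this
    exact this

theorem norm_xs (h : Ex K m x xs) (n : ℕ) : ‖xs n‖ = 1 := by
  apply le_antisymm
  · apply ContinuousLinearMap.opNorm_le_bound _ zero_le_one
    intro f
    rw [one_mul]
    exact h.n1 f n
  · have := (xs n).le_opNorm (x n)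
    rw [h.bi, if_pos rfl, norm_x h, mul_one, norm_one] at this
    exact this

theorem partial_bound (h : Ex K m x xs) (N : ℕ) (f : E) :
    ‖proj x xs (Finset.range N) f‖ ≤ (m + 1) * ‖f‖ := by
  classical
  unfold proj
  have hco : ∀ n, xs n (∑ k ∈ Finset.range N, xs k f • x k) =
      if n ∈ Finset.range N then xs n f else 0 := fun n => coord_sum h _ _ n
  have hf0 := norm_nonneg f
  have hle : ∀ n, |if n ∈ Finset.range N then xs n f else 0| ≤ ‖f‖ := by
    intro n
    split_ifs
    · exact h.n1 f n
    · rw [abs_zero]; exact hf0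
  apply h.n4 _ _ (by positivity)
  · intro n
    rw [hco]
    exact (hle n).trans (by nlinarith)
  · simp only [hco]
    refine (abs_half_sum (m := m) _ _ _ (fun n _ => hle n)).trans ?_
    rw [Finset.card_range]
    push_cast
    nlinarith
  · intro D hD hDK
    simp only [hco]
    have h1 := h.n3 f D hD hDK
    have h2 : ∑ n ∈ D, |if n ∈ Finset.range N then xs n f else 0| ≤ ∑ n ∈ D, |xs n f| := by
      apply Finset.sum_le_sum
      intro n _
      split_ifs
      · exact le_rfl
      · rw [abs_zero]; exact abs_nonneg _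
    nlinarith

/-- the quasi-greedy parameter is at least `K^2` -/
theorem not_qg (h : Ex K m x xs) (hm : m = 2 * K ^ 2) (C : ℝ) (hC0 : 0 ≤ C)
    (hC : C < K ^ 2) : ¬ QG x xs m C := by
  classical
  intro hq
  set f : E := ∑ k ∈ Finset.range (2 * m), (1:ℝ) • x k with hf
  have hco : ∀ n, xs n f = if n ∈ Finset.range (2 * m) then 1 else 0 :=
    fun n => coord_sum h _ (fun _ => 1) n
  have hf1 : ‖f‖ ≤ 1 := by
    apply h.n4 _ _ zero_le_one
    · intro n; rw [hco]; split_ifs <;> simp
    · have h1 : ∑ n ∈ Finset.range (2 * m), w m n * xs n f = 0 := by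
        have h2 : ∀ n ∈ Finset.range (2 * m), w m n * xs n f = w m n := by
          intro n hn
          rw [hco, if_pos hn, mul_one]
        rw [Finset.sum_congr rfl h2, two_mul, Finset.sum_range_add]
        have h3 : ∀ n ∈ Finset.range m, w m n = 1 := by
          intro n hn; unfold w; rw [if_pos (Finset.mem_range.1 hn)]
        have h4 : ∀ n ∈ Finset.range m, w m (m + n) = -1 := by
          intro n hn; unfold w; rw [if_neg (by omega)]
        rw [Finset.sum_congr rfl h3, Finset.sum_congr rfl h4]
        simp
      rw [h1]; simp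
    · intro D hD _
      have h1 : ∀ n ∈ D, |xs n f| = 0 := by
        intro n hn
        have := hD n hn
        rw [hco, if_neg (by rw [Finset.mem_range]; omega), abs_zero]
      rw [Finset.sum_congr rfl h1]
      simp
  have hgr : IsGreedy xs (Finset.range m) f := by
    intro n hn k _
    rw [Finset.mem_range] at hn
    have h1 : xs n f = 1 := by rw [hco, if_pos (by rw [Finset.mem_range]; omega)]
    rw [h1, hco]
    split_ifs <;> simp
  have h1 := hq f (Finset.range m) (by rw [Finset.card_range]) hgr
  have h2 := h.n2 (proj x xs (Finset.range m) f)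
  have h3 : ∀ n, xs n (proj x xs (Finset.range m) f) = if n < m then 1 else 0 := by
    intro n
    unfold proj
    rw [coord_sum h]
    by_cases hn : n < m
    · rw [if_pos (Finset.mem_range.2 hn), if_pos hn, hco,
        if_pos (by rw [Finset.mem_range]; omega)]
    · rw [if_neg (by rw [Finset.mem_range]; exact hn), if_neg hn]
  simp only [h3] at h2
  have h4 : ∑ n ∈ Finset.range (2 * m), w m n * (if n < m then (1:ℝ) else 0) = m := by
    rw [two_mul, Finset.sum_range_add]
    have h5 : ∀ n ∈ Finset.range m, w m n * (if n < m then (1:ℝ) else 0) = 1 := by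
      intro n hn
      have hn' := Finset.mem_range.1 hn
      unfold w
      rw [if_pos hn', if_pos hn', mul_one]
    have h6 : ∀ n ∈ Finset.range m, w m (m + n) * (if m + n < m then (1:ℝ) else 0) = 0 := by
      intro n _
      rw [if_neg (by omega : ¬ m + n < m), mul_zero]
    rw [Finset.sum_congr rfl h5, Finset.sum_congr rfl h6]
    simp
  have hmR : (m:ℝ) = 2 * (K:ℝ) ^ 2 := by rw [hm]; push_cast; ring
  have h7 : |(1 / 2) * (m:ℝ)| = K ^ 2 := by
    rw [hmR, abs_of_nonneg (by positivity)]; ring
  rw [h4, h7] at h2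
  have h8 : C * ‖f‖ ≤ C := by nlinarith
  linarith

end Q101.ChC
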