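import Mathlib

set_option autoImplicit false

namespace Q101.ChSpace

open Filter Topology BoundedContinuousFunction

/-- A countable system of coordinates with a prescribed norming family of finitely supported
functionals. -/
theorem exists_space (Θ : Type) (θ : Θ → ℕ →₀ ℝ) (hθ : ∀ t n, |θ t n| ≤ 1)
    (hc : ∀ n, ∃ t, θ t = Finsupp.single n 1) :
    ∃ (E : Type) (_ : NormedAddCommGroup E) (_ : NormedSpace ℝ E) (_ : CompleteSpace E)
      (x : ℕ → E) (xs : ℕ → E →L[ℝ] ℝ),
      (∀ i j, xs i (x j) = if i = j then 1 else 0) ∧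
      (∀ v : E, v ∈ closure (Submodule.span ℝ (Set.range x) : Set E)) ∧
      (∀ (f : E) (t : Θ), |(θ t).sum (fun n a => a * xs n f)| ≤ ‖f‖) ∧
      (∀ (f : E) (c : ℝ), 0 ≤ c → (∀ t, |(θ t).sum (fun n a => a * xs n f)| ≤ c) → ‖f‖ ≤ c) := by
  classical
  let _ : TopologicalSpace Θ := ⊥
  have _ : DiscreteTopology Θ := ⟨rfl⟩
  choose T hT using hc
  -- the generating vectors
  obtain ⟨u, hu⟩ : ∃ u : ℕ → BoundedContinuousFunction Θ ℝ, ∀ n t, u n t = θ t n :=
    ⟨fun n => BoundedContinuousFunction.ofNormedAddCommGroupDiscrete (fun t => θ t n) 1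
      (fun t => by rw [Real.norm_eq_abs]; exact hθ t n), fun n t => rfl⟩
  let W : Submodule ℝ (BoundedContinuousFunction Θ ℝ) :=
    (Submodule.span ℝ (Set.range u)).topologicalClosure
  have hW : IsClosed (W : Set (BoundedContinuousFunction Θ ℝ)) :=
    Submodule.isClosed_topologicalClosure _
  have huW : ∀ n, u n ∈ W := fun n =>
    Submodule.le_topologicalClosure _ (Submodule.subset_span ⟨n, rfl⟩)
  -- the key identity
  have key : ∀ f ∈ W, ∀ t, f t = (θ t).sum (fun n a => a * f (T n)) := by
    intro f hf t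
    let A : BoundedContinuousFunction Θ ℝ →L[ℝ] ℝ :=
      BoundedContinuousFunction.evalCLM ℝ t -
        ∑ n ∈ (θ t).support, (θ t n) • BoundedContinuousFunction.evalCLM ℝ (T n)
    have hA : ∀ g, A g = g t - (θ t).sum (fun n a => a * g (T n)) := by
      intro g
      simp only [A, ContinuousLinearMap.sub_apply, ContinuousLinearMap.sum_apply,
        ContinuousLinearMap.smul_apply, BoundedContinuousFunction.evalCLM_apply, smul_eq_mul,
        Finsupp.sum]
    have hle : W ≤ LinearMap.ker (A : BoundedContinuousFunction Θ ℝ →ₗ[ℝ] ℝ) := by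
      apply Submodule.topologicalClosure_minimal
      · rw [Submodule.span_le]
        rintro _ ⟨j, rfl⟩
        rw [SetLike.mem_coe, LinearMap.mem_ker]
        show A (u j) = 0
        rw [hA, hu]
        have : (θ t).sum (fun n a => a * (u j) (T n)) = θ t j := by
          have h1 : ∀ n, (u j) (T n) = if n = j then 1 else 0 := by
            intro n
            rw [hu, hT, Finsupp.single_apply]
          simp only [h1, mul_ite, mul_one, mul_zero]
          rw [Finsupp.sum, Finset.sum_ite_eq']
          split_ifs with h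
          · rfl
          · rw [Finsupp.notMem_support_iff.1 h]
        rw [this, sub_self]
      · exact A.isClosed_ker
    have h1 := hle hf
    rw [LinearMap.mem_ker] at h1
    have h2 : A f = 0 := h1
    rw [hA] at h2
    linarith
  refine ⟨W, inferInstance, inferInstance, hW.completeSpace_coe, fun n => ⟨u n, huW n⟩,
    fun n => (BoundedContinuousFunction.evalCLM ℝ (T n)).comp W.subtypeL, ?_, ?_, ?_, ?_⟩
  · intro i j
    show u j (T i) = _
    rw [hu, hT, Finsupp.single_apply]
  · intro v
    rw [Metric.mem_closure_iff]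
    intro ε hε
    obtain ⟨w, hw, hd⟩ := Metric.mem_closure_iff.1 (show v.1 ∈ closure
      (Submodule.span ℝ (Set.range u) : Set (BoundedContinuousFunction Θ ℝ)) from v.2) ε hε
    have hwW : w ∈ W := Submodule.le_topologicalClosure _ hw
    refine ⟨⟨w, hwW⟩, ?_, hd⟩
    have h1 : Submodule.map W.subtype (Submodule.span ℝ
        (Set.range (fun n => (⟨u n, huW n⟩ : W)))) = Submodule.span ℝ (Set.range u) := by
      rw [Submodule.map_span]
      congr 1
      ext y
      constructor
      · rintro ⟨_, ⟨n, rfl⟩, rfl⟩; exact ⟨n, rfl⟩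
      · rintro ⟨n, rfl⟩; exact ⟨_, ⟨n, rfl⟩, rfl⟩
    rw [SetLike.mem_coe, ← h1] at hw
    obtain ⟨y, hy, hy2⟩ := hw
    have : y = ⟨w, hwW⟩ := Subtype.ext hy2
    rw [← this]
    exact hy
  · intro f t
    have h1 : (θ t).sum (fun n a => a * ((BoundedContinuousFunction.evalCLM ℝ (T n)).comp
        W.subtypeL) f) = f.1 t := (key f.1 f.2 t).symm
    rw [h1]
    exact f.1.norm_coe_le_norm t
  · intro f c hc hb
    have h2 : ‖f.1‖ ≤ c := by
      rw [BoundedContinuousFunction.norm_le hc]
      intro t
      have h1 : (θ t).sum (fun n a => a * ((BoundedContinuousFunction.evalCLM ℝ (T n)).comp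
        W.subtypeL) f) = f.1 t := (key f.1 f.2 t).symm
      have := hb t
      rw [h1] at this
      exact this
    exact h2

end Q101.ChSpace
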