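import Mathlib

set_option autoImplicit false

open Filter Topology
open scoped ENNReal

namespace Q101.ConeS

variable {X : Type*} [NormedAddCommGroup X] [NormedSpace ℝ X]

/-- A closed cone. -/
structure IsClosedCone (C : Set X) : Prop where
  isClosed : IsClosed C
  add_mem : ∀ x ∈ C, ∀ y ∈ C, x + y ∈ C
  smul_mem : ∀ c : ℝ, 0 ≤ c → ∀ x ∈ C, c • x ∈ C
  pointed : C ∩ (-C) = {0}

/-- `s` is a least upper bound of the sequence `u` for the order of the cone `C`. -/
def IsSup (C : Set X) (u : ℕ → X) (s : X) : Prop :=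
  (∀ n, s - u n ∈ C) ∧ ∀ t, (∀ n, t - u n ∈ C) → t - s ∈ C

/-- Property (S): every increasing order bounded sequence has a supremum. -/
def PropertyS (C : Set X) : Prop :=
  ∀ u : ℕ → X, (∀ n, u (n + 1) - u n ∈ C) → (∃ a b, ∀ n, u n - a ∈ C ∧ b - u n ∈ C) →
    ∃ s, IsSup C u s

variable {C : Set X}

namespace IsClosedCone

variable (hC : IsClosedCone C)
include hC

theorem zero_mem : (0 : X) ∈ C := by
  have : (0 : X) ∈ C ∩ (-C) := by rw [hC.pointed]; rfl
  exact this.1

theorem eq_zero {x : X} (h : x ∈ C) (h' : -x ∈ C) : x = 0 := by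
  have : x ∈ C ∩ (-C) := ⟨h, h'⟩
  rw [hC.pointed] at this
  exact this

theorem sup_unique {u : ℕ → X} {s t : X} (hs : IsSup C u s) (ht : IsSup C u t) : s = t := by
  have h1 := hs.2 t ht.1
  have h2 := ht.2 s hs.1
  rw [← sub_eq_zero]
  exact hC.eq_zero h2 (by rw [neg_sub]; exact h1)

theorem mono_of_step {u : ℕ → X} (hu : ∀ n, u (n + 1) - u n ∈ C) {m n : ℕ} (h : m ≤ n) :
    u n - u m ∈ C := by
  induction h with
  | refl => rw [sub_self]; exact hC.zero_mem
  | @step k _ ih =>
    have := hC.add_mem _ (hu k) _ ih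
    rwa [sub_add_sub_cancel] at this

theorem sup_add {u v : ℕ → X} (hu : ∀ n, u (n + 1) - u n ∈ C) (hv : ∀ n, v (n + 1) - v n ∈ C)
    {s t : X} (hs : IsSup C u s) (ht : IsSup C v t) : IsSup C (fun n => u n + v n) (s + t) := by
  constructor
  · intro n
    have := hC.add_mem _ (hs.1 n) _ (ht.1 n)
    have e : s - u n + (t - v n) = s + t - (u n + v n) := by abel
    rwa [e] at this
  · intro r hr
    have h1 : ∀ m, r - s - v m ∈ C := by
      intro m
      have h2 : r - v m - s ∈ C := by
        apply hs.2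
        intro n
        have h3 := hr (max m n)
        have h4 := hC.mono_of_step hu (le_max_right m n)
        have h5 := hC.mono_of_step hv (le_max_left m n)
        have := hC.add_mem _ h3 _ (hC.add_mem _ h4 _ h5)
        have e : r - (u (max m n) + v (max m n)) + (u (max m n) - u n + (v (max m n) - v m)) =
            r - v m - u n := by abel
        rwa [e] at this
      have e : r - v m - s = r - s - v m := by abel
      rwa [e] at h2
    have := ht.2 _ h1
    have e : r - s - t = r - (s + t) := by abel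
    rwa [e] at this

theorem sup_smul {u : ℕ → X} {s : X} (hs : IsSup C u s) {c : ℝ} (hc : 0 ≤ c) :
    IsSup C (fun n => c • u n) (c • s) := by
  rcases hc.eq_or_lt with h | h
  · subst h
    constructor
    · intro n; simp only [zero_smul, sub_zero]; exact hC.zero_mem
    · intro t ht; simpa using ht 0
  · constructor
    · intro n
      rw [← smul_sub]; exact hC.smul_mem c hc _ (hs.1 n)
    · intro t ht
      have h1 : c⁻¹ • t - s ∈ C := by
        apply hs.2
        intro n
        have := hC.smul_mem c⁻¹ (by positivity) _ (ht n)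
        rwa [smul_sub, smul_smul, inv_mul_cancel₀ h.ne', one_smul] at this
      have := hC.smul_mem c hc _ h1
      rwa [smul_sub, smul_smul, mul_inv_cancel₀ h.ne', one_smul] at this

end IsClosedCone

/-- weighted partial sums -/
def pa (x : ℕ → X) (a : ℕ → ℝ) (N : ℕ) : X := ∑ n ∈ Finset.range N, a n • x n

section Main

variable (hC : IsClosedCone C) (x : ℕ → X) (hx : ∀ n, x n ∈ C)
include hC hx

theorem pa_step {a : ℕ → ℝ} (ha : ∀ n, 0 ≤ a n) (N : ℕ) : pa x a (N + 1) - pa x a N ∈ C := by
  unfold pa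
  rw [Finset.sum_range_succ, add_sub_cancel_left]
  exact hC.smul_mem _ (ha N) _ (hx N)

omit hC hx in
theorem pa_zero (a : ℕ → ℝ) : pa x a 0 = 0 := by unfold pa; simp

theorem pa_mem {a : ℕ → ℝ} (ha : ∀ n, 0 ≤ a n) (N : ℕ) : pa x a N ∈ C := by
  have := hC.mono_of_step (pa_step hC x hx ha) (Nat.zero_le N)
  rwa [pa_zero, sub_zero] at this

omit hC hx in
theorem pa_add (a b : ℕ → ℝ) (N : ℕ) : pa x (fun n => a n + b n) N = pa x a N + pa x b N := by
  unfold pa
  rw [← Finset.sum_add_distrib]
  exact Finset.sum_congr rfl fun n _ => add_smul _ _ _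

omit hC hx in
theorem pa_smul (c : ℝ) (a : ℕ → ℝ) (N : ℕ) : pa x (fun n => c * a n) N = c • pa x a N := by
  unfold pa
  rw [Finset.smul_sum]
  exact Finset.sum_congr rfl fun n _ => by rw [smul_smul]

variable (hS : PropertyS C) (w : X) (hw : IsSup C (pa x (fun _ => 1)) w)
include hS hw

/-- existence of suprema for bounded nonnegative weights -/
theorem exists_sup {a : ℕ → ℝ} (ha : ∀ n, 0 ≤ a n) {M : ℝ} (hM : ∀ n, a n ≤ M) :
    ∃ s, IsSup C (pa x a) s := by
  apply hS _ (pa_step hC x hx ha)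
  refine ⟨0, M • w, fun N => ⟨by rw [sub_zero]; exact pa_mem hC x hx ha N, ?_⟩⟩
  have hM0 : 0 ≤ M := (ha 0).trans (hM 0)
  have h1 := hC.smul_mem M hM0 _ (hw.1 N)
  have h2 := pa_mem hC x hx (a := fun n => M - a n) (fun n => sub_nonneg.2 (hM n)) N
  have h3 := hC.add_mem _ h1 _ h2
  have e : M • (w - pa x (fun _ => 1) N) + pa x (fun n => M - a n) N = M • w - pa x a N := by
    have h4 := pa_add x (fun n => M - a n) a N
    have h5 : (fun n => (M - a n) + a n) = fun _ => M * 1 := by funext n; ring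
    rw [h5, pa_smul] at h4
    rw [smul_sub, h4]; abel
  rwa [e] at h3

omit hS in
/-- shifting the weights by a constant -/
theorem shift {a : ℕ → ℝ} {c c' : ℝ} (hac : ∀ n, 0 ≤ a n + c) (hcc : c ≤ c') {z : X}
    (h : IsSup C (pa x (fun n => a n + c)) (z + c • w)) :
    IsSup C (pa x (fun n => a n + c')) (z + c' • w) := by
  have h1 := hC.sup_add (pa_step hC x hx hac)
    (u := pa x (fun n => a n + c)) (v := fun N => (c' - c) • pa x (fun _ => 1) N)
    (fun N => by
      rw [← smul_sub]
      exact hC.smul_mem _ (sub_nonneg.2 hcc) _ (pa_step hC x hx (fun _ => zero_le_one) N))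
    h (hC.sup_smul hw (sub_nonneg.2 hcc))
  have e1 : (fun N => pa x (fun n => a n + c) N + (c' - c) • pa x (fun _ => 1) N) =
      pa x (fun n => a n + c') := by
    funext N
    rw [← pa_smul, ← pa_add]
    congr 1
    funext n; ring
  have e2 : z + c • w + (c' - c) • w = z + c' • w := by rw [sub_smul]; abel
  rwa [e1, e2] at h1

omit hC hx hS hw in
/-- the relation `z = ∑ a_n x_n` in the order sense -/
def R (C : Set X) (x : ℕ → X) (w : X) (a : lp (fun _ : ℕ => ℝ) ∞) (z : X) : Prop :=
  ∃ c : ℝ, ‖a‖ ≤ c ∧ IsSup C (pa x (fun n => a n + c)) (z + c • w)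

omit hC hx hS hw in
theorem coord_nonneg (a : lp (fun _ : ℕ => ℝ) ∞) {c : ℝ} (hc : ‖a‖ ≤ c) (n : ℕ) : 0 ≤ a n + c := by
  have h := lp.norm_apply_le_norm (by norm_num : (∞ : ℝ≥0∞) ≠ 0) a n
  rw [Real.norm_eq_abs] at h
  have := neg_abs_le (a n)
  linarith

omit hC hx hS hw in
theorem coord_le (a : lp (fun _ : ℕ => ℝ) ∞) (n : ℕ) : a n ≤ ‖a‖ := by
  have h := lp.norm_apply_le_norm (by norm_num : (∞ : ℝ≥0∞) ≠ 0) a n
  rw [Real.norm_eq_abs] at h
  exact (le_abs_self _).trans h

theorem R_exists (a : lp (fun _ : ℕ => ℝ) ∞) : ∃ z, R C x w a z := by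
  obtain ⟨s, hs⟩ := exists_sup hC x hx hS w hw (a := fun n => a n + ‖a‖)
    (coord_nonneg a le_rfl) (M := ‖a‖ + ‖a‖) (fun n => by have := coord_le a n; linarith)
  refine ⟨s - ‖a‖ • w, ‖a‖, le_rfl, ?_⟩
  rwa [sub_add_cancel]

omit hS in
theorem R_unique {a : lp (fun _ : ℕ => ℝ) ∞} {z z' : X} (h : R C x w a z) (h' : R C x w a z') :
    z = z' := by
  obtain ⟨c, hc, h1⟩ := h
  obtain ⟨c', hc', h2⟩ := h'
  have h3 := shift hC x hx w hw (coord_nonneg a hc) (le_max_left c c') h1
  have h4 := shift hC x hx w hw (coord_nonneg a hc') (le_max_right c c') h2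
  exact add_right_cancel (hC.sup_unique h3 h4)

omit hS hw in
theorem R_add {a b : lp (fun _ : ℕ => ℝ) ∞} {z z' : X} (h : R C x w a z) (h' : R C x w b z') :
    R C x w (a + b) (z + z') := by
  obtain ⟨c, hc, h1⟩ := h
  obtain ⟨c', hc', h2⟩ := h'
  refine ⟨c + c', (norm_add_le _ _).trans (add_le_add hc hc'), ?_⟩
  have h3 := hC.sup_add (pa_step hC x hx (coord_nonneg a hc)) (pa_step hC x hx (coord_nonneg b hc')) h1 h2
  have e1 : (fun N => pa x (fun n => a n + c) N + pa x (fun n => b n + c') N) =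
      pa x (fun n => (a + b) n + (c + c')) := by
    funext N
    rw [← pa_add]
    congr 1
    funext n
    change (a n + c) + (b n + c') = (a n + b n) + (c + c')
    ring
  have e2 : z + c • w + (z' + c' • w) = z + z' + (c + c') • w := by rw [add_smul]; abel
  rwa [e1, e2] at h3

omit hS hw hx in
theorem R_smul {a : lp (fun _ : ℕ => ℝ) ∞} {z : X} (h : R C x w a z) {r : ℝ} (hr : 0 ≤ r) :
    R C x w (r • a) (r • z) := by
  obtain ⟨c, hc, h1⟩ := h
  refine ⟨r * c, ?_, ?_⟩
  · rw [norm_smul, Real.norm_eq_abs, abs_of_nonneg hr]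
    exact mul_le_mul_of_nonneg_left hc hr
  · have h2 := hC.sup_smul h1 hr
    have e1 : (fun N => r • pa x (fun n => a n + c) N) = pa x (fun n => (r • a) n + r * c) := by
      funext N
      rw [← pa_smul]
      congr 1
      funext n
      change r * (a n + c) = r * a n + r * c
      ring
    have e2 : r • (z + c • w) = r • z + (r * c) • w := by rw [smul_add, smul_smul]
    rwa [e1, e2] at h2

theorem R_neg {a : lp (fun _ : ℕ => ℝ) ∞} {z : X} (h : R C x w a z) : R C x w (-a) (-z) := by
  obtain ⟨z', hz'⟩ := R_exists hC x hx hS w hw (-a)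
  have h1 := R_add hC x hx w h hz'
  rw [add_neg_cancel] at h1
  have h2 : R C x w 0 0 := by
    refine ⟨1, by simp, ?_⟩
    have e1 : pa x (fun n => (0 : lp (fun _ : ℕ => ℝ) ∞) n + 1) = pa x (fun _ => 1) := by
      congr 1
      funext n
      change (0 : ℝ) + 1 = 1
      norm_num
    rw [e1, zero_add, one_smul]
    exact hw
  have h3 := R_unique hC x hx w hw h1 h2
  have h4 : z' = -z := eq_neg_of_add_eq_zero_right h3
  rwa [h4] at hz'

theorem R_smul' {a : lp (fun _ : ℕ => ℝ) ∞} {z : X} (h : R C x w a z) (r : ℝ) :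
    R C x w (r • a) (r • z) := by
  rcases le_total 0 r with hr | hr
  · exact R_smul hC x w h hr
  · have h1 := R_neg hC x hx hS w hw (R_smul hC x w h (neg_nonneg.2 hr))
    simpa using h1

omit hS in
theorem R_le {a : lp (fun _ : ℕ => ℝ) ∞} {z : X} (h : R C x w a z) : ‖a‖ • w - z ∈ C := by
  obtain ⟨c, hc, h1⟩ := h
  have h2 : (‖a‖ + c) • w - (z + c • w) ∈ C := by
    apply h1.2
    intro N
    have h3 := hC.smul_mem (‖a‖ + c) (by have := norm_nonneg a; linarith) _ (hw.1 N)
    have h4 := pa_mem hC x hx (a := fun n => ‖a‖ - a n) (fun n => sub_nonneg.2 (coord_le a n)) N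
    have h5 := hC.add_mem _ h3 _ h4
    have e : (‖a‖ + c) • (w - pa x (fun _ => 1) N) + pa x (fun n => ‖a‖ - a n) N =
        (‖a‖ + c) • w - pa x (fun n => a n + c) N := by
      have h6 := pa_add x (fun n => ‖a‖ - a n) (fun n => a n + c) N
      have h7 : (fun n => (‖a‖ - a n) + (a n + c)) = fun _ => (‖a‖ + c) * 1 := by funext n; ring
      rw [h7, pa_smul] at h6
      rw [smul_sub, h6]; abel
    rwa [e] at h5
  have e : (‖a‖ + c) • w - (z + c • w) = ‖a‖ • w - z := by rw [add_smul]; abel
  rwa [e] at h2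

/-- the linear map `a ↦ ∑ a_n x_n` -/
theorem exists_T : ∃ T : lp (fun _ : ℕ => ℝ) ∞ →ₗ[ℝ] X, ∀ a, R C x w a (T a) := by
  choose T hT using R_exists hC x hx hS w hw
  exact ⟨{ toFun := T
           map_add' := fun a b => R_unique hC x hx w hw (hT _) (R_add hC x hx w (hT a) (hT b))
           map_smul' := fun r a => R_unique hC x hx w hw (hT _) (R_smul' hC x hx hS w hw (hT a) r) },
    hT⟩

theorem bounded [CompleteSpace X] : ∃ K : ℝ, ∀ n, ‖x n‖ ≤ K := by
  obtain ⟨T, hT⟩ := exists_T hC x hx hS w hw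
  have hcont : Continuous T := by
    apply T.continuous_of_seq_closed_graph
    intro u a z hu hz
    have h1 : Tendsto (fun n => T (u n - a)) atTop (𝓝 (z - T a)) := by
      simp only [map_sub]
      exact hz.sub_const _
    have h2 : Tendsto (fun n => ‖u n - a‖) atTop (𝓝 0) := tendsto_iff_norm_sub_tendsto_zero.1 hu
    have h3 : Tendsto (fun n => ‖u n - a‖ • w - T (u n - a)) atTop (𝓝 (-(z - T a))) := by
      have := (h2.smul_const w).sub h1
      simpa using this
    have h4 : Tendsto (fun n => ‖u n - a‖ • w + T (u n - a)) atTop (𝓝 (z - T a)) := by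
      have := (h2.smul_const w).add h1
      simpa using this
    have h5 : -(z - T a) ∈ C :=
      hC.isClosed.mem_of_tendsto h3 (Eventually.of_forall fun n => R_le hC x hx w hw (hT _))
    have h6 : z - T a ∈ C := by
      refine hC.isClosed.mem_of_tendsto h4 (Eventually.of_forall fun n => ?_)
      have h7 := R_le hC x hx w hw (hT (-(u n - a)))
      rw [norm_neg, map_neg, sub_neg_eq_add] at h7
      exact h7
    exact sub_eq_zero.1 (hC.eq_zero h6 h5)
  let T' : lp (fun _ : ℕ => ℝ) ∞ →L[ℝ] X := ⟨T, hcont⟩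
  refine ⟨‖T'‖, fun n => ?_⟩
  have h1 : R C x w (lp.single ∞ n (1 : ℝ)) (x n) := by
    have hn1 : ‖lp.single (E := fun _ : ℕ => ℝ) ∞ n (1 : ℝ)‖ = 1 := by
      rw [lp.norm_single (by norm_num), norm_one]
    refine ⟨1, hn1.le, ?_⟩
    have h2 : IsSup C (fun N => if n < N then x n else 0) (x n) := by
      constructor
      · intro N
        dsimp only
        split_ifs
        · rw [sub_self]; exact hC.zero_mem
        · rw [sub_zero]; exact hx n
      · intro t ht
        have : t - (if n < n + 1 then x n else 0) ∈ C := ht (n + 1)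
        rwa [if_pos (Nat.lt_succ_self n)] at this
    have h3 := hC.sup_add (u := fun N => if n < N then x n else 0) (v := pa x (fun _ => 1))
      (fun N => by
        split_ifs with h4 h5 h5
        · rw [sub_self]; exact hC.zero_mem
        · rw [sub_zero]; exact hx n
        · omega
        · rw [sub_self]; exact hC.zero_mem)
      (pa_step hC x hx (fun _ => zero_le_one)) h2 hw
    have e1 : (fun N => (if n < N then x n else 0) + pa x (fun _ => 1) N) =
        pa x (fun k => (lp.single (E := fun _ : ℕ => ℝ) ∞ n (1 : ℝ)) k + 1) := by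
      funext N
      rw [pa_add]
      congr 1
      unfold pa
      simp only [lp.single_apply]
      split_ifs with h4
      · rw [Finset.sum_eq_single n]
        · rw [Pi.single_eq_same, one_smul]
        · intro b _ hb
          rw [Pi.single_eq_of_ne hb, zero_smul]
        · intro h; exact absurd (Finset.mem_range.2 h4) h
      · rw [Finset.sum_eq_zero]
        intro b hb
        rw [Pi.single_eq_of_ne, zero_smul]
        rintro rfl
        exact h4 (Finset.mem_range.1 hb)
    rw [e1] at h3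
    rwa [one_smul]
  have h2 : x n = T' (lp.single ∞ n (1 : ℝ)) := R_unique hC x hx w hw h1 (hT _)
  rw [h2]
  refine (T'.le_opNorm _).trans ?_
  rw [lp.norm_single (by norm_num), norm_one, mul_one]

end Main

/-- Property (S) implies that the cone is normal. -/
theorem normal_of_S [CompleteSpace X] (hC : IsClosedCone C) (hS : PropertyS C) :
    ∃ c : ℝ, 0 < c ∧ ∀ x y, x ∈ C → y - x ∈ C → ‖x‖ ≤ c * ‖y‖ := by
  by_contra hcon
  push Not at hcon
  have h1 : ∀ n : ℕ, ∃ x y : X, x ∈ C ∧ y - x ∈ C ∧ ‖y‖ ≤ (1 / 2) ^ n ∧ (2 : ℝ) ^ n ≤ ‖x‖ := by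
    intro n
    obtain ⟨x, y, hx, hxy, hn⟩ := hcon (4 ^ n) (by positivity)
    have hy : y ≠ 0 := by
      rintro rfl
      have : x = 0 := hC.eq_zero hx (by simpa using hxy)
      rw [this] at hn
      simp at hn
    have hy' : 0 < ‖y‖ := norm_pos_iff.2 hy
    set r : ℝ := (1 / 2) ^ n / ‖y‖ with hr
    have hr0 : 0 < r := by positivity
    refine ⟨r • x, r • y, hC.smul_mem _ hr0.le _ hx, ?_, ?_, ?_⟩
    · rw [← smul_sub]; exact hC.smul_mem _ hr0.le _ hxy
    · rw [norm_smul, Real.norm_eq_abs, abs_of_pos hr0, hr, div_mul_cancel₀ _ hy'.ne']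
    · rw [norm_smul, Real.norm_eq_abs, abs_of_pos hr0]
      have h2 : r * (4 ^ n * ‖y‖) = 2 ^ n := by
        rw [hr]
        have : (1 / 2 : ℝ) ^ n * 4 ^ n = 2 ^ n := by rw [← mul_pow]; norm_num
        field_simp
        linarith
      rw [← h2]
      exact mul_le_mul_of_nonneg_left hn.le hr0.le
  choose x y hx hxy hy hxn using h1
  have hyC : ∀ n, y n ∈ C := by
    intro n
    have := hC.add_mem _ (hxy n) _ (hx n)
    rwa [sub_add_cancel] at this
  have hsum : Summable y :=
    Summable.of_norm_bounded (g := fun n => (1 / 2 : ℝ) ^ n)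
      (summable_geometric_of_lt_one (by norm_num) (by norm_num)) hy
  have hpart : ∀ N, (∑' n, y n) - ∑ n ∈ Finset.range N, y n ∈ C := by
    intro N
    have h2 : Tendsto (fun M => ∑ n ∈ Finset.range M, y n - ∑ n ∈ Finset.range N, y n) atTop
        (𝓝 ((∑' n, y n) - ∑ n ∈ Finset.range N, y n)) :=
      hsum.hasSum.tendsto_sum_nat.sub_const _
    refine hC.isClosed.mem_of_tendsto h2 ((eventually_ge_atTop N).mono fun M hM => ?_)
    exact hC.mono_of_step (u := fun M => ∑ n ∈ Finset.range M, y n)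
      (fun n => by
        rw [Finset.sum_range_succ, add_sub_cancel_left]; exact hyC n) hM
  obtain ⟨w, hw⟩ : ∃ w, IsSup C (pa x (fun _ => 1)) w := by
    apply hS _ (pa_step hC x hx (fun _ => zero_le_one))
    refine ⟨0, ∑' n, y n, fun N => ⟨by
      rw [sub_zero]; exact pa_mem hC x hx (fun _ => zero_le_one) N, ?_⟩⟩
    have h3 : (∑ n ∈ Finset.range N, y n) - pa x (fun _ => 1) N ∈ C := by
      unfold pa
      rw [← Finset.sum_sub_distrib]
      have : ∀ s : Finset ℕ, ∑ n ∈ s, (y n - (1 : ℝ) • x n) ∈ C := by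
        intro s
        induction s using Finset.induction_on with
        | empty => simp [hC.zero_mem]
        | insert a s ha ih =>
          rw [Finset.sum_insert ha]
          exact hC.add_mem _ (by rw [one_smul]; exact hxy a) _ ih
      exact this _
    have := hC.add_mem _ (hpart N) _ h3
    rwa [sub_add_sub_cancel] at this
  obtain ⟨K, hK⟩ := bounded hC x hx hS w hw
  obtain ⟨n, hn⟩ := pow_unbounded_of_one_lt K (one_lt_two : (1 : ℝ) < 2)
  exact absurd ((hxn n).trans (hK n)) (not_le.2 hn)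

end Q101.ConeS
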