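import Pool.Agent.Q101.ConeS

set_option autoImplicit false

open Filter Topology

namespace Q101.ConeS

variable {X : Type*} [NormedAddCommGroup X] [NormedSpace ℝ X] {C : Set X}

/-- the indicator weights of a point of the Cantor space -/
def ind (A : ℕ → Bool) (n : ℕ) : ℝ := if A n then 1 else 0

theorem polish_cantor : PolishSpace (ℕ → Bool) := by
  have h1 : SecondCountableTopology (ℕ → Bool) := inferInstance
  have h2 : TopologicalSpace.IsCompletelyMetrizableSpace (ℕ → Bool) := inferInstance
  exact {}

/-- the flip of one coordinate -/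
def flipFun (n : ℕ) (A : ℕ → Bool) : ℕ → Bool := Function.update A n (!A n)

theorem flipFun_flipFun (n : ℕ) (A : ℕ → Bool) : flipFun n (flipFun n A) = A := by
  funext k
  unfold flipFun
  by_cases h : k = n
  · subst h; simp
  · simp [Function.update_of_ne h]

/-- the flip as a homeomorphism -/
def flip (n : ℕ) : (ℕ → Bool) ≃ₜ (ℕ → Bool) where
  toFun := flipFun n
  invFun := flipFun n
  left_inv := flipFun_flipFun n
  right_inv := flipFun_flipFun n
  continuous_toFun := continuous_id.update n
    ((continuous_of_discreteTopology (f := Bool.not)).comp (continuous_apply n))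
  continuous_invFun := continuous_id.update n
    ((continuous_of_discreteTopology (f := Bool.not)).comp (continuous_apply n))

theorem flip_apply (n : ℕ) (A : ℕ → Bool) : flip n A = flipFun n A := rfl

section

variable (hC : IsClosedCone C) (x : ℕ → X) (hx : ∀ n, x n ∈ C)
  (hS : PropertyS C) (w : X) (hw : IsSup C (pa x (fun _ => 1)) w)

theorem ind_nonneg (A : ℕ → Bool) (n : ℕ) : 0 ≤ ind A n := by unfold ind; split_ifs <;> norm_num

theorem ind_le (A : ℕ → Bool) (n : ℕ) : ind A n ≤ 1 := by unfold ind; split_ifs <;> norm_num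

theorem ind_compl (A : ℕ → Bool) (n : ℕ) : ind A n + ind (fun k => !A k) n = 1 := by
  unfold ind; by_cases h : A n = true <;> simp [h]

include hC hx hS hw

theorem exists_sup_ind (A : ℕ → Bool) : ∃ s, IsSup C (pa x (ind A)) s :=
  exists_sup hC x hx hS w hw (ind_nonneg A) (ind_le A)

/-- the closed graph -/
theorem graph_iff (A : ℕ → Bool) (z : X) :
    IsSup C (pa x (ind A)) z ↔
      ∀ N, z - pa x (ind A) N ∈ C ∧ w - z - pa x (ind (fun k => !A k)) N ∈ C := by
  obtain ⟨s, hs⟩ := exists_sup_ind hC x hx hS w hw A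
  obtain ⟨s', hs'⟩ := exists_sup_ind hC x hx hS w hw (fun k => !A k)
  have hsum : s + s' = w := by
    have h1 := hC.sup_add (pa_step hC x hx (ind_nonneg A)) (pa_step hC x hx (ind_nonneg _)) hs hs'
    have e : (fun N => pa x (ind A) N + pa x (ind (fun k => !A k)) N) = pa x (fun _ => 1) := by
      funext N
      rw [← pa_add]
      congr 1
      funext n
      exact ind_compl A n
    rw [e] at h1
    exact hC.sup_unique h1 hw
  constructor
  · intro hz N
    have hzs : z = s := hC.sup_unique hz hs
    refine ⟨hz.1 N, ?_⟩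
    have : w - z = s' := by rw [hzs, ← hsum]; abel
    rw [this]
    exact hs'.1 N
  · intro h
    have h1 : z - s ∈ C := hs.2 z fun N => (h N).1
    have h2 : w - z - s' ∈ C := hs'.2 _ fun N => (h N).2
    have h3 : w - z - s' = -(z - s) := by rw [← hsum]; abel
    rw [h3] at h2
    have h4 : z = s := sub_eq_zero.1 (hC.eq_zero h1 h2)
    rwa [h4]

omit hS hw in
/-- flipping a coordinate outside the set adds the corresponding vector -/
theorem flip_value {A : ℕ → Bool} {n : ℕ} (hn : A n = false) {z z' : X}
    (hz : IsSup C (pa x (ind A)) z) (hz' : IsSup C (pa x (ind (flipFun n A))) z') :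
    z' = z + x n := by
  have h2 : IsSup C (fun N => if n < N then x n else 0) (x n) := by
    constructor
    · intro N
      dsimp only
      split_ifs
      · rw [sub_self]; exact hC.zero_mem
      · rw [sub_zero]; exact hx n
    · intro t ht
      have : t - (if n < n + 1 then x n else 0) ∈ C := ht (n + 1)
      rwa [if_pos (Nat.lt_succ_self n)] at this
  have h3 := hC.sup_add (u := pa x (ind A)) (v := fun N => if n < N then x n else 0)
    (pa_step hC x hx (ind_nonneg A))
    (fun N => by
      split_ifs with h4 h5 h5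
      · rw [sub_self]; exact hC.zero_mem
      · rw [sub_zero]; exact hx n
      · omega
      · rw [sub_self]; exact hC.zero_mem) hz h2
  have e1 : (fun N => pa x (ind A) N + (if n < N then x n else 0)) = pa x (ind (flipFun n A)) := by
    funext N
    have h4 : ∀ k, ind (flipFun n A) k = ind A k + (if k = n then 1 else 0) := by
      intro k
      unfold ind flipFun
      by_cases hk : k = n
      · subst hk
        rw [Function.update_self, hn]; simp
      · rw [Function.update_of_ne hk, if_neg hk, add_zero]
    have h5 : ind (flipFun n A) = fun k => ind A k + (if k = n then 1 else 0) := funext h4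
    rw [h5, pa_add]
    congr 1
    unfold pa
    simp only [ite_smul, one_smul, zero_smul, Finset.sum_ite_eq', Finset.mem_range]
  rw [e1] at h3
  exact hC.sup_unique hz' h3

/-- In a separable space the terms of an order bounded increasing series cannot be bounded
away from zero. -/
theorem exists_small [CompleteSpace X] [TopologicalSpace.SeparableSpace X] {ε : ℝ} (hε : 0 < ε) :
    ∃ n, ‖x n‖ < ε := by
  by_contra hcon
  push Not at hcon
  -- the closed graph
  let G : Set ((ℕ → Bool) × X) :=
    {p | ∀ N, p.2 - pa x (ind p.1) N ∈ C ∧ w - p.2 - pa x (ind (fun k => !p.1 k)) N ∈ C}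
  have hpacont : ∀ N, Continuous (fun A : ℕ → Bool => pa x (ind A) N) := by
    intro N
    unfold pa
    refine continuous_finsetSum _ fun n _ => ?_
    have : Continuous (fun A : ℕ → Bool => ind A n) := by
      have h1 : Continuous (fun b : Bool => (if b then (1 : ℝ) else 0)) :=
        continuous_of_discreteTopology
      exact h1.comp (continuous_apply n)
    exact this.smul continuous_const
  have hcompl : Continuous (fun A : ℕ → Bool => (fun k => !A k : ℕ → Bool)) :=
    continuous_pi fun k =>
      (continuous_of_discreteTopology (f := Bool.not)).comp (continuous_apply k)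
  have hGc : IsClosed G := by
    have : G = ⋂ N, {p : (ℕ → Bool) × X | p.2 - pa x (ind p.1) N ∈ C} ∩
        {p : (ℕ → Bool) × X | w - p.2 - pa x (ind (fun k => !p.1 k)) N ∈ C} := by
      ext p
      simp only [G, Set.mem_iInter, Set.mem_inter_iff, Set.mem_ofPred_eq]
    rw [this]
    refine isClosed_iInter fun N => IsClosed.inter ?_ ?_
    · exact hC.isClosed.preimage (continuous_snd.sub ((hpacont N).comp continuous_fst))
    · exact hC.isClosed.preimage ((continuous_const.sub continuous_snd).sub
        (((hpacont N).comp hcompl).comp continuous_fst))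
  have hGsup : ∀ A z, (A, z) ∈ G ↔ IsSup C (pa x (ind A)) z := fun A z =>
    (graph_iff hC x hx hS w hw A z).symm
  -- the pieces
  have hne0 : Nonempty X := ⟨0⟩
  have hsc : SecondCountableTopology X := UniformSpace.secondCountable_of_separable X
  have hpol : PolishSpace X := inferInstance
  have hpol2 : PolishSpace (ℕ → Bool) := polish_cantor
  let q : ℕ → X := TopologicalSpace.denseSeq X
  let S : ℕ → Set (ℕ → Bool) := fun j =>
    Prod.fst '' (G ∩ (Prod.snd ⁻¹' Metric.closedBall (q j) (ε / 4)))
  have hSmem : ∀ j A, A ∈ S j ↔ ∃ z, IsSup C (pa x (ind A)) z ∧ dist z (q j) ≤ ε / 4 := by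
    intro j A
    constructor
    · rintro ⟨⟨A', z⟩, ⟨h1, h2⟩, rfl⟩
      exact ⟨z, (hGsup _ _).1 h1, h2⟩
    · rintro ⟨z, h1, h2⟩
      exact ⟨(A, z), ⟨(hGsup _ _).2 h1, h2⟩, rfl⟩
  have hSmeas : ∀ j, MeasurableSet (S j) := by
    intro j
    apply IsClosed.measurableSet_image_of_continuousOn_injOn
      (hGc.inter (Metric.isClosed_closedBall.preimage continuous_snd)) continuous_fst.continuousOn
    rintro ⟨A, z⟩ ⟨h1, _⟩ ⟨A', z'⟩ ⟨h2, _⟩ h
    have h' : A = A' := h
    subst h'
    have := hC.sup_unique ((hGsup _ _).1 h1) ((hGsup _ _).1 h2)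
    rw [this]
  have hcover : ∀ A : ℕ → Bool, ∃ j, A ∈ S j := by
    intro A
    obtain ⟨z, hz⟩ := exists_sup_ind hC x hx hS w hw A
    obtain ⟨j, hj⟩ := (TopologicalSpace.denseRange_denseSeq X).exists_dist_lt z
      (show 0 < ε / 4 by linarith)
    exact ⟨j, (hSmem j A).2 ⟨z, hz, hj.le⟩⟩
  choose U hUo hUr using fun j => (hSmeas j).residualEq_isOpen
  -- one of the open sets is nonempty
  obtain ⟨j, A₀, hA₀⟩ : ∃ j, (U j).Nonempty := by
    by_contra hne
    push Not at hne
    have h1 : ∀ j, ∀ᶠ A in residual (ℕ → Bool), A ∉ S j := by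
      intro j
      filter_upwards [hUr j] with A hA
      intro h2
      have h3 : (S j A) = (U j A) := hA
      have h4 : A ∈ U j := by
        change U j A
        rw [← h3]; exact h2
      rw [hne j] at h4
      exact h4
    have h2 : ∀ᶠ A in residual (ℕ → Bool), ∀ j, A ∉ S j := eventually_countable_forall.2 h1
    obtain ⟨A, hA⟩ := (dense_of_mem_residual h2).nonempty
    obtain ⟨j, hj⟩ := hcover A
    exact hA j hj
  -- a basic neighbourhood
  obtain ⟨I, u, hu, hIU⟩ := isOpen_pi_iff.1 (hUo j) A₀ hA₀
  obtain ⟨n, hn⟩ := Infinite.exists_notMem_finset I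
  let V : Set (ℕ → Bool) := (I : Set ℕ).pi u
  have hVo : IsOpen V := isOpen_set_pi I.finite_toSet fun a ha => (hu a ha).1
  have hVne : V.Nonempty := ⟨A₀, fun a ha => (hu a ha).2⟩
  have hVflip : ∀ A ∈ V, flip n A ∈ V := by
    intro A hA a ha
    have hne : a ≠ n := fun h => hn (h ▸ ha)
    rw [flip_apply]
    unfold flipFun
    rw [Function.update_of_ne hne]
    exact hA a ha
  have hR1 : ∀ᶠ A in residual (ℕ → Bool), (A ∈ S j ↔ A ∈ U j) := by
    filter_upwards [hUr j] with A hA
    have h3 : (S j A) = (U j A) := hA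
    change S j A ↔ U j A
    rw [h3]
  have hR2 : ∀ᶠ A in residual (ℕ → Bool), (flip n A ∈ S j ↔ flip n A ∈ U j) :=
    (tendsto_residual_of_isOpenMap (flip n).continuous (flip n).isOpenMap).eventually hR1
  obtain ⟨A, hAV, hA1, hA2⟩ := (dense_of_mem_residual (hR1.and hR2)).inter_open_nonempty V hVo hVne
  have hAS : A ∈ S j := hA1.2 (hIU hAV)
  have hAS' : flip n A ∈ S j := hA2.2 (hIU (hVflip A hAV))
  obtain ⟨z, hz, hzd⟩ := (hSmem j A).1 hAS
  obtain ⟨z', hz', hzd'⟩ := (hSmem j _).1 hAS'
  have hdist : ‖z' - z‖ ≤ ε / 2 := by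
    rw [← dist_eq_norm]
    have := dist_triangle_right z' z (q j)
    linarith
  have hxn : ‖x n‖ ≤ ε / 2 := by
    cases hAn : A n with
    | false =>
      have h1 := flip_value hC x hx hAn hz hz'
      have h2 : x n = z' - z := by rw [h1]; abel
      rw [h2]; exact hdist
    | true =>
      have hAn' : flipFun n A n = false := by unfold flipFun; simp [hAn]
      have hz2 : IsSup C (pa x (ind (flipFun n (flipFun n A)))) z := by
        rw [flipFun_flipFun]; exact hz
      have h1 := flip_value hC x hx hAn' hz' hz2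
      have h2 : x n = z - z' := by rw [h1]; abel
      rw [h2, norm_sub_rev]; exact hdist
  have := hcon n
  linarith

end

/-- In a separable ordered Banach space with property (S), increasing order bounded sequences
converge in norm. -/
theorem tendsto_of_S [CompleteSpace X] [TopologicalSpace.SeparableSpace X] (hC : IsClosedCone C)
    (hS : PropertyS C) (u : ℕ → X) (hu : ∀ n, u (n + 1) - u n ∈ C)
    (hb : ∃ a b, ∀ n, u n - a ∈ C ∧ b - u n ∈ C) : ∃ z, Tendsto u atTop (𝓝 z) := by
  apply cauchySeq_tendsto_of_complete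
  rw [Metric.cauchySeq_iff']
  by_contra hcon
  push Not at hcon
  obtain ⟨ε, hε, h⟩ := hcon
  choose f hf1 hf2 using h
  let s : ℕ → ℕ := fun k => f^[k] 0
  have hs : ∀ k, s (k + 1) = f (s k) := fun k => Function.iterate_succ_apply' f k 0
  let d : ℕ → X := fun k => u (s (k + 1)) - u (s k)
  have hd : ∀ k, d k ∈ C := fun k => by
    change u (s (k + 1)) - u (s k) ∈ C
    rw [hs]
    exact hC.mono_of_step hu (hf1 _)
  have hdn : ∀ k, ε ≤ ‖d k‖ := by
    intro k
    change ε ≤ ‖u (s (k + 1)) - u (s k)‖
    rw [hs, ← dist_eq_norm]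
    exact hf2 _
  have hpa : ∀ N, pa d (fun _ => 1) N = u (s N) - u (s 0) := by
    intro N
    unfold pa
    simp only [one_smul]
    exact Finset.sum_range_sub (fun k => u (s k)) N
  obtain ⟨a, b, hab⟩ := hb
  obtain ⟨w, hw⟩ : ∃ w, IsSup C (pa d (fun _ => 1)) w := by
    apply hS _ (pa_step hC d hd (fun _ => zero_le_one))
    refine ⟨0, b - u (s 0), fun N => ⟨?_, ?_⟩⟩
    · rw [sub_zero]; exact pa_mem hC d hd (fun _ => zero_le_one) N
    · rw [hpa, sub_sub_sub_cancel_right]; exact (hab _).2
  obtain ⟨n, hn⟩ := exists_small hC d hd hS w hw hε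
  exact absurd (hdn n) (not_le.2 hn)

end Q101.ConeS
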