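import Mathlib

/-!
List machinery for greedy orderings: sums and Cesaro sums along lists, near unconditionality.
-/

namespace Q101.Cqg

open List

variable {𝕜 X : Type*} [RCLike 𝕜] [NormedAddCommGroup X] [NormedSpace 𝕜 X]

/-- The vector with coefficients `f` on the list `l`. -/
noncomputable def S (e : ℕ → X) (f : ℕ → 𝕜) (l : List ℕ) : X := (l.map fun n => f n • e n).sum

/-- The sum of all the partial sums of `S`. -/
noncomputable def D (e : ℕ → X) (f : ℕ → 𝕜) : List ℕ → X
  | [] => 0
  | (n :: l) => ((l.length : 𝕜) + 1) • (f n • e n) + D e f l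

variable {e : ℕ → X} {f g : ℕ → 𝕜}

@[simp] lemma S_nil : S e f [] = 0 := by simp [S]
@[simp] lemma S_cons (n : ℕ) (l : List ℕ) : S e f (n :: l) = f n • e n + S e f l := by simp [S]
lemma S_append (l l' : List ℕ) : S e f (l ++ l') = S e f l + S e f l' := by simp [S]
lemma S_singleton (n : ℕ) : S e f [n] = f n • e n := by simp
@[simp] lemma D_nil : D e f [] = 0 := rfl
lemma D_cons (n : ℕ) (l : List ℕ) :
    D e f (n :: l) = ((l.length : 𝕜) + 1) • (f n • e n) + D e f l := rfl

lemma D_append (l l' : List ℕ) :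
    D e f (l ++ l') = D e f l + (l'.length : 𝕜) • S e f l + D e f l' := by
  induction l with
  | nil => simp
  | cons n l ih =>
    simp only [List.cons_append, D_cons, ih, S_cons, List.length_append, Nat.cast_add]
    module

lemma S_perm {l l' : List ℕ} (h : l.Perm l') : S e f l = S e f l' := by
  unfold S
  exact (h.map _).sum_eq

lemma S_reverse (l : List ℕ) : S e f l.reverse = S e f l := S_perm (List.reverse_perm l)

lemma D_add_D_reverse (l : List ℕ) :
    D e f l + D e f l.reverse = ((l.length : 𝕜) + 1) • S e f l := by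
  induction l with
  | nil => simp
  | cons n l ih =>
    rw [List.reverse_cons, D_append, D_cons, S_cons, S_reverse]
    simp only [List.length_cons, List.length_nil, D_cons, D_nil]
    have : D e f l.reverse = ((l.length : 𝕜) + 1) • S e f l - D e f l := by
      rw [← ih]; abel
    rw [this]
    push_cast
    module

lemma S_congr {l : List ℕ} (h : ∀ n ∈ l, f n = g n) : S e f l = S e g l := by
  unfold S
  congr 1
  apply List.map_congr_left
  intro n hn
  rw [h n hn]

lemma D_congr {l : List ℕ} (h : ∀ n ∈ l, f n = g n) : D e f l = D e g l := by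
  induction l with
  | nil => rfl
  | cons n l ih =>
    rw [D_cons, D_cons, ih (fun m hm => h m (by simp [hm])), h n (by simp)]

lemma S_smul (c : 𝕜) (l : List ℕ) : S e (fun n => c * f n) l = c • S e f l := by
  induction l with
  | nil => simp
  | cons n l ih => rw [S_cons, S_cons, ih]; module

lemma D_smul (c : 𝕜) (l : List ℕ) : D e (fun n => c * f n) l = c • D e f l := by
  induction l with
  | nil => simp
  | cons n l ih => rw [D_cons, D_cons, ih]; module

/-- the sum over the finset -/
lemma S_eq_sum {l : List ℕ} (h : l.Nodup) : S e f l = ∑ n ∈ l.toFinset, f n • e n := by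
  unfold S
  rw [List.sum_toFinset _ h]

lemma sum_eq_S (s : Finset ℕ) : ∑ n ∈ s, f n • e n = S e f s.toList := by
  unfold S
  rw [Finset.sum_map_toList]

/-- The Cesaro sum on a list is a weighted sum with weights in `[0,1]`. -/
lemma exists_weights {l : List ℕ} (h : l.Nodup) :
    ∃ θ : ℕ → ℝ, (∀ n, 0 ≤ θ n ∧ θ n ≤ 1) ∧
      ∀ (e : ℕ → X) (f : ℕ → 𝕜),
        D e f l = (l.length : 𝕜) • S e (fun n => (θ n : 𝕜) * f n) l := by
  refine ⟨fun n => ((l.length : ℝ) - l.idxOf n) / l.length, ?_, ?_⟩
  · intro n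
    rcases Nat.eq_zero_or_pos l.length with h0 | h0
    · simp [h0]
    · have h1 : (l.idxOf n : ℝ) ≤ l.length := by exact_mod_cast List.idxOf_le_length
      have h2 : (0 : ℝ) < l.length := by exact_mod_cast h0
      constructor
      · apply div_nonneg <;> linarith
      · rw [div_le_one h2]
        have : (0 : ℝ) ≤ l.idxOf n := by positivity
        linarith
  · intro e f
    -- general statement
    have key : ∀ (L : List ℕ), L.Nodup → ∀ (N : ℕ) (φ : ℕ → ℕ), 
        (∀ n ∈ L, φ n = N + L.idxOf n) →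
        D e f L = S e (fun n => (((L.length + N : ℕ) : 𝕜) - (φ n : 𝕜)) * f n) L := by
      intro L
      induction L with
      | nil => intro _ N φ _; simp
      | cons a L ih =>
        intro hL N φ hφ
        have hL' := (List.nodup_cons.1 hL)
        rw [D_cons, S_cons, ih hL'.2 (N + 1) φ ?_]
        · have h1 : φ a = N := by
            have := hφ a (by simp)
            simpa using this
          rw [h1]
          congr 1
          · simp only [List.length_cons]
            push_cast
            module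
          · apply S_congr
            intro n hn
            simp only [List.length_cons]
            push_cast
            ring
        · intro n hn
          have h2 := hφ n (by simp [hn])
          have hna : a ≠ n := by
            rintro rfl
            exact hL'.1 hn
          rw [h2, List.idxOf_cons_ne _ hna, Nat.succ_eq_add_one]
          ring
    rw [key l h 0 (fun n => l.idxOf n) (by intro n _; simp)]
    rcases Nat.eq_zero_or_pos l.length with h0 | h0
    · have : l = [] := List.length_eq_zero_iff.1 h0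
      subst this
      simp
    · rw [← S_smul]
      apply S_congr
      intro n hn
      have h2 : (l.length : 𝕜) ≠ 0 := by exact_mod_cast h0.ne'
      push_cast
      field_simp
      ring

/-- A valid greedy list for `f`, off the finite set `F`. -/
structure Valid (F : Finset ℕ) (f : ℕ → 𝕜) (l : List ℕ) : Prop where
  nodup : l.Nodup
  off : ∀ n ∈ l, n ∉ F
  ne : ∀ n ∈ l, f n ≠ 0
  anti : l.Pairwise fun a b => ‖f b‖ ≤ ‖f a‖

/-- The uniform Cesaro hypothesis. -/
def HypH (e : ℕ → X) (𝕜 : Type*) [RCLike 𝕜] [NormedSpace 𝕜 X] (F : Finset ℕ) (K : ℝ) : Prop :=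
  ∀ (f : ℕ → 𝕜) (l₁ l₂ : List ℕ), Valid F f (l₁ ++ l₂) →
    ‖D e f l₁‖ ≤ K * l₁.length * ‖S e f (l₁ ++ l₂)‖

/-- The uniform coordinate hypothesis. -/
def HypC (e : ℕ → X) (𝕜 : Type*) [RCLike 𝕜] [NormedSpace 𝕜 X] (κ : ℝ) : Prop :=
  ∀ (f : ℕ → 𝕜) (l : List ℕ), l.Nodup → ∀ n ∈ l, ‖f n • e n‖ ≤ κ * ‖S e f l‖

/-- The tapered block bound. -/
lemma taper_bound {F : Finset ℕ} {K : ℝ} (hK : HypH e 𝕜 F K)
    {f : ℕ → 𝕜} {a b c : List ℕ} (h : Valid F f (a ++ b ++ c)) :
    ‖(b.length : 𝕜) • S e f a + D e f b‖ ≤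
      K * (2 * a.length + b.length) * ‖S e f (a ++ b ++ c)‖ := by
  have h1 := hK f (a ++ b) c h
  have h2 := hK f a (b ++ c) (by simpa using h)
  have h3 : (b.length : 𝕜) • S e f a + D e f b = D e f (a ++ b) - D e f a := by
    rw [D_append]; abel
  rw [h3]
  have h4 : S e f (a ++ (b ++ c)) = S e f (a ++ b ++ c) := by simp
  rw [h4] at h2
  calc ‖D e f (a ++ b) - D e f a‖ ≤ ‖D e f (a ++ b)‖ + ‖D e f a‖ := norm_sub_le _ _
    _ ≤ K * (a ++ b).length * ‖S e f (a ++ b ++ c)‖ + K * a.length * ‖S e f (a ++ b ++ c)‖ :=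
        add_le_add h1 h2
    _ = K * (2 * a.length + b.length) * ‖S e f (a ++ b ++ c)‖ := by
        simp only [List.length_append, Nat.cast_add]; ring

/-- The tapered block bound, averaged over the reversal of the block. -/
lemma taper_reverse {F : Finset ℕ} {K : ℝ} (hK : HypH e 𝕜 F K)
    {f : ℕ → 𝕜} {a b c : List ℕ} (h : Valid F f (a ++ b ++ c))
    (h' : Valid F f (a ++ b.reverse ++ c)) :
    ‖(2 * (b.length : 𝕜)) • S e f a + ((b.length : 𝕜) + 1) • S e f b‖ ≤
      2 * K * (2 * a.length + b.length) * ‖S e f (a ++ b ++ c)‖ := by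
  have h1 := taper_bound hK h
  have h2 := taper_bound hK h'
  have h3 : S e f (a ++ b.reverse ++ c) = S e f (a ++ b ++ c) := by
    simp only [S_append, S_reverse]
  rw [h3, List.length_reverse] at h2
  have h4 : (2 * (b.length : 𝕜)) • S e f a + ((b.length : 𝕜) + 1) • S e f b =
      ((b.length : 𝕜) • S e f a + D e f b) + ((b.length : 𝕜) • S e f a + D e f b.reverse) := by
    rw [← D_add_D_reverse]; module
  rw [h4]
  calc _ ≤ _ := norm_add_le _ _
    _ ≤ _ := add_le_add h1 h2
    _ = _ := by ring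

/-- Convexity lemma. -/
lemma convex_bound (v : ℕ → X) (A : Finset ℕ) (θ : ℕ → ℝ) (hθ : ∀ n ∈ A, 0 ≤ θ n ∧ θ n ≤ 1)
    (M : ℝ) : ∀ u : X, (∀ B ⊆ A, ‖u + ∑ n ∈ B, v n‖ ≤ M) →
    ‖u + ∑ n ∈ A, (θ n : 𝕜) • v n‖ ≤ M := by
  classical
  induction A using Finset.induction_on with
  | empty => intro u h; simpa using h ∅ (by simp)
  | insert a A ha ih =>
    intro u h
    have hθ' : ∀ n ∈ A, 0 ≤ θ n ∧ θ n ≤ 1 := fun n hn => hθ n (by simp [hn])
    have h1 : ‖(u + v a) + ∑ n ∈ A, (θ n : 𝕜) • v n‖ ≤ M := by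
      apply ih hθ'
      intro B hB
      have := h (insert a B) (Finset.insert_subset_insert a hB)
      rw [Finset.sum_insert (fun hh => ha (hB hh))] at this
      rwa [add_assoc]
    have h2 : ‖u + ∑ n ∈ A, (θ n : 𝕜) • v n‖ ≤ M := by
      apply ih hθ'
      intro B hB
      exact h B (hB.trans (Finset.subset_insert a A))
    rw [Finset.sum_insert ha]
    have ht := hθ a (by simp)
    set t := θ a
    set s := ∑ n ∈ A, (θ n : 𝕜) • v n
    have h3 : u + ((t : 𝕜) • v a + s) = (t : 𝕜) • (u + v a + s) + ((1 - t : ℝ) : 𝕜) • (u + s) := by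
      push_cast
      module
    rw [h3]
    calc _ ≤ ‖(t : 𝕜) • (u + v a + s)‖ + ‖((1 - t : ℝ) : 𝕜) • (u + s)‖ := norm_add_le _ _
      _ = t * ‖u + v a + s‖ + (1 - t) * ‖u + s‖ := by
          rw [norm_smul, norm_smul, RCLike.norm_ofReal, RCLike.norm_ofReal, abs_of_nonneg ht.1,
            abs_of_nonneg (by linarith)]
      _ ≤ t * M + (1 - t) * M := by
          apply add_le_add
          · exact mul_le_mul_of_nonneg_left h1 ht.1
          · exact mul_le_mul_of_nonneg_left h2 (by linarith)
      _ = M := by ring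

lemma convex_bound' (v : ℕ → X) (A : Finset ℕ) (θ : ℕ → ℝ) {c : ℝ} (hc : 0 ≤ c)
    (hθ : ∀ n ∈ A, 0 ≤ θ n ∧ θ n ≤ c)
    (M : ℝ) (h : ∀ B ⊆ A, ‖∑ n ∈ B, v n‖ ≤ M) :
    ‖∑ n ∈ A, (θ n : 𝕜) • v n‖ ≤ c * M := by
  rcases hc.eq_or_lt with hc0 | hc0
  · have : ∀ n ∈ A, (θ n : 𝕜) • v n = 0 := by
      intro n hn
      have := hθ n hn
      have h0 : θ n = 0 := le_antisymm (by rw [hc0]; exact this.2) this.1
      simp [h0]
    rw [Finset.sum_eq_zero this, ← hc0]
    simp
  · have h1 := convex_bound (𝕜 := 𝕜) (fun n => (c : 𝕜) • v n) A (fun n => θ n / c)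
      (fun n hn => ⟨div_nonneg (hθ n hn).1 hc, (div_le_one hc0).2 (hθ n hn).2⟩) (c * M) 0
      (fun B hB => by
        rw [zero_add, ← Finset.smul_sum, norm_smul, RCLike.norm_ofReal, abs_of_nonneg hc]
        exact mul_le_mul_of_nonneg_left (h B hB) hc)
    rw [zero_add] at h1
    convert h1 using 2
    apply Finset.sum_congr rfl
    intro n _
    rw [smul_smul]
    congr 1
    push_cast
    have : (c : 𝕜) ≠ 0 := by exact_mod_cast hc0.ne'
    field_simp

end Q101.Cqg
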