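import Pool.Agent.Q101.CqgA

/-!
Near unconditionality from the uniform Cesaro bound.
-/

namespace Q101.Cqg

open List

variable {𝕜 X : Type*} [RCLike 𝕜] [NormedAddCommGroup X] [NormedSpace 𝕜 X]
variable {e : ℕ → X} {f g : ℕ → 𝕜}

lemma exists_sorted (f : ℕ → 𝕜) (l : List ℕ) :
    ∃ l' : List ℕ, l'.Perm l ∧ l'.Pairwise (fun a b => ‖f b‖ ≤ ‖f a‖) := by
  classical
  let r : ℕ → ℕ → Prop := fun a b => ‖f b‖ ≤ ‖f a‖
  have : Std.Total r := ⟨fun a b => le_total _ _⟩
  have : IsTrans ℕ r := ⟨fun a b c h1 h2 => le_trans h2 h1⟩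
  exact ⟨l.insertionSort r, List.perm_insertionSort r l, List.pairwise_insertionSort r l⟩

lemma valid_append {F : Finset ℕ} {a b : List ℕ} (ha : Valid F f a) (hb : Valid F f b)
    (hd : ∀ n ∈ a, n ∉ b) (hab : ∀ x ∈ a, ∀ y ∈ b, ‖f y‖ ≤ ‖f x‖) : Valid F f (a ++ b) where
  nodup := by
    rw [List.nodup_append']
    exact ⟨ha.nodup, hb.nodup, fun n h1 h2 => hd n h1 h2⟩
  off := by
    intro n hn
    rcases List.mem_append.1 hn with h | h
    · exact ha.off n h
    · exact hb.off n h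
  ne := by
    intro n hn
    rcases List.mem_append.1 hn with h | h
    · exact ha.ne n h
    · exact hb.ne n h
  anti := by
    rw [List.pairwise_append]
    exact ⟨ha.anti, hb.anti, hab⟩

lemma valid_left {F : Finset ℕ} {a b : List ℕ} (h : Valid F f (a ++ b)) : Valid F f a where
  nodup := (List.nodup_append'.1 h.nodup).1
  off := fun n hn => h.off n (List.mem_append_left _ hn)
  ne := fun n hn => h.ne n (List.mem_append_left _ hn)
  anti := (List.pairwise_append.1 h.anti).1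

lemma valid_right {F : Finset ℕ} {a b : List ℕ} (h : Valid F f (a ++ b)) : Valid F f b where
  nodup := (List.nodup_append'.1 h.nodup).2.1
  off := fun n hn => h.off n (List.mem_append_right _ hn)
  ne := fun n hn => h.ne n (List.mem_append_right _ hn)
  anti := (List.pairwise_append.1 h.anti).2.1

lemma valid_cross {F : Finset ℕ} {a b : List ℕ} (h : Valid F f (a ++ b)) :
    (∀ n ∈ a, n ∉ b) ∧ (∀ x ∈ a, ∀ y ∈ b, ‖f y‖ ≤ ‖f x‖) :=
  ⟨fun _ h1 h2 => (List.nodup_append'.1 h.nodup).2.2 h1 h2, (List.pairwise_append.1 h.anti).2.2⟩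

lemma valid_perm_congr {F : Finset ℕ} {a b : List ℕ} (h : Valid F f a) (hp : b.Perm a)
    (hfg : ∀ n ∈ a, g n ≠ 0) (hb : b.Pairwise fun x y => ‖g y‖ ≤ ‖g x‖) : Valid F g b where
  nodup := hp.nodup_iff.2 h.nodup
  off := fun n hn => h.off n (hp.mem_iff.1 hn)
  ne := fun n hn => hfg n (hp.mem_iff.1 hn)
  anti := hb

lemma valid_const {F : Finset ℕ} {a : List ℕ} (hn : a.Nodup) (ho : ∀ n ∈ a, n ∉ F)
    {η : ℝ} (hη : 0 < η) (h : ∀ n ∈ a, ‖f n‖ = η) : Valid F f a where
  nodup := hn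
  off := ho
  ne := by
    intro n hn' h0
    have := h n hn'
    rw [h0, norm_zero] at this
    linarith
  anti := by
    apply List.Pairwise.imp_of_mem (R := fun _ _ => True)
    · intro x y hx hy _
      rw [h x hx, h y hy]
    · exact List.pairwise_of_forall (fun _ _ => trivial)

/-- Projections onto half of the top coefficients. -/
lemma nu_half {F : Finset ℕ} {K κ : ℝ} (hK : HypH e 𝕜 F K) (hK0 : 0 ≤ K)
    (hC : HypC e 𝕜 κ) (hκ : 0 ≤ κ) {η : ℝ} (hη : 0 < η) {T A B : Finset ℕ}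
    (hT : ∀ n ∈ T, n ∉ F) (hf : ∀ n ∈ T, ‖f n‖ ≤ η) (hA : A ⊆ T) (hB : B ⊆ T)
    (hAB : Disjoint A B) (hcard : A.card = B.card)
    (hA' : ∀ n ∈ A, ‖f n‖ = η) (hB' : ∀ n ∈ B, ‖f n‖ = η) :
    ‖∑ n ∈ A, f n • e n‖ ≤ (12 * K + κ) * ‖∑ n ∈ T, f n • e n‖ := by
  classical
  set x := ∑ n ∈ T, f n • e n with hx
  have hx0 : 0 ≤ ‖x‖ := norm_nonneg _
  rcases Nat.lt_or_ge A.card 2 with hc | hc
  · interval_cases hA0 : A.card
    · rw [Finset.card_eq_zero] at hA0
      subst hA0
      simp only [Finset.sum_empty, norm_zero]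
      positivity
    · obtain ⟨n, rfl⟩ := Finset.card_eq_one.1 hA0
      rw [Finset.sum_singleton]
      have h1 := hC f T.toList T.nodup_toList n (by simpa using hA)
      rw [← sum_eq_S] at h1
      refine h1.trans ?_
      apply mul_le_mul_of_nonneg_right _ hx0
      linarith
  · -- the main case
    obtain ⟨lr, hlr, hlrs⟩ := exists_sorted f (((T \ (A ∪ B)).filter (fun n => f n ≠ 0)).toList)
    have hlrm : ∀ n, n ∈ lr ↔ (n ∈ T ∧ n ∉ A ∧ n ∉ B) ∧ f n ≠ 0 := by
      intro n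
      rw [hlr.mem_iff]
      simp
    have hlrv : Valid F f lr := by
      refine ⟨hlr.nodup_iff.2 (Finset.nodup_toList _), ?_, ?_, hlrs⟩
      · intro n hn
        exact hT n ((hlrm n).1 hn).1.1
      · intro n hn
        exact ((hlrm n).1 hn).2
    have hva : ∀ (a : List ℕ), a.Perm A.toList → Valid F f a := by
      intro a ha
      refine valid_const (ha.nodup_iff.2 (Finset.nodup_toList _)) ?_ hη ?_
      · intro n hn
        have : n ∈ A := by simpa using ha.mem_iff.1 hn
        exact hT n (hA this)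
      · intro n hn
        have : n ∈ A := by simpa using ha.mem_iff.1 hn
        exact hA' n this
    have hvb : ∀ (a : List ℕ), a.Perm B.toList → Valid F f a := by
      intro a ha
      refine valid_const (ha.nodup_iff.2 (Finset.nodup_toList _)) ?_ hη ?_
      · intro n hn
        have : n ∈ B := by simpa using ha.mem_iff.1 hn
        exact hT n (hB this)
      · intro n hn
        have : n ∈ B := by simpa using ha.mem_iff.1 hn
        exact hB' n this
    have hdisj : ∀ n, n ∈ A → n ∉ B := fun n h1 h2 => Finset.disjoint_left.1 hAB h1 h2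
    have hall : ∀ (a b : List ℕ), a.Perm A.toList → b.Perm B.toList →
        Valid F f (a ++ b ++ lr) ∧ Valid F f (b ++ a ++ lr) := by
      intro a b ha hb
      have ma : ∀ n, n ∈ a ↔ n ∈ A := fun n => by simpa using ha.mem_iff (a := n)
      have mb : ∀ n, n ∈ b ↔ n ∈ B := fun n => by simpa using hb.mem_iff (a := n)
      constructor
      · refine valid_append (valid_append (hva a ha) (hvb b hb) ?_ ?_) hlrv ?_ ?_
        · intro n h1 h2
          exact hdisj n ((ma n).1 h1) ((mb n).1 h2)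
        · intro x hx y hy
          rw [hB' y ((mb y).1 hy), hA' x ((ma x).1 hx)]
        · intro n h1 h2
          rcases List.mem_append.1 h1 with h | h
          · exact ((hlrm n).1 h2).1.2.1 ((ma n).1 h)
          · exact ((hlrm n).1 h2).1.2.2 ((mb n).1 h)
        · intro x h1 y hy
          have h2 := hf y ((hlrm y).1 hy).1.1
          rcases List.mem_append.1 h1 with h | h
          · rw [hA' x ((ma x).1 h)]; exact h2
          · rw [hB' x ((mb x).1 h)]; exact h2
      · refine valid_append (valid_append (hvb b hb) (hva a ha) ?_ ?_) hlrv ?_ ?_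
        · intro n h1 h2
          exact hdisj n ((ma n).1 h2) ((mb n).1 h1)
        · intro x hx y hy
          rw [hA' y ((ma y).1 hy), hB' x ((mb x).1 hx)]
        · intro n h1 h2
          rcases List.mem_append.1 h1 with h | h
          · exact ((hlrm n).1 h2).1.2.2 ((mb n).1 h)
          · exact ((hlrm n).1 h2).1.2.1 ((ma n).1 h)
        · intro x h1 y hy
          have h2 := hf y ((hlrm y).1 hy).1.1
          rcases List.mem_append.1 h1 with h | h
          · rw [hB' x ((mb x).1 h)]; exact h2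
          · rw [hA' x ((ma x).1 h)]; exact h2
    -- the total vector
    have hsum : S e f (A.toList ++ B.toList ++ lr) = x := by
      rw [S_append, S_append, S_perm hlr, ← sum_eq_S, ← sum_eq_S, ← sum_eq_S, Finset.sum_filter_of_ne]
      · rw [← Finset.sum_union hAB, add_comm, Finset.sum_sdiff (Finset.union_subset hA hB)]
      · intro n _ hn h0
        apply hn
        rw [h0, zero_smul]
    have hsum' : S e f (B.toList ++ A.toList ++ lr) = x := by
      rw [← hsum]
      simp only [S_append]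
      abel
    have hrA := List.reverse_perm A.toList
    have hrB := List.reverse_perm B.toList
    have h1 := taper_reverse (e := e) hK (hall _ _ (List.Perm.refl _) (List.Perm.refl _)).1
      (hall _ _ (List.Perm.refl _) hrB).1
    have h2 := taper_reverse (e := e) hK (hall _ _ (List.Perm.refl _) (List.Perm.refl _)).2
      (hall _ _ hrA (List.Perm.refl _)).2
    rw [hsum, Finset.length_toList, Finset.length_toList, ← hcard, ← sum_eq_S, ← sum_eq_S] at h1
    rw [hsum', Finset.length_toList, Finset.length_toList, ← hcard, ← sum_eq_S, ← sum_eq_S] at h2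
    set a : ℕ := A.card with ha
    set u := ∑ n ∈ A, f n • e n
    set v := ∑ n ∈ B, f n • e n
    have ha2 : (2 : ℝ) ≤ a := by exact_mod_cast hc
    have h3 : (((a : 𝕜) - 1) * (3 * a + 1)) • u =
        (2 * (a : 𝕜)) • ((2 * (a : 𝕜)) • u + ((a : 𝕜) + 1) • v) -
        ((a : 𝕜) + 1) • ((2 * (a : 𝕜)) • v + ((a : 𝕜) + 1) • u) := by module
    have h4 : ((a : ℝ) - 1) * (3 * a + 1) * ‖u‖ ≤ (3 * a + 1) * (6 * K * a * ‖x‖) := by
      have e1 : ‖(((a : 𝕜) - 1) * (3 * a + 1)) • u‖ = ((a : ℝ) - 1) * (3 * a + 1) * ‖u‖ := by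
        have : (((a : 𝕜) - 1) * (3 * a + 1)) = (((((a : ℝ) - 1) * (3 * a + 1)) : ℝ) : 𝕜) := by
          push_cast; ring
        rw [this, norm_smul, RCLike.norm_ofReal, abs_of_nonneg]
        apply mul_nonneg <;> linarith
      rw [← e1, h3]
      have e2 : ‖(2 * (a : 𝕜))‖ = 2 * a := by
        have : (2 * (a : 𝕜)) = ((2 * a : ℝ) : 𝕜) := by push_cast; ring
        rw [this, RCLike.norm_ofReal, abs_of_nonneg]
        linarith
      have e3 : ‖((a : 𝕜) + 1)‖ = a + 1 := by
        have : ((a : 𝕜) + 1) = ((a + 1 : ℝ) : 𝕜) := by push_cast; ring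
        rw [this, RCLike.norm_ofReal, abs_of_nonneg]
        linarith
      calc _ ≤ ‖(2 * (a : 𝕜)) • ((2 * (a : 𝕜)) • u + ((a : 𝕜) + 1) • v)‖ +
            ‖((a : 𝕜) + 1) • ((2 * (a : 𝕜)) • v + ((a : 𝕜) + 1) • u)‖ := norm_sub_le _ _
        _ = (2 * a) * ‖((2 * (a : 𝕜)) • u + ((a : 𝕜) + 1) • v)‖ +
            (a + 1) * ‖((2 * (a : 𝕜)) • v + ((a : 𝕜) + 1) • u)‖ := by
              rw [norm_smul, norm_smul, e2, e3]
        _ ≤ (2 * a) * (2 * K * (2 * a + a) * ‖x‖) + (a + 1) * (2 * K * (2 * a + a) * ‖x‖) := by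
              gcongr
        _ = _ := by ring
    have h5 : ((a : ℝ) - 1) * ‖u‖ ≤ 6 * K * a * ‖x‖ := by
      have : (0 : ℝ) < 3 * a + 1 := by linarith
      nlinarith [h4]
    have h6 : ‖u‖ ≤ 12 * K * ‖x‖ := by
      have h7 : 6 * K * a * ‖x‖ ≤ ((a : ℝ) - 1) * (12 * K * ‖x‖) := by
        have : 0 ≤ K * ‖x‖ := by positivity
        nlinarith
      have h8 : (0 : ℝ) < (a : ℝ) - 1 := by linarith
      exact le_of_mul_le_mul_left (h5.trans h7) h8
    nlinarith [mul_nonneg hκ hx0]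

/-- Projections onto arbitrary subsets of the top coefficients. -/
lemma nu_top {F : Finset ℕ} {K κ : ℝ} (hK : HypH e 𝕜 F K) (hK0 : 0 ≤ K)
    (hC : HypC e 𝕜 κ) (hκ : 0 ≤ κ) {η : ℝ} (hη : 0 < η) {T A E : Finset ℕ}
    (hT : ∀ n ∈ T, n ∉ F) (hf : ∀ n ∈ T, ‖f n‖ ≤ η) (hA : A ⊆ E) (hE : E ⊆ T)
    (hE' : ∀ n ∈ E, ‖f n‖ = η) :
    ‖∑ n ∈ A, f n • e n‖ ≤ (3 * (12 * K + κ)) * ‖∑ n ∈ T, f n • e n‖ := by
  classical
  set x := ∑ n ∈ T, f n • e n with hx
  have hx0 : 0 ≤ ‖x‖ := norm_nonneg _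
  have hM : 0 ≤ (12 * K + κ) * ‖x‖ := by positivity
  rcases Nat.lt_or_ge E.card 2 with hc | hc
  · have hAc : A.card ≤ 1 := (Finset.card_le_card hA).trans (by omega)
    rcases Nat.eq_zero_or_pos A.card with h0 | h0
    · rw [Finset.card_eq_zero] at h0
      subst h0
      simp only [Finset.sum_empty, norm_zero]
      nlinarith
    · have h1 : A.card = 1 := by omega
      obtain ⟨n, rfl⟩ := Finset.card_eq_one.1 h1
      rw [Finset.sum_singleton]
      have h1 := hC f T.toList T.nodup_toList n (by simpa using hE (hA (by simp)))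
      rw [← sum_eq_S] at h1
      refine h1.trans ?_
      nlinarith [mul_nonneg hK0 hx0]
  · set h := E.card / 2 with hh
    have hh1 : 1 ≤ h := by omega
    have half : ∀ A' ⊆ E, A'.card ≤ h → ‖∑ n ∈ A', f n • e n‖ ≤ (12 * K + κ) * ‖x‖ := by
      intro A' hA' hcard
      have h1 : A'.card ≤ (E \ A').card := by
        rw [Finset.card_sdiff_of_subset hA']
        omega
      obtain ⟨B, hB, hBc⟩ := Finset.exists_subset_card_eq h1
      have hBE : B ⊆ E := hB.trans Finset.sdiff_subset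
      refine nu_half hK hK0 hC hκ hη hT hf (hA'.trans hE) (hBE.trans hE) ?_ hBc.symm
        (fun n hn => hE' n (hA' hn)) (fun n hn => hE' n (hBE hn))
      rw [Finset.disjoint_left]
      intro n h1 h2
      exact (Finset.mem_sdiff.1 (hB h2)).2 h1
    have gen : ∀ j : ℕ, ∀ A' ⊆ E, A'.card ≤ j * h →
        ‖∑ n ∈ A', f n • e n‖ ≤ j * ((12 * K + κ) * ‖x‖) := by
      intro j
      induction j with
      | zero =>
        intro A' _ h0
        have : A' = ∅ := by
          rw [← Finset.card_eq_zero]; omega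
        subst this
        simp
      | succ j ih =>
        intro A' hA' hcard
        rcases le_or_gt A'.card h with h1 | h1
        · refine (half A' hA' h1).trans ?_
          push_cast
          have : (0 : ℝ) ≤ j := by positivity
          nlinarith
        · obtain ⟨A₁, hA₁, hA₁c⟩ := Finset.exists_subset_card_eq h1.le
          have h2 := half A₁ (hA₁.trans hA') hA₁c.le
          have h3 := ih (A' \ A₁) (Finset.sdiff_subset.trans hA') (by
            rw [Finset.card_sdiff_of_subset hA₁]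
            have : (j + 1) * h = j * h + h := by ring
            omega)
          rw [← Finset.sum_sdiff hA₁]
          calc _ ≤ _ := norm_add_le _ _
            _ ≤ _ := add_le_add h3 h2
            _ = _ := by push_cast; ring
    have := gen 3 A hA ((Finset.card_le_card hA).trans (by omega))
    refine this.trans (le_of_eq ?_)
    push_cast
    ring

/-- Projections onto coefficients which are close to the top. -/
lemma nu_near {F : Finset ℕ} {K κ K₁ : ℝ} (hK : HypH e 𝕜 F K) (hK0 : 0 ≤ K)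
    (hC : HypC e 𝕜 κ) (hκ : 0 ≤ κ) (hK₁ : 3 * (12 * K + κ) ≤ K₁) (hK₁' : 1 ≤ K₁)
    {η : ℝ} (hη : 0 < η) {T A : Finset ℕ}
    (hT : ∀ n ∈ T, n ∉ F) (hf : ∀ n ∈ T, ‖f n‖ ≤ η) (hA : A ⊆ T)
    (hA' : ∀ n ∈ A, (1 - 1 / (2 * K₁)) * η ≤ ‖f n‖) :
    ‖∑ n ∈ A, f n • e n‖ ≤ 2 * K₁ * ‖∑ n ∈ T, f n • e n‖ := by
  classical
  set x := ∑ n ∈ T, f n • e n with hx
  have hx0 : 0 ≤ ‖x‖ := norm_nonneg _
  have ht0 : 0 < 1 - 1 / (2 * K₁) := by
    have : 1 / (2 * K₁) ≤ 1 / 2 := by
      apply one_div_le_one_div_of_le <;> linarith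
    linarith
  have hpos : ∀ n ∈ A, 0 < ‖f n‖ := fun n hn => lt_of_lt_of_le (mul_pos ht0 hη) (hA' n hn)
  let v : ℕ → X := fun n => ((η / ‖f n‖ : ℝ) : 𝕜) • (f n • e n)
  obtain ⟨B₀, hB₀, hmax⟩ := Finset.exists_max_image A.powerset (fun B => ‖∑ n ∈ B, v n‖)
    ⟨∅, by simp⟩
  set Ψ := ‖∑ n ∈ B₀, v n‖ with hΨ
  have hall : ∀ B ⊆ A, ‖∑ n ∈ B, v n‖ ≤ Ψ := fun B hB => hmax B (Finset.mem_powerset.2 hB)
  have hmain : ∀ B ⊆ A, ‖∑ n ∈ B, v n‖ ≤ K₁ * ‖x‖ + Ψ / 2 := by
    intro B hB
    let g : ℕ → 𝕜 := fun n => if n ∈ B then ((η / ‖f n‖ : ℝ) : 𝕜) * f n else f n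
    have hgB : ∀ n ∈ B, ‖g n‖ = η := by
      intro n hn
      have h0 := hpos n (hB hn)
      simp only [g, if_pos hn, norm_mul, RCLike.norm_ofReal]
      rw [abs_of_pos (div_pos hη h0)]
      field_simp
    have h1 := nu_top (e := e) (f := g) hK hK0 hC hκ hη (T := T) (A := B) (E := B) hT
      (by
        intro n hn
        by_cases hnB : n ∈ B
        · exact (hgB n hnB).le
        · simp only [g, if_neg hnB]
          exact hf n hn) (Finset.Subset.refl _) (hB.trans hA) hgB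
    have h2 : ∑ n ∈ B, g n • e n = ∑ n ∈ B, v n := by
      apply Finset.sum_congr rfl
      intro n hn
      simp only [g, v, if_pos hn]
      rw [smul_smul]
    have h3 : ∑ n ∈ T, g n • e n = x + ∑ n ∈ B, ((1 - ‖f n‖ / η : ℝ) : 𝕜) • v n := by
      rw [hx, ← Finset.sum_sdiff (hB.trans hA), ← Finset.sum_sdiff (hB.trans hA) (f := fun n => f n • e n),
        add_assoc, ← Finset.sum_add_distrib]
      congr 1
      · apply Finset.sum_congr rfl
        intro n hn
        simp only [g, if_neg (Finset.mem_sdiff.1 hn).2]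
      · apply Finset.sum_congr rfl
        intro n hn
        have h0 := hpos n (hB hn)
        have h0' : (‖f n‖ : 𝕜) ≠ 0 := by exact_mod_cast h0.ne'
        have h0'' : (η : 𝕜) ≠ 0 := by exact_mod_cast hη.ne'
        simp only [g, v, if_pos hn]
        rw [smul_smul, smul_smul, ← add_smul]
        congr 1
        push_cast
        field_simp
        ring
    have h4 : ‖∑ n ∈ B, ((1 - ‖f n‖ / η : ℝ) : 𝕜) • v n‖ ≤ 1 / (2 * K₁) * Ψ := by
      apply convex_bound'
      · positivity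
      · intro n hn
        have h5 := hf n (hA (hB hn))
        have h6 := hA' n (hB hn)
        constructor
        · have : ‖f n‖ / η ≤ 1 := (div_le_one hη).2 h5
          linarith
        · have : 1 - 1 / (2 * K₁) ≤ ‖f n‖ / η := by
            rw [le_div_iff₀ hη]; exact h6
          linarith
      · intro B' hB'
        exact hall B' (hB'.trans hB)
    rw [h2, h3] at h1
    calc _ ≤ _ := h1
      _ ≤ K₁ * ‖x + ∑ n ∈ B, ((1 - ‖f n‖ / η : ℝ) : 𝕜) • v n‖ := by gcongr
      _ ≤ K₁ * (‖x‖ + 1 / (2 * K₁) * Ψ) := by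
          gcongr
          exact (norm_add_le _ _).trans (by gcongr)
      _ = K₁ * ‖x‖ + Ψ / 2 := by field_simp
  have hΨ2 : Ψ ≤ 2 * K₁ * ‖x‖ := by
    have := hmain B₀ (Finset.mem_powerset.1 hB₀)
    rw [← hΨ] at this
    linarith
  have h7 : ∑ n ∈ A, f n • e n = ∑ n ∈ A, ((‖f n‖ / η : ℝ) : 𝕜) • v n := by
    apply Finset.sum_congr rfl
    intro n hn
    have h0 := hpos n hn
    have h0' : (‖f n‖ : 𝕜) ≠ 0 := by exact_mod_cast h0.ne'
    have h0'' : (η : 𝕜) ≠ 0 := by exact_mod_cast hη.ne'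
    simp only [v]
    rw [smul_smul, smul_smul]
    congr 1
    push_cast
    field_simp
  rw [h7]
  have h8 := convex_bound' (𝕜 := 𝕜) v A (fun n => ‖f n‖ / η) (c := 1) zero_le_one (fun n hn =>
    ⟨by positivity, (div_le_one hη).2 (hf n (hA hn))⟩) Ψ hall
  rw [one_mul] at h8
  exact h8.trans hΨ2

/-- Near unconditionality. -/
lemma near_unconditional {F : Finset ℕ} {K κ : ℝ} (hK : HypH e 𝕜 F K) (hK0 : 0 ≤ K)
    (hC : HypC e 𝕜 κ) (hκ : 0 ≤ κ) {t : ℝ} (ht : 0 < t) :
    ∃ N : ℝ, 0 ≤ N ∧ ∀ (f : ℕ → 𝕜) (η : ℝ), 0 < η → ∀ (T A : Finset ℕ),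
      (∀ n ∈ T, n ∉ F) → (∀ n ∈ T, ‖f n‖ ≤ η) → A ⊆ T → (∀ n ∈ A, t * η ≤ ‖f n‖) →
      ‖∑ n ∈ A, f n • e n‖ ≤ N * ‖∑ n ∈ T, f n • e n‖ := by
  classical
  set K₁ := max (3 * (12 * K + κ)) 1 with hK₁
  have h1 : 3 * (12 * K + κ) ≤ K₁ := le_max_left _ _
  have h2 : 1 ≤ K₁ := le_max_right _ _
  set t₀ := 1 - 1 / (2 * K₁) with ht₀
  have ht0 : 0 < t₀ := by
    have : 1 / (2 * K₁) ≤ 1 / 2 := by
      apply one_div_le_one_div_of_le <;> linarith
    rw [ht₀]; linarith
  have ht1 : t₀ < 1 := by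
    have : 0 < 1 / (2 * K₁) := by positivity
    rw [ht₀]; linarith
  have main : ∀ i : ℕ, ∃ N : ℝ, 0 ≤ N ∧ ∀ (f : ℕ → 𝕜) (η : ℝ), 0 < η → ∀ (T A : Finset ℕ),
      (∀ n ∈ T, n ∉ F) → (∀ n ∈ T, ‖f n‖ ≤ η) → A ⊆ T → (∀ n ∈ A, t₀ ^ i * η ≤ ‖f n‖) →
      ‖∑ n ∈ A, f n • e n‖ ≤ N * ‖∑ n ∈ T, f n • e n‖ := by
    intro i
    induction i with
    | zero =>
      refine ⟨2 * K₁, by positivity, ?_⟩
      intro f η hη T A hT hf hA hA'
      apply nu_near hK hK0 hC hκ h1 h2 hη hT hf hA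
      intro n hn
      have := hA' n hn
      rw [pow_zero, one_mul] at this
      refine le_trans ?_ this
      have : t₀ * η ≤ 1 * η := by gcongr
      rw [one_mul] at this
      exact this
    | succ i ih =>
      obtain ⟨N, hN, hNb⟩ := ih
      refine ⟨N * (1 + 2 * K₁) + 2 * K₁, by positivity, ?_⟩
      intro f η hη T A hT hf hA hA'
      set E := T.filter (fun n => t₀ * η ≤ ‖f n‖) with hE
      have hET : E ⊆ T := Finset.filter_subset _ _
      have hEb : ∀ B ⊆ E, ‖∑ n ∈ B, f n • e n‖ ≤ 2 * K₁ * ‖∑ n ∈ T, f n • e n‖ := by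
        intro B hB
        apply nu_near hK hK0 hC hκ h1 h2 hη hT hf (hB.trans hET)
        intro n hn
        exact (Finset.mem_filter.1 (hB hn)).2
      have h3 : ‖∑ n ∈ T \ E, f n • e n‖ ≤ (1 + 2 * K₁) * ‖∑ n ∈ T, f n • e n‖ := by
        have h4 : ∑ n ∈ T \ E, f n • e n = ∑ n ∈ T, f n • e n - ∑ n ∈ E, f n • e n := by
          rw [← Finset.sum_sdiff hET]; abel
        rw [h4]
        calc _ ≤ _ := norm_sub_le _ _
          _ ≤ ‖∑ n ∈ T, f n • e n‖ + 2 * K₁ * ‖∑ n ∈ T, f n • e n‖ := by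
              gcongr; exact hEb E (Finset.Subset.refl _)
          _ = _ := by ring
      have h5 := hNb f (t₀ * η) (mul_pos ht0 hη) (T \ E) (A \ E)
        (fun n hn => hT n (Finset.mem_sdiff.1 hn).1)
        (fun n hn => by
          have h6 := Finset.mem_sdiff.1 hn
          by_contra hcon
          exact h6.2 (Finset.mem_filter.2 ⟨h6.1, (not_le.1 hcon).le⟩))
        (Finset.sdiff_subset_sdiff hA (Finset.Subset.refl _))
        (fun n hn => by
          have := hA' n (Finset.mem_sdiff.1 hn).1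
          rw [pow_succ] at this
          linarith)
      have h6 : ∑ n ∈ A, f n • e n = ∑ n ∈ A \ E, f n • e n + ∑ n ∈ A ∩ E, f n • e n := by
        rw [← Finset.sum_union]
        · congr 1
          ext n
          simp only [Finset.mem_union, Finset.mem_sdiff, Finset.mem_inter]
          tauto
        · rw [Finset.disjoint_left]
          intro n h7 h8
          exact (Finset.mem_sdiff.1 h7).2 (Finset.mem_inter.1 h8).2
      rw [h6]
      calc _ ≤ _ := norm_add_le _ _
        _ ≤ N * ((1 + 2 * K₁) * ‖∑ n ∈ T, f n • e n‖) + 2 * K₁ * ‖∑ n ∈ T, f n • e n‖ := by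
            gcongr
            · exact h5.trans (by gcongr)
            · exact hEb _ Finset.inter_subset_right
        _ = _ := by ring
  obtain ⟨i, hi⟩ := exists_pow_lt_of_lt_one ht ht1
  obtain ⟨N, hN, hNb⟩ := main i
  refine ⟨N, hN, ?_⟩
  intro f η hη T A hT hf hA hA'
  apply hNb f η hη T A hT hf hA
  intro n hn
  refine le_trans ?_ (hA' n hn)
  gcongr

end Q101.Cqg
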