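import Pool.Agent.Q101.CqgB

/-!
The bootstrap step: uniform Cesaro bounds give uniform bounds for greedy sums.
-/

namespace Q101.Cqg

open List

variable {𝕜 X : Type*} [RCLike 𝕜] [NormedAddCommGroup X] [NormedSpace 𝕜 X]
variable {e : ℕ → X} {f g : ℕ → 𝕜}

lemma abel_bound (f : ℕ → 𝕜) (ω : ℕ → ℝ) (M : ℝ) (a : List ℕ) :
    (∀ a' a'', a = a' ++ a'' → ‖S e f a'‖ ≤ M) →
    (a.Pairwise fun x y => ω x ≤ ω y) → (∀ n ∈ a, 0 ≤ ω n) →
    ∀ c : ℝ, 0 ≤ c → (∀ n ∈ a, ω n ≤ c) →
    ‖S e (fun n => (ω n : 𝕜) * f n) a - (c : 𝕜) • S e f a‖ ≤ c * M := by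
  induction a using List.reverseRecOn with
  | nil =>
    intro hM _ _ c hc _
    have := hM [] [] rfl
    simp only [S_nil, norm_zero, smul_zero, sub_self] at this ⊢
    positivity
  | append_singleton a n ih =>
    intro hM hmono hω0 c hc hωc
    have hn0 : 0 ≤ ω n := hω0 n (by simp)
    have hnc : ω n ≤ c := hωc n (by simp)
    have h1 := ih (fun a' a'' h => hM a' (a'' ++ [n]) (by rw [h, List.append_assoc]))
      (List.pairwise_append.1 hmono).1 (fun m hm => hω0 m (by simp [hm])) (ω n) hn0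
      (fun m hm => (List.pairwise_append.1 hmono).2.2 m hm n (by simp))
    have h2 := hM (a ++ [n]) [] (by simp)
    have h3 : S e (fun n => (ω n : 𝕜) * f n) (a ++ [n]) - (c : 𝕜) • S e f (a ++ [n]) =
        (S e (fun n => (ω n : 𝕜) * f n) a - (ω n : 𝕜) • S e f a) -
          ((c - ω n : ℝ) : 𝕜) • S e f (a ++ [n]) := by
      simp only [S_append, S_singleton]
      push_cast
      module
    rw [h3]
    calc _ ≤ _ := norm_sub_le _ _
      _ ≤ ω n * M + (c - ω n) * M := by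
          gcongr
          rw [norm_smul, RCLike.norm_ofReal, abs_of_nonneg (by linarith)]
          exact mul_le_mul_of_nonneg_left h2 (by linarith)
      _ = c * M := by ring

/-- The property to be improved. -/
def PB (e : ℕ → X) (𝕜 : Type*) [RCLike 𝕜] [NormedSpace 𝕜 X] (F : Finset ℕ) (n : ℕ) (Φ : ℝ) :
    Prop :=
  ∀ (f : ℕ → 𝕜) (l₁ l₂ : List ℕ), Valid F f (l₁ ++ l₂) → l₁.length ≤ n →
    ‖S e f l₁‖ ≤ Φ * ‖S e f (l₁ ++ l₂)‖

lemma trivial_bound {κ : ℝ} (hC : HypC e 𝕜 κ) (l₁ l₂ : List ℕ) (h : (l₁ ++ l₂).Nodup) :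
    ‖S e f l₁‖ ≤ l₁.length * κ * ‖S e f (l₁ ++ l₂)‖ := by
  have h1 : l₁.Nodup := (List.nodup_append'.1 h).1
  rw [S_eq_sum h1]
  calc _ ≤ ∑ n ∈ l₁.toFinset, ‖f n • e n‖ := norm_sum_le _ _
    _ ≤ ∑ n ∈ l₁.toFinset, κ * ‖S e f (l₁ ++ l₂)‖ := by
        apply Finset.sum_le_sum
        intro n hn
        apply hC f _ h n
        simp only [List.mem_toFinset] at hn
        exact List.mem_append_left _ hn
    _ = _ := by
        rw [Finset.sum_const, List.toFinset_card_of_nodup h1, nsmul_eq_mul]; ring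

lemma exists_split {α : Type*} (l : List α) (k : ℕ) (h : k ≤ l.length) :
    ∃ a b, l = a ++ b ∧ a.length = k :=
  ⟨l.take k, l.drop k, (List.take_append_drop k l).symm, by simp [h]⟩

lemma combine {d m : ℕ} (hd : 1 ≤ d) (hm : 2 * m + d ≤ 31 * d) {u z : X} {K W : ℝ}
    (hK : 0 ≤ K) (hW : 0 ≤ W)
    (h : ‖(2 * (d : 𝕜)) • u + ((d : 𝕜) + 1) • z‖ ≤ 2 * K * (2 * m + d) * W) :
    ‖u‖ ≤ 31 * K * W + ‖z‖ := by
  have hd' : (1 : ℝ) ≤ d := by exact_mod_cast hd
  have hm' : 2 * (m : ℝ) + d ≤ 31 * d := by exact_mod_cast hm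
  have h1 : ‖(2 * (d : 𝕜)) • u‖ = 2 * d * ‖u‖ := by
    have : (2 * (d : 𝕜)) = ((2 * d : ℝ) : 𝕜) := by push_cast; ring
    rw [this, norm_smul, RCLike.norm_ofReal, abs_of_nonneg]
    linarith
  have h2 : ‖((d : 𝕜) + 1) • z‖ = (d + 1) * ‖z‖ := by
    have : ((d : 𝕜) + 1) = ((d + 1 : ℝ) : 𝕜) := by push_cast; ring
    rw [this, norm_smul, RCLike.norm_ofReal, abs_of_nonneg]
    linarith
  have h3 : 2 * d * ‖u‖ ≤ 2 * K * (31 * d) * W + (d + 1) * ‖z‖ := by
    calc 2 * d * ‖u‖ = ‖((2 * (d : 𝕜)) • u + ((d : 𝕜) + 1) • z) - ((d : 𝕜) + 1) • z‖ := by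
          rw [add_sub_cancel_right, h1]
      _ ≤ _ := norm_sub_le _ _
      _ ≤ 2 * K * (2 * m + d) * W + (d + 1) * ‖z‖ := by
          rw [h2]; gcongr
      _ ≤ _ := by gcongr
  have hz := norm_nonneg z
  have h4 : 2 * d * ‖u‖ ≤ 2 * d * (31 * K * W + ‖z‖) := by
    nlinarith
  exact le_of_mul_le_mul_left h4 (by linarith)

lemma caseA {F : Finset ℕ} {K Φ r : ℝ} {n : ℕ} (hK : HypH e 𝕜 F K) (hK0 : 0 ≤ K)
    (hP : PB e 𝕜 F n Φ) (hr0 : 0 < r) (hr1 : r ≤ 1)
    (f : ℕ → 𝕜) (a b c l₂ : List ℕ) (d : ℕ) (hd : 1 ≤ d) (had : a.length = d)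
    (hbd : b.length = d)
    (hv : Valid F f (a ++ b ++ c ++ l₂)) (hn : (a ++ b ++ c).length ≤ n)
    (hm : (a ++ b ++ c).length ≤ 16 * d)
    (h : ℝ) (hh : 0 < h) (h₁ : ∀ n ∈ a ++ b ++ c, h ≤ ‖f n‖) (h₂ : ∀ n ∈ l₂, ‖f n‖ ≤ h)
    (hA : ∀ n ∈ a ++ b, h ≤ r * ‖f n‖) :
    ‖S e f (a ++ b ++ c)‖ ≤ ((31 * K * (1 + 3 * K) + 3 * K) + Φ * (r * (93 * K + 3))) *
      ‖S e f (a ++ b ++ c ++ l₂)‖ := by
  classical
  set x := S e f (a ++ b ++ c ++ l₂) with hx
  have hx0 := norm_nonneg x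
  have hva : Valid F f a := valid_left (valid_left (valid_left hv))
  have hvab : Valid F f (a ++ b) := valid_left (valid_left hv)
  have hvb : Valid F f b := valid_right hvab
  have hvabc : Valid F f (a ++ b ++ c) := valid_left hv
  have hvbc : Valid F f (b ++ c) := by
    rw [List.append_assoc] at hvabc
    exact valid_right hvabc
  have hvl : Valid F f l₂ := valid_right hv
  -- disjointness
  have dab : ∀ n ∈ a, n ∉ b := (valid_cross hvab).1
  have dabc : ∀ n ∈ a ++ b, n ∉ c := (valid_cross hvabc).1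
  have dl : ∀ n ∈ a ++ b ++ c, n ∉ l₂ := (valid_cross hv).1
  obtain ⟨θ, hθ, hD⟩ := exists_weights (X := X) (𝕜 := 𝕜) hvb.nodup
  set q := S e (fun n => (θ n : 𝕜) * f n) b with hq
  let g : ℕ → 𝕜 := fun n => if n ∈ a then ((h / ‖f n‖ : ℝ) : 𝕜) * f n else
    if n ∈ b then ((1 - (1 - r) * θ n : ℝ) : 𝕜) * f n else f n
  have ga : ∀ n ∈ a, g n = ((h / ‖f n‖ : ℝ) : 𝕜) * f n := fun n hn => by simp only [g, if_pos hn]
  have gb : ∀ n ∈ b, g n = ((1 - (1 - r) * θ n : ℝ) : 𝕜) * f n := fun n hn => by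
    have : n ∉ a := fun h => dab n h hn
    simp only [g, if_neg this, if_pos hn]
  have gc : ∀ n ∈ c, g n = f n := fun n hn => by
    have h1 : n ∉ a := fun h => dabc n (by simp [h]) hn
    have h2 : n ∉ b := fun h => dabc n (by simp [h]) hn
    simp only [g, if_neg h1, if_neg h2]
  have gl : ∀ n ∈ l₂, g n = f n := fun n hn => by
    have h1 : n ∉ a := fun h => dl n (by simp [h]) hn
    have h2 : n ∉ b := fun h => dl n (by simp [h]) hn
    simp only [g, if_neg h1, if_neg h2]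
  have hfa : ∀ n ∈ a, 0 < ‖f n‖ := fun n hn => lt_of_lt_of_le hh (h₁ n (by simp [hn]))
  have nga : ∀ n ∈ a, ‖g n‖ = h := by
    intro n hn
    rw [ga n hn, norm_mul, RCLike.norm_ofReal, abs_of_pos (div_pos hh (hfa n hn))]
    have := (hfa n hn).ne'
    field_simp
  have hfac : ∀ n, r ≤ 1 - (1 - r) * θ n := by
    intro n
    have := hθ n
    nlinarith
  have ngb : ∀ n ∈ b, h ≤ ‖g n‖ := by
    intro n hn
    rw [gb n hn, norm_mul, RCLike.norm_ofReal, abs_of_pos (lt_of_lt_of_le hr0 (hfac n))]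
    refine (hA n (by simp [hn])).trans ?_
    exact mul_le_mul_of_nonneg_right (hfac n) (norm_nonneg _)
  have ngc : ∀ n ∈ c, h ≤ ‖g n‖ := by
    intro n hn
    rw [gc n hn]
    exact h₁ n (by simp [hn])
  have ngl : ∀ n ∈ l₂, ‖g n‖ ≤ h := by
    intro n hn
    rw [gl n hn]
    exact h₂ n hn
  -- the sorted list
  obtain ⟨bs, hbs, hbss⟩ := exists_sorted g (b ++ c)
  have ngbs : ∀ n ∈ bs, h ≤ ‖g n‖ := by
    intro n hn
    rcases List.mem_append.1 (hbs.mem_iff.1 hn) with h' | h'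
    · exact ngb n h'
    · exact ngc n h'
  have vbs : Valid F g bs := valid_perm_congr hvbc hbs (by
    intro n hn h0
    have : h ≤ ‖g n‖ := by
      rcases List.mem_append.1 hn with h' | h'
      · exact ngb n h'
      · exact ngc n h'
    rw [h0, norm_zero] at this
    linarith) hbss
  have va : ∀ a' : List ℕ, a'.Perm a → Valid F g a' := by
    intro a' ha'
    refine valid_const (ha'.nodup_iff.2 hva.nodup) (fun n hn => hva.off n (ha'.mem_iff.1 hn)) hh
      (fun n hn => nga n (ha'.mem_iff.1 hn))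
  have vl : Valid F g l₂ := valid_perm_congr hvl (List.Perm.refl _) (by
    intro n hn
    rw [gl n hn]
    exact hvl.ne n hn) (by
    apply List.Pairwise.imp_of_mem _ hvl.anti
    intro x y hx hy hxy
    rw [gl x hx, gl y hy]
    exact hxy)
  have vall : ∀ a' : List ℕ, a'.Perm a → Valid F g (bs ++ a' ++ l₂) := by
    intro a' ha'
    refine valid_append (valid_append vbs (va a' ha') ?_ ?_) vl ?_ ?_
    · intro n h1 h2
      have h3 := ha'.mem_iff.1 h2
      rcases List.mem_append.1 (hbs.mem_iff.1 h1) with h' | h'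
      · exact dab n h3 h'
      · exact dabc n (by simp [h3]) h'
    · intro x h1 y h2
      rw [nga y (ha'.mem_iff.1 h2)]
      exact ngbs x h1
    · intro n h1 h2
      apply dl n _ h2
      rcases List.mem_append.1 h1 with h' | h'
      · have := hbs.mem_iff.1 h'
        rw [List.append_assoc]
        exact List.mem_append_right _ this
      · have := ha'.mem_iff.1 h'
        simp [this]
    · intro x h1 y h2
      refine (ngl y h2).trans ?_
      rcases List.mem_append.1 h1 with h' | h'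
      · exact ngbs x h'
      · rw [nga x (ha'.mem_iff.1 h')]
  have hlbs : bs.length = (b ++ c).length := hbs.length_eq
  have htr := taper_reverse (e := e) hK (vall a (List.Perm.refl _))
    (vall a.reverse (List.reverse_perm a))
  rw [had] at htr
  set w := S e g (bs ++ a ++ l₂) with hw
  set z := S e g a with hz
  have hbsb : ‖S e g bs‖ ≤ 31 * K * ‖w‖ + ‖z‖ := by
    apply combine hd _ hK0 (norm_nonneg _) htr
    simp only [List.length_append] at hm hlbs
    omega
  -- kill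
  have hk : ‖S e f a + q‖ ≤ 3 * K * ‖x‖ := by
    have h3 := taper_bound (e := e) hK (a := a) (b := b) (c := c ++ l₂) (f := f)
      (by simpa using hv)
    have h4 : S e f (a ++ b ++ (c ++ l₂)) = x := by simp [hx]
    rw [h4, hD e f, had, hbd, ← smul_add, norm_smul] at h3
    have h5 : ‖(d : 𝕜)‖ = d := by simp
    rw [h5] at h3
    have h6 : (1 : ℝ) ≤ d := by exact_mod_cast hd
    have h7 : (d : ℝ) * ‖S e f a + q‖ ≤ d * (3 * K * ‖x‖) := by
      calc _ ≤ _ := h3
        _ = _ := by ring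
    exact le_of_mul_le_mul_left h7 (by linarith)
  -- z
  have hzb : ‖z‖ ≤ 2 * r * (Φ * ‖x‖) := by
    have hprefix : ∀ a' a'', a = a' ++ a'' → ‖S e f a'‖ ≤ Φ * ‖x‖ := by
      intro a' a'' haa
      have h3 := hP f a' (a'' ++ b ++ c ++ l₂) (by
        have : a' ++ (a'' ++ b ++ c ++ l₂) = a ++ b ++ c ++ l₂ := by rw [haa]; simp
        rw [this]; exact hv) (by
        rw [haa] at hn
        simp only [List.length_append] at hn
        omega)
      have h4 : S e f (a' ++ (a'' ++ b ++ c ++ l₂)) = x := by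
        rw [hx, haa]; simp
      rwa [h4] at h3
    have h5 := abel_bound (e := e) f (fun n => h / ‖f n‖) (Φ * ‖x‖) a hprefix (by
      apply List.Pairwise.imp_of_mem _ hva.anti
      intro x y hx hy hxy
      exact div_le_div_of_nonneg_left hh.le (hfa y hy) hxy) (fun n hn => (div_pos hh (hfa n hn)).le)
      r hr0.le (fun n hn => by
        rw [div_le_iff₀ (hfa n hn)]
        exact hA n (by simp [hn]))
    have h6 : S e (fun n => ((h / ‖f n‖ : ℝ) : 𝕜) * f n) a = z :=
      S_congr (fun n hn => (ga n hn).symm)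
    rw [h6] at h5
    have h7 := hprefix a [] (by simp)
    calc ‖z‖ = ‖(z - (r : 𝕜) • S e f a) + (r : 𝕜) • S e f a‖ := by rw [sub_add_cancel]
      _ ≤ _ := norm_add_le _ _
      _ ≤ r * (Φ * ‖x‖) + r * (Φ * ‖x‖) := by
          gcongr
          rw [norm_smul, RCLike.norm_ofReal, abs_of_pos hr0]
          gcongr
      _ = _ := by ring
  have hSa : ‖S e f a‖ ≤ Φ * ‖x‖ := by
    have h3 := hP f a (b ++ c ++ l₂) (by
        have : a ++ (b ++ c ++ l₂) = a ++ b ++ c ++ l₂ := by simp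
        rw [this]; exact hv) (by
        simp only [List.length_append] at hn
        omega)
    have h4 : S e f (a ++ (b ++ c ++ l₂)) = x := by simp [hx]
    rwa [h4] at h3
  -- identities
  have hgb : S e g b = S e f b - ((1 - r : ℝ) : 𝕜) • q := by
    rw [hq, ← S_smul, S_congr gb]
    clear_value x w z
    clear * -
    induction b with
    | nil => simp
    | cons n l ih =>
      rw [S_cons, S_cons, S_cons, ih]
      push_cast
      module
  have hgbs : S e g bs = S e f b - ((1 - r : ℝ) : 𝕜) • q + S e f c := by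
    rw [S_perm hbs, S_append, hgb, S_congr gc]
  have hxe : x = S e f a + S e f b + S e f c + S e f l₂ := by
    rw [hx]; simp only [S_append]
  have hwe : w = x - ((1 - r : ℝ) : 𝕜) • (S e f a + q) - (r : 𝕜) • S e f a + z := by
    rw [hw, S_append, S_append, hgbs, S_congr gl, ← hz, hxe]
    push_cast
    module
  have hSe : S e f (a ++ b ++ c) =
      S e g bs + ((1 - r : ℝ) : 𝕜) • (S e f a + q) + (r : 𝕜) • S e f a := by
    rw [hgbs]
    simp only [S_append]
    push_cast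
    module
  have n1 : ‖((1 - r : ℝ) : 𝕜) • (S e f a + q)‖ ≤ 3 * K * ‖x‖ := by
    rw [norm_smul, RCLike.norm_ofReal, abs_of_nonneg (by linarith)]
    calc (1 - r) * ‖S e f a + q‖ ≤ 1 * ‖S e f a + q‖ := by
          gcongr; linarith
      _ ≤ _ := by rw [one_mul]; exact hk
  have n2 : ‖(r : 𝕜) • S e f a‖ ≤ r * (Φ * ‖x‖) := by
    rw [norm_smul, RCLike.norm_ofReal, abs_of_pos hr0]
    gcongr
  have hwb : ‖w‖ ≤ ‖x‖ + 3 * K * ‖x‖ + r * (Φ * ‖x‖) + 2 * r * (Φ * ‖x‖) := by
    rw [hwe]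
    refine (norm_add_le _ _).trans ?_
    refine add_le_add ?_ hzb
    refine (norm_sub_le _ _).trans ?_
    refine add_le_add ?_ n2
    refine (norm_sub_le _ _).trans ?_
    exact add_le_add le_rfl n1
  rw [hSe]
  calc _ ≤ ‖S e g bs + ((1 - r : ℝ) : 𝕜) • (S e f a + q)‖ + ‖(r : 𝕜) • S e f a‖ := norm_add_le _ _
    _ ≤ (‖S e g bs‖ + 3 * K * ‖x‖) + r * (Φ * ‖x‖) := by
        gcongr
        refine (norm_add_le _ _).trans ?_
        gcongr
    _ ≤ ((31 * K * (‖x‖ + 3 * K * ‖x‖ + r * (Φ * ‖x‖) + 2 * r * (Φ * ‖x‖)) +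
        2 * r * (Φ * ‖x‖)) + 3 * K * ‖x‖) + r * (Φ * ‖x‖) := by
        gcongr
        refine hbsb.trans ?_
        gcongr
    _ = _ := by ring

lemma caseB {F : Finset ℕ} {K r N : ℝ} (hK : HypH e 𝕜 F K) (hK0 : 0 ≤ K)
    (hr0 : 0 < r) (hr1 : r ≤ 1) (hN0 : 0 ≤ N)
    (hN : ∀ (f : ℕ → 𝕜) (η : ℝ), 0 < η → ∀ (T A : Finset ℕ),
      (∀ n ∈ T, n ∉ F) → (∀ n ∈ T, ‖f n‖ ≤ η) → A ⊆ T → (∀ n ∈ A, r * η ≤ ‖f n‖) →
      ‖∑ n ∈ A, f n • e n‖ ≤ N * ‖∑ n ∈ T, f n • e n‖)
    (f : ℕ → 𝕜) (a c₁ c₂ c₃ l₂ : List ℕ) (d : ℕ) (hd : 1 ≤ d) (had : a.length = 2 * d)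
    (hc₁ : c₁.length = d) (hc₂ : c₂.length = d)
    (hv : Valid F f (a ++ c₁ ++ c₂ ++ c₃ ++ l₂))
    (hm : (a ++ c₁ ++ c₂ ++ c₃).length ≤ 16 * d)
    (h : ℝ) (hh : 0 < h) (h₁ : ∀ n ∈ a ++ c₁ ++ c₂ ++ c₃, h ≤ ‖f n‖)
    (h₂ : ∀ n ∈ l₂, ‖f n‖ ≤ h)
    (hB : ∀ n ∈ c₁ ++ c₂ ++ c₃, r * ‖f n‖ ≤ h) :
    ‖S e f (a ++ c₁ ++ c₂ ++ c₃)‖ ≤
      (31 * K * (1 + 2 * (N * (1 + 5 * K))) + 2 * (N * (1 + 5 * K))) *
      ‖S e f (a ++ c₁ ++ c₂ ++ c₃ ++ l₂)‖ := by
  classical
  set x := S e f (a ++ c₁ ++ c₂ ++ c₃ ++ l₂) with hx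
  have hx0 := norm_nonneg x
  have v4 : Valid F f (a ++ c₁ ++ c₂ ++ c₃) := valid_left hv
  have v3 : Valid F f (a ++ c₁ ++ c₂) := valid_left v4
  have v2 : Valid F f (a ++ c₁) := valid_left v3
  have v1 : Valid F f a := valid_left v2
  have hvc₁ : Valid F f c₁ := valid_right v2
  have hvc₂ : Valid F f c₂ := valid_right v3
  have hvc₃ : Valid F f c₃ := valid_right v4
  have hvl : Valid F f l₂ := valid_right hv
  have d1 : ∀ n ∈ a, n ∉ c₁ := (valid_cross v2).1
  have d2 : ∀ n ∈ a ++ c₁, n ∉ c₂ := (valid_cross v3).1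
  have d3 : ∀ n ∈ a ++ c₁ ++ c₂, n ∉ c₃ := (valid_cross v4).1
  have d4 : ∀ n ∈ a ++ c₁ ++ c₂ ++ c₃, n ∉ l₂ := (valid_cross hv).1
  obtain ⟨θ, hθ, hD⟩ := exists_weights (X := X) (𝕜 := 𝕜) hvc₁.nodup
  set q := S e (fun n => (θ n : 𝕜) * f n) c₁ with hq
  -- kill
  have hk : ‖S e f a + q‖ ≤ 5 * K * ‖x‖ := by
    have h3 := taper_bound (e := e) hK (a := a) (b := c₁) (c := c₂ ++ c₃ ++ l₂) (f := f)
      (by simpa using hv)
    have h4 : S e f (a ++ c₁ ++ (c₂ ++ c₃ ++ l₂)) = x := by simp [hx]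
    rw [h4, hD e f, had, hc₁, ← smul_add, norm_smul] at h3
    have h5 : ‖(d : 𝕜)‖ = d := by simp
    rw [h5] at h3
    have h6 : (1 : ℝ) ≤ d := by exact_mod_cast hd
    have h7 : (d : ℝ) * ‖S e f a + q‖ ≤ d * (5 * K * ‖x‖) := by
      calc _ ≤ _ := h3
        _ = _ := by push_cast; ring
    exact le_of_mul_le_mul_left h7 (by linarith)
  -- the near unconditional part
  have hrest : ∀ B ⊆ c₂.toFinset, ‖∑ n ∈ B, f n • e n‖ ≤ N * (1 + 5 * K) * ‖x‖ := by
    intro B hB'
    let g : ℕ → 𝕜 := fun n => if n ∈ c₁ then ((1 - θ n : ℝ) : 𝕜) * f n else f n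
    have hlist : (c₁ ++ c₂ ++ c₃ ++ l₂).Nodup := by
      have := hv.nodup
      rw [List.append_assoc, List.append_assoc, List.append_assoc] at this
      have := (List.nodup_append'.1 this).2.1
      simpa using this
    have hgle : ∀ n, ‖g n‖ ≤ ‖f n‖ := by
      intro n
      by_cases hn : n ∈ c₁
      · simp only [g, if_pos hn, norm_mul, RCLike.norm_ofReal]
        have := hθ n
        rw [abs_of_nonneg (by linarith)]
        have := norm_nonneg (f n)
        nlinarith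
      · simp only [g, if_neg hn, le_refl]
    have h3 := hN g (h / r) (div_pos hh hr0) (c₁ ++ c₂ ++ c₃ ++ l₂).toFinset B
      (by
        intro n hn
        apply hv.off n
        simp only [List.mem_toFinset, List.mem_append] at hn ⊢
        tauto)
      (by
        intro n hn
        refine (hgle n).trans ?_
        rw [le_div_iff₀ hr0]
        simp only [List.mem_toFinset, List.mem_append] at hn
        by_cases hn' : n ∈ l₂
        · have h5 := h₂ n hn'
          have := norm_nonneg (f n)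
          nlinarith
        · have := hB n (by simp only [List.mem_append]; tauto)
          linarith)
      (by
        intro n hn
        have := hB' hn
        simp only [List.mem_toFinset, List.mem_append] at this ⊢
        tauto)
      (by
        intro n hn
        have h4 : n ∈ c₂ := by simpa using hB' hn
        have h5 : n ∉ c₁ := fun h' => d2 n (by simp [h']) h4
        simp only [g, if_neg h5]
        have : r * (h / r) = h := by field_simp
        rw [this]
        exact h₁ n (by simp [h4]))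
    have h4 : ∑ n ∈ B, g n • e n = ∑ n ∈ B, f n • e n := by
      apply Finset.sum_congr rfl
      intro n hn
      have h4 : n ∈ c₂ := by simpa using hB' hn
      have h5 : n ∉ c₁ := fun h' => d2 n (by simp [h']) h4
      simp only [g, if_neg h5]
    have h5 : ∑ n ∈ (c₁ ++ c₂ ++ c₃ ++ l₂).toFinset, g n • e n = x - (S e f a + q) := by
      rw [← S_eq_sum hlist]
      have e1 : S e g c₁ = S e f c₁ - q := by
        have : S e g c₁ = S e (fun n => ((1 - θ n : ℝ) : 𝕜) * f n) c₁ :=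
          S_congr (fun n hn => by simp only [g, if_pos hn])
        rw [this, hq]
        clear * -
        induction c₁ with
        | nil => simp
        | cons n l ih =>
          rw [S_cons, S_cons, S_cons, ih]
          push_cast
          module
      have e2 : S e g c₂ = S e f c₂ := S_congr (fun n hn => by
        have h5 : n ∉ c₁ := fun h' => d2 n (by simp [h']) hn
        simp only [g, if_neg h5])
      have e3 : S e g c₃ = S e f c₃ := S_congr (fun n hn => by
        have h5 : n ∉ c₁ := fun h' => d3 n (by simp [h']) hn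
        simp only [g, if_neg h5])
      have e4 : S e g l₂ = S e f l₂ := S_congr (fun n hn => by
        have h5 : n ∉ c₁ := fun h' => d4 n (by simp [h']) hn
        simp only [g, if_neg h5])
      rw [hx]
      simp only [S_append, e1, e2, e3, e4]
      abel
    rw [h4, h5] at h3
    calc _ ≤ _ := h3
      _ ≤ N * (‖x‖ + 5 * K * ‖x‖) := by
          gcongr
          exact (norm_sub_le _ _).trans (by gcongr)
      _ = _ := by ring
  set ψ := N * (1 + 5 * K) with hψ
  -- the modified vector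
  let g : ℕ → 𝕜 := fun n => if n ∈ c₂ then ((h / ‖f n‖ : ℝ) : 𝕜) * f n else f n
  have g2 : ∀ n ∈ c₂, g n = ((h / ‖f n‖ : ℝ) : 𝕜) * f n := fun n hn => by simp only [g, if_pos hn]
  have gn2 : ∀ n, n ∉ c₂ → g n = f n := fun n hn => by simp only [g, if_neg hn]
  have hf2 : ∀ n ∈ c₂, 0 < ‖f n‖ := fun n hn => lt_of_lt_of_le hh (h₁ n (by simp [hn]))
  have ng2 : ∀ n ∈ c₂, ‖g n‖ = h := by
    intro n hn
    rw [g2 n hn, norm_mul, RCLike.norm_ofReal, abs_of_pos (div_pos hh (hf2 n hn))]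
    have := (hf2 n hn).ne'
    field_simp
  set P := a ++ c₁ ++ c₃ with hPdef
  have hP2 : ∀ n ∈ P, n ∉ c₂ := by
    intro n hn h'
    simp only [hPdef, List.mem_append] at hn
    rcases hn with (h1 | h1) | h1
    · exact d2 n (by simp [h1]) h'
    · exact d2 n (by simp [h1]) h'
    · exact d3 n (by simp [h']) h1
  have hl2 : ∀ n ∈ l₂, n ∉ c₂ := fun n hn h' => d4 n (by simp [h']) hn
  have vPf : Valid F f P := by
    refine ⟨?_, ?_, ?_, ?_⟩
    · have := v4.nodup
      rw [List.nodup_append', List.nodup_append'] at this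
      rw [hPdef, List.nodup_append']
      refine ⟨this.1.1, this.2.1, ?_⟩
      intro n h1 h2
      exact this.2.2 (List.mem_append_left _ h1) h2
    · intro n hn
      apply hv.off
      simp only [hPdef, List.mem_append] at hn ⊢
      tauto
    · intro n hn
      apply hv.ne
      simp only [hPdef, List.mem_append] at hn ⊢
      tauto
    · have := v4.anti
      rw [List.pairwise_append] at this
      rw [hPdef, List.pairwise_append]
      refine ⟨v2.anti, this.2.1, ?_⟩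
      intro x h1 y h2
      exact this.2.2 x (List.mem_append_left _ h1) y h2
  have vP : Valid F g P := valid_perm_congr vPf (List.Perm.refl _) (by
    intro n hn
    rw [gn2 n (hP2 n hn)]
    exact vPf.ne n hn) (by
    apply List.Pairwise.imp_of_mem _ vPf.anti
    intro x y hx hy hxy
    rw [gn2 x (hP2 x hx), gn2 y (hP2 y hy)]
    exact hxy)
  have vl : Valid F g l₂ := valid_perm_congr hvl (List.Perm.refl _) (by
    intro n hn
    rw [gn2 n (hl2 n hn)]
    exact hvl.ne n hn) (by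
    apply List.Pairwise.imp_of_mem _ hvl.anti
    intro x y hx hy hxy
    rw [gn2 x (hl2 x hx), gn2 y (hl2 y hy)]
    exact hxy)
  have vc : ∀ a' : List ℕ, a'.Perm c₂ → Valid F g a' := by
    intro a' ha'
    refine valid_const (ha'.nodup_iff.2 hvc₂.nodup)
      (fun n hn => hvc₂.off n (ha'.mem_iff.1 hn)) hh
      (fun n hn => ng2 n (ha'.mem_iff.1 hn))
  have ngP : ∀ n ∈ P, h ≤ ‖g n‖ := by
    intro n hn
    rw [gn2 n (hP2 n hn)]
    apply h₁
    simp only [hPdef, List.mem_append] at hn ⊢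
    tauto
  have vall : ∀ a' : List ℕ, a'.Perm c₂ → Valid F g (P ++ a' ++ l₂) := by
    intro a' ha'
    refine valid_append (valid_append vP (vc a' ha') ?_ ?_) vl ?_ ?_
    · intro n h1 h2
      exact hP2 n h1 (ha'.mem_iff.1 h2)
    · intro x h1 y h2
      rw [ng2 y (ha'.mem_iff.1 h2)]
      exact ngP x h1
    · intro n h1 h2
      apply d4 n _ h2
      rcases List.mem_append.1 h1 with h' | h'
      · simp only [hPdef, List.mem_append] at h' ⊢
        tauto
      · have := ha'.mem_iff.1 h'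
        simp [this]
    · intro x h1 y h2
      have h3 : ‖g y‖ ≤ h := by
        rw [gn2 y (hl2 y h2)]
        exact h₂ y h2
      refine h3.trans ?_
      rcases List.mem_append.1 h1 with h' | h'
      · exact ngP x h'
      · rw [ng2 x (ha'.mem_iff.1 h')]
  have htr := taper_reverse (e := e) hK (vall c₂ (List.Perm.refl _))
    (vall c₂.reverse (List.reverse_perm c₂))
  rw [hc₂] at htr
  set w := S e g (P ++ c₂ ++ l₂) with hw
  set z := S e g c₂ with hz
  have hPb : ‖S e g P‖ ≤ 31 * K * ‖w‖ + ‖z‖ := by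
    apply combine hd _ hK0 (norm_nonneg _) htr
    simp only [hPdef, List.length_append] at hm ⊢
    omega
  have hzb : ‖z‖ ≤ ψ * ‖x‖ := by
    have h3 := convex_bound' (𝕜 := 𝕜) (fun n => f n • e n) c₂.toFinset (fun n => h / ‖f n‖)
      (c := 1) zero_le_one (fun n hn => by
        have hn' : n ∈ c₂ := by simpa using hn
        refine ⟨(div_pos hh (hf2 n hn')).le, ?_⟩
        rw [div_le_one (hf2 n hn')]
        exact h₁ n (by simp [hn'])) (ψ * ‖x‖) hrest
    rw [one_mul] at h3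
    have h4 : z = ∑ n ∈ c₂.toFinset, ((h / ‖f n‖ : ℝ) : 𝕜) • f n • e n := by
      rw [hz, S_eq_sum hvc₂.nodup]
      apply Finset.sum_congr rfl
      intro n hn
      rw [g2 n (by simpa using hn), smul_smul]
    rw [h4]
    exact h3
  have hc2b : ‖S e f c₂‖ ≤ ψ * ‖x‖ := by
    rw [S_eq_sum hvc₂.nodup]
    exact hrest _ (Finset.Subset.refl _)
  have hSP : S e g P = S e f P := S_congr (fun n hn => gn2 n (hP2 n hn))
  have hwe : w = x - S e f c₂ + z := by
    rw [hw, S_append, S_append, hSP, ← hz, S_congr (f := g) (g := f) (fun n hn => gn2 n (hl2 n hn)),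
      hx, hPdef]
    simp only [S_append]
    abel
  have hwb : ‖w‖ ≤ ‖x‖ + ψ * ‖x‖ + ψ * ‖x‖ := by
    rw [hwe]
    refine (norm_add_le _ _).trans ?_
    refine add_le_add ?_ hzb
    refine (norm_sub_le _ _).trans ?_
    exact add_le_add le_rfl hc2b
  have hSe : S e f (a ++ c₁ ++ c₂ ++ c₃) = S e g P + S e f c₂ := by
    rw [hSP, hPdef]
    simp only [S_append]
    abel
  rw [hSe]
  calc _ ≤ ‖S e g P‖ + ‖S e f c₂‖ := norm_add_le _ _
    _ ≤ (31 * K * (‖x‖ + ψ * ‖x‖ + ψ * ‖x‖) + ψ * ‖x‖) + ψ * ‖x‖ := by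
        gcongr
        refine hPb.trans ?_
        gcongr
    _ = _ := by ring

/-- The bootstrap. -/
lemma bootstrap {F : Finset ℕ} {K κ : ℝ} (hK : HypH e 𝕜 F K) (hK0 : 0 ≤ K)
    (hC : HypC e 𝕜 κ) (hκ : 0 ≤ κ) :
    ∃ A : ℝ, 0 ≤ A ∧ ∀ (n : ℕ) (Φ : ℝ), 0 ≤ Φ → PB e 𝕜 F n Φ → PB e 𝕜 F n (A + Φ / 2) := by
  set r : ℝ := 1 / (2 * (93 * K + 3)) with hr
  have hr0 : 0 < r := by positivity
  have hr1 : r ≤ 1 := by
    rw [hr, div_le_one (by positivity)]
    linarith
  obtain ⟨N, hN0, hN⟩ := near_unconditional (e := e) hK hK0 hC hκ hr0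
  refine ⟨8 * κ + (31 * K * (1 + 3 * K) + 3 * K) +
    (31 * K * (1 + 2 * (N * (1 + 5 * K))) + 2 * (N * (1 + 5 * K))), by positivity, ?_⟩
  intro n Φ hΦ hP f l₁ l₂ hv hn
  have hx0 := norm_nonneg (S e f (l₁ ++ l₂))
  have e1 : 0 ≤ 31 * K * (1 + 3 * K) + 3 * K := by positivity
  have e2 : 0 ≤ 31 * K * (1 + 2 * (N * (1 + 5 * K))) + 2 * (N * (1 + 5 * K)) := by positivity
  rcases Nat.lt_or_ge l₁.length 8 with h8 | h8
  · have h1 := trivial_bound (f := f) hC l₁ l₂ hv.nodup
    have h2 : (l₁.length : ℝ) ≤ 8 := by exact_mod_cast h8.le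
    calc _ ≤ _ := h1
      _ ≤ (8 * κ + (31 * K * (1 + 3 * K) + 3 * K) +
    (31 * K * (1 + 2 * (N * (1 + 5 * K))) + 2 * (N * (1 + 5 * K))) + Φ / 2) *
          ‖S e f (l₁ ++ l₂)‖ := by
        apply mul_le_mul_of_nonneg_right _ hx0
        nlinarith
  · set d := l₁.length / 8 with hd
    have hd1 : 1 ≤ d := by omega
    have hd8 : 8 * d ≤ l₁.length := by omega
    have hd16 : l₁.length ≤ 16 * d := by omega
    -- the height
    have hne : l₁ ≠ [] := by
      intro h0; rw [h0] at h8; simp at h8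
    obtain ⟨L, p, hLp⟩ : ∃ L p, l₁ = L ++ [p] := ⟨l₁.dropLast, l₁.getLast hne,
      (List.dropLast_append_getLast hne).symm⟩
    have hpmem : p ∈ l₁ := by rw [hLp]; simp
    set h := ‖f p‖ with hh
    have hhpos : 0 < h := norm_pos_iff.2 (hv.ne p (List.mem_append_left _ hpmem))
    have h₁ : ∀ n ∈ l₁, h ≤ ‖f n‖ := by
      intro n hn'
      rw [hLp] at hn'
      rcases List.mem_append.1 hn' with h' | h'
      · have := (valid_left hv).anti
        rw [hLp, List.pairwise_append] at this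
        exact this.2.2 n h' p (by simp)
      · simp only [List.mem_singleton] at h'
        rw [h']
    have h₂ : ∀ n ∈ l₂, ‖f n‖ ≤ h := fun n hn' => (valid_cross hv).2 p hpmem n hn'
    obtain ⟨a, l', hal, had⟩ := exists_split l₁ d (by omega)
    obtain ⟨b, c, hbc, hbd⟩ := exists_split l' d (by
      have : l₁.length = a.length + l'.length := by rw [hal]; simp
      omega)
    have hl₁ : l₁ = a ++ b ++ c := by rw [hal, hbc]; simp
    have hclen : l₁.length = d + d + c.length := by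
      rw [hl₁]
      simp only [List.length_append, had, hbd]
    by_cases hcase : ∀ n ∈ a ++ b, h ≤ r * ‖f n‖
    · have h3 := caseA (e := e) hK hK0 hP hr0 hr1 f a b c l₂ d hd1 had hbd
        (by rw [← hl₁]; exact hv) (by rw [← hl₁]; exact hn) (by rw [← hl₁]; exact hd16)
        h hhpos (by rw [← hl₁]; exact h₁) h₂ hcase
      rw [← hl₁] at h3
      refine h3.trans ?_
      apply mul_le_mul_of_nonneg_right _ hx0
      have h4 : r * (93 * K + 3) = 1 / 2 := by
        rw [hr]; field_simp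
      rw [h4]
      nlinarith
    · push Not at hcase
      obtain ⟨n₀, hn₀, hn₀'⟩ := hcase
      obtain ⟨c₁, c', hc₁, hc₁d⟩ := exists_split c d (by omega)
      have hc'len : c.length = d + c'.length := by rw [hc₁]; simp [hc₁d]
      obtain ⟨c₂, c₃, hc₂, hc₂d⟩ := exists_split c' d (by omega)
      have hc : c = c₁ ++ c₂ ++ c₃ := by rw [hc₁, hc₂]; simp
      have hl₁' : l₁ = (a ++ b) ++ c₁ ++ c₂ ++ c₃ := by rw [hl₁, hc]; simp
      have hBc : ∀ n ∈ c, r * ‖f n‖ ≤ h := by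
        intro n hn'
        have h3 := (valid_left hv).anti
        rw [hl₁, List.pairwise_append] at h3
        have h4 := h3.2.2 n₀ hn₀ n hn'
        have h5 : r * ‖f n‖ ≤ r * ‖f n₀‖ := by gcongr
        linarith
      have h3 := caseB (e := e) hK hK0 hr0 hr1 hN0 hN f (a ++ b) c₁ c₂ c₃ l₂ d hd1
        (by simp [had, hbd]; ring) hc₁d hc₂d
        (by rw [← hl₁']; exact hv) (by rw [← hl₁']; exact hd16)
        h hhpos (by rw [← hl₁']; exact h₁) h₂ (by rw [← hc]; exact hBc)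
      rw [← hl₁'] at h3
      refine h3.trans ?_
      apply mul_le_mul_of_nonneg_right _ hx0
      nlinarith

/-- Uniform Cesaro bounds imply uniform greedy bounds. -/
theorem uniform_greedy {F : Finset ℕ} {K κ : ℝ} (hK : HypH e 𝕜 F K) (hK0 : 0 ≤ K)
    (hC : HypC e 𝕜 κ) (hκ : 0 ≤ κ) :
    ∃ Φ : ℝ, 0 ≤ Φ ∧ ∀ (f : ℕ → 𝕜) (l₁ l₂ : List ℕ), Valid F f (l₁ ++ l₂) →
      ‖S e f l₁‖ ≤ Φ * ‖S e f (l₁ ++ l₂)‖ := by
  obtain ⟨A, hA0, hA⟩ := bootstrap (e := e) hK hK0 hC hκ
  refine ⟨2 * A, by positivity, ?_⟩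
  intro f l₁ l₂ hv
  set n := l₁.length with hn
  have h0 : PB e 𝕜 F n (n * κ) := by
    intro f l₁ l₂ hv hn'
    refine (trivial_bound (f := f) hC l₁ l₂ hv.nodup).trans ?_
    have : (l₁.length : ℝ) ≤ n := by exact_mod_cast hn'
    gcongr
  have hj : ∀ j : ℕ, PB e 𝕜 F n (2 * A + n * κ / 2 ^ j) := by
    intro j
    induction j with
    | zero =>
      intro f l₁ l₂ hv hn'
      refine (h0 f l₁ l₂ hv hn').trans ?_
      apply mul_le_mul_of_nonneg_right _ (norm_nonneg _)
      simp only [pow_zero, div_one]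
      linarith
    | succ j ih =>
      have h1 := hA n _ (by positivity) ih
      intro f l₁ l₂ hv hn'
      refine (h1 f l₁ l₂ hv hn').trans ?_
      apply mul_le_mul_of_nonneg_right _ (norm_nonneg _)
      rw [pow_succ]
      have : n * κ / 2 ^ j / 2 = n * κ / (2 ^ j * 2) := by rw [div_div]
      linarith
  have hlim : Filter.Tendsto (fun j : ℕ => (2 * A + n * κ / 2 ^ j) * ‖S e f (l₁ ++ l₂)‖)
      Filter.atTop (nhds ((2 * A + 0) * ‖S e f (l₁ ++ l₂)‖)) := by
    apply Filter.Tendsto.mul_const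
    apply Filter.Tendsto.const_add
    have h2 : Filter.Tendsto (fun j : ℕ => (n * κ) * ((1 : ℝ) / 2) ^ j) Filter.atTop
        (nhds ((n * κ) * 0)) :=
      (tendsto_pow_atTop_nhds_zero_of_lt_one (by norm_num) (by norm_num)).const_mul _
    rw [mul_zero] at h2
    refine h2.congr (fun j => ?_)
    rw [one_div, inv_pow]
    rfl
  rw [add_zero] at hlim
  exact ge_of_tendsto' hlim (fun j => hj j f l₁ l₂ hv le_rfl)

end Q101.Cqg
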