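import Pool.Agent.Q101.CqgC

/-!
From pointwise Cesaro bounds to uniform ones (gliding hump), and from finite vectors to all vectors.
-/

namespace Q101.Cqg

open List Filter Topology

section defs

variable {𝕜 X : Type*} [RCLike 𝕜] [NormedAddCommGroup X] [NormedSpace 𝕜 X]

/-- A basis: a fundamental system with biorthogonal functionals, both bounded. -/
structure IsBasis (e : ℕ → X) (es : ℕ → X →L[𝕜] 𝕜) : Prop where
  biorth : ∀ n m, es n (e m) = if n = m then 1 else 0
  dense : (Submodule.span 𝕜 (Set.range e)).topologicalClosure = ⊤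
  bdd : ∃ C : ℝ, ∀ n, ‖e n‖ ≤ C
  bdd' : ∃ C : ℝ, ∀ n, ‖es n‖ ≤ C

/-- Greedy orderings. -/
structure IsGreedy (es : ℕ → X →L[𝕜] 𝕜) (x : X) (k : ℕ → ℕ) : Prop where
  inj : Function.Injective k
  supp : ∀ n, es n x ≠ 0 → n ∈ Set.range k
  anti : ∀ i j, i < j → ‖es (k j) x‖ ≤ ‖es (k i) x‖

/-- Greedy sums. -/
noncomputable def G (e : ℕ → X) (es : ℕ → X →L[𝕜] 𝕜) (k : ℕ → ℕ) (x : X) (m : ℕ) : X :=
  ∑ j ∈ Finset.range m, es (k j) x • e (k j)

/-- Cesaro means of the greedy sums. -/
noncomputable def Ces (e : ℕ → X) (es : ℕ → X →L[𝕜] 𝕜) (k : ℕ → ℕ) (x : X) (m : ℕ) : X :=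
  ((m : 𝕜)⁻¹) • ∑ n ∈ Finset.range m, G e es k x (n + 1)

end defs

variable {𝕜 X : Type*} [RCLike 𝕜] [NormedAddCommGroup X] [NormedSpace 𝕜 X]
variable {e : ℕ → X} {es : ℕ → X →L[𝕜] 𝕜}

lemma S_range_map (f : ℕ → 𝕜) (k : ℕ → ℕ) (m : ℕ) :
    S e f ((List.range m).map k) = ∑ j ∈ Finset.range m, f (k j) • e (k j) := by
  induction m with
  | zero => simp
  | succ m ih =>
    rw [List.range_succ, List.map_append, S_append, ih, Finset.sum_range_succ]
    simp

lemma D_range_map (f : ℕ → 𝕜) (k : ℕ → ℕ) (m : ℕ) :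
    D e f ((List.range m).map k) =
      ∑ n ∈ Finset.range m, ∑ j ∈ Finset.range (n + 1), f (k j) • e (k j) := by
  induction m with
  | zero => simp
  | succ m ih =>
    rw [List.range_succ, List.map_append, D_append, ih, Finset.sum_range_succ,
      Finset.sum_range_succ _ m, S_range_map]
    simp [D_cons]
    abel

lemma exists_bounds (hb : IsBasis e es) : ∃ c₁ c₂ : ℝ, 1 ≤ c₁ ∧ 1 ≤ c₂ ∧ (∀ n, ‖e n‖ ≤ c₁) ∧
    ∀ n (v : X), ‖es n v‖ ≤ c₂ * ‖v‖ := by
  obtain ⟨C, hC⟩ := hb.bdd
  obtain ⟨C', hC'⟩ := hb.bdd'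
  refine ⟨max C 1, max C' 1, le_max_right _ _, le_max_right _ _,
    fun n => (hC n).trans (le_max_left _ _), fun n v => ?_⟩
  refine ((es n).le_opNorm v).trans ?_
  gcongr
  exact (hC' n).trans (le_max_left _ _)

lemma es_S (hb : IsBasis e es) (f : ℕ → 𝕜) {l : List ℕ} (h : l.Nodup) (n : ℕ) :
    es n (S e f l) = if n ∈ l then f n else 0 := by
  rw [S_eq_sum h, map_sum]
  simp only [map_smul, hb.biorth, smul_eq_mul, mul_ite, mul_one, mul_zero]
  rw [Finset.sum_ite_eq]
  simp

lemma exists_min_height (f : ℕ → 𝕜) (L : List ℕ) (h : ∀ n ∈ L, f n ≠ 0) :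
    ∃ η : ℝ, 0 < η ∧ ∀ n ∈ L, η ≤ ‖f n‖ := by
  induction L with
  | nil => exact ⟨1, one_pos, by simp⟩
  | cons a L ih =>
    obtain ⟨η, h1, h2⟩ := ih (fun n hn => h n (by simp [hn]))
    have ha : 0 < ‖f a‖ := norm_pos_iff.2 (h a (by simp))
    refine ⟨min η ‖f a‖, lt_min h1 ha, ?_⟩
    intro n hn
    rcases List.mem_cons.1 hn with rfl | hn
    · exact min_le_right _ _
    · exact (min_le_left _ _).trans (h2 n hn)

/-- scaling a counterexample -/
lemma scale_bad (hb : IsBasis e es) (hbad : ∀ (F : Finset ℕ) (K : ℝ), ¬ HypH e 𝕜 F K)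
    (F : Finset ℕ) (δ : ℝ) (hδ : 0 < δ) (Γ : ℝ) :
    ∃ (f : ℕ → 𝕜) (l₁ l₂ : List ℕ), Valid F f (l₁ ++ l₂) ∧ ‖S e f (l₁ ++ l₂)‖ ≤ δ ∧
      (∀ n ∈ l₁ ++ l₂, ‖f n‖ ≤ δ) ∧ Γ * l₁.length < ‖D e f l₁‖ ∧ l₁ ≠ [] := by
  obtain ⟨c₁, c₂, hc₁, hc₂, he, hes⟩ := exists_bounds hb
  have := hbad F (Γ * c₂ / δ)
  unfold HypH at this
  push Not at this
  obtain ⟨f, l₁, l₂, hv, hlt⟩ := this
  have hne : l₁ ≠ [] := by
    rintro rfl
    simp at hlt
  have hs : 0 < ‖S e f (l₁ ++ l₂)‖ := by
    obtain ⟨n, hn⟩ := List.exists_mem_of_ne_nil l₁ hne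
    have h1 := es_S hb f hv.nodup n
    rw [if_pos (List.mem_append_left _ hn)] at h1
    have h2 := hv.ne n (List.mem_append_left _ hn)
    have h3 := hes n (S e f (l₁ ++ l₂))
    rw [h1] at h3
    have h4 := norm_pos_iff.2 h2
    by_contra hcon
    have h5 : ‖S e f (l₁ ++ l₂)‖ = 0 := le_antisymm (not_lt.1 hcon) (norm_nonneg _)
    rw [h5, mul_zero] at h3
    linarith
  set s := ‖S e f (l₁ ++ l₂)‖ with hsdef
  have hcs : 0 < c₂ * s := by positivity
  set t : ℝ := δ / (c₂ * s) with ht
  have ht0 : 0 < t := by positivity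
  have htn : ‖(t : 𝕜)‖ = t := by rw [RCLike.norm_ofReal, abs_of_pos ht0]
  refine ⟨fun n => (t : 𝕜) * f n, l₁, l₂, ?_, ?_, ?_, ?_, hne⟩
  · refine valid_perm_congr hv (List.Perm.refl _) ?_ ?_
    · intro n hn
      exact mul_ne_zero (by exact_mod_cast ht0.ne') (hv.ne n hn)
    · apply hv.anti.imp
      intro a b hab
      simp only [norm_mul]
      gcongr
  · rw [S_smul, norm_smul, htn, ← hsdef, ht]
    have : δ / (c₂ * s) * s = δ / c₂ := by field_simp
    rw [this]
    exact div_le_self hδ.le hc₂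
  · intro n hn
    rw [norm_mul, htn]
    have h1 := es_S hb f hv.nodup n
    rw [if_pos hn] at h1
    have h3 := hes n (S e f (l₁ ++ l₂))
    rw [h1, ← hsdef] at h3
    calc t * ‖f n‖ ≤ t * (c₂ * s) := by gcongr
      _ = δ := by rw [ht]; field_simp
  · rw [D_smul, norm_smul, htn]
    calc Γ * l₁.length = t * (Γ * c₂ / δ * l₁.length * s) := by
          rw [ht]; field_simp
      _ < t * ‖D e f l₁‖ := mul_lt_mul_of_pos_left hlt ht0

/-- one step of the gliding hump -/
lemma hump_step (hb : IsBasis e es) (hbad : ∀ (F : Finset ℕ) (K : ℝ), ¬ HypH e 𝕜 F K)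
    (i : ℕ) (p : (ℕ → 𝕜) × List ℕ) (hp : Valid ∅ p.1 p.2) :
    ∃ p' : (ℕ → 𝕜) × List ℕ, Valid ∅ p'.1 p'.2 ∧ p.2 <+: p'.2 ∧ p.2.length < p'.2.length ∧
      (∀ n ∈ p.2, p'.1 n = p.1 n) ∧ ‖S e p'.1 p'.2 - S e p.1 p.2‖ ≤ (1 / 2) ^ i ∧
      ∃ M : ℕ, 1 ≤ M ∧ M ≤ p'.2.length ∧ (i : ℝ) * M ≤ ‖D e p'.1 (p'.2.take M)‖ := by
  classical
  obtain ⟨f, L⟩ := p
  simp only at hp ⊢
  obtain ⟨η, hη, hηL⟩ := exists_min_height f L hp.ne
  obtain ⟨f', l₁, l₂, hv, hS, hh, hD, hne⟩ := scale_bad (e := e) hb hbad L.toFinset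
    (min η ((1 / 2) ^ i)) (lt_min hη (by positivity))
    (‖D e f L‖ + ‖S e f L‖ + i * (L.length + 1))
  let g : ℕ → 𝕜 := fun n => if n ∈ L then f n else f' n
  have gL : ∀ n ∈ L, g n = f n := fun n hn => by simp only [g, if_pos hn]
  have gl : ∀ n ∈ l₁ ++ l₂, g n = f' n := fun n hn => by
    have : n ∉ L := fun h => hv.off n hn (by simpa using h)
    simp only [g, if_neg this]
  have hl1 : 1 ≤ l₁.length := List.length_pos_iff.2 hne
  have vL : Valid ∅ g L := valid_perm_congr hp (List.Perm.refl _) (by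
    intro n hn; rw [gL n hn]; exact hp.ne n hn) (by
    apply List.Pairwise.imp_of_mem _ hp.anti
    intro x y hx hy hxy
    rw [gL x hx, gL y hy]; exact hxy)
  have vl : Valid ∅ g (l₁ ++ l₂) := by
    refine ⟨hv.nodup, by simp, ?_, ?_⟩
    · intro n hn; rw [gl n hn]; exact hv.ne n hn
    · apply List.Pairwise.imp_of_mem _ hv.anti
      intro x y hx hy hxy
      rw [gl x hx, gl y hy]; exact hxy
  refine ⟨⟨g, L ++ (l₁ ++ l₂)⟩, ?_, List.prefix_append _ _, ?_, gL, ?_, L.length + l₁.length,
    by omega, ?_, ?_⟩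
  · refine valid_append vL vl ?_ ?_
    · intro n h1 h2
      exact hv.off n h2 (by simpa using h1)
    · intro x hx y hy
      show ‖g y‖ ≤ ‖g x‖
      rw [gL x hx, gl y hy]
      exact (hh y hy).trans ((min_le_left _ _).trans (hηL x hx))
  · simp only [List.length_append]; omega
  · simp only [S_append]
    rw [S_congr gL, S_congr (l := l₁) (f := g) (g := f') (fun n hn => gl n (by simp [hn])),
      S_congr (l := l₂) (f := g) (g := f') (fun n hn => gl n (by simp [hn])), add_sub_cancel_left,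
      ← S_append]
    exact hS.trans (min_le_right _ _)
  · simp only [List.length_append]; omega
  · have ht : (L ++ (l₁ ++ l₂)).take (L.length + l₁.length) = L ++ l₁ := by
      rw [← List.append_assoc, List.take_append_of_le_length (by simp)]
      rw [List.take_of_length_le (by simp)]
    simp only
    rw [ht, D_append, D_congr gL, S_congr gL, D_congr (l := l₁) (f := g) (g := f')
      (fun n hn => gl n (by simp [hn]))]
    have h1 : (1 : ℝ) ≤ l₁.length := by exact_mod_cast hl1
    have h2 : (0 : ℝ) ≤ L.length := by positivity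
    have h3 : (0 : ℝ) ≤ i := by positivity
    have h4 : ‖(l₁.length : 𝕜) • S e f L‖ = l₁.length * ‖S e f L‖ := by
      rw [norm_smul]; simp
    have h5 : ‖D e f' l₁‖ ≤ ‖D e f L + (l₁.length : 𝕜) • S e f L + D e f' l₁‖ +
        (‖D e f L‖ + l₁.length * ‖S e f L‖) := by
      calc ‖D e f' l₁‖ = ‖(D e f L + (l₁.length : 𝕜) • S e f L + D e f' l₁) -
            (D e f L + (l₁.length : 𝕜) • S e f L)‖ := by rw [add_sub_cancel_left]
        _ ≤ _ := norm_sub_le _ _
        _ ≤ _ := by
            gcongr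
            refine (norm_add_le _ _).trans ?_
            rw [h4]
    have h6 : (i : ℝ) * (L.length + l₁.length) ≤ i * ((L.length + 1) * l₁.length) := by
      apply mul_le_mul_of_nonneg_left _ h3
      nlinarith
    have h7 := norm_nonneg (D e f L)
    push_cast
    nlinarith

/-- From pointwise to uniform Cesaro bounds. -/
theorem uniform_of_pointwise [CompleteSpace X] (hb : IsBasis e es)
    (hpt : ∀ (x : X) (k : ℕ → ℕ), IsGreedy es x k →
      ∃ M : ℝ, ∀ m : ℕ, ‖D e (fun n => es n x) ((List.range m).map k)‖ ≤ M * m) :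
    ∃ (F : Finset ℕ) (K : ℝ), HypH e 𝕜 F K := by
  classical
  by_contra hcon
  push Not at hcon
  have hstep := hump_step (e := e) hb hcon
  -- build the sequence
  let State := {p : (ℕ → 𝕜) × List ℕ // Valid ∅ p.1 p.2}
  have hv0 : Valid (𝕜 := 𝕜) ∅ (fun _ => 0) [] := ⟨by simp, by simp, by simp, by simp⟩
  let next : ℕ → State → State := fun i p => ⟨(hstep i p.1 p.2).choose,
    (hstep i p.1 p.2).choose_spec.1⟩
  let st : ℕ → State := fun n => Nat.rec ⟨(fun _ => 0, []), hv0⟩ next n
  have hst : ∀ i, st (i + 1) = next i (st i) := fun i => rfl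
  let f : ℕ → ℕ → 𝕜 := fun i => (st i).1.1
  let L : ℕ → List ℕ := fun i => (st i).1.2
  have hval : ∀ i, Valid ∅ (f i) (L i) := fun i => (st i).2
  have hspec : ∀ i, L i <+: L (i + 1) ∧ (L i).length < (L (i + 1)).length ∧
      (∀ n ∈ L i, f (i + 1) n = f i n) ∧
      ‖S e (f (i + 1)) (L (i + 1)) - S e (f i) (L i)‖ ≤ (1 / 2) ^ i ∧
      ∃ M : ℕ, 1 ≤ M ∧ M ≤ (L (i + 1)).length ∧
        (i : ℝ) * M ≤ ‖D e (f (i + 1)) ((L (i + 1)).take M)‖ := by
    intro i
    exact (hstep i (st i).1 (st i).2).choose_spec.2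
  have hpre : ∀ i j, i ≤ j → L i <+: L j := by
    intro i j hij
    induction j, hij using Nat.le_induction with
    | base => exact List.prefix_refl _
    | succ j _ ih => exact ih.trans (hspec j).1
  have hlen : ∀ i, i ≤ (L i).length := by
    intro i
    induction i with
    | zero => omega
    | succ i ih => have := (hspec i).2.1; omega
  have hfst : ∀ i j, i ≤ j → ∀ n ∈ L i, f j n = f i n := by
    intro i j hij
    induction j, hij using Nat.le_induction with
    | base => intro n _; rfl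
    | succ j hij ih =>
      intro n hn
      rw [(hspec j).2.2.1 n ((hpre i j hij).subset hn), ih n hn]
  -- the limit
  let xs : ℕ → X := fun i => S e (f i) (L i)
  have hcau : CauchySeq xs := by
    apply cauchySeq_of_le_geometric (1 / 2) 1 (by norm_num)
    intro i
    rw [dist_comm, dist_eq_norm, one_mul]
    exact (hspec i).2.2.2.1
  obtain ⟨x, hx⟩ := cauchySeq_tendsto_of_complete hcau
  have hcoef : ∀ i, ∀ n ∈ L i, es n x = f i n := by
    intro i n hn
    have h1 : Tendsto (fun j => es n (xs j)) atTop (𝓝 (es n x)) :=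
      ((es n).continuous.tendsto x).comp hx
    have h2 : Tendsto (fun j => es n (xs j)) atTop (𝓝 (f i n)) := by
      apply tendsto_const_nhds.congr'
      filter_upwards [eventually_ge_atTop i] with j hj
      simp only [xs]
      rw [es_S hb _ (hval j).nodup, if_pos ((hpre i j hj).subset hn), hfst i j hj n hn]
    exact tendsto_nhds_unique h1 h2
  have hcoef0 : ∀ n, (∀ i, n ∉ L i) → es n x = 0 := by
    intro n hn
    have h1 : Tendsto (fun j => es n (xs j)) atTop (𝓝 (es n x)) :=
      ((es n).continuous.tendsto x).comp hx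
    have h2 : Tendsto (fun j => es n (xs j)) atTop (𝓝 0) := by
      apply tendsto_const_nhds.congr
      intro j
      simp only [xs]
      rw [es_S hb _ (hval j).nodup, if_neg (hn j)]
    exact tendsto_nhds_unique h1 h2
  -- the ordering
  let k : ℕ → ℕ := fun n => (L (n + 1)).getD n 0
  have hk : ∀ i n, n < (L i).length → (L i)[n]? = some (k n) := by
    intro i n hn
    have h1 : n < (L (n + 1)).length := by have := hlen (n + 1); omega
    have h2 : (L (n + 1))[n]? = some (k n) := by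
      simp only [k]
      rw [List.getD_eq_getElem?_getD, List.getElem?_eq_getElem h1]
      rfl
    rcases le_total i (n + 1) with h | h
    · have h3 := hpre _ _ h
      rw [← h2]
      obtain ⟨t, ht⟩ := h3
      rw [← ht, List.getElem?_append_left hn]
    · have h3 := hpre _ _ h
      rw [← h2]
      obtain ⟨t, ht⟩ := h3
      rw [← ht, List.getElem?_append_left h1]
  have htake : ∀ i m, m ≤ (L i).length → (List.range m).map k = (L i).take m := by
    intro i m hm
    apply List.ext_getElem?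
    intro n
    rw [List.getElem?_map, List.getElem?_take]
    by_cases hn : n < m
    · rw [List.getElem?_range hn, if_pos hn, hk i n (by omega)]
      rfl
    · rw [if_neg hn, List.getElem?_eq_none (by simpa using hn)]
      rfl
  have hkL : ∀ i n, n < (L i).length → k n ∈ L i := by
    intro i n hn
    exact List.mem_of_getElem? (hk i n hn)
  have hgr : IsGreedy es x k := by
    refine ⟨?_, ?_, ?_⟩
    · intro i j hij
      by_contra hne
      have h1 : i < (L (i + j + 1)).length := by have := hlen (i + j + 1); omega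
      have h2 : j < (L (i + j + 1)).length := by have := hlen (i + j + 1); omega
      have h3 := hk (i + j + 1) i h1
      have h4 := hk (i + j + 1) j h2
      rw [hij, ← h4] at h3
      rw [List.getElem?_eq_getElem h1, List.getElem?_eq_getElem h2] at h3
      exact hne ((List.Nodup.getElem_inj_iff (hval (i + j + 1)).nodup).1 (Option.some.inj h3))
    · intro n hn
      by_contra hcon'
      apply hn
      apply hcoef0
      intro i hni
      apply hcon'
      obtain ⟨p, hp⟩ := List.getElem?_of_mem hni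
      have hplt : p < (L i).length := by
        by_contra h'
        rw [List.getElem?_eq_none (not_lt.1 h')] at hp
        cases hp
      refine ⟨p, ?_⟩
      have := hk i p hplt
      rw [hp] at this
      exact (Option.some.inj this).symm
    · intro i j hij
      have h2 : j < (L (j + 1)).length := by have := hlen (j + 1); omega
      have h1 : i < (L (j + 1)).length := by omega
      have h3 := (hval (j + 1)).anti
      rw [hcoef (j + 1) (k i) (hkL (j + 1) i h1), hcoef (j + 1) (k j) (hkL (j + 1) j h2)]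
      rw [List.pairwise_iff_getElem] at h3
      have h4 := h3 i j h1 h2 hij
      have e1 : (L (j + 1))[i] = k i := by
        have := hk (j + 1) i h1
        rw [List.getElem?_eq_getElem h1] at this
        exact Option.some.inj this
      have e2 : (L (j + 1))[j] = k j := by
        have := hk (j + 1) j h2
        rw [List.getElem?_eq_getElem h2] at this
        exact Option.some.inj this
      rw [e1, e2] at h4
      exact h4
  obtain ⟨M₀, hM₀⟩ := hpt x k hgr
  obtain ⟨i, hi⟩ := exists_nat_gt M₀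
  obtain ⟨M, hM1, hM2, hM3⟩ := (hspec i).2.2.2.2
  have h1 := hM₀ M
  rw [htake (i + 1) M hM2] at h1
  rw [D_congr (g := f (i + 1)) (fun n hn => hcoef (i + 1) n (List.mem_of_mem_take hn))] at h1
  have h2 : (1 : ℝ) ≤ M := by exact_mod_cast hM1
  nlinarith

end Q101.Cqg
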