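import Pool.Agent.Q101.CqgD

/-!
From finite vectors to all vectors, and the final statements.
-/

namespace Q101.Cqg

open List Filter Topology

variable {𝕜 X : Type*} [RCLike 𝕜] [NormedAddCommGroup X] [NormedSpace 𝕜 X]
variable {e : ℕ → X} {es : ℕ → X →L[𝕜] 𝕜}

set_option maxHeartbeats 1000000 in
lemma G_bound (hb : IsBasis e es) {F : Finset ℕ} {Φ : ℝ} (hΦ0 : 0 ≤ Φ)
    (hΦ : ∀ (f : ℕ → 𝕜) (l₁ l₂ : List ℕ), Valid F f (l₁ ++ l₂) →
      ‖S e f l₁‖ ≤ Φ * ‖S e f (l₁ ++ l₂)‖) :
    ∃ C : ℝ, ∀ (x : X) (k : ℕ → ℕ), IsGreedy es x k → ∀ m, ‖G e es k x m‖ ≤ C * ‖x‖ := by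
  classical
  obtain ⟨c₁, c₂, hc₁, hc₂, he, hes⟩ := exists_bounds hb
  set κ := c₁ * c₂ with hκ
  have hκ0 : 0 ≤ κ := by positivity
  have hcoord : ∀ n (v : X), ‖es n v • e n‖ ≤ κ * ‖v‖ := by
    intro n v
    rw [norm_smul]
    calc ‖es n v‖ * ‖e n‖ ≤ (c₂ * ‖v‖) * c₁ := by
          gcongr
          · exact hes n v
          · exact he n
      _ = _ := by ring
  have hproj : ∀ (A : Finset ℕ) (v : X), ‖∑ n ∈ A, es n v • e n‖ ≤ A.card * κ * ‖v‖ := by
    intro A v
    calc _ ≤ ∑ n ∈ A, ‖es n v • e n‖ := norm_sum_le _ _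
      _ ≤ ∑ n ∈ A, κ * ‖v‖ := Finset.sum_le_sum fun n _ => hcoord n v
      _ = _ := by rw [Finset.sum_const, nsmul_eq_mul]; ring
  set C := F.card * κ + Φ * (1 + F.card * κ) with hC
  have hC0 : 0 ≤ C := by positivity
  refine ⟨C, ?_⟩
  intro x k hk m
  induction m with
  | zero =>
    simp only [G, Finset.range_zero, Finset.sum_empty, norm_zero]
    positivity
  | succ m ih =>
    by_cases h0 : es (k m) x = 0
    · have : G e es k x (m + 1) = G e es k x m := by
        unfold G
        rw [Finset.sum_range_succ, h0, zero_smul, add_zero]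
      rw [this]; exact ih
    · set τ := ‖es (k m) x‖ with hτ
      have hτ0 : 0 < τ := norm_pos_iff.2 h0
      set A := (Finset.range (m + 1)).image k with hA
      have hGA : G e es k x (m + 1) = ∑ n ∈ A, es n x • e n := by
        unfold G
        rw [hA, Finset.sum_image (fun i _ j _ h => hk.inj h)]
      have hin : ∀ n ∈ A, τ ≤ ‖es n x‖ := by
        intro n hn
        obtain ⟨j, hj, rfl⟩ := Finset.mem_image.1 hn
        have hj' : j ≤ m := by
          have := Finset.mem_range.1 hj
          omega
        rcases hj'.eq_or_lt with rfl | h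
        · exact le_rfl
        · exact hk.anti j m h
      have hout : ∀ n, n ∉ A → ‖es n x‖ ≤ τ := by
        intro n hn
        by_cases hz : es n x = 0
        · rw [hz, norm_zero]; exact hτ0.le
        · obtain ⟨j, rfl⟩ := hk.supp n hz
          have hj : m < j := by
            by_contra h
            apply hn
            rw [hA]
            exact Finset.mem_image_of_mem k (Finset.mem_range.2 (by omega))
          exact hk.anti m j hj
      set g := G e es k x (m + 1) with hg
      have key : ∀ ε : ℝ, 0 < ε →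
          ‖g‖ ≤ C * ‖x‖ + ε * (C * (c₂ / τ * ‖g‖ + (A.card * κ + 1))) := by
        intro ε hε
        -- approximate
        have hxcl : x ∈ (Submodule.span 𝕜 (Set.range e)).topologicalClosure := by
          rw [hb.dense]; trivial
        obtain ⟨y, hy, hxy⟩ := Metric.mem_closure_iff.1 hxcl ε hε
        rw [dist_eq_norm] at hxy
        obtain ⟨c, hc⟩ := (Finsupp.mem_span_range_iff_exists_finsupp).1 hy
        have hycoef : ∀ n, es n y = c n := by
          intro n
          rw [← hc, Finsupp.sum, map_sum]
          simp only [map_smul, hb.biorth, smul_eq_mul, mul_ite, mul_one, mul_zero]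
          rw [Finset.sum_ite_eq]
          split_ifs with h
          · rfl
          · exact (Finsupp.notMem_support_iff.1 h).symm
        set T₀ := c.support with hT₀
        have hysum : ∑ n ∈ T₀ ∪ A, es n y • e n = y := by
          conv_rhs => rw [← hc]
          rw [Finsupp.sum, Finset.sum_subset (Finset.subset_union_left (s₁ := T₀) (s₂ := A))]
          · apply Finset.sum_congr rfl
            intro n _
            rw [hycoef]
          · intro n _ hn
            rw [Finsupp.notMem_support_iff.1 hn, zero_smul]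
        have hcl : ∀ n, ‖es n y - es n x‖ ≤ c₂ * ε := by
          intro n
          rw [← map_sub]
          refine (hes n _).trans ?_
          rw [norm_sub_rev]
          gcongr
        set ε' := c₂ * ε / τ with hε'
        have hε'0 : 0 ≤ ε' := by positivity
        let f : ℕ → 𝕜 := fun n => if n ∈ A then ((1 + ε' : ℝ) : 𝕜) * es n x else es n y
        have fA : ∀ n ∈ A, f n = ((1 + ε' : ℝ) : 𝕜) * es n x := fun n hn => by
          simp only [f, if_pos hn]
        have fnA : ∀ n, n ∉ A → f n = es n y := fun n hn => by simp only [f, if_neg hn]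
        have nfA : ∀ n ∈ A, τ + c₂ * ε ≤ ‖f n‖ := by
          intro n hn
          rw [fA n hn, norm_mul, RCLike.norm_ofReal, abs_of_nonneg (by linarith)]
          calc τ + c₂ * ε = (1 + ε') * τ := by rw [hε']; field_simp
            _ ≤ _ := by gcongr; exact hin n hn
        have nfnA : ∀ n, n ∉ A → ‖f n‖ ≤ τ + c₂ * ε := by
          intro n hn
          rw [fnA n hn]
          calc ‖es n y‖ = ‖es n x + (es n y - es n x)‖ := by rw [add_sub_cancel]
            _ ≤ _ := norm_add_le _ _
            _ ≤ _ := add_le_add (hout n hn) (hcl n)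
        set y' := ∑ n ∈ T₀ ∪ A, f n • e n with hy'
        have hy'e : y' = x + (((ε' : ℝ) : 𝕜) • g + (∑ n ∈ A, es n (x - y) • e n + (y - x))) := by
          have h1 : y' = y + ∑ n ∈ A, (f n - es n y) • e n := by
            have h0 : y' - ∑ n ∈ T₀ ∪ A, es n y • e n = ∑ n ∈ A, (f n - es n y) • e n := by
              rw [hy', ← Finset.sum_sub_distrib,
                Finset.sum_subset (Finset.subset_union_right (s₁ := T₀) (s₂ := A))]
              · apply Finset.sum_congr rfl
                intro n hn
                rw [sub_smul]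
              · intro n _ hn
                rw [fnA n hn, sub_self, zero_smul]
            rw [hysum] at h0
            rw [← h0, add_sub_cancel]
          have h2 : ∑ n ∈ A, (f n - es n y) • e n =
              ((ε' : ℝ) : 𝕜) • g + ∑ n ∈ A, es n (x - y) • e n := by
            rw [hGA, Finset.smul_sum, ← Finset.sum_add_distrib]
            apply Finset.sum_congr rfl
            intro n hn
            rw [fA n hn, map_sub]
            push_cast
            module
          rw [h1, h2]
          abel
        have hy'n : ‖y'‖ ≤ ‖x‖ + ε * (c₂ / τ * ‖g‖ + (A.card * κ + 1)) := by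
          rw [hy'e]
          refine (norm_add_le _ _).trans ?_
          gcongr
          refine (norm_add_le _ _).trans ?_
          have h3 : ‖((ε' : ℝ) : 𝕜) • g‖ = ε * (c₂ / τ * ‖g‖) := by
            rw [norm_smul, RCLike.norm_ofReal, abs_of_nonneg hε'0, hε']
            ring
          rw [h3]
          have h4 : ‖∑ n ∈ A, es n (x - y) • e n + (y - x)‖ ≤ A.card * κ * ε + ε := by
            refine (norm_add_le _ _).trans ?_
            gcongr
            · refine (hproj A (x - y)).trans ?_
              gcongr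
            · rw [norm_sub_rev]; exact hxy.le
          linarith
        -- coefficients of y'
        have hy'coef : ∀ n ∈ T₀ ∪ A, es n y' = f n := by
          intro n hn
          rw [hy', map_sum]
          simp only [map_smul, hb.biorth, smul_eq_mul, mul_ite, mul_one, mul_zero]
          rw [Finset.sum_ite_eq, if_pos hn]
        have hy'coef0 : ∀ n, n ∉ T₀ ∪ A → es n y' = 0 := by
          intro n hn
          rw [hy', map_sum]
          simp only [map_smul, hb.biorth, smul_eq_mul, mul_ite, mul_one, mul_zero]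
          rw [Finset.sum_ite_eq, if_neg hn]
        have hoffF : ‖∑ n ∈ (T₀ ∪ A) \ F, f n • e n‖ ≤ (1 + F.card * κ) * ‖y'‖ := by
          have h5 : ∑ n ∈ (T₀ ∪ A) \ F, f n • e n = y' - ∑ n ∈ F, es n y' • e n := by
            have h6 : ∑ n ∈ F, es n y' • e n = ∑ n ∈ (T₀ ∪ A) ∩ F, f n • e n := by
              rw [← Finset.sum_subset (Finset.inter_subset_right (s₁ := T₀ ∪ A) (s₂ := F))]
              · apply Finset.sum_congr rfl
                intro n hn
                rw [hy'coef n (Finset.mem_inter.1 hn).1]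
              · intro n hn hn'
                rw [hy'coef0 n (fun h => hn' (Finset.mem_inter.2 ⟨h, hn⟩)), zero_smul]
            rw [h6, hy', ← Finset.sum_sdiff (Finset.inter_subset_left (s₁ := T₀ ∪ A) (s₂ := F)),
              Finset.sdiff_inter_self_left, add_sub_cancel_right]
          rw [h5]
          calc _ ≤ _ := norm_sub_le _ _
            _ ≤ ‖y'‖ + F.card * κ * ‖y'‖ := by gcongr; exact hproj F y'
            _ = _ := by ring
        -- the lists
        obtain ⟨l₁, hl₁, hl₁s⟩ := exists_sorted f (A \ F).toList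
        obtain ⟨l₂, hl₂, hl₂s⟩ := exists_sorted f
          ((((T₀ ∪ A) \ F) \ A).filter (fun n => f n ≠ 0)).toList
        have m1 : ∀ n, n ∈ l₁ ↔ n ∈ A ∧ n ∉ F := fun n => by rw [hl₁.mem_iff]; simp
        have m2 : ∀ n, n ∈ l₂ ↔ (((n ∈ T₀ ∪ A) ∧ n ∉ F) ∧ n ∉ A) ∧ f n ≠ 0 := fun n => by
          rw [hl₂.mem_iff]; simp only [Finset.mem_toList, Finset.mem_filter, Finset.mem_sdiff]
        have v1 : Valid F f l₁ := by
          refine ⟨hl₁.nodup_iff.2 (Finset.nodup_toList _), fun n hn => ((m1 n).1 hn).2, ?_, hl₁s⟩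
          intro n hn h0
          have := nfA n ((m1 n).1 hn).1
          rw [h0, norm_zero] at this
          have : 0 < τ + c₂ * ε := by positivity
          linarith
        have v2 : Valid F f l₂ :=
          ⟨hl₂.nodup_iff.2 (Finset.nodup_toList _), fun n hn => ((m2 n).1 hn).1.1.2,
            fun n hn => ((m2 n).1 hn).2, hl₂s⟩
        have v12 : Valid F f (l₁ ++ l₂) := by
          refine valid_append v1 v2 ?_ ?_
          · intro n h1 h2
            exact ((m2 n).1 h2).1.2 ((m1 n).1 h1).1
          · intro a h1 b h2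
            exact (nfnA b ((m2 b).1 h2).1.2).trans (nfA a ((m1 a).1 h1).1)
        have h7 := hΦ f l₁ l₂ v12
        have e1 : S e f l₁ = ∑ n ∈ A \ F, f n • e n := by
          rw [S_perm hl₁, ← sum_eq_S]
        have e2 : S e f l₂ = ∑ n ∈ ((T₀ ∪ A) \ F) \ A, f n • e n := by
          rw [S_perm hl₂, ← sum_eq_S, Finset.sum_filter_of_ne]
          intro n _ hn h0
          apply hn
          rw [h0, zero_smul]
        have e3 : S e f (l₁ ++ l₂) = ∑ n ∈ (T₀ ∪ A) \ F, f n • e n := by
          rw [S_append, e1, e2]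
          have h8 : A \ F ⊆ (T₀ ∪ A) \ F :=
            Finset.sdiff_subset_sdiff Finset.subset_union_right (Finset.Subset.refl _)
          rw [← Finset.sum_sdiff h8, add_comm]
          congr 1
          apply Finset.sum_congr _ (fun _ _ => rfl)
          ext n
          simp only [Finset.mem_sdiff, Finset.mem_union]
          tauto
        rw [e1, e3] at h7
        have h9 : ‖∑ n ∈ A ∩ F, f n • e n‖ ≤ F.card * κ * ‖y'‖ := by
          have : ∑ n ∈ A ∩ F, f n • e n = ∑ n ∈ A ∩ F, es n y' • e n := by
            apply Finset.sum_congr rfl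
            intro n hn
            rw [hy'coef n (Finset.mem_union_right _ (Finset.mem_inter.1 hn).1)]
          rw [this]
          refine (hproj _ _).trans ?_
          have : ((A ∩ F).card : ℝ) ≤ F.card := by
            exact_mod_cast Finset.card_le_card Finset.inter_subset_right
          gcongr
        have h10 : ((1 + ε' : ℝ) : 𝕜) • g = ∑ n ∈ A \ F, f n • e n + ∑ n ∈ A ∩ F, f n • e n := by
          have : A \ F = A \ (A ∩ F) := by
            ext n; simp only [Finset.mem_sdiff, Finset.mem_inter]; tauto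
          rw [this, Finset.sum_sdiff Finset.inter_subset_left, hGA, Finset.smul_sum]
          apply Finset.sum_congr rfl
          intro n hn
          rw [fA n hn, smul_smul]
        have h11 : ‖g‖ ≤ ‖((1 + ε' : ℝ) : 𝕜) • g‖ := by
          rw [norm_smul, RCLike.norm_ofReal, abs_of_nonneg (by linarith)]
          have := norm_nonneg g
          nlinarith
        calc ‖g‖ ≤ ‖((1 + ε' : ℝ) : 𝕜) • g‖ := h11
          _ ≤ ‖∑ n ∈ A \ F, f n • e n‖ + ‖∑ n ∈ A ∩ F, f n • e n‖ := by
              rw [h10]; exact norm_add_le _ _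
          _ ≤ Φ * ((1 + F.card * κ) * ‖y'‖) + F.card * κ * ‖y'‖ :=
              add_le_add (h7.trans (mul_le_mul_of_nonneg_left hoffF hΦ0)) h9
          _ = C * ‖y'‖ := by rw [hC]; ring
          _ ≤ C * (‖x‖ + ε * (c₂ / τ * ‖g‖ + (A.card * κ + 1))) :=
              mul_le_mul_of_nonneg_left hy'n hC0
          _ = _ := by ring
      -- let ε → 0
      have hlim : Tendsto (fun ε : ℝ => C * ‖x‖ + ε * (C * (c₂ / τ * ‖g‖ + (A.card * κ + 1))))
          (𝓝[>] 0) (𝓝 (C * ‖x‖ + 0 * (C * (c₂ / τ * ‖g‖ + (A.card * κ + 1))))) := by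
        apply Tendsto.const_add
        apply Tendsto.mul_const
        exact tendsto_nhdsWithin_of_tendsto_nhds tendsto_id
      rw [zero_mul, add_zero] at hlim
      apply ge_of_tendsto hlim
      filter_upwards [self_mem_nhdsWithin] with ε hε
      exact key ε hε

/-- The main theorem: pointwise bounded Cesaro means imply quasi-greediness. -/
theorem main [CompleteSpace X] (hb : IsBasis e es)
    (hpt : ∀ (x : X) (k : ℕ → ℕ), IsGreedy es x k → ∃ M : ℝ, ∀ m : ℕ, ‖Ces e es k x m‖ ≤ M) :
    ∃ C : ℝ, ∀ (x : X) (k : ℕ → ℕ), IsGreedy es x k → ∀ m, ‖G e es k x m‖ ≤ C * ‖x‖ := by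
  obtain ⟨F, K, hK⟩ := uniform_of_pointwise (e := e) hb (by
    intro x k hk
    obtain ⟨M, hM⟩ := hpt x k hk
    refine ⟨M, fun m => ?_⟩
    rw [D_range_map]
    have h1 := hM m
    unfold Ces at h1
    rcases Nat.eq_zero_or_pos m with rfl | hm
    · simp
    · have hm' : (0 : ℝ) < m := by exact_mod_cast hm
      rw [norm_smul, norm_inv, RCLike.norm_natCast, inv_mul_le_iff₀ hm'] at h1
      unfold G at h1
      linarith)
  obtain ⟨c₁, c₂, hc₁, hc₂, he, hes⟩ := exists_bounds hb
  have hK' : HypH e 𝕜 F (max K 0) := by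
    intro f l₁ l₂ hv
    refine (hK f l₁ l₂ hv).trans ?_
    gcongr
    exact le_max_left _ _
  have hC : HypC e 𝕜 (c₁ * c₂) := by
    intro f l hl n hn
    have h1 := es_S hb f hl n
    rw [if_pos hn] at h1
    rw [norm_smul]
    have h2 := hes n (S e f l)
    rw [h1] at h2
    calc ‖f n‖ * ‖e n‖ ≤ (c₂ * ‖S e f l‖) * c₁ := by
          gcongr
          exact he n
      _ = _ := by ring
  obtain ⟨Φ, hΦ0, hΦ⟩ := uniform_greedy hK' (le_max_right _ _) hC (by positivity)
  exact G_bound hb hΦ0 hΦ

/-- bounded de la Vallee-Poussin means give bounded Cesaro means -/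
theorem ces_of_vp (hb : IsBasis e es) (x : X) (k : ℕ → ℕ) (B : ℝ)
    (hB : ∀ m, ‖(2 : 𝕜) • Ces e es k x (2 * m) - Ces e es k x m‖ ≤ B) :
    ∃ M : ℝ, ∀ m : ℕ, ‖Ces e es k x m‖ ≤ M := by
  obtain ⟨c₁, c₂, hc₁, hc₂, he, hes⟩ := exists_bounds hb
  set κ := c₁ * c₂ with hκ
  have hB0 : 0 ≤ B := (norm_nonneg _).trans (hB 0)
  have hG : ∀ m, ‖G e es k x m‖ ≤ m * (κ * ‖x‖) := by
    intro m
    unfold G
    calc _ ≤ ∑ j ∈ Finset.range m, ‖es (k j) x • e (k j)‖ := norm_sum_le _ _
      _ ≤ ∑ j ∈ Finset.range m, κ * ‖x‖ := by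
          apply Finset.sum_le_sum
          intro j _
          rw [norm_smul]
          calc ‖es (k j) x‖ * ‖e (k j)‖ ≤ (c₂ * ‖x‖) * c₁ := by
                gcongr
                · exact hes _ _
                · exact he _
            _ = _ := by ring
      _ = _ := by rw [Finset.sum_const, nsmul_eq_mul, Finset.card_range]
  set M := B + 2 * (κ * ‖x‖) with hM
  have hκx : 0 ≤ κ * ‖x‖ := by positivity
  refine ⟨M, ?_⟩
  -- recursion
  have heven : ∀ m, ‖Ces e es k x (2 * m)‖ ≤ (B + ‖Ces e es k x m‖) / 2 := by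
    intro m
    have h1 : (2 : 𝕜) • Ces e es k x (2 * m) =
        ((2 : 𝕜) • Ces e es k x (2 * m) - Ces e es k x m) + Ces e es k x m := by
      rw [sub_add_cancel]
    have h2 : ‖(2 : 𝕜) • Ces e es k x (2 * m)‖ = 2 * ‖Ces e es k x (2 * m)‖ := by
      rw [norm_smul]; norm_num
    have h3 := norm_add_le ((2 : 𝕜) • Ces e es k x (2 * m) - Ces e es k x m) (Ces e es k x m)
    rw [← h1, h2] at h3
    have := hB m
    linarith
  have hsucc : ∀ m, ‖Ces e es k x (m + 1)‖ ≤ ‖Ces e es k x m‖ + κ * ‖x‖ := by
    intro m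
    have hm1 : (0 : ℝ) < (m : ℝ) + 1 := by positivity
    have hm1' : ((m : 𝕜) + 1) ≠ 0 := by exact_mod_cast hm1.ne'
    have h1 : Ces e es k x (m + 1) =
        (((m : ℝ) / (m + 1) : ℝ) : 𝕜) • Ces e es k x m +
          (((1 : ℝ) / (m + 1) : ℝ) : 𝕜) • G e es k x (m + 1) := by
      unfold Ces
      rcases Nat.eq_zero_or_pos m with rfl | hm
      · simp
      · rw [Finset.sum_range_succ, smul_add, smul_smul]
        congr 2
        · have : (m : 𝕜) ≠ 0 := by exact_mod_cast hm.ne'
          push_cast
          field_simp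
        · push_cast
          rw [one_div]
    rw [h1]
    refine (norm_add_le _ _).trans ?_
    rw [norm_smul, norm_smul, RCLike.norm_ofReal, RCLike.norm_ofReal, abs_of_nonneg (by positivity),
      abs_of_nonneg (by positivity)]
    have h2 : (m : ℝ) / (m + 1) ≤ 1 := by rw [div_le_one hm1]; linarith
    have h3 := hG (m + 1)
    push_cast at h3
    have h4 : 1 / ((m : ℝ) + 1) * ‖G e es k x (m + 1)‖ ≤ κ * ‖x‖ := by
      rw [one_div, inv_mul_le_iff₀ hm1]
      exact h3
    have h5 : (m : ℝ) / (m + 1) * ‖Ces e es k x m‖ ≤ 1 * ‖Ces e es k x m‖ := by gcongr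
    linarith
  intro m
  induction m using Nat.strong_induction_on with
  | _ m ih =>
    rcases Nat.even_or_odd' m with ⟨j, hj | hj⟩
    · rcases Nat.eq_zero_or_pos j with h0 | h0
      · have : m = 0 := by omega
        subst this
        simp only [Ces, Finset.range_zero, Finset.sum_empty, smul_zero, norm_zero]
        positivity
      · have h1 := heven j
        have h2 := ih j (by omega)
        rw [← hj] at h1
        linarith
    · rcases Nat.eq_zero_or_pos j with h0 | h0
      · have : m = 1 := by omega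
        subst this
        have h1 := hsucc 0
        have h2 : ‖Ces e es k x 0‖ = 0 := by
          simp only [Ces, Finset.range_zero, Finset.sum_empty, smul_zero, norm_zero]
        rw [h2] at h1
        simp only [zero_add] at h1
        linarith
      · have h1 := heven j
        have h2 := ih j (by omega)
        have h3 := hsucc (2 * j)
        rw [← hj] at h3
        linarith

end Q101.Cqg
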