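import Pool.Agent.Q101.LatLift

set_option autoImplicit false
set_option linter.unusedSectionVars false

open Filter Topology

namespace Q101.CutOff

open Q101.LatLift

universe u'

section Basic

variable {X : Type u'} [NormedAddCommGroup X] [NormedSpace ℝ X] [Lattice X]
  [IsOrderedAddMonoid X] [IsOrderedModule ℝ X] [HasSolidNorm X]

/-- the basic truncation -/
noncomputable def tm (u v x : X) (k s : ℝ) : X := x ⊓ (k • ((s • u - v) ⊔ 0))

theorem tm_nonneg {u v x : X} (hx : 0 ≤ x) {k : ℝ} (hk : 0 ≤ k) (s : ℝ) : 0 ≤ tm u v x k s :=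
  le_inf hx (smul_nonneg hk le_sup_right)

theorem tm_le (u v x : X) (k s : ℝ) : tm u v x k s ≤ x := inf_le_left

theorem tm_mono_k {u v x : X} {k k' : ℝ} (h : k ≤ k') (s : ℝ) : tm u v x k s ≤ tm u v x k' s :=
  inf_le_inf_left _ (smul_le_smul_of_nonneg_right h le_sup_right)

theorem tm_mono_s {u v x : X} (hu : 0 ≤ u) {k : ℝ} (hk : 0 ≤ k) {s s' : ℝ} (h : s ≤ s') :
    tm u v x k s ≤ tm u v x k s' := by
  refine inf_le_inf_left _ (smul_le_smul_of_nonneg_left (sup_le_sup_right ?_ _) hk)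
  exact sub_le_sub_right (smul_le_smul_of_nonneg_right h hu) _

theorem tm_mono_x {u v x y : X} (h : x ≤ y) (k s : ℝ) : tm u v x k s ≤ tm u v y k s :=
  inf_le_inf_right _ h

theorem tm_anti_v {u v v' x : X} (h : v ≤ v') {k : ℝ} (hk : 0 ≤ k) (s : ℝ) :
    tm u v' x k s ≤ tm u v x k s :=
  inf_le_inf_left _ (smul_le_smul_of_nonneg_left (sup_le_sup_right (sub_le_sub_left h _) _) hk)

theorem tm_lip (u v x y : X) (k s : ℝ) : |tm u v x k s - tm u v y k s| ≤ |x - y| :=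
  abs_inf_sub_inf_le_abs x y _

theorem tm_add_le {u v x y : X} (hx : 0 ≤ x) (hy : 0 ≤ y) {k : ℝ} (hk : 0 ≤ k) (s : ℝ) :
    tm u v (x + y) k s ≤ tm u v x k s + tm u v y k s := by
  unfold tm
  rw [inf_comm, inf_comm x, inf_comm y]
  exact inf_add_le (smul_nonneg hk le_sup_right) hx hy

theorem le_tm_add (u v x y : X) (k s : ℝ) :
    tm u v x k s + tm u v y k s ≤ tm u v (x + y) (k + k) s := by
  refine le_inf (add_le_add (tm_le _ _ _ _ _) (tm_le _ _ _ _ _)) ?_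
  rw [add_smul]
  exact add_le_add inf_le_right inf_le_right

theorem disj_smul_smul {a b : X} (ha : 0 ≤ a) (hb : 0 ≤ b) (h : a ⊓ b = 0) {r s : ℝ} (hr : 0 ≤ r)
    (hs : 0 ≤ s) : (r • a) ⊓ (s • b) = 0 := by
  have h1 := disj_smul ha hb h hs
  rw [inf_comm] at h1
  rw [inf_comm]
  exact disj_smul (smul_nonneg hs hb) ha h1 hr

theorem tm_shift {u v x : X} (hx : 0 ≤ x) {C k k' δ : ℝ} (hxC : x ≤ C • u)
    (hu : 0 ≤ u) (hk : 0 ≤ k) (hk' : 0 ≤ k') (hC : C ≤ k * δ) (s : ℝ) :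
    tm u v x k' s ≤ tm u v x k (s + δ) := by
  refine le_inf (tm_le _ _ _ _ _) ?_
  set a := s • u - v with ha
  set w := tm u v x k' s with hw
  have hw0 : 0 ≤ w := tm_nonneg hx hk' s
  have hw1 : w ≤ k' • (a ⊔ 0) := inf_le_right
  have hw2 : w ≤ (k * δ) • u :=
    (tm_le _ _ _ _ _).trans (hxC.trans (smul_le_smul_of_nonneg_right hC hu))
  have hd : (a ⊔ 0) ⊓ (-a ⊔ 0) = 0 := posPart_inf_negPart_eq_zero a
  have hd2 : w ⊓ (k • (-a ⊔ 0)) = 0 := by
    refine le_antisymm ?_ (le_inf hw0 (smul_nonneg hk le_sup_right))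
    exact (inf_le_inf_right _ hw1).trans
      (le_of_eq (disj_smul_smul le_sup_right le_sup_right hd hk' hk))
  have h1 : (w - k • (-a ⊔ 0)) ⊔ 0 = w := posPart_sub_of_disj hd2
  have h2 : (s + δ) • u - v = a + δ • u := by rw [ha, add_smul]; abel
  rw [h2, ← h1]
  refine sup_le ?_ (smul_nonneg hk le_sup_right)
  refine le_trans ?_ (smul_le_smul_of_nonneg_left le_sup_left hk)
  have h3 : a = (a ⊔ 0) - (-a ⊔ 0) := (posPart_sub_negPart a).symm
  have h4 : k • (a + δ • u) = k • (a ⊔ 0) - k • (-a ⊔ 0) + (k * δ) • u := by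
    rw [smul_add, smul_smul]
    conv_lhs => rw [h3]
    rw [smul_sub]
  rw [h4]
  have h5 : 0 ≤ k • (a ⊔ 0) := smul_nonneg hk le_sup_right
  have h6 : k • (a ⊔ 0) - k • (-a ⊔ 0) + (k * δ) • u =
      (k • (a ⊔ 0) + ((k * δ) • u - w)) + (w - k • (-a ⊔ 0)) := by abel
  rw [h6]
  exact le_add_of_nonneg_left (add_nonneg h5 (sub_nonneg.2 hw2))

/-- averages of truncations -/
noncomputable def R (u v x : X) (N : ℕ) (k : ℝ) : X :=
  (N : ℝ)⁻¹ • ∑ i ∈ Finset.range N, tm u v x k (((i : ℝ) + 1) / N)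

theorem smul_sum_le {N : ℕ} {f : ℕ → X} {x : X} (hf : ∀ i < N, f i ≤ x) (hx : 0 ≤ x) :
    (N : ℝ)⁻¹ • ∑ i ∈ Finset.range N, f i ≤ x := by
  rcases N.eq_zero_or_pos with rfl | hN
  · simpa using hx
  have h1 : ∑ i ∈ Finset.range N, f i ≤ ∑ _i ∈ Finset.range N, x :=
    Finset.sum_le_sum fun i hi => hf i (Finset.mem_range.1 hi)
  rw [Finset.sum_const, Finset.card_range, ← Nat.cast_smul_eq_nsmul ℝ] at h1
  have h2 := smul_le_smul_of_nonneg_left h1 (show (0 : ℝ) ≤ (N : ℝ)⁻¹ by positivity)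
  rwa [smul_smul, inv_mul_cancel₀ (by positivity), one_smul] at h2

theorem R_nonneg {u v x : X} (hx : 0 ≤ x) (N : ℕ) {k : ℝ} (hk : 0 ≤ k) : 0 ≤ R u v x N k :=
  smul_nonneg (by positivity) (Finset.sum_nonneg fun _ _ => tm_nonneg hx hk _)

theorem R_le {u v x : X} (hx : 0 ≤ x) (N : ℕ) (k : ℝ) : R u v x N k ≤ x :=
  smul_sum_le (fun _ _ => tm_le _ _ _ _ _) hx

theorem R_mono_x {u v x y : X} (h : x ≤ y) (N : ℕ) (k : ℝ) : R u v x N k ≤ R u v y N k :=
  smul_le_smul_of_nonneg_left (Finset.sum_le_sum fun _ _ => tm_mono_x h _ _) (by positivity)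

theorem R_anti_v {u v v' x : X} (h : v ≤ v') (N : ℕ) {k : ℝ} (hk : 0 ≤ k) :
    R u v' x N k ≤ R u v x N k :=
  smul_le_smul_of_nonneg_left (Finset.sum_le_sum fun _ _ => tm_anti_v h hk _) (by positivity)

theorem R_add_le {u v x y : X} (hx : 0 ≤ x) (hy : 0 ≤ y) (N : ℕ) {k : ℝ} (hk : 0 ≤ k) :
    R u v (x + y) N k ≤ R u v x N k + R u v y N k := by
  unfold R
  rw [← smul_add, ← Finset.sum_add_distrib]
  exact smul_le_smul_of_nonneg_left (Finset.sum_le_sum fun _ _ => tm_add_le hx hy hk _)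
    (by positivity)

theorem le_R_add (u v x y : X) (N : ℕ) (k : ℝ) :
    R u v x N k + R u v y N k ≤ R u v (x + y) N (k + k) := by
  unfold R
  rw [← smul_add, ← Finset.sum_add_distrib]
  exact smul_le_smul_of_nonneg_left (Finset.sum_le_sum fun _ _ => le_tm_add _ _ _ _ _ _)
    (by positivity)

theorem R_lip (u v x y : X) (N : ℕ) (k : ℝ) : ‖R u v x N k - R u v y N k‖ ≤ ‖x - y‖ := by
  rcases N.eq_zero_or_pos with rfl | hN
  · simp [R]
  unfold R
  rw [← smul_sub, ← Finset.sum_sub_distrib, norm_smul, norm_inv,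
    Real.norm_of_nonneg (Nat.cast_nonneg _)]
  rw [inv_mul_le_iff₀ (by positivity)]
  refine (norm_sum_le _ _).trans ?_
  refine (Finset.sum_le_sum fun i _ => HasSolidNorm.solid (tm_lip u v x y k _)).trans ?_
  simp

/-- the shifted average -/
theorem R_shift {u v x : X} (hx : 0 ≤ x) (hu : 0 ≤ u) {C k k' : ℝ} {N : ℕ} (hN : 0 < N)
    (hxC : x ≤ C • u) (hk : 0 ≤ k) (hk' : 0 ≤ k') (hC : C * N ≤ k) :
    (N : ℝ)⁻¹ • ∑ i ∈ Finset.range N, tm u v x k' (((i : ℝ) + 1) / N) ≤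
      R u v x N k + (N : ℝ)⁻¹ • x := by
  have hN' : (0 : ℝ) < N := by exact_mod_cast hN
  unfold R
  rw [← smul_add]
  refine smul_le_smul_of_nonneg_left ?_ (by positivity)
  have h1 : ∀ i : ℕ, tm u v x k' (((i : ℝ) + 1) / N) ≤ tm u v x k ((((i + 1 : ℕ) : ℝ) + 1) / N) := by
    intro i
    have h2 : (((i + 1 : ℕ) : ℝ) + 1) / N = ((i : ℝ) + 1) / N + 1 / N := by push_cast; ring
    rw [h2]
    refine tm_shift hx hxC hu hk hk' ?_ _
    rw [mul_one_div, le_div_iff₀ hN']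
    exact hC
  refine (Finset.sum_le_sum fun i _ => h1 i).trans ?_
  have h3 := Finset.sum_range_succ' (fun i : ℕ => tm u v x k (((i : ℝ) + 1) / N)) N
  have h4 := Finset.sum_range_succ (fun i : ℕ => tm u v x k (((i : ℝ) + 1) / N)) N
  have h5 : ∑ i ∈ Finset.range N, tm u v x k ((((i + 1 : ℕ) : ℝ) + 1) / N) ≤
      ∑ i ∈ Finset.range (N + 1), tm u v x k (((i : ℝ) + 1) / N) := by
    rw [h3]
    exact le_add_of_nonneg_right (tm_nonneg hx hk _)
  refine h5.trans ?_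
  rw [h4]
  exact add_le_add_right (tm_le _ _ _ _ _) _

theorem sum_two_mul (f : ℕ → X) (N : ℕ) :
    ∑ i ∈ Finset.range (2 * N), f i = ∑ i ∈ Finset.range N, (f (2 * i) + f (2 * i + 1)) := by
  induction N with
  | zero => simp
  | succ N ih =>
    rw [Nat.mul_succ, Finset.sum_range_succ, Finset.sum_range_succ, ih,
      Finset.sum_range_succ, add_assoc]

/-- refinement of the grid, upper estimate -/
theorem R_two_le {u v x : X} (hx : 0 ≤ x) (hu : 0 ≤ u) {C k k' : ℝ} {N : ℕ} (hN : 0 < N)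
    (hxC : x ≤ C • u) (hk : 0 ≤ k) (hk' : 0 ≤ k') (hC : C * N ≤ k) :
    R u v x (2 * N) k' ≤ R u v x N k + (N : ℝ)⁻¹ • x := by
  have hN' : (0 : ℝ) < N := by exact_mod_cast hN
  refine le_trans ?_ (R_shift hx hu hN hxC hk hk' hC)
  unfold R
  rw [sum_two_mul]
  have h1 : ∀ i ∈ Finset.range N, tm u v x k' ((((2 * i : ℕ) : ℝ) + 1) / ((2 * N : ℕ) : ℝ)) +
      tm u v x k' ((((2 * i + 1 : ℕ) : ℝ) + 1) / ((2 * N : ℕ) : ℝ)) ≤
      (2 : ℝ) • tm u v x k' (((i : ℝ) + 1) / N) := by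
    intro i _
    rw [two_smul]
    refine add_le_add (tm_mono_s hu hk' ?_) (tm_mono_s hu hk' ?_)
    · rw [div_le_div_iff₀ (by positivity) hN']
      push_cast
      nlinarith
    · rw [div_le_div_iff₀ (by positivity) hN']
      push_cast
      nlinarith
  have h2 := Finset.sum_le_sum h1
  have h3 := smul_le_smul_of_nonneg_left h2 (show (0 : ℝ) ≤ (((2 * N : ℕ) : ℝ))⁻¹ by positivity)
  refine h3.trans (le_of_eq ?_)
  rw [← Finset.smul_sum, smul_smul]
  congr 1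
  push_cast
  field_simp

/-- refinement of the grid, lower estimate -/
theorem le_R_two {u v x : X} (hx : 0 ≤ x) (hu : 0 ≤ u) {k k' : ℝ} {N : ℕ} (hN : 0 < N)
    (hk : 0 ≤ k) (hkk : k ≤ k') :
    R u v x N k ≤ R u v x (2 * N) k' + (N : ℝ)⁻¹ • x := by
  have hN' : (0 : ℝ) < N := by exact_mod_cast hN
  have hk' : 0 ≤ k' := hk.trans hkk
  obtain ⟨M, rfl⟩ : ∃ M, N = M + 1 := ⟨N - 1, by omega⟩
  set f : ℕ → X := fun i => tm u v x k' (((i : ℝ) + 1) / ((2 * (M + 1) : ℕ) : ℝ)) with hf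
  have hf0 : ∀ i, 0 ≤ f i := fun i => tm_nonneg hx hk' _
  have h1 : ∀ i ∈ Finset.range M, (2 : ℝ) • tm u v x k (((i : ℝ) + 1) / ((M + 1 : ℕ) : ℝ)) ≤
      f (2 * (i + 1)) + f (2 * (i + 1) + 1) := by
    intro i _
    rw [two_smul]
    refine add_le_add ((tm_mono_k hkk _).trans (tm_mono_s hu hk' ?_))
      ((tm_mono_k hkk _).trans (tm_mono_s hu hk' ?_))
    · rw [div_le_div_iff₀ hN' (by positivity)]
      push_cast
      nlinarith
    · rw [div_le_div_iff₀ hN' (by positivity)]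
      push_cast
      nlinarith
  have h2 := Finset.sum_le_sum h1
  have h3 : ∑ i ∈ Finset.range M, (f (2 * (i + 1)) + f (2 * (i + 1) + 1)) ≤
      ∑ i ∈ Finset.range (2 * (M + 1)), f i := by
    rw [sum_two_mul, Finset.sum_range_succ']
    exact le_add_of_nonneg_right (add_nonneg (hf0 _) (hf0 _))
  have h4 : ((2 * (M + 1) : ℕ) : ℝ)⁻¹ •
      ∑ i ∈ Finset.range M, (2 : ℝ) • tm u v x k (((i : ℝ) + 1) / ((M + 1 : ℕ) : ℝ)) ≤
      R u v x (2 * (M + 1)) k' :=
    smul_le_smul_of_nonneg_left (h2.trans h3) (by positivity)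
  have h5 : ((2 * (M + 1) : ℕ) : ℝ)⁻¹ •
      ∑ i ∈ Finset.range M, (2 : ℝ) • tm u v x k (((i : ℝ) + 1) / ((M + 1 : ℕ) : ℝ)) =
      ((M + 1 : ℕ) : ℝ)⁻¹ •
        ∑ i ∈ Finset.range M, tm u v x k (((i : ℝ) + 1) / ((M + 1 : ℕ) : ℝ)) := by
    rw [← Finset.smul_sum, smul_smul]
    congr 1
    push_cast
    field_simp
  rw [h5] at h4
  have h6 : R u v x (M + 1) k = ((M + 1 : ℕ) : ℝ)⁻¹ •
      ∑ i ∈ Finset.range M, tm u v x k (((i : ℝ) + 1) / ((M + 1 : ℕ) : ℝ)) +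
      ((M + 1 : ℕ) : ℝ)⁻¹ • tm u v x k (((M : ℝ) + 1) / ((M + 1 : ℕ) : ℝ)) := by
    unfold R
    rw [Finset.sum_range_succ, smul_add]
  rw [h6]
  exact add_le_add h4 (smul_le_smul_of_nonneg_left (tm_le _ _ _ _ _) (by positivity))

end Basic

section Limit

variable {X : Type u'} [NormedAddCommGroup X] [NormedSpace ℝ X] [CompleteSpace X] [Lattice X]
  [IsOrderedAddMonoid X] [IsOrderedModule ℝ X] [HasSolidNorm X]

/-- `u` is a quasi-interior point of the positive cone -/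
structure IsUnit' (u : X) : Prop where
  nonneg : 0 ≤ u
  approx : ∀ x : X, 0 ≤ x → ∀ ε : ℝ, 0 < ε → ∃ C : ℝ, 0 ≤ C ∧ ‖x - x ⊓ (C • u)‖ < ε

/-- the approximating averages -/
noncomputable def S (u v : X) (m : ℕ) (x : X) : X := R u v x (2 ^ m) (4 ^ m)

theorem S_nonneg {u v x : X} (hx : 0 ≤ x) (m : ℕ) : 0 ≤ S u v m x := R_nonneg hx _ (by positivity)
theorem S_le {u v x : X} (hx : 0 ≤ x) (m : ℕ) : S u v m x ≤ x := R_le hx _ _
theorem S_lip (u v x y : X) (m : ℕ) : ‖S u v m x - S u v m y‖ ≤ ‖x - y‖ := R_lip _ _ _ _ _ _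

theorem pow_fact {C : ℝ} {m : ℕ} (h : C ≤ 2 ^ m) : C * ((2 ^ m : ℕ) : ℝ) ≤ 4 ^ m := by
  push_cast
  have : (4 : ℝ) ^ m = 2 ^ m * 2 ^ m := by rw [← mul_pow]; norm_num
  rw [this]
  exact mul_le_mul_of_nonneg_right h (by positivity)

theorem S_step {u v x : X} (hx : 0 ≤ x) (hu : 0 ≤ u) {C : ℝ} (hxC : x ≤ C • u) {m : ℕ}
    (hm : C ≤ 2 ^ m) : ‖S u v (m + 1) x - S u v m x‖ ≤ (1 / 2) ^ m * ‖x‖ := by
  have h1 : S u v (m + 1) x = R u v x (2 * 2 ^ m) (4 ^ (m + 1)) := by unfold S; rw [pow_succ']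
  have hN : 0 < 2 ^ m := by positivity
  have h2 := R_two_le (v := v) (k' := 4 ^ (m + 1)) hx hu hN hxC (by positivity) (by positivity)
    (pow_fact hm)
  have h3 := le_R_two (v := v) (k := 4 ^ m) (k' := 4 ^ (m + 1)) hx hu hN (by positivity)
    (pow_le_pow_right₀ (by norm_num) (Nat.le_succ m))
  have h4 : |S u v (m + 1) x - S u v m x| ≤ ((2 ^ m : ℕ) : ℝ)⁻¹ • x := by
    rw [h1]
    refine abs_le'.2 ⟨?_, ?_⟩
    · exact sub_le_iff_le_add'.2 h2
    · rw [neg_sub]; exact sub_le_iff_le_add'.2 h3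
  have h5 : ‖S u v (m + 1) x - S u v m x‖ ≤ ‖((2 ^ m : ℕ) : ℝ)⁻¹ • x‖ :=
    HasSolidNorm.solid (h4.trans (le_abs_self _))
  refine h5.trans (le_of_eq ?_)
  rw [norm_smul, norm_inv, Real.norm_of_nonneg (Nat.cast_nonneg _)]
  push_cast
  rw [one_div, inv_pow]

theorem cauchy_bdd {u v x : X} (hx : 0 ≤ x) (hu : 0 ≤ u) {C : ℝ} (hxC : x ≤ C • u) :
    CauchySeq fun m => S u v m x := by
  obtain ⟨m₀, hm₀⟩ := pow_unbounded_of_one_lt C (one_lt_two)
  rw [← cauchySeq_shift m₀]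
  refine cauchySeq_of_le_geometric (1 / 2) ‖x‖ (by norm_num) fun n => ?_
  rw [dist_comm, dist_eq_norm]
  have h1 : n + 1 + m₀ = (n + m₀) + 1 := by omega
  rw [h1]
  refine (S_step (m := n + m₀) hx hu hxC (hm₀.le.trans ?_)).trans ?_
  · exact pow_le_pow_right₀ (by norm_num) (by omega)
  · rw [mul_comm]
    refine mul_le_mul_of_nonneg_left ?_ (norm_nonneg _)
    exact pow_le_pow_of_le_one (by norm_num) (by norm_num) (by omega)

theorem cauchy {u v x : X} (hx : 0 ≤ x) (hu : IsUnit' u) : CauchySeq fun m => S u v m x := by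
  rw [Metric.cauchySeq_iff]
  intro ε hε
  obtain ⟨C, hC, hCx⟩ := hu.approx x hx (ε / 3) (by positivity)
  have hy : 0 ≤ x ⊓ (C • u) := le_inf hx (smul_nonneg hC hu.nonneg)
  obtain ⟨N, hN⟩ := Metric.cauchySeq_iff.1 (cauchy_bdd (v := v) hy hu.nonneg inf_le_right) (ε / 3)
    (by positivity)
  refine ⟨N, fun m hm n hn => ?_⟩
  have h1 := hN m hm n hn
  rw [dist_eq_norm] at h1 ⊢
  have h2 := (S_lip u v x (x ⊓ (C • u)) m).trans_lt hCx
  have h3 := (S_lip u v x (x ⊓ (C • u)) n).trans_lt hCx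
  have h4 : S u v m x - S u v n x = (S u v m x - S u v m (x ⊓ (C • u))) +
      (S u v m (x ⊓ (C • u)) - S u v n (x ⊓ (C • u))) -
      (S u v n x - S u v n (x ⊓ (C • u))) := by abel
  rw [h4]
  have h5 := norm_sub_le ((S u v m x - S u v m (x ⊓ (C • u))) +
      (S u v m (x ⊓ (C • u)) - S u v n (x ⊓ (C • u)))) (S u v n x - S u v n (x ⊓ (C • u)))
  have h6 := norm_add_le (S u v m x - S u v m (x ⊓ (C • u)))
    (S u v m (x ⊓ (C • u)) - S u v n (x ⊓ (C • u)))
  linarith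

/-- the cut-off on the positive cone -/
noncomputable def M (u v x : X) : X := limUnder atTop fun m => S u v m x

theorem M_tendsto {u v x : X} (hx : 0 ≤ x) (hu : IsUnit' u) :
    Tendsto (fun m => S u v m x) atTop (𝓝 (M u v x)) :=
  (cauchy hx hu).tendsto_limUnder

theorem M_nonneg {u v x : X} (hx : 0 ≤ x) (hu : IsUnit' u) : 0 ≤ M u v x :=
  ge_of_tendsto' (M_tendsto hx hu) fun m => S_nonneg hx m

theorem M_le {u v x : X} (hx : 0 ≤ x) (hu : IsUnit' u) : M u v x ≤ x :=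
  le_of_tendsto' (M_tendsto hx hu) fun m => S_le hx m

theorem M_lip {u v x y : X} (hx : 0 ≤ x) (hy : 0 ≤ y) (hu : IsUnit' u) :
    ‖M u v x - M u v y‖ ≤ ‖x - y‖ :=
  le_of_tendsto' ((M_tendsto hx hu).sub (M_tendsto hy hu)).norm fun m => S_lip u v x y m

theorem M_mono {u v x y : X} (hx : 0 ≤ x) (hxy : x ≤ y) (hu : IsUnit' u) :
    M u v x ≤ M u v y :=
  le_of_tendsto_of_tendsto' (M_tendsto hx hu) (M_tendsto (hx.trans hxy) hu)
    fun _ => R_mono_x hxy _ _

theorem M_anti_v {u v v' x : X} (hx : 0 ≤ x) (h : v ≤ v') (hu : IsUnit' u) :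
    M u v' x ≤ M u v x :=
  le_of_tendsto_of_tendsto' (M_tendsto hx hu) (M_tendsto hx hu)
    fun _ => R_anti_v h _ (by positivity)

theorem M_add_le {u v x y : X} (hx : 0 ≤ x) (hy : 0 ≤ y) (hu : IsUnit' u) :
    M u v (x + y) ≤ M u v x + M u v y :=
  le_of_tendsto_of_tendsto' (M_tendsto (add_nonneg hx hy) hu)
    ((M_tendsto hx hu).add (M_tendsto hy hu)) fun _ => R_add_le hx hy _ (by positivity)

theorem le_M_add_bdd {u v x y : X} (hx : 0 ≤ x) (hy : 0 ≤ y) (hu : IsUnit' u) {C : ℝ}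
    (hC : x + y ≤ C • u) : M u v x + M u v y ≤ M u v (x + y) := by
  have h1 : Tendsto (fun m => S u v m (x + y) + ((2 ^ m : ℕ) : ℝ)⁻¹ • (x + y)) atTop
      (𝓝 (M u v (x + y))) := by
    have h2 : Tendsto (fun m : ℕ => ((2 ^ m : ℕ) : ℝ)⁻¹ • (x + y)) atTop (𝓝 0) := by
      have h3 : Tendsto (fun m : ℕ => ((1 / 2 : ℝ)) ^ m) atTop (𝓝 0) :=
        tendsto_pow_atTop_nhds_zero_of_lt_one (by norm_num) (by norm_num)
      have h4 := h3.smul_const (x + y)
      rw [zero_smul] at h4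
      refine h4.congr fun m => ?_
      push_cast
      rw [one_div, inv_pow]
    have := (M_tendsto (v := v) (add_nonneg hx hy) hu).add h2
    rwa [add_zero] at this
  refine le_of_tendsto_of_tendsto ((M_tendsto hx hu).add (M_tendsto hy hu)) h1 ?_
  obtain ⟨m₀, hm₀⟩ := pow_unbounded_of_one_lt C (one_lt_two)
  filter_upwards [eventually_ge_atTop m₀] with m hm
  have h5 := le_R_add u v x y (2 ^ m) (4 ^ m)
  refine h5.trans ?_
  have hCm : C ≤ 2 ^ m := hm₀.le.trans (pow_le_pow_right₀ (by norm_num) hm)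
  exact R_shift (add_nonneg hx hy) hu.nonneg (by positivity) hC (by positivity) (by positivity)
    (pow_fact hCm)

theorem M_add {u v x y : X} (hx : 0 ≤ x) (hy : 0 ≤ y) (hu : IsUnit' u) :
    M u v (x + y) = M u v x + M u v y := by
  refine le_antisymm (M_add_le hx hy hu) ?_
  -- reduce to bounded elements
  rw [← sub_nonneg]
  have key : ∀ ε : ℝ, 0 < ε → ∃ z : X, 0 ≤ z ∧ ‖(M u v (x + y) - (M u v x + M u v y)) - z‖ ≤ ε := by
    intro ε hε
    obtain ⟨C, hC, hCx⟩ := hu.approx x hx (ε / 4) (by positivity)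
    obtain ⟨D, hD, hDy⟩ := hu.approx y hy (ε / 4) (by positivity)
    set x' := x ⊓ (C • u)
    set y' := y ⊓ (D • u)
    have hx' : 0 ≤ x' := le_inf hx (smul_nonneg hC hu.nonneg)
    have hy' : 0 ≤ y' := le_inf hy (smul_nonneg hD hu.nonneg)
    have h1 : x' + y' ≤ (C + D) • u := by
      rw [add_smul]; exact add_le_add inf_le_right inf_le_right
    refine ⟨M u v (x' + y') - (M u v x' + M u v y'), sub_nonneg.2 (le_M_add_bdd hx' hy' hu h1), ?_⟩
    have e1 := M_lip (v := v) hx hx' hu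
    have e2 := M_lip (v := v) hy hy' hu
    have e3 := M_lip (v := v) (add_nonneg hx hy) (add_nonneg hx' hy') hu
    have e4 : ‖(x + y) - (x' + y')‖ ≤ ‖x - x'‖ + ‖y - y'‖ := by
      rw [add_sub_add_comm]; exact norm_add_le _ _
    have e5 : M u v (x + y) - (M u v x + M u v y) - (M u v (x' + y') - (M u v x' + M u v y')) =
        (M u v (x + y) - M u v (x' + y')) - ((M u v x - M u v x') + (M u v y - M u v y')) := by
      abel
    rw [e5]
    have e6 := norm_sub_le (M u v (x + y) - M u v (x' + y'))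
      ((M u v x - M u v x') + (M u v y - M u v y'))
    have e7 := norm_add_le (M u v x - M u v x') (M u v y - M u v y')
    linarith
  choose! z hz0 hz using key
  have h1 : Tendsto (fun n : ℕ => z (1 / ((n : ℝ) + 1))) atTop
      (𝓝 (M u v (x + y) - (M u v x + M u v y))) := by
    rw [tendsto_iff_norm_sub_tendsto_zero]
    refine squeeze_zero (fun _ => norm_nonneg _) (fun n => ?_)
      tendsto_one_div_add_atTop_nhds_zero_nat
    rw [norm_sub_rev]
    exact hz _ (by positivity)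
  exact ge_of_tendsto' h1 fun n => hz0 _ (by positivity)

theorem M_zero (u v : X) (hu : IsUnit' u) : M u v 0 = 0 :=
  le_antisymm (M_le le_rfl hu) (M_nonneg le_rfl hu)

/-- the cut-off operator as an additive map -/
noncomputable def F0 (u v : X) (hu : IsUnit' u) : X →+ X where
  toFun x := M u v (x ⊔ 0) - M u v (-x ⊔ 0)
  map_zero' := by rw [neg_zero, sub_self]
  map_add' x y := by
    have h1 : ∀ z : X, z ⊔ 0 - (-z ⊔ 0) = z := fun z => posPart_sub_negPart z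
    have h2 : (x + y) ⊔ 0 + ((-x ⊔ 0) + (-y ⊔ 0)) = (-(x + y) ⊔ 0) + ((x ⊔ 0) + (y ⊔ 0)) := by
      have e1 := h1 (x + y)
      have e2 := h1 x
      have e3 := h1 y
      have e4 : (x + y) ⊔ 0 - (-(x + y) ⊔ 0) = (x ⊔ 0 - (-x ⊔ 0)) + (y ⊔ 0 - (-y ⊔ 0)) := by
        rw [e1, e2, e3]
      generalize (x + y) ⊔ 0 = p at e4 ⊢
      generalize -(x + y) ⊔ 0 = q at e4 ⊢
      generalize x ⊔ 0 = a at e4 ⊢
      generalize -x ⊔ 0 = b at e4 ⊢
      generalize y ⊔ 0 = c at e4 ⊢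
      generalize -y ⊔ 0 = d at e4 ⊢
      calc p + (b + d) = (p - q) + q + (b + d) := by abel
        _ = ((a - b) + (c - d)) + q + (b + d) := by rw [e4]
        _ = q + (a + c) := by abel
    have h3 := congrArg (M u v) h2
    rw [M_add le_sup_right (add_nonneg le_sup_right le_sup_right) hu,
      M_add le_sup_right (add_nonneg le_sup_right le_sup_right) hu,
      M_add le_sup_right le_sup_right hu, M_add le_sup_right le_sup_right hu] at h3
    generalize M u v ((x + y) ⊔ 0) = p at h3 ⊢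
    generalize M u v (-(x + y) ⊔ 0) = q at h3 ⊢
    generalize M u v (x ⊔ 0) = a at h3 ⊢
    generalize M u v (-x ⊔ 0) = b at h3 ⊢
    generalize M u v (y ⊔ 0) = c at h3 ⊢
    generalize M u v (-y ⊔ 0) = d at h3 ⊢
    calc p - q = p + (b + d) - (q + (b + d)) := by abel
      _ = q + (a + c) - (q + (b + d)) := by rw [h3]
      _ = (a - b) + (c - d) := by abel

theorem F0_lip (u v : X) (hu : IsUnit' u) (x : X) : ‖F0 u v hu x‖ ≤ ‖x‖ := by
  show ‖M u v (x ⊔ 0) - M u v (-x ⊔ 0)‖ ≤ ‖x‖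
  refine HasSolidNorm.solid ?_
  have h1 : M u v (x ⊔ 0) ⊓ M u v (-x ⊔ 0) = 0 := by
    refine le_antisymm ?_ (le_inf (M_nonneg le_sup_right hu) (M_nonneg le_sup_right hu))
    exact (inf_le_inf (M_le le_sup_right hu) (M_le le_sup_right hu)).trans
      (posPart_inf_negPart_eq_zero x).le
  rw [abs_sub_of_disj h1]
  calc M u v (x ⊔ 0) + M u v (-x ⊔ 0) ≤ (x ⊔ 0) + (-x ⊔ 0) :=
        add_le_add (M_le le_sup_right hu) (M_le le_sup_right hu)
    _ = |x| := posPart_add_negPart x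

/-- the cut-off operator -/
noncomputable def F (u v : X) (hu : IsUnit' u) : X →L[ℝ] X :=
  (F0 u v hu).toRealLinearMap
    (AddMonoidHomClass.continuous_of_bound (F0 u v hu) 1 fun x => by
      rw [one_mul]; exact F0_lip u v hu x)

theorem F_apply (u v : X) (hu : IsUnit' u) (x : X) :
    F u v hu x = M u v (x ⊔ 0) - M u v (-x ⊔ 0) := rfl

theorem norm_F_le (u v : X) (hu : IsUnit' u) (x : X) : ‖F u v hu x‖ ≤ ‖x‖ := F0_lip u v hu x

theorem F_of_nonneg {u v : X} (hu : IsUnit' u) {x : X} (hx : 0 ≤ x) : F u v hu x = M u v x := by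
  rw [F_apply, sup_eq_left.2 hx, sup_eq_right.2 (neg_nonpos.2 hx), M_zero u v hu, sub_zero]

theorem F_abs (u v : X) (hu : IsUnit' u) (x : X) : F u v hu |x| = |F u v hu x| := by
  have h1 : M u v (x ⊔ 0) ⊓ M u v (-x ⊔ 0) = 0 := by
    refine le_antisymm ?_ (le_inf (M_nonneg le_sup_right hu) (M_nonneg le_sup_right hu))
    exact (inf_le_inf (M_le le_sup_right hu) (M_le le_sup_right hu)).trans
      (posPart_inf_negPart_eq_zero x).le
  rw [F_of_nonneg hu (abs_nonneg x), F_apply, abs_sub_of_disj h1,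
    ← M_add le_sup_right le_sup_right hu]
  congr 1
  exact (posPart_add_negPart x).symm

/-- the cut-off kills what lives where `v > u` -/
theorem F_kill {u v : X} (hu : IsUnit' u) {x : X} {c : ℝ} (hc : 0 ≤ c)
    (hx : |x| ≤ c • ((v - u) ⊔ 0)) : F u v hu x = 0 := by
  have h0 : ∀ m, S u v m |x| = 0 := by
    intro m
    unfold S R
    rw [Finset.sum_eq_zero, smul_zero]
    intro i hi
    refine le_antisymm ?_ (tm_nonneg (abs_nonneg x) (by positivity) _)
    have h1 : ((u - v) ⊔ 0) ⊓ ((v - u) ⊔ 0) = 0 := by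
      have := posPart_inf_negPart_eq_zero (u - v)
      rw [negPart_def, neg_sub] at this
      exact this
    have h2 : (((i : ℝ) + 1) / ((2 ^ m : ℕ) : ℝ)) • u - v ≤ u - v := by
      refine sub_le_sub_right ?_ _
      have h3 : ((i : ℝ) + 1) / ((2 ^ m : ℕ) : ℝ) ≤ 1 := by
        rw [div_le_one (by positivity)]
        have := Finset.mem_range.1 hi
        exact_mod_cast this
      calc (((i : ℝ) + 1) / ((2 ^ m : ℕ) : ℝ)) • u ≤ (1 : ℝ) • u :=
            smul_le_smul_of_nonneg_right h3 hu.nonneg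
        _ = u := one_smul _ _
    have h4 : tm u v |x| (4 ^ m) (((i : ℝ) + 1) / ((2 ^ m : ℕ) : ℝ)) ≤
        (c • ((v - u) ⊔ 0)) ⊓ ((4 : ℝ) ^ m • ((u - v) ⊔ 0)) :=
      inf_le_inf hx (smul_le_smul_of_nonneg_left (sup_le_sup_right h2 _) (by positivity))
    refine h4.trans (le_of_eq ?_)
    rw [inf_comm] at h1
    exact disj_smul_smul le_sup_right le_sup_right h1 hc (by positivity)
  have h1 : M u v |x| = 0 := by
    have h2 := M_tendsto (v := v) (abs_nonneg x) hu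
    simp only [h0] at h2
    exact tendsto_nhds_unique h2 tendsto_const_nhds
  have h2 : |F u v hu x| = 0 := by rw [← F_abs, F_of_nonneg hu (abs_nonneg x), h1]
  have h3 : ‖F u v hu x‖ = 0 := by rw [← norm_abs_eq_norm, h2, norm_zero]
  exact norm_eq_zero.1 h3

/-- modulo a closed ideal containing `v` the cut-off is the identity -/
theorem F_mod {u v : X} (hu : IsUnit' u) (hv : 0 ≤ v) {J : Submodule ℝ X}
    (hJc : IsClosed (J : Set X)) (hJs : ∀ a b : X, a ∈ J → |b| ≤ |a| → b ∈ J) (hvJ : v ∈ J)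
    (x : X) : x - F u v hu x ∈ J := by
  -- bounded positive elements
  have h1 : ∀ x : X, 0 ≤ x → ∀ C : ℝ, x ≤ C • u → x - M u v x ∈ J := by
    intro x hx C hxC
    have h2 := (M_tendsto (v := v) hx hu).const_sub x
    obtain ⟨m₀, hm₀⟩ := pow_unbounded_of_one_lt C (one_lt_two)
    refine hJc.mem_of_tendsto h2 ?_
    filter_upwards [eventually_ge_atTop m₀] with m hm
    have hCm : C ≤ 2 ^ m := hm₀.le.trans (pow_le_pow_right₀ (by norm_num) hm)
    have h3 : x - S u v m x = ((2 ^ m : ℕ) : ℝ)⁻¹ •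
        ∑ i ∈ Finset.range (2 ^ m), (x - tm u v x (4 ^ m) (((i : ℝ) + 1) / ((2 ^ m : ℕ) : ℝ))) := by
      unfold S R
      rw [Finset.sum_sub_distrib, smul_sub, Finset.sum_const, Finset.card_range,
        ← Nat.cast_smul_eq_nsmul ℝ, smul_smul, inv_mul_cancel₀ (by positivity), one_smul]
    show x - S u v m x ∈ J
    rw [h3]
    refine J.smul_mem _ (J.sum_mem fun i _ => ?_)
    set s : ℝ := ((i : ℝ) + 1) / ((2 ^ m : ℕ) : ℝ) with hs
    have hks : C ≤ 4 ^ m * s := by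
      have h4 := pow_fact hCm
      have h5 : (4 : ℝ) ^ m * s = 4 ^ m * ((i : ℝ) + 1) / ((2 ^ m : ℕ) : ℝ) := by rw [hs]; ring
      rw [h5, le_div_iff₀ (by positivity)]
      refine h4.trans ?_
      exact le_mul_of_one_le_right (by positivity) (by
        have : (0 : ℝ) ≤ (i : ℝ) := Nat.cast_nonneg i
        linarith)
    refine hJs ((4 : ℝ) ^ m • v) _ (J.smul_mem _ hvJ) ?_
    have h6 : 0 ≤ x - tm u v x (4 ^ m) s := sub_nonneg.2 (tm_le _ _ _ _ _)
    rw [abs_of_nonneg h6, abs_of_nonneg (smul_nonneg (by positivity) hv)]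
    rw [sub_le_iff_le_add, ← sub_le_iff_le_add']
    refine le_inf ?_ ?_
    · rw [sub_le_iff_le_add]
      exact le_add_of_nonneg_right (smul_nonneg (by positivity) hv)
    · refine le_trans ?_ (smul_le_smul_of_nonneg_left le_sup_left (by positivity))
      rw [smul_sub, smul_smul]
      refine sub_le_sub_right (hxC.trans (smul_le_smul_of_nonneg_right hks hu.nonneg)) _
  -- positive elements
  have h2 : ∀ x : X, 0 ≤ x → x - M u v x ∈ J := by
    intro x hx
    have h3 : ∀ n : ℕ, ∃ y ∈ J, ‖(x - M u v x) - y‖ ≤ 2 * (1 / ((n : ℝ) + 1)) := by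
      intro n
      obtain ⟨C, hC, hCx⟩ := hu.approx x hx (1 / ((n : ℝ) + 1)) (by positivity)
      have hy : 0 ≤ x ⊓ (C • u) := le_inf hx (smul_nonneg hC hu.nonneg)
      refine ⟨_, h1 _ hy C inf_le_right, ?_⟩
      have e1 := M_lip (v := v) hx hy hu
      have e2 : x - M u v x - (x ⊓ (C • u) - M u v (x ⊓ (C • u))) =
          (x - x ⊓ (C • u)) - (M u v x - M u v (x ⊓ (C • u))) := by abel
      rw [e2]
      have e3 := norm_sub_le (x - x ⊓ (C • u)) (M u v x - M u v (x ⊓ (C • u)))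
      linarith
    choose y hyJ hy using h3
    have h4 : Tendsto y atTop (𝓝 (x - M u v x)) := by
      rw [tendsto_iff_norm_sub_tendsto_zero]
      have h5 : Tendsto (fun n : ℕ => 2 * (1 / ((n : ℝ) + 1))) atTop (𝓝 0) := by
        have := (tendsto_one_div_add_atTop_nhds_zero_nat (𝕜 := ℝ)).const_mul 2
        rwa [mul_zero] at this
      refine squeeze_zero (fun _ => norm_nonneg _) (fun n => ?_) h5
      rw [norm_sub_rev]; exact hy n
    exact hJc.mem_of_tendsto h4 (Eventually.of_forall hyJ)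
  have h3 : x - F u v hu x = ((x ⊔ 0) - M u v (x ⊔ 0)) - ((-x ⊔ 0) - M u v (-x ⊔ 0)) := by
    rw [F_apply]
    have : x = (x ⊔ 0) - (-x ⊔ 0) := (posPart_sub_negPart x).symm
    nth_rewrite 1 [this]
    abel
  rw [h3]
  exact J.sub_mem (h2 _ le_sup_right) (h2 _ le_sup_right)

end Limit

end Q101.CutOff
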