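import Mathlib

/-!
# Sets of positive lower density with large two-sided gaps
-/

set_option autoImplicit false

namespace Q101.Fhc

/-- The scales. -/
def Q : ℕ → ℕ
  | 0 => 1
  | k + 1 => 2 ^ (k + 6) * Q k

lemma Q_succ (k : ℕ) : Q (k + 1) = 2 ^ (k + 6) * Q k := rfl

lemma Q_pos (k : ℕ) : 0 < Q k := by
  induction k with
  | zero => exact one_pos
  | succ k ih => rw [Q_succ]; positivity

lemma Q_dvd {i j : ℕ} (h : i ≤ j) : Q i ∣ Q j := by
  induction j, h using Nat.le_induction with
  | base => exact dvd_rfl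
  | succ m _ ih => exact ih.trans ⟨2 ^ (m + 6), by rw [Q_succ, mul_comm]⟩

lemma Q_mono {i j : ℕ} (h : i ≤ j) : Q i ≤ Q j := Nat.le_of_dvd (Q_pos j) (Q_dvd h)

lemma Q_big (k : ℕ) : 64 * Q k ≤ Q (k + 1) := by
  rw [Q_succ]
  refine Nat.mul_le_mul_right _ ?_
  calc 64 = 2 ^ 6 := by norm_num
    _ ≤ 2 ^ (k + 6) := Nat.pow_le_pow_right (by norm_num) (by omega)

lemma two_pow_le_Q (k : ℕ) : 2 ^ k ≤ Q k := by
  induction k with
  | zero => exact le_rfl
  | succ k ih =>
    have := Q_big k
    rw [pow_succ]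
    omega

lemma lt_Q (k : ℕ) : k < Q k := lt_of_lt_of_le Nat.lt_two_pow_self (two_pow_le_Q k)

/-- `Q (k+1) ≤ 64 (Q k)²`. -/
lemma Q_succ_le (k : ℕ) : Q (k + 1) ≤ 64 * (Q k * Q k) := by
  have h1 := two_pow_le_Q k
  have h2 : Q (k + 1) = 64 * (2 ^ k * Q k) := by rw [Q_succ, pow_add]; ring
  rw [h2]
  exact Nat.mul_le_mul_left _ (Nat.mul_le_mul_right _ h1)

/-- The points of type `i`. -/
def At (i : ℕ) : Set ℕ :=
  {n | n % Q (i + 1) + 2 * Q i = Q (i + 1) ∧ ∀ k, i < k → n % Q (k + 1) + 4 * Q k < Q (k + 1)}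

/-- The distance of two integers whose remainders are far apart (cyclically). -/
lemma dist_of_mod {q d : ℤ} (hq : 0 < q) {a m : ℤ}
    (h1 : m % q + d ≤ a % q ∨ a % q + d ≤ m % q) (h2 : m % q + d ≤ a % q + q)
    (h3 : a % q + d ≤ m % q + q) : d ≤ |a - m| := by
  have ea : a = q * (a / q) + a % q := (Int.mul_ediv_add_emod a q).symm
  have em : m = q * (m / q) + m % q := (Int.mul_ediv_add_emod m q).symm
  rw [le_abs]
  rcases lt_trichotomy (a / q) (m / q) with h | h | h
  · right
    have : q * (a / q) + q ≤ q * (m / q) := by nlinarith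
    linarith
  · rw [h] at ea
    rcases h1 with h1 | h1
    · left; linarith
    · right; linarith
  · left
    have : q * (m / q) + q ≤ q * (a / q) := by nlinarith
    linarith

lemma cast_mod (n q : ℕ) : ((n : ℤ) % (q : ℤ)) = ((n % q : ℕ) : ℤ) := (Int.natCast_mod n q).symm

/-- Separation of points of different types. -/
lemma sep_lt {i j a m : ℕ} (hij : i < j) (ha : a ∈ At i) (hm : m ∈ At j) :
    (2 * Q j : ℤ) ≤ |(a : ℤ) - m| := by
  have h1 := ha.2 j hij
  have h2 := hm.1
  have h3 := Q_big j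
  refine dist_of_mod (q := (Q (j + 1) : ℤ)) (by exact_mod_cast Q_pos (j + 1)) ?_ ?_ ?_ <;>
    rw [cast_mod, cast_mod]
  · right
    norm_cast
    omega
  · norm_cast
    omega
  · norm_cast
    omega

/-- Separation of points of the same type. -/
lemma sep_eq {i a m : ℕ} (ha : a ∈ At i) (hm : m ∈ At i) (hne : a ≠ m) :
    (2 * Q i : ℤ) ≤ |(a : ℤ) - m| := by
  have h1 := ha.1
  have h2 := hm.1
  have h3 := Q_big i
  have h4 : a % Q (i + 1) = m % Q (i + 1) := by omega
  have h5 : ((Q (i + 1) : ℕ) : ℤ) ∣ (a : ℤ) - m := (Nat.modEq_iff_dvd.1 (Eq.symm h4))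
  have h6 : ((Q (i + 1) : ℕ) : ℤ) ≤ |(a : ℤ) - m| := by
    refine Int.le_of_dvd (abs_pos.2 (sub_ne_zero.2 (by exact_mod_cast hne))) ?_
    exact (dvd_abs _ _).2 h5
  have h7 : (64 * Q i : ℤ) ≤ (Q (i + 1) : ℤ) := by exact_mod_cast h3
  have h8 : (0 : ℤ) < Q i := by exact_mod_cast Q_pos i
  linarith

lemma sep {i j a m : ℕ} (ha : a ∈ At i) (hm : m ∈ At j) (hne : a ≠ m) :
    (2 * Q (max i j) : ℤ) ≤ |(a : ℤ) - m| := by
  rcases lt_trichotomy i j with h | h | h
  · rw [max_eq_right h.le]
    exact sep_lt h ha hm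
  · subst h
    rw [max_self]
    exact sep_eq ha hm hne
  · rw [max_eq_left h.le, abs_sub_comm]
    exact sep_lt h hm ha

/-- Points of type `i` are large. -/
lemma le_of_mem {i a : ℕ} (ha : a ∈ At i) : 2 * Q i ≤ a := by
  have h1 := ha.1
  have h2 := Q_big i
  have h3 := Nat.mod_le a (Q (i + 1))
  omega

lemma disj {i j a : ℕ} (ha : a ∈ At i) (hm : a ∈ At j) : i = j := by
  by_contra hne
  rcases lt_or_gt_of_ne hne with h | h
  · have := sep_lt h ha hm
    have := Q_pos j
    simp at *
    omega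
  · have := sep_lt h hm ha
    have := Q_pos i
    simp at *
    omega

/-- The free zones: the integers congruent to `- Q k` modulo `Q (k+1)` are at distance at least
`Q k` from all the points. -/
lemma free {k m : ℕ} (hm : m = 0 ∨ ∃ j, m ∈ At j) {u : ℤ} (hu : (Q (k + 1) : ℤ) ∣ u + Q k) :
    (Q k : ℤ) ≤ |u - m| := by
  have hb := Q_big k
  have hp := Q_pos k
  have hq : (0 : ℤ) < (Q (k + 1) : ℤ) := by exact_mod_cast Q_pos (k + 1)
  have hb' : (64 * Q k : ℤ) ≤ (Q (k + 1) : ℤ) := by exact_mod_cast hb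
  have hp' : (0 : ℤ) < Q k := by exact_mod_cast hp
  -- the remainder of `u`
  have hu' : u % (Q (k + 1) : ℤ) = Q (k + 1) - Q k := by
    obtain ⟨c, hc⟩ := hu
    have h1 : u = (Q (k + 1) - Q k : ℤ) + (Q (k + 1) : ℤ) * (c - 1) := by linarith
    rw [h1, Int.add_mul_emod_self_left]
    exact Int.emod_eq_of_lt (by linarith) (by linarith)
  -- the remainder of `m`
  have hm' : (m : ℤ) % (Q (k + 1) : ℤ) = 0 ∨ (m : ℤ) % (Q (k + 1) : ℤ) = Q (k + 1) - 2 * Q k ∨
      (0 ≤ (m : ℤ) % (Q (k + 1) : ℤ) ∧ (m : ℤ) % (Q (k + 1) : ℤ) < Q (k + 1) - 4 * Q k) := by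
    rcases hm with rfl | ⟨j, hj⟩
    · left; simp
    · rcases lt_trichotomy j k with h | h | h
      · right; right
        have h1 := hj.2 k h
        refine ⟨Int.emod_nonneg _ hq.ne', ?_⟩
        rw [cast_mod]
        have h2 : ((m % Q (k + 1) : ℕ) : ℤ) + 4 * Q k < Q (k + 1) := by exact_mod_cast h1
        linarith
      · subst h
        right; left
        have h1 := hj.1
        rw [cast_mod]
        have h2 : ((m % Q (j + 1) : ℕ) : ℤ) + 2 * Q j = Q (j + 1) := by exact_mod_cast h1
        linarith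
      · left
        have h1 := hj.1
        have h2 : Q (k + 1) ∣ Q j := Q_dvd h
        have h3 : Q (k + 1) ∣ Q (j + 1) := Q_dvd (by omega)
        have h4 : Q (k + 1) ∣ m % Q (j + 1) := by
          have h5 : Q (k + 1) ∣ m % Q (j + 1) + 2 * Q j := by rw [h1]; exact h3
          exact (Nat.dvd_add_left (Dvd.dvd.mul_left h2 2)).1 h5
        have h6 : Q (k + 1) ∣ m := (Nat.dvd_mod_iff h3).1 h4
        rw [cast_mod, Nat.mod_eq_zero_of_dvd h6]
        rfl
  refine dist_of_mod hq ?_ ?_ ?_ <;> rw [hu']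
  · left
    rcases hm' with h | h | ⟨h, h'⟩ <;> linarith
  · rcases hm' with h | h | ⟨h, h'⟩ <;> linarith
  · rcases hm' with h | h | ⟨h, h'⟩ <;> linarith

/-- In every block there is an index which leads to a free zone. -/
lemma exists_index (b : ℤ) (k : ℕ) : ∃ i : ℕ, Q (k + 1) ≤ i ∧ i < 2 * Q (k + 1) ∧
    (Q (k + 1) : ℤ) ∣ (b - i) + Q k := by
  have hq : (0 : ℤ) < (Q (k + 1) : ℤ) := by exact_mod_cast Q_pos (k + 1)
  have h1 := Int.emod_nonneg (b + Q k) hq.ne'
  have h2 := Int.emod_lt_of_pos (b + Q k) hq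
  refine ⟨Q (k + 1) + ((b + Q k) % (Q (k + 1) : ℤ)).toNat, by omega, by omega, ?_⟩
  have h3 : ((((b + Q k) % (Q (k + 1) : ℤ)).toNat : ℕ) : ℤ) = (b + Q k) % (Q (k + 1) : ℤ) :=
    Int.toNat_of_nonneg h1
  push_cast
  rw [h3]
  have h4 := Int.mul_ediv_add_emod (b + Q k) (Q (k + 1) : ℤ)
  refine ⟨(b + Q k) / (Q (k + 1) : ℤ) - 1, ?_⟩
  linarith

/-- Positive lower density. -/
def PosLowerDensity (A : Set ℕ) : Prop :=
  ∃ c : ℝ, 0 < c ∧ ∃ N₀ : ℕ, ∀ N : ℕ, N₀ ≤ N → c * (N : ℝ) ≤ ((A ∩ Set.Iio N).ncard : ℝ)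

lemma PosLowerDensity.mono {A B : Set ℕ} (hA : PosLowerDensity A) (h : A ⊆ B) :
    PosLowerDensity B := by
  obtain ⟨c, hc, N₀, hN⟩ := hA
  refine ⟨c, hc, N₀, fun N hNN => (hN N hNN).trans ?_⟩
  exact_mod_cast Set.ncard_le_ncard (Set.inter_subset_inter_left _ h)
    ((Set.finite_Iio N).subset Set.inter_subset_right)

open Classical in
/-- The sets of points of type `i` have positive lower density. -/
theorem density (i : ℕ) : PosLowerDensity (At i) := by
  set q := Q (i + 1) with hq
  have hq0 : 0 < q := Q_pos _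
  have hqR : (0 : ℝ) < q := by exact_mod_cast hq0
  refine ⟨1 / (2 * q), by positivity, 8 * q, fun N hN => ?_⟩
  -- the three finite sets
  let S : Finset ℕ := (Finset.range N).filter fun n => n % q + 2 * Q i = q
  let B : ℕ → Finset ℕ := fun k => (Finset.range N).filter fun n =>
    n % q + 2 * Q i = q ∧ Q (k + 1) ≤ n % Q (k + 1) + 4 * Q k
  let A : Finset ℕ := (Finset.range N).filter fun n => n ∈ At i
  have hcover : S ⊆ A ∪ (Finset.Ioo i N).biUnion B := by
    intro n hn
    obtain ⟨hn1, hn2⟩ := Finset.mem_filter.1 hn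
    rw [Finset.mem_union]
    by_cases h : n ∈ At i
    · left
      exact Finset.mem_filter.2 ⟨hn1, h⟩
    · right
      have h1 : ∃ k, i < k ∧ Q (k + 1) ≤ n % Q (k + 1) + 4 * Q k := by
        by_contra hcon
        push Not at hcon
        exact h ⟨hn2, hcon⟩
      obtain ⟨k, hk1, hk2⟩ := h1
      rw [Finset.mem_biUnion]
      refine ⟨k, Finset.mem_Ioo.2 ⟨hk1, ?_⟩, Finset.mem_filter.2 ⟨hn1, hn2, hk2⟩⟩
      have h3 := Q_big k
      have h4 := Nat.mod_le n (Q (k + 1))
      have h5 := lt_Q k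
      have h6 := Finset.mem_range.1 hn1
      omega
  -- the number of points in `B k`
  have hB : ∀ k, i < k → ((B k).card : ℝ) ≤ 3 / 16 * (N / q) * (1 / 2) ^ k := by
    intro k hk
    by_cases hNk : N ≤ Q (k + 1) - 4 * Q k
    · have : B k = ∅ := by
        refine Finset.filter_eq_empty_iff.2 fun n hn hcon => ?_
        have h1 := hcon.2
        have h2 := Nat.mod_le n (Q (k + 1))
        have h3 := Finset.mem_range.1 hn
        omega
      rw [this, Finset.card_empty]
      simp only [Nat.cast_zero]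
      positivity
    · push Not at hNk
      have hdvd : q ∣ Q k := Q_dvd hk
      have hdvd' : q ∣ Q (k + 1) := Q_dvd (by omega)
      have hbig := Q_big k
      have hcard : (B k).card ≤ (N / Q (k + 1) + 1) * (4 * Q k / q) := by
        have h1 : (B k).card ≤ ((Finset.range (N / Q (k + 1) + 1)) ×ˢ
            (Finset.range (4 * Q k / q))).card := by
          refine Finset.card_le_card_of_injOn
            (fun n => (n / Q (k + 1), (n % Q (k + 1) + 4 * Q k - Q (k + 1)) / q)) ?_ ?_
          · intro n hn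
            obtain ⟨hn1, hn2, hn3⟩ := Finset.mem_filter.1 hn
            have hn1 := Finset.mem_range.1 hn1
            simp only [Finset.coe_product, Finset.coe_range, Set.mem_prod, Set.mem_Iio]
            refine ⟨Nat.lt_succ_of_le (Nat.div_le_div_right hn1.le), ?_⟩
            have h4 := Nat.mod_lt n (Q_pos (k + 1))
            obtain ⟨d, hd⟩ : q ∣ 4 * Q k := Dvd.dvd.mul_left hdvd 4
            rw [hd, Nat.mul_div_cancel_left _ hq0]
            rw [Nat.div_lt_iff_lt_mul hq0]
            rw [hd] at hn3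
            have : d * q = q * d := mul_comm _ _
            omega
          · intro n hn n' hn' h
            obtain ⟨hn1, hn2, hn3⟩ := Finset.mem_filter.1 hn
            obtain ⟨hn1', hn2', hn3'⟩ := Finset.mem_filter.1 hn'
            simp only [Prod.mk.injEq] at h
            obtain ⟨h1, h2⟩ := h
            -- both remainders modulo `Q (k+1)` agree
            have hmod : ∀ x : ℕ, x % q + 2 * Q i = q → Q (k + 1) ≤ x % Q (k + 1) + 4 * Q k →
                (x % Q (k + 1) + 4 * Q k - Q (k + 1)) % q = q - 2 * Q i := by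
              intro x hx hx2
              obtain ⟨d, hd⟩ := hdvd
              obtain ⟨d', hd'⟩ := hdvd'
              have e1 : x % Q (k + 1) % q = x % q := Nat.mod_mod_of_dvd _ ⟨d', hd'⟩
              set y := x % Q (k + 1) + 4 * Q k - Q (k + 1) with hy
              have e2 : y + q * d' = x % Q (k + 1) + q * (4 * d) := by
                have : q * (4 * d) = 4 * (q * d) := by ring
                rw [this, ← hd, ← hd', hy]
                omega
              have e3 : y % q = x % q := by
                have := congrArg (· % q) e2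
                simp only [Nat.add_mul_mod_self_left] at this
                rw [this, e1]
              rw [e3]
              omega
            have e1 := hmod n hn2 hn3
            have e2 := hmod n' hn2' hn3'
            have e3 : n % Q (k + 1) + 4 * Q k - Q (k + 1) = n' % Q (k + 1) + 4 * Q k - Q (k + 1) := by
              have f1 := Nat.div_add_mod (n % Q (k + 1) + 4 * Q k - Q (k + 1)) q
              have f2 := Nat.div_add_mod (n' % Q (k + 1) + 4 * Q k - Q (k + 1)) q
              rw [← f1, ← f2, h2, e1, e2]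
            have e4 : n % Q (k + 1) = n' % Q (k + 1) := by omega
            rw [← Nat.div_add_mod n (Q (k + 1)), ← Nat.div_add_mod n' (Q (k + 1)), h1, e4]
        rwa [Finset.card_product, Finset.card_range, Finset.card_range] at h1
      -- numerical estimate
      have hQk : (0 : ℝ) < Q k := by exact_mod_cast Q_pos k
      have hQk1 : (0 : ℝ) < Q (k + 1) := by exact_mod_cast Q_pos (k + 1)
      have hN2 : (Q (k + 1) : ℝ) ≤ 2 * N := by
        have : Q (k + 1) ≤ 2 * N := by omega
        exact_mod_cast this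
      have h1 : ((N / Q (k + 1) : ℕ) : ℝ) ≤ N / Q (k + 1) := Nat.cast_div_le
      have h2 : ((4 * Q k / q : ℕ) : ℝ) ≤ (4 * Q k) / q := by
        refine Nat.cast_div_le.trans (le_of_eq ?_)
        push_cast
        ring
      have h3 : ((N / Q (k + 1) + 1 : ℕ) : ℝ) ≤ 3 * N / Q (k + 1) := by
        push_cast
        have : (1 : ℝ) ≤ 2 * N / Q (k + 1) := by
          rw [le_div_iff₀ hQk1]; linarith
        have e : (3 * N / Q (k + 1) : ℝ) = N / Q (k + 1) + 2 * N / Q (k + 1) := by ring
        rw [e]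
        linarith
      have h4 : ((B k).card : ℝ) ≤ ((N / Q (k + 1) + 1 : ℕ) : ℝ) * ((4 * Q k / q : ℕ) : ℝ) := by
        exact_mod_cast hcard
      refine h4.trans ((mul_le_mul h3 h2 (Nat.cast_nonneg _) (by positivity)).trans (le_of_eq ?_))
      have h5 : (Q (k + 1) : ℝ) = 64 * 2 ^ k * Q k := by
        rw [Q_succ, pow_add]; push_cast; ring
      rw [h5]
      have h6 : (2 : ℝ) ^ k ≠ 0 := by positivity
      rw [div_pow, one_pow]
      field_simp
      ring
  -- the number of points in `S`
  have hS : (N : ℝ) / q - 1 ≤ (S.card : ℝ) := by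
    have h1 : (Finset.range (N / q)).card ≤ S.card := by
      refine Finset.card_le_card_of_injOn (fun d => d * q + (q - 2 * Q i)) ?_ ?_
      · intro d hd
        have hd' : d < N / q := by simpa using hd
        have hb := Q_big i
        have hp := Q_pos i
        have h2 : (d + 1) * q ≤ N :=
          (Nat.mul_le_mul_right _ hd').trans (Nat.div_mul_le_self _ _)
        have h3 : (d + 1) * q = d * q + q := by ring
        simp only [S, Finset.coe_filter, Finset.mem_range, Set.mem_ofPred_eq]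
        have h4 : (d * q + (q - 2 * Q i)) % q = q - 2 * Q i := by
          rw [mul_comm, Nat.mul_add_mod]
          exact Nat.mod_eq_of_lt (by omega)
        refine ⟨by omega, ?_⟩
        rw [h4]
        omega
      · intro d _ d' _ h
        simp only at h
        exact Nat.eq_of_mul_eq_mul_right hq0 (by omega)
    rw [Finset.card_range] at h1
    have h2 : ((N / q : ℕ) : ℝ) ≤ S.card := by exact_mod_cast h1
    have h4 : N < (N / q + 1) * q := Nat.lt_mul_of_div_lt (Nat.lt_succ_self _) hq0
    have h5 : (N : ℝ) < ((N / q : ℕ) + 1) * q := by exact_mod_cast h4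
    have h6 : (N : ℝ) / q < (N / q : ℕ) + 1 := by rw [div_lt_iff₀ hqR]; exact h5
    linarith
  -- conclusion
  have hsum : (∑ k ∈ Finset.Ioo i N, ((B k).card : ℝ)) ≤ 3 / 16 * (N / q) * 2 := by
    refine (Finset.sum_le_sum fun k hk => hB k (Finset.mem_Ioo.1 hk).1).trans ?_
    rw [← Finset.mul_sum]
    refine mul_le_mul_of_nonneg_left ?_ (by positivity)
    have := summable_geometric_two.sum_le_tsum (Finset.Ioo i N) (fun i _ => by positivity)
    rwa [tsum_geometric_two] at this
  have hcard : (S.card : ℝ) ≤ A.card + ∑ k ∈ Finset.Ioo i N, ((B k).card : ℝ) := by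
    have h1 : S.card ≤ A.card + ∑ k ∈ Finset.Ioo i N, (B k).card :=
      (Finset.card_le_card hcover).trans ((Finset.card_union_le _ _).trans
        (Nat.add_le_add_left Finset.card_biUnion_le _))
    exact_mod_cast h1
  have hA : (A.card : ℝ) = ((At i ∩ Set.Iio N).ncard : ℝ) := by
    have : (At i ∩ Set.Iio N) = (A : Set ℕ) := by
      ext n
      simp only [A, Set.mem_inter_iff, Set.mem_Iio, Finset.coe_filter, Finset.mem_range,
        Set.mem_ofPred_eq]
      exact and_comm
    rw [this, Set.ncard_coe_finset]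
  rw [← hA]
  have hNq : (8 : ℝ) ≤ N / q := by
    rw [le_div_iff₀ hqR]
    exact_mod_cast hN
  have e : 1 / (2 * (q : ℝ)) * N = (N / q) / 2 := by
    field_simp
  rw [e]
  linarith

end Q101.Fhc
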