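import Pool.Agent.Q101.FhcA

/-!
# The space and the shift operator
-/

set_option autoImplicit false

namespace Q101.Fhc

open Filter Topology
open scoped ENNReal

/-! ### Weighted composition operators on `ℓ_p`-sums -/

section Comp

variable {𝕜 : Type} [RCLike 𝕜] {ι : Type*} {F : ι → Type*} [∀ n, NormedAddCommGroup (F n)]
  [∀ n, NormedSpace 𝕜 (F n)] {p : ℝ≥0∞} [hp1 : Fact (1 ≤ p)]

omit hp1 in
lemma toReal_pos' {p : ℝ≥0∞} [hp1 : Fact (1 ≤ p)] (hp : p ≠ ∞) : 0 < p.toReal :=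
  ENNReal.toReal_pos (zero_lt_one.trans_le hp1.out).ne' hp

lemma comp_mem (hp : p ≠ ∞) (π : ι ≃ ι) (L : ∀ n, F (π n) →L[𝕜] F n) {K : ℝ}
    (hL : ∀ n x, ‖L n x‖ ≤ K * ‖x‖) (f : lp F p) : Memℓp (fun n => L n (f (π n))) p := by
  have hr := toReal_pos' hp
  rw [memℓp_gen_iff hr]
  have h1 : Summable fun n => ‖f n‖ ^ p.toReal := (memℓp_gen_iff hr).1 f.2
  have h2 : Summable fun n => |K| ^ p.toReal * ‖f (π n)‖ ^ p.toReal :=
    (h1.comp_injective π.injective).mul_left _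
  refine Summable.of_nonneg_of_le (fun n => by positivity) (fun n => ?_) h2
  rw [← Real.mul_rpow (abs_nonneg _) (norm_nonneg _)]
  exact Real.rpow_le_rpow (norm_nonneg _) ((hL n _).trans
    (mul_le_mul_of_nonneg_right (le_abs_self K) (norm_nonneg _))) hr.le

/-- The operator `x ↦ (L n (x (π n)))`. -/
noncomputable def compL (hp : p ≠ ∞) (π : ι ≃ ι) (L : ∀ n, F (π n) →L[𝕜] F n) {K : ℝ} (hK : 0 ≤ K)
    (hL : ∀ n x, ‖L n x‖ ≤ K * ‖x‖) : lp F p →L[𝕜] lp F p :=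
  LinearMap.mkContinuous
    { toFun := fun f => ⟨fun n => L n (f (π n)), comp_mem hp π L hL f⟩
      map_add' := fun f g => by
        ext n
        exact (L n).map_add _ _
      map_smul' := fun c f => by
        ext n
        exact (L n).map_smul _ _ } K (fun f => by
    have hr := toReal_pos' hp
    refine lp.norm_le_of_tsum_le hr (by positivity) ?_
    have h1 : Summable fun n => ‖f n‖ ^ p.toReal := (memℓp_gen_iff hr).1 f.2
    have h3 : Summable fun n => ‖L n (f (π n))‖ ^ p.toReal :=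
      (memℓp_gen_iff hr).1 (comp_mem hp π L hL f)
    have h2 : Summable fun n => K ^ p.toReal * ‖f (π n)‖ ^ p.toReal :=
      (h1.comp_injective π.injective).mul_left _
    calc ∑' n, ‖L n (f (π n))‖ ^ p.toReal ≤ ∑' n, K ^ p.toReal * ‖f (π n)‖ ^ p.toReal := by
          refine h3.tsum_le_tsum (fun n => ?_) h2
          rw [← Real.mul_rpow hK (norm_nonneg _)]
          exact Real.rpow_le_rpow (norm_nonneg _) (hL n _) hr.le
      _ = K ^ p.toReal * ∑' n, ‖f n‖ ^ p.toReal := by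
          rw [tsum_mul_left]
          congr 1
          exact π.tsum_eq fun n => ‖f n‖ ^ p.toReal
      _ = (K * ‖f‖) ^ p.toReal := by
          rw [Real.mul_rpow hK (norm_nonneg _), lp.norm_rpow_eq_tsum hr])

lemma compL_apply (hp : p ≠ ∞) (π : ι ≃ ι) (L : ∀ n, F (π n) →L[𝕜] F n) {K : ℝ} (hK : 0 ≤ K)
    (hL : ∀ n x, ‖L n x‖ ≤ K * ‖x‖) (f : lp F p) (n : ι) :
    compL hp π L hK hL f n = L n (f (π n)) := rfl

lemma norm_compL_le (hp : p ≠ ∞) (π : ι ≃ ι) (L : ∀ n, F (π n) →L[𝕜] F n) {K : ℝ} (hK : 0 ≤ K)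
    (hL : ∀ n x, ‖L n x‖ ≤ K * ‖x‖) (f : lp F p) : ‖compL hp π L hK hL f‖ ≤ K * ‖f‖ :=
  (compL hp π L hK hL).le_of_opNorm_le (LinearMap.mkContinuous_norm_le _ hK _) f

omit [∀ n, NormedSpace 𝕜 (F n)] in
/-- The coordinates of a vector of `ℓ_p` tend to zero. -/
lemma tendsto_coord (hp : p ≠ ∞) (x : lp F p) :
    Tendsto (fun n => ‖x n‖) cofinite (𝓝 0) := by
  have hr := toReal_pos' hp
  have h1 : Summable fun n => ‖x n‖ ^ p.toReal := (memℓp_gen_iff hr).1 x.2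
  have h2 := h1.tendsto_cofinite_zero
  have h3 := h2.rpow_const (p := (p.toReal)⁻¹) (Or.inr (by positivity))
  rw [Real.zero_rpow (by positivity)] at h3
  refine h3.congr fun n => ?_
  rw [← Real.rpow_mul (norm_nonneg _), mul_inv_cancel₀ hr.ne', Real.rpow_one]

end Comp

/-! ### The shift operator -/

section shiftop

variable {𝕜 : Type} [RCLike 𝕜] {Y : Type*} [NormedAddCommGroup Y] [NormedSpace 𝕜 Y] {p : ℝ≥0∞}
  [hp1 : Fact (1 ≤ p)]

/-- The shift operator `(σ x)_n = S_{n+1} (x_{n+1})` on `ℓ_p(Y)`. -/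
noncomputable def shiftOp (hp : p ≠ ∞) (S : ℤ → Y →L[𝕜] Y) {K : ℝ} (hK : 0 ≤ K)
    (hS : ∀ n x, ‖S n x‖ ≤ K * ‖x‖) : lp (fun _ : ℤ => Y) p →L[𝕜] lp (fun _ : ℤ => Y) p :=
  compL hp (Equiv.addRight (1 : ℤ)) (fun n => S (n + 1)) hK (fun n x => hS (n + 1) x)

lemma shiftOp_apply (hp : p ≠ ∞) (S : ℤ → Y →L[𝕜] Y) {K : ℝ} (hK : 0 ≤ K)
    (hS : ∀ n x, ‖S n x‖ ≤ K * ‖x‖) (x : lp (fun _ : ℤ => Y) p) (n : ℤ) :
    shiftOp hp S hK hS x n = S (n + 1) (x (n + 1)) := rfl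

/-- iterates of the shift operator of a constant sequence -/
lemma iter_apply {τ : lp (fun _ : ℤ => Y) p → lp (fun _ : ℤ => Y) p} {T : Y →L[𝕜] Y}
    (hτ : ∀ x n, τ x n = T (x (n + 1))) (q : ℕ) (x : lp (fun _ : ℤ => Y) p) (n : ℤ) :
    (τ^[q] x) n = (T^[q]) (x (n + q)) := by
  induction q generalizing n with
  | zero => simp
  | succ q ih =>
    rw [Function.iterate_succ_apply', hτ, ih, Function.iterate_succ_apply']
    have h1 : n + 1 + (q : ℤ) = n + ((q + 1 : ℕ) : ℤ) := by push_cast; ring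
    rw [h1]

end shiftop

/-! ### The spaces `Z_t` -/

/-- The weight `2 ^ (-|i - t|)`. -/
noncomputable def W (t : ℤ) (i : ℕ) : ℝ := (1 / 2) ^ ((i : ℤ) - t).natAbs

lemma W_pos (t : ℤ) (i : ℕ) : 0 < W t i := by unfold W; positivity

lemma W_le (t t' : ℤ) (i : ℕ) : W t' i ≤ 2 ^ (t - t').natAbs * W t i := by
  unfold W
  have h1 : ((i : ℤ) - t).natAbs ≤ ((i : ℤ) - t').natAbs + (t - t').natAbs := by omega
  have h2 : (1 / 2 : ℝ) ^ (((i : ℤ) - t').natAbs + (t - t').natAbs) ≤ (1 / 2) ^ ((i : ℤ) - t).natAbs :=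
    pow_le_pow_of_le_one (by norm_num) (by norm_num) h1
  rw [pow_add] at h2
  have h3 : (2 : ℝ) ^ (t - t').natAbs * (1 / 2) ^ (t - t').natAbs = 1 := by
    rw [← mul_pow]; norm_num
  calc (1 / 2 : ℝ) ^ ((i : ℤ) - t').natAbs
      = 2 ^ (t - t').natAbs * ((1 / 2) ^ ((i : ℤ) - t').natAbs * (1 / 2) ^ (t - t').natAbs) := by
        rw [mul_comm ((1 / 2 : ℝ) ^ ((i : ℤ) - t').natAbs), ← mul_assoc, h3, one_mul]
    _ ≤ _ := mul_le_mul_of_nonneg_left h2 (by positivity)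

/-- The blocks. -/
def blk (k : ℕ) : Finset ℕ := Finset.Ico (Q (k + 1)) (2 * Q (k + 1))

lemma card_blk (k : ℕ) : (blk k).card = Q (k + 1) := by
  unfold blk
  rw [Nat.card_Ico]
  omega

section scal

variable (𝕜 : Type) [RCLike 𝕜]

/-- The weight as a scalar. -/
noncomputable def w (t : ℤ) (i : ℕ) : 𝕜 := ((W t i : ℝ) : 𝕜)

lemma w_ne (t : ℤ) (i : ℕ) : w 𝕜 t i ≠ 0 := by
  unfold w
  exact_mod_cast (W_pos t i).ne'

lemma norm_w (t : ℤ) (i : ℕ) : ‖w 𝕜 t i‖ = W t i := by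
  unfold w
  rw [RCLike.norm_ofReal, abs_of_pos (W_pos t i)]

/-- `ℓ₁` -/
abbrev l1 : Type := lp (fun _ : ℕ => 𝕜) 1

variable {𝕜}

/-- The mean over the `k`-th block. -/
noncomputable def av (k : ℕ) (z : ℕ → 𝕜) : 𝕜 := (∑ i ∈ blk k, z i) / (Q (k + 1) : 𝕜)

/-- The function `ℕ → 𝕜` represented by `y` at time `t`. -/
noncomputable def fn (t : ℤ) (y : ℕ → 𝕜) (i : ℕ) : 𝕜 := y i / w 𝕜 t i

variable (𝕜)

/-- The space `Z_t`. -/
noncomputable def Zs (t : ℤ) : Submodule 𝕜 (l1 𝕜) where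
  carrier := {y | ∀ k, av k (fn t y) = av 0 (fn t y)}
  zero_mem' := by
    intro k
    simp [av, fn]
  add_mem' := by
    intro y y' hy hy' k
    have h : ∀ k, av k (fn t ((y + y' : l1 𝕜) : ℕ → 𝕜)) = av k (fn t y) + av k (fn t y') := by
      intro k
      unfold av
      rw [← add_div, ← Finset.sum_add_distrib]
      congr 1
      refine Finset.sum_congr rfl fun i _ => ?_
      unfold fn
      rw [lp.coeFn_add, Pi.add_apply, add_div]
    rw [h, h, hy k, hy' k]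
  smul_mem' := by
    intro c y hy k
    have h : ∀ k, av k (fn t ((c • y : l1 𝕜) : ℕ → 𝕜)) = c * av k (fn t y) := by
      intro k
      unfold av
      rw [← mul_div_assoc, Finset.mul_sum]
      congr 1
      refine Finset.sum_congr rfl fun i _ => ?_
      unfold fn
      rw [lp.coeFn_smul, Pi.smul_apply, smul_eq_mul, mul_div_assoc]
    rw [h, h, hy k]

variable {𝕜}

lemma mem_Zs {t : ℤ} {y : l1 𝕜} : y ∈ Zs 𝕜 t ↔ ∀ k, av k (fn t y) = av 0 (fn t y) := Iff.rfl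

lemma continuous_av (t : ℤ) (k : ℕ) : Continuous fun y : l1 𝕜 => av k (fn t y) := by
  unfold av fn
  refine Continuous.div_const (continuous_finsetSum _ fun i _ => Continuous.div_const ?_ _) _
  exact (lp.evalCLM 𝕜 (fun _ : ℕ => 𝕜) 1 i).continuous

lemma isClosed_Zs (t : ℤ) : IsClosed (Zs 𝕜 t : Set (l1 𝕜)) := by
  have : (Zs 𝕜 t : Set (l1 𝕜)) = ⋂ k, {y : l1 𝕜 | av k (fn t y) = av 0 (fn t y)} := by
    ext y
    simp only [SetLike.mem_coe, mem_Zs, Set.mem_iInter, Set.mem_ofPred_eq]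
  rw [this]
  exact isClosed_iInter fun k => isClosed_eq (continuous_av t k) (continuous_av t 0)

instance (t : ℤ) : CompleteSpace (Zs 𝕜 t) := (isClosed_Zs t).completeSpace_coe

/-- Norm of `ℓ₁`. -/
lemma norm_l1 (y : l1 𝕜) : ‖y‖ = ∑' i, ‖y i‖ := by
  have := lp.norm_rpow_eq_tsum (p := 1) (by norm_num) y
  simpa using this

lemma summable_l1 (y : l1 𝕜) : Summable fun i => ‖y i‖ := by
  have := (lp.hasSum_norm (p := 1) (by norm_num) y).summable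
  simpa using this

lemma abs_le_l1 (y : l1 𝕜) (i : ℕ) : ‖y i‖ ≤ ‖y‖ := lp.norm_apply_le_norm (by norm_num) y i

lemma mem_l1 {f : ℕ → 𝕜} (h : Summable fun i => ‖f i‖) : Memℓp f 1 := by
  rw [memℓp_gen_iff (by norm_num)]
  simpa using h

/-- The multiplier of the identity map `Z_t → Z_{t'}`. -/
lemma fn_mul (t t' : ℤ) (y : ℕ → 𝕜) : fn t' (fun i => w 𝕜 t' i / w 𝕜 t i * y i) = fn t y := by
  ext i
  unfold fn
  have h1 := w_ne 𝕜 t i
  have h2 := w_ne 𝕜 t' i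
  field_simp

lemma conv_le (t t' : ℤ) (i : ℕ) : ‖w 𝕜 t' i / w 𝕜 t i‖ ≤ 2 ^ (t - t').natAbs := by
  rw [norm_div, norm_w, norm_w, div_le_iff₀ (W_pos t i)]
  exact W_le t t' i

lemma conv_bd (t t' : ℤ) (i : ℕ) (c : 𝕜) :
    ‖w 𝕜 t' i / w 𝕜 t i * c‖ ≤ 2 ^ (t - t').natAbs * ‖c‖ := by
  rw [norm_mul]
  exact mul_le_mul_of_nonneg_right (conv_le t t' i) (norm_nonneg _)

/-- The identity map `Z_t → Z_{t'}`. -/
noncomputable def conv (t t' : ℤ) : Zs 𝕜 t →L[𝕜] Zs 𝕜 t' :=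
  LinearMap.mkContinuous
    { toFun := fun y => ⟨⟨fun i => w 𝕜 t' i / w 𝕜 t i * (y : l1 𝕜) i, mem_l1 (by
          have h1 := (summable_l1 (y : l1 𝕜)).mul_left ((2 : ℝ) ^ (t - t').natAbs)
          exact Summable.of_nonneg_of_le (fun i => norm_nonneg _) (fun i => conv_bd t t' i _) h1)⟩, by
          intro k
          have h := fn_mul t t' ((y : l1 𝕜) : ℕ → 𝕜)
          show av k (fn t' fun i => w 𝕜 t' i / w 𝕜 t i * (y : l1 𝕜) i) =
            av 0 (fn t' fun i => w 𝕜 t' i / w 𝕜 t i * (y : l1 𝕜) i)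
          rw [h]
          exact y.2 k⟩
      map_add' := fun y y' => by
        ext i
        show w 𝕜 t' i / w 𝕜 t i * ((y : l1 𝕜) i + (y' : l1 𝕜) i) = _
        rw [mul_add]
        rfl
      map_smul' := fun c y => by
        ext i
        show w 𝕜 t' i / w 𝕜 t i * (c * (y : l1 𝕜) i) = c * (w 𝕜 t' i / w 𝕜 t i * (y : l1 𝕜) i)
        ring } (2 ^ (t - t').natAbs) (fun y => by
    have h1 := (summable_l1 (y : l1 𝕜)).mul_left ((2 : ℝ) ^ (t - t').natAbs)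
    have h3 : ∀ i, ‖w 𝕜 t' i / w 𝕜 t i * (y : l1 𝕜) i‖ ≤ 2 ^ (t - t').natAbs * ‖(y : l1 𝕜) i‖ :=
      fun i => conv_bd t t' i _
    have e1 : ‖(y : l1 𝕜)‖ = ‖y‖ := rfl
    rw [← e1, norm_l1 (y : l1 𝕜), ← tsum_mul_left]
    refine le_trans (le_of_eq (norm_l1 _)) ?_
    exact (Summable.of_nonneg_of_le (fun i => norm_nonneg _) h3 h1).tsum_le_tsum h3 h1)

lemma conv_apply (t t' : ℤ) (y : Zs 𝕜 t) (i : ℕ) :
    ((conv t t' y : Zs 𝕜 t') : l1 𝕜) i = w 𝕜 t' i / w 𝕜 t i * (y : l1 𝕜) i := rfl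

lemma norm_conv_le (t t' : ℤ) (y : Zs 𝕜 t) : ‖conv t t' y‖ ≤ 2 ^ (t - t').natAbs * ‖y‖ := by
  have h : ‖(conv t t' : Zs 𝕜 t →L[𝕜] Zs 𝕜 t')‖ ≤ 2 ^ (t - t').natAbs :=
    LinearMap.mkContinuous_norm_le _ (by positivity) _
  exact (conv t t' : Zs 𝕜 t →L[𝕜] Zs 𝕜 t').le_of_opNorm_le h y

lemma conv_conv (t t' : ℤ) (y : Zs 𝕜 t) : conv t' t (conv t t' y) = y := by
  ext i
  rw [conv_apply, conv_apply]
  have h1 := w_ne 𝕜 t i
  have h2 := w_ne 𝕜 t' i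
  field_simp

lemma conv_trans (t t' t'' : ℤ) (y : Zs 𝕜 t) : conv t' t'' (conv t t' y) = conv t t'' y := by
  ext i
  rw [conv_apply, conv_apply, conv_apply]
  have h1 := w_ne 𝕜 t i
  have h2 := w_ne 𝕜 t' i
  field_simp

lemma conv_self (t : ℤ) (y : Zs 𝕜 t) : conv t t y = y := by
  ext i
  rw [conv_apply, div_self (w_ne 𝕜 t i), one_mul]

lemma norm_conv_le_two {t t' : ℤ} (h : (t - t').natAbs = 1) (y : Zs 𝕜 t) :
    ‖conv t t' y‖ ≤ 2 * ‖y‖ := by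
  have := norm_conv_le t t' y
  rwa [h, pow_one] at this

/-! ### The space `X` and the operator `T` -/

variable (𝕜)

/-- The `ℓ₁`-sum of the spaces `Z_t`. -/
def X : Type := lp (fun t : ℤ => Zs 𝕜 t) 1

instance fact11 : Fact ((1 : ℝ≥0∞) ≤ 1) := ⟨le_rfl⟩

noncomputable instance : NormedAddCommGroup (X 𝕜) :=
  inferInstanceAs (NormedAddCommGroup (lp (fun t : ℤ => Zs 𝕜 t) 1))
noncomputable instance : NormedSpace 𝕜 (X 𝕜) :=
  inferInstanceAs (NormedSpace 𝕜 (lp (fun t : ℤ => Zs 𝕜 t) 1))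
instance : CompleteSpace (X 𝕜) := inferInstanceAs (CompleteSpace (lp (fun t : ℤ => Zs 𝕜 t) 1))

variable {𝕜}

/-- The coordinates of a vector of `X`. -/
noncomputable def cd (t : ℤ) : X 𝕜 →L[𝕜] Zs 𝕜 t := lp.evalCLM 𝕜 (fun t : ℤ => Zs 𝕜 t) 1 t

lemma norm_cd_le (t : ℤ) (x : X 𝕜) : ‖cd t x‖ ≤ ‖x‖ :=
  lp.norm_apply_le_norm (p := 1) (by norm_num) (x : lp (fun t : ℤ => Zs 𝕜 t) 1) t

lemma X_ext {x y : X 𝕜} (h : ∀ t, cd t x = cd t y) : x = y :=
  lp.ext (E := fun t : ℤ => Zs 𝕜 t) (p := 1) (funext h)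

variable (𝕜)

/-- `(T x)_t = x_{t+1}`. -/
noncomputable def T : X 𝕜 →L[𝕜] X 𝕜 :=
  compL (F := fun t : ℤ => Zs 𝕜 t) (p := 1) (by norm_num) (Equiv.addRight (1 : ℤ))
    (fun t => conv (t + 1) t) (K := 2) (by norm_num) (fun t x => norm_conv_le_two (by simp) x)

/-- `(T⁻¹ x)_t = x_{t-1}`. -/
noncomputable def Ti : X 𝕜 →L[𝕜] X 𝕜 :=
  compL (F := fun t : ℤ => Zs 𝕜 t) (p := 1) (by norm_num) (Equiv.subRight (1 : ℤ))
    (fun t => conv (t - 1) t) (K := 2) (by norm_num) (fun t x => norm_conv_le_two (by simp) x)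

variable {𝕜}

lemma T_apply (x : X 𝕜) (t : ℤ) : cd t (T 𝕜 x) = conv (t + 1) t (cd (t + 1) x) := rfl
lemma Ti_apply (x : X 𝕜) (t : ℤ) : cd t (Ti 𝕜 x) = conv (t - 1) t (cd (t - 1) x) := rfl

lemma conv_congr {s s' t : ℤ} (h : s = s') (x : X 𝕜) :
    conv s t (cd s x) = conv s' t (cd s' x) := by
  subst h; rfl

lemma T_Ti (x : X 𝕜) : T 𝕜 (Ti 𝕜 x) = x := by
  refine X_ext fun t => ?_
  rw [T_apply, Ti_apply, conv_trans]
  exact (conv_congr (show t + 1 - 1 = t by ring) x).trans (conv_self t _)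

lemma Ti_T (x : X 𝕜) : Ti 𝕜 (T 𝕜 x) = x := by
  refine X_ext fun t => ?_
  rw [Ti_apply, T_apply, conv_trans]
  exact (conv_congr (show t - 1 + 1 = t by ring) x).trans (conv_self t _)

variable (𝕜)

/-- `T` as an invertible operator. -/
noncomputable def Te : X 𝕜 ≃L[𝕜] X 𝕜 := ContinuousLinearEquiv.equivOfInverse (T 𝕜) (Ti 𝕜) Ti_T T_Ti

variable {𝕜}

lemma norm_T_le (x : X 𝕜) : ‖T 𝕜 x‖ ≤ 2 * ‖x‖ :=
  norm_compL_le (F := fun t : ℤ => Zs 𝕜 t) (p := 1) _ _ _ _ _ x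

lemma norm_Ti_le (x : X 𝕜) : ‖Ti 𝕜 x‖ ≤ 2 * ‖x‖ :=
  norm_compL_le (F := fun t : ℤ => Zs 𝕜 t) (p := 1) _ _ _ _ _ x

lemma T_iter (q : ℕ) (x : X 𝕜) (t : ℤ) : cd t ((T 𝕜)^[q] x) = conv (t + q) t (cd (t + q) x) := by
  induction q generalizing t with
  | zero =>
    rw [Function.iterate_zero, id]
    exact ((conv_congr (show t + ((0 : ℕ) : ℤ) = t by simp) x).trans (conv_self t _)).symm
  | succ q ih =>
    rw [Function.iterate_succ_apply', T_apply, ih, conv_trans]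
    exact conv_congr (by push_cast; ring) _

/-! ### Periodic points -/

section periodic

variable {p : ℝ≥0∞} [hp1 : Fact (1 ≤ p)]

/-- The functional `y₀` at the origin. -/
noncomputable def Λ (x : lp (fun _ : ℤ => X 𝕜) p) : 𝕜 :=
  av 0 (fn 0 ((cd 0 (x 0) : Zs 𝕜 0) : l1 𝕜))

lemma continuous_Λ : Continuous (Λ (𝕜 := 𝕜) (p := p)) := by
  have h1 : Continuous fun x : lp (fun _ : ℤ => X 𝕜) p => x 0 :=
    (lp.evalCLM 𝕜 (fun _ : ℤ => X 𝕜) p 0).continuous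
  exact (continuous_av 0 0).comp (continuous_subtype_val.comp ((cd 0).continuous.comp h1))

/-- The functional `Λ` vanishes on the periodic points. -/
theorem Λ_periodic (hp : p ≠ ∞) {τ : lp (fun _ : ℤ => X 𝕜) p → lp (fun _ : ℤ => X 𝕜) p}
    (hτ : ∀ x n, τ x n = T 𝕜 (x (n + 1))) {x : lp (fun _ : ℤ => X 𝕜) p} {q : ℕ} (hq : 0 < q)
    (hx : τ^[q] x = x) : Λ x = 0 := by
  -- all multiples are periods
  have hper : ∀ j : ℕ, τ^[q * j] x = x := by
    intro j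
    rw [Function.iterate_mul]
    exact Function.iterate_fixed hx j
  have hper2 : ∀ j : ℕ, cd 0 (x 0) = conv ((q * j : ℕ) : ℤ) 0
      (cd ((q * j : ℕ) : ℤ) (x ((q * j : ℕ) : ℤ))) := by
    intro j
    have h1 := congrArg (fun y : lp (fun _ : ℤ => X 𝕜) p => cd 0 (y 0)) (hper j)
    simp only at h1
    rw [iter_apply hτ, T_iter] at h1
    rw [← h1, zero_add]
  generalize hy : cd 0 (x 0) = y at hper2
  have hΛ : Λ x = av 0 (fn 0 (y : l1 𝕜)) := by rw [Λ, hy]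
  set z : ℕ → 𝕜 := fn 0 (y : l1 𝕜) with hz
  -- estimate of the coordinates
  have hest : ∀ i : ℕ, ‖z i‖ ≤ 2 ^ q * ‖x ((q * (i / q) : ℕ) : ℤ)‖ := by
    intro i
    have h3 := hper2 (i / q)
    generalize hm : q * (i / q) = m at h3 ⊢
    have h4 : z i = ((cd (m : ℤ) (x (m : ℤ)) : Zs 𝕜 (m : ℤ)) : l1 𝕜) i / w 𝕜 m i := by
      rw [hz, h3]
      unfold fn
      rw [conv_apply]
      have e1 := w_ne 𝕜 0 i
      have e2 := w_ne 𝕜 m i
      field_simp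
    have h5 : ‖((cd (m : ℤ) (x (m : ℤ)) : Zs 𝕜 (m : ℤ)) : l1 𝕜) i‖ ≤ ‖x (m : ℤ)‖ :=
      (abs_le_l1 _ i).trans (norm_cd_le _ _)
    have h6 : (1 : ℝ) ≤ 2 ^ q * W m i := by
      unfold W
      have h7 : ((i : ℤ) - (m : ℤ)).natAbs ≤ q := by
        have e1 := Nat.div_add_mod i q
        have e2 := Nat.mod_lt i hq
        omega
      have h8 : (1 / 2 : ℝ) ^ q ≤ (1 / 2) ^ ((i : ℤ) - (m : ℤ)).natAbs :=
        pow_le_pow_of_le_one (by norm_num) (by norm_num) h7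
      calc (1 : ℝ) = 2 ^ q * (1 / 2) ^ q := by rw [← mul_pow]; norm_num
        _ ≤ _ := mul_le_mul_of_nonneg_left h8 (by positivity)
    rw [h4, norm_div, norm_w, div_le_iff₀ (W_pos m i)]
    calc ‖((cd (m : ℤ) (x (m : ℤ)) : Zs 𝕜 (m : ℤ)) : l1 𝕜) i‖ ≤ ‖x (m : ℤ)‖ := h5
      _ = ‖x (m : ℤ)‖ * 1 := (mul_one _).symm
      _ ≤ ‖x (m : ℤ)‖ * (2 ^ q * W m i) := mul_le_mul_of_nonneg_left h6 (norm_nonneg _)
      _ = _ := by ring
  -- the coordinates tend to zero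
  have hz0 : Tendsto (fun i => ‖z i‖) atTop (𝓝 0) := by
    have h1 : Tendsto (fun n : ℕ => ‖x (n : ℤ)‖) atTop (𝓝 0) := by
      rw [← Nat.cofinite_eq_atTop]
      exact (tendsto_coord hp x).comp (Nat.cast_injective.tendsto_cofinite)
    have h2 : Tendsto (fun i : ℕ => q * (i / q)) atTop atTop := by
      refine tendsto_atTop_mono (fun i => ?_) (tendsto_sub_atTop_nat q)
      have e1 := Nat.div_add_mod i q
      have e2 := Nat.mod_lt i hq
      omega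
    have h3 := (h1.comp h2).const_mul ((2 : ℝ) ^ q)
    rw [mul_zero] at h3
    exact squeeze_zero (fun i => norm_nonneg _) hest h3
  -- the means tend to zero
  have hav : ∀ k, av k z = Λ x := fun k => (y.2 k).trans hΛ.symm
  have hlim : ∀ ε : ℝ, 0 < ε → ‖Λ x‖ ≤ 0 + ε := by
    intro ε hε
    obtain ⟨i₀, hi₀⟩ := eventually_atTop.1 (hz0.eventually (gt_mem_nhds hε))
    have h1 : ‖av i₀ z‖ ≤ ε := by
      unfold av
      have hQ : (0 : ℝ) < Q (i₀ + 1) := by exact_mod_cast Q_pos _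
      rw [norm_div, RCLike.norm_natCast, div_le_iff₀ hQ]
      refine (norm_sum_le _ _).trans ?_
      calc ∑ i ∈ blk i₀, ‖z i‖ ≤ ∑ _i ∈ blk i₀, ε := by
            refine Finset.sum_le_sum fun i hi => (hi₀ i ?_).le
            have h2 := (Finset.mem_Ico.1 hi).1
            have h3 := lt_Q (i₀ + 1)
            omega
        _ = ε * Q (i₀ + 1) := by rw [Finset.sum_const, card_blk, nsmul_eq_mul, mul_comm]
    rw [hav i₀] at h1
    linarith
  have := le_of_forall_pos_le_add hlim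
  exact norm_le_zero_iff.1 this

end periodic

end scal

end Q101.Fhc
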