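import Pool.Agent.Q101.FhcB

/-!
# Elementary vectors and their modifications
-/

set_option autoImplicit false
set_option linter.unusedSectionVars false

namespace Q101.Fhc

open Filter Topology
open scoped ENNReal

variable {𝕜 : Type} [RCLike 𝕜]

/-- Admissible sequences: the elements of the spaces `Z_t`. -/
structure Adm (z : ℕ → 𝕜) : Prop where
  sum : Summable fun i => W 0 i * ‖z i‖
  mean : ∀ k, av k z = av 0 z

lemma Adm.sum' {z : ℕ → 𝕜} (h : Adm z) (t : ℤ) : Summable fun i => W t i * ‖z i‖ := by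
  refine Summable.of_nonneg_of_le (fun i => mul_nonneg (W_pos t i).le (norm_nonneg _)) (fun i => ?_)
    (h.sum.mul_left ((2 : ℝ) ^ (0 - t).natAbs))
  rw [← mul_assoc]
  exact mul_le_mul_of_nonneg_right (W_le 0 t i) (norm_nonneg _)

/-- The element of `Z_t` given by an admissible sequence. -/
noncomputable def mk (t : ℤ) {z : ℕ → 𝕜} (h : Adm z) : Zs 𝕜 t :=
  ⟨⟨fun i => w 𝕜 t i * z i, mem_l1 (by
    refine (h.sum' t).congr fun i => ?_
    rw [norm_mul, norm_w])⟩, by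
    intro k
    have e : fn t (fun i => w 𝕜 t i * z i) = z := by
      ext i
      show w 𝕜 t i * z i / w 𝕜 t i = z i
      rw [mul_comm, mul_div_assoc, div_self (w_ne 𝕜 t i), mul_one]
    show av k (fn t fun i => w 𝕜 t i * z i) = av 0 (fn t fun i => w 𝕜 t i * z i)
    rw [e]
    exact h.mean k⟩

lemma mk_apply (t : ℤ) {z : ℕ → 𝕜} (h : Adm z) (i : ℕ) :
    ((mk t h : Zs 𝕜 t) : l1 𝕜) i = w 𝕜 t i * z i := rfl

lemma conv_mk (t t' : ℤ) {z : ℕ → 𝕜} (h : Adm z) : conv t t' (mk t h) = mk t' h := by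
  ext i
  rw [conv_apply, mk_apply, mk_apply]
  have h1 := w_ne 𝕜 t i
  field_simp

lemma norm_mk (t : ℤ) {z : ℕ → 𝕜} (h : Adm z) : ‖mk t h‖ = ∑' i, W t i * ‖z i‖ := by
  have e : ‖mk t h‖ = ‖((mk t h : Zs 𝕜 t) : l1 𝕜)‖ := rfl
  rw [e, norm_l1]
  refine tsum_congr fun i => ?_
  rw [mk_apply, norm_mul, norm_w]

/-- Every element of `Z_t` is given by an admissible sequence. -/
lemma exists_adm (t : ℤ) (y : Zs 𝕜 t) : ∃ (z : ℕ → 𝕜) (h : Adm z), mk t h = y := by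
  have h1 : ∀ i, w 𝕜 t i * fn t (y : l1 𝕜) i = (y : l1 𝕜) i := by
    intro i
    unfold fn
    rw [mul_div_assoc', mul_comm, mul_div_assoc, div_self (w_ne 𝕜 t i), mul_one]
  have h2 : Summable fun i => W t i * ‖fn t (y : l1 𝕜) i‖ := by
    refine (summable_l1 (y : l1 𝕜)).congr fun i => ?_
    have h3 := congrArg norm (h1 i)
    rw [norm_mul, norm_w] at h3
    exact h3.symm
  refine ⟨fn t (y : l1 𝕜), ⟨?_, y.2⟩, ?_⟩
  · refine Summable.of_nonneg_of_le (fun i => mul_nonneg (W_pos 0 i).le (norm_nonneg _))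
      (fun i => ?_) (h2.mul_left ((2 : ℝ) ^ (t - 0).natAbs))
    rw [← mul_assoc]
    exact mul_le_mul_of_nonneg_right (W_le t 0 i) (norm_nonneg _)
  · ext i
    rw [mk_apply, h1]

/-! ### Vectors of `X` -/

/-- The vector of `X` with one coordinate. -/
noncomputable def row (t : ℤ) : Zs 𝕜 t →ₗ[𝕜] X 𝕜 := lp.lsingle (𝕜 := 𝕜) (E := fun t : ℤ => Zs 𝕜 t) 1 t

lemma cd_row_self (t : ℤ) (y : Zs 𝕜 t) : cd t (row t y) = y :=
  lp.single_apply_self (E := fun t : ℤ => Zs 𝕜 t) 1 t y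

lemma cd_row_ne {s t : ℤ} (h : s ≠ t) (y : Zs 𝕜 t) : cd s (row t y) = 0 :=
  lp.single_apply_ne (E := fun t : ℤ => Zs 𝕜 t) 1 t y h

lemma norm_row (t : ℤ) (y : Zs 𝕜 t) : ‖row t y‖ = ‖y‖ :=
  lp.norm_single (E := fun t : ℤ => Zs 𝕜 t) (p := 1) (by norm_num) t y

lemma T_row (t : ℤ) {z : ℕ → 𝕜} (h : Adm z) : T 𝕜 (row (t + 1) (mk (t + 1) h)) = row t (mk t h) := by
  refine X_ext fun s => ?_
  rw [T_apply]
  by_cases hs : s = t
  · subst hs
    rw [cd_row_self, cd_row_self, conv_mk]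
  · rw [cd_row_ne hs, cd_row_ne (by omega), map_zero]

lemma hasSum_row (x : X 𝕜) : HasSum (fun t => row t (cd t x)) x :=
  lp.hasSum_single (E := fun t : ℤ => Zs 𝕜 t) (p := 1) (by norm_num) x

/-! ### Vectors of `ℓ_p(X)` -/

section lp

variable {p : ℝ≥0∞} [hp1 : Fact (1 ≤ p)]

section general

variable {Y : Type*} [NormedAddCommGroup Y] [NormedSpace 𝕜 Y]

variable (𝕜) in
/-- The vector of `ℓ_p(Y)` with one coordinate. -/
noncomputable def sg (n : ℤ) : Y →ₗ[𝕜] lp (fun _ : ℤ => Y) p :=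
  lp.lsingle (𝕜 := 𝕜) (E := fun _ : ℤ => Y) p n

lemma sg_self (n : ℤ) (y : Y) : (sg 𝕜 (p := p) n y) n = y :=
  lp.single_apply_self (E := fun _ : ℤ => Y) p n y

lemma sg_ne {m n : ℤ} (h : m ≠ n) (y : Y) : (sg 𝕜 (p := p) n y) m = 0 :=
  lp.single_apply_ne (E := fun _ : ℤ => Y) p n y h

lemma norm_sg (n : ℤ) (y : Y) : ‖sg 𝕜 (p := p) n y‖ = ‖y‖ :=
  lp.norm_single (E := fun _ : ℤ => Y) (zero_lt_one.trans_le hp1.out) n y

lemma hasSum_sg (hp : p ≠ ∞) (x : lp (fun _ : ℤ => Y) p) : HasSum (fun n => sg 𝕜 n (x n)) x :=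
  lp.hasSum_single (E := fun _ : ℤ => Y) hp x

lemma τ_sg {τ : lp (fun _ : ℤ => Y) p → lp (fun _ : ℤ => Y) p} {T : Y →L[𝕜] Y}
    (hτ : ∀ x n, τ x n = T (x (n + 1))) (n : ℤ) (y : Y) :
    τ (sg 𝕜 (n + 1) y) = sg 𝕜 n (T y) := by
  refine lp.ext (funext fun m => ?_)
  rw [hτ]
  by_cases hm : m = n
  · subst hm
    rw [sg_self, sg_self]
  · rw [sg_ne hm, sg_ne (by omega), map_zero]

end general

/-- The elementary vectors. -/
noncomputable def el (n t : ℤ) {z : ℕ → 𝕜} (h : Adm z) : lp (fun _ : ℤ => X 𝕜) p :=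
  sg 𝕜 n (row t (mk t h))

lemma norm_el (n t : ℤ) {z : ℕ → 𝕜} (h : Adm z) :
    ‖el (p := p) n t h‖ = ∑' i, W t i * ‖z i‖ := by
  rw [el, norm_sg, norm_row, norm_mk]

lemma τ_el {τ : lp (fun _ : ℤ => X 𝕜) p → lp (fun _ : ℤ => X 𝕜) p}
    (hτ : ∀ x n, τ x n = T 𝕜 (x (n + 1))) (n t : ℤ) {z : ℕ → 𝕜} (h : Adm z) :
    τ (el (n + 1) (t + 1) h) = el n t h := by
  rw [el, el, τ_sg hτ, T_row]

end lp

/-! ### Modified sequences -/

section modify

/-- The modified sequence: equal to `z` below `Q (k₀+1)`, concentrated at the points `ι k`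
above. -/
noncomputable def mdf (k₀ : ℕ) (ι : ℕ → ℕ) (z : ℕ → 𝕜) (i : ℕ) : 𝕜 :=
  if i < Q (k₀ + 1) then z i else Function.extend ι (fun k => Q (k + 1) * av 0 z) 0 i

variable {k₀ : ℕ} {ι : ℕ → ℕ} {z : ℕ → 𝕜} (hι : ∀ k, ι k ∈ blk k)

include hι

lemma blk_bounds (k : ℕ) : Q (k + 1) ≤ ι k ∧ ι k < 2 * Q (k + 1) := Finset.mem_Ico.1 (hι k)

lemma ι_inj : Function.Injective ι := by
  intro k l h
  by_contra hne
  rcases lt_or_gt_of_ne hne with hlt | hlt
  · have h1 := (blk_bounds hι k).2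
    have h2 := (blk_bounds hι l).1
    have h3 : Q (k + 1 + 1) ≤ Q (l + 1) := Q_mono (by omega)
    have h4 := Q_big (k + 1)
    omega
  · have h1 := (blk_bounds hι l).2
    have h2 := (blk_bounds hι k).1
    have h3 : Q (l + 1 + 1) ≤ Q (k + 1) := Q_mono (by omega)
    have h4 := Q_big (l + 1)
    omega

lemma mdf_low {i : ℕ} (h : i < Q (k₀ + 1)) : mdf k₀ ι z i = z i := by
  unfold mdf
  rw [if_pos h]

lemma mdf_ι {k : ℕ} (hk : k₀ ≤ k) : mdf k₀ ι z (ι k) = Q (k + 1) * av 0 z := by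
  unfold mdf
  have h1 := (blk_bounds hι k).1
  have h2 : Q (k₀ + 1) ≤ Q (k + 1) := Q_mono (by omega)
  rw [if_neg (by omega), (ι_inj hι).extend_apply]

lemma mdf_zero {i : ℕ} (h : Q (k₀ + 1) ≤ i) (hi : ∀ k, ι k ≠ i) : mdf k₀ ι z i = 0 := by
  unfold mdf
  rw [if_neg (not_lt.2 h), Function.extend_apply' _ _ _ (by
    rintro ⟨k, hk⟩
    exact hi k hk)]
  rfl

/-- Above `Q (k₀+1)` the modified sequence is either zero or at one of the points `ι k`. -/
lemma mdf_cases {i : ℕ} (h : Q (k₀ + 1) ≤ i) : mdf k₀ ι z i = 0 ∨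
    ∃ k, ι k = i ∧ mdf k₀ ι z i = Q (k + 1) * av 0 z := by
  by_cases hi : ∃ k, ι k = i
  · obtain ⟨k, rfl⟩ := hi
    refine Or.inr ⟨k, rfl, mdf_ι hι ?_⟩
    by_contra hk
    push Not at hk
    have h1 := (blk_bounds hι k).2
    have h3 : Q (k + 1 + 1) ≤ Q (k₀ + 1) := Q_mono (by omega)
    have h4 := Q_big (k + 1)
    omega
  · push Not at hi
    exact Or.inl (mdf_zero hι h hi)

lemma abs_mdf_le {i : ℕ} (h : Q (k₀ + 1) ≤ i) : ‖mdf k₀ ι z i‖ ≤ i * ‖av 0 z‖ := by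
  rcases mdf_cases hι (z := z) h with h1 | ⟨k, hk, h1⟩
  · rw [h1, norm_zero]
    positivity
  · rw [h1, norm_mul, RCLike.norm_natCast]
    refine mul_le_mul_of_nonneg_right ?_ (norm_nonneg _)
    have := (blk_bounds hι k).1
    rw [hk] at this
    exact_mod_cast this

omit hι in
lemma W_zero (i : ℕ) : W 0 i = (1 / 2) ^ i := by
  unfold W
  simp

omit hι in
lemma summable_iW (t : ℤ) : Summable fun i : ℕ => W t i * i := by
  have h1 : Summable fun i : ℕ => (i : ℝ) ^ 1 * (1 / 2 : ℝ) ^ i :=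
    summable_pow_mul_geometric_of_norm_lt_one 1 (by norm_num)
  refine Summable.of_nonneg_of_le (fun i => mul_nonneg (W_pos t i).le (Nat.cast_nonneg _))
    (fun i => ?_) (h1.mul_left ((2 : ℝ) ^ (0 - t).natAbs))
  have h2 := W_le 0 t i
  rw [W_zero] at h2
  calc W t i * i ≤ (2 ^ (0 - t).natAbs * (1 / 2) ^ i) * i :=
        mul_le_mul_of_nonneg_right h2 (Nat.cast_nonneg _)
    _ = _ := by ring

/-- The modified sequence is admissible. -/
lemma adm_mdf (hz : Adm z) : Adm (mdf k₀ ι z) := by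
  refine ⟨?_, ?_⟩
  · have h1 : Summable fun i : ℕ => W 0 i * ‖z i‖ + W 0 i * i * ‖av 0 z‖ :=
      hz.sum.add ((summable_iW 0).mul_right _)
    refine Summable.of_nonneg_of_le (fun i => mul_nonneg (W_pos 0 i).le (norm_nonneg _))
      (fun i => ?_) h1
    have hW := (W_pos 0 i).le
    by_cases hi : i < Q (k₀ + 1)
    · rw [mdf_low hι hi]
      have : 0 ≤ W 0 i * i * ‖av 0 z‖ := by positivity
      linarith
    · have h2 := abs_mdf_le hι (z := z) (not_lt.1 hi)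
      have h3 : W 0 i * ‖mdf k₀ ι z i‖ ≤ W 0 i * (i * ‖av 0 z‖) :=
        mul_le_mul_of_nonneg_left h2 hW
      have h4 : 0 ≤ W 0 i * ‖z i‖ := by positivity
      linarith [mul_assoc (W 0 i) (i : ℝ) ‖av 0 z‖]
  · have hav : ∀ k, av k (mdf k₀ ι z) = av 0 z := by
      intro k
      by_cases hk : k < k₀
      · rw [← hz.mean k]
        unfold av
        congr 1
        refine Finset.sum_congr rfl fun i hi => mdf_low hι ?_
        have h1 := (Finset.mem_Ico.1 hi).2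
        have h2 := Q_big (k + 1)
        have h3 : Q (k + 1 + 1) ≤ Q (k₀ + 1) := Q_mono (by omega)
        omega
      · push Not at hk
        have hQ : (Q (k + 1) : 𝕜) ≠ 0 := by exact_mod_cast (Q_pos (k + 1)).ne'
        have h1 : ∑ i ∈ blk k, mdf k₀ ι z i = Q (k + 1) * av 0 z := by
          rw [Finset.sum_eq_single (ι k)]
          · exact mdf_ι hι hk
          · intro i hi hne
            have hi' := Finset.mem_Ico.1 hi
            have h2 : Q (k₀ + 1) ≤ Q (k + 1) := Q_mono (by omega)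
            refine mdf_zero hι (h2.trans hi'.1) ?_
            rintro l rfl
            have h3 := blk_bounds hι l
            rcases lt_trichotomy l k with h | h | h
            · have h4 : Q (l + 1 + 1) ≤ Q (k + 1) := Q_mono (by omega)
              have h5 := Q_big (l + 1)
              omega
            · exact hne (by rw [h])
            · have h4 : Q (k + 1 + 1) ≤ Q (l + 1) := Q_mono (by omega)
              have h5 := Q_big (k + 1)
              omega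
          · intro h
            exact absurd (hι k) h
        unfold av at h1 ⊢
        rw [h1]
        field_simp
    intro k
    rw [hav, hav]

end modify

/-! ### Estimates -/

/-- Polynomials are dominated by exponentials. -/
lemma exists_poly (N : ℕ) : ∃ M : ℝ, 0 < M ∧ ∀ w : ℕ, (1 / 2 : ℝ) ^ w * (1 + w) ^ N ≤ M := by
  have h1 : Tendsto (fun n : ℕ => (n : ℝ) ^ N * (1 / 2 : ℝ) ^ n) atTop (𝓝 0) :=
    tendsto_pow_const_mul_const_pow_of_abs_lt_one N (by rw [abs_of_pos] <;> norm_num)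
  have h2 := h1.comp (tendsto_add_atTop_nat 1)
  obtain ⟨M, hM⟩ := h2.bddAbove_range
  refine ⟨max 1 (2 * M), lt_max_of_lt_left one_pos, fun w => ?_⟩
  have h3 : ((w + 1 : ℕ) : ℝ) ^ N * (1 / 2 : ℝ) ^ (w + 1) ≤ M := hM ⟨w, rfl⟩
  refine le_trans ?_ (le_max_right _ _)
  push_cast at h3
  rw [pow_succ] at h3
  rw [add_comm (1 : ℝ)]
  linarith

/-- The approximation estimate. -/
theorem approx (t : ℤ) {z : ℕ → 𝕜} (hz : Adm z) {ε : ℝ} (hε : 0 < ε) :
    ∃ K₀ : ℕ, ∀ k₀, K₀ ≤ k₀ → ∀ (ι : ℕ → ℕ) (hι : ∀ k, ι k ∈ blk k),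
      ‖mk t (adm_mdf (k₀ := k₀) hι hz) - mk t hz‖ ≤ ε := by
  let d : ℕ → ℝ := fun i => W t i * ‖z i‖ + W t i * i * ‖av 0 z‖
  have hd : Summable d := (hz.sum' t).add ((summable_iW t).mul_right _)
  have hd0 : ∀ i, 0 ≤ d i := fun i => by
    have := (W_pos t i).le
    positivity
  have htail : Tendsto (fun n : ℕ => ∑' i, d (i + n)) atTop (𝓝 0) := tendsto_sum_nat_add d
  obtain ⟨n₀, hn₀⟩ := eventually_atTop.1 (htail.eventually (gt_mem_nhds hε))
  refine ⟨n₀, fun k₀ hk₀ ι hι => ?_⟩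
  set q := Q (k₀ + 1) with hq
  have hqn : n₀ ≤ q := by
    have := lt_Q (k₀ + 1)
    omega
  have hdf : ∀ i, W t i * ‖mdf k₀ ι z i - z i‖ ≤ if i < q then 0 else d i := by
    intro i
    have hW := (W_pos t i).le
    split_ifs with hi
    · rw [mdf_low hι hi, sub_self, norm_zero, mul_zero]
    · have h2 := abs_mdf_le hι (z := z) (not_lt.1 hi)
      have h3 : ‖mdf k₀ ι z i - z i‖ ≤ i * ‖av 0 z‖ + ‖z i‖ :=
        (norm_sub_le _ _).trans (add_le_add h2 le_rfl)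
      refine (mul_le_mul_of_nonneg_left h3 hW).trans (le_of_eq ?_)
      simp only [d]
      ring
  have hsum2 : Summable fun i => if i < q then 0 else d i :=
    Summable.of_nonneg_of_le (fun i => by split_ifs; exacts [le_rfl, hd0 i])
      (fun i => by split_ifs; exacts [hd0 i, le_rfl]) hd
  have hts : ∑' i, (if i < q then 0 else d i) = ∑' i, d (i + q) := by
    rw [← hsum2.sum_add_tsum_nat_add q, Finset.sum_eq_zero, zero_add]
    · refine tsum_congr fun i => ?_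
      rw [if_neg (by omega)]
    · intro i hi
      rw [if_pos (Finset.mem_range.1 hi)]
  have e : ‖mk t (adm_mdf (k₀ := k₀) hι hz) - mk t hz‖ =
      ∑' i, W t i * ‖mdf k₀ ι z i - z i‖ := by
    have e1 : ‖mk t (adm_mdf (k₀ := k₀) hι hz) - mk t hz‖ =
        ‖((mk t (adm_mdf (k₀ := k₀) hι hz) : Zs 𝕜 t) : l1 𝕜) - ((mk t hz : Zs 𝕜 t) : l1 𝕜)‖ := rfl
    rw [e1, norm_l1]
    refine tsum_congr fun i => ?_
    rw [lp.coeFn_sub, Pi.sub_apply, mk_apply, mk_apply, ← mul_sub, norm_mul, norm_w]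
  rw [e]
  have hs1 : Summable fun i => W t i * ‖mdf k₀ ι z i - z i‖ :=
    Summable.of_nonneg_of_le (fun i => mul_nonneg (W_pos t i).le (norm_nonneg _)) hdf hsum2
  calc ∑' i, W t i * ‖mdf k₀ ι z i - z i‖ ≤ ∑' i, (if i < q then 0 else d i) :=
        hs1.tsum_le_tsum hdf hsum2
    _ = ∑' i, d (i + q) := hts
    _ ≤ ε := (hn₀ q hqn).le

/-- The decay estimate. -/
theorem decay (k₀ : ℕ) (t : ℤ) {z : ℕ → 𝕜} (hz : Adm z) : ∃ K : ℝ, 0 ≤ K ∧
    ∀ (s : ℤ) (ι : ℕ → ℕ) (hι : ∀ k, ι k ∈ blk k), (∀ k, (Q k : ℤ) ≤ |(ι k : ℤ) - (t + s)|) →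
      ‖mk (t + s) (adm_mdf (k₀ := k₀) hι hz)‖ ≤ K / (1 + |(s : ℝ)|) ^ 3 := by
  obtain ⟨M, hM0, hM⟩ := exists_poly 12
  -- the coefficients
  set τ : ℝ := 1 + |(t : ℝ)| with hτ
  have hτ1 : 1 ≤ τ := by have := abs_nonneg (t : ℝ); linarith
  let c₁ : ℕ → ℝ := fun i => if i < Q (k₀ + 1) then M * 2 ^ (t.natAbs + i) * ‖z i‖ else 0
  let c₂ : ℕ → ℝ := fun i => (129 ^ 3 * 130 ^ 3 * M * τ ^ 3 * ‖av 0 z‖) * (1 / (1 + (i : ℝ)) ^ 2)
  have hc₁ : Summable c₁ := summable_of_ne_finset_zero (s := Finset.range (Q (k₀ + 1)))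
    fun i hi => if_neg fun h => hi (Finset.mem_range.2 h)
  have hc₂ : Summable c₂ := by
    refine Summable.mul_left _ ?_
    have h := (summable_nat_add_iff 1).2 (Real.summable_one_div_nat_pow.2 (one_lt_two))
    refine h.congr fun n => ?_
    push_cast
    rw [add_comm]
  have hc10 : ∀ i, 0 ≤ c₁ i := fun i => by
    simp only [c₁]
    split_ifs
    · positivity
    · exact le_rfl
  have hc20 : ∀ i, 0 ≤ c₂ i := fun i => by
    simp only [c₂]
    positivity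
  refine ⟨∑' i, (c₁ i + c₂ i), tsum_nonneg fun i => add_nonneg (hc10 i) (hc20 i),
    fun s ι hι hfree => ?_⟩
  have hs0 : (0 : ℝ) < (1 + |(s : ℝ)|) ^ 3 := by positivity
  have hpt : ∀ i, W (t + s) i * ‖mdf k₀ ι z i‖ ≤ (c₁ i + c₂ i) / (1 + |(s : ℝ)|) ^ 3 := by
    intro i
    rw [le_div_iff₀ hs0]
    set w := ((i : ℤ) - (t + s)).natAbs with hw
    have hWw : W (t + s) i = (1 / 2) ^ w := rfl
    have hsw : |(s : ℝ)| ≤ |(t : ℝ)| + i + w := by
      have h1 : s.natAbs ≤ t.natAbs + i + w := by omega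
      have h2 : (s.natAbs : ℝ) ≤ t.natAbs + i + w := by exact_mod_cast h1
      rwa [Nat.cast_natAbs, Nat.cast_natAbs, Int.cast_abs, Int.cast_abs] at h2
    by_cases hi : i < Q (k₀ + 1)
    · rw [mdf_low hι hi]
      have h1 : c₁ i = M * 2 ^ (t.natAbs + i) * ‖z i‖ := if_pos hi
      -- `W ≤ 2^(|t|+i) 2^(-|s|)`
      have h2 : W (t + s) i ≤ 2 ^ (t.natAbs + i) * (1 / 2) ^ s.natAbs := by
        have h3 : s.natAbs ≤ w + (t.natAbs + i) := by omega
        have h4 : (1 / 2 : ℝ) ^ (w + (t.natAbs + i)) ≤ (1 / 2) ^ s.natAbs :=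
          pow_le_pow_of_le_one (by norm_num) (by norm_num) h3
        rw [hWw]
        have h5 : (2 : ℝ) ^ (t.natAbs + i) * (1 / 2) ^ (t.natAbs + i) = 1 := by
          rw [← mul_pow]; norm_num
        rw [pow_add] at h4
        calc (1 / 2 : ℝ) ^ w = 2 ^ (t.natAbs + i) * ((1 / 2) ^ w * (1 / 2) ^ (t.natAbs + i)) := by
              rw [mul_comm ((1 / 2 : ℝ) ^ w), ← mul_assoc, h5, one_mul]
          _ ≤ _ := mul_le_mul_of_nonneg_left h4 (by positivity)
      have h6 : (1 / 2 : ℝ) ^ s.natAbs * (1 + |(s : ℝ)|) ^ 3 ≤ M := by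
        have h7 := hM s.natAbs
        rw [Nat.cast_natAbs, Int.cast_abs] at h7
        refine le_trans (mul_le_mul_of_nonneg_left ?_ (by positivity)) h7
        exact pow_le_pow_right₀ (by have := abs_nonneg (s : ℝ); linarith) (by norm_num)
      have h8 : W (t + s) i * ‖z i‖ * (1 + |(s : ℝ)|) ^ 3 ≤
          (2 ^ (t.natAbs + i) * (1 / 2) ^ s.natAbs) * ‖z i‖ * (1 + |(s : ℝ)|) ^ 3 :=
        mul_le_mul_of_nonneg_right (mul_le_mul_of_nonneg_right h2 (norm_nonneg _)) hs0.le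
      have h9 : (2 ^ (t.natAbs + i) * (1 / 2) ^ s.natAbs) * ‖z i‖ * (1 + |(s : ℝ)|) ^ 3
          = 2 ^ (t.natAbs + i) * ‖z i‖ * ((1 / 2) ^ s.natAbs * (1 + |(s : ℝ)|) ^ 3) := by ring
      have h10 : 2 ^ (t.natAbs + i) * ‖z i‖ * ((1 / 2) ^ s.natAbs * (1 + |(s : ℝ)|) ^ 3)
          ≤ 2 ^ (t.natAbs + i) * ‖z i‖ * M := mul_le_mul_of_nonneg_left h6 (by positivity)
      have h11 := hc20 i
      rw [h1]
      calc _ ≤ _ := h8
        _ = _ := h9
        _ ≤ _ := h10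
        _ = M * 2 ^ (t.natAbs + i) * ‖z i‖ := by ring
        _ ≤ _ := by linarith
    · rcases mdf_cases hι (z := z) (not_lt.1 hi) with h1 | ⟨k, hk, h1⟩
      · rw [h1, norm_zero, mul_zero, zero_mul]
        exact add_nonneg (hc10 i) (hc20 i)
      · -- the main case
        have hb := blk_bounds hι k
        have hf := hfree k
        rw [hk] at hb hf
        have hwQ : Q k ≤ w := by
          rw [← Int.natCast_natAbs] at hf
          exact_mod_cast hf
        have hQk := Q_succ_le k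
        have hQ1 := Q_pos k
        have hiw : i ≤ 128 * (w * w) := by
          have : Q k * Q k ≤ w * w := Nat.mul_le_mul hwQ hwQ
          omega
        have hiwR : (i : ℝ) ≤ 128 * (w * w) := by exact_mod_cast hiw
        have hw0 : (0 : ℝ) ≤ w := Nat.cast_nonneg _
        have hi0 : (0 : ℝ) ≤ i := Nat.cast_nonneg _
        set y : ℝ := 1 + w with hy
        have hy1 : 1 ≤ y := by linarith
        have hyy : (w : ℝ) * w ≤ y ^ 2 := by rw [hy]; nlinarith
        have hy2 : 1 ≤ y ^ 2 := one_le_pow₀ hy1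
        have b1 : (i : ℝ) ≤ 129 * y ^ 2 := by nlinarith
        have b2 : 1 + (i : ℝ) ≤ 129 * y ^ 2 := by nlinarith
        have b3 : 1 + |(s : ℝ)| ≤ τ * (130 * y ^ 2) := by
          have b4 : 1 + |(s : ℝ)| ≤ τ + (i + w) := by rw [hτ]; linarith
          have b5 : (i : ℝ) + w ≤ 129 * y ^ 2 := by nlinarith
          have b6 : τ + (i + w) ≤ τ * (1 + (i + w)) := by nlinarith
          refine b4.trans (b6.trans (mul_le_mul_of_nonneg_left ?_ (by linarith)))
          linarith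
        have b7 : ‖mdf k₀ ι z i‖ ≤ i * ‖av 0 z‖ := abs_mdf_le hι (not_lt.1 hi)
        have hM' := hM w
        rw [← hy] at hM'
        have hA : 0 ≤ ‖av 0 z‖ := norm_nonneg _
        -- combine
        have h2 : W (t + s) i * ‖mdf k₀ ι z i‖ * (1 + |(s : ℝ)|) ^ 3 * (1 + (i : ℝ)) ^ 2 ≤
            129 ^ 3 * 130 ^ 3 * M * τ ^ 3 * ‖av 0 z‖ := by
          have g1 : W (t + s) i * ‖mdf k₀ ι z i‖ ≤ (1 / 2) ^ w * (129 * y ^ 2 * ‖av 0 z‖) := by
            rw [hWw]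
            refine mul_le_mul_of_nonneg_left (b7.trans ?_) (by positivity)
            exact mul_le_mul_of_nonneg_right b1 hA
          have g2 : (1 + |(s : ℝ)|) ^ 3 ≤ (τ * (130 * y ^ 2)) ^ 3 :=
            pow_le_pow_left₀ (by positivity) b3 3
          have g3 : (1 + (i : ℝ)) ^ 2 ≤ (129 * y ^ 2) ^ 2 := pow_le_pow_left₀ (by positivity) b2 2
          have hWn := (W_pos (t + s) i).le
          calc W (t + s) i * ‖mdf k₀ ι z i‖ * (1 + |(s : ℝ)|) ^ 3 * (1 + (i : ℝ)) ^ 2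
              ≤ ((1 / 2) ^ w * (129 * y ^ 2 * ‖av 0 z‖)) * (τ * (130 * y ^ 2)) ^ 3
                * (129 * y ^ 2) ^ 2 := by
                refine mul_le_mul (mul_le_mul g1 g2 (by positivity) (by positivity)) g3
                  (by positivity) (by positivity)
            _ = (129 ^ 3 * 130 ^ 3 * τ ^ 3 * ‖av 0 z‖) * ((1 / 2) ^ w * y ^ 12) := by ring
            _ ≤ (129 ^ 3 * 130 ^ 3 * τ ^ 3 * ‖av 0 z‖) * M :=
                mul_le_mul_of_nonneg_left hM' (by positivity)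
            _ = _ := by ring
        have h3 : W (t + s) i * ‖mdf k₀ ι z i‖ * (1 + |(s : ℝ)|) ^ 3 ≤ c₂ i := by
          simp only [c₂]
          rw [mul_one_div, le_div_iff₀ (by positivity)]
          exact h2
        have h4 := hc10 i
        linarith
  rw [norm_mk]
  have hsum : Summable fun i => (c₁ i + c₂ i) / (1 + |(s : ℝ)|) ^ 3 := (hc₁.add hc₂).div_const _
  have hs1 : Summable fun i => W (t + s) i * ‖mdf k₀ ι z i‖ :=
    Summable.of_nonneg_of_le (fun i => mul_nonneg (W_pos _ i).le (norm_nonneg _)) hpt hsum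
  rw [← tsum_div_const]
  exact hs1.tsum_le_tsum hpt hsum

end Q101.Fhc
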