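import Pool.Agent.Q101.FhcA

/-!
# A criterion for frequent hypercyclicity
-/

set_option autoImplicit false

namespace Q101.Fhc

open Filter Topology

/-- The weight `1 / (1 + |s|)²`. -/
noncomputable def wt (s : ℤ) : ℝ := 1 / (1 + |(s : ℝ)|) ^ 2

lemma wt_nonneg (s : ℤ) : 0 ≤ wt s := by unfold wt; positivity

lemma summable_wt_nat : Summable fun n : ℕ => 1 / (1 + (n : ℝ)) ^ 2 := by
  have h := (summable_nat_add_iff 1).2 (Real.summable_one_div_nat_pow.2 (one_lt_two))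
  refine h.congr fun n => ?_
  push_cast
  rw [add_comm]

lemma summable_wt : Summable wt := by
  refine Summable.of_nat_of_neg ?_ ?_
  · refine summable_wt_nat.congr fun n => ?_
    unfold wt
    simp
  · refine summable_wt_nat.congr fun n => ?_
    unfold wt
    simp

section

variable {𝕜 : Type} [RCLike 𝕜] {E : Type*} [NormedAddCommGroup E] [NormedSpace 𝕜 E]
  [CompleteSpace E]

/-- **Criterion.** -/
theorem criterion (τ : E →L[𝕜] E) (v : ℕ → E)
    (hv : ∀ (x : E) (ε : ℝ), 0 < ε → ∀ L : ℕ, ∃ l, L ≤ l ∧ ‖v l - x‖ < ε)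
    (U : ℕ → ℕ → ℤ → E) (h1 : ∀ l a s, τ (U l a (s + 1)) = U l a s)
    (h2 : ∀ l a, ‖U l a 0 - v l‖ ≤ (1 / 2) ^ l)
    (h3 : ∀ l, ∃ K : ℝ, ∀ a m : ℕ, (m = 0 ∨ ∃ j, m ∈ At j) →
      ‖U l a ((a : ℤ) - m)‖ ≤ K / (1 + |(((a : ℤ) - m : ℤ) : ℝ)|) ^ 3) :
    ∃ x : E, ∀ V : Set E, IsOpen V → V.Nonempty → PosLowerDensity {n : ℕ | (τ^[n]) x ∈ V} := by
  choose K₀ hK₀ using h3
  set K : ℕ → ℝ := fun l => |K₀ l| with hKdef
  have hKn : ∀ l, 0 ≤ K l := fun l => abs_nonneg _
  have hK : ∀ l a m : ℕ, (m = 0 ∨ ∃ j, m ∈ At j) →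
      ‖U l a ((a : ℤ) - m)‖ ≤ K l / (1 + |(((a : ℤ) - m : ℤ) : ℝ)|) ^ 3 := fun l a m hm =>
    (hK₀ l a m hm).trans (div_le_div_of_nonneg_right (le_abs_self _) (by positivity))
  -- the levels
  let G : ℕ → ℕ := fun l => ⌈(2 : ℝ) ^ l * ∑ j ∈ Finset.range (l + 1), K j⌉₊
  let κ : ℕ → ℕ := fun l => l + ∑ j ∈ Finset.range (l + 1), G j
  have hκm : StrictMono κ := by
    refine strictMono_nat_of_lt_succ fun l => ?_
    show l + ∑ j ∈ Finset.range (l + 1), G j < (l + 1) + ∑ j ∈ Finset.range (l + 1 + 1), G j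
    rw [Finset.sum_range_succ G (l + 1)]
    omega
  have hκK : ∀ l' l, l ≤ l' → (2 : ℝ) ^ l' * K l ≤ Q (κ l') := by
    intro l' l hl
    have e1 : K l ≤ ∑ j ∈ Finset.range (l' + 1), K j :=
      Finset.single_le_sum (fun j _ => hKn j) (Finset.mem_range.2 (by omega))
    have e2 : (2 : ℝ) ^ l' * K l ≤ 2 ^ l' * ∑ j ∈ Finset.range (l' + 1), K j :=
      mul_le_mul_of_nonneg_left e1 (by positivity)
    have e3 : (2 : ℝ) ^ l' * ∑ j ∈ Finset.range (l' + 1), K j ≤ G l' := Nat.le_ceil _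
    have e4 : G l' ≤ κ l' := by
      have : G l' ≤ ∑ j ∈ Finset.range (l' + 1), G j :=
        Finset.single_le_sum (fun j _ => Nat.zero_le _) (Finset.mem_range.2 (by omega))
      show G l' ≤ l' + ∑ j ∈ Finset.range (l' + 1), G j
      omega
    have e5 : (G l' : ℝ) ≤ Q (κ l') := by exact_mod_cast e4.trans (lt_Q _).le
    linarith
  -- the index set
  let I : Type := {q : ℕ × ℕ // q.2 ∈ At (κ q.1)}
  have hinj : Function.Injective fun q : I => q.1.2 := by
    rintro ⟨⟨l, a⟩, hq⟩ ⟨⟨l', a'⟩, hq'⟩ h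
    simp only at h hq hq'
    subst h
    have := hκm.injective (disj hq hq')
    subst this
    rfl
  -- estimate at a time `m` of type `κ l'`
  have hmain : ∀ (l' m : ℕ), m ∈ At (κ l') → ∀ q : I, q.1.2 ≠ m →
      ‖U q.1.1 q.1.2 ((q.1.2 : ℤ) - m)‖ ≤ (1 / 2) ^ l' * wt ((q.1.2 : ℤ) - m) := by
    rintro l' m hm ⟨⟨l, a⟩, hq⟩ hne
    simp only at hq hne ⊢
    refine (hK l a m (Or.inr ⟨_, hm⟩)).trans ?_
    set r : ℝ := |(((a : ℤ) - m : ℤ) : ℝ)| with hr
    have hr0 : 0 ≤ r := abs_nonneg _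
    have hsep : (2 * Q (max (κ l) (κ l')) : ℝ) ≤ r := by
      have := sep hq hm hne
      rw [hr]
      exact_mod_cast this
    have hmax : max (κ l) (κ l') = κ (max l l') := (hκm.monotone.map_max).symm
    rw [hmax] at hsep
    have e1 := hκK (max l l') l (le_max_left _ _)
    have e2 : (2 : ℝ) ^ l' * K l ≤ 2 ^ (max l l') * K l :=
      mul_le_mul_of_nonneg_right (pow_le_pow_right₀ (by norm_num) (le_max_right _ _)) (hKn l)
    have hQ0 : (0 : ℝ) ≤ Q (κ (max l l')) := Nat.cast_nonneg _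
    have e3 : (2 : ℝ) ^ l' * K l ≤ 1 + r := by linarith
    have e4 : K l ≤ (1 / 2) ^ l' * (1 + r) := by
      have := mul_le_mul_of_nonneg_left e3 (show (0 : ℝ) ≤ (1 / 2) ^ l' by positivity)
      rwa [← mul_assoc, ← mul_pow, show (1 / 2 * 2 : ℝ) = 1 by norm_num, one_pow, one_mul] at this
    rw [div_le_iff₀ (by positivity)]
    refine e4.trans (le_of_eq ?_)
    unfold wt
    rw [← hr]
    field_simp
  -- estimate at time `0`
  have hzero : ∀ q : I, ‖U q.1.1 q.1.2 (q.1.2 : ℤ)‖ ≤ wt (q.1.2 : ℤ) := by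
    rintro ⟨⟨l, a⟩, hq⟩
    simp only at hq ⊢
    have h4 := hK l a 0 (Or.inl rfl)
    simp only [Nat.cast_zero, sub_zero] at h4
    refine h4.trans ?_
    set r : ℝ := |((a : ℤ) : ℝ)| with hr
    have hr0 : 0 ≤ r := abs_nonneg _
    have ha : (2 * Q (κ l) : ℝ) ≤ r := by
      have := le_of_mem hq
      have h5 : (2 * Q (κ l) : ℝ) ≤ a := by exact_mod_cast this
      rw [hr]
      refine h5.trans ?_
      rw [Int.cast_natCast]
      exact le_abs_self _
    have e1 := hκK l l le_rfl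
    have e2 : K l ≤ 2 ^ l * K l := le_mul_of_one_le_left (hKn l) (one_le_pow₀ (by norm_num))
    have hQ0 : (0 : ℝ) ≤ Q (κ l) := Nat.cast_nonneg _
    have e3 : K l ≤ 1 + r := by linarith
    rw [div_le_iff₀ (by positivity)]
    refine e3.trans (le_of_eq ?_)
    unfold wt
    rw [← hr]
    field_simp
  have hsumI : ∀ m : ℕ, Summable fun q : I => wt ((q.1.2 : ℤ) - m) := by
    intro m
    have : Function.Injective fun q : I => ((q.1.2 : ℤ) - m) := by
      intro q q' h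
      apply hinj
      simp only at h ⊢
      omega
    exact summable_wt.comp_injective this
  have hs0 : Summable fun q : I => U q.1.1 q.1.2 (q.1.2 : ℤ) := by
    refine Summable.of_norm_bounded (g := fun q : I => wt (q.1.2 : ℤ)) ?_ hzero
    simpa using hsumI 0
  -- iterates
  have hiter : ∀ (m : ℕ) (l a : ℕ) (s : ℤ), (τ^[m]) (U l a s) = U l a (s - m) := by
    intro m
    induction m with
    | zero => intro l a s; simp
    | succ m ih =>
      intro l a s
      rw [Function.iterate_succ_apply', ih, ← h1 l a (s - ((m + 1 : ℕ) : ℤ))]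
      congr 2
      push_cast
      ring
  set x : E := ∑' q : I, U q.1.1 q.1.2 (q.1.2 : ℤ) with hx
  have hτm : ∀ m : ℕ, HasSum (fun q : I => U q.1.1 q.1.2 ((q.1.2 : ℤ) - m)) ((τ^[m]) x) := by
    intro m
    have e1 : ∀ y, (τ ^ m) y = (τ^[m]) y := fun y => by
      rw [← FunLike.coe_pow_eq_iterate]
    have e2 := hs0.hasSum.mapL (τ ^ m)
    have e3 : (fun q : I => (τ ^ m) (U q.1.1 q.1.2 (q.1.2 : ℤ)))
        = fun q : I => U q.1.1 q.1.2 ((q.1.2 : ℤ) - m) := funext fun q => by rw [e1, hiter]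
    rw [e3, e1] at e2
    exact e2
  set c : ℝ := ∑' s : ℤ, wt s with hc
  have hc0 : 0 ≤ c := tsum_nonneg wt_nonneg
  have hclose : ∀ (l m : ℕ), m ∈ At (κ l) → ‖(τ^[m]) x - v l‖ ≤ (1 + c) * (1 / 2) ^ l := by
    intro l m hm
    classical
    let q₀ : I := ⟨(l, m), hm⟩
    have e1 := (hτm m).summable.tsum_eq_add_tsum_ite q₀
    rw [(hτm m).tsum_eq] at e1
    have e2 : U q₀.1.1 q₀.1.2 ((q₀.1.2 : ℤ) - m) = U l m 0 := by
      show U l m ((m : ℤ) - m) = U l m 0
      rw [sub_self]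
    rw [e2] at e1
    have e3 : ‖∑' q : I, ite (q = q₀) 0 (U q.1.1 q.1.2 ((q.1.2 : ℤ) - m))‖ ≤ (1 / 2) ^ l * c := by
      have f1 : ‖∑' q : I, ite (q = q₀) 0 (U q.1.1 q.1.2 ((q.1.2 : ℤ) - m))‖ ≤
          (1 / 2) ^ l * ∑' q : I, wt ((q.1.2 : ℤ) - m) := by
        refine tsum_of_norm_bounded ((hsumI m).hasSum.mul_left _) fun q => ?_
        by_cases hq : q = q₀
        · rw [if_pos hq, norm_zero]
          exact mul_nonneg (by positivity) (wt_nonneg _)
        · rw [if_neg hq]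
          refine hmain l m hm q fun h => hq ?_
          exact hinj h
      refine f1.trans (mul_le_mul_of_nonneg_left ?_ (by positivity))
      have hinj2 : Function.Injective fun q : I => ((q.1.2 : ℤ) - m) := by
        intro q q' h
        apply hinj
        simp only at h ⊢
        omega
      exact tsum_comp_le_tsum_of_inj summable_wt wt_nonneg hinj2
    have e4 : (τ^[m]) x - v l = (U l m 0 - v l)
        + ∑' q : I, ite (q = q₀) 0 (U q.1.1 q.1.2 ((q.1.2 : ℤ) - m)) := by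
      rw [e1]; abel
    rw [e4]
    refine (norm_add_le _ _).trans ?_
    have e5 := h2 l m
    rw [add_mul, one_mul, mul_comm c]
    exact add_le_add e5 e3
  refine ⟨x, fun V hV hVne => ?_⟩
  obtain ⟨y, hy⟩ := hVne
  obtain ⟨r, hr, hball⟩ := Metric.isOpen_iff.1 hV y hy
  have ht : Tendsto (fun l : ℕ => (1 + c) * (1 / 2 : ℝ) ^ l) atTop (𝓝 0) := by
    have := (tendsto_pow_atTop_nhds_zero_of_lt_one (r := (1 / 2 : ℝ)) (by norm_num)
      (by norm_num)).const_mul (1 + c)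
    rwa [mul_zero] at this
  obtain ⟨L, hL⟩ := eventually_atTop.1 (ht.eventually (gt_mem_nhds (half_pos hr)))
  obtain ⟨l, hl, hvl⟩ := hv y (r / 2) (half_pos hr) L
  refine (density (κ l)).mono fun m hm => hball ?_
  rw [Metric.mem_ball, dist_eq_norm]
  have e1 := hclose l m hm
  have e2 := hL l hl
  have e3 : (τ^[m]) x - y = ((τ^[m]) x - v l) + (v l - y) := by abel
  rw [e3]
  refine (norm_add_le _ _).trans_lt ?_
  linarith

end

end Q101.Fhc
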