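import Pool.Agent.Q101.FhcC
import Pool.Agent.Q101.FhcD

/-!
# A shift operator on `ℓ_p(X)` which is frequently hypercyclic but not Devaney chaotic
-/

set_option autoImplicit false
set_option linter.unusedSectionVars false

namespace Q101.Fhc

open Filter Topology
open scoped ENNReal

/-! ### The choice of the points -/

/-- The indices leading to free zones. -/
noncomputable def idx (b : ℤ) (k : ℕ) : ℕ := (exists_index b k).choose

lemma idx_mem (b : ℤ) (k : ℕ) : idx b k ∈ blk k := by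
  have h := (exists_index b k).choose_spec
  exact Finset.mem_Ico.2 ⟨h.1, h.2.1⟩

lemma idx_free (a m : ℕ) (t : ℤ) (hm : m = 0 ∨ ∃ j, m ∈ At j) (k : ℕ) :
    (Q k : ℤ) ≤ |(idx (a + t) k : ℤ) - (t + ((a : ℤ) - m))| := by
  have h := (exists_index (a + t) k).choose_spec.2.2
  have h1 := free hm h
  have h2 : ((a : ℤ) + t - ((exists_index (a + t) k).choose : ℕ)) - m
      = - ((idx (a + t) k : ℤ) - (t + ((a : ℤ) - m))) := by
    unfold idx
    ring
  rw [h2, abs_neg] at h1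
  exact h1

/-! ### The targets -/

variable {𝕜 : Type} [RCLike 𝕜] {p : ℝ≥0∞} [hp1 : Fact (1 ≤ p)]

variable (𝕜) in
/-- Targets: finite sums of elementary vectors. -/
abbrev Tg : Type := List (ℤ × ℤ × {z : ℕ → 𝕜 // Adm z})

/-- The vector given by a target. -/
noncomputable def val (L : Tg 𝕜) : lp (fun _ : ℤ => X 𝕜) p :=
  (L.map fun q => el q.1 q.2.1 q.2.2.2).sum

/-- The modified vectors. -/
noncomputable def UU (L : Tg 𝕜) (k₀ a : ℕ) (s : ℤ) : lp (fun _ : ℤ => X 𝕜) p :=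
  (L.map fun q => el (q.1 + s) (q.2.1 + s) (adm_mdf (k₀ := k₀) (idx_mem (a + q.2.1)) q.2.2.2)).sum

lemma val_nil : val (p := p) ([] : Tg 𝕜) = 0 := rfl

lemma val_cons (q : ℤ × ℤ × {z : ℕ → 𝕜 // Adm z}) (L : Tg 𝕜) :
    val (p := p) (q :: L) = el q.1 q.2.1 q.2.2.2 + val L := by
  unfold val
  rw [List.map_cons, List.sum_cons]

lemma val_append (L L' : Tg 𝕜) : val (p := p) (L ++ L') = val L + val L' := by
  unfold val
  rw [List.map_append, List.sum_append]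

lemma UU_nil (k₀ a : ℕ) (s : ℤ) : UU (p := p) ([] : Tg 𝕜) k₀ a s = 0 := rfl

lemma UU_cons (q : ℤ × ℤ × {z : ℕ → 𝕜 // Adm z}) (L : Tg 𝕜) (k₀ a : ℕ) (s : ℤ) :
    UU (p := p) (q :: L) k₀ a s =
      el (q.1 + s) (q.2.1 + s) (adm_mdf (k₀ := k₀) (idx_mem (a + q.2.1)) q.2.2.2)
        + UU L k₀ a s := by
  unfold UU
  rw [List.map_cons, List.sum_cons]

lemma UU_shift {τ : lp (fun _ : ℤ => X 𝕜) p →L[𝕜] lp (fun _ : ℤ => X 𝕜) p}
    (hτ : ∀ x n, τ x n = T 𝕜 (x (n + 1))) (L : Tg 𝕜) (k₀ a : ℕ) (s : ℤ) :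
    τ (UU L k₀ a (s + 1)) = UU L k₀ a s := by
  induction L with
  | nil => rw [UU_nil, UU_nil, map_zero]
  | cons q L ih =>
    rw [UU_cons, UU_cons, map_add, ih, ← add_assoc, ← add_assoc, τ_el hτ]

lemma el_congr {n n' t t' : ℤ} (hn : n = n') (ht : t = t') {z : ℕ → 𝕜} (h : Adm z) :
    el (p := p) n t h = el n' t' h := by
  subst hn; subst ht; rfl

lemma UU_approx (L : Tg 𝕜) {ε : ℝ} (hε : 0 < ε) : ∃ K₀ : ℕ, ∀ k₀, K₀ ≤ k₀ → ∀ a : ℕ,
    ‖UU (p := p) L k₀ a 0 - val L‖ ≤ ε := by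
  induction L generalizing ε with
  | nil => exact ⟨0, fun k₀ _ a => by rw [UU_nil, val_nil, sub_zero, norm_zero]; exact hε.le⟩
  | cons q L ih =>
    obtain ⟨K₁, h1⟩ := ih (half_pos hε)
    obtain ⟨K₂, h2⟩ := approx q.2.1 q.2.2.2 (half_pos hε)
    refine ⟨max K₁ K₂, fun k₀ hk a => ?_⟩
    have e1 := h1 k₀ ((le_max_left _ _).trans hk) a
    have e2 := h2 k₀ ((le_max_right _ _).trans hk) (idx (a + q.2.1)) (idx_mem (a + q.2.1))
    rw [UU_cons, val_cons]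
    have e3 : el (p := p) (q.1 + 0) (q.2.1 + 0)
        (adm_mdf (k₀ := k₀) (idx_mem (a + q.2.1)) q.2.2.2)
        = el q.1 q.2.1 (adm_mdf (k₀ := k₀) (idx_mem (a + q.2.1)) q.2.2.2) :=
      el_congr (add_zero _) (add_zero _) _
    rw [e3, add_sub_add_comm]
    refine (norm_add_le _ _).trans ?_
    have e4 : ‖el (p := p) q.1 q.2.1 (adm_mdf (k₀ := k₀) (idx_mem (a + q.2.1)) q.2.2.2)
        - el q.1 q.2.1 q.2.2.2‖ ≤ ε / 2 := by
      unfold el
      rw [← map_sub, norm_sg, ← map_sub, norm_row]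
      exact e2
    linarith

lemma UU_decay (L : Tg 𝕜) (k₀ : ℕ) : ∃ K : ℝ, ∀ a m : ℕ, (m = 0 ∨ ∃ j, m ∈ At j) →
    ‖UU (p := p) L k₀ a ((a : ℤ) - m)‖ ≤ K / (1 + |(((a : ℤ) - m : ℤ) : ℝ)|) ^ 3 := by
  induction L with
  | nil => exact ⟨0, fun a m _ => by rw [UU_nil, norm_zero, zero_div]⟩
  | cons q L ih =>
    obtain ⟨K₁, h1⟩ := ih
    obtain ⟨K₂, -, h2⟩ := decay k₀ q.2.1 q.2.2.2
    refine ⟨K₂ + K₁, fun a m hm => ?_⟩
    rw [UU_cons, add_div]
    refine (norm_add_le _ _).trans (add_le_add ?_ (h1 a m hm))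
    unfold el
    rw [norm_sg, norm_row]
    exact h2 ((a : ℤ) - m) (idx (a + q.2.1)) (idx_mem (a + q.2.1))
      (fun k => idx_free a m q.2.1 hm k)

/-! ### Density of the targets -/

/-- The targets form an additive submonoid. -/
noncomputable def MM : AddSubmonoid (lp (fun _ : ℤ => X 𝕜) p) where
  carrier := Set.range (val (𝕜 := 𝕜) (p := p))
  zero_mem' := ⟨[], rfl⟩
  add_mem' := by
    rintro _ _ ⟨L, rfl⟩ ⟨L', rfl⟩
    exact ⟨L ++ L', val_append L L'⟩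

lemma el_mem (n t : ℤ) {z : ℕ → 𝕜} (h : Adm z) : el (p := p) n t h ∈ MM (𝕜 := 𝕜) (p := p) :=
  ⟨[(n, t, ⟨z, h⟩)], by
    rw [val_cons, val_nil, add_zero]⟩

lemma continuous_sg (n : ℤ) {Y : Type*} [NormedAddCommGroup Y] [NormedSpace 𝕜 Y] :
    Continuous (sg 𝕜 (Y := Y) (p := p) n) :=
  AddMonoidHomClass.continuous_of_bound (sg 𝕜 (Y := Y) (p := p) n) 1 fun x => by
    rw [norm_sg, one_mul]

lemma dense_val (hp : p ≠ ∞) : DenseRange (val (𝕜 := 𝕜) (p := p)) := by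
  have hcl : ∀ x : lp (fun _ : ℤ => X 𝕜) p, x ∈ (MM (𝕜 := 𝕜) (p := p)).topologicalClosure := by
    intro x
    have h1 : ∀ (n : ℤ) (y : X 𝕜), sg 𝕜 n y ∈ (MM (𝕜 := 𝕜) (p := p)).topologicalClosure := by
      intro n y
      have h2 : HasSum (fun t => sg 𝕜 (p := p) n (row t (cd t y))) (sg 𝕜 n y) :=
        (hasSum_row y).map (sg 𝕜 (p := p) n) (continuous_sg n)
      refine isClosed_closure.mem_of_tendsto h2 (Eventually.of_forall fun s => ?_)
      refine (MM (𝕜 := 𝕜) (p := p)).topologicalClosure.sum_mem fun t _ => ?_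
      obtain ⟨z, hz, hzt⟩ := exists_adm t (cd t y)
      rw [← hzt]
      exact subset_closure (el_mem n t hz)
    have h3 := hasSum_sg (𝕜 := 𝕜) hp x
    exact isClosed_closure.mem_of_tendsto h3 (Eventually.of_forall fun s =>
      (MM (𝕜 := 𝕜) (p := p)).topologicalClosure.sum_mem fun n _ => h1 n _)
  intro x
  exact hcl x

/-! ### Separability -/

lemma separable_lp {ι : Type*} [Countable ι] {F : ι → Type*} [∀ i, NormedAddCommGroup (F i)]
    [∀ i, NormedSpace 𝕜 (F i)] [∀ i, TopologicalSpace.SeparableSpace (F i)] (hp : p ≠ ∞) :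
    TopologicalSpace.SeparableSpace (lp F p) := by
  classical
  rw [← TopologicalSpace.isSeparable_univ_iff]
  have h1 : TopologicalSpace.IsSeparable
      (⋃ i, Set.range (lp.lsingle (𝕜 := 𝕜) (E := F) p i)) := by
    refine TopologicalSpace.IsSeparable.iUnion fun i => ?_
    exact TopologicalSpace.isSeparable_range (lp.isometry_single i).continuous
  have h2 := (h1.span (R := 𝕜)).closure
  refine h2.mono fun x _ => ?_
  refine mem_closure_of_tendsto (lp.hasSum_single hp x) (Eventually.of_forall fun s => ?_)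
  exact Submodule.sum_mem _ fun i _ => Submodule.subset_span
    (Set.mem_iUnion.2 ⟨i, Set.mem_range_self (f := lp.lsingle (𝕜 := 𝕜) (E := F) p i) _⟩)

instance separable_l1 : TopologicalSpace.SeparableSpace (l1 𝕜) :=
  separable_lp (𝕜 := 𝕜) (by norm_num)

instance separable_Zs (t : ℤ) : TopologicalSpace.SeparableSpace (Zs 𝕜 t) :=
  (TopologicalSpace.IsSeparable.of_separableSpace (Zs 𝕜 t : Set (l1 𝕜))).separableSpace

instance separable_X : TopologicalSpace.SeparableSpace (X 𝕜) :=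
  separable_lp (𝕜 := 𝕜) (F := fun t : ℤ => Zs 𝕜 t) (p := 1) (by norm_num)

lemma separable_E (hp : p ≠ ∞) : TopologicalSpace.SeparableSpace (lp (fun _ : ℤ => X 𝕜) p) :=
  separable_lp (𝕜 := 𝕜) hp

/-- A dense sequence of targets. -/
lemma exists_dense_seq (hp : p ≠ ∞) : ∃ g : ℕ → Tg 𝕜, DenseRange fun n => val (p := p) (g n) := by
  have hsep := separable_E (𝕜 := 𝕜) hp
  have : SecondCountableTopology (lp (fun _ : ℤ => X 𝕜) p) :=
    UniformSpace.secondCountable_of_separable _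
  obtain ⟨t, hts, htc, htd⟩ := (dense_val (𝕜 := 𝕜) hp).exists_countable_dense_subset
  have hne : t.Nonempty := htd.nonempty
  obtain ⟨f, hf⟩ := htc.exists_eq_range hne
  have : ∀ n, ∃ L : Tg 𝕜, val (p := p) L = f n := fun n => hts (hf ▸ Set.mem_range_self n)
  choose g hg using this
  refine ⟨g, ?_⟩
  have e : (fun n => val (p := p) (g n)) = f := funext hg
  rw [e, DenseRange, ← hf]
  exact htd

/-- **Frequent hypercyclicity.** -/
theorem frequently (hp : p ≠ ∞) (τ : lp (fun _ : ℤ => X 𝕜) p →L[𝕜] lp (fun _ : ℤ => X 𝕜) p)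
    (hτ : ∀ x n, τ x n = T 𝕜 (x (n + 1))) :
    ∃ x, ∀ V : Set (lp (fun _ : ℤ => X 𝕜) p), IsOpen V → V.Nonempty →
      PosLowerDensity {n : ℕ | (τ^[n]) x ∈ V} := by
  obtain ⟨g, hg⟩ := exists_dense_seq (𝕜 := 𝕜) hp
  have hk : ∀ l : ℕ, ∃ k₀ : ℕ, ∀ a : ℕ, ‖UU (p := p) (g (Nat.unpair l).1) k₀ a 0
      - val (g (Nat.unpair l).1)‖ ≤ (1 / 2) ^ l := by
    intro l
    obtain ⟨K₀, h⟩ := UU_approx (p := p) (g (Nat.unpair l).1)
      (show (0 : ℝ) < (1 / 2) ^ l by positivity)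
    exact ⟨K₀, fun a => h K₀ le_rfl a⟩
  choose k₀ hk₀ using hk
  refine criterion τ (fun l => val (g (Nat.unpair l).1)) ?_
    (fun l a s => UU (g (Nat.unpair l).1) (k₀ l) a s) (fun l a s => UU_shift hτ _ _ _ _)
    (fun l a => hk₀ l a) (fun l => UU_decay _ _)
  intro x ε hε L
  obtain ⟨i, hi⟩ := Metric.denseRange_iff.1 hg x ε hε
  refine ⟨Nat.pair i L, Nat.right_le_pair i L, ?_⟩
  simp only [Nat.unpair_pair]
  rw [← dist_eq_norm, dist_comm]
  exact hi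

/-! ### The periodic points are not dense -/

/-- The constant sequence is admissible. -/
lemma adm_one : Adm (fun _ : ℕ => (1 : 𝕜)) := by
  refine ⟨?_, fun k => ?_⟩
  · have : Summable fun i : ℕ => (1 / 2 : ℝ) ^ i := summable_geometric_two
    refine this.congr fun i => ?_
    rw [W_zero, norm_one, mul_one]
  · have h : ∀ k, av k (fun _ : ℕ => (1 : 𝕜)) = 1 := by
      intro k
      unfold av
      rw [Finset.sum_const, card_blk, nsmul_eq_mul, mul_one]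
      exact div_self (by exact_mod_cast (Q_pos (k + 1)).ne')
    rw [h, h]

lemma Λ_el : Λ (el (p := p) 0 0 (adm_one (𝕜 := 𝕜))) = 1 := by
  unfold Λ el
  rw [sg_self, cd_row_self]
  have e : fn 0 ((mk 0 (adm_one (𝕜 := 𝕜)) : Zs 𝕜 0) : l1 𝕜) = fun _ : ℕ => (1 : 𝕜) := by
    ext i
    show w 𝕜 0 i * 1 / w 𝕜 0 i = 1
    rw [mul_one, div_self (w_ne 𝕜 0 i)]
  rw [e]
  unfold av
  rw [Finset.sum_const, card_blk, nsmul_eq_mul, mul_one]
  exact div_self (by exact_mod_cast (Q_pos (0 + 1)).ne')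

theorem not_dense_periodic (hp : p ≠ ∞) (τ : lp (fun _ : ℤ => X 𝕜) p → lp (fun _ : ℤ => X 𝕜) p)
    (hτ : ∀ x n, τ x n = T 𝕜 (x (n + 1))) :
    ¬ Dense {x : lp (fun _ : ℤ => X 𝕜) p | ∃ q : ℕ, 1 ≤ q ∧ τ^[q] x = x} := by
  intro hd
  have hcl : IsClosed {x : lp (fun _ : ℤ => X 𝕜) p | Λ x = 0} :=
    isClosed_eq continuous_Λ continuous_const
  have h1 : closure {x : lp (fun _ : ℤ => X 𝕜) p | ∃ q : ℕ, 1 ≤ q ∧ τ^[q] x = x} ⊆
      {x : lp (fun _ : ℤ => X 𝕜) p | Λ x = 0} :=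
    closure_minimal (fun x hx => by
      obtain ⟨q, hq, hx⟩ := hx
      exact Λ_periodic hp hτ hq hx) hcl
  have h2 : el (p := p) 0 0 (adm_one (𝕜 := 𝕜)) ∈ {x : lp (fun _ : ℤ => X 𝕜) p | Λ x = 0} :=
    h1 (hd _)
  have h3 : Λ (el (p := p) 0 0 (adm_one (𝕜 := 𝕜))) = 0 := h2
  rw [Λ_el] at h3
  exact one_ne_zero h3

end Q101.Fhc
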