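import Pool.Agent.Q101.FhcE

/-!
# Shift operators on `ℓ_p(X)`: frequent hypercyclicity does not imply Devaney chaos
-/

set_option autoImplicit false

namespace Q101.Fhc

open scoped ENNReal

section defs

variable {𝕜 : Type} [RCLike 𝕜]

/-- Hypercyclicity: some orbit `{T^n x : n ≥ 0}` is dense. -/
def IsHypercyclic {E : Type} [NormedAddCommGroup E] [NormedSpace 𝕜 E] (T : E →L[𝕜] E) : Prop :=
  ∃ x : E, Dense (Set.range fun n : ℕ => (T^[n]) x)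

/-- Devaney chaos: hypercyclicity and density of the periodic points. -/
def IsDevaneyChaotic {E : Type} [NormedAddCommGroup E] [NormedSpace 𝕜 E] (T : E →L[𝕜] E) : Prop :=
  IsHypercyclic T ∧ Dense {x : E | ∃ k : ℕ, 1 ≤ k ∧ (T^[k]) x = x}

/-- Frequent hypercyclicity. -/
def IsFrequentlyHypercyclic {E : Type} [NormedAddCommGroup E] [NormedSpace 𝕜 E] (T : E →L[𝕜] E) :
    Prop :=
  ∃ x : E, ∀ U : Set E, IsOpen U → U.Nonempty → PosLowerDensity {n : ℕ | (T^[n]) x ∈ U}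

/-- `σ` is the shift operator on `ℓ_p(X)` generated by the sequence `S`:
`σ (x)_n = S_{n+1} (x_{n+1})`. -/
def IsShiftOperator {X : Type} [NormedAddCommGroup X] [NormedSpace 𝕜 X] {p : ℝ≥0∞}
    [Fact (1 ≤ p)] (S : ℤ → X ≃L[𝕜] X)
    (σ : lp (fun _ : ℤ => X) p →L[𝕜] lp (fun _ : ℤ => X) p) : Prop :=
  ∀ (x : lp (fun _ : ℤ => X) p) (n : ℤ), σ x n = S (n + 1) (x (n + 1))

end defs

theorem main (𝕜 : Type) [RCLike 𝕜] :
    ∃ (X : Type) (_ : NormedAddCommGroup X) (_ : NormedSpace 𝕜 X),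
      CompleteSpace X ∧ TopologicalSpace.SeparableSpace X ∧
      ∃ S : ℤ → X ≃L[𝕜] X,
        (∃ C : ℝ, ∀ n, ‖((S n : X ≃L[𝕜] X) : X →L[𝕜] X)‖ ≤ C ∧
          ‖(((S n).symm : X ≃L[𝕜] X) : X →L[𝕜] X)‖ ≤ C) ∧
        ∀ (p : ℝ≥0∞) [Fact (1 ≤ p)], p ≠ ∞ →
          ∃ σ : lp (fun _ : ℤ => X) p →L[𝕜] lp (fun _ : ℤ => X) p,
            IsShiftOperator S σ ∧ IsFrequentlyHypercyclic σ ∧ ¬ IsDevaneyChaotic σ := by
  refine ⟨X 𝕜, inferInstance, inferInstance, inferInstance, separable_X, fun _ => Te 𝕜,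
    ⟨2, fun n => ⟨?_, ?_⟩⟩, fun p _ hp => ?_⟩
  · exact ContinuousLinearMap.opNorm_le_bound _ (by norm_num) norm_T_le
  · exact ContinuousLinearMap.opNorm_le_bound _ (by norm_num) norm_Ti_le
  · have hS : ∀ (n : ℤ) (x : X 𝕜), ‖T 𝕜 x‖ ≤ 2 * ‖x‖ := fun n x => norm_T_le x
    let σ := shiftOp (Y := X 𝕜) hp (fun _ => T 𝕜) (K := 2) (by norm_num) hS
    have hσ : ∀ x n, σ x n = T 𝕜 (x (n + 1)) := fun x n => rfl
    exact ⟨σ, fun x n => rfl, frequently hp σ hσ, fun h => not_dense_periodic hp σ hσ h.2⟩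

end Q101.Fhc
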