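import Pool.Agent.Q101.FhcF

/-!
# The statement for MP_7d5718, with short names
-/

set_option autoImplicit false

namespace Q101.Fhc

open scoped ENNReal

/-- The space `ℓ_p(X)` of bilateral `p`-summable sequences in `X`. -/
abbrev EllP (X : Type) [NormedAddCommGroup X] (p : ℝ≥0∞) : Type := lp (fun _ : ℤ => X) p

/-- Bounded operators on `E`. -/
abbrev Op (𝕜 E : Type) [RCLike 𝕜] [NormedAddCommGroup E] [NormedSpace 𝕜 E] : Type := E →L[𝕜] E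

/-- Invertible bounded operators on `E`. -/
abbrev InvOp (𝕜 E : Type) [RCLike 𝕜] [NormedAddCommGroup E] [NormedSpace 𝕜 E] : Type := E ≃L[𝕜] E

section shift

variable {𝕜 X : Type} [RCLike 𝕜] [NormedAddCommGroup X] [NormedSpace 𝕜 X]

/-- `sup_n max (‖S_n‖, ‖S_n⁻¹‖) < ∞`. -/
def UniformlyBounded (S : ℤ → InvOp 𝕜 X) : Prop :=
  ∃ C : ℝ, ∀ (n : ℤ) (x : X), ‖S n x‖ ≤ C * ‖x‖ ∧ ‖(S n).symm x‖ ≤ C * ‖x‖

/-- `σ` is the shift operator on `ℓ_p(X)` generated by `S`: `σ (x)_n = S_{n+1} (x_{n+1})`. -/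
def IsShift {p : ℝ≥0∞} [Fact (1 ≤ p)] (S : ℤ → InvOp 𝕜 X) (σ : Op 𝕜 (EllP X p)) : Prop :=
  ∀ (x : EllP X p) (n : ℤ), σ x n = S (n + 1) (x (n + 1))

/-- The shift operator generated by `S` on `ℓ_p(X)` is frequently hypercyclic and not Devaney
chaotic. -/
def FrequentNotChaotic (S : ℤ → InvOp 𝕜 X) (p : ℝ≥0∞) [Fact (1 ≤ p)] : Prop :=
  ∃ σ : Op 𝕜 (EllP X p), IsShift S σ ∧ IsFrequentlyHypercyclic σ ∧ ¬ IsDevaneyChaotic σ

end shift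

theorem main' (𝕜 : Type) [RCLike 𝕜] :
    ∃ (X : Type) (_ : NormedAddCommGroup X) (_ : NormedSpace 𝕜 X),
      CompleteSpace X ∧ TopologicalSpace.SeparableSpace X ∧
      ∃ S : ℤ → InvOp 𝕜 X, UniformlyBounded S ∧
        ∀ (p : ℝ≥0∞) [Fact (1 ≤ p)], p ≠ ∞ → FrequentNotChaotic S p := by
  obtain ⟨X, i1, i2, h1, h2, S, ⟨C, hC⟩, h3⟩ := main 𝕜
  refine ⟨X, i1, i2, h1, h2, S, ⟨C, fun n x => ⟨?_, ?_⟩⟩, fun p _ hp => h3 p hp⟩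
  · exact ((S n : X ≃L[𝕜] X) : X →L[𝕜] X).le_of_opNorm_le (hC n).1 x
  · exact (((S n).symm : X ≃L[𝕜] X) : X →L[𝕜] X).le_of_opNorm_le (hC n).2 x

end Q101.Fhc
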