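import Pool.Agent.Q101.SemiProj2

/-!
# The free Banach lattice on countably many generators of norm one
-/

set_option autoImplicit false

namespace Q101.Free

open Q101.LatLift Q101.CutOff Q101.SemiProj TopologicalSpace Filter Topology
open scoped ENNReal

universe u

/-- A Banach lattice, bundled. -/
structure BanLat : Type (u + 1) where
  /-- the underlying type -/
  carrier : Type u
  [grp : NormedAddCommGroup carrier]
  [spc : NormedSpace ℝ carrier]
  [cpl : CompleteSpace carrier]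
  [lat : Lattice carrier]
  [oam : IsOrderedAddMonoid carrier]
  [omd : IsOrderedModule ℝ carrier]
  [sld : HasSolidNorm carrier]

instance : CoeSort BanLat.{u} (Type u) := ⟨BanLat.carrier⟩

attribute [instance] BanLat.grp BanLat.spc BanLat.cpl BanLat.lat BanLat.oam BanLat.omd BanLat.sld

/-! ### `ℓ_∞`-sums -/

section Linf

variable {ι : Type*} {Z : ι → Type*} [∀ i, NormedAddCommGroup (Z i)] [∀ i, NormedSpace ℝ (Z i)]
  [∀ i, Lattice (Z i)] [∀ i, IsOrderedAddMonoid (Z i)] [∀ i, IsOrderedModule ℝ (Z i)]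
  [∀ i, HasSolidNorm (Z i)]

omit [∀ i, NormedSpace ℝ (Z i)] [∀ i, IsOrderedModule ℝ (Z i)] in
lemma mem_sup {f g : ∀ i, Z i} (hf : Memℓp f ∞) (hg : Memℓp g ∞) :
    Memℓp (fun i => f i ⊔ g i) ∞ := by
  rw [memℓp_infty_iff] at hf hg ⊢
  obtain ⟨A, hA⟩ := hf
  obtain ⟨B, hB⟩ := hg
  refine ⟨A + B, ?_⟩
  rintro _ ⟨i, rfl⟩
  exact (norm_sup_le_add _ _).trans (add_le_add (hA ⟨i, rfl⟩) (hB ⟨i, rfl⟩))

omit [∀ i, NormedSpace ℝ (Z i)] [∀ i, IsOrderedModule ℝ (Z i)] in
lemma mem_inf {f g : ∀ i, Z i} (hf : Memℓp f ∞) (hg : Memℓp g ∞) :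
    Memℓp (fun i => f i ⊓ g i) ∞ := by
  rw [memℓp_infty_iff] at hf hg ⊢
  obtain ⟨A, hA⟩ := hf
  obtain ⟨B, hB⟩ := hg
  refine ⟨A + B, ?_⟩
  rintro _ ⟨i, rfl⟩
  exact (norm_inf_le_add _ _).trans (add_le_add (hA ⟨i, rfl⟩) (hB ⟨i, rfl⟩))

/-- The coordinatewise order. -/
noncomputable instance latInf : Lattice (lp Z ∞) where
  le f g := ∀ i, f i ≤ g i
  le_refl f i := le_rfl
  le_trans f g h h1 h2 i := (h1 i).trans (h2 i)
  le_antisymm f g h1 h2 := lp.ext (funext fun i => le_antisymm (h1 i) (h2 i))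
  sup f g := ⟨fun i => f i ⊔ g i, mem_sup f.2 g.2⟩
  inf f g := ⟨fun i => f i ⊓ g i, mem_inf f.2 g.2⟩
  le_sup_left f g i := le_sup_left
  le_sup_right f g i := le_sup_right
  sup_le f g h h1 h2 i := sup_le (h1 i) (h2 i)
  inf_le_left f g i := inf_le_left
  inf_le_right f g i := inf_le_right
  le_inf f g h h1 h2 i := le_inf (h1 i) (h2 i)

omit [∀ i, NormedSpace ℝ (Z i)] [∀ i, IsOrderedModule ℝ (Z i)] in
lemma le_def (f g : lp Z ∞) : f ≤ g ↔ ∀ i, f i ≤ g i := Iff.rfl

omit [∀ i, NormedSpace ℝ (Z i)] [∀ i, IsOrderedModule ℝ (Z i)] in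
lemma abs_apply (f : lp Z ∞) (i : ι) : |f| i = |f i| := rfl

instance : IsOrderedAddMonoid (lp Z ∞) where
  add_le_add_left f g h k i := by
    show f i + k i ≤ g i + k i
    exact add_le_add_left (h i) _

instance : IsOrderedModule ℝ (lp Z ∞) where
  smul_le_smul_of_nonneg_left c hc f g h i := by
    show c • f i ≤ c • g i
    exact smul_le_smul_of_nonneg_left (h i) hc
  smul_le_smul_of_nonneg_right f hf c c' h i := by
    show c • f i ≤ c' • f i
    exact smul_le_smul_of_nonneg_right h (hf i)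

instance : HasSolidNorm (lp Z ∞) where
  solid f g h := by
    refine lp.norm_le_of_forall_le (norm_nonneg _) fun i => ?_
    have h1 : |f i| ≤ |g i| := h i
    exact (HasSolidNorm.solid h1).trans (lp.norm_apply_le_norm ENNReal.top_ne_zero g i)

end Linf

/-! ### Lattice-linear terms -/

/-- Terms in the variables `x₀, x₁, …`. -/
inductive Tm : Type
  | var : ℕ → Tm
  | add : Tm → Tm → Tm
  | smul : ℝ → Tm → Tm
  | abs : Tm → Tm

/-- Evaluation of terms. -/
noncomputable def ev {Z : Type u} [NormedAddCommGroup Z] [NormedSpace ℝ Z] [Lattice Z] (b : ℕ → Z) :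
    Tm → Z
  | .var n => b n
  | .add s t => ev b s + ev b t
  | .smul c t => c • ev b t
  | .abs t => |ev b t|

/-- Every linear combination of terms is a term. -/
lemma exists_term (c : Tm →₀ ℝ) : ∃ t : Tm, ∀ (Z : Type u) [NormedAddCommGroup Z] [NormedSpace ℝ Z]
    [Lattice Z] (b : ℕ → Z), ev b t = Finsupp.linearCombination ℝ (ev b) c := by
  classical
  induction c using Finsupp.induction_linear with
  | zero => exact ⟨.smul 0 (.var 0), fun Z _ _ _ b => by
      rw [map_zero, ev, zero_smul]⟩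
  | add f g hf hg =>
    obtain ⟨s, hs⟩ := hf
    obtain ⟨t, ht⟩ := hg
    exact ⟨.add s t, fun Z _ _ _ b => by rw [map_add, ev, hs, ht]⟩
  | single t a => exact ⟨.smul a t, fun Z _ _ _ b => by
      rw [Finsupp.linearCombination_single, ev]⟩

/-- The norm functions on the terms which come from Banach lattices. -/
def Idx : Type := {ν : Tm → ℝ // ∃ (W : BanLat.{u}) (b : ℕ → W), (∀ i, ‖b i‖ ≤ 1) ∧
  ∀ t, ν t = ‖ev b t‖}

/-- A witness. -/
noncomputable def W (i : Idx.{u}) : BanLat.{u} := i.2.choose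

/-- The generators of the witness. -/
noncomputable def bW (i : Idx.{u}) : ℕ → W i := i.2.choose_spec.choose

lemma norm_bW (i : Idx.{u}) (n : ℕ) : ‖bW i n‖ ≤ 1 := i.2.choose_spec.choose_spec.1 n

lemma norm_ev_bW (i : Idx.{u}) (t : Tm) : i.1 t = ‖ev (bW i) t‖ := i.2.choose_spec.choose_spec.2 t

/-- The big lattice. -/
abbrev L : Type u := lp (fun i : Idx.{u} => (W i : Type u)) ∞

/-- The generators. -/
noncomputable def g (n : ℕ) : L.{u} := ⟨fun i => bW i n, memℓp_infty ⟨1, by
  rintro _ ⟨i, rfl⟩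
  exact norm_bW i n⟩⟩

lemma g_apply (n : ℕ) (i : Idx.{u}) : g n i = bW i n := rfl

lemma norm_g (n : ℕ) : ‖g.{u} n‖ ≤ 1 :=
  lp.norm_le_of_forall_le zero_le_one fun i => norm_bW i n

lemma ev_g_apply (t : Tm) (i : Idx.{u}) : ev g.{u} t i = ev (bW i) t := by
  induction t with
  | var n => rfl
  | add s t hs ht =>
    rw [ev, ev, lp.coeFn_add, Pi.add_apply, hs, ht]
  | smul c t ht =>
    rw [ev, ev, lp.coeFn_smul, Pi.smul_apply, ht]
  | abs t ht =>
    rw [ev, ev, abs_apply, ht]

/-- The universal estimate. -/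
lemma norm_ev_le (Z : BanLat.{u}) (z : ℕ → Z) (hz : ∀ i, ‖z i‖ ≤ 1) (t : Tm) :
    ‖ev z t‖ ≤ ‖ev g.{u} t‖ := by
  let i : Idx.{u} := ⟨fun t => ‖ev z t‖, Z, z, hz, fun _ => rfl⟩
  have h1 : ‖ev z t‖ = ‖ev (bW i) t‖ := norm_ev_bW i t
  rw [h1, ← ev_g_apply]
  exact lp.norm_apply_le_norm ENNReal.top_ne_zero _ _

/-- The free Banach lattice as a subspace of `L`. -/
noncomputable def PS : Submodule ℝ L.{u} := (Submodule.span ℝ (Set.range (ev g.{u}))).topologicalClosure

lemma mem_span_iff {Z : Type u} [NormedAddCommGroup Z] [NormedSpace ℝ Z] [Lattice Z] {b : ℕ → Z}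
    {x : Z} (hx : x ∈ Submodule.span ℝ (Set.range (ev b))) : ∃ t, ev b t = x := by
  rw [Finsupp.mem_span_range_iff_exists_finsupp] at hx
  obtain ⟨c, rfl⟩ := hx
  obtain ⟨t, ht⟩ := exists_term.{u} c
  exact ⟨t, ht Z b⟩

lemma continuous_abs' {Z : Type*} [NormedAddCommGroup Z] [Lattice Z] [IsOrderedAddMonoid Z]
    [HasSolidNorm Z] : Continuous (fun x : Z => |x|) :=
  (LipschitzWith.of_dist_le_mul (K := 1) (fun x y => by
    rw [dist_eq_norm, dist_eq_norm, NNReal.coe_one, one_mul]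
    exact norm_abs_sub_abs x y)).continuous

lemma PS_sub : IsClosedSublattice PS.{u} where
  closed := Submodule.isClosed_topologicalClosure _
  abs x hx := by
    refine map_mem_closure (s := (Submodule.span ℝ (Set.range (ev g.{u})) : Set L.{u}))
      continuous_abs' hx ?_
    intro y hy
    obtain ⟨t, rfl⟩ := mem_span_iff hy
    exact Submodule.subset_span ⟨.abs t, rfl⟩

/-- a closed sublattice as a Banach lattice -/
@[reducible] noncomputable def subBan {X : Type u} [NormedAddCommGroup X] [NormedSpace ℝ X]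
    [CompleteSpace X] [Lattice X] [IsOrderedAddMonoid X] [IsOrderedModule ℝ X] [HasSolidNorm X]
    (B : Submodule ℝ X) (hB : IsClosedSublattice B) : BanLat.{u} :=
  letI : Lattice B := subLat B hB
  haveI : IsOrderedAddMonoid B :=
    { add_le_add_left := fun a b h c => by
        have h' : (a : X) ≤ b := h
        show (a : X) + c ≤ b + c
        exact add_le_add_left h' _ }
  haveI : IsOrderedModule ℝ B :=
    { smul_le_smul_of_nonneg_left := fun c hc a b h => by
        have h' : (a : X) ≤ b := h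
        show c • (a : X) ≤ c • (b : X)
        exact smul_le_smul_of_nonneg_left h' hc
      smul_le_smul_of_nonneg_right := fun a ha c c' h => by
        have h' : (0 : X) ≤ a := ha
        show c • (a : X) ≤ c' • (a : X)
        exact smul_le_smul_of_nonneg_right h h' }
  haveI : HasSolidNorm B :=
    { solid := fun a b h => by
        have h' : |(a : X)| ≤ |(b : X)| := h
        show ‖(a : X)‖ ≤ ‖(b : X)‖
        exact HasSolidNorm.solid h' }
  haveI : CompleteSpace B := hB.closed.completeSpace_coe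
  ⟨B⟩

/-- The free Banach lattice on countably many generators of norm one. -/
noncomputable def P : BanLat.{u} := subBan PS.{u} PS_sub

/-- The inclusion in the big lattice. -/
noncomputable def inc : P.{u} →ₗᵢ[ℝ] L.{u} := PS.{u}.subtypeₗᵢ

lemma inc_abs (x : P.{u}) : inc |x| = |inc x| := rfl

lemma inc_injective : Function.Injective inc.{u} := inc.injective

/-- Evaluation of terms in `P`. -/
noncomputable def eP (t : Tm) : P.{u} :=
  (⟨ev g t, Submodule.le_topologicalClosure _ (Submodule.subset_span ⟨t, rfl⟩)⟩ : PS.{u})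

lemma inc_eP (t : Tm) : inc.{u} (eP t) = ev g t := rfl

lemma dense_eP : DenseRange eP.{u} := by
  intro x
  have h1 : (inc x : L.{u}) ∈ closure (Submodule.span ℝ (Set.range (ev g.{u})) : Set L.{u}) :=
    (x : PS.{u}).2
  rw [Metric.mem_closure_iff] at h1 ⊢
  intro ε hε
  obtain ⟨y, hy, hxy⟩ := h1 ε hε
  obtain ⟨t, rfl⟩ := mem_span_iff hy
  exact ⟨eP t, ⟨t, rfl⟩, hxy⟩

lemma eP_abs (t : Tm) : eP.{u} (.abs t) = |eP t| := inc_injective rfl
lemma eP_add (s t : Tm) : eP.{u} (.add s t) = eP s + eP t := inc_injective rfl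
lemma eP_smul (c : ℝ) (t : Tm) : eP.{u} (.smul c t) = c • eP t := inc_injective rfl

lemma eP_comb (c : Tm →₀ ℝ) : inc.{u} (Finsupp.linearCombination ℝ eP c)
    = Finsupp.linearCombination ℝ (ev g.{u}) c := by
  have h := Finsupp.apply_linearCombination ℝ inc.{u}.toLinearMap eP c
  exact h

/-- **The universal property.** -/
theorem universal (Z : BanLat.{u}) (z : ℕ → Z) (hz : ∀ i, ‖z i‖ ≤ 1) :
    ∃ T : P.{u} →L[ℝ] Z, (∀ x, T |x| = |T x|) ∧ (∀ t, T (eP t) = ev z t) ∧ ‖T‖ ≤ 1 := by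
  let e : (Tm →₀ ℝ) →ₗ[ℝ] P.{u} := Finsupp.linearCombination ℝ eP
  let f : (Tm →₀ ℝ) →ₗ[ℝ] Z := Finsupp.linearCombination ℝ (ev z)
  have hd : DenseRange e := by
    refine dense_eP.mono ?_
    rintro _ ⟨t, rfl⟩
    exact ⟨Finsupp.single t 1, by simp [e]⟩
  have hn : ∀ c, ‖f c‖ ≤ 1 * ‖e c‖ := by
    intro c
    obtain ⟨t, ht⟩ := exists_term.{u} c
    have h1 : f c = ev z t := (ht Z z).symm
    have h2 : ‖e c‖ = ‖ev g.{u} t‖ := by
      rw [← inc.norm_map, eP_comb, ht L.{u} g]
    rw [h1, h2, one_mul]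
    exact norm_ev_le Z z hz t
  let T : P.{u} →L[ℝ] Z := f.extendOfNorm e
  have hT : ∀ c, T (e c) = f c := LinearMap.extendOfNorm_eq hd ⟨1, hn⟩
  have hT1 : ∀ t, T (eP t) = ev z t := by
    intro t
    have := hT (Finsupp.single t 1)
    simpa [e, f] using this
  refine ⟨T, fun x => ?_, hT1, LinearMap.opNorm_extendOfNorm_le hd zero_le_one hn⟩
  refine dense_eP.induction_on (p := fun x => T |x| = |T x|) x ?_ fun t => ?_
  · exact isClosed_eq (T.continuous.comp continuous_abs') (continuous_abs'.comp T.continuous)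
  · rw [← eP_abs, hT1, hT1, ev]

/-- `P` is separable. -/
theorem separableP : SeparableSpace P.{u} := by
  have hs : IsSeparable (Set.range g.{u}) := (Set.countable_range _).isSeparable
  obtain ⟨B, hB, hsB, hBsep⟩ := exists_sublattice hs
  have h1 : ∀ t, ev g.{u} t ∈ B := by
    intro t
    induction t with
    | var n => exact hsB ⟨n, rfl⟩
    | add s t hs ht => exact B.add_mem hs ht
    | smul c t ht => exact B.smul_mem c ht
    | abs t ht => exact hB.abs _ ht
  have h2 : PS.{u} ≤ B := by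
    refine Submodule.topologicalClosure_minimal _ (Submodule.span_le.2 ?_) hB.closed
    rintro _ ⟨t, rfl⟩
    exact h1 t
  exact (hBsep.mono h2).separableSpace

end Q101.Free
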