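import Pool.Agent.Q101.FreeA

/-!
# Separable Banach lattices are inductive limits of semiprojective ones
-/

set_option autoImplicit false

namespace Q101.Free

open Q101.LatLift Q101.CutOff Q101.SemiProj TopologicalSpace Filter Topology
open scoped ENNReal

universe u

/-- The free Banach lattice `P` is semiprojective. -/
theorem semiprojectiveP : IsSemiprojective.{u, u} P.{u} := by
  intro B _ _ _ _ _ _ _ _ I In hI hIn hmono hcl φ hφ hφ1
  refine ⟨0, fun ε hε => ?_⟩
  have hclI : IsClosed (I : Set B) := hI.closed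
  have hcl0 : IsClosed (In 0 : Set B) := (hIn 0).closed
  -- lifts of the generators
  have hlift : ∀ k : ℕ, ∃ b : B, (Submodule.Quotient.mk b : B ⧸ I) = φ (eP (.var k)) ∧
      ‖b‖ ≤ 1 + ε := by
    intro k
    have h1 : ‖φ (eP.{u} (.var k))‖ ≤ 1 := by
      have h2 : ‖eP.{u} (.var k)‖ ≤ 1 := by
        rw [← inc.norm_map, inc_eP]
        exact norm_g k
      have h3 := φ.le_opNorm (eP.{u} (.var k))
      nlinarith [norm_nonneg φ, norm_nonneg (eP.{u} (.var k))]
    obtain ⟨b, hb, hb'⟩ := Submodule.Quotient.norm_mk_lt (S := I) (φ (eP.{u} (.var k))) hε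
    exact ⟨b, hb, by linarith⟩
  choose b hb hbn using hlift
  have hε1 : 0 < 1 + ε := by linarith
  obtain ⟨T, hT1, hT2, hT3⟩ := universal.{u} ⟨B⟩ (fun k => (1 + ε)⁻¹ • b k) (fun k => by
    rw [norm_smul, norm_inv, Real.norm_of_nonneg hε1.le, inv_mul_le_iff₀ hε1, mul_one]
    exact hbn k)
  let ψ' : P.{u} →L[ℝ] B := (1 + ε) • (T : P.{u} →L[ℝ] B)
  have hψ'a : ∀ x, ψ' |x| = |ψ' x| := by
    intro x
    show (1 + ε) • (T |x| : B) = |(1 + ε) • (T x : B)|
    rw [abs_smul' hε1.le]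
    exact congrArg (fun y : B => (1 + ε) • y) (hT1 x)
  have hψ'n : ∀ x, ‖ψ' x‖ ≤ (1 + ε) * ‖x‖ := by
    intro x
    show ‖(1 + ε) • (T x : B)‖ ≤ _
    rw [norm_smul, Real.norm_of_nonneg hε1.le]
    refine mul_le_mul_of_nonneg_left ?_ hε1.le
    refine (T.le_opNorm x).trans ?_
    nlinarith [norm_nonneg x]
  -- the lift agrees with `φ` on terms
  have hterm : ∀ t : Tm, (Submodule.Quotient.mk (ψ' (eP t)) : B ⧸ I) = φ (eP t) := by
    intro t
    induction t with
    | var k =>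
      have h1 : ψ' (eP (.var k)) = b k := by
        show (1 + ε) • (T (eP (.var k)) : B) = b k
        rw [hT2]
        show (1 + ε) • ((1 + ε)⁻¹ • b k) = b k
        rw [smul_smul, mul_inv_cancel₀ hε1.ne', one_smul]
      rw [h1, hb]
    | add s t hs ht => rw [eP_add, map_add, map_add, Submodule.Quotient.mk_add, hs, ht]
    | smul c t ht => rw [eP_smul, map_smul, map_smul, Submodule.Quotient.mk_smul, ht]
    | abs t ht =>
      rw [eP_abs, hψ'a]
      exact hφ _ _ ht
  have hall : ∀ x, (Submodule.Quotient.mk (ψ' x) : B ⧸ I) = φ x := by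
    intro x
    refine dense_eP.induction_on (p := fun x => (Submodule.Quotient.mk (ψ' x) : B ⧸ I) = φ x) x ?_
      hterm
    exact isClosed_eq (I.mkQL.continuous.comp ψ'.continuous) φ.continuous
  have hsub : ∀ x ∈ In 0, x ∈ I := by
    intro x hx
    have : x ∈ (I : Set B) := by
      rw [hcl]
      exact subset_closure (Set.mem_iUnion.2 ⟨0, hx⟩)
    exact this
  refine ⟨(In 0).mkQL.comp ψ', ?_, ?_, ?_⟩
  · intro a x hx
    have h1 : (Submodule.Quotient.mk x : B ⧸ In 0) = Submodule.Quotient.mk (ψ' a) := hx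
    rw [Submodule.Quotient.eq] at h1
    show (Submodule.Quotient.mk |x| : B ⧸ In 0) = Submodule.Quotient.mk (ψ' |a|)
    rw [Submodule.Quotient.eq, hψ'a]
    exact (hIn 0).solid _ _ h1 (abs_abs_sub_abs_le x (ψ' a))
  · intro a x hx
    have h1 : (Submodule.Quotient.mk x : B ⧸ In 0) = Submodule.Quotient.mk (ψ' a) := hx
    rw [Submodule.Quotient.eq] at h1
    rw [← hall a, Submodule.Quotient.eq]
    exact hsub _ h1
  · refine ContinuousLinearMap.opNorm_le_bound _ hε1.le fun x => ?_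
    exact (Submodule.Quotient.norm_mk_le (In 0) (ψ' x)).trans (hψ'n x)

/-- Contractive lattice homomorphisms. -/
def IsContractiveHom {X Y : BanLat.{u}} (T : X →L[ℝ] Y) : Prop :=
  (∀ x : X, T |x| = |T x|) ∧ ‖T‖ ≤ 1

/-- The composites `φ_{n+k,n} : A_n → A_{n+k}` of the connecting maps. -/
noncomputable def comp (A : ℕ → BanLat.{u}) (φ : ∀ n, A n →L[ℝ] A (n + 1)) (n : ℕ) :
    ∀ k : ℕ, A n →L[ℝ] A (n + k)
  | 0 => ContinuousLinearMap.id ℝ (A n)
  | k + 1 => (φ (n + k)).comp (comp A φ n k)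

/-- `E` is (isometrically lattice isomorphic to) the inductive limit of `(A_n, φ_n)`: there are
lattice homomorphisms `θ_n : A_n → E` compatible with the connecting maps such that
`‖θ_n(x)‖ = lim_m ‖φ_{m,n}(x)‖` for `x ∈ A_n` and the union of their ranges is dense in `E`. -/
def IsInductiveLimit (A : ℕ → BanLat.{u}) (φ : ∀ n, A n →L[ℝ] A (n + 1)) (E : BanLat.{u}) : Prop :=
  ∃ θ : ∀ n, A n →L[ℝ] E,
    (∀ n (x : A n), θ n |x| = |θ n x|) ∧
    (∀ n (x : A n), θ (n + 1) (φ n x) = θ n x) ∧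
    (∀ n (x : A n), Tendsto (fun k => ‖comp A φ n k x‖) atTop (𝓝 ‖θ n x‖)) ∧
    Dense (⋃ n, Set.range (θ n))

/-- every separable Banach lattice is a metric lattice quotient of `P` -/
theorem exists_quotient (E : BanLat.{u}) [SeparableSpace E] :
    ∃ Q : P.{u} →L[ℝ] E, (∀ x, Q |x| = |Q x|) ∧ ‖Q‖ ≤ 1 ∧
      ∀ y : E, ∀ δ : ℝ, 0 < δ → ∃ x, Q x = y ∧ ‖x‖ ≤ (1 + δ) * ‖y‖ := by
  -- a dense countable subgroup of `E`
  let d : ℕ → E := denseSeq E
  let η : (ℕ →₀ ℤ) →+ E := (Finsupp.linearCombination ℤ d).toAddMonoidHom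
  have hη : ∀ a : E, a ∈ closure (Set.range η) := by
    intro a
    refine closure_mono ?_ (denseRange_denseSeq E a)
    rintro _ ⟨n, rfl⟩
    exact ⟨Finsupp.single n 1, by simp [η, d]⟩
  obtain ⟨ee, hee⟩ := exists_surjective_nat (ℕ →₀ ℤ)
  let z : ℕ → E := fun n => ‖η (ee n)‖⁻¹ • η (ee n)
  have hz : ∀ n, ‖z n‖ ≤ 1 := by
    intro n
    show ‖‖η (ee n)‖⁻¹ • η (ee n)‖ ≤ 1
    rw [norm_smul, norm_inv, norm_norm]
    exact inv_mul_le_one
  obtain ⟨Q, hQ1, hQ2, hQ3⟩ := universal.{u} E z hz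
  refine ⟨Q, hQ1, hQ3, fun y δ hδ => ?_⟩
  let f : NormedAddGroupHom P.{u} E :=
    { toFun := fun x => Q x
      map_add' := fun a b => map_add Q a b
      bound' := ⟨‖Q‖, Q.le_opNorm⟩ }
  have hsurj : f.SurjectiveOnWith η.range 1 := by
    rintro _ ⟨c, rfl⟩
    obtain ⟨n, rfl⟩ := hee c
    refine ⟨‖η (ee n)‖ • eP (.var n), ?_, ?_⟩
    · show Q (‖η (ee n)‖ • eP (.var n)) = η (ee n)
      rw [map_smul, hQ2]
      show ‖η (ee n)‖ • (‖η (ee n)‖⁻¹ • η (ee n)) = η (ee n)
      rcases eq_or_ne (η (ee n)) 0 with h | h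
      · rw [h]; simp
      · rw [smul_smul, mul_inv_cancel₀ (norm_ne_zero_iff.2 h), one_smul]
    · rw [norm_smul, norm_norm, one_mul]
      have h2 : ‖eP.{u} (.var n)‖ ≤ 1 := by
        rw [← inc.norm_map, inc_eP]
        exact norm_g n
      have h3 := norm_nonneg (η (ee n))
      nlinarith
  have h4 := controlled_closure_of_complete (one_pos) hδ hsurj y (by
    have := hη y
    exact this)
  obtain ⟨x, hx, hx'⟩ := h4
  exact ⟨x, hx, hx'⟩

section cut

variable {X : Type u} [NormedAddCommGroup X] [NormedSpace ℝ X] [CompleteSpace X] [Lattice X]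
  [IsOrderedAddMonoid X] [IsOrderedModule ℝ X] [HasSolidNorm X]

/-- the cut-offs tend to zero on the ideal -/
lemma cut_tendsto {w j : X} (hu : IsUnit' w) (hj0 : 0 ≤ j) {y : X} (hy : 0 ≤ y)
    (hj : ∀ ε : ℝ, 0 < ε → ∃ C : ℝ, 0 ≤ C ∧ ‖y - y ⊓ (C • j)‖ < ε) :
    Tendsto (fun n : ℕ => ‖F w (((n : ℝ) + 1) • j) hu y‖) atTop (𝓝 0) := by
  rw [Metric.tendsto_atTop]
  intro ε hε
  obtain ⟨C, hC, hCy⟩ := hj (ε / 2) (by positivity)
  obtain ⟨n₀, hn₀⟩ := exists_nat_gt (C * ‖w‖ / (ε / 2))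
  refine ⟨n₀, fun n hn => ?_⟩
  have hn1 : (0 : ℝ) < (n : ℝ) + 1 := by positivity
  have hw0 := hu.nonneg
  have hnn : C * ‖w‖ / (ε / 2) < n := hn₀.trans_le (by exact_mod_cast hn)
  set v := (y ⊓ (C • j) - (C / ((n : ℝ) + 1)) • w) ⊔ 0 with hv
  have hkill : F w (((n : ℝ) + 1) • j) hu v = 0 := by
    refine F_kill hu (c := C / ((n : ℝ) + 1)) (by positivity) ?_
    rw [abs_of_nonneg le_sup_right]
    refine sup_le ?_ (smul_nonneg (by positivity) le_sup_right)
    refine le_trans ?_ (smul_le_smul_of_nonneg_left le_sup_left (by positivity))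
    rw [smul_sub]
    refine sub_le_sub_right ?_ _
    rw [smul_smul, div_mul_cancel₀ _ hn1.ne']
    exact inf_le_right
  have h1 : ‖y ⊓ (C • j) - v‖ ≤ ‖(C / ((n : ℝ) + 1)) • w‖ := by
    refine HasSolidNorm.solid ?_
    have hp : 0 ≤ y ⊓ (C • j) := le_inf hy (smul_nonneg hC hj0)
    have hq : 0 ≤ (C / ((n : ℝ) + 1)) • w := smul_nonneg (by positivity) hw0
    have h2 : v ≤ y ⊓ (C • j) := sup_le (sub_le_self _ hq) hp
    rw [abs_of_nonneg (sub_nonneg.2 h2), abs_of_nonneg hq, sub_le_comm]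
    exact le_sup_left
  have h3 : ‖(C / ((n : ℝ) + 1)) • w‖ < ε / 2 := by
    rw [norm_smul, Real.norm_of_nonneg (by positivity), div_mul_eq_mul_div, div_lt_iff₀ hn1]
    rw [div_lt_iff₀ (by positivity)] at hnn
    nlinarith
  have h4 : y - v = (y - y ⊓ (C • j)) + (y ⊓ (C • j) - v) := by abel
  have h5 : ‖y - v‖ < ε := by
    rw [h4]
    refine (norm_add_le _ _).trans_lt ?_
    linarith
  have h6 : F w (((n : ℝ) + 1) • j) hu y = F w (((n : ℝ) + 1) • j) hu (y - v) := by
    rw [map_sub, hkill, sub_zero]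
  rw [dist_zero_right, norm_norm, h6]
  exact (norm_F_le _ _ hu _).trans_lt h5

lemma F_mono {w v : X} (hu : IsUnit' w) {x y : X} (hx : 0 ≤ x) (h : x ≤ y) :
    F w v hu x ≤ F w v hu y := by
  rw [F_of_nonneg hu hx, F_of_nonneg hu (hx.trans h)]
  exact M_mono hx h hu

lemma F_le {w v : X} (hu : IsUnit' w) {x : X} (hx : 0 ≤ x) : F w v hu x ≤ x := by
  rw [F_of_nonneg hu hx]
  exact M_le hx hu

lemma F_nonneg {w v : X} (hu : IsUnit' w) {x : X} (hx : 0 ≤ x) : 0 ≤ F w v hu x := by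
  rw [F_of_nonneg hu hx]
  exact M_nonneg hx hu

end cut

/-- **Main theorem.** -/
theorem main (E : BanLat.{u}) [SeparableSpace E] :
    ∃ (A : ℕ → BanLat.{u}) (φ : ∀ n, A n →L[ℝ] A (n + 1)),
      (∀ n, SeparableSpace (A n)) ∧ (∀ n, IsSemiprojective.{u, u} (A n)) ∧
      (∀ n, IsContractiveHom (φ n)) ∧ IsInductiveLimit A φ E := by
  obtain ⟨Q, hQ1, hQ2, hQ3⟩ := exists_quotient E
  have hsepP : SeparableSpace P.{u} := separableP
  -- the kernel
  let J : Submodule ℝ P.{u} := LinearMap.ker (Q : P.{u} →ₗ[ℝ] E)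
  have hmJ : ∀ x, x ∈ J ↔ Q x = 0 := fun x => Iff.rfl
  have hJ : IsClosedIdeal J := by
    refine ⟨Q.isClosed_ker, fun a b ha hab => ?_⟩
    rw [hmJ] at ha ⊢
    have h1 : |Q b| ≤ |Q a| := by
      rw [← hQ1, ← hQ1, ← sub_nonneg, ← map_sub]
      have h2 : Q (|a| - |b|) = |Q (|a| - |b|)| := by
        rw [← hQ1, abs_of_nonneg (sub_nonneg.2 hab)]
      rw [h2]
      exact abs_nonneg _
    have h3 : ‖Q b‖ ≤ ‖Q a‖ := HasSolidNorm.solid h1
    rw [ha, norm_zero] at h3
    exact norm_le_zero_iff.1 h3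
  -- quasi-interior points
  have htop : IsClosedIdeal (⊤ : Submodule ℝ P.{u}) := ⟨isClosed_univ, fun _ _ _ _ => trivial⟩
  obtain ⟨w, -, hw0, hw⟩ := exists_quasi htop
    (TopologicalSpace.IsSeparable.of_separableSpace (Set.univ : Set P.{u}))
  have hu : IsUnit' w := ⟨hw0, fun x hx ε hε => hw x trivial hx ε hε⟩
  obtain ⟨j, hjJ, hj0, hj⟩ := exists_quasi hJ
    (TopologicalSpace.IsSeparable.of_separableSpace (J : Set P.{u}))
  let v : ℕ → P.{u} := fun n => ((n : ℝ) + 1) • j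
  have hv0 : ∀ n, 0 ≤ v n := fun n => smul_nonneg (by positivity) hj0
  have hvJ : ∀ n, v n ∈ J := fun n => J.smul_mem _ hjJ
  let A : ℕ → BanLat.{u} := fun _ => P.{u}
  let φ : ∀ n, A n →L[ℝ] A (n + 1) := fun n => F w (v n) hu
  have hφa : ∀ n (x : P.{u}), φ n |x| = |φ n x| := fun n x => F_abs w (v n) hu x
  have hφn : ∀ n (x : P.{u}), ‖φ n x‖ ≤ ‖x‖ := fun n x => norm_F_le w (v n) hu x
  have hQφ : ∀ n (x : P.{u}), Q (φ n x) = Q x := by
    intro n x
    have h1 := F_mod hu (hv0 n) hJ.closed hJ.solid (hvJ n) x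
    rw [hmJ, map_sub, sub_eq_zero] at h1
    exact h1.symm
  refine ⟨A, φ, fun n => hsepP, fun n => semiprojectiveP, fun n => ⟨hφa n,
    ContinuousLinearMap.opNorm_le_bound _ zero_le_one fun x => by rw [one_mul]; exact hφn n x⟩,
    fun _ => Q, fun n x => hQ1 x, hQφ, fun n x => ?_, ?_⟩
  · -- the composites
    have hc : ∀ k (y : P.{u}), Q (comp A φ n k y) = Q y := by
      intro k
      induction k with
      | zero => exact fun y => rfl
      | succ k ih =>
        intro y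
        have h1 : comp A φ n (k + 1) y = φ (n + k) (comp A φ n k y) := rfl
        rw [h1, hQφ, ih]
    have hcn : ∀ k (y : P.{u}), ‖comp A φ n k y‖ ≤ ‖y‖ := by
      intro k
      induction k with
      | zero => exact fun y => le_rfl
      | succ k ih =>
        intro y
        have h1 : comp A φ n (k + 1) y = φ (n + k) (comp A φ n k y) := rfl
        rw [h1]
        exact (hφn _ _).trans (ih y)
    have hca : ∀ k (y : P.{u}), comp A φ n k |y| = |comp A φ n k y| := by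
      intro k
      induction k with
      | zero => exact fun y => rfl
      | succ k ih =>
        intro y
        have h1 : ∀ y, comp A φ n (k + 1) y = φ (n + k) (comp A φ n k y) := fun y => rfl
        rw [h1, h1, ih, hφa]
    have hcl : ∀ k (y : P.{u}), 0 ≤ y → (0 : P.{u}) ≤ comp A φ n k y ∧ comp A φ n k y ≤ y := by
      intro k
      induction k with
      | zero => exact fun y hy => ⟨hy, le_rfl⟩
      | succ k ih =>
        intro y hy
        have h1 : comp A φ n (k + 1) y = φ (n + k) (comp A φ n k y) := rfl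
        rw [h1]
        exact ⟨F_nonneg hu (ih y hy).1, (F_le hu (ih y hy).1).trans (ih y hy).2⟩
    -- elements of the kernel go to zero
    have hker : ∀ y : P.{u}, Q y = 0 → Tendsto (fun k => ‖comp A φ n k y‖) atTop (𝓝 0) := by
      intro y hy
      have hyJ : |y| ∈ J := by rw [hmJ, hQ1, hy, abs_zero]
      have h1 := cut_tendsto hu hj0 (abs_nonneg y) (fun ε hε => hj _ hyJ (abs_nonneg y) ε hε)
      have h2 : Tendsto (fun k : ℕ => ‖F w (v (n + k)) hu |y|‖) atTop (𝓝 0) :=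
        h1.comp (tendsto_add_atTop_nat n |>.congr fun k => by rw [add_comm])
      rw [← tendsto_add_atTop_iff_nat 1]
      refine squeeze_zero (fun k => norm_nonneg _) (fun k => ?_) h2
      have h3 : comp A φ n (k + 1) y = φ (n + k) (comp A φ n k y) := rfl
      rw [h3, ← norm_abs_eq_norm (φ (n + k) (comp A φ n k y)), ← hφa, ← hca]
      have h4 := hcl k |y| (abs_nonneg y)
      refine HasSolidNorm.solid ?_
      have h5 : (0 : P.{u}) ≤ F w (v (n + k)) hu (comp A φ n k |y|) := F_nonneg hu h4.1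
      have h6 : (0 : P.{u}) ≤ F w (v (n + k)) hu |y| := F_nonneg hu (abs_nonneg y)
      have h7 : F w (v (n + k)) hu (comp A φ n k |y|) ≤ F w (v (n + k)) hu |y| :=
        F_mono hu h4.1 h4.2
      have h8 : abs (F w (v (n + k)) hu (comp A φ n k |y|)) ≤
          abs (F w (v (n + k)) hu (abs y)) := by
        rw [abs_of_nonneg h5, abs_of_nonneg h6]
        exact h7
      exact h8
    -- the limit of the norms
    rw [Metric.tendsto_atTop]
    intro ε hε
    obtain ⟨x', hx', hxn⟩ := hQ3 (Q x) (ε / 2 / (‖Q x‖ + 1)) (by positivity)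
    have hy : Q (x - x') = 0 := by rw [map_sub, hx', sub_self]
    obtain ⟨k₀, hk₀⟩ := Metric.tendsto_atTop.1 (hker _ hy) (ε / 2) (by positivity)
    refine ⟨k₀, fun k hk => ?_⟩
    have h1 := hk₀ k hk
    rw [dist_zero_right, norm_norm] at h1
    have h2 : ‖Q x‖ ≤ ‖comp A φ n k x‖ := by
      rw [← hc k x]
      refine (Q.le_opNorm _).trans ?_
      have := norm_nonneg (comp A φ n k x)
      nlinarith
    have h3 : comp A φ n k x = comp A φ n k x' + comp A φ n k (x - x') := by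
      rw [← map_add]
      congr 1
      abel
    have h4 : ‖comp A φ n k x‖ ≤ ‖x'‖ + ‖comp A φ n k (x - x')‖ := by
      rw [h3]
      exact (norm_add_le _ _).trans (add_le_add (hcn k x') le_rfl)
    have h5 : ‖x'‖ ≤ ‖Q x‖ + ε / 2 := by
      refine hxn.trans ?_
      have h6 : ε / 2 / (‖Q x‖ + 1) * ‖Q x‖ ≤ ε / 2 := by
        rw [div_mul_eq_mul_div, div_le_iff₀ (by positivity)]
        nlinarith [norm_nonneg (Q x)]
      linarith
    rw [Real.dist_eq, abs_lt]
    constructor <;> linarith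
  · -- dense range
    have h1 : ∀ y : E, ∃ x, Q x = y := fun y => by
      obtain ⟨x, hx, -⟩ := hQ3 y 1 one_pos
      exact ⟨x, hx⟩
    intro y
    obtain ⟨x, hx⟩ := h1 y
    exact subset_closure (Set.mem_iUnion.2 ⟨0, x, hx⟩)

end Q101.Free
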