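import Pool.Agent.Q101.FsS

set_option autoImplicit false

/-!
# The abstract form of the theorem on `ℓ₁`-sums of Lipschitz-free spaces
-/

open Filter Topology

namespace Q101Fs

open Q101Lf Pool.Agent.TH326.L1

section Null

variable {Z : Type*} [NormedAddCommGroup Z] [NormedSpace ℝ Z]

/-- Functionals with an upper estimate `o(m)` tend to zero pointwise. -/
theorem null_of_upper (φ : ℕ → Z →L[ℝ] ℝ) (σ : ℕ → ℝ)
    (hσ : Tendsto (fun m : ℕ => σ m / m) atTop (𝓝 0))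
    (hφ : ∀ θ : ℕ →₀ ℝ, (∀ j, |θ j| ≤ 1) → ‖θ.sum fun j s => s • φ j‖ ≤ σ θ.support.card) (x : Z) :
    Tendsto (fun k => φ k x) atTop (𝓝 0) := by
  classical
  rw [Metric.tendsto_atTop]
  by_contra hcon
  push Not at hcon
  obtain ⟨δ, hδ, h⟩ := hcon
  have hinf : {k : ℕ | δ ≤ |φ k x|}.Infinite := by
    rw [← Nat.frequently_atTop_iff_infinite, frequently_atTop]
    intro N
    obtain ⟨k, hk, hk2⟩ := h N
    refine ⟨k, hk, ?_⟩
    simpa [Real.dist_eq] using hk2
  have key : ∀ m : ℕ, m * δ ≤ σ m * ‖x‖ := by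
    intro m
    obtain ⟨B, hB, hcard⟩ := hinf.exists_subset_card_eq m
    set θ : ℕ →₀ ℝ := Finsupp.onFinset B (fun k => if k ∈ B then (SignType.sign (φ k x) : ℝ) else 0)
      (fun k hk => by
        by_contra hk2
        simp [hk2] at hk) with hθ
    have hθB : ∀ k ∈ B, θ k = SignType.sign (φ k x) := by
      intro k hk
      rw [hθ, Finsupp.onFinset_apply, if_pos hk]
    have hθ1 : ∀ k, |θ k| ≤ 1 := by
      intro k
      rw [hθ, Finsupp.onFinset_apply]
      split_ifs with hk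
      · rcases lt_trichotomy (φ k x) 0 with h1 | h1 | h1
        · simp [sign_neg h1]
        · simp [h1]
        · simp [sign_pos h1]
      · simp
    have hsupp : θ.support = B := by
      ext k
      rw [Finsupp.mem_support_iff]
      constructor
      · intro hk
        by_contra hk2
        apply hk
        rw [hθ, Finsupp.onFinset_apply, if_neg hk2]
      · intro hk
        rw [hθB k hk]
        have h1 : δ ≤ |φ k x| := hB hk
        have h2 : φ k x ≠ 0 := by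
          intro h0
          rw [h0, abs_zero] at h1
          linarith
        rcases lt_or_gt_of_ne h2 with h3 | h3
        · simp [sign_neg h3]
        · simp [sign_pos h3]
    have h1 := hφ θ hθ1
    rw [hsupp, hcard] at h1
    have h2 : (θ.sum fun j s => s • φ j) x = ∑ k ∈ B, |φ k x| := by
      rw [Finsupp.sum, hsupp, _root_.sum_apply]
      refine Finset.sum_congr rfl fun k hk => ?_
      rw [_root_.smul_apply, hθB k hk, smul_eq_mul]
      exact sign_mul_self _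
    have h3 : (m : ℝ) * δ ≤ ∑ k ∈ B, |φ k x| := by
      rw [← hcard, ← nsmul_eq_mul]
      exact Finset.card_nsmul_le_sum B _ _ fun k hk => hB hk
    rw [← h2] at h3
    refine h3.trans ((le_abs_self _).trans ?_)
    refine ((θ.sum fun j s => s • φ j).le_opNorm x).trans ?_
    exact mul_le_mul_of_nonneg_right h1 (norm_nonneg _)
  have h1 : Tendsto (fun m : ℕ => σ m / m * ‖x‖) atTop (𝓝 (0 * ‖x‖)) := hσ.mul_const _
  rw [zero_mul] at h1
  have h2 : ∀ᶠ m : ℕ in atTop, δ ≤ σ m / m * ‖x‖ := by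
    refine eventually_atTop.2 ⟨1, fun m hm => ?_⟩
    have hm' : (0 : ℝ) < m := by exact_mod_cast hm
    have := key m
    rw [div_mul_eq_mul_div, le_div_iff₀ hm']
    linarith
  have := ge_of_tendsto h1 h2
  linarith

end Null

section LOne

variable {Y : ℕ → Type*} [∀ n, NormedAddCommGroup (Y n)]

theorem summable_l1 (v : lp Y 1) : Summable fun n => ‖v n‖ := by
  have h := (lp.memℓp v).summable (by simp)
  simpa using h

theorem norm_l1 (v : lp Y 1) : ‖v‖ = ∑' n, ‖v n‖ := by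
  rw [lp.norm_eq_tsum_rpow (by simp)]
  simp

theorem sum_le_l1 (v : lp Y 1) (s : Finset ℕ) : ∑ n ∈ s, ‖v n‖ ≤ ‖v‖ := by
  rw [norm_l1]
  exact (summable_l1 v).sum_le_tsum s fun _ _ => norm_nonneg _

end LOne

section Meas

variable {V : Type} [NormedAddCommGroup V]

theorem M_add_left (μ ν : V →₀ ℝ) (g : V → ℝ) : M (μ + ν) g = M μ g + M ν g := by
  unfold M
  exact Finsupp.sum_add_index' (fun _ => by ring) (fun _ _ _ => by ring)

theorem M_zero_left (g : V → ℝ) : M (0 : V →₀ ℝ) g = 0 := by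
  simp [M]

theorem M_sum_left {ι : Type*} (s : Finset ι) (μ : ι → V →₀ ℝ) (g : V → ℝ) :
    M (∑ i ∈ s, μ i) g = ∑ i ∈ s, M (μ i) g := by
  classical
  induction s using Finset.induction_on with
  | empty => simp [M_zero_left]
  | insert a s ha ih => rw [Finset.sum_insert ha, Finset.sum_insert ha, M_add_left, ih]

theorem M_mapDomain {E : Type} (ι : E → V) (y : F0 E) (g : V → ℝ) :
    M (y.1.mapDomain ι) g = pair (fun x => g (ι x)) y := by
  unfold M
  rw [Finsupp.sum_mapDomain_index (fun _ => by ring) (fun _ _ _ => by ring)]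
  exact pair_sub_const (fun x => g (ι x)) (g 0) y

/-- The value of a functional at an element of `F0 E`. -/
theorem pair_dual {E : Type} [NormedAddCommGroup E] (Ψ : LipFree E →L[ℝ] ℝ) (y : F0 E) :
    pair (fun x => Ψ (mol x 0)) y = Ψ (toFree y) := by
  conv_rhs => rw [eq_sum_mol0 0 y]
  rw [map_sum, map_sum]
  unfold pair
  rw [Finsupp.sum]
  refine Finset.sum_congr rfl fun x _ => ?_
  rw [map_smul, map_smul, smul_eq_mul]
  rfl

end Meas

section Fun

variable {E : ℕ → Type} [∀ n, NormedAddCommGroup (E n)] [∀ n, NormedSpace ℝ (E n)] {N : ℕ}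

/-- The function on the finite sum of the spaces `E n` defined by a functional on the `ℓ₁`-sum of the
Lipschitz-free spaces. -/
noncomputable def Fn (Ψ : lp (fun n => LipFree (E n)) 1 →L[ℝ] ℝ)
    (v : PiLp 1 fun n : Fin N => E n) : ℝ :=
  ∑ n : Fin N, Ψ (lp.single 1 (n : ℕ) (mol (v n) 0))

/-- its coordinates -/
noncomputable def fn (Ψ : lp (fun n => LipFree (E n)) 1 →L[ℝ] ℝ) (n : ℕ) (x : E n) : ℝ :=
  Ψ (lp.single 1 n (mol x 0))

omit [∀ n, NormedSpace ℝ (E n)] in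
theorem RL_fn (Ψ : lp (fun n => LipFree (E n)) 1 →L[ℝ] ℝ) (n : ℕ) : RL ‖Ψ‖ (fn Ψ n) := by
  intro x y
  unfold fn
  rw [← map_sub, ← lp.single_sub, mol_sub]
  refine (Ψ.le_opNorm _).trans (le_of_eq ?_)
  rw [lp.norm_single (by simp), norm_mol, dist_eq_norm]

omit [∀ n, NormedSpace ℝ (E n)] in
theorem fn_zero (Ψ : lp (fun n => LipFree (E n)) 1 →L[ℝ] ℝ) (n : ℕ) : fn Ψ n 0 = 0 := by
  unfold fn
  rw [mol_self]
  simp

omit [∀ n, NormedSpace ℝ (E n)] in
theorem pair_fn (Ψ : lp (fun n => LipFree (E n)) 1 →L[ℝ] ℝ) (n : ℕ) (y : F0 (E n)) :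
    pair (fn Ψ n) y = Ψ (lp.single 1 n (toFree y)) :=
  pair_dual (Ψ.comp (lp.singleContinuousLinearMap ℝ (fun n => LipFree (E n)) 1 n)) y

omit [∀ n, NormedSpace ℝ (E n)] in
theorem norm_sub_single_le (z : lp (fun n => LipFree (E n)) 1) (N : ℕ)
    (u : ∀ n : ℕ, LipFree (E n)) :
    ‖z - ∑ n ∈ Finset.range N, lp.single 1 n (u n)‖ ≤
      ∑ n ∈ Finset.range N, ‖z n - u n‖ + ∑' n, ‖z (n + N)‖ := by
  have h1 : ∀ m, (z - ∑ n ∈ Finset.range N, lp.single 1 n (u n)) m =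
      if m < N then z m - u m else z m := by
    intro m
    rw [lp.coeFn_sub, Pi.sub_apply, lp.coeFn_sum, Finset.sum_apply]
    simp only [lp.coeFn_single, Finset.sum_pi_single, Finset.mem_range]
    split_ifs <;> simp
  rw [norm_l1, ← (summable_l1 _).sum_add_tsum_nat_add N]
  refine add_le_add (le_of_eq ?_) (le_of_eq ?_)
  · refine Finset.sum_congr rfl fun m hm => ?_
    rw [h1, if_pos (Finset.mem_range.1 hm)]
  · refine tsum_congr fun m => ?_
    rw [h1, if_neg (by omega)]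

/-- The measures on the finite sum. -/
noncomputable def mu (ι : ∀ n : Fin N, E n → PiLp 1 fun n : Fin N => E n)
    (y : ∀ n : ℕ, F0 (E n)) : (PiLp 1 fun n : Fin N => E n) →₀ ℝ :=
  ∑ n : Fin N, (y n).1.mapDomain (ι n)

omit [∀ n, NormedSpace ℝ (E n)] in
theorem M_mu (ι : ∀ n : Fin N, E n → PiLp 1 fun n : Fin N => E n)
    (y : ∀ n : ℕ, F0 (E n)) (g : (PiLp 1 fun n : Fin N => E n) → ℝ) :
    M (mu ι y) g = ∑ n : Fin N, pair (fun x => g (ι n x)) (y n) := by
  unfold mu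
  rw [M_sum_left]
  exact Finset.sum_congr rfl fun n _ => M_mapDomain _ _ _

omit [∀ n, NormedSpace ℝ (E n)] in
theorem UP_mu (ι : ∀ n : Fin N, E n → PiLp 1 fun n : Fin N => E n)
    (hι : ∀ n x y, ‖ι n x - ι n y‖ = ‖x - y‖)
    (z : ℕ → lp (fun n => LipFree (E n)) 1) (y : ℕ → ∀ n : ℕ, F0 (E n)) (ε : ℕ → ℝ)
    (hε : ∀ k, ∑ n ∈ Finset.range N, ‖z k n - toFree (y k n)‖ ≤ ε k)
    (hεs : ∀ s : Finset ℕ, ∑ k ∈ s, ε k ≤ 1) (ρ : ℕ → ℝ)
    (hz : ∀ θ : ℕ →₀ ℝ, (∀ j, |θ j| ≤ 1) → ‖θ.sum fun j s => s • z j‖ ≤ ρ θ.support.card) :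
    UP (fun k => mu ι (y k)) fun m => ρ m + 1 := by
  intro θ hθ g K hK hg
  have h1 : Pool.Agent.TH326.L1.Phi (fun k => mu ι (y k)) θ g =
      ∑ n : Fin N, pair (fun x => g (ι n x)) (∑ j ∈ θ.support, θ j • y j n) := by
    unfold Pool.Agent.TH326.L1.Phi
    rw [Finsupp.sum]
    simp only [M_mu, Finset.mul_sum]
    rw [Finset.sum_comm]
    refine Finset.sum_congr rfl fun n _ => ?_
    change _ = pairL _ _
    rw [map_sum]
    refine Finset.sum_congr rfl fun j _ => ?_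
    exact (pair_smul _ _ _).symm
  have h2 : ∀ n : Fin N, pair (fun x => g (ι n x)) (∑ j ∈ θ.support, θ j • y j n) ≤
      K * (‖(θ.sum fun j s => s • z j) n‖ + ∑ j ∈ θ.support, ‖z j n - toFree (y j n)‖) := by
    intro n
    refine (le_abs_self _).trans ((abs_pair_le hK (f := fun x => g (ι n x)) (fun p q => ?_) _).trans
      (mul_le_mul_of_nonneg_left ?_ hK))
    · refine (hg _ _).trans (le_of_eq ?_)
      rw [hι, dist_eq_norm]
    · rw [← LinearIsometry.norm_map toFree, map_sum]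
      have h3 : ∑ j ∈ θ.support, toFree (θ j • y j n) = (θ.sum fun j s => s • z j) n -
          ∑ j ∈ θ.support, θ j • (z j n - toFree (y j n)) := by
        rw [Finsupp.sum, lp.coeFn_sum, Finset.sum_apply, ← Finset.sum_sub_distrib]
        refine Finset.sum_congr rfl fun j _ => ?_
        rw [map_smul, lp.coeFn_smul, Pi.smul_apply, smul_sub]
        abel
      rw [h3]
      refine (norm_sub_le _ _).trans (add_le_add le_rfl ?_)
      refine (norm_sum_le _ _).trans (Finset.sum_le_sum fun j _ => ?_)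
      rw [norm_smul, Real.norm_eq_abs]
      exact mul_le_of_le_one_left (norm_nonneg _) (hθ j)
  rw [h1]
  refine (Finset.sum_le_sum fun n _ => h2 n).trans ?_
  rw [← Finset.mul_sum, mul_comm, Finset.sum_add_distrib]
  refine mul_le_mul_of_nonneg_right (add_le_add ?_ ?_) hK
  · rw [Fin.sum_univ_eq_sum_range (fun n => ‖(θ.sum fun j s => s • z j) n‖) N]
    exact (sum_le_l1 _ _).trans (hz θ hθ)
  · rw [Finset.sum_comm]
    refine (Finset.sum_le_sum fun j _ => ?_).trans (hεs θ.support)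
    rw [Fin.sum_univ_eq_sum_range (fun n => ‖z j n - toFree (y j n)‖) N]
    exact hε j

theorem upper_fin {W : Type*} [NormedAddCommGroup W] [NormedSpace ℝ W] (φ : ℕ → W) (σ : ℕ → ℝ)
    (hσ : Monotone σ)
    (hφ : ∀ θ : ℕ →₀ ℝ, (∀ j, |θ j| ≤ 1) → ‖θ.sum fun j s => s • φ j‖ ≤ σ θ.support.card) (n : ℕ)
    (j : Fin n → ℕ) (hj : Function.Injective j) (θ : Fin n → ℝ) (hθ : ∀ i, |θ i| ≤ 1) :
    ‖∑ i, θ i • φ (j i)‖ ≤ σ n := by
  classical
  set θ0 : Fin n →₀ ℝ := Finsupp.equivFunOnFinite.symm θ with hθ0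
  have h0 : ∀ i, θ0 i = θ i := fun i => rfl
  set θ1 : ℕ →₀ ℝ := Finsupp.embDomain ⟨j, hj⟩ θ0 with hθ1
  have h1 : ∀ k, |θ1 k| ≤ 1 := by
    intro k
    by_cases hk : k ∈ Set.range j
    · obtain ⟨i, rfl⟩ := hk
      have : θ1 (j i) = θ0 i := Finsupp.embDomain_apply_self ⟨j, hj⟩ θ0 i
      rw [this, h0]
      exact hθ i
    · have : θ1 k = 0 := Finsupp.embDomain_of_notMem_range ⟨j, hj⟩ θ0 k hk
      rw [this]
      simp
  have h2 : (θ1.sum fun j s => s • φ j) = ∑ i, θ i • φ (j i) := by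
    rw [hθ1, Finsupp.sum_embDomain, Finsupp.sum_fintype _ _ (fun i => by simp)]
    rfl
  rw [← h2]
  refine (hφ θ1 h1).trans (hσ ?_)
  rw [hθ1, Finsupp.support_embDomain, Finset.card_map]
  exact (Finset.card_le_univ _).trans (by simp)

omit [∀ n, NormedSpace ℝ (E n)] in
theorem Fn_sum {n : ℕ} (θ : Fin n → ℝ) (Ψ : Fin n → (lp (fun n => LipFree (E n)) 1 →L[ℝ] ℝ))
    (v : PiLp 1 fun n : Fin N => E n) : Fn (∑ i, θ i • Ψ i) v = ∑ i, θ i * Fn (Ψ i) v := by
  unfold Fn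
  simp only [Finset.mul_sum]
  rw [Finset.sum_comm]
  refine Finset.sum_congr rfl fun m _ => ?_
  rw [_root_.sum_apply]
  refine Finset.sum_congr rfl fun i _ => ?_
  rw [_root_.smul_apply, smul_eq_mul]

/-- The theorem in a finite dimensional space. -/
theorem fd_main (h4 : S_tight) (h5 : S_small) (h6 : S_supply) (h7 : S_core) (h8 : S_dirs)
    (V : Type) [NormedAddCommGroup V] [NormedSpace ℝ V] [FiniteDimensional ℝ V]
    (μ : ℕ → V →₀ ℝ) (ρ σ : ℕ → ℝ) (hρm : Monotone ρ)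
    (hρ : Tendsto (fun m : ℕ => ρ m / m) atTop (𝓝 0))
    (hσ0 : ∀ n, 0 ≤ σ n) (hσ : Tendsto (fun m : ℕ => σ m / m) atTop (𝓝 0))
    (hUP : UP μ ρ) (F : ℕ → V → ℝ) (C : ℝ) (hC : 0 < C) (hFC : ∀ k, RL C (F k))
    (hF0 : ∀ k, F k 0 = 0) (hpt : ∀ v : V, Tendsto (fun k => F k v) atTop (𝓝 0))
    (hFσ : ∀ (n : ℕ) (j : Fin n → ℕ), Function.Injective j → ∀ θ : Fin n → ℝ, (∀ i, |θ i| ≤ 1) →
      RL (σ n) fun v => ∑ i, θ i * F (j i) v)
    {c : ℝ} (hc : 0 < c) (hMF : ∀ k, c ≤ M (μ k) (F k)) : False := by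
  obtain ⟨R, hR, p0, hp0⟩ := h4 V μ ρ hρm hρ hUP F C c hc hC.le hFC hF0 hMF
  rcases subsingleton_or_nontrivial V with hV1 | hV1
  · have h1 := hMF 0
    have h2 : M (μ 0) (F 0) = 0 := by
      rw [M_eq]
      refine Finset.sum_eq_zero fun x _ => ?_
      rw [Subsingleton.elim x 0, sub_self, mul_zero]
    linarith
  obtain ⟨d, e, A, he, hA, hdir⟩ := h8 V
  refine h7 V d e A he hA hdir μ ρ hρm hρ hUP (3 * C) (c / 4) (by positivity)
    (by positivity) ?_
  intro ε' κ hε' hκ p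
  obtain ⟨n, hn, hnκ⟩ : ∃ n : ℕ, 0 < n ∧ 3 * σ n ≤ κ * n := by
    have h1 := (hσ.eventually (gt_mem_nhds (show (0 : ℝ) < κ / 3 by positivity))).and
      (eventually_gt_atTop 0)
    obtain ⟨n, hn1, hn2⟩ := h1.exists
    refine ⟨n, hn2, ?_⟩
    have hn' : (0 : ℝ) < n := by exact_mod_cast hn2
    rw [div_lt_iff₀ hn'] at hn1
    linarith
  obtain ⟨p1, hp1⟩ := h5.2 V F C R hC.le hR hFC hpt ε' hε'
  have m1 := le_max_left p0 p1
  have m2 := le_max_right p (max p0 p1)
  have m3 := le_max_right p0 p1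
  have m4 := le_max_left p (max p0 p1)
  set j : Fin n → ℕ := fun i => max p (max p0 p1) + i with hj
  have hjinj : Function.Injective j := fun a b hab => by
    simp only [hj] at hab
    exact Fin.ext (by omega)
  have hj0 : ∀ i, p0 ≤ j i := fun i => by
    simp only [hj]
    omega
  have hj1 : ∀ i, p1 ≤ j i := fun i => by
    simp only [hj]
    omega
  have hj2 : ∀ i, p ≤ j i := fun i => by
    simp only [hj]
    omega
  have hθ1 : ∀ θ : Fin n → ℝ, (∀ i, |θ i| ≤ 1) →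
      RL (3 * σ n) fun x => ∑ i, θ i * (cut R x * F (j i) x) := by
    intro θ hθ
    have h1 := h5.1 V (fun v => ∑ i, θ i * F (j i) v) (σ n) R (hσ0 n) hR (hFσ n j hjinj θ hθ)
      (Finset.sum_eq_zero fun i _ => by rw [hF0, mul_zero])
    have h2 : (fun x => ∑ i, θ i * (cut R x * F (j i) x)) =
        fun x => cut R x * ∑ i, θ i * F (j i) x := by
      ext x
      rw [Finset.mul_sum]
      exact Finset.sum_congr rfl fun i _ => by ring
    rw [h2]
    exact h1
  obtain ⟨g, C', D, hC', hg, hgD⟩ := h6 V d e he n (fun i => μ (j i))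
    (fun i x => cut R x * F (j i) x) (3 * C) ε' (c / 2) (3 * σ n) (by positivity)
    (by have := hσ0 n; positivity) (by positivity)
    (fun i => h5.1 V (F (j i)) C R hC.le hR (hFC _) (hF0 _))
    (fun i x => hp1 (j i) (hj1 i) x) (fun i => hp0 (j i) (hj0 i)) hθ1
  refine ⟨n, j, g, C', D, hn, hC', fun i => ?_, fun k hk x => (hgD k hk x).trans hnκ⟩
  obtain ⟨a1, a2, a3, a4⟩ := hg i
  exact ⟨hj2 i, a1, a2, by linarith, a4⟩

end Fun

end Q101Fs
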