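import Pool.Agent.Q101.FsS
import Pool.Agent.TH326.L1e

set_option autoImplicit false

/-! Job FS-7 (helper98): the random sums. -/

open Filter Topology

namespace Q101Fs

open Q101Lf Pool.Agent.TH326.L1

variable {V : Type} [NormedAddCommGroup V] [NormedSpace ℝ V]

/-- the state of the construction after `i` steps -/
def FsCore_St (μ : ℕ → V →₀ ℝ) (e : ℕ → V) (d : ℕ) (K κ1 η c : ℝ) (i : ℕ) : Prop :=
  ∃ (Ω : Type) (_ : Fintype Ω) (_ : Nonempty Ω) (f : Ω → V → ℝ) (T : Ω → ℕ → V → ℝ)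
    (θ : Ω → ℕ →₀ ℝ) (q : ℕ) (C : ℝ), 0 ≤ C ∧
    (∀ ω k, k < d → ∀ (x : V) (t : ℝ),
      |f ω (x + t • e k) - f ω x - t * T ω k x| ≤ i * η * |t| + C * t ^ 2) ∧
    (∀ ω k, k < d → ∀ x, |T ω k x| ≤ 1 + K) ∧
    (∀ ω k, k < d → RL C (T ω k)) ∧
    (∀ x k, k < d → ∑ ω, (T ω k x) ^ 2 ≤ Fintype.card Ω * (i * κ1)) ∧
    (∀ ω j, |θ ω j| ≤ 1) ∧ (∀ ω j, q ≤ j → θ ω j = 0) ∧ (∀ ω, (θ ω).support.card ≤ i) ∧
    Fintype.card Ω * (i * (c / 2)) ≤ ∑ ω, Phi μ (θ ω) (f ω)

theorem FsCore_zero (μ : ℕ → V →₀ ℝ) (e : ℕ → V) (d : ℕ) {K κ1 η c : ℝ} (hK : 0 < K) :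
    FsCore_St μ e d K κ1 η c 0 := by
  refine ⟨Unit, inferInstance, inferInstance, fun _ _ => 0, fun _ _ _ => 0, fun _ => 0, 0, 0,
    le_rfl, fun _ _ _ _ _ => by simp, fun _ _ _ _ => ?_,
    fun _ _ _ => RL.const le_rfl 0, fun _ _ _ => by simp,
    by simp, by simp, by simp, ?_⟩
  · rw [abs_zero]; positivity
  · simp [Phi_zero_left]

omit [NormedSpace ℝ V] in
theorem FsCore_single {μ : ℕ → V →₀ ℝ} {ρ : ℕ → ℝ} (hU : UP μ ρ) (j : ℕ) {g : V → ℝ} {K : ℝ}
    (hK : 0 ≤ K) (hg : RL K g) : |M (μ j) g| ≤ ρ 1 * K := by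
  have h : ∀ s : ℝ, |s| = 1 → s * M (μ j) g ≤ ρ 1 * K := by
    intro s hs
    have hs0 : s ≠ 0 := by
      intro h0
      rw [h0, abs_zero] at hs
      exact zero_ne_one hs
    have h1 := hU (Finsupp.single j s) (fun i => by
      rw [Finsupp.single_apply]; split_ifs <;> simp [hs]) g K hK hg
    rw [Phi_single, Finsupp.support_single _ hs0, Finset.card_singleton] at h1
    exact h1
  rw [abs_le]
  have h1 := h 1 (by simp)
  have h2 := h (-1) (by simp)
  constructor <;> linarith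

/-- The block hypothesis. -/
def FsCore_Bl (μ : ℕ → V →₀ ℝ) (e : ℕ → V) (d : ℕ) (K c : ℝ) : Prop :=
  ∀ ε κ : ℝ, 0 < ε → 0 < κ → ∀ p : ℕ, ∃ (n : ℕ) (j : Fin n → ℕ) (g : Fin n → V → ℝ) (C : ℝ)
    (D : Fin n → ℕ → V → ℝ), 0 < n ∧ 0 ≤ C ∧
    (∀ i, p ≤ j i ∧ RL K (g i) ∧ (∀ x, |g i x| ≤ ε) ∧ c ≤ M (μ (j i)) (g i) ∧
      ∀ k, k < d → Dir C (e k) (g i) (D i k) ∧ (∀ x, |D i k x| ≤ K) ∧ RL C (D i k)) ∧
    ∀ k, k < d → ∀ x, ∑ i, |D i k x| ≤ κ * n

theorem FsCore_succ {μ : ℕ → V →₀ ℝ} {e : ℕ → V} (he : ∀ k, ‖e k‖ = 1) (d : ℕ) {ρ : ℕ → ℝ}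
    (hU : UP μ ρ) {K κ1 κ2 η c : ℝ} (hK : 0 < K) (hη : 0 < η) (hc : 0 < c)
    (hκ1 : 0 < κ1) (hκ2 : 0 ≤ κ2) (hκ : ρ 1 * (K * κ2) ≤ c / 4) (hB : FsCore_Bl μ e d K c)
    (i : ℕ) (hi : d * (i * κ1) ≤ κ2) (hSt : FsCore_St μ e d K κ1 η c i) :
    FsCore_St μ e d K κ1 η c (i + 1) := by
  classical
  obtain ⟨Ω, _, _, f, T, θ, q, C, hC, hfT, hTB, hTL, hT2, hθ1, hθq, hθc, hPhi⟩ := hSt
  set b : ℝ := ρ 1 with hbdef
  have hb : 0 ≤ b := by
    have := (abs_nonneg _).trans (FsCore_single hU 0 (g := fun _ => (0 : ℝ)) zero_le_one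
      (RL.const zero_le_one 0))
    simpa using this
  set B : ℝ := 1 + K with hBdef
  have hB0 : 0 ≤ B := by positivity
  set Cψ : ℝ := d * (2 * C * B) / (1 : ℝ) ^ 2 with hCψdef
  have hCψ : 0 ≤ Cψ := by positivity
  set ψ : Ω → V → ℝ := fun ω => psi d 1 (T ω) with hψdef
  have hψ0 : ∀ ω x, 0 ≤ ψ ω x := fun ω x => psi_nonneg _ _ _ _
  have hψ1 : ∀ ω x, ψ ω x ≤ 1 := fun ω x => psi_le_one _ _ _ _
  have hψa : ∀ ω x, |ψ ω x| ≤ 1 := fun ω x => by rw [abs_of_nonneg (hψ0 ω x)]; exact hψ1 ω x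
  have hψL : ∀ ω, RL Cψ (ψ ω) := fun ω => RL_psi hC hB0 (hTL ω) (hTB ω)
  -- choice of ε
  set η' : ℝ := min η (min 1 (c / (4 * (b + 1)))) with hη'def
  have hη'pos : 0 < η' := by
    refine lt_min hη (lt_min one_pos (by positivity))
  have hη'1 : η' ≤ η := min_le_left _ _
  have hη'3 : η' ≤ c / (4 * (b + 1)) := (min_le_right _ _).trans (min_le_right _ _)
  set ε : ℝ := η' / (Cψ + 1) with hεdef
  have hε : 0 < ε := by positivity
  have hεC : ε * Cψ ≤ η' := by
    have h1 : ε * Cψ = (Cψ / (Cψ + 1)) * η' := by rw [hεdef]; field_simp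
    rw [h1]
    have h2 : Cψ / (Cψ + 1) ≤ 1 := by rw [div_le_one (by positivity)]; linarith
    nlinarith
  have hεC0 : 0 ≤ ε * Cψ := by positivity
  obtain ⟨n, j, g, Cg, D, hn, hCg, hg, hD⟩ := hB ε (κ1 / K) hε (by positivity) q
  have hn' : (0 : ℝ) < n := by exact_mod_cast hn
  have : Nonempty (Fin n) := ⟨⟨0, hn⟩⟩
  -- new data
  have habs : ∀ s : ℝ, |s| = 1 → ∀ ω a i, |(θ ω + s • Finsupp.single (j a) (1:ℝ)) i| ≤ 1 := by
    intro σ hσ ω a i
    simp only [Finsupp.add_apply, Finsupp.smul_apply, smul_eq_mul, Finsupp.single_apply]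
    by_cases hij : j a = i
    · subst hij
      simp [hθq ω (j a) (hg a).1, hσ]
    · simp [hij, hθ1 ω i]
  refine ⟨Ω × Fin n × Bool, inferInstance, inferInstance,
    fun w => f w.1 + sg w.2.2 • (g w.2.1 * ψ w.1),
    fun w k => T w.1 k + sg w.2.2 • (D w.2.1 k * ψ w.1),
    fun w => θ w.1 + sg w.2.2 • Finsupp.single (j w.2.1) (1:ℝ),
    max q (Finset.univ.sup j + 1),
    C + Cg + 2 * Cψ + K * Cψ, by positivity, ?_, ?_, ?_, ?_, ?_, ?_, ?_, ?_⟩
  · rintro ⟨ω, a, s⟩ k hk x t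
    simp only [Pi.add_apply, Pi.smul_apply, Pi.mul_apply, smul_eq_mul]
    have h1 := hfT ω k hk x t
    have h2 := ((hg a).2.2.2.2 k hk).1 x t
    have h3 : |ψ ω (x + t • e k) - ψ ω x| ≤ Cψ * |t| := by
      have := hψL ω (x + t • e k) x
      rwa [add_sub_cancel_left, norm_smul, he, mul_one, Real.norm_eq_abs] at this
    have e1 : f ω (x + t • e k) + sg s * (g a (x + t • e k) * ψ ω (x + t • e k)) -
        (f ω x + sg s * (g a x * ψ ω x)) - t * (T ω k x + sg s * (D a k x * ψ ω x)) =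
        (f ω (x + t • e k) - f ω x - t * T ω k x) +
        (sg s * (ψ ω x * (g a (x + t • e k) - g a x - t * D a k x)) +
         sg s * (g a (x + t • e k) * (ψ ω (x + t • e k) - ψ ω x))) := by ring
    rw [e1]
    have h4 : |sg s * (ψ ω x * (g a (x + t • e k) - g a x - t * D a k x))| ≤ Cg * t ^ 2 := by
      rw [abs_mul, sg_abs, one_mul, abs_mul]
      calc |ψ ω x| * |g a (x + t • e k) - g a x - t * D a k x|
          ≤ 1 * (Cg * t ^ 2) := mul_le_mul (hψa ω x) h2 (abs_nonneg _) zero_le_one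
        _ = Cg * t ^ 2 := one_mul _
    have h5 : |sg s * (g a (x + t • e k) * (ψ ω (x + t • e k) - ψ ω x))| ≤ η * |t| := by
      rw [abs_mul, sg_abs, one_mul, abs_mul]
      calc |g a (x + t • e k)| * |ψ ω (x + t • e k) - ψ ω x|
          ≤ ε * (Cψ * |t|) := mul_le_mul ((hg a).2.2.1 _) h3 (abs_nonneg _) hε.le
        _ = ε * Cψ * |t| := by ring
        _ ≤ η * |t| := mul_le_mul_of_nonneg_right (hεC.trans hη'1) (abs_nonneg _)
    have h6 := abs_add_le (f ω (x + t • e k) - f ω x - t * T ω k x)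
      (sg s * (ψ ω x * (g a (x + t • e k) - g a x - t * D a k x)) +
         sg s * (g a (x + t • e k) * (ψ ω (x + t • e k) - ψ ω x)))
    have h7 := abs_add_le (sg s * (ψ ω x * (g a (x + t • e k) - g a x - t * D a k x)))
         (sg s * (g a (x + t • e k) * (ψ ω (x + t • e k) - ψ ω x)))
    have h8 : 0 ≤ 2 * Cψ * t ^ 2 := by positivity
    have h9 : 0 ≤ K * Cψ * t ^ 2 := by positivity
    push_cast
    nlinarith
  · rintro ⟨ω, a, s⟩ k hk x
    simp only [Pi.add_apply, Pi.smul_apply, Pi.mul_apply, smul_eq_mul]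
    by_cases hz : ψ ω x = 0
    · rw [hz, mul_zero, mul_zero, add_zero]; exact hTB ω k hk x
    · have h1 : |T ω k x| ≤ 1 := psi_ne_zero one_pos hz hk
      have h2 : |sg s * (D a k x * ψ ω x)| ≤ K := by
        rw [abs_mul, sg_abs, one_mul, abs_mul]
        calc |D a k x| * |ψ ω x| ≤ K * 1 :=
              mul_le_mul (((hg a).2.2.2.2 k hk).2.1 x) (hψa ω x) (abs_nonneg _) hK.le
          _ = K := mul_one K
      have h3 := abs_add_le (T ω k x) (sg s * (D a k x * ψ ω x))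
      linarith
  · rintro ⟨ω, a, s⟩ k hk
    have h1 := (((hg a).2.2.2.2 k hk).2.2.mul (hψL ω) ((hg a).2.2.2.2 k hk).2.1 (hψa ω)).smul
      (sg s)
    rw [sg_abs, one_mul] at h1
    exact ((hTL ω k hk).add h1).mono (by linarith)
  · intro x k hk
    rw [Fintype.sum_prod_type]
    have h1 : ∀ ω : Ω, ∑ z : Fin n × Bool, ((T ω k + sg z.2 • (D z.1 k * ψ ω)) x) ^ 2 ≤
        2 * n * (T ω k x) ^ 2 + 2 * (n * κ1) := by
      intro ω
      rw [Fintype.sum_prod_type]
      have h2 : ∀ a : Fin n, ∑ s : Bool, ((T ω k + sg s • (D a k * ψ ω)) x) ^ 2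
          ≤ 2 * (T ω k x) ^ 2 + 2 * (K * |D a k x|) := by
        intro a
        rw [Fintype.sum_bool]
        simp only [Pi.add_apply, Pi.smul_apply, Pi.mul_apply, smul_eq_mul, sg, if_true]
        simp only [Bool.false_eq_true, if_false]
        have h2 : (D a k x * ψ ω x) ^ 2 ≤ K * |D a k x| := by
          rw [← sq_abs, abs_mul]
          have h3 := ((hg a).2.2.2.2 k hk).2.1 x
          have h4 := hψa ω x
          have h5 := abs_nonneg (D a k x)
          have h6 := abs_nonneg (ψ ω x)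
          have h7 : |D a k x| * |ψ ω x| ≤ |D a k x| := mul_le_of_le_one_right h5 h4
          calc (|D a k x| * |ψ ω x|) ^ 2 ≤ |D a k x| ^ 2 :=
                pow_le_pow_left₀ (mul_nonneg h5 h6) h7 2
            _ = |D a k x| * |D a k x| := sq _
            _ ≤ K * |D a k x| := mul_le_mul_of_nonneg_right h3 h5
        nlinarith
      refine (Finset.sum_le_sum fun a _ => h2 a).trans ?_
      rw [Finset.sum_add_distrib, Finset.sum_const, Finset.card_univ, Fintype.card_fin,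
        nsmul_eq_mul, ← Finset.mul_sum, ← Finset.mul_sum]
      have h3 := hD k hk x
      have h4 : K * ∑ a, |D a k x| ≤ K * (κ1 / K * n) := mul_le_mul_of_nonneg_left h3 hK.le
      have h5 : K * (κ1 / K * n) = n * κ1 := by field_simp
      rw [h5] at h4
      linarith
    refine (Finset.sum_le_sum fun ω _ => h1 ω).trans ?_
    rw [Finset.sum_add_distrib, ← Finset.mul_sum, Finset.sum_const, Finset.card_univ,
      nsmul_eq_mul, Fintype.card_prod, Fintype.card_prod, Fintype.card_bool, Fintype.card_fin]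
    have h3 := hT2 x k hk
    have h4 : 2 * (n : ℝ) * ∑ ω, (T ω k x) ^ 2 ≤ 2 * n * (Fintype.card Ω * (i * κ1)) :=
      mul_le_mul_of_nonneg_left h3 (by positivity)
    push_cast
    linarith
  · rintro ⟨ω, a, s⟩ i
    exact habs _ (sg_abs s) ω a i
  · rintro ⟨ω, a, s⟩ i hi
    simp only [Finsupp.add_apply, Finsupp.smul_apply, smul_eq_mul, Finsupp.single_apply]
    have h1 : q ≤ i := (le_max_left _ _).trans hi
    have h2 : Finset.univ.sup j + 1 ≤ i := (le_max_right _ _).trans hi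
    have h3 : j a ≤ Finset.univ.sup j := Finset.le_sup (Finset.mem_univ a)
    rw [hθq ω i h1, if_neg (by omega)]
    simp
  · rintro ⟨ω, a, s⟩
    refine (Finset.card_le_card Finsupp.support_add).trans ((Finset.card_union_le _ _).trans ?_)
    have h1 : (sg s • Finsupp.single (j a) (1:ℝ)).support.card ≤ 1 := by
      refine (Finset.card_le_card Finsupp.support_smul).trans ?_
      refine (Finset.card_le_card Finsupp.support_single_subset).trans ?_
      simp
    have h2 := hθc ω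
    show (θ ω).support.card + (sg s • Finsupp.single (j a) (1:ℝ)).support.card ≤ i + 1
    omega
  · rw [Fintype.sum_prod_type]
    simp only
    have hcard : (0:ℝ) ≤ Fintype.card Ω := Nat.cast_nonneg _
    have h1 : ∀ ω : Ω, ∑ z : Fin n × Bool, Phi μ (θ ω + sg z.2 • Finsupp.single (j z.1) (1:ℝ))
        (f ω + sg z.2 • (g z.1 * ψ ω)) = ∑ a : Fin n, (2 * Phi μ (θ ω) (f ω)
          + 2 * M (μ (j a)) (g a * ψ ω)) := by
      intro ω
      rw [Fintype.sum_prod_type]
      refine Finset.sum_congr rfl fun a _ => ?_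
      rw [Fintype.sum_bool]
      simp only [Phi_add_left, Phi_smul_left, Phi_add_right, Phi_smul_right, Phi_single]
      simp only [sg, if_true, Bool.false_eq_true, if_false]
      ring
    simp only [h1]
    rw [Finset.sum_comm]
    -- the average pairing
    set φ : V → ℝ := fun x => ∑ ω : Ω, (1 - ψ ω x) with hφ
    have hφa : ∀ x, |φ x| ≤ Fintype.card Ω * κ2 := by
      intro x
      have h2 : 0 ≤ φ x := Finset.sum_nonneg fun ω _ => by linarith [hψ1 ω x]
      rw [abs_of_nonneg h2]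
      have h3 : φ x ≤ ∑ ω : Ω, (∑ k ∈ Finset.range d, (T ω k x) ^ 2) / (1:ℝ) ^ 2 :=
        Finset.sum_le_sum fun ω _ => one_sub_psi_le d 1 (T ω) x
      refine h3.trans ?_
      rw [← Finset.sum_div, Finset.sum_comm, div_le_iff₀ (by positivity)]
      have h4 : ∑ k ∈ Finset.range d, ∑ ω : Ω, (T ω k x) ^ 2 ≤
          ∑ k ∈ Finset.range d, (Fintype.card Ω * (i * κ1) : ℝ) :=
        Finset.sum_le_sum fun k hk => hT2 x k (Finset.mem_range.mp hk)
      rw [Finset.sum_const, Finset.card_range, nsmul_eq_mul] at h4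
      refine h4.trans ?_
      have h5 := mul_le_mul_of_nonneg_left hi hcard
      linarith
    have hφL : RL (Fintype.card Ω * Cψ) φ := by
      intro x y
      simp only [hφ]
      rw [← Finset.sum_sub_distrib]
      refine (Finset.abs_sum_le_sum_abs _ _).trans ?_
      have h2 : ∀ ω ∈ (Finset.univ : Finset Ω), |1 - ψ ω x - (1 - ψ ω y)| ≤ Cψ * ‖x - y‖ := by
        intro ω _
        have := hψL ω y x
        rw [norm_sub_rev] at this
        refine le_trans (le_of_eq ?_) this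
        congr 1; ring
      refine (Finset.sum_le_sum h2).trans ?_
      rw [Finset.sum_const, Finset.card_univ, nsmul_eq_mul]
      exact le_of_eq (by ring)
    have hgφ : ∀ a, |M (μ (j a)) (g a * φ)| ≤ Fintype.card Ω * (c / 2) := by
      intro a
      have h2 := (hg a).2.1.mul hφL (hg a).2.2.1 hφa
      have h3 := FsCore_single hU (j a) (by positivity) h2
      refine h3.trans ?_
      have h4 : b * (ε * Cψ) ≤ c / 4 := by
        have h5 : b * (ε * Cψ) ≤ b * (c / (4 * (b + 1))) :=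
          mul_le_mul_of_nonneg_left (hεC.trans hη'3) hb
        have h6 : b * (c / (4 * (b + 1))) = (b / (b + 1)) * (c / 4) := by field_simp
        have h7 : b / (b + 1) ≤ 1 := by rw [div_le_one (by positivity)]; linarith
        rw [h6] at h5
        nlinarith
      have h8 : b * (K * (Fintype.card Ω * κ2) + ε * (Fintype.card Ω * Cψ)) =
          Fintype.card Ω * (b * (K * κ2) + b * (ε * Cψ)) := by ring
      rw [h8]
      exact mul_le_mul_of_nonneg_left (by linarith) hcard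
    have hsumM : ∀ a, ∑ ω : Ω, M (μ (j a)) (g a * ψ ω) =
        Fintype.card Ω * M (μ (j a)) (g a) - M (μ (j a)) (g a * φ) := by
      intro a
      rw [← M_sum]
      have h2 : ∑ ω : Ω, g a * ψ ω = (Fintype.card Ω : ℝ) • g a - g a * φ := by
        ext x
        simp only [Finset.sum_apply, Pi.mul_apply, Pi.sub_apply, Pi.smul_apply, smul_eq_mul, hφ]
        rw [← Finset.mul_sum, Finset.sum_sub_distrib, Finset.sum_const, Finset.card_univ,
          nsmul_eq_mul, mul_one]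
        ring
      rw [h2, M_sub, M_smul]
    have hone : ∀ a : Fin n, (Fintype.card Ω : ℝ) * (i * c) + Fintype.card Ω * c ≤
        ∑ ω : Ω, (2 * Phi μ (θ ω) (f ω) + 2 * M (μ (j a)) (g a * ψ ω)) := by
      intro a
      rw [Finset.sum_add_distrib, ← Finset.mul_sum, ← Finset.mul_sum, hsumM]
      have h9 := (abs_le.mp (hgφ a)).2
      have h10 := mul_le_mul_of_nonneg_left (hg a).2.2.2.1 hcard
      linarith
    have h11 := Finset.sum_le_sum fun a (_ : a ∈ (Finset.univ : Finset (Fin n))) => hone a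
    rw [Finset.sum_const, Finset.card_univ, Fintype.card_fin, nsmul_eq_mul] at h11
    refine le_trans (le_of_eq ?_) h11
    rw [Fintype.card_prod, Fintype.card_prod, Fintype.card_bool, Fintype.card_fin]
    push_cast
    ring

theorem core : S_core := by
  intro V _ _ d e A he hA hdir μ ρ hρ hlim hU K c hK hc hB
  have hB' : FsCore_Bl μ e d K c := hB
  have hb : 0 ≤ ρ 1 := by
    have := (abs_nonneg _).trans (FsCore_single hU 0 (g := fun _ => (0 : ℝ)) zero_le_one
      (RL.const zero_le_one 0))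
    simpa using this
  set κ2 : ℝ := c / (4 * K * (ρ 1 + 1)) with hκ2def
  have hκ2 : 0 < κ2 := by positivity
  have hκ : ρ 1 * (K * κ2) ≤ c / 4 := by
    have h1 : ρ 1 * (K * κ2) = (ρ 1 / (ρ 1 + 1)) * (c / 4) := by rw [hκ2def]; field_simp
    have h2 : ρ 1 / (ρ 1 + 1) ≤ 1 := by rw [div_le_one (by positivity)]; linarith
    rw [h1]
    nlinarith
  -- the number of steps
  set W : ℝ := A * (K + 2) with hW
  have hW0 : 0 ≤ W := by positivity
  have hev : ∀ᶠ m : ℕ in atTop, ρ m / m < c / (2 * (W + 1)) :=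
    hlim.eventually (gt_mem_nhds (by positivity))
  obtain ⟨m, hm1, hm2⟩ := (hev.and (eventually_ge_atTop 1)).exists
  have hmpos : (0 : ℝ) < m := by exact_mod_cast hm2
  set κ1 : ℝ := κ2 / (d * m + 1) with hκ1def
  have hκ1 : 0 < κ1 := by positivity
  set η : ℝ := 1 / (m + 1) with hηdef
  have hη : 0 < η := by positivity
  have hSt : ∀ i, i ≤ m → FsCore_St μ e d K κ1 η c i := by
    intro i
    induction i with
    | zero => intro _; exact FsCore_zero μ e d hK
    | succ i ih =>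
      intro hi
      refine FsCore_succ he d hU hK hη hc hκ1 hκ2.le hκ hB' i ?_ (ih (by omega))
      have h1 : (i:ℝ) ≤ m := by exact_mod_cast (by omega : i ≤ m)
      calc (d:ℝ) * (i * κ1) ≤ d * (m * κ1) := by gcongr
        _ = (d * m / (d * m + 1)) * κ2 := by rw [hκ1def]; field_simp
        _ ≤ 1 * κ2 := by
            refine mul_le_mul_of_nonneg_right ?_ hκ2.le
            rw [div_le_one (by positivity)]
            linarith
        _ = κ2 := one_mul _
  obtain ⟨Ω, _, _, F, T, θ, q, C, hC, hFT, hTB, hTL, hT2, hθ1, hθq, hθc, hPhi⟩ := hSt m le_rfl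
  have hcard : (0:ℝ) < Fintype.card Ω := by exact_mod_cast Fintype.card_pos
  have hex : ∃ ω, (m:ℝ) * (c / 2) ≤ Phi μ (θ ω) (F ω) := by
    by_contra hcon
    push Not at hcon
    have h1 : ∑ ω, Phi μ (θ ω) (F ω) < ∑ ω : Ω, (m:ℝ) * (c / 2) :=
      Finset.sum_lt_sum_of_nonempty Finset.univ_nonempty fun ω _ => hcon ω
    rw [Finset.sum_const, Finset.card_univ, nsmul_eq_mul] at h1
    linarith
  obtain ⟨ω, hω⟩ := hex
  have hd2 : ∀ k, k < d → ∀ (x : V) (t : ℝ), |F ω (x + t • e k) - F ω x| ≤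
      (K + 2) * |t| := by
    intro k hk x t
    have h1 : ∀ u s : ℝ, |F ω (x + (u + s) • e k) - F ω (x + u • e k)| ≤
        (K + 2) * |s| + C * s ^ 2 := by
      intro u s
      have h2 := hFT ω k hk (x + u • e k) s
      have h3 := hTB ω k hk (x + u • e k)
      rw [add_smul, ← add_assoc]
      have h4 : (m:ℝ) * η ≤ 1 := by
        rw [hηdef, mul_one_div, div_le_one (by positivity)]; linarith
      have h5 := abs_add_le (F ω (x + u • e k + s • e k) - F ω (x + u • e k) -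
        s * T ω k (x + u • e k)) (s * T ω k (x + u • e k))
      rw [sub_add_cancel, abs_mul s] at h5
      have h6 : |s| * |T ω k (x + u • e k)| ≤ |s| * (1 + K) :=
        mul_le_mul_of_nonneg_left h3 (abs_nonneg _)
      have h7 : (m:ℝ) * η * |s| ≤ 1 * |s| := mul_le_mul_of_nonneg_right h4 (abs_nonneg _)
      linarith
    have h2 := subdiv (F := fun u => F ω (x + u • e k)) h1 t
    simpa using h2
  have hRL := hdir (F ω) (K + 2) (by positivity) hd2
  have h1 := hU (θ ω) (hθ1 ω) (F ω) (A * (K + 2)) hW0 hRL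
  have h2 : ρ (θ ω).support.card ≤ ρ m := hρ (hθc ω)
  have h3 : ρ (θ ω).support.card * W ≤ ρ m * W := mul_le_mul_of_nonneg_right h2 hW0
  have h4 : ρ m < m * (c / (2 * (W + 1))) := by
    rw [div_lt_iff₀ hmpos] at hm1
    linarith
  have h5 : ρ m * W ≤ m * (c / (2 * (W + 1))) * W := mul_le_mul_of_nonneg_right h4.le hW0
  have h6 : m * (c / (2 * (W + 1))) * W = (W / (W + 1)) * (m * (c / 2)) := by field_simp
  have h7 : W / (W + 1) < 1 := by rw [div_lt_one (by positivity)]; linarith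
  have h8 : 0 < (m : ℝ) * (c / 2) := by positivity
  have h9 : (W / (W + 1)) * (m * (c / 2)) < 1 * (m * (c / 2)) := by
    exact mul_lt_mul_of_pos_right h7 h8
  have h10 : Phi μ (θ ω) (F ω) ≤ ρ (θ ω).support.card * W := h1
  linarith

end Q101Fs
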