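import Pool.Agent.Q101.FsS

set_option autoImplicit false

/-!
# Project FS (helper101), job 8: finitely many directions which control functions
-/

open Filter Topology

namespace Q101Fs

open Q101Lf Pool.Agent.TH326.L1

theorem FsDirs_step {V : Type} [NormedAddCommGroup V] [NormedSpace ℝ V] {ι : Type}
    (e : ι → V) (F : V → ℝ) (L : ℝ)
    (hF : ∀ k, ∀ (x : V) (t : ℝ), |F (x + t • e k) - F x| ≤ L * |t|) (y : V) (c : ι → ℝ)
    (s : Finset ι) : |F (y + ∑ i ∈ s, c i • e i) - F y| ≤ L * ∑ i ∈ s, |c i| := by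
  classical
  induction s using Finset.induction_on with
  | empty => simp
  | insert a s ha ih =>
    rw [Finset.sum_insert ha, Finset.sum_insert ha]
    have h1 := hF a (y + ∑ i ∈ s, c i • e i) (c a)
    have e1 : y + (c a • e a + ∑ i ∈ s, c i • e i) = y + ∑ i ∈ s, c i • e i + c a • e a := by
      abel
    rw [e1]
    have h2 := abs_add_le (F (y + ∑ i ∈ s, c i • e i + c a • e a) - F (y + ∑ i ∈ s, c i • e i))
      (F (y + ∑ i ∈ s, c i • e i) - F y)
    have e2 : F (y + ∑ i ∈ s, c i • e i + c a • e a) - F (y + ∑ i ∈ s, c i • e i) +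
      (F (y + ∑ i ∈ s, c i • e i) - F y) = F (y + ∑ i ∈ s, c i • e i + c a • e a) - F y := by
      ring
    rw [e2] at h2
    rw [mul_add]
    linarith

theorem dirs : S_dirs := by
  intro V _ _ _ _
  obtain ⟨u0, hu0⟩ := exists_norm_eq V (c := 1) zero_le_one
  set b := Module.finBasis ℝ V with hb
  set d := Module.finrank ℝ V with hd
  have hbn : ∀ i, 0 < ‖b i‖ := fun i => norm_pos_iff.mpr (b.ne_zero i)
  set e : ℕ → V := fun k => if h : k < d then (‖b ⟨k, h⟩‖)⁻¹ • b ⟨k, h⟩ else u0 with he
  have hei : ∀ i : Fin d, e (i : ℕ) = (‖b i‖)⁻¹ • b i := by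
    intro i
    simp [he, i.2]
  set c : Fin d → V →ₗ[ℝ] ℝ := fun i => ‖b i‖ • b.coord i with hc
  have hcont : ∀ i, ∀ x, |c i x| ≤ ‖LinearMap.toContinuousLinearMap (c i)‖ * ‖x‖ := by
    intro i x
    exact (LinearMap.toContinuousLinearMap (c i)).le_opNorm x
  refine ⟨d, e, ∑ i, ‖LinearMap.toContinuousLinearMap (c i)‖, ?_, ?_, ?_⟩
  · intro k
    by_cases h : k < d
    · have h1 := hei ⟨k, h⟩
      simp only at h1
      rw [h1, norm_smul, norm_inv, norm_norm]
      exact inv_mul_cancel₀ (hbn _).ne'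
    · simp only [he, h, dif_neg, not_false_eq_true]
      exact hu0
  · exact Finset.sum_nonneg fun i _ => norm_nonneg _
  · intro F L hL hF x y
    have h1 := FsDirs_step (fun i : Fin d => e (i : ℕ)) F L (fun i => hF i i.2) y
      (fun i => c i (x - y)) Finset.univ
    have h2 : ∑ i : Fin d, c i (x - y) • e (i : ℕ) = x - y := by
      have h3 : ∀ i : Fin d, c i (x - y) • e (i : ℕ) = b.repr (x - y) i • b i := by
        intro i
        rw [hei, hc]
        simp only [LinearMap.smul_apply, Module.Basis.coord_apply, smul_eq_mul]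
        rw [smul_smul]
        congr 1
        have := (hbn i).ne'
        field_simp
      rw [Finset.sum_congr rfl fun i _ => h3 i]
      exact b.sum_repr (x - y)
    rw [h2, add_sub_cancel] at h1
    refine h1.trans ?_
    calc L * ∑ i, |c i (x - y)| ≤ L * ∑ i, ‖LinearMap.toContinuousLinearMap (c i)‖ * ‖x - y‖ :=
          mul_le_mul_of_nonneg_left (Finset.sum_le_sum fun i _ => hcont i _) hL
      _ = (∑ i, ‖LinearMap.toContinuousLinearMap (c i)‖) * L * ‖x - y‖ := by
          rw [← Finset.sum_mul]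
          ring

end Q101Fs
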