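import Pool.Agent.Q101.FsS

set_option autoImplicit false

/-!
# The Godefroy-Kalton lifting of a sequence of unit vectors
-/

open Filter Topology

namespace Q101Fs

namespace Gk

open Q101Lf Pool.Agent.TH326.L1

variable {X : Type} [NormedAddCommGroup X] [NormedSpace ℝ X]

set_option linter.unusedSectionVars false

theorem rl_cont {K : ℝ} {g : X → ℝ} (hK : 0 ≤ K) (h : RL K g) : Continuous g := by
  have : LipschitzWith (Real.toNNReal K) g := by
    refine LipschitzWith.of_dist_le_mul fun x y => ?_
    rw [Real.dist_eq, Real.coe_toNNReal K hK, dist_eq_norm]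
    exact h x y
  exact this.continuous

/-- average over a segment -/
noncomputable def A (v : X) (g : X → ℝ) (x : X) : ℝ := ∫ s in (0 : ℝ)..1, g (x + s • v)

theorem ii {g : X → ℝ} (hg : Continuous g) (x v : X) (a b : ℝ) :
    IntervalIntegrable (fun s : ℝ => g (x + s • v)) MeasureTheory.volume a b :=
  (hg.comp (by fun_prop : Continuous fun s : ℝ => x + s • v)).intervalIntegrable _ _

theorem A_cont {g : X → ℝ} (hg : Continuous g) (v : X) : Continuous (A v g) := by
  unfold A
  refine intervalIntegral.continuous_parametric_intervalIntegral_of_continuous' ?_ _ _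
  exact hg.comp (by fun_prop)

theorem A_sub_le {g g' : X → ℝ} (hg : Continuous g) (hg' : Continuous g') (v x y : X) (δ : ℝ)
    (h : ∀ s : ℝ, |g (x + s • v) - g' (y + s • v)| ≤ δ) : |A v g x - A v g' y| ≤ δ := by
  unfold A
  rw [← intervalIntegral.integral_sub (ii hg x v 0 1) (ii hg' y v 0 1)]
  have := intervalIntegral.norm_integral_le_of_norm_le_const (a := 0) (b := 1)
    (f := fun s : ℝ => g (x + s • v) - g' (y + s • v)) (C := δ)
    (fun s _ => by simpa [Real.norm_eq_abs] using h s)
  simpa [Real.norm_eq_abs] using this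

theorem A_rl {K : ℝ} {g : X → ℝ} (hK : 0 ≤ K) (h : RL K g) (v : X) : RL K (A v g) := by
  intro x y
  refine A_sub_le (rl_cont hK h) (rl_cont hK h) v x y _ fun s => ?_
  have := h (x + s • v) (y + s • v)
  rwa [add_sub_add_right_eq_sub] at this

theorem A_near {K : ℝ} {g : X → ℝ} (hK : 0 ≤ K) (h : RL K g) (v x : X) :
    |A v g x - g x| ≤ K * ‖v‖ := by
  have hc := rl_cont hK h
  have h1 : g x = ∫ s in (0 : ℝ)..1, g x := by simp
  unfold A
  conv_lhs => rw [h1]
  rw [← intervalIntegral.integral_sub (ii hc x v 0 1) (by simp)]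
  have := intervalIntegral.norm_integral_le_of_norm_le_const (a := 0) (b := 1)
    (f := fun s : ℝ => g (x + s • v) - g x) (C := K * ‖v‖)
    (fun s hs => by
      rw [Real.norm_eq_abs]
      refine (h _ _).trans ?_
      rw [add_sub_cancel_left, norm_smul]
      have h2 : ‖s‖ ≤ 1 := by
        rw [Set.uIoc_of_le (by norm_num)] at hs
        rw [Real.norm_eq_abs, abs_le]
        constructor <;> linarith [hs.1, hs.2]
      have := mul_le_mul_of_nonneg_right h2 (norm_nonneg v)
      rw [one_mul] at this
      exact mul_le_mul_of_nonneg_left this hK)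
  simpa [Real.norm_eq_abs] using this

theorem key {K : ℝ} {g : X → ℝ} (hK : 0 ≤ K) (h : RL K g) (v x : X) (t a : ℝ) :
    |(∫ s in a..(a + t), g (x + s • v)) - t * g (x + a • v)| ≤ K * ‖v‖ * t ^ 2 := by
  have hc := rl_cont hK h
  have h3 : t * g (x + a • v) = ∫ s in a..(a + t), g (x + a • v) := by
    rw [intervalIntegral.integral_const]; simp
  rw [h3, ← intervalIntegral.integral_sub (ii hc x v _ _) (by simp)]
  have := intervalIntegral.norm_integral_le_of_norm_le_const (a := a) (b := a + t)
    (f := fun s : ℝ => g (x + s • v) - g (x + a • v)) (C := K * (|t| * ‖v‖))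
    (fun s hs => by
      rw [Real.norm_eq_abs]
      refine (h _ _).trans ?_
      rw [add_sub_add_left_eq_sub, ← sub_smul, norm_smul, Real.norm_eq_abs]
      have h4 : |s - a| ≤ |t| := by
        have := Set.abs_sub_left_of_mem_uIcc (Set.uIoc_subset_uIcc hs)
        simpa using this
      exact mul_le_mul_of_nonneg_left (mul_le_mul_of_nonneg_right h4 (norm_nonneg v)) hK)
  rw [Real.norm_eq_abs] at this
  refine this.trans (le_of_eq ?_)
  rw [add_sub_cancel_left, mul_assoc, show |t| * ‖v‖ * |t| = ‖v‖ * |t| ^ 2 by ring, sq_abs]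
  ring

/-- first order expansion of the average -/
theorem A_exp {K : ℝ} {g : X → ℝ} (hK : 0 ≤ K) (h : RL K g) (v x : X) (t : ℝ) :
    |A v g (x + t • v) - A v g x - t * (g (x + v) - g x)| ≤ 2 * K * ‖v‖ * t ^ 2 := by
  have hc := rl_cont hK h
  have h1 : A v g (x + t • v) = ∫ s in (0 + t)..(1 + t), g (x + s • v) := by
    unfold A
    rw [← intervalIntegral.integral_comp_add_right (fun s => g (x + s • v))]
    refine intervalIntegral.integral_congr fun s _ => ?_
    congr 1
    rw [add_smul]; abel
  have h2 : A v g (x + t • v) - A v g x =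
      (∫ s in (1 : ℝ)..(1 + t), g (x + s • v)) - ∫ s in (0 : ℝ)..t, g (x + s • v) := by
    rw [h1, zero_add]
    unfold A
    have e1 := intervalIntegral.integral_add_adjacent_intervals (ii hc x v 0 1) (ii hc x v 1 (1 + t))
    have e2 := intervalIntegral.integral_add_adjacent_intervals (ii hc x v 0 t) (ii hc x v t (1 + t))
    linarith
  have k1 := key hK h v x t 1
  have k0 := key hK h v x t 0
  rw [one_smul] at k1
  rw [zero_smul, add_zero, zero_add] at k0
  rw [h2]
  have e : (∫ s in (1 : ℝ)..(1 + t), g (x + s • v)) - (∫ s in (0 : ℝ)..t, g (x + s • v)) -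
      t * (g (x + v) - g x) = ((∫ s in (1 : ℝ)..(1 + t), g (x + s • v)) - t * g (x + v)) -
        ((∫ s in (0 : ℝ)..t, g (x + s • v)) - t * g x) := by ring
  rw [e]
  refine (abs_sub _ _).trans ?_
  linarith

theorem A_comm {g : X → ℝ} (hg : Continuous g) (v w x : X) :
    A v (A w g) x = A w (A v g) x := by
  unfold A
  have h : MeasureTheory.IntegrableOn (Function.uncurry fun s t : ℝ => g (x + s • v + t • w))
      (Set.uIoc (0 : ℝ) 1 ×ˢ Set.uIoc (0 : ℝ) 1) := by
    have hc : Continuous (Function.uncurry fun s t : ℝ => g (x + s • v + t • w)) := by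
      refine hg.comp ?_
      fun_prop
    refine MeasureTheory.IntegrableOn.mono_set
      (hc.continuousOn.integrableOn_compact
        ((isCompact_uIcc (a := (0 : ℝ)) (b := 1)).prod (isCompact_uIcc (a := (0 : ℝ)) (b := 1)))) ?_
    exact Set.prod_mono Set.uIoc_subset_uIcc Set.uIoc_subset_uIcc
  have := MeasureTheory.intervalIntegral_intervalIntegral_swap h
  rw [this]
  refine intervalIntegral.integral_congr fun t _ => intervalIntegral.integral_congr fun s _ => ?_
  congr 1
  abel

theorem A_zero (g : X → ℝ) : A 0 g = g := by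
  funext x
  simp [A]

/-- iterated averages -/
noncomputable def P (v : ℕ → X) (g : X → ℝ) : ℕ → X → ℝ
  | 0 => g
  | n + 1 => A (v n) (P v g n)

theorem P_congr {v v' : ℕ → X} (g : X → ℝ) (n : ℕ) (h : ∀ j, j < n → v j = v' j) :
    P v g n = P v' g n := by
  induction n with
  | zero => rfl
  | succ n ih =>
    show A (v n) (P v g n) = A (v' n) (P v' g n)
    rw [h n (Nat.lt_succ_self n), ih fun j hj => h j (hj.trans (Nat.lt_succ_self n))]

theorem P_rl {K : ℝ} {g : X → ℝ} (hK : 0 ≤ K) (h : RL K g) (v : ℕ → X) (n : ℕ) :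
    RL K (P v g n) := by
  induction n with
  | zero => exact h
  | succ n ih => exact A_rl hK ih _

theorem P_near {K : ℝ} {g : X → ℝ} (hK : 0 ≤ K) (h : RL K g) (v : ℕ → X) (m n : ℕ) (hmn : m ≤ n)
    (x : X) : |P v g n x - P v g m x| ≤ K * ∑ j ∈ Finset.Ico m n, ‖v j‖ := by
  induction n, hmn using Nat.le_induction with
  | base => simp
  | succ n hmn ih =>
    rw [Finset.sum_Ico_succ_top hmn, mul_add]
    have h1 := A_near hK (P_rl hK h v n) (v n) x
    have h2 := abs_sub_le (P v g (n + 1) x) (P v g n x) (P v g m x)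
    have h3 : P v g (n + 1) x = A (v n) (P v g n) x := rfl
    rw [← h3] at h1
    linarith

theorem P_comm {K : ℝ} {g : X → ℝ} (hK : 0 ≤ K) (h : RL K g) (v : ℕ → X) (n k : ℕ) (hk : k < n) :
    P v g n = A (v k) (P (Function.update v k 0) g n) := by
  induction n with
  | zero => omega
  | succ n ih =>
    rcases Nat.lt_succ_iff_lt_or_eq.1 hk with h1 | h1
    · show A (v n) (P v g n) = A (v k) (A (Function.update v k 0 n) _)
      rw [ih h1, Function.update_of_ne (by omega)]
      funext x
      exact A_comm (rl_cont hK (P_rl hK h _ n)) _ _ x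
    · subst h1
      show A (v k) (P v g k) = A (v k) (A (Function.update v k 0 k) _)
      rw [Function.update_self, A_zero]
      congr 1
      refine P_congr g k fun j hj => ?_
      rw [Function.update_of_ne (by omega)]

/-- discrete average -/
noncomputable def B (m : ℕ) (v : X) (g : X → ℝ) (x : X) : ℝ :=
  (1 / (m : ℝ)) * ∑ i ∈ Finset.range m, g (x + ((i : ℝ) / m) • v)

theorem AB {K : ℝ} {g : X → ℝ} (hK : 0 ≤ K) (h : RL K g) (v x : X) (m : ℕ) (hm : 0 < m) :
    |A v g x - B m v g x| ≤ K * ‖v‖ / m := by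
  have hc := rl_cont hK h
  have hm' : (0 : ℝ) < m := by exact_mod_cast hm
  have h1 : A v g x = ∑ i ∈ Finset.range m,
      ∫ s in ((i : ℝ) / m)..((i : ℝ) / m + 1 / m), g (x + s • v) := by
    have := intervalIntegral.sum_integral_adjacent_intervals (n := m)
      (f := fun s : ℝ => g (x + s • v)) (a := fun i : ℕ => (i : ℝ) / m)
      (μ := MeasureTheory.volume) (fun i _ => ii hc x v _ _)
    rw [Nat.cast_zero, zero_div, div_self hm'.ne'] at this
    unfold A
    rw [← this]
    refine Finset.sum_congr rfl fun i _ => ?_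
    congr 1
    push_cast
    ring
  unfold B
  rw [h1, Finset.mul_sum, ← Finset.sum_sub_distrib]
  refine (Finset.abs_sum_le_sum_abs _ _).trans ?_
  calc ∑ i ∈ Finset.range m, |(∫ s in ((i : ℝ) / m)..((i : ℝ) / m + 1 / m), g (x + s • v)) -
        1 / m * g (x + ((i : ℝ) / m) • v)| ≤ ∑ i ∈ Finset.range m, K * ‖v‖ * (1 / m) ^ 2 :=
        Finset.sum_le_sum fun i _ => key hK h v x (1 / m) ((i : ℝ) / m)
    _ = K * ‖v‖ / m := by
        rw [Finset.sum_const, Finset.card_range, nsmul_eq_mul]
        field_simp

theorem B_sub (m : ℕ) (v x : X) (g g' : X → ℝ) (δ : ℝ) (hm : 0 < m)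
    (h : ∀ x, |g x - g' x| ≤ δ) : |B m v g x - B m v g' x| ≤ δ := by
  have hm' : (0 : ℝ) < m := by exact_mod_cast hm
  unfold B
  rw [← mul_sub, ← Finset.sum_sub_distrib, abs_mul, abs_of_pos (by positivity)]
  have h1 : |∑ i ∈ Finset.range m, (g (x + ((i : ℝ) / m) • v) - g' (x + ((i : ℝ) / m) • v))| ≤
      m * δ := by
    refine (Finset.abs_sum_le_sum_abs _ _).trans ?_
    refine (Finset.sum_le_sum fun i _ => h _).trans ?_
    rw [Finset.sum_const, Finset.card_range, nsmul_eq_mul]
  calc 1 / (m : ℝ) * _ ≤ 1 / m * (m * δ) := mul_le_mul_of_nonneg_left h1 (by positivity)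
    _ = δ := by field_simp

/-- iterated discrete averages -/
noncomputable def Q (m : ℕ) (v : ℕ → X) (g : X → ℝ) : ℕ → X → ℝ
  | 0 => g
  | n + 1 => B m (v n) (Q m v g n)

theorem PQ {K : ℝ} {g : X → ℝ} (hK : 0 ≤ K) (h : RL K g) (v : ℕ → X) (m : ℕ) (hm : 0 < m) (n : ℕ)
    (x : X) : |P v g n x - Q m v g n x| ≤ K * (∑ j ∈ Finset.range n, ‖v j‖) / m := by
  induction n generalizing x with
  | zero => simp [P, Q]
  | succ n ih =>
    have h1 := AB hK (P_rl hK h v n) (v n) x m hm
    have h2 := B_sub m (v n) x (P v g n) (Q m v g n) _ hm ih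
    have h3 := abs_sub_le (P v g (n + 1) x) (B m (v n) (P v g n) x) (Q m v g (n + 1) x)
    have h4 : P v g (n + 1) x = A (v n) (P v g n) x := rfl
    have h5 : Q m v g (n + 1) x = B m (v n) (Q m v g n) x := rfl
    rw [← h4] at h1
    rw [← h5] at h2
    rw [Finset.sum_range_succ, mul_add, add_div]
    linarith

theorem rep (m : ℕ) (v : ℕ → X) (n : ℕ) (x y : X) :
    ∃ ν : F0 X, ∀ g : X → ℝ, pair g ν = Q m v g n x - Q m v g n y := by
  classical
  induction n generalizing x y with
  | zero =>
    refine ⟨⟨Finsupp.single x 1 - Finsupp.single y 1, ?_⟩, fun g => ?_⟩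
    · show ((Finsupp.single x (1 : ℝ) - Finsupp.single y 1).sum fun _ a => a) = 0
      rw [Finsupp.sum_sub_index (fun _ _ _ => rfl), Finsupp.sum_single_index rfl,
        Finsupp.sum_single_index rfl, sub_self]
    · show ((Finsupp.single x (1 : ℝ) - Finsupp.single y 1).sum fun z a => a * g z) = g x - g y
      rw [Finsupp.sum_sub_index (fun _ _ _ => by ring), Finsupp.sum_single_index (by simp),
        Finsupp.sum_single_index (by simp), one_mul, one_mul]
  | succ n ih =>
    choose ν hν using ih
    refine ⟨(1 / (m : ℝ)) • ∑ i ∈ Finset.range m,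
      ν (x + ((i : ℝ) / m) • v n) (y + ((i : ℝ) / m) • v n), fun g => ?_⟩
    rw [pair_smul]
    have h1 : pair g (∑ i ∈ Finset.range m,
        ν (x + ((i : ℝ) / m) • v n) (y + ((i : ℝ) / m) • v n)) = ∑ i ∈ Finset.range m,
          pair g (ν (x + ((i : ℝ) / m) • v n) (y + ((i : ℝ) / m) • v n)) :=
      map_sum (pairL g) _ _
    rw [h1]
    simp only [hν]
    show _ = B m (v n) (Q m v g n) x - B m (v n) (Q m v g n) y
    unfold B
    rw [Finset.sum_sub_distrib]
    ring

theorem Q_lin (m : ℕ) (hm : 0 < m) (v : ℕ → X) (n : ℕ) (g : X →L[ℝ] ℝ) (x y : X) :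
    Q m v (fun z => g z) n x - Q m v (fun z => g z) n y = g (x - y) := by
  have hm' : (0 : ℝ) < m := by exact_mod_cast hm
  induction n generalizing x y with
  | zero => simp [Q]
  | succ n ih =>
    show B m (v n) (Q m v (fun z => g z) n) x - B m (v n) (Q m v (fun z => g z) n) y = _
    unfold B
    rw [← mul_sub, ← Finset.sum_sub_distrib]
    have : ∀ i ∈ Finset.range m, Q m v (fun z => g z) n (x + ((i : ℝ) / m) • v n) -
        Q m v (fun z => g z) n (y + ((i : ℝ) / m) • v n) = g (x - y) := by
      intro i _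
      rw [ih, add_sub_add_right_eq_sub]
    rw [Finset.sum_congr rfl this, Finset.sum_const, Finset.card_range, nsmul_eq_mul]
    field_simp

/-- the weights -/
noncomputable def c (k : ℕ) : ℝ := (1 / 2) ^ (k ^ 2 + 6 * k)

theorem c_pos (k : ℕ) : 0 < c k := by unfold c; positivity

theorem c_le (k : ℕ) : c k ≤ 1 := pow_le_one₀ (by norm_num) (by norm_num)

theorem c_succ (k : ℕ) : c (k + 1) = c k * (1 / 2) ^ (2 * k + 7) := by
  unfold c
  rw [← pow_add]
  congr 1
  ring

theorem c_two (k : ℕ) : 2 * c (k + 1) ≤ c k * (1 / 2) ^ (k + 6) := by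
  rw [c_succ]
  have h1 : ((1 : ℝ) / 2) ^ (2 * k + 7) = (1 / 2) ^ (k + 6) * (1 / 2) ^ (k + 1) := by
    rw [← pow_add]; congr 1; ring
  have h2 : ((1 : ℝ) / 2) ^ (k + 1) ≤ 1 / 2 := by
    rw [pow_succ]
    have : ((1 : ℝ) / 2) ^ k ≤ 1 := pow_le_one₀ (by norm_num) (by norm_num)
    linarith
  rw [h1]
  have h3 : 0 < c k * (1 / 2) ^ (k + 6) := mul_pos (c_pos k) (by positivity)
  nlinarith

theorem c_half (k : ℕ) : 2 * c (k + 1) ≤ c k := by
  refine (c_two k).trans ?_
  have : ((1 : ℝ) / 2) ^ (k + 6) ≤ 1 := pow_le_one₀ (by norm_num) (by norm_num)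
  have h := c_pos k
  nlinarith

theorem c_sum (k N : ℕ) (h : k + 1 ≤ N) : ∑ j ∈ Finset.Ico (k + 1) N, c j ≤ c k * (1 / 2) ^ (k + 6) := by
  have h1 : ∑ j ∈ Finset.Ico (k + 1) N, c j ≤ 2 * c (k + 1) - 2 * c N := by
    induction N, h using Nat.le_induction with
    | base => simp
    | succ n hn ih =>
      rw [Finset.sum_Ico_succ_top hn]
      have := c_half n
      linarith
  have h2 := c_two k
  have h3 := c_pos N
  linarith

theorem gk : S_gk := by
  intro X _ _ e he
  classical
  set v : ℕ → X := fun j => c j • e j with hv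
  have hvn : ∀ j, ‖v j‖ = c j := by
    intro j
    rw [hv]
    simp only
    rw [norm_smul, he, mul_one, Real.norm_eq_abs, abs_of_pos (c_pos j)]
  have hm : ∀ k : ℕ, ∃ m : ℕ, 0 < m ∧ (k : ℝ) ≤ m * (c k * (1 / 2) ^ (k + 6)) := by
    intro k
    have h3 : 0 < c k * (1 / 2) ^ (k + 6) := mul_pos (c_pos k) (by positivity)
    obtain ⟨m, hm⟩ := exists_nat_ge ((k : ℝ) / (c k * (1 / 2) ^ (k + 6)))
    refine ⟨m + 1, Nat.succ_pos _, ?_⟩
    rw [div_le_iff₀ h3] at hm
    push_cast
    nlinarith
  choose m hm0 hm using hm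
  have hrep : ∀ k : ℕ, ∃ ν : F0 X, ∀ g : X → ℝ,
      pair g ν = Q (m k) v g k (v k) - Q (m k) v g k 0 := fun k => rep (m k) v k (v k) 0
  choose ν hν using hrep
  refine ⟨fun k => (1 / c k) • ν k, ?_, ?_⟩
  · intro θ hθ K f hK hf
    obtain ⟨N, hN⟩ : ∃ N : ℕ, θ.support ⊆ Finset.range N := by
      refine ⟨θ.support.sup id + 1, fun j hj => ?_⟩
      rw [Finset.mem_range, Nat.lt_succ_iff]
      exact Finset.le_sup (f := id) hj
    have hs1 : (θ.sum fun j s => s * pair f ((1 / c j) • ν j)) =
        ∑ k ∈ Finset.range N, θ k * pair f ((1 / c k) • ν k) :=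
      Finsupp.sum_of_support_subset θ hN _ (fun i _ => by simp)
    have hs2 : (θ.sum fun j s => s • e j) = ∑ k ∈ Finset.range N, θ k • e k :=
      Finsupp.sum_of_support_subset θ hN _ (fun i _ => by simp)
    rw [hs1, hs2]
    -- the reference functionals
    set g : ℕ → X → ℝ := fun k => P (Function.update v k 0) f N with hg
    have hgl : ∀ k, RL K (g k) := fun k => P_rl hK hf _ _
    set Lk : ℕ → ℝ := fun k => (1 / c k) * (g k (v k) - g k 0) with hL
    have hcomp : ∀ k, k < N → ∀ x, |g k x - Q (m k) v f k x| ≤ K * (c k * (1 / 2) ^ (k + 5)) := by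
      intro k hk x
      have h1 := P_near hK hf (Function.update v k 0) k N hk.le x
      have h2 : P (Function.update v k 0) f k = P v f k :=
        P_congr f k fun j hj => Function.update_of_ne (by omega) _ _
      have h3 := PQ hK hf v (m k) (hm0 k) k x
      have h4 : ∑ j ∈ Finset.Ico k N, ‖Function.update v k 0 j‖ ≤ c k * (1 / 2) ^ (k + 6) := by
        rw [Finset.sum_eq_sum_Ico_succ_bot hk, Function.update_self, norm_zero, zero_add]
        refine le_trans (le_of_eq ?_) (c_sum k N hk)
        refine Finset.sum_congr rfl fun j hj => ?_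
        rw [Finset.mem_Ico] at hj
        rw [Function.update_of_ne (by omega), hvn]
      have h5 : (∑ j ∈ Finset.range k, ‖v j‖) / (m k : ℝ) ≤ c k * (1 / 2) ^ (k + 6) := by
        have hmk : (0 : ℝ) < m k := by exact_mod_cast hm0 k
        rw [div_le_iff₀ hmk]
        have : ∑ j ∈ Finset.range k, ‖v j‖ ≤ k := by
          refine (Finset.sum_le_sum (g := fun _ => (1 : ℝ)) fun j _ => ?_).trans ?_
          · rw [hvn]; exact c_le j
          · simp
        have := hm k
        linarith
      have h6 := abs_sub_le (g k x) (P v f k x) (Q (m k) v f k x)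
      rw [h2] at h1
      have h7 : K * ∑ j ∈ Finset.Ico k N, ‖Function.update v k 0 j‖ ≤
          K * (c k * (1 / 2) ^ (k + 6)) := mul_le_mul_of_nonneg_left h4 hK
      have h8 : K * (∑ j ∈ Finset.range k, ‖v j‖) / (m k : ℝ) ≤ K * (c k * (1 / 2) ^ (k + 6)) := by
        rw [mul_div_assoc]; exact mul_le_mul_of_nonneg_left h5 hK
      have h9 : K * (c k * (1 / 2) ^ (k + 5)) = 2 * (K * (c k * (1 / 2) ^ (k + 6))) := by
        rw [pow_succ (1 / 2 : ℝ) (k + 5)]; ring
      rw [h9]
      have h10 : |g k x - P v f k x| ≤ K * ∑ j ∈ Finset.Ico k N, ‖Function.update v k 0 j‖ := h1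
      linarith
    have hLν : ∀ k, k < N → |Lk k - pair f ((1 / c k) • ν k)| ≤ K * (1 / 2) ^ (k + 4) := by
      intro k hk
      have hck := c_pos k
      rw [pair_smul, hν, hL]
      simp only
      rw [← mul_sub, abs_mul, abs_of_pos (by positivity : 0 < 1 / c k)]
      have h1 := hcomp k hk (v k)
      have h2 := hcomp k hk 0
      have h3 : |g k (v k) - g k 0 - (Q (m k) v f k (v k) - Q (m k) v f k 0)| ≤
          2 * (K * (c k * (1 / 2) ^ (k + 5))) := by
        have e : g k (v k) - g k 0 - (Q (m k) v f k (v k) - Q (m k) v f k 0) =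
            (g k (v k) - Q (m k) v f k (v k)) - (g k 0 - Q (m k) v f k 0) := by ring
        rw [e]
        refine (abs_sub _ _).trans ?_
        linarith
      refine (mul_le_mul_of_nonneg_left h3 (by positivity)).trans (le_of_eq ?_)
      rw [pow_succ (1 / 2 : ℝ) (k + 4)]
      field_simp
    -- the expansion
    have hexp : |∑ k ∈ Finset.range N, θ k * Lk k| ≤
        K * ‖∑ k ∈ Finset.range N, θ k • e k‖ := by
      obtain ⟨C, hC⟩ : ∃ C : ℝ, C = ∑ k ∈ Finset.range N, (2 * K / c k + 2 * K * N / c k) := ⟨_, rfl⟩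
      have hmain : ∀ h : ℝ, 0 < h → |∑ k ∈ Finset.range N, θ k * Lk k| ≤
          K * ‖∑ k ∈ Finset.range N, θ k • e k‖ + h * C := by
        intro h hh
        set y : ℕ → X := fun i => ∑ j ∈ Finset.range i, (h * θ j) • e j with hy
        have hyn : ∀ i, i ≤ N → ‖y i‖ ≤ h * N := by
          intro i hi
          refine (norm_sum_le _ _).trans ?_
          have h1 : ∀ j ∈ Finset.range i, ‖(h * θ j) • e j‖ ≤ h := by
            intro j _
            rw [norm_smul, he, mul_one, Real.norm_eq_abs, abs_mul, abs_of_pos hh]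
            have := hθ j
            nlinarith
          refine (Finset.sum_le_sum h1).trans ?_
          rw [Finset.sum_const, Finset.card_range, nsmul_eq_mul, mul_comm]
          have : (i : ℝ) ≤ N := by exact_mod_cast hi
          exact mul_le_mul_of_nonneg_left this hh.le
        have hstep : ∀ k ∈ Finset.range N, |(P v f N (y (k + 1)) - P v f N (y k)) -
            h * (θ k * Lk k)| ≤ h ^ 2 * (2 * K / c k + 2 * K * N / c k) := by
          intro k hk
          rw [Finset.mem_range] at hk
          have hck := c_pos k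
          set t : ℝ := h * θ k / c k with ht
          have htab : |t| ≤ h / c k := by
            rw [ht, abs_div, abs_mul, abs_of_pos hh, abs_of_pos hck]
            have := hθ k
            exact div_le_div_of_nonneg_right (by nlinarith) hck.le
          have e1 : y (k + 1) = y k + t • v k := by
            rw [hy]
            simp only
            rw [Finset.sum_range_succ, hv]
            simp only
            rw [smul_smul, ht, div_mul_cancel₀ _ hck.ne']
          have h1 := A_exp hK (hgl k) (v k) (y k) t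
          rw [← hg] at *
          have e2 : A (v k) (g k) = P v f N := (P_comm hK hf v N k hk).symm
          rw [e2, ← e1, hvn] at h1
          have h2 := hgl k (y k + v k) (v k)
          have h3 := hgl k (y k) 0
          rw [add_sub_cancel_right] at h2
          rw [sub_zero] at h3
          have h4 := hyn k hk.le
          have h5 : |t * (g k (y k + v k) - g k (y k)) - t * (g k (v k) - g k 0)| ≤
              h / c k * (2 * K * (h * N)) := by
            rw [← mul_sub, abs_mul]
            refine mul_le_mul htab ?_ (abs_nonneg _) (by positivity)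
            have e : g k (y k + v k) - g k (y k) - (g k (v k) - g k 0) =
                (g k (y k + v k) - g k (v k)) - (g k (y k) - g k 0) := by ring
            rw [e]
            refine (abs_sub _ _).trans ?_
            have := mul_le_mul_of_nonneg_left h4 hK
            linarith
          have e3 : t * (g k (v k) - g k 0) = h * (θ k * Lk k) := by
            rw [ht, hL]
            simp only
            field_simp
          rw [e3] at h5
          have h6 : 2 * K * c k * t ^ 2 ≤ h ^ 2 * (2 * K / c k) := by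
            have : t ^ 2 ≤ (h / c k) ^ 2 := by
              rw [← sq_abs t]
              exact pow_le_pow_left₀ (abs_nonneg _) htab 2
            calc 2 * K * c k * t ^ 2 ≤ 2 * K * c k * (h / c k) ^ 2 :=
                  mul_le_mul_of_nonneg_left this (by positivity)
              _ = h ^ 2 * (2 * K / c k) := by field_simp
          have h7 := abs_sub_le (P v f N (y (k + 1)) - P v f N (y k))
            (t * (g k (y k + v k) - g k (y k))) (h * (θ k * Lk k))
          have e4 : h / c k * (2 * K * (h * N)) = h ^ 2 * (2 * K * N / c k) := by ring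
          rw [e4] at h5
          rw [mul_add]
          linarith
        have hsum : |(P v f N (y N) - P v f N (y 0)) -
            h * ∑ k ∈ Finset.range N, θ k * Lk k| ≤ h ^ 2 * C := by
          rw [← Finset.sum_range_sub (fun k => P v f N (y k)) N, Finset.mul_sum,
            ← Finset.sum_sub_distrib, hC, Finset.mul_sum]
          exact (Finset.abs_sum_le_sum_abs _ _).trans (Finset.sum_le_sum hstep)
        have hy0 : y 0 = 0 := by simp [hy]
        have hyN : y N = h • ∑ k ∈ Finset.range N, θ k • e k := by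
          rw [hy]
          simp only
          rw [Finset.smul_sum]
          exact Finset.sum_congr rfl fun j _ => (smul_smul _ _ _).symm
        have hP := P_rl hK hf v N (y N) 0
        rw [sub_zero, hyN, norm_smul, Real.norm_eq_abs, abs_of_pos hh] at hP
        rw [hy0, hyN] at hsum
        have h8 : |h * ∑ k ∈ Finset.range N, θ k * Lk k| ≤
            h * (K * ‖∑ k ∈ Finset.range N, θ k • e k‖ + h * C) := by
          have := abs_sub_abs_le_abs_sub (h * ∑ k ∈ Finset.range N, θ k * Lk k)
            (P v f N (h • ∑ k ∈ Finset.range N, θ k • e k) - P v f N 0)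
          rw [abs_sub_comm] at hsum
          nlinarith
        rw [abs_mul, abs_of_pos hh] at h8
        exact le_of_mul_le_mul_left h8 hh
      refine le_of_forall_pos_le_add fun ε hε => ?_
      have hC0 : 0 ≤ C := by
        rw [hC]
        exact Finset.sum_nonneg fun k _ => by
          have := c_pos k
          positivity
      have := hmain (ε / (C + 1)) (by positivity)
      refine this.trans (add_le_add le_rfl ?_)
      rw [div_mul_eq_mul_div, div_le_iff₀ (by positivity)]
      nlinarith
    have herr : |∑ k ∈ Finset.range N, θ k * pair f ((1 / c k) • ν k) -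
        ∑ k ∈ Finset.range N, θ k * Lk k| ≤ K := by
      rw [← Finset.sum_sub_distrib]
      refine (Finset.abs_sum_le_sum_abs _ _).trans ?_
      have h1 : ∀ k ∈ Finset.range N, |θ k * pair f ((1 / c k) • ν k) - θ k * Lk k| ≤
          K * (1 / 2) ^ k * (1 / 16) := by
        intro k hk
        rw [Finset.mem_range] at hk
        rw [← mul_sub, abs_mul, abs_sub_comm]
        have h2 := hLν k hk
        have h3 := hθ k
        have h4 : K * (1 / 2) ^ (k + 4) = K * (1 / 2) ^ k * (1 / 16) := by
          rw [pow_add]; ring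
        rw [h4] at h2
        have h5 := mul_le_mul h3 h2 (abs_nonneg _) (by norm_num : (0 : ℝ) ≤ 1)
        rwa [one_mul] at h5
      refine (Finset.sum_le_sum h1).trans ?_
      rw [← Finset.sum_mul, ← Finset.mul_sum]
      have := sum_geometric_two_le N
      nlinarith
    have := abs_sub_abs_le_abs_sub (∑ k ∈ Finset.range N, θ k * pair f ((1 / c k) • ν k))
      (∑ k ∈ Finset.range N, θ k * Lk k)
    rw [mul_add, mul_one]
    linarith
  · intro k g
    have hck := c_pos k
    rw [pair_smul, hν, Q_lin _ (hm0 k), sub_zero, hv]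
    simp only
    rw [map_smul, smul_eq_mul, one_div, inv_mul_cancel_left₀ hck.ne', sub_self, abs_zero]
    positivity

end Gk

/-- job 2 -/
theorem gk : S_gk := Gk.gk

end Q101Fs
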