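import Pool.Agent.Q101.FsS

set_option autoImplicit false

/-!
# Project FS (helper101), job 1: greedy choice of signs
-/

namespace Q101Fs

theorem FsGreedy_add {W : Type} [AddCommGroup W] [Module ℝ W] (T : ℕ → W →ₗ[ℝ] ℝ) (θ : ℕ →₀ ℝ)
    (G h : W) : (θ.sum fun j s => s * T j (G + h)) =
      (θ.sum fun j s => s * T j G) + θ.sum fun j s => s * T j h := by
  unfold Finsupp.sum
  rw [← Finset.sum_add_distrib]
  refine Finset.sum_congr rfl fun j _ => ?_
  beta_reduce
  rw [map_add, mul_add]

theorem FsGreedy_sub {W : Type} [AddCommGroup W] [Module ℝ W] (T : ℕ → W →ₗ[ℝ] ℝ) (θ : ℕ →₀ ℝ)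
    (G h : W) : (θ.sum fun j s => s * T j (G - h)) =
      (θ.sum fun j s => s * T j G) - θ.sum fun j s => s * T j h := by
  unfold Finsupp.sum
  rw [← Finset.sum_sub_distrib]
  refine Finset.sum_congr rfl fun j _ => ?_
  beta_reduce
  rw [map_sub, mul_sub]

theorem FsGreedy_single {W : Type} [AddCommGroup W] [Module ℝ W] (T : ℕ → W →ₗ[ℝ] ℝ)
    (θ : ℕ →₀ ℝ) (G : W) (j : ℕ) (c : ℝ) :
    ((θ + Finsupp.single j c).sum fun j s => s * T j G) =
      (θ.sum fun j s => s * T j G) + c * T j G := by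
  rw [Finsupp.sum_add_index' (fun i => zero_mul _) (fun i a b => add_mul _ _ _),
    Finsupp.sum_single_index (zero_mul _)]

theorem greedy : S_greedy := by
  intro W _ _ T Q δ hδ h0 hstep m
  suffices key : ∃ (G : W) (θ : ℕ →₀ ℝ) (n : ℕ), Q G ∧ (∀ j, |θ j| ≤ 1) ∧
      (∀ j, n ≤ j → θ j = 0) ∧ θ.support.card ≤ m ∧ (m : ℝ) * δ ≤ θ.sum fun j s => s * T j G by
    obtain ⟨G, θ, n, h1, h2, _, h4, h5⟩ := key
    exact ⟨G, θ, h1, h2, h4, h5⟩
  induction m with
  | zero => exact ⟨0, 0, 0, h0, by simp, by simp, by simp, by simp⟩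
  | succ m ih =>
    obtain ⟨G, θ, n, hG, hθ, hn, hcard, hm⟩ := ih
    obtain ⟨j, hj, h, hh, hp, hq⟩ := hstep G hG n
    have habs : ∀ c : ℝ, |c| ≤ 1 → ∀ i, |(θ + Finsupp.single j c) i| ≤ 1 := by
      intro c hc i
      simp only [Finsupp.add_apply, Finsupp.single_apply]
      by_cases hij : j = i
      · subst hij
        simp [hn j hj, hc]
      · simp [hij, hθ i]
    have hsup : ∀ c : ℝ, ∀ i, j + 1 ≤ i → (θ + Finsupp.single j c) i = 0 := by
      intro c i hi
      simp only [Finsupp.add_apply, Finsupp.single_apply]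
      rw [hn i (by omega), if_neg (by omega)]
      simp
    have hc : ∀ c : ℝ, (θ + Finsupp.single j c).support.card ≤ m + 1 := by
      intro c
      have h1 := Finset.card_le_card (Finsupp.support_add (g₁ := θ) (g₂ := Finsupp.single j c))
      have h2 := Finset.card_union_le θ.support (Finsupp.single j c).support
      have h3 : (Finsupp.single j c).support.card ≤ 1 :=
        (Finset.card_le_card Finsupp.support_single_subset).trans (Finset.card_singleton j).le
      omega
    by_cases hs : 0 ≤ (θ.sum fun i t => t * T i h) + T j G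
    · refine ⟨G + h, θ + Finsupp.single j 1, j + 1, hp, habs 1 (by simp), hsup 1, hc 1, ?_⟩
      rw [FsGreedy_single, FsGreedy_add, map_add]
      push_cast
      linarith
    · refine ⟨G - h, θ + Finsupp.single j (-1), j + 1, hq, habs (-1) (by simp), hsup (-1),
        hc (-1), ?_⟩
      rw [FsGreedy_single, FsGreedy_sub, map_sub]
      push_cast
      linarith

end Q101Fs
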