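import Pool.Agent.Q101.FsRed

set_option autoImplicit false

/-!
# The space `F(ℓ_p)`, `1 < p < ∞`
-/

open Filter Topology
open scoped ENNReal

namespace Q101Fs

open Q101Lf Pool.Agent.TH326.L1

theorem pow_div_tendsto {a : ℝ} (ha : a < 1) :
    Tendsto (fun m : ℕ => (m : ℝ) ^ a / m) atTop (𝓝 0) := by
  have h1 := (tendsto_rpow_neg_atTop (show 0 < 1 - a by linarith)).comp
    (tendsto_natCast_atTop_atTop (R := ℝ))
  refine h1.congr' ?_
  filter_upwards [eventually_gt_atTop 0] with m hm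
  have hm' : (0 : ℝ) < m := by exact_mod_cast hm
  simp only [Function.comp]
  rw [show -(1 - a) = a - 1 by ring, Real.rpow_sub_one hm'.ne']

theorem F0_norm_le {X : Type} [NormedAddCommGroup X] (x : F0 X) {B : ℝ}
    (h : ∀ f : X → ℝ, RL 1 f → |pair f x| ≤ B) : ‖x‖ ≤ B := by
  rw [norm_def]
  refine ciSup_le fun f => h f.1 fun p q => ?_
  have := f.2.dist_le_mul p q
  simpa [Real.dist_eq, dist_eq_norm] using this

theorem pair_finsupp_sum {X : Type} (f : X → ℝ) (ν : ℕ → F0 X) (θ : ℕ →₀ ℝ) :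
    pair f (θ.sum fun j s => s • ν j) = θ.sum fun j s => s * pair f (ν j) := by
  change pairL f _ = _
  rw [Finsupp.sum, map_sum]
  refine Finset.sum_congr rfl fun j _ => ?_
  exact pair_smul _ _ _

section Lp

variable (p : ℝ≥0∞) [hp1 : Fact (1 ≤ p)]

/-- The space `ℓ_p`. -/
abbrev EllP : Type := lp (fun _ : ℕ => ℝ) p

variable {p}

theorem toReal_pos (hp : p ≠ ∞) : 1 ≤ p.toReal := by
  have h := hp1.out
  have := (ENNReal.toReal_le_toReal (by simp) hp).2 h
  simpa using this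

theorem norm_sum_e (hp : p ≠ ∞) (θ : ℕ →₀ ℝ) (hθ : ∀ j, |θ j| ≤ 1) :
    ‖θ.sum fun j s => s • (lp.single p j (1 : ℝ) : EllP p)‖ ≤
      (θ.support.card : ℝ) ^ (1 / p.toReal) := by
  have hP := toReal_pos hp
  have hP0 : 0 < p.toReal := by linarith
  have h1 : (θ.sum fun j s => s • (lp.single p j (1 : ℝ) : EllP p)) =
      ∑ j ∈ θ.support, lp.single p j (θ j) := by
    rw [Finsupp.sum]
    refine Finset.sum_congr rfl fun j _ => ?_
    rw [← lp.single_smul, smul_eq_mul, mul_one]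
  rw [h1]
  have h2 := lp.norm_sum_single (E := fun _ : ℕ => ℝ) hP0 (fun j => θ j) θ.support
  have h3 : ∑ j ∈ θ.support, ‖θ j‖ ^ p.toReal ≤ (θ.support.card : ℝ) := by
    refine (Finset.sum_le_sum (g := fun _ => (1 : ℝ)) fun j _ => ?_).trans (by simp)
    rw [Real.norm_eq_abs]
    exact Real.rpow_le_one (abs_nonneg _) (hθ j) hP0.le
  rw [one_div, Real.le_rpow_inv_iff_of_pos (norm_nonneg _) (Nat.cast_nonneg _) hP0]
  exact h2.le.trans h3

theorem abs_sum_coord (hp : p ≠ ∞) (θ : ℕ →₀ ℝ) (hθ : ∀ j, |θ j| ≤ 1) (x : EllP p) :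
    |∑ k ∈ θ.support, θ k * x k| ≤ (θ.support.card : ℝ) ^ (1 - 1 / p.toReal) * ‖x‖ := by
  have hP := toReal_pos hp
  have hP0 : 0 < p.toReal := by linarith
  have h1 : |∑ k ∈ θ.support, θ k * x k| ≤ ∑ k ∈ θ.support, |x k| := by
    refine (Finset.abs_sum_le_sum_abs _ _).trans (Finset.sum_le_sum fun k _ => ?_)
    rw [abs_mul]
    exact mul_le_of_le_one_left (abs_nonneg _) (hθ k)
  have h2 := Real.rpow_sum_le_const_mul_sum_rpow θ.support (fun k => x k) hP
  have h3 := lp.sum_rpow_le_norm_rpow hP0 x θ.support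
  simp only [Real.norm_eq_abs] at h3
  have h4 : (∑ k ∈ θ.support, |x k|) ^ p.toReal ≤
      ((θ.support.card : ℝ) ^ (1 - 1 / p.toReal) * ‖x‖) ^ p.toReal := by
    rw [Real.mul_rpow (by positivity) (norm_nonneg _), ← Real.rpow_mul (Nat.cast_nonneg _)]
    have h5 : (1 - 1 / p.toReal) * p.toReal = p.toReal - 1 := by field_simp
    rw [h5]
    exact h2.trans (mul_le_mul_of_nonneg_left h3 (by positivity))
  refine h1.trans ?_
  exact (Real.rpow_le_rpow_iff (Finset.sum_nonneg fun _ _ => abs_nonneg _) (by positivity) hP0).1 h4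

/-- The `k`-th coordinate on `ℓ_p`. -/
noncomputable def coord (p : ℝ≥0∞) [Fact (1 ≤ p)] (k : ℕ) : EllP p →L[ℝ] ℝ :=
  lp.evalCLM ℝ (fun _ : ℕ => ℝ) p k

theorem coord_apply (k : ℕ) (x : EllP p) : coord p k x = x k := rfl

theorem norm_coord_le (k : ℕ) : ‖coord p k‖ ≤ 1 := by
  refine ContinuousLinearMap.opNorm_le_bound _ zero_le_one fun x => ?_
  rw [one_mul, coord_apply]
  exact lp.norm_apply_le_norm (zero_lt_one.trans_le hp1.out).ne' x k

theorem lip_coord (k : ℕ) (x y : EllP p) : |coord p k x - coord p k y| ≤ 1 * dist x y := by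
  rw [← map_sub, dist_eq_norm]
  refine ((coord p k).le_opNorm _).trans ?_
  exact mul_le_mul_of_nonneg_right (norm_coord_le k) (norm_nonneg _)

theorem Phi_sum_coord (hp : p ≠ ∞) (θ : ℕ →₀ ℝ) (hθ : ∀ j, |θ j| ≤ 1) :
    ‖∑ k ∈ θ.support, θ k • Q101Lf.Phi (fun x : EllP p => coord p k x)‖ ≤
      (θ.support.card : ℝ) ^ (1 - 1 / p.toReal) := by
  have hB : (0 : ℝ) ≤ (θ.support.card : ℝ) ^ (1 - 1 / p.toReal) := by positivity
  have hL : ∀ x y : EllP p, |∑ k ∈ θ.support, θ k * coord p k x -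
      ∑ k ∈ θ.support, θ k * coord p k y| ≤
        (θ.support.card : ℝ) ^ (1 - 1 / p.toReal) * dist x y := by
    intro x y
    have h := abs_sum_coord hp θ hθ (x - y)
    rw [dist_eq_norm]
    refine le_trans (le_of_eq ?_) h
    rw [← Finset.sum_sub_distrib]
    congr 1
    refine Finset.sum_congr rfl fun k _ => ?_
    rw [← mul_sub, ← map_sub]
    rfl
  have h1 : ∑ k ∈ θ.support, θ k • Q101Lf.Phi (fun x : EllP p => coord p k x) =
      Q101Lf.Phi (fun x : EllP p => ∑ k ∈ θ.support, θ k * coord p k x) := by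
    refine ext_mol fun x y => ?_
    rw [Phi_mol hB hL, _root_.sum_apply, ← Finset.sum_sub_distrib]
    refine Finset.sum_congr rfl fun k _ => ?_
    rw [_root_.smul_apply, Phi_mol zero_le_one (lip_coord k), smul_eq_mul]
    ring
  rw [h1]
  exact ContinuousLinearMap.opNorm_le_bound _ hB fun w => abs_Phi_le hB hL w

/-- **Main theorem.** -/
theorem lp_main (h2 : S_gk) (h3 : S_tail) (h4 : S_tight) (h5 : S_small) (h6 : S_supply)
    (h7 : S_core) (h8 : S_dirs) (h9 : S_sum) (h1p : 1 < p) (hp : p ≠ ∞) (E : ℕ → Type)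
    [∀ n, NormedAddCommGroup (E n)] [∀ n, NormedSpace ℝ (E n)] [∀ n, FiniteDimensional ℝ (E n)]
    (T : LipFree (EllP p) →L[ℝ] lp (fun n => LipFree (E n)) 1)
    (S : lp (fun n => LipFree (E n)) 1 →L[ℝ] LipFree (EllP p)) : ¬ ∀ x, S (T x) = x := by
  intro hST
  have hP1 : 1 < p.toReal := by
    have := (ENNReal.toReal_lt_toReal (by simp) hp).2 h1p
    simpa using this
  have hP0 : 0 < p.toReal := by linarith
  have hPi : 1 / p.toReal < 1 := by rw [div_lt_one hP0]; exact hP1
  have hPi0 : 0 < 1 / p.toReal := by positivity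
  obtain ⟨ν, hν, hνg⟩ := h2 (EllP p) (fun k => lp.single p k (1 : ℝ)) (fun k => by
    rw [lp.norm_single (zero_lt_one.trans_le hp1.out)]; simp)
  refine abs_main h3 h4 h5 h6 h7 h8 h9 (fun k => T (toFree (ν k)))
    (fun k => (Q101Lf.Phi (fun x : EllP p => coord p k x)).comp S)
    (fun m => ‖T‖ * ((m : ℝ) ^ (1 / p.toReal) + 1)) (fun m => ‖S‖ * (m : ℝ) ^ (1 - 1 / p.toReal))
    ?_ ?_ ?_ ?_ ?_ ?_ ?_ (c := 3 / 4) (by norm_num) ?_
  · intro a b hab
    refine mul_le_mul_of_nonneg_left (add_le_add_left ?_ 1) (norm_nonneg _)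
    exact Real.rpow_le_rpow (Nat.cast_nonneg _) (by exact_mod_cast hab) hPi0.le
  · have h := ((pow_div_tendsto hPi).add
      (tendsto_const_div_atTop_nhds_zero_nat (1 : ℝ))).const_mul ‖T‖
    rw [add_zero, mul_zero] at h
    refine h.congr fun m => ?_
    ring
  · intro a b hab
    refine mul_le_mul_of_nonneg_left ?_ (norm_nonneg _)
    exact Real.rpow_le_rpow (Nat.cast_nonneg _) (by exact_mod_cast hab) (by linarith)
  · intro m
    positivity
  · have h := (pow_div_tendsto (a := 1 - 1 / p.toReal) (by linarith)).const_mul ‖S‖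
    rw [mul_zero] at h
    refine h.congr fun m => ?_
    ring
  · intro θ hθ
    have e1 : (θ.sum fun j s => s • T (toFree (ν j))) = T (toFree (θ.sum fun j s => s • ν j)) := by
      rw [Finsupp.sum, Finsupp.sum, map_sum, map_sum]
      refine Finset.sum_congr rfl fun j _ => ?_
      rw [map_smul, map_smul]
    rw [e1]
    refine (T.le_opNorm _).trans (mul_le_mul_of_nonneg_left ?_ (norm_nonneg _))
    rw [LinearIsometry.norm_map]
    refine F0_norm_le _ fun f hf => ?_
    rw [pair_finsupp_sum]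
    refine (hν θ hθ 1 f zero_le_one hf).trans ?_
    rw [one_mul]
    exact add_le_add (norm_sum_e hp θ hθ) le_rfl
  · intro θ hθ
    have e1 : (θ.sum fun j s => s • (Q101Lf.Phi (fun x : EllP p => coord p j x)).comp S) =
        (∑ k ∈ θ.support, θ k • Q101Lf.Phi (fun x : EllP p => coord p k x)).comp S := by
      rw [Finsupp.sum]
      ext w
      simp only [_root_.sum_apply, _root_.smul_apply, ContinuousLinearMap.comp_apply]
    rw [e1, mul_comm]
    refine (ContinuousLinearMap.opNorm_comp_le _ _).trans ?_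
    exact mul_le_mul_of_nonneg_right (Phi_sum_coord hp θ hθ) (norm_nonneg _)
  · intro k
    rw [ContinuousLinearMap.comp_apply, hST, Phi_toFree zero_le_one (lip_coord k)]
    have h := hνg k (coord p k)
    have e1 : coord p k (lp.single p k (1 : ℝ)) = 1 := by
      rw [coord_apply, lp.single_apply_self]
    rw [e1] at h
    have h' := (abs_le.1 h).1
    have := norm_coord_le (p := p) k
    linarith

end Lp

end Q101Fs
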