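import Pool.Agent.Q101.FsAbs

set_option autoImplicit false

/-!
# Reduction to a finite dimensional space
-/

open Filter Topology

namespace Q101Fs

open Q101Lf Pool.Agent.TH326.L1

section Fun

variable {E : ℕ → Type} [∀ n, NormedAddCommGroup (E n)] [∀ n, NormedSpace ℝ (E n)] {N : ℕ}

omit [∀ n, NormedSpace ℝ (E n)] in
theorem RL_Fn (ι : ∀ n : Fin N, E n → PiLp 1 fun n : Fin N => E n)
    (hι1 : ∀ (f : ∀ n : Fin N, E n → ℝ) (C : ℝ), 0 ≤ C → (∀ n, RL C (f n)) →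
        RL C (fun v : PiLp 1 fun n : Fin N => E n => ∑ n, f n (v n)))
    (Ψ : lp (fun n => LipFree (E n)) 1 →L[ℝ] ℝ) :
    RL ‖Ψ‖ (Fn Ψ : (PiLp 1 fun n : Fin N => E n) → ℝ) :=
  hι1 (fun n => fn Ψ n) ‖Ψ‖ (norm_nonneg _) fun n => RL_fn Ψ n

omit [∀ n, NormedSpace ℝ (E n)] in
theorem Fn_zero (Ψ : lp (fun n => LipFree (E n)) 1 →L[ℝ] ℝ) :
    (Fn Ψ : (PiLp 1 fun n : Fin N => E n) → ℝ) 0 = 0 :=
  Finset.sum_eq_zero fun n _ => fn_zero Ψ n

omit [∀ n, NormedSpace ℝ (E n)] in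
theorem M_mu_Fn (ι : ∀ n : Fin N, E n → PiLp 1 fun n : Fin N => E n)
    (hι2 : ∀ (f : ∀ n : Fin N, E n → ℝ), (∀ n, f n 0 = 0) → ∀ n x, ∑ m, f m (ι n x m) = f n x)
    (Ψ : lp (fun n => LipFree (E n)) 1 →L[ℝ] ℝ) (y : ∀ n : ℕ, F0 (E n)) :
    M (mu ι y) (Fn Ψ) = Ψ (∑ n ∈ Finset.range N, lp.single 1 n (toFree (y n))) := by
  rw [map_sum, ← Fin.sum_univ_eq_sum_range (fun n => Ψ (lp.single 1 n (toFree (y n)))) N, M_mu]
  refine Finset.sum_congr rfl fun n _ => ?_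
  rw [← pair_fn]
  congr 1
  ext x
  exact hι2 (fun n => fn Ψ n) (fun n => fn_zero Ψ n) n x

omit [∀ n, NormedSpace ℝ (E n)] in
theorem tendsto_Fn (φ : ℕ → (lp (fun n => LipFree (E n)) 1 →L[ℝ] ℝ)) (σ : ℕ → ℝ)
    (hσ : Tendsto (fun m : ℕ => σ m / m) atTop (𝓝 0))
    (hφ : ∀ θ : ℕ →₀ ℝ, (∀ j, |θ j| ≤ 1) → ‖θ.sum fun j s => s • φ j‖ ≤ σ θ.support.card)
    (v : PiLp 1 fun n : Fin N => E n) : Tendsto (fun k => Fn (φ k) v) atTop (𝓝 0) := by
  have h1 : Tendsto (fun k => ∑ n : Fin N, φ k (lp.single 1 (n : ℕ) (mol (v n) 0))) atTop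
      (𝓝 (∑ _n : Fin N, (0 : ℝ))) :=
    tendsto_finsetSum _ fun n _ => null_of_upper φ σ hσ hφ _
  rw [Finset.sum_const_zero] at h1
  exact h1

end Fun

section Main

variable {E : ℕ → Type} [∀ n, NormedAddCommGroup (E n)] [∀ n, NormedSpace ℝ (E n)]

omit [∀ n, NormedSpace ℝ (E n)] in
/-- approximation of the elements -/
theorem exists_approx (z : ℕ → lp (fun n => LipFree (E n)) 1) (N : ℕ) {ε0 : ℝ} (hε0 : 0 < ε0) :
    ∃ (ε : ℕ → ℝ) (y : ℕ → ∀ n : ℕ, F0 (E n)), (∀ s : Finset ℕ, ∑ k ∈ s, ε k ≤ ε0) ∧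
      ∀ k, ∑ n ∈ Finset.range N, ‖z k n - toFree (y k n)‖ ≤ ε k := by
  have hεp : ∀ k : ℕ, 0 < ε0 / 2 / 2 ^ k := fun k => by positivity
  have hy : ∀ k n : ℕ, ∃ y : F0 (E n), ‖z k n - toFree y‖ ≤ ε0 / 2 / 2 ^ k / (N + 1) := by
    intro k n
    obtain ⟨y, hy⟩ := denseRange_toFree.exists_dist_lt (z k n)
      (show 0 < ε0 / 2 / 2 ^ k / (N + 1) by have := hεp k; positivity)
    rw [dist_eq_norm] at hy
    exact ⟨y, hy.le⟩
  choose y hy using hy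
  refine ⟨fun k => ε0 / 2 / 2 ^ k, y, fun s =>
    sum_le_hasSum s (fun k _ => (hεp k).le) (hasSum_geometric_two' ε0), ?_⟩
  intro k
  refine (Finset.sum_le_sum fun n _ => hy k n).trans ?_
  rw [Finset.sum_const, Finset.card_range, nsmul_eq_mul]
  have h1 : (N : ℝ) * (ε0 / 2 / 2 ^ k / (N + 1)) = ε0 / 2 / 2 ^ k * (N / (N + 1)) := by ring
  rw [h1]
  refine mul_le_of_le_one_right (hεp k).le ?_
  rw [div_le_one (by positivity)]
  linarith

/-- The abstract form of the theorem. -/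
theorem abs_main (h3 : S_tail) (h4 : S_tight) (h5 : S_small) (h6 : S_supply) (h7 : S_core)
    (h8 : S_dirs) (h9 : S_sum) [∀ n, FiniteDimensional ℝ (E n)]
    (z : ℕ → lp (fun n => LipFree (E n)) 1) (φ : ℕ → (lp (fun n => LipFree (E n)) 1 →L[ℝ] ℝ))
    (ρ σ : ℕ → ℝ) (hρm : Monotone ρ) (hρ : Tendsto (fun m : ℕ => ρ m / m) atTop (𝓝 0))
    (hσm : Monotone σ) (hσ0 : ∀ n, 0 ≤ σ n) (hσ : Tendsto (fun m : ℕ => σ m / m) atTop (𝓝 0))
    (hz : ∀ θ : ℕ →₀ ℝ, (∀ j, |θ j| ≤ 1) → ‖θ.sum fun j s => s • z j‖ ≤ ρ θ.support.card)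
    (hφ : ∀ θ : ℕ →₀ ℝ, (∀ j, |θ j| ≤ 1) → ‖θ.sum fun j s => s • φ j‖ ≤ σ θ.support.card)
    {c : ℝ} (hc : 0 < c) (hzφ : ∀ k, c ≤ φ k (z k)) : False := by
  -- the norms of the functionals
  obtain ⟨C, hCeq⟩ : ∃ C, C = σ 1 := ⟨_, rfl⟩
  have hφC : ∀ k, ‖φ k‖ ≤ C := by
    intro k
    have h := hφ (Finsupp.single k 1) (fun j => by
      rw [Finsupp.single_apply]; split_ifs <;> simp)
    rw [Finsupp.sum_single_index (by simp), one_smul,
      Finsupp.support_single k (one_ne_zero : (1 : ℝ) ≠ 0), Finset.card_singleton] at h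
    rw [hCeq]
    exact h
  have hC : 0 < C := by
    refine lt_of_lt_of_le (norm_pos_iff.2 ?_) (hφC 0)
    intro h0
    have := hzφ 0
    rw [h0, _root_.zero_apply] at this
    linarith
  -- the tails
  obtain ⟨N, hN⟩ := h3 (fun n => LipFree (E n)) z ρ hρm hρ hz (c / (4 * C)) (by positivity)
  -- the approximations
  have hε0p : 0 < min 1 (c / (4 * C)) := lt_min one_pos (by positivity)
  obtain ⟨ε, y, hεs, hyN⟩ := exists_approx z N hε0p
  have hε1 : ∀ k, ε k ≤ min 1 (c / (4 * C)) := fun k => by simpa using hεs {k}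
  obtain ⟨ι, hι0, hι, hι1, hι2⟩ := h9 N E
  have hUP : UP (fun k => mu ι (y k)) fun m => ρ m + 1 := UP_mu ι hι z y ε hyN
    (fun s => (hεs s).trans (min_le_left _ _)) ρ hz
  have hρm' : Monotone fun m => ρ m + 1 := fun a b hab => by
    have := hρm hab
    simp only
    linarith
  have hρ' : Tendsto (fun m : ℕ => (ρ m + 1) / m) atTop (𝓝 0) := by
    have h := hρ.add (tendsto_const_div_atTop_nhds_zero_nat (1 : ℝ))
    rw [add_zero] at h
    refine h.congr fun m => ?_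
    rw [add_div]
  have hMF : ∀ k, c / 2 ≤ M (mu ι (y k)) (Fn (φ k)) := by
    intro k
    have h2 := norm_sub_single_le (z k) N fun n => toFree (y k n)
    have h3 : ‖z k - ∑ n ∈ Finset.range N, lp.single 1 n (toFree (y k n))‖ ≤ c / (2 * C) := by
      refine h2.trans ?_
      have h4 := hyN k
      have h5 := hN k
      have h6 : ε k ≤ c / (4 * C) := (hε1 k).trans (min_le_right _ _)
      have h7 : c / (2 * C) = c / (4 * C) + c / (4 * C) := by field_simp; ring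
      linarith
    have h4 := (φ k).le_opNorm (z k - ∑ n ∈ Finset.range N, lp.single 1 n (toFree (y k n)))
    rw [Real.norm_eq_abs, map_sub] at h4
    have h5 : ‖φ k‖ * ‖z k - ∑ n ∈ Finset.range N, lp.single 1 n (toFree (y k n))‖ ≤
        C * (c / (2 * C)) := mul_le_mul (hφC k) h3 (norm_nonneg _) hC.le
    have h6 : C * (c / (2 * C)) = c / 2 := by field_simp
    have h7 := (abs_le.1 (h4.trans h5)).2
    have h8 := hzφ k
    rw [M_mu_Fn ι hι2]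
    linarith
  refine fd_main h4 h5 h6 h7 h8 (PiLp 1 fun n : Fin N => E n) (fun k => mu ι (y k))
    (fun m => ρ m + 1) σ hρm' hρ' hσ0 hσ hUP (fun k => Fn (φ k)) C hC
    (fun k => (RL_Fn ι hι1 (φ k)).mono (hφC k)) (fun k => Fn_zero _)
    (tendsto_Fn φ σ hσ hφ) ?_ (half_pos hc) hMF
  intro n j hj θ hθ
  have h1 := (RL_Fn ι hι1 (∑ i, θ i • φ (j i))).mono (upper_fin φ σ hσm hφ n j hj θ hθ)
  have h2 : (fun v : (PiLp 1 fun n : Fin N => E n) => ∑ i, θ i * Fn (φ (j i)) v) =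
      Fn (∑ i, θ i • φ (j i)) := by
    ext v
    rw [Fn_sum]
  rw [h2]
  exact h1

end Main

end Q101Fs
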