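import Pool.Agent.Q101.LfFree
import Pool.Agent.TH326.L1d

set_option autoImplicit false

/-!
# Lipschitz-free spaces of `ℓ_p`, `1 < p < ∞`, and `ℓ₁`-sums of Lipschitz-free spaces of finite
dimensional spaces: statements of the lemmas

`RL K f` (`f` is `K`-Lipschitz), `M μ g = ∑ x, μ x * (g x - g 0)`, `Phi μ θ g = ∑ j, θ j * M (μ j) g`,
`Dir`, `avg` are from `Pool.Agent.TH326.L1a` and `L1d`; `F0 X`, `pair`, `LipFree X`, `toFree`, `mol`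
from `Pool.Agent.Q101.LfFree`.
-/

open Filter Topology

namespace Q101Fs

open Q101Lf Pool.Agent.TH326.L1

/-- `‖∑ θ_j μ_j‖ ≤ ρ(number of terms)` for `|θ_j| ≤ 1`. -/
def UP {V : Type} [NormedAddCommGroup V] (μ : ℕ → V →₀ ℝ) (ρ : ℕ → ℝ) : Prop :=
  ∀ θ : ℕ →₀ ℝ, (∀ j, |θ j| ≤ 1) → ∀ (g : V → ℝ) (K : ℝ), 0 ≤ K → RL K g →
    Phi μ θ g ≤ ρ θ.support.card * K

/-- The cut-off function at radius `R`. -/
noncomputable def cut {V : Type} [NormedAddCommGroup V] (R : ℝ) (x : V) : ℝ :=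
  max 0 (min 1 (2 - ‖x‖ / R))

/-- job 1: greedy choice of signs. -/
def S_greedy : Prop :=
  ∀ (W : Type) [AddCommGroup W] [Module ℝ W] (T : ℕ → W →ₗ[ℝ] ℝ) (Q : W → Prop) (δ : ℝ), 0 < δ →
    Q 0 → (∀ G, Q G → ∀ n : ℕ, ∃ j, n ≤ j ∧ ∃ h, δ ≤ T j h ∧ Q (G + h) ∧ Q (G - h)) →
    ∀ m : ℕ, ∃ (G : W) (θ : ℕ →₀ ℝ), Q G ∧ (∀ j, |θ j| ≤ 1) ∧ θ.support.card ≤ m ∧
      m * δ ≤ θ.sum fun j s => s * T j G

/-- job 2: the Godefroy-Kalton lifting of a sequence of unit vectors. -/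
def S_gk : Prop :=
  ∀ (X : Type) [NormedAddCommGroup X] [NormedSpace ℝ X] (e : ℕ → X), (∀ k, ‖e k‖ = 1) →
    ∃ ν : ℕ → F0 X,
      (∀ θ : ℕ →₀ ℝ, (∀ j, |θ j| ≤ 1) → ∀ (K : ℝ) (f : X → ℝ), 0 ≤ K → RL K f →
        |θ.sum fun j s => s * pair f (ν j)| ≤ K * (‖θ.sum fun j s => s • e j‖ + 1)) ∧
      ∀ (k : ℕ) (g : X →L[ℝ] ℝ), |pair (fun x => g x) (ν k) - g (e k)| ≤ ‖g‖ / 4

/-- job 3: a gliding hump argument in `ℓ₁`-sums. -/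
def S_tail : Prop :=
  ∀ (Y : ℕ → Type) [∀ n, NormedAddCommGroup (Y n)] [∀ n, NormedSpace ℝ (Y n)]
    (z : ℕ → lp Y 1) (ρ : ℕ → ℝ), Monotone ρ → Tendsto (fun m : ℕ => ρ m / m) atTop (𝓝 0) →
    (∀ θ : ℕ →₀ ℝ, (∀ j, |θ j| ≤ 1) → ‖θ.sum fun j s => s • z j‖ ≤ ρ θ.support.card) →
    ∀ δ : ℝ, 0 < δ → ∃ N : ℕ, ∀ k, ∑' n, ‖z k (n + N)‖ ≤ δ

/-- job 4: tightness at infinity. -/
def S_tight : Prop :=
  ∀ (V : Type) [NormedAddCommGroup V] [NormedSpace ℝ V] (μ : ℕ → V →₀ ℝ) (ρ : ℕ → ℝ),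
    Monotone ρ → Tendsto (fun m : ℕ => ρ m / m) atTop (𝓝 0) → UP μ ρ →
    ∀ (F : ℕ → V → ℝ) (C c : ℝ), 0 < c → 0 ≤ C → (∀ k, RL C (F k)) → (∀ k, F k 0 = 0) →
      (∀ k, c ≤ M (μ k) (F k)) →
      ∃ R : ℝ, 0 < R ∧ ∃ p : ℕ, ∀ k, p ≤ k → c / 2 ≤ M (μ k) (fun x => cut R x * F k x)

/-- job 5: cut-offs and uniform smallness on bounded sets. -/
def S_small : Prop :=
  (∀ (V : Type) [NormedAddCommGroup V] [NormedSpace ℝ V] (F : V → ℝ) (C R : ℝ), 0 ≤ C → 0 < R →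
    RL C F → F 0 = 0 → RL (3 * C) fun x => cut R x * F x) ∧
  ∀ (V : Type) [NormedAddCommGroup V] [NormedSpace ℝ V] [FiniteDimensional ℝ V]
    (F : ℕ → V → ℝ) (C R : ℝ), 0 ≤ C → 0 < R → (∀ k, RL C (F k)) →
    (∀ x, Tendsto (fun k => F k x) atTop (𝓝 0)) →
    ∀ ε : ℝ, 0 < ε → ∃ p : ℕ, ∀ k, p ≤ k → ∀ x, |cut R x * F k x| ≤ ε

/-- job 6: smoothing of a finite family of functions in finitely many directions. -/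
def S_supply : Prop :=
  ∀ (V : Type) [NormedAddCommGroup V] [NormedSpace ℝ V] (d : ℕ) (e : ℕ → V), (∀ k, ‖e k‖ = 1) →
    ∀ (n : ℕ) (ν : Fin n → V →₀ ℝ) (h : Fin n → V → ℝ) (K ε c σ : ℝ), 0 ≤ K → 0 ≤ σ → 0 < c →
    (∀ i, RL K (h i)) → (∀ i x, |h i x| ≤ ε) → (∀ i, c ≤ M (ν i) (h i)) →
    (∀ θ : Fin n → ℝ, (∀ i, |θ i| ≤ 1) → RL σ fun x => ∑ i, θ i * h i x) →
    ∃ (g : Fin n → V → ℝ) (C : ℝ) (D : Fin n → ℕ → V → ℝ), 0 ≤ C ∧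
      (∀ i, RL K (g i) ∧ (∀ x, |g i x| ≤ ε) ∧ c / 2 ≤ M (ν i) (g i) ∧
        ∀ k, k < d → Dir C (e k) (g i) (D i k) ∧ (∀ x, |D i k x| ≤ K) ∧ RL C (D i k)) ∧
      ∀ k, k < d → ∀ x, ∑ i, |D i k x| ≤ σ

/-- job 7: the random sums. -/
def S_core : Prop :=
  ∀ (V : Type) [NormedAddCommGroup V] [NormedSpace ℝ V] (d : ℕ) (e : ℕ → V) (A : ℝ),
    (∀ k, ‖e k‖ = 1) → 0 ≤ A →
    (∀ (F : V → ℝ) (L : ℝ), 0 ≤ L →
      (∀ k, k < d → ∀ (x : V) (t : ℝ), |F (x + t • e k) - F x| ≤ L * |t|) → RL (A * L) F) →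
    ∀ (μ : ℕ → V →₀ ℝ) (ρ : ℕ → ℝ), Monotone ρ →
      Tendsto (fun m : ℕ => ρ m / m) atTop (𝓝 0) → UP μ ρ →
      ∀ K c : ℝ, 0 < K → 0 < c →
      ¬ ∀ ε κ : ℝ, 0 < ε → 0 < κ → ∀ p : ℕ, ∃ (n : ℕ) (j : Fin n → ℕ) (g : Fin n → V → ℝ) (C : ℝ)
        (D : Fin n → ℕ → V → ℝ), 0 < n ∧ 0 ≤ C ∧
        (∀ i, p ≤ j i ∧ RL K (g i) ∧ (∀ x, |g i x| ≤ ε) ∧ c ≤ M (μ (j i)) (g i) ∧
          ∀ k, k < d → Dir C (e k) (g i) (D i k) ∧ (∀ x, |D i k x| ≤ K) ∧ RL C (D i k)) ∧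
        ∀ k, k < d → ∀ x, ∑ i, |D i k x| ≤ κ * n

/-- job 8: a finite dimensional space has finitely many directions which control functions. -/
def S_dirs : Prop :=
  ∀ (V : Type) [NormedAddCommGroup V] [NormedSpace ℝ V] [FiniteDimensional ℝ V] [Nontrivial V],
    ∃ (d : ℕ) (e : ℕ → V) (A : ℝ), (∀ k, ‖e k‖ = 1) ∧ 0 ≤ A ∧
      ∀ (F : V → ℝ) (L : ℝ), 0 ≤ L →
        (∀ k, k < d → ∀ (x : V) (t : ℝ), |F (x + t • e k) - F x| ≤ L * |t|) → RL (A * L) F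

/-- job 9: sums of functions of the coordinates on the `ℓ₁`-sum of finitely many spaces, and the
embeddings of the spaces. -/
def S_sum : Prop :=
  ∀ (N : ℕ) (E : ℕ → Type) [∀ n, NormedAddCommGroup (E n)] [∀ n, NormedSpace ℝ (E n)],
    ∃ ι : ∀ n : Fin N, E n → PiLp 1 fun n : Fin N => E n,
      (∀ n, ι n 0 = 0) ∧ (∀ n x y, ‖ι n x - ι n y‖ = ‖x - y‖) ∧
      (∀ (f : ∀ n : Fin N, E n → ℝ) (C : ℝ), 0 ≤ C → (∀ n, RL C (f n)) →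
        RL C (fun v : PiLp 1 fun n : Fin N => E n => ∑ n, f n (v n))) ∧
      ∀ (f : ∀ n : Fin N, E n → ℝ), (∀ n, f n 0 = 0) → ∀ n x, ∑ m, f m (ι n x m) = f n x

/-- job 10: the universal property of the Lipschitz-free space. -/
def S_univ : Prop :=
  ∀ (M : Type) [MetricSpace M] (m₀ : M),
    (∀ p q : M, ‖mol p m₀ - mol q m₀‖ = dist p q) ∧
    ∀ (X : Type) [NormedAddCommGroup X] [NormedSpace ℝ X] [CompleteSpace X] (f : M → X)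
      (K : NNReal), LipschitzWith K f → f m₀ = 0 →
      ∃ F : LipFree M →L[ℝ] X, (∀ p, F (mol p m₀) = f p) ∧ LipschitzWith ‖F‖₊ f ∧ ‖F‖₊ ≤ K ∧
        ∀ G : LipFree M →L[ℝ] X, (∀ p, G (mol p m₀) = f p) → G = F

end Q101Fs
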