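import Pool.Agent.Q101.FsS

set_option autoImplicit false

/-!
# Project FS (helper101), job 5: cut-offs and uniform smallness
-/

open Filter Topology

namespace Q101Fs

open Q101Lf Pool.Agent.TH326.L1

theorem FsSmall_nonneg {V : Type} [NormedAddCommGroup V] (R : ℝ) (x : V) : 0 ≤ cut R x :=
  le_max_left _ _

theorem FsSmall_le_one {V : Type} [NormedAddCommGroup V] (R : ℝ) (x : V) : cut R x ≤ 1 :=
  max_le zero_le_one (min_le_left _ _)

theorem FsSmall_zero {V : Type} [NormedAddCommGroup V] {R : ℝ} (hR : 0 < R) {x : V}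
    (hx : 2 * R ≤ ‖x‖) : cut R x = 0 := by
  unfold cut
  refine max_eq_left ?_
  have h1 : 2 ≤ ‖x‖ / R := by
    rw [le_div_iff₀ hR]
    exact hx
  exact (min_le_right _ _).trans (by linarith)

theorem FsSmall_lip {V : Type} [NormedAddCommGroup V] {R : ℝ} (hR : 0 < R) (x y : V) :
    |cut R x - cut R y| ≤ ‖x - y‖ / R := by
  unfold cut
  have h1 : |(2 - ‖x‖ / R) - (2 - ‖y‖ / R)| ≤ ‖x - y‖ / R := by
    have h2 : (2 - ‖x‖ / R) - (2 - ‖y‖ / R) = (‖y‖ - ‖x‖) / R := by ring
    rw [h2, abs_div, abs_of_pos hR]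
    refine div_le_div_of_nonneg_right ?_ hR.le
    rw [norm_sub_rev]
    exact abs_norm_sub_norm_le y x
  refine (abs_max_sub_max_le_max _ _ _ _).trans (max_le ?_ ?_)
  · simp only [sub_self, abs_zero]
    positivity
  · refine (abs_min_sub_min_le_max _ _ _ _).trans (max_le ?_ h1)
    simp only [sub_self, abs_zero]
    positivity

theorem FsSmall_key {V : Type} [NormedAddCommGroup V] (F : V → ℝ) (C R : ℝ) (hC : 0 ≤ C)
    (hR : 0 < R) (hF : RL C F) (h0 : F 0 = 0) (x y : V) (hy : ‖y‖ ≤ 2 * R) :
    |cut R x * F x - cut R y * F y| ≤ 3 * C * ‖x - y‖ := by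
  have e : cut R x * F x - cut R y * F y = cut R x * (F x - F y) + (cut R x - cut R y) * F y := by
    ring
  rw [e]
  have h1 : |cut R x * (F x - F y)| ≤ C * ‖x - y‖ := by
    rw [abs_mul, abs_of_nonneg (FsSmall_nonneg R x)]
    calc cut R x * |F x - F y| ≤ 1 * |F x - F y| :=
          mul_le_mul_of_nonneg_right (FsSmall_le_one R x) (abs_nonneg _)
      _ = |F x - F y| := one_mul _
      _ ≤ C * ‖x - y‖ := hF x y
  have h2 : |F y| ≤ C * (2 * R) := by
    have h3 := hF y 0
    rw [h0, sub_zero, sub_zero] at h3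
    exact h3.trans (mul_le_mul_of_nonneg_left hy hC)
  have h4 : |(cut R x - cut R y) * F y| ≤ 2 * C * ‖x - y‖ := by
    rw [abs_mul]
    calc |cut R x - cut R y| * |F y| ≤ (‖x - y‖ / R) * (C * (2 * R)) :=
          mul_le_mul (FsSmall_lip hR x y) h2 (abs_nonneg _) (by positivity)
      _ = 2 * C * ‖x - y‖ := by field_simp
  calc |cut R x * (F x - F y) + (cut R x - cut R y) * F y| ≤
        |cut R x * (F x - F y)| + |(cut R x - cut R y) * F y| := abs_add_le _ _
    _ ≤ C * ‖x - y‖ + 2 * C * ‖x - y‖ := add_le_add h1 h4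
    _ = 3 * C * ‖x - y‖ := by ring

theorem small : S_small := by
  refine ⟨?_, ?_⟩
  · intro V _ _ F C R hC hR hF h0 x y
    beta_reduce
    rcases le_total ‖y‖ (2 * R) with hy | hy
    · exact FsSmall_key F C R hC hR hF h0 x y hy
    · rcases le_total ‖x‖ (2 * R) with hx | hx
      · rw [abs_sub_comm, norm_sub_rev]
        exact FsSmall_key F C R hC hR hF h0 y x hx
      · rw [FsSmall_zero hR hx, FsSmall_zero hR hy]
        simp only [zero_mul, sub_self, abs_zero]
        positivity
  · intro V _ _ _ F C R hC hR hF hlim ε hε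
    have : ProperSpace V := FiniteDimensional.proper ℝ V
    have hr : 0 < ε / (2 * (C + 1)) := by positivity
    obtain ⟨t, _, htf, hcov⟩ := (isCompact_closedBall (0 : V) (2 * R)).finite_cover_balls hr
    have hev : ∀ᶠ k in atTop, ∀ x ∈ t, |F k x| ≤ ε / 2 := by
      rw [htf.eventually_all]
      intro x _
      have h1 := (hlim x).abs
      rw [abs_zero] at h1
      filter_upwards [h1.eventually (gt_mem_nhds (half_pos hε))] with k hk
      exact le_of_lt hk
    obtain ⟨p, hp⟩ := eventually_atTop.mp hev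
    refine ⟨p, fun k hk x => ?_⟩
    rcases le_total ‖x‖ (2 * R) with hx | hx
    · have hx' : x ∈ Metric.closedBall (0 : V) (2 * R) := by simpa using hx
      obtain ⟨y, hy, hxy⟩ := Set.mem_iUnion₂.mp (hcov hx')
      rw [Metric.mem_ball, dist_eq_norm] at hxy
      have h2 : |F k x| ≤ ε := by
        have h3 := hF k x y
        have h4 : C * ‖x - y‖ ≤ ε / 2 := by
          calc C * ‖x - y‖ ≤ (C + 1) * (ε / (2 * (C + 1))) :=
                mul_le_mul (by linarith) hxy.le (norm_nonneg _) (by linarith)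
            _ = ε / 2 := by field_simp
        have h5 := hp k hk y hy
        have h6 : |F k x| ≤ |F k x - F k y| + |F k y| := by
          have := abs_add_le (F k x - F k y) (F k y)
          simpa using this
        linarith
      rw [abs_mul, abs_of_nonneg (FsSmall_nonneg R x)]
      calc cut R x * |F k x| ≤ 1 * |F k x| :=
            mul_le_mul_of_nonneg_right (FsSmall_le_one R x) (abs_nonneg _)
        _ ≤ ε := by rw [one_mul]; exact h2
    · rw [FsSmall_zero hR hx, zero_mul, abs_zero]
      exact hε.le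

end Q101Fs
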