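import Pool.Agent.Q101.FsS

set_option autoImplicit false

/-!
# Project FS (helper101), job 9: `ℓ₁`-sums of finitely many spaces
-/

open Filter Topology

namespace Q101Fs

open Q101Lf Pool.Agent.TH326.L1

theorem FsSum_norm {N : ℕ} {E : ℕ → Type} [∀ n, NormedAddCommGroup (E n)]
    (v : PiLp 1 fun n : Fin N => E n) : ‖v‖ = ∑ n, ‖v n‖ := by
  rw [PiLp.norm_eq_sum (by simp)]
  simp

theorem sum : S_sum := by
  classical
  intro N E _ _
  refine ⟨fun n x => WithLp.toLp 1 (Pi.single n x), ?_, ?_, ?_, ?_⟩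
  · intro n
    simp
  · intro n x y
    rw [FsSum_norm, Finset.sum_eq_single n]
    · simp
    · intro m _ hm
      simp [Pi.single_eq_of_ne hm]
    · simp
  · intro f C hC hf v w
    beta_reduce
    rw [← Finset.sum_sub_distrib, FsSum_norm, Finset.mul_sum]
    refine (Finset.abs_sum_le_sum_abs _ _).trans (Finset.sum_le_sum fun n _ => ?_)
    exact hf n _ _
  · intro f h0 n x
    rw [Finset.sum_eq_single n]
    · simp
    · intro m _ hm
      simp [Pi.single_eq_of_ne hm, h0]
    · simp

end Q101Fs
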