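import Pool.Agent.Q101.FsS

set_option autoImplicit false

/-! Job FS-6 (helper98): smoothing of a finite family of functions. -/

open Filter Topology

namespace Q101Fs

open Q101Lf Pool.Agent.TH326.L1

variable {V : Type} [NormedAddCommGroup V] [NormedSpace ℝ V]

theorem FsSupply_avg_sum {n : ℕ} {g : Fin n → V → ℝ} (hg : ∀ i, Continuous (g i))
    (θ : Fin n → ℝ) (s : ℝ) (e : V) :
    (fun x => ∑ i, θ i * avg s e (g i) x) = avg s e (fun x => ∑ i, θ i * g i x) := by
  funext x
  unfold avg
  rw [intervalIntegral.integral_finsetSum (f := fun (i : Fin n) (τ : ℝ) => θ i * g i (x + τ • e))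
    fun i _ => ((cont_line (hg i) x e).const_mul (θ i)).intervalIntegrable _ _, Finset.mul_sum]
  refine Finset.sum_congr rfl fun i _ => ?_
  rw [intervalIntegral.integral_const_mul]
  ring

theorem FsSupply_smooth {e : ℕ → V} (he : ∀ k, ‖e k‖ = 1) {n : ℕ} {h : Fin n → V → ℝ}
    {K ε σ : ℝ} (hK : 0 ≤ K) (hσ : 0 ≤ σ) (hh : ∀ i, RL K (h i)) (hε : ∀ i x, |h i x| ≤ ε)
    (hθ : ∀ θ : Fin n → ℝ, (∀ i, |θ i| ≤ 1) → RL σ fun x => ∑ i, θ i * h i x) (N : ℕ) :
    ∀ {η : ℝ}, 0 < η → ∃ (g : Fin n → V → ℝ) (C : ℝ) (D : Fin n → ℕ → V → ℝ), 0 ≤ C ∧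
      (∀ i, RL K (g i)) ∧ (∀ i x, |g i x| ≤ ε) ∧ (∀ i x, |g i x - h i x| ≤ η) ∧
      (∀ θ : Fin n → ℝ, (∀ i, |θ i| ≤ 1) → RL σ fun x => ∑ i, θ i * g i x) ∧
      ∀ i k, k < N → Dir C (e k) (g i) (D i k) ∧ (∀ x, |D i k x| ≤ K) ∧ RL C (D i k) := by
  induction N with
  | zero =>
    intro η hη
    exact ⟨h, 0, fun _ _ _ => 0, le_rfl, hh, hε, fun i x => by simp [hη.le], hθ,
      fun i k hk => absurd hk (Nat.not_lt_zero k)⟩
  | succ N ih =>
    intro η hη
    obtain ⟨g1, C, d, hC, hg1, hε1, hcl1, hθ1, hd⟩ := ih (half_pos hη)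
    set s : ℝ := η / (2 * (K + 1)) with hs
    have hspos : 0 < s := by positivity
    have hKs : K * s ≤ η / 2 := by
      rw [hs]
      have h1 : K * (η / (2 * (K + 1))) = (K / (K + 1)) * (η / 2) := by field_simp
      rw [h1]
      have h2 : K / (K + 1) ≤ 1 := by
        rw [div_le_one (by positivity)]; linarith
      have h3 : 0 ≤ η / 2 := by positivity
      nlinarith
    have hKsn : 0 ≤ 2 * K / s := by positivity
    refine ⟨fun i => avg s (e N) (g1 i), C + 2 * K / s,
      fun i k => if k = N then (fun x => (g1 i (x + s • e N) - g1 i x) / s)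
        else avg s (e N) (d i k), by positivity, fun i => avg_RL hspos hK (hg1 i),
      fun i => avg_abs hspos (hε1 i), ?_, ?_, ?_⟩
    · intro i x
      have h1 := avg_close hspos (he N) hK (hg1 i) x
      have h2 := hcl1 i x
      have h3 := abs_add_le (avg s (e N) (g1 i) x - g1 i x) (g1 i x - h i x)
      rw [sub_add_sub_cancel] at h3
      linarith
    · intro θ hθa
      have h1 := avg_RL (e := e N) hspos hσ (hθ1 θ hθa)
      rw [← FsSupply_avg_sum (fun i => (hg1 i).continuous hK)] at h1
      exact h1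
    · intro i k hk
      by_cases hkN : k = N
      · subst hkN
        simp only [if_true]
        refine ⟨(Dir_own (he k) hK (hg1 i) hspos).mono (by linarith), ?_, ?_⟩
        · intro x
          rw [abs_div, abs_of_pos hspos, div_le_iff₀ hspos]
          have := hg1 i (x + s • e k) x
          rwa [add_sub_cancel_left, norm_smul, he, mul_one, Real.norm_eq_abs,
            abs_of_pos hspos] at this
        · intro x y
          have h1 := hg1 i (x + s • e k) (y + s • e k)
          rw [add_sub_add_right_eq_sub] at h1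
          have h2 := hg1 i x y
          have h3 : |(g1 i (x + s • e k) - g1 i x) / s - (g1 i (y + s • e k) - g1 i y) / s| =
              |(g1 i (x + s • e k) - g1 i (y + s • e k)) - (g1 i x - g1 i y)| / s := by
            rw [← sub_div, abs_div, abs_of_pos hspos]
            congr 2; ring
          rw [h3, div_le_iff₀ hspos]
          have h4 := abs_sub (g1 i (x + s • e k) - g1 i (y + s • e k)) (g1 i x - g1 i y)
          have h5 : (C + 2 * K / s) * ‖x - y‖ * s = C * ‖x - y‖ * s + 2 * K * ‖x - y‖ := by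
            field_simp
          rw [h5]
          have h6 : 0 ≤ C * ‖x - y‖ * s := by positivity
          linarith
      · simp only [if_neg hkN]
        have hk' : k < N := by omega
        obtain ⟨h1, h2, h3⟩ := hd i k hk'
        exact ⟨(h1.avg ((hg1 i).continuous hK) (h3.continuous hC) hspos).mono (by linarith),
          avg_abs hspos h2, (avg_RL hspos hC h3).mono (by linarith)⟩

theorem supply : S_supply := by
  intro V _ _ d e he n ν h K ε c σ hK hσ hc hh hε hM hθ
  set W : ℝ := ∑ i, ∑ x ∈ (ν i).support, |ν i x| with hW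
  have hW0 : 0 ≤ W := Finset.sum_nonneg fun _ _ => Finset.sum_nonneg fun _ _ => abs_nonneg _
  set η : ℝ := c / (4 * (W + 1)) with hη
  have hηpos : 0 < η := by positivity
  obtain ⟨g, C, D, hC, hg, hgε, hcl, hgθ, hD⟩ :=
    FsSupply_smooth he hK hσ hh hε hθ d hηpos
  refine ⟨g, C, D, hC, fun i => ⟨hg i, hgε i, ?_, fun k hk => hD i k hk⟩, ?_⟩
  · have h1 := M_close (ν i) (g := g i) (h := h i) (η := η) (hcl i 0) (fun x _ => hcl i x)
    have h2 : ∑ x ∈ (ν i).support, |ν i x| ≤ W :=
      Finset.single_le_sum (f := fun i => ∑ x ∈ (ν i).support, |ν i x|)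
        (fun _ _ => Finset.sum_nonneg fun _ _ => abs_nonneg _) (Finset.mem_univ i)
    have h3 : W * (2 * η) ≤ c / 2 := by
      have e1 : W * (2 * η) = (W / (W + 1)) * (c / 2) := by
        rw [hη]; field_simp; ring
      rw [e1]
      have e2 : W / (W + 1) ≤ 1 := by rw [div_le_one (by positivity)]; linarith
      have e3 : 0 ≤ c / 2 := by positivity
      nlinarith
    have h4 : (∑ x ∈ (ν i).support, |ν i x|) * (2 * η) ≤ W * (2 * η) :=
      mul_le_mul_of_nonneg_right h2 (by positivity)
    have h5 := (abs_le.1 h1).1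
    have h6 := hM i
    linarith
  · intro k hk x
    set θ : Fin n → ℝ := fun i => if 0 ≤ D i k x then 1 else -1 with hθd
    have hθ1 : ∀ i, |θ i| ≤ 1 := by
      intro i
      simp only [hθd]
      split_ifs <;> simp
    have hθ2 : ∀ i, θ i * D i k x = |D i k x| := by
      intro i
      simp only [hθd]
      split_ifs with h0
      · rw [one_mul, abs_of_nonneg h0]
      · rw [abs_of_neg (not_le.1 h0)]
        ring
    have hG := hgθ θ hθ1
    refine le_of_forall_pos_le_add fun δ hδ => ?_
    set t : ℝ := δ / (n * C + 1) with ht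
    have htp : 0 < t := by positivity
    have h1 := hG (x + t • e k) x
    rw [add_sub_cancel_left, norm_smul, he, mul_one, Real.norm_eq_abs, abs_of_pos htp] at h1
    have h2 : t * ∑ i, |D i k x| ≤ σ * t + n * C * t ^ 2 := by
      have e1 : ∑ i, θ i * g i (x + t • e k) - ∑ i, θ i * g i x
          = t * (∑ i, |D i k x|) + ∑ i, θ i * (g i (x + t • e k) - g i x - t * D i k x) := by
        rw [Finset.mul_sum, ← Finset.sum_sub_distrib, ← Finset.sum_add_distrib]
        refine Finset.sum_congr rfl fun i _ => ?_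
        rw [← hθ2]
        ring
      have e2 : |∑ i, θ i * (g i (x + t • e k) - g i x - t * D i k x)| ≤ n * C * t ^ 2 := by
        refine (Finset.abs_sum_le_sum_abs _ _).trans ?_
        have e3 : ∀ i ∈ (Finset.univ : Finset (Fin n)),
            |θ i * (g i (x + t • e k) - g i x - t * D i k x)| ≤ C * t ^ 2 := by
          intro i _
          rw [abs_mul]
          have a1 := (hD i k hk).1 x t
          have a2 := hθ1 i
          have a3 := abs_nonneg (g i (x + t • e k) - g i x - t * D i k x)
          nlinarith [abs_nonneg (θ i)]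
        refine (Finset.sum_le_sum e3).trans (le_of_eq ?_)
        rw [Finset.sum_const, Finset.card_univ, Fintype.card_fin, nsmul_eq_mul]
        ring
      rw [e1] at h1
      have e4 := (abs_le.1 e2).1
      have e5 := (abs_le.1 h1).2
      linarith
    have h3 : (n * C) * t ≤ δ := by
      rw [ht]
      have e1 : (n * C) * (δ / (n * C + 1)) = (n * C / (n * C + 1)) * δ := by field_simp
      rw [e1]
      have e2 : (n : ℝ) * C / (n * C + 1) ≤ 1 := by rw [div_le_one (by positivity)]; linarith
      nlinarith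
    have h4 : t * ∑ i, |D i k x| ≤ t * (σ + δ) := by nlinarith
    exact le_of_mul_le_mul_left h4 htp

end Q101Fs
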