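import Mathlib
import Pool.Agent.Q101.FsS

set_option autoImplicit false

open Filter Topology

namespace Q101Fs

open Q101Lf Pool.Agent.TH326.L1

/-- evaluation of a coordinate -/
def fsTail_ev (Y : ℕ → Type) [∀ n, NormedAddCommGroup (Y n)] [∀ n, NormedSpace ℝ (Y n)] (n : ℕ) :
    lp Y 1 →ₗ[ℝ] Y n where
  toFun x := x n
  map_add' _ _ := rfl
  map_smul' _ _ := rfl

theorem fsTail_norm (Y : ℕ → Type) [∀ n, NormedAddCommGroup (Y n)] [∀ n, NormedSpace ℝ (Y n)]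
    (x : lp Y 1) (N : ℕ) : ∑ n ∈ Finset.range N, ‖x n‖ ≤ ‖x‖ := by
  have h := lp.sum_rpow_le_norm_rpow (p := 1) (by simp) x (Finset.range N)
  simpa using h

theorem fsTail_lim (ρ : ℕ → ℝ) (hρ : Tendsto (fun m : ℕ => ρ m / m) atTop (𝓝 0)) (a : ℝ)
    (ha : 0 < a) (h : ∀ m : ℕ, m * a ≤ ρ m) : False := by
  have h1 : ∀ᶠ m : ℕ in atTop, ρ m / m < a := hρ.eventually (gt_mem_nhds ha)
  obtain ⟨m, h2, h3⟩ := (h1.and (eventually_ge_atTop 1)).exists
  have hm : (0 : ℝ) < m := by exact_mod_cast h3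
  rw [div_lt_iff₀ hm] at h2
  have := h m
  nlinarith

theorem tail (h : S_greedy) : S_tail := by
  intro Y _ _ z ρ hmono hρ hz δ hδ
  by_contra hcon
  push Not at hcon
  set Q : (lp Y 1 →ₗ[ℝ] ℝ) → Prop := fun G =>
    ∃ N : ℕ, ∀ x : lp Y 1, |G x| ≤ ∑ n ∈ Finset.range N, ‖x n‖ with hQ
  set T : ℕ → (lp Y 1 →ₗ[ℝ] ℝ) →ₗ[ℝ] ℝ := fun j =>
    { toFun := fun G => G (z j)
      map_add' := fun _ _ => rfl
      map_smul' := fun _ _ => rfl } with hT
  have hstep : ∀ G, Q G → ∀ n : ℕ, ∃ j, n ≤ j ∧ ∃ h, δ / 2 ≤ T j h ∧ Q (G + h) ∧ Q (G - h) := by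
    rintro G ⟨N, hN⟩ n0
    -- a common tail
    have htail : ∀ᶠ M : ℕ in atTop, ∀ j ∈ Finset.range n0, ∑' n, ‖z j (n + M)‖ < δ := by
      rw [Filter.eventually_all_finset]
      intro j _
      have h1 := tendsto_sum_nat_add (fun n => ‖z j n‖)
      exact h1.eventually (gt_mem_nhds hδ)
    obtain ⟨N1, hN1, hNN1⟩ := (htail.and (eventually_ge_atTop N)).exists
    obtain ⟨k, hk⟩ := hcon N1
    have hkn : n0 ≤ k := by
      by_contra hlt
      rw [not_le] at hlt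
      have := hN1 k (Finset.mem_range.2 hlt)
      linarith
    have hsum : Summable (fun n => ‖z k (n + N1)‖) := by
      by_contra hns
      rw [tsum_eq_zero_of_not_summable hns] at hk
      linarith
    have hlim := hsum.hasSum.tendsto_sum_nat
    obtain ⟨m, hm⟩ := (hlim.eventually (lt_mem_nhds (show δ / 2 < _ by linarith))).exists
    have hm' : δ / 2 < ∑ n ∈ Finset.Ico N1 (N1 + m), ‖z k n‖ := by
      rw [Finset.sum_Ico_eq_sum_range]
      have e : N1 + m - N1 = m := by omega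
      rw [e]
      refine lt_of_lt_of_eq hm (Finset.sum_congr rfl (fun i _ => by rw [add_comm]))
    choose f hf1 hf2 using fun n => exists_dual_vector'' ℝ (z k n)
    set H : lp Y 1 →ₗ[ℝ] ℝ := ∑ n ∈ Finset.Ico N1 (N1 + m), (f n).toLinearMap ∘ₗ fsTail_ev Y n with hH
    have hHx : ∀ x : lp Y 1, H x = ∑ n ∈ Finset.Ico N1 (N1 + m), f n (x n) := by
      intro x
      rw [hH, LinearMap.sum_apply]
      rfl
    have hHb : ∀ x : lp Y 1, |H x| ≤ ∑ n ∈ Finset.Ico N1 (N1 + m), ‖x n‖ := by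
      intro x
      rw [hHx]
      refine (Finset.abs_sum_le_sum_abs _ _).trans (Finset.sum_le_sum (fun n _ => ?_))
      rw [← Real.norm_eq_abs]
      calc ‖f n (x n)‖ ≤ ‖f n‖ * ‖x n‖ := (f n).le_opNorm _
        _ ≤ 1 * ‖x n‖ := mul_le_mul_of_nonneg_right (hf1 n) (norm_nonneg _)
        _ = ‖x n‖ := one_mul _
    have hbound : ∀ x : lp Y 1, ∑ n ∈ Finset.range N, ‖x n‖ + ∑ n ∈ Finset.Ico N1 (N1 + m), ‖x n‖ ≤
        ∑ n ∈ Finset.range (N1 + m), ‖x n‖ := by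
      intro x
      rw [← Finset.sum_range_add_sum_Ico _ (show N1 ≤ N1 + m by omega)]
      gcongr
    refine ⟨k, hkn, H, ?_, ⟨N1 + m, fun x => ?_⟩, ⟨N1 + m, fun x => ?_⟩⟩
    · show δ / 2 ≤ H (z k)
      rw [hHx]
      have e : ∑ n ∈ Finset.Ico N1 (N1 + m), f n (z k n) = ∑ n ∈ Finset.Ico N1 (N1 + m), ‖z k n‖ :=
        Finset.sum_congr rfl (fun n _ => by rw [hf2 n]; rfl)
      rw [e]
      exact hm'.le
    · have h1 := hN x
      have h2 := hHb x
      have h3 := hbound x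
      have h4 : |(G + H) x| ≤ |G x| + |H x| := by
        rw [LinearMap.add_apply]; exact abs_add_le _ _
      linarith
    · have h1 := hN x
      have h2 := hHb x
      have h3 := hbound x
      have h4 : |(G - H) x| ≤ |G x| + |H x| := by
        rw [LinearMap.sub_apply]; exact abs_sub _ _
      linarith
  have hmain := h (lp Y 1 →ₗ[ℝ] ℝ) T Q (δ / 2) (by linarith) ⟨0, fun x => by simp⟩ hstep
  apply fsTail_lim ρ hρ (δ / 2) (by linarith)
  intro m
  obtain ⟨G, θ, ⟨N, hN⟩, hθ, hc, hle⟩ := hmain m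
  have e1 : (θ.sum fun j s => s * T j G) = G (θ.sum fun j s => s • z j) := by
    unfold Finsupp.sum
    rw [map_sum]
    refine Finset.sum_congr rfl (fun j _ => ?_)
    rw [map_smul]
    rfl
  calc (m : ℝ) * (δ / 2) ≤ θ.sum fun j s => s * T j G := hle
    _ = G (θ.sum fun j s => s • z j) := e1
    _ ≤ |G (θ.sum fun j s => s • z j)| := le_abs_self _
    _ ≤ ∑ n ∈ Finset.range N, ‖(θ.sum fun j s => s • z j) n‖ := hN _
    _ ≤ ‖θ.sum fun j s => s • z j‖ := fsTail_norm Y _ N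
    _ ≤ ρ θ.support.card := hz θ hθ
    _ ≤ ρ m := hmono hc

end Q101Fs
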