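import Mathlib
import Pool.Agent.Q101.FsS

set_option autoImplicit false

open Filter Topology

namespace Q101Fs

open Q101Lf Pool.Agent.TH326.L1

section
variable {V : Type} [NormedAddCommGroup V]

theorem fsTight_cut_nonneg (R : ℝ) (x : V) : 0 ≤ cut R x := le_max_left _ _

theorem fsTight_cut_le_one (R : ℝ) (x : V) : cut R x ≤ 1 :=
  max_le zero_le_one (min_le_left _ _)

theorem fsTight_cut_one {R : ℝ} (hR : 0 < R) (x : V) (hx : ‖x‖ ≤ R) : cut R x = 1 := by
  unfold cut
  have h1 : ‖x‖ / R ≤ 1 := (div_le_one hR).2 hx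
  rw [min_eq_left (by linarith), max_eq_right zero_le_one]

theorem fsTight_cut_zero {R : ℝ} (hR : 0 < R) (x : V) (hx : 2 * R ≤ ‖x‖) : cut R x = 0 := by
  unfold cut
  have h1 : 2 ≤ ‖x‖ / R := by rw [le_div_iff₀ hR]; exact hx
  exact max_eq_left ((min_le_right _ _).trans (by linarith))

theorem fsTight_cut_lip {R : ℝ} (hR : 0 < R) (x y : V) : |cut R x - cut R y| ≤ ‖x - y‖ / R := by
  unfold cut
  have h1 : |max 0 (min 1 (2 - ‖x‖ / R)) - max 0 (min 1 (2 - ‖y‖ / R))| ≤
      |min 1 (2 - ‖x‖ / R) - min 1 (2 - ‖y‖ / R)| := by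
    have := abs_max_sub_max_le_abs (min 1 (2 - ‖x‖ / R)) (min 1 (2 - ‖y‖ / R)) 0
    rwa [max_comm _ (0 : ℝ), max_comm _ (0 : ℝ)] at this
  have h2 : |min 1 (2 - ‖x‖ / R) - min 1 (2 - ‖y‖ / R)| ≤ |(2 - ‖x‖ / R) - (2 - ‖y‖ / R)| := by
    have := abs_min_sub_min_le_max 1 (2 - ‖x‖ / R) 1 (2 - ‖y‖ / R)
    rw [sub_self, abs_zero] at this
    exact this.trans (max_le (abs_nonneg _) le_rfl)
  have h3 : |(2 - ‖x‖ / R) - (2 - ‖y‖ / R)| ≤ ‖x - y‖ / R := by
    have e : (2 - ‖x‖ / R) - (2 - ‖y‖ / R) = (‖y‖ - ‖x‖) / R := by ring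
    rw [e, abs_div, abs_of_pos hR]
    gcongr
    rw [abs_sub_comm]
    exact abs_norm_sub_norm_le x y
  exact h1.trans (h2.trans h3)

/-- the product with the cut-off -/
theorem fsTight_mul (F : V → ℝ) (C R : ℝ) (hC : 0 ≤ C) (hR : 0 < R) (hF : RL C F) (hF0 : F 0 = 0) :
    RL (3 * C) fun x => cut R x * F x := by
  have hFb : ∀ x, |F x| ≤ C * ‖x‖ := by
    intro x
    have := hF x 0
    rwa [hF0, sub_zero, sub_zero] at this
  -- the case that the second point is in the ball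
  have key : ∀ x y : V, ‖y‖ ≤ 2 * R → |cut R x * F x - cut R y * F y| ≤ 3 * C * ‖x - y‖ := by
    intro x y hy
    have e : cut R x * F x - cut R y * F y = cut R x * (F x - F y) + (cut R x - cut R y) * F y := by
      ring
    have h1 : |cut R x * (F x - F y)| ≤ C * ‖x - y‖ := by
      rw [abs_mul, abs_of_nonneg (fsTight_cut_nonneg R x)]
      calc cut R x * |F x - F y| ≤ 1 * |F x - F y| :=
            mul_le_mul_of_nonneg_right (fsTight_cut_le_one R x) (abs_nonneg _)
        _ ≤ C * ‖x - y‖ := by rw [one_mul]; exact hF x y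
    have h2 : |(cut R x - cut R y) * F y| ≤ 2 * C * ‖x - y‖ := by
      rw [abs_mul]
      calc |cut R x - cut R y| * |F y| ≤ (‖x - y‖ / R) * (C * (2 * R)) := by
            apply mul_le_mul (fsTight_cut_lip hR x y) ((hFb y).trans (by gcongr)) (abs_nonneg _)
            positivity
        _ = 2 * C * ‖x - y‖ := by field_simp
    rw [e]
    calc |cut R x * (F x - F y) + (cut R x - cut R y) * F y| ≤ _ := abs_add_le _ _
      _ ≤ C * ‖x - y‖ + 2 * C * ‖x - y‖ := add_le_add h1 h2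
      _ = 3 * C * ‖x - y‖ := by ring
  intro x y
  rcases le_total ‖y‖ (2 * R) with hy | hy
  · exact key x y hy
  rcases le_total ‖x‖ (2 * R) with hx | hx
  · have := key y x hx
    rwa [abs_sub_comm, norm_sub_rev] at this
  · simp only [fsTight_cut_zero hR x hx, fsTight_cut_zero hR y hy, zero_mul, sub_self, abs_zero]
    positivity

/-- sum of two functions with disjoint supports -/
theorem fsTight_add (L R0 R1 : ℝ) (hL : 0 ≤ L) (hR : R0 ≤ R1) (G H : V → ℝ) (hG1 : RL (2 * L) G)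
    (hG2 : ∀ x, R0 ≤ ‖x‖ → G x = 0) (hG3 : ∀ x y, G y = 0 → |G x| ≤ L * ‖x - y‖) (hH1 : RL L H)
    (hH2 : ∀ x, R1 ≤ ‖x‖ → H x = 0) (hGH : ∀ x, G x = 0 ∨ H x = 0) :
    RL (2 * L) (G + H) ∧ (∃ R2, ∀ x, R2 ≤ ‖x‖ → (G + H) x = 0) ∧
      ∀ x y, (G + H) y = 0 → |(G + H) x| ≤ L * ‖x - y‖ := by
  have hH3 : ∀ x y, H y = 0 → |H x| ≤ L * ‖x - y‖ := by
    intro x y hy
    have := hH1 x y
    rwa [hy, sub_zero] at this
  refine ⟨fun x y => ?_, ⟨R1, fun x hx => ?_⟩, fun x y hy => ?_⟩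
  · have hn : 0 ≤ L * ‖x - y‖ := by positivity
    simp only [Pi.add_apply]
    rcases hGH x with hx | hx <;> rcases hGH y with hy | hy
    · have h1 := hH1 x y
      have e : G x + H x - (G y + H y) = H x - H y := by rw [hx, hy]; ring
      rw [e]; linarith
    · have h1 := hH3 x y hy
      have h2 := hG3 y x hx
      rw [norm_sub_rev] at h2
      have e : G x + H x - (G y + H y) = H x - G y := by rw [hx, hy]; ring
      rw [e]
      have := abs_sub (H x) (G y)
      linarith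
    · have h1 := hG3 x y hy
      have h2 := hH3 y x hx
      rw [norm_sub_rev] at h2
      have e : G x + H x - (G y + H y) = G x - H y := by rw [hx, hy]; ring
      rw [e]
      have := abs_sub (G x) (H y)
      linarith
    · have h1 := hG1 x y
      have e : G x + H x - (G y + H y) = G x - G y := by rw [hx, hy]; ring
      rw [e]; exact h1
  · simp only [Pi.add_apply, hG2 x (hR.trans hx), hH2 x hx, add_zero]
  · simp only [Pi.add_apply] at hy ⊢
    have hy' : G y = 0 ∧ H y = 0 := by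
      rcases hGH y with h | h
      · rw [h, zero_add] at hy; exact ⟨h, hy⟩
      · rw [h, add_zero] at hy; exact ⟨hy, h⟩
    rcases hGH x with h | h
    · rw [h, zero_add]; exact hH3 x y hy'.2
    · rw [h, add_zero]; exact hG3 x y hy'.1

end

theorem tight (h : S_greedy) : S_tight := by
  intro V _ _ μ ρ hmono hρ hUP F C c hc hC hF hF0 hcM
  by_contra hcon
  push Not at hcon
  set L : ℝ := 6 * C with hLdef
  have hL : 0 ≤ L := by positivity
  set Q : (V → ℝ) → Prop := fun G => RL (2 * L) G ∧ (∃ R0, ∀ x, R0 ≤ ‖x‖ → G x = 0) ∧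
    ∀ x y, G y = 0 → |G x| ≤ L * ‖x - y‖ with hQ
  set T : ℕ → (V → ℝ) →ₗ[ℝ] ℝ := fun j =>
    { toFun := M (μ j)
      map_add' := M_add (μ j)
      map_smul' := M_smul (μ j) } with hT
  have hQ0 : Q 0 := by
    refine ⟨RL.zero (by positivity), ⟨0, fun x _ => rfl⟩, fun x y _ => ?_⟩
    simp only [Pi.zero_apply, abs_zero]
    positivity
  have hstep : ∀ G, Q G → ∀ n : ℕ, ∃ j, n ≤ j ∧ ∃ h, c / 2 ≤ T j h ∧ Q (G + h) ∧ Q (G - h) := by
    rintro G ⟨hG1, ⟨R0, hG2⟩, hG3⟩ n
    set R : ℝ := max R0 1 with hRdef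
    have hR : 0 < R := lt_of_lt_of_le one_pos (le_max_right _ _)
    have hR0 : R0 ≤ R := le_max_left _ _
    obtain ⟨k, hkn, hk⟩ := hcon R hR n
    obtain ⟨R1, hR1, hsupp⟩ := exists_radius (μ k)
    set R' : ℝ := max (2 * R) R1 with hR'def
    have hRR' : 2 * R ≤ R' := le_max_left _ _
    have hR1R' : R1 ≤ R' := le_max_right _ _
    have hR' : 0 < R' := by linarith
    set H : V → ℝ := (fun x => cut R' x * F k x) - fun x => cut R x * F k x with hH
    have hHx : ∀ x, H x = cut R' x * F k x - cut R x * F k x := fun x => rfl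
    have hH1 : RL L H := by
      have := (fsTight_mul (F k) C R' hC hR' (hF k) (hF0 k)).sub
        (fsTight_mul (F k) C R hC hR (hF k) (hF0 k))
      have e : 3 * C + 3 * C = L := by rw [hLdef]; ring
      rwa [e] at this
    have hH2 : ∀ x, 2 * R' ≤ ‖x‖ → H x = 0 := by
      intro x hx
      rw [hHx, fsTight_cut_zero hR' x hx, fsTight_cut_zero hR x (by linarith)]
      ring
    have hH4 : ∀ x, ‖x‖ ≤ R → H x = 0 := by
      intro x hx
      rw [hHx, fsTight_cut_one hR' x (by linarith), fsTight_cut_one hR x hx]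
      ring
    have hGH : ∀ x, G x = 0 ∨ H x = 0 := by
      intro x
      rcases le_total ‖x‖ R with hx | hx
      · exact Or.inr (hH4 x hx)
      · exact Or.inl (hG2 x (hR0.trans hx))
    have hneg1 : RL L (-H) := hH1.neg
    have hneg2 : ∀ x, 2 * R' ≤ ‖x‖ → (-H) x = 0 := by
      intro x hx
      rw [Pi.neg_apply, hH2 x hx, neg_zero]
    have hneg3 : ∀ x, G x = 0 ∨ (-H) x = 0 := by
      intro x
      rcases hGH x with h1 | h1
      · exact Or.inl h1
      · right; rw [Pi.neg_apply, h1, neg_zero]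
    refine ⟨k, hkn, H, ?_, ?_, ?_⟩
    · show c / 2 ≤ M (μ k) H
      rw [hH, M_sub]
      have e : M (μ k) (fun x => cut R' x * F k x) = M (μ k) (F k) := by
        apply M_congr
        · show cut R' 0 * F k 0 = F k 0
          rw [hF0 k, mul_zero]
        · intro x hx
          show cut R' x * F k x = F k x
          rw [fsTight_cut_one hR' x ((hsupp x hx).trans hR1R'), one_mul]
      rw [e]
      have := hcM k
      linarith
    · exact fsTight_add L R0 (2 * R') hL (by linarith) G H hG1 hG2 hG3 hH1 hH2 hGH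
    · rw [sub_eq_add_neg]
      exact fsTight_add L R0 (2 * R') hL (by linarith) G (-H) hG1 hG2 hG3 hneg1 hneg2 hneg3
  have hmain := h (V → ℝ) T Q (c / 2) (by linarith) hQ0 hstep
  -- `m c/2 ≤ 2 L ρ m`
  have hall : ∀ m : ℕ, (m : ℝ) * (c / 2) ≤ ρ m * (2 * L) := by
    intro m
    obtain ⟨G, θ, ⟨hG1, -, -⟩, hθ, hcard, hle⟩ := hmain m
    calc (m : ℝ) * (c / 2) ≤ θ.sum fun j s => s * T j G := hle
      _ = Phi μ θ G := rfl
      _ ≤ ρ θ.support.card * (2 * L) := hUP θ hθ G (2 * L) (by positivity) hG1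
      _ ≤ ρ m * (2 * L) := mul_le_mul_of_nonneg_right (hmono hcard) (by positivity)
  have hlim : Tendsto (fun m : ℕ => ρ m / m * (2 * L)) atTop (𝓝 (0 * (2 * L))) := hρ.mul_const _
  rw [zero_mul] at hlim
  have h1 : ∀ᶠ m : ℕ in atTop, ρ m / m * (2 * L) < c / 2 :=
    hlim.eventually (gt_mem_nhds (by linarith))
  obtain ⟨m, h2, h3⟩ := (h1.and (eventually_ge_atTop 1)).exists
  have hm : (0 : ℝ) < m := by exact_mod_cast h3
  rw [div_mul_eq_mul_div, div_lt_iff₀ hm] at h2
  have := hall m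
  nlinarith

end Q101Fs
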