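import Pool.Agent.Q101.FsS

set_option autoImplicit false

/-!
# Project FS (helper101), job 10: the universal property of the Lipschitz-free space
-/

open Filter Topology

namespace Q101Fs

open Q101Lf Pool.Agent.TH326.L1

/-- the linear map on `F0 M` defined by a map `f` into a vector space -/
noncomputable def FsUnivMap {M : Type} {X : Type} [AddCommGroup X] [Module ℝ X] (f : M → X) :
    F0 M →ₗ[ℝ] X where
  toFun x := x.1.sum fun m a => a • f m
  map_add' := by
    intro x y
    have : (x + y).1 = x.1 + y.1 := rfl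
    rw [this, Finsupp.sum_add_index' (fun _ => by simp) (fun _ _ _ => by rw [add_smul])]
  map_smul' := by
    intro c x
    have : (c • x).1 = c • x.1 := rfl
    rw [this, Finsupp.sum_smul_index (fun _ => by simp), Finsupp.smul_sum]
    simp only [RingHom.id_apply, mul_smul]

theorem FsUnivMap_dual {M : Type} {X : Type} [NormedAddCommGroup X] [NormedSpace ℝ X] (f : M → X)
    (g : X →L[ℝ] ℝ) (x : F0 M) : g (FsUnivMap f x) = pair (fun m => g (f m)) x := by
  change g (x.1.sum fun m a => a • f m) = x.1.sum fun m a => a * g (f m)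
  unfold Finsupp.sum
  rw [map_sum]
  refine Finset.sum_congr rfl fun m _ => ?_
  beta_reduce
  rw [map_smul, smul_eq_mul]

theorem FsUnivMap_mol0 {M : Type} {X : Type} [AddCommGroup X] [Module ℝ X] (f : M → X)
    (p q : M) : FsUnivMap f (mol0 p q) = f p - f q := by
  change ((Finsupp.single p 1 - Finsupp.single q 1 : M →₀ ℝ).sum fun m a => a • f m) = f p - f q
  rw [Finsupp.sum_sub_index (fun _ _ _ => by rw [sub_smul]),
    Finsupp.sum_single_index (by simp), Finsupp.sum_single_index (by simp), one_smul, one_smul]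

theorem FsUnivMap_le {M : Type} [MetricSpace M] {X : Type} [NormedAddCommGroup X] [NormedSpace ℝ X]
    (f : M → X) (K : NNReal) (hf : LipschitzWith K f) (x : F0 M) :
    ‖FsUnivMap f x‖ ≤ K * ‖x‖ := by
  obtain ⟨g, hg1, hg2⟩ := exists_dual_vector'' ℝ (FsUnivMap f x)
  have h1 : g (FsUnivMap f x) = ‖FsUnivMap f x‖ := by simpa using hg2
  rw [← h1, FsUnivMap_dual]
  refine (le_abs_self _).trans (abs_pair_le K.2 (fun p q => ?_) x)
  rw [← map_sub]
  calc |g (f p - f q)| ≤ ‖g‖ * ‖f p - f q‖ := g.le_opNorm _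
    _ ≤ 1 * ‖f p - f q‖ := mul_le_mul_of_nonneg_right hg1 (norm_nonneg _)
    _ = dist (f p) (f q) := by rw [one_mul, dist_eq_norm]
    _ ≤ K * dist p q := hf.dist_le_mul p q

theorem univ : S_univ := by
  intro M _ m₀
  refine ⟨fun p q => by rw [mol_sub, norm_mol], ?_⟩
  intro X _ _ _ f K hf h0
  have hb : ∀ y : F0 M, ‖FsUnivMap f y‖ ≤ (K : ℝ) *
      ‖(toFree : F0 M →ₗᵢ[ℝ] LipFree M).toLinearMap y‖ := by
    intro y
    rw [LinearIsometry.coe_toLinearMap, LinearIsometry.norm_map]
    exact FsUnivMap_le f K hf y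
  set F : LipFree M →L[ℝ] X :=
    (FsUnivMap f).extendOfNorm (toFree : F0 M →ₗᵢ[ℝ] LipFree M).toLinearMap with hF
  have hFx : ∀ x : F0 M, F (toFree x) = FsUnivMap f x := fun x =>
    LinearMap.extendOfNorm_eq (f := FsUnivMap f)
      (e := (toFree : F0 M →ₗᵢ[ℝ] LipFree M).toLinearMap) denseRange_toFree ⟨K, hb⟩ x
  have hFn : ∀ z : LipFree M, ‖F z‖ ≤ K * ‖z‖ := fun z =>
    LinearMap.norm_extendOfNorm_apply_le (f := FsUnivMap f)
      (e := (toFree : F0 M →ₗᵢ[ℝ] LipFree M).toLinearMap) denseRange_toFree K hb z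
  have hFm : ∀ p, F (mol p m₀) = f p := by
    intro p
    rw [mol, hFx, FsUnivMap_mol0, h0, sub_zero]
  refine ⟨F, hFm, ?_, ?_, ?_⟩
  · refine LipschitzWith.of_dist_le_mul fun p q => ?_
    rw [dist_eq_norm, ← hFm p, ← hFm q, ← map_sub, mol_sub, ← norm_mol]
    exact F.le_opNorm _
  · rw [← NNReal.coe_le_coe, coe_nnnorm]
    exact F.opNorm_le_bound K.2 hFn
  · intro G hG
    refine ext_mol fun p q => ?_
    rw [← mol_sub p q m₀, map_sub, map_sub, hG, hG, hFm, hFm]

end Q101Fs
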