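import Mathlib

set_option autoImplicit false

open Filter Topology Finset

namespace Q101.Greedy

/-- a positive null sequence can be sorted decreasingly by a permutation of `ℕ` -/
theorem exists_sorted_perm (w : ℕ → ℝ) (hpos : ∀ n, 0 < w n) (hw : Tendsto w atTop (𝓝 0)) :
    ∃ σ : Equiv.Perm ℕ, ∀ i j, i ≤ j → w (σ j) ≤ w (σ i) := by
  classical
  have hfin : ∀ c : ℝ, 0 < c → {k | c ≤ w k}.Finite := by
    intro c hc
    have h := (hw.eventually (gt_mem_nhds hc))
    rw [← Nat.cofinite_eq_atTop] at h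
    rw [Filter.eventually_cofinite] at h
    refine h.subset ?_
    intro k hk
    simp only [Set.mem_ofPred_eq, not_lt] at hk ⊢
    exact hk
  have hg : ∀ F : Finset ℕ, ∃ m, m ∉ F ∧ ∀ k, k ∉ F → w k ≤ w m := by
    intro F
    obtain ⟨k0, hk0⟩ := Infinite.exists_notMem_finset F
    let B : Finset ℕ := (hfin (w k0) (hpos k0)).toFinset.filter (fun k => k ∉ F)
    have hB : B.Nonempty := ⟨k0, by simp [B, hk0]⟩
    obtain ⟨m, hm, hmax⟩ := B.exists_max_image w hB
    have hm' : w k0 ≤ w m ∧ m ∉ F := by simpa [B] using hm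
    refine ⟨m, hm'.2, fun k hk => ?_⟩
    by_cases h : w k0 ≤ w k
    · exact hmax k (by simp [B, h, hk])
    · push Not at h
      exact h.le.trans hm'.1
  choose g hg1 hg2 using hg
  let F : ℕ → Finset ℕ := fun n => Nat.rec ∅ (fun _ F => insert (g F) F) n
  have hF0 : F 0 = ∅ := rfl
  have hFs : ∀ n, F (n + 1) = insert (g (F n)) (F n) := fun n => rfl
  have hmono : ∀ i j, i ≤ j → F i ⊆ F j := by
    intro i j hij
    induction hij with
    | refl => exact Subset.rfl
    | step _ ih => exact ih.trans (by rw [hFs]; exact subset_insert _ _)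
  let s : ℕ → ℕ := fun n => g (F n)
  have hs_mem : ∀ i j, i < j → s i ∈ F j := by
    intro i j hij
    apply hmono (i + 1) j hij
    rw [hFs]; exact mem_insert_self _ _
  have hs_notMem : ∀ i, s i ∉ F i := fun i => hg1 (F i)
  have hinj : Function.Injective s := by
    intro i j hij
    rcases lt_trichotomy i j with h | h | h
    · exact absurd (hij ▸ hs_mem i j h) (hs_notMem j)
    · exact h
    · exact absurd (hij.symm ▸ hs_mem j i h) (hs_notMem i)
  have hanti : ∀ i j, i ≤ j → w (s j) ≤ w (s i) := by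
    intro i j hij
    apply hg2 (F i)
    intro h
    exact hs_notMem j (hmono i j hij h)
  have hF_eq : ∀ n k, k ∈ F n → ∃ i, s i = k := by
    intro n
    induction n with
    | zero => intro k hk; rw [hF0] at hk; simp at hk
    | succ n ih =>
      intro k hk
      rw [hFs, mem_insert] at hk
      rcases hk with h | h
      · exact ⟨n, h.symm⟩
      · exact ih k h
  have hsurj : Function.Surjective s := by
    intro k
    by_contra hk
    have hk' : ∀ n, k ∉ F n := fun n h => hk (hF_eq n k h)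
    have h1 : ∀ n, w k ≤ w (s n) := fun n => hg2 (F n) k (hk' n)
    have h2 : (Set.range s) ⊆ {j | w k ≤ w j} := by
      rintro _ ⟨n, rfl⟩
      exact h1 n
    exact Set.infinite_range_of_injective hinj ((hfin (w k) (hpos k)).subset h2)
  exact ⟨Equiv.ofBijective s ⟨hinj, hsurj⟩, hanti⟩

variable {E : Type*} [NormedAddCommGroup E] [NormedSpace ℝ E]

/-- For a quasi-greedy biorthogonal system with dense span, every vector is the sum of its expansion
taken along a suitable permutation of all indices. -/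
theorem exists_expansion (e : ℕ → E) (e' : ℕ → E →L[ℝ] ℝ)
    (hb : ∀ i j, e' i (e j) = if i = j then (1 : ℝ) else 0)
    (hd : Dense ((Submodule.span ℝ (Set.range e) : Submodule ℝ E) : Set E))
    (B : ℝ) (he' : ∀ j x, |e' j x| ≤ B * ‖x‖) (C : ℝ) (hC : 0 ≤ C)
    (hq : ∀ (x : E) (A : Finset ℕ), (∀ i ∈ A, ∀ j, j ∉ A → |e' j x| ≤ |e' i x|) →
      ‖x - ∑ i ∈ A, e' i x • e i‖ ≤ C * ‖x‖) (x : E) :
    ∃ σ : Equiv.Perm ℕ,
      Tendsto (fun N => ∑ i ∈ range N, e' (σ i) x • e (σ i)) atTop (𝓝 x) := by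
  classical
  -- approximation by vectors with prescribed finite support and nonzero differences
  have happ : ∀ ε : ℝ, 0 < ε → ∃ (D : Finset ℕ) (c : ℕ → ℝ), ‖x - ∑ i ∈ D, c i • e i‖ < ε ∧
      ∀ i ∈ D, e' i x ≠ c i := by
    intro ε hε
    obtain ⟨y, hy, hxy⟩ := Metric.mem_closure_iff.1 (hd x) (ε / 2) (by linarith)
    rw [dist_eq_norm] at hxy
    obtain ⟨c, hc⟩ := (Finsupp.mem_span_range_iff_exists_finsupp).1 hy
    have hy' : y = ∑ i ∈ c.support, c i • e i := hc.symm
    set D := c.support with hD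
    set K : ℝ := ∑ i ∈ D, ‖e i‖ with hK
    have hK0 : 0 ≤ K := Finset.sum_nonneg fun i _ => norm_nonneg _
    set t : ℝ := ε / (2 * (K + 1)) with ht
    have ht0 : 0 < t := by positivity
    let c' : ℕ → ℝ := fun i => if e' i x = c i then c i + t else c i
    refine ⟨D, c', ?_, ?_⟩
    · have h1 : ‖∑ i ∈ D, (c i - c' i) • e i‖ ≤ t * K := by
        refine (norm_sum_le _ _).trans ?_
        rw [hK, Finset.mul_sum]
        apply Finset.sum_le_sum
        intro i _
        rw [norm_smul]
        apply mul_le_mul_of_nonneg_right _ (norm_nonneg _)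
        change ‖c i - (if e' i x = c i then c i + t else c i)‖ ≤ t
        split_ifs
        · rw [sub_add_cancel_left, norm_neg, Real.norm_eq_abs, abs_of_pos ht0]
        · simp [ht0.le]
      have h2 : x - ∑ i ∈ D, c' i • e i = (x - y) + ∑ i ∈ D, (c i - c' i) • e i := by
        rw [hy']
        simp only [sub_smul, Finset.sum_sub_distrib]
        abel
      rw [h2]
      refine (norm_add_le _ _).trans_lt ?_
      have h3 : t * K < ε / 2 := by
        rw [ht, div_mul_eq_mul_div, div_lt_div_iff₀ (by positivity) (by norm_num)]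
        nlinarith
      linarith
    · intro i _
      change e' i x ≠ (if e' i x = c i then c i + t else c i)
      split_ifs with h
      · rw [h]; intro h'; linarith
      · exact h
  have hcf : ∀ (D : Finset ℕ) (c : ℕ → ℝ) (j : ℕ), e' j (∑ i ∈ D, c i • e i) =
      if j ∈ D then c j else 0 := by
    intro D c j
    rw [map_sum]
    simp only [map_smul, hb, smul_eq_mul, mul_ite, mul_one, mul_zero]
    rw [Finset.sum_ite_eq]
  have hnull : Tendsto (fun n => |e' n x|) atTop (𝓝 0) := by
    rw [Metric.tendsto_atTop]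
    intro ε hε
    obtain ⟨D, c, hD, _⟩ := happ (ε / (|B| + 1)) (by positivity)
    refine ⟨D.sup id + 1, fun n hn => ?_⟩
    have hnD : n ∉ D := by
      intro h
      have := Finset.le_sup (f := id) h
      simp only [id] at this
      omega
    have h1 : e' n x = e' n (x - ∑ i ∈ D, c i • e i) := by
      rw [map_sub, hcf, if_neg hnD, sub_zero]
    rw [Real.dist_eq, sub_zero, abs_abs, h1]
    refine (he' _ _).trans_lt ?_
    have hB : B ≤ |B| := le_abs_self B
    have h2 : B * ‖x - ∑ i ∈ D, c i • e i‖ ≤ |B| * ‖x - ∑ i ∈ D, c i • e i‖ :=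
      mul_le_mul_of_nonneg_right hB (norm_nonneg _)
    refine h2.trans_lt ?_
    rw [lt_div_iff₀ (by positivity)] at hD
    nlinarith [norm_nonneg (x - ∑ i ∈ D, c i • e i)]
  let w : ℕ → ℝ := fun n => if e' n x = 0 then 1 / ((n : ℝ) + 1) else |e' n x|
  have hwpos : ∀ n, 0 < w n := by
    intro n
    change 0 < (if e' n x = 0 then 1 / ((n : ℝ) + 1) else |e' n x|)
    split_ifs with h
    · positivity
    · exact abs_pos.2 h
  have hw0 : Tendsto w atTop (𝓝 0) := by
    have h1 : Tendsto (fun n : ℕ => 1 / ((n : ℝ) + 1) + |e' n x|) atTop (𝓝 0) := by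
      have := tendsto_one_div_add_atTop_nhds_zero_nat (𝕜 := ℝ)
      simpa using this.add hnull
    refine squeeze_zero (fun n => (hwpos n).le) (fun n => ?_) h1
    change (if e' n x = 0 then 1 / ((n : ℝ) + 1) else |e' n x|) ≤ _
    have h2 : 0 ≤ 1 / ((n : ℝ) + 1) := by positivity
    split_ifs with h
    · linarith [abs_nonneg (e' n x)]
    · linarith
  obtain ⟨σ, hσ⟩ := exists_sorted_perm w hwpos hw0
  refine ⟨σ, ?_⟩
  rw [Metric.tendsto_atTop]
  intro ε hε
  obtain ⟨D, c, hD, hne⟩ := happ (ε / (C + 1)) (by positivity)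
  set y := ∑ i ∈ D, c i • e i with hy
  -- a lower bound for the differences on `D`
  obtain ⟨δ, hδ, hδD⟩ : ∃ δ : ℝ, 0 < δ ∧ ∀ i ∈ D, δ ≤ |e' i x - c i| := by
    rcases D.eq_empty_or_nonempty with h | h
    · exact ⟨1, one_pos, by simp [h]⟩
    · obtain ⟨m, hm, hmin⟩ := D.exists_min_image (fun i => |e' i x - c i|) h
      exact ⟨_, abs_pos.2 (sub_ne_zero.2 (hne m hm)), hmin⟩
  -- `N` large
  have hN1 : ∀ᶠ N in atTop, w (σ N) < δ := by
    have : Tendsto (fun N => w (σ N)) atTop (𝓝 0) := by
      have h := hw0.comp (by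
        rw [← Nat.cofinite_eq_atTop]
        exact σ.injective.tendsto_cofinite : Tendsto σ atTop atTop)
      exact h
    exact this.eventually (gt_mem_nhds hδ)
  have hN2 : ∀ᶠ N in atTop, ∀ i ∈ D, σ.symm i < N := by
    refine (eventually_ge_atTop ((D.image σ.symm).sup id + 1)).mono ?_
    intro N hN i hi
    have := Finset.le_sup (f := id) (Finset.mem_image_of_mem σ.symm hi)
    simp only [id] at this
    omega
  obtain ⟨N0, hN0⟩ := eventually_atTop.1 (hN1.and hN2)
  refine ⟨N0, fun N hN => ?_⟩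
  obtain ⟨hNa, hNb⟩ := hN0 N hN
  let F : Finset ℕ := (range N).image σ
  have hFmem : ∀ k, k ∈ F ↔ σ.symm k < N := by
    intro k
    simp only [F, mem_image, mem_range]
    constructor
    · rintro ⟨i, hi, rfl⟩; simpa using hi
    · intro h; exact ⟨σ.symm k, h, by simp⟩
  have hDF : D ⊆ F := fun i hi => (hFmem i).2 (hNb i hi)
  have hFsort : ∀ i ∈ F, ∀ k, k ∉ F → w k ≤ w i := by
    intro i hi k hk
    rw [hFmem] at hi hk
    have := hσ (σ.symm i) (σ.symm k) (by omega)
    simpa using this
  have hFout : ∀ k, k ∉ F → w k ≤ w (σ N) := by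
    intro k hk
    rw [hFmem] at hk
    have := hσ N (σ.symm k) (by omega)
    simpa using this
  have hsum : ∑ i ∈ range N, e' (σ i) x • e (σ i) = ∑ i ∈ F, e' i x • e i := by
    rw [Finset.sum_image (fun a _ b _ h => σ.injective h)]
  -- the greedy set for `x - y`
  let A : Finset ℕ := F.filter (fun i => i ∈ D ∨ e' i x ≠ 0)
  have hcy : ∀ j, e' j (x - y) = if j ∈ D then e' j x - c j else e' j x := by
    intro j
    rw [map_sub, hy, hcf]
    split_ifs <;> simp
  have hA : ∀ i ∈ A, ∀ j, j ∉ A → |e' j (x - y)| ≤ |e' i (x - y)| := by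
    intro i hi j hj
    have hjD : j ∉ D := fun h => hj (mem_filter.2 ⟨hDF h, Or.inl h⟩)
    rw [hcy j, if_neg hjD]
    by_cases hj0 : e' j x = 0
    · rw [hj0, abs_zero]; exact abs_nonneg _
    have hjF : j ∉ F := fun h => hj (mem_filter.2 ⟨h, Or.inr hj0⟩)
    have hwj : w j = |e' j x| := if_neg hj0
    have hiF : i ∈ F := (mem_filter.1 hi).1
    rw [hcy i]
    by_cases hiD : i ∈ D
    · rw [if_pos hiD]
      have h1 := hFout j hjF
      have h2 := hδD i hiD
      rw [hwj] at h1
      linarith
    · rw [if_neg hiD]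
      have hi0 : e' i x ≠ 0 := by
        rcases (mem_filter.1 hi).2 with h | h
        · exact absurd h hiD
        · exact h
      have hwi : w i = |e' i x| := if_neg hi0
      have h1 := hFsort i hiF j hjF
      rwa [hwj, hwi] at h1
  have hres := hq (x - y) A hA
  have hdiff : (x - y) - ∑ i ∈ A, e' i (x - y) • e i = x - ∑ i ∈ F, e' i x • e i := by
    have h1 : ∑ i ∈ A, e' i (x - y) • e i = ∑ i ∈ F, e' i (x - y) • e i := by
      apply Finset.sum_subset (Finset.filter_subset _ _)
      intro i hi hiA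
      have h2 : i ∉ D := fun h => hiA (mem_filter.2 ⟨hi, Or.inl h⟩)
      have h3 : e' i x = 0 := by
        by_contra h
        exact hiA (mem_filter.2 ⟨hi, Or.inr h⟩)
      rw [hcy, if_neg h2, h3, zero_smul]
    have h4 : ∑ i ∈ F, e' i (x - y) • e i = ∑ i ∈ F, e' i x • e i - y := by
      have h5 : ∀ i ∈ F, e' i (x - y) • e i = e' i x • e i - (if i ∈ D then c i • e i else 0) := by
        intro i _
        rw [hcy]
        split_ifs
        · rw [sub_smul]
        · rw [sub_zero]
      rw [Finset.sum_congr rfl h5, Finset.sum_sub_distrib, Finset.sum_ite_mem,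
        Finset.inter_eq_right.2 hDF]
    rw [h1, h4]
    abel
  rw [hdiff] at hres
  rw [hsum, dist_eq_norm, norm_sub_rev]
  refine hres.trans_lt ?_
  rw [lt_div_iff₀ (by positivity)] at hD
  nlinarith [norm_nonneg (x - y)]

end Q101.Greedy
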