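import Mathlib

/-!
# Hexagonal norms on the plane

`N s (a, b) = max |a| (max |b| (|a + b| / s))` for `1 < s < 2` is a norm on the plane whose unit
ball is a hexagon; two of these norms with different parameters are not isometric.
-/

namespace Q101.Hex

open Filter Topology

/-- The hexagonal norm with parameter `s`. -/
noncomputable def N (s : ℝ) (x : ℝ × ℝ) : ℝ := max |x.1| (max |x.2| (|x.1 + x.2| / s))

lemma abs_fst_le (s : ℝ) (x : ℝ × ℝ) : |x.1| ≤ N s x := le_max_left _ _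

lemma abs_snd_le (s : ℝ) (x : ℝ × ℝ) : |x.2| ≤ N s x := (le_max_left _ _).trans (le_max_right _ _)

lemma abs_add_div_le (s : ℝ) (x : ℝ × ℝ) : |x.1 + x.2| / s ≤ N s x :=
  (le_max_right _ _).trans (le_max_right _ _)

lemma abs_add_le' {s : ℝ} (hs : 0 < s) (x : ℝ × ℝ) : |x.1 + x.2| ≤ N s x * s := by
  have := abs_add_div_le s x
  rwa [div_le_iff₀ hs] at this

lemma N_le {s : ℝ} (hs : 0 < s) {x : ℝ × ℝ} {c : ℝ} (h1 : |x.1| ≤ c) (h2 : |x.2| ≤ c)
    (h3 : |x.1 + x.2| ≤ c * s) : N s x ≤ c := by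
  refine max_le h1 (max_le h2 ?_)
  rwa [div_le_iff₀ hs]

lemma N_nonneg (s : ℝ) (x : ℝ × ℝ) : 0 ≤ N s x := (abs_nonneg _).trans (abs_fst_le s x)

lemma N_add {s : ℝ} (hs : 0 < s) (x y : ℝ × ℝ) : N s (x + y) ≤ N s x + N s y := by
  refine N_le hs ?_ ?_ ?_
  · exact (abs_add_le _ _).trans (add_le_add (abs_fst_le s x) (abs_fst_le s y))
  · exact (abs_add_le _ _).trans (add_le_add (abs_snd_le s x) (abs_snd_le s y))
  · have h1 := abs_add_le' hs x
    have h2 := abs_add_le' hs y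
    have h3 : (x + y).1 + (x + y).2 = (x.1 + x.2) + (y.1 + y.2) := by
      simp only [Prod.fst_add, Prod.snd_add]; ring
    rw [h3]
    have := abs_add_le (x.1 + x.2) (y.1 + y.2)
    linarith [add_mul (N s x) (N s y) s]

lemma N_smul (s c : ℝ) (x : ℝ × ℝ) : N s (c • x) = |c| * N s x := by
  unfold N
  simp only [Prod.smul_fst, Prod.smul_snd, smul_eq_mul]
  rw [← mul_add, abs_mul, abs_mul, abs_mul, mul_max_of_nonneg _ _ (abs_nonneg c),
    mul_max_of_nonneg _ _ (abs_nonneg c), mul_div_assoc]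

lemma N_neg (s : ℝ) (x : ℝ × ℝ) : N s (-x) = N s x := by
  have := N_smul s (-1) x
  simpa using this

lemma N_sub_comm (s : ℝ) (x y : ℝ × ℝ) : N s (x - y) = N s (y - x) := by
  rw [← N_neg s (x - y), neg_sub]

lemma N_zero (s : ℝ) : N s 0 = 0 := by simp [N]

lemma N_sub {s : ℝ} (hs : 0 < s) (x y : ℝ × ℝ) : N s (x - y) ≤ N s x + N s y := by
  have := N_add hs x (-y)
  rwa [N_neg, ← sub_eq_add_neg] at this

lemma norm_le_N (s : ℝ) (x : ℝ × ℝ) : ‖x‖ ≤ N s x := by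
  rw [Prod.norm_def]
  exact max_le (abs_fst_le s x) (abs_snd_le s x)

lemma N_le_norm {s : ℝ} (hs : 1 ≤ s) (x : ℝ × ℝ) : N s x ≤ 2 * ‖x‖ := by
  have h1 : |x.1| ≤ ‖x‖ := by simpa using norm_fst_le x
  have h2 : |x.2| ≤ ‖x‖ := by simpa using norm_snd_le x
  have h0 : 0 ≤ ‖x‖ := norm_nonneg x
  refine N_le (by linarith) (by linarith) (by linarith) ?_
  have := abs_add_le x.1 x.2
  nlinarith

/-- Joint continuity. -/
lemma tendsto_N {ι : Type*} {l : Filter ι} {s : ι → ℝ} {s' : ℝ} (hs' : 0 < s')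
    (hs : Tendsto s l (𝓝 s')) {x : ι → ℝ × ℝ} {x' : ℝ × ℝ} (hx : Tendsto x l (𝓝 x')) :
    Tendsto (fun i => N (s i) (x i)) l (𝓝 (N s' x')) := by
  unfold N
  have h1 : Tendsto (fun i => (x i).1) l (𝓝 x'.1) := (continuous_fst.tendsto x').comp hx
  have h2 : Tendsto (fun i => (x i).2) l (𝓝 x'.2) := (continuous_snd.tendsto x').comp hx
  exact h1.abs.max (h2.abs.max ((h1.add h2).abs.div hs hs'.ne'))

/-- A facet of the hexagon with parameter `s` has length at most `s`. -/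
lemma facet_len {s : ℝ} (h1 : 1 ≤ s) {x y : ℝ × ℝ} (hx : N s x = 1) (hy : N s y = 1)
    (hxy : N s (x + y) = 2) : N s (x - y) ≤ s := by
  have hs : 0 < s := by linarith
  obtain ⟨x1, x2⟩ := x
  obtain ⟨y1, y2⟩ := y
  have a1 : |x1| ≤ 1 := hx ▸ abs_fst_le s (x1, x2)
  have a2 : |x2| ≤ 1 := hx ▸ abs_snd_le s (x1, x2)
  have a3 : |x1 + x2| ≤ 1 * s := hx ▸ abs_add_le' hs (x1, x2)
  have b1 : |y1| ≤ 1 := hy ▸ abs_fst_le s (y1, y2)
  have b2 : |y2| ≤ 1 := hy ▸ abs_snd_le s (y1, y2)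
  have b3 : |y1 + y2| ≤ 1 * s := hy ▸ abs_add_le' hs (y1, y2)
  rw [abs_le] at a1 a2 a3 b1 b2 b3
  have h : 2 ≤ max |x1 + y1| (max |x2 + y2| (|(x1 + y1) + (x2 + y2)| / s)) := hxy.ge
  have hss : s ≤ s * s := by nlinarith
  rw [le_max_iff, le_max_iff, le_div_iff₀ hs, le_abs, le_abs, le_abs] at h
  refine N_le hs ?_ ?_ ?_
  · show |x1 - y1| ≤ s
    rw [abs_le]
    rcases h with (h | h) | (h | h) | (h | h) <;> constructor <;> linarith
  · show |x2 - y2| ≤ s
    rw [abs_le]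
    rcases h with (h | h) | (h | h) | (h | h) <;> constructor <;> linarith
  · show |(x1 - y1) + (x2 - y2)| ≤ s * s
    rw [abs_le]
    rcases h with (h | h) | (h | h) | (h | h) <;> constructor <;> linarith

/-- The three vertices (up to sign) of the unit ball. -/
def v1 : ℝ × ℝ := (1, -1)
def v2 (s : ℝ) : ℝ × ℝ := (1, s - 1)
def v3 (s : ℝ) : ℝ × ℝ := (s - 1, 1)

lemma N_eq {s : ℝ} {x : ℝ × ℝ} {c : ℝ} (hs : 0 < s) (h1 : |x.1| ≤ c) (h2 : |x.2| ≤ c)
    (h3 : |x.1 + x.2| ≤ c * s) (h : c ≤ |x.1| ∨ c ≤ |x.2| ∨ c * s ≤ |x.1 + x.2|) : N s x = c := by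
  refine le_antisymm (N_le hs h1 h2 h3) ?_
  rcases h with h | h | h
  · exact h.trans (abs_fst_le s x)
  · exact h.trans (abs_snd_le s x)
  · refine le_trans ?_ (abs_add_div_le s x)
    rwa [le_div_iff₀ hs]

section
variable {s : ℝ} (h1 : 1 ≤ s) (h2 : s ≤ 2)
include h1 h2

lemma N_v1 : N s v1 = 1 := by
  refine N_eq (by linarith) ?_ ?_ ?_ (Or.inl ?_) <;> norm_num [v1] <;> linarith

lemma N_v2 : N s (v2 s) = 1 := by
  refine N_eq (by linarith) ?_ ?_ ?_ (Or.inl ?_)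
  · norm_num [v2]
  · simp only [v2]; rw [abs_le]; constructor <;> linarith
  · simp only [v2]; rw [abs_le]; constructor <;> linarith
  · norm_num [v2]

lemma N_v3 : N s (v3 s) = 1 := by
  refine N_eq (by linarith) ?_ ?_ ?_ (Or.inr (Or.inl ?_))
  · simp only [v3]; rw [abs_le]; constructor <;> linarith
  · norm_num [v3]
  · simp only [v3]; rw [abs_le]; constructor <;> linarith
  · norm_num [v3]

lemma N_v12 : N s (v1 + v2 s) = 2 := by
  refine N_eq (by linarith) ?_ ?_ ?_ (Or.inl ?_)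
  · norm_num [v1, v2]
  · simp only [v1, v2, Prod.snd_add]; rw [abs_le]; constructor <;> linarith
  · simp only [v1, v2, Prod.fst_add, Prod.snd_add]; rw [abs_le]; constructor <;> linarith
  · norm_num [v1, v2]

lemma N_v23 : N s (v2 s + v3 s) = 2 := by
  refine N_eq (by linarith) ?_ ?_ ?_ (Or.inr (Or.inr ?_))
  · simp only [v2, v3, Prod.fst_add]; rw [abs_le]; constructor <;> linarith
  · simp only [v2, v3, Prod.snd_add]; rw [abs_le]; constructor <;> linarith
  · simp only [v2, v3, Prod.fst_add, Prod.snd_add]; rw [abs_le]; constructor <;> linarith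
  · simp only [v2, v3, Prod.fst_add, Prod.snd_add]; rw [le_abs]; left; linarith

lemma N_v31 : N s (v3 s - v1) = 2 := by
  refine N_eq (by linarith) ?_ ?_ ?_ (Or.inr (Or.inl ?_))
  · simp only [v3, v1, Prod.fst_sub]; rw [abs_le]; constructor <;> linarith
  · norm_num [v3, v1]
  · simp only [v3, v1, Prod.fst_sub, Prod.snd_sub]; rw [abs_le]; constructor <;> linarith
  · norm_num [v3, v1]

lemma N_v1_sub_v2 : N s (v1 - v2 s) = s := by
  refine N_eq (by linarith) ?_ ?_ ?_ (Or.inr (Or.inl ?_))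
  · simp only [v1, v2, Prod.fst_sub]; rw [abs_le]; constructor <;> linarith
  · simp only [v1, v2, Prod.snd_sub]; rw [abs_le]; constructor <;> linarith
  · simp only [v1, v2, Prod.fst_sub, Prod.snd_sub]; rw [abs_le]; constructor <;> nlinarith
  · simp only [v1, v2, Prod.snd_sub]; rw [le_abs]; right; linarith

end

/-- Every vector is, up to a sign, a nonnegative combination of two neighbouring vertices. -/
lemma exists_comb {s : ℝ} (h1 : 1 < s) (h2 : s < 2) (x : ℝ × ℝ) :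
    ∃ a b : ℝ, ∃ p q : ℝ × ℝ, x = a • p + b • q ∧ 0 ≤ a * b ∧
      ((p = v1 ∧ q = v2 s) ∨ (p = v2 s ∧ q = v3 s) ∨ (p = v3 s ∧ q = - v1)) := by
  obtain ⟨x1, x2⟩ := x
  have hs : s ≠ 0 := by linarith
  have hs2 : s * (2 - s) ≠ 0 := mul_ne_zero hs (by linarith)
  -- coordinates in the three bases
  have e12 : ((x1, x2) : ℝ × ℝ)
      = ((x1 * (s - 1) - x2) / s) • v1 + ((x1 + x2) / s) • v2 s := by
    ext
    · simp only [v1, v2, Prod.fst_add, Prod.smul_fst, smul_eq_mul]; field_simp; ring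
    · simp only [v1, v2, Prod.snd_add, Prod.smul_snd, smul_eq_mul]; field_simp; ring
  have e23 : ((x1, x2) : ℝ × ℝ)
      = ((x1 - (s - 1) * x2) / (s * (2 - s))) • v2 s
        + ((x2 - (s - 1) * x1) / (s * (2 - s))) • v3 s := by
    have h2s : (2 : ℝ) - s ≠ 0 := by linarith
    ext
    · simp only [v2, v3, Prod.fst_add, Prod.smul_fst, smul_eq_mul]; field_simp; ring
    · simp only [v2, v3, Prod.snd_add, Prod.smul_snd, smul_eq_mul]; field_simp; ring
  have e31 : ((x1, x2) : ℝ × ℝ)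
      = ((x1 + x2) / s) • v3 s + (((s - 1) * x2 - x1) / s) • (- v1) := by
    ext
    · simp only [v1, v3, Prod.fst_add, Prod.smul_fst, smul_eq_mul, Prod.fst_neg]; field_simp; ring
    · simp only [v1, v3, Prod.snd_add, Prod.smul_snd, smul_eq_mul, Prod.snd_neg]; field_simp; ring
  have hpos : 0 < s * s := by nlinarith
  have hpos2 : 0 < s * (2 - s) := mul_pos (by linarith) (by linarith)
  rcases le_total 0 (x1 * (s - 1) - x2) with hA | hA <;>
    rcases le_total 0 (x1 + x2) with hB | hB <;>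
    rcases le_total 0 ((s - 1) * x2 - x1) with hC | hC
  · exact ⟨_, _, v1, v2 s, e12, mul_nonneg (div_nonneg hA (by linarith))
      (div_nonneg hB (by linarith)), Or.inl ⟨rfl, rfl⟩⟩
  · exact ⟨_, _, v1, v2 s, e12, mul_nonneg (div_nonneg hA (by linarith))
      (div_nonneg hB (by linarith)), Or.inl ⟨rfl, rfl⟩⟩
  · exact ⟨_, _, v2 s, v3 s, e23, mul_nonneg_of_nonpos_of_nonpos
      (div_nonpos_of_nonpos_of_nonneg (by linarith) hpos2.le)
      (div_nonpos_of_nonpos_of_nonneg (by linarith) hpos2.le), Or.inr (Or.inl ⟨rfl, rfl⟩)⟩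
  · exact ⟨_, _, v3 s, - v1, e31, mul_nonneg_of_nonpos_of_nonpos
      (div_nonpos_of_nonpos_of_nonneg (by linarith) (by linarith))
      (div_nonpos_of_nonpos_of_nonneg (by linarith) (by linarith)), Or.inr (Or.inr ⟨rfl, rfl⟩)⟩
  · exact ⟨_, _, v3 s, - v1, e31, mul_nonneg (div_nonneg hB (by linarith))
      (div_nonneg hC (by linarith)), Or.inr (Or.inr ⟨rfl, rfl⟩)⟩
  · exact ⟨_, _, v2 s, v3 s, e23, mul_nonneg (div_nonneg (by linarith) hpos2.le)
      (div_nonneg (by linarith) hpos2.le), Or.inr (Or.inl ⟨rfl, rfl⟩)⟩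
  · exact ⟨_, _, v1, v2 s, e12, mul_nonneg_of_nonpos_of_nonpos
      (div_nonpos_of_nonpos_of_nonneg hA (by linarith))
      (div_nonpos_of_nonpos_of_nonneg hB (by linarith)), Or.inl ⟨rfl, rfl⟩⟩
  · exact ⟨_, _, v1, v2 s, e12, mul_nonneg_of_nonpos_of_nonpos
      (div_nonpos_of_nonpos_of_nonneg hA (by linarith))
      (div_nonpos_of_nonpos_of_nonneg hB (by linarith)), Or.inl ⟨rfl, rfl⟩⟩

/-- On the cone over a facet the norm is additive. -/
lemma N_cone {s : ℝ} (hs : 0 < s) {p q : ℝ × ℝ} (hp : N s p = 1) (hq : N s q = 1)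
    (hpq : N s (p + q) = 2) {a b : ℝ} (hab : 0 ≤ a * b) : N s (a • p + b • q) = |a| + |b| := by
  -- nonnegative coefficients first
  have key : ∀ {p q : ℝ × ℝ}, N s p = 1 → N s q = 1 → N s (p + q) = 2 → ∀ {a b : ℝ},
      0 ≤ b → b ≤ a → N s (a • p + b • q) = a + b := by
    intro p q hp hq hpq a b hb hba
    refine le_antisymm ?_ ?_
    · refine (N_add hs _ _).trans ?_
      rw [N_smul, N_smul, hp, hq, abs_of_nonneg hb, abs_of_nonneg (hb.trans hba)]
      linarith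
    · have h1 : a • (p + q) = (a • p + b • q) + (a - b) • q := by
        rw [smul_add, sub_smul]; abel
      have h2 : N s (a • (p + q)) = 2 * a := by
        rw [N_smul, hpq, abs_of_nonneg (hb.trans hba)]; ring
      have h3 := N_add hs (a • p + b • q) ((a - b) • q)
      rw [← h1, h2, N_smul, hq, abs_of_nonneg (sub_nonneg.2 hba)] at h3
      linarith
  have key2 : ∀ {a b : ℝ}, 0 ≤ a → 0 ≤ b → N s (a • p + b • q) = a + b := by
    intro a b ha hb
    rcases le_total b a with h | h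
    · exact key hp hq hpq hb h
    · rw [add_comm, add_comm a b]
      exact key hq hp (by rw [add_comm]; exact hpq) ha h
  rcases le_total 0 a with ha | ha
  · rcases eq_or_lt_of_le ha with h0 | h0
    · rw [← h0]
      simp [N_smul, hq]
    · have hb : 0 ≤ b := nonneg_of_mul_nonneg_right hab h0
      rw [key2 ha hb, abs_of_nonneg ha, abs_of_nonneg hb]
  · rcases eq_or_lt_of_le ha with h0 | h0
    · rw [h0]
      simp [N_smul, hq]
    · have hb : b ≤ 0 := by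
        by_contra hb
        push Not at hb
        exact absurd hab (not_le.2 (mul_neg_of_neg_of_pos h0 hb))
      have h3 : a • p + b • q = - ((-a) • p + (-b) • q) := by
        rw [neg_smul, neg_smul]; abel
      rw [h3, N_neg, key2 (by linarith) (by linarith), abs_of_nonpos ha, abs_of_nonpos hb]

/-- The six test vectors. -/
def tv (s : ℝ) : Fin 6 → ℝ × ℝ := ![v1, v2 s, v3 s, v1 + v2 s, v2 s + v3 s, v3 s - v1]

/-- Their norms. -/
def nv : Fin 6 → ℝ := ![1, 1, 1, 2, 2, 2]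

lemma N_tv {s : ℝ} (h1 : 1 ≤ s) (h2 : s ≤ 2) (i : Fin 6) : N s (tv s i) = nv i := by
  fin_cases i
  · exact N_v1 h1 h2
  · exact N_v2 h1 h2
  · exact N_v3 h1 h2
  · exact N_v12 h1 h2
  · exact N_v23 h1 h2
  · exact N_v31 h1 h2

/-- A linear map which preserves the norms of the six test vectors is an isometry. -/
lemma isometry_of_tv {s s' : ℝ} (h1 : 1 < s) (h2 : s < 2) (hs' : 0 < s')
    (M : (ℝ × ℝ) →ₗ[ℝ] (ℝ × ℝ)) (hM : ∀ i, N s' (M (tv s i)) = nv i) (x : ℝ × ℝ) :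
    N s' (M x) = N s x := by
  have m1 : N s' (M v1) = 1 := hM 0
  have m2 : N s' (M (v2 s)) = 1 := hM 1
  have m3 : N s' (M (v3 s)) = 1 := hM 2
  have m4 : N s' (M v1 + M (v2 s)) = 2 := by rw [← map_add]; exact hM 3
  have m5 : N s' (M (v2 s) + M (v3 s)) = 2 := by rw [← map_add]; exact hM 4
  have m6 : N s' (M (v3 s) - M v1) = 2 := by rw [← map_sub]; exact hM 5
  obtain ⟨a, b, p, q, rfl, hab, h⟩ := exists_comb h1 h2 x
  rw [map_add, map_smul, map_smul]
  rcases h with ⟨rfl, rfl⟩ | ⟨rfl, rfl⟩ | ⟨rfl, rfl⟩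
  · rw [N_cone hs' m1 m2 m4 hab, N_cone (by linarith) (N_v1 h1.le h2.le) (N_v2 h1.le h2.le)
      (N_v12 h1.le h2.le) hab]
  · rw [N_cone hs' m2 m3 m5 hab, N_cone (by linarith) (N_v2 h1.le h2.le) (N_v3 h1.le h2.le)
      (N_v23 h1.le h2.le) hab]
  · rw [N_cone hs' m3 (by rw [map_neg, N_neg]; exact m1) (by rw [map_neg, ← sub_eq_add_neg]; exact m6)
      hab, N_cone (by linarith) (N_v3 h1.le h2.le) (by rw [N_neg]; exact N_v1 h1.le h2.le)
      (by rw [← sub_eq_add_neg]; exact N_v31 h1.le h2.le) hab]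

/-- Hexagonal norms with different parameters are not isometric. -/
lemma param_eq {s s' : ℝ} (h1 : 1 < s) (h1' : 1 ≤ s') (h2 : s < 2) (h2' : s' ≤ 2)
    (M : (ℝ × ℝ) →ₗ[ℝ] (ℝ × ℝ)) (hM : ∀ x, N s' (M x) = N s x) : s = s' := by
  have hinj : Function.Injective M := by
    rw [injective_iff_map_eq_zero]
    intro x hx
    have h := hM x
    rw [hx, N_zero] at h
    have h3 := norm_le_N s x
    rw [← h] at h3
    exact norm_le_zero_iff.1 h3
  have hsurj : Function.Surjective M := LinearMap.injective_iff_surjective.1 hinj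
  refine le_antisymm ?_ ?_
  · have h := facet_len h1' (x := M v1) (y := M (v2 s)) (by rw [hM]; exact N_v1 h1.le h2.le)
      (by rw [hM]; exact N_v2 h1.le h2.le) (by rw [← map_add, hM]; exact N_v12 h1.le h2.le)
    rw [← map_sub, hM, N_v1_sub_v2 h1.le h2.le] at h
    exact h
  · obtain ⟨x, hx⟩ := hsurj v1
    obtain ⟨y, hy⟩ := hsurj (v2 s')
    have h := facet_len h1.le (x := x) (y := y) (by rw [← hM, hx]; exact N_v1 h1' h2')
      (by rw [← hM, hy]; exact N_v2 h1' h2') (by rw [← hM, map_add, hx, hy]; exact N_v12 h1' h2')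
    rw [← hM, map_sub, hx, hy, N_v1_sub_v2 h1' h2'] at h
    exact h

/-! ### Compactness of the set of plane matrices -/

/-- The linear map with given values at the two unit vectors. -/
noncomputable def ap (M : (ℝ × ℝ) × (ℝ × ℝ)) : (ℝ × ℝ) →ₗ[ℝ] (ℝ × ℝ) where
  toFun x := x.1 • M.1 + x.2 • M.2
  map_add' x y := by
    simp only [Prod.fst_add, Prod.snd_add, add_smul]; abel
  map_smul' c x := by
    simp only [Prod.smul_fst, Prod.smul_snd, smul_eq_mul, RingHom.id_apply, smul_add, mul_smul]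

lemma ap_apply (M : (ℝ × ℝ) × (ℝ × ℝ)) (x : ℝ × ℝ) : ap M x = x.1 • M.1 + x.2 • M.2 := rfl

/-- The matrix of a linear map. -/
def mat (L : (ℝ × ℝ) →ₗ[ℝ] (ℝ × ℝ)) : (ℝ × ℝ) × (ℝ × ℝ) := (L (1, 0), L (0, 1))

lemma ap_mat (L : (ℝ × ℝ) →ₗ[ℝ] (ℝ × ℝ)) : ap (mat L) = L := by
  ext x <;> simp [ap_apply, mat]

lemma tendsto_ap {ι : Type*} {l : Filter ι} {M : ι → (ℝ × ℝ) × (ℝ × ℝ)}
    {M' : (ℝ × ℝ) × (ℝ × ℝ)} (h : Tendsto M l (𝓝 M')) (x : ℝ × ℝ) :
    Tendsto (fun i => ap (M i) x) l (𝓝 (ap M' x)) := by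
  have h1 : Tendsto (fun i => (M i).1) l (𝓝 M'.1) := (continuous_fst.tendsto M').comp h
  have h2 : Tendsto (fun i => (M i).2) l (𝓝 M'.2) := (continuous_snd.tendsto M').comp h
  simp only [ap_apply]
  exact (h1.const_smul x.1).add (h2.const_smul x.2)

lemma norm_ap_le (M : (ℝ × ℝ) × (ℝ × ℝ)) (x : ℝ × ℝ) : ‖ap M x‖ ≤ 2 * ‖M‖ * ‖x‖ := by
  rw [ap_apply]
  have h1 : ‖x.1‖ ≤ ‖x‖ := norm_fst_le x
  have h2 : ‖x.2‖ ≤ ‖x‖ := norm_snd_le x
  have h3 : ‖M.1‖ ≤ ‖M‖ := norm_fst_le M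
  have h4 : ‖M.2‖ ≤ ‖M‖ := norm_snd_le M
  refine (norm_add_le _ _).trans ?_
  rw [norm_smul, norm_smul]
  have h5 : ‖x.1‖ * ‖M.1‖ ≤ ‖x‖ * ‖M‖ := mul_le_mul h1 h3 (norm_nonneg _) (norm_nonneg _)
  have h6 : ‖x.2‖ * ‖M.2‖ ≤ ‖x‖ * ‖M‖ := mul_le_mul h2 h4 (norm_nonneg _) (norm_nonneg _)
  linarith

/-- A linear map which is bounded by `K` on `v1` and `v2` has bounded matrix. -/
lemma norm_mat_le {s s' K : ℝ} (h1 : 1 < s) (h2 : s < 2) (hs' : 0 < s')
    (L : (ℝ × ℝ) →ₗ[ℝ] (ℝ × ℝ)) (k1 : N s' (L v1) ≤ K) (k2 : N s' (L (v2 s)) ≤ K) :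
    ‖mat L‖ ≤ 2 * K := by
  have hK : 0 ≤ K := (N_nonneg _ _).trans k1
  have hs : s ≠ 0 := by linarith
  have e1 : ((1, 0) : ℝ × ℝ) = ((s - 1) / s) • v1 + (1 / s) • v2 s := by
    ext
    · simp only [v1, v2, Prod.fst_add, Prod.smul_fst, smul_eq_mul]; field_simp; ring
    · simp only [v1, v2, Prod.snd_add, Prod.smul_snd, smul_eq_mul]; field_simp; ring
  have e2 : ((0, 1) : ℝ × ℝ) = (-(1 / s)) • v1 + (1 / s) • v2 s := by
    ext
    · simp only [v1, v2, Prod.fst_add, Prod.smul_fst, smul_eq_mul]; field_simp; ring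
    · simp only [v1, v2, Prod.snd_add, Prod.smul_snd, smul_eq_mul]; field_simp; ring
  have hs1 : 0 ≤ 1 / s := by positivity
  have hs2 : 1 / s ≤ 1 := by rw [div_le_one (by linarith)]; exact h1.le
  have hs3 : 0 ≤ (s - 1) / s := div_nonneg (by linarith) (by linarith)
  have hs4 : (s - 1) / s ≤ 1 := by rw [div_le_one (by linarith)]; linarith
  rw [Prod.norm_def]
  refine max_le ?_ ?_
  · show ‖L (1, 0)‖ ≤ _
    refine (norm_le_N s' _).trans ?_
    rw [e1, map_add, map_smul, map_smul]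
    refine (N_add hs' _ _).trans ?_
    rw [N_smul, N_smul, abs_of_nonneg hs3, abs_of_nonneg hs1]
    have := mul_le_mul hs4 k1 (N_nonneg _ _) zero_le_one
    have := mul_le_mul hs2 k2 (N_nonneg _ _) zero_le_one
    linarith
  · show ‖L (0, 1)‖ ≤ _
    refine (norm_le_N s' _).trans ?_
    rw [e2, map_add, map_smul, map_smul]
    refine (N_add hs' _ _).trans ?_
    rw [N_smul, N_smul, abs_neg, abs_of_nonneg hs1]
    have := mul_le_mul hs2 k1 (N_nonneg _ _) zero_le_one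
    have := mul_le_mul hs2 k2 (N_nonneg _ _) zero_le_one
    linarith

end Q101.Hex
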