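import Pool.Agent.Q101.HexA

/-!
# Rigidity of the hexagonal planes by compactness
-/

namespace Q101.Hex

open Filter Topology

/-- The parameters of the sequence of hexagonal planes. -/
noncomputable def σ (n : ℕ) : ℝ := 1 + 1 / ((n : ℝ) + 2)

lemma one_lt (n : ℕ) : 1 < σ n := by
  unfold σ
  have : (0 : ℝ) < 1 / ((n : ℝ) + 2) := by positivity
  linarith

lemma lt_two (n : ℕ) : σ n < 2 := by
  unfold σ
  have : 1 / ((n : ℝ) + 2) < 1 := by
    rw [div_lt_one (by positivity)]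
    have : (0 : ℝ) ≤ n := Nat.cast_nonneg n
    linarith
  linarith

lemma sep (m : ℕ) : ∃ d : ℝ, 0 < d ∧ ∀ n, n ≠ m → d ≤ |σ n - σ m| := by
  refine ⟨1 / (((m : ℝ) + 2) * ((m : ℝ) + 3)), by positivity, fun n hn => ?_⟩
  have hm : (0 : ℝ) ≤ m := Nat.cast_nonneg m
  have hn0 : (0 : ℝ) ≤ n := Nat.cast_nonneg n
  have e : σ n - σ m = ((m : ℝ) - n) / (((n : ℝ) + 2) * ((m : ℝ) + 2)) := by
    unfold σ
    field_simp
    ring
  rw [e, abs_div, abs_of_pos (a := ((n : ℝ) + 2) * ((m : ℝ) + 2)) (by positivity),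
    div_le_div_iff₀ (by positivity) (by positivity), one_mul]
  rcases lt_or_gt_of_ne hn with h | h
  · have h1 : (n : ℝ) + 1 ≤ m := by exact_mod_cast h
    rw [abs_of_nonneg (by linarith)]
    nlinarith [mul_nonneg hm hn0, mul_nonneg (sub_nonneg.2 h1) hm, mul_nonneg (sub_nonneg.2 h1) hn0,
      mul_nonneg (mul_nonneg (sub_nonneg.2 h1) hm) hm]
  · have h1 : (m : ℝ) + 1 ≤ n := by exact_mod_cast h
    rw [abs_of_nonpos (by linarith)]
    nlinarith [mul_nonneg hm hn0, mul_nonneg (sub_nonneg.2 h1) hm, mul_nonneg (sub_nonneg.2 h1) hn0,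
      mul_nonneg (mul_nonneg (sub_nonneg.2 h1) hm) hm]

lemma kappa_aux (m : ℕ) : ∃ κ : ℝ, 0 < κ ∧ ∀ n, n ≠ m → ∀ L : (ℝ × ℝ) →ₗ[ℝ] (ℝ × ℝ),
    κ ≤ ∑ i, (N (σ n) (L (tv (σ m) i)) - nv i) ^ 2 := by
  by_contra hcon
  push Not at hcon
  have hj : ∀ j : ℕ, ∃ n, n ≠ m ∧ ∃ L : (ℝ × ℝ) →ₗ[ℝ] (ℝ × ℝ),
      ∑ i, (N (σ n) (L (tv (σ m) i)) - nv i) ^ 2 < 1 / ((j : ℝ) + 1) :=
    fun j => hcon _ (by positivity)
  choose n hn L hL using hj
  have hterm : ∀ j i, (N (σ (n j)) (L j (tv (σ m) i)) - nv i) ^ 2 < 1 / ((j : ℝ) + 1) := by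
    intro j i
    refine lt_of_le_of_lt ?_ (hL j)
    exact Finset.single_le_sum (f := fun i => (N (σ (n j)) (L j (tv (σ m) i)) - nv i) ^ 2)
      (fun i _ => sq_nonneg _) (Finset.mem_univ i)
  have hterm1 : ∀ j i, |N (σ (n j)) (L j (tv (σ m) i)) - nv i| < 1 := by
    intro j i
    have h1 : 1 / ((j : ℝ) + 1) ≤ 1 := by
      rw [div_le_one (by positivity)]
      have : (0 : ℝ) ≤ j := Nat.cast_nonneg j
      linarith
    have h2 := (hterm j i).trans_le h1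
    rw [← sq_abs] at h2
    nlinarith [abs_nonneg (N (σ (n j)) (L j (tv (σ m) i)) - nv i)]
  have hbd : ∀ j, ‖mat (L j)‖ ≤ 4 := by
    intro j
    have h1 := hterm1 j 0
    have h2 := hterm1 j 1
    rw [abs_lt] at h1 h2
    have h1' : N (σ (n j)) (L j v1) - 1 < 1 := h1.2
    have h2' : N (σ (n j)) (L j (v2 (σ m))) - 1 < 1 := h2.2
    have := norm_mat_le (one_lt m) (lt_two m) (zero_lt_one.trans (one_lt (n j))) (L j) (K := 2)
      (by linarith) (by linarith)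
    linarith
  have hcpt : IsCompact (Set.Icc (1 : ℝ) 2 ×ˢ Metric.closedBall (0 : (ℝ × ℝ) × (ℝ × ℝ)) 4) :=
    isCompact_Icc.prod (isCompact_closedBall _ _)
  obtain ⟨⟨s', M⟩, hmem, φ, hφ, hlim⟩ := hcpt.tendsto_subseq
    (x := fun j => ((σ (n j), mat (L j)) : ℝ × ((ℝ × ℝ) × (ℝ × ℝ))))
    (fun j => ⟨⟨(one_lt _).le, (lt_two _).le⟩, by simpa using hbd j⟩)
  have hs : Tendsto (fun j => σ (n (φ j))) atTop (𝓝 s') :=
    (continuous_fst.tendsto (s', M)).comp hlim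
  have hM : Tendsto (fun j => mat (L (φ j))) atTop (𝓝 M) :=
    (continuous_snd.tendsto (s', M)).comp hlim
  have hs'1 : 1 ≤ s' := hmem.1.1
  have hs'2 : s' ≤ 2 := hmem.1.2
  have hval : ∀ i, N s' (ap M (tv (σ m) i)) = nv i := by
    intro i
    have h1 : Tendsto (fun j => N (σ (n (φ j))) (L (φ j) (tv (σ m) i))) atTop
        (𝓝 (N s' (ap M (tv (σ m) i)))) := by
      have := tendsto_N (by linarith) hs (tendsto_ap hM (tv (σ m) i))
      simpa only [ap_mat] using this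
    have h2 : Tendsto (fun j => (N (σ (n (φ j))) (L (φ j) (tv (σ m) i)) - nv i) ^ 2) atTop
        (𝓝 0) := by
      refine squeeze_zero (fun j => sq_nonneg _) (fun j => (hterm (φ j) i).le) ?_
      exact tendsto_one_div_add_atTop_nhds_zero_nat.comp hφ.tendsto_atTop
    have h3 : (N s' (ap M (tv (σ m) i)) - nv i) ^ 2 = 0 :=
      tendsto_nhds_unique ((h1.sub_const (nv i)).pow 2) h2
    have h4 := pow_eq_zero_iff (two_ne_zero) |>.1 h3
    linarith
  have hiso := isometry_of_tv (one_lt m) (lt_two m) (by linarith) (ap M) hval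
  have heq := param_eq (one_lt m) hs'1 (lt_two m) hs'2 (ap M) hiso
  obtain ⟨d, hd, hsep⟩ := sep m
  have h5 : d ≤ |s' - σ m| :=
    ge_of_tendsto ((hs.sub_const (σ m)).abs) (Eventually.of_forall fun j => hsep _ (hn _))
  rw [← heq, sub_self, abs_zero] at h5
  linarith

/-- A scaled copy of the `m`-th hexagonal plane is far from the `n`-th one. -/
lemma kappa (m : ℕ) : ∃ κ : ℝ, 0 < κ ∧ ∀ n, n ≠ m → ∀ L : (ℝ × ℝ) →ₗ[ℝ] (ℝ × ℝ), ∀ c : ℝ, 0 ≤ c →
    κ * c ^ 2 ≤ ∑ i, (N (σ n) (L (tv (σ m) i)) - c * nv i) ^ 2 := by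
  obtain ⟨κ, hκ, h⟩ := kappa_aux m
  refine ⟨κ, hκ, fun n hn L c hc => ?_⟩
  rcases eq_or_lt_of_le hc with h0 | h0
  · rw [← h0]
    simp only [ne_eq, OfNat.ofNat_ne_zero, not_false_eq_true, zero_pow, mul_zero, zero_mul, sub_zero]
    exact Finset.sum_nonneg fun i _ => sq_nonneg _
  · have h1 := h n hn (c⁻¹ • L)
    have h2 : ∀ i, (N (σ n) ((c⁻¹ • L) (tv (σ m) i)) - nv i) ^ 2 * c ^ 2
        = (N (σ n) (L (tv (σ m) i)) - c * nv i) ^ 2 := by
      intro i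
      rw [LinearMap.smul_apply, N_smul, abs_of_pos (inv_pos.2 h0), ← mul_pow]
      congr 1
      field_simp
    calc κ * c ^ 2 ≤ (∑ i, (N (σ n) ((c⁻¹ • L) (tv (σ m) i)) - nv i) ^ 2) * c ^ 2 :=
          mul_le_mul_of_nonneg_right h1 (sq_nonneg c)
      _ = _ := by rw [Finset.sum_mul]; exact Finset.sum_congr rfl fun i _ => h2 i

/-- Near isometries of a hexagonal plane are near isometries. -/
lemma comp (m : ℕ) {ε : ℝ} (hε : 0 < ε) : ∃ η : ℝ, 0 < η ∧ ∀ L : (ℝ × ℝ) →ₗ[ℝ] (ℝ × ℝ),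
    (∀ x, |N (σ m) (L x) - N (σ m) x| ≤ η * N (σ m) x) → ∃ U : (ℝ × ℝ) →ₗ[ℝ] (ℝ × ℝ),
      (∀ x, N (σ m) (U x) = N (σ m) x) ∧ ∀ x, N (σ m) (L x - U x) ≤ ε * N (σ m) x := by
  have h1m := one_lt m
  have h2m := lt_two m
  by_contra hcon
  push Not at hcon
  have hj : ∀ j : ℕ, ∃ L : (ℝ × ℝ) →ₗ[ℝ] (ℝ × ℝ),
      (∀ x, |N (σ m) (L x) - N (σ m) x| ≤ (1 / ((j : ℝ) + 1)) * N (σ m) x) ∧
      ∀ U : (ℝ × ℝ) →ₗ[ℝ] (ℝ × ℝ), (∀ x, N (σ m) (U x) = N (σ m) x) →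
        ∃ x, ε * N (σ m) x < N (σ m) (L x - U x) :=
    fun j => hcon _ (by positivity)
  choose L hL hU using hj
  have hle1 : ∀ j : ℕ, 1 / ((j : ℝ) + 1) ≤ 1 := by
    intro j
    rw [div_le_one (by positivity)]
    have : (0 : ℝ) ≤ j := Nat.cast_nonneg j
    linarith
  have hbd : ∀ j, ‖mat (L j)‖ ≤ 4 := by
    intro j
    have h3 : ∀ x, N (σ m) x = 1 → N (σ m) (L j x) ≤ 2 := by
      intro x hx
      have := (abs_le.1 (hL j x)).2
      rw [hx, mul_one] at this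
      have := hle1 j
      linarith
    have := norm_mat_le h1m h2m (by linarith) (L j) (h3 _ (N_v1 h1m.le h2m.le))
      (h3 _ (N_v2 h1m.le h2m.le))
    linarith
  have hcpt : IsCompact (Metric.closedBall (0 : (ℝ × ℝ) × (ℝ × ℝ)) 4) := isCompact_closedBall _ _
  obtain ⟨M, -, φ, hφ, hM⟩ := hcpt.tendsto_subseq (x := fun j => mat (L j))
    (fun j => by simpa using hbd j)
  have hiso : ∀ x, N (σ m) (ap M x) = N (σ m) x := by
    intro x
    have h1 : Tendsto (fun j => N (σ m) (L (φ j) x)) atTop (𝓝 (N (σ m) (ap M x))) := by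
      have := tendsto_N (by linarith) (tendsto_const_nhds (x := σ m)) (tendsto_ap hM x)
      simpa only [Function.comp_apply, ap_mat] using this
    have h2 : Tendsto (fun j => |N (σ m) (L (φ j) x) - N (σ m) x|) atTop (𝓝 0) := by
      refine squeeze_zero (fun j => abs_nonneg _) (fun j => hL (φ j) x) ?_
      have := (tendsto_one_div_add_atTop_nhds_zero_nat (𝕜 := ℝ)).comp hφ.tendsto_atTop
      simpa using this.mul_const (N (σ m) x)
    have h3 : |N (σ m) (ap M x) - N (σ m) x| = 0 :=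
      tendsto_nhds_unique ((h1.sub_const _).abs) h2
    have h4 := abs_eq_zero.1 h3
    linarith
  -- the distance of the maps tends to zero
  have hd : Tendsto (fun j => ‖mat (L (φ j)) - M‖) atTop (𝓝 0) := by
    have := (tendsto_iff_norm_sub_tendsto_zero.1 hM)
    simpa using this
  obtain ⟨j, hj⟩ := (hd.eventually (gt_mem_nhds (show (0 : ℝ) < ε / 4 by positivity))).exists
  obtain ⟨x, hx⟩ := hU (φ j) (ap M) hiso
  have h5 : L (φ j) x - ap M x = ap (mat (L (φ j)) - M) x := by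
    have : L (φ j) x = ap (mat (L (φ j))) x := by rw [ap_mat]
    rw [this]
    simp only [ap_apply, Prod.fst_sub, Prod.snd_sub, smul_sub]
    abel
  have h6 := N_le_norm h1m.le (L (φ j) x - ap M x)
  have h7 := norm_ap_le (mat (L (φ j)) - M) x
  rw [← h5] at h7
  have h8 := norm_le_N (σ m) x
  have h9 : 0 ≤ ‖x‖ := norm_nonneg x
  have h10 : 0 ≤ ‖mat (L (φ j)) - M‖ := norm_nonneg _
  have h11 : ‖mat (L (φ j)) - M‖ * ‖x‖ ≤ (ε / 4) * N (σ m) x :=
    mul_le_mul hj.le h8 h9 (by positivity)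
  nlinarith

end Q101.Hex
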