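import Pool.Agent.Q101.HexB

/-!
# The `ℓ₂`-sum of the hexagonal planes and its rigidity
-/

namespace Q101.Hex

open Filter Topology
open scoped ENNReal

/-- The `n`-th hexagonal plane. -/
def Hx (_n : ℕ) : Type := ℝ × ℝ

instance (n : ℕ) : AddCommGroup (Hx n) := inferInstanceAs (AddCommGroup (ℝ × ℝ))
instance (n : ℕ) : Module ℝ (Hx n) := inferInstanceAs (Module ℝ (ℝ × ℝ))
instance (n : ℕ) : FiniteDimensional ℝ (Hx n) := inferInstanceAs (FiniteDimensional ℝ (ℝ × ℝ))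

/-- The norm of the `n`-th hexagonal plane. -/
noncomputable def gn (n : ℕ) : AddGroupNorm (Hx n) where
  toFun x := N (σ n) x
  map_zero' := N_zero _
  add_le' x y := N_add (zero_lt_one.trans (one_lt n)) x y
  neg' x := N_neg _ x
  eq_zero_of_map_eq_zero' x hx := by
    have h := norm_le_N (σ n) x
    have hx' : N (σ n) x = 0 := hx
    rw [hx'] at h
    exact norm_le_zero_iff.1 h

noncomputable instance (n : ℕ) : NormedAddCommGroup (Hx n) := (gn n).toNormedAddCommGroup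

lemma norm_def (n : ℕ) (x : Hx n) : ‖x‖ = N (σ n) x := rfl

noncomputable instance (n : ℕ) : NormedSpace ℝ (Hx n) where
  norm_smul_le c x := by
    rw [norm_def, norm_def]
    exact (N_smul (σ n) c x).le

/-- The `ℓ₂`-sum of the hexagonal planes. -/
abbrev X : Type := lp Hx 2

instance : Fact ((1 : ℝ≥0∞) ≤ 2) := ⟨by norm_num⟩

lemma hasSum_sq {E : ℕ → Type*} [∀ i, NormedAddCommGroup (E i)] (x : lp E 2) :
    HasSum (fun n => ‖x n‖ ^ 2) (‖x‖ ^ 2) := by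
  have := lp.hasSum_norm (p := 2) (by norm_num) x
  simpa using this

lemma mem2 {E : ℕ → Type*} [∀ i, NormedAddCommGroup (E i)] {f : ∀ i, E i} {a : ℝ}
    (h : HasSum (fun n => ‖f n‖ ^ 2) a) : Memℓp f 2 := by
  rw [memℓp_gen_iff (by norm_num)]
  have := h.summable
  simpa using this

/-- The modulus of a vector of `X`. -/
noncomputable def md (x : X) : lp (fun _ : ℕ => ℝ) 2 :=
  ⟨fun n => ‖x n‖, mem2 (a := ‖x‖ ^ 2) (by simpa using hasSum_sq x)⟩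

lemma md_apply (x : X) (n : ℕ) : md x n = ‖x n‖ := rfl

lemma norm_md (x : X) : ‖md x‖ = ‖x‖ := by
  have h1 := hasSum_sq (md x)
  have h2 := hasSum_sq x
  simp only [md_apply, norm_norm] at h1
  have h3 := h1.unique h2
  exact (sq_eq_sq₀ (norm_nonneg _) (norm_nonneg _)).1 h3

lemma md_neg (x : X) : md (-x) = md x := by
  ext n
  rw [md_apply, md_apply, lp.coeFn_neg, Pi.neg_apply, norm_neg]

/-- `ℓ₂` estimate from a pointwise one. -/
lemma sq_le_of_pointwise {E F : ℕ → Type*} [∀ i, NormedAddCommGroup (E i)]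
    [∀ i, NormedAddCommGroup (F i)] (x : lp E 2) (y : lp F 2) (h : ∀ n, ‖x n‖ ≤ ‖y n‖) :
    ‖x‖ ≤ ‖y‖ := by
  have h3 : ‖x‖ ^ 2 ≤ ‖y‖ ^ 2 :=
    hasSum_le (fun n => pow_le_pow_left₀ (norm_nonneg _) (h n) 2) (hasSum_sq x) (hasSum_sq y)
  exact (sq_le_sq₀ (norm_nonneg _) (norm_nonneg _)).1 h3

lemma norm_md_add_le (x y : X) : ‖x + y‖ ≤ ‖md x + md y‖ := by
  refine sq_le_of_pointwise (x + y) (md x + md y) fun n => ?_
  rw [lp.coeFn_add, lp.coeFn_add, Pi.add_apply, Pi.add_apply, md_apply, md_apply,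
    Real.norm_of_nonneg (by positivity)]
  exact norm_add_le _ _

section pair
variable {m : ℕ} (T : Hx m →ₗ[ℝ] X) {η : ℝ} (hη : 0 ≤ η) (hη1 : η ≤ 1)
  (hT : ∀ x, |‖T x‖ - ‖x‖| ≤ η * ‖x‖)
  {p q : Hx m} (hp : ‖p‖ = 1) (hq : ‖q‖ = 1) (hpq : ‖p + q‖ = 2)
include hη hη1 hT hp hq hpq

lemma sq_md_sub : ‖md (T p) - md (T q)‖ ^ 2 ≤ 16 * η := by
  have h1 := (abs_le.1 (hT p)).2
  have h2 := (abs_le.1 (hT q)).2
  have h3 := (abs_le.1 (hT (p + q))).1
  rw [hp] at h1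
  rw [hq] at h2
  rw [hpq, map_add] at h3
  have h4 := parallelogram_law_with_norm ℝ (md (T p)) (md (T q))
  have h5 := norm_md_add_le (T p) (T q)
  rw [norm_md, norm_md] at h4
  have n1 : 0 ≤ ‖T p‖ := norm_nonneg _
  have n2 : 0 ≤ ‖T q‖ := norm_nonneg _
  have n3 : 2 * (1 - η) ≤ ‖md (T p) + md (T q)‖ := by linarith
  have n4 : (2 * (1 - η)) * (2 * (1 - η)) ≤ ‖md (T p) + md (T q)‖ * ‖md (T p) + md (T q)‖ :=
    mul_self_le_mul_self (by linarith) n3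
  have n5 : ‖T p‖ * ‖T p‖ ≤ (1 + η) * (1 + η) := mul_self_le_mul_self n1 (by linarith)
  have n6 : ‖T q‖ * ‖T q‖ ≤ (1 + η) * (1 + η) := mul_self_le_mul_self n2 (by linarith)
  rw [sq]
  nlinarith

lemma sq_md_add : ‖md (T p) + md (T q) - md (T (p + q))‖ ^ 2 ≤ 16 * η := by
  have h1 := (abs_le.1 (hT p)).2
  have h2 := (abs_le.1 (hT q)).2
  have h3 := (abs_le.1 (hT (p + q))).1
  rw [hp] at h1
  rw [hq] at h2
  rw [hpq] at h3
  set B := md (T p) + md (T q) - md (T (p + q)) with hB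
  have hBn : ∀ n, B n = ‖T p n‖ + ‖T q n‖ - ‖T (p + q) n‖ := fun n => rfl
  have hBn0 : ∀ n, 0 ≤ B n := by
    intro n
    rw [hBn, map_add, lp.coeFn_add, Pi.add_apply]
    have := norm_add_le (T p n) (T q n)
    linarith
  have hsum1 := hasSum_sq B
  have hsum2 := hasSum_sq (md (T p) + md (T q))
  have hsum3 := hasSum_sq (md (T (p + q)))
  have hle : ‖B‖ ^ 2 ≤ ‖md (T p) + md (T q)‖ ^ 2 - ‖md (T (p + q))‖ ^ 2 := by
    refine hasSum_le (fun n => ?_) hsum1 (hsum2.sub hsum3)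
    have e1 : (md (T p) + md (T q)) n = B n + ‖T (p + q) n‖ := by
      rw [hBn]
      show ‖T p n‖ + ‖T q n‖ = _
      ring
    rw [e1, md_apply, Real.norm_of_nonneg (hBn0 n), Real.norm_of_nonneg (norm_nonneg _),
      Real.norm_of_nonneg (add_nonneg (hBn0 n) (norm_nonneg _))]
    nlinarith [mul_nonneg (hBn0 n) (norm_nonneg (T (p + q) n))]
  rw [norm_md] at hle
  have h5 : ‖md (T p) + md (T q)‖ ≤ 2 * (1 + η) := by
    refine (norm_add_le _ _).trans ?_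
    rw [norm_md, norm_md]
    linarith
  have n4 : (2 * (1 - η)) * (2 * (1 - η)) ≤ ‖T (p + q)‖ * ‖T (p + q)‖ :=
    mul_self_le_mul_self (by linarith) (by linarith)
  have n5 : ‖md (T p) + md (T q)‖ * ‖md (T p) + md (T q)‖ ≤ (2 * (1 + η)) * (2 * (1 + η)) :=
    mul_self_le_mul_self (norm_nonneg _) h5
  nlinarith

end pair

/-- The error vectors of a near isometry. -/
noncomputable def err {m : ℕ} (T : Hx m →ₗ[ℝ] X) (i : Fin 6) : lp (fun _ : ℕ => ℝ) 2 :=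
  md (T (tv (σ m) i)) - nv i • md (T (v1 : ℝ × ℝ))

lemma err_apply {m : ℕ} (T : Hx m →ₗ[ℝ] X) (i : Fin 6) (n : ℕ) :
    err T i n = ‖T (tv (σ m) i) n‖ - ‖T (v1 : ℝ × ℝ) n‖ * nv i := by
  rw [mul_comm]
  rfl

lemma err_le {m : ℕ} (T : Hx m →ₗ[ℝ] X) {η : ℝ} (hη : 0 ≤ η) (hη1 : η ≤ 1)
    (hT : ∀ x, |‖T x‖ - ‖x‖| ≤ η * ‖x‖) (i : Fin 6) : ‖err T i‖ ≤ 12 * √η := by
  have h1m := one_lt m
  have h2m := lt_two m
  set s := σ m with hs
  let a1 : Hx m := (v1 : ℝ × ℝ)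
  let a2 : Hx m := v2 s
  let a3 : Hx m := v3 s
  have n1 : ‖a1‖ = 1 := N_v1 h1m.le h2m.le
  have n2 : ‖a2‖ = 1 := N_v2 h1m.le h2m.le
  have n3 : ‖a3‖ = 1 := N_v3 h1m.le h2m.le
  have n12 : ‖a1 + a2‖ = 2 := N_v12 h1m.le h2m.le
  have n23 : ‖a2 + a3‖ = 2 := N_v23 h1m.le h2m.le
  have n31 : ‖a3 - a1‖ = 2 := N_v31 h1m.le h2m.le
  have n1' : ‖-a1‖ = 1 := by rw [norm_neg, n1]
  have n31' : ‖a3 + -a1‖ = 2 := by rw [← sub_eq_add_neg, n31]
  have conv : ∀ {z : lp (fun _ : ℕ => ℝ) 2}, ‖z‖ ^ 2 ≤ 16 * η → ‖z‖ ≤ 4 * √η := by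
    intro z hz
    refine le_of_sq_le_sq ?_ (by positivity)
    rw [mul_pow, Real.sq_sqrt hη]
    linarith
  have p12 := conv (sq_md_sub T hη hη1 hT n1 n2 n12)
  have q12 := conv (sq_md_add T hη hη1 hT n1 n2 n12)
  have q23 := conv (sq_md_add T hη hη1 hT n2 n3 n23)
  have p31 := conv (sq_md_sub T hη hη1 hT n3 n1' n31')
  have q31 := conv (sq_md_add T hη hη1 hT n3 n1' n31')
  rw [map_neg, md_neg] at p31 q31
  rw [norm_sub_rev] at p12
  rw [← sub_eq_add_neg] at q31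
  have hr : 0 ≤ √η := Real.sqrt_nonneg _
  have key : ∀ {z w : lp (fun _ : ℕ => ℝ) 2} {c : ℝ}, z = w → ‖w‖ ≤ c → c ≤ 12 * √η →
      ‖z‖ ≤ 12 * √η := fun h h1 h2 => h ▸ h1.trans h2
  fin_cases i
  · refine key (w := 0) ?_ (norm_zero.le) (by positivity)
    show md (T a1) - (1 : ℝ) • md (T a1) = 0
    rw [one_smul, sub_self]
  · refine key (w := md (T a2) - md (T a1)) ?_ p12 (by linarith)
    show md (T a2) - (1 : ℝ) • md (T a1) = _
    rw [one_smul]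
  · refine key (w := md (T a3) - md (T a1)) ?_ p31 (by linarith)
    show md (T a3) - (1 : ℝ) • md (T a1) = _
    rw [one_smul]
  · refine key (w := (md (T a2) - md (T a1)) - (md (T a1) + md (T a2) - md (T (a1 + a2)))) ?_
      ((norm_sub_le _ _).trans (add_le_add p12 q12)) (by linarith)
    show md (T (a1 + a2)) - (2 : ℝ) • md (T a1) = _
    rw [two_smul]
    abel
  · refine key (w := ((md (T a2) - md (T a1)) + (md (T a3) - md (T a1)))
      - (md (T a2) + md (T a3) - md (T (a2 + a3)))) ?_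
      ((norm_sub_le _ _).trans (add_le_add ((norm_add_le _ _).trans (add_le_add p12 p31)) q23))
      (by linarith)
    show md (T (a2 + a3)) - (2 : ℝ) • md (T a1) = _
    rw [two_smul]
    abel
  · refine key (w := (md (T a3) - md (T a1)) - (md (T a3) + md (T a1) - md (T (a3 - a1)))) ?_
      ((norm_sub_le _ _).trans (add_le_add p31 q31)) (by linarith)
    show md (T (a3 - a1)) - (2 : ℝ) • md (T a1) = _
    rw [two_smul]
    abel

/-- Coordinates with respect to `v1` and `v2`. -/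
lemma exists_coord (m : ℕ) (x : Hx m) : ∃ a b : ℝ,
    x = a • (show Hx m from v1) + b • (show Hx m from v2 (σ m)) ∧ |a| ≤ 2 * ‖x‖ ∧ |b| ≤ ‖x‖ := by
  have h1m := one_lt m
  have hs : σ m ≠ 0 := by linarith
  have hs0 : 0 < σ m := by linarith
  obtain ⟨x1, x2⟩ := x
  have hb : |(x1 + x2) / σ m| ≤ N (σ m) (x1, x2) := by
    rw [abs_div, abs_of_pos hs0]
    exact abs_add_div_le (σ m) (x1, x2)
  have ha : |x1| ≤ N (σ m) (x1, x2) := abs_fst_le (σ m) (x1, x2)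
  refine ⟨x1 - (x1 + x2) / σ m, (x1 + x2) / σ m, ?_, ?_, hb⟩
  · show ((x1, x2) : ℝ × ℝ) = (x1 - (x1 + x2) / σ m) • v1 + ((x1 + x2) / σ m) • v2 (σ m)
    ext
    · simp only [v1, v2, Prod.fst_add, Prod.smul_fst, smul_eq_mul]; ring
    · simp only [v1, v2, Prod.snd_add, Prod.smul_snd, smul_eq_mul]; field_simp; ring
  · show |x1 - (x1 + x2) / σ m| ≤ 2 * N (σ m) (x1, x2)
    have := abs_sub x1 ((x1 + x2) / σ m)
    linarith

/-- Inclusion of the `m`-th plane. -/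
noncomputable def inc (m : ℕ) : Hx m →ₗ[ℝ] X := lp.lsingle (𝕜 := ℝ) 2 m

lemma inc_self (m : ℕ) (x : Hx m) : inc m x m = x := lp.single_apply_self _ _ _

lemma inc_ne {m n : ℕ} (h : n ≠ m) (x : Hx m) : inc m x n = 0 := lp.single_apply_ne _ _ _ h

lemma norm_inc (m : ℕ) (x : Hx m) : ‖inc m x‖ = ‖x‖ := lp.norm_single (by norm_num) m x

/-- The coordinate map. -/
noncomputable def cd (n : ℕ) : X →ₗ[ℝ] Hx n := (lp.evalCLM ℝ Hx 2 n).toLinearMap

lemma cd_apply (n : ℕ) (x : X) : cd n x = x n := rfl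

/-- Most of the mass of a near isometry of `Hx m` is in the `m`-th coordinate. -/
lemma mass {m : ℕ} {κ : ℝ} (hκ : 0 < κ) (hk : ∀ n, n ≠ m → ∀ L : (ℝ × ℝ) →ₗ[ℝ] (ℝ × ℝ),
      ∀ c : ℝ, 0 ≤ c → κ * c ^ 2 ≤ ∑ i, (N (σ n) (L (tv (σ m) i)) - c * nv i) ^ 2)
    (T : Hx m →ₗ[ℝ] X) {η : ℝ} (hη : 0 ≤ η) (hη1 : η ≤ 1)
    (hT : ∀ x, |‖T x‖ - ‖x‖| ≤ η * ‖x‖) (x : Hx m) :
    ‖T x - inc m (T x m)‖ ^ 2 ≤ ((18 * 864 / κ + 288) * η) * ‖x‖ ^ 2 := by
  obtain ⟨a, b, hx, ha, hb⟩ := exists_coord m x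
  set y := T x - inc m (T x m) with hy
  have hyn : ∀ n, n ≠ m → y n = T x n := by
    intro n hn
    rw [hy, lp.coeFn_sub, Pi.sub_apply, inc_ne hn, sub_zero]
  have hym : y m = 0 := by
    rw [hy, lp.coeFn_sub, Pi.sub_apply, inc_self, sub_self]
  -- pointwise estimate
  have hpt : ∀ n, ‖y n‖ ^ 2 ≤ ‖x‖ ^ 2 * ((18 / κ) * (∑ i, ‖err T i n‖ ^ 2)
      + 2 * ‖err T 1 n‖ ^ 2) := by
    intro n
    by_cases hn : n = m
    · subst hn
      rw [hym, norm_zero, zero_pow two_ne_zero]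
      positivity
    · set c := ‖T (v1 : ℝ × ℝ) n‖ with hc
      have hc0 : 0 ≤ c := norm_nonneg _
      have h1 : κ * c ^ 2 ≤ ∑ i, ‖err T i n‖ ^ 2 := by
        have := hk n hn ((cd n).comp T) c hc0
        refine this.trans (le_of_eq (Finset.sum_congr rfl fun i _ => ?_))
        rw [err_apply, Real.norm_eq_abs, sq_abs]
        rfl
      have h2 : ‖T x n‖ ≤ |a| * c + |b| * ‖T (v2 (σ m)) n‖ := by
        have e : T x n = a • T (show Hx m from v1) n + b • T (show Hx m from v2 (σ m)) n := by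
          conv_lhs => rw [hx]
          rw [map_add, map_smul, map_smul]
          rfl
        rw [e]
        refine (norm_add_le _ _).trans ?_
        rw [norm_smul, norm_smul]
        rfl
      have h3 : ‖T (v2 (σ m)) n‖ ≤ c + ‖err T 1 n‖ := by
        have e : err T 1 n = ‖T (v2 (σ m)) n‖ - c * 1 := err_apply T 1 n
        rw [e, mul_one]
        have := le_abs_self (‖T (v2 (σ m)) n‖ - c)
        rw [Real.norm_eq_abs]
        linarith
      have h4 : ‖T x n‖ ≤ ‖x‖ * (3 * c + ‖err T 1 n‖) := by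
        have g0 : 0 ≤ ‖x‖ := norm_nonneg x
        have g1 : |a| * c ≤ 2 * ‖x‖ * c := mul_le_mul_of_nonneg_right ha hc0
        have g2 : |b| * ‖T (v2 (σ m)) n‖ ≤ ‖x‖ * (c + ‖err T 1 n‖) :=
          mul_le_mul hb h3 (norm_nonneg _) g0
        nlinarith
      have h5 : ‖T x n‖ ^ 2 ≤ (‖x‖ * (3 * c + ‖err T 1 n‖)) ^ 2 :=
        pow_le_pow_left₀ (norm_nonneg _) h4 2
      have h6 : (3 * c + ‖err T 1 n‖) ^ 2 ≤ 18 * c ^ 2 + 2 * ‖err T 1 n‖ ^ 2 := by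
        nlinarith [sq_nonneg (3 * c - ‖err T 1 n‖)]
      have h7 : 18 * c ^ 2 ≤ (18 / κ) * (∑ i, ‖err T i n‖ ^ 2) := by
        rw [div_mul_eq_mul_div, le_div_iff₀ hκ]
        nlinarith
      rw [hyn n hn]
      refine h5.trans ?_
      rw [mul_pow]
      exact mul_le_mul_of_nonneg_left (by linarith) (sq_nonneg _)
  have hsum : HasSum (fun n => ‖x‖ ^ 2 * ((18 / κ) * (∑ i, ‖err T i n‖ ^ 2)
      + 2 * ‖err T 1 n‖ ^ 2)) (‖x‖ ^ 2 * ((18 / κ) * (∑ i, ‖err T i‖ ^ 2)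
      + 2 * ‖err T 1‖ ^ 2)) := by
    refine HasSum.mul_left _ (HasSum.add (HasSum.mul_left _ ?_) (HasSum.mul_left _ (hasSum_sq _)))
    exact hasSum_sum fun i _ => hasSum_sq (err T i)
  have h1 := hasSum_le hpt (hasSum_sq y) hsum
  have h2 : ∀ i, ‖err T i‖ ^ 2 ≤ 144 * η := by
    intro i
    have := pow_le_pow_left₀ (norm_nonneg _) (err_le T hη hη1 hT i) 2
    rw [mul_pow, Real.sq_sqrt hη] at this
    linarith
  have h3 : (∑ i, ‖err T i‖ ^ 2) ≤ 864 * η := by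
    calc (∑ i, ‖err T i‖ ^ 2) ≤ ∑ _i : Fin 6, 144 * η := Finset.sum_le_sum fun i _ => h2 i
      _ = 864 * η := by simp; ring
  refine h1.trans ?_
  rw [mul_comm]
  refine mul_le_mul_of_nonneg_right ?_ (sq_nonneg _)
  have h4 : (18 / κ) * (∑ i, ‖err T i‖ ^ 2) ≤ (18 / κ) * (864 * η) :=
    mul_le_mul_of_nonneg_left h3 (by positivity)
  have h5 : (18 * 864 / κ + 288) * η = (18 / κ) * (864 * η) + 288 * η := by ring
  rw [h5]
  have := h2 1
  linarith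

/-- **Rigidity.** Near isometric embeddings of the `m`-th plane are close to isometries of the
`m`-th plane. -/
theorem rigid (m : ℕ) {ε : ℝ} (hε : 0 < ε) : ∃ η : ℝ, 0 < η ∧ ∀ T : Hx m →ₗ[ℝ] X,
    (∀ x, |‖T x‖ - ‖x‖| ≤ η * ‖x‖) → ∃ u : Hx m ≃ₗᵢ[ℝ] Hx m, ∀ x,
      ‖T x - inc m (u x)‖ ≤ ε * ‖x‖ := by
  obtain ⟨κ, hκ, hk⟩ := kappa m
  obtain ⟨ηc, hηc, hc⟩ := comp m (half_pos hε)
  set K : ℝ := 18 * 864 / κ + 288 with hK
  have hK0 : 0 < K := by positivity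
  set ρ : ℝ := min (ηc / 2) (ε / 2) with hρ
  have hρ0 : 0 < ρ := lt_min (by positivity) (by positivity)
  refine ⟨min (min 1 (ηc / 2)) (ρ ^ 2 / K), by positivity, fun T hT => ?_⟩
  set η : ℝ := min (min 1 (ηc / 2)) (ρ ^ 2 / K) with hη
  have hη0 : 0 < η := by positivity
  have hη1 : η ≤ 1 := (min_le_left _ _).trans (min_le_left _ _)
  have hη2 : η ≤ ηc / 2 := (min_le_left _ _).trans (min_le_right _ _)
  have hη3 : K * η ≤ ρ ^ 2 := by
    have : η ≤ ρ ^ 2 / K := min_le_right _ _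
    rw [le_div_iff₀ hK0] at this
    linarith
  have hy : ∀ x, ‖T x - inc m (T x m)‖ ≤ ρ * ‖x‖ := by
    intro x
    have h1 := mass hκ hk T hη0.le hη1 hT x
    refine le_of_sq_le_sq (h1.trans ?_) (by positivity)
    rw [mul_pow]
    exact mul_le_mul_of_nonneg_right hη3 (sq_nonneg _)
  have hTm : ∀ x, |‖T x m‖ - ‖x‖| ≤ ηc * ‖x‖ := by
    intro x
    have h1 : |‖T x m‖ - ‖T x‖| ≤ ρ * ‖x‖ := by
      rw [← norm_inc m (T x m)]
      refine (abs_norm_sub_norm_le _ _).trans ?_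
      rw [norm_sub_rev]
      exact hy x
    have h2 := abs_sub_le ‖T x m‖ ‖T x‖ ‖x‖
    have h3 := hT x
    have h4 : ρ ≤ ηc / 2 := min_le_left _ _
    have h5 : ρ * ‖x‖ ≤ ηc / 2 * ‖x‖ := mul_le_mul_of_nonneg_right h4 (norm_nonneg _)
    have h6 : η * ‖x‖ ≤ ηc / 2 * ‖x‖ := mul_le_mul_of_nonneg_right hη2 (norm_nonneg _)
    linarith
  obtain ⟨U, hU1, hU2⟩ := hc ((cd m).comp T) hTm
  let U' : Hx m →ₗᵢ[ℝ] Hx m := { toLinearMap := (U : Hx m →ₗ[ℝ] Hx m), norm_map' := hU1 }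
  refine ⟨U'.toLinearIsometryEquiv rfl, fun x => ?_⟩
  have h1 : ‖T x m - U' x‖ ≤ ε / 2 * ‖x‖ := hU2 x
  have h2 : T x - inc m (U' x) = (T x - inc m (T x m)) + inc m (T x m - U' x) := by
    rw [map_sub]; abel
  rw [LinearIsometry.toLinearIsometryEquiv_apply, h2]
  refine (norm_add_le _ _).trans ?_
  rw [norm_inc]
  have h3 := hy x
  have h4 : ρ ≤ ε / 2 := min_le_right _ _
  have h5 : ρ * ‖x‖ ≤ ε / 2 * ‖x‖ := mul_le_mul_of_nonneg_right h4 (norm_nonneg _)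
  linarith

end Q101.Hex
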