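import Pool.Agent.Q101.HexC

/-!
# The `ℓ₂`-sum of the hexagonal planes is cofinally Fraisse and not omega-categorical
-/

namespace Q101.Hex

open Filter Topology
open scoped ENNReal

/-- The diagonal linear map of a family of isometries. -/
noncomputable def dgL (u : ∀ n, Hx n ≃ₗᵢ[ℝ] Hx n) : X →ₗ[ℝ] X where
  toFun x := ⟨fun n => u n (x n), mem2 (a := ‖x‖ ^ 2) (by
    simpa only [LinearIsometryEquiv.norm_map] using hasSum_sq x)⟩
  map_add' x y := by
    ext n
    exact (u n).map_add (x n) (y n)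
  map_smul' c x := by
    ext n
    exact (u n).map_smul c (x n)

lemma dgL_apply (u : ∀ n, Hx n ≃ₗᵢ[ℝ] Hx n) (x : X) (n : ℕ) : dgL u x n = u n (x n) := rfl

lemma norm_dgL (u : ∀ n, Hx n ≃ₗᵢ[ℝ] Hx n) (x : X) : ‖dgL u x‖ = ‖x‖ := by
  refine le_antisymm (sq_le_of_pointwise _ _ fun n => ?_) (sq_le_of_pointwise _ _ fun n => ?_) <;>
    rw [dgL_apply, LinearIsometryEquiv.norm_map]

/-- The diagonal isometry. -/
noncomputable def dg (u : ∀ n, Hx n ≃ₗᵢ[ℝ] Hx n) : X ≃ₗᵢ[ℝ] X where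
  toLinearEquiv :=
    { dgL u with
      invFun := dgL fun n => (u n).symm
      left_inv := fun x => by
        ext n
        show (u n).symm (u n (x n)) = x n
        simp
      right_inv := fun x => by
        ext n
        show u n ((u n).symm (x n)) = x n
        simp }
  norm_map' := norm_dgL u

lemma dg_apply (u : ∀ n, Hx n ≃ₗᵢ[ℝ] Hx n) (x : X) (n : ℕ) : dg u x n = u n (x n) := rfl

lemma dg_inc (u : ∀ n, Hx n ≃ₗᵢ[ℝ] Hx n) (m : ℕ) (x : Hx m) : dg u (inc m x) = inc m (u m x) := by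
  ext n
  rw [dg_apply]
  by_cases h : n = m
  · subst h
    rw [inc_self, inc_self]
  · rw [inc_ne h, inc_ne h, map_zero]

/-- The partial sum projections. -/
noncomputable def P (k : ℕ) : X →ₗ[ℝ] X := ∑ m ∈ Finset.range k, (inc m).comp (cd m)

lemma P_apply (k : ℕ) (x : X) : P k x = ∑ m ∈ Finset.range k, inc m (x m) := by
  simp only [P, LinearMap.sum_apply, LinearMap.comp_apply, cd_apply]

lemma tendsto_P (x : X) : Tendsto (fun k => P k x) atTop (𝓝 x) := by
  simp only [P_apply]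
  exact (lp.hasSum_single (p := 2) (by norm_num) x).tendsto_sum_nat

/-- Uniform approximation on finite-dimensional subspaces. -/
lemma tail_small (E : Submodule ℝ X) [FiniteDimensional ℝ E] {θ : ℝ} (hθ : 0 < θ) :
    ∃ k₀, ∀ k, k₀ ≤ k → ∀ x ∈ E, ‖x - P k x‖ ≤ θ * ‖x‖ := by
  let v := Module.finBasis ℝ E
  obtain ⟨C, hC, h⟩ := v.exists_opNorm_le (F := X)
  have h1 : ∀ i, ∀ᶠ k in atTop, ‖(v i : X) - P k (v i)‖ ≤ θ / C := by
    intro i
    have h2 : Tendsto (fun k => ‖(v i : X) - P k (v i)‖) atTop (𝓝 0) := by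
      have := (tendsto_const_nhds (x := (v i : X))).sub (tendsto_P (v i : X))
      rw [sub_self] at this
      simpa using this.norm
    exact (h2.eventually (gt_mem_nhds (show (0 : ℝ) < θ / C by positivity))).mono
      fun k hk => le_of_lt hk
  obtain ⟨k₀, hk₀⟩ := eventually_atTop.1 (eventually_all.2 h1)
  refine ⟨k₀, fun k hk x hx => ?_⟩
  let L : E →L[ℝ] X := LinearMap.toContinuousLinearMap ((LinearMap.id - P k).comp E.subtype)
  have hL : ∀ y : E, L y = (y : X) - P k y := fun y => rfl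
  have h3 : ‖L‖ ≤ C * (θ / C) := h (by positivity) fun i => by rw [hL]; exact hk₀ k hk i
  have h4 := L.le_opNorm ⟨x, hx⟩
  rw [hL] at h4
  have h5 : C * (θ / C) = θ := by field_simp
  rw [h5] at h3
  exact h4.trans (mul_le_mul_of_nonneg_right h3 (norm_nonneg _))

/-- A left inverse of a partial sum projection restricted to a finite-dimensional subspace. -/
lemma exists_left (E : Submodule ℝ X) [FiniteDimensional ℝ E] : ∃ k₁, ∃ Ψ : X →ₗ[ℝ] E,
    ∀ x : E, Ψ (P k₁ x) = x := by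
  obtain ⟨k₀, hk₀⟩ := tail_small E (θ := 1 / 2) (by norm_num)
  have hinj : LinearMap.ker ((P k₀).comp E.subtype) = ⊥ := by
    rw [LinearMap.ker_eq_bot']
    intro x hx
    have h := hk₀ k₀ le_rfl x x.2
    have hx' : P k₀ (x : X) = 0 := hx
    rw [hx', sub_zero] at h
    have h2 : ‖(x : X)‖ = 0 := by
      have := norm_nonneg (x : X)
      linarith
    exact Subtype.ext (norm_eq_zero.1 h2)
  obtain ⟨Ψ, hΨ⟩ := LinearMap.exists_leftInverse_of_injective _ hinj
  exact ⟨k₀, Ψ, fun x => LinearMap.congr_fun hΨ x⟩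

/-- A finite-dimensional subspace is contained in a small perturbation of a finite sum of
hexagonal planes. -/
lemma exists_graph (E : Submodule ℝ X) [FiniteDimensional ℝ E] : ∃ k₁ : ℕ, ∀ θ : ℝ, 0 < θ →
    ∃ k : ℕ, k₁ ≤ k ∧ ∃ R : ∀ m, Hx m →ₗ[ℝ] X,
      (∀ m, m < k₁ → ∀ x, ‖R m x - inc m x‖ ≤ θ * ‖x‖) ∧
      (∀ m, k₁ ≤ m → R m = inc m) ∧
      ∀ x ∈ E, x = ∑ m ∈ Finset.range k, R m (x m) := by
  obtain ⟨k₁, Ψ, hΨ⟩ := exists_left E
  refine ⟨k₁, fun θ hθ => ?_⟩
  -- bounds for the left inverse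
  have hb : ∃ K : ℝ, 0 < K ∧ ∀ m, m < k₁ → ∀ x : Hx m, ‖Ψ (inc m x)‖ ≤ K * ‖x‖ := by
    have : ∀ m : ℕ, ∃ K : ℝ, 0 ≤ K ∧ ∀ x : Hx m, ‖Ψ (inc m x)‖ ≤ K * ‖x‖ := fun m =>
      ⟨‖LinearMap.toContinuousLinearMap (Ψ.comp (inc m))‖,
        norm_nonneg (LinearMap.toContinuousLinearMap (Ψ.comp (inc m))),
        fun x => (LinearMap.toContinuousLinearMap (Ψ.comp (inc m))).le_opNorm x⟩
    choose K hK0 hK using this
    refine ⟨∑ m ∈ Finset.range k₁, K m + 1, ?_, fun m hm x => (hK m x).trans ?_⟩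
    · have : 0 ≤ ∑ m ∈ Finset.range k₁, K m := Finset.sum_nonneg fun i _ => hK0 i
      linarith
    · have : K m ≤ ∑ m ∈ Finset.range k₁, K m :=
        Finset.single_le_sum (fun i _ => hK0 i) (Finset.mem_range.2 hm)
      exact mul_le_mul_of_nonneg_right (by linarith) (norm_nonneg _)
  obtain ⟨K, hK0, hK⟩ := hb
  obtain ⟨k₀, hk₀⟩ := tail_small E (θ := θ / K) (by positivity)
  set k := max k₀ k₁ with hk
  refine ⟨k, le_max_right _ _, fun m => if m < k₁ then
    inc m + ((LinearMap.id - P k).comp E.subtype).comp (Ψ.comp (inc m)) else inc m, ?_, ?_, ?_⟩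
  · intro m hm x
    dsimp only
    rw [if_pos hm]
    have e : (inc m + ((LinearMap.id - P k).comp E.subtype).comp (Ψ.comp (inc m))) x - inc m x
        = (Ψ (inc m x) : X) - P k (Ψ (inc m x)) := by
      simp only [LinearMap.add_apply, LinearMap.comp_apply, LinearMap.sub_apply, LinearMap.id_apply,
        Submodule.subtype_apply]
      abel
    rw [e]
    refine (hk₀ k (le_max_left _ _) _ (Ψ (inc m x)).2).trans ?_
    have h1 : ‖(Ψ (inc m x) : X)‖ ≤ K * ‖x‖ := hK m hm x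
    calc θ / K * ‖(Ψ (inc m x) : X)‖ ≤ θ / K * (K * ‖x‖) :=
          mul_le_mul_of_nonneg_left h1 (by positivity)
      _ = θ * ‖x‖ := by field_simp
  · intro m hm
    dsimp only
    rw [if_neg (not_lt.2 hm)]
  · intro x hx
    have e : ∀ m, (if m < k₁ then inc m + ((LinearMap.id - P k).comp E.subtype).comp
        (Ψ.comp (inc m)) else inc m) (x m) = inc m (x m)
        + (if m < k₁ then (Ψ (inc m (x m)) : X) - P k (Ψ (inc m (x m))) else 0) := by
      intro m
      split_ifs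
      · simp only [LinearMap.add_apply, LinearMap.comp_apply, LinearMap.sub_apply,
          LinearMap.id_apply, Submodule.subtype_apply]
      · rw [add_zero]
    rw [Finset.sum_congr rfl fun m _ => e m, Finset.sum_add_distrib, ← P_apply,
      ← Finset.sum_filter]
    have e2 : (Finset.range k).filter (fun m => m < k₁) = Finset.range k₁ := by
      ext m
      simp only [Finset.mem_filter, Finset.mem_range]
      constructor
      · exact fun h => h.2
      · exact fun h => ⟨lt_of_lt_of_le h (le_max_right _ _), h⟩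
    rw [e2]
    have e3 : ∑ m ∈ Finset.range k₁, ((Ψ (inc m (x m)) : X) - P k (Ψ (inc m (x m))))
        = x - P k x := by
      have h1 : ∀ y : X, (Ψ y : X) - P k (Ψ y) = ((LinearMap.id - P k).comp
          (E.subtype.comp Ψ)) y := fun y => rfl
      rw [Finset.sum_congr rfl fun m _ => h1 (inc m (x m)), ← map_sum, ← P_apply, ← h1]
      have h2 := hΨ ⟨x, hx⟩
      rw [show P k₁ x = P k₁ ((⟨x, hx⟩ : E) : X) from rfl, h2]
    rw [e3]
    abel

lemma norm_sum_inc_ge (k : ℕ) (g : ∀ m, Hx m) (m : ℕ) (hm : m < k) :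
    ‖g m‖ ≤ ‖∑ i ∈ Finset.range k, inc i (g i)‖ := by
  have h := lp.norm_apply_le_norm (p := 2) (by norm_num) (∑ i ∈ Finset.range k, inc i (g i)) m
  have e : (∑ i ∈ Finset.range k, inc i (g i)) m = g m := by
    rw [← cd_apply, map_sum, Finset.sum_eq_single m]
    · rw [cd_apply, inc_self]
    · intro b _ hb
      rw [cd_apply, inc_ne (Ne.symm hb)]
    · intro h
      exact absurd (Finset.mem_range.2 hm) h
  rw [← e]
  exact h

/-- The key approximation statement: every finite-dimensional subspace of `X` is contained in a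
finite-dimensional subspace all of whose near isometric embeddings are close to isometries
of `X`. -/
theorem key (E : Submodule ℝ X) [FiniteDimensional ℝ E] {ε : ℝ} (hε : 0 < ε) :
    ∃ F : Submodule ℝ X, E ≤ F ∧ FiniteDimensional ℝ F ∧ ∃ δ : ℝ, 0 < δ ∧
      ∀ ι : F →ₗ[ℝ] X, (∀ x, |‖ι x‖ - ‖x‖| ≤ δ * ‖x‖) →
        ∃ U : X ≃ₗᵢ[ℝ] X, ∀ x : F, ‖ι x - U x‖ ≤ ε * ‖x‖ := by
  obtain ⟨k₁, hk₁⟩ := exists_graph E
  -- the moduli
  have hmod : ∀ m : ℕ, ∃ η : ℝ, 0 < η ∧ ∀ T : Hx m →ₗ[ℝ] X,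
      (∀ x, |‖T x‖ - ‖x‖| ≤ η * ‖x‖) → ∃ u : Hx m ≃ₗᵢ[ℝ] Hx m, ∀ x,
      ‖T x - inc m (u x)‖ ≤ (ε / 8 / 2 ^ m) * ‖x‖ := fun m => rigid m (by positivity)
  choose η hη0 hη using hmod
  -- a common modulus for the first `k₁` planes
  have hinf : ∀ k : ℕ, ∃ d : ℝ, 0 < d ∧ d ≤ 1 ∧ ∀ m, m < k → d ≤ η m := by
    intro k
    induction k with
    | zero => exact ⟨1, one_pos, le_rfl, fun m hm => absurd hm (Nat.not_lt_zero m)⟩
    | succ k ih =>
      obtain ⟨d, hd0, hd1, hd⟩ := ih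
      refine ⟨min d (η k), lt_min hd0 (hη0 k), (min_le_left _ _).trans hd1, fun m hm => ?_⟩
      rcases Nat.lt_succ_iff_lt_or_eq.1 hm with h | h
      · exact (min_le_left _ _).trans (hd m h)
      · rw [h]; exact min_le_right _ _
  obtain ⟨d₁, hd10, hd11, hd1⟩ := hinf k₁
  set θ : ℝ := min (d₁ / 4) (min 1 ε / (8 * ((k₁ : ℝ) + 1))) with hθ
  have hk1pos : (0 : ℝ) < 8 * ((k₁ : ℝ) + 1) := by positivity
  have hθ0 : 0 < θ := lt_min (by positivity) (div_pos (lt_min one_pos hε) hk1pos)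
  have hθ1 : θ ≤ d₁ / 4 := min_le_left _ _
  have hθ2 : θ * (k₁ + 1) ≤ min 1 ε / 8 := by
    have h1 : θ ≤ min 1 ε / (8 * ((k₁ : ℝ) + 1)) := min_le_right _ _
    rw [le_div_iff₀ hk1pos] at h1
    linarith
  obtain ⟨k, hkk, R, hR1, hR2, hRE⟩ := hk₁ θ hθ0
  obtain ⟨d₂, hd20, hd21, hd2⟩ := hinf k
  -- the subspace
  let F : Submodule ℝ X := ⨆ m ∈ Finset.range k, LinearMap.range (R m)
  have hFmem : ∀ m, m < k → ∀ x, R m x ∈ F := fun m hm x =>
    (le_iSup₂_of_le (f := fun m (_ : m ∈ Finset.range k) => LinearMap.range (R m)) m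
      (Finset.mem_range.2 hm) le_rfl) (LinearMap.mem_range_self (R m) x)
  have hFex : ∀ x ∈ F, ∃ g : ∀ m, Hx m, x = ∑ m ∈ Finset.range k, R m (g m) := by
    intro x hx
    rw [Submodule.mem_iSup_finset_iff_exists_sum] at hx
    obtain ⟨μ, hμ⟩ := hx
    have : ∀ m, ∃ y : Hx m, R m y = μ m := fun m => (μ m).2
    choose g hg using this
    exact ⟨g, by rw [← hμ]; exact Finset.sum_congr rfl fun m _ => (hg m).symm⟩
  have hEF : E ≤ F := by
    intro x hx
    rw [hRE x hx]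
    exact Submodule.sum_mem _ fun m hm => hFmem m (Finset.mem_range.1 hm) _
  have hFeq : (Finset.range k).sup (fun m => LinearMap.range (R m)) = F := Finset.sup_eq_iSup _ _
  have hfin : FiniteDimensional ℝ F := hFeq ▸ Submodule.finiteDimensional_finset_sup _ _
  set δ : ℝ := d₂ / 4 ⊓ d₁ / 4 with hδ
  have hδ0 : 0 < δ := lt_min (by positivity) (by positivity)
  have hδ1 : δ ≤ d₂ / 4 := min_le_left _ _
  have hδ2 : δ ≤ d₁ / 4 := min_le_right _ _
  refine ⟨F, hEF, hfin, δ, hδ0, fun ι hι => ?_⟩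
  -- the error of the perturbation
  have hRerr : ∀ m x, ‖R m x - inc m x‖ ≤ (if m < k₁ then θ else 0) * ‖x‖ := by
    intro m x
    split_ifs with h
    · exact hR1 m h x
    · rw [hR2 m (not_lt.1 h), sub_self, norm_zero, zero_mul]
  -- isometries of the planes
  have hu : ∀ m, ∃ u : Hx m ≃ₗᵢ[ℝ] Hx m, ∀ hm : m < k, ∀ x,
      ‖ι ⟨R m x, hFmem m hm x⟩ - inc m (u x)‖ ≤ (ε / 8 / 2 ^ m) * ‖x‖ := by
    intro m
    by_cases hm : m < k
    · let T : Hx m →ₗ[ℝ] X := ι.comp ((R m).codRestrict F (hFmem m hm))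
      have hT : ∀ x, T x = ι ⟨R m x, hFmem m hm x⟩ := fun x => rfl
      have hTn : ∀ x, |‖T x‖ - ‖x‖| ≤ η m * ‖x‖ := by
        intro x
        have h1 : |‖T x‖ - ‖R m x‖| ≤ δ * ‖R m x‖ := hι ⟨R m x, hFmem m hm x⟩
        have h2 : |‖R m x‖ - ‖x‖| ≤ (if m < k₁ then θ else 0) * ‖x‖ := by
          have := abs_norm_sub_norm_le (R m x) (inc m x)
          rw [norm_inc] at this
          exact this.trans (hRerr m x)
        have h0 : 0 ≤ ‖x‖ := norm_nonneg x
        have h3 := abs_sub_le ‖T x‖ ‖R m x‖ ‖x‖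
        by_cases hmk : m < k₁
        · rw [if_pos hmk] at h2
          have h4 : ‖R m x‖ ≤ 2 * ‖x‖ := by
            have := (abs_le.1 h2).2
            nlinarith
          have h5 : δ * ‖R m x‖ ≤ d₁ / 4 * (2 * ‖x‖) :=
            mul_le_mul hδ2 h4 (norm_nonneg _) (by positivity)
          have h6 : θ * ‖x‖ ≤ d₁ / 4 * ‖x‖ := mul_le_mul_of_nonneg_right hθ1 h0
          have h7 : d₁ * ‖x‖ ≤ η m * ‖x‖ := mul_le_mul_of_nonneg_right (hd1 m hmk) h0
          nlinarith
        · rw [if_neg hmk, zero_mul] at h2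
          have h4 : ‖R m x‖ = ‖x‖ := by
            have := abs_nonpos_iff.1 h2
            linarith
          rw [h4] at h1
          have h5 : δ * ‖x‖ ≤ d₂ / 4 * ‖x‖ := mul_le_mul_of_nonneg_right hδ1 h0
          have h7 : d₂ * ‖x‖ ≤ η m * ‖x‖ := mul_le_mul_of_nonneg_right (hd2 m hm) h0
          nlinarith
      obtain ⟨u, hu⟩ := hη m T hTn
      exact ⟨u, fun _ x => hu x⟩
    · exact ⟨LinearIsometryEquiv.refl ℝ _, fun h => absurd h hm⟩
  choose u hu using hu
  refine ⟨dg u, fun x => ?_⟩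
  obtain ⟨g, hg⟩ := hFex x x.2
  -- norm comparison
  set G := ‖∑ m ∈ Finset.range k, inc m (g m)‖ with hG
  have hG0 : 0 ≤ G := norm_nonneg _
  have hgG : ∀ m, m < k → ‖g m‖ ≤ G := fun m hm => norm_sum_inc_ge k g m hm
  have hsumif : ∑ m ∈ Finset.range k, (if m < k₁ then θ else 0) * G ≤ θ * k₁ * G := by
    rw [← Finset.sum_mul, ← Finset.sum_filter, Finset.sum_const, nsmul_eq_mul]
    refine mul_le_mul_of_nonneg_right ?_ hG0
    have : ((Finset.range k).filter fun m => m < k₁).card ≤ k₁ := by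
      refine (Finset.card_le_card (t := Finset.range k₁) fun m hm => ?_).trans
        (Finset.card_range k₁).le
      exact Finset.mem_range.2 (Finset.mem_filter.1 hm).2
    have h2 : ((((Finset.range k).filter fun m => m < k₁).card : ℕ) : ℝ) ≤ k₁ := by
      exact_mod_cast this
    rw [mul_comm]
    exact mul_le_mul_of_nonneg_left h2 hθ0.le
  have hθk : θ * k₁ * G ≤ min 1 ε / 8 * G := by
    refine mul_le_mul_of_nonneg_right ?_ hG0
    linarith
  have hmin1 : min 1 ε ≤ 1 := min_le_left _ _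
  have hmin2 : min 1 ε ≤ ε := min_le_right _ _
  have hxG : G ≤ 2 * ‖x‖ := by
    have h1 : ‖(x : X) - ∑ m ∈ Finset.range k, inc m (g m)‖ ≤ θ * k₁ * G := by
      rw [hg, ← Finset.sum_sub_distrib]
      refine (norm_sum_le _ _).trans (le_trans (Finset.sum_le_sum fun m hm => ?_) hsumif)
      refine (hRerr m (g m)).trans ?_
      refine mul_le_mul_of_nonneg_left (hgG m (Finset.mem_range.1 hm)) ?_
      split_ifs
      · exact hθ0.le
      · exact le_rfl
    have h2 : G ≤ ‖(x : X)‖ + ‖(x : X) - ∑ m ∈ Finset.range k, inc m (g m)‖ := by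
      have : ∑ m ∈ Finset.range k, inc m (g m)
          = (x : X) - ((x : X) - ∑ m ∈ Finset.range k, inc m (g m)) := by abel
      rw [hG]
      conv_lhs => rw [this]
      exact norm_sub_le _ _
    have h3 : ‖(x : X)‖ = ‖x‖ := rfl
    have h4 : min 1 ε / 8 * G ≤ 1 / 8 * G := mul_le_mul_of_nonneg_right (by linarith) hG0
    linarith
  -- decomposition
  have hx' : x = ∑ m ∈ (Finset.range k).attach,
      (⟨R m (g m), hFmem m (Finset.mem_range.1 m.2) _⟩ : F) := by
    ext1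
    rw [Submodule.coe_sum, hg]
    exact (Finset.sum_attach (Finset.range k) fun m => R m (g m)).symm
  have hιx : ι x - dg u x = ∑ m ∈ (Finset.range k).attach,
      (ι ⟨R m (g m), hFmem m (Finset.mem_range.1 m.2) _⟩ - dg u (R m (g m))) := by
    rw [Finset.sum_sub_distrib, ← map_sum, ← hx']
    congr 1
    rw [Finset.sum_attach (Finset.range k) fun m => dg u (R m (g m)), ← map_sum, ← hg]
  rw [hιx]
  refine (norm_sum_le _ _).trans ?_
  have hterm : ∀ m ∈ (Finset.range k).attach,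
      ‖ι ⟨R m (g m), hFmem m (Finset.mem_range.1 m.2) _⟩ - dg u (R m (g m))‖
        ≤ (ε / 8 / 2 ^ (m : ℕ)) * G + (if (m : ℕ) < k₁ then θ else 0) * G := by
    intro m _
    have hmk := Finset.mem_range.1 m.2
    have e : ι ⟨R m (g m), hFmem m hmk _⟩ - dg u (R m (g m))
        = (ι ⟨R m (g m), hFmem m hmk _⟩ - inc m (u m (g m)))
          - dg u (R m (g m) - inc m (g m)) := by
      rw [map_sub, dg_inc]; abel
    rw [e]
    refine (norm_sub_le _ _).trans (add_le_add ?_ ?_)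
    · refine (hu m hmk (g m)).trans ?_
      exact mul_le_mul_of_nonneg_left (hgG m hmk) (by positivity)
    · rw [LinearIsometryEquiv.norm_map]
      refine (hRerr m (g m)).trans ?_
      refine mul_le_mul_of_nonneg_left (hgG m hmk) ?_
      split_ifs
      · exact hθ0.le
      · exact le_rfl
  refine (Finset.sum_le_sum hterm).trans ?_
  rw [Finset.sum_attach (Finset.range k) fun m => (ε / 8 / 2 ^ (m : ℕ)) * G
    + (if (m : ℕ) < k₁ then θ else 0) * G, Finset.sum_add_distrib]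
  have hgeo : ∑ m ∈ Finset.range k, (ε / 8 / 2 ^ m) * G ≤ ε / 4 * G := by
    rw [← Finset.sum_mul]
    refine mul_le_mul_of_nonneg_right ?_ hG0
    have h1 : ∑ m ∈ Finset.range k, (1 / 2 : ℝ) ^ m ≤ 2 := by
      have h2 := summable_geometric_two.sum_le_tsum (Finset.range k) (fun i _ => by positivity)
      rwa [tsum_geometric_two] at h2
    calc ∑ m ∈ Finset.range k, (ε / 8 / 2 ^ m) = ε / 8 * ∑ m ∈ Finset.range k, (1 / 2 : ℝ) ^ m := by
          rw [Finset.mul_sum]
          refine Finset.sum_congr rfl fun m _ => ?_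
          rw [div_pow, one_pow]; ring
      _ ≤ ε / 8 * 2 := mul_le_mul_of_nonneg_left h1 (by positivity)
      _ = ε / 4 := by ring
  have h8 : min 1 ε / 8 * G ≤ ε / 8 * G := mul_le_mul_of_nonneg_right (by linarith) hG0
  have h9 : ε * G ≤ ε * (2 * ‖x‖) := mul_le_mul_of_nonneg_left hxG hε.le
  have h10 : 0 ≤ ε * ‖x‖ := by positivity
  linarith

end Q101.Hex
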