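import Pool.Agent.Q101.HexD

/-!
# Guarded Fraisse Banach spaces need not be omega-categorical
-/

namespace Q101.Fraisse

open Filter Topology

section defs
variable (X : Type*) [NormedAddCommGroup X] [NormedSpace ℝ X]

variable {X} in
/-- `ι ∈ Emb_δ(F, X)`: `(1 + δ)⁻¹ ‖x‖ ≤ ‖ι x‖ ≤ (1 + δ) ‖x‖` for all `x ∈ F`. -/
def IsEmb {F : Submodule ℝ X} (δ : ℝ) (ι : F →L[ℝ] X) : Prop :=
  ∀ x : F, (1 + δ)⁻¹ * ‖x‖ ≤ ‖ι x‖ ∧ ‖ι x‖ ≤ (1 + δ) * ‖x‖

/-- Cofinally Fraisse: for every `ε > 0` every finite-dimensional subspace `E` is contained in a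
finite-dimensional subspace `F` for which some `δ > 0` makes the isometry group act
`ε`-transitively on `Emb_δ(F, X)`. -/
def IsCofinallyFraisse : Prop :=
  ∀ ε : ℝ, 0 < ε → ∀ E : Submodule ℝ X, FiniteDimensional ℝ E →
    ∃ F : Submodule ℝ X, E ≤ F ∧ FiniteDimensional ℝ F ∧ ∃ δ : ℝ, 0 < δ ∧
      ∀ ι ι' : F →L[ℝ] X, IsEmb δ ι → IsEmb δ ι' →
        ∃ T : X ≃ₗᵢ[ℝ] X, ‖ι' - (T.toContinuousLinearEquiv : X →L[ℝ] X).comp ι‖ < ε

/-- Guarded Fraisse: for every finite-dimensional subspace `E` and every `ε > 0` there are `δ > 0`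
and a finite-dimensional subspace `F ⊇ E` such that the isometry group acts `ε`-transitively on
the set of restrictions `ι|E`, `ι ∈ Emb_δ(F, X)`. -/
def IsGuardedFraisse : Prop :=
  ∀ E : Submodule ℝ X, FiniteDimensional ℝ E → ∀ ε : ℝ, 0 < ε →
    ∃ δ : ℝ, 0 < δ ∧ ∃ F : Submodule ℝ X, FiniteDimensional ℝ F ∧ ∃ h : E ≤ F,
      ∀ ι ι' : F →L[ℝ] X, IsEmb δ ι → IsEmb δ ι' →
        ∃ T : X ≃ₗᵢ[ℝ] X, ∃ r : ℝ, r < ε ∧
          ∀ x : E, ‖ι' ⟨x, h x.2⟩ - T (ι ⟨x, h x.2⟩)‖ ≤ r * ‖x‖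

/-- The closure of the orbit of the tuple `z` under the diagonal action of the isometry group;
`Fin n → X` carries the max-metric. -/
def orbitClosure {n : ℕ} (z : Fin n → X) : Set (Fin n → X) :=
  closure {w | ∃ T : X ≃ₗᵢ[ℝ] X, w = fun i => T (z i)}

/-- The points of `(B_X)^n // Iso(X)`. -/
def IsPoint {n : ℕ} (A : Set (Fin n → X)) : Prop :=
  ∃ z : Fin n → X, (∀ i, ‖z i‖ ≤ 1) ∧ A = orbitClosure X z

/-- The distance of `(B_X)^n // Iso(X)`. -/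
noncomputable def rho {n : ℕ} (A B : Set (Fin n → X)) : ℝ :=
  sInf {r | ∃ z ∈ A, ∃ z' ∈ B, r = dist z z'}

/-- The metric space `(B_X)^n // Iso(X)` is (sequentially) compact. -/
def IsCompactQuotient (n : ℕ) : Prop :=
  ∀ A : ℕ → Set (Fin n → X), (∀ k, IsPoint X (A k)) →
    ∃ B : Set (Fin n → X), IsPoint X B ∧ ∃ φ : ℕ → ℕ, StrictMono φ ∧
      Tendsto (fun j => rho X (A (φ j)) B) atTop (𝓝 0)

/-- Omega-categoricity: all the spaces `(B_X)^n // Iso(X)` are compact. -/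
def IsOmegaCategorical : Prop := ∀ n : ℕ, IsCompactQuotient X n

end defs

end Q101.Fraisse

namespace Q101.Hex

open Filter Topology Q101.Fraisse

lemma near_of_isEmb {F : Submodule ℝ X} {δ : ℝ} (hδ : 0 < δ) {ι : F →L[ℝ] X} (h : IsEmb δ ι)
    (x : F) : |‖ι.toLinearMap x‖ - ‖x‖| ≤ δ * ‖x‖ := by
  obtain ⟨h1, h2⟩ := h x
  have h0 : 0 ≤ ‖x‖ := norm_nonneg x
  have h3 : 1 - δ ≤ (1 + δ)⁻¹ := by
    rw [← one_div, le_div_iff₀ (by positivity)]
    nlinarith [sq_nonneg δ]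
  have h4 : (1 - δ) * ‖x‖ ≤ (1 + δ)⁻¹ * ‖x‖ := mul_le_mul_of_nonneg_right h3 h0
  have h5 : ι.toLinearMap x = ι x := rfl
  rw [h5, abs_le]
  constructor <;> linarith

theorem key2 (E : Submodule ℝ X) [FiniteDimensional ℝ E] {ε : ℝ} (hε : 0 < ε) :
    ∃ F : Submodule ℝ X, E ≤ F ∧ FiniteDimensional ℝ F ∧ ∃ δ : ℝ, 0 < δ ∧
      ∀ ι ι' : F →L[ℝ] X, IsEmb δ ι → IsEmb δ ι' →
        ∃ T : X ≃ₗᵢ[ℝ] X, ∀ x : F, ‖ι' x - T (ι x)‖ ≤ (ε / 2) * ‖x‖ := by
  obtain ⟨F, hEF, hF, δ, hδ, h⟩ := key E (ε := ε / 4) (by positivity)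
  refine ⟨F, hEF, hF, δ, hδ, fun ι ι' hι hι' => ?_⟩
  obtain ⟨U, hU⟩ := h ι.toLinearMap (near_of_isEmb hδ hι)
  obtain ⟨U', hU'⟩ := h ι'.toLinearMap (near_of_isEmb hδ hι')
  refine ⟨U.symm.trans U', fun x => ?_⟩
  have e : ι' x - (U.symm.trans U') (ι x) = (ι' x - U' x) - U' (U.symm (ι x - U x)) := by
    rw [LinearIsometryEquiv.trans_apply, map_sub, map_sub, LinearIsometryEquiv.symm_apply_apply]
    abel
  rw [e]
  refine (norm_sub_le _ _).trans ?_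
  rw [LinearIsometryEquiv.norm_map, LinearIsometryEquiv.norm_map]
  have h1 : ‖ι x - U x‖ ≤ ε / 4 * ‖x‖ := hU x
  have h2 : ‖ι' x - U' x‖ ≤ ε / 4 * ‖x‖ := hU' x
  linarith

theorem cofinally : IsCofinallyFraisse X := by
  intro ε hε E hE
  obtain ⟨F, hEF, hF, δ, hδ, h⟩ := key2 E hε
  refine ⟨F, hEF, hF, δ, hδ, fun ι ι' hι hι' => ?_⟩
  obtain ⟨T, hT⟩ := h ι ι' hι hι'
  refine ⟨T, lt_of_le_of_lt ?_ (half_lt_self hε)⟩
  exact ContinuousLinearMap.opNorm_le_bound _ (by positivity) hT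

theorem guarded : IsGuardedFraisse X := by
  intro E hE ε hε
  obtain ⟨F, hEF, hF, δ, hδ, h⟩ := key2 E hε
  refine ⟨δ, hδ, F, hF, hEF, fun ι ι' hι hι' => ?_⟩
  obtain ⟨T, hT⟩ := h ι ι' hι hι'
  exact ⟨T, ε / 2, half_lt_self hε, fun x => hT ⟨x, hEF x.2⟩⟩

/-- Every isometry of `X` maps the planes onto themselves. -/
lemma iso_inc (S : X ≃ₗᵢ[ℝ] X) (k : ℕ) (x : Hx k) : S (inc k x) = inc k (S (inc k x) k) := by
  ext n
  by_cases hn : n = k
  · subst hn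
    rw [inc_self]
  · rw [inc_ne hn]
    have hx1 : 0 < ‖x‖ + 1 := by have := norm_nonneg x; linarith
    have : ∀ ε : ℝ, 0 < ε → ‖S (inc k x) n‖ ≤ 0 + ε := by
      intro ε hε
      obtain ⟨η, hη, h⟩ := rigid k (ε := ε / (‖x‖ + 1)) (by positivity)
      obtain ⟨u, hu⟩ := h (S.toLinearEquiv.toLinearMap.comp (inc k)) (fun y => by
        have e : ‖(S.toLinearEquiv.toLinearMap.comp (inc k)) y‖ = ‖y‖ := by
          show ‖S (inc k y)‖ = _
          rw [LinearIsometryEquiv.norm_map, norm_inc]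
        rw [e, sub_self, abs_zero]
        positivity)
      have h1 := hu x
      have h2 := lp.norm_apply_le_norm (p := 2) (by norm_num)
        ((S.toLinearEquiv.toLinearMap.comp (inc k)) x - inc k (u x)) n
      rw [lp.coeFn_sub, Pi.sub_apply, inc_ne hn, sub_zero] at h2
      have h3 : ‖S (inc k x) n‖ ≤ ε / (‖x‖ + 1) * ‖x‖ := h2.trans h1
      have h4 : ε / (‖x‖ + 1) * ‖x‖ ≤ ε := by
        rw [div_mul_eq_mul_div, div_le_iff₀ hx1]
        nlinarith [norm_nonneg x]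
      linarith
    have h5 := le_of_forall_pos_le_add this
    exact norm_le_zero_iff.1 h5

/-- A unit vector of the `k`-th plane. -/
noncomputable def z (k : ℕ) : X := inc k (v1 : ℝ × ℝ)

lemma norm_z (k : ℕ) : ‖z k‖ = 1 :=
  (norm_inc k _).trans (N_v1 (one_lt k).le (lt_two k).le)

lemma self_mem {X : Type*} [NormedAddCommGroup X] [NormedSpace ℝ X] {n : ℕ} (y : Fin n → X) :
    y ∈ orbitClosure X y :=
  subset_closure ⟨LinearIsometryEquiv.refl ℝ X, rfl⟩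

lemma dist_orbits {k l : ℕ} (h : k ≠ l) (S T : X ≃ₗᵢ[ℝ] X) : 1 ≤ ‖S (z k) - T (z l)‖ := by
  have h1 := iso_inc S k (v1 : ℝ × ℝ)
  have h2 := iso_inc T l (v1 : ℝ × ℝ)
  have h3 : ‖S (z k) k‖ = 1 := by
    have : ‖S (z k)‖ = 1 := by rw [LinearIsometryEquiv.norm_map, norm_z]
    have h4 : S (z k) = inc k (S (z k) k) := h1
    rw [h4, norm_inc] at this
    exact this
  have h5 : T (z l) k = 0 := by
    have h4 : T (z l) = inc l (T (z l) l) := h2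
    rw [h4, inc_ne h]
  have h6 := lp.norm_apply_le_norm (p := 2) (by norm_num) (S (z k) - T (z l)) k
  rw [lp.coeFn_sub, Pi.sub_apply, h5, sub_zero, h3] at h6
  exact h6

lemma near_of_rho {X : Type*} [NormedAddCommGroup X] [NormedSpace ℝ X] {w y : Fin 1 → X}
    (hj : rho X (orbitClosure X w) (orbitClosure X y) < 1 / 5) :
    ∃ S T : X ≃ₗᵢ[ℝ] X, ‖S (w 0) - T (y 0)‖ < 2 / 5 := by
  have hne : {r | ∃ v ∈ orbitClosure X w, ∃ v' ∈ orbitClosure X y, r = dist v v'}.Nonempty :=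
    ⟨dist w y, w, self_mem w, y, self_mem y, rfl⟩
  obtain ⟨r, ⟨v, hv, v', hv', rfl⟩, hr⟩ := exists_lt_of_csInf_lt hne hj
  obtain ⟨a, ⟨S, rfl⟩, hS⟩ := Metric.mem_closure_iff.1 hv (1 / 10) (by norm_num)
  obtain ⟨b, ⟨T, rfl⟩, hT⟩ := Metric.mem_closure_iff.1 hv' (1 / 10) (by norm_num)
  refine ⟨S, T, ?_⟩
  have h1 : dist (v 0) (v' 0) < 1 / 5 := (dist_le_pi_dist v v' 0).trans_lt hr
  have h2 : dist (v 0) (S (w 0)) < 1 / 10 :=
    (dist_le_pi_dist v (fun i => S (w i)) 0).trans_lt hS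
  have h3 : dist (v' 0) (T (y 0)) < 1 / 10 :=
    (dist_le_pi_dist v' (fun i => T (y i)) 0).trans_lt hT
  rw [← dist_eq_norm]
  have h4 := dist_triangle (S (w 0)) (v 0) (T (y 0))
  have h5 := dist_triangle (v 0) (v' 0) (T (y 0))
  rw [dist_comm (S (w 0)) (v 0)] at h4
  linarith

lemma not_compact_of {X : Type*} [NormedAddCommGroup X] [NormedSpace ℝ X] (z : ℕ → X)
    (hz : ∀ k, ‖z k‖ ≤ 1)
    (hd : ∀ k l, k ≠ l → ∀ S T : X ≃ₗᵢ[ℝ] X, 1 ≤ ‖S (z k) - T (z l)‖) :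
    ¬ IsCompactQuotient X 1 := by
  intro hcon
  obtain ⟨B, ⟨y, hy1, hB⟩, φ, hφ, hlim⟩ := hcon (fun k => orbitClosure X fun _ => z k)
    (fun k => ⟨_, fun _ => hz k, rfl⟩)
  subst hB
  have happ : ∀ j, rho X (orbitClosure X fun _ : Fin 1 => z (φ j)) (orbitClosure X y) < 1 / 5 →
      ∃ S T : X ≃ₗᵢ[ℝ] X, ‖S (z (φ j)) - T (y 0)‖ < 2 / 5 := fun j hj => near_of_rho hj
  obtain ⟨j₀, hj₀⟩ := eventually_atTop.1 (hlim.eventually (gt_mem_nhds
    (show (0 : ℝ) < 1 / 5 by norm_num)))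
  obtain ⟨S, T, h1⟩ := happ j₀ (hj₀ j₀ le_rfl)
  obtain ⟨S', T', h2⟩ := happ (j₀ + 1) (hj₀ (j₀ + 1) (Nat.le_succ _))
  have hne : φ j₀ ≠ φ (j₀ + 1) := (hφ (Nat.lt_succ_self j₀)).ne
  -- bring both close to `y 0`
  have h3 : ‖T.symm (S (z (φ j₀))) - y 0‖ < 2 / 5 := by
    rw [← T.norm_map, map_sub, T.apply_symm_apply]
    exact h1
  have h4 : ‖T'.symm (S' (z (φ (j₀ + 1)))) - y 0‖ < 2 / 5 := by
    rw [← T'.norm_map, map_sub, T'.apply_symm_apply]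
    exact h2
  have h5 := hd _ _ hne (S.trans T.symm) (S'.trans T'.symm)
  have h6 : ‖(S.trans T.symm) (z (φ j₀)) - (S'.trans T'.symm) (z (φ (j₀ + 1)))‖
      ≤ ‖T.symm (S (z (φ j₀))) - y 0‖ + ‖T'.symm (S' (z (φ (j₀ + 1)))) - y 0‖ := by
    have e : (S.trans T.symm) (z (φ j₀)) - (S'.trans T'.symm) (z (φ (j₀ + 1)))
        = (T.symm (S (z (φ j₀))) - y 0) - (T'.symm (S' (z (φ (j₀ + 1)))) - y 0) := by
      rw [LinearIsometryEquiv.trans_apply, LinearIsometryEquiv.trans_apply]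
      abel
    rw [e]
    exact norm_sub_le _ _
  linarith

theorem not_compact : ¬ IsCompactQuotient X 1 :=
  not_compact_of z (fun k => (norm_z k).le) (fun _ _ h S T => dist_orbits h S T)

theorem infinite_dim : ¬ FiniteDimensional ℝ X := by
  intro hfin
  have : ProperSpace X := FiniteDimensional.proper ℝ X
  obtain ⟨w, -, φ, hφ, hlim⟩ := (isCompact_closedBall (0 : X) 1).tendsto_subseq
    (x := z) (fun k => by simpa using (norm_z k).le)
  have h := hlim.cauchySeq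
  obtain ⟨j, hj⟩ := Metric.cauchySeq_iff.1 h 1 one_pos
  have h1 := hj j le_rfl (j + 1) (Nat.le_succ _)
  have hne : φ j ≠ φ (j + 1) := (hφ (Nat.lt_succ_self j)).ne
  have h2 := dist_orbits hne (LinearIsometryEquiv.refl ℝ X) (LinearIsometryEquiv.refl ℝ X)
  rw [dist_eq_norm] at h1
  exact absurd h1 (not_lt.2 h2)

theorem separable : TopologicalSpace.SeparableSpace X := by
  rw [← TopologicalSpace.isSeparable_univ_iff]
  have h1 : TopologicalSpace.IsSeparable (⋃ m, Set.range (inc m)) := by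
    refine TopologicalSpace.IsSeparable.iUnion fun m => ?_
    have : ProperSpace (Hx m) := FiniteDimensional.proper ℝ (Hx m)
    exact TopologicalSpace.isSeparable_range
      (LinearMap.continuous_of_finiteDimensional (inc m))
  have h2 := (h1.span (R := ℝ)).closure
  refine h2.mono fun x _ => ?_
  refine mem_closure_of_tendsto (tendsto_P x) (Eventually.of_forall fun k => ?_)
  rw [P_apply]
  exact Submodule.sum_mem _ fun m _ => Submodule.subset_span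
    (Set.mem_iUnion.2 ⟨m, Set.mem_range_self _⟩)

end Q101.Hex
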