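import Mathlib

/-!
# Separation of a sequence of sets of positive lower density in a sparse scale
-/

namespace Q101Hf

open Finset

open Classical in
/-- Indicator of a set. -/
noncomputable def ind (S : Set ℕ) (n : ℕ) : ℕ := if n ∈ S then 1 else 0

lemma ind_of_mem {S : Set ℕ} {n : ℕ} (h : n ∈ S) : ind S n = 1 := by simp [ind, h]
lemma ind_of_not {S : Set ℕ} {n : ℕ} (h : n ∉ S) : ind S n = 0 := by simp [ind, h]
lemma ind_le (S : Set ℕ) (n : ℕ) : ind S n ≤ 1 := by unfold ind; split_ifs <;> omega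

/-- Number of elements of `S` below `N`. -/
noncomputable def cnt (S : Set ℕ) (N : ℕ) : ℕ := ∑ n ∈ range N, ind S n

lemma cnt_zero (S : Set ℕ) : cnt S 0 = 0 := by simp [cnt]

lemma cnt_succ (S : Set ℕ) (N : ℕ) : cnt S (N + 1) = cnt S N + ind S N := by
  simp [cnt, sum_range_succ]

lemma cnt_add (S : Set ℕ) (a b : ℕ) : cnt S (a + b) = cnt S a + ∑ r ∈ range b, ind S (a + r) := by
  induction b with
  | zero => simp
  | succ b ih => rw [← add_assoc, cnt_succ, ih, sum_range_succ, add_assoc]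

lemma cnt_mono (S : Set ℕ) {a b : ℕ} (h : a ≤ b) : cnt S a ≤ cnt S b := by
  obtain ⟨c, rfl⟩ := Nat.exists_eq_add_of_le h
  rw [cnt_add]; omega

lemma cnt_le_add (S : Set ℕ) (a b : ℕ) : cnt S (a + b) ≤ cnt S a + b := by
  rw [cnt_add]
  have : ∑ r ∈ range b, ind S (a + r) ≤ ∑ r ∈ range b, 1 := sum_le_sum fun r _ => ind_le _ _
  simp at this
  omega

lemma cnt_le (S : Set ℕ) (N : ℕ) : cnt S N ≤ N := by
  have := cnt_le_add S 0 N
  rw [cnt_zero] at this
  simpa using this

/-- The sparse scale. -/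
def NN (k : ℕ) : ℕ := 2 ^ (k * k)

lemma NN_pos (k : ℕ) : 0 < NN k := by unfold NN; positivity

lemma NN_succ (k : ℕ) : NN (k + 1) = 2 ^ (2 * k + 1) * NN k := by
  unfold NN; rw [← pow_add]; congr 1; ring

lemma NN_mono {i j : ℕ} (h : i ≤ j) : NN i ≤ NN j :=
  Nat.pow_le_pow_right (by norm_num) (Nat.mul_le_mul h h)

lemma le_NN (k : ℕ) : k ≤ NN k := by
  refine (Nat.lt_two_pow_self (n := k)).le.trans ?_
  refine Nat.pow_le_pow_right (by norm_num) ?_
  nlinarith

/-- Positive lower density, with natural number constants. -/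
def PLD (A : Set ℕ) : Prop := ∃ d N₀ : ℕ, ∀ N, N₀ ≤ N → N ≤ d * cnt A N

/-! ### Thinning -/

/-- Every `q`-th element of `G`. -/
def thin (G : Set ℕ) (q : ℕ) : Set ℕ := {c | c ∈ G ∧ q ∣ cnt G c + 1}

lemma thin_subset (G : Set ℕ) (q : ℕ) : thin G q ⊆ G := fun _ h => h.1

lemma cnt_thin (G : Set ℕ) (q M : ℕ) : cnt (thin G q) M = cnt G M / q := by
  induction M with
  | zero => simp [cnt_zero]
  | succ M ih =>
    rw [cnt_succ, cnt_succ, ih]
    by_cases h : M ∈ G
    · rw [ind_of_mem h, Nat.succ_div]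
      by_cases h2 : q ∣ cnt G M + 1
      · rw [ind_of_mem (show M ∈ thin G q from ⟨h, h2⟩), if_pos h2]
      · rw [ind_of_not (show M ∉ thin G q from fun h3 => h2 h3.2), if_neg h2]
    · rw [ind_of_not h, ind_of_not (show M ∉ thin G q from fun h3 => h h3.1)]
      simp

lemma thin_sep {G : Set ℕ} {q a b : ℕ} (ha : a ∈ thin G q) (hb : b ∈ thin G q) (h : a < b) :
    a + q ≤ b := by
  obtain ⟨ha1, s, hs⟩ := ha
  obtain ⟨hb1, t, ht⟩ := hb
  have h1 : cnt G a + 1 ≤ cnt G b := by
    have := cnt_mono G (show a + 1 ≤ b from h)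
    rwa [cnt_succ, ind_of_mem ha1] at this
  have h2 : cnt G b ≤ cnt G a + (b - a) := by
    have := cnt_le_add G a (b - a)
    rwa [Nat.add_sub_cancel' h.le] at this
  have h3 : s < t := by
    by_contra hc
    push Not at hc
    have := Nat.mul_le_mul_left q hc
    omega
  have h4 : q * (s + 1) ≤ q * t := Nat.mul_le_mul_left q h3
  have h5 : q * (s + 1) = q * s + q := by ring
  omega

lemma PLD.thin {G : Set ℕ} (hG : PLD G) {q : ℕ} (hq : 0 < q) : PLD (thin G q) := by
  obtain ⟨d, N₀, h⟩ := hG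
  refine ⟨2 * d * q, max N₀ (2 * d * q), fun N hN => ?_⟩
  have h1 := h N ((le_max_left _ _).trans hN)
  have h2 : 2 * d * q ≤ N := (le_max_right _ _).trans hN
  rw [cnt_thin]
  have h3 : cnt G N ≤ q * (cnt G N / q + 1) := (Nat.lt_mul_div_succ _ hq).le
  have h4 : N ≤ d * (q * (cnt G N / q + 1)) := h1.trans (Nat.mul_le_mul_left d h3)
  have h5 : d * (q * (cnt G N / q + 1)) = d * q * (cnt G N / q) + d * q := by ring
  have h6 : 2 * d * q * (cnt G N / q) = 2 * (d * q * (cnt G N / q)) := by ring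
  have h7 : 2 * d * q = 2 * (d * q) := by ring
  rw [h6]
  omega

/-! ### Cells -/

/-- Number of elements of `A` in the `c`-th cell of length `ℓ`. -/
noncomputable def cc (A : Set ℕ) (ℓ c : ℕ) : ℕ := ∑ r ∈ range ℓ, ind A (c * ℓ + r)

lemma cc_le (A : Set ℕ) (ℓ c : ℕ) : cc A ℓ c ≤ ℓ := by
  unfold cc
  have : ∑ r ∈ range ℓ, ind A (c * ℓ + r) ≤ ∑ r ∈ range ℓ, 1 := sum_le_sum fun r _ => ind_le _ _
  simpa using this

lemma cnt_cells (A : Set ℕ) (ℓ M : ℕ) : cnt A (M * ℓ) = ∑ c ∈ range M, cc A ℓ c := by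
  induction M with
  | zero => simp [cnt_zero]
  | succ M ih => rw [sum_range_succ, ← ih, add_mul, one_mul, cnt_add]; rfl

lemma sum_shift_le (E : Set ℕ) (M : ℕ) : ∑ c ∈ range M, ind E (c + 1) ≤ cnt E (M + 1) := by
  unfold cnt
  rw [sum_range_succ']
  omega

lemma sum_back_le (E : Set ℕ) (M : ℕ) :
    ∑ c ∈ range M, ind {c | ∃ c', c' + 1 = c ∧ c' ∈ E} c ≤ cnt E (M + 1) := by
  cases M with
  | zero => simp
  | succ M =>
    rw [sum_range_succ']
    have h0 : ind {c | ∃ c', c' + 1 = c ∧ c' ∈ E} 0 = 0 := by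
      apply ind_of_not
      rintro ⟨c', h, -⟩
      omega
    rw [h0, add_zero]
    refine le_trans (sum_le_sum fun c _ => ?_) (cnt_mono E (show M ≤ M + 1 + 1 by omega))
    by_cases h : c ∈ E
    · rw [ind_of_mem h]; exact ind_le _ _
    · rw [ind_of_not h, ind_of_not]
      rintro ⟨c', h1, h2⟩
      obtain rfl : c' = c := by omega
      exact h h2

section Construct

variable (A : ℕ → Set ℕ) (d κ : ℕ → ℕ)

/-- Length of the cells at level `k`. -/
def ell (k : ℕ) : ℕ := 4 * NN k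

lemma ell_pos (k : ℕ) : 0 < ell k := by unfold ell; have := NN_pos k; omega

/-- Number of cells at level `k`. -/
def Mk (k : ℕ) : ℕ := 2 ^ (2 * k - 1)

lemma Mk_mul {k : ℕ} (hk : 1 ≤ k) : Mk k * ell k = NN (k + 1) := by
  unfold Mk ell
  rw [NN_succ]
  have : 2 ^ (2 * k + 1) = 2 ^ (2 * k - 1) * 4 := by
    rw [show 2 * k + 1 = (2 * k - 1) + 2 by omega, pow_add]
    norm_num
  rw [this]; ring

/-- Rich cells of index `i` at level `k`. -/
def G (i k : ℕ) : Set ℕ := {c | κ i ≤ k ∧ 2 ≤ c ∧ c + 2 ≤ Mk k ∧ ell k ≤ d i * cc (A i) (ell k) c}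

/-- The thinning ratios. -/
def qq : ℕ → ℕ
  | 0 => 12
  | i + 1 => 12 * d i * qq i

lemma qq_pos (hd : ∀ i, 0 < d i) (i : ℕ) : 0 < qq d i := by
  induction i with
  | zero => norm_num [qq]
  | succ i ih =>
    have := hd i
    unfold qq; positivity

/-- Selected cells before removing conflicts. -/
def E (i k : ℕ) : Set ℕ := thin (G A d κ i k) (qq d i)

/-- Selected cells. -/
def T (i k : ℕ) : Set ℕ := {c | c ∈ E A d κ i k ∧ ∀ j, i < j → c ∉ E A d κ j k ∧
  c + 1 ∉ E A d κ j k ∧ c ∉ {c | ∃ c', c' + 1 = c ∧ c' ∈ E A d κ j k}}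

/-- Selected elements before thinning. -/
def D (i : ℕ) : Set ℕ := {n | n ∈ A i ∧ ∃ k, n / ell k ∈ T A d κ i k}

variable {A d κ}

lemma rich_count {i k M : ℕ} (hk : κ i ≤ k) (hM : M ≤ Mk k)
    {d' : ℕ} (hd : d i = 2 * d') (hA : M * ell k ≤ d' * cnt (A i) (M * ell k)) :
    M ≤ d i * (cnt (G A d κ i k) M + 3) := by
  have hℓ := ell_pos k
  have key : ∀ c ∈ range M, d i * cc (A i) (ell k) c ≤ ell k + d i * ell k *
      (ind (G A d κ i k) c + (if c < 2 then 1 else 0) + (if c + 1 = Mk k then 1 else 0)) := by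
    intro c hc
    have hc := mem_range.1 hc
    have h1 : d i * cc (A i) (ell k) c ≤ d i * ell k := Nat.mul_le_mul_left _ (cc_le _ _ _)
    by_cases hG : c ∈ G A d κ i k
    · rw [ind_of_mem hG]
      refine h1.trans ?_
      refine le_trans ?_ (Nat.le_add_left _ _)
      refine Nat.le_mul_of_pos_right _ (by omega)
    · by_cases h2 : c < 2
      · rw [if_pos h2]
        refine h1.trans ?_
        refine le_trans ?_ (Nat.le_add_left _ _)
        refine Nat.le_mul_of_pos_right _ (by omega)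
      · by_cases h3 : c + 1 = Mk k
        · rw [if_pos h3]
          refine h1.trans ?_
          refine le_trans ?_ (Nat.le_add_left _ _)
          refine Nat.le_mul_of_pos_right _ (by omega)
        · have h4 : ¬ (ell k ≤ d i * cc (A i) (ell k) c) := fun h5 =>
            hG ⟨hk, by omega, by omega, h5⟩
          omega
  have hsum := sum_le_sum key
  rw [← mul_sum, ← cnt_cells, sum_add_distrib, ← mul_sum, sum_add_distrib, sum_add_distrib] at hsum
  have e1 : ∑ c ∈ range M, (if c < 2 then 1 else 0) ≤ 2 := by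
    rw [← card_filter]
    refine (card_le_card (t := range 2) ?_).trans (by simp)
    intro c hc
    exact mem_range.2 (mem_filter.1 hc).2
  have e2 : ∑ c ∈ range M, (if c + 1 = Mk k then 1 else 0) ≤ 1 := by
    rw [← card_filter]
    refine (card_le_card (t := {Mk k - 1}) ?_).trans (by simp)
    intro c hc
    have := (mem_filter.1 hc).2
    rw [mem_singleton]; omega
  have e3 : ∑ c ∈ range M, ell k = M * ell k := by simp
  have e4 : ∑ c ∈ range M, ind (G A d κ i k) c = cnt (G A d κ i k) M := rfl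
  rw [e3, e4] at hsum
  have e5 : d i * cnt (A i) (M * ell k) ≤ M * ell k + d i * ell k * (cnt (G A d κ i k) M + 3) :=
    hsum.trans (Nat.add_le_add_left (Nat.mul_le_mul_left _ (by omega)) _)
  have e6 : 2 * (M * ell k) ≤ d i * cnt (A i) (M * ell k) := by
    rw [hd, mul_assoc]; omega
  have e7 : M * ell k ≤ d i * (cnt (G A d κ i k) M + 3) * ell k := by
    have : d i * (cnt (G A d κ i k) M + 3) * ell k = d i * ell k * (cnt (G A d κ i k) M + 3) := by
      ring
    rw [this]; omega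
  exact Nat.le_of_mul_le_mul_right e7 hℓ

lemma E_active {i k c : ℕ} (h : c ∈ E A d κ i k) : κ i ≤ k := h.1.1

lemma qq_sum (hd : ∀ i, 0 < d i) (i k : ℕ) :
    ∑ j ∈ Ioc i (i + k + 1), (1 / (qq d j : ℝ)) + 1 / 11 * (1 / (qq d (i + k + 1) : ℝ)) ≤
      1 / (11 * (d i * qq d i : ℝ)) := by
  induction k with
  | zero =>
    have h1 : Ioc i (i + 0 + 1) = {i + 1} := by
      simp
    rw [h1, sum_singleton]
    have h2 : (qq d (i + 0 + 1) : ℝ) = 12 * d i * qq d i := by simp [qq]
    rw [h2]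
    have h3 : (0 : ℝ) < d i := by exact_mod_cast hd i
    have h4 : (0 : ℝ) < qq d i := by exact_mod_cast qq_pos d hd i
    rw [show (12 * d i * qq d i : ℝ) = 12 * (d i * qq d i) by ring]
    have h5 : (0 : ℝ) < d i * qq d i := by positivity
    generalize (d i * qq d i : ℝ) = t at h5
    apply le_of_eq
    field_simp
    norm_num
  | succ k ih =>
    have h1 : Ioc i (i + (k + 1) + 1) = insert (i + (k + 1) + 1) (Ioc i (i + k + 1)) := by
      ext x; simp; omega
    have h2 : i + (k + 1) + 1 ∉ Ioc i (i + k + 1) := by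
      intro h
      have := (mem_Ioc.1 h).2
      omega
    rw [h1, sum_insert h2]
    have h3 : 12 * (1 / (qq d (i + (k + 1) + 1) : ℝ)) ≤ 1 / (qq d (i + k + 1) : ℝ) := by
      have e : (qq d (i + (k + 1) + 1) : ℝ) = 12 * d (i + k + 1) * qq d (i + k + 1) := by
        rw [show i + (k + 1) + 1 = (i + k + 1) + 1 by ring]
        simp [qq]
      rw [e]
      have h3 : (1 : ℝ) ≤ d (i + k + 1) := by exact_mod_cast hd _
      have h4 : (0 : ℝ) < qq d (i + k + 1) := by exact_mod_cast qq_pos d hd _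
      rw [mul_one_div, div_le_div_iff₀ (by positivity) h4]
      nlinarith [mul_nonneg (sub_nonneg.2 h3) h4.le]
    linarith

lemma conflict_count (hd : ∀ i, 0 < d i) (hκ : ∀ i, i < κ i) {i k M : ℕ} :
    2 * (d i * qq d i) * cnt (E A d κ i k) M ≤
      2 * (d i * qq d i) * cnt (T A d κ i k) M + (M + 1) := by
  have key : ∀ c ∈ range M, ind (E A d κ i k) c ≤ ind (T A d κ i k) c +
      ∑ j ∈ Ioc i (i + k + 1), (ind (E A d κ j k) c + ind (E A d κ j k) (c + 1) +
        ind {c | ∃ c', c' + 1 = c ∧ c' ∈ E A d κ j k} c) := by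
    intro c _
    by_cases hE : c ∈ E A d κ i k
    · by_cases hT : c ∈ T A d κ i k
      · rw [ind_of_mem hT]
        exact (ind_le _ _).trans (Nat.le_add_right _ _)
      · have h1 : ∃ j, i < j ∧ (c ∈ E A d κ j k ∨ c + 1 ∈ E A d κ j k ∨
            c ∈ {c | ∃ c', c' + 1 = c ∧ c' ∈ E A d κ j k}) := by
          by_contra hcon
          push Not at hcon
          exact hT ⟨hE, fun j hj => hcon j hj⟩
        obtain ⟨j, hj, hj2⟩ := h1
        have hjk : j ≤ k := by
          have h3 : κ j ≤ k := by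
            rcases hj2 with h | h | ⟨c', -, h⟩ <;> exact E_active h
          have := hκ j
          omega
        have hjm : j ∈ Ioc i (i + k + 1) := mem_Ioc.2 ⟨hj, by omega⟩
        have h2 := single_le_sum (f := fun j => ind (E A d κ j k) c + ind (E A d κ j k) (c + 1) +
            ind {c | ∃ c', c' + 1 = c ∧ c' ∈ E A d κ j k} c) (fun _ _ => Nat.zero_le _) hjm
        have h3 : 1 ≤ ind (E A d κ j k) c + ind (E A d κ j k) (c + 1) +
            ind {c | ∃ c', c' + 1 = c ∧ c' ∈ E A d κ j k} c := by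
          rcases hj2 with h | h | h
          · rw [ind_of_mem h]; omega
          · rw [ind_of_mem (n := c + 1) h]; omega
          · rw [ind_of_mem h]; omega
        have h4 := ind_le (E A d κ i k) c
        exact h4.trans (h3.trans (h2.trans (Nat.le_add_left _ _)))
    · rw [ind_of_not hE]; exact Nat.zero_le _
  have hsum := sum_le_sum key
  rw [sum_add_distrib, sum_comm] at hsum
  have h1 : ∀ j ∈ Ioc i (i + k + 1), ∑ c ∈ range M, (ind (E A d κ j k) c +
      ind (E A d κ j k) (c + 1) + ind {c | ∃ c', c' + 1 = c ∧ c' ∈ E A d κ j k} c) ≤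
      3 * ((M + 1) / qq d j) := by
    intro j _
    rw [sum_add_distrib, sum_add_distrib]
    have e1 := sum_shift_le (E A d κ j k) M
    have e2 := sum_back_le (E A d κ j k) M
    have e3 : ∑ c ∈ range M, ind (E A d κ j k) c ≤ cnt (E A d κ j k) (M + 1) :=
      cnt_mono _ (Nat.le_succ M)
    have e4 : cnt (E A d κ j k) (M + 1) ≤ (M + 1) / qq d j := by
      unfold E
      rw [cnt_thin]
      exact Nat.div_le_div_right (cnt_le _ _)
    omega
  have h2 := sum_le_sum h1
  have h3 : cnt (E A d κ i k) M ≤ cnt (T A d κ i k) M +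
      ∑ j ∈ Ioc i (i + k + 1), 3 * ((M + 1) / qq d j) :=
    hsum.trans (Nat.add_le_add_left h2 _)
  have h4 : ((∑ j ∈ Ioc i (i + k + 1), 3 * ((M + 1) / qq d j) : ℕ) : ℝ) ≤
      3 * (M + 1) * ∑ j ∈ Ioc i (i + k + 1), (1 / (qq d j : ℝ)) := by
    push_cast
    rw [mul_sum]
    refine sum_le_sum fun j _ => ?_
    have : (((M + 1) / qq d j : ℕ) : ℝ) ≤ (M + 1 : ℝ) / qq d j := by
      have := Nat.cast_div_le (α := ℝ) (m := M + 1) (n := qq d j)
      push_cast at this
      exact this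
    rw [mul_one_div, mul_div_assoc]
    linarith
  have h5 := qq_sum hd i k
  have hq : (0 : ℝ) < qq d (i + k + 1) := by exact_mod_cast qq_pos d hd _
  have h6 : (0 : ℝ) ≤ 1 / 11 * (1 / (qq d (i + k + 1) : ℝ)) := by positivity
  have hdi : (0 : ℝ) < d i := by exact_mod_cast hd i
  have hqi : (0 : ℝ) < qq d i := by exact_mod_cast qq_pos d hd i
  have h7 : ∑ j ∈ Ioc i (i + k + 1), (1 / (qq d j : ℝ)) ≤ 1 / (11 * (d i * qq d i : ℝ)) := by
    linarith
  have h8 : (cnt (E A d κ i k) M : ℝ) ≤ cnt (T A d κ i k) M +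
      3 * (M + 1) * (1 / (11 * (d i * qq d i : ℝ))) := by
    have e1 : (cnt (E A d κ i k) M : ℝ) ≤ cnt (T A d κ i k) M +
      ((∑ j ∈ Ioc i (i + k + 1), 3 * ((M + 1) / qq d j) : ℕ) : ℝ) := by exact_mod_cast h3
    have e2 : 3 * (M + 1 : ℝ) * ∑ j ∈ Ioc i (i + k + 1), (1 / (qq d j : ℝ)) ≤
        3 * (M + 1) * (1 / (11 * (d i * qq d i : ℝ))) :=
      mul_le_mul_of_nonneg_left h7 (by positivity)
    linarith
  have h9 : 2 * (d i * qq d i : ℝ) * cnt (E A d κ i k) M ≤
      2 * (d i * qq d i) * cnt (T A d κ i k) M + (M + 1) := by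
    have e1 := mul_le_mul_of_nonneg_left h8 (show (0 : ℝ) ≤ 2 * (d i * qq d i) by positivity)
    have e2 : 2 * (d i * qq d i : ℝ) * (3 * (M + 1) * (1 / (11 * (d i * qq d i : ℝ)))) =
        6 / 11 * (M + 1) := by
      field_simp
      ring
    rw [mul_add, e2] at e1
    have : (0 : ℝ) ≤ M := Nat.cast_nonneg M
    linarith
  exact_mod_cast h9

lemma T_count (hd : ∀ i, 0 < d i) (hκ : ∀ i, i < κ i) {i k M : ℕ} (hk : κ i ≤ k) (hM : M ≤ Mk k)
    {d' : ℕ} (hdd : d i = 2 * d') (hA : M * ell k ≤ d' * cnt (A i) (M * ell k)) :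
    M ≤ 2 * (d i * qq d i) * (cnt (T A d κ i k) M + 5) := by
  have hq := qq_pos d hd i
  have h1 := rich_count (A := A) (d := d) (κ := κ) hk hM hdd hA
  have h2 : cnt (G A d κ i k) M ≤ qq d i * (cnt (E A d κ i k) M + 1) := by
    unfold E
    rw [cnt_thin]
    exact (Nat.lt_mul_div_succ _ hq).le
  have h3 := conflict_count (A := A) (d := d) (κ := κ) hd hκ (i := i) (k := k) (M := M)
  have hdi := hd i
  have h4 : M ≤ d i * qq d i * (cnt (E A d κ i k) M + 4) := by
    refine h1.trans ?_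
    rw [mul_assoc]
    refine Nat.mul_le_mul_left _ ?_
    have : qq d i * (cnt (E A d κ i k) M + 4) = qq d i * (cnt (E A d κ i k) M + 1) + qq d i * 3 := by
      ring
    rw [this]
    have : 3 ≤ qq d i * 3 := Nat.le_mul_of_pos_left 3 hq
    omega
  set t := d i * qq d i with ht
  have htp : 0 < t := by positivity
  have e1 : t * (cnt (E A d κ i k) M + 4) = t * cnt (E A d κ i k) M + 4 * t := by ring
  have e2 : 2 * t * (cnt (T A d κ i k) M + 5) = 2 * t * cnt (T A d κ i k) M + 10 * t := by ring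
  have e3 : 2 * t * cnt (E A d κ i k) M = 2 * (t * cnt (E A d κ i k) M) := by ring
  rw [e1] at h4
  rw [e2]
  rw [e3] at h3
  omega

lemma D_count {i k M : ℕ} :
    ell k * cnt (T A d κ i k) M ≤ d i * cnt (D A d κ i) (M * ell k) := by
  rw [cnt_cells, mul_sum]
  unfold cnt
  rw [mul_sum]
  refine sum_le_sum fun c _ => ?_
  by_cases hT : c ∈ T A d κ i k
  · rw [ind_of_mem hT, mul_one]
    have h1 : ell k ≤ d i * cc (A i) (ell k) c := hT.1.1.2.2.2
    refine h1.trans (Nat.mul_le_mul_left _ ?_)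
    refine sum_le_sum fun r hr => ?_
    by_cases hA : c * ell k + r ∈ A i
    · have hD : c * ell k + r ∈ D A d κ i := by
        refine ⟨hA, k, ?_⟩
        have : (c * ell k + r) / ell k = c := by
          rw [mul_comm, Nat.mul_add_div (ell_pos k), Nat.div_eq_of_lt (mem_range.1 hr), add_zero]
        rw [this]; exact hT
      rw [ind_of_mem hD]; exact ind_le _ _
    · rw [ind_of_not hA]; exact Nat.zero_le _
  · rw [ind_of_not hT]; simp

lemma Mk_ge (k : ℕ) : k ≤ Mk k := by
  unfold Mk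
  rcases Nat.eq_zero_or_pos k with rfl | h
  · simp
  · refine le_trans ?_ (Nat.lt_two_pow_self (n := 2 * k - 1)).le
    omega

theorem D_density (hd : ∀ i, 0 < d i) (hκ : ∀ i, i < κ i) {i : ℕ}
    {d' N₀ : ℕ} (hdd : d i = 2 * d') (hA : ∀ N, N₀ ≤ N → N ≤ d' * cnt (A i) N) :
    PLD (D A d κ i) := by
  have hq := qq_pos d hd i
  have hdi := hd i
  set t := d i * qq d i with ht
  have htp : 0 < t := by positivity
  set M₀ := 20 * t with hM₀
  -- main estimate
  have main : ∀ k M, κ i ≤ k → N₀ ≤ k → M₀ ≤ M → M ≤ Mk k →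
      M * ell k ≤ 4 * t * d i * cnt (D A d κ i) (M * ell k) := by
    intro k M hk hNk hM hM2
    have hMpos : 1 ≤ M := by omega
    have h1 : N₀ ≤ M * ell k := by
      have h2 : k ≤ ell k := by
        have := le_NN k
        unfold ell; omega
      have h3 : ell k ≤ M * ell k := Nat.le_mul_of_pos_left _ (by omega)
      omega
    have h2 := T_count hd hκ hk hM2 hdd (hA _ h1)
    rw [← ht] at h2
    have h3 := D_count (A := A) (d := d) (κ := κ) (i := i) (k := k) (M := M)
    have h4 : M * ell k ≤ 2 * t * (cnt (T A d κ i k) M + 5) * ell k := Nat.mul_le_mul_right _ h2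
    have h5 : 2 * t * (cnt (T A d κ i k) M + 5) * ell k =
        2 * t * (ell k * cnt (T A d κ i k) M) + 10 * t * ell k := by ring
    have h6 : 2 * t * (ell k * cnt (T A d κ i k) M) ≤
        2 * t * (d i * cnt (D A d κ i) (M * ell k)) := Nat.mul_le_mul_left _ h3
    have h7 : 20 * t * ell k ≤ M * ell k := Nat.mul_le_mul_right _ hM
    have h8 : 20 * t * ell k = 2 * (10 * t * ell k) := by ring
    have h9 : 4 * t * d i * cnt (D A d κ i) (M * ell k) =
        2 * (2 * t * (d i * cnt (D A d κ i) (M * ell k))) := by ring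
    rw [h9]
    omega
  -- the first good level
  set k₀ := max (κ i) (max N₀ M₀) with hk₀
  refine ⟨16 * M₀ * t * d i, M₀ * ell k₀, fun N hN => ?_⟩
  have hM₀pos : 0 < M₀ := by omega
  have hex : ∃ k, N < M₀ * ell k := by
    refine ⟨N + 1, ?_⟩
    have h1 := le_NN (N + 1)
    have h2 : NN (N + 1) ≤ ell (N + 1) := by unfold ell; omega
    have h3 : ell (N + 1) ≤ M₀ * ell (N + 1) := Nat.le_mul_of_pos_left _ hM₀pos
    omega
  classical
  set k' := Nat.find hex with hk'
  have h1 : N < M₀ * ell k' := Nat.find_spec hex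
  have h2 : k₀ < k' := by
    by_contra hc
    push Not at hc
    have h3 : ell k' ≤ ell k₀ := by unfold ell; have := NN_mono hc; omega
    have h4 := Nat.mul_le_mul_left M₀ h3
    omega
  obtain ⟨k, hkk⟩ : ∃ k, k' = k + 1 := ⟨k' - 1, by omega⟩
  have h3 : ¬ (N < M₀ * ell k) := Nat.find_min hex (by omega)
  push Not at h3
  have hk0 : k₀ ≤ k := by omega
  have hk1 : κ i ≤ k := (le_max_left _ _).trans hk0
  have hk2 : N₀ ≤ k := (le_max_left _ _).trans ((le_max_right _ _).trans hk0)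
  have hk3 : M₀ ≤ k := (le_max_right _ _).trans ((le_max_right _ _).trans hk0)
  have hMk : M₀ ≤ Mk k := hk3.trans (Mk_ge k)
  have hMm : Mk k * ell k = NN (k + 1) := Mk_mul (by have := hκ i; omega)
  have hℓ := ell_pos k
  by_cases hcase : N < NN (k + 1)
  · set M := N / ell k with hM
    have e1 : M₀ ≤ M := (Nat.le_div_iff_mul_le hℓ).2 h3
    have e2 : M ≤ Mk k := by
      rw [← hMm] at hcase
      exact ((Nat.div_lt_iff_lt_mul hℓ).2 hcase).le
    have e3 := main k M hk1 hk2 e1 e2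
    have e4 : M * ell k ≤ N := Nat.div_mul_le_self _ _
    have e5 : N ≤ 2 * (M * ell k) := by
      have f1 := Nat.lt_mul_div_succ N hℓ
      have f2 : ell k * (N / ell k + 1) = M * ell k + ell k := by rw [hM]; ring
      have f3 : ell k ≤ M * ell k := Nat.le_mul_of_pos_left _ (by omega)
      omega
    have e6 := cnt_mono (D A d κ i) e4
    calc N ≤ 2 * (M * ell k) := e5
      _ ≤ 2 * (4 * t * d i * cnt (D A d κ i) (M * ell k)) := by omega
      _ ≤ 2 * (4 * t * d i * cnt (D A d κ i) N) := by gcongr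
      _ = 8 * (t * d i * cnt (D A d κ i) N) := by ring
      _ ≤ 16 * M₀ * (t * d i * cnt (D A d κ i) N) := by
          refine Nat.mul_le_mul_right _ ?_
          omega
      _ = 16 * M₀ * t * d i * cnt (D A d κ i) N := by ring
  · push Not at hcase
    have e3 := main k (Mk k) hk1 hk2 hMk le_rfl
    rw [hMm] at e3
    have e6 := cnt_mono (D A d κ i) hcase
    rw [hkk] at h1
    calc N ≤ M₀ * ell (k + 1) := h1.le
      _ = 4 * M₀ * NN (k + 1) := by unfold ell; ring
      _ ≤ 4 * M₀ * (4 * t * d i * cnt (D A d κ i) (NN (k + 1))) := by gcongr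
      _ ≤ 4 * M₀ * (4 * t * d i * cnt (D A d κ i) N) := by gcongr
      _ = 16 * M₀ * t * d i * cnt (D A d κ i) N := by ring

end Construct

lemma level_unique {k l b : ℕ} (h1 : NN k ≤ b) (h2 : b < NN (k + 1)) (h3 : NN l ≤ b)
    (h4 : b < NN (l + 1)) : k = l := by
  rcases lt_trichotomy k l with h | h | h
  · have := NN_mono (show k + 1 ≤ l from h); omega
  · exact h
  · have := NN_mono (show l + 1 ≤ k from h); omega

/-- **Separation.** Inside sets of positive lower density one finds subsets of positive lower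
density, placed in a sparse scale, whose elements of the same index are `L i`-separated and whose
elements of different indices are separated by the size of the level. -/
theorem separation (A : ℕ → Set ℕ) (hA : ∀ i, PLD (A i)) (L : ℕ → ℕ) (hL : ∀ i, 0 < L i)
    (κ : ℕ → ℕ) : ∃ B : ℕ → Set ℕ, (∀ i, B i ⊆ A i) ∧ (∀ i, PLD (B i)) ∧
      (∀ i, ∀ b ∈ B i, ∃ k, κ i ≤ k ∧ 8 * NN k ≤ b ∧ b + 4 * NN k < NN (k + 1)) ∧
      (∀ i, ∀ a ∈ B i, ∀ b ∈ B i, a < b → a + L i ≤ b) ∧
      (∀ i j, i ≠ j → ∀ a ∈ B i, ∀ b ∈ B j, ∀ k, 8 * NN k ≤ b → b < NN (k + 1) → a ≤ b →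
        a + 4 * NN k ≤ b) := by
  choose d' N₀ h using hA
  set d : ℕ → ℕ := fun i => 2 * (d' i + 1) with hd
  set κ' : ℕ → ℕ := fun i => κ i + i + 1 with hκ'
  have hd0 : ∀ i, 0 < d i := fun i => by simp only [hd]; omega
  have hκ0 : ∀ i, i < κ' i := fun i => by simp only [hκ']; omega
  have hA' : ∀ i N, N₀ i ≤ N → N ≤ (d' i + 1) * cnt (A i) N := by
    intro i N hN
    refine (h i N hN).trans ?_
    gcongr
    omega
  -- the level of a point
  have hlev : ∀ i, ∀ b ∈ D A d κ' i, ∃ k, κ i ≤ k ∧ 8 * NN k ≤ b ∧ b + 4 * NN k < NN (k + 1) ∧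
      b / ell k ∈ T A d κ' i k := by
    intro i b hb
    obtain ⟨-, k, hk⟩ := hb
    have hG := hk.1.1
    obtain ⟨g1, g2, g3, -⟩ := hG
    have hℓ := ell_pos k
    have g1' : κ i + i + 1 ≤ k := g1
    have hMm : Mk k * ell k = NN (k + 1) := Mk_mul (by omega)
    have e1 : 2 * ell k ≤ b := (Nat.le_div_iff_mul_le hℓ).1 g2
    have e2 := Nat.lt_mul_div_succ b hℓ
    have e3 : (b / ell k + 1 + 1) * ell k ≤ Mk k * ell k := Nat.mul_le_mul_right _ g3
    have e4 : (b / ell k + 1 + 1) * ell k = ell k * (b / ell k + 1) + ell k := by ring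
    refine ⟨k, by omega, ?_, ?_, hk⟩
    · unfold ell at e1; omega
    · unfold ell at e2 e3 e4 hMm; omega
  refine ⟨fun i => thin (D A d κ' i) (L i), fun i n hn => (thin_subset _ _ hn).1, fun i => ?_,
    fun i b hb => ?_, fun i a ha b hb hab => thin_sep ha hb hab, ?_⟩
  · exact (D_density hd0 hκ0 rfl (hA' i)).thin (hL i)
  · obtain ⟨k, h1, h2, h3, -⟩ := hlev i b (thin_subset _ _ hb)
    exact ⟨k, h1, h2, h3⟩
  · intro i j hij a ha b hb k hk1 hk2 hab
    obtain ⟨ka, -, a2, a3, a4⟩ := hlev i a (thin_subset _ _ ha)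
    obtain ⟨kb, -, b2, b3, b4⟩ := hlev j b (thin_subset _ _ hb)
    obtain rfl : kb = k := level_unique (b := b) (by omega) (by omega) (by omega) (by omega)
    rcases lt_trichotomy ka kb with h | h | h
    · have := NN_mono (show ka + 1 ≤ kb from h); omega
    · subst h
      have hℓ := ell_pos ka
      have e1 : a / ell ka ≤ b / ell ka := Nat.div_le_div_right hab
      have e2 : a / ell ka + 2 ≤ b / ell ka := by
        have f1 : b / ell ka ≠ a / ell ka ∧ b / ell ka ≠ a / ell ka + 1 := by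
          rcases lt_or_gt_of_ne hij with hlt | hgt
          · obtain ⟨g1, g2, -⟩ := a4.2 j hlt
            exact ⟨fun e => g1 (e ▸ b4.1), fun e => g2 (e ▸ b4.1)⟩
          · obtain ⟨g1, -, g3⟩ := b4.2 i hgt
            exact ⟨fun e => g1 (e ▸ a4.1), fun e => g3 ⟨_, e.symm, a4.1⟩⟩
        omega
      have e3 := Nat.lt_mul_div_succ a hℓ
      have e4 : (a / ell ka + 2) * ell ka ≤ b := (Nat.le_div_iff_mul_le hℓ).1 e2
      have e5 : (a / ell ka + 2) * ell ka = ell ka * (a / ell ka + 1) + ell ka := by ring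
      unfold ell at e3 e4 e5
      omega
    · have := NN_mono (show kb + 1 ≤ ka from h); omega

end Q101Hf
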