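import Pool.Agent.Q101.HfA

/-!
# A windowed sequence space and its backward shift
-/

namespace Q101Hf

open Finset

/-! ### Weights -/

/-- The monotone majorant of the weight of the `k`-th window. -/
noncomputable def wt (k n : ℕ) : ℝ := 1 / (NN k : ℝ) * (1 / 16) ^ (n - 2 * NN k)

/-- The weight of the `k`-th window. -/
noncomputable def w (k n : ℕ) : ℝ := if NN k ≤ n + 1 then wt k n else 0

lemma NNR_pos (k : ℕ) : (0 : ℝ) < NN k := by exact_mod_cast NN_pos k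

lemma NNR_one (k : ℕ) : (1 : ℝ) ≤ NN k := by exact_mod_cast NN_pos k

lemma wt_pos (k n : ℕ) : 0 < wt k n := by
  have := NNR_pos k
  unfold wt; positivity

lemma w_nonneg (k n : ℕ) : 0 ≤ w k n := by
  unfold w; split_ifs
  · exact (wt_pos k n).le
  · exact le_rfl

lemma w_le_wt (k n : ℕ) : w k n ≤ wt k n := by
  unfold w; split_ifs
  · exact le_rfl
  · exact (wt_pos k n).le

lemma wt_le_one (k n : ℕ) : wt k n ≤ 1 := by
  unfold wt
  have h1 : 1 / (NN k : ℝ) ≤ 1 := by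
    rw [div_le_one (NNR_pos k)]; exact NNR_one k
  have h2 : ((1 : ℝ) / 16) ^ (n - 2 * NN k) ≤ 1 := pow_le_one₀ (by norm_num) (by norm_num)
  exact mul_le_one₀ h1 (by positivity) h2

lemma wt_anti (k : ℕ) {m n : ℕ} (h : m ≤ n) : wt k n ≤ wt k m := by
  unfold wt
  have := NNR_pos k
  refine mul_le_mul_of_nonneg_left ?_ (by positivity)
  exact pow_le_pow_of_le_one (by norm_num) (by norm_num) (by omega)

lemma w_le_succ (k n : ℕ) : w k n ≤ 16 * w k (n + 1) := by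
  have hN := NNR_pos k
  by_cases h : NN k ≤ n + 1
  · rw [w, if_pos h, w, if_pos (by omega)]
    unfold wt
    have h1 : ((1 : ℝ) / 16) ^ ((n - 2 * NN k) + 1) ≤ (1 / 16) ^ (n + 1 - 2 * NN k) :=
      pow_le_pow_of_le_one (by norm_num) (by norm_num) (by omega)
    rw [pow_succ] at h1
    have h2 : (0 : ℝ) < 1 / (NN k : ℝ) := by positivity
    have h3 := mul_le_mul_of_nonneg_left h1 h2.le
    linarith
  · rw [w, if_neg h]
    have := w_nonneg k (n + 1)
    positivity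

lemma w_zero_pos (n : ℕ) : 0 < w 0 n := by
  have : NN 0 ≤ n + 1 := by simp [NN]
  rw [w, if_pos this]
  exact wt_pos 0 n

lemma w_eq_zero {k n : ℕ} (h : n + 1 < NN k) : w k n = 0 := by
  rw [w, if_neg (by omega)]

/-- Far from the window, the weight is exponentially small. -/
lemma wt_far {k n : ℕ} (h : 4 * NN k ≤ n) : wt k n ≤ (1 / 4) ^ n := by
  unfold wt
  have h1 : 1 / (NN k : ℝ) ≤ 1 := by
    rw [div_le_one (NNR_pos k)]; exact NNR_one k
  have h2 : ((1 : ℝ) / 16) ^ (n - 2 * NN k) ≤ (1 / 4) ^ n := by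
    have : ((1 : ℝ) / 16) = (1 / 4) ^ 2 := by norm_num
    rw [this, ← pow_mul]
    exact pow_le_pow_of_le_one (by norm_num) (by norm_num) (by omega)
  calc 1 / (NN k : ℝ) * (1 / 16) ^ (n - 2 * NN k) ≤ 1 * (1 / 4) ^ n :=
        mul_le_mul h1 h2 (by positivity) (by norm_num)
    _ = _ := one_mul _

lemma wt_sum (k M : ℕ) : ∑ n ∈ range M, wt k n ≤ 4 := by
  have hN := NNR_one k
  have h1 : ∑ n ∈ range M, wt k n ≤ ∑ n ∈ range (2 * NN k + M), wt k n :=
    sum_le_sum_of_subset_of_nonneg (range_mono (by omega)) fun n _ _ => (wt_pos k n).le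
  refine h1.trans ?_
  unfold wt
  rw [← mul_sum, sum_range_add]
  have h2 : ∑ n ∈ range (2 * NN k), ((1 : ℝ) / 16) ^ (n - 2 * NN k) ≤ 2 * NN k := by
    refine (sum_le_sum fun n _ => (pow_le_one₀ (n := n - 2 * NN k) (by norm_num)
      (by norm_num : ((1 : ℝ) / 16) ≤ 1))).trans ?_
    simp
  have h3 : ∑ n ∈ range M, ((1 : ℝ) / 16) ^ (2 * NN k + n - 2 * NN k) ≤ 2 := by
    refine (sum_le_sum fun n _ => ?_).trans (sum_geometric_two_le M)
    rw [Nat.add_sub_cancel_left]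
    exact pow_le_pow_left₀ (by norm_num) (by norm_num) n
  have h4 : (0 : ℝ) < 1 / (NN k : ℝ) := by positivity
  calc 1 / (NN k : ℝ) * (∑ n ∈ range (2 * NN k), ((1 : ℝ) / 16) ^ (n - 2 * NN k) +
        ∑ n ∈ range M, ((1 : ℝ) / 16) ^ (2 * NN k + n - 2 * NN k))
      ≤ 1 / (NN k : ℝ) * (2 * NN k + 2) := mul_le_mul_of_nonneg_left (add_le_add h2 h3) h4.le
    _ ≤ 4 := by
        rw [one_div, inv_mul_le_iff₀ (by positivity)]
        linarith

/-! ### Weighted `ℓ¹`-norms of finitely supported sequences -/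

variable {𝕜 : Type} [RCLike 𝕜]

/-- Weighted `ℓ¹`-norm. -/
noncomputable def wn (v : ℕ → ℝ) (y : ℕ →₀ 𝕜) : ℝ := y.sum fun n a => v n * ‖a‖

lemma wn_eq_sum (v : ℕ → ℝ) (y : ℕ →₀ 𝕜) {s : Finset ℕ} (h : y.support ⊆ s) :
    wn v y = ∑ n ∈ s, v n * ‖y n‖ :=
  Finsupp.sum_of_support_subset _ h _ fun _ _ => by simp

lemma exists_bd (y : ℕ →₀ 𝕜) : ∃ M, ∀ n, M ≤ n → y n = 0 := by
  obtain ⟨M, hM⟩ := y.support.bddAbove
  refine ⟨M + 1, fun n hn => ?_⟩
  by_contra h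
  have := hM (Finsupp.mem_support_iff.2 h)
  omega

lemma wn_eq_range (v : ℕ → ℝ) (y : ℕ →₀ 𝕜) {M : ℕ} (h : ∀ n, M ≤ n → y n = 0) :
    wn v y = ∑ n ∈ range M, v n * ‖y n‖ := by
  refine wn_eq_sum v y fun n hn => ?_
  rw [mem_range]
  by_contra hc
  exact (Finsupp.mem_support_iff.1 hn) (h n (by omega))

lemma wn_nonneg {v : ℕ → ℝ} (hv : ∀ n, 0 ≤ v n) (y : ℕ →₀ 𝕜) : 0 ≤ wn v y :=
  sum_nonneg fun n _ => mul_nonneg (hv n) (norm_nonneg _)

lemma wn_mono {v v' : ℕ → ℝ} (h : ∀ n, v n ≤ v' n) (y : ℕ →₀ 𝕜) : wn v y ≤ wn v' y :=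
  sum_le_sum fun n _ => mul_le_mul_of_nonneg_right (h n) (norm_nonneg _)

lemma wn_zero (v : ℕ → ℝ) : wn v (0 : ℕ →₀ 𝕜) = 0 := by simp [wn]

lemma wn_add_le {v : ℕ → ℝ} (hv : ∀ n, 0 ≤ v n) (x y : ℕ →₀ 𝕜) :
    wn v (x + y) ≤ wn v x + wn v y := by
  obtain ⟨M, hM⟩ := exists_bd x
  obtain ⟨M', hM'⟩ := exists_bd y
  rw [wn_eq_range v x (M := max M M') fun n hn => hM n ((le_max_left _ _).trans hn),
    wn_eq_range v y (M := max M M') fun n hn => hM' n ((le_max_right _ _).trans hn),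
    wn_eq_range v (x + y) (M := max M M') fun n hn => by
      rw [Finsupp.add_apply, hM n ((le_max_left _ _).trans hn),
        hM' n ((le_max_right _ _).trans hn), add_zero], ← sum_add_distrib]
  refine sum_le_sum fun n _ => ?_
  rw [← mul_add]
  exact mul_le_mul_of_nonneg_left (norm_add_le _ _) (hv n)

lemma wn_smul (v : ℕ → ℝ) (c : 𝕜) (y : ℕ →₀ 𝕜) : wn v (c • y) = ‖c‖ * wn v y := by
  obtain ⟨M, hM⟩ := exists_bd y
  rw [wn_eq_range v y hM, wn_eq_range v (c • y) (M := M) fun n hn => by simp [hM n hn], mul_sum]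
  refine sum_congr rfl fun n _ => ?_
  rw [Finsupp.smul_apply, smul_eq_mul, norm_mul]
  ring

lemma wn_sum_le {v : ℕ → ℝ} (hv : ∀ n, 0 ≤ v n) {ι : Type} (s : Finset ι) (f : ι → ℕ →₀ 𝕜) :
    wn v (∑ i ∈ s, f i) ≤ ∑ i ∈ s, wn v (f i) := by
  classical
  induction s using Finset.induction_on with
  | empty => simp [wn_zero]
  | insert a s ha ih =>
    rw [sum_insert ha, sum_insert ha]
    exact (wn_add_le hv _ _).trans (add_le_add_right ih _)

lemma le_wn {v : ℕ → ℝ} (hv : ∀ n, 0 ≤ v n) (y : ℕ →₀ 𝕜) (n : ℕ) : v n * ‖y n‖ ≤ wn v y := by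
  rw [wn_eq_sum v y (s := insert n y.support) (subset_insert _ _)]
  exact single_le_sum (f := fun n => v n * ‖y n‖) (fun i _ => mul_nonneg (hv i) (norm_nonneg _))
    (mem_insert_self _ _)

/-! ### The space of finitely supported sequences -/

/-- Finitely supported sequences, with the windowed norm. -/
def V (𝕜 : Type) [RCLike 𝕜] : Type := ℕ →₀ 𝕜

noncomputable instance : AddCommGroup (V 𝕜) := inferInstanceAs (AddCommGroup (ℕ →₀ 𝕜))
noncomputable instance : Module 𝕜 (V 𝕜) := inferInstanceAs (Module 𝕜 (ℕ →₀ 𝕜))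

/-- The norm of a finitely supported sequence. -/
noncomputable instance : Norm (V 𝕜) := ⟨fun y => ⨆ k, wn (w k) (show ℕ →₀ 𝕜 from y)⟩

lemma norm_def (y : V 𝕜) : ‖y‖ = ⨆ k, wn (w k) (show ℕ →₀ 𝕜 from y) := rfl

lemma bdd (y : ℕ →₀ 𝕜) : BddAbove (Set.range fun k => wn (w k) y) :=
  ⟨wn (fun _ => 1) y, by
    rintro _ ⟨k, rfl⟩
    exact wn_mono (fun n => (w_le_wt k n).trans (wt_le_one k n)) y⟩

lemma wn_le_norm (k : ℕ) (y : V 𝕜) : wn (w k) (show ℕ →₀ 𝕜 from y) ≤ ‖y‖ :=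
  le_ciSup (bdd (show ℕ →₀ 𝕜 from y)) k

lemma norm_le_of {y : V 𝕜} {C : ℝ} (h : ∀ k, wn (w k) (show ℕ →₀ 𝕜 from y) ≤ C) : ‖y‖ ≤ C :=
  ciSup_le h

lemma coreV : NormedSpace.Core 𝕜 (V 𝕜) where
  norm_nonneg y := (wn_nonneg (w_nonneg 0) _).trans (wn_le_norm 0 y)
  norm_smul c y := by
    rw [norm_def, norm_def, Real.mul_iSup_of_nonneg (norm_nonneg c)]
    exact congrArg _ (funext fun k => wn_smul (w k) c _)
  norm_triangle x y := norm_le_of fun k =>
    (wn_add_le (w_nonneg k) (show ℕ →₀ 𝕜 from x) (show ℕ →₀ 𝕜 from y)).trans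
      (add_le_add (wn_le_norm k x) (wn_le_norm k y))
  norm_eq_zero_iff y := by
    constructor
    · intro h
      refine Finsupp.ext fun n => ?_
      have h1 := (le_wn (w_nonneg 0) (show ℕ →₀ 𝕜 from y) n).trans (wn_le_norm 0 y)
      rw [h] at h1
      have h2 := w_zero_pos n
      have h3 : ‖(show ℕ →₀ 𝕜 from y) n‖ ≤ 0 := by
        by_contra hc
        push Not at hc
        have := mul_pos h2 hc
        linarith
      exact norm_le_zero_iff.1 h3
    · rintro rfl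
      rw [norm_def]
      have : (fun k => wn (w k) (show ℕ →₀ 𝕜 from (0 : V 𝕜))) = fun _ => 0 :=
        funext fun k => wn_zero (w k)
      rw [this, ciSup_const]

noncomputable instance : NormedAddCommGroup (V 𝕜) := NormedAddCommGroup.ofCore (coreV (𝕜 := 𝕜))
noncomputable instance : NormedSpace 𝕜 (V 𝕜) := NormedSpace.ofCore (coreV (𝕜 := 𝕜))

/-- The coordinates of an element of `V`. -/
noncomputable def cV (n : ℕ) : V 𝕜 →ₗ[𝕜] 𝕜 := Finsupp.lapply (R := 𝕜) (M := 𝕜) n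

/-- The forward shift by `n` positions. -/
noncomputable def S (n : ℕ) (y : V 𝕜) : V 𝕜 := Finsupp.mapDomain (M := 𝕜) (· + n) y

lemma S_apply_add (n : ℕ) (y : V 𝕜) (l : ℕ) : cV (l + n) (S n y) = cV l y :=
  Finsupp.mapDomain_apply (add_left_injective n) _ l

lemma S_apply_lt {n l : ℕ} (y : V 𝕜) (h : l < n) : cV l (S n y) = 0 :=
  Finsupp.mapDomain_of_notMem_range _ _ (by rintro ⟨a, ha⟩; simp only at ha; omega)

lemma V_ext {x y : V 𝕜} (h : ∀ n, cV n x = cV n y) : x = y := Finsupp.ext h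

lemma wn_S (v : ℕ → ℝ) (n : ℕ) (y : V 𝕜) :
    wn v (show ℕ →₀ 𝕜 from S n y) = wn (fun t => v (t + n)) (show ℕ →₀ 𝕜 from y) := by
  unfold wn
  exact Finsupp.sum_mapDomain_index_inj (add_left_injective n)

/-- The backward shift on finitely supported sequences. -/
noncomputable def TV : V 𝕜 →ₗ[𝕜] V 𝕜 :=
  Finsupp.lcomapDomain (R := 𝕜) (M := 𝕜) Nat.succ Nat.succ_injective

lemma TV_apply (y : V 𝕜) (n : ℕ) : cV n (TV y) = cV (n + 1) y := rfl

lemma norm_TV_le (y : V 𝕜) : ‖TV y‖ ≤ 16 * ‖y‖ := by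
  refine norm_le_of fun k => ?_
  obtain ⟨M, hM⟩ := exists_bd (show ℕ →₀ 𝕜 from y)
  refine le_trans ?_ (mul_le_mul_of_nonneg_left (wn_le_norm k y) (by norm_num))
  rw [wn_eq_range (w k) (show ℕ →₀ 𝕜 from TV y) (M := M) fun n hn => hM (n + 1) (by omega),
    wn_eq_range (w k) (show ℕ →₀ 𝕜 from y) (M := M + 1) fun n hn => hM n (by omega),
    sum_range_succ', mul_add, mul_sum]
  refine le_trans (sum_le_sum fun n _ => ?_) (le_add_of_nonneg_right
    (mul_nonneg (by norm_num) (mul_nonneg (w_nonneg k 0) (norm_nonneg _))))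
  have h1 := mul_le_mul_of_nonneg_right (w_le_succ k n)
    (norm_nonneg ((show ℕ →₀ 𝕜 from y) (n + 1)))
  have h2 : (show ℕ →₀ 𝕜 from TV y) n = (show ℕ →₀ 𝕜 from y) (n + 1) := rfl
  rw [h2]
  linarith

/-! ### The Banach space -/

/-- The Banach space of the construction. -/
abbrev X (𝕜 : Type) [RCLike 𝕜] : Type := UniformSpace.Completion (V 𝕜)

/-- The embedding. -/
noncomputable def emb : V 𝕜 →L[𝕜] X 𝕜 := UniformSpace.Completion.toComplL

lemma norm_emb (y : V 𝕜) : ‖emb y‖ = ‖y‖ := UniformSpace.Completion.norm_coe y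

lemma dense_emb : DenseRange (emb : V 𝕜 → X 𝕜) := UniformSpace.Completion.denseRange_coe

/-- The backward shift. -/
noncomputable def Tb : X 𝕜 →L[𝕜] X 𝕜 :=
  LinearMap.extendOfNorm ((emb (𝕜 := 𝕜)).toLinearMap ∘ₗ TV) (emb (𝕜 := 𝕜)).toLinearMap

lemma T_emb (y : V 𝕜) : Tb (emb y) = emb (TV y) := by
  refine LinearMap.extendOfNorm_eq (f := (emb (𝕜 := 𝕜)).toLinearMap ∘ₗ TV)
    (e := (emb (𝕜 := 𝕜)).toLinearMap) dense_emb ⟨16, fun x => ?_⟩ y
  change ‖emb (TV x)‖ ≤ 16 * ‖emb x‖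
  rw [norm_emb, norm_emb]
  exact norm_TV_le x

/-- The coordinate functionals. -/
noncomputable def co (n : ℕ) : X 𝕜 →L[𝕜] 𝕜 :=
  LinearMap.extendOfNorm (cV n) (emb (𝕜 := 𝕜)).toLinearMap

lemma co_emb (n : ℕ) (y : V 𝕜) : co n (emb y) = cV n y := by
  refine LinearMap.extendOfNorm_eq (f := cV n)
    (e := (emb (𝕜 := 𝕜)).toLinearMap) dense_emb ⟨1 / w 0 n, fun x => ?_⟩ y
  change ‖cV n x‖ ≤ 1 / w 0 n * ‖emb x‖
  rw [norm_emb, one_div, ← div_eq_inv_mul, le_div_iff₀ (w_zero_pos n), mul_comm]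
  exact (le_wn (w_nonneg 0) (show ℕ →₀ 𝕜 from x) n).trans (wn_le_norm 0 x)

lemma co_T (n : ℕ) (x : X 𝕜) : co n (Tb x) = co (n + 1) x := by
  refine dense_emb.induction_on (p := fun x => co n (Tb x) = co (n + 1) x) x ?_ ?_
  · exact isClosed_eq ((co n).continuous.comp (Tb (𝕜 := 𝕜)).continuous) (co (n + 1)).continuous
  · intro y
    rw [T_emb, co_emb, co_emb, TV_apply]

lemma co_T_iter (m n : ℕ) (x : X 𝕜) : co n (Tb^[m] x) = co (n + m) x := by
  induction m generalizing x with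
  | zero => rfl
  | succ m ih =>
    rw [Function.iterate_succ_apply, ih, co_T]
    rw [show n + (m + 1) = n + m + 1 by ring]

/-- The windows of an element of the space are controlled by its norm. -/
lemma window_le (k : ℕ) (x : X 𝕜) :
    ∑ n ∈ Ico (NN k) (2 * NN k), ‖co n x‖ ≤ NN k * ‖x‖ := by
  refine dense_emb.induction_on
    (p := fun x => ∑ n ∈ Ico (NN k) (2 * NN k), ‖co n x‖ ≤ NN k * ‖x‖) x ?_ ?_
  · refine isClosed_le ?_ (continuous_const.mul continuous_norm)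
    exact continuous_finsetSum _ fun n _ => (co n).continuous.norm
  · intro y
    rw [norm_emb]
    have hN := NNR_pos k
    refine le_trans ?_ (mul_le_mul_of_nonneg_left (wn_le_norm k y) hN.le)
    rw [wn_eq_sum (w k) (show ℕ →₀ 𝕜 from y)
      (s := Ico (NN k) (2 * NN k) ∪ Finsupp.support (show ℕ →₀ 𝕜 from y)) subset_union_right,
      mul_sum]
    refine le_trans (le_of_eq ?_) (sum_le_sum_of_subset_of_nonneg subset_union_left
      fun n _ _ => mul_nonneg hN.le (mul_nonneg (w_nonneg k n) (norm_nonneg _)))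
    refine sum_congr rfl fun n hn => ?_
    obtain ⟨h1, h2⟩ := mem_Ico.1 hn
    rw [co_emb, w, if_pos (by omega), wt, Nat.sub_eq_zero_of_le h2.le, pow_zero, mul_one,
      ← mul_assoc, mul_one_div, div_self hN.ne', one_mul]
    rfl

/-- The averages over the windows tend to zero. -/
lemma window_small (x : X 𝕜) {δ : ℝ} (hδ : 0 < δ) : ∃ k₀, ∀ k, k₀ ≤ k →
    ∑ n ∈ Ico (NN k) (2 * NN k), ‖co n x‖ ≤ NN k * δ := by
  obtain ⟨y, hy⟩ := dense_emb.exists_dist_lt x hδ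
  obtain ⟨M, hM⟩ := exists_bd (show ℕ →₀ 𝕜 from y)
  refine ⟨M, fun k hk => ?_⟩
  have h1 : ∀ n ∈ Ico (NN k) (2 * NN k), ‖co n x‖ = ‖co n (x - emb y)‖ := by
    intro n hn
    have h2 : co n (emb y) = 0 := by
      rw [co_emb]
      have := (mem_Ico.1 hn).1
      have h3 := le_NN k
      exact hM n (by omega)
    rw [map_sub, h2, sub_zero]
  rw [sum_congr rfl h1]
  refine (window_le k _).trans ?_
  rw [← dist_eq_norm]
  exact mul_le_mul_of_nonneg_left hy.le (NNR_pos k).le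

end Q101Hf
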