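import Pool.Agent.Q101.HfB

/-!
# The backward shift is hereditarily frequently hypercyclic
-/

namespace Q101Hf

open Finset

variable {𝕜 : Type} [RCLike 𝕜]

/-- The `ℓ¹`-norm. -/
noncomputable def l1 (y : V 𝕜) : ℝ := wn (fun _ => 1) (show ℕ →₀ 𝕜 from y)

lemma l1_nonneg (y : V 𝕜) : 0 ≤ l1 y := wn_nonneg (fun _ => zero_le_one) _

lemma wn_const_mul (c : ℝ) (v : ℕ → ℝ) (y : ℕ →₀ 𝕜) : wn (fun n => c * v n) y = c * wn v y := by
  unfold wn Finsupp.sum
  rw [mul_sum]
  exact sum_congr rfl fun n _ => by ring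

/-- The weighted norm of a shifted vector. -/
lemma wn_S_le (k n : ℕ) (y : V 𝕜) : wn (w k) (show ℕ →₀ 𝕜 from S n y) ≤ wt k n * l1 y := by
  rw [wn_S]
  have h1 : wn (fun t => w k (t + n)) (show ℕ →₀ 𝕜 from y) ≤
      wn (fun _ => wt k n * 1) (show ℕ →₀ 𝕜 from y) := by
    refine wn_mono (fun t => ?_) _
    rw [mul_one]
    exact (w_le_wt k _).trans (wt_anti k (by omega))
  refine h1.trans (le_of_eq ?_)
  exact wn_const_mul (wt k n) (fun _ => 1) _

/-- The shifted vector does not meet the far windows. -/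
lemma wn_S_zero {k n K : ℕ} {y : V 𝕜} (hK : ∀ t, K ≤ t → cV t y = 0) (h : n + K < NN k) :
    wn (w k) (show ℕ →₀ 𝕜 from S n y) = 0 := by
  rw [wn_S, wn_eq_range (fun t => w k (t + n)) (show ℕ →₀ 𝕜 from y) (M := K) hK]
  refine sum_eq_zero fun t ht => ?_
  have ht := mem_range.1 ht
  rw [w_eq_zero (by omega), zero_mul]

/-- Far shifts of a vector active at level `k'` are exponentially small. -/
lemma norm_S_le {k' n b K : ℕ} {y : V 𝕜} (hK : ∀ t, K ≤ t → cV t y = 0) (hK' : K ≤ 4 * NN k')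
    (hy : l1 y ≤ NN k') (hb : b + 4 * NN k' < NN (k' + 1)) (hn : 4 * NN k' ≤ n) (hnb : n ≤ b) :
    ‖S n y‖ ≤ (1 / 2) ^ n := by
  refine norm_le_of fun k => ?_
  rcases Nat.lt_or_ge k' k with h | h
  · have := NN_mono (show k' + 1 ≤ k from h)
    rw [wn_S_zero hK (by omega)]
    positivity
  · have h1 := NN_mono h
    refine (wn_S_le k n y).trans ?_
    have h2 : wt k n ≤ (1 / 4) ^ n := wt_far (by omega)
    have h3 : l1 y ≤ 2 ^ n := by
      refine hy.trans ?_
      have h4 : NN k' ≤ 2 ^ n := by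
        have := (Nat.lt_two_pow_self (n := n)).le
        omega
      exact_mod_cast h4
    calc wt k n * l1 y ≤ (1 / 4) ^ n * 2 ^ n := mul_le_mul h2 h3 (l1_nonneg y) (by positivity)
      _ = (1 / 2) ^ n := by rw [← mul_pow]; norm_num

/-! ### The shifts -/

lemma cV_S (n l : ℕ) (y : V 𝕜) : cV l (S n y) = if n ≤ l then cV (l - n) y else 0 := by
  split_ifs with h
  · have := S_apply_add n y (l - n)
    rwa [Nat.sub_add_cancel h] at this
  · exact S_apply_lt y (by omega)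

lemma cV_TV_iter (m l : ℕ) (y : V 𝕜) : cV l (TV^[m] y) = cV (l + m) y := by
  induction m generalizing y with
  | zero => rfl
  | succ m ih =>
    rw [Function.iterate_succ_apply, ih, TV_apply, add_assoc]

lemma TV_iter_S {m n : ℕ} (h : m ≤ n) (y : V 𝕜) : TV^[m] (S n y) = S (n - m) y := by
  refine V_ext fun l => ?_
  rw [cV_TV_iter, cV_S, cV_S]
  by_cases h1 : n ≤ l + m
  · rw [if_pos h1, if_pos (by omega), show l + m - n = l - (n - m) by omega]
  · rw [if_neg h1, if_neg (by omega)]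

lemma S_zero (y : V 𝕜) : S 0 y = y := by
  refine V_ext fun l => ?_
  rw [cV_S, if_pos (Nat.zero_le _), Nat.sub_zero]

lemma TV_iter_S_zero {m n K : ℕ} {y : V 𝕜} (hK : ∀ t, K ≤ t → cV t y = 0) (h : n + K ≤ m) :
    TV^[m] (S n y) = 0 := by
  refine V_ext fun l => ?_
  rw [cV_TV_iter, cV_S, if_pos (by omega), hK _ (by omega), map_zero]

lemma Tb_iter_emb (m : ℕ) (y : V 𝕜) : Tb^[m] (emb y) = emb (TV^[m] y) := by
  induction m generalizing y with
  | zero => rfl
  | succ m ih => rw [Function.iterate_succ_apply, T_emb, ih, Function.iterate_succ_apply]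

/-! ### Two sums -/

/-- The sum of the values of a monotone weight over a separated set. -/
lemma sum_wt_sep (k m L : ℕ) (hL : 0 < L) (s : Finset ℕ) (hs : ∀ b ∈ s, m + L ≤ b)
    (hsep : ∀ a ∈ s, ∀ b ∈ s, a < b → a + L ≤ b) : ∑ b ∈ s, wt k (b - m) ≤ 4 / L := by
  have hLR : (0 : ℝ) < L := by exact_mod_cast hL
  rw [le_div_iff₀ hLR, sum_mul]
  have h1 : ∑ b ∈ s, wt k (b - m) * L ≤ ∑ b ∈ s, ∑ r ∈ range L, wt k (b - m - r) := by
    refine sum_le_sum fun b _ => ?_
    have : wt k (b - m) * L = ∑ r ∈ range L, wt k (b - m) := by simp [mul_comm]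
    rw [this]
    exact sum_le_sum fun r _ => wt_anti k (by omega)
  refine h1.trans ?_
  rw [← sum_product']
  obtain ⟨M, hM⟩ : ∃ M, ∀ b ∈ s, b < M := by
    obtain ⟨M, hM⟩ := s.bddAbove
    exact ⟨M + 1, fun b hb => Nat.lt_succ_of_le (hM hb)⟩
  refine le_trans ?_ (wt_sum k M)
  have hinj : Set.InjOn (fun p : ℕ × ℕ => p.1 - m - p.2) ((s ×ˢ range L : Finset (ℕ × ℕ)) : Set _) := by
    rintro ⟨b, r⟩ hp ⟨b', r'⟩ hp' h
    simp only [coe_product, Set.mem_prod, mem_coe, mem_range] at hp hp'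
    simp only at h
    obtain ⟨h2, h3⟩ := hp
    obtain ⟨h4, h5⟩ := hp'
    have h6 := hs b h2
    have h7 := hs b' h4
    have h8 : b = b' := by
      rcases lt_trichotomy b b' with h | h | h
      · have := hsep b h2 b' h4 h; omega
      · exact h
      · have := hsep b' h4 b h2 h; omega
    subst h8
    have : r = r' := by omega
    rw [this]
  rw [← sum_image (f := fun n => wt k n) hinj]
  refine sum_le_sum_of_subset_of_nonneg ?_ fun n _ _ => (wt_pos k n).le
  intro n hn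
  obtain ⟨⟨b, r⟩, hp, rfl⟩ := mem_image.1 hn
  have := hM b (mem_product.1 hp).1
  rw [mem_range]
  simp only
  omega

/-- The sum of a geometric tail. -/
lemma sum_geom_tail (m P : ℕ) (s : Finset ℕ) :
    ∑ b ∈ s, (if m + P ≤ b then ((1 : ℝ) / 2) ^ (b - m) else 0) ≤ 2 * (1 / 2) ^ P := by
  rw [← sum_filter]
  set s' := s.filter fun b => m + P ≤ b with hs'
  have h1 : ∑ b ∈ s', ((1 : ℝ) / 2) ^ (b - m) = (1 / 2) ^ P * ∑ b ∈ s', (1 / 2) ^ (b - m - P) := by
    rw [mul_sum]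
    refine sum_congr rfl fun b hb => ?_
    have := (mem_filter.1 hb).2
    rw [← pow_add]
    congr 1
    omega
  rw [h1, mul_comm]
  refine mul_le_mul_of_nonneg_right ?_ (by positivity)
  obtain ⟨M, hM⟩ : ∃ M, ∀ b ∈ s', b < M := by
    obtain ⟨M, hM⟩ := s'.bddAbove
    exact ⟨M + 1, fun b hb => Nat.lt_succ_of_le (hM hb)⟩
  refine le_trans ?_ (sum_geometric_two_le M)
  have hinj : Set.InjOn (fun b : ℕ => b - m - P) (s' : Set ℕ) := by
    intro b hb b' hb' h
    have h1 := (mem_filter.1 (mem_coe.1 hb)).2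
    have h2 := (mem_filter.1 (mem_coe.1 hb')).2
    simp only at h
    omega
  rw [← sum_image (f := fun n => ((1 : ℝ) / 2) ^ n) hinj]
  refine sum_le_sum_of_subset_of_nonneg ?_ fun n _ _ => by positivity
  intro n hn
  obtain ⟨b, hb, rfl⟩ := mem_image.1 hn
  have := hM b hb
  rw [mem_range]
  omega

/-! ### The main theorem -/

lemma PLD.mono {A B : Set ℕ} (hA : PLD A) (h : A ⊆ B) : PLD B := by
  obtain ⟨d, N₀, hN⟩ := hA
  refine ⟨d, N₀, fun N hNN => (hN N hNN).trans (Nat.mul_le_mul_left d ?_)⟩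
  refine sum_le_sum fun n _ => ?_
  by_cases hn : n ∈ A
  · rw [ind_of_mem hn, ind_of_mem (h hn)]
  · rw [ind_of_not hn]; exact Nat.zero_le _

theorem hereditary (O : ℕ → Set (X 𝕜)) (hO : ∀ i, IsOpen (O i)) (hne : ∀ i, (O i).Nonempty)
    (A : ℕ → Set ℕ) (hA : ∀ i, PLD (A i)) :
    ∃ x : X 𝕜, ∀ i, PLD ({n | Tb^[n] x ∈ O i} ∩ A i) := by
  classical
  -- the targets
  have h0 : ∀ i, ∃ y : V 𝕜, ∃ ε : ℝ, 0 < ε ∧ Metric.ball (emb y) ε ⊆ O i := by
    intro i
    obtain ⟨y, hy⟩ := dense_emb.exists_mem_open (hO i) (hne i)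
    obtain ⟨ε, hε, h⟩ := Metric.isOpen_iff.1 (hO i) _ hy
    exact ⟨y, ε, hε, h⟩
  choose y ε hε hball using h0
  choose K hK using fun i => exists_bd (show ℕ →₀ 𝕜 from y i)
  have hK' : ∀ i t, K i ≤ t → cV t (y i) = 0 := hK
  set L : ℕ → ℕ := fun i => K i + ⌈16 * l1 (y i) / ε i⌉₊ + 1 with hL
  set κ : ℕ → ℕ := fun i => K i + ⌈l1 (y i)⌉₊ + ⌈8 / ε i⌉₊ + 1 with hκ
  obtain ⟨B, hBA, hBd, hB1, hB2, hB3⟩ := separation A hA L (fun i => by simp only [hL]; omega) κ
  -- uniqueness of the index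
  have huniq : ∀ i j b, b ∈ B i → b ∈ B j → i = j := by
    intro i j b hi hj
    by_contra hne
    obtain ⟨k, -, h2, h3⟩ := hB1 j b hj
    have := hB3 i j hne b hi b hj k h2 (by omega) le_rfl
    have := NN_pos k
    omega
  let ι : ℕ → ℕ := fun b => if h : ∃ i, b ∈ B i then h.choose else 0
  have hι : ∀ i b, b ∈ B i → ι b = i := by
    intro i b hb
    have hex : ∃ i, b ∈ B i := ⟨i, hb⟩
    have h1 : ι b = hex.choose := dif_pos hex
    rw [h1]
    exact huniq _ _ b hex.choose_spec hb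
  let u : ℕ → X 𝕜 := fun b => if ∃ i, b ∈ B i then emb (S b (y (ι b))) else 0
  have hu : ∀ i b, b ∈ B i → u b = emb (S b (y i)) := by
    intro i b hb
    have h1 : u b = emb (S b (y (ι b))) := if_pos ⟨i, hb⟩
    rw [h1, hι i b hb]
  have hu0 : ∀ b, (¬ ∃ i, b ∈ B i) → u b = 0 := fun b hb => if_neg hb
  -- constants
  have hκN : ∀ i k, κ i ≤ k → K i ≤ NN k ∧ l1 (y i) ≤ NN k ∧ 8 / ε i ≤ NN k := by
    intro i k hk
    have h1 := le_NN k
    have h2 : κ i = K i + ⌈l1 (y i)⌉₊ + ⌈8 / ε i⌉₊ + 1 := rfl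
    refine ⟨by omega, ?_, ?_⟩
    · refine (Nat.le_ceil _).trans ?_
      exact_mod_cast (show ⌈l1 (y i)⌉₊ ≤ NN k by omega)
    · refine (Nat.le_ceil _).trans ?_
      exact_mod_cast (show ⌈8 / ε i⌉₊ ≤ NN k by omega)
  have hfar : ∀ i b k n, κ i ≤ k → b + 4 * NN k < NN (k + 1) → 4 * NN k ≤ n → n ≤ b →
      ‖S n (y i)‖ ≤ (1 / 2) ^ n := by
    intro i b k n hk hb hn hnb
    obtain ⟨c1, c2, -⟩ := hκN i k hk
    exact norm_S_le (hK' i) (by omega) c2 hb hn hnb
  have hunorm : ∀ b, ‖u b‖ ≤ (1 / 2) ^ b := by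
    intro b
    by_cases hb : ∃ i, b ∈ B i
    · obtain ⟨i, hi⟩ := hb
      rw [hu i b hi, norm_emb]
      obtain ⟨k, h1, h2, h3⟩ := hB1 i b hi
      exact hfar i b k b h1 h3 (by omega) le_rfl
    · rw [hu0 b hb, norm_zero]; positivity
  have hsum : Summable u :=
    Summable.of_norm_bounded (summable_geometric_of_lt_one (by norm_num) (by norm_num)) hunorm
  refine ⟨∑' b, u b, fun j => (hBd j).mono fun m hm => ⟨?_, hBA j hm⟩⟩
  refine hball j ?_
  rw [Metric.mem_ball, dist_eq_norm]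
  obtain ⟨r, hr1, hr2, hr3⟩ := hB1 j m hm
  -- the orbit
  have hT : Tb^[m] (∑' b, u b) = ∑' b, Tb^[m] (u b) := by
    have h1 := (Tb ^ m : X 𝕜 →L[𝕜] X 𝕜).map_tsum hsum
    have h2 : ∀ z : X 𝕜, (Tb ^ m : X 𝕜 →L[𝕜] X 𝕜) z = Tb^[m] z := fun z => by
      rw [FunLike.coe_pow_eq_iterate]
    rw [h2] at h1
    rw [h1]
    exact tsum_congr fun b => h2 _
  have hTs : Summable fun b => Tb^[m] (u b) := by
    have h1 := (Tb ^ m : X 𝕜 →L[𝕜] X 𝕜).summable hsum
    refine h1.congr fun b => ?_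
    rw [FunLike.coe_pow_eq_iterate]
  have hTm : Tb^[m] (u m) = emb (y j) := by
    rw [hu j m hm, Tb_iter_emb, TV_iter_S le_rfl, Nat.sub_self, S_zero]
  rw [hT, hTs.tsum_eq_add_tsum_ite m, hTm, add_sub_cancel_left]
  set v : ℕ → X 𝕜 := fun b => if b = m then 0 else Tb^[m] (u b) with hv
  have hvs : Summable v := by
    have := hTs.update m 0
    refine this.congr fun b => ?_
    simp only [hv, Function.update_apply]
  -- estimates of the single terms
  have hlt : ∀ i b, b ∈ B i → b < m → Tb^[m] (u b) = 0 := by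
    intro i b hb hbm
    rw [hu i b hb, Tb_iter_emb, TV_iter_S_zero (hK' i), map_zero]
    by_cases hij : i = j
    · subst hij
      have h1 := hB2 i b hb m hm hbm
      have h2 : L i = K i + ⌈16 * l1 (y i) / ε i⌉₊ + 1 := rfl
      omega
    · have h1 := hB3 i j hij b hb m hm r hr2 (by omega) hbm.le
      obtain ⟨k, h2, h3, h4⟩ := hB1 i b hb
      have h5 : k ≤ r := by
        by_contra hc
        have := NN_mono (show r + 1 ≤ k by omega)
        omega
      have h6 := (hκN i k h2).1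
      have h7 := NN_mono h5
      omega
  have hgt : ∀ i b, b ∈ B i → m < b → Tb^[m] (u b) = emb (S (b - m) (y i)) := by
    intro i b hb hbm
    rw [hu i b hb, Tb_iter_emb, TV_iter_S hbm.le]
  have hother : ∀ i b, i ≠ j → b ∈ B i → m < b →
      m + 4 * NN r ≤ b ∧ ‖Tb^[m] (u b)‖ ≤ (1 / 2) ^ (b - m) := by
    intro i b hij hb hbm
    obtain ⟨k, h2, h3, h4⟩ := hB1 i b hb
    have h1 := hB3 j i (Ne.symm hij) m hm b hb k h3 (by omega) hbm.le
    have h5 : r ≤ k := by
      by_contra hc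
      have := NN_mono (show k + 1 ≤ r by omega)
      omega
    have h7 := NN_mono h5
    refine ⟨by omega, ?_⟩
    rw [hgt i b hb hbm, norm_emb]
    exact hfar i b k (b - m) h2 h4 (by omega) (by omega)
  -- the bound for finite sums
  have hLpos : 0 < L j := by simp only [hL]; omega
  have hfin : ∀ s : Finset ℕ, ‖∑ b ∈ s, v b‖ ≤ 4 * l1 (y j) / L j + 2 * (1 / 2) ^ (4 * NN r) := by
    intro s
    rw [← sum_filter_add_sum_filter_not s (fun b => m < b ∧ b ∈ B j)]
    refine (norm_add_le _ _).trans (add_le_add ?_ ?_)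
    · set s' := s.filter (fun b => m < b ∧ b ∈ B j) with hs'
      have e1 : ∑ b ∈ s', v b = emb (∑ b ∈ s', S (b - m) (y j)) := by
        rw [map_sum]
        refine sum_congr rfl fun b hb => ?_
        obtain ⟨-, h1, h2⟩ := mem_filter.1 hb
        simp only [hv]
        rw [if_neg (by omega), hgt j b h2 h1]
      rw [e1, norm_emb]
      refine norm_le_of fun k => ?_
      have e2 : wn (w k) (show ℕ →₀ 𝕜 from ∑ b ∈ s', S (b - m) (y j)) ≤
          ∑ b ∈ s', wn (w k) (show ℕ →₀ 𝕜 from S (b - m) (y j)) :=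
        wn_sum_le (w_nonneg k) s' fun b => (show ℕ →₀ 𝕜 from S (b - m) (y j))
      refine e2.trans ?_
      refine (sum_le_sum fun b _ => wn_S_le k (b - m) (y j)).trans ?_
      rw [← sum_mul]
      have e3 := sum_wt_sep k m (L j) hLpos s' (fun b hb => by
          obtain ⟨-, h1, h2⟩ := mem_filter.1 hb
          exact hB2 j m hm b h2 h1) (fun a ha b hb hab => by
          obtain ⟨-, -, h2⟩ := mem_filter.1 ha
          obtain ⟨-, -, h3⟩ := mem_filter.1 hb
          exact hB2 j a h2 b h3 hab)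
      have e4 := mul_le_mul_of_nonneg_right e3 (l1_nonneg (y j))
      refine e4.trans (le_of_eq ?_)
      ring
    · refine (norm_sum_le _ _).trans ?_
      refine le_trans ?_ (sum_geom_tail m (4 * NN r) (s.filter fun b => ¬ (m < b ∧ b ∈ B j)))
      refine sum_le_sum fun b hb => ?_
      obtain ⟨-, h1⟩ := mem_filter.1 hb
      have hpos : (0 : ℝ) ≤ if m + 4 * NN r ≤ b then ((1 : ℝ) / 2) ^ (b - m) else 0 := by
        split_ifs
        · positivity
        · exact le_rfl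
      by_cases hbm : b = m
      · simp only [hv]
        rw [if_pos hbm, norm_zero]
        exact hpos
      · simp only [hv]
        rw [if_neg hbm]
        by_cases hbU : ∃ i, b ∈ B i
        · obtain ⟨i, hi⟩ := hbU
          rcases Nat.lt_or_gt_of_ne hbm with hlt' | hgt'
          · rw [hlt i b hi hlt', norm_zero]; exact hpos
          · have hij : i ≠ j := fun e => h1 ⟨hgt', e ▸ hi⟩
            obtain ⟨e1, e2⟩ := hother i b hij hi hgt'
            rw [if_pos e1]
            exact e2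
        · rw [hu0 b hbU]
          have : Tb^[m] (0 : X 𝕜) = 0 := by
            have h2 : (Tb ^ m : X 𝕜 →L[𝕜] X 𝕜) 0 = Tb^[m] (0 : X 𝕜) := by
              rw [FunLike.coe_pow_eq_iterate]
            rw [← h2, map_zero]
          rw [this, norm_zero]; exact hpos
  have hle : ‖∑' b, v b‖ ≤ 4 * l1 (y j) / L j + 2 * (1 / 2) ^ (4 * NN r) :=
    le_of_tendsto hvs.hasSum.norm (Filter.Eventually.of_forall hfin)
  refine lt_of_le_of_lt hle ?_
  have hLR : (0 : ℝ) < L j := by exact_mod_cast hLpos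
  have b1 : 4 * l1 (y j) / L j ≤ ε j / 4 := by
    have h1 : 16 * l1 (y j) / ε j ≤ L j := by
      refine (Nat.le_ceil _).trans ?_
      have h2 : ⌈16 * l1 (y j) / ε j⌉₊ ≤ L j := by simp only [hL]; omega
      exact_mod_cast h2
    rw [div_le_iff₀ (hε j)] at h1
    rw [div_le_iff₀ hLR]
    linarith
  have b2 : 2 * ((1 : ℝ) / 2) ^ (4 * NN r) ≤ ε j / 4 := by
    obtain ⟨-, -, h1⟩ := hκN j r hr1
    rw [div_le_iff₀ (hε j)] at h1
    have h2 : (NN r : ℝ) ≤ 2 ^ (4 * NN r) := by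
      have h3 : NN r ≤ 2 ^ (4 * NN r) := by
        have := (Nat.lt_two_pow_self (n := 4 * NN r)).le
        omega
      exact_mod_cast h3
    have h4 : (0 : ℝ) < 2 ^ (4 * NN r) := by positivity
    rw [one_div, inv_pow, ← div_eq_mul_inv, div_le_iff₀ h4]
    have h5 := mul_le_mul_of_nonneg_right h2 (hε j).le
    linarith
  have := hε j
  linarith

end Q101Hf
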