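import Pool.Agent.Q101.HfC

/-!
# The backward shift is not hereditarily `𝒰`-frequently hypercyclic; densities
-/

namespace Q101Hf

open Finset Filter

variable {𝕜 : Type} [RCLike 𝕜]

/-- The union of the windows. -/
def A₀ : Set ℕ := {n | ∃ k, NN k ≤ n ∧ n < 2 * NN k}

/-- The open set. -/
def O₀ (𝕜 : Type) [RCLike 𝕜] : Set (X 𝕜) := {x | ‖co 0 x - 1‖ < 1 / 2}

lemma isOpen_O₀ : IsOpen (O₀ 𝕜) :=
  isOpen_lt ((co (𝕜 := 𝕜) 0).continuous.sub continuous_const).norm continuous_const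

lemma O₀_nonempty : (O₀ 𝕜).Nonempty := by
  refine ⟨emb (show V 𝕜 from Finsupp.single (0 : ℕ) (1 : 𝕜)), ?_⟩
  have : cV 0 (show V 𝕜 from Finsupp.single (0 : ℕ) (1 : 𝕜)) = 1 := Finsupp.single_eq_same
  change ‖co 0 (emb _) - 1‖ < 1 / 2
  rw [co_emb, this]
  norm_num

lemma exists_level {N : ℕ} (hN : 1 ≤ N) : ∃ k, NN k ≤ N ∧ N < NN (k + 1) := by
  have hex : ∃ k, N < NN k := ⟨N + 1, lt_of_lt_of_le (Nat.lt_succ_self N) (le_NN (N + 1))⟩
  classical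
  have h1 := Nat.find_spec hex
  have h0 : NN 0 = 1 := by simp [NN]
  have h2 : Nat.find hex ≠ 0 := by
    intro h
    rw [h, h0] at h1
    omega
  obtain ⟨k, hk⟩ := Nat.exists_eq_succ_of_ne_zero h2
  refine ⟨k, ?_, ?_⟩
  · have := Nat.find_min hex (show k < Nat.find hex by omega)
    omega
  · rw [hk] at h1
    exact h1

lemma visit_small (x : X 𝕜) {δ : ℝ} (hδ : 0 < δ) : ∃ N₀ : ℕ, ∀ N, N₀ ≤ N →
    ((({n | Tb^[n] x ∈ O₀ 𝕜} ∩ A₀) ∩ Set.Icc 1 N).ncard : ℝ) ≤ 3 * δ * N := by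
  classical
  obtain ⟨k₀, hk₀⟩ := window_small x hδ
  obtain ⟨j₀, hj₀⟩ := exists_pow_lt_of_lt_one hδ (show (1 : ℝ) / 4 < 1 by norm_num)
  refine ⟨NN (k₀ + j₀ + 2), fun N hN => ?_⟩
  have hN1 : 1 ≤ N := (NN_pos _).trans_le hN
  obtain ⟨k, h1, h2⟩ := exists_level hN1
  have hk : k₀ + j₀ + 2 ≤ k := by
    by_contra hc
    have := NN_mono (show k + 1 ≤ k₀ + j₀ + 2 by omega)
    omega
  obtain ⟨l, rfl⟩ : ∃ l, k = l + 1 := ⟨k - 1, by omega⟩
  set s : Finset ℕ := (Ico (NN (l + 1)) (2 * NN (l + 1))).filter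
    fun n => Tb^[n] x ∈ O₀ 𝕜 with hs
  have hsub : (({n | Tb^[n] x ∈ O₀ 𝕜} ∩ A₀) ∩ Set.Icc 1 N) ⊆
      ((range (2 * NN l) ∪ s : Finset ℕ) : Set ℕ) := by
    rintro n ⟨⟨hn1, j, hj1, hj2⟩, -, hn3⟩
    have hjl : j ≤ l + 1 := by
      by_contra hc
      have := NN_mono (show l + 1 + 1 ≤ j by omega)
      omega
    rw [mem_coe, mem_union]
    rcases Nat.lt_or_ge l j with h | h
    · obtain rfl : j = l + 1 := by omega
      right
      exact mem_filter.2 ⟨mem_Ico.2 ⟨hj1, hj2⟩, hn1⟩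
    · left
      have := NN_mono h
      rw [mem_range]; omega
  have hcard : (({n | Tb^[n] x ∈ O₀ 𝕜} ∩ A₀) ∩ Set.Icc 1 N).ncard ≤ 2 * NN l + s.card := by
    refine (Set.ncard_le_ncard hsub (Finset.finite_toSet _)).trans ?_
    rw [Set.ncard_coe_finset]
    refine (card_union_le _ _).trans ?_
    rw [card_range]
  have hs1 : (s.card : ℝ) ≤ 2 * (NN (l + 1) * δ) := by
    have e1 := hk₀ (l + 1) (by omega)
    have e2 : (s.card : ℝ) * (1 / 2) ≤ ∑ n ∈ s, ‖co n x‖ := by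
      have : (s.card : ℝ) * (1 / 2) = ∑ n ∈ s, (1 / 2 : ℝ) := by simp
      rw [this]
      refine sum_le_sum fun n hn => ?_
      have h3 : ‖co 0 (Tb^[n] x) - 1‖ < 1 / 2 := (mem_filter.1 hn).2
      rw [co_T_iter, zero_add] at h3
      have h4 : ‖(1 : 𝕜)‖ ≤ ‖co n x‖ + ‖co n x - 1‖ := by
        have : (1 : 𝕜) = co n x - (co n x - 1) := by ring
        calc ‖(1 : 𝕜)‖ = ‖co n x - (co n x - 1)‖ := by rw [← this]
          _ ≤ _ := norm_sub_le _ _
      rw [norm_one] at h4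
      linarith
    have e3 : ∑ n ∈ s, ‖co n x‖ ≤ ∑ n ∈ Ico (NN (l + 1)) (2 * NN (l + 1)), ‖co n x‖ :=
      sum_le_sum_of_subset_of_nonneg (filter_subset _ _) fun _ _ _ => norm_nonneg _
    linarith
  have hs2 : (2 * NN l : ℝ) ≤ NN (l + 1) * δ := by
    rw [NN_succ]
    push_cast
    have e1 : ((1 : ℝ) / 4) ^ l ≤ (1 / 4) ^ j₀ :=
      pow_le_pow_of_le_one (by norm_num) (by norm_num) (by omega)
    have e2 : (1 / 4 : ℝ) ^ l ≤ δ := e1.trans hj₀.le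
    have e3 : (2 : ℝ) ^ (2 * l + 1) = 2 * 4 ^ l := by
      rw [pow_succ, pow_mul]; norm_num; ring
    rw [e3]
    have e4 : (0 : ℝ) < 4 ^ l := by positivity
    have e5 : 1 ≤ 4 ^ l * δ := by
      have := mul_le_mul_of_nonneg_left e2 e4.le
      rwa [← mul_pow, show (4 : ℝ) * (1 / 4) = 1 by norm_num, one_pow] at this
    have e6 := NNR_pos l
    calc (2 * NN l : ℝ) = 2 * NN l * 1 := by ring
      _ ≤ 2 * NN l * (4 ^ l * δ) := mul_le_mul_of_nonneg_left e5 (by positivity)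
      _ = 2 * 4 ^ l * NN l * δ := by ring
  have h3 : ((({n | Tb^[n] x ∈ O₀ 𝕜} ∩ A₀) ∩ Set.Icc 1 N).ncard : ℝ) ≤ 2 * NN l + s.card := by
    exact_mod_cast hcard
  have h4 : (NN (l + 1) : ℝ) * δ ≤ N * δ :=
    mul_le_mul_of_nonneg_right (by exact_mod_cast h1) hδ.le
  calc _ ≤ (2 * NN l + s.card : ℝ) := h3
    _ ≤ NN (l + 1) * δ + 2 * (NN (l + 1) * δ) := add_le_add hs2 hs1
    _ ≤ 3 * δ * N := by linarith

/-! ### Densities -/

/-- Lower density. -/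
noncomputable def ld (A : Set ℕ) : ℝ :=
  liminf (fun N : ℕ => ((A ∩ Set.Icc 1 N).ncard : ℝ) / N) atTop

/-- Upper density. -/
noncomputable def ud (A : Set ℕ) : ℝ :=
  limsup (fun N : ℕ => ((A ∩ Set.Icc 1 N).ncard : ℝ) / N) atTop

lemma ratio_nonneg (A : Set ℕ) (N : ℕ) : 0 ≤ ((A ∩ Set.Icc 1 N).ncard : ℝ) / N := by positivity

lemma ncard_le (A : Set ℕ) (N : ℕ) : (A ∩ Set.Icc 1 N).ncard ≤ N := by
  refine (Set.ncard_le_ncard Set.inter_subset_right (Set.finite_Icc 1 N)).trans ?_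
  rw [← coe_Icc, Set.ncard_coe_finset]
  simp

lemma ratio_le_one (A : Set ℕ) (N : ℕ) : ((A ∩ Set.Icc 1 N).ncard : ℝ) / N ≤ 1 := by
  have : ((A ∩ Set.Icc 1 N).ncard : ℝ) ≤ N := by exact_mod_cast ncard_le A N
  exact div_le_one_of_le₀ this (Nat.cast_nonneg N)

lemma bdd_ge (A : Set ℕ) :
    IsBoundedUnder (· ≥ ·) atTop (fun N : ℕ => ((A ∩ Set.Icc 1 N).ncard : ℝ) / N) :=
  isBoundedUnder_of ⟨0, ratio_nonneg A⟩

lemma bdd_le (A : Set ℕ) :
    IsBoundedUnder (· ≤ ·) atTop (fun N : ℕ => ((A ∩ Set.Icc 1 N).ncard : ℝ) / N) :=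
  isBoundedUnder_of ⟨1, ratio_le_one A⟩

lemma ud_zero {A : Set ℕ} (h : ∀ δ : ℝ, 0 < δ → ∃ N₀ : ℕ, ∀ N, N₀ ≤ N →
    ((A ∩ Set.Icc 1 N).ncard : ℝ) ≤ δ * N) : ud A = 0 := by
  have : Tendsto (fun N : ℕ => ((A ∩ Set.Icc 1 N).ncard : ℝ) / N) atTop (nhds 0) := by
    rw [Metric.tendsto_atTop]
    intro ε hε
    obtain ⟨N₀, hN₀⟩ := h (ε / 2) (by positivity)
    refine ⟨N₀, fun N hN => ?_⟩
    rw [Real.dist_eq, sub_zero, abs_of_nonneg (ratio_nonneg A N)]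
    have h1 := hN₀ N hN
    rcases Nat.eq_zero_or_pos N with rfl | hN0
    · simpa using hε
    · have hNR : (0 : ℝ) < N := by exact_mod_cast hN0
      rw [div_lt_iff₀ hNR]
      have := mul_pos hε hNR
      linarith
  exact this.limsup_eq

lemma cnt_eq_card (A : Set ℕ) (N : ℕ) : cnt A N = (A ∩ Set.Iio N).ncard := by
  classical
  have h1 : A ∩ Set.Iio N = (((range N).filter (· ∈ A) : Finset ℕ) : Set ℕ) := by
    ext n; simp [and_comm]
  rw [h1, Set.ncard_coe_finset, card_filter, cnt]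
  refine sum_congr rfl fun n _ => ?_
  unfold ind
  split_ifs <;> rfl

lemma ncard_le_cnt (A : Set ℕ) (N : ℕ) : (A ∩ Set.Icc 1 N).ncard ≤ cnt A (N + 1) := by
  rw [cnt_eq_card]
  refine Set.ncard_le_ncard ?_ ((Set.finite_Iio _).subset Set.inter_subset_right)
  rintro n ⟨h1, h2, h3⟩
  exact ⟨h1, Nat.lt_succ_of_le h3⟩

lemma cnt_le_ncard (A : Set ℕ) (N : ℕ) : cnt A (N + 1) ≤ (A ∩ Set.Icc 1 N).ncard + 1 := by
  rw [cnt_eq_card]
  refine (Set.ncard_le_ncard (t := insert 0 (A ∩ Set.Icc 1 N)) ?_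
    (((Set.finite_Icc 1 N).subset Set.inter_subset_right).insert 0)).trans
    (Set.ncard_insert_le _ _)
  rintro n ⟨h1, h2⟩
  rcases Nat.eq_zero_or_pos n with h | h
  · left; exact h
  · right; exact ⟨h1, h, Nat.le_of_lt_succ h2⟩

lemma ld_pos_of_PLD {A : Set ℕ} (h : PLD A) : 0 < ld A := by
  obtain ⟨d, N₀, hN⟩ := h
  have hd : 0 < d := by
    by_contra hc
    have h1 := hN (N₀ + 1) (by omega)
    have h2 : d = 0 := by omega
    rw [h2, zero_mul] at h1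
    omega
  have hdR : (0 : ℝ) < d := by exact_mod_cast hd
  refine lt_of_lt_of_le (show (0 : ℝ) < 1 / (2 * d) by positivity) ?_
  refine le_liminf_of_le (bdd_le A).isCoboundedUnder_ge ?_
  filter_upwards [eventually_ge_atTop (max N₀ (2 * d))] with N hN1
  have h1 := hN (N + 1) (by have := (le_max_left N₀ (2 * d)).trans hN1; omega)
  have h2 := cnt_le_ncard A N
  have h3 : N + 1 ≤ d * ((A ∩ Set.Icc 1 N).ncard + 1) := h1.trans (Nat.mul_le_mul_left d h2)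
  have h4 : 2 * d ≤ N := (le_max_right N₀ (2 * d)).trans hN1
  have hNpos : (0 : ℝ) < N := by exact_mod_cast (show 0 < N by omega)
  have h3' : (N : ℝ) + 1 ≤ d * ((A ∩ Set.Icc 1 N).ncard + 1) := by exact_mod_cast h3
  have h4' : (2 * d : ℝ) ≤ N := by exact_mod_cast h4
  rw [div_le_div_iff₀ (by positivity) hNpos]
  nlinarith

lemma PLD_of_ld_pos {A : Set ℕ} (h : 0 < ld A) : PLD A := by
  have h1 := eventually_lt_of_lt_liminf (show ld A / 2 < liminf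
    (fun N : ℕ => ((A ∩ Set.Icc 1 N).ncard : ℝ) / N) atTop from half_lt_self h) (bdd_ge A)
  obtain ⟨N₀, hN₀⟩ := eventually_atTop.1 h1
  obtain ⟨d, hd⟩ := exists_nat_gt (2 / ld A)
  have hdR : (0 : ℝ) < d := lt_trans (by positivity) hd
  refine ⟨2 * d, N₀ + 2, fun N hN => ?_⟩
  obtain ⟨M, rfl⟩ : ∃ M, N = M + 1 := ⟨N - 1, by omega⟩
  have hM : 1 ≤ M := by omega
  have h2 := hN₀ M (by omega)
  have hMR : (0 : ℝ) < M := by exact_mod_cast hM
  rw [lt_div_iff₀ hMR] at h2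
  have h3 : ((A ∩ Set.Icc 1 M).ncard : ℝ) ≤ cnt A (M + 1) := by exact_mod_cast ncard_le_cnt A M
  have h4 : (M : ℝ) ≤ d * cnt A (M + 1) := by
    have e1 : ld A / 2 * M ≤ cnt A (M + 1) := h2.le.trans h3
    have e2 := mul_le_mul_of_nonneg_left e1 hdR.le
    have e3 : 1 ≤ d * (ld A / 2) := by
      rw [div_lt_iff₀ h] at hd
      linarith
    have e4 := mul_le_mul_of_nonneg_right e3 hMR.le
    linarith
  have h5 : M ≤ d * cnt A (M + 1) := by exact_mod_cast h4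
  have h6 : 2 * d * cnt A (M + 1) = 2 * (d * cnt A (M + 1)) := by ring
  rw [h6]
  omega

lemma ud_A₀ : 1 / 2 ≤ ud A₀ := by
  refine le_limsup_of_frequently_le ?_ (bdd_le A₀)
  rw [frequently_atTop]
  intro a
  refine ⟨2 * NN a, ?_, ?_⟩
  · have := le_NN a; omega
  · have h1 : NN a ≤ (A₀ ∩ Set.Icc 1 (2 * NN a)).ncard := by
      have h2 : ((Ico (NN a) (2 * NN a) : Finset ℕ) : Set ℕ) ⊆ A₀ ∩ Set.Icc 1 (2 * NN a) := by
        intro n hn
        obtain ⟨h3, h4⟩ := mem_Ico.1 (mem_coe.1 hn)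
        have := NN_pos a
        exact ⟨⟨a, h3, h4⟩, by omega, by omega⟩
      have h3 := Set.ncard_le_ncard h2 ((Set.finite_Icc _ _).subset Set.inter_subset_right)
      rw [Set.ncard_coe_finset, Nat.card_Ico] at h3
      omega
    have h2 : (NN a : ℝ) ≤ (A₀ ∩ Set.Icc 1 (2 * NN a)).ncard := by exact_mod_cast h1
    have h3 := NNR_pos a
    push_cast
    rw [div_le_div_iff₀ (by norm_num) (by positivity)]
    linarith

/-! ### Separability, infinite dimension -/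

instance : TopologicalSpace.SeparableSpace (V 𝕜) := by
  rw [← TopologicalSpace.isSeparable_univ_iff]
  have h1 : (Submodule.span 𝕜 (Set.range fun n : ℕ =>
      (show V 𝕜 from Finsupp.single n (1 : 𝕜))) : Set (V 𝕜)) = Set.univ := by
    have h2 := (Finsupp.basisSingleOne (R := 𝕜) (ι := ℕ)).span_eq
    rw [Finsupp.coe_basisSingleOne] at h2
    exact congrArg (fun p : Submodule 𝕜 (ℕ →₀ 𝕜) => (p : Set (ℕ →₀ 𝕜))) h2
  rw [← h1]
  exact (Set.countable_range _).isSeparable.span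

lemma not_finiteDimensional : ¬ FiniteDimensional 𝕜 (X 𝕜) := by
  intro h
  have hinj : Function.Injective (emb (𝕜 := 𝕜)).toLinearMap := by
    rw [← LinearMap.ker_eq_bot, LinearMap.ker_eq_bot']
    intro y hy
    have h1 : ‖emb y‖ = 0 := by
      change (emb (𝕜 := 𝕜)).toLinearMap y = 0 at hy
      have : emb y = 0 := hy
      rw [this, norm_zero]
    rw [norm_emb] at h1
    exact norm_eq_zero.1 h1
  have h1 : FiniteDimensional 𝕜 (V 𝕜) := Module.Finite.of_injective _ hinj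
  have h2 : Module.Finite 𝕜 (ℕ →₀ 𝕜) := h1
  have h3 := Module.Finite.finite_basis (Finsupp.basisSingleOne (R := 𝕜) (ι := ℕ))
  exact not_finite ℕ

end Q101Hf
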