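import Pool.Agent.Q101.IgS

/-!
# Project IG: no nonempty piece is fixed by the induced map
-/

set_option autoImplicit false

open MeasureTheory Set Filter Topology

namespace Q101Ig

/-- following a word translates by the translation of the word -/
theorem igAp_iter {d : ℕ} {T : ℝ → ℝ} {P : Fin d → Set ℝ} {τ : Fin d → ℝ}
    (ht : ∀ j, ∀ x ∈ P j, T x = x + τ j) :
    ∀ (w : List (Fin d)) (x : ℝ), Follows T P w x → T^[w.length] x = x + tr τ w := by
  intro w
  induction w with
  | nil => intro x _; simp [tr]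
  | cons j w ih =>
    intro x hx
    obtain ⟨h1, h2⟩ := hx
    rw [List.length_cons, Function.iterate_succ_apply, ih _ h2, ht j x h1]
    simp [tr, add_assoc]

/-- the pieces lie in the unit interval -/
theorem igAp_sub {d : ℕ} {T : ℝ → ℝ} {P : Fin d → Set ℝ} {τ : Fin d → ℝ} (hS : Sys T P τ)
    {J : Set ℝ} {I : Fin d → Set ℝ} {w : Fin d → List (Fin d)} (h : Ind T P τ J I w) (i : Fin d) :
    I i ⊆ Ico (0 : ℝ) 1 := by
  intro x hx
  have h1 := h.itin i x hx
  have h2 := h.ne i
  cases hw : w i with
  | nil => exact absurd hw h2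
  | cons j v =>
    rw [hw] at h1
    rw [hS.cover]
    exact mem_iUnion.2 ⟨j, h1.1⟩

instance igAp_prob : IsProbabilityMeasure leb := by
  constructor
  simp [leb, Real.volume_Ico]

/-- a set with `A ⊆ T^[-n] A` and small measure is null -/
theorem igAp_null {T : ℝ → ℝ} (hT : Ergodic T leb) {A : Set ℝ} (hA : MeasurableSet A) {n : ℕ}
    (hn : 0 < n) (hsub : ∀ x ∈ A, T^[n] x ∈ A) (hm : n * leb A < 1) : leb A = 0 := by
  have hmp : MeasurePreserving T leb leb := hT.toMeasurePreserving
  -- the union of the first preimages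
  set W : Set ℝ := ⋃ m ∈ Finset.range n, T^[m] ⁻¹' A with hW
  have hmeas : ∀ m, MeasurableSet (T^[m] ⁻¹' A) := fun m => (hmp.measurable.iterate m) hA
  have hWm : MeasurableSet W := Finset.measurableSet_biUnion _ fun m _ => hmeas m
  have hle : leb W ≤ n * leb A := by
    calc leb W ≤ ∑ m ∈ Finset.range n, leb (T^[m] ⁻¹' A) := measure_biUnion_finset_le _ _
      _ = ∑ m ∈ Finset.range n, leb A :=
          Finset.sum_congr rfl fun m _ => (hmp.iterate m).measure_preimage hA.nullMeasurableSet
      _ = n * leb A := by simp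
  have hAW : A ⊆ W := by
    intro x hx
    exact mem_biUnion (Finset.mem_coe.2 (Finset.mem_range.2 hn)) (by simpa using hx)
  have hae : T^[n] ⁻¹' A =ᵐ[leb] A := by
    symm
    refine ae_eq_of_subset_of_measure_ge (fun x hx => hsub x hx) ?_ hA.nullMeasurableSet
      (measure_ne_top _ _)
    exact ((hmp.iterate n).measure_preimage hA.nullMeasurableSet).le
  -- T⁻¹ W ⊆ W a.e.
  have hinv : T ⁻¹' W ≤ᵐ[leb] W := by
    have : ∀ᵐ x ∂leb, x ∈ T^[n] ⁻¹' A → x ∈ A := by
      filter_upwards [hae.mem_iff] with x hx h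
      exact hx.1 h
    filter_upwards [this] with x hx h
    have h' : x ∈ T ⁻¹' W := h
    rw [hW] at h'
    simp only [preimage_iUnion, mem_iUnion, Finset.mem_range, mem_preimage] at h'
    obtain ⟨m, hm1, hm2⟩ := h'
    change x ∈ W
    rw [hW]
    by_cases hmn : m + 1 < n
    · exact mem_biUnion (Finset.mem_coe.2 (Finset.mem_range.2 hmn))
        (by simpa [Function.iterate_succ_apply] using hm2)
    · have : m + 1 = n := by omega
      apply hAW
      apply hx
      rw [← this]
      simpa [Function.iterate_succ_apply] using hm2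
  rcases hT.ae_empty_or_univ_of_preimage_ae_le hWm.nullMeasurableSet hinv with h | h
  · have : leb W = 0 := by
      rw [measure_congr h]; simp
    exact measure_mono_null hAW this
  · have : leb W = 1 := by
      rw [measure_congr h]; simp
    exact absurd (this ▸ hle) (not_le.2 hm)

theorem ap : S_ap := by
  intro d T P τ hS s hv i hi ht
  set n := (s.w i).length with hn
  have hn0 : 0 < n := List.length_pos_iff.2 (hv.ind.ne i)
  have hsub : s.I i ⊆ Ico (0 : ℝ) 1 := igAp_sub hS hv.ind i
  have hid : ∀ x ∈ s.I i, T^[n] x = x := by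
    intro x hx
    rw [igAp_iter hS.trans _ x (hv.ind.itin i x hx), ht, add_zero]
  -- a short interval
  set e : ℝ := min (s.l i) (1 / (2 * n)) with he
  have hn' : (0 : ℝ) < n := by exact_mod_cast hn0
  have he0 : 0 < e := lt_min hi (by positivity)
  set A : Set ℝ := Ico (s.u i) (s.u i + e) with hA
  have hAI : A ⊆ s.I i := by
    apply Ico_subset_Ico_right
    have := min_le_left (s.l i) (1 / (2 * (n : ℝ)))
    linarith
  have hmA : leb A = ENNReal.ofReal e := by
    rw [leb, Measure.restrict_apply measurableSet_Ico, inter_eq_left.2 (hAI.trans hsub), hA,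
      Real.volume_Ico]
    congr 1; ring
  have hlt : n * leb A < 1 := by
    rw [hmA]
    have h1 : (n : ENNReal) * ENNReal.ofReal e = ENNReal.ofReal (n * e) := by
      rw [ENNReal.ofReal_mul hn'.le, ENNReal.ofReal_natCast]
    rw [h1]
    rw [← ENNReal.ofReal_one]
    apply (ENNReal.ofReal_lt_ofReal_iff one_pos).2
    have h2 : e ≤ 1 / (2 * n) := min_le_right _ _
    calc (n : ℝ) * e ≤ n * (1 / (2 * n)) := by gcongr
      _ = 1 / 2 := by field_simp
      _ < 1 := by norm_num
  have h0 := igAp_null hS.erg (A := A) measurableSet_Ico hn0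
    (fun x hx => by rw [hid x (hAI hx)]; exact hx) hlt
  rw [hmA] at h0
  have := ENNReal.ofReal_eq_zero.1 h0
  linarith

end Q101Ig
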