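import Pool.Agent.Q101.IgS

/-!
# Coefficients of continuous finite-dimensional unitary representations form a star algebra

Job IG-18 of project IG (helper101), by helper239.
-/

set_option autoImplicit false

open Topology
open scoped Matrix Kronecker

namespace Q101Ig

section

variable {G ι ι' : Type} [Group G] [Fintype ι] [DecidableEq ι] [Fintype ι'] [DecidableEq ι']

/-- A homomorphism into the unitary group from a matrix valued map. -/
def coef_hom (ρ : G → Matrix ι ι ℂ) (h1 : ρ 1 = 1) (hm : ∀ g h, ρ (g * h) = ρ g * ρ h)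
    (hu : ∀ g, star (ρ g) * ρ g = 1) : G →* Matrix.unitaryGroup ι ℂ where
  toFun g := ⟨ρ g, Matrix.mem_unitaryGroup_iff'.2 (hu g)⟩
  map_one' := Subtype.ext h1
  map_mul' g h := Subtype.ext (hm g h)

lemma coef_star_mul (ρ : G →* Matrix.unitaryGroup ι ℂ) (g : G) :
    star (ρ g : Matrix ι ι ℂ) * (ρ g : Matrix ι ι ℂ) = 1 :=
  Matrix.mem_unitaryGroup_iff'.1 (ρ g).2

end

lemma coef_of {G : Type} [Group G] [TopologicalSpace G] {ι : Type} [Fintype ι] [DecidableEq ι]
    (ρ : G → Matrix ι ι ℂ) (h1 : ρ 1 = 1) (hm : ∀ g h, ρ (g * h) = ρ g * ρ h)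
    (hu : ∀ g, star (ρ g) * ρ g = 1) (hc : Continuous ρ) (A : Matrix ι ι ℂ) :
    Coef (fun g => (A * ρ g).trace) :=
  ⟨ι, inferInstance, inferInstance, coef_hom ρ h1 hm hu, A,
    Continuous.subtype_mk hc _, fun _ => rfl⟩

/-- Job IG-18. -/
theorem coef : S_coef := by
  intro G _ _ _
  refine ⟨fun c => ?_, ?_, ?_, ?_⟩
  · have h := coef_of (G := G) (ι := Unit) (fun _ => 1) rfl (by simp) (by simp) continuous_const
      (Matrix.diagonal fun _ => c)
    simpa using h
  · rintro f f' ⟨ι, i1, i2, ρ, A, hρ, hf⟩ ⟨ι', i3, i4, ρ', A', hρ', hf'⟩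
    have h := coef_of (G := G) (ι := ι ⊕ ι')
      (fun g => Matrix.fromBlocks (ρ g : Matrix ι ι ℂ) 0 0 (ρ' g : Matrix ι' ι' ℂ))
      (by simp) (by intro g h; simp [Matrix.fromBlocks_multiply])
      (by
        intro g
        rw [Matrix.star_eq_conjTranspose, Matrix.fromBlocks_conjTranspose,
          Matrix.fromBlocks_multiply]
        have h1 := coef_star_mul ρ g
        have h2 := coef_star_mul ρ' g
        rw [Matrix.star_eq_conjTranspose] at h1 h2
        simp [h1, h2])
      (by
        refine Continuous.matrix_fromBlocks ?_ continuous_const continuous_const ?_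
        · exact continuous_subtype_val.comp hρ
        · exact continuous_subtype_val.comp hρ')
      (Matrix.fromBlocks A 0 0 A')
    have he : (fun g => f g + f' g) = fun g => (Matrix.fromBlocks A 0 0 A' *
        Matrix.fromBlocks (ρ g : Matrix ι ι ℂ) 0 0 (ρ' g : Matrix ι' ι' ℂ)).trace := by
      funext g
      rw [hf, hf', Matrix.fromBlocks_multiply]
      simp [Matrix.trace]
    rw [he]
    exact h
  · rintro f f' ⟨ι, i1, i2, ρ, A, hρ, hf⟩ ⟨ι', i3, i4, ρ', A', hρ', hf'⟩
    have h := coef_of (G := G) (ι := ι × ι')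
      (fun g => (ρ g : Matrix ι ι ℂ) ⊗ₖ (ρ' g : Matrix ι' ι' ℂ))
      (by simp) (by intro g h; simp [Matrix.mul_kronecker_mul])
      (by
        intro g
        have h1 := coef_star_mul ρ g
        have h2 := coef_star_mul ρ' g
        rw [Matrix.star_eq_conjTranspose] at h1 h2 ⊢
        rw [Matrix.conjTranspose_kronecker, ← Matrix.mul_kronecker_mul, h1, h2,
          Matrix.one_kronecker_one])
      (by
        have c1 : Continuous fun g => (ρ g : Matrix ι ι ℂ) := continuous_subtype_val.comp hρ
        have c2 : Continuous fun g => (ρ' g : Matrix ι' ι' ℂ) := continuous_subtype_val.comp hρ'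
        refine continuous_pi fun i => continuous_pi fun j => ?_
        exact (c1.matrix_elem _ _).mul (c2.matrix_elem _ _))
      (A ⊗ₖ A')
    have he : (fun g => f g * f' g) = fun g => ((A ⊗ₖ A') *
        ((ρ g : Matrix ι ι ℂ) ⊗ₖ (ρ' g : Matrix ι' ι' ℂ))).trace := by
      funext g
      rw [hf, hf', ← Matrix.mul_kronecker_mul, Matrix.trace_kronecker]
    rw [he]
    exact h
  · rintro f ⟨ι, i1, i2, ρ, A, hρ, hf⟩
    have h := coef_of (G := G) (ι := ι)
      (fun g => (ρ g : Matrix ι ι ℂ).map (starRingEnd ℂ))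
      (by simp [Matrix.map_one])
      (by intro g h; simp [Matrix.map_mul])
      (by
        intro g
        have h1 := coef_star_mul ρ g
        have h2 : star ((ρ g : Matrix ι ι ℂ).map (starRingEnd ℂ)) =
            (star (ρ g : Matrix ι ι ℂ)).map (starRingEnd ℂ) := by
          ext i j
          simp [Matrix.star_apply]
        rw [h2, ← Matrix.map_mul, h1]
        simp [Matrix.map_one])
      (by
        have c1 : Continuous fun g => (ρ g : Matrix ι ι ℂ) := continuous_subtype_val.comp hρ
        refine continuous_pi fun i => continuous_pi fun j => ?_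
        exact Complex.continuous_conj.comp (c1.matrix_elem _ _))
      (A.map (starRingEnd ℂ))
    have he : (fun g => (starRingEnd ℂ) (f g)) = fun g => (A.map (starRingEnd ℂ) *
        (ρ g : Matrix ι ι ℂ).map (starRingEnd ℂ)).trace := by
      funext g
      rw [hf, ← Matrix.map_mul, Matrix.trace, Matrix.trace, map_sum]
      rfl
    rw [he]
    exact h

end Q101Ig
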