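import Pool.Agent.Q101.IgS

/-!
# Project IG (helper101): cut off the image of a piece (by helper162)
-/

set_option autoImplicit false

open MeasureTheory Set Filter Topology

namespace Q101Ig

section

variable {d : ℕ} {T : ℝ → ℝ} {P : Fin d → Set ℝ} {τ : Fin d → ℝ}

theorem cut_tr_append (τ : Fin d → ℝ) (a b : List (Fin d)) : tr τ (a ++ b) = tr τ a + tr τ b := by
  unfold tr
  rw [List.map_append, List.sum_append]

theorem cut_iter (hT : ∀ j, ∀ x ∈ P j, T x = x + τ j) (w : List (Fin d)) (x : ℝ)
    (h : Follows T P w x) : T^[w.length] x = x + tr τ w := by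
  induction w generalizing x with
  | nil => simp [tr]
  | cons j w ih =>
    obtain ⟨h1, h2⟩ := h
    rw [List.length_cons, Function.iterate_succ_apply, ih (T x) h2, hT j x h1]
    simp only [tr, List.map_cons, List.sum_cons]
    ring

theorem cut_follows (a b : List (Fin d)) (x : ℝ) :
    Follows T P (a ++ b) x ↔ Follows T P a x ∧ Follows T P b (T^[a.length] x) := by
  induction a generalizing x with
  | nil => simp [Follows]
  | cons j a ih =>
    rw [List.cons_append, Follows, Follows, ih, List.length_cons, Function.iterate_succ_apply, and_assoc]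

theorem cut_img_tr (I : Fin d → Set ℝ) (w : Fin d → List (Fin d)) (i : Fin d) (x : ℝ) :
    x ∈ img τ I w i ↔ x - tr τ (w i) ∈ I i := by
  constructor
  · rintro ⟨y, hy, rfl⟩
    simpa using hy
  · intro h
    exact ⟨x - tr τ (w i), h, by simp⟩

end

theorem cutA : S_cutA := by
  intro d T P τ J I w α β hT hI hαβ hB
  have himg : ∀ i, i ≠ α → i ≠ β → img τ (Function.update I α (I α \ img τ I w β))
      (Function.update w β (w β ++ w α)) i = img τ I w i := by
    intro i h1 h2
    unfold img
    rw [Function.update_of_ne h1, Function.update_of_ne h2]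
  have hα : ∀ x, x ∈ img τ (Function.update I α (I α \ img τ I w β))
      (Function.update w β (w β ++ w α)) α ↔ x - tr τ (w α) ∈ I α ∧ x - tr τ (w α) ∉ img τ I w β := by
    intro x
    rw [cut_img_tr, Function.update_self, Function.update_of_ne hαβ]
    rfl
  have hβ : ∀ x, x ∈ img τ (Function.update I α (I α \ img τ I w β))
      (Function.update w β (w β ++ w α)) β ↔ x - tr τ (w α) ∈ img τ I w β := by
    intro x
    rw [cut_img_tr, Function.update_self, Function.update_of_ne hαβ.symm, cut_tr_append, cut_img_tr]
    have h1 : x - (tr τ (w β) + tr τ (w α)) = x - tr τ (w α) - tr τ (w β) := by ring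
    rw [h1]
  have hαsub : ∀ x, x - tr τ (w α) ∈ I α → x ∈ img τ I w α := fun x hx => (cut_img_tr I w α x).2 hx
  have hdis := hI.disj
  have hbdis := hI.bdisj
  have hBJ : img τ I w β ⊆ J := by
    rw [hI.bcover]
    exact subset_iUnion _ β
  have hIJ : ∀ i, I i ⊆ J := fun i => by
    rw [hI.cover]
    exact subset_iUnion _ i
  -- the itinerary of the points of `I β`
  have hitβ : ∀ x ∈ I β, T^[(w β).length] x ∈ img τ I w β := by
    intro x hx
    rw [cut_iter hT (w β) x (hI.itin β x hx)]
    exact ⟨x, hx, rfl⟩
  refine ⟨?_, ?_, ?_, ?_, ?_, ?_, ?_⟩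
  · ext x
    rw [mem_iUnion]
    constructor
    · rintro ⟨hx, hxB⟩
      rw [hI.cover, mem_iUnion] at hx
      obtain ⟨i, hi⟩ := hx
      refine ⟨i, ?_⟩
      by_cases h : i = α
      · subst h
        rw [Function.update_self]
        exact ⟨hi, hxB⟩
      · rw [Function.update_of_ne h]
        exact hi
    · rintro ⟨i, hi⟩
      by_cases h : i = α
      · subst h
        rw [Function.update_self] at hi
        exact ⟨hIJ _ hi.1, hi.2⟩
      · rw [Function.update_of_ne h] at hi
        exact ⟨hIJ _ hi, fun hxB => disjoint_left.1 (hdis i α h) hi (hB hxB)⟩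
  · intro i j hij
    have hsub : ∀ i, Function.update I α (I α \ img τ I w β) i ⊆ I i := by
      intro i
      by_cases h : i = α
      · subst h
        rw [Function.update_self]
        exact sdiff_subset
      · rw [Function.update_of_ne h]
    exact (hdis i j hij).mono (hsub i) (hsub j)
  · ext x
    rw [mem_iUnion]
    constructor
    · rintro ⟨hx, hxB⟩
      rw [hI.bcover, mem_iUnion] at hx
      obtain ⟨i, hi⟩ := hx
      have hiβ : i ≠ β := fun h => hxB (h ▸ hi)
      by_cases h : i = α
      · subst h
        rw [cut_img_tr] at hi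
        by_cases h2 : x - tr τ (w i) ∈ img τ I w β
        · exact ⟨β, (hβ x).2 h2⟩
        · exact ⟨i, (hα x).2 ⟨hi, h2⟩⟩
      · exact ⟨i, by rw [himg i h hiβ]; exact hi⟩
    · rintro ⟨i, hi⟩
      by_cases h : i = α
      · subst h
        have h1 := hαsub x ((hα x).1 hi).1
        refine ⟨?_, fun h2 => disjoint_left.1 (hbdis i β hαβ) h1 h2⟩
        rw [hI.bcover]
        exact mem_iUnion.2 ⟨i, h1⟩
      · by_cases h2 : i = β
        · subst h2
          have h1 := hαsub x (hB ((hβ x).1 hi))
          refine ⟨?_, fun h2 => disjoint_left.1 (hbdis α i hαβ) h1 h2⟩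
          rw [hI.bcover]
          exact mem_iUnion.2 ⟨α, h1⟩
        · rw [himg i h h2] at hi
          refine ⟨?_, fun h3 => disjoint_left.1 (hbdis i β h2) hi h3⟩
          rw [hI.bcover]
          exact mem_iUnion.2 ⟨i, hi⟩
  · have key : ∀ i, ∀ x, x ∈ img τ (Function.update I α (I α \ img τ I w β))
        (Function.update w β (w β ++ w α)) i → (i = β → x ∈ img τ I w α) ∧ (i ≠ β → x ∈ img τ I w i) := by
      intro i x hx
      refine ⟨fun h => ?_, fun h => ?_⟩
      · subst h
        exact hαsub x (hB ((hβ x).1 hx))
      · by_cases h2 : i = α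
        · subst h2
          exact hαsub x ((hα x).1 hx).1
        · rwa [himg i h2 h] at hx
    have hd : ∀ i, i ≠ β → Disjoint (img τ (Function.update I α (I α \ img τ I w β))
        (Function.update w β (w β ++ w α)) i) (img τ (Function.update I α (I α \ img τ I w β))
        (Function.update w β (w β ++ w α)) β) := by
      intro i hi
      rw [disjoint_left]
      intro x hx1 hx2
      by_cases h2 : i = α
      · subst h2
        exact ((hα x).1 hx1).2 ((hβ x).1 hx2)
      · exact disjoint_left.1 (hbdis i α h2) ((key i x hx1).2 hi) ((key β x hx2).1 rfl)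
    intro i j hij
    by_cases hi : i = β
    · subst hi
      exact (hd j hij.symm).symm
    · by_cases hj : j = β
      · subst hj
        exact hd i hi
      · rw [disjoint_left]
        intro x hx1 hx2
        exact disjoint_left.1 (hbdis i j hij) ((key i x hx1).2 hi) ((key j x hx2).2 hj)
  · intro i x hx
    have hx2 : x ∈ I i := by
      by_cases h : i = α
      · subst h
        rw [Function.update_self] at hx
        exact hx.1
      · rwa [Function.update_of_ne h] at hx
    by_cases h : i = β
    · subst h
      rw [Function.update_self, cut_follows]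
      exact ⟨hI.itin i x hx2, hI.itin α _ (hB (hitβ x hx2))⟩
    · rw [Function.update_of_ne h]
      exact hI.itin i x hx2
  · intro i x hx k hk0 hk
    have hx2 : x ∈ I i := by
      by_cases h : i = α
      · subst h
        rw [Function.update_self] at hx
        exact hx.1
      · rwa [Function.update_of_ne h] at hx
    by_cases h : i = β
    · subst h
      rw [Function.update_self, List.length_append] at hk
      rcases lt_trichotomy k (w i).length with h1 | h1 | h1
      · exact fun h2 => hI.ret i x hx2 k hk0 h1 h2.1
      · rw [h1]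
        exact fun h2 => h2.2 (hitβ x hx2)
      · have h3 : k = (k - (w i).length) + (w i).length := by omega
        rw [h3, Function.iterate_add_apply]
        exact fun h2 => hI.ret α _ (hB (hitβ x hx2)) (k - (w i).length) (by omega) (by omega) h2.1
    · rw [Function.update_of_ne h] at hk
      exact fun h2 => hI.ret i x hx2 k hk0 hk h2.1
  · intro i
    by_cases h : i = β
    · subst h
      rw [Function.update_self]
      exact fun h1 => hI.ne i (List.append_eq_nil_iff.1 h1).1
    · rw [Function.update_of_ne h]
      exact hI.ne i

end Q101Ig
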