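import Pool.Agent.Q101.IgCutA

/-!
# Project IG (helper101): cut off a piece which lies in an image (by helper162)
-/

set_option autoImplicit false

open MeasureTheory Set Filter Topology

namespace Q101Ig

theorem cutB : S_cutB := by
  intro d T P τ J I w α β hT hI hαβ hB
  obtain ⟨K, hK⟩ : ∃ K, K = (fun x => x - tr τ (w β)) '' I α := ⟨_, rfl⟩
  rw [← hK]
  obtain ⟨I', hI'⟩ : ∃ I', I' = Function.update (Function.update I β (I β \ K)) α K := ⟨_, rfl⟩
  obtain ⟨w', hw'⟩ : ∃ w', w' = Function.update w α (w β ++ w α) := ⟨_, rfl⟩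
  rw [← hI', ← hw']
  have hIα : I' α = K := by rw [hI', Function.update_self]
  have hIβ : I' β = I β \ K := by rw [hI', Function.update_of_ne hαβ.symm, Function.update_self]
  have hIi : ∀ i, i ≠ α → i ≠ β → I' i = I i := fun i h1 h2 => by
    rw [hI', Function.update_of_ne h1, Function.update_of_ne h2]
  have hwα : w' α = w β ++ w α := by rw [hw', Function.update_self]
  have hwi : ∀ i, i ≠ α → w' i = w i := fun i h1 => by rw [hw', Function.update_of_ne h1]
  have hKm : ∀ x, x ∈ K ↔ x + tr τ (w β) ∈ I α := by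
    intro x
    rw [hK]
    constructor
    · rintro ⟨y, hy, rfl⟩
      simpa using hy
    · intro h
      exact ⟨x + tr τ (w β), h, by simp⟩
  have hKβ : K ⊆ I β := by
    intro x hx
    have h := hB ((hKm x).1 hx)
    rw [cut_img_tr] at h
    simpa using h
  have hdis := hI.disj
  have hbdis := hI.bdisj
  have hIJ : ∀ i, I i ⊆ J := fun i => by
    rw [hI.cover]
    exact subset_iUnion _ i
  have hgJ : ∀ i, img τ I w i ⊆ J := fun i => by
    rw [hI.bcover]
    exact subset_iUnion _ i
  -- the new images
  have himg : ∀ i, i ≠ β → ∀ x, x ∈ img τ I' w' i ↔ x ∈ img τ I w i := by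
    intro i hi x
    rw [cut_img_tr, cut_img_tr]
    by_cases h : i = α
    · subst h
      rw [hIα, hwα, cut_tr_append, hKm]
      have h1 : x - (tr τ (w β) + tr τ (w i)) + tr τ (w β) = x - tr τ (w i) := by ring
      rw [h1]
    · rw [hIi i h hi, hwi i h]
  have himgβ : ∀ x, x ∈ img τ I' w' β ↔ x ∈ img τ I w β ∧ x ∉ I α := by
    intro x
    rw [cut_img_tr, cut_img_tr, hIβ, hwi β hαβ.symm]
    have h1 : x - tr τ (w β) ∈ K ↔ x ∈ I α := by
      rw [hKm]
      simp
    constructor
    · rintro ⟨h2, h3⟩
      exact ⟨h2, fun h4 => h3 (h1.2 h4)⟩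
    · rintro ⟨h2, h3⟩
      exact ⟨h2, fun h4 => h3 (h1.1 h4)⟩
  have hsub : ∀ i, img τ I' w' i ⊆ img τ I w i := by
    intro i x hx
    by_cases h : i = β
    · subst h
      exact ((himgβ x).1 hx).1
    · exact (himg i h x).1 hx
  -- the itinerary of the points of `K`
  have hitK : ∀ x ∈ K, T^[(w β).length] x ∈ I α := by
    intro x hx
    rw [cut_iter hT (w β) x (hI.itin β x (hKβ hx))]
    exact (hKm x).1 hx
  refine ⟨?_, ?_, ?_, ?_, ?_, ?_, ?_⟩
  · ext x
    rw [mem_iUnion]
    constructor
    · rintro ⟨hx, hxα⟩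
      rw [hI.cover, mem_iUnion] at hx
      obtain ⟨i, hi⟩ := hx
      have h1 : i ≠ α := fun h => hxα (h ▸ hi)
      by_cases h : i = β
      · subst h
        by_cases h2 : x ∈ K
        · exact ⟨α, by rw [hIα]; exact h2⟩
        · exact ⟨i, by rw [hIβ]; exact ⟨hi, h2⟩⟩
      · exact ⟨i, by rw [hIi i h1 h]; exact hi⟩
    · rintro ⟨i, hi⟩
      by_cases h : i = α
      · subst h
        rw [hIα] at hi
        exact ⟨hIJ _ (hKβ hi), fun h2 => disjoint_left.1 (hdis i β hαβ) h2 (hKβ hi)⟩
      · by_cases h2 : i = β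
        · subst h2
          rw [hIβ] at hi
          exact ⟨hIJ _ hi.1, fun h3 => disjoint_left.1 (hdis α i hαβ) h3 hi.1⟩
        · rw [hIi i h h2] at hi
          exact ⟨hIJ _ hi, fun h3 => disjoint_left.1 (hdis i α h) hi h3⟩
  · have h1 : Disjoint (I' α) (I' β) := by
      rw [hIα, hIβ]
      exact disjoint_sdiff_self_right
    have h2 : ∀ i, i ≠ α → I' i ⊆ I i := by
      intro i hi
      by_cases h : i = β
      · subst h
        rw [hIβ]
        exact sdiff_subset
      · rw [hIi i hi h]
    have h3 : ∀ i, i ≠ α → Disjoint (I' i) (I' α) := by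
      intro i hi
      by_cases h : i = β
      · subst h
        exact h1.symm
      · refine (hdis i β h).mono (h2 i hi) ?_
        rw [hIα]
        exact hKβ
    intro i j hij
    by_cases hi : i = α
    · subst hi
      exact (h3 j hij.symm).symm
    · by_cases hj : j = α
      · subst hj
        exact h3 i hi
      · exact (hdis i j hij).mono (h2 i hi) (h2 j hj)
  · ext x
    rw [mem_iUnion]
    constructor
    · rintro ⟨hx, hxα⟩
      rw [hI.bcover, mem_iUnion] at hx
      obtain ⟨i, hi⟩ := hx
      refine ⟨i, ?_⟩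
      by_cases h : i = β
      · subst h
        exact (himgβ x).2 ⟨hi, hxα⟩
      · exact (himg i h x).2 hi
    · rintro ⟨i, hi⟩
      refine ⟨hgJ i (hsub i hi), fun h2 => ?_⟩
      by_cases h : i = β
      · subst h
        exact ((himgβ x).1 hi).2 h2
      · exact disjoint_left.1 (hbdis i β h) (hsub i hi) (hB h2)
  · intro i j hij
    exact (hbdis i j hij).mono (hsub i) (hsub j)
  · intro i x hx
    by_cases h : i = α
    · subst h
      rw [hIα] at hx
      rw [hwα, cut_follows]
      exact ⟨hI.itin β x (hKβ hx), hI.itin i _ (hitK x hx)⟩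
    · rw [hwi i h]
      by_cases h2 : i = β
      · subst h2
        rw [hIβ] at hx
        exact hI.itin i x hx.1
      · rw [hIi i h h2] at hx
        exact hI.itin i x hx
  · intro i x hx k hk0 hk
    by_cases h : i = α
    · subst h
      rw [hIα] at hx
      rw [hwα, List.length_append] at hk
      rcases lt_trichotomy k (w β).length with h1 | h1 | h1
      · exact fun h2 => hI.ret β x (hKβ hx) k hk0 h1 h2.1
      · rw [h1]
        exact fun h2 => h2.2 (hitK x hx)
      · have h3 : k = (k - (w β).length) + (w β).length := by omega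
        rw [h3, Function.iterate_add_apply]
        exact fun h2 => hI.ret i _ (hitK x hx) (k - (w β).length) (by omega) (by omega) h2.1
    · rw [hwi i h] at hk
      by_cases h2 : i = β
      · subst h2
        rw [hIβ] at hx
        exact fun h3 => hI.ret i x hx.1 k hk0 hk h3.1
      · rw [hIi i h h2] at hx
        exact fun h3 => hI.ret i x hx k hk0 hk h3.1
  · intro i
    by_cases h : i = α
    · subst h
      rw [hwα]
      exact fun h1 => hI.ne i (List.append_eq_nil_iff.1 h1).2
    · rw [hwi i h]
      exact hI.ne i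

end Q101Ig
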