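import Pool.Agent.Q101.IgS

/-!
# The initial state (IG-9)
-/

set_option autoImplicit false

open MeasureTheory Set Filter Topology

namespace Q101Ig

/-- partial sums -/
noncomputable def IgInit_ps {d : ℕ} (lam : Fin d → ℝ) (k : ℕ) : ℝ :=
  ∑ i ∈ Finset.univ.filter (fun i : Fin d => i.val < k), lam i

theorem IgInit_ps_zero {d : ℕ} (lam : Fin d → ℝ) : IgInit_ps lam 0 = 0 := by
  simp [IgInit_ps]

theorem IgInit_ps_top {d : ℕ} (lam : Fin d → ℝ) : IgInit_ps lam d = ∑ i, lam i := by
  simp [IgInit_ps]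

theorem IgInit_ps_left {d : ℕ} (lam : Fin d → ℝ) (j : Fin d) :
    IgInit_ps lam j.val = left lam j := rfl

theorem IgInit_ps_succ {d : ℕ} (lam : Fin d → ℝ) (j : Fin d) :
    IgInit_ps lam (j.val + 1) = left lam j + lam j := by
  have h : Finset.univ.filter (fun i : Fin d => i.val < j.val + 1)
      = insert j (Finset.univ.filter (fun i : Fin d => i < j)) := by
    ext i
    simp only [Finset.mem_filter, Finset.mem_univ, true_and, Finset.mem_insert, Fin.lt_def,
      Fin.ext_iff]
    omega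
  rw [IgInit_ps, h, Finset.sum_insert (by simp), left, add_comm]

theorem IgInit_ps_mono {d : ℕ} (lam : Fin d → ℝ) (hp : ∀ j, 0 < lam j) :
    Monotone (IgInit_ps lam) := by
  intro a b hab
  apply Finset.sum_le_sum_of_subset_of_nonneg
  · intro i hi
    simp only [Finset.mem_filter, Finset.mem_univ, true_and] at hi ⊢
    omega
  · intro i _ _; exact (hp i).le

theorem IgInit_piece {d : ℕ} (lam : Fin d → ℝ) (j : Fin d) :
    piece lam j = Ico (IgInit_ps lam j.val) (IgInit_ps lam (j.val + 1)) := by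
  rw [IgInit_ps_succ, IgInit_ps_left]; rfl

theorem IgInit_cover {d : ℕ} (lam : Fin d → ℝ) (hp : ∀ j, 0 < lam j) (hs : ∑ j, lam j = 1) :
    Ico (0 : ℝ) 1 = ⋃ i, piece lam i := by
  have h0 := IgInit_ps_zero lam
  have h1 : IgInit_ps lam d = 1 := by rw [IgInit_ps_top, hs]
  apply Subset.antisymm
  · intro x hx
    have h2 : x ∈ Ico (IgInit_ps lam 0) (IgInit_ps lam d) := by rw [h0, h1]; exact hx
    have h3 := Ico_subset_biUnion_Ico d (IgInit_ps lam) h2
    simp only [mem_iUnion, Finset.mem_range, exists_prop] at h3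
    obtain ⟨i, hi, hxi⟩ := h3
    refine mem_iUnion.2 ⟨⟨i, hi⟩, ?_⟩
    rw [IgInit_piece]; exact hxi
  · intro x hx
    obtain ⟨i, hi⟩ := mem_iUnion.1 hx
    rw [IgInit_piece] at hi
    have h2 := IgInit_ps_mono lam hp (Nat.zero_le i.val)
    have h3 := IgInit_ps_mono lam hp (Nat.succ_le_of_lt i.isLt)
    rw [h0] at h2
    rw [h1] at h3
    exact ⟨h2.trans hi.1, hi.2.trans_le h3⟩

theorem IgInit_disj {d : ℕ} (lam : Fin d → ℝ) (hp : ∀ j, 0 < lam j) (i j : Fin d) (h : i ≠ j) :
    Disjoint (piece lam i) (piece lam j) := by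
  rw [IgInit_piece, IgInit_piece]
  have := (IgInit_ps_mono lam hp).pairwise_disjoint_on_Ico_succ
  exact this (fun h' => h (Fin.ext h'))

theorem IgInit_left' {d : ℕ} (lam : Fin d → ℝ) (σ : Equiv.Perm (Fin d)) (j : Fin d) :
    left' lam σ j = left (lam ∘ σ.symm) (σ j) := by
  rw [left', left]
  refine Finset.sum_bij (fun i _ => σ i) ?_ ?_ ?_ ?_
  · intro i hi; simpa using hi
  · intro i _ j _ h; exact σ.injective h
  · intro k hk
    refine ⟨σ.symm k, ?_, by simp⟩
    simpa using hk
  · intro i _; simp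

theorem IgInit_img {d : ℕ} (lam : Fin d → ℝ) (σ : Equiv.Perm (Fin d)) (i : Fin d) :
    img (fun j => left' lam σ j - left lam j) (fun i => Ico (left lam i) (left lam i + lam i))
      (fun i => [i]) i = piece (lam ∘ σ.symm) (σ i) := by
  have h1 : tr (fun j => left' lam σ j - left lam j) [i] = left' lam σ i - left lam i := by
    simp [tr]
  rw [img, h1, image_add_const_Ico, piece, ← IgInit_left']
  congr 1
  · ring
  · simp only [Function.comp_apply, Equiv.symm_apply_apply]; ring

theorem IgInit_iet {d : ℕ} (lam : Fin d → ℝ) (σ : Equiv.Perm (Fin d)) (hp : ∀ j, 0 < lam j)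
    (j : Fin d) (x : ℝ) (hx : x ∈ piece lam j) :
    iet lam σ x = x + (left' lam σ j - left lam j) := by
  rw [iet, Finset.sum_eq_single j]
  · rw [indicator_of_mem hx]
  · intro b _ hb
    apply indicator_of_notMem
    intro h
    exact (disjoint_left.1 (IgInit_disj lam hp b j hb)) h hx
  · intro h; exact absurd (Finset.mem_univ j) h

theorem init : S_init := by
  intro d lam σ hp hs herg
  have hp' : ∀ j, 0 < (lam ∘ σ.symm) j := fun j => hp _
  have hs' : ∑ j, (lam ∘ σ.symm) j = 1 := by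
    rw [← hs]; exact Equiv.sum_comp σ.symm lam
  refine ⟨⟨fun j => measurableSet_Ico, IgInit_cover lam hp hs, IgInit_disj lam hp,
    fun j x hx => IgInit_iet lam σ hp j x hx, herg⟩, ⟨one_pos, fun i => (hp i).le, ?_, by simpa using hs⟩⟩
  refine ⟨?_, ?_, ?_, ?_, ?_, ?_, ?_⟩
  · exact IgInit_cover lam hp hs
  · exact IgInit_disj lam hp
  · show Ico (0 : ℝ) 1 = _
    rw [IgInit_cover (lam ∘ σ.symm) hp' hs']
    ext x
    simp only [mem_iUnion]
    constructor
    · rintro ⟨k, hk⟩
      refine ⟨σ.symm k, ?_⟩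
      have := IgInit_img lam σ (σ.symm k)
      rw [Equiv.apply_symm_apply] at this
      exact this ▸ hk
    · rintro ⟨i, hi⟩
      exact ⟨σ i, (IgInit_img lam σ i) ▸ hi⟩
  · intro i j hij
    have h1 := IgInit_disj (lam ∘ σ.symm) hp' (σ i) (σ j) (fun h => hij (σ.injective h))
    rw [← IgInit_img lam σ i, ← IgInit_img lam σ j] at h1
    exact h1
  · intro i x hx
    exact ⟨hx, trivial⟩
  · intro i x _ k hk hk'
    simp only [List.length_singleton] at hk'
    omega
  · intro i; simp

end Q101Ig
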