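import Pool.Agent.Q101.IgS2
import Pool.Agent.Q101.IgInit

/-!
# The interval exchange transformation and its extensions are invertible (IG-24, helper121)
-/

set_option autoImplicit false

open MeasureTheory Set Filter Topology

namespace Q101Ig

theorem IgEquiv_out {d : ℕ} (lam : Fin d → ℝ) (σ : Equiv.Perm (Fin d)) (hp : ∀ j, 0 < lam j)
    (hs : ∑ j, lam j = 1) (x : ℝ) (hx : x ∉ Ico (0 : ℝ) 1) : iet lam σ x = x := by
  rw [iet, Finset.sum_eq_zero, add_zero]
  intro j _
  apply indicator_of_notMem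
  intro h
  apply hx
  rw [IgInit_cover lam hp hs]
  exact mem_iUnion.2 ⟨j, h⟩

theorem IgEquiv_meas {d : ℕ} (lam : Fin d → ℝ) (σ : Equiv.Perm (Fin d)) :
    Measurable (iet lam σ) := by
  unfold iet
  refine measurable_id.add (Finset.measurable_fun_sum _ fun j _ => ?_)
  exact measurable_const.indicator measurableSet_Ico

theorem IgEquiv_maps {d : ℕ} (lam : Fin d → ℝ) (σ : Equiv.Perm (Fin d)) (hp : ∀ j, 0 < lam j)
    (j : Fin d) (x : ℝ) (hx : x ∈ piece lam j) : iet lam σ x ∈ piece (lam ∘ σ.symm) (σ j) := by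
  rw [IgInit_iet lam σ hp j x hx]
  obtain ⟨h1, h2⟩ := hx
  rw [piece, ← IgInit_left']
  simp only [Function.comp_apply, Equiv.symm_apply_apply]
  exact ⟨by linarith, by linarith⟩

theorem IgEquiv_linv {d : ℕ} (lam : Fin d → ℝ) (σ : Equiv.Perm (Fin d)) (hp : ∀ j, 0 < lam j)
    (hs : ∑ j, lam j = 1) (x : ℝ) : iet (lam ∘ σ.symm) σ.symm (iet lam σ x) = x := by
  have hp' : ∀ j, 0 < (lam ∘ σ.symm) j := fun j => hp _
  have hs' : ∑ j, (lam ∘ σ.symm) j = 1 := by
    rw [← hs]; exact Equiv.sum_comp σ.symm lam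
  by_cases hx : x ∈ Ico (0 : ℝ) 1
  · rw [IgInit_cover lam hp hs] at hx
    obtain ⟨j, hj⟩ := mem_iUnion.1 hx
    have h1 := IgEquiv_maps lam σ hp j x hj
    rw [IgInit_iet (lam ∘ σ.symm) σ.symm hp' (σ j) _ h1, IgInit_iet lam σ hp j x hj]
    have h2 : left' (lam ∘ σ.symm) σ.symm (σ j) = left lam j := by
      rw [IgInit_left']
      have e : (lam ∘ σ.symm) ∘ σ.symm.symm = lam := by
        funext i
        simp
      rw [e, Equiv.symm_apply_apply]
    rw [h2, ← IgInit_left']
    ring
  · rw [IgEquiv_out lam σ hp hs x hx, IgEquiv_out (lam ∘ σ.symm) σ.symm hp' hs' x hx]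

theorem IgEquiv_rinv {d : ℕ} (lam : Fin d → ℝ) (σ : Equiv.Perm (Fin d)) (hp : ∀ j, 0 < lam j)
    (hs : ∑ j, lam j = 1) (x : ℝ) : iet lam σ (iet (lam ∘ σ.symm) σ.symm x) = x := by
  have hp' : ∀ j, 0 < (lam ∘ σ.symm) j := fun j => hp _
  have hs' : ∑ j, (lam ∘ σ.symm) j = 1 := by
    rw [← hs]; exact Equiv.sum_comp σ.symm lam
  have h := IgEquiv_linv (lam ∘ σ.symm) σ.symm hp' hs' x
  have e : (lam ∘ σ.symm) ∘ σ.symm.symm = lam := by
    funext i
    simp
  rwa [e, Equiv.symm_symm] at h

theorem IgEquiv_mp {d : ℕ} (lam : Fin d → ℝ) (σ : Equiv.Perm (Fin d)) (hp : ∀ j, 0 < lam j)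
    (hs : ∑ j, lam j = 1) : MeasurePreserving (iet lam σ) leb leb := by
  have hp' : ∀ j, 0 < (lam ∘ σ.symm) j := fun j => hp _
  have hs' : ∑ j, (lam ∘ σ.symm) j = 1 := by
    rw [← hs]; exact Equiv.sum_comp σ.symm lam
  refine ⟨IgEquiv_meas lam σ, ?_⟩
  ext A hA
  have hm := IgEquiv_meas lam σ
  rw [Measure.map_apply hm hA]
  have key : ∀ (lam' : Fin d → ℝ), (∀ j, 0 < lam' j) → ∑ j, lam' j = 1 → ∀ S : Set ℝ,
      MeasurableSet S → leb S = ∑ j, volume (S ∩ piece lam' j) := by
    intro lam' hq hs1 S hS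
    rw [leb, Measure.restrict_apply hS, IgInit_cover lam' hq hs1, inter_iUnion, measure_iUnion,
      tsum_fintype]
    · intro i j hij
      exact (IgInit_disj lam' hq i j hij).mono inter_subset_right inter_subset_right
    · exact fun j => hS.inter measurableSet_Ico
  rw [key lam hp hs _ (hm hA), key _ hp' hs' A hA,
    ← Equiv.sum_comp σ (fun k => volume (A ∩ piece (lam ∘ σ.symm) k))]
  refine Finset.sum_congr rfl fun j _ => ?_
  have h1 : iet lam σ ⁻¹' A ∩ piece lam j =
      (fun x => x + (left' lam σ j - left lam j)) ⁻¹' (A ∩ piece (lam ∘ σ.symm) (σ j)) := by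
    ext x
    constructor
    · rintro ⟨h2, h3⟩
      have h4 := IgEquiv_maps lam σ hp j x h3
      rw [mem_preimage] at h2 ⊢
      rw [IgInit_iet lam σ hp j x h3] at h2 h4
      exact ⟨h2, h4⟩
    · rintro ⟨h2, h3⟩
      have h4 : x ∈ piece lam j := by
        rw [piece, ← IgInit_left'] at h3
        simp only [Function.comp_apply, Equiv.symm_apply_apply] at h3
        exact ⟨by linarith [h3.1], by linarith [h3.2]⟩
      refine ⟨?_, h4⟩
      rw [mem_preimage, IgInit_iet lam σ hp j x h4]
      exact h2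
  rw [h1]
  exact measure_preimage_add_right _ _ _

theorem IgEquiv_step {d : ℕ} {G : Type} [Group G] (lam : Fin d → ℝ) (hp : ∀ j, 0 < lam j)
    (g : Fin d → G) (j : Fin d) (x : ℝ) (hx : x ∈ piece lam j) : stepFn lam g x = g j := by
  have h : ∃ j, x ∈ piece lam j := ⟨j, hx⟩
  rw [stepFn, dif_pos h]
  congr 1
  by_contra hne
  exact (disjoint_left.1 (IgInit_disj lam hp _ j hne)) h.choose_spec hx

theorem IgEquiv_stepMeas {d : ℕ} {G : Type} [Group G] [MeasurableSpace G] (lam : Fin d → ℝ)
    (hp : ∀ j, 0 < lam j) (g : Fin d → G) : Measurable (stepFn lam g) := by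
  classical
  intro S _
  have h1 : stepFn lam g ⁻¹' S = (⋃ j ∈ Finset.univ.filter (fun j => g j ∈ S), piece lam j) ∪
      (if (1 : G) ∈ S then (⋃ j, piece lam j)ᶜ else ∅) := by
    ext x
    by_cases hx : ∃ j, x ∈ piece lam j
    · obtain ⟨j, hj⟩ := hx
      rw [mem_preimage, IgEquiv_step lam hp g j x hj]
      constructor
      · intro h
        left
        simp only [mem_iUnion, Finset.mem_filter, Finset.mem_univ, true_and]
        exact ⟨j, h, hj⟩
      · intro h
        rcases h with h | h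
        · simp only [mem_iUnion, Finset.mem_filter, Finset.mem_univ, true_and] at h
          obtain ⟨i, hi, hxi⟩ := h
          by_cases hij : i = j
          · rw [← hij]; exact hi
          · exact absurd hj (disjoint_left.1 (IgInit_disj lam hp i j hij) hxi)
        · split_ifs at h with h1
          · exact absurd (mem_iUnion.2 ⟨j, hj⟩) h
          · exact absurd h (notMem_empty x)
    · have h2 : stepFn lam g x = 1 := by rw [stepFn, dif_neg hx]
      rw [mem_preimage, h2]
      have h3 : x ∉ ⋃ j, piece lam j := fun h => hx (mem_iUnion.1 h)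
      constructor
      · intro h
        right
        rw [if_pos h]
        exact h3
      · intro h
        rcases h with h | h
        · simp only [mem_iUnion, Finset.mem_filter, Finset.mem_univ, true_and] at h
          obtain ⟨i, hi, hxi⟩ := h
          exact absurd ⟨i, hxi⟩ hx
        · split_ifs at h with h1
          · exact h1
          · exact absurd h (notMem_empty x)
  rw [h1]
  refine MeasurableSet.union ?_ ?_
  · exact Finset.measurableSet_biUnion _ fun j _ => measurableSet_Ico
  · split_ifs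
    · exact (MeasurableSet.iUnion fun j => measurableSet_Ico).compl
    · exact MeasurableSet.empty

theorem equiv : S_equiv := by
  intro d lam σ hp hs
  refine ⟨IgEquiv_meas lam σ, IgEquiv_mp lam σ hp hs, ?_⟩
  intro G _ _ _ _ g
  have hm := IgEquiv_meas lam σ
  have hm' := IgEquiv_meas (lam ∘ σ.symm) σ.symm
  have hst := IgEquiv_stepMeas lam hp g
  refine ⟨hst, fun j x hx => IgEquiv_step lam hp g j x hx, ?_⟩
  refine ⟨{ toFun := skew lam σ g
            invFun := fun z => (iet (lam ∘ σ.symm) σ.symm z.1,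
              (stepFn lam g (iet (lam ∘ σ.symm) σ.symm z.1))⁻¹ * z.2)
            left_inv := ?_
            right_inv := ?_
            measurable_toFun := ?_
            measurable_invFun := ?_ }, fun z => rfl⟩
  · intro z
    simp only [skew]
    rw [IgEquiv_linv lam σ hp hs, inv_mul_cancel_left]
  · intro z
    simp only [skew]
    rw [IgEquiv_rinv lam σ hp hs, mul_inv_cancel_left]
  · exact (hm.comp measurable_fst).prodMk ((hst.comp measurable_fst).mul measurable_snd)
  · exact (hm'.comp measurable_fst).prodMk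
      (((hst.comp (hm'.comp measurable_fst)).inv).mul measurable_snd)

end Q101Ig
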