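import Pool.Agent.Q101.IgS

/-!
# A countable family of induced systems (IG-8)
-/

set_option autoImplicit false

open MeasureTheory Set Filter Topology

namespace Q101Ig

/-- two labels of a state sum to at most the length of the interval -/
theorem IgFam_two {d : ℕ} {T : ℝ → ℝ} {P : Fin d → Set ℝ} {τ : Fin d → ℝ} {s s' : St d} {c : ℝ}
    {lo : Fin d} (hv : Valid T P τ s) (hs : Step s s' c lo) : 2 * c ≤ s.b - s.a := by
  obtain ⟨k, hk, hck⟩ := hs.win
  have h1 : ∑ i ∈ ({lo, k} : Finset (Fin d)), s.l i ≤ ∑ i, s.l i :=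
    Finset.sum_le_sum_of_subset_of_nonneg (Finset.subset_univ _) fun i _ _ => hv.nonneg i
  rw [Finset.sum_pair hk.symm, hs.lo_len, hv.sum] at h1
  linarith

/-- two long pieces -/
theorem IgFam_labels {d : ℕ} {T : ℝ → ℝ} {P : Fin d → Set ℝ} {τ : Fin d → ℝ} {s : St d}
    (hv : Valid T P τ s) (hg : ∀ i, s.l i ≤ 3 / 4 * (s.b - s.a)) :
    ∃ i j : Fin d, i ≠ j ∧ (s.b - s.a) / (4 * d) ≤ s.l i ∧ (s.b - s.a) / (4 * d) ≤ s.l j := by
  have hL : 0 < s.b - s.a := sub_pos.2 hv.lt
  have hd : 0 < d := by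
    rcases Nat.eq_zero_or_pos d with h | h
    · subst h
      have := hv.sum
      simp at this
      linarith
    · exact h
  haveI : Nonempty (Fin d) := ⟨⟨0, hd⟩⟩
  have hdR : (0 : ℝ) < d := by exact_mod_cast hd
  obtain ⟨i, hi⟩ := Finite.exists_max s.l
  have h1 : s.b - s.a ≤ d * s.l i := by
    rw [← hv.sum]
    calc ∑ k, s.l k ≤ ∑ _k : Fin d, s.l i := Finset.sum_le_sum fun k _ => hi k
      _ = d * s.l i := by simp
  have h2 : (s.b - s.a) / (4 * d) ≤ s.l i := by
    rw [div_le_iff₀ (by positivity)]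
    have : 0 ≤ s.l i := hv.nonneg i
    nlinarith
  by_contra hcon
  push Not at hcon
  have h3 : ∀ j ∈ Finset.univ.erase i, s.l j ≤ (s.b - s.a) / (4 * d) := by
    intro j hj
    exact (hcon i j (Finset.ne_of_mem_erase hj).symm h2).le
  have h4 : ∑ j ∈ Finset.univ.erase i, s.l j ≤ (d - 1 : ℕ) * ((s.b - s.a) / (4 * d)) := by
    calc ∑ j ∈ Finset.univ.erase i, s.l j
        ≤ ∑ _j ∈ Finset.univ.erase i, (s.b - s.a) / (4 * d) := Finset.sum_le_sum h3
      _ = (d - 1 : ℕ) * ((s.b - s.a) / (4 * d)) := by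
        rw [Finset.sum_const, Finset.card_erase_of_mem (Finset.mem_univ i), Finset.card_univ,
          Fintype.card_fin, nsmul_eq_mul]
  have h5 : s.l i + ∑ j ∈ Finset.univ.erase i, s.l j = s.b - s.a := by
    rw [Finset.add_sum_erase _ _ (Finset.mem_univ i), hv.sum]
  have h6 : ((d - 1 : ℕ) : ℝ) = d - 1 := by
    rw [Nat.cast_sub hd]; simp
  have h7 : (d : ℝ) * ((s.b - s.a) / (4 * d)) = (s.b - s.a) / 4 := by
    field_simp
  have h8 : 0 < (s.b - s.a) / (4 * d) := by positivity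
  rw [h6] at h4
  have := hg i
  nlinarith

theorem fam (hR : S_right) (hL : S_left) (hap : S_ap) (hsh : S_shrink) (hgo : S_good) :
    S_fam := by
  intro d T P τ hS s₀ hv₀ ha₀ hb₀ hN₀
  -- the two steps
  have stepR : ∀ s : {s : St d // Valid T P τ s ∧ Nielsen s.w},
      ∃ s' : {s : St d // Valid T P τ s ∧ Nielsen s.w}, ∃ c lo,
        Step s.1 s'.1 c lo ∧ s'.1.a = s.1.a ∧ s'.1.b = s.1.b - c := by
    rintro ⟨s, hv, hN⟩
    obtain ⟨s', c, lo, h1, h2, h3, h4, h5⟩ := hR d T P τ hS.trans s hv (hap d T P τ hS s hv)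
    exact ⟨⟨s', h1, h3 hN⟩, c, lo, h2, h4, h5⟩
  have stepL : ∀ s : {s : St d // Valid T P τ s ∧ Nielsen s.w},
      ∃ s' : {s : St d // Valid T P τ s ∧ Nielsen s.w}, ∃ c lo,
        Step s.1 s'.1 c lo ∧ s'.1.a = s.1.a + c ∧ s'.1.b = s.1.b := by
    rintro ⟨s, hv, hN⟩
    obtain ⟨s', c, lo, h1, h2, h3, h4, h5⟩ := hL d T P τ hS.trans s hv (hap d T P τ hS s hv)
    exact ⟨⟨s', h1, h3 hN⟩, c, lo, h2, h4, h5⟩
  choose R cR loR hR1 hR2 hR3 using stepR
  choose L cL loL hL1 hL2 hL3 using stepL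
  let path : List Bool → {s : St d // Valid T P τ s ∧ Nielsen s.w} :=
    fun p => p.foldr (fun b s => if b then R s else L s) ⟨s₀, hv₀, hN₀⟩
  have path_true : ∀ p, path (true :: p) = R (path p) := fun p => by simp [path]
  have path_false : ∀ p, path (false :: p) = L (path p) := fun p => by simp [path]
  -- points stay in one of the two intervals
  have key : ∀ (x : ℝ) (p : List Bool), x ∈ (path p).1.J →
      ∃ b : Bool, x ∈ (path (b :: p)).1.J := by
    intro x p hx
    have h1 := IgFam_two (path p).2.1 (hR1 (path p))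
    have h2 := IgFam_two (path p).2.1 (hL1 (path p))
    rw [St.J, mem_Ico] at hx
    by_cases h : x < (path p).1.b - cR (path p)
    · refine ⟨true, ?_⟩
      rw [path_true, St.J, mem_Ico, hR2, hR3]
      exact ⟨hx.1, h⟩
    · refine ⟨false, ?_⟩
      rw [path_false, St.J, mem_Ico, hL2, hL3]
      push Not at h
      exact ⟨by linarith, hx.2⟩
  have hstep : ∀ (p : List Bool) (b : Bool), ∃ c lo, Step (path p).1 (path (b :: p)).1 c lo := by
    intro p b
    cases b
    · rw [path_false]; exact ⟨_, _, hL1 _⟩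
    · rw [path_true]; exact ⟨_, _, hR1 _⟩
  -- good lists
  let Good : List Bool → Prop := fun p =>
    ∀ i, (path p).1.l i ≤ 3 / 4 * ((path p).1.b - (path p).1.a)
  have main : ∀ x ∈ Ico (0 : ℝ) 1, ∀ δ : ℝ, 0 < δ → ∃ p, Good p ∧ x ∈ (path p).1.J ∧
      (path p).1.b - (path p).1.a < δ := by
    intro x hx δ hδ
    have h0 : x ∈ (path []).1.J := by
      show x ∈ Ico s₀.a s₀.b
      rw [ha₀, hb₀]; exact hx
    choose! B hB using key x
    let g : ℕ → List Bool := fun n => Nat.rec [] (fun _ p => B p :: p) n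
    have hg0 : g 0 = [] := rfl
    have hgs : ∀ n, g (n + 1) = B (g n) :: g n := fun n => rfl
    have hmem : ∀ n, x ∈ (path (g n)).1.J := by
      intro n
      induction n with
      | zero => exact h0
      | succ n ih => rw [hgs]; exact hB _ ih
    have hst : ∀ n, ∃ c lo, Step (path (g n)).1 (path (g (n + 1))).1 c lo := by
      intro n; rw [hgs]; exact hstep _ _
    have hlim := hsh d T P τ hS (fun n => (path (g n)).1) (fun n => (path (g n)).2.1) hst
    have hfr := hgo d T P τ (fun n => (path (g n)).1) (fun n => (path (g n)).2.1)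
      (fun n i => hap d T P τ hS _ (path (g n)).2.1 i) hst hlim
    have hev : ∀ᶠ n in atTop, (path (g n)).1.b - (path (g n)).1.a < δ :=
      (tendsto_order.1 hlim).2 δ hδ
    obtain ⟨n, hn1, hn2⟩ := (hfr.and_eventually hev).exists
    exact ⟨g n, hn1, hmem n, hn2⟩
  haveI : Nonempty {p : List Bool // Good p} := by
    obtain ⟨p, hp, -⟩ := main 0 ⟨le_rfl, one_pos⟩ 1 one_pos
    exact ⟨⟨p, hp⟩⟩
  obtain ⟨e, he⟩ := exists_surjective_nat {p : List Bool // Good p}
  have hlab : ∀ n, ∃ i j : Fin d, i ≠ j ∧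
      ((path (e n).1).1.b - (path (e n).1).1.a) / (4 * d) ≤ (path (e n).1).1.l i ∧
      ((path (e n).1).1.b - (path (e n).1).1.a) / (4 * d) ≤ (path (e n).1).1.l j :=
    fun n => IgFam_labels (path (e n).1).2.1 (e n).2
  choose i j hij h1 h2 using hlab
  refine ⟨fun n => (path (e n).1).1, i, j, fun n => ⟨(path (e n).1).2.1, (path (e n).1).2.2,
    hij n, h1 n, h2 n⟩, ?_⟩
  intro x hx δ hδ
  obtain ⟨p, hp, hpx, hpδ⟩ := main x hx δ hδ
  obtain ⟨n, hn⟩ := he ⟨p, hp⟩
  refine ⟨n, ?_, ?_⟩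
  · simp only [hn]; exact hpx
  · simp only [hn]; exact hpδ

end Q101Ig
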