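import Pool.Agent.Q101.IgS

/-!
# Project IG (helper101): Haar measure of a compact group is right invariant (by helper162)
-/

set_option autoImplicit false

open MeasureTheory Set Filter Topology

namespace Q101Ig

theorem haarR : S_haarR := by
  intro G _ _ _ _ _ _ _ μ _
  refine ⟨fun g => ?_⟩
  have h := Measure.isMulInvariant_eq_smul_of_compactSpace (Measure.map (· * g) μ) μ
  obtain ⟨c, hc⟩ : ∃ c, c = Measure.haarScalarFactor (Measure.map (· * g) μ) μ := ⟨_, rfl⟩
  rw [← hc] at h
  have h1 : Measure.map (· * g) μ univ = μ univ := by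
    rw [Measure.map_apply (measurable_mul_const g) MeasurableSet.univ, preimage_univ]
  have h2 : (c : ENNReal) * μ univ = 1 * μ univ := by
    rw [h] at h1
    rw [one_mul]
    exact h1
  have h3 : (c : ENNReal) = 1 := by
    rwa [ENNReal.mul_left_inj (NeZero.ne _) (measure_ne_top _ _)] at h2
  have h4 : c = 1 := ENNReal.coe_eq_one.1 h3
  rw [h, h4, one_smul]

end Q101Ig
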