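import Pool.Agent.Q101.IgS2
import Pool.Agent.Q101.IgHaarR

/-!
# From vector valued functions to functions on the product with the group (IG-23, helper121)
-/

set_option autoImplicit false

open MeasureTheory Set Filter Topology
open scoped Matrix

namespace Q101Ig

theorem IgFin_prob : IsProbabilityMeasure leb := by
  refine ⟨?_⟩
  rw [leb, Measure.restrict_apply_univ, Real.volume_Ico]
  norm_num

section

variable {G : Type} [Group G] [TopologicalSpace G] [IsTopologicalGroup G]
  [CompactSpace G] [SecondCountableTopology G] [MeasurableSpace G]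
  [BorelSpace G] {μ : Measure G} [IsProbabilityMeasure μ]

theorem IgFin_int {f : G → ℂ} (hf : Measurable f) {B : ℝ} (hb : ∀ y, ‖f y‖ ≤ B) {v : G → ℂ}
    (hv : Continuous v) : Integrable (fun y => f y * v y) μ := by
  obtain ⟨C, hC⟩ := isCompact_univ.exists_bound_of_continuousOn hv.continuousOn
  have hB : 0 ≤ B := (norm_nonneg _).trans (hb 1)
  refine Integrable.of_bound (hf.mul hv.measurable).aestronglyMeasurable (B * C)
    (ae_of_all _ fun y => ?_)
  rw [norm_mul]
  exact mul_le_mul (hb y) (hC y (mem_univ y)) (norm_nonneg _) hB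

/-- a bounded function which is orthogonal to all continuous functions vanishes -/
theorem IgFin_zero [T2Space G] {w : G → ℂ} (hw : Measurable w) {B : ℝ} (hB : 0 < B)
    (hb : ∀ y, ‖w y‖ ≤ B) (h : ∀ v : C(G, ℂ), ∫ y, w y * v y ∂μ = 0) : ∀ᵐ y ∂μ, w y = 0 := by
  have := TopologicalSpace.metrizableSpace_of_t3_secondCountable G
  set w' : G → ℂ := fun y => (starRingEnd ℂ) (w y) with hw'
  have hw'm : Measurable w' := Complex.continuous_conj.measurable.comp hw
  have hL : MemLp w' 1 μ := MemLp.of_bound hw'm.aestronglyMeasurable B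
    (ae_of_all _ fun y => by rw [hw']; simp only [RCLike.norm_conj]; exact hb y)
  have hsqi : Integrable (fun y => ‖w y‖ ^ 2) μ := by
    refine Integrable.of_bound (hw.norm.pow_const 2).aestronglyMeasurable (B ^ 2)
      (ae_of_all _ fun y => ?_)
    rw [norm_pow, norm_norm]
    exact pow_le_pow_left₀ (norm_nonneg _) (hb y) 2
  have key : ∀ ε : ℝ, 0 < ε → ∫ y, ‖w y‖ ^ 2 ∂μ ≤ B * ε := by
    intro ε hε
    obtain ⟨v, hv, hvL⟩ := hL.exists_boundedContinuous_eLpNorm_sub_le ENNReal.one_ne_top
      (ε := ENNReal.ofReal ε) (by simpa using hε)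
    have hvi : Integrable (fun y => w' y - v y) μ := (hL.sub hvL).integrable le_rfl
    have hni : ∫ y, ‖w' y - v y‖ ∂μ ≤ ε := by
      have h1 := eLpNorm_one_eq_lintegral_enorm (f := w' - ⇑v) (μ := μ)
      rw [h1] at hv
      have h2 : ENNReal.ofReal (∫ y, ‖w' y - v y‖ ∂μ) ≤ ENNReal.ofReal ε := by
        rw [ofReal_integral_norm_eq_lintegral_enorm hvi]
        exact hv
      exact (ENNReal.ofReal_le_ofReal_iff hε.le).1 h2
    have h0 := h v.toContinuousMap
    have h3 : ((∫ y, ‖w y‖ ^ 2 ∂μ : ℝ) : ℂ) = ∫ y, w y * (w' y - v y) ∂μ := by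
      have e1 : ∀ y, w y * (w' y - v y) = w y * w' y - w y * v y := fun y => by ring
      simp only [e1]
      have i1 : Integrable (fun y => w y * w' y) μ := by
        refine Integrable.of_bound (hw.mul hw'm).aestronglyMeasurable (B * B)
          (ae_of_all _ fun y => ?_)
        rw [norm_mul]
        refine mul_le_mul (hb y) ?_ (norm_nonneg _) hB.le
        rw [hw']; simp only [RCLike.norm_conj]; exact hb y
      have i2 : Integrable (fun y => w y * v y) μ := IgFin_int hw hb v.continuous
      rw [integral_sub i1 i2]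
      have e2 : ∫ y, w y * v y ∂μ = 0 := h0
      rw [e2, sub_zero, ← integral_complex_ofReal]
      refine integral_congr_ae (ae_of_all _ fun y => ?_)
      simp only [hw']
      rw [Complex.mul_conj, Complex.normSq_eq_norm_sq]
    have h4 : ∫ y, ‖w y‖ ^ 2 ∂μ ≤ ‖∫ y, w y * (w' y - v y) ∂μ‖ := by
      rw [← h3, Complex.norm_real]
      exact le_abs_self _
    refine h4.trans ((norm_integral_le_integral_norm _).trans ?_)
    have h5 : ∫ y, ‖w y * (w' y - v y)‖ ∂μ ≤ ∫ y, B * ‖w' y - v y‖ ∂μ := by
      refine integral_mono_of_nonneg (ae_of_all _ fun y => norm_nonneg _) (hvi.norm.const_mul B)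
        (ae_of_all _ fun y => ?_)
      simp only [norm_mul]
      exact mul_le_mul_of_nonneg_right (hb y) (norm_nonneg _)
    rw [integral_const_mul] at h5
    exact h5.trans (mul_le_mul_of_nonneg_left hni hB.le)
  have h6 : ∫ y, ‖w y‖ ^ 2 ∂μ ≤ 0 := by
    refine le_of_forall_pos_le_add fun ε hε => ?_
    have := key (ε / B) (by positivity)
    rw [zero_add]
    refine this.trans (le_of_eq ?_)
    field_simp
  have h7 : ∫ y, ‖w y‖ ^ 2 ∂μ = 0 := le_antisymm h6 (integral_nonneg fun y => by positivity)
  have h8 := (integral_eq_zero_iff_of_nonneg (fun y => by positivity) hsqi).1 h7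
  filter_upwards [h8] with y hy
  have : ‖w y‖ ^ 2 = 0 := hy
  simpa using this

end

theorem fin : S_fin := by
  intro d T P hP hcov hT G _ _ _ _ _ _ _ _ μ _ _ ι _ _ ρ A u hρ hu huA g φ hφ hφg c hc hgood f hf
    hfb hfeq
  have hlp := IgFin_prob
  have hR : μ.IsMulRightInvariant := haarR G μ
  have hfx : ∀ x, Measurable fun y => f (x, y) := fun x => hf.comp measurable_prodMk_left
  have hfxb : ∀ x y, ‖f (x, y)‖ ≤ 1 := fun x y => hfb (x, y)
  have hae : ∀ᵐ x ∂leb, ∀ᵐ y ∂μ, f (T x, φ x * y) = c * f (x, y) :=
    Measure.ae_ae_of_ae_prod hfeq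
  have hent : ∀ k i a, Continuous fun y => (ρ k y : Matrix (ι k) (ι k) ℂ) i a := by
    intro k i a
    have h1 : Continuous fun y => (ρ k y : Matrix (ι k) (ι k) ℂ) :=
      continuous_subtype_val.comp (hρ k)
    exact h1.matrix_elem i a
  -- the columns
  set F : ∀ k, ι k → ℝ → ι k → ℂ := fun k a x i =>
    ∫ y, f (x, y) * (ρ k y : Matrix (ι k) (ι k) ℂ) i a ∂μ with hF
  have hFm : ∀ k a, Measurable (F k a) := by
    intro k a
    refine measurable_pi_iff.2 fun i => ?_
    have h1 : Measurable fun z : ℝ × G => f z * (ρ k z.2 : Matrix (ι k) (ι k) ℂ) i a :=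
      hf.mul ((hent k i a).measurable.comp measurable_snd)
    exact (h1.stronglyMeasurable.integral_prod_right' (ν := μ)).measurable
  have hFeq : ∀ k a j, ∀ᵐ x ∂leb, x ∈ P j →
      F k a (T x) = c • ((ρ k (g j) : Matrix (ι k) (ι k) ℂ) *ᵥ F k a x) := by
    intro k a j
    filter_upwards [hae] with x hx hxj
    funext i
    rw [Pi.smul_apply, Matrix.mulVec, dotProduct, smul_eq_mul, Finset.mul_sum]
    have h1 : F k a (T x) i = ∫ y, f (T x, φ x * y) *
        (ρ k (φ x * y) : Matrix (ι k) (ι k) ℂ) i a ∂μ :=
      (integral_mul_left_eq_self (μ := μ)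
        (fun y => f (T x, y) * (ρ k y : Matrix (ι k) (ι k) ℂ) i a) (φ x)).symm
    have h2 : ∫ y, f (T x, φ x * y) * (ρ k (φ x * y) : Matrix (ι k) (ι k) ℂ) i a ∂μ =
        ∫ y, ∑ l, c * ((ρ k (g j) : Matrix (ι k) (ι k) ℂ) i l *
          (f (x, y) * (ρ k y : Matrix (ι k) (ι k) ℂ) l a)) ∂μ := by
      refine integral_congr_ae ?_
      filter_upwards [hx] with y hy
      rw [hy, map_mul, hφg j x hxj, Submonoid.coe_mul, Matrix.mul_apply, Finset.mul_sum]
      refine Finset.sum_congr rfl fun l _ => ?_
      ring
    rw [h1, h2, integral_finsetSum]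
    · refine Finset.sum_congr rfl fun l _ => ?_
      rw [integral_const_mul, integral_const_mul]
    · intro l _
      exact ((IgFin_int (hfx x) (hfxb x) (hent k l a)).const_mul _).const_mul _
  have hFfix : ∀ᵐ x ∂leb, ∀ k a (h : G), (ρ k h : Matrix (ι k) (ι k) ℂ) *ᵥ F k a x = F k a x := by
    refine ae_all_iff.2 fun k => ?_
    refine ae_all_iff.2 fun a => ?_
    exact hgood k (F k a) (hFm k a) (hFeq k a)
  set m : ℝ → ℂ := fun x => ∫ y, f (x, y) ∂μ with hm
  have hmm : Measurable m := (hf.stronglyMeasurable.integral_prod_right' (ν := μ)).measurable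
  have hmb : ∀ x, ‖m x‖ ≤ 1 := by
    intro x
    have := norm_integral_le_of_norm_le_const (μ := μ) (C := 1) (f := fun y => f (x, y))
      (ae_of_all _ fun y => hfxb x y)
    simpa using this
  -- integrals against the functions u k
  have hJ : ∀ᵐ x ∂leb, ∀ k, ∫ y, f (x, y) * u k y ∂μ = m x * ∫ y, u k y ∂μ := by
    filter_upwards [hFfix] with x hx k
    have h1 : ∀ h : G, ∫ y, f (x, y) * u k (h * y) ∂μ = ∫ y, f (x, y) * u k y ∂μ := by
      intro h
      have e0 : ∀ y, f (x, y) * u k y = ∑ a, ∑ i, A k a i *
          (f (x, y) * (ρ k y : Matrix (ι k) (ι k) ℂ) i a) := by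
        intro y
        rw [huA, Matrix.trace, Finset.mul_sum]
        refine Finset.sum_congr rfl fun a _ => ?_
        rw [Matrix.diag_apply, Matrix.mul_apply, Finset.mul_sum]
        refine Finset.sum_congr rfl fun i _ => ?_
        ring
      have e1 : ∀ y, f (x, y) * u k (h * y) = ∑ a, ∑ i, A k a i *
          ∑ l, (ρ k h : Matrix (ι k) (ι k) ℂ) i l *
            (f (x, y) * (ρ k y : Matrix (ι k) (ι k) ℂ) l a) := by
        intro y
        rw [huA, Matrix.trace, Finset.mul_sum]
        refine Finset.sum_congr rfl fun a _ => ?_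
        rw [Matrix.diag_apply, Matrix.mul_apply, Finset.mul_sum]
        refine Finset.sum_congr rfl fun i _ => ?_
        rw [map_mul, Submonoid.coe_mul, Matrix.mul_apply, Finset.mul_sum, Finset.mul_sum,
          Finset.mul_sum]
        refine Finset.sum_congr rfl fun l _ => ?_
        ring
      have i0 : ∀ i a, Integrable (fun y => f (x, y) * (ρ k y : Matrix (ι k) (ι k) ℂ) i a) μ :=
        fun i a => IgFin_int (hfx x) (hfxb x) (hent k i a)
      simp only [e0, e1]
      rw [integral_finsetSum _ (fun a _ => integrable_finsetSum _ fun i _ =>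
          (integrable_finsetSum _ fun l _ => (i0 l a).const_mul _).const_mul _),
        integral_finsetSum _ (fun a _ => integrable_finsetSum _ fun i _ => (i0 i a).const_mul _)]
      refine Finset.sum_congr rfl fun a _ => ?_
      rw [integral_finsetSum _ (fun i _ =>
          (integrable_finsetSum _ fun l _ => (i0 l a).const_mul _).const_mul _),
        integral_finsetSum _ (fun i _ => (i0 i a).const_mul _)]
      refine Finset.sum_congr rfl fun i _ => ?_
      rw [integral_const_mul, integral_const_mul, integral_finsetSum _ (fun l _ =>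
        (i0 l a).const_mul _)]
      congr 1
      have h2 := congrFun (hx k a h) i
      rw [Matrix.mulVec, dotProduct] at h2
      rw [← show F k a x i = ∫ y, f (x, y) * (ρ k y : Matrix (ι k) (ι k) ℂ) i a ∂μ from rfl, ← h2]
      refine Finset.sum_congr rfl fun l _ => ?_
      rw [integral_const_mul]
    have h2 : ∫ h, ∫ y, f (x, y) * u k (h * y) ∂μ ∂μ = ∫ y, f (x, y) * u k y ∂μ := by
      simp only [h1]
      simp
    have h3 : ∫ h, ∫ y, f (x, y) * u k (h * y) ∂μ ∂μ =
        ∫ y, ∫ h, f (x, y) * u k (h * y) ∂μ ∂μ := by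
      refine integral_integral_swap ?_
      refine Integrable.of_bound ?_ (1 * ‖u k‖) (ae_of_all _ fun z => ?_)
      · refine Measurable.aestronglyMeasurable ?_
        refine ((hfx x).comp measurable_snd).mul ?_
        exact (u k).continuous.measurable.comp (measurable_fst.mul measurable_snd)
      · simp only [Function.uncurry, norm_mul]
        exact mul_le_mul (hfxb x _) ((u k).norm_coe_le_norm _) (norm_nonneg _) zero_le_one
    rw [← h2, h3]
    have h4 : ∀ y, ∫ h, f (x, y) * u k (h * y) ∂μ = f (x, y) * ∫ h, u k h ∂μ := by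
      intro y
      rw [integral_const_mul, integral_mul_right_eq_self (μ := μ) (fun h => u k h) y]
    simp only [h4]
    rw [integral_mul_const]
  -- all continuous functions
  have hfm : ∀ᵐ x ∂leb, ∀ᵐ y ∂μ, f (x, y) = m x := by
    filter_upwards [hJ] with x hx
    have hwm : Measurable fun y => f (x, y) - m x := (hfx x).sub measurable_const
    have hwb : ∀ y, ‖f (x, y) - m x‖ ≤ 2 := fun y =>
      (norm_sub_le _ _).trans (by linarith [hfxb x y, hmb x])
    have h1 : ∀ v : C(G, ℂ), ∫ y, (f (x, y) - m x) * v y ∂μ = 0 := by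
      have hcont : Continuous fun v : C(G, ℂ) => ∫ y, (f (x, y) - m x) * v y ∂μ := by
        have hl : LipschitzWith 2 fun v : C(G, ℂ) => ∫ y, (f (x, y) - m x) * v y ∂μ := by
          refine LipschitzWith.of_dist_le_mul fun v v' => ?_
          rw [dist_eq_norm, dist_eq_norm, ← integral_sub (IgFin_int hwm hwb v.continuous)
            (IgFin_int hwm hwb v'.continuous)]
          have := norm_integral_le_of_norm_le_const (μ := μ) (C := 2 * ‖v - v'‖)
            (f := fun y => (f (x, y) - m x) * v y - (f (x, y) - m x) * v' y)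
            (ae_of_all _ fun y => by
              rw [← mul_sub, norm_mul]
              refine mul_le_mul (hwb y) ?_ (norm_nonneg _) (by norm_num)
              exact (v - v').norm_coe_le_norm y)
          simpa using this
        exact hl.continuous
      have heq := hu.equalizer hcont (continuous_const (y := (0 : ℂ))) (funext fun k => by
        simp only [Function.comp_apply]
        have e : ∀ y, (f (x, y) - m x) * u k y = f (x, y) * u k y - m x * u k y := fun y => by ring
        simp only [e]
        rw [integral_sub (IgFin_int (hfx x) (hfxb x) (u k).continuous)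
          (((IgFin_int (f := fun _ => (1 : ℂ)) measurable_const (B := 1) (by simp)
            (u k).continuous).congr (ae_of_all _ fun y => one_mul _)).const_mul _), hx k,
          integral_const_mul, sub_self])
      intro v
      exact congrFun heq v
    have h2 := IgFin_zero (μ := μ) hwm (by norm_num : (0 : ℝ) < 2) hwb h1
    filter_upwards [h2] with y hy
    exact sub_eq_zero.1 hy
  refine ⟨m, hmm, ?_, ?_⟩
  · refine (Measure.ae_prod_iff_ae_ae ?_).2 hfm
    exact measurableSet_eq_fun hf (hmm.comp measurable_fst)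
  · filter_upwards [hae] with x hx
    have h1 : m (T x) = ∫ y, f (T x, φ x * y) ∂μ :=
      (integral_mul_left_eq_self (μ := μ) (fun y => f (T x, y)) (φ x)).symm
    rw [h1, hm]
    simp only
    rw [← integral_const_mul]
    exact integral_congr_ae hx

end Q101Ig
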