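import Pool.Agent.Q101.IgLie

/-!
# A closed subgroup which contains all one-parameter groups is everything

Job IG-14 of project IG (helper101), by helper239.
-/

set_option autoImplicit false

open Filter Topology Set

namespace Q101Ig

section

variable {A : Type} [NormedRing A] [NormedAlgebra ℝ A] [CompleteSpace A]

/-- the directions in which a sequence of group elements tends to one are in the Lie algebra -/
lemma gen_dir (hlim : S_lim) {G : Type} [Group G] [TopologicalSpace G] [CompactSpace G]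
    (ρ : G →* A) (hρ : Continuous ρ) (δ : ℕ → G) (Z : A)
    (h0 : Tendsto (fun k => ρ (δ k) - 1) atTop (𝓝 0)) (hne : ∀ k, ρ (δ k) - 1 ≠ 0)
    (hZ : Tendsto (fun k => (‖ρ (δ k) - 1‖)⁻¹ • (ρ (δ k) - 1)) atTop (𝓝 Z)) :
    Z ∈ lieOf (range ρ) := by
  have hcl : IsClosed (range ρ) := (isCompact_range hρ).isClosed
  have hn0 : Tendsto (fun k => ‖ρ (δ k) - 1‖) atTop (𝓝 0) := by
    simpa using h0.norm
  have key : ∀ t : ℝ, 0 ≤ t → NormedSpace.exp (t • Z) ∈ range ρ := by
    intro t ht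
    set m : ℕ → ℕ := fun k => ⌊t / ‖ρ (δ k) - 1‖⌋₊ with hm
    have hmt : Tendsto (fun k => (m k : ℝ) * ‖ρ (δ k) - 1‖) atTop (𝓝 t) := by
      have hlow : ∀ k, t - ‖ρ (δ k) - 1‖ ≤ (m k : ℝ) * ‖ρ (δ k) - 1‖ := by
        intro k
        have hp : 0 < ‖ρ (δ k) - 1‖ := norm_pos_iff.2 (hne k)
        have h1 : t / ‖ρ (δ k) - 1‖ < (m k : ℝ) + 1 := Nat.lt_floor_add_one _
        rw [div_lt_iff₀ hp] at h1
        nlinarith
      have hup : ∀ k, (m k : ℝ) * ‖ρ (δ k) - 1‖ ≤ t := by
        intro k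
        have hp : 0 < ‖ρ (δ k) - 1‖ := norm_pos_iff.2 (hne k)
        have h1 : (m k : ℝ) ≤ t / ‖ρ (δ k) - 1‖ := Nat.floor_le (by positivity)
        rwa [le_div_iff₀ hp] at h1
      refine tendsto_of_tendsto_of_tendsto_of_le_of_le ?_ tendsto_const_nhds hlow hup
      simpa using (tendsto_const_nhds (x := t)).sub hn0
    have hmW : Tendsto (fun k => (m k : ℝ) • (ρ (δ k) - 1)) atTop (𝓝 (t • Z)) := by
      refine (hmt.smul hZ).congr fun k => ?_
      have hp : ‖ρ (δ k) - 1‖ ≠ 0 := (norm_pos_iff.2 (hne k)).ne'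
      rw [smul_smul, mul_assoc, mul_inv_cancel₀ hp, mul_one]
    have hl := hlim A (fun k => ρ (δ k) - 1) m (t • Z) h0 hmW
    refine hcl.mem_of_tendsto hl (Eventually.of_forall fun k => ?_)
    refine ⟨δ k ^ m k, ?_⟩
    rw [map_pow]
    congr 1
    abel
  intro t
  rcases le_total 0 t with ht | ht
  · exact key t ht
  · obtain ⟨g, hg⟩ := key (-t) (by linarith)
    refine ⟨g⁻¹, ?_⟩
    have h1 : ρ g⁻¹ * ρ g = 1 := by
      rw [← map_mul]
      simp
    have h2 : ρ g * NormedSpace.exp (t • Z) = 1 := by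
      rw [hg]
      exact lie_exp_neg_mul Z t
    calc ρ g⁻¹ = ρ g⁻¹ * (ρ g * NormedSpace.exp (t • Z)) := by rw [h2, mul_one]
      _ = NormedSpace.exp (t • Z) := by rw [← mul_assoc, h1, one_mul]

end

/-- Job IG-14. -/
theorem gen (hlim : S_lim) : S_gen := by
  intro G _ _ _ _ _ _ A _ _ _ ρ hρ H hH hexp
  have _ : CompleteSpace A := FiniteDimensional.complete ℝ A
  have _ : ProperSpace A := FiniteDimensional.proper ℝ A
  by_cases hnhds : (H : Set G) ∈ 𝓝 (1 : G)
  · have hopen : IsOpen (H : Set G) := H.isOpen_of_mem_nhds hnhds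
    have huniv : (H : Set G) = univ :=
      IsClopen.eq_univ ⟨hH, hopen⟩ ⟨1, H.one_mem⟩
    exact SetLike.coe_injective (by simpa using huniv)
  · exfalso
    have hfr : ∃ᶠ x in 𝓝 (1 : G), x ∉ (H : Set G) := by
      intro hcon
      apply hnhds
      filter_upwards [hcon] with x hx
      exact not_not.1 hx
    obtain ⟨γ, hγ, hγH⟩ := exists_seq_forall_of_frequently hfr
    have hcomp : IsCompact (H : Set G) := hH.isCompact
    have hmin : ∀ k, ∃ h ∈ (H : Set G), ∀ h' ∈ (H : Set G),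
        ‖ρ (γ k * h) - 1‖ ≤ ‖ρ (γ k * h') - 1‖ := by
      intro k
      have hcont : ContinuousOn (fun h : G => ‖ρ (γ k * h) - 1‖) (H : Set G) :=
        ((hρ.comp (continuous_const.mul continuous_id)).sub continuous_const).norm.continuousOn
      obtain ⟨h, hh, hmin⟩ := hcomp.exists_isMinOn ⟨1, H.one_mem⟩ hcont
      exact ⟨h, hh, fun h' hh' => hmin hh'⟩
    choose η hηH hηmin using hmin
    set δ : ℕ → G := fun k => γ k * η k with hδ
    have hδH : ∀ k, δ k ∉ H := by
      intro k hk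
      exact hγH k ((H.mul_mem_cancel_right (hηH k)).1 hk)
    have hzero : (0 : A) ∈ lieOf (range ρ) := by
      intro t
      refine ⟨1, ?_⟩
      simp
    have hne : ∀ k, ρ (δ k) - 1 ≠ 0 := by
      intro k hk
      refine hδH k (hexp (δ k) 0 0 hzero ?_)
      rw [sub_eq_zero.1 hk]
      simp
    have hnorm : Tendsto (fun k => ‖ρ (δ k) - 1‖) atTop (𝓝 0) := by
      have h1 : Tendsto (fun k => ‖ρ (γ k * 1) - 1‖) atTop (𝓝 0) := by
        have h2 : Tendsto (fun k => ρ (γ k * 1) - 1) atTop (𝓝 (ρ 1 - 1)) := by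
          refine Tendsto.sub_const ?_ 1
          have h3 := (hρ.tendsto 1).comp hγ
          refine h3.congr fun k => ?_
          simp
        simpa using h2.norm
      refine squeeze_zero (fun k => norm_nonneg _) (fun k => ?_) h1
      exact hηmin k 1 H.one_mem
    have hW0 : Tendsto (fun k => ρ (δ k) - 1) atTop (𝓝 0) :=
      tendsto_zero_iff_norm_tendsto_zero.2 hnorm
    have hsph : ∀ k, (‖ρ (δ k) - 1‖)⁻¹ • (ρ (δ k) - 1) ∈ Metric.sphere (0 : A) 1 := by
      intro k
      have hp : ‖ρ (δ k) - 1‖ ≠ 0 := norm_ne_zero_iff.2 (hne k)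
      rw [mem_sphere_zero_iff_norm, norm_smul, norm_inv, norm_norm, inv_mul_cancel₀ hp]
    obtain ⟨Z, hZs, φ, hφ, hφZ⟩ := (isCompact_sphere (0 : A) 1).tendsto_subseq hsph
    have hφt := hφ.tendsto_atTop
    have hZ : Z ∈ lieOf (range ρ) :=
      gen_dir hlim ρ hρ (fun k => δ (φ k)) Z (hW0.comp hφt) (fun k => hne _) hφZ
    -- the better approximations
    have hb : ∀ k, ∃ h ∈ H, ρ h = NormedSpace.exp ((-‖ρ (δ k) - 1‖) • Z) := by
      intro k
      obtain ⟨h, hh⟩ := hZ (-‖ρ (δ k) - 1‖)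
      exact ⟨h, hexp h Z _ hZ hh, hh⟩
    choose θ hθH hθ using hb
    have hle : ∀ k, ‖ρ (δ k) - 1‖ ≤ ‖ρ (δ k) * ρ (θ k) - 1‖ := by
      intro k
      have h1 := hηmin k (η k * θ k) (H.mul_mem (hηH k) (hθH k))
      rw [← mul_assoc, map_mul _ (γ k * η k)] at h1
      exact h1
    set s : ℕ → ℝ := fun k => ‖ρ (δ (φ k)) - 1‖ with hs
    have hs0 : Tendsto s atTop (𝓝 0) := hnorm.comp hφt
    have hspos : ∀ k, 0 < s k := fun k => norm_pos_iff.2 (hne _)
    have hd : HasDerivAt (fun u : ℝ => NormedSpace.exp (u • Z)) Z 0 := lie_deriv Z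
    have hslope := hasDerivAt_iff_tendsto_slope_zero.1 hd
    have hsn : Tendsto (fun k => -s k) atTop (𝓝[≠] 0) := by
      rw [tendsto_nhdsWithin_iff]
      refine ⟨by simpa using hs0.neg, Eventually.of_forall fun k => ?_⟩
      have := hspos k
      exact (neg_neg_of_pos this).ne
    have h1 : Tendsto (fun k => (s k)⁻¹ • (NormedSpace.exp ((-s k) • Z) - 1)) atTop (𝓝 (-Z)) := by
      have h2 := (hslope.comp hsn).neg
      refine h2.congr fun k => ?_
      simp only [Function.comp, zero_add, zero_smul, NormedSpace.exp_zero]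
      rw [inv_neg, neg_smul, neg_neg]
    have h2 : Tendsto (fun k => NormedSpace.exp ((-s k) • Z)) atTop (𝓝 1) := by
      have h3 : Tendsto (fun k => (-s k) • Z) atTop (𝓝 0) := by
        simpa using (hs0.neg).smul_const Z
      have h4 := ((lie_continuous_exp (A := A)).tendsto 0).comp h3
      rw [NormedSpace.exp_zero] at h4
      exact h4
    have h3 : Tendsto (fun k => ((s k)⁻¹ • (ρ (δ (φ k)) - 1)) * NormedSpace.exp ((-s k) • Z))
        atTop (𝓝 Z) := by
      simpa using hφZ.mul h2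
    have h4 : Tendsto (fun k => (s k)⁻¹ • (ρ (δ (φ k)) * ρ (θ (φ k)) - 1)) atTop (𝓝 0) := by
      have h5 := h3.add h1
      rw [add_neg_cancel] at h5
      refine h5.congr fun k => ?_
      rw [hθ (φ k), smul_mul_assoc, ← smul_add]
      congr 1
      rw [sub_mul, one_mul]
      abel
    have h5 : ∀ k, 1 ≤ ‖(s k)⁻¹ • (ρ (δ (φ k)) * ρ (θ (φ k)) - 1)‖ := by
      intro k
      have hp := hspos k
      rw [norm_smul, norm_inv, Real.norm_of_nonneg hp.le, ← div_eq_inv_mul, le_div_iff₀ hp, one_mul]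
      exact hle (φ k)
    have h6 : Tendsto (fun k => ‖(s k)⁻¹ • (ρ (δ (φ k)) * ρ (θ (φ k)) - 1)‖) atTop (𝓝 0) := by
      simpa using h4.norm
    have h7 := ge_of_tendsto' h6 h5
    linarith

end Q101Ig
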