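import Pool.Agent.Q101.IgS

/-!
# Project IG: infinitely often no piece is longer than three quarters of the interval
-/

set_option autoImplicit false

open MeasureTheory Set Filter Topology

namespace Q101Ig

/-- two labels have together at most the length of the interval -/
theorem igGood_two {d : ℕ} {T : ℝ → ℝ} {P : Fin d → Set ℝ} {τ : Fin d → ℝ} {s : St d}
    (h : Valid T P τ s) {i j : Fin d} (hij : i ≠ j) : s.l i + s.l j ≤ s.b - s.a := by
  rw [← h.sum, ← Finset.sum_pair hij]
  exact Finset.sum_le_sum_of_subset_of_nonneg (Finset.subset_univ _) fun k _ _ => h.nonneg k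

theorem igGood_sub {d : ℕ} {T : ℝ → ℝ} {P : Fin d → Set ℝ} {τ : Fin d → ℝ} {s : St d}
    (h : Valid T P τ s) (i : Fin d) (hi : 0 < s.l i) :
    |tr τ (s.w i)| ≤ s.b - s.a := by
  have h1 : s.I i ⊆ s.J := by
    rw [h.ind.cover]
    exact subset_iUnion _ i
  have h2 : img τ s.I s.w i ⊆ s.J := by
    rw [h.ind.bcover]
    exact subset_iUnion _ i
  have h3 : img τ s.I s.w i = Ico (s.u i + tr τ (s.w i)) (s.u i + s.l i + tr τ (s.w i)) := by
    simp only [img, St.I]
    exact Set.image_add_const_Ico _ _ _
  rw [h3] at h2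
  have h4 := (Ico_subset_Ico_iff (by linarith)).1 h1
  have h5 := (Ico_subset_Ico_iff (by linarith)).1 h2
  rw [abs_le]
  constructor <;> linarith [h4.1, h4.2, h5.1, h5.2]

theorem good : S_good := by
  intro d T P τ s hv htr hst hlim
  by_contra hcon
  rw [not_frequently, eventually_atTop] at hcon
  obtain ⟨N, hN⟩ := hcon
  have hex : ∀ n, N ≤ n → ∃ i, 3 / 4 * ((s n).b - (s n).a) < (s n).l i := by
    intro n hn
    have := hN n hn
    push Not at this
    exact this
  obtain ⟨i0, hi0⟩ := hex N le_rfl
  have key : ∀ n, N ≤ n → 3 / 4 * ((s n).b - (s n).a) < (s n).l i0 ∧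
      (s n).w i0 = (s N).w i0 := by
    intro n hn
    induction n, hn using Nat.le_induction with
    | base => exact ⟨hi0, rfl⟩
    | succ n hn ih =>
      obtain ⟨c, lo, hs⟩ := hst n
      have hpos : 0 < (s n).b - (s n).a := by linarith [(hv n).lt]
      have hpos' : 0 < (s (n + 1)).b - (s (n + 1)).a := by linarith [(hv (n + 1)).lt]
      have hlo : i0 ≠ lo := by
        rintro rfl
        obtain ⟨k, hk, hck⟩ := hs.win
        have h1 := igGood_two (hv n) hk
        have h2 := hs.lo_len
        linarith [ih.1]
      have h1 := igGood_two (hv n) hlo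
      have h2 := hs.lo_len
      have h3 := hs.low i0
      have h4 := hs.len
      have h5 := hs.pos
      have h6 : 1 / 2 * ((s (n + 1)).b - (s (n + 1)).a) < (s (n + 1)).l i0 := by
        linarith [ih.1]
      obtain ⟨j, hj⟩ := hex (n + 1) (by omega)
      have hj0 : j = i0 := by
        by_contra hne
        have := igGood_two (hv (n + 1)) hne
        linarith
      subst hj0
      exact ⟨hj, by rw [hs.word _ hlo, ih.2]⟩
  have ht : tr τ ((s N).w i0) ≠ 0 := by
    apply htr N i0
    have : 0 < (s N).b - (s N).a := by linarith [(hv N).lt]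
    linarith
  apply ht
  have hle : ∀ᶠ n in atTop, |tr τ ((s N).w i0)| ≤ (s n).b - (s n).a := by
    filter_upwards [eventually_ge_atTop N] with n hn
    have h1 := key n hn
    have hpos : 0 < (s n).b - (s n).a := by linarith [(hv n).lt]
    have h2 := igGood_sub (hv n) i0 (by linarith)
    rwa [h1.2] at h2
  have := ge_of_tendsto hlim hle
  exact abs_nonpos_iff.1 this

end Q101Ig
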