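import Pool.Agent.Q101.IgS

/-!
# Project IG (helper101): Nielsen moves preserve the product measure (by helper162)
-/

set_option autoImplicit false

open MeasureTheory Set Filter Topology

namespace Q101Ig

theorem law_append {G : Type} [Group G] {d : ℕ} (g : Fin d → G) (a b : List (Fin d)) :
    wprod g (a ++ b) = wprod g b * wprod g a := by
  induction a with
  | nil => simp [wprod]
  | cons j a ih => rw [List.cons_append, wprod, ih, wprod, mul_assoc]

/-- a change of one coordinate which preserves the measure of this coordinate preserves the product
measure -/
theorem law_update {G : Type} [MeasurableSpace G] (μ : Measure G) [IsProbabilityMeasure μ] {d : ℕ}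
    (β : Fin d) (F : (Fin d → G) → G → G) (hF : Measurable fun h : Fin d → G => F h (h β))
    (hF1 : ∀ h x y, F (Function.update h β x) y = F h y)
    (hF2 : ∀ h, ∀ f : G → ENNReal, Measurable f → ∫⁻ y, f (F h y) ∂μ = ∫⁻ y, f y ∂μ) :
    MeasurePreserving (fun h : Fin d → G => Function.update h β (F h (h β))) (Measure.pi fun _ => μ)
      (Measure.pi fun _ => μ) := by
  have hm : Measurable fun h : Fin d → G => Function.update h β (F h (h β)) := by
    rw [measurable_pi_iff]
    intro i
    by_cases hi : i = β
    · subst hi
      simpa using hF
    · have : (fun h : Fin d → G => Function.update h β (F h (h β)) i) = fun h => h i := by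
        funext h
        rw [Function.update_of_ne hi]
      rw [this]
      exact measurable_pi_apply i
  refine ⟨hm, ?_⟩
  refine Measure.ext_of_lintegral _ fun f hf => ?_
  rw [lintegral_map hf hm]
  refine lintegral_eq_of_lmarginal_eq (μ := fun _ : Fin d => μ) {β} (hf.comp hm) hf ?_
  rw [lmarginal_singleton, lmarginal_singleton]
  funext x
  have h1 : ∀ y, Function.update (Function.update x β y) β
      (F (Function.update x β y) (Function.update x β y β)) = Function.update x β (F x y) := by
    intro y
    rw [hF1, Function.update_self, Function.update_idem]
  simp only [h1]
  exact hF2 x (fun y => f (Function.update x β y)) (hf.comp (measurable_update x))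

theorem law : S_law := by
  intro G _ _ _ μ _ _ _ d w hw
  induction hw with
  | base =>
    have : (fun (g : Fin d → G) (i : Fin d) => wprod g [i]) = id := by
      funext g i
      simp [wprod]
    rw [this]
    exact MeasurePreserving.id _
  | right w α β h hw ih =>
    have h1 : MeasurePreserving (fun h : Fin d → G => Function.update h β (h α * h β))
        (Measure.pi fun _ => μ) (Measure.pi fun _ => μ) := by
      refine law_update μ β (fun h y => h α * y) ?_ ?_ ?_
      · exact (measurable_pi_apply α).mul (measurable_pi_apply β)
      · intro g x y
        show Function.update g β x α * y = g α * y
        rw [Function.update_of_ne h]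
      · intro g f _
        exact lintegral_mul_left_eq_self f (g α)
    have h2 : (fun (g : Fin d → G) (i : Fin d) => wprod g (Function.update w β (w β ++ w α) i)) =
        (fun h : Fin d → G => Function.update h β (h α * h β)) ∘
          fun (g : Fin d → G) (i : Fin d) => wprod g (w i) := by
      funext g i
      simp only [Function.comp_apply]
      by_cases hi : i = β
      · subst hi
        rw [Function.update_self, Function.update_self, law_append]
      · rw [Function.update_of_ne hi, Function.update_of_ne hi]
    rw [h2]
    exact h1.comp ih
  | left w α β h hw ih =>
    have h1 : MeasurePreserving (fun h : Fin d → G => Function.update h α (h α * h β))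
        (Measure.pi fun _ => μ) (Measure.pi fun _ => μ) := by
      refine law_update μ α (fun h y => y * h β) ?_ ?_ ?_
      · exact (measurable_pi_apply α).mul (measurable_pi_apply β)
      · intro g x y
        show y * Function.update g α x β = y * g β
        rw [Function.update_of_ne h.symm]
      · intro g f _
        exact lintegral_mul_right_eq_self f (g β)
    have h2 : (fun (g : Fin d → G) (i : Fin d) => wprod g (Function.update w α (w β ++ w α) i)) =
        (fun h : Fin d → G => Function.update h α (h α * h β)) ∘
          fun (g : Fin d → G) (i : Fin d) => wprod g (w i) := by
      funext g i
      simp only [Function.comp_apply]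
      by_cases hi : i = α
      · subst hi
        rw [Function.update_self, Function.update_self, law_append]
      · rw [Function.update_of_ne hi, Function.update_of_ne hi]
    rw [h2]
    exact h1.comp ih

end Q101Ig
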