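import Pool.Agent.Q101.IgRight

/-!
Job IG-4 (project IG of helper101): one step of the induction at the left end.
-/

set_option autoImplicit false

open MeasureTheory Set Filter Topology

namespace Q101Ig

/-- some piece of positive length begins at the left end -/
theorem IgLeft_end {d : ℕ} (a b : ℝ) (hab : a < b) (u l : Fin d → ℝ)
    (hcov : Ico a b = ⋃ i, Ico (u i) (u i + l i)) : ∃ α, 0 < l α ∧ u α = a := by
  have hx : a ∈ Ico a b := ⟨le_refl _, hab⟩
  have hx' := hx
  rw [hcov] at hx'
  obtain ⟨i, hi⟩ := mem_iUnion.1 hx'
  have hl : 0 < l i := by linarith [hi.1, hi.2]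
  have h1 : Ico (u i) (u i + l i) ⊆ Ico a b := by
    rw [hcov]
    exact subset_iUnion (fun i => Ico (u i) (u i + l i)) i
  have h2 := (Ico_subset_Ico_iff (by linarith)).1 h1
  exact ⟨i, hl, le_antisymm hi.1 h2.1⟩

theorem left_step (hA : S_cutA) (hB : S_cutB) : S_left := by
  intro d T P τ hT s hs hap
  have hcov : Ico s.a s.b = ⋃ i, Ico (s.u i) (s.u i + s.l i) := hs.ind.cover
  have hbcov : Ico s.a s.b = ⋃ i, Ico (s.u i + tr τ (s.w i)) (s.u i + tr τ (s.w i) + s.l i) := by
    have h1 := hs.ind.bcover
    simp only [IgRight_img] at h1
    exact h1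
  obtain ⟨α, hα, hαb⟩ := IgLeft_end s.a s.b hs.lt s.u s.l hcov
  obtain ⟨β, hβ, hβb⟩ := IgLeft_end s.a s.b hs.lt (fun i => s.u i + tr τ (s.w i)) s.l hbcov
  have hne : α ≠ β := by
    rintro rfl
    exact hap α hα (by linarith)
  have htwo := IgRight_two s.l hs.nonneg α β hne
  rw [hs.sum] at htwo
  rcases le_or_gt (s.l β) (s.l α) with hle | hlt
  · -- case A
    have himg : img τ s.I s.w β = Ico s.a (s.a + s.l β) := by
      rw [IgRight_img, hβb]
    have hsub : img τ s.I s.w β ⊆ s.I α := by
      rw [himg]
      exact Ico_subset_Ico hαb.le (by linarith)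
    have key := hA d T P τ s.J s.I s.w α β hT hs.ind hne hsub
    obtain ⟨s', hs'⟩ : ∃ s' : St d, s' = ⟨s.a + s.l β, s.b, Function.update s.u α (s.u α + s.l β),
      Function.update s.l α (s.l α - s.l β), Function.update s.w β (s.w β ++ s.w α)⟩ := ⟨_, rfl⟩
    have hJ : s'.J = s.J \ img τ s.I s.w β := by
      rw [himg, hs']
      show Ico (s.a + s.l β) s.b = Ico s.a s.b \ Ico s.a (s.a + s.l β)
      ext x
      simp only [Set.mem_sdiff, mem_Ico, not_and, not_lt]
      constructor
      · rintro ⟨h1, h2⟩
        exact ⟨⟨by linarith, h2⟩, fun _ => h1⟩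
      · rintro ⟨⟨h1, h2⟩, h3⟩
        exact ⟨h3 h1, h2⟩
    have hI : s'.I = Function.update s.I α (s.I α \ img τ s.I s.w β) := by
      funext i
      by_cases hi : i = α
      · subst hi
        rw [Function.update_self, himg, hs']
        show Ico (Function.update s.u i (s.u i + s.l β) i)
          (Function.update s.u i (s.u i + s.l β) i + Function.update s.l i (s.l i - s.l β) i) =
          Ico (s.u i) (s.u i + s.l i) \ Ico s.a (s.a + s.l β)
        rw [Function.update_self, Function.update_self]
        ext x
        simp only [Set.mem_sdiff, mem_Ico, not_and, not_lt]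
        constructor
        · rintro ⟨h1, h2⟩
          exact ⟨⟨by linarith, by linarith⟩, fun h => by linarith⟩
        · rintro ⟨⟨h1, h2⟩, h3⟩
          have := h3 (by linarith)
          exact ⟨by linarith, by linarith⟩
      · rw [Function.update_of_ne hi, hs']
        show Ico (Function.update s.u α (s.u α + s.l β) i)
          (Function.update s.u α (s.u α + s.l β) i + Function.update s.l α (s.l α - s.l β) i) =
          Ico (s.u i) (s.u i + s.l i)
        rw [Function.update_of_ne hi, Function.update_of_ne hi]
    have hw : s'.w = Function.update s.w β (s.w β ++ s.w α) := by rw [hs']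
    have hl : s'.l = Function.update s.l α (s.l α - s.l β) := by rw [hs']
    have ha : s'.a = s.a + s.l β := by rw [hs']
    have hb : s'.b = s.b := by rw [hs']
    refine ⟨s', s.l β, β, ⟨?_, ?_, ?_, ?_⟩, ⟨hβ, ?_, ?_, rfl, ⟨α, hne, hle⟩, ?_, ?_, ?_, ?_⟩, ?_, ha, hb⟩
    · rw [ha, hb]
      linarith
    · intro i
      rw [hl]
      by_cases hi : i = α
      · subst hi
        rw [Function.update_self]
        linarith
      · rw [Function.update_of_ne hi]
        exact hs.nonneg i
    · rw [hJ, hI, hw]
      exact key
    · rw [hl, IgRight_sum, hs.sum, ha, hb]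
      ring
    · rw [ha, hb]
      ring
    · rw [hJ]
      exact sdiff_subset
    · intro i hi
      rw [hw, Function.update_of_ne hi]
    · intro i _
      rw [hI]
      by_cases hi' : i = α
      · subst hi'
        rw [Function.update_self]
        exact sdiff_subset
      · rw [Function.update_of_ne hi']
    · intro i
      rw [hl]
      by_cases hi' : i = α
      · subst hi'
        rw [Function.update_self]
        linarith
      · rw [Function.update_of_ne hi']
    · intro i
      rw [hl]
      by_cases hi' : i = α
      · subst hi'
        rw [Function.update_self]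
      · rw [Function.update_of_ne hi']
        linarith
    · intro hN
      rw [hw]
      exact Nielsen.right s.w α β hne hN
  · -- case B
    have hIα : s.I α = Ico s.a (s.a + s.l α) := by
      show Ico (s.u α) (s.u α + s.l α) = _
      rw [hαb]
    have hsub : s.I α ⊆ img τ s.I s.w β := by
      rw [hIα, IgRight_img]
      exact Ico_subset_Ico hβb.le (by linarith)
    have key := hB d T P τ s.J s.I s.w α β hT hs.ind hne hsub
    have hpre : (fun x => x - tr τ (s.w β)) '' s.I α = Ico (s.u β) (s.u β + s.l α) := by
      rw [hIα, image_sub_const_Ico]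
      congr 1 <;> linarith
    obtain ⟨s', hs'⟩ : ∃ s' : St d, s' = ⟨s.a + s.l α, s.b,
      Function.update (Function.update s.u β (s.u β + s.l α)) α (s.u β), Function.update s.l β (s.l β - s.l α),
      Function.update s.w α (s.w β ++ s.w α)⟩ := ⟨_, rfl⟩
    have hJ : s'.J = s.J \ s.I α := by
      rw [hIα, hs']
      show Ico (s.a + s.l α) s.b = Ico s.a s.b \ Ico s.a (s.a + s.l α)
      ext x
      simp only [Set.mem_sdiff, mem_Ico, not_and, not_lt]
      constructor
      · rintro ⟨h1, h2⟩
        exact ⟨⟨by linarith, h2⟩, fun _ => h1⟩
      · rintro ⟨⟨h1, h2⟩, h3⟩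
        exact ⟨h3 h1, h2⟩
    have hI : s'.I = Function.update (Function.update s.I β
        (s.I β \ (fun x => x - tr τ (s.w β)) '' s.I α)) α ((fun x => x - tr τ (s.w β)) '' s.I α) := by
      funext i
      rw [hpre]
      by_cases hi : i = α
      · subst hi
        rw [Function.update_self, hs']
        show Ico (Function.update (Function.update s.u β (s.u β + s.l i)) i (s.u β) i)
          (Function.update (Function.update s.u β (s.u β + s.l i)) i (s.u β) i +
            Function.update s.l β (s.l β - s.l i) i) = _
        rw [Function.update_self, Function.update_of_ne hne]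
      · rw [Function.update_of_ne hi, hs']
        show Ico (Function.update (Function.update s.u β (s.u β + s.l α)) α (s.u β) i)
          (Function.update (Function.update s.u β (s.u β + s.l α)) α (s.u β) i +
            Function.update s.l β (s.l β - s.l α) i) = _
        rw [Function.update_of_ne hi]
        by_cases hi2 : i = β
        · subst hi2
          rw [Function.update_self, Function.update_self, Function.update_self]
          show _ = Ico (s.u i) (s.u i + s.l i) \ _
          ext x
          simp only [Set.mem_sdiff, mem_Ico, not_and, not_lt]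
          constructor
          · rintro ⟨h1, h2⟩
            exact ⟨⟨by linarith, by linarith⟩, fun h => by linarith⟩
          · rintro ⟨⟨h1, h2⟩, h3⟩
            have := h3 h1
            exact ⟨by linarith, by linarith⟩
        · rw [Function.update_of_ne hi2, Function.update_of_ne hi2, Function.update_of_ne hi2]
          rfl
    have hw : s'.w = Function.update s.w α (s.w β ++ s.w α) := by rw [hs']
    have hl : s'.l = Function.update s.l β (s.l β - s.l α) := by rw [hs']
    have ha : s'.a = s.a + s.l α := by rw [hs']
    have hb : s'.b = s.b := by rw [hs']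
    refine ⟨s', s.l α, α, ⟨?_, ?_, ?_, ?_⟩, ⟨hα, ?_, ?_, rfl, ⟨β, hne.symm, hlt.le⟩, ?_, ?_, ?_, ?_⟩, ?_, ha, hb⟩
    · rw [ha, hb]
      linarith
    · intro i
      rw [hl]
      by_cases hi : i = β
      · subst hi
        rw [Function.update_self]
        linarith
      · rw [Function.update_of_ne hi]
        exact hs.nonneg i
    · rw [hJ, hI, hw]
      exact key
    · rw [hl, IgRight_sum, hs.sum, ha, hb]
      ring
    · rw [ha, hb]
      ring
    · rw [hJ]
      exact sdiff_subset
    · intro i hi
      rw [hw, Function.update_of_ne hi]
    · intro i hi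
      rw [hI, Function.update_of_ne hi]
      by_cases hi' : i = β
      · subst hi'
        rw [Function.update_self]
        exact sdiff_subset
      · rw [Function.update_of_ne hi']
    · intro i
      rw [hl]
      by_cases hi' : i = β
      · subst hi'
        rw [Function.update_self]
        linarith
      · rw [Function.update_of_ne hi']
    · intro i
      rw [hl]
      by_cases hi' : i = β
      · subst hi'
        rw [Function.update_self]
      · rw [Function.update_of_ne hi']
        linarith
    · intro hN
      rw [hw]
      exact Nielsen.left s.w α β hne hN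

end Q101Ig
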