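import Pool.Agent.Q101.IgS

/-!
# The one-parameter groups in a closed semigroup of a Banach algebra form a closed Lie algebra

Job IG-13 of project IG (helper101), by helper239.
-/

set_option autoImplicit false

open Filter Topology

namespace Q101Ig

section

variable {A : Type} [NormedRing A] [NormedAlgebra ℝ A] [CompleteSpace A]

lemma lie_exp_add_smul (X : A) (s t : ℝ) :
    NormedSpace.exp ((s + t) • X) = NormedSpace.exp (s • X) * NormedSpace.exp (t • X) := by
  let _ : NormedAlgebra ℚ A := NormedAlgebra.restrictScalars ℚ ℝ A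
  rw [add_smul]
  exact NormedSpace.exp_add_of_commute (((Commute.refl X).smul_left s).smul_right t)

lemma lie_exp_mul_neg (X : A) (s : ℝ) :
    NormedSpace.exp (s • X) * NormedSpace.exp ((-s) • X) = 1 := by
  rw [← lie_exp_add_smul]
  simp

lemma lie_exp_neg_mul (X : A) (s : ℝ) :
    NormedSpace.exp ((-s) • X) * NormedSpace.exp (s • X) = 1 := by
  rw [← lie_exp_add_smul]
  simp

lemma lie_deriv (X : A) : HasDerivAt (fun s : ℝ => NormedSpace.exp (s • X)) X 0 := by
  have h := hasDerivAt_exp_smul_const (𝕂 := ℝ) X (0 : ℝ)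
  simpa using h

lemma lie_continuous_exp : Continuous (fun X : A => NormedSpace.exp X) := by
  let _ : NormedAlgebra ℚ A := NormedAlgebra.restrictScalars ℚ ℝ A
  exact NormedSpace.exp_continuous

lemma lie_isClosed (Γ : Set A) (hΓ : IsClosed Γ) : IsClosed (lieOf Γ) := by
  have : lieOf Γ = ⋂ t : ℝ, (fun X : A => NormedSpace.exp (t • X)) ⁻¹' Γ := by
    ext X
    simp [lieOf]
  rw [this]
  exact isClosed_iInter fun t => hΓ.preimage (lie_continuous_exp.comp (continuous_const_smul t))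

lemma lie_pow_mem (Γ : Set A) (h1 : (1 : A) ∈ Γ) (hm : ∀ x ∈ Γ, ∀ y ∈ Γ, x * y ∈ Γ) {x : A}
    (hx : x ∈ Γ) (n : ℕ) : x ^ n ∈ Γ := by
  induction n with
  | zero => simpa using h1
  | succ n ih =>
    rw [pow_succ]
    exact hm _ ih _ hx

lemma lie_seq_tendsto : Tendsto (fun n : ℕ => ((n : ℝ) + 1)⁻¹) atTop (𝓝[≠] 0) := by
  rw [tendsto_nhdsWithin_iff]
  refine ⟨?_, Eventually.of_forall fun n => ?_⟩
  · simpa [one_div] using tendsto_one_div_add_atTop_nhds_zero_nat (𝕜 := ℝ)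
  · have : (0 : ℝ) < (n : ℝ) + 1 := by positivity
    exact (inv_pos.2 this).ne'

lemma lie_add (hlim : S_lim) (Γ : Set A) (hΓ : IsClosed Γ) (h1 : (1 : A) ∈ Γ)
    (hm : ∀ x ∈ Γ, ∀ y ∈ Γ, x * y ∈ Γ) {X Y : A} (hX : X ∈ lieOf Γ) (hY : Y ∈ lieOf Γ) :
    X + Y ∈ lieOf Γ := by
  intro t
  have hd : HasDerivAt (fun s : ℝ => NormedSpace.exp (s • (t • X)) * NormedSpace.exp (s • (t • Y)))
      (t • (X + Y)) 0 := by
    have h := (lie_deriv (t • X)).fun_mul (lie_deriv (t • Y))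
    simpa [smul_add] using h
  have hs := hasDerivAt_iff_tendsto_slope_zero.1 hd
  have hs' := hs.comp lie_seq_tendsto
  set W : ℕ → A := fun n => NormedSpace.exp (((n : ℝ) + 1)⁻¹ • (t • X)) *
    NormedSpace.exp (((n : ℝ) + 1)⁻¹ • (t • Y)) - 1 with hW
  have hmW : Tendsto (fun n : ℕ => ((n + 1 : ℕ) : ℝ) • W n) atTop (𝓝 (t • (X + Y))) := by
    refine hs'.congr fun n => ?_
    simp [hW]
  have hW0 : Tendsto W atTop (𝓝 0) := by
    have h2 : Tendsto (fun n : ℕ => ((n : ℝ) + 1)⁻¹) atTop (𝓝 0) :=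
      lie_seq_tendsto.mono_right nhdsWithin_le_nhds
    have h3 := h2.smul hmW
    rw [zero_smul] at h3
    refine h3.congr fun n => ?_
    have hn : ((n : ℝ) + 1) ≠ 0 := by positivity
    rw [smul_smul]
    push_cast
    rw [inv_mul_cancel₀ hn, one_smul]
  have hl := hlim A W (fun n => n + 1) (t • (X + Y)) hW0 hmW
  refine hΓ.mem_of_tendsto hl (Eventually.of_forall fun n => ?_)
  refine lie_pow_mem Γ h1 hm ?_ _
  have : 1 + W n = NormedSpace.exp (((n : ℝ) + 1)⁻¹ • (t • X)) *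
    NormedSpace.exp (((n : ℝ) + 1)⁻¹ • (t • Y)) := by
    simp [hW]
  rw [this]
  refine hm _ ?_ _ ?_
  · rw [smul_smul]
    exact hX _
  · rw [smul_smul]
    exact hY _

lemma lie_smul (Γ : Set A) (c : ℝ) {X : A} (hX : X ∈ lieOf Γ) : c • X ∈ lieOf Γ := by
  intro t
  rw [smul_smul]
  exact hX _

lemma lie_conj (Γ : Set A) (hm : ∀ x ∈ Γ, ∀ y ∈ Γ, x * y ∈ Γ) {X Y : A} (hX : X ∈ lieOf Γ)
    (hY : Y ∈ lieOf Γ) (s : ℝ) :
    NormedSpace.exp (s • X) * Y * NormedSpace.exp ((-s) • X) ∈ lieOf Γ := by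
  let _ : NormedAlgebra ℚ A := NormedAlgebra.restrictScalars ℚ ℝ A
  intro t
  have h := NormedSpace.exp_units_conj
    (⟨NormedSpace.exp (s • X), NormedSpace.exp ((-s) • X), lie_exp_mul_neg X s,
      lie_exp_neg_mul X s⟩ : Aˣ) (t • Y)
  have h2 : t • (NormedSpace.exp (s • X) * Y * NormedSpace.exp ((-s) • X)) =
      NormedSpace.exp (s • X) * (t • Y) * NormedSpace.exp ((-s) • X) := by
    rw [mul_smul_comm, smul_mul_assoc]
  rw [h2]
  refine Eq.mpr (congrArg (· ∈ Γ) h) ?_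
  exact hm _ (hm _ (hX s) _ (hY t)) _ (hX (-s))

end

/-- Job IG-13. -/
theorem lie (h : S_lim) : S_lie := by
  intro A _ _ _ Γ hΓ h1 hm
  have hadd : ∀ X ∈ lieOf Γ, ∀ Y ∈ lieOf Γ, X + Y ∈ lieOf Γ := fun X hX Y hY =>
    lie_add h Γ hΓ h1 hm hX hY
  refine ⟨fun t => ?_, hadd, fun c X hX => lie_smul Γ c hX, lie_isClosed Γ hΓ, ?_⟩
  · simpa using h1
  · intro X hX Y hY
    have hd : HasDerivAt (fun s : ℝ => NormedSpace.exp (s • X) * Y * NormedSpace.exp ((-s) • X))
        (X * Y - Y * X) 0 := by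
      have h1 := lie_deriv X
      have h2 : HasDerivAt (fun s : ℝ => NormedSpace.exp ((-s) • X)) (-X) 0 := by
        have h3 := lie_deriv (-X)
        refine h3.congr_of_eventuallyEq (Eventually.of_forall fun s => ?_)
        simp
      have h4 := (h1.mul_const Y).fun_mul h2
      simpa [sub_eq_add_neg] using h4
    have hs := hasDerivAt_iff_tendsto_slope_zero.1 hd
    refine (lie_isClosed Γ hΓ).mem_of_tendsto hs ?_
    refine Eventually.of_forall fun s => ?_
    refine lie_smul Γ _ ?_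
    have h0 : NormedSpace.exp ((0 : ℝ) • X) * Y * NormedSpace.exp ((-(0 : ℝ)) • X) = Y := by
      simp
    rw [h0, zero_add, sub_eq_add_neg]
    refine hadd _ (lie_conj Γ hm hX hY s) _ ?_
    have := lie_smul Γ (-1) hY
    simpa using this

end Q101Ig
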