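import Pool.Agent.Q101.IgS

/-!
# Project IG (helper101): the limit formula for the exponential function (by helper162)
-/

set_option autoImplicit false

open MeasureTheory Set Filter Topology

namespace Q101Ig

/-- powers of an element near `1` -/
theorem lim_pow {A : Type} [NormedRing A] (x : A) (w : ℝ) (hx : ‖x - 1‖ ≤ w) (i : ℕ) :
    ‖x ^ i‖ ≤ ‖(1 : A)‖ * Real.exp (i * w) := by
  induction i with
  | zero => simp
  | succ i ih =>
    have h1 : x ^ (i + 1) = x ^ i + x ^ i * (x - 1) := by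
      rw [pow_succ, mul_sub, mul_one]
      abel
    have hw : 0 ≤ w := (norm_nonneg _).trans hx
    calc ‖x ^ (i + 1)‖ ≤ ‖x ^ i‖ + ‖x ^ i‖ * ‖x - 1‖ := by
          rw [h1]
          exact (norm_add_le _ _).trans (add_le_add le_rfl (norm_mul_le _ _))
      _ ≤ ‖x ^ i‖ + ‖x ^ i‖ * w := by
          have := mul_le_mul_of_nonneg_left hx (norm_nonneg (x ^ i))
          linarith
      _ = ‖x ^ i‖ * (w + 1) := by ring
      _ ≤ (‖(1 : A)‖ * Real.exp (i * w)) * Real.exp w := by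
          apply mul_le_mul ih (Real.add_one_le_exp w) (by linarith) (by positivity)
      _ = ‖(1 : A)‖ * Real.exp ((i + 1 : ℕ) * w) := by
          rw [mul_assoc, ← Real.exp_add]
          congr 2
          push_cast
          ring

theorem lim_diff {A : Type} [NormedRing A] (x y : A) (w δ : ℝ) (hx : ‖x - 1‖ ≤ w)
    (hy : ‖y - 1‖ ≤ w) (hxy : ‖x - y‖ ≤ δ) (i : ℕ) :
    ‖x ^ i - y ^ i‖ ≤ i * (‖(1 : A)‖ * Real.exp (i * w) * δ) := by
  have hw : 0 ≤ w := (norm_nonneg _).trans hx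
  have hδ : 0 ≤ δ := (norm_nonneg _).trans hxy
  induction i with
  | zero => simp
  | succ i ih =>
    have h1 : x ^ (i + 1) - y ^ (i + 1) = (x ^ i - y ^ i) + (x ^ i - y ^ i) * (x - 1) + y ^ i * (x - y) := by
      rw [pow_succ, pow_succ]
      noncomm_ring
    have h2 := lim_pow y w hy i
    obtain ⟨D, hD⟩ : ∃ D, D = ‖(1 : A)‖ * Real.exp (i * w) * δ := ⟨_, rfl⟩
    have hD0 : 0 ≤ D := by
      rw [hD]
      positivity
    rw [← hD] at ih
    have h3 : ‖(1 : A)‖ * Real.exp ((i + 1 : ℕ) * w) * δ = D * Real.exp w := by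
      rw [hD]
      push_cast
      rw [add_mul, one_mul, Real.exp_add]
      ring
    rw [h3, h1]
    have he := Real.add_one_le_exp w
    have he1 : 1 ≤ Real.exp w := Real.one_le_exp hw
    calc ‖(x ^ i - y ^ i) + (x ^ i - y ^ i) * (x - 1) + y ^ i * (x - y)‖ ≤
          (‖x ^ i - y ^ i‖ + ‖x ^ i - y ^ i‖ * ‖x - 1‖) + ‖y ^ i‖ * ‖x - y‖ := by
          refine (norm_add_le _ _).trans (add_le_add ((norm_add_le _ _).trans ?_) (norm_mul_le _ _))
          exact add_le_add le_rfl (norm_mul_le _ _)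
      _ ≤ (‖x ^ i - y ^ i‖ + ‖x ^ i - y ^ i‖ * w) + D := by
          have h4 := mul_le_mul_of_nonneg_left hx (norm_nonneg (x ^ i - y ^ i))
          have h5 : ‖y ^ i‖ * ‖x - y‖ ≤ D := by
            rw [hD]
            exact mul_le_mul h2 hxy (norm_nonneg _) (by positivity)
          linarith
      _ = ‖x ^ i - y ^ i‖ * (w + 1) + D := by ring
      _ ≤ (i * D) * Real.exp w + D * Real.exp w := by
          have h4 : ‖x ^ i - y ^ i‖ * (w + 1) ≤ (i * D) * Real.exp w :=
            mul_le_mul ih he (by linarith) (by positivity)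
          have h5 : D * 1 ≤ D * Real.exp w := mul_le_mul_of_nonneg_left he1 hD0
          linarith
      _ = ((i + 1 : ℕ) : ℝ) * (D * Real.exp w) := by
          push_cast
          ring

theorem lim : S_lim := by
  intro A _ _ _ W m Z hW hm
  let _ : NormedAlgebra ℚ A := NormedAlgebra.restrictScalars ℚ ℝ A
  have hexp : Tendsto (fun k => (NormedSpace.exp (W k)) ^ m k) atTop (𝓝 (NormedSpace.exp Z)) := by
    have h1 : ∀ k, (NormedSpace.exp (W k)) ^ m k = NormedSpace.exp ((m k : ℝ) • W k) := by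
      intro k
      rw [← NormedSpace.exp_nsmul, Nat.cast_smul_eq_nsmul]
    simp only [h1]
    exact (NormedSpace.exp_continuous.tendsto Z).comp hm
  have hd : HasFDerivAt (NormedSpace.exp : A → A) (1 : A →L[ℝ] A) 0 := hasFDerivAt_exp_zero
  rw [hasFDerivAt_iff_isLittleO_nhds_zero] at hd
  have hd1 := hd.comp_tendsto hW
  have hb : Tendsto (fun k => ‖(m k : ℝ) • W k‖) atTop (𝓝 ‖Z‖) := hm.norm
  have hsub : Tendsto (fun k => (1 + W k) ^ m k - (NormedSpace.exp (W k)) ^ m k) atTop (𝓝 0) := by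
    rw [Metric.tendsto_atTop]
    intro ε hε
    obtain ⟨K, hK⟩ : ∃ K : ℝ, K = ‖(1 : A)‖ * Real.exp (2 * (‖Z‖ + 1)) * (‖Z‖ + 1) + 1 := ⟨_, rfl⟩
    have hK0 : 0 < K := by
      rw [hK]
      positivity
    obtain ⟨c, hc⟩ : ∃ c : ℝ, c = min 1 (ε / (2 * K)) := ⟨_, rfl⟩
    have hc0 : 0 < c := by
      rw [hc]
      exact lt_min one_pos (by positivity)
    have hc1 : c ≤ 1 := by
      rw [hc]
      exact min_le_left _ _
    have hc2 : c ≤ ε / (2 * K) := by
      rw [hc]
      exact min_le_right _ _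
    have h1 := (Asymptotics.isLittleO_iff.1 hd1) hc0
    have h2 : ∀ᶠ k in atTop, ‖(m k : ℝ) • W k‖ < ‖Z‖ + 1 :=
      hb.eventually (gt_mem_nhds (by linarith))
    obtain ⟨N, hN⟩ := eventually_atTop.1 (h1.and h2)
    refine ⟨N, fun k hk => ?_⟩
    obtain ⟨h3, h4⟩ := hN k hk
    simp only [Function.comp_apply, zero_add, NormedSpace.exp_zero, one_apply_eq_self] at h3
    rw [norm_smul, Real.norm_natCast] at h4
    rw [dist_zero_right]
    have h5 : ‖NormedSpace.exp (W k) - 1‖ ≤ 2 * ‖W k‖ := by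
      calc ‖NormedSpace.exp (W k) - 1‖ = ‖(NormedSpace.exp (W k) - 1 - W k) + W k‖ := by
            congr 1
            abel
        _ ≤ c * ‖W k‖ + ‖W k‖ := (norm_add_le _ _).trans (add_le_add h3 le_rfl)
        _ ≤ 2 * ‖W k‖ := by
            have := mul_le_mul_of_nonneg_right hc1 (norm_nonneg (W k))
            linarith
    have h6 : ‖(1 + W k) - 1‖ ≤ 2 * ‖W k‖ := by
      rw [add_sub_cancel_left]
      linarith [norm_nonneg (W k)]
    have h7 : ‖(1 + W k) - NormedSpace.exp (W k)‖ ≤ c * ‖W k‖ := by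
      rw [← norm_neg]
      refine le_of_eq_of_le ?_ h3
      congr 1
      abel
    have h8 := lim_diff (1 + W k) (NormedSpace.exp (W k)) (2 * ‖W k‖) (c * ‖W k‖) h6 h5 h7 (m k)
    refine lt_of_le_of_lt h8 ?_
    have h9 : Real.exp ((m k : ℝ) * (2 * ‖W k‖)) ≤ Real.exp (2 * (‖Z‖ + 1)) := by
      apply Real.exp_le_exp.2
      linarith
    have h10 : (m k : ℝ) * (‖(1 : A)‖ * Real.exp ((m k : ℝ) * (2 * ‖W k‖)) * (c * ‖W k‖)) ≤
        c * (‖(1 : A)‖ * Real.exp (2 * (‖Z‖ + 1)) * (‖Z‖ + 1)) := by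
      calc (m k : ℝ) * (‖(1 : A)‖ * Real.exp ((m k : ℝ) * (2 * ‖W k‖)) * (c * ‖W k‖)) =
            c * (‖(1 : A)‖ * Real.exp ((m k : ℝ) * (2 * ‖W k‖)) * ((m k : ℝ) * ‖W k‖)) := by ring
        _ ≤ _ := by
            apply mul_le_mul_of_nonneg_left _ hc0.le
            apply mul_le_mul (mul_le_mul_of_nonneg_left h9 (norm_nonneg _)) h4.le (by positivity)
              (by positivity)
    calc (m k : ℝ) * (‖(1 : A)‖ * Real.exp ((m k : ℝ) * (2 * ‖W k‖)) * (c * ‖W k‖)) ≤
          c * (‖(1 : A)‖ * Real.exp (2 * (‖Z‖ + 1)) * (‖Z‖ + 1)) := h10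
      _ ≤ c * K := by
          apply mul_le_mul_of_nonneg_left _ hc0.le
          rw [hK]
          linarith
      _ ≤ ε / (2 * K) * K := mul_le_mul_of_nonneg_right hc2 hK0.le
      _ = ε / 2 := by
          field_simp
      _ < ε := by linarith
  have h := hsub.add hexp
  simp only [sub_add_cancel, zero_add] at h
  exact h

end Q101Ig
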