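import Pool.Agent.Q101.IgS

/-!
# Almost no pair of elements has other common fixed vectors than the whole group (IG-20)
-/

set_option autoImplicit false

open MeasureTheory Set Filter Topology
open scoped Matrix

namespace Q101Ig

section coef

variable {G : Type} [Group G] [TopologicalSpace G]

theorem IgPair_sum {K : Type*} (s : Finset K) (F : K → G → ℂ)
    (h0 : Coef (fun _ : G => (0 : ℂ)))
    (ha : ∀ f f' : G → ℂ, Coef f → Coef f' → Coef (fun g => f g + f' g))
    (h : ∀ k ∈ s, Coef (F k)) : Coef (fun g => ∑ k ∈ s, F k g) := by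
  classical
  induction s using Finset.induction_on with
  | empty => simpa using h0
  | insert a s hs ih =>
    simp only [Finset.sum_insert hs]
    exact ha _ _ (h a (Finset.mem_insert_self a s))
      (ih fun k hk => h k (Finset.mem_insert_of_mem hk))

theorem IgPair_prod {K : Type*} (s : Finset K) (F : K → G → ℂ)
    (h0 : Coef (fun _ : G => (1 : ℂ)))
    (ha : ∀ f f' : G → ℂ, Coef f → Coef f' → Coef (fun g => f g * f' g))
    (h : ∀ k ∈ s, Coef (F k)) : Coef (fun g => ∏ k ∈ s, F k g) := by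
  classical
  induction s using Finset.induction_on with
  | empty => simpa using h0
  | insert a s hs ih =>
    simp only [Finset.prod_insert hs]
    exact ha _ _ (h a (Finset.mem_insert_self a s))
      (ih fun k hk => h k (Finset.mem_insert_of_mem hk))

/-- determinants of Gram matrices of matrices of coefficients -/
theorem IgPair_det (hc : (∀ c : ℂ, Coef (fun _ : G => c)) ∧
      (∀ f f' : G → ℂ, Coef f → Coef f' → Coef (fun g => f g + f' g)) ∧
      (∀ f f' : G → ℂ, Coef f → Coef f' → Coef (fun g => f g * f' g)) ∧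
      ∀ f : G → ℂ, Coef f → Coef (fun g => (starRingEnd ℂ) (f g)))
    {m n : Type} [Fintype m] [Fintype n] [DecidableEq n] (B : G → Matrix m n ℂ)
    (hB : ∀ i j, Coef (fun g => B g i j)) : Coef (fun g => ((B g)ᴴ * B g).det) := by
  obtain ⟨h1, h2, h3, h4⟩ := hc
  have he : ∀ i j, Coef (fun g => ((B g)ᴴ * B g) i j) := by
    intro i j
    simp only [Matrix.mul_apply, Matrix.conjTranspose_apply]
    refine IgPair_sum _ _ (h1 0) h2 fun k _ => ?_
    exact h3 _ _ (h4 _ (hB k i)) (hB k j)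
  simp only [Matrix.det_apply']
  refine IgPair_sum _ _ (h1 0) h2 fun σ _ => ?_
  refine h3 _ _ (h1 _) ?_
  exact IgPair_prod _ _ (h1 1) h3 fun i _ => he _ _

/-- matrix entries of a representation are coefficients -/
theorem IgPair_entry {ι : Type} [Fintype ι] [DecidableEq ι] (ρ : G →* Matrix.unitaryGroup ι ℂ)
    (hρ : Continuous ρ) (i j : ι) : Coef (fun g => (ρ g : Matrix ι ι ℂ) i j) := by
  refine ⟨ι, inferInstance, inferInstance, ρ, Matrix.single j i 1, hρ, fun g => ?_⟩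
  rw [Matrix.trace, Finset.sum_eq_single j]
  · simp [Matrix.mul_apply, Matrix.single_apply]
  · intro b _ hb
    simp [Matrix.mul_apply, Matrix.single_apply, hb.symm]
  · intro h; exact absurd (Finset.mem_univ j) h

end coef

section null

variable {G : Type} [Group G] {ι : Type} [Fintype ι] [DecidableEq ι]

/-- rows: `ρ a - 1`, `ρ b - 1` and the conjugates of the `u k` -/
def IgPair_B (ρ : G →* Matrix.unitaryGroup ι ℂ) {m : ℕ} (u : Fin m → ι → ℂ) (p : G × G) :
    Matrix (ι ⊕ ι ⊕ Fin m) ι ℂ :=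
  Matrix.of (Sum.elim (fun i j => (ρ p.1 : Matrix ι ι ℂ) i j + (-(1 : Matrix ι ι ℂ) i j))
    (Sum.elim (fun i j => (ρ p.2 : Matrix ι ι ℂ) i j + (-(1 : Matrix ι ι ℂ) i j))
      (fun k j => star (u k j))))

theorem IgPair_B_mulVec (ρ : G →* Matrix.unitaryGroup ι ℂ) {m : ℕ} (u : Fin m → ι → ℂ)
    (p : G × G) (v : ι → ℂ) : IgPair_B ρ u p *ᵥ v = 0 ↔
      (ρ p.1 : Matrix ι ι ℂ) *ᵥ v = v ∧ (ρ p.2 : Matrix ι ι ℂ) *ᵥ v = v ∧
        ∀ k, star (u k) ⬝ᵥ v = 0 := by
  have h1 : ∀ i, (IgPair_B ρ u p *ᵥ v) (Sum.inl i) = ((ρ p.1 : Matrix ι ι ℂ) *ᵥ v) i - v i := by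
    intro i
    simp only [IgPair_B, Matrix.mulVec, dotProduct, Matrix.of_apply, Sum.elim_inl, add_mul,
      Finset.sum_add_distrib, neg_mul, Finset.sum_neg_distrib]
    rw [sub_eq_add_neg]
    congr 2
    simp [Matrix.one_apply]
  have h2 : ∀ i, (IgPair_B ρ u p *ᵥ v) (Sum.inr (Sum.inl i)) =
      ((ρ p.2 : Matrix ι ι ℂ) *ᵥ v) i - v i := by
    intro i
    simp only [IgPair_B, Matrix.mulVec, dotProduct, Matrix.of_apply, Sum.elim_inl, Sum.elim_inr,
      add_mul, Finset.sum_add_distrib, neg_mul, Finset.sum_neg_distrib]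
    rw [sub_eq_add_neg]
    congr 2
    simp [Matrix.one_apply]
  have h3 : ∀ k, (IgPair_B ρ u p *ᵥ v) (Sum.inr (Sum.inr k)) = star (u k) ⬝ᵥ v := by
    intro k
    simp [IgPair_B, Matrix.mulVec, dotProduct]
  constructor
  · intro h
    refine ⟨?_, ?_, ?_⟩
    · ext i
      have := congrFun h (Sum.inl i)
      rw [h1] at this
      exact sub_eq_zero.1 this
    · ext i
      have := congrFun h (Sum.inr (Sum.inl i))
      rw [h2] at this
      exact sub_eq_zero.1 this
    · intro k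
      have := congrFun h (Sum.inr (Sum.inr k))
      rwa [h3] at this
  · rintro ⟨ha, hb, hu⟩
    ext r
    rcases r with i | i | k
    · rw [h1, ha, sub_self]; rfl
    · rw [h2, hb, sub_self]; rfl
    · rw [h3, hu]; rfl

/-- the fixed vectors -/
def IgPair_Fix (ρ : G →* Matrix.unitaryGroup ι ℂ) : Submodule ℂ (ι → ℂ) where
  carrier := {u | ∀ g, (ρ g : Matrix ι ι ℂ) *ᵥ u = u}
  zero_mem' := by intro g; exact Matrix.mulVec_zero _
  add_mem' := by
    intro a b ha hb g
    rw [Matrix.mulVec_add, ha g, hb g]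
  smul_mem' := by
    intro c a ha g
    rw [Matrix.mulVec_smul, ha g]

theorem IgPair_orth (ρ : G →* Matrix.unitaryGroup ι ℂ) {m : ℕ} (u : Fin m → ι → ℂ)
    (hu : Submodule.span ℂ (range u) = IgPair_Fix ρ) (v : ι → ℂ) :
    OrthFix ρ v ↔ ∀ k, star (u k) ⬝ᵥ v = 0 := by
  constructor
  · intro h k
    refine h (u k) ?_
    have : u k ∈ IgPair_Fix ρ := hu ▸ Submodule.subset_span ⟨k, rfl⟩
    exact this
  · intro h w hw
    have hw' : w ∈ Submodule.span ℂ (range u) := hu ▸ (show w ∈ IgPair_Fix ρ from hw)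
    clear hw
    induction hw' using Submodule.span_induction with
    | mem x hx => obtain ⟨k, rfl⟩ := hx; exact h k
    | zero => simp
    | add x y _ _ hx hy => rw [star_add, add_dotProduct, hx, hy, add_zero]
    | smul c x _ hx => rw [star_smul, smul_dotProduct, hx, smul_zero]

end null

section lie

open scoped Matrix.Norms.L2Operator

variable {ι : Type} [Fintype ι] [DecidableEq ι]

theorem IgPair_exp_deriv (X : Matrix ι ι ℂ) :
    HasDerivAt (fun s : ℝ => NormedSpace.exp (s • X)) X 0 := by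
  have h := hasDerivAt_exp_smul_const (𝕂 := ℝ) X (0 : ℝ)
  simpa using h

theorem IgPair_exp_neg (X : Matrix ι ι ℂ) (s : ℝ) :
    NormedSpace.exp (s • X) * NormedSpace.exp ((-s) • X) = 1 := by
  let _ : NormedAlgebra ℚ (Matrix ι ι ℂ) := NormedAlgebra.restrictScalars ℚ ℂ (Matrix ι ι ℂ)
  have h4 : Commute (s • X) ((-s) • X) := ((Commute.refl X).smul_left s).smul_right (-s)
  rw [← NormedSpace.exp_add_of_commute h4, ← add_smul, add_neg_cancel, zero_smul,
    NormedSpace.exp_zero]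

/-- directions of one-parameter groups of unitary matrices are skew-hermitian -/
theorem IgPair_skew (X : Matrix ι ι ℂ)
    (h : ∀ t : ℝ, NormedSpace.exp (t • X) ∈ Matrix.unitaryGroup ι ℂ) : Xᴴ = -X := by
  have h1 : ∀ t : ℝ, NormedSpace.exp (t • Xᴴ) = NormedSpace.exp (t • (-X)) := by
    intro t
    have h2 : NormedSpace.exp (t • Xᴴ) = (NormedSpace.exp (t • X))ᴴ := by
      rw [← Matrix.exp_conjTranspose, Matrix.conjTranspose_smul, star_trivial]
    have h3 := (Matrix.mem_unitaryGroup_iff'.1 (h t))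
    have h4 := IgPair_exp_neg X t
    rw [h2, smul_neg, ← neg_smul]
    calc (NormedSpace.exp (t • X))ᴴ
        = (NormedSpace.exp (t • X))ᴴ * (NormedSpace.exp (t • X) * NormedSpace.exp ((-t) • X)) := by
          rw [h4, mul_one]
      _ = NormedSpace.exp ((-t) • X) := by
          rw [← mul_assoc]
          rw [Matrix.star_eq_conjTranspose] at h3
          rw [h3, one_mul]
  have h5 := IgPair_exp_deriv Xᴴ
  have h6 := IgPair_exp_deriv (-X)
  simp_rw [h1] at h5
  exact h5.unique h6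

/-- vectors annihilated by `X` are fixed by `exp (t X)` -/
theorem IgPair_exp_fix (X : Matrix ι ι ℂ) (v : ι → ℂ) (h : X *ᵥ v = 0) (t : ℝ) :
    NormedSpace.exp (t • X) *ᵥ v = v := by
  let L : Matrix ι ι ℂ →ₗ[ℝ] (ι → ℂ) :=
    { toFun := fun A => A *ᵥ v
      map_add' := fun A B => Matrix.add_mulVec A B v
      map_smul' := fun c A => Matrix.smul_mulVec c A v }
  let L' : Matrix ι ι ℂ →L[ℝ] (ι → ℂ) := LinearMap.toContinuousLinearMap L
  have hd : ∀ s : ℝ, HasDerivAt (fun s : ℝ => NormedSpace.exp (s • X) *ᵥ v) 0 s := by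
    intro s
    have h1 := hasDerivAt_exp_smul_const (𝕂 := ℝ) X s
    have h2 := L'.hasFDerivAt.comp_hasDerivAt s h1
    have h3 : L' (NormedSpace.exp (s • X) * X) = 0 := by
      show (NormedSpace.exp (s • X) * X) *ᵥ v = 0
      rw [← Matrix.mulVec_mulVec, h, Matrix.mulVec_zero]
    rw [h3] at h2
    exact h2
  have h1 := is_const_of_deriv_eq_zero (fun s => (hd s).differentiableAt)
    (fun s => (hd s).deriv) t 0
  simp only [zero_smul, NormedSpace.exp_zero, Matrix.one_mulVec] at h1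
  exact h1

/-- a limit of vectors fixed by `exp (t X)`, `t → 0`, is annihilated by `X` -/
theorem IgPair_lim (X : Matrix ι ι ℂ) (t : ℕ → ℝ) (ht : Tendsto t atTop (𝓝[≠] 0))
    (w : ℕ → ι → ℂ) (v : ι → ℂ) (hw : Tendsto w atTop (𝓝 v))
    (h : ∀ n, NormedSpace.exp (t n • X) *ᵥ w n = w n) : X *ᵥ v = 0 := by
  have h1 := (IgPair_exp_deriv X).tendsto_slope_zero
  have h2 : Tendsto (fun n => (t n)⁻¹ • (NormedSpace.exp (t n • X) - 1)) atTop (𝓝 X) := by
    have h3 := h1.comp ht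
    simpa [Function.comp_def] using h3
  have h4 : Continuous fun p : Matrix ι ι ℂ × (ι → ℂ) => p.1 *ᵥ p.2 :=
    Continuous.matrix_mulVec continuous_fst continuous_snd
  have h5 := (h4.tendsto (X, v)).comp (h2.prodMk_nhds hw)
  have h6 : (fun p : Matrix ι ι ℂ × (ι → ℂ) => p.1 *ᵥ p.2) ∘
      (fun n => ((t n)⁻¹ • (NormedSpace.exp (t n • X) - 1), w n)) = fun _ => 0 := by
    funext n
    simp only [Function.comp_apply]
    rw [Matrix.smul_mulVec, Matrix.sub_mulVec, h n, Matrix.one_mulVec, sub_self, smul_zero]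
  rw [h6] at h5
  exact tendsto_nhds_unique h5 tendsto_const_nhds

end lie

section main

open scoped Matrix.Norms.L2Operator

theorem IgPair_ex (hg : S_gen) (hr : S_root) (hl : S_lie) (G : Type) [Group G]
    [TopologicalSpace G] [IsTopologicalGroup G] [CompactSpace G] [ConnectedSpace G]
    [SecondCountableTopology G] (ι : Type) [Fintype ι] [DecidableEq ι]
    (ρ : G →* Matrix.unitaryGroup ι ℂ) (hρ : Continuous ρ)
    (hbad : ∀ p : G × G, ∃ v : ι → ℂ, v ≠ 0 ∧ OrthFix ρ v ∧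
      (ρ p.1 : Matrix ι ι ℂ) *ᵥ v = v ∧ (ρ p.2 : Matrix ι ι ℂ) *ᵥ v = v) : False := by
  let ρ' : G →* Matrix ι ι ℂ := (Matrix.unitaryGroup ι ℂ).subtype.comp ρ
  have hρ' : Continuous ρ' := continuous_subtype_val.comp hρ
  have hval : ∀ g, ρ' g = (ρ g : Matrix ι ι ℂ) := fun g => rfl
  have hcl : IsClosed (range ρ') := (isCompact_range hρ').isClosed
  obtain ⟨l1, l2, l3, -, l5⟩ := hl (Matrix ι ι ℂ) (range ρ') hcl ⟨1, map_one ρ'⟩ (by
    rintro _ ⟨a, rfl⟩ _ ⟨b, rfl⟩
    exact ⟨a * b, map_mul ρ' a b⟩)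
  let g : Submodule ℝ (Matrix ι ι ℂ) :=
    { carrier := lieOf (range ρ')
      zero_mem' := l1
      add_mem' := fun {a b} ha hb => l2 a ha b hb
      smul_mem' := fun c x hx => l3 c x hx }
  have hskew : ∀ X ∈ g, Xᴴ = -X := by
    intro X hX
    refine IgPair_skew X fun t => ?_
    obtain ⟨a, ha⟩ := hX t
    rw [← ha]
    exact (ρ a).2
  obtain ⟨X, hX, Y, hY, hXY⟩ := hr ι g hskew (fun X hX Y hY => l5 X hX Y hY)
  -- a sequence of small times
  let t : ℕ → ℝ := fun n => 1 / ((n : ℝ) + 1)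
  have ht : Tendsto t atTop (𝓝[≠] 0) := by
    rw [tendsto_nhdsWithin_iff]
    refine ⟨tendsto_one_div_add_atTop_nhds_zero_nat, Eventually.of_forall fun n => ?_⟩
    have : t n ≠ 0 := by
      have : (0 : ℝ) < (n : ℝ) + 1 := by positivity
      exact one_div_ne_zero this.ne'
    exact this
  choose a ha using fun n => hX (t n)
  choose b hb using fun n => hY (t n)
  choose v hv0 hvO hva hvb using fun n => hbad (a n, b n)
  let w : ℕ → ι → ℂ := fun n => ((‖v n‖⁻¹ : ℝ) : ℂ) • v n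
  have hw1 : ∀ n, ‖w n‖ = 1 := by
    intro n
    have : ‖v n‖ ≠ 0 := norm_ne_zero_iff.2 (hv0 n)
    rw [norm_smul, Complex.norm_real, norm_inv, norm_norm, inv_mul_cancel₀ this]
  have hwa : ∀ n, NormedSpace.exp (t n • X) *ᵥ w n = w n := by
    intro n
    rw [← ha n, hval, Matrix.mulVec_smul]
    exact congrArg _ (hva n)
  have hwb : ∀ n, NormedSpace.exp (t n • Y) *ᵥ w n = w n := by
    intro n
    rw [← hb n, hval, Matrix.mulVec_smul]
    exact congrArg _ (hvb n)
  have hwO : ∀ n, OrthFix ρ (w n) := by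
    intro n u hu
    rw [dotProduct_smul, hvO n u hu, smul_zero]
  obtain ⟨v₀, hv₀, φ, hφ, hlim⟩ := (isCompact_sphere (0 : ι → ℂ) 1).tendsto_subseq
    (x := w) (fun n => by rw [mem_sphere_zero_iff_norm]; exact hw1 n)
  have htφ : Tendsto (t ∘ φ) atTop (𝓝[≠] 0) := ht.comp hφ.tendsto_atTop
  have hXv : X *ᵥ v₀ = 0 := IgPair_lim X (t ∘ φ) htφ (w ∘ φ) v₀ hlim fun n => hwa (φ n)
  have hYv : Y *ᵥ v₀ = 0 := IgPair_lim Y (t ∘ φ) htφ (w ∘ φ) v₀ hlim fun n => hwb (φ n)
  have hall := hXY v₀ hXv hYv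
  -- the stabiliser of `v₀`
  let H : Subgroup G :=
    { carrier := {h | ρ' h *ᵥ v₀ = v₀}
      one_mem' := by show ρ' 1 *ᵥ v₀ = v₀; rw [map_one, Matrix.one_mulVec]
      mul_mem' := by
        intro a b ha hb
        show ρ' (a * b) *ᵥ v₀ = v₀
        rw [map_mul, ← Matrix.mulVec_mulVec]
        exact (congrArg _ hb).trans ha
      inv_mem' := by
        intro a ha
        show ρ' a⁻¹ *ᵥ v₀ = v₀
        have ha' : ρ' a *ᵥ v₀ = v₀ := ha
        calc ρ' a⁻¹ *ᵥ v₀ = ρ' a⁻¹ *ᵥ (ρ' a *ᵥ v₀) := by rw [ha']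
          _ = v₀ := by
            rw [Matrix.mulVec_mulVec, ← map_mul, inv_mul_cancel, map_one, Matrix.one_mulVec] }
  have hHcl : IsClosed (H : Set G) := by
    have h1 : Continuous fun h : G => ρ' h *ᵥ v₀ := hρ'.matrix_mulVec continuous_const
    exact isClosed_eq h1 continuous_const
  have hHtop : H = ⊤ := by
    refine hg G (Matrix ι ι ℂ) ρ' hρ' H hHcl ?_
    intro h Z s hZ hh
    show ρ' h *ᵥ v₀ = v₀
    rw [hh]
    exact IgPair_exp_fix Z v₀ (hall Z hZ) s
  have hfix : ∀ g, (ρ g : Matrix ι ι ℂ) *ᵥ v₀ = v₀ := by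
    intro g
    have h1 : g ∈ H := hHtop ▸ Subgroup.mem_top g
    exact h1
  -- `v₀` is orthogonal to the fixed vectors
  have horth : OrthFix ρ v₀ := by
    intro u hu
    have h1 : Continuous fun x : ι → ℂ => star u ⬝ᵥ x := by
      exact continuous_const.dotProduct continuous_id
    have h2 := (h1.tendsto v₀).comp hlim
    have h3 : (fun x : ι → ℂ => star u ⬝ᵥ x) ∘ (w ∘ φ) = fun _ => 0 := by
      funext n; exact hwO (φ n) u hu
    rw [h3] at h2
    exact tendsto_nhds_unique h2 tendsto_const_nhds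
  have h0 : v₀ = 0 := by
    open scoped ComplexOrder in
    exact dotProduct_star_self_eq_zero.1 (horth v₀ hfix)
  rw [mem_sphere_zero_iff_norm, h0, norm_zero] at hv₀
  exact zero_ne_one hv₀

end main

theorem pair (hz : S_zero) (hc : S_coef) (hg : S_gen) (hr : S_root) (hl : S_lie) : S_pair := by
  intro G _ _ _ _ _ _ _ _ μ _ _ ι _ _ ρ hρ
  -- a basis of the fixed vectors
  obtain ⟨m, u, hu⟩ : ∃ (m : ℕ) (u : Fin m → ι → ℂ),
      Submodule.span ℂ (range u) = IgPair_Fix ρ := by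
    obtain ⟨m, u, hu⟩ := Submodule.fg_iff_exists_fin_generating_family.1
      (IsNoetherian.noetherian (IgPair_Fix ρ))
    exact ⟨m, u, hu⟩
  let D : G × G → ℂ := fun p => ((IgPair_B ρ u p)ᴴ * IgPair_B ρ u p).det
  have hD : Coef D := by
    have hc' := hc (G × G)
    refine IgPair_det hc' (IgPair_B ρ u) ?_
    obtain ⟨c1, c2, -, -⟩ := hc'
    have ha : ∀ i j, Coef (fun p : G × G => (ρ p.1 : Matrix ι ι ℂ) i j) := fun i j =>
      IgPair_entry (ρ.comp (MonoidHom.fst G G)) (hρ.comp continuous_fst) i j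
    have hb : ∀ i j, Coef (fun p : G × G => (ρ p.2 : Matrix ι ι ℂ) i j) := fun i j =>
      IgPair_entry (ρ.comp (MonoidHom.snd G G)) (hρ.comp continuous_snd) i j
    rintro (i | i | k) j
    · exact c2 _ _ (ha i j) (c1 _)
    · exact c2 _ _ (hb i j) (c1 _)
    · exact c1 _
  have hiff : ∀ p : G × G, D p = 0 ↔ ∃ v : ι → ℂ, v ≠ 0 ∧ OrthFix ρ v ∧
      (ρ p.1 : Matrix ι ι ℂ) *ᵥ v = v ∧ (ρ p.2 : Matrix ι ι ℂ) *ᵥ v = v := by
    intro p
    show ((IgPair_B ρ u p)ᴴ * IgPair_B ρ u p).det = 0 ↔ _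
    rw [← Matrix.exists_mulVec_eq_zero_iff]
    refine exists_congr fun v => and_congr_right fun _ => ?_
    have h1 : ((IgPair_B ρ u p)ᴴ * IgPair_B ρ u p) *ᵥ v = 0 ↔ IgPair_B ρ u p *ᵥ v = 0 := by
      open scoped ComplexOrder in
      exact Matrix.conjTranspose_mul_self_mulVec_eq_zero _ _
    rw [h1, IgPair_B_mulVec, ← IgPair_orth ρ u hu]
    tauto
  by_contra hne
  have hset : {p : G × G | ∃ v : ι → ℂ, v ≠ 0 ∧ OrthFix ρ v ∧
      (ρ p.1 : Matrix ι ι ℂ) *ᵥ v = v ∧ (ρ p.2 : Matrix ι ι ℂ) *ᵥ v = v} = {p | D p = 0} := by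
    ext p; exact (hiff p).symm
  rw [hset] at hne
  have hall := hz (G × G) (μ.prod μ) D hD hne
  exact IgPair_ex hg hr hl G ι ρ hρ fun p => (hiff p).1 (hall p)

end Q101Ig
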