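import Pool.Agent.Q101.IgS
import Pool.Agent.Y842.CX.Sep

/-!
# Peter-Weyl: a dense sequence of coefficients (job IG-21, helper224)
-/

set_option autoImplicit false

open MeasureTheory Set Filter Topology

namespace Q101Ig

theorem igPw_trace {ι : Type} [Fintype ι] [DecidableEq ι] (M : Matrix ι ι ℂ) (i j : ι) :
    (Matrix.single j i (1 : ℂ) * M).trace = M i j := by
  unfold Matrix.trace
  rw [Finset.sum_eq_single j]
  · simp
  · intro k _ hk
    simp [hk]
  · intro h
    exact absurd (Finset.mem_univ j) h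

/-- the star subalgebra of the continuous coefficients -/
noncomputable def igPw_alg (hc : S_coef) (G : Type) [Group G] [TopologicalSpace G] [IsTopologicalGroup G]
    [CompactSpace G] : StarSubalgebra ℂ C(G, ℂ) where
  carrier := {f | Coef (f : G → ℂ)}
  mul_mem' := fun {f f'} h h' => (hc G).2.2.1 f f' h h'
  add_mem' := fun {f f'} h h' => (hc G).2.1 f f' h h'
  algebraMap_mem' := fun c => (hc G).1 c
  star_mem' := fun {f} h => (hc G).2.2.2 f h

theorem pw (hc : S_coef) : S_pw := by
  intro G _ _ _ _ _ _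
  have hsep : (igPw_alg hc G).SeparatesPoints := by
    intro x y hxy
    obtain ⟨r, ρ, hρ, hne⟩ := Pool.Agent.Y842.CX.separated_of_compact G x y hxy
    obtain ⟨i, j, hij⟩ : ∃ i j, (ρ x : Matrix (Fin r) (Fin r) ℂ) i j ≠
        (ρ y : Matrix (Fin r) (Fin r) ℂ) i j := by
      by_contra h
      push Not at h
      exact hne (Subtype.ext (Matrix.ext h))
    have hcont : Continuous fun g : G => (ρ g : Matrix (Fin r) (Fin r) ℂ) i j :=
      (continuous_subtype_val.comp hρ).matrix_elem i j
    refine ⟨fun g : G => (ρ g : Matrix (Fin r) (Fin r) ℂ) i j, ⟨⟨_, hcont⟩, ?_, rfl⟩, hij⟩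
    exact ⟨Fin r, inferInstance, inferInstance, ρ, Matrix.single j i 1, hρ,
      fun g => (igPw_trace _ i j).symm⟩
  have hd := ContinuousMap.starSubalgebra_topologicalClosure_eq_top_of_separatesPoints
    (igPw_alg hc G) hsep
  have hdense : Dense ((igPw_alg hc G : StarSubalgebra ℂ C(G, ℂ)) : Set C(G, ℂ)) := by
    rw [dense_iff_closure_eq, ← StarSubalgebra.topologicalClosure_coe, hd]
    rfl
  obtain ⟨t, ht, htc, htd⟩ := hdense.exists_countable_dense_subset
  have htn : t.Nonempty := htd.nonempty
  obtain ⟨f, hf⟩ := htc.exists_eq_range htn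
  refine ⟨f, fun k => ?_, ?_⟩
  · have h1 : f k ∈ t := by rw [hf]; exact mem_range_self k
    exact ht h1
  · unfold DenseRange
    rw [← hf]
    exact htd

end Q101Ig
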