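import Pool.Agent.Q101.IgS

/-!
# Two elements of a compact Lie algebra have no other common null vectors (job IG-17, helper224)
-/

set_option autoImplicit false

open MeasureTheory Set Filter Topology
open scoped Matrix

namespace Q101Ig

section

variable {ι : Type} [Fintype ι] [DecidableEq ι]

open scoped ComplexOrder in
theorem igRoot_trace {A : Matrix ι ι ℂ} (h : (A * Aᴴ).trace = 0) : A = 0 :=
  Matrix.trace_mul_conjTranspose_self_eq_zero_iff.1 h

open scoped ComplexOrder in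
theorem igRoot_dot {v : ι → ℂ} (h : star v ⬝ᵥ v = 0) : v = 0 :=
  dotProduct_star_self_eq_zero.1 h

/-- the adjoint action -/
noncomputable def igRoot_ad (X : Matrix ι ι ℂ) : Module.End ℂ (Matrix ι ι ℂ) :=
  LinearMap.mulLeft ℂ X - LinearMap.mulRight ℂ X

theorem igRoot_ad_apply (X A : Matrix ι ι ℂ) : igRoot_ad X A = X * A - A * X := by
  simp [igRoot_ad]

theorem igRoot_mem (X A : Matrix ι ι ℂ) (μ : ℂ) :
    A ∈ (igRoot_ad X).eigenspace μ ↔ X * A - A * X = μ • A := by
  rw [Module.End.mem_eigenspace_iff, igRoot_ad_apply]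

/-- the complex span -/
def igRoot_gC (g : Submodule ℝ (Matrix ι ι ℂ)) : Submodule ℂ (Matrix ι ι ℂ) where
  carrier := {A | ∃ P ∈ g, ∃ Q ∈ g, A = P + Complex.I • Q}
  add_mem' := by
    rintro _ _ ⟨P, hP, Q, hQ, rfl⟩ ⟨P', hP', Q', hQ', rfl⟩
    refine ⟨P + P', g.add_mem hP hP', Q + Q', g.add_mem hQ hQ', ?_⟩
    rw [smul_add]
    abel
  zero_mem' := ⟨0, g.zero_mem, 0, g.zero_mem, by simp⟩
  smul_mem' := by
    rintro c _ ⟨P, hP, Q, hQ, rfl⟩
    refine ⟨c.re • P - c.im • Q, g.sub_mem (g.smul_mem _ hP) (g.smul_mem _ hQ),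
      c.im • P + c.re • Q, g.add_mem (g.smul_mem _ hP) (g.smul_mem _ hQ), ?_⟩
    ext i j
    simp only [Matrix.smul_apply, Matrix.add_apply, Matrix.sub_apply, smul_eq_mul, Complex.real_smul]
    have h1 := Complex.re_add_im c
    have h2 := Complex.I_mul_I
    linear_combination (-(P i j) - Complex.I * Q i j) * h1 + (c.im : ℂ) * Q i j * h2

theorem igRoot_diag {X : Matrix ι ι ℂ} (hX : Xᴴ = -X) : ∃ (U : Matrix ι ι ℂ) (d : ι → ℂ),
    U * Uᴴ = 1 ∧ Uᴴ * U = 1 ∧ X = U * Matrix.diagonal d * Uᴴ := by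
  have hH : (Complex.I • X).IsHermitian := by
    unfold Matrix.IsHermitian
    rw [Matrix.conjTranspose_smul, hX]
    simp
  refine ⟨(hH.eigenvectorUnitary : Matrix ι ι ℂ), fun i => -Complex.I * (hH.eigenvalues i : ℂ), ?_, ?_, ?_⟩
  · exact Matrix.mem_unitaryGroup_iff.1 hH.eigenvectorUnitary.2
  · exact Matrix.mem_unitaryGroup_iff'.1 hH.eigenvectorUnitary.2
  · have h1 := hH.spectral_theorem
    rw [Unitary.conjStarAlgAut_apply] at h1
    have h2 : X = (-Complex.I) • (Complex.I • X) := by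
      rw [smul_smul]
      simp
    have h3 : Matrix.diagonal (fun i => -Complex.I * (hH.eigenvalues i : ℂ)) =
        (-Complex.I) • Matrix.diagonal (RCLike.ofReal ∘ hH.eigenvalues : ι → ℂ) := by
      rw [← Matrix.diagonal_smul]
      rfl
    rw [h3, Matrix.mul_smul, Matrix.smul_mul]
    conv_lhs => rw [h2, h1]
    rfl

theorem igRoot_top {X : Matrix ι ι ℂ} (hX : Xᴴ = -X) : ⨆ μ, (igRoot_ad X).eigenspace μ = ⊤ := by
  obtain ⟨U, d, hU, hU', hXU⟩ := igRoot_diag hX
  rw [eq_top_iff]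
  intro A _
  have h1 : A = ∑ i, ∑ j, U * Matrix.single i j ((Uᴴ * A * U) i j) * Uᴴ := by
    have h2 := Matrix.matrix_eq_sum_single (Uᴴ * A * U)
    calc A = (U * Uᴴ) * A * (U * Uᴴ) := by rw [hU, one_mul, mul_one]
      _ = U * (Uᴴ * A * U) * Uᴴ := by simp only [mul_assoc]
      _ = U * (∑ i, ∑ j, Matrix.single i j ((Uᴴ * A * U) i j)) * Uᴴ := by rw [← h2]
      _ = _ := by
          rw [Finset.mul_sum, Finset.sum_mul]
          refine Finset.sum_congr rfl fun i _ => ?_
          rw [Finset.mul_sum, Finset.sum_mul]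
  rw [h1]
  refine Submodule.sum_mem _ fun i _ => Submodule.sum_mem _ fun j _ => ?_
  have h3 : U * Matrix.single i j ((Uᴴ * A * U) i j) * Uᴴ ∈ (igRoot_ad X).eigenspace (d i - d j) := by
    rw [igRoot_mem]
    set c := (Uᴴ * A * U) i j
    have e1 : X * (U * Matrix.single i j c * Uᴴ) = U * (Matrix.diagonal d * Matrix.single i j c) * Uᴴ := by
      calc X * (U * Matrix.single i j c * Uᴴ) =
            U * Matrix.diagonal d * (Uᴴ * U) * Matrix.single i j c * Uᴴ := by
            conv_lhs => rw [hXU]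
            simp only [mul_assoc]
        _ = _ := by rw [hU', mul_one]; simp only [mul_assoc]
    have e2 : (U * Matrix.single i j c * Uᴴ) * X = U * (Matrix.single i j c * Matrix.diagonal d) * Uᴴ := by
      calc (U * Matrix.single i j c * Uᴴ) * X =
            U * Matrix.single i j c * (Uᴴ * U) * Matrix.diagonal d * Uᴴ := by
            conv_lhs => rw [hXU]
            simp only [mul_assoc]
        _ = _ := by rw [hU', mul_one]; simp only [mul_assoc]
    have e3 : Matrix.diagonal d * Matrix.single i j c - Matrix.single i j c * Matrix.diagonal d =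
        (d i - d j) • Matrix.single i j c := by
      ext a b
      rw [Matrix.sub_apply, Matrix.diagonal_mul, Matrix.mul_diagonal, Matrix.smul_apply, smul_eq_mul]
      by_cases hab : i = a ∧ j = b
      · obtain ⟨rfl, rfl⟩ := hab
        ring
      · rw [Matrix.single_apply_of_ne i j c a b hab]
        ring
    rw [e1, e2, ← sub_mul, ← mul_sub, e3, Matrix.mul_smul, Matrix.smul_mul]
  exact Submodule.mem_iSup_of_mem _ h3

theorem igRoot_adj {X A : Matrix ι ι ℂ} (hX : Xᴴ = -X) {μ : ℂ} (h : X * A - A * X = μ • A) :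
    X * Aᴴ - Aᴴ * X = (starRingEnd ℂ) μ • Aᴴ := by
  have h1 := congrArg Matrix.conjTranspose h
  rw [Matrix.conjTranspose_sub, Matrix.conjTranspose_mul, Matrix.conjTranspose_mul,
    Matrix.conjTranspose_smul, hX] at h1
  rw [mul_neg, neg_mul] at h1
  have h2 : -(Aᴴ * X) - -(X * Aᴴ) = X * Aᴴ - Aᴴ * X := by abel
  rw [h2] at h1
  exact h1

theorem igRoot_imag {X A : Matrix ι ι ℂ} (hX : Xᴴ = -X) {μ : ℂ} (hA : A ≠ 0)
    (h : X * A - A * X = μ • A) : (starRingEnd ℂ) μ = -μ := by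
  have h1 := igRoot_adj hX h
  have ht : (A * Aᴴ).trace ≠ 0 := fun h0 => hA (igRoot_trace h0)
  have h2 : ((X * A - A * X) * Aᴴ).trace = μ * (A * Aᴴ).trace := by
    rw [h, Matrix.smul_mul, Matrix.trace_smul, smul_eq_mul]
  have h3 : (A * (X * Aᴴ - Aᴴ * X)).trace = (starRingEnd ℂ) μ * (A * Aᴴ).trace := by
    rw [h1, Matrix.mul_smul, Matrix.trace_smul, smul_eq_mul]
  have h4 : (A * (X * Aᴴ - Aᴴ * X)).trace = -((X * A - A * X) * Aᴴ).trace := by
    rw [mul_sub, sub_mul, Matrix.trace_sub, Matrix.trace_sub]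
    have e1 : (A * (Aᴴ * X)).trace = (X * A * Aᴴ).trace := by
      rw [← mul_assoc, Matrix.trace_mul_comm, mul_assoc]
    have e2 : (A * (X * Aᴴ)).trace = (A * X * Aᴴ).trace := by rw [mul_assoc]
    rw [e1, e2]
    ring
  rw [h3, h2] at h4
  have h5 : ((starRingEnd ℂ) μ + μ) * (A * Aᴴ).trace = 0 := by linear_combination h4
  have h6 := (mul_eq_zero.1 h5).resolve_right ht
  linear_combination h6

theorem igRoot_orth {X : Matrix ι ι ℂ} (hX : Xᴴ = -X) {u w : ι → ℂ} {α β : ℂ}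
    (hu : X *ᵥ u = α • u) (hw : X *ᵥ w = β • w) (hα : (starRingEnd ℂ) α = -α) (h : α ≠ β) :
    star u ⬝ᵥ w = 0 := by
  have h1 : star u ⬝ᵥ (X *ᵥ w) = β * (star u ⬝ᵥ w) := by
    rw [hw, dotProduct_smul, smul_eq_mul]
  have h2 : star u ⬝ᵥ (X *ᵥ w) = α * (star u ⬝ᵥ w) := by
    rw [Matrix.dotProduct_mulVec]
    have e : star u ᵥ* X = α • star u := by
      have e1 : X = (-X)ᴴ := by rw [Matrix.conjTranspose_neg, hX, neg_neg]
      rw [e1, ← Matrix.star_mulVec, Matrix.neg_mulVec, hu, star_neg, star_smul]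
      have e2 : star α = -α := hα
      rw [e2, neg_smul, neg_neg]
    rw [e, smul_dotProduct, smul_eq_mul]
  rw [h1] at h2
  have h3 : (β - α) * (star u ⬝ᵥ w) = 0 := by linear_combination h2
  exact (mul_eq_zero.1 h3).resolve_left (sub_ne_zero.2 (Ne.symm h))

/-- a vector in the image of a root vector -/
theorem igRoot_vec {X A : Matrix ι ι ℂ} {μ : ℂ} (h : X * A - A * X = μ • A) {v : ι → ℂ}
    (hv : X *ᵥ v = 0) : X *ᵥ (A *ᵥ v) = μ • (A *ᵥ v) := by
  have h1 : X * A = A * X + μ • A := by rw [← h]; abel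
  rw [Matrix.mulVec_mulVec, h1, Matrix.add_mulVec, ← Matrix.mulVec_mulVec, hv, Matrix.mulVec_zero,
    zero_add, Matrix.smul_mulVec]

end

theorem root (hs : S_split) (hr : S_rootdim) : S_root := by
  intro ι _ _ g hsk hbr
  classical
  obtain ⟨X, hXg, hReg⟩ := hs ι g hsk
  have hX := hsk X hXg
  set p := igRoot_gC g with hpdef
  have hpC : ∀ A, A ∈ p ↔ ∃ P ∈ g, ∃ Q ∈ g, A = P + Complex.I • Q := fun A => Iff.rfl
  have hp : ∀ A ∈ p, igRoot_ad X A ∈ p := by
    rintro _ ⟨P, hP, Q, hQ, rfl⟩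
    rw [igRoot_ad_apply]
    refine ⟨X * P - P * X, hbr X hXg P hP, X * Q - Q * X, hbr X hXg Q hQ, ?_⟩
    rw [mul_add, add_mul, Matrix.mul_smul, Matrix.smul_mul, smul_sub]
    abel
  have hstar : ∀ A ∈ p, Aᴴ ∈ p := by
    rintro _ ⟨P, hP, Q, hQ, rfl⟩
    refine ⟨-P, g.neg_mem hP, Q, hQ, ?_⟩
    rw [Matrix.conjTranspose_add, Matrix.conjTranspose_smul, hsk P hP, hsk Q hQ]
    simp
  have hdec : p = ⨆ μ, p ⊓ (igRoot_ad X).eigenspace μ :=
    Submodule.eq_iSup_inf_genEigenspace 1 hp (igRoot_top hX)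
  have hfin : Set.Finite {μ | (igRoot_ad X).HasEigenvalue μ} := (igRoot_ad X).finite_hasEigenvalue
  -- generators
  have hgen : ∀ μ : ℂ, ∃ b ∈ p, X * b - b * X = μ • b ∧
      (∀ A ∈ p, X * A - A * X = μ • A → μ ≠ 0 → ∃ c : ℂ, A = c • b) := by
    intro μ
    by_cases h : ∃ b ∈ p, b ≠ 0 ∧ X * b - b * X = μ • b
    · obtain ⟨b, hb, hb0, hbe⟩ := h
      refine ⟨b, hb, hbe, fun A hA hAe hμ => ?_⟩
      have ht : (b * bᴴ).trace ≠ 0 := fun h0 => hb0 (igRoot_trace h0)
      set c : ℂ := (A * bᴴ).trace / (b * bᴴ).trace with hc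
      have h1 : A - c • b ∈ p := p.sub_mem hA (p.smul_mem c hb)
      have h2 : X * (A - c • b) - (A - c • b) * X = μ • (A - c • b) := by
        have e : X * (A - c • b) - (A - c • b) * X = (X * A - A * X) - c • (X * b - b * X) := by
          rw [mul_sub, sub_mul, Matrix.mul_smul, Matrix.smul_mul, smul_sub]
          abel
        rw [e, hAe, hbe, smul_sub, smul_comm]
      have h3 : ((A - c • b) * bᴴ).trace = 0 := by
        rw [sub_mul, Matrix.smul_mul, Matrix.trace_sub, Matrix.trace_smul, smul_eq_mul, hc]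
        field_simp
        ring
      rcases hr ι g hsk hbr X hXg hReg μ b (A - c • b) hμ ((hpC b).1 hb) ((hpC _).1 h1) hbe h2 h3 with h4 | h4
      · exact absurd h4 hb0
      · exact ⟨c, sub_eq_zero.1 h4⟩
    · push Not at h
      refine ⟨0, p.zero_mem, by simp, fun A hA hAe hμ => ⟨0, ?_⟩⟩
      by_contra hA0
      rw [smul_zero] at hA0
      exact h A hA hA0 hAe
  choose b hbp hbe hbg using hgen
  set S : Finset ℂ := hfin.toFinset.filter (fun μ => 0 < μ.im) with hS
  have hSim : ∀ μ ∈ S, 0 < μ.im := fun μ hμ => (Finset.mem_filter.1 hμ).2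
  have hSstar : ∀ μ ∈ S, (starRingEnd ℂ) μ = -μ := by
    intro μ hμ
    have h1 : (igRoot_ad X).HasEigenvalue μ := by
      have := (Finset.mem_filter.1 hμ).1
      rwa [Set.Finite.mem_toFinset] at this
    obtain ⟨A, hA, hA0⟩ := h1.exists_hasEigenvector
    exact igRoot_imag hX hA0 ((igRoot_mem X A μ).1 hA)
  have hYg : ∑ μ ∈ S, (b μ - (b μ)ᴴ) ∈ g := by
    refine g.sum_mem fun μ _ => ?_
    obtain ⟨P, hP, Q, hQ, h⟩ := hbp μ
    have e : b μ - (b μ)ᴴ = P + P := by
      rw [h, Matrix.conjTranspose_add, Matrix.conjTranspose_smul, hsk P hP, hsk Q hQ]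
      simp
    rw [e]
    exact g.add_mem hP hP
  refine ⟨X, hXg, _, hYg, ?_⟩
  intro v hXv hYv Z hZ
  have hYv' : ∑ μ ∈ S, (b μ *ᵥ v - (b μ)ᴴ *ᵥ v) = 0 := by
    rw [← hYv, Matrix.sum_mulVec]
    refine Finset.sum_congr rfl fun μ _ => ?_
    rw [Matrix.sub_mulVec]
  have hw : ∀ μ, X *ᵥ (b μ *ᵥ v) = μ • (b μ *ᵥ v) := fun μ => igRoot_vec (hbe μ) hXv
  have hw' : ∀ μ, X *ᵥ ((b μ)ᴴ *ᵥ v) = (starRingEnd ℂ) μ • ((b μ)ᴴ *ᵥ v) := fun μ =>
    igRoot_vec (igRoot_adj hX (hbe μ)) hXv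
  have him : ∀ μ ∈ S, ((starRingEnd ℂ) μ).im < 0 := by
    intro μ hμ
    rw [Complex.conj_im]
    linarith [hSim μ hμ]
  have key : ∀ μ ∈ S, b μ *ᵥ v = 0 ∧ (b μ)ᴴ *ᵥ v = 0 := by
    intro μ₀ hμ₀
    constructor
    · apply igRoot_dot
      have h1 : star (b μ₀ *ᵥ v) ⬝ᵥ ∑ μ ∈ S, (b μ *ᵥ v - (b μ)ᴴ *ᵥ v) = 0 := by
        rw [hYv', dotProduct_zero]
      rw [dotProduct_sum, Finset.sum_eq_single μ₀] at h1
      · rw [dotProduct_sub, igRoot_orth hX (hw μ₀) (hw' μ₀) (hSstar μ₀ hμ₀) (by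
          intro h0
          have h2 := him μ₀ hμ₀
          rw [← h0] at h2
          linarith [hSim μ₀ hμ₀]), sub_zero] at h1
        exact h1
      · intro μ hμ hne
        rw [dotProduct_sub, igRoot_orth hX (hw μ₀) (hw μ) (hSstar μ₀ hμ₀) (Ne.symm hne),
          igRoot_orth hX (hw μ₀) (hw' μ) (hSstar μ₀ hμ₀) (by
          intro h0
          have h2 := him μ hμ
          rw [← h0] at h2
          linarith [hSim μ₀ hμ₀]), sub_zero]
      · intro h0
        exact absurd hμ₀ h0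
    · apply igRoot_dot
      have hc0 : (starRingEnd ℂ) ((starRingEnd ℂ) μ₀) = -((starRingEnd ℂ) μ₀) := by
        rw [hSstar μ₀ hμ₀, map_neg, hSstar μ₀ hμ₀]
      have h1 : star ((b μ₀)ᴴ *ᵥ v) ⬝ᵥ ∑ μ ∈ S, (b μ *ᵥ v - (b μ)ᴴ *ᵥ v) = 0 := by
        rw [hYv', dotProduct_zero]
      rw [dotProduct_sum, Finset.sum_eq_single μ₀] at h1
      · rw [dotProduct_sub, igRoot_orth hX (hw' μ₀) (hw μ₀) hc0 (by
          intro h0
          have h2 := him μ₀ hμ₀
          rw [h0] at h2
          linarith [hSim μ₀ hμ₀]), zero_sub, neg_eq_zero] at h1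
        exact h1
      · intro μ hμ hne
        rw [dotProduct_sub, igRoot_orth hX (hw' μ₀) (hw μ) hc0 (by
          intro h0
          have h2 := him μ₀ hμ₀
          rw [h0] at h2
          linarith [hSim μ hμ]),
          igRoot_orth hX (hw' μ₀) (hw' μ) hc0 (by
          intro h0
          apply hne
          rw [hSstar μ₀ hμ₀, hSstar μ hμ] at h0
          linear_combination h0), sub_zero]
      · intro h0
        exact absurd hμ₀ h0
  -- all elements of the complex span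
  have hZp : Z ∈ p := ⟨Z, hZ, 0, g.zero_mem, by simp⟩
  rw [hdec] at hZp
  refine Submodule.iSup_induction _ (motive := fun A => A *ᵥ v = 0) hZp ?_ (Matrix.zero_mulVec v)
    (fun A B hA hB => by rw [Matrix.add_mulVec, hA, hB, add_zero])
  rintro μ A ⟨hAp, hAe⟩
  have hAe' := (igRoot_mem X A μ).1 hAe
  by_cases hA0 : A = 0
  · rw [hA0, Matrix.zero_mulVec]
  by_cases hμ : μ = 0
  · -- the centraliser
    obtain ⟨P, hP, Q, hQ, h⟩ := hAp
    have h1 : (X * P - P * X) + Complex.I • (X * Q - Q * X) = 0 := by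
      have e : (X * P - P * X) + Complex.I • (X * Q - Q * X) = X * A - A * X := by
        rw [h, mul_add, add_mul, Matrix.mul_smul, Matrix.smul_mul, smul_sub]
        abel
      rw [e, hAe', hμ, zero_smul]
    have h2 := congrArg Matrix.conjTranspose h1
    rw [Matrix.conjTranspose_add, Matrix.conjTranspose_smul, hsk _ (hbr X hXg P hP),
      hsk _ (hbr X hXg Q hQ), Matrix.conjTranspose_zero] at h2
    have h3 : -(X * P - P * X) + Complex.I • (X * Q - Q * X) = 0 := by
      have e : star Complex.I • -(X * Q - Q * X) = Complex.I • (X * Q - Q * X) := by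
        have e1 : star Complex.I = -Complex.I := Complex.conj_I
        rw [e1, smul_neg, neg_smul, neg_neg]
      rw [e] at h2
      exact h2
    have h4 : (2 : ℂ) • (X * P - P * X) = 0 := by
      have e : (2 : ℂ) • (X * P - P * X) = ((X * P - P * X) + Complex.I • (X * Q - Q * X)) -
          (-(X * P - P * X) + Complex.I • (X * Q - Q * X)) := by
        rw [two_smul]
        abel
      rw [e, h1, h3, sub_zero]
    have h5 : X * P - P * X = 0 := (smul_eq_zero.1 h4).resolve_left two_ne_zero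
    have h6 : X * Q - Q * X = 0 := by
      rw [h5, zero_add] at h1
      exact (smul_eq_zero.1 h1).resolve_left Complex.I_ne_zero
    have hcen : ∀ W ∈ g, X * W - W * X = 0 → W *ᵥ v = 0 := by
      intro W hW hXW
      obtain ⟨ν, hν1, hν2⟩ := hReg W hW (sub_eq_zero.1 hXW) 0
      have h7 := hν2 v (by rw [hXv, zero_smul])
      rcases isEmpty_or_nonempty ι with hι | hι
      · exact Subsingleton.elim _ _
      · have h8 := hν1 1 (by simp)
        rw [mul_one, one_mul, sub_self] at h8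
        have h9 : ν = 0 := by
          rcases smul_eq_zero.1 h8.symm with h9 | h9
          · exact h9
          · exact absurd h9 one_ne_zero
        rw [h7, h9, zero_smul]
    show A *ᵥ v = 0
    rw [h, Matrix.add_mulVec, Matrix.smul_mulVec, hcen P hP h5, hcen Q hQ h6, smul_zero,
      add_zero]
  · have hst := igRoot_imag hX hA0 hAe'
    have hre : μ.re = 0 := by
      have := congrArg Complex.re hst
      rw [Complex.conj_re, Complex.neg_re] at this
      linarith
    have himne : μ.im ≠ 0 := by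
      intro h0
      exact hμ (Complex.ext hre h0)
    have hev : ∀ (ν : ℂ) (W : Matrix ι ι ℂ), W ≠ 0 → X * W - W * X = ν • W → 0 < ν.im → ν ∈ S := by
      intro ν W hW0 hW hν
      rw [hS, Finset.mem_filter, Set.Finite.mem_toFinset]
      refine ⟨?_, hν⟩
      exact Module.End.hasEigenvalue_of_hasEigenvector ⟨(igRoot_mem X W ν).2 hW, hW0⟩
    show A *ᵥ v = 0
    rcases lt_or_gt_of_ne himne with h | h
    · -- negative imaginary part
      have hAe2 := igRoot_adj hX hAe'
      rw [hst] at hAe2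
      have hA2 : Aᴴ ≠ 0 := fun h0 => hA0 (Matrix.conjTranspose_eq_zero.1 h0)
      have hm := hev (-μ) Aᴴ hA2 hAe2 (by rw [Complex.neg_im]; linarith)
      obtain ⟨c, hc⟩ := hbg (-μ) Aᴴ (hstar A hAp) hAe2 (neg_ne_zero.2 hμ)
      have e : A = star c • (b (-μ))ᴴ := by
        rw [← Matrix.conjTranspose_conjTranspose A, hc, Matrix.conjTranspose_smul]
      rw [e, Matrix.smul_mulVec, (key (-μ) hm).2, smul_zero]
    · have hm := hev μ A hA0 hAe' h
      obtain ⟨c, hc⟩ := hbg μ A hAp hAe' hμ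
      rw [hc, Matrix.smul_mulVec, (key μ hm).1, smul_zero]

end Q101Ig
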