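import Pool.Agent.Q101.IgS

/-!
# Root spaces of a compact Lie algebra of matrices are one-dimensional

Job IG-16 of project IG (helper101), by helper239.
-/

set_option autoImplicit false

open Matrix
open scoped Matrix

namespace Q101Ig

section

variable {ι : Type} [Fintype ι]

lemma rootdim_trace (A : Matrix ι ι ℂ) :
    ∃ r : ℝ, 0 ≤ r ∧ (A * Aᴴ).trace = (r : ℂ) ∧ (r = 0 → A = 0) := by
  refine ⟨∑ i, ∑ j, ‖A i j‖ ^ 2, ?_, ?_, ?_⟩
  · exact Finset.sum_nonneg fun i _ => Finset.sum_nonneg fun j _ => by positivity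
  · simp only [Matrix.trace, Matrix.diag, Matrix.mul_apply, Matrix.conjTranspose_apply]
    push_cast
    refine Finset.sum_congr rfl fun i _ => Finset.sum_congr rfl fun j _ => ?_
    have h := Complex.mul_conj (A i j)
    rw [Complex.normSq_eq_norm_sq] at h
    push_cast at h
    exact h
  · intro h
    have h1 := (Finset.sum_eq_zero_iff_of_nonneg
      (fun i _ => Finset.sum_nonneg fun j _ => by positivity)).1 h
    ext i j
    have h2 := (Finset.sum_eq_zero_iff_of_nonneg (fun j _ => by positivity)).1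
      (h1 i (Finset.mem_univ i)) j (Finset.mem_univ j)
    have h3 : ‖A i j‖ = 0 := by simpa using h2
    simpa using h3

end

theorem rootdim : S_rootdim := by
  intro ι _ _ g hskew hbr X hX hreg μ A B hμ hA hB hXA hXB hBA
  by_cases hA0 : A = 0
  · exact Or.inl hA0
  right
  obtain ⟨P, hP, R, hR, hAe⟩ := hA
  obtain ⟨P', hP', R', hR', hBe⟩ := hB
  obtain ⟨r, hr0, hr, hrA⟩ := rootdim_trace A
  have hrpos : 0 < r := lt_of_le_of_ne hr0 fun h => hA0 (hrA h.symm)
  have hrne : (r : ℂ) ≠ 0 := by exact_mod_cast hrpos.ne'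
  have hXs := hskew X hX
  have hPs := hskew P hP
  have hRs := hskew R hR
  have hP's := hskew P' hP'
  have hR's := hskew R' hR'
  -- the star of the eigenvalue equations
  have hXAs : X * Aᴴ - Aᴴ * X = (starRingEnd ℂ μ) • Aᴴ := by
    have h := congrArg conjTranspose hXA
    rw [conjTranspose_sub, conjTranspose_mul, conjTranspose_mul, hXs, conjTranspose_smul] at h
    rw [← Complex.star_def, ← h]
    noncomm_ring
  -- the eigenvalue is imaginary
  have htXA : (X * A * Aᴴ).trace - (A * X * Aᴴ).trace = μ * r := by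
    rw [← Matrix.trace_sub, ← sub_mul, hXA, smul_mul_assoc, Matrix.trace_smul, hr, smul_eq_mul]
  have htXAs : (A * X * Aᴴ).trace - (X * A * Aᴴ).trace = (starRingEnd ℂ μ) * r := by
    have h1 : (X * A * Aᴴ).trace = (A * (Aᴴ * X)).trace := by
      rw [mul_assoc, Matrix.trace_mul_comm, mul_assoc]
    rw [h1, mul_assoc, ← Matrix.trace_sub, ← mul_sub, hXAs, mul_smul_comm, Matrix.trace_smul, hr,
      smul_eq_mul]
  have hμs : starRingEnd ℂ μ = -μ := by
    have h : (starRingEnd ℂ μ) * r = (-μ) * r := by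
      rw [← htXAs]
      linear_combination -htXA
    exact mul_right_cancel₀ hrne h
  rw [hμs] at hXAs
  -- the hermitian element
  set H : Matrix ι ι ℂ := A * Aᴴ - Aᴴ * A with hH
  have hAs : Aᴴ = -P + Complex.I • R := by
    rw [hAe, conjTranspose_add, conjTranspose_smul, hPs, hRs]
    simp
  have hHs : Hᴴ = H := by
    rw [hH, conjTranspose_sub, conjTranspose_mul, conjTranspose_mul, conjTranspose_conjTranspose]
  have hHQ : H = Complex.I • ((P * R - R * P) + (P * R - R * P)) := by
    rw [hH, hAs, hAe]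
    simp only [add_mul, mul_add, mul_smul_comm, smul_mul_assoc, smul_add, smul_sub, mul_neg,
      neg_mul, smul_smul, Complex.I_mul_I, neg_smul, one_smul]
    module
  have hQg : (P * R - R * P) + (P * R - R * P) ∈ g := g.add_mem (hbr P hP R hR) (hbr P hP R hR)
  set Q : Matrix ι ι ℂ := (P * R - R * P) + (P * R - R * P) with hQ
  have hXH : X * H = H * X := by
    have h1 : X * (A * Aᴴ) - (A * Aᴴ) * X = 0 := by
      have : X * (A * Aᴴ) - (A * Aᴴ) * X = (X * A - A * X) * Aᴴ + A * (X * Aᴴ - Aᴴ * X) := by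
        noncomm_ring
      rw [this, hXA, hXAs]
      simp
    have h2 : X * (Aᴴ * A) - (Aᴴ * A) * X = 0 := by
      have : X * (Aᴴ * A) - (Aᴴ * A) * X = (X * Aᴴ - Aᴴ * X) * A + Aᴴ * (X * A - A * X) := by
        noncomm_ring
      rw [this, hXA, hXAs]
      simp
    rw [hH, mul_sub, sub_mul, sub_eq_zero.1 h1, sub_eq_zero.1 h2]
  have hIH : Q = (-Complex.I) • H := by
    rw [hHQ, smul_smul]
    simp
  have hXQ : X * Q = Q * X := by
    rw [hIH, mul_smul_comm, smul_mul_assoc, hXH]
  obtain ⟨ν, hν, -⟩ := hreg Q hQg hXQ μ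
  have hQA := hν A hXA
  have hQB := hν B hXB
  set a : ℂ := Complex.I * ν with ha
  have hHA : H * A - A * H = a • A := by
    rw [hHQ, smul_mul_assoc, mul_smul_comm, ← smul_sub, hQA, smul_smul]
  have hHB : H * B - B * H = a • B := by
    rw [hHQ, smul_mul_assoc, mul_smul_comm, ← smul_sub, hQB, smul_smul]
  -- the eigenvalue `a` is positive
  obtain ⟨q, hq0, hq, hqH⟩ := rootdim_trace H
  have haq : a * r = q := by
    have h1 : (H * A * Aᴴ).trace - (A * H * Aᴴ).trace = a * r := by
      rw [← Matrix.trace_sub, ← sub_mul, hHA, smul_mul_assoc, Matrix.trace_smul, hr, smul_eq_mul]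
    have h2 : (A * H * Aᴴ).trace = (H * (Aᴴ * A)).trace := by
      rw [mul_assoc, Matrix.trace_mul_comm, mul_assoc]
    rw [← h1, h2, mul_assoc, ← Matrix.trace_sub, ← mul_sub, ← hH, ← hq, hHs]
  have hqne : q ≠ 0 := by
    intro h0
    have hH0 := hqH h0
    have h1 : (X * A * Aᴴ).trace - (A * X * Aᴴ).trace = (X * H).trace := by
      have h2 : (A * X * Aᴴ).trace = (X * (Aᴴ * A)).trace := by
        rw [mul_assoc, Matrix.trace_mul_comm, mul_assoc]
      rw [h2, mul_assoc, ← Matrix.trace_sub, ← mul_sub]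
    rw [htXA, hH0, mul_zero, Matrix.trace_zero] at h1
    rcases mul_eq_zero.1 h1 with h | h
    · exact hμ h
    · exact hrne h
  have hqpos : 0 < q := lt_of_le_of_ne hq0 (Ne.symm hqne)
  have hareal : a = ((q / r : ℝ) : ℂ) := by
    push_cast
    rw [eq_div_iff hrne, haq]
  -- the commutator with the adjoint vanishes
  set C : Matrix ι ι ℂ := Aᴴ * B - B * Aᴴ with hC
  set P'' : Matrix ι ι ℂ := -(P * P' - P' * P) - (R * R' - R' * R) with hP''
  set R'' : Matrix ι ι ℂ := -(P * R' - R' * P) + (R * P' - P' * R) with hR''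
  have hP''g : P'' ∈ g := g.sub_mem (g.neg_mem (hbr P hP P' hP')) (hbr R hR R' hR')
  have hR''g : R'' ∈ g := g.add_mem (g.neg_mem (hbr P hP R' hR')) (hbr R hR P' hP')
  have hCe : C = P'' + Complex.I • R'' := by
    rw [hC, hAs, hBe, hP'', hR'']
    simp only [add_mul, mul_add, mul_smul_comm, smul_mul_assoc, smul_add, smul_sub, mul_neg,
      neg_mul, smul_smul, Complex.I_mul_I, neg_smul, one_smul, smul_neg]
    module
  have hXC : X * C - C * X = 0 := by
    have : X * C - C * X = (X * Aᴴ - Aᴴ * X) * B - B * (X * Aᴴ - Aᴴ * X) +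
        (Aᴴ * (X * B - B * X) - (X * B - B * X) * Aᴴ) := by
      rw [hC]
      noncomm_ring
    rw [this, hXAs, hXB]
    simp only [smul_mul_assoc, mul_smul_comm, neg_smul, neg_mul, mul_neg]
    abel
  have hM : (X * P'' - P'' * X) + Complex.I • (X * R'' - R'' * X) = 0 := by
    rw [← hXC, hCe]
    simp only [add_mul, mul_add, mul_smul_comm, smul_mul_assoc, smul_sub]
    abel
  have hMs : -(X * P'' - P'' * X) + Complex.I • (X * R'' - R'' * X) = 0 := by
    have h := congrArg conjTranspose hM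
    rw [conjTranspose_add, conjTranspose_smul, hskew _ (hbr X hX P'' hP''g),
      hskew _ (hbr X hX R'' hR''g), conjTranspose_zero, Complex.star_def, Complex.conj_I, neg_smul,
      smul_neg, neg_neg] at h
    exact h
  have hXP : X * P'' = P'' * X := by
    have h1 : (2 : ℂ) • (X * P'' - P'' * X) = 0 := by
      rw [two_smul]
      have h2 := congrArg₂ (fun a b => a - b) hM hMs
      simp only [sub_zero] at h2
      rw [← h2]
      abel
    have h3 := (smul_eq_zero.1 h1).resolve_left two_ne_zero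
    exact sub_eq_zero.1 h3
  have hXR : X * R'' = R'' * X := by
    rw [sub_eq_zero.2 hXP, zero_add] at hM
    exact sub_eq_zero.1 ((smul_eq_zero.1 hM).resolve_left Complex.I_ne_zero)
  obtain ⟨ν₁, h₁, -⟩ := hreg P'' hP''g hXP μ
  obtain ⟨ν₂, h₂, -⟩ := hreg R'' hR''g hXR μ
  have hCA : C * A - A * C = (ν₁ + Complex.I * ν₂) • A := by
    rw [add_smul, ← h₁ A hXA, mul_smul, ← h₂ A hXA, hCe]
    simp only [add_mul, mul_add, mul_smul_comm, smul_mul_assoc, smul_sub]
    abel
  set c : ℂ := ν₁ + Complex.I * ν₂ with hc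
  have hCAs : Cᴴ * Aᴴ - Aᴴ * Cᴴ = -((starRingEnd ℂ c) • Aᴴ) := by
    have h := congrArg conjTranspose hCA
    rw [conjTranspose_sub, conjTranspose_mul, conjTranspose_mul, conjTranspose_smul] at h
    rw [← Complex.star_def, ← h]
    abel
  obtain ⟨p, hp0, hp, hpC⟩ := rootdim_trace C
  have hC0 : C = 0 := by
    apply hpC
    have h1 : (C * Cᴴ).trace = (B * (Cᴴ * Aᴴ - Aᴴ * Cᴴ)).trace := by
      conv_lhs => rw [hC, sub_mul]
      rw [Matrix.trace_sub, mul_sub, Matrix.trace_sub, ← hC, mul_assoc, Matrix.trace_mul_comm Aᴴ,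
        mul_assoc, mul_assoc]
    rw [h1, hCAs, mul_neg, mul_smul_comm, Matrix.trace_neg, Matrix.trace_smul, hBA] at hp
    simpa using hp.symm
  -- the commutator vanishes
  set D : Matrix ι ι ℂ := A * B - B * A with hD
  have hDs : Dᴴ = Bᴴ * Aᴴ - Aᴴ * Bᴴ := by
    rw [hD, conjTranspose_sub, conjTranspose_mul, conjTranspose_mul]
  have hBsA : Bᴴ * A - A * Bᴴ = 0 := by
    have h := congrArg conjTranspose hC0
    rw [hC, conjTranspose_sub, conjTranspose_mul, conjTranspose_mul, conjTranspose_conjTranspose,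
      conjTranspose_zero] at h
    exact h
  have hHBs : H * Bᴴ - Bᴴ * H = -(a • Bᴴ) := by
    have h := congrArg conjTranspose hHB
    rw [conjTranspose_sub, conjTranspose_mul, conjTranspose_mul, conjTranspose_smul, hHs,
      hareal, Complex.star_def, Complex.conj_ofReal] at h
    rw [hareal, ← h]
    abel
  have hDA : Dᴴ * A - A * Dᴴ = -(a • Bᴴ) := by
    have h : Dᴴ * A - A * Dᴴ = (H * Bᴴ - Bᴴ * H) - (Aᴴ * (Bᴴ * A - A * Bᴴ) -
        (Bᴴ * A - A * Bᴴ) * Aᴴ) := by
      rw [hDs, hH]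
      noncomm_ring
    rw [h, hBsA, hHBs]
    simp
  obtain ⟨d, hd0, hd, -⟩ := rootdim_trace D
  obtain ⟨b, hb0, hb, hbB⟩ := rootdim_trace B
  have hdb : (d : ℂ) = -(a * b) := by
    have h1 : (D * Dᴴ).trace = (B * (Dᴴ * A - A * Dᴴ)).trace := by
      conv_lhs => rw [hD, sub_mul]
      rw [Matrix.trace_sub, mul_sub, Matrix.trace_sub, ← hD, mul_assoc, Matrix.trace_mul_comm A,
        mul_assoc, mul_assoc]
    rw [← hd, h1, hDA, mul_neg, mul_smul_comm, Matrix.trace_neg, Matrix.trace_smul, hb, smul_eq_mul]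
  have hdb' : d = -(q / r * b) := by
    rw [hareal] at hdb
    exact_mod_cast hdb
  apply hbB
  have hqr : 0 < q / r := by positivity
  nlinarith

end Q101Ig
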