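import Pool.Agent.Q101.IgAp

/-!
# Project IG: the intervals of a sequence of induced systems shrink to points
-/

set_option autoImplicit false

open MeasureTheory Set Filter Topology

namespace Q101Ig

/-- measure of the intersection of a decreasing sequence of intervals -/
theorem igShrink_meas {u l : ℕ → ℝ} {ℓ : ℝ} (hanti : Antitone fun n => Ico (u n) (u n + l n))
    (hsub : ∀ n, Ico (u n) (u n + l n) ⊆ Ico (0 : ℝ) 1) (hl : Tendsto l atTop (𝓝 ℓ)) :
    leb (⋂ n, Ico (u n) (u n + l n)) = ENNReal.ofReal ℓ := by
  have h1 := tendsto_measure_iInter_atTop (μ := leb)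
    (fun n => (measurableSet_Ico (a := u n) (b := u n + l n)).nullMeasurableSet) hanti
    ⟨0, measure_ne_top _ _⟩
  have h2 : (leb ∘ fun n => Ico (u n) (u n + l n)) = fun n => ENNReal.ofReal (l n) := by
    funext n
    simp only [Function.comp_apply]
    rw [leb, Measure.restrict_apply measurableSet_Ico, inter_eq_left.2 (hsub n),
      Real.volume_Ico]
    congr 1; ring
  rw [h2] at h1
  exact tendsto_nhds_unique h1 (ENNReal.tendsto_ofReal hl)

theorem shrink : S_shrink := by
  classical
  intro d T P τ hS s hv hst
  choose c lo hc using hst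
  set len : ℕ → ℝ := fun n => (s n).b - (s n).a with hlen_def
  have hlen : Antitone len := antitone_nat_of_succ_le fun n => by
    have h1 := (hc n).len
    have h2 := (hc n).pos
    simp only [hlen_def]
    linarith
  have hl : ∀ i, Antitone fun n => (s n).l i := fun i =>
    antitone_nat_of_succ_le fun n => (hc n).mono i
  have hJ : Antitone fun n => (s n).J := antitone_nat_of_succ_le fun n => (hc n).sub
  have hlen0 : ∀ n, 0 ≤ len n := fun n => by
    have := (hv n).lt
    simp only [hlen_def]
    linarith
  have hδT : Tendsto len atTop (𝓝 (⨅ n, len n)) :=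
    tendsto_atTop_ciInf hlen ⟨0, by rintro _ ⟨n, rfl⟩; exact hlen0 n⟩
  set δ := ⨅ n, len n with hδ_def
  have hLT : ∀ i, Tendsto (fun n => (s n).l i) atTop (𝓝 (⨅ n, (s n).l i)) := fun i =>
    tendsto_atTop_ciInf (hl i) ⟨0, by rintro _ ⟨n, rfl⟩; exact (hv n).nonneg i⟩
  set L : Fin d → ℝ := fun i => ⨅ n, (s n).l i with hL_def
  have hL0 : ∀ i, 0 ≤ L i := fun i => ge_of_tendsto' (hLT i) fun n => (hv n).nonneg i
  have hLle : ∀ i n, L i ≤ (s n).l i := fun i n => (hl i).le_of_tendsto (hLT i) n
  have hδle : ∀ n, δ ≤ len n := fun n => hlen.le_of_tendsto hδT n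
  have hsum : ∑ i, L i = δ := by
    have h1 : Tendsto (fun n => ∑ i, (s n).l i) atTop (𝓝 (∑ i, L i)) :=
      tendsto_finsetSum _ fun i _ => hLT i
    have h2 : (fun n => ∑ i, (s n).l i) = len := by
      funext n
      exact (hv n).sum
    rw [h2] at h1
    exact tendsto_nhds_unique h1 hδT
  by_contra hcon
  have hδ0 : 0 ≤ δ := ge_of_tendsto' hδT hlen0
  have hδ : 0 < δ := by
    rcases hδ0.lt_or_eq with h | h
    · exact h
    · exfalso
      apply hcon
      rw [h]
      exact hδT
  have hcT : Tendsto c atTop (𝓝 0) := by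
    have h1 : Tendsto (fun n => len n - len (n + 1)) atTop (𝓝 (δ - δ)) :=
      hδT.sub (hδT.comp (tendsto_add_atTop_nat 1))
    have h2 : (fun n => len n - len (n + 1)) = c := by
      funext n
      have := (hc n).len
      simp only [hlen_def]
      linarith
    rwa [h2, sub_self] at h1
  have hNe : ∀ᶠ n in atTop, ∀ i, 0 < L i → lo n ≠ i := by
    rw [eventually_all]
    intro i
    by_cases hi : 0 < L i
    · filter_upwards [hcT.eventually (gt_mem_nhds hi)] with n hn _ h
      have h1 := (hc n).lo_len
      rw [h] at h1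
      linarith [hLle i n]
    · exact Eventually.of_forall fun n h => absurd h hi
  obtain ⟨N, hN⟩ := eventually_atTop.1 hNe
  have hword : ∀ i, 0 < L i → ∀ n, N ≤ n → (s n).w i = (s N).w i := by
    intro i hi n hn
    induction n, hn using Nat.le_induction with
    | base => rfl
    | succ n hn ih => rw [(hc n).word i (hN n hn i hi).symm, ih]
  have hI : ∀ i, 0 < L i → Antitone fun n => (s (N + n)).I i := by
    intro i hi
    apply antitone_nat_of_succ_le
    intro n
    exact (hc (N + n)).piece i (hN (N + n) (by omega) i hi).symm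
  -- inclusions
  have hIJ : ∀ n i, (s n).I i ⊆ (s n).J := fun n i => by
    rw [(hv n).ind.cover]
    exact subset_iUnion _ i
  have hI1 : ∀ n i, (s n).I i ⊆ Ico (0 : ℝ) 1 := fun n i => igAp_sub hS (hv n).ind i
  have hJ1 : ∀ n, (s n).J ⊆ Ico (0 : ℝ) 1 := fun n => by
    rw [(hv n).ind.cover]
    exact iUnion_subset (hI1 n)
  have hJeq : ∀ n, (s n).J = Ico ((s n).a) ((s n).a + len n) := fun n => by
    simp [St.J, hlen_def]
  -- the limit sets
  set Ii : Fin d → Set ℝ := fun i => ⋂ n, (s (N + n)).I i with hIi
  set Ji : Set ℝ := ⋂ n, (s (N + n)).J with hJi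
  have hsh : Tendsto (fun n => N + n) atTop atTop := tendsto_add_atTop_nat N |>.congr fun n => by
    omega
  have hmI : ∀ i, 0 < L i → leb (Ii i) = ENNReal.ofReal (L i) := by
    intro i hi
    have := igShrink_meas (u := fun n => (s (N + n)).u i) (l := fun n => (s (N + n)).l i)
      (ℓ := L i) (hI i hi) (fun n => hI1 (N + n) i) ((hLT i).comp hsh)
    exact this
  have hmJ : leb Ji = ENNReal.ofReal δ := by
    have h1 : Antitone fun n => Ico ((s (N + n)).a) ((s (N + n)).a + len (N + n)) := by
      intro m n hmn
      simp only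
      rw [← hJeq, ← hJeq]
      exact hJ (by omega)
    have := igShrink_meas (u := fun n => (s (N + n)).a) (l := fun n => len (N + n))
      (ℓ := δ) h1 (fun n => by rw [← hJeq]; exact hJ1 _) (hδT.comp hsh)
    rw [← this, hJi]
    congr 1
    exact iInter_congr fun n => hJeq _
  have hmeasI : ∀ i, MeasurableSet (Ii i) := fun i => MeasurableSet.iInter fun n =>
    measurableSet_Ico
  have hmeasJ : MeasurableSet Ji := MeasurableSet.iInter fun n => measurableSet_Ico
  set B : Finset (Fin d) := Finset.univ.filter fun i => 0 < L i with hB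
  set Ps : Set ℝ := ⋃ i ∈ B, Ii i with hPs
  have hmeasP : MeasurableSet Ps := Finset.measurableSet_biUnion _ fun i _ => hmeasI i
  have hmP : leb Ps = ENNReal.ofReal δ := by
    rw [hPs, measure_biUnion_finset]
    · have h1 : ∑ i ∈ B, leb (Ii i) = ∑ i ∈ B, ENNReal.ofReal (L i) :=
        Finset.sum_congr rfl fun i hi => hmI i (Finset.mem_filter.1 hi).2
      rw [h1, ← ENNReal.ofReal_sum_of_nonneg fun i _ => hL0 i]
      congr 1
      rw [← hsum]
      apply Finset.sum_subset (Finset.subset_univ _)
      intro i _ hi
      have : ¬ 0 < L i := fun h => hi (Finset.mem_filter.2 ⟨Finset.mem_univ _, h⟩)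
      linarith [hL0 i]
    · intro i _ j _ hij
      refine Disjoint.mono ?_ ?_ ((hv (N + 0)).ind.disj i j hij)
      · exact iInter_subset _ 0
      · exact iInter_subset _ 0
    · exact fun i _ => hmeasI i
  have hPJ : Ps ⊆ Ji := by
    intro x hx
    simp only [hPs, mem_iUnion] at hx
    obtain ⟨i, hi, hx⟩ := hx
    exact mem_iInter.2 fun n => hIJ _ i (mem_iInter.1 hx n)
  have hdiff : leb (Ji \ Ps) = 0 := by
    rw [measure_sdiff hPJ hmeasP.nullMeasurableSet (measure_ne_top _ _), hmJ, hmP, tsub_self]
  have hmp : MeasurePreserving T leb leb := hS.erg.toMeasurePreserving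
  -- bad points
  set Bad : Set ℝ := ⋃ k, T^[k] ⁻¹' (Ji \ Ps) with hBad
  have hBad0 : leb Bad = 0 := by
    apply measure_iUnion_null
    intro k
    rw [(hmp.iterate k).measure_preimage (hmeasJ.diff hmeasP).nullMeasurableSet]
    exact hdiff
  -- the orbits of the good points avoid `J N \ Ji`
  have hgood : ∀ m, ∀ x ∈ Ps, x ∉ Bad → T^[m] x ∉ (s N).J \ Ji := by
    intro m
    induction m using Nat.strong_induction_on with
    | _ m ih =>
      intro x hx hxB
      have hxi := hx
      simp only [hPs, mem_iUnion] at hxi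
      obtain ⟨i, hi, hxi⟩ := hxi
      have hLi : 0 < L i := (Finset.mem_filter.1 hi).2
      have hxN : x ∈ (s N).I i := by simpa using mem_iInter.1 hxi 0
      set r := ((s N).w i).length with hr
      have hr0 : 0 < r := List.length_pos_iff.2 ((hv N).ind.ne i)
      rcases Nat.eq_zero_or_pos m with h0 | hm0
      · subst h0
        exact fun h => h.2 (hPJ hx)
      · by_cases hmr : m < r
        · exact fun h => (hv N).ind.ret i x hxN m hm0 hmr h.1
        · have hy : T^[r] x ∈ Ji := by
            rw [hJi]
            refine mem_iInter.2 fun n => ?_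
            have h1 : (s (N + n)).w i = (s N).w i := hword i hLi _ (by omega)
            have h2 : x ∈ (s (N + n)).I i := mem_iInter.1 hxi n
            have h3 : T^[r] x = x + tr τ ((s (N + n)).w i) := by
              rw [hr, ← h1]
              exact igAp_iter hS.trans _ x ((hv (N + n)).ind.itin i x h2)
            rw [h3, (hv (N + n)).ind.bcover]
            exact mem_iUnion.2 ⟨i, x, h2, rfl⟩
          have hyB : T^[r] x ∉ Bad := by
            intro h
            apply hxB
            simp only [hBad, mem_iUnion, mem_preimage] at h ⊢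
            obtain ⟨k, hk⟩ := h
            refine ⟨k + r, ?_⟩
            rwa [Function.iterate_add_apply]
          have hyP : T^[r] x ∈ Ps := by
            by_contra h
            apply hyB
            simp only [hBad, mem_iUnion, mem_preimage]
            exact ⟨0, hy, h⟩
          have := ih (m - r) (by omega) _ hyP hyB
          rwa [← Function.iterate_add_apply, Nat.sub_add_cancel (by omega)] at this
  -- the points whose orbits meet `J N \ Ji`
  set W : Set ℝ := ⋃ m, T^[m] ⁻¹' ((s N).J \ Ji) with hW
  have hmeasD : MeasurableSet ((s N).J \ Ji) := measurableSet_Ico.diff hmeasJ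
  have hWm : MeasurableSet W := MeasurableSet.iUnion fun m => (hmp.measurable.iterate m) hmeasD
  have hinv : T ⁻¹' W ≤ᵐ[leb] W := by
    refine Eventually.of_forall fun x hx => ?_
    have h' : T x ∈ W := hx
    change x ∈ W
    simp only [hW, mem_iUnion, mem_preimage] at h' ⊢
    obtain ⟨m, hm⟩ := h'
    exact ⟨m + 1, by rwa [Function.iterate_succ_apply]⟩
  have hWpos : leb W ≠ 0 := by
    intro h
    have h1 : leb ((s N).J \ Ji) = 0 := by
      apply measure_mono_null _ h
      intro x hx
      simp only [hW, mem_iUnion, mem_preimage]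
      exact ⟨0, hx⟩
    have h2 : Ji ⊆ (s N).J := by
      intro x hx
      simpa using mem_iInter.1 hx 0
    have hJm : MeasurableSet (s N).J := measurableSet_Ico
    rw [measure_sdiff h2 hmeasJ.nullMeasurableSet (measure_ne_top _ _), hmJ, tsub_eq_zero_iff_le,
      leb, Measure.restrict_apply hJm, inter_eq_left.2 (hJ1 N), St.J, Real.volume_Ico] at h1
    have h3 := (ENNReal.ofReal_le_ofReal_iff hδ.le).1 h1
    have h4 := hδle (N + 1)
    have h5 := (hc N).len
    have h6 := (hc N).pos
    simp only [hlen_def] at h4
    linarith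
  rcases hS.erg.ae_empty_or_univ_of_preimage_ae_le hWm.nullMeasurableSet hinv with h | h
  · apply hWpos
    rw [measure_congr h]; simp
  · have h1 : leb Wᶜ = 0 := by
      rw [measure_congr h.compl]; simp
    have h2 : Ps ⊆ Wᶜ ∪ Bad := by
      intro x hx
      by_cases hxB : x ∈ Bad
      · exact Or.inr hxB
      · left
        intro hxW
        simp only [hW, mem_iUnion, mem_preimage] at hxW
        obtain ⟨m, hm⟩ := hxW
        exact hgood m x hx hxB hm
    have h3 : leb Ps = 0 := measure_mono_null h2 (measure_union_null h1 hBad0)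
    rw [hmP] at h3
    have := ENNReal.ofReal_eq_zero.1 h3
    linarith

end Q101Ig
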