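import Pool.Agent.Q101.IgS

/-!
# Regular elements of a space of skew-hermitian matrices

Job IG-15 of project IG (helper101), by helper239.
-/

set_option autoImplicit false

open Matrix
open scoped Matrix

namespace Q101Ig

section

variable {V : Type} [AddCommGroup V] [Module ℂ V]

/-- the eigenvalues of an endomorphism -/
def split_spec (T : V →ₗ[ℂ] V) : Set ℂ := {μ | ∃ w : V, w ≠ 0 ∧ T w = μ • w}

lemma split_spec_iff (T : V →ₗ[ℂ] V) (μ : ℂ) :
    μ ∈ split_spec T ↔ Module.End.HasEigenvalue T μ := by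
  constructor
  · rintro ⟨w, hw, h⟩
    exact Module.End.hasEigenvalue_of_hasEigenvector
      ⟨Module.End.mem_eigenspace_iff.2 h, hw⟩
  · intro h
    obtain ⟨w, hw⟩ := h.exists_hasEigenvector
    exact ⟨w, hw.2, hw.apply_eq_smul⟩

lemma split_finite [FiniteDimensional ℂ V] (T : V →ₗ[ℂ] V) : (split_spec T).Finite := by
  refine (Module.End.finite_hasEigenvalue T).subset fun μ hμ => ?_
  exact (split_spec_iff T μ).1 hμ

lemma split_card [FiniteDimensional ℂ V] (T : V →ₗ[ℂ] V) :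
    (split_spec T).ncard ≤ Module.finrank ℂ V := by
  have hsub : split_spec T ⊆ ((LinearMap.charpoly T).roots.toFinset : Set ℂ) := by
    intro μ hμ
    have h := (split_spec_iff T μ).1 hμ
    rw [Finset.mem_coe, Multiset.mem_toFinset, Polynomial.mem_roots (LinearMap.charpoly_monic T).ne_zero]
    exact (Module.End.hasEigenvalue_iff_isRoot_charpoly T μ).1 h
  calc (split_spec T).ncard ≤ ((LinearMap.charpoly T).roots.toFinset : Set ℂ).ncard :=
        Set.ncard_le_ncard hsub (Finset.finite_toSet _)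
    _ = (LinearMap.charpoly T).roots.toFinset.card := Set.ncard_coe_finset _
    _ ≤ Multiset.card (LinearMap.charpoly T).roots := Multiset.toFinset_card_le _
    _ ≤ (LinearMap.charpoly T).natDegree := Polynomial.card_roots' _
    _ = Module.finrank ℂ V := LinearMap.charpoly_natDegree T

lemma split_eig [FiniteDimensional ℂ V] (T : V →ₗ[ℂ] V) (E : Submodule ℂ V)
    (hE : ∀ x ∈ E, T x ∈ E) (hne : E ≠ ⊥) : ∃ ν : ℂ, ∃ w ∈ E, w ≠ 0 ∧ T w = ν • w := by
  have _ : Nontrivial E := Submodule.nontrivial_iff_ne_bot.2 hne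
  obtain ⟨ν, hν⟩ := Module.End.exists_eigenvalue (T.restrict hE)
  obtain ⟨w, hw⟩ := hν.exists_hasEigenvector
  refine ⟨ν, w, w.2, fun h => hw.2 (Subtype.ext h), ?_⟩
  have h := congrArg Subtype.val hw.apply_eq_smul
  exact h

/-- an endomorphism without Jordan blocks and with at most one eigenvalue on an invariant subspace
is scalar there -/
lemma split_scalar [FiniteDimensional ℂ V] (T : V →ₗ[ℂ] V) (E : Submodule ℂ V)
    (hE : ∀ x ∈ E, T x ∈ E)
    (hss : ∀ (ν : ℂ) (w : V), T (T w - ν • w) = ν • (T w - ν • w) → T w = ν • w)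
    (hone : ∀ (ν ν' : ℂ) (w w' : V), w ∈ E → w' ∈ E → w ≠ 0 → w' ≠ 0 → T w = ν • w →
      T w' = ν' • w' → ν = ν') : ∃ ν : ℂ, ∀ w ∈ E, T w = ν • w := by
  by_cases hbot : E = ⊥
  · refine ⟨0, fun w hw => ?_⟩
    rw [hbot, Submodule.mem_bot] at hw
    simp [hw]
  obtain ⟨ν, w₀, hw₀, hw₀ne, hw₀T⟩ := split_eig T E hE hbot
  refine ⟨ν, ?_⟩
  by_contra hcon
  push Not at hcon
  obtain ⟨w₁, hw₁, hw₁T⟩ := hcon
  set F : Submodule ℂ V := E.map (T - ν • LinearMap.id) with hF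
  have hFE : F ≤ E := by
    rintro _ ⟨x, hx, rfl⟩
    exact E.sub_mem (hE x hx) (E.smul_mem ν hx)
  have hFT : ∀ x ∈ F, T x ∈ F := by
    rintro _ ⟨x, hx, rfl⟩
    refine ⟨T x, hE x hx, ?_⟩
    simp
  have hFne : F ≠ ⊥ := by
    intro h
    have h1 : T w₁ - ν • w₁ ∈ F := ⟨w₁, hw₁, rfl⟩
    rw [h, Submodule.mem_bot, sub_eq_zero] at h1
    exact hw₁T h1
  obtain ⟨ν', u, huF, hune, huT⟩ := split_eig T F hFT hFne
  have hνν : ν' = ν := hone ν' ν u w₀ (hFE huF) hw₀ hune hw₀ne huT hw₀T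
  obtain ⟨x, hx, hxu⟩ := huF
  have hxu' : T x - ν • x = u := hxu
  rw [hνν] at huT
  rw [← hxu'] at huT
  have h2 := hss ν x huT
  apply hune
  rw [← hxu', h2, sub_self]

end

/-- the linear combination of the two coordinates separates the points of a finite set -/
lemma split_generic (P : Set (ℂ × ℂ)) (hP : P.Finite) :
    ∃ ε : ℝ, Set.InjOn (fun p : ℂ × ℂ => p.1 + (ε : ℂ) * p.2) P := by
  have hbad : (⋃ p ∈ P, ⋃ q ∈ P, {ε : ℝ | p ≠ q ∧ p.1 + (ε : ℂ) * p.2 = q.1 + (ε : ℂ) * q.2}).Finite := by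
    refine hP.biUnion fun p _ => hP.biUnion fun q _ => ?_
    refine Set.Subsingleton.finite ?_
    rintro ε ⟨hpq, hε⟩ ε' ⟨-, hε'⟩
    by_contra hne
    apply hpq
    have h1 : ((ε : ℂ) - ε') * (p.2 - q.2) = 0 := by linear_combination hε - hε'
    have h2 : (ε : ℂ) - ε' ≠ 0 := by
      rw [sub_ne_zero]
      exact_mod_cast hne
    have h3 : p.2 = q.2 := sub_eq_zero.1 ((mul_eq_zero.1 h1).resolve_left h2)
    refine Prod.ext ?_ h3
    rw [h3] at hε
    exact add_right_cancel hε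
  obtain ⟨ε, hε⟩ := hbad.infinite_compl.nonempty
  refine ⟨ε, fun p hp q hq h => ?_⟩
  by_contra hne
  apply hε
  exact Set.mem_biUnion hp (Set.mem_biUnion hq ⟨hne, h⟩)

section

variable {ι : Type} [Fintype ι]

/-- the action of a matrix on matrices by commutators and on vectors -/
noncomputable def split_D (X : Matrix ι ι ℂ) :
    (Matrix ι ι ℂ × (ι → ℂ)) →ₗ[ℂ] (Matrix ι ι ℂ × (ι → ℂ)) where
  toFun p := (X * p.1 - p.1 * X, X *ᵥ p.2)
  map_add' p q := by
    refine Prod.ext ?_ ?_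
    · change X * (p.1 + q.1) - (p.1 + q.1) * X = (X * p.1 - p.1 * X) + (X * q.1 - q.1 * X)
      noncomm_ring
    · exact Matrix.mulVec_add _ _ _
  map_smul' c p := by
    refine Prod.ext ?_ ?_
    · change X * (c • p.1) - (c • p.1) * X = c • (X * p.1 - p.1 * X)
      rw [mul_smul_comm, smul_mul_assoc, smul_sub]
    · exact Matrix.mulVec_smul _ _ _

lemma split_D_add (X Z : Matrix ι ι ℂ) (ε : ℝ) (p : Matrix ι ι ℂ × (ι → ℂ)) :
    split_D (X + ε • Z) p = split_D X p + (ε : ℂ) • split_D Z p := by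
  have hZ : ε • Z = (ε : ℂ) • Z := rfl
  rw [hZ]
  refine Prod.ext ?_ ?_
  · change (X + (ε : ℂ) • Z) * p.1 - p.1 * (X + (ε : ℂ) • Z) =
      (X * p.1 - p.1 * X) + (ε : ℂ) • (Z * p.1 - p.1 * Z)
    rw [add_mul, mul_add, smul_mul_assoc, mul_smul_comm, smul_sub]
    abel
  · change (X + (ε : ℂ) • Z) *ᵥ p.2 = X *ᵥ p.2 + (ε : ℂ) • (Z *ᵥ p.2)
    rw [Matrix.add_mulVec, Matrix.smul_mulVec]

lemma split_D_comm (X Z : Matrix ι ι ℂ) (h : X * Z = Z * X) (p : Matrix ι ι ℂ × (ι → ℂ)) :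
    split_D X (split_D Z p) = split_D Z (split_D X p) := by
  refine Prod.ext ?_ ?_
  · change X * (Z * p.1 - p.1 * Z) - (Z * p.1 - p.1 * Z) * X =
      Z * (X * p.1 - p.1 * X) - (X * p.1 - p.1 * X) * Z
    have h1 : X * (Z * p.1 - p.1 * Z) - (Z * p.1 - p.1 * Z) * X -
        (Z * (X * p.1 - p.1 * X) - (X * p.1 - p.1 * X) * Z) =
        (X * Z - Z * X) * p.1 - p.1 * (X * Z - Z * X) := by noncomm_ring
    rw [← sub_eq_zero, h1, h, sub_self]
    simp
  · change X *ᵥ (Z *ᵥ p.2) = Z *ᵥ (X *ᵥ p.2)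
    rw [Matrix.mulVec_mulVec, Matrix.mulVec_mulVec, h]

/-- the hermitian form -/
noncomputable def split_form (p q : Matrix ι ι ℂ × (ι → ℂ)) : ℂ :=
  (p.1 * q.1ᴴ).trace + p.2 ⬝ᵥ star q.2

lemma split_form_sub (p p' q : Matrix ι ι ℂ × (ι → ℂ)) :
    split_form (p - p') q = split_form p q - split_form p' q := by
  simp only [split_form, Prod.fst_sub, Prod.snd_sub, sub_mul, Matrix.trace_sub, sub_dotProduct]
  ring

lemma split_form_smul (c : ℂ) (p q : Matrix ι ι ℂ × (ι → ℂ)) :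
    split_form (c • p) q = c * split_form p q := by
  simp only [split_form, Prod.smul_fst, Prod.smul_snd, smul_mul_assoc, Matrix.trace_smul,
    smul_dotProduct, smul_eq_mul]
  ring

lemma split_form_smul_right (c : ℂ) (p q : Matrix ι ι ℂ × (ι → ℂ)) :
    split_form p (c • q) = starRingEnd ℂ c * split_form p q := by
  simp only [split_form, Prod.smul_fst, Prod.smul_snd, conjTranspose_smul, mul_smul_comm,
    Matrix.trace_smul, star_smul, dotProduct_smul, smul_eq_mul]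
  rw [Complex.star_def]
  ring

lemma split_form_zero (p : Matrix ι ι ℂ × (ι → ℂ)) (h : split_form p p = 0) : p = 0 := by
  have h1 : split_form p p = ((∑ i, ∑ j, ‖p.1 i j‖ ^ 2 + ∑ i, ‖p.2 i‖ ^ 2 : ℝ) : ℂ) := by
    simp only [split_form, Matrix.trace, Matrix.diag, Matrix.mul_apply,
      Matrix.conjTranspose_apply, dotProduct, Pi.star_apply]
    push_cast
    congr 1
    · refine Finset.sum_congr rfl fun i _ => Finset.sum_congr rfl fun j _ => ?_
      have h := Complex.mul_conj (p.1 i j)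
      rw [Complex.normSq_eq_norm_sq] at h
      push_cast at h
      exact h
    · refine Finset.sum_congr rfl fun i _ => ?_
      have h := Complex.mul_conj (p.2 i)
      rw [Complex.normSq_eq_norm_sq] at h
      push_cast at h
      exact h
  rw [h1] at h
  have h2 : ∑ i, ∑ j, ‖p.1 i j‖ ^ 2 + ∑ i, ‖p.2 i‖ ^ 2 = 0 := by exact_mod_cast h
  have n1 : 0 ≤ ∑ i, ∑ j, ‖p.1 i j‖ ^ 2 :=
    Finset.sum_nonneg fun i _ => Finset.sum_nonneg fun j _ => by positivity
  have n2 : 0 ≤ ∑ i, ‖p.2 i‖ ^ 2 := Finset.sum_nonneg fun i _ => by positivity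
  have e1 : ∑ i, ∑ j, ‖p.1 i j‖ ^ 2 = 0 := by linarith
  have e2 : ∑ i, ‖p.2 i‖ ^ 2 = 0 := by linarith
  refine Prod.ext ?_ ?_
  · ext i j
    have h3 := (Finset.sum_eq_zero_iff_of_nonneg
      (fun i _ => Finset.sum_nonneg fun j _ => by positivity)).1 e1 i (Finset.mem_univ i)
    have h4 := (Finset.sum_eq_zero_iff_of_nonneg (fun j _ => by positivity)).1
      h3 j (Finset.mem_univ j)
    simpa using h4
  · ext i
    have h3 := (Finset.sum_eq_zero_iff_of_nonneg
      (fun i _ => by positivity)).1 e2 i (Finset.mem_univ i)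
    simpa using h3

lemma split_form_D (Z : Matrix ι ι ℂ) (hZ : Zᴴ = -Z) (p q : Matrix ι ι ℂ × (ι → ℂ)) :
    split_form (split_D Z p) q = -split_form p (split_D Z q) := by
  have h1 : ((Z * p.1 - p.1 * Z) * q.1ᴴ).trace = -(p.1 * (Z * q.1 - q.1 * Z)ᴴ).trace := by
    rw [conjTranspose_sub, conjTranspose_mul, conjTranspose_mul, hZ, sub_mul, mul_sub,
      Matrix.trace_sub, Matrix.trace_sub, mul_assoc Z, Matrix.trace_mul_comm Z]
    simp only [mul_assoc, mul_neg, neg_mul, Matrix.trace_neg]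
    ring
  have h2 : (Z *ᵥ p.2) ⬝ᵥ star q.2 = -(p.2 ⬝ᵥ star (Z *ᵥ q.2)) := by
    rw [Matrix.star_mulVec, hZ, Matrix.vecMul_neg, dotProduct_neg, neg_neg,
      dotProduct_comm (Z *ᵥ p.2), Matrix.dotProduct_mulVec, dotProduct_comm]
  change ((Z * p.1 - p.1 * Z) * q.1ᴴ).trace + (Z *ᵥ p.2) ⬝ᵥ star q.2 =
    -((p.1 * (Z * q.1 - q.1 * Z)ᴴ).trace + p.2 ⬝ᵥ star (Z *ᵥ q.2))
  rw [h1, h2]
  ring

/-- no Jordan blocks -/
lemma split_ss (Z : Matrix ι ι ℂ) (hZ : Zᴴ = -Z) (ν : ℂ) (w : Matrix ι ι ℂ × (ι → ℂ))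
    (h : split_D Z (split_D Z w - ν • w) = ν • (split_D Z w - ν • w)) :
    split_D Z w = ν • w := by
  set u := split_D Z w - ν • w with hu
  have h1 : (ν + starRingEnd ℂ ν) * split_form u u = 0 := by
    have h2 : split_form (split_D Z u) u = -split_form u (split_D Z u) := split_form_D Z hZ u u
    rw [h, split_form_smul, split_form_smul_right] at h2
    linear_combination h2
  have h3 : split_form u u = -(ν + starRingEnd ℂ ν) * split_form w u := by
    have h4 : split_form u u = split_form (split_D Z w) u - ν * split_form w u := by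
      rw [← split_form_smul, ← split_form_sub]
    rw [h4, split_form_D Z hZ w u, h, split_form_smul_right]
    ring
  have h5 : split_form u u = 0 := by
    rcases mul_eq_zero.1 h1 with h6 | h6
    · rw [h3, h6]
      simp
    · exact h6
  have h7 := split_form_zero u h5
  exact sub_eq_zero.1 h7

end

/-- Job IG-15. -/
theorem split : S_split := by
  intro ι _ _ g hskew
  set n : Matrix ι ι ℂ → ℕ := fun X => (split_spec (split_D X)).ncard with hn
  -- the number of eigenvalues has a maximum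
  obtain ⟨X, hX, hmax⟩ : ∃ X ∈ g, ∀ Y ∈ g, n Y ≤ n X := by
    have hne : (n '' (g : Set (Matrix ι ι ℂ))).Nonempty := ⟨n 0, 0, g.zero_mem, rfl⟩
    have hbdd : BddAbove (n '' (g : Set (Matrix ι ι ℂ))) := by
      refine ⟨Module.finrank ℂ (Matrix ι ι ℂ × (ι → ℂ)), ?_⟩
      rintro _ ⟨Y, -, rfl⟩
      exact split_card _
    obtain ⟨X, hX, hXe⟩ := Nat.sSup_mem hne hbdd
    refine ⟨X, hX, fun Y hY => ?_⟩
    rw [hXe]
    exact le_csSup hbdd ⟨Y, hY, rfl⟩
  refine ⟨X, hX, fun Z hZ hXZ μ => ?_⟩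
  -- the joint eigenvalues
  set P : Set (ℂ × ℂ) := {p | ∃ w : Matrix ι ι ℂ × (ι → ℂ), w ≠ 0 ∧ split_D X w = p.1 • w ∧
    split_D Z w = p.2 • w} with hP
  have hPfin : P.Finite := by
    refine ((split_finite (split_D X)).prod (split_finite (split_D Z))).subset ?_
    rintro p ⟨w, hw, h1, h2⟩
    exact ⟨⟨w, hw, h1⟩, ⟨w, hw, h2⟩⟩
  -- eigenspaces of `X` are stable under `Z`
  have hstab : ∀ μ : ℂ, ∀ w ∈ Module.End.eigenspace (split_D X) μ,
      split_D Z w ∈ Module.End.eigenspace (split_D X) μ := by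
    intro μ w hw
    rw [Module.End.mem_eigenspace_iff] at hw ⊢
    rw [split_D_comm X Z hXZ, hw, map_smul]
  have hfst : Prod.fst '' P = split_spec (split_D X) := by
    apply Set.Subset.antisymm
    · rintro _ ⟨p, ⟨w, hw, h1, -⟩, rfl⟩
      exact ⟨w, hw, h1⟩
    · rintro μ ⟨w, hw, h1⟩
      have hne : Module.End.eigenspace (split_D X) μ ≠ ⊥ := by
        intro h
        have h2 : w ∈ Module.End.eigenspace (split_D X) μ := Module.End.mem_eigenspace_iff.2 h1
        rw [h, Submodule.mem_bot] at h2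
        exact hw h2
      obtain ⟨ν, u, hu, hune, huT⟩ := split_eig (split_D Z) _ (hstab μ) hne
      exact ⟨(μ, ν), ⟨u, hune, Module.End.mem_eigenspace_iff.1 hu, huT⟩, rfl⟩
  obtain ⟨ε, hε⟩ := split_generic P hPfin
  have hsub : (fun p : ℂ × ℂ => p.1 + (ε : ℂ) * p.2) '' P ⊆ split_spec (split_D (X + ε • Z)) := by
    rintro _ ⟨p, ⟨w, hw, h1, h2⟩, rfl⟩
    refine ⟨w, hw, ?_⟩
    rw [split_D_add, h1, h2, add_smul, mul_smul]
  have hcard : P.ncard ≤ n X := by
    calc P.ncard = ((fun p : ℂ × ℂ => p.1 + (ε : ℂ) * p.2) '' P).ncard :=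
          hε.ncard_image.symm
      _ ≤ n (X + ε • Z) := Set.ncard_le_ncard hsub (split_finite _)
      _ ≤ n X := hmax _ (g.add_mem hX (g.smul_mem ε hZ))
  have hinj : Set.InjOn Prod.fst P := by
    rw [← Set.ncard_image_iff hPfin]
    refine le_antisymm (Set.ncard_image_le hPfin) ?_
    rw [hfst]
    exact hcard
  obtain ⟨ν, hν⟩ := split_scalar (split_D Z) (Module.End.eigenspace (split_D X) μ) (hstab μ)
    (fun ν w h => split_ss Z (hskew Z hZ) ν w h) (by
      intro ν ν' w w' hw hw' hne hne' hT hT'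
      have h1 : (μ, ν) ∈ P := ⟨w, hne, Module.End.mem_eigenspace_iff.1 hw, hT⟩
      have h2 : (μ, ν') ∈ P := ⟨w', hne', Module.End.mem_eigenspace_iff.1 hw', hT'⟩
      exact congrArg Prod.snd (hinj h1 h2 rfl))
  refine ⟨ν, fun A hA => ?_, fun v hv => ?_⟩
  · have h1 : ((A, 0) : Matrix ι ι ℂ × (ι → ℂ)) ∈ Module.End.eigenspace (split_D X) μ := by
      rw [Module.End.mem_eigenspace_iff]
      refine Prod.ext hA ?_
      change X *ᵥ 0 = μ • 0
      simp
    exact congrArg Prod.fst (hν _ h1)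
  · have h1 : ((0, v) : Matrix ι ι ℂ × (ι → ℂ)) ∈ Module.End.eigenspace (split_D X) μ := by
      rw [Module.End.mem_eigenspace_iff]
      refine Prod.ext ?_ hv
      change X * 0 - 0 * X = μ • 0
      simp
    exact congrArg Prod.snd (hν _ h1)

end Q101Ig
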