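import Pool.Agent.Q101.IgS

/-!
# Coefficients vanish almost nowhere or everywhere (IG-19)
-/

set_option autoImplicit false

open MeasureTheory Set Filter Topology
open scoped Matrix

namespace Q101Ig

/-- the translates on which a functional vanishes on a subspace -/
def IgZero_Z {G A : Type} [Group G] [NormedRing A] [NormedAlgebra ℂ A] (ρ : G →* A)
    (φ : A →L[ℂ] ℂ) (S : Submodule ℂ A) : Set G := {θ | ∀ s ∈ S, φ (ρ θ * s) = 0}

/-- analytic functions on the line vanish almost nowhere or everywhere -/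
theorem IgZero_analytic (F : ℝ → ℂ) (hF : ∀ t, AnalyticAt ℝ F t) :
    (∀ t, F t = 0) ∨ ∀ᵐ t : ℝ, F t ≠ 0 := by
  have h := AnalyticOnNhd.eqOn_zero_or_eventually_ne_zero_of_preconnected (𝕜 := ℝ)
    (f := F) (U := univ) (fun t _ => hF t) isPreconnected_univ
  rcases h with h | h
  · left
    intro t; exact h (mem_univ t)
  · right
    have h1 := ae_restrict_le_codiscreteWithin (μ := (volume : Measure ℝ)) MeasurableSet.univ h
    rwa [Measure.restrict_univ] at h1

theorem IgZero_anal {A : Type} [NormedRing A] [NormedAlgebra ℂ A] [CompleteSpace A]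
    (φ : A →L[ℂ] ℂ) (X a s : A) (t : ℝ) :
    AnalyticAt ℝ (fun t : ℝ => φ (a * NormedSpace.exp (t • X) * s)) t := by
  have h1 : AnalyticAt ℝ (fun t : ℝ => t • X) t := by
    exact (analyticAt_id).smul analyticAt_const
  have h2 : AnalyticAt ℝ (fun t : ℝ => NormedSpace.exp (t • X)) t :=
    (NormedSpace.exp_analytic (𝕂 := ℝ) (t • X)).comp_of_eq h1 rfl
  have h3 : AnalyticAt ℝ (fun t : ℝ => a * NormedSpace.exp (t • X) * s) t :=
    (analyticAt_const.mul h2).mul analyticAt_const
  exact ((φ.restrictScalars ℝ).analyticAt _).comp_of_eq h3 rfl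

theorem IgZero_core (hR : S_haarR) (hg : S_gen) (G : Type) [Group G] [TopologicalSpace G]
    [IsTopologicalGroup G] [CompactSpace G] [ConnectedSpace G] [SecondCountableTopology G]
    [MeasurableSpace G] [BorelSpace G] (μ : Measure G) [μ.IsHaarMeasure] [IsProbabilityMeasure μ]
    (A : Type) [NormedRing A] [NormedAlgebra ℂ A] [FiniteDimensional ℂ A] (ρ : G →* A)
    (hρ : Continuous ρ) (φ : A →L[ℂ] ℂ) (h0 : μ {g | φ (ρ g) = 0} ≠ 0) :
    ∀ g, φ (ρ g) = 0 := by
  have : CompleteSpace A := FiniteDimensional.complete ℂ A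
  have := hR G μ
  -- closed sets
  have hclosedS : ∀ S : Submodule ℂ A, IsClosed (S : Set A) := fun S =>
    S.closed_of_finiteDimensional
  have hZcl : ∀ S : Submodule ℂ A, IsClosed (IgZero_Z ρ φ S) := by
    intro S
    have : IgZero_Z ρ φ S = ⋂ s ∈ S, {θ | φ (ρ θ * s) = 0} := by
      ext θ; simp [IgZero_Z]
    rw [this]
    refine isClosed_biInter fun s _ => ?_
    exact isClosed_eq (φ.continuous.comp (hρ.mul continuous_const)) continuous_const
  set δ := μ {g | φ (ρ g) = 0} with hδ
  -- a maximal subspace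
  let Cand : Set (Submodule ℂ A) := {S | (1 : A) ∈ S ∧ δ ≤ μ (IgZero_Z ρ φ S)}
  have hne : Cand.Nonempty := by
    refine ⟨Submodule.span ℂ {1}, Submodule.mem_span_singleton_self 1, ?_⟩
    apply measure_mono
    intro g hgz s hs
    obtain ⟨c, rfl⟩ := Submodule.mem_span_singleton.1 hs
    rw [mul_smul_comm, mul_one, map_smul]
    rw [mem_ofPred_eq] at hgz
    rw [hgz, smul_zero]
  obtain ⟨S, ⟨hS1, hSδ⟩, hmax⟩ :=
    WellFounded.has_min (wellFounded_gt (α := Submodule ℂ A)) Cand hne
  -- invariance under the one-parameter groups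
  have hinv : ∀ X ∈ lieOf (range ρ), ∀ t₀ : ℝ, ∀ s ∈ S, NormedSpace.exp (t₀ • X) * s ∈ S := by
    intro X hX t₀
    let S' : Submodule ℂ A := S ⊔ S.map (LinearMap.mulLeft ℂ (NormedSpace.exp (t₀ • X)))
    let W : Set G := {θ | ∀ t : ℝ, ∀ s ∈ S, φ (ρ θ * NormedSpace.exp (t • X) * s) = 0}
    have hexpc : Continuous fun t : ℝ => NormedSpace.exp (t • X) := by
      letI : NormedAlgebra ℚ A := NormedAlgebra.restrictScalars ℚ ℂ A
      exact (NormedSpace.exp_continuous).comp (continuous_id.smul continuous_const)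
    have hWcl : IsClosed W := by
      have : W = ⋂ t : ℝ, ⋂ s ∈ S, {θ | φ (ρ θ * NormedSpace.exp (t • X) * s) = 0} := by
        ext θ; simp [W]
      rw [this]
      refine isClosed_iInter fun t => isClosed_biInter fun s _ => ?_
      exact isClosed_eq (φ.continuous.comp ((hρ.mul continuous_const).mul continuous_const))
        continuous_const
    let K : Set (G × ℝ) := {p | ∀ s ∈ S, φ (ρ p.1 * NormedSpace.exp (p.2 • X) * s) = 0}
    have hKcl : IsClosed K := by
      have : K = ⋂ s ∈ S, {p : G × ℝ | φ (ρ p.1 * NormedSpace.exp (p.2 • X) * s) = 0} := by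
        ext θ; simp [K]
      rw [this]
      refine isClosed_biInter fun s _ => ?_
      exact isClosed_eq (φ.continuous.comp (((hρ.comp continuous_fst).mul
        (hexpc.comp continuous_snd)).mul continuous_const)) continuous_const
    have hK : MeasurableSet K := hKcl.measurableSet
    let ν : Measure ℝ := volume.restrict (Icc (0 : ℝ) 1)
    have hν : ν univ = 1 := by simp [ν]
    have e1 : (μ.prod ν) K = μ (IgZero_Z ρ φ S) := by
      rw [Measure.prod_apply_symm hK]
      have : ∀ t : ℝ, μ ((fun x => (x, t)) ⁻¹' K) = μ (IgZero_Z ρ φ S) := by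
        intro t
        obtain ⟨h, hh⟩ := hX t
        rw [← measure_preimage_mul_right μ h (IgZero_Z ρ φ S)]
        congr 1
        ext θ
        simp only [K, IgZero_Z, mem_preimage, mem_ofPred_eq, map_mul, hh]
      simp_rw [this]
      rw [lintegral_const, hν, mul_one]
    have e2 : (μ.prod ν) K ≤ μ W := by
      rw [Measure.prod_apply hK, ← lintegral_indicator_one hWcl.measurableSet]
      apply lintegral_mono
      intro θ
      by_cases hθ : θ ∈ W
      · rw [indicator_of_mem hθ, Pi.one_apply, ← hν]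
        exact measure_mono (subset_univ _)
      · rw [indicator_of_notMem hθ]
        simp only [W, mem_ofPred_eq, not_forall] at hθ
        obtain ⟨t₁, s₁, hs₁, h₁⟩ := hθ
        have h2 := IgZero_analytic (fun t : ℝ => φ (ρ θ * NormedSpace.exp (t • X) * s₁))
          (fun t => IgZero_anal φ X (ρ θ) s₁ t)
        rcases h2 with h2 | h2
        · exact absurd (h2 t₁) h₁
        · have h3 : (volume : Measure ℝ) (Prod.mk θ ⁻¹' K) = 0 := by
            rw [ae_iff] at h2
            refine measure_mono_null ?_ h2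
            intro t ht
            simp only [mem_ofPred_eq, not_not]
            exact ht s₁ hs₁
          exact le_of_eq (measure_mono_null (fun _ h => h)
            (Measure.absolutelyContinuous_of_le Measure.restrict_le_self h3))
    have e3 : W ⊆ IgZero_Z ρ φ S' := by
      intro θ hθ s' hs'
      obtain ⟨s1, hs1, s2, hs2, rfl⟩ := Submodule.mem_sup.1 hs'
      obtain ⟨s3, hs3, rfl⟩ := Submodule.mem_map.1 hs2
      have a1 := hθ 0 s1 hs1
      rw [zero_smul, NormedSpace.exp_zero, mul_one] at a1
      have a2 := hθ t₀ s3 hs3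
      rw [LinearMap.mulLeft_apply, mul_add, map_add, a1, ← mul_assoc, a2, add_zero]
    have hS' : S' ∈ Cand := by
      refine ⟨Submodule.mem_sup_left hS1, ?_⟩
      calc δ ≤ μ (IgZero_Z ρ φ S) := hSδ
        _ = (μ.prod ν) K := e1.symm
        _ ≤ μ W := e2
        _ ≤ μ (IgZero_Z ρ φ S') := measure_mono e3
    have hle : S ≤ S' := le_sup_left
    have hnot := hmax S' hS'
    have heq : S = S' := by
      by_contra hne'
      exact hnot (lt_of_le_of_ne hle hne')
    intro s hs
    rw [heq]
    exact Submodule.mem_sup_right (Submodule.mem_map.2 ⟨s, hs, rfl⟩)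
  -- the stabiliser of the subspace
  let H : Subgroup G :=
    { carrier := {h | ∀ s, s ∈ S ↔ ρ h * s ∈ S}
      one_mem' := by intro s; rw [map_one, one_mul]
      mul_mem' := by
        intro a b ha hb s
        rw [map_mul, mul_assoc]
        exact (hb s).trans (ha _)
      inv_mem' := by
        intro a ha s
        rw [ha (ρ a⁻¹ * s), ← mul_assoc, ← map_mul, mul_inv_cancel, map_one, one_mul] }
  have hHc : (H : Set G) = (⋂ s ∈ S, {h | ρ h * s ∈ S}) ∩ ⋂ s ∈ S, {h | ρ h⁻¹ * s ∈ S} := by
    ext h
    simp only [mem_inter_iff, mem_iInter, mem_ofPred_eq]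
    constructor
    · intro hh
      exact ⟨fun s hs => (hh s).1 hs, fun s hs => ((H.inv_mem hh) s).1 hs⟩
    · rintro ⟨h1, h2⟩ s
      refine ⟨h1 s, fun h3 => ?_⟩
      have := h2 _ h3
      rwa [← mul_assoc, ← map_mul, inv_mul_cancel, map_one, one_mul] at this
  have hHcl : IsClosed (H : Set G) := by
    rw [hHc]
    refine IsClosed.inter ?_ ?_
    · refine isClosed_biInter fun s _ => ?_
      exact (hclosedS S).preimage (hρ.mul continuous_const)
    · refine isClosed_biInter fun s _ => ?_
      exact (hclosedS S).preimage ((hρ.comp continuous_inv).mul continuous_const)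
  have hHtop : H = ⊤ := by
    refine hg G A ρ hρ H hHcl ?_
    intro h X t hX hh
    have hmem : h ∈ (H : Set G) := by
      rw [hHc]
      simp only [mem_inter_iff, mem_iInter, mem_ofPred_eq]
      refine ⟨fun s hs => ?_, fun s hs => ?_⟩
      · rw [hh]; exact hinv X hX t s hs
      · have h1 : ρ h⁻¹ = NormedSpace.exp ((-t) • X) := by
          have h2 : ρ h⁻¹ * NormedSpace.exp (t • X) = 1 := by
            rw [← hh, ← map_mul, inv_mul_cancel, map_one]
          have h3 : NormedSpace.exp (t • X) * NormedSpace.exp ((-t) • X) = 1 := by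
            have h4 : Commute (t • X) ((-t) • X) :=
              ((Commute.refl X).smul_left t).smul_right (-t)
            letI : NormedAlgebra ℚ A := NormedAlgebra.restrictScalars ℚ ℂ A
            rw [← NormedSpace.exp_add_of_commute h4, ← add_smul, add_neg_cancel, zero_smul,
              NormedSpace.exp_zero]
          calc ρ h⁻¹ = ρ h⁻¹ * (NormedSpace.exp (t • X) * NormedSpace.exp ((-t) • X)) := by
                rw [h3, mul_one]
            _ = NormedSpace.exp ((-t) • X) := by rw [← mul_assoc, h2, one_mul]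
        rw [h1]; exact hinv X hX (-t) s hs
    exact hmem
  have hall : ∀ g, ρ g ∈ S := by
    intro g
    have h1 : g ∈ H := hHtop ▸ Subgroup.mem_top g
    have h2 := (h1 1).1 hS1
    rwa [mul_one] at h2
  have hZne : (IgZero_Z ρ φ S).Nonempty := by
    by_contra hemp
    rw [not_nonempty_iff_eq_empty] at hemp
    rw [hemp, measure_empty] at hSδ
    exact h0 (nonpos_iff_eq_zero.1 hSδ)
  obtain ⟨θ, hθ⟩ := hZne
  intro g
  have h1 := hθ (ρ (θ⁻¹ * g)) (hall _)
  rwa [← map_mul, mul_inv_cancel_left] at h1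

open scoped Matrix.Norms.L2Operator in
theorem zero (hR : S_haarR) (hg : S_gen) : S_zero := by
  intro G _ _ _ _ _ _ _ _ μ _ _ f hf h0
  obtain ⟨ι, _, _, ρ, A, hρ, hfA⟩ := hf
  let ρ' : G →* Matrix ι ι ℂ := (Matrix.unitaryGroup ι ℂ).subtype.comp ρ
  have hρ' : Continuous ρ' := continuous_subtype_val.comp hρ
  let φ : Matrix ι ι ℂ →ₗ[ℂ] ℂ :=
    (Matrix.traceLinearMap ι ℂ ℂ).comp (LinearMap.mulLeft ℂ A)
  have hφ : ∀ g, LinearMap.toContinuousLinearMap φ (ρ' g) = f g := by
    intro g
    rw [hfA]; rfl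
  have h1 := IgZero_core hR hg G μ (Matrix ι ι ℂ) ρ' hρ' (LinearMap.toContinuousLinearMap φ)
    (by simp_rw [hφ]; exact h0)
  intro g
  rw [← hφ g]; exact h1 g

end Q101Ig
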