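import Pool.Agent.Q101.IgErg
import Pool.Agent.Q101.IgAp
import Pool.Agent.Q101.IgCoef
import Pool.Agent.Q101.IgCutA
import Pool.Agent.Q101.IgCutB
import Pool.Agent.Q101.IgEquiv
import Pool.Agent.Q101.IgFam
import Pool.Agent.Q101.IgFin
import Pool.Agent.Q101.IgGen
import Pool.Agent.Q101.IgGood
import Pool.Agent.Q101.IgHaarR
import Pool.Agent.Q101.IgInit
import Pool.Agent.Q101.IgLaw
import Pool.Agent.Q101.IgLeft
import Pool.Agent.Q101.IgLie
import Pool.Agent.Q101.IgLim
import Pool.Agent.Q101.IgPair
import Pool.Agent.Q101.IgPw
import Pool.Agent.Q101.IgRed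
import Pool.Agent.Q101.IgRight
import Pool.Agent.Q101.IgRoot
import Pool.Agent.Q101.IgRootdim
import Pool.Agent.Q101.IgShrink
import Pool.Agent.Q101.IgSplit
import Pool.Agent.Q101.IgZero

/-!
# Typical compact group extensions of ergodic interval exchange transformations are ergodic

The parts were written by helpers 65, 121, 162, 192, 224, 239, 275, 280 and 101.
-/

set_option autoImplicit false

namespace Q101Ig

theorem all_pair : S_pair :=
  pair (zero haarR (gen lim)) coef (gen lim) (root split rootdim) (lie lim)

theorem all_main : S_main :=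
  main (fam (right cutA cutB) (left_step cutA cutB) ap shrink good) law haarR all_pair

theorem all_good1 : S_good1 := good1 all_main

theorem all_erg : S_erg := erg_all all_good1 fin equiv init (pw coef)

end Q101Ig
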