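import Pool.Agent.Q101.IgS2

/-!
# Project IG: nontrivial characters of connected groups preserve Haar measure
-/

set_option autoImplicit false

open MeasureTheory Set Filter Topology

namespace Q101Ig

/-- nontrivial characters of connected groups are onto -/
theorem IgChar_surj (G : Type) [Group G] [TopologicalSpace G] [IsTopologicalGroup G]
    [ConnectedSpace G] (χ : G →* Circle) (hχ : Continuous χ) (hne : ∃ h, χ h ≠ 1) :
    Function.Surjective χ := by
  obtain ⟨h, hh⟩ := hne
  have hre : ((χ h : Circle) : ℂ).re < 1 := by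
    have h1 : ((χ h : Circle) : ℂ).re ≤ 1 := by
      refine (Complex.re_le_norm _).trans ?_
      rw [Circle.norm_coe]
    refine lt_of_le_of_ne h1 fun h2 => hh ?_
    have h3 : ((χ h : Circle) : ℂ).re ^ 2 + ((χ h : Circle) : ℂ).im ^ 2 = 1 := by
      have h4 := Circle.normSq_coe (χ h)
      rw [Complex.normSq_apply] at h4
      nlinarith
    have h4 : ((χ h : Circle) : ℂ).im = 0 := by
      rw [h2] at h3
      have : ((χ h : Circle) : ℂ).im ^ 2 = 0 := by linarith
      exact pow_eq_zero_iff (two_ne_zero) |>.1 this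
    refine Circle.ext ?_
    rw [Circle.coe_one]
    exact Complex.ext h2 h4
  have hrc : Continuous fun g : G => ((χ g : Circle) : ℂ).re :=
    Complex.continuous_re.comp ((by fun_prop : Continuous fun z : Circle => (z : ℂ)).comp hχ)
  -- the arc
  have harc : ∀ w : Circle, ((χ h : Circle) : ℂ).re ≤ (w : ℂ).re → w ∈ range χ := by
    intro w hw
    have h1 : (w : ℂ).re ≤ ((χ 1 : Circle) : ℂ).re := by
      rw [map_one, Circle.coe_one, Complex.one_re]
      refine (Complex.re_le_norm _).trans ?_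
      rw [Circle.norm_coe]
    obtain ⟨g, hg⟩ := mem_range_of_exists_le_of_exists_ge hrc ⟨h, hw⟩ ⟨1, h1⟩
    have hg' : ((χ g : Circle) : ℂ).re = (w : ℂ).re := hg
    have n1 := Circle.normSq_coe (χ g)
    have n2 := Circle.normSq_coe w
    rw [Complex.normSq_apply] at n1 n2
    have h2 : ((χ g : Circle) : ℂ).im ^ 2 = (w : ℂ).im ^ 2 := by
      rw [hg'] at n1
      nlinarith
    rcases sq_eq_sq_iff_eq_or_eq_neg.1 h2 with h3 | h3
    · exact ⟨g, Circle.ext (Complex.ext hg' h3)⟩
    · refine ⟨g⁻¹, Circle.ext ?_⟩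
      rw [map_inv, Circle.coe_inv_eq_conj]
      refine Complex.ext ?_ ?_
      · rw [Complex.conj_re, hg']
      · rw [Complex.conj_im, h3, neg_neg]
  intro w
  obtain ⟨θ, rfl⟩ : ∃ θ : ℝ, Circle.exp θ = w := ⟨_, Circle.exp_arg w⟩
  have hlim : Tendsto (fun n : ℕ => Real.cos (θ / ((n : ℝ) + 1))) atTop (𝓝 (Real.cos 0)) := by
    refine (Real.continuous_cos.tendsto 0).comp ?_
    exact tendsto_const_nhds.div_atTop (tendsto_natCast_atTop_atTop.atTop_add tendsto_const_nhds)
  rw [Real.cos_zero] at hlim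
  obtain ⟨n, hn⟩ := (hlim.eventually (lt_mem_nhds hre)).exists
  have h1 : Circle.exp (θ / ((n : ℝ) + 1)) ∈ range χ := by
    refine harc _ ?_
    have h2 : ((Circle.exp (θ / ((n : ℝ) + 1)) : Circle) : ℂ).re = Real.cos (θ / ((n : ℝ) + 1)) := by
      rw [Circle.coe_exp]
      exact Complex.exp_ofReal_mul_I_re _
    rw [h2]
    exact hn.le
  obtain ⟨g, hg⟩ := h1
  refine ⟨g ^ (n + 1), ?_⟩
  rw [map_pow, hg, ← Circle.exp_nsmul]
  congr 1
  rw [nsmul_eq_mul]
  push_cast
  field_simp

theorem charHaar : S_char := by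
  intro G _ _ _ _ _ _ _ _ μ _ _ χ hχ hne _ _ ν _ _ d
  refine measurePreserving_pi _ _ fun _ => ?_
  refine MonoidHom.measurePreserving hχ (IgChar_surj G χ hχ hne) ?_
  rw [measure_univ, measure_univ]

end Q101Ig

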