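import Pool.Agent.Q101.IgS2

/-!
# Scalar twisted eigenfunctions vanish for almost all values of the step function (IG-30)
-/

set_option autoImplicit false

open MeasureTheory Set Filter Topology

namespace Q101Ig

theorem IgChi_prob : IsProbabilityMeasure leb := ⟨by simp [leb]⟩

section defs

variable {d : ℕ} (T : ℝ → ℝ) (P : Fin d → Set ℝ)

/-- number of visits of the orbit of `x` in `Q` -/
noncomputable def IgChi_N (Q : Set ℝ) (n : ℕ) (x : ℝ) : ℤ :=
  birkhoffSum T (Q.indicator fun _ => (1 : ℤ)) n x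

/-- difference of the numbers of visits -/
noncomputable def IgChi_D (Q : Set ℝ) (n : ℕ) (z : ℝ × ℝ) : ℤ := IgChi_N T Q n z.1 - IgChi_N T Q n z.2

/-- the cocycle with values in the circle -/
noncomputable def IgChi_th (n : ℕ) (a : Fin d → Circle) (z : ℝ × ℝ) : Circle :=
  ∏ i, a i ^ IgChi_D T (P i) n z

/-- sums of the iterates of the twisted operator -/
noncomputable def IgChi_S (H : ℝ × ℝ → ℝ) (N : ℕ) (a : Fin d → Circle) (z : ℝ × ℝ) : ℂ :=
  ∑ n ∈ Finset.range N, (IgChi_th T P n a z : ℂ) * (H ((Prod.map T T)^[n] z) : ℂ)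

theorem IgChi_N_meas {T : ℝ → ℝ} (hT : Measurable T) {Q : Set ℝ} (hQ : MeasurableSet Q) (n : ℕ) :
    Measurable (IgChi_N T Q n) := by
  unfold IgChi_N
  simp only [birkhoffSum]
  exact Finset.measurable_sum _ fun k _ =>
    (measurable_const.indicator hQ).comp (hT.iterate k)

theorem IgChi_D_meas {T : ℝ → ℝ} (hT : Measurable T) {Q : Set ℝ} (hQ : MeasurableSet Q) (n : ℕ) :
    Measurable (IgChi_D T Q n) :=
  ((IgChi_N_meas hT hQ n).comp measurable_fst).sub ((IgChi_N_meas hT hQ n).comp measurable_snd)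

theorem IgChi_D_add (Q : Set ℝ) (m n : ℕ) (z : ℝ × ℝ) :
    IgChi_D T Q (m + n) z = IgChi_D T Q m z + IgChi_D T Q n ((Prod.map T T)^[m] z) := by
  simp only [IgChi_D, IgChi_N, birkhoffSum_add, Prod.map_iterate, Prod.map_fst, Prod.map_snd]
  ring

variable [MeasurableSpace Circle] [BorelSpace Circle]

theorem IgChi_coe_meas : Measurable fun u : Circle => (u : ℂ) := by
  have h : Continuous fun u : Circle => (u : ℂ) := continuous_subtype_val
  exact h.measurable

theorem IgChi_th_meas {T : ℝ → ℝ} (hT : Measurable T) {P : Fin d → Set ℝ}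
    (hP : ∀ i, MeasurableSet (P i)) (n : ℕ) :
    Measurable fun p : (Fin d → Circle) × (ℝ × ℝ) => ((IgChi_th T P n p.1 p.2 : Circle) : ℂ) := by
  refine IgChi_coe_meas.comp ?_
  unfold IgChi_th
  refine Finset.measurable_prod _ fun i _ => ?_
  have h1 : Measurable fun q : Circle × ℤ => q.1 ^ q.2 :=
    measurable_from_prod_countable_left fun k => (continuous_zpow k).measurable
  have h2 : Measurable fun p : (Fin d → Circle) × (ℝ × ℝ) => p.1 i :=
    (measurable_pi_apply i).comp measurable_fst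
  have h3 : Measurable fun p : (Fin d → Circle) × (ℝ × ℝ) => IgChi_D T (P i) n p.2 :=
    (IgChi_D_meas hT (hP i) n).comp measurable_snd
  exact h1.comp (h2.prodMk h3)

theorem IgChi_S_meas {T : ℝ → ℝ} (hT : Measurable T) {P : Fin d → Set ℝ}
    (hP : ∀ i, MeasurableSet (P i)) {H : ℝ × ℝ → ℝ} (hH : Measurable H) (N : ℕ) :
    Measurable fun p : (Fin d → Circle) × (ℝ × ℝ) => IgChi_S T P H N p.1 p.2 := by
  unfold IgChi_S
  refine Finset.measurable_sum _ fun n _ => ?_
  refine (IgChi_th_meas hT hP n).mul ?_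
  refine Complex.measurable_ofReal.comp (hH.comp ?_)
  exact ((hT.prodMap hT).iterate n).comp measurable_snd

omit [MeasurableSpace Circle] [BorelSpace Circle] in
theorem IgChi_S_le {H : ℝ × ℝ → ℝ} (hH : ∀ z, |H z| ≤ 1) (N : ℕ) (a : Fin d → Circle)
    (z : ℝ × ℝ) : ‖IgChi_S T P H N a z‖ ≤ N := by
  unfold IgChi_S
  calc ‖∑ n ∈ Finset.range N, (IgChi_th T P n a z : ℂ) * (H ((Prod.map T T)^[n] z) : ℂ)‖
      ≤ ∑ n ∈ Finset.range N, ‖(IgChi_th T P n a z : ℂ) * (H ((Prod.map T T)^[n] z) : ℂ)‖ :=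
        norm_sum_le _ _
    _ ≤ ∑ _n ∈ Finset.range N, (1 : ℝ) := by
        refine Finset.sum_le_sum fun n _ => ?_
        rw [norm_mul, Circle.norm_coe, one_mul, Complex.norm_real]
        exact hH _
    _ = N := by simp

/-- nontrivial characters of the circle have mean zero -/
theorem IgChi_circle (ν : Measure Circle) [ν.IsHaarMeasure] (k : ℤ) (hk : k ≠ 0) :
    ∫ u : Circle, ((u ^ k : Circle) : ℂ) ∂ν = 0 := by
  set w : Circle := Circle.exp (Real.pi / k) with hw
  have h1 : w ^ k = Circle.exp Real.pi := by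
    rw [hw, ← Circle.exp_intCast_mul]
    congr 1
    have : (k : ℝ) ≠ 0 := by exact_mod_cast hk
    field_simp
  have h2 : ((w ^ k : Circle) : ℂ) ≠ 1 := by
    rw [h1]
    intro h
    exact Circle.exp_pi_ne_one (Circle.ext h)
  have h3 := integral_mul_left_eq_self (μ := ν) (fun u : Circle => ((u ^ k : Circle) : ℂ)) w
  have h4 : ∀ u : Circle, (((w * u) ^ k : Circle) : ℂ) = ((w ^ k : Circle) : ℂ) *
      ((u ^ k : Circle) : ℂ) := by
    intro u; rw [mul_zpow]; rfl
  simp_rw [h4] at h3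
  rw [integral_const_mul] at h3
  have h5 : (((w ^ k : Circle) : ℂ) - 1) * ∫ u : Circle, ((u ^ k : Circle) : ℂ) ∂ν = 0 := by
    rw [sub_mul, one_mul, h3, sub_self]
  rcases mul_eq_zero.1 h5 with h | h
  · exact absurd (sub_eq_zero.1 h) h2
  · exact h

/-- characters of the torus -/
theorem IgChi_torus (ν : Measure Circle) [ν.IsHaarMeasure] [IsProbabilityMeasure ν]
    (k : Fin d → ℤ) (j : Fin d) :
    ‖∫ a : Fin d → Circle, ((∏ i, a i ^ k i : Circle) : ℂ) ∂(Measure.pi fun _ => ν)‖ ≤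
      if k j = 0 then 1 else 0 := by
  split_ifs with h
  · calc ‖∫ a : Fin d → Circle, ((∏ i, a i ^ k i : Circle) : ℂ) ∂(Measure.pi fun _ => ν)‖
        ≤ ∫ a : Fin d → Circle, ‖((∏ i, a i ^ k i : Circle) : ℂ)‖ ∂(Measure.pi fun _ => ν) :=
          norm_integral_le_integral_norm _
      _ = 1 := by simp
  · have h1 : ∀ a : Fin d → Circle, ((∏ i, a i ^ k i : Circle) : ℂ) =
        ∏ i, ((a i ^ k i : Circle) : ℂ) := by
      intro a
      exact map_prod (Circle.coeHom) _ _
    simp_rw [h1]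
    rw [integral_fintype_prod_eq_prod (𝕜 := ℂ) (fun (i : Fin d) (u : Circle) => ((u ^ k i : Circle) : ℂ))
      (μ := fun _ => ν), Finset.prod_eq_zero (Finset.mem_univ j) (IgChi_circle ν (k j) h)]
    simp

/-- characters of the torus are integrable -/
theorem IgChi_char_int (ν : Measure Circle) [IsProbabilityMeasure ν] (k : Fin d → ℤ) :
    Integrable (fun a : Fin d → Circle => ((∏ i, a i ^ k i : Circle) : ℂ))
      (Measure.pi fun _ => ν) := by
  have h1 : Measurable fun a : Fin d → Circle => ((∏ i, a i ^ k i : Circle) : ℂ) := by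
    refine IgChi_coe_meas.comp ?_
    refine Finset.measurable_prod _ fun i _ => ?_
    exact ((continuous_zpow (k i)).measurable).comp (measurable_pi_apply i)
  refine Integrable.of_bound h1.aestronglyMeasurable 1 (Eventually.of_forall fun a => ?_)
  rw [Circle.norm_coe]

omit [MeasurableSpace Circle] [BorelSpace Circle] in
theorem IgChi_S_sq (H : ℝ × ℝ → ℝ) (N : ℕ) (a : Fin d → Circle) (z : ℝ × ℝ) :
    ((‖IgChi_S T P H N a z‖ ^ 2 : ℝ) : ℂ) = ∑ n ∈ Finset.range N, ∑ k ∈ Finset.range N,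
      ((∏ i, a i ^ (IgChi_D T (P i) n z - IgChi_D T (P i) k z) : Circle) : ℂ) *
        ((H ((Prod.map T T)^[n] z) * H ((Prod.map T T)^[k] z) : ℝ) : ℂ) := by
  have h0 : ((‖IgChi_S T P H N a z‖ ^ 2 : ℝ) : ℂ) =
      IgChi_S T P H N a z * (starRingEnd ℂ) (IgChi_S T P H N a z) := by
    rw [Complex.mul_conj']; push_cast; rfl
  rw [h0]
  unfold IgChi_S
  rw [map_sum, Finset.sum_mul_sum]
  refine Finset.sum_congr rfl fun n _ => Finset.sum_congr rfl fun k _ => ?_
  have h1 : ((∏ i, a i ^ (IgChi_D T (P i) n z - IgChi_D T (P i) k z) : Circle) : ℂ) =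
      (IgChi_th T P n a z : ℂ) * (starRingEnd ℂ) (IgChi_th T P k a z : ℂ) := by
    rw [← Circle.coe_inv_eq_conj, ← Circle.coe_mul]
    congr 1
    unfold IgChi_th
    rw [← Finset.prod_inv_distrib, ← Finset.prod_mul_distrib]
    refine Finset.prod_congr rfl fun i _ => ?_
    rw [zpow_sub]
  rw [h1, map_mul, Complex.conj_ofReal]
  push_cast
  ring

theorem IgChi_int_a (ν : Measure Circle) [ν.IsHaarMeasure] [IsProbabilityMeasure ν]
    {H : ℝ × ℝ → ℝ} (hH : ∀ z, |H z| ≤ 1) (N : ℕ) (z : ℝ × ℝ) (j : Fin d) :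
    ∫ a, ‖IgChi_S T P H N a z‖ ^ 2 ∂(Measure.pi fun _ : Fin d => ν) ≤
      ∑ n ∈ Finset.range N, ∑ k ∈ Finset.range N,
        if IgChi_D T (P j) n z = IgChi_D T (P j) k z then (1 : ℝ) else 0 := by
  have h1 : ((∫ a, ‖IgChi_S T P H N a z‖ ^ 2 ∂(Measure.pi fun _ : Fin d => ν) : ℝ) : ℂ) =
      ∑ n ∈ Finset.range N, ∑ k ∈ Finset.range N,
        (∫ a : Fin d → Circle, ((∏ i, a i ^ (IgChi_D T (P i) n z - IgChi_D T (P i) k z) :
          Circle) : ℂ) ∂(Measure.pi fun _ => ν)) *
        ((H ((Prod.map T T)^[n] z) * H ((Prod.map T T)^[k] z) : ℝ) : ℂ) := by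
    rw [← integral_complex_ofReal]
    simp_rw [IgChi_S_sq]
    rw [integral_finset_sum]
    · refine Finset.sum_congr rfl fun n _ => ?_
      rw [integral_finset_sum]
      · refine Finset.sum_congr rfl fun k _ => ?_
        rw [integral_mul_const]
      · intro k _
        exact (IgChi_char_int ν _).mul_const _
    · intro n _
      exact integrable_finset_sum _ fun k _ => (IgChi_char_int ν _).mul_const _
  have h2 : 0 ≤ ∫ a, ‖IgChi_S T P H N a z‖ ^ 2 ∂(Measure.pi fun _ : Fin d => ν) :=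
    integral_nonneg fun a => by positivity
  rw [← abs_of_nonneg h2, ← Real.norm_eq_abs, ← Complex.norm_real, h1]
  refine (norm_sum_le _ _).trans (Finset.sum_le_sum fun n _ => ?_)
  refine (norm_sum_le _ _).trans (Finset.sum_le_sum fun k _ => ?_)
  rw [norm_mul, Complex.norm_real, Real.norm_eq_abs, abs_mul]
  have h3 := IgChi_torus ν (fun i => IgChi_D T (P i) n z - IgChi_D T (P i) k z) j
  simp only [sub_eq_zero] at h3
  have h4 : |H ((Prod.map T T)^[n] z)| * |H ((Prod.map T T)^[k] z)| ≤ 1 :=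
    mul_le_one₀ (hH _) (abs_nonneg _) (hH _)
  calc _ ≤ (if IgChi_D T (P j) n z = IgChi_D T (P j) k z then (1 : ℝ) else 0) * 1 :=
        mul_le_mul h3 h4 (by positivity) (by split_ifs <;> norm_num)
    _ = _ := mul_one _

end defs

/-- double sums of a stationary kernel -/
theorem IgChi_double (q : ℕ → ℝ) (hq : ∀ n, 0 ≤ q n) (N : ℕ) (p : ℕ → ℕ → ℝ)
    (hp : ∀ k n, p (k + n) k = q n) (hs : ∀ n k, p n k = p k n) :
    ∑ n ∈ Finset.range N, ∑ k ∈ Finset.range N, p n k ≤
      2 * N * ∑ l ∈ Finset.range N, q l := by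
  have h1 : ∀ n ∈ Finset.range N, ∑ k ∈ Finset.range N, p n k ≤ 2 * ∑ l ∈ Finset.range N, q l := by
    intro n hn
    rw [Finset.mem_range] at hn
    rw [← Finset.sum_filter_add_sum_filter_not (Finset.range N) (fun k => k ≤ n)]
    have a1 : ∑ k ∈ (Finset.range N).filter (fun k => k ≤ n), p n k ≤
        ∑ l ∈ Finset.range N, q l := by
      have e : ∑ k ∈ (Finset.range N).filter (fun k => k ≤ n), p n k =
          ∑ l ∈ ((Finset.range N).filter (fun k => k ≤ n)).image (fun k => n - k), q l := by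
        rw [Finset.sum_image]
        · refine Finset.sum_congr rfl fun k hk => ?_
          rw [Finset.mem_filter] at hk
          have := hp k (n - k)
          rwa [Nat.add_sub_cancel' hk.2] at this
        · intro k hk k' hk' h
          rw [Finset.mem_coe, Finset.mem_filter] at hk hk'
          simp only at h
          omega
      rw [e]
      refine Finset.sum_le_sum_of_subset_of_nonneg ?_ fun l _ _ => hq l
      intro l hl
      rw [Finset.mem_image] at hl
      obtain ⟨k, _, rfl⟩ := hl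
      rw [Finset.mem_range]
      omega
    have a2 : ∑ k ∈ (Finset.range N).filter (fun k => ¬ k ≤ n), p n k ≤
        ∑ l ∈ Finset.range N, q l := by
      have e : ∑ k ∈ (Finset.range N).filter (fun k => ¬ k ≤ n), p n k =
          ∑ l ∈ ((Finset.range N).filter (fun k => ¬ k ≤ n)).image (fun k => k - n), q l := by
        rw [Finset.sum_image]
        · refine Finset.sum_congr rfl fun k hk => ?_
          rw [Finset.mem_filter] at hk
          have := hp n (k - n)
          rw [Nat.add_sub_cancel' (by omega)] at this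
          rw [hs, this]
        · intro k hk k' hk' h
          rw [Finset.mem_coe, Finset.mem_filter] at hk hk'
          simp only at h
          omega
      rw [e]
      refine Finset.sum_le_sum_of_subset_of_nonneg ?_ fun l _ _ => hq l
      intro l hl
      rw [Finset.mem_image] at hl
      obtain ⟨k, hk, rfl⟩ := hl
      rw [Finset.mem_filter, Finset.mem_range] at hk
      rw [Finset.mem_range]
      omega
    linarith
  calc _ ≤ ∑ _n ∈ Finset.range N, 2 * ∑ l ∈ Finset.range N, q l := Finset.sum_le_sum h1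
    _ = _ := by rw [Finset.sum_const, Finset.card_range, nsmul_eq_mul]; ring

section meas

variable {d : ℕ} {T : ℝ → ℝ} {P : Fin d → Set ℝ}

/-- probability that the visits agree -/
theorem IgChi_q (hT : MeasurePreserving T leb leb) {Q : Set ℝ} (hQ : MeasurableSet Q) (k n : ℕ) :
    (leb.prod leb).real {z | IgChi_D T Q (k + n) z = IgChi_D T Q k z} =
      (leb.prod leb).real {z | IgChi_N T Q n z.1 = IgChi_N T Q n z.2} := by
  have _ := IgChi_prob
  have hτ : MeasurePreserving (Prod.map T T) (leb.prod leb) (leb.prod leb) := hT.prod hT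
  have h1 : {z | IgChi_D T Q (k + n) z = IgChi_D T Q k z} =
      (Prod.map T T)^[k] ⁻¹' {z | IgChi_N T Q n z.1 = IgChi_N T Q n z.2} := by
    ext z
    simp only [mem_preimage, mem_ofPred_eq, IgChi_D_add]
    rw [add_eq_left, IgChi_D, sub_eq_zero]
  rw [h1]
  refine (hτ.iterate k).measureReal_preimage ?_
  exact (measurableSet_eq_fun ((IgChi_N_meas hT.measurable hQ n).comp measurable_fst)
    ((IgChi_N_meas hT.measurable hQ n).comp measurable_snd)).nullMeasurableSet

variable [MeasurableSpace Circle] [BorelSpace Circle]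

/-- the mean square of the sums -/
theorem IgChi_int (hT : MeasurePreserving T leb leb) (hP : ∀ i, MeasurableSet (P i))
    (ν : Measure Circle) [ν.IsHaarMeasure] [IsProbabilityMeasure ν]
    {H : ℝ × ℝ → ℝ} (hHm : Measurable H) (hH : ∀ z, |H z| ≤ 1) (N : ℕ) (j : Fin d) :
    Integrable (fun a => ∫ z, ‖IgChi_S T P H N a z‖ ^ 2 ∂(leb.prod leb))
      (Measure.pi fun _ : Fin d => ν) ∧
    ∫ a, ∫ z, ‖IgChi_S T P H N a z‖ ^ 2 ∂(leb.prod leb) ∂(Measure.pi fun _ : Fin d => ν) ≤
      2 * N * ∑ n ∈ Finset.range N,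
        (leb.prod leb).real {z | IgChi_N T (P j) n z.1 = IgChi_N T (P j) n z.2} := by
  have _ := IgChi_prob
  have hint : Integrable (Function.uncurry fun (a : Fin d → Circle) (z : ℝ × ℝ) =>
      ‖IgChi_S T P H N a z‖ ^ 2) ((Measure.pi fun _ : Fin d => ν).prod (leb.prod leb)) := by
    refine Integrable.of_bound ?_ ((N : ℝ) ^ 2) (Eventually.of_forall fun p => ?_)
    · exact ((IgChi_S_meas hT.measurable hP hHm N).norm.pow_const 2).aestronglyMeasurable
    · simp only [Function.uncurry]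
      rw [Real.norm_eq_abs, abs_of_nonneg (by positivity)]
      exact pow_le_pow_left₀ (norm_nonneg _) (IgChi_S_le T P hH N p.1 p.2) 2
  refine ⟨hint.integral_prod_left, ?_⟩
  rw [integral_integral_swap hint]
  have hD : ∀ n, Measurable (IgChi_D T (P j) n) := fun n => IgChi_D_meas hT.measurable (hP j) n
  have hset : ∀ n k, MeasurableSet {z | IgChi_D T (P j) n z = IgChi_D T (P j) k z} :=
    fun n k => measurableSet_eq_fun (hD n) (hD k)
  have hite : ∀ n k, (fun z => if IgChi_D T (P j) n z = IgChi_D T (P j) k z then (1 : ℝ) else 0) =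
      {z | IgChi_D T (P j) n z = IgChi_D T (P j) k z}.indicator (fun _ => (1 : ℝ)) := by
    intro n k; ext z; simp [indicator]
  have hiteint : ∀ n k, Integrable (fun z => if IgChi_D T (P j) n z = IgChi_D T (P j) k z
      then (1 : ℝ) else 0) (leb.prod leb) := by
    intro n k
    rw [hite]
    exact (integrable_const _).indicator (hset n k)
  calc ∫ z, ∫ a, ‖IgChi_S T P H N a z‖ ^ 2 ∂(Measure.pi fun _ : Fin d => ν) ∂(leb.prod leb)
      ≤ ∫ z, ∑ n ∈ Finset.range N, ∑ k ∈ Finset.range N,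
        (if IgChi_D T (P j) n z = IgChi_D T (P j) k z then (1 : ℝ) else 0) ∂(leb.prod leb) := by
        refine integral_mono hint.integral_prod_right ?_ fun z =>
          IgChi_int_a T P ν hH N z j
        exact integrable_finset_sum _ fun n _ => integrable_finset_sum _ fun k _ => hiteint n k
    _ = ∑ n ∈ Finset.range N, ∑ k ∈ Finset.range N,
        (leb.prod leb).real {z | IgChi_D T (P j) n z = IgChi_D T (P j) k z} := by
        rw [integral_finset_sum _ fun n _ => integrable_finset_sum _ fun k _ => hiteint n k]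
        refine Finset.sum_congr rfl fun n _ => ?_
        rw [integral_finset_sum _ fun k _ => hiteint n k]
        refine Finset.sum_congr rfl fun k _ => ?_
        rw [hite, integral_indicator_const _ (hset n k)]
        simp
    _ ≤ _ := by
        refine IgChi_double _ (fun n => measureReal_nonneg) N _ (fun k n => ?_) fun n k => ?_
        · exact IgChi_q hT (hP j) k n
        · congr 1
          ext z
          exact eq_comm

/-- for almost every `a` the sums are small infinitely often -/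
theorem IgChi_small (hT : MeasurePreserving T leb leb) (hP : ∀ i, MeasurableSet (P i))
    (ν : Measure Circle) [ν.IsHaarMeasure] [IsProbabilityMeasure ν]
    {H : ℝ × ℝ → ℝ} (hHm : Measurable H) (hH : ∀ z, |H z| ≤ 1) (j : Fin d)
    (hq : ∀ ε : ℝ, 0 < ε → ∃ N₀ : ℕ, ∀ N ≥ N₀, ∑ n ∈ Finset.range N,
        (leb.prod leb).real {z | IgChi_N T (P j) n z.1 = IgChi_N T (P j) n z.2} ≤ ε * N) :
    ∀ᵐ a ∂(Measure.pi fun _ : Fin d => ν), ∀ δ : ℝ, 0 < δ → ∃ N : ℕ, 0 < N ∧
      ∫ z, ‖IgChi_S T P H N a z‖ ^ 2 ∂(leb.prod leb) < δ * (N : ℝ) ^ 2 := by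
  have _ := IgChi_prob
  have key : ∀ δ : ℝ, 0 < δ → ∀ᵐ a ∂(Measure.pi fun _ : Fin d => ν), ∃ N : ℕ, 0 < N ∧
      ∫ z, ‖IgChi_S T P H N a z‖ ^ 2 ∂(leb.prod leb) < δ * (N : ℝ) ^ 2 := by
    intro δ hδ
    rw [ae_iff]
    set Bad := {a : Fin d → Circle | ¬ ∃ N : ℕ, 0 < N ∧
      ∫ z, ‖IgChi_S T P H N a z‖ ^ 2 ∂(leb.prod leb) < δ * (N : ℝ) ^ 2} with hBad
    have hreal : (Measure.pi fun _ : Fin d => ν).real Bad ≤ 0 := by
      refine le_of_forall_pos_le_add fun ε hε => ?_
      rw [zero_add]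
      obtain ⟨N₀, hN₀⟩ := hq (δ * ε / 2) (by positivity)
      set N := N₀ + 1 with hN
      have hNpos : (0 : ℝ) < N := by positivity
      obtain ⟨hint, hle⟩ := IgChi_int hT hP ν hHm hH N j
      have h1 := mul_meas_ge_le_integral_of_nonneg
        (Eventually.of_forall fun a => integral_nonneg fun z => by positivity) hint
        (δ * (N : ℝ) ^ 2)
      have h2 : (Measure.pi fun _ : Fin d => ν).real Bad ≤ (Measure.pi fun _ : Fin d => ν).real
          {a | δ * (N : ℝ) ^ 2 ≤ ∫ z, ‖IgChi_S T P H N a z‖ ^ 2 ∂(leb.prod leb)} := by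
        refine measureReal_mono ?_
        intro a ha
        rw [hBad, mem_ofPred_eq] at ha
        push Not at ha
        exact ha N (by omega)
      have h3 := hN₀ N (by omega)
      have h4 : δ * (N : ℝ) ^ 2 * (Measure.pi fun _ : Fin d => ν).real Bad ≤
          δ * (N : ℝ) ^ 2 * ε := by
        calc _ ≤ δ * (N : ℝ) ^ 2 * (Measure.pi fun _ : Fin d => ν).real
              {a | δ * (N : ℝ) ^ 2 ≤ ∫ z, ‖IgChi_S T P H N a z‖ ^ 2 ∂(leb.prod leb)} :=
              mul_le_mul_of_nonneg_left h2 (by positivity)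
          _ ≤ _ := h1
          _ ≤ _ := hle
          _ ≤ 2 * N * (δ * ε / 2 * N) := mul_le_mul_of_nonneg_left h3 (by positivity)
          _ = _ := by ring
      exact le_of_mul_le_mul_left h4 (by positivity)
    have h0 : (Measure.pi fun _ : Fin d => ν).real Bad = 0 := le_antisymm hreal measureReal_nonneg
    rwa [measureReal_eq_zero_iff] at h0
  have hall : ∀ᵐ a ∂(Measure.pi fun _ : Fin d => ν), ∀ r : ℕ, ∃ N : ℕ, 0 < N ∧
      ∫ z, ‖IgChi_S T P H N a z‖ ^ 2 ∂(leb.prod leb) < (1 / ((r : ℝ) + 1)) * (N : ℝ) ^ 2 := by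
    rw [ae_all_iff]
    intro r
    exact key _ (by positivity)
  filter_upwards [hall] with a ha δ hδ
  obtain ⟨r, hr⟩ := exists_nat_one_div_lt hδ
  obtain ⟨N, hN, h⟩ := ha r
  refine ⟨N, hN, h.trans_le ?_⟩
  exact mul_le_mul_of_nonneg_right hr.le (by positivity)

end meas

section final

/-- a product integral over a square -/
theorem IgChi_sq_int (F : ℝ → ℂ) (s : Set ℝ) (hs : MeasurableSet s)
    (h : ∫ z, F z.1 * (starRingEnd ℂ) (F z.2) *
      (((s ×ˢ s).indicator (fun _ => (1 : ℝ)) z : ℝ) : ℂ) ∂(leb.prod leb) = 0) :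
    ∫ x in s, F x ∂leb = 0 := by
  have _ := IgChi_prob
  have h1 : ∀ z : ℝ × ℝ, F z.1 * (starRingEnd ℂ) (F z.2) *
      (((s ×ˢ s).indicator (fun _ => (1 : ℝ)) z : ℝ) : ℂ) =
      s.indicator F z.1 * (starRingEnd ℂ) (s.indicator F z.2) := by
    intro z
    by_cases h1 : z.1 ∈ s <;> by_cases h2 : z.2 ∈ s <;> simp [indicator, h1, h2]
  simp_rw [h1] at h
  rw [integral_prod_mul (μ := leb) (ν := leb) (s.indicator F)
    (fun y => (starRingEnd ℂ) (s.indicator F y)), integral_conj, integral_indicator hs,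
    Complex.mul_conj] at h
  have h2 : Complex.normSq (∫ x in s, F x ∂leb) = 0 := by exact_mod_cast h
  exact Complex.normSq_eq_zero.1 h2

/-- integrals over half-lines decide -/
theorem IgChi_zero (F : ℝ → ℂ) (hF : Measurable F) (hb : ∀ x, ‖F x‖ ≤ 1)
    (h0 : ∫ x, F x ∂leb = 0) (h : ∀ q : ℚ, ∫ x in Iio (q : ℝ), F x ∂leb = 0) :
    ∀ᵐ x ∂leb, F x = 0 := by
  have _ := IgChi_prob
  have hint : Integrable F leb :=
    Integrable.of_bound hF.aestronglyMeasurable 1 (Eventually.of_forall hb)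
  have hall : ∀ t : Set ℝ, MeasurableSet t → ∫ x in t, F x ∂leb = 0 := by
    refine MeasurableSpace.induction_on_inter
      (BorelSpace.measurable_eq.trans Real.borel_eq_generateFrom_Iio_rat)
      Real.isPiSystem_Iio_rat ?_ ?_ ?_ ?_
    · simp
    · intro t ht
      simp only [mem_iUnion, mem_singleton_iff] at ht
      obtain ⟨q, rfl⟩ := ht
      exact h q
    · intro t ht hC
      have := integral_add_compl ht hint
      rw [hC, h0, zero_add] at this
      exact this
    · intro f hd hm hC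
      rw [integral_iUnion hm hd hint.integrableOn]
      simp [hC]
  exact hint.ae_eq_zero_of_forall_setIntegral_eq_zero fun s hs _ => hall s hs

/-- a bound of an integral by the mean square -/
theorem IgChi_cs (m : Measure (ℝ × ℝ)) [IsProbabilityMeasure m] (f : ℝ × ℝ → ℂ)
    (hf : Measurable f) (M η : ℝ) (hM : ∀ z, ‖f z‖ ≤ M) (hη : 0 < η)
    (h : ∫ z, ‖f z‖ ^ 2 ∂m ≤ η ^ 2) : ∫ z, ‖f z‖ ∂m ≤ 2 * η := by
  have hint : Integrable (fun z => ‖f z‖) m := by
    refine Integrable.of_bound hf.norm.aestronglyMeasurable M (Eventually.of_forall fun z => ?_)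
    rw [norm_norm]; exact hM z
  have hint2 : Integrable (fun z => ‖f z‖ ^ 2) m := by
    refine Integrable.of_bound (hf.norm.pow_const 2).aestronglyMeasurable (M ^ 2)
      (Eventually.of_forall fun z => ?_)
    rw [Real.norm_eq_abs, abs_of_nonneg (by positivity)]
    exact pow_le_pow_left₀ (norm_nonneg _) (hM z) 2
  have h1 : ∫ z, ‖f z‖ ∂m ≤ ∫ z, (η + ‖f z‖ ^ 2 / η) ∂m := by
    refine integral_mono hint ((integrable_const _).add (hint2.div_const _)) fun z => ?_
    show ‖f z‖ ≤ η + ‖f z‖ ^ 2 / η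
    have hx0 : 0 ≤ ‖f z‖ := norm_nonneg _
    rcases le_total ‖f z‖ η with h5 | h5
    · have : 0 ≤ ‖f z‖ ^ 2 / η := by positivity
      linarith
    · have : ‖f z‖ ≤ ‖f z‖ ^ 2 / η := by
        rw [le_div_iff₀ hη, sq]
        exact mul_le_mul_of_nonneg_left h5 hx0
      linarith
  have h2 : ∫ z, (η + ‖f z‖ ^ 2 / η) ∂m = η + (∫ z, ‖f z‖ ^ 2 ∂m) / η := by
    rw [integral_add (integrable_const _) (hint2.div_const _), integral_const, integral_div]
    simp
  have h3 : (∫ z, ‖f z‖ ^ 2 ∂m) / η ≤ η := by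
    rw [div_le_iff₀ hη]
    calc _ ≤ _ := h
      _ = _ := by ring
  linarith

theorem IgChi_trans {d : ℕ} {T : ℝ → ℝ} {P : Fin d → Set ℝ} (hT : MeasurePreserving T leb leb)
    (a : Fin d → Circle) (K : ℝ × ℝ → ℂ) (hK : Measurable K) (n : ℕ)
    (hKn : ∀ᵐ z ∂(leb.prod leb), K ((Prod.map T T)^[n] z) = (IgChi_th T P n a z : ℂ) * K z)
    {H : ℝ × ℝ → ℝ} (hHm : Measurable H) :
    ∫ z, K z * (H z : ℂ) ∂(leb.prod leb) =
      ∫ z, K z * ((IgChi_th T P n a z : ℂ) * (H ((Prod.map T T)^[n] z) : ℂ))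
        ∂(leb.prod leb) := by
  have _ := IgChi_prob
  have hτ : MeasurePreserving (Prod.map T T) (leb.prod leb) (leb.prod leb) := hT.prod hT
  have hHc : Measurable fun z => (H z : ℂ) := Complex.measurable_ofReal.comp hHm
  have h1 := integral_map (μ := leb.prod leb) (φ := (Prod.map T T)^[n])
    (f := fun z => K z * (H z : ℂ)) (hτ.iterate n).measurable.aemeasurable
    (hK.mul hHc).aestronglyMeasurable
  rw [(hτ.iterate n).map_eq] at h1
  rw [h1]
  refine integral_congr_ae ?_
  filter_upwards [hKn] with z hz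
  rw [hz]; ring

theorem IgChi_th_meas_z {d : ℕ} {T : ℝ → ℝ} (hT : Measurable T) {P : Fin d → Set ℝ}
    (hP : ∀ i, MeasurableSet (P i)) (n : ℕ) (a : Fin d → Circle) :
    Measurable fun z => (IgChi_th T P n a z : ℂ) := by
  have h : ∀ z, (IgChi_th T P n a z : ℂ) = ∏ i, ((a i : ℂ) ^ IgChi_D T (P i) n z) := by
    intro z
    exact map_prod (Circle.coeHom) _ _
  simp_rw [h]
  refine Finset.measurable_prod _ fun i _ => ?_
  exact (measurable_of_countable fun k : ℤ => (a i : ℂ) ^ k).comp (IgChi_D_meas hT (hP i) n)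

theorem IgChi_S_meas_z {d : ℕ} {T : ℝ → ℝ} (hT : Measurable T) {P : Fin d → Set ℝ}
    (hP : ∀ i, MeasurableSet (P i)) {H : ℝ × ℝ → ℝ} (hH : Measurable H) (N : ℕ)
    (a : Fin d → Circle) : Measurable fun z => IgChi_S T P H N a z := by
  unfold IgChi_S
  refine Finset.measurable_sum _ fun n _ => ?_
  exact (IgChi_th_meas_z hT hP n a).mul
    (Complex.measurable_ofReal.comp (hH.comp ((hT.prodMap hT).iterate n)))

/-- invariant functions are orthogonal to test functions with small sums -/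
theorem IgChi_orth {d : ℕ} {T : ℝ → ℝ} {P : Fin d → Set ℝ} (hT : MeasurePreserving T leb leb)
    (hP : ∀ i, MeasurableSet (P i)) (a : Fin d → Circle) (K : ℝ × ℝ → ℂ) (hK : Measurable K)
    (hKb : ∀ z, ‖K z‖ ≤ 1)
    (hKn : ∀ n, ∀ᵐ z ∂(leb.prod leb), K ((Prod.map T T)^[n] z) = (IgChi_th T P n a z : ℂ) * K z)
    {H : ℝ × ℝ → ℝ} (hHm : Measurable H) (hH : ∀ z, |H z| ≤ 1)
    (hs : ∀ δ : ℝ, 0 < δ → ∃ N : ℕ, 0 < N ∧
      ∫ z, ‖IgChi_S T P H N a z‖ ^ 2 ∂(leb.prod leb) < δ * (N : ℝ) ^ 2) :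
    ∫ z, K z * (H z : ℂ) ∂(leb.prod leb) = 0 := by
  have _ := IgChi_prob
  have hτ : MeasurePreserving (Prod.map T T) (leb.prod leb) (leb.prod leb) := hT.prod hT
  have hHc : Measurable fun z => (H z : ℂ) := Complex.measurable_ofReal.comp hHm
  have e1 := fun n => IgChi_trans hT a K hK n (hKn n) hHm
  have hthm : ∀ n, Measurable fun z => (IgChi_th T P n a z : ℂ) := fun n =>
    IgChi_th_meas_z hT.measurable hP n a
  have hSm : ∀ N, Measurable fun z => IgChi_S T P H N a z := fun N =>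
    IgChi_S_meas_z hT.measurable hP hHm N a
  have hint1 : ∀ n, Integrable (fun z => K z * ((IgChi_th T P n a z : ℂ) *
      (H ((Prod.map T T)^[n] z) : ℂ))) (leb.prod leb) := by
    intro n
    refine Integrable.of_bound ?_ 1 (Eventually.of_forall fun z => ?_)
    · exact (hK.mul ((hthm n).mul (hHc.comp (hτ.iterate n).measurable))).aestronglyMeasurable
    · rw [norm_mul, norm_mul, Circle.norm_coe, one_mul, Complex.norm_real, Real.norm_eq_abs]
      exact mul_le_one₀ (hKb z) (abs_nonneg _) (hH _)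
  refine norm_le_zero_iff.1 (le_of_forall_pos_le_add fun ε hε => ?_)
  rw [zero_add]
  obtain ⟨N, hN, hNs⟩ := hs ((ε / 2) ^ 2) (by positivity)
  have hNpos : (0 : ℝ) < N := by exact_mod_cast hN
  have e2 : (N : ℂ) * ∫ z, K z * (H z : ℂ) ∂(leb.prod leb) =
      ∫ z, K z * IgChi_S T P H N a z ∂(leb.prod leb) := by
    have h1 : ∀ z, K z * IgChi_S T P H N a z = ∑ n ∈ Finset.range N,
        K z * ((IgChi_th T P n a z : ℂ) * (H ((Prod.map T T)^[n] z) : ℂ)) := by
      intro z; rw [IgChi_S, Finset.mul_sum]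
    simp_rw [h1]
    rw [integral_finset_sum _ fun n _ => hint1 n, Finset.sum_congr rfl fun n _ => (e1 n).symm,
      Finset.sum_const, Finset.card_range, nsmul_eq_mul]
  have h3 : ‖∫ z, K z * IgChi_S T P H N a z ∂(leb.prod leb)‖ ≤
      ∫ z, ‖IgChi_S T P H N a z‖ ∂(leb.prod leb) := by
    refine (norm_integral_le_integral_norm _).trans ?_
    refine integral_mono_of_nonneg (Eventually.of_forall fun z => norm_nonneg _) ?_
      (Eventually.of_forall fun z => ?_)
    · refine Integrable.of_bound (hSm N).norm.aestronglyMeasurable N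
        (Eventually.of_forall fun z => ?_)
      rw [norm_norm]
      exact IgChi_S_le T P hH N a z
    · show ‖K z * IgChi_S T P H N a z‖ ≤ ‖IgChi_S T P H N a z‖
      rw [norm_mul]
      exact mul_le_of_le_one_left (norm_nonneg _) (hKb z)
  have h4 := IgChi_cs (leb.prod leb) (fun z => IgChi_S T P H N a z) (hSm N) N (ε / 2 * N)
    (IgChi_S_le T P hH N a) (by positivity) (by rw [mul_pow]; exact hNs.le)
  rw [← e2, norm_mul, Complex.norm_natCast] at h3
  have h7 : (N : ℝ) * ‖∫ z, K z * (H z : ℂ) ∂(leb.prod leb)‖ ≤ N * ε := by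
    calc _ ≤ _ := h3
      _ ≤ _ := h4
      _ = N * ε := by ring
  exact le_of_mul_le_mul_left h7 hNpos

theorem IgChi_prod_one {d : ℕ} {P : Fin d → Set ℝ} (hd : ∀ i j, i ≠ j → Disjoint (P i) (P j))
    (a : Fin d → Circle) (x : ℝ) (j : Fin d) (hx : x ∈ P j) :
    ∏ i, a i ^ ((P i).indicator (fun _ => (1 : ℤ)) x) = a j := by
  rw [Finset.prod_eq_single j]
  · rw [indicator_of_mem hx, zpow_one]
  · intro b _ hb
    rw [indicator_of_notMem, zpow_zero]
    intro h
    exact disjoint_left.1 (hd b j hb) h hx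
  · intro h; exact absurd (Finset.mem_univ j) h

theorem chi (hn : S_nocol) : S_chi := by
  intro d T P hP hcov hdisj hT hE hex _ _ ν _ _
  have _ := IgChi_prob
  obtain ⟨j, hj0, hj1⟩ := hex
  have hτ : MeasurePreserving (Prod.map T T) (leb.prod leb) (leb.prod leb) := hT.prod hT
  -- collisions are rare
  have hq : ∀ ε : ℝ, 0 < ε → ∃ N₀ : ℕ, ∀ N ≥ N₀, ∑ n ∈ Finset.range N,
        (leb.prod leb).real {z | IgChi_N T (P j) n z.1 = IgChi_N T (P j) n z.2} ≤ ε * N := by
    refine hn ℝ leb T hT hE ((P j).indicator fun _ => (1 : ℤ)) 1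
      (measurable_const.indicator (hP j)) ?_ ?_
    · intro x
      by_cases h : x ∈ P j <;> simp [indicator, h]
    · intro l
      have h1 : ∫ x, (((P j).indicator (fun _ => (1 : ℤ)) x : ℤ) : ℝ) ∂leb = leb.real (P j) := by
        have h2 : ∀ x, (((P j).indicator (fun _ => (1 : ℤ)) x : ℤ) : ℝ) =
            (P j).indicator (fun _ => (1 : ℝ)) x := by
          intro x
          by_cases h : x ∈ P j <;> simp [indicator, h]
        simp_rw [h2]
        rw [integral_indicator_const _ (hP j)]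
        simp
      rw [h1]
      have h3 : 0 < leb.real (P j) :=
        ENNReal.toReal_pos hj0.ne' (measure_ne_top _ _)
      have h4 : leb.real (P j) < 1 := by
        have := (ENNReal.toReal_lt_toReal (measure_ne_top leb (P j)) ENNReal.one_ne_top).2 hj1
        simpa [Measure.real] using this
      intro h5
      rw [h5] at h3 h4
      have h6 : 0 < l := by exact_mod_cast h3
      have h7 : l < 1 := by exact_mod_cast h4
      omega
  -- the test functions
  let S : Option ℚ → Set ℝ := fun o => o.elim univ fun q => Iio (q : ℝ)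
  have hS : ∀ o, MeasurableSet (S o) := by
    rintro (_ | q)
    · exact MeasurableSet.univ
    · exact measurableSet_Iio
  have hae : ∀ᵐ a ∂(Measure.pi fun _ : Fin d => ν), ∀ o : Option ℚ, ∀ δ : ℝ, 0 < δ →
      ∃ N : ℕ, 0 < N ∧ ∫ z, ‖IgChi_S T P ((S o ×ˢ S o).indicator fun _ => (1 : ℝ)) N a z‖ ^ 2
        ∂(leb.prod leb) < δ * (N : ℝ) ^ 2 := by
    rw [ae_all_iff]
    intro o
    refine IgChi_small hT hP ν (measurable_const.indicator ((hS o).prod (hS o))) ?_ j hq
    intro z
    by_cases h : z ∈ S o ×ˢ S o <;> simp [indicator, h]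
  filter_upwards [hae] with a ha c F hc hF hFe
  -- normalise
  let F₁ : ℝ → ℂ := fun x => F x / (‖F x‖ : ℂ)
  have hF₁ : Measurable F₁ := hF.div (Complex.measurable_ofReal.comp hF.norm)
  have hF₁b : ∀ x, ‖F₁ x‖ ≤ 1 := by
    intro x
    simp only [F₁]
    rw [norm_div, Complex.norm_real, norm_norm]
    exact div_self_le_one _
  have hA : ∀ᵐ x ∂leb, F₁ (T x) =
      c * ((∏ i, a i ^ ((P i).indicator (fun _ => (1 : ℤ)) x) : Circle) : ℂ) * F₁ x := by
    have h1 : ∀ᵐ x ∂leb, ∀ i, x ∈ P i → F (T x) = c * (a i : ℂ) * F x := ae_all_iff.2 hFe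
    have h2 : ∀ᵐ x ∂leb, x ∈ Ico (0 : ℝ) 1 := ae_restrict_mem measurableSet_Ico
    filter_upwards [h1, h2] with x hx1 hx2
    rw [hcov] at hx2
    obtain ⟨i, hi⟩ := mem_iUnion.1 hx2
    rw [IgChi_prod_one hdisj a x i hi]
    have h3 : ‖F (T x)‖ = ‖F x‖ := by
      rw [hx1 i hi, norm_mul, norm_mul, hc, Circle.norm_coe, one_mul, one_mul]
    simp only [F₁]
    rw [h3, hx1 i hi]
    ring
  let K : ℝ × ℝ → ℂ := fun z => F₁ z.1 * (starRingEnd ℂ) (F₁ z.2)
  have hK : Measurable K := (hF₁.comp measurable_fst).mul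
    (Complex.continuous_conj.measurable.comp (hF₁.comp measurable_snd))
  have hKb : ∀ z, ‖K z‖ ≤ 1 := by
    intro z
    simp only [K]
    rw [norm_mul, RCLike.norm_conj]
    exact mul_le_one₀ (hF₁b _) (norm_nonneg _) (hF₁b _)
  have hcc : c * (starRingEnd ℂ) c = 1 := by
    rw [Complex.mul_conj, Complex.normSq_eq_norm_sq, hc]; simp
  have hK1 : ∀ᵐ z ∂(leb.prod leb), K (Prod.map T T z) =
      (IgChi_th T P 1 a z : ℂ) * K z := by
    have h1 := Measure.quasiMeasurePreserving_fst (μ := leb) (ν := leb) |>.ae hA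
    have h2 := Measure.quasiMeasurePreserving_snd (μ := leb) (ν := leb) |>.ae hA
    filter_upwards [h1, h2] with z hz1 hz2
    simp only [K, Prod.map_fst, Prod.map_snd]
    rw [hz1, hz2, map_mul, map_mul, ← Circle.coe_inv_eq_conj]
    have h3 : IgChi_th T P 1 a z = (∏ i, a i ^ ((P i).indicator (fun _ => (1 : ℤ)) z.1)) *
        (∏ i, a i ^ ((P i).indicator (fun _ => (1 : ℤ)) z.2))⁻¹ := by
      rw [← Finset.prod_inv_distrib, ← Finset.prod_mul_distrib]
      refine Finset.prod_congr rfl fun i _ => ?_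
      rw [← zpow_neg, ← zpow_add]
      simp only [IgChi_D, IgChi_N, birkhoffSum_one]
      rfl
    rw [h3, Circle.coe_mul]
    calc _ = (c * (starRingEnd ℂ) c) *
          (((∏ i, a i ^ ((P i).indicator (fun _ => (1 : ℤ)) z.1) : Circle) : ℂ) *
          (((∏ i, a i ^ ((P i).indicator (fun _ => (1 : ℤ)) z.2))⁻¹ : Circle) : ℂ)) *
          (F₁ z.1 * (starRingEnd ℂ) (F₁ z.2)) := by ring
      _ = _ := by rw [hcc, one_mul]
  have hKn : ∀ n, ∀ᵐ z ∂(leb.prod leb), K ((Prod.map T T)^[n] z) =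
      (IgChi_th T P n a z : ℂ) * K z := by
    intro n
    induction n with
    | zero =>
      refine Eventually.of_forall fun z => ?_
      have h1 : IgChi_th T P 0 a z = 1 := by
        unfold IgChi_th
        refine Finset.prod_eq_one fun i _ => ?_
        simp [IgChi_D, IgChi_N]
      rw [h1]
      simp
    | succ n ih =>
      have h1 := (hτ.iterate n).quasiMeasurePreserving.ae hK1
      filter_upwards [ih, h1] with z hz1 hz2
      rw [Function.iterate_succ_apply', hz2, hz1]
      have h2 : IgChi_th T P (n + 1) a z =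
          IgChi_th T P n a z * IgChi_th T P 1 a ((Prod.map T T)^[n] z) := by
        unfold IgChi_th
        rw [← Finset.prod_mul_distrib]
        refine Finset.prod_congr rfl fun i _ => ?_
        rw [IgChi_D_add, zpow_add]
      rw [h2, Circle.coe_mul]
      ring
  have hzero : ∀ o, ∫ x in S o, F₁ x ∂leb = 0 := by
    intro o
    refine IgChi_sq_int F₁ (S o) (hS o) ?_
    refine IgChi_orth hT hP a K hK hKb hKn (measurable_const.indicator ((hS o).prod (hS o))) ?_
      (ha o)
    intro z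
    by_cases h : z ∈ S o ×ˢ S o <;> simp [indicator, h]
  have hfin := IgChi_zero F₁ hF₁ hF₁b (by
    have := hzero none
    simpa [S] using this) fun q => hzero (some q)
  filter_upwards [hfin] with x hx
  simp only [F₁] at hx
  rcases div_eq_zero_iff.1 hx with h | h
  · exact h
  · have : ‖F x‖ = 0 := by exact_mod_cast h
    exact norm_eq_zero.1 this

end final

end Q101Ig
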