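import Pool.Agent.Q101.IgS2

/-!
# Project IG: integer coboundaries have integral zero
-/

set_option autoImplicit false

open MeasureTheory Set Filter Topology

namespace Q101Ig

/-- truncation -/
noncomputable def IgCob_cut (K : ℕ) (t : ℝ) : ℝ := max (-(K : ℝ)) (min t K)

theorem IgCob_abs (K : ℕ) (t : ℝ) : |IgCob_cut K t| ≤ K := by
  unfold IgCob_cut
  have hK : (0 : ℝ) ≤ K := by positivity
  rw [abs_le]
  exact ⟨le_max_left _ _, max_le (by linarith) (min_le_right _ _)⟩

theorem IgCob_lip (K : ℕ) (a b : ℝ) : |IgCob_cut K a - IgCob_cut K b| ≤ |a - b| := by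
  unfold IgCob_cut
  have hK : (0 : ℝ) ≤ K := by positivity
  rcases le_total a b with h | h
  · rw [abs_sub_comm, abs_sub_comm a b, abs_of_nonneg (sub_nonneg.2 h), abs_of_nonneg (sub_nonneg.2
      (max_le_max le_rfl (min_le_min h le_rfl)))]
    simp only [max_def, min_def]
    split_ifs <;> linarith
  · rw [abs_of_nonneg (sub_nonneg.2 h), abs_of_nonneg (sub_nonneg.2
      (max_le_max le_rfl (min_le_min h le_rfl)))]
    simp only [max_def, min_def]
    split_ifs <;> linarith

theorem IgCob_meas (K : ℕ) : Measurable (IgCob_cut K) := by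
  unfold IgCob_cut
  exact measurable_const.max (measurable_id.min measurable_const)

theorem IgCob_id (K : ℕ) (t : ℝ) (h : |t| ≤ K) : IgCob_cut K t = t := by
  unfold IgCob_cut
  rw [abs_le] at h
  rw [min_eq_left h.2, max_eq_right h.1]

theorem cob : S_cob := by
  intro X _ μ _ T hT ψ p l B hψ hB hp h
  have hp' : Measurable fun x => (p x : ℝ) := measurable_from_top.comp hp
  have hψ' : Measurable fun x => (ψ x : ℝ) := measurable_from_top.comp hψ
  have hm : ∀ K : ℕ, Measurable fun x => IgCob_cut K (p x) := fun K => (IgCob_meas K).comp hp'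
  have hi : ∀ K : ℕ, Integrable (fun x => IgCob_cut K (p x)) μ := fun K =>
    Integrable.of_bound (hm K).aestronglyMeasurable K
      (Eventually.of_forall fun x => by rw [Real.norm_eq_abs]; exact IgCob_abs K _)
  have hiT : ∀ K : ℕ, Integrable (fun x => IgCob_cut K (p (T x))) μ := fun K =>
    hT.integrable_comp_of_integrable (hi K)
  have h0 : ∀ K : ℕ, ∫ x, (IgCob_cut K (p (T x)) - IgCob_cut K (p x)) ∂μ = 0 := by
    intro K
    rw [integral_sub (hiT K) (hi K)]
    have h1 : ∫ x, IgCob_cut K (p (T x)) ∂μ = ∫ y, IgCob_cut K (p y) ∂(Measure.map T μ) :=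
      (integral_map hT.measurable.aemeasurable (hm K).aestronglyMeasurable).symm
    rw [h1, hT.map_eq, sub_self]
  have hbd : ∀ x, |(ψ x : ℝ) - l| ≤ (B : ℝ) + |(l : ℝ)| := by
    intro x
    have h1 : |(ψ x : ℝ)| ≤ B := by exact_mod_cast hB x
    exact (abs_sub _ _).trans (by linarith)
  have hlim := tendsto_integral_of_dominated_convergence (μ := μ)
    (F := fun (K : ℕ) x => IgCob_cut K (p (T x)) - IgCob_cut K (p x))
    (f := fun x => (ψ x : ℝ) - l) (fun _ => (B : ℝ) + |(l : ℝ)|)
    (fun K => ((hiT K).sub (hi K)).aestronglyMeasurable) (integrable_const _) (by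
      intro K
      filter_upwards [h] with x hx
      rw [Real.norm_eq_abs]
      refine (IgCob_lip K _ _).trans ?_
      have h1 : (p (T x) : ℝ) - p x = (ψ x : ℝ) - l := by
        rw [hx]
        push_cast
        ring
      rw [h1]
      exact hbd x) (by
      filter_upwards [h] with x hx
      have h1 : (p (T x) : ℝ) - p x = (ψ x : ℝ) - l := by
        rw [hx]
        push_cast
        ring
      obtain ⟨N, hN⟩ := exists_nat_ge (max |(p (T x) : ℝ)| |(p x : ℝ)|)
      refine tendsto_const_nhds.congr' ?_
      filter_upwards [eventually_ge_atTop N] with K hK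
      have hK' : (N : ℝ) ≤ K := by exact_mod_cast hK
      rw [IgCob_id K _ ((le_max_left _ _).trans (hN.trans hK')),
        IgCob_id K _ ((le_max_right _ _).trans (hN.trans hK')), h1])
  simp only [h0] at hlim
  have h2 := tendsto_nhds_unique hlim tendsto_const_nhds
  have hψi : Integrable (fun x => (ψ x : ℝ)) μ :=
    Integrable.of_bound hψ'.aestronglyMeasurable B
      (Eventually.of_forall fun x => by rw [Real.norm_eq_abs]; exact_mod_cast hB x)
  rw [integral_sub hψi (integrable_const _), integral_const] at h2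
  simp only [probReal_univ, one_smul] at h2
  linarith

end Q101Ig

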