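import Pool.Agent.Q101.IgS2
import Pool.Agent.W880.BQ.WM
import Pool.Agent.H701R3.BR.Koop

/-!
# Without eigenfunctions the correlations tend to zero in the mean (IG-26, helper121)
-/

set_option autoImplicit false

open MeasureTheory Set Filter Topology

namespace Q101Ig

open Pool.Agent.H701R3.BR

theorem IgEigCorr_orth {Z : Type} [MeasurableSpace Z] (ρ : Measure Z) [IsProbabilityMeasure ρ]
    (e : Z ≃ᵐ Z) (herg : Ergodic e ρ)
    (hcon : ∀ (c : ℂ) (f : Z → ℂ), ‖c‖ = 1 → Measurable f → (∀ z, ‖f z‖ ≤ 1) →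
      (∀ᵐ z ∂ρ, f (e z) = c * f z) → ∃ a : ℂ, ∀ᵐ z ∂ρ, f z = a)
    (g : Z → ℂ) (h0 : ∫ z, g z ∂ρ = 0) (w : Lp ℂ 2 ρ) (hw : (w : Z → ℂ) =ᵐ[ρ] g) (θ : Circle)
    (v : Lp ℂ 2 ρ) (hv : KU e herg.toMeasurePreserving v = (θ : ℂ) • v) : inner ℂ v w = 0 := by
  have hT := herg.toMeasurePreserving
  have hvm : Measurable (v : Z → ℂ) := (Lp.stronglyMeasurable v).measurable
  have h1 : ∀ᵐ z ∂ρ, v (e z) = (θ : ℂ) * v z := by
    have h2 := KU_ae e hT v
    rw [hv] at h2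
    filter_upwards [h2, Lp.coeFn_smul (θ : ℂ) v] with z h3 h4
    rw [← h3, h4]
    rfl
  have h2 : (fun z => ‖v z‖) ∘ e =ᵐ[ρ] fun z => ‖v z‖ := by
    filter_upwards [h1] with z hz
    simp only [Function.comp_apply, hz, norm_mul, Circle.norm_coe, one_mul]
  obtain ⟨b, hb⟩ := herg.ae_eq_const_of_ae_eq_comp_ae hvm.norm.aestronglyMeasurable h2
  have hconst : ∃ a : ℂ, ∀ᵐ z ∂ρ, v z = a := by
    rcases le_or_gt b 0 with hb0 | hb0
    · refine ⟨0, ?_⟩
      filter_upwards [hb] with z hz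
      have h3 : ‖v z‖ ≤ 0 := by
        have : ‖v z‖ = b := hz
        linarith
      exact norm_le_zero_iff.1 h3
    · obtain ⟨a, ha⟩ := hcon θ (fun z => v z / ((max ‖v z‖ b : ℝ) : ℂ)) (Circle.norm_coe θ) (by
        refine hvm.div ?_
        exact Complex.measurable_ofReal.comp (hvm.norm.max measurable_const)) (fun z => by
        have h3 : 0 < max ‖v z‖ b := lt_max_of_lt_right hb0
        rw [norm_div, Complex.norm_real, Real.norm_eq_abs, abs_of_pos h3, div_le_one h3]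
        exact le_max_left _ _) (by
        filter_upwards [h1] with z hz
        rw [hz, norm_mul, Circle.norm_coe, one_mul, mul_div_assoc])
      refine ⟨a * b, ?_⟩
      filter_upwards [ha, hb] with z h3 h4
      have h5 : ‖v z‖ = b := h4
      rw [h5, max_self] at h3
      have h6 : (b : ℂ) ≠ 0 := by exact_mod_cast hb0.ne'
      rw [← h3]
      field_simp
  obtain ⟨a, ha⟩ := hconst
  rw [L2.inner_def]
  have h3 : ∫ z, inner ℂ (v z) (w z) ∂ρ = ∫ z, g z * (starRingEnd ℂ) a ∂ρ := by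
    refine integral_congr_ae ?_
    filter_upwards [ha, hw] with z h4 h5
    rw [h4, h5, RCLike.inner_apply]
  rw [h3, integral_mul_const, h0, zero_mul]

theorem eigCorr : S_eigCorr := by
  intro Z _ ρ _ e herg hcon g hg hb h0 ε hε
  have hT := herg.toMeasurePreserving
  have hgL : MemLp g 2 ρ := MemLp.of_bound hg.aestronglyMeasurable 1 (ae_of_all _ hb)
  have hee : (hgL.toLp g : Z → ℂ) =ᵐ[ρ] g := hgL.coeFn_toLp
  obtain ⟨L0, hL0⟩ := Pool.Agent.W880.BQ.wm (Lp ℂ 2 ρ) (KU e hT) (hgL.toLp g)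
    (fun θ v hv => IgEigCorr_orth ρ e herg hcon g h0 (hgL.toLp g) hee θ v hv) ε hε
  refine ⟨L0, fun N hN => ?_⟩
  refine le_trans (le_of_eq ?_) (hL0 N hN 0)
  refine Finset.sum_congr rfl fun n _ => ?_
  rw [norm_inner_symm, L2.inner_def, zero_add]
  congr 1
  refine integral_congr_ae ?_
  have h1 := KU_pow_ae e hT (hgL.toLp g) (n : ℤ)
  have h2 : ∀ᵐ z ∂ρ, (hgL.toLp g) ((⇑e)^[n] z) = g ((⇑e)^[n] z) :=
    (hT.iterate n).quasiMeasurePreserving.ae hee
  filter_upwards [h1, h2, hee] with z h3 h4 h5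
  rw [h3, pw_nat, h4, h5, RCLike.inner_apply]

end Q101Ig
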