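import Pool.Agent.Q101.IgS2

/-!
# Almost every `g` is good for all multipliers (IG-33)
-/

set_option autoImplicit false

open MeasureTheory Set Filter Topology
open scoped Matrix Kronecker

namespace Q101Ig

section

variable {G ι : Type} [Group G] [Fintype ι] [DecidableEq ι]

theorem IgGoodc_map_mul (A B : Matrix ι ι ℂ) :
    (A * B).map (starRingEnd ℂ) = A.map (starRingEnd ℂ) * B.map (starRingEnd ℂ) := by
  ext i j
  simp [Matrix.mul_apply]

/-- the representation `ρ ⊗ conj ρ` -/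
def IgGoodc_Ad (ρ : G →* Matrix.unitaryGroup ι ℂ) : G →* Matrix.unitaryGroup (ι × ι) ℂ where
  toFun g := ⟨(ρ g : Matrix ι ι ℂ) ⊗ₖ ((ρ g : Matrix ι ι ℂ).map (starRingEnd ℂ)), by
    rw [Matrix.mem_unitaryGroup_iff']
    have h1 := Matrix.mem_unitaryGroup_iff'.1 (ρ g).2
    rw [Matrix.star_eq_conjTranspose] at h1 ⊢
    rw [Matrix.conjTranspose_kronecker, ← Matrix.mul_kronecker_mul, h1]
    have h2 : ((ρ g : Matrix ι ι ℂ).map (starRingEnd ℂ))ᴴ =
        ((ρ g : Matrix ι ι ℂ)ᴴ).map (starRingEnd ℂ) := by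
      ext i j; simp
    rw [h2, ← IgGoodc_map_mul, h1]
    have h3 : (1 : Matrix ι ι ℂ).map (starRingEnd ℂ) = 1 := by
      ext i j
      by_cases h : i = j <;> simp [Matrix.one_apply, h]
    rw [h3, Matrix.one_kronecker_one]⟩
  map_one' := by
    apply Subtype.ext
    have h3 : (1 : Matrix ι ι ℂ).map (starRingEnd ℂ) = 1 := by
      ext i j
      by_cases h : i = j <;> simp [Matrix.one_apply, h]
    show ((ρ 1 : Matrix.unitaryGroup ι ℂ) : Matrix ι ι ℂ) ⊗ₖ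
      (((ρ 1 : Matrix.unitaryGroup ι ℂ) : Matrix ι ι ℂ).map (starRingEnd ℂ)) = 1
    rw [map_one]
    show (1 : Matrix ι ι ℂ) ⊗ₖ ((1 : Matrix ι ι ℂ).map (starRingEnd ℂ)) = 1
    rw [h3, Matrix.one_kronecker_one]
  map_mul' g h := by
    apply Subtype.ext
    show ((ρ (g * h) : Matrix.unitaryGroup ι ℂ) : Matrix ι ι ℂ) ⊗ₖ
      (((ρ (g * h) : Matrix.unitaryGroup ι ℂ) : Matrix ι ι ℂ).map (starRingEnd ℂ)) =
      ((ρ g : Matrix ι ι ℂ) ⊗ₖ ((ρ g : Matrix ι ι ℂ).map (starRingEnd ℂ))) *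
      ((ρ h : Matrix ι ι ℂ) ⊗ₖ ((ρ h : Matrix ι ι ℂ).map (starRingEnd ℂ)))
    have h1 : ((ρ (g * h) : Matrix.unitaryGroup ι ℂ) : Matrix ι ι ℂ) =
        (ρ g : Matrix ι ι ℂ) * (ρ h : Matrix ι ι ℂ) := by rw [map_mul]; rfl
    rw [h1, IgGoodc_map_mul, Matrix.mul_kronecker_mul]

theorem IgGoodc_Ad_coe (ρ : G →* Matrix.unitaryGroup ι ℂ) (g : G) :
    (IgGoodc_Ad ρ g : Matrix (ι × ι) (ι × ι) ℂ) =
      (ρ g : Matrix ι ι ℂ) ⊗ₖ ((ρ g : Matrix ι ι ℂ).map (starRingEnd ℂ)) := rfl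

theorem IgGoodc_Ad_cont [TopologicalSpace G] (ρ : G →* Matrix.unitaryGroup ι ℂ)
    (hρ : Continuous ρ) : Continuous (IgGoodc_Ad ρ) := by
  refine Continuous.subtype_mk ?_ _
  have h1 : Continuous fun g => (ρ g : Matrix ι ι ℂ) := continuous_subtype_val.comp hρ
  refine continuous_matrix fun i j => ?_
  simp only [Matrix.kroneckerMap_apply, Matrix.map_apply]
  exact (h1.matrix_elem i.1 j.1).mul
    (Complex.continuous_conj.comp (h1.matrix_elem i.2 j.2))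

/-- the rank one tensor of a vector -/
def IgGoodc_sq (v : ι → ℂ) : ι × ι → ℂ := fun p => v p.1 * (starRingEnd ℂ) (v p.2)

theorem IgGoodc_mulVec (M : Matrix ι ι ℂ) (v : ι → ℂ) :
    (M ⊗ₖ (M.map (starRingEnd ℂ))) *ᵥ IgGoodc_sq v = IgGoodc_sq (M *ᵥ v) := by
  ext p
  simp only [Matrix.mulVec, dotProduct, IgGoodc_sq, Matrix.kroneckerMap_apply, Matrix.map_apply,
    Fintype.sum_prod_type, map_sum, map_mul, Finset.sum_mul_sum]
  refine Finset.sum_congr rfl fun i _ => Finset.sum_congr rfl fun j _ => ?_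
  ring

theorem IgGoodc_smul (c : ℂ) (hc : ‖c‖ = 1) (v : ι → ℂ) :
    IgGoodc_sq (c • v) = IgGoodc_sq v := by
  ext p
  have h1 : c * (starRingEnd ℂ) c = 1 := by
    rw [Complex.mul_conj, Complex.normSq_eq_norm_sq, hc]; simp
  simp only [IgGoodc_sq, Pi.smul_apply, smul_eq_mul, map_mul]
  calc c * v p.1 * ((starRingEnd ℂ) c * (starRingEnd ℂ) (v p.2))
      = (c * (starRingEnd ℂ) c) * (v p.1 * (starRingEnd ℂ) (v p.2)) := by ring
    _ = _ := by rw [h1, one_mul]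

/-- equal tensors: proportional vectors -/
theorem IgGoodc_prop (v w : ι → ℂ) (hv : v ≠ 0) (h : IgGoodc_sq w = IgGoodc_sq v) :
    ∃ c : ℂ, w = c • v := by
  obtain ⟨j, hj⟩ := Function.ne_iff.1 hv
  have hj' : v j ≠ 0 := hj
  have h1 : w j * (starRingEnd ℂ) (w j) = v j * (starRingEnd ℂ) (v j) := congrFun h (j, j)
  have h2 : w j ≠ 0 := by
    intro h0
    rw [h0, zero_mul] at h1
    exact (mul_ne_zero hj' ((map_ne_zero _).2 hj')) h1.symm
  have h3 : (starRingEnd ℂ) (w j) ≠ 0 := (map_ne_zero _).2 h2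
  refine ⟨(starRingEnd ℂ) (v j) / (starRingEnd ℂ) (w j), ?_⟩
  ext i
  have h4 : w i * (starRingEnd ℂ) (w j) = v i * (starRingEnd ℂ) (v j) := congrFun h (i, j)
  rw [Pi.smul_apply, smul_eq_mul, div_mul_eq_mul_div, eq_div_iff h3, h4]
  ring

theorem IgGoodc_inner (U : Matrix.unitaryGroup ι ℂ) (v w : ι → ℂ) :
    star ((U : Matrix ι ι ℂ) *ᵥ v) ⬝ᵥ ((U : Matrix ι ι ℂ) *ᵥ w) = star v ⬝ᵥ w := by
  have h := Matrix.mem_unitaryGroup_iff'.1 U.2
  rw [Matrix.star_mulVec, ← Matrix.dotProduct_mulVec, Matrix.mulVec_mulVec,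
    ← Matrix.star_eq_conjTranspose, h, Matrix.one_mulVec]

/-- the coefficient along an eigenvector -/
theorem IgGoodc_coef (U : Matrix.unitaryGroup ι ℂ) (χ : Circle) (b w : ι → ℂ)
    (hb : (U : Matrix ι ι ℂ) *ᵥ b = (χ : ℂ) • b) :
    star b ⬝ᵥ ((U : Matrix ι ι ℂ) *ᵥ w) = (χ : ℂ) * (star b ⬝ᵥ w) := by
  have h1 := IgGoodc_inner U b w
  rw [hb, star_smul, smul_dotProduct, smul_eq_mul] at h1
  have h3 : (χ : ℂ) * star (χ : ℂ) = 1 := by
    have := Complex.mul_conj (χ : ℂ)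
    rw [Circle.normSq_coe] at this
    simpa using this
  calc star b ⬝ᵥ ((U : Matrix ι ι ℂ) *ᵥ w)
      = ((χ : ℂ) * star (χ : ℂ)) * (star b ⬝ᵥ ((U : Matrix ι ι ℂ) *ᵥ w)) := by rw [h3, one_mul]
    _ = (χ : ℂ) * (star (χ : ℂ) * (star b ⬝ᵥ ((U : Matrix ι ι ℂ) *ᵥ w))) := by ring
    _ = (χ : ℂ) * (star b ⬝ᵥ w) := by rw [h1]

end

/-- Haar probability on the circle -/
theorem IgGoodc_haar [MeasurableSpace Circle] [BorelSpace Circle] :
    ∃ ν : Measure Circle, ν.IsHaarMeasure ∧ IsProbabilityMeasure ν := by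
  let K₀ : TopologicalSpace.PositiveCompacts Circle := ⊤
  refine ⟨Measure.haarMeasure K₀, inferInstance, ⟨?_⟩⟩
  have h := Measure.haarMeasure_self (K₀ := K₀)
  have h2 : (K₀ : Set Circle) = univ := TopologicalSpace.PositiveCompacts.coe_top
  rwa [h2] at h

theorem goodc (h1 : S_good1) (hj : S_joint) (hc : S_chi) (hch : S_char) : S_goodc := by
  intro d T P τ hS hE hP s₀ hv₀ ha₀ hb₀ hN₀ G _ _ _ _ _ _ _ _ μ _ _ ι _ _ ρ hρ
  -- the tensor square
  have hA := h1 d T P τ hS s₀ hv₀ ha₀ hb₀ hN₀ G μ (ι × ι) (IgGoodc_Ad ρ) (IgGoodc_Ad_cont ρ hρ)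
  -- joint eigenvectors
  obtain ⟨n, b, χ, hχc, hχ, hdet⟩ := hj G ι ρ hρ
  have hB : ∀ᵐ g ∂(Measure.pi fun _ : Fin d => μ), ∀ k : Fin n, (∃ h, χ k h ≠ 1) →
      ∀ (c : ℂ) (F : ℝ → ℂ), ‖c‖ = 1 → Measurable F →
      (∀ j, ∀ᵐ x ∂leb, x ∈ P j → F (T x) = c * (χ k (g j) : ℂ) * F x) → ∀ᵐ x ∂leb, F x = 0 := by
    rw [ae_all_iff]
    intro k
    by_cases hk : ∃ h, χ k h ≠ 1
    · let _ : MeasurableSpace Circle := borel Circle
      have _ : BorelSpace Circle := ⟨rfl⟩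
      obtain ⟨ν, _, _⟩ := IgGoodc_haar
      have hmp := hch G μ (χ k) (hχc k) hk ν d
      have h2 := hc d T P hS.meas hS.cover hS.disj hS.erg.toMeasurePreserving hE hP ν
      filter_upwards [hmp.quasiMeasurePreserving.ae h2] with g hg _
      exact hg
    · exact Eventually.of_forall fun g hk' => absurd hk' hk
  filter_upwards [hA, hB] with g hgA hgB c hcn F hF hFe
  -- `F x` is zero or a joint eigenvector
  have h3 : ∀ᵐ x ∂leb, ∀ h : G, (IgGoodc_Ad ρ h : Matrix (ι × ι) (ι × ι) ℂ) *ᵥ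
      IgGoodc_sq (F x) = IgGoodc_sq (F x) := by
    refine hgA (fun x => IgGoodc_sq (F x)) ?_ ?_
    · refine measurable_pi_lambda _ fun p => ?_
      have hm := fun i => (measurable_pi_apply i).comp hF
      exact (hm p.1).mul (Complex.continuous_conj.measurable.comp (hm p.2))
    · intro j
      filter_upwards [hFe j] with x hx hxj
      rw [hx hxj, IgGoodc_smul c hcn, one_smul, IgGoodc_Ad_coe, IgGoodc_mulVec]
  have h4 : ∀ᵐ x ∂leb, ∀ k : Fin n, (∃ h, χ k h ≠ 1) → star (b k) ⬝ᵥ F x = 0 := by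
    rw [ae_all_iff]
    intro k
    by_cases hk : ∃ h, χ k h ≠ 1
    · have h5 := hgB k hk c (fun x => star (b k) ⬝ᵥ F x) hcn ?_ ?_
      · filter_upwards [h5] with x hx _
        exact hx
      · have hm := fun i => (measurable_pi_apply i).comp hF
        simp only [dotProduct]
        exact Finset.measurable_sum _ fun i _ => (hm i).const_mul _
      · intro j
        filter_upwards [hFe j] with x hx hxj
        rw [hx hxj, dotProduct_smul, IgGoodc_coef (ρ (g j)) (χ k (g j)) (b k) (F x) (hχ k (g j)),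
          smul_eq_mul, mul_assoc]
    · exact Eventually.of_forall fun x hk' => absurd hk' hk
  filter_upwards [h3, h4] with x hx3 hx4 h
  by_cases h0 : F x = 0
  · rw [h0, Matrix.mulVec_zero]
  · have he : ∀ h : G, ∃ c : ℂ, (ρ h : Matrix ι ι ℂ) *ᵥ F x = c • F x := by
      intro h
      refine IgGoodc_prop _ _ h0 ?_
      have := hx3 h
      rwa [IgGoodc_Ad_coe, IgGoodc_mulVec] at this
    obtain ⟨k, hk1, hk2⟩ := hdet (F x) h0 he
    have hk3 : ∀ h, χ k h = 1 := by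
      by_contra hcon
      push Not at hcon
      exact hk1 (hx4 k hcon)
    rw [hk2 h, hk3 h, Circle.coe_one, one_smul]

end Q101Ig
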