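import Pool.Agent.Q101.IgS2

/-!
# Finitely many joint eigenvectors detect all of them (IG-32)
-/

set_option autoImplicit false

open MeasureTheory Set Filter Topology
open scoped Matrix

namespace Q101Ig

section

variable {G ι : Type} [Group G] [Fintype ι] [DecidableEq ι]

theorem IgJoint_inner (U : Matrix.unitaryGroup ι ℂ) (v w : ι → ℂ) :
    star ((U : Matrix ι ι ℂ) *ᵥ v) ⬝ᵥ ((U : Matrix ι ι ℂ) *ᵥ w) = star v ⬝ᵥ w := by
  have h := Matrix.mem_unitaryGroup_iff'.1 U.2
  rw [Matrix.star_mulVec, ← Matrix.dotProduct_mulVec, Matrix.mulVec_mulVec,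
    ← Matrix.star_eq_conjTranspose, h, Matrix.one_mulVec]

theorem IgJoint_self {v : ι → ℂ} (hv : v ≠ 0) : star v ⬝ᵥ v ≠ 0 := by
  open scoped ComplexOrder in
  exact fun h => hv (dotProduct_star_self_eq_zero.1 h)

/-- the character of a joint eigenvector -/
theorem IgJoint_char [TopologicalSpace G] (ρ : G →* Matrix.unitaryGroup ι ℂ) (hρ : Continuous ρ)
    (v : ι → ℂ) (hv : v ≠ 0) (he : ∀ h, ∃ c : ℂ, (ρ h : Matrix ι ι ℂ) *ᵥ v = c • v) :
    ∃ χ : G →* Circle, Continuous χ ∧ ∀ h, (ρ h : Matrix ι ι ℂ) *ᵥ v = (χ h : ℂ) • v := by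
  choose c hc using he
  have hs := IgJoint_self hv
  have huniq : ∀ a b : ℂ, a • v = b • v → a = b := fun a b h => smul_left_injective ℂ hv h
  have hone : c 1 = 1 := by
    apply huniq
    rw [← hc, map_one, one_smul]
    simp
  have hmul : ∀ a b, c (a * b) = c a * c b := by
    intro a b
    apply huniq
    rw [← hc, map_mul]
    have : ((ρ a * ρ b : Matrix.unitaryGroup ι ℂ) : Matrix ι ι ℂ) = (ρ a : Matrix ι ι ℂ) * ρ b :=
      rfl
    rw [this, ← Matrix.mulVec_mulVec, hc b, Matrix.mulVec_smul, hc a, smul_smul, mul_comm]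
  have hnorm : ∀ h, c h ∈ Submonoid.unitSphere ℂ := by
    intro h
    have h1 := IgJoint_inner (ρ h) v v
    rw [hc h, star_smul, smul_dotProduct, dotProduct_smul, smul_smul, smul_eq_mul] at h1
    have h2 : star (c h) * c h = 1 := mul_right_cancel₀ hs (by rw [h1, one_mul])
    have h3 : (Complex.normSq (c h) : ℂ) = 1 := by
      rw [Complex.normSq_eq_conj_mul_self]; exact h2
    have h4 : Complex.normSq (c h) = 1 := by exact_mod_cast h3
    rw [Submonoid.unitSphere, ]
    show c h ∈ Metric.sphere (0 : ℂ) 1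
    rw [mem_sphere_zero_iff_norm, Complex.norm_def, h4, Real.sqrt_one]
  have hcont : Continuous c := by
    have h1 : ∀ h, c h = (star v ⬝ᵥ ((ρ h : Matrix ι ι ℂ) *ᵥ v)) / (star v ⬝ᵥ v) := by
      intro h
      rw [hc h, dotProduct_smul, smul_eq_mul, mul_div_assoc, div_self hs, mul_one]
    have h2 : c = fun h => (star v ⬝ᵥ ((ρ h : Matrix ι ι ℂ) *ᵥ v)) / (star v ⬝ᵥ v) := funext h1
    rw [h2]
    refine Continuous.div_const ?_ _
    exact continuous_const.dotProduct
      ((continuous_subtype_val.comp hρ).matrix_mulVec continuous_const)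
  refine ⟨{ toFun := fun h => ⟨c h, hnorm h⟩, map_one' := Circle.ext hone,
            map_mul' := fun a b => Circle.ext (hmul a b) }, ?_, hc⟩
  exact hcont.subtype_mk _

end

theorem joint : S_joint := by
  intro G _ _ _ ι _ _ ρ hρ
  let JE : Set (ι → ℂ) := {v | v ≠ 0 ∧ ∀ h, ∃ c : ℂ, (ρ h : Matrix ι ι ℂ) *ᵥ v = c • v}
  obtain ⟨t, htJ, htspan, hti⟩ := exists_linearIndependent ℂ JE
  have htf : t.Finite := hti.setFinite
  obtain ⟨n, e⟩ : ∃ n : ℕ, Nonempty (Fin n ≃ t) := by
    have := htf.fintype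
    exact ⟨Fintype.card t, ⟨(Fintype.equivFin t).symm⟩⟩
  obtain ⟨e⟩ := e
  have hb : ∀ k : Fin n, ((e k : t) : ι → ℂ) ∈ JE := fun k => htJ (e k).2
  choose χ hχc hχ using fun k => IgJoint_char ρ hρ _ (hb k).1 (hb k).2
  refine ⟨n, fun k => (e k : ι → ℂ), χ, hχc, hχ, ?_⟩
  intro v hv he
  have hvs : v ∈ Submodule.span ℂ t := by
    rw [htspan]; exact Submodule.subset_span ⟨hv, he⟩
  obtain ⟨k, hk⟩ : ∃ k : Fin n, star ((e k : t) : ι → ℂ) ⬝ᵥ v ≠ 0 := by
    by_contra hcon
    push Not at hcon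
    have h1 : ∀ w ∈ Submodule.span ℂ t, star w ⬝ᵥ v = 0 := by
      intro w hw
      induction hw using Submodule.span_induction with
      | mem x hx =>
        have := hcon (e.symm ⟨x, hx⟩)
        rwa [Equiv.apply_symm_apply] at this
      | zero => simp
      | add x y _ _ hx hy => rw [star_add, add_dotProduct, hx, hy, add_zero]
      | smul c x _ hx => rw [star_smul, smul_dotProduct, hx, smul_zero]
    exact IgJoint_self hv (h1 v hvs)
  refine ⟨k, hk, fun h => ?_⟩
  obtain ⟨c, hc⟩ := he h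
  have h1 := IgJoint_inner (ρ h) ((e k : t) : ι → ℂ) v
  rw [hχ k h, hc, star_smul, smul_dotProduct, dotProduct_smul, smul_smul, smul_eq_mul] at h1
  have h2 : star (χ k h : ℂ) * c = 1 := mul_right_cancel₀ hk (by rw [h1, one_mul])
  have h3 : (χ k h : ℂ) * star (χ k h : ℂ) = 1 := by
    have := Complex.mul_conj (χ k h : ℂ)
    rw [Circle.normSq_coe] at this
    simpa using this
  have h4 : c = (χ k h : ℂ) := by
    calc c = ((χ k h : ℂ) * star (χ k h : ℂ)) * c := by rw [h3, one_mul]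
      _ = (χ k h : ℂ) * (star (χ k h : ℂ) * c) := by ring
      _ = (χ k h : ℂ) := by rw [h2, mul_one]
  rw [hc, h4]

end Q101Ig
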