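import Pool.Agent.Q101.IgS2
import Pool.Agent.H567R2.MMF.RE

/-!
# Frequent returns of an integer cocycle (IG-27, helper121)
-/

set_option autoImplicit false

open MeasureTheory Set Filter Topology

namespace Q101Ig

/-- the points over which `k` is the least element of the fibre -/
def IgKap_M {Ω : Type} (B : Set (Ω × Multiplicative ℤ)) (k : ℤ) : Set Ω :=
  {ω | (ω, Multiplicative.ofAdd k) ∈ B ∧ ∀ j : ℤ, j < k → (ω, Multiplicative.ofAdd j) ∉ B}

theorem IgKap_uniq {Ω : Type} (B : Set (Ω × Multiplicative ℤ)) {k l : ℤ} {ω : Ω}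
    (h : ω ∈ IgKap_M B k) (h' : ω ∈ IgKap_M B l) : k = l := by
  rcases lt_trichotomy k l with h1 | h1 | h1
  · exact absurd h.1 (h'.2 k h1)
  · exact h1
  · exact absurd h'.1 (h.2 l h1)

open Classical in
/-- the least element of the fibre -/
noncomputable def IgKap_k {Ω : Type} (B : Set (Ω × Multiplicative ℤ)) (ω : Ω) : ℤ :=
  if h : ∃ k, ω ∈ IgKap_M B k then h.choose else 0

theorem IgKap_k_eq {Ω : Type} (B : Set (Ω × Multiplicative ℤ)) {k : ℤ} {ω : Ω}
    (h : ω ∈ IgKap_M B k) : IgKap_k B ω = k := by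
  have h1 : ∃ k, ω ∈ IgKap_M B k := ⟨k, h⟩
  rw [IgKap_k, dif_pos h1]
  exact IgKap_uniq B h1.choose_spec h

theorem IgKap_coc {Ω : Type} (S : Ω → Ω) (ψ : Ω → ℤ) (n : ℕ) (ω : Ω) :
    H567MM.coc S (fun ω => Multiplicative.ofAdd (ψ ω)) n ω =
      Multiplicative.ofAdd (birkhoffSum S ψ n ω) := by
  induction n with
  | zero =>
    rw [birkhoffSum_zero']
    rfl
  | succ n ih =>
    rw [H567MM.coc, ih, birkhoffSum_succ, ofAdd_add]

theorem kap : S_kap := by
  intro Ω _ P _ S herg ψ hψ c hc h
  let _ : MeasurableSpace (Multiplicative ℤ) := ⊤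
  have _ : DiscreteMeasurableSpace (Multiplicative ℤ) := ⟨fun _ => trivial⟩
  have hS := herg.toMeasurePreserving
  have hψ' : Measurable fun ω => Multiplicative.ofAdd (ψ ω) :=
    (measurable_from_top (f := fun k : ℤ => Multiplicative.ofAdd k)).comp hψ
  obtain ⟨B, hB, hB0, hBt, hinv⟩ := H567MM.exists_inv_set P S hS
    (fun ω => Multiplicative.ofAdd (ψ ω)) hψ' c hc (by
      intro N₀
      obtain ⟨N, hN, h1⟩ := h N₀
      refine ⟨N, hN, h1.trans (le_of_eq ?_)⟩
      refine Finset.sum_congr rfl fun n _ => ?_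
      congr 1
      ext ω
      show birkhoffSum S ψ n ω = 0 ↔ H567MM.coc S (fun ω => Multiplicative.ofAdd (ψ ω)) n ω = 1
      rw [IgKap_coc]
      exact ofAdd_eq_one.symm)
  have hsl : ∀ k : ℤ, MeasurableSet {ω | (ω, Multiplicative.ofAdd k) ∈ B} := fun k =>
    measurable_prodMk_right hB
  have hM : ∀ k, MeasurableSet (IgKap_M B k) := by
    intro k
    have e : IgKap_M B k = {ω | (ω, Multiplicative.ofAdd k) ∈ B} ∩
        ⋂ j : ℤ, ⋂ _ : j < k, {ω | (ω, Multiplicative.ofAdd j) ∈ B}ᶜ := by
      ext ω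
      simp only [IgKap_M, mem_inter_iff, mem_iInter, mem_compl_iff]
      rfl
    rw [e]
    exact (hsl k).inter (MeasurableSet.iInter fun j => MeasurableSet.iInter fun _ => (hsl j).compl)
  have hκm : Measurable (IgKap_k B) := by
    refine measurable_to_countable' fun k => ?_
    by_cases hk : k = 0
    · have e : IgKap_k B ⁻¹' {k} = IgKap_M B 0 ∪ (⋃ j, IgKap_M B j)ᶜ := by
        ext ω
        rw [mem_preimage, mem_singleton_iff, hk]
        constructor
        · intro h1
          by_cases h2 : ∃ j, ω ∈ IgKap_M B j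
          · obtain ⟨j, hj⟩ := h2
            have := IgKap_k_eq B hj
            rw [h1] at this
            left
            rw [this]
            exact hj
          · right
            intro h3
            exact h2 (mem_iUnion.1 h3)
        · rintro (h1 | h1)
          · exact IgKap_k_eq B h1
          · have h2 : ¬ ∃ j, ω ∈ IgKap_M B j := fun h2 => h1 (mem_iUnion.2 h2)
            rw [IgKap_k, dif_neg h2]
      rw [e]
      exact (hM 0).union (MeasurableSet.iUnion hM).compl
    · have e : IgKap_k B ⁻¹' {k} = IgKap_M B k := by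
        ext ω
        rw [mem_preimage, mem_singleton_iff]
        constructor
        · intro h1
          by_cases h2 : ∃ j, ω ∈ IgKap_M B j
          · obtain ⟨j, hj⟩ := h2
            have := IgKap_k_eq B hj
            rw [h1] at this
            rw [this]
            exact hj
          · rw [IgKap_k, dif_neg h2] at h1
            exact absurd h1.symm hk
        · exact fun h1 => IgKap_k_eq B h1
      rw [e]
      exact hM k
  -- nonempty fibres
  set E : Set Ω := {ω | ∃ g : Multiplicative ℤ, (ω, g) ∈ B} with hE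
  have hEm : MeasurableSet E := by
    have e : E = ⋃ g : Multiplicative ℤ, {ω | (ω, g) ∈ B} := by
      ext ω
      simp only [hE, mem_iUnion]
      rfl
    rw [e]
    exact MeasurableSet.iUnion fun g => measurable_prodMk_right hB
  have hEi : S ⁻¹' E =ᵐ[P] E := by
    filter_upwards [hinv] with ω hω
    refine propext ?_
    constructor
    · rintro ⟨g, hg⟩
      refine ⟨g * (Multiplicative.ofAdd (ψ ω))⁻¹, ?_⟩
      rw [hω, inv_mul_cancel_right]
      exact hg
    · rintro ⟨g, hg⟩
      exact ⟨g * Multiplicative.ofAdd (ψ ω), (hω g).1 hg⟩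
  have hEfull : ∀ᵐ ω ∂P, ω ∈ E := by
    rcases herg.quasiErgodic.ae_empty_or_univ₀ hEm.nullMeasurableSet hEi with h1 | h1
    · exfalso
      apply hB0
      rw [Measure.prod_apply hB, lintegral_eq_zero_iff (measurable_measure_prodMk_left hB)]
      filter_upwards [h1] with ω hω
      have h2 : ω ∉ E := by
        intro h3
        have h4 : E ω = (∅ : Set Ω) ω := hω
        have h5 : (∅ : Set Ω) ω := h4 ▸ h3
        exact h5
      have h3 : Prod.mk ω ⁻¹' B = ∅ := by
        ext g
        constructor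
        · intro hg
          exact absurd ⟨g, hg⟩ h2
        · intro hg
          exact absurd hg (notMem_empty g)
      simp [h3]
    · filter_upwards [h1] with ω hω
      have h4 : E ω = (univ : Set Ω) ω := hω
      have h5 : E ω := by
        rw [h4]
        exact mem_univ ω
      exact h5
  have hfin : ∀ᵐ ω ∂P, (Measure.count (Prod.mk ω ⁻¹' B)) < ⊤ :=
    Measure.ae_measure_lt_top hB hBt
  refine ⟨IgKap_k B, hκm, ?_⟩
  filter_upwards [hinv, hEfull, hfin] with ω h1 h2 h3
  have h4 : (Prod.mk ω ⁻¹' B).Finite := Measure.count_apply_lt_top.1 h3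
  have h5 : {k : ℤ | (ω, Multiplicative.ofAdd k) ∈ B}.Finite := by
    have : {k : ℤ | (ω, Multiplicative.ofAdd k) ∈ B} =
        (fun k : ℤ => Multiplicative.ofAdd k) ⁻¹' (Prod.mk ω ⁻¹' B) := rfl
    rw [this]
    exact h4.preimage (fun a _ b _ hab => hab)
  obtain ⟨b, hb⟩ := h5.bddBelow
  obtain ⟨g, hg⟩ := h2
  obtain ⟨k, hk1, hk2⟩ := Int.exists_least_of_bdd (P := fun k => (ω, Multiplicative.ofAdd k) ∈ B)
    ⟨b, fun z hz => hb hz⟩ ⟨Multiplicative.toAdd g, hg⟩
  have hk : ω ∈ IgKap_M B k := ⟨hk1, fun j hj hjB => by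
    have := hk2 j hjB
    omega⟩
  have hk' : S ω ∈ IgKap_M B (k + ψ ω) := by
    refine ⟨?_, ?_⟩
    · rw [ofAdd_add]
      exact (h1 _).1 hk1
    · intro j hj hjB
      have h6 : (ω, Multiplicative.ofAdd (j - ψ ω)) ∈ B := by
        rw [h1, ← ofAdd_add, sub_add_cancel]
        exact hjB
      have := hk2 _ h6
      omega
  rw [IgKap_k_eq B hk, IgKap_k_eq B hk']

end Q101Ig
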