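import Pool.Agent.Q101.IgS2
import Pool.Agent.H567R2.MNF.CZ
import Pool.Agent.H567R2.MMF.CC

/-!
# Two independent orbits seldom have the same sums (IG-29)
-/

set_option autoImplicit false

open MeasureTheory Set Filter Topology

namespace Q101Ig

theorem nocol (hp : S_prodErg) (hk : S_kap) (hc : S_cob) : S_nocol := by
  intro X _ μ _ T hT hE ψ B hψ hB hl ε hε
  by_contra hcon
  push Not at hcon
  have hE3 := hp X (X × X) μ (μ.prod μ) T (Prod.map T T) hT
    (fun g hg hb h0 => H567MM.corr_zero_of_wm μ T hT hE g hg hb h0) hE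
  let Ψ : X × X → ℤ := fun z => ψ z.1 - ψ z.2
  have hΨ : Measurable Ψ := (hψ.comp measurable_fst).sub (hψ.comp measurable_snd)
  have hbs : ∀ n z, birkhoffSum (Prod.map T T) Ψ n z =
      birkhoffSum T ψ n z.1 - birkhoffSum T ψ n z.2 := by
    intro n z
    simp [birkhoffSum, Ψ, Finset.sum_sub_distrib, Prod.map_iterate]
  obtain ⟨κ, hκ, hκe⟩ := hk (X × X) (μ.prod μ) (Prod.map T T) hE Ψ hΨ ε hε (by
    intro N₀
    obtain ⟨N, hN, h⟩ := hcon N₀
    refine ⟨N, hN, ?_⟩
    simp_rw [hbs, sub_eq_zero]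
    exact h.le)
  have hu : ∀ᵐ z ∂(μ.prod μ), (fun z => Multiplicative.ofAdd (κ z)) (T z.1, T z.2) =
      (fun z => Multiplicative.ofAdd (κ z)) z *
        ((fun x => Multiplicative.ofAdd (ψ x)) z.1 / (fun x => Multiplicative.ofAdd (ψ x)) z.2) := by
    filter_upwards [hκe] with z hz
    have h1 : κ (T z.1, T z.2) = κ z + (ψ z.1 - ψ z.2) := hz
    show Multiplicative.ofAdd (κ (T z.1, T z.2)) = _
    rw [h1]
    rfl
  let iM : MeasurableSpace (Multiplicative ℤ) := ⊤
  have iD : DiscreteMeasurableSpace (Multiplicative ℤ) := ⟨fun _ => trivial⟩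
  obtain ⟨l, p, hpm, hpe⟩ := H567MM.exists_const (G := Multiplicative ℤ) μ T hT hE3
    (fun x => Multiplicative.ofAdd (ψ x)) ((measurable_of_countable _).comp hψ)
    (fun z => Multiplicative.ofAdd (κ z)) ((measurable_of_countable _).comp hκ) hu
  refine hl (Multiplicative.toAdd l) (hc X μ T hT ψ (fun x => Multiplicative.toAdd (p x))
    (Multiplicative.toAdd l) B hψ hB ((measurable_of_countable _).comp hpm) ?_)
  filter_upwards [hpe] with x hx
  have h1 := congrArg Multiplicative.toAdd hx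
  simpa using h1

end Q101Ig
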