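import Pool.Agent.Q101.IgS2
import Pool.Agent.H567R2.MNF.CZ

/-!
# Products with transformations with decaying correlations are ergodic (IG-25, helper121)
-/

set_option autoImplicit false

open MeasureTheory Set Filter Topology
open scoped ENNReal

namespace Q101Ig

open H567MM (CorrZero)

/-- mean ergodic theorem: invariant vectors are orthogonal to vectors with decaying correlations -/
theorem IgProdErg_hilbert {H : Type*} [NormedAddCommGroup H] [InnerProductSpace ℂ H]
    [CompleteSpace H] (U : H →L[ℂ] H) (hU : ‖U‖ ≤ 1) (e c : H) (hc : U c = c)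
    (h : ∀ ε : ℝ, 0 < ε → ∃ N₀ : ℕ, ∀ N : ℕ, N₀ ≤ N →
      ∑ n ∈ Finset.range N, ‖inner ℂ e ((⇑U)^[n] e)‖ ≤ ε * N) : inner ℂ c e = 0 := by
  have hlim := U.tendsto_birkhoffAverage_orthogonalProjection hU e
  set hp := (U.eqLocus (1 : H →L[ℂ] H)).orthogonalProjectionOnto e with hpdef
  have hlim2 : Tendsto (fun N : ℕ => ‖inner ℂ e (birkhoffAverage ℂ U _root_.id N e)‖) atTop
      (𝓝 ‖inner ℂ e (hp : H)‖) := (tendsto_const_nhds.inner hlim).norm
  have hz : ‖inner ℂ e (hp : H)‖ ≤ 0 := by
    refine le_of_forall_pos_le_add fun ε hε => ?_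
    rw [zero_add]
    obtain ⟨N₀, hN₀⟩ := h ε hε
    refine le_of_tendsto hlim2 ?_
    filter_upwards [eventually_ge_atTop (N₀ + 1)] with N hN
    have hNpos : (0 : ℝ) < N := by exact_mod_cast (by omega : 0 < N)
    rw [birkhoffAverage, birkhoffSum, inner_smul_right, inner_sum, norm_mul, norm_inv,
      Complex.norm_natCast, inv_mul_le_iff₀ hNpos]
    refine (norm_sum_le _ _).trans ?_
    have := hN₀ N (by omega)
    rw [mul_comm] at this
    exact this
  have hz2 : inner ℂ e (hp : H) = 0 := norm_le_zero_iff.1 hz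
  have hz3 : hp = 0 := by
    have h1 := (U.eqLocus (1 : H →L[ℂ] H)).inner_orthogonalProjectionOnto_eq_of_mem_left hp e
    rw [← hpdef] at h1
    have h2 : inner ℂ ((hp : H)) e = 0 := by
      rw [← inner_conj_symm, hz2, map_zero]
    rw [h2] at h1
    exact inner_self_eq_zero.1 h1
  have hcm : c ∈ U.eqLocus (1 : H →L[ℂ] H) := by
    rw [LinearMap.mem_eqLocus]
    exact hc
  have h1 := (U.eqLocus (1 : H →L[ℂ] H)).inner_orthogonalProjectionOnto_eq_of_mem_left ⟨c, hcm⟩ e
  rw [← hpdef, hz3, inner_zero_right] at h1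
  exact h1.symm

section

variable {X Y : Type} [MeasurableSpace X] [MeasurableSpace Y] (μ : Measure X)
  [IsProbabilityMeasure μ] (ν : Measure Y) [IsProbabilityMeasure ν] (T : X → X) (S : Y → Y)

theorem IgProdErg_it (n : ℕ) (z : X × Y) :
    (Prod.map T S)^[n] z = (T^[n] z.1, S^[n] z.2) := by
  rw [Prod.map_iterate]
  rfl

/-- invariant sets are orthogonal to `g ⊗ h` if the correlations of `g` decay -/
theorem IgProdErg_zero (hT : MeasurePreserving T μ μ) (hS : MeasurePreserving S ν ν)
    (g : X → ℂ) (hg : Measurable g) (hgb : ∀ x, ‖g x‖ ≤ 1) (hcz : CorrZero μ T g)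
    (h : Y → ℂ) (hh : Measurable h) (hhb : ∀ y, ‖h y‖ ≤ 1) (χ : X × Y → ℂ) (hχ : Measurable χ)
    (hχb : ∀ z, ‖χ z‖ ≤ 1) (hχi : ∀ z, χ (Prod.map T S z) = χ z) :
    ∫ z, (starRingEnd ℂ) (χ z) * (g z.1 * h z.2) ∂(μ.prod ν) = 0 := by
  set m : Measure (X × Y) := μ.prod ν with hmdef
  set τ : X × Y → X × Y := Prod.map T S with hτdef
  have hτ : MeasurePreserving τ m m := hT.prod hS
  set F : X × Y → ℂ := fun z => g z.1 * h z.2 with hF
  have hFm : Measurable F := (hg.comp measurable_fst).mul (hh.comp measurable_snd)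
  have hFb : ∀ z, ‖F z‖ ≤ 1 := by
    intro z
    rw [hF]
    simp only [norm_mul]
    exact mul_le_one₀ (hgb _) (norm_nonneg _) (hhb _)
  have hFL : MemLp F 2 m := MemLp.of_bound hFm.aestronglyMeasurable 1 (ae_of_all _ hFb)
  have hχL : MemLp χ 2 m := MemLp.of_bound hχ.aestronglyMeasurable 1 (ae_of_all _ hχb)
  have hee : (hFL.toLp F : X × Y → ℂ) =ᵐ[m] F := hFL.coeFn_toLp
  have hcc : (hχL.toLp χ : X × Y → ℂ) =ᵐ[m] χ := hχL.coeFn_toLp
  set e := hFL.toLp F with he
  set c := hχL.toLp χ with hc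
  set U : Lp ℂ 2 m →L[ℂ] Lp ℂ 2 m :=
    (Lp.compMeasurePreservingₗᵢ ℂ τ hτ).toContinuousLinearMap with hU
  have hUn : ‖U‖ ≤ 1 := LinearIsometry.norm_toContinuousLinearMap_le _
  have hUc : ∀ f, U f = Lp.compMeasurePreserving τ hτ f := fun f => rfl
  have hUit : ∀ n : ℕ, (⇑U)^[n] e = Lp.compMeasurePreserving τ^[n] (hτ.iterate n) e := by
    intro n
    rw [← Lp.compMeasurePreserving_iterate hτ n]
    rfl
  have hUcc : U c = c := by
    refine Lp.ext ?_
    rw [hUc]
    have h1 := Lp.coeFn_compMeasurePreserving c hτ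
    have h2 : ∀ᵐ z ∂m, c (τ z) = χ (τ z) := hτ.quasiMeasurePreserving.ae hcc
    filter_upwards [h1, h2, hcc] with z h3 h4 h5
    rw [h3, Function.comp_apply, h4, hχi, h5]
  have hin : ∀ n : ℕ, inner ℂ e ((⇑U)^[n] e) =
      (∫ x, g (T^[n] x) * (starRingEnd ℂ) (g x) ∂μ) * ∫ y, h (S^[n] y) * (starRingEnd ℂ) (h y) ∂ν := by
    intro n
    rw [hUit n, L2.inner_def, ← integral_prod_mul (μ := μ) (ν := ν)
      (fun x => g (T^[n] x) * (starRingEnd ℂ) (g x)) (fun y => h (S^[n] y) * (starRingEnd ℂ) (h y))]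
    refine integral_congr_ae ?_
    have h1 := Lp.coeFn_compMeasurePreserving e (hτ.iterate n)
    have h2 : ∀ᵐ z ∂m, e (τ^[n] z) = F (τ^[n] z) := (hτ.iterate n).quasiMeasurePreserving.ae hee
    filter_upwards [h1, h2, hee] with z h3 h4 h5
    rw [h3, Function.comp_apply, h4, h5, RCLike.inner_apply, IgProdErg_it]
    simp only [hF, map_mul]
    ring
  have hb : ∀ n : ℕ, ‖∫ y, h (S^[n] y) * (starRingEnd ℂ) (h y) ∂ν‖ ≤ 1 := by
    intro n
    have := norm_integral_le_of_norm_le_const (μ := ν) (C := 1)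
      (f := fun y => h (S^[n] y) * (starRingEnd ℂ) (h y)) (ae_of_all _ fun y => by
        rw [norm_mul, RCLike.norm_conj]
        exact mul_le_one₀ (hhb _) (norm_nonneg _) (hhb _))
    simpa using this
  have hmain := IgProdErg_hilbert U hUn e c hUcc (by
    intro ε hε
    obtain ⟨N₀, hN₀⟩ := hcz ε hε
    refine ⟨N₀, fun N hN => le_trans (Finset.sum_le_sum fun n _ => ?_) (hN₀ N hN)⟩
    rw [hin n, norm_mul]
    exact mul_le_of_le_one_right (norm_nonneg _) (hb n))
  rw [L2.inner_def] at hmain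
  rw [← hmain]
  refine integral_congr_ae ?_
  filter_upwards [hee, hcc] with z h3 h4
  rw [h3, h4, RCLike.inner_apply, mul_comm]

end

theorem prodErg : S_prodErg := by
  intro X Y _ _ μ _ ν _ T S hT hcz hS
  have hSm := hS.toMeasurePreserving
  have hτ : MeasurePreserving (Prod.map T S) (μ.prod ν) (μ.prod ν) := hT.prod hSm
  refine ⟨hτ, ⟨?_⟩⟩
  intro E hE hinv
  set m : Measure (X × Y) := μ.prod ν with hmdef
  have hmem : ∀ z, (T z.1, S z.2) ∈ E ↔ z ∈ E := fun z => by
    conv_rhs => rw [← hinv]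
    rfl
  -- second coordinate
  have hk : Measurable fun y => μ ((fun x => (x, y)) ⁻¹' E) := measurable_measure_prodMk_right hE
  have hkS : ∀ y, μ ((fun x => (x, S y)) ⁻¹' E) = μ ((fun x => (x, y)) ⁻¹' E) := by
    intro y
    have h1 : MeasurableSet ((fun x : X => (x, S y)) ⁻¹' E) := measurable_prodMk_right hE
    rw [← hT.measure_preimage h1.nullMeasurableSet]
    congr 1
    ext x
    exact hmem (x, y)
  obtain ⟨k, hkc⟩ := hS.ae_eq_const_of_ae_eq_comp_ae hk.aestronglyMeasurable
    (Eventually.of_forall hkS)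
  have hstrip : ∀ B : Set Y, MeasurableSet B → m (E ∩ univ ×ˢ B) = k * ν B := by
    intro B hB
    rw [hmdef, Measure.prod_apply_symm (hE.inter (MeasurableSet.univ.prod hB))]
    have h1 : ∀ y, μ ((fun x => (x, y)) ⁻¹' (E ∩ univ ×ˢ B)) =
        B.indicator (fun y => μ ((fun x => (x, y)) ⁻¹' E)) y := by
      intro y
      by_cases hy : y ∈ B
      · rw [indicator_of_mem hy]
        congr 1
        ext x
        simp [hy]
      · rw [indicator_of_notMem hy]
        have : (fun x => (x, y)) ⁻¹' (E ∩ univ ×ˢ B) = (∅ : Set X) := by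
          ext x
          simp [hy]
        rw [this, measure_empty]
    simp only [h1]
    rw [lintegral_indicator hB]
    have h2 : ∫⁻ y in B, μ ((fun x => (x, y)) ⁻¹' E) ∂ν = ∫⁻ _y in B, k ∂ν :=
      lintegral_congr_ae (ae_restrict_of_ae hkc)
    rw [h2, setLIntegral_const]
  have hkE : k = m E := by
    have := hstrip univ MeasurableSet.univ
    rw [univ_prod_univ, inter_univ, measure_univ, mul_one] at this
    exact this.symm
  -- rectangles
  have hrect : ∀ (A : Set X) (B : Set Y), MeasurableSet A → MeasurableSet B →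
      m (E ∩ A ×ˢ B) = m E * (μ A * ν B) := by
    intro A B hA hB
    set a : ℝ := μ.real A with ha
    have ha0 : 0 ≤ a := measureReal_nonneg
    have ha1 : a ≤ 1 := measureReal_le_one
    set g : X → ℂ := fun x => A.indicator (fun _ => (1 : ℂ)) x - (a : ℂ) with hg
    have hgm : Measurable g := (measurable_const.indicator hA).sub measurable_const
    have hgb : ∀ x, ‖g x‖ ≤ 1 := by
      intro x
      rw [hg]
      by_cases hx : x ∈ A
      · simp only [indicator_of_mem hx]
        rw [← Complex.ofReal_one, ← Complex.ofReal_sub, Complex.norm_real, Real.norm_eq_abs,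
          abs_of_nonneg (by linarith)]
        linarith
      · simp only [indicator_of_notMem hx]
        rw [zero_sub, norm_neg, Complex.norm_real, Real.norm_eq_abs, abs_of_nonneg ha0]
        exact ha1
    have iA : Integrable (A.indicator (fun _ => (1 : ℂ))) μ :=
      (integrable_const (1 : ℂ)).indicator hA
    have hg0 : ∫ x, g x ∂μ = 0 := by
      rw [hg]
      simp only
      rw [integral_sub iA (integrable_const _), integral_indicator_const _ hA]
      simp [ha]
    have h1 := IgProdErg_zero μ ν T S hT hSm g hgm hgb (hcz g hgm hgb hg0)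
      (B.indicator fun _ => (1 : ℂ)) (measurable_const.indicator hB) (fun y => by
        by_cases hy : y ∈ B
        · simp [indicator_of_mem hy]
        · simp [indicator_of_notMem hy])
      (E.indicator fun _ => (1 : ℂ)) (measurable_const.indicator hE) (fun z => by
        by_cases hz : z ∈ E
        · simp [indicator_of_mem hz]
        · simp [indicator_of_notMem hz])
      (fun z => by
        have h3 : Prod.map T S z ∈ E ↔ z ∈ E := hmem z
        by_cases hz : z ∈ E
        · rw [indicator_of_mem hz, indicator_of_mem (h3.2 hz)]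
        · rw [indicator_of_notMem hz, indicator_of_notMem (fun h => hz (h3.1 h))])
    have h2 : ∀ z : X × Y, (starRingEnd ℂ) (E.indicator (fun _ => (1 : ℂ)) z) *
        (g z.1 * B.indicator (fun _ => (1 : ℂ)) z.2) =
        (E ∩ A ×ˢ B).indicator (fun _ => (1 : ℂ)) z -
          (a : ℂ) * (E ∩ univ ×ˢ B).indicator (fun _ => (1 : ℂ)) z := by
      intro z
      rw [hg]
      by_cases hz : z ∈ E <;> by_cases hz1 : z.1 ∈ A <;> by_cases hz2 : z.2 ∈ B <;>
        simp [indicator, hz, hz1, hz2]
    rw [integral_congr_ae (ae_of_all _ h2)] at h1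
    have mR : MeasurableSet (E ∩ A ×ˢ B) := hE.inter (hA.prod hB)
    have mS : MeasurableSet (E ∩ (univ : Set X) ×ˢ B) := hE.inter (MeasurableSet.univ.prod hB)
    rw [integral_sub ((integrable_const (1 : ℂ)).indicator mR)
      (((integrable_const (1 : ℂ)).indicator mS).const_mul _), integral_const_mul,
      integral_indicator_const _ mR, integral_indicator_const _ mS] at h1
    have h3 : m.real (E ∩ A ×ˢ B) = a * m.real (E ∩ univ ×ˢ B) := by
      have h4 : ((m.real (E ∩ A ×ˢ B) - a * m.real (E ∩ univ ×ˢ B) : ℝ) : ℂ) = 0 := by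
        rw [← h1, hmdef]
        push_cast
        simp
      have h5 := Complex.ofReal_eq_zero.1 h4
      linarith
    have h6 : m (E ∩ A ×ˢ B) = ENNReal.ofReal (m.real (E ∩ A ×ˢ B)) :=
      (ofReal_measureReal).symm
    rw [h6, h3, ENNReal.ofReal_mul ha0, ha, ofReal_measureReal, ofReal_measureReal, hstrip B hB,
      hkE]
    ring
  -- conclusion
  rcases eq_or_ne (m E) 0 with h0 | h0
  · exact eventuallyConst_set'.2 (Or.inl (ae_eq_empty.2 h0))
  have hfin : m E ≠ ⊤ := measure_ne_top _ _
  set m' : Measure (X × Y) := (m E)⁻¹ • m.restrict E with hm'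
  have h1 : μ.prod ν = m' := by
    refine Measure.prod_eq fun A B hA hB => ?_
    rw [hm', Measure.smul_apply, Measure.restrict_apply (hA.prod hB), inter_comm, hrect A B hA hB,
      smul_eq_mul, ← mul_assoc, ENNReal.inv_mul_cancel h0 hfin, one_mul]
  have h2 : m Eᶜ = 0 := by
    rw [hmdef, h1, hm', Measure.smul_apply, Measure.restrict_apply hE.compl, compl_inter_self,
      measure_empty, smul_zero]
  exact eventuallyConst_set'.2 (Or.inr (ae_eq_univ.2 h2))

end Q101Ig
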