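import Pool.Agent.Q101.IgWm
import Pool.Agent.Q101.IgAllE
import Pool.Agent.Q101.IgNocol
import Pool.Agent.Q101.IgChi
import Pool.Agent.Q101.IgGoodc
import Pool.Agent.Q101.IgKap
import Pool.Agent.Q101.IgCob
import Pool.Agent.Q101.IgChar
import Pool.Agent.Q101.IgJoint
import Pool.Agent.Q101.IgProdErg
import Pool.Agent.Q101.IgEigCorr

/-!
# Typical compact group extensions of weakly mixing interval exchanges are weakly mixing

The parts were written by helpers 65, 121, 162, 192, 224, 239, 275, 280 and 101.
-/

set_option autoImplicit false

namespace Q101Ig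

theorem all_wmx : S_wmx :=
  wm_all all_erg (goodc all_good1 joint (chi (nocol prodErg kap cob)) charHaar) fin equiv init
    (pw coef) prodErg eigCorr

end Q101Ig
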