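import Mathlib

/-!
# Compact group extensions of interval exchange transformations: definitions

`iet lam σ` exchanges the `d` half-open intervals `piece lam j` of `[0,1)`, of lengths `lam j`;
`σ j` is the position of the `j`-th interval after the exchange. `stepFn lam g` is the function with
the value `g j` on the `j`-th interval and `skew lam σ g` is the skew product
`(x, y) ↦ (T x, φ(x) y)`.
-/

set_option autoImplicit false

open MeasureTheory Set Filter Topology

namespace Q101Ig

section IET

variable {d : ℕ}

/-- The left endpoint of the `j`-th exchanged interval. -/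
noncomputable def left (lam : Fin d → ℝ) (j : Fin d) : ℝ :=
  ∑ i ∈ Finset.univ.filter (fun i => i < j), lam i

/-- The left endpoint of the image of the `j`-th interval, which comes at the place `σ j`. -/
noncomputable def left' (lam : Fin d → ℝ) (σ : Equiv.Perm (Fin d)) (j : Fin d) : ℝ :=
  ∑ i ∈ Finset.univ.filter (fun i => σ i < σ j), lam i

/-- The `j`-th exchanged interval. -/
noncomputable def piece (lam : Fin d → ℝ) (j : Fin d) : Set ℝ :=
  Ico (left lam j) (left lam j + lam j)

/-- The interval exchange transformation of `[0,1)` (the identity outside of `[0,1)`): the `j`-th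
interval is translated from `left lam j` to `left' lam σ j`. -/
noncomputable def iet (lam : Fin d → ℝ) (σ : Equiv.Perm (Fin d)) (x : ℝ) : ℝ :=
  x + ∑ j, (piece lam j).indicator (fun _ => left' lam σ j - left lam j) x

/-- Lebesgue measure on `[0,1)`. -/
noncomputable def leb : Measure ℝ := volume.restrict (Ico (0 : ℝ) 1)

variable {G : Type} [Group G]

open Classical in
/-- The simple function with the value `g j` on the `j`-th interval. -/
noncomputable def stepFn (lam : Fin d → ℝ) (g : Fin d → G) (x : ℝ) : G :=
  if h : ∃ j, x ∈ piece lam j then g h.choose else 1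

/-- The `G`-extension `(x, y) ↦ (T x, φ(x) y)` of the interval exchange transformation `T`. -/
noncomputable def skew (lam : Fin d → ℝ) (σ : Equiv.Perm (Fin d)) (g : Fin d → G) (p : ℝ × G) :
    ℝ × G :=
  (iet lam σ p.1, stepFn lam g p.1 * p.2)

end IET

/-! ### Induced systems -/

section Ind

variable {d : ℕ}

/-- The translation along a word of labels. -/
def tr (τ : Fin d → ℝ) (w : List (Fin d)) : ℝ := (w.map τ).sum

/-- The product of the group elements along a word; the first letter acts first. -/
def wprod {G : Type} [Group G] (g : Fin d → G) : List (Fin d) → G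
  | [] => 1
  | j :: w => wprod g w * g j

/-- The orbit of `x` under `T` visits the sets `P j` in the order given by the word. -/
def Follows (T : ℝ → ℝ) (P : Fin d → Set ℝ) : List (Fin d) → ℝ → Prop
  | [], _ => True
  | j :: w, x => x ∈ P j ∧ Follows T P w (T x)

/-- The image of the `i`-th piece under the induced map. -/
def img (τ : Fin d → ℝ) (I : Fin d → Set ℝ) (w : Fin d → List (Fin d)) (i : Fin d) : Set ℝ :=
  (fun x => x + tr τ (w i)) '' I i

/-- The first return map of `T` to `J` translates the pieces `I i` of `J` by `tr τ (w i)`; the word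
`w i` is the itinerary of the points of `I i` until they return to `J`. Pieces may be empty. -/
structure Ind (T : ℝ → ℝ) (P : Fin d → Set ℝ) (τ : Fin d → ℝ) (J : Set ℝ) (I : Fin d → Set ℝ)
    (w : Fin d → List (Fin d)) : Prop where
  cover : J = ⋃ i, I i
  disj : ∀ i j, i ≠ j → Disjoint (I i) (I j)
  bcover : J = ⋃ i, img τ I w i
  bdisj : ∀ i j, i ≠ j → Disjoint (img τ I w i) (img τ I w j)
  itin : ∀ i, ∀ x ∈ I i, Follows T P (w i) x
  ret : ∀ i, ∀ x ∈ I i, ∀ k : ℕ, 0 < k → k < (w i).length → T^[k] x ∉ J
  ne : ∀ i, w i ≠ []

/-- An induced system on an interval `[a,b)`: left endpoints and lengths of the pieces, words. -/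
structure St (d : ℕ) where
  a : ℝ
  b : ℝ
  u : Fin d → ℝ
  l : Fin d → ℝ
  w : Fin d → List (Fin d)

/-- The `i`-th piece of a state. -/
def St.I (s : St d) (i : Fin d) : Set ℝ := Ico (s.u i) (s.u i + s.l i)

/-- The interval of a state. -/
def St.J (s : St d) : Set ℝ := Ico s.a s.b

/-- The state describes the map induced by `T` on `[a,b)`. -/
structure Valid (T : ℝ → ℝ) (P : Fin d → Set ℝ) (τ : Fin d → ℝ) (s : St d) : Prop where
  lt : s.a < s.b
  nonneg : ∀ i, 0 ≤ s.l i
  ind : Ind T P τ s.J s.I s.w
  sum : ∑ i, s.l i = s.b - s.a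

/-- Words obtained from the letters by Nielsen moves. -/
inductive Nielsen : (Fin d → List (Fin d)) → Prop
  | base : Nielsen (fun i => [i])
  | right (w : Fin d → List (Fin d)) (α β : Fin d) (h : α ≠ β) (hw : Nielsen w) :
      Nielsen (Function.update w β (w β ++ w α))
  | left (w : Fin d → List (Fin d)) (α β : Fin d) (h : α ≠ β) (hw : Nielsen w) :
      Nielsen (Function.update w α (w β ++ w α))

/-- One step of the two-sided induction: an end of length `c` of the interval is cut off; `lo` is
the label of the loser, the only one whose word changes. -/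
structure Step (s s' : St d) (c : ℝ) (lo : Fin d) : Prop where
  pos : 0 < c
  len : s'.b - s'.a = s.b - s.a - c
  sub : s'.J ⊆ s.J
  lo_len : s.l lo = c
  win : ∃ k, k ≠ lo ∧ c ≤ s.l k
  word : ∀ i, i ≠ lo → s'.w i = s.w i
  piece : ∀ i, i ≠ lo → s'.I i ⊆ s.I i
  mono : ∀ i, s'.l i ≤ s.l i
  low : ∀ i, s.l i - c ≤ s'.l i

/-- `T` translates the set `P j` by `τ j` and preserves the ergodic probability measure `leb`. -/
structure Sys (T : ℝ → ℝ) (P : Fin d → Set ℝ) (τ : Fin d → ℝ) : Prop where
  meas : ∀ j, MeasurableSet (P j)
  cover : Ico (0 : ℝ) 1 = ⋃ j, P j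
  disj : ∀ i j, i ≠ j → Disjoint (P i) (P j)
  trans : ∀ j, ∀ x ∈ P j, T x = x + τ j
  erg : Ergodic T leb

end Ind

end Q101Ig
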