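import Pool.Agent.Q101.IgMainD

/-!
# The main step: for almost all `g` there are no equivariant functions orthogonal to the fixed vectors
-/

set_option autoImplicit false

open MeasureTheory Set Filter Topology
open scoped Matrix

namespace Q101Ig

section Main

variable {d : ℕ} {G : Type} [Group G] {ι : Type} [Fintype ι] [DecidableEq ι]

theorem me_unit (U : Matrix.unitaryGroup ι ℂ) (v : ι → ℂ) :
    star ((U : Matrix ι ι ℂ) *ᵥ v) ⬝ᵥ ((U : Matrix ι ι ℂ) *ᵥ v) = star v ⬝ᵥ v := by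
  rw [Matrix.star_mulVec, ← Matrix.dotProduct_mulVec, Matrix.mulVec_mulVec]
  have h1 : (U : Matrix ι ι ℂ)ᴴ * (U : Matrix ι ι ℂ) = 1 := by
    have := Matrix.UnitaryGroup.star_mul_self U
    rwa [Matrix.star_eq_conjTranspose] at this
  rw [h1, Matrix.one_mulVec]

theorem me_sq (v : ι → ℂ) : star v ⬝ᵥ v = ((∑ i, ‖v i‖ ^ 2 : ℝ) : ℂ) := by
  rw [dotProduct]
  push_cast
  refine Finset.sum_congr rfl fun i _ => ?_
  rw [Pi.star_apply, Complex.star_def, Complex.conj_mul']

theorem main (hf : S_fam) (hl : S_law) (hR : S_haarR) (hp : S_pair) : S_main := by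
  intro d T P τ hS s₀ hs₀ ha hb hn G _ _ _ _ _ _ _ _ μ _ _ ι _ _ ρ hρ
  obtain ⟨s, i, j, h1, h2⟩ := hf d T P τ hS s₀ hs₀ ha hb hn
  have hRi : μ.IsMulRightInvariant := hR G μ
  have hV : ∀ n, Valid T P τ (s n) := fun n => (h1 n).1
  obtain ⟨Bad, hBad⟩ : ∃ Bad : Set (Fin d → G), Bad = {g | ∃ F : ℝ → ι → ℂ, Measurable F ∧
    (∀ j, ∀ᵐ x ∂leb, x ∈ P j → F (T x) = (ρ (g j) : Matrix ι ι ℂ) *ᵥ F x) ∧
    ∀ᵐ x ∂leb, F x ∈ MaK ρ} := ⟨_, rfl⟩
  have hB0 : (Measure.pi fun _ : Fin d => μ) Bad = 0 := by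
    have hle : ∀ k : ℕ, (Measure.pi fun _ : Fin d => μ) Bad ≤
        (μ.prod μ) (MaC ρ (1 / ((k : ℝ) + 1))) := by
      intro k
      have hpr : ∀ n, MeasurePreserving (fun g : Fin d → G =>
          (wprod g ((s n).w (i n)), wprod g ((s n).w (j n)))) (Measure.pi fun _ => μ)
          (μ.prod μ) := fun n =>
        (md_two μ (i n) (j n) (h1 n).2.2.1).comp (hl G μ d (s n).w (h1 n).2.1)
      have hmC : MeasurableSet (MaC ρ (1 / ((k : ℝ) + 1))) := (MaC_isClosed ρ hρ _).measurableSet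
      have hF := md_fatou (Measure.pi fun _ : Fin d => μ)
        (fun n => (fun g : Fin d → G =>
          (wprod g ((s n).w (i n)), wprod g ((s n).w (j n)))) ⁻¹' (MaC ρ (1 / ((k : ℝ) + 1))))
        (fun n => (hpr n).measurable hmC) _
        (fun n => (hpr n).measure_preimage hmC.nullMeasurableSet) (mdn s h2) (mdn_meas s h2)
      refine (measure_mono ?_).trans hF
      intro g hg
      rw [hBad] at hg
      obtain ⟨F, hFm, hFe, hFK⟩ := hg
      have h3 := mc_two T P τ hS ρ g F hFe hFm hFK s i j hV (fun n => (h1 n).2.2.2.1)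
        (fun n => (h1 n).2.2.2.2)
      have h4 : ∀ᵐ x ∂leb, x ∈ Ico (0 : ℝ) 1 := ae_restrict_mem measurableSet_Ico
      show ∀ᵐ x ∂leb, _
      filter_upwards [h3, h4] with x hx hx01
      have h5 : Tendsto (fun k' => (s (mdn s h2 k' x)).b - (s (mdn s h2 k' x)).a) atTop
          (𝓝 0) := by
        refine squeeze_zero (fun k' => ?_) (fun k' => (mdn_spec s h2 k' x hx01).2.le)
          tendsto_one_div_add_atTop_nhds_zero_nat
        have := (hV (mdn s h2 k' x)).lt
        linarith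
      exact hx (fun k' => mdn s h2 k' x) (fun k' => (mdn_spec s h2 k' x hx01).1) h5 _
        (by positivity)
    exact le_antisymm (ge_of_tendsto' (MaC_tendsto hp μ ρ hρ) hle) bot_le
  have hae : ∀ᵐ g ∂(Measure.pi fun _ : Fin d => μ), g ∉ Bad := by
    rw [ae_iff]
    simpa using hB0
  filter_upwards [hae] with g hg F hFm hFO hFe
  -- the norm is constant
  have hcov : ∀ᵐ x ∂leb, ∃ j, x ∈ P j := by
    filter_upwards [ae_restrict_mem measurableSet_Ico] with x hx
    rw [hS.cover] at hx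
    exact mem_iUnion.1 hx
  have hinv : (fun x => ∑ m, ‖F x m‖ ^ 2) ∘ T =ᵐ[leb] fun x => ∑ m, ‖F x m‖ ^ 2 := by
    filter_upwards [hcov, ae_all_iff.2 hFe] with x hx hx2
    obtain ⟨j, hj⟩ := hx
    have h3 := hx2 j hj
    have h4 := me_unit (ρ (g j)) (F x)
    rw [← h3, me_sq, me_sq] at h4
    exact Complex.ofReal_injective h4
  have hqm : Measurable (fun x => ∑ m, ‖F x m‖ ^ 2) :=
    Finset.measurable_sum _ fun m _ => (((measurable_pi_apply m).comp hFm).norm).pow_const 2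
  obtain ⟨c, hc⟩ := hS.erg.ae_eq_const_of_ae_eq_comp₀ hqm.nullMeasurable hinv
  by_contra hcon
  have hc0 : c ≠ 0 := by
    rintro rfl
    apply hcon
    filter_upwards [hc] with x hx
    have h3 : ∑ m, ‖F x m‖ ^ 2 = 0 := hx
    rw [Finset.sum_eq_zero_iff_of_nonneg fun m _ => by positivity] at h3
    funext m
    have := h3 m (Finset.mem_univ m)
    rw [sq_eq_zero_iff, norm_eq_zero] at this
    exact this
  have hcp : 0 < c := by
    obtain ⟨x, hx⟩ := hc.exists
    have h3 : ∑ m, ‖F x m‖ ^ 2 = c := hx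
    have h4 : 0 ≤ ∑ m, ‖F x m‖ ^ 2 := Finset.sum_nonneg fun m _ => by positivity
    rw [h3] at h4
    exact lt_of_le_of_ne h4 (Ne.symm hc0)
  apply hg
  rw [hBad]
  set a : ℂ := (((Real.sqrt c)⁻¹ : ℝ) : ℂ) with ha'
  refine ⟨fun x => a • F x, hFm.const_smul a, ?_, ?_⟩
  · intro j
    filter_upwards [hFe j] with x hx hxj
    rw [hx hxj, Matrix.mulVec_smul]
  · filter_upwards [hc, hFO] with x hx hxO
    have h3 : ∑ m, ‖F x m‖ ^ 2 = c := hx
    refine ⟨?_, ?_⟩
    · rw [me_sq]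
      have h4 : ∀ m, ‖(a • F x) m‖ ^ 2 = c⁻¹ * ‖F x m‖ ^ 2 := by
        intro m
        rw [Pi.smul_apply, norm_smul, ha', Complex.norm_real, Real.norm_eq_abs,
          abs_of_nonneg (by positivity), mul_pow, inv_pow, Real.sq_sqrt hcp.le]
      rw [Finset.sum_congr rfl fun m _ => h4 m, ← Finset.mul_sum, h3, inv_mul_cancel₀ hc0]
      norm_num
    · intro u hu
      rw [dotProduct_smul, hxO u hu, smul_zero]

end Main

end Q101Ig
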