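import Pool.Agent.Q101.IgS2
import Pool.Agent.Q101.IgMain

/-!
# Ergodicity and weak mixing of typical compact group extensions: final assembly
-/

set_option autoImplicit false

open MeasureTheory Set Filter Topology
open scoped Matrix

namespace Q101Ig

/-- typical extensions of ergodic interval exchange transformations are ergodic -/
def S_erg : Prop := ∀ (d : ℕ) (lam : Fin d → ℝ) (σ : Equiv.Perm (Fin d)), (∀ j, 0 < lam j) →
  ∑ j, lam j = 1 → Ergodic (iet lam σ) leb →
  ∀ (G : Type) [Group G] [TopologicalSpace G] [IsTopologicalGroup G]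
  [CompactSpace G] [ConnectedSpace G] [T2Space G] [SecondCountableTopology G] [MeasurableSpace G]
  [BorelSpace G] (μ : Measure G) [μ.IsHaarMeasure] [IsProbabilityMeasure μ],
  ∀ᵐ g ∂(Measure.pi fun _ : Fin d => μ), Ergodic (skew lam σ g) (leb.prod μ)

theorem er_pres {d : ℕ} (lam : Fin d → ℝ) (σ : Equiv.Perm (Fin d))
    (hT : MeasurePreserving (iet lam σ) leb leb)
    {G : Type} [Group G] [MeasurableSpace G] [MeasurableMul₂ G] (μ : Measure G)
    [IsProbabilityMeasure μ] [μ.IsMulLeftInvariant] (g : Fin d → G)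
    (hφ : Measurable (stepFn lam g)) :
    MeasurePreserving (skew lam σ g) (leb.prod μ) (leb.prod μ) := by
  have h1 : Measurable (Function.uncurry fun (x : ℝ) (y : G) => stepFn lam g x * y) :=
    (hφ.comp measurable_fst).mul measurable_snd
  exact hT.skew_product h1 (ae_of_all _ fun x => map_mul_left_eq_self μ _)

/-- the representations of the dense sequence of coefficients -/
theorem er_rep (hpw : S_pw) (G : Type) [Group G] [TopologicalSpace G] [IsTopologicalGroup G]
    [CompactSpace G] [T2Space G] [SecondCountableTopology G] :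
    ∃ (ι : ℕ → Type) (_ : ∀ k, Fintype (ι k)) (_ : ∀ k, DecidableEq (ι k))
      (ρ : ∀ k, G →* Matrix.unitaryGroup (ι k) ℂ) (A : ∀ k, Matrix (ι k) (ι k) ℂ)
      (u : ℕ → C(G, ℂ)), (∀ k, Continuous (ρ k)) ∧ DenseRange u ∧
      ∀ k y, u k y = (A k * (ρ k y : Matrix (ι k) (ι k) ℂ)).trace := by
  obtain ⟨u, hu, hd⟩ := hpw G
  choose ι h1 h2 ρ A hρ hA using hu
  exact ⟨ι, h1, h2, ρ, A, u, hρ, hd, hA⟩

/-- eigenfunctions of the extension come from eigenfunctions of the interval exchange -/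
theorem er_eig (hfin : S_fin) (heq : S_equiv) {d : ℕ} (lam : Fin d → ℝ) (σ : Equiv.Perm (Fin d))
    (hpos : ∀ j, 0 < lam j) (hsum : ∑ j, lam j = 1) (τ : Fin d → ℝ)
    (hS : Sys (iet lam σ) (piece lam) τ)
    (G : Type) [Group G] [TopologicalSpace G] [IsTopologicalGroup G]
    [CompactSpace G] [T2Space G] [SecondCountableTopology G] [MeasurableSpace G]
    [BorelSpace G] (μ : Measure G) [μ.IsHaarMeasure] [IsProbabilityMeasure μ]
    (ι : ℕ → Type) [∀ k, Fintype (ι k)] [∀ k, DecidableEq (ι k)]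
    (ρ : ∀ k, G →* Matrix.unitaryGroup (ι k) ℂ) (A : ∀ k, Matrix (ι k) (ι k) ℂ)
    (u : ℕ → C(G, ℂ)) (hρ : ∀ k, Continuous (ρ k)) (hd : DenseRange u)
    (hA : ∀ k y, u k y = (A k * (ρ k y : Matrix (ι k) (ι k) ℂ)).trace)
    (g : Fin d → G) (c : ℂ) (hc : ‖c‖ = 1)
    (hg : ∀ k, Good (iet lam σ) (piece lam) (ρ k) g c) (f : ℝ × G → ℂ) (hf : Measurable f)
    (hb : ∀ z, ‖f z‖ ≤ 1) (h : ∀ᵐ z ∂(leb.prod μ), f (skew lam σ g z) = c * f z) :
    ∃ m : ℝ → ℂ, Measurable m ∧ (∀ᵐ z ∂(leb.prod μ), f z = m z.1) ∧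
      ∀ᵐ x ∂leb, m (iet lam σ x) = c * m x := by
  obtain ⟨h1, h2, h3⟩ := heq d lam σ hpos hsum
  obtain ⟨h4, h5, -⟩ := h3 G g
  exact hfin d (iet lam σ) (piece lam) hS.meas hS.cover h2 G μ ι ρ A u hρ hd hA g
    (stepFn lam g) h4 h5 c hc hg f hf hb h

theorem er_const {G : Type} [MeasurableSpace G] (μ : Measure G) [IsProbabilityMeasure μ]
    (s : Set (ℝ × G)) (c : ℂ)
    (h : ∀ᵐ z ∂(leb.prod μ), s.indicator (fun _ => (1 : ℂ)) z = c) :
    EventuallyConst s (ae (leb.prod μ)) := by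
  rw [eventuallyConst_set']
  by_cases hc : c = 1
  · right
    filter_upwards [h] with z hz
    rw [hc] at hz
    have : z ∈ s := by
      by_contra hzs
      rw [indicator_of_notMem hzs] at hz
      exact zero_ne_one hz
    exact eq_true this
  · left
    filter_upwards [h] with z hz
    have : z ∉ s := by
      intro hzs
      rw [indicator_of_mem hzs] at hz
      exact hc hz.symm
    exact eq_false this

theorem erg_all (hM : S_good1) (hfin : S_fin) (heq : S_equiv) (hinit : S_init) (hpw : S_pw) :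
    S_erg := by
  intro d lam σ hpos hsum herg G _ _ _ _ _ _ _ _ _ μ _ _
  obtain ⟨hS, hV⟩ := hinit d lam σ hpos hsum herg
  obtain ⟨ι, _, _, ρ, A, u, hρ, hd, hA⟩ := er_rep hpw G
  have hg : ∀ k, ∀ᵐ g ∂(Measure.pi fun _ : Fin d => μ),
      Good (iet lam σ) (piece lam) (ρ k) g 1 := fun k =>
    hM d _ _ _ hS _ hV rfl rfl Nielsen.base G μ (ι k) (ρ k) (hρ k)
  rw [← ae_all_iff] at hg
  filter_upwards [hg] with g hg
  obtain ⟨h1, h2, h3⟩ := heq d lam σ hpos hsum
  obtain ⟨h4, h5, -⟩ := h3 G g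
  have hmp := er_pres lam σ h2 μ g h4
  refine ⟨hmp, ⟨fun s hs hinv => ?_⟩⟩
  have hfm : Measurable (s.indicator fun _ => (1 : ℂ)) := measurable_const.indicator hs
  obtain ⟨m, hm, hm1, hm2⟩ := er_eig hfin heq lam σ hpos hsum _ hS G μ ι ρ A u hρ hd hA g 1
    norm_one hg (s.indicator fun _ => (1 : ℂ)) hfm (fun z => by
      by_cases hz : z ∈ s
      · rw [indicator_of_mem hz, norm_one]
      · rw [indicator_of_notMem hz, norm_zero]
        exact zero_le_one) (ae_of_all _ fun z => by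
      rw [one_mul]
      by_cases hz : z ∈ s
      · have : skew lam σ g z ∈ s := by
          rw [← hinv] at hz
          exact hz
        rw [indicator_of_mem hz, indicator_of_mem this]
      · have : skew lam σ g z ∉ s := by
          intro h6
          apply hz
          rw [← hinv]
          exact h6
        rw [indicator_of_notMem hz, indicator_of_notMem this])
  simp only [one_mul] at hm2
  obtain ⟨c, hc⟩ := herg.ae_eq_const_of_ae_eq_comp₀ hm.nullMeasurable hm2
  refine er_const μ s c ?_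
  have h6 : ∀ᵐ z ∂(leb.prod μ), m z.1 = c := by
    have h7 : (fun z : ℝ × G => m z.1) =ᵐ[leb.prod μ] fun _ => c :=
      (Measure.quasiMeasurePreserving_fst (μ := leb) (ν := μ)).ae_eq_comp hc
    exact h7
  filter_upwards [hm1, h6] with z h8 h9
  rw [h8, h9]

end Q101Ig
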