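import Pool.Agent.Q101.IgS

/-!
# The main step, part A: pairs with almost common fixed vectors
-/

set_option autoImplicit false

open MeasureTheory Set Filter Topology
open scoped Matrix

namespace Q101Ig

section MainA

variable {G : Type} [Group G] {ι : Type} [Fintype ι] [DecidableEq ι]

/-- unit vectors orthogonal to the fixed vectors -/
def MaK (ρ : G →* Matrix.unitaryGroup ι ℂ) : Set (ι → ℂ) := {v | star v ⬝ᵥ v = 1 ∧ OrthFix ρ v}

/-- pairs with an almost fixed vector -/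
def MaC (ρ : G →* Matrix.unitaryGroup ι ℂ) (ε : ℝ) : Set (G × G) :=
  {p | ∃ v ∈ MaK ρ, ‖(ρ p.1 : Matrix ι ι ℂ) *ᵥ v - v‖ ≤ ε ∧
    ‖(ρ p.2 : Matrix ι ι ℂ) *ᵥ v - v‖ ≤ ε}

theorem MaK_isClosed (ρ : G →* Matrix.unitaryGroup ι ℂ) : IsClosed (MaK ρ) := by
  have h1 : IsClosed {v : ι → ℂ | star v ⬝ᵥ v = 1} :=
    isClosed_eq (by fun_prop) continuous_const
  have h2 : IsClosed {v : ι → ℂ | OrthFix ρ v} := by
    have : {v : ι → ℂ | OrthFix ρ v} =
        ⋂ u : {u : ι → ℂ // ∀ g, (ρ g : Matrix ι ι ℂ) *ᵥ u = u},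
          {v : ι → ℂ | star u.1 ⬝ᵥ v = 0} := by
      ext v
      simp only [OrthFix, mem_setOf_eq, mem_iInter, Subtype.forall]
    rw [this]
    exact isClosed_iInter fun u => isClosed_eq (by fun_prop) continuous_const
  exact h1.inter h2

theorem MaK_norm (ρ : G →* Matrix.unitaryGroup ι ℂ) {v : ι → ℂ} (hv : v ∈ MaK ρ) : ‖v‖ ≤ 1 := by
  have h1 : (∑ i, ‖v i‖ ^ 2 : ℝ) = 1 := by
    have h2 := hv.1
    rw [dotProduct] at h2
    have h3 : ∀ i, star v i * v i = ((‖v i‖ ^ 2 : ℝ) : ℂ) := by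
      intro i
      rw [Pi.star_apply]
      have := Complex.conj_mul' (v i)
      rw [Complex.star_def, this]
      push_cast
      rfl
    rw [Finset.sum_congr rfl fun i _ => h3 i] at h2
    exact_mod_cast h2
  refine (pi_norm_le_iff_of_nonneg zero_le_one).2 fun i => ?_
  have h4 : ‖v i‖ ^ 2 ≤ 1 := by
    rw [← h1]
    exact Finset.single_le_sum (f := fun i => ‖v i‖ ^ 2) (fun j _ => by positivity)
      (Finset.mem_univ i)
  have h5 : 0 ≤ ‖v i‖ := norm_nonneg _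
  nlinarith

theorem MaK_isCompact (ρ : G →* Matrix.unitaryGroup ι ℂ) : IsCompact (MaK ρ) := by
  refine Metric.isCompact_of_isClosed_isBounded (MaK_isClosed ρ) ?_
  rw [isBounded_iff_forall_norm_le]
  exact ⟨1, fun v hv => MaK_norm ρ hv⟩

variable [TopologicalSpace G]

theorem MaC_isClosed (ρ : G →* Matrix.unitaryGroup ι ℂ) (hρ : Continuous ρ) (ε : ℝ) :
    IsClosed (MaC ρ ε) := by
  have hK : CompactSpace (MaK ρ) := isCompact_iff_compactSpace.1 (MaK_isCompact ρ)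
  have hc : ∀ f : MaK ρ × (G × G) → G, Continuous f → Continuous fun q : MaK ρ × (G × G) =>
      ‖((ρ (f q) : Matrix ι ι ℂ) *ᵥ (q.1 : ι → ℂ)) - (q.1 : ι → ℂ)‖ := by
    intro f hf
    have h1 : Continuous fun q : MaK ρ × (G × G) => (ρ (f q) : Matrix ι ι ℂ) :=
      continuous_subtype_val.comp (hρ.comp hf)
    have h2 : Continuous fun q : MaK ρ × (G × G) => ((q.1 : MaK ρ) : ι → ℂ) :=
      continuous_subtype_val.comp continuous_fst
    exact ((h1.matrix_mulVec h2).sub h2).norm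
  have hS : IsClosed {q : MaK ρ × (G × G) |
      ‖(ρ q.2.1 : Matrix ι ι ℂ) *ᵥ (q.1 : ι → ℂ) - q.1‖ ≤ ε ∧
      ‖(ρ q.2.2 : Matrix ι ι ℂ) *ᵥ (q.1 : ι → ℂ) - q.1‖ ≤ ε} :=
    (isClosed_le (hc _ (by fun_prop)) continuous_const).inter
      (isClosed_le (hc _ (by fun_prop)) continuous_const)
  have him := isClosedMap_snd_of_compactSpace _ hS
  convert him using 1
  ext p
  simp only [MaC, mem_setOf_eq, mem_image, Prod.exists, exists_eq_right]
  constructor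
  · rintro ⟨v, hv, h1, h2⟩
    exact ⟨⟨v, hv⟩, h1, h2⟩
  · rintro ⟨v, h1, h2⟩
    exact ⟨v.1, v.2, h1, h2⟩

theorem MaC_mono (ρ : G →* Matrix.unitaryGroup ι ℂ) {ε ε' : ℝ} (h : ε ≤ ε') :
    MaC ρ ε ⊆ MaC ρ ε' := by
  rintro p ⟨v, hv, h1, h2⟩
  exact ⟨v, hv, h1.trans h, h2.trans h⟩

theorem MaC_inter (ρ : G →* Matrix.unitaryGroup ι ℂ) :
    (⋂ k : ℕ, MaC ρ (1 / ((k : ℝ) + 1))) ⊆ {p : G × G | ∃ v : ι → ℂ, v ≠ 0 ∧ OrthFix ρ v ∧
    (ρ p.1 : Matrix ι ι ℂ) *ᵥ v = v ∧ (ρ p.2 : Matrix ι ι ℂ) *ᵥ v = v} := by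
  intro p hp
  rw [mem_iInter] at hp
  choose v hv h1 h2 using hp
  obtain ⟨v0, hv0, φ, hφ, hlim⟩ := (MaK_isCompact ρ).tendsto_subseq hv
  have key : ∀ A : Matrix ι ι ℂ, (∀ k, ‖A *ᵥ v k - v k‖ ≤ 1 / ((k : ℝ) + 1)) → A *ᵥ v0 = v0 := by
    intro A hA
    have hc : Tendsto (fun k => A *ᵥ v (φ k) - v (φ k)) atTop (𝓝 (A *ᵥ v0 - v0)) := by
      have h3 : Continuous fun u : ι → ℂ => A *ᵥ u - u :=
        (continuous_const.matrix_mulVec continuous_id).sub continuous_id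
      exact (h3.tendsto v0).comp hlim
    have h0 : Tendsto (fun k => A *ᵥ v (φ k) - v (φ k)) atTop (𝓝 0) := by
      rw [tendsto_zero_iff_norm_tendsto_zero]
      refine squeeze_zero (fun _ => norm_nonneg _) (fun k => hA (φ k)) ?_
      exact (tendsto_one_div_add_atTop_nhds_zero_nat).comp hφ.tendsto_atTop
    exact sub_eq_zero.1 (tendsto_nhds_unique hc h0)
  refine ⟨v0, ?_, hv0.2, key _ h1, key _ h2⟩
  rintro rfl
  have := hv0.1
  simp at this

theorem MaC_tendsto [IsTopologicalGroup G] [CompactSpace G] [ConnectedSpace G]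
    [SecondCountableTopology G] [MeasurableSpace G] [BorelSpace G] (hp : S_pair) (μ : Measure G)
    [μ.IsHaarMeasure] [IsProbabilityMeasure μ] (ρ : G →* Matrix.unitaryGroup ι ℂ)
    (hρ : Continuous ρ) :
    Tendsto (fun k : ℕ => (μ.prod μ) (MaC ρ (1 / ((k : ℝ) + 1)))) atTop (𝓝 0) := by
  have h1 : (μ.prod μ) (⋂ k : ℕ, MaC ρ (1 / ((k : ℝ) + 1))) = 0 :=
    measure_mono_null (MaC_inter ρ) (hp G μ ι ρ hρ)
  rw [← h1]
  refine tendsto_measure_iInter_atTop (fun k => ?_) ?_ ⟨0, measure_ne_top _ _⟩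
  · exact (MaC_isClosed ρ hρ _).measurableSet.nullMeasurableSet
  · intro a b hab
    refine MaC_mono ρ ?_
    apply one_div_le_one_div_of_le (by positivity)
    have : (a : ℝ) ≤ b := by exact_mod_cast hab
    linarith

end MainA

end Q101Ig
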