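import Pool.Agent.Q101.IgMainA

/-!
# The main step, part B: equivariant functions along words, Lebesgue points
-/

set_option autoImplicit false

open MeasureTheory Set Filter Topology
open scoped Matrix

namespace Q101Ig

section MainB

variable {d : ℕ} {G : Type} [Group G] {ι : Type} [Fintype ι] [DecidableEq ι]

theorem mb_follows (T : ℝ → ℝ) (P : Fin d → Set ℝ) (τ : Fin d → ℝ)
    (htr : ∀ j, ∀ x ∈ P j, T x = x + τ j) (w : List (Fin d)) :
    ∀ x, Follows T P w x → T^[w.length] x = x + tr τ w := by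
  induction w with
  | nil =>
    intro x _
    simp [tr]
  | cons j w ih =>
    intro x hx
    rw [List.length_cons, Function.iterate_succ_apply, ih (T x) hx.2, htr j x hx.1]
    simp [tr, add_assoc]

theorem mb_word (T : ℝ → ℝ) (P : Fin d → Set ℝ) (ρ : G →* Matrix.unitaryGroup ι ℂ)
    (g : Fin d → G) (F : ℝ → ι → ℂ) (w : List (Fin d)) :
    ∀ x, (∀ m j, T^[m] x ∈ P j → F (T^[m + 1] x) = (ρ (g j) : Matrix ι ι ℂ) *ᵥ F (T^[m] x)) →
      Follows T P w x →
      F (T^[w.length] x) = (ρ (wprod g w) : Matrix ι ι ℂ) *ᵥ F x := by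
  induction w with
  | nil =>
    intro x _ _
    simp [wprod]
  | cons j w ih =>
    intro x hx hw
    have h1 := ih (T x) (fun m i hm => by
      have := hx (m + 1) i (by rwa [Function.iterate_succ_apply])
      rwa [Function.iterate_succ_apply, Function.iterate_succ_apply (f := T) (n := m)] at this) hw.2
    rw [List.length_cons, Function.iterate_succ_apply, h1]
    have h2 := hx 0 j hw.1
    rw [Function.iterate_zero, id, zero_add, Function.iterate_one] at h2
    rw [h2, wprod, map_mul, Matrix.mulVec_mulVec]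
    rfl

theorem mb_ae (T : ℝ → ℝ) (hT : MeasurePreserving T leb leb) (P : Fin d → Set ℝ)
    (ρ : G →* Matrix.unitaryGroup ι ℂ) (g : Fin d → G) (F : ℝ → ι → ℂ)
    (h : ∀ j, ∀ᵐ x ∂leb, x ∈ P j → F (T x) = (ρ (g j) : Matrix ι ι ℂ) *ᵥ F x) :
    ∀ᵐ x ∂leb, ∀ m j, T^[m] x ∈ P j →
      F (T^[m + 1] x) = (ρ (g j) : Matrix ι ι ℂ) *ᵥ F (T^[m] x) := by
  rw [ae_all_iff]
  intro m
  rw [ae_all_iff]
  intro j
  filter_upwards [(hT.iterate m).quasiMeasurePreserving.ae (h j)] with x hx hm
  rw [Function.iterate_succ_apply']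
  exact hx hm

/-- The equivariance along the pieces of a valid state -/
theorem mb_piece (T : ℝ → ℝ) (P : Fin d → Set ℝ) (τ : Fin d → ℝ) (hS : Sys T P τ)
    (ρ : G →* Matrix.unitaryGroup ι ℂ) (g : Fin d → G) (F : ℝ → ι → ℂ)
    (h : ∀ j, ∀ᵐ x ∂leb, x ∈ P j → F (T x) = (ρ (g j) : Matrix ι ι ℂ) *ᵥ F x)
    (s : St d) (hs : Valid T P τ s) (i : Fin d) :
    ∀ᵐ x ∂leb, x ∈ s.I i →
      F (x + tr τ (s.w i)) = (ρ (wprod g (s.w i)) : Matrix ι ι ℂ) *ᵥ F x := by
  filter_upwards [mb_ae T hS.erg.toMeasurePreserving P ρ g F h] with x hx hi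
  have h1 := hs.ind.itin i x hi
  rw [← mb_follows T P τ hS.trans _ x h1]
  exact mb_word T P ρ g F _ x hx h1

/-- Lebesgue points -/
theorem mb_leb (f : ℝ → ι → ℂ) (hf : LocallyIntegrable f volume) :
    ∀ᵐ x ∂(volume : Measure ℝ), ∀ a b : ℕ → ℝ, (∀ k, a k < b k) → (∀ k, x ∈ Icc (a k) (b k)) →
      Tendsto (fun k => b k - a k) atTop (𝓝 0) →
      Tendsto (fun k => (b k - a k)⁻¹ * ∫ y in Icc (a k) (b k), ‖f y - f x‖) atTop (𝓝 0) := by
  filter_upwards [IsUnifLocDoublingMeasure.ae_tendsto_average_norm_sub (μ := volume) hf 1]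
    with x hx a b hab hxab hlim
  have h1 := hx (l := atTop) (fun k => (a k + b k) / 2) (fun k => (b k - a k) / 2) (by
      rw [tendsto_nhdsWithin_iff]
      refine ⟨by simpa using hlim.div_const 2, Eventually.of_forall fun k => ?_⟩
      have := hab k
      rw [mem_Ioi]
      linarith) (Eventually.of_forall fun k => by
      have h2 := hxab k
      rw [one_mul, Real.closedBall_eq_Icc]
      constructor <;> [have := h2.1; have := h2.2] <;> linarith)
  refine h1.congr fun k => ?_
  have h2 : Metric.closedBall ((a k + b k) / 2) ((b k - a k) / 2) = Icc (a k) (b k) := by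
    rw [Real.closedBall_eq_Icc]
    congr 1 <;> ring
  rw [h2, setAverage_eq, Measure.real, Real.volume_Icc, smul_eq_mul,
    ENNReal.toReal_ofReal (by linarith [hab k])]

end MainB

end Q101Ig
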