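import Pool.Agent.Q101.IgMainB

/-!
# The main step, part C: return words almost fix the values at Lebesgue points
-/

set_option autoImplicit false

open MeasureTheory Set Filter Topology
open scoped Matrix

namespace Q101Ig

section MainC

variable {d : ℕ} {G : Type} [Group G] {ι : Type} [Fintype ι] [DecidableEq ι]

theorem mc_entry (U : Matrix.unitaryGroup ι ℂ) (u : ι → ℂ) :
    ‖(U : Matrix ι ι ℂ) *ᵥ u‖ ≤ Fintype.card ι * ‖u‖ := by
  refine (pi_norm_le_iff_of_nonneg (by positivity)).2 fun i => ?_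
  rw [Matrix.mulVec, dotProduct]
  refine (norm_sum_le _ _).trans ?_
  calc ∑ j, ‖(U : Matrix ι ι ℂ) i j * u j‖ ≤ ∑ _j : ι, ‖u‖ := by
        refine Finset.sum_le_sum fun j _ => ?_
        rw [norm_mul]
        have h1 : ‖(U : Matrix ι ι ℂ) i j‖ ≤ 1 := entry_norm_bound_of_unitary U.2 i j
        calc _ ≤ 1 * ‖u‖ := mul_le_mul h1 (norm_le_pi_norm u j) (norm_nonneg _) zero_le_one
          _ = ‖u‖ := one_mul _
    _ = _ := by simp

theorem mc_sub (T : ℝ → ℝ) (P : Fin d → Set ℝ) (τ : Fin d → ℝ) (hS : Sys T P τ)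
    (s : St d) (hs : Valid T P τ s) : s.J ⊆ Ico 0 1 := by
  intro x hx
  rw [hs.ind.cover] at hx
  obtain ⟨i, hi⟩ := mem_iUnion.1 hx
  have h1 := hs.ind.itin i x hi
  have h2 := hs.ind.ne i
  rw [hS.cover]
  obtain ⟨j, w, hw⟩ := List.exists_cons_of_ne_nil h2
  rw [hw] at h1
  exact mem_iUnion.2 ⟨j, h1.1⟩

theorem mc_one (T : ℝ → ℝ) (P : Fin d → Set ℝ) (τ : Fin d → ℝ) (hS : Sys T P τ)
    (ρ : G →* Matrix.unitaryGroup ι ℂ) (g : Fin d → G) (F : ℝ → ι → ℂ)
    (h : ∀ j, ∀ᵐ x ∂leb, x ∈ P j → F (T x) = (ρ (g j) : Matrix ι ι ℂ) *ᵥ F x)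
    (hint : Integrable ((Ico (0 : ℝ) 1).indicator F) volume)
    (s : St d) (hs : Valid T P τ s) (i : Fin d) (v : ι → ℂ) :
    s.l i * ‖(ρ (wprod g (s.w i)) : Matrix ι ι ℂ) *ᵥ v - v‖ ≤
      ((Fintype.card ι : ℝ) + 1) *
        ∫ y in Icc s.a s.b, ‖(Ico (0 : ℝ) 1).indicator F y - v‖ := by
  set Ft := (Ico (0 : ℝ) 1).indicator F with hFt
  set t := tr τ (s.w i) with ht
  set r := wprod g (s.w i) with hr
  set C : ℝ := (Fintype.card ι : ℝ) with hC
  have hJ := mc_sub T P τ hS s hs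
  have hI : s.I i ⊆ s.J := by
    rw [hs.ind.cover]
    exact subset_iUnion s.I i
  have hI2 : (fun x => x + t) '' s.I i ⊆ s.J := by
    have h1 := hs.ind.bcover
    rw [h1]
    exact subset_iUnion (img τ s.I s.w) i
  have hJI : s.J ⊆ Icc s.a s.b := Ico_subset_Icc_self
  have hn : ∀ t' : ℝ, IntegrableOn (fun y => ‖Ft (y + t') - v‖) (Icc s.a s.b) volume := by
    intro t'
    have h1 : IntegrableOn (fun y => Ft (y + t') - v) (Icc s.a s.b) volume :=
      (hint.comp_add_right t').integrableOn.sub (integrableOn_const (by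
        rw [Real.volume_Icc]
        exact ENNReal.ofReal_ne_top))
    exact h1.norm
  have hn1 : IntegrableOn (fun y => ‖Ft y - v‖) (Icc s.a s.b) volume := by
    have h1 := hn 0
    simpa using h1
  have hn2 : IntegrableOn (fun y => ‖Ft (y + t) - v‖) (s.I i) volume :=
    (hn t).mono_set (hI.trans hJI)
  have hmI : MeasurableSet (s.I i) := measurableSet_Ico
  -- pointwise estimate
  have hpt : ∀ᵐ y ∂volume.restrict (s.I i), ‖(ρ r : Matrix ι ι ℂ) *ᵥ v - v‖ ≤
      C * ‖Ft y - v‖ + ‖Ft (y + t) - v‖ := by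
    rw [ae_restrict_iff' hmI]
    have h1 := mb_piece T P τ hS ρ g F h s hs i
    rw [leb, ae_restrict_iff' measurableSet_Ico] at h1
    filter_upwards [h1] with y hy hyI
    have h2 : y ∈ Ico (0 : ℝ) 1 := hJ (hI hyI)
    have h3 : y + t ∈ Ico (0 : ℝ) 1 := hJ (hI2 ⟨y, hyI, rfl⟩)
    have h4 : Ft y = F y := indicator_of_mem h2 F
    have h5 : Ft (y + t) = F (y + t) := indicator_of_mem h3 F
    have h6 := hy h2 hyI
    have h7 : (ρ r : Matrix ι ι ℂ) *ᵥ v - v =
        (Ft (y + t) - v) - (ρ r : Matrix ι ι ℂ) *ᵥ (Ft y - v) := by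
      rw [Matrix.mulVec_sub, h4, h5, h6]
      abel
    rw [h7]
    refine (norm_sub_le _ _).trans ?_
    have h8 := mc_entry (ρ r) (Ft y - v)
    rw [hC]
    linarith
  have hl : (volume.restrict (s.I i)).real univ = s.l i := by
    rw [measureReal_restrict_apply_univ, St.I, Real.volume_real_Ico_of_le (by linarith [hs.nonneg i])]
    ring
  have h1 : s.l i * ‖(ρ r : Matrix ι ι ℂ) *ᵥ v - v‖ ≤
      ∫ y in s.I i, (C * ‖Ft y - v‖ + ‖Ft (y + t) - v‖) := by
    have h2 : s.l i * ‖(ρ r : Matrix ι ι ℂ) *ᵥ v - v‖ =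
        ∫ _ in s.I i, ‖(ρ r : Matrix ι ι ℂ) *ᵥ v - v‖ := by
      rw [integral_const, hl, smul_eq_mul]
    rw [h2]
    refine integral_mono_ae ?_ ?_ hpt
    · have : IsFiniteMeasure (volume.restrict (s.I i)) := ⟨by
        rw [Measure.restrict_apply_univ, St.I, Real.volume_Ico]
        exact ENNReal.ofReal_lt_top⟩
      exact integrable_const _
    · exact ((hn1.mono_set (hI.trans hJI)).const_mul C).add hn2
  rw [integral_add ((hn1.mono_set (hI.trans hJI)).const_mul C) hn2, integral_const_mul] at h1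
  have h3 : ∫ y in s.I i, ‖Ft y - v‖ ≤ ∫ y in Icc s.a s.b, ‖Ft y - v‖ :=
    setIntegral_mono_set hn1 (ae_of_all _ fun _ => norm_nonneg _) (hI.trans hJI).eventuallyLE
  have h4 : ∫ y in s.I i, ‖Ft (y + t) - v‖ ≤ ∫ y in Icc s.a s.b, ‖Ft y - v‖ := by
    have h5 : ∫ y in s.I i, ‖Ft (y + t) - v‖ = ∫ y in (fun x => x + t) '' s.I i, ‖Ft y - v‖ := by
      have h6 := (measurePreserving_add_right (volume : Measure ℝ) t).setIntegral_image_emb
        (measurableEmbedding_addRight t) (fun y => ‖Ft y - v‖) (s.I i)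
      exact h6.symm
    rw [h5]
    exact setIntegral_mono_set hn1 (ae_of_all _ fun _ => norm_nonneg _)
      (hI2.trans hJI).eventuallyLE
  have hC0 : 0 ≤ C := by positivity
  nlinarith

/-- at almost every point the return words of short intervals around the point almost fix the value -/
theorem mc_two (T : ℝ → ℝ) (P : Fin d → Set ℝ) (τ : Fin d → ℝ) (hS : Sys T P τ)
    (ρ : G →* Matrix.unitaryGroup ι ℂ) (g : Fin d → G) (F : ℝ → ι → ℂ)
    (h : ∀ j, ∀ᵐ x ∂leb, x ∈ P j → F (T x) = (ρ (g j) : Matrix ι ι ℂ) *ᵥ F x)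
    (hF : Measurable F) (hK : ∀ᵐ x ∂leb, F x ∈ MaK ρ)
    (s : ℕ → St d) (i j : ℕ → Fin d) (hs : ∀ n, Valid T P τ (s n))
    (hi : ∀ n, ((s n).b - (s n).a) / (4 * d) ≤ (s n).l (i n))
    (hj : ∀ n, ((s n).b - (s n).a) / (4 * d) ≤ (s n).l (j n)) :
    ∀ᵐ x ∂leb, ∀ n : ℕ → ℕ, (∀ k, x ∈ (s (n k)).J) →
      Tendsto (fun k => (s (n k)).b - (s (n k)).a) atTop (𝓝 0) → ∀ ε : ℝ, 0 < ε →
      ∀ᶠ k in atTop, (wprod g ((s (n k)).w (i (n k))), wprod g ((s (n k)).w (j (n k)))) ∈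
        MaC ρ ε := by
  have hint : Integrable ((Ico (0 : ℝ) 1).indicator F) volume := by
    rw [integrable_indicator_iff measurableSet_Ico]
    refine ⟨hF.aestronglyMeasurable, ?_⟩
    refine HasFiniteIntegral.of_bounded (C := 1) ?_
    exact hK.mono fun x hx => MaK_norm ρ hx
  have h1 := mb_leb _ hint.locallyIntegrable
  rw [leb, ae_restrict_iff' measurableSet_Ico] at hK ⊢
  filter_upwards [h1, hK] with x hx hxK hx01 n hn hlim ε hε
  have hd : 0 < d := by
    rcases Nat.eq_zero_or_pos d with h0 | h0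
    · subst h0
      exact (i 0).elim0
    · exact h0
  have hd' : (0 : ℝ) < d := by exact_mod_cast hd
  set v := (Ico (0 : ℝ) 1).indicator F x with hv
  have hvF : v = F x := indicator_of_mem hx01 F
  have hvK : v ∈ MaK ρ := by
    rw [hvF]
    exact hxK hx01
  have h2 := hx (fun k => (s (n k)).a) (fun k => (s (n k)).b) (fun k => (hs (n k)).lt)
    (fun k => Ico_subset_Icc_self (hn k)) hlim
  have hC : (0 : ℝ) < 4 * d * ((Fintype.card ι : ℝ) + 1) := by positivity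
  have h3 : ∀ᶠ k in atTop, ((s (n k)).b - (s (n k)).a)⁻¹ *
      ∫ y in Icc (s (n k)).a (s (n k)).b, ‖(Ico (0 : ℝ) 1).indicator F y - v‖ <
        ε / (4 * d * ((Fintype.card ι : ℝ) + 1)) :=
    h2.eventually (gt_mem_nhds (by positivity))
  filter_upwards [h3] with k hk
  have hlt := (hs (n k)).lt
  have hpos : 0 < (s (n k)).b - (s (n k)).a := by linarith
  have key : ∀ m : Fin d, ((s (n k)).b - (s (n k)).a) / (4 * d) ≤ (s (n k)).l m →
      ‖(ρ (wprod g ((s (n k)).w m)) : Matrix ι ι ℂ) *ᵥ v - v‖ ≤ ε := by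
    intro m hm
    have h4 := mc_one T P τ hS ρ g F h hint (s (n k)) (hs (n k)) m v
    set q := ‖(ρ (wprod g ((s (n k)).w m)) : Matrix ι ι ℂ) *ᵥ v - v‖
    set Q := ∫ y in Icc (s (n k)).a (s (n k)).b, ‖(Ico (0 : ℝ) 1).indicator F y - v‖
    set L := (s (n k)).b - (s (n k)).a
    have hq : 0 ≤ q := norm_nonneg _
    have h5 : L / (4 * d) * q ≤ ((Fintype.card ι : ℝ) + 1) * Q :=
      (mul_le_mul_of_nonneg_right hm hq).trans h4
    rw [inv_mul_eq_div, div_lt_iff₀ hpos] at hk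
    have h6 : ((Fintype.card ι : ℝ) + 1) * Q ≤ ((Fintype.card ι : ℝ) + 1) *
        (ε / (4 * d * ((Fintype.card ι : ℝ) + 1)) * L) :=
      mul_le_mul_of_nonneg_left hk.le (by positivity)
    have h7 : ((Fintype.card ι : ℝ) + 1) * (ε / (4 * d * ((Fintype.card ι : ℝ) + 1)) * L) =
        L / (4 * d) * ε := by
      field_simp
    rw [h7] at h6
    exact le_of_mul_le_mul_left (h5.trans h6) (by positivity)
  exact ⟨v, hvK, key _ (hi _), key _ (hj _)⟩

end MainC

end Q101Ig
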