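import Pool.Agent.Q101.IgMainC

/-!
# The main step, part D: Fubini, Fatou and the conclusion
-/

set_option autoImplicit false

open MeasureTheory Set Filter Topology
open scoped Matrix

namespace Q101Ig

section MainD

variable {d : ℕ}

theorem md_two {G : Type} [MeasurableSpace G] (μ : Measure G) [IsProbabilityMeasure μ]
    (i j : Fin d) (hij : i ≠ j) :
    MeasurePreserving (fun h : Fin d → G => (h i, h j)) (Measure.pi fun _ => μ) (μ.prod μ) := by
  have hm : Measurable (fun h : Fin d → G => (h i, h j)) :=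
    (measurable_pi_apply i).prodMk (measurable_pi_apply j)
  refine ⟨hm, ?_⟩
  symm
  refine Measure.prod_eq fun A B hA hB => ?_
  rw [Measure.map_apply hm (hA.prod hB)]
  have h1 : (fun h : Fin d → G => (h i, h j)) ⁻¹' (A ×ˢ B) =
      Set.pi univ (fun k => if k = i then A else if k = j then B else univ) := by
    ext h
    simp only [mem_preimage, mem_prod, mem_univ_pi]
    constructor
    · intro h2 k
      split_ifs with h3 h4
      · rw [h3]
        exact h2.1
      · rw [h4]
        exact h2.2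
      · trivial
    · intro h2
      have h3 := h2 i
      have h4 := h2 j
      rw [if_pos rfl] at h3
      rw [if_neg hij.symm, if_pos rfl] at h4
      exact ⟨h3, h4⟩
  rw [h1, Measure.pi_pi, Finset.prod_eq_mul i j hij]
  · rw [if_pos rfl, if_neg hij.symm, if_pos rfl]
  · intro k _ hk
    rw [if_neg hk.1, if_neg hk.2, measure_univ]
  · intro h2
    exact absurd (Finset.mem_univ _) h2
  · intro h2
    exact absurd (Finset.mem_univ _) h2

/-- the first state around `x` which is shorter than `1/(k+1)` -/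
def mdp (s : ℕ → St d) (k : ℕ) (x : ℝ) (n : ℕ) : Prop :=
  x ∉ Ico (0 : ℝ) 1 ∨ (x ∈ (s n).J ∧ (s n).b - (s n).a < 1 / ((k : ℝ) + 1))

theorem mdp_ex (s : ℕ → St d) (hs : ∀ x ∈ Ico (0 : ℝ) 1, ∀ δ : ℝ, 0 < δ → ∃ n, x ∈ (s n).J ∧
    (s n).b - (s n).a < δ) (k : ℕ) (x : ℝ) : ∃ n, mdp s k x n := by
  by_cases hx : x ∈ Ico (0 : ℝ) 1
  · obtain ⟨n, hn⟩ := hs x hx (1 / ((k : ℝ) + 1)) (by positivity)
    exact ⟨n, Or.inr hn⟩
  · exact ⟨0, Or.inl hx⟩

open Classical in
/-- the index of the first short state around `x` -/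
noncomputable def mdn (s : ℕ → St d) (hs : ∀ x ∈ Ico (0 : ℝ) 1, ∀ δ : ℝ, 0 < δ → ∃ n, x ∈ (s n).J ∧
    (s n).b - (s n).a < δ) (k : ℕ) (x : ℝ) : ℕ := Nat.find (mdp_ex s hs k x)

theorem mdn_spec (s : ℕ → St d) (hs : ∀ x ∈ Ico (0 : ℝ) 1, ∀ δ : ℝ, 0 < δ → ∃ n, x ∈ (s n).J ∧
    (s n).b - (s n).a < δ) (k : ℕ) (x : ℝ) (hx : x ∈ Ico (0 : ℝ) 1) :
    x ∈ (s (mdn s hs k x)).J ∧
      (s (mdn s hs k x)).b - (s (mdn s hs k x)).a < 1 / ((k : ℝ) + 1) := by
  classical
  have h1 := Nat.find_spec (mdp_ex s hs k x)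
  rcases h1 with h1 | h1
  · exact absurd hx h1
  · exact h1

theorem mdn_meas (s : ℕ → St d) (hs : ∀ x ∈ Ico (0 : ℝ) 1, ∀ δ : ℝ, 0 < δ → ∃ n, x ∈ (s n).J ∧
    (s n).b - (s n).a < δ) (k : ℕ) : Measurable (mdn s hs k) := by
  classical
  refine measurable_find (p := fun x n => mdp s k x n) (mdp_ex s hs k) fun n => ?_
  have : {x | mdp s k x n} = (Ico (0 : ℝ) 1)ᶜ ∪ ((s n).J ∩ {_x | (s n).b - (s n).a <
      1 / ((k : ℝ) + 1)}) := by
    ext x
    rfl
  rw [this]
  refine measurableSet_Ico.compl.union (measurableSet_Ico.inter ?_)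
  by_cases h : (s n).b - (s n).a < 1 / ((k : ℝ) + 1) <;> simp [h]

instance : IsProbabilityMeasure leb := ⟨by
  rw [leb, Measure.restrict_apply_univ, Real.volume_Ico, sub_zero, ENNReal.ofReal_one]⟩

/-- Fatou and Markov: events which occur along the chosen states for almost every point -/
theorem md_fatou {V : Type} [MeasurableSpace V] (M : Measure V) [IsProbabilityMeasure M]
    (A : ℕ → Set V) (hA : ∀ n, MeasurableSet (A n)) (q : ENNReal) (hq : ∀ n, M (A n) = q)
    (N : ℕ → ℝ → ℕ) (hN : ∀ k, Measurable (N k)) :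
    M {g | ∀ᵐ x ∂leb, ∀ᶠ k in atTop, g ∈ A (N k x)} ≤ q := by
  set f : ℕ → V × ℝ → ENNReal := fun k => {z : V × ℝ | z.1 ∈ A (N k z.2)}.indicator 1 with hf
  have hset : ∀ k, MeasurableSet {z : V × ℝ | z.1 ∈ A (N k z.2)} := by
    intro k
    have h1 : {z : V × ℝ | z.1 ∈ A (N k z.2)} = ⋃ n, (A n) ×ˢ ((N k) ⁻¹' {n}) := by
      ext z
      simp only [mem_setOf_eq, mem_iUnion, mem_prod, mem_preimage, mem_singleton_iff]
      constructor
      · intro h
        exact ⟨_, h, rfl⟩
      · rintro ⟨n, h, rfl⟩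
        exact h
    rw [h1]
    exact MeasurableSet.iUnion fun n => (hA n).prod (hN k (measurableSet_singleton n))
  have hfm : ∀ k, Measurable (f k) := fun k => measurable_one.indicator (hset k)
  set F : V × ℝ → ENNReal := fun z => liminf (fun k => f k z) atTop with hF
  have hFm : Measurable F := .liminf hfm
  set h : V → ENNReal := fun g => ∫⁻ x, F (g, x) ∂leb with hh
  have hhm : Measurable h := hFm.lintegral_prod_right'
  have h1 : ∫⁻ g, h g ∂M ≤ q := by
    calc ∫⁻ g, h g ∂M = ∫⁻ x, ∫⁻ g, F (g, x) ∂M ∂leb :=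
          lintegral_lintegral_swap (f := fun g x => F (g, x)) hFm.aemeasurable
      _ ≤ ∫⁻ _x, q ∂leb := by
          refine lintegral_mono fun x => ?_
          calc ∫⁻ g, F (g, x) ∂M ≤ liminf (fun k => ∫⁻ g, f k (g, x) ∂M) atTop :=
                lintegral_liminf_le fun k => (hfm k).comp (measurable_id.prodMk measurable_const)
            _ = q := by
                have h2 : ∀ k, ∫⁻ g, f k (g, x) ∂M = q := by
                  intro k
                  have h3 : (fun g => f k (g, x)) = (A (N k x)).indicator 1 := by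
                    funext g
                    rfl
                  rw [h3, lintegral_indicator_one (hA _), hq]
                simp only [h2, liminf_const]
      _ = q := by rw [lintegral_const, measure_univ, mul_one]
  have h2 : {g | ∀ᵐ x ∂leb, ∀ᶠ k in atTop, g ∈ A (N k x)} ⊆ {g | 1 ≤ h g} := by
    intro g hg
    rw [mem_setOf_eq] at hg ⊢
    have h3 : ∀ᵐ x ∂leb, (1 : ENNReal) ≤ F (g, x) := by
      filter_upwards [hg] with x hx
      refine le_liminf_of_le (by isBoundedDefault) ?_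
      filter_upwards [hx] with k hk
      have : (g, x) ∈ {z : V × ℝ | z.1 ∈ A (N k z.2)} := hk
      simp only [hf, indicator_of_mem this]
      exact le_rfl
    calc (1 : ENNReal) = ∫⁻ _x, 1 ∂leb := by rw [lintegral_const, measure_univ, mul_one]
      _ ≤ h g := lintegral_mono_ae h3
  have h3 := mul_meas_ge_le_lintegral hhm (μ := M) 1
  rw [one_mul] at h3
  exact (measure_mono h2).trans (h3.trans h1)

end MainD

end Q101Ig
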