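import Pool.Agent.Q101.IgS2

/-!
# Project IG: almost every step function is good for the multiplier one
-/

set_option autoImplicit false

open MeasureTheory Set Filter Topology
open scoped Matrix

namespace Q101Ig

section

variable {G ι : Type} [Group G] [Fintype ι] [DecidableEq ι] (ρ : G →* Matrix.unitaryGroup ι ℂ)

/-- the fixed vectors -/
def IgRed_fix : Submodule ℂ (EuclideanSpace ℂ ι) where
  carrier := {u | ∀ h : G, (ρ h : Matrix ι ι ℂ) *ᵥ (WithLp.ofLp u) = WithLp.ofLp u}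
  zero_mem' := fun h => by
    rw [WithLp.ofLp_zero, Matrix.mulVec_zero]
  add_mem' := fun {a b} ha hb h => by
    rw [WithLp.ofLp_add, Matrix.mulVec_add, ha h, hb h]
  smul_mem' := fun c a ha h => by
    rw [WithLp.ofLp_smul, Matrix.mulVec_smul, ha h]

theorem IgRed_exists : ∃ r : (ι → ℂ) →ₗ[ℂ] (ι → ℂ),
    (∀ v h, (ρ h : Matrix ι ι ℂ) *ᵥ (v - r v) = v - r v) ∧ ∀ v, OrthFix ρ (r v) := by
  let e : (ι → ℂ) →ₗ[ℂ] EuclideanSpace ℂ ι := (WithLp.linearEquiv 2 ℂ (ι → ℂ)).symm.toLinearMap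
  let e' : EuclideanSpace ℂ ι →ₗ[ℂ] (ι → ℂ) := (WithLp.linearEquiv 2 ℂ (ι → ℂ)).toLinearMap
  let q : EuclideanSpace ℂ ι →ₗ[ℂ] EuclideanSpace ℂ ι :=
    ((IgRed_fix ρ).starProjection : EuclideanSpace ℂ ι →L[ℂ] EuclideanSpace ℂ ι).toLinearMap
  let r : (ι → ℂ) →ₗ[ℂ] (ι → ℂ) := LinearMap.id - e' ∘ₗ q ∘ₗ e
  refine ⟨r, ?_, ?_⟩
  · intro v h
    have h1 : v - r v =
        WithLp.ofLp ((IgRed_fix ρ).starProjection (WithLp.toLp 2 v)) := by
      have h1' : r v = v - WithLp.ofLp ((IgRed_fix ρ).starProjection (WithLp.toLp 2 v)) := rfl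
      rw [h1', sub_sub_cancel]
    rw [h1]
    have h2 : (IgRed_fix ρ).starProjection (WithLp.toLp 2 v) ∈ IgRed_fix ρ :=
      Submodule.starProjection_apply_mem _ _
    exact h2 h
  · intro v u hu
    have h1 : r v =
        WithLp.ofLp (WithLp.toLp 2 v - (IgRed_fix ρ).starProjection (WithLp.toLp 2 v)) := rfl
    rw [h1]
    have h2 : WithLp.toLp 2 u ∈ IgRed_fix ρ := hu
    have h3 := Submodule.sub_starProjection_mem_orthogonal (K := IgRed_fix ρ) (WithLp.toLp 2 v)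
    have h4 := (Submodule.mem_orthogonal _ _).1 h3 _ h2
    rw [EuclideanSpace.inner_eq_star_dotProduct, dotProduct_comm] at h4
    exact h4

variable {ρ}

theorem IgRed_orth {v : ι → ℂ} (hv : OrthFix ρ v) (h : G) :
    OrthFix ρ ((ρ h : Matrix ι ι ℂ) *ᵥ v) := by
  intro u hu
  have h1 : star u ⬝ᵥ ((ρ h : Matrix ι ι ℂ) *ᵥ v) =
      star ((star (ρ h : Matrix ι ι ℂ)) *ᵥ u) ⬝ᵥ v := by
    rw [Matrix.dotProduct_mulVec, Matrix.star_mulVec, Matrix.star_eq_conjTranspose,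
      Matrix.conjTranspose_conjTranspose]
  have h2 : (star (ρ h : Matrix ι ι ℂ)) *ᵥ u = u := by
    have h3 : (star (ρ h : Matrix ι ι ℂ)) * (ρ h : Matrix ι ι ℂ) = 1 :=
      Matrix.UnitaryGroup.star_mul_self (ρ h)
    calc (star (ρ h : Matrix ι ι ℂ)) *ᵥ u =
          (star (ρ h : Matrix ι ι ℂ)) *ᵥ ((ρ h : Matrix ι ι ℂ) *ᵥ u) := by rw [hu h]
      _ = u := by rw [Matrix.mulVec_mulVec, h3, Matrix.one_mulVec]
  rw [h1, h2]
  exact hv u hu

theorem IgRed_zero {w : ι → ℂ} (ho : star w ⬝ᵥ w = 0) : w = 0 := by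
  have h1 : inner ℂ (WithLp.toLp 2 w : EuclideanSpace ℂ ι) (WithLp.toLp 2 w) = 0 := by
    rw [EuclideanSpace.inner_eq_star_dotProduct, dotProduct_comm]
    exact ho
  have h2 := inner_self_eq_zero.1 h1
  have h3 := congrArg WithLp.ofLp h2
  exact h3

theorem IgRed_comm (r : (ι → ℂ) →ₗ[ℂ] (ι → ℂ))
    (ha : ∀ v h, (ρ h : Matrix ι ι ℂ) *ᵥ (v - r v) = v - r v) (hb : ∀ v, OrthFix ρ (r v))
    (h : G) (v : ι → ℂ) :
    r ((ρ h : Matrix ι ι ℂ) *ᵥ v) = (ρ h : Matrix ι ι ℂ) *ᵥ r v := by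
  set w : ι → ℂ := r ((ρ h : Matrix ι ι ℂ) *ᵥ v) - (ρ h : Matrix ι ι ℂ) *ᵥ r v with hw
  have h1 : w = (v - r v) - ((ρ h : Matrix ι ι ℂ) *ᵥ v - r ((ρ h : Matrix ι ι ℂ) *ᵥ v)) := by
    have h2 := ha v h
    rw [Matrix.mulVec_sub] at h2
    rw [← h2, hw]
    abel
  have hfix : ∀ g, (ρ g : Matrix ι ι ℂ) *ᵥ w = w := by
    intro g
    rw [h1, Matrix.mulVec_sub, ha v g, ha _ g]
  have ho : star w ⬝ᵥ w = 0 := by
    have h3 := hb ((ρ h : Matrix ι ι ℂ) *ᵥ v) w hfix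
    have h4 := IgRed_orth (hb v) h w hfix
    have h5 : star w ⬝ᵥ w = star w ⬝ᵥ r ((ρ h : Matrix ι ι ℂ) *ᵥ v) -
        star w ⬝ᵥ ((ρ h : Matrix ι ι ℂ) *ᵥ r v) := by
      rw [← dotProduct_sub, ← hw]
    rw [h5, h3, h4, sub_zero]
  have h0 : w = 0 := IgRed_zero ho
  rw [hw, sub_eq_zero] at h0
  exact h0

end

theorem good1 (hm : S_main) : S_good1 := by
  intro d T P τ hS s₀ hV h0 h1 hN G _ _ _ _ _ _ _ _ μ _ _ ι _ _ ρ hρ
  obtain ⟨r, ha, hb⟩ := IgRed_exists ρ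
  have hrm : Measurable r := (LinearMap.continuous_of_finiteDimensional r).measurable
  filter_upwards [hm d T P τ hS s₀ hV h0 h1 hN G μ ι ρ hρ] with g hg
  intro F hF heq
  have h2 := hg (fun x => r (F x)) (hrm.comp hF) (Eventually.of_forall fun x => hb (F x)) (by
    intro j
    filter_upwards [heq j] with x hx hxj
    rw [hx hxj, one_smul]
    exact IgRed_comm r ha hb (g j) (F x))
  filter_upwards [h2] with x hx h
  have h3 := ha (F x) h
  rw [hx, sub_zero] at h3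
  exact h3

end Q101Ig

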