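import Pool.Agent.Q101.IgDefs

/-!
# Compact group extensions of interval exchange transformations: statements of the lemmas

Project IG of helper101 (MP_5ca0ff_an, MP_8d8e6a_an).
-/

set_option autoImplicit false

open MeasureTheory Set Filter Topology
open scoped Matrix

namespace Q101Ig

/-! ## Part D: induced systems -/

/-- cut off the image of `I β`, which lies in `I α` -/
def S_cutA : Prop := ∀ (d : ℕ) (T : ℝ → ℝ) (P : Fin d → Set ℝ) (τ : Fin d → ℝ) (J : Set ℝ)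
  (I : Fin d → Set ℝ) (w : Fin d → List (Fin d)) (α β : Fin d),
  (∀ j, ∀ x ∈ P j, T x = x + τ j) → Ind T P τ J I w → α ≠ β → img τ I w β ⊆ I α →
  Ind T P τ (J \ img τ I w β) (Function.update I α (I α \ img τ I w β))
    (Function.update w β (w β ++ w α))

/-- cut off `I α`, which lies in the image of `I β` -/
def S_cutB : Prop := ∀ (d : ℕ) (T : ℝ → ℝ) (P : Fin d → Set ℝ) (τ : Fin d → ℝ) (J : Set ℝ)
  (I : Fin d → Set ℝ) (w : Fin d → List (Fin d)) (α β : Fin d),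
  (∀ j, ∀ x ∈ P j, T x = x + τ j) → Ind T P τ J I w → α ≠ β → I α ⊆ img τ I w β →
  Ind T P τ (J \ I α)
    (Function.update (Function.update I β (I β \ (fun x => x - tr τ (w β)) '' I α)) α
      ((fun x => x - tr τ (w β)) '' I α))
    (Function.update w α (w β ++ w α))

/-- one step of the induction at the right end -/
def S_right : Prop := ∀ (d : ℕ) (T : ℝ → ℝ) (P : Fin d → Set ℝ) (τ : Fin d → ℝ),
  (∀ j, ∀ x ∈ P j, T x = x + τ j) → ∀ s : St d, Valid T P τ s →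
  (∀ i, 0 < s.l i → tr τ (s.w i) ≠ 0) →
  ∃ (s' : St d) (c : ℝ) (lo : Fin d), Valid T P τ s' ∧ Step s s' c lo ∧
    (Nielsen s.w → Nielsen s'.w) ∧ s'.a = s.a ∧ s'.b = s.b - c

/-- one step of the induction at the left end -/
def S_left : Prop := ∀ (d : ℕ) (T : ℝ → ℝ) (P : Fin d → Set ℝ) (τ : Fin d → ℝ),
  (∀ j, ∀ x ∈ P j, T x = x + τ j) → ∀ s : St d, Valid T P τ s →
  (∀ i, 0 < s.l i → tr τ (s.w i) ≠ 0) →
  ∃ (s' : St d) (c : ℝ) (lo : Fin d), Valid T P τ s' ∧ Step s s' c lo ∧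
    (Nielsen s.w → Nielsen s'.w) ∧ s'.a = s.a + c ∧ s'.b = s.b

/-- no nonempty piece is fixed by the induced map -/
def S_ap : Prop := ∀ (d : ℕ) (T : ℝ → ℝ) (P : Fin d → Set ℝ) (τ : Fin d → ℝ), Sys T P τ →
  ∀ s : St d, Valid T P τ s → ∀ i, 0 < s.l i → tr τ (s.w i) ≠ 0

/-- the intervals shrink to points, whatever the order of the steps -/
def S_shrink : Prop := ∀ (d : ℕ) (T : ℝ → ℝ) (P : Fin d → Set ℝ) (τ : Fin d → ℝ), Sys T P τ →
  ∀ s : ℕ → St d, (∀ n, Valid T P τ (s n)) → (∀ n, ∃ c lo, Step (s n) (s (n + 1)) c lo) →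
  Tendsto (fun n => (s n).b - (s n).a) atTop (𝓝 0)

/-- infinitely often no piece is longer than three quarters of the interval -/
def S_good : Prop := ∀ (d : ℕ) (T : ℝ → ℝ) (P : Fin d → Set ℝ) (τ : Fin d → ℝ)
  (s : ℕ → St d), (∀ n, Valid T P τ (s n)) →
  (∀ n i, 0 < (s n).l i → tr τ ((s n).w i) ≠ 0) →
  (∀ n, ∃ c lo, Step (s n) (s (n + 1)) c lo) →
  Tendsto (fun n => (s n).b - (s n).a) atTop (𝓝 0) →
  ∃ᶠ n in atTop, ∀ i, (s n).l i ≤ 3 / 4 * ((s n).b - (s n).a)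

/-- a countable family of induced systems with two long pieces, on arbitrarily short intervals
around every point -/
def S_fam : Prop := ∀ (d : ℕ) (T : ℝ → ℝ) (P : Fin d → Set ℝ) (τ : Fin d → ℝ), Sys T P τ →
  ∀ s₀ : St d, Valid T P τ s₀ → s₀.a = 0 → s₀.b = 1 → Nielsen s₀.w →
  ∃ (s : ℕ → St d) (i j : ℕ → Fin d), (∀ n, Valid T P τ (s n) ∧ Nielsen (s n).w ∧ i n ≠ j n ∧
      ((s n).b - (s n).a) / (4 * d) ≤ (s n).l (i n) ∧
      ((s n).b - (s n).a) / (4 * d) ≤ (s n).l (j n)) ∧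
    ∀ x ∈ Ico (0 : ℝ) 1, ∀ δ : ℝ, 0 < δ → ∃ n, x ∈ (s n).J ∧ (s n).b - (s n).a < δ

/-- the initial state -/
def S_init : Prop := ∀ (d : ℕ) (lam : Fin d → ℝ) (σ : Equiv.Perm (Fin d)), (∀ j, 0 < lam j) →
  ∑ j, lam j = 1 → Ergodic (iet lam σ) leb →
  Sys (iet lam σ) (piece lam) (fun j => left' lam σ j - left lam j) ∧
  Valid (iet lam σ) (piece lam) (fun j => left' lam σ j - left lam j)
    ⟨0, 1, left lam, lam, fun i => [i]⟩

/-- Nielsen moves preserve Haar measure -/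
def S_law : Prop := ∀ (G : Type) [Group G] [MeasurableSpace G] [MeasurableMul₂ G]
  (μ : Measure G) [IsProbabilityMeasure μ] [μ.IsMulLeftInvariant] [μ.IsMulRightInvariant] (d : ℕ)
  (w : Fin d → List (Fin d)), Nielsen w →
  MeasurePreserving (fun (g : Fin d → G) (i : Fin d) => wprod g (w i)) (Measure.pi fun _ => μ)
    (Measure.pi fun _ => μ)

/-- Haar measure of a compact group is invariant under right translations -/
def S_haarR : Prop := ∀ (G : Type) [Group G] [TopologicalSpace G] [IsTopologicalGroup G]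
  [CompactSpace G] [SecondCountableTopology G] [MeasurableSpace G] [BorelSpace G]
  (μ : Measure G) [μ.IsHaarMeasure], μ.IsMulRightInvariant

/-! ## Part G: compact connected groups -/

/-- the directions of the one-parameter groups contained in `Γ` -/
def lieOf {A : Type} [NormedRing A] [NormedAlgebra ℝ A] (Γ : Set A) : Set A :=
  {X | ∀ t : ℝ, NormedSpace.exp (t • X) ∈ Γ}

def S_lim : Prop := ∀ (A : Type) [NormedRing A] [NormedAlgebra ℝ A] [CompleteSpace A]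
  (W : ℕ → A) (m : ℕ → ℕ) (Z : A), Tendsto W atTop (𝓝 0) →
  Tendsto (fun k => (m k : ℝ) • W k) atTop (𝓝 Z) →
  Tendsto (fun k => (1 + W k) ^ m k) atTop (𝓝 (NormedSpace.exp Z))

/-- `lieOf Γ` is a closed Lie algebra -/
def S_lie : Prop := ∀ (A : Type) [NormedRing A] [NormedAlgebra ℝ A] [CompleteSpace A]
  (Γ : Set A), IsClosed Γ → (1 : A) ∈ Γ → (∀ x ∈ Γ, ∀ y ∈ Γ, x * y ∈ Γ) →
  (0 : A) ∈ lieOf Γ ∧ (∀ X ∈ lieOf Γ, ∀ Y ∈ lieOf Γ, X + Y ∈ lieOf Γ) ∧
  (∀ (c : ℝ), ∀ X ∈ lieOf Γ, c • X ∈ lieOf Γ) ∧ IsClosed (lieOf Γ) ∧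
  ∀ X ∈ lieOf Γ, ∀ Y ∈ lieOf Γ, X * Y - Y * X ∈ lieOf Γ

/-- a closed subgroup which contains all one-parameter groups is everything -/
def S_gen : Prop := ∀ (G : Type) [Group G] [TopologicalSpace G] [IsTopologicalGroup G]
  [CompactSpace G] [ConnectedSpace G] [SecondCountableTopology G] (A : Type) [NormedRing A]
  [NormedAlgebra ℝ A] [FiniteDimensional ℝ A] (ρ : G →* A), Continuous ρ →
  ∀ H : Subgroup G, IsClosed (H : Set G) →
  (∀ (h : G) (X : A) (t : ℝ), X ∈ lieOf (range ρ) → ρ h = NormedSpace.exp (t • X) → h ∈ H) →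
  H = ⊤

/-- a regular element: elements commuting with it act by scalars on its eigenspaces -/
def Reg {ι : Type} [Fintype ι] (g : Submodule ℝ (Matrix ι ι ℂ)) (X : Matrix ι ι ℂ) : Prop :=
  ∀ Z ∈ g, X * Z = Z * X → ∀ μ : ℂ, ∃ ν : ℂ,
    (∀ A : Matrix ι ι ℂ, X * A - A * X = μ • A → Z * A - A * Z = ν • A) ∧
    ∀ v : ι → ℂ, X *ᵥ v = μ • v → Z *ᵥ v = ν • v

def S_split : Prop := ∀ (ι : Type) [Fintype ι] [DecidableEq ι]
  (g : Submodule ℝ (Matrix ι ι ℂ)), (∀ X ∈ g, Xᴴ = -X) → ∃ X ∈ g, Reg g X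

/-- root spaces are one-dimensional -/
def S_rootdim : Prop := ∀ (ι : Type) [Fintype ι] [DecidableEq ι]
  (g : Submodule ℝ (Matrix ι ι ℂ)), (∀ X ∈ g, Xᴴ = -X) → (∀ X ∈ g, ∀ Y ∈ g, X * Y - Y * X ∈ g) →
  ∀ X ∈ g, Reg g X → ∀ (μ : ℂ) (A B : Matrix ι ι ℂ), μ ≠ 0 →
  (∃ P ∈ g, ∃ Q ∈ g, A = P + Complex.I • Q) → (∃ P ∈ g, ∃ Q ∈ g, B = P + Complex.I • Q) →
  X * A - A * X = μ • A → X * B - B * X = μ • B → (B * Aᴴ).trace = 0 → A = 0 ∨ B = 0

/-- two elements of a compact Lie algebra have no other common null vectors than all elements -/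
def S_root : Prop := ∀ (ι : Type) [Fintype ι] [DecidableEq ι]
  (g : Submodule ℝ (Matrix ι ι ℂ)), (∀ X ∈ g, Xᴴ = -X) → (∀ X ∈ g, ∀ Y ∈ g, X * Y - Y * X ∈ g) →
  ∃ X ∈ g, ∃ Y ∈ g, ∀ v : ι → ℂ, X *ᵥ v = 0 → Y *ᵥ v = 0 → ∀ Z ∈ g, Z *ᵥ v = 0

/-- coefficients of continuous finite-dimensional unitary representations -/
def Coef {G : Type} [Group G] [TopologicalSpace G] (f : G → ℂ) : Prop :=
  ∃ (ι : Type) (_ : Fintype ι) (_ : DecidableEq ι) (ρ : G →* Matrix.unitaryGroup ι ℂ)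
    (A : Matrix ι ι ℂ), Continuous ρ ∧ ∀ g, f g = (A * (ρ g : Matrix ι ι ℂ)).trace

def S_coef : Prop := ∀ (G : Type) [Group G] [TopologicalSpace G] [IsTopologicalGroup G],
  (∀ c : ℂ, Coef (fun _ : G => c)) ∧
  (∀ f f' : G → ℂ, Coef f → Coef f' → Coef (fun g => f g + f' g)) ∧
  (∀ f f' : G → ℂ, Coef f → Coef f' → Coef (fun g => f g * f' g)) ∧
  ∀ f : G → ℂ, Coef f → Coef (fun g => (starRingEnd ℂ) (f g))

/-- coefficients vanish almost nowhere or everywhere -/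
def S_zero : Prop := ∀ (G : Type) [Group G] [TopologicalSpace G] [IsTopologicalGroup G]
  [CompactSpace G] [ConnectedSpace G] [SecondCountableTopology G] [MeasurableSpace G]
  [BorelSpace G] (μ : Measure G) [μ.IsHaarMeasure] [IsProbabilityMeasure μ] (f : G → ℂ), Coef f →
  μ {g | f g = 0} ≠ 0 → ∀ g, f g = 0

/-- the vector `v` is orthogonal to the fixed vectors of `ρ` -/
def OrthFix {G ι : Type} [Group G] [Fintype ι] [DecidableEq ι]
    (ρ : G →* Matrix.unitaryGroup ι ℂ) (v : ι → ℂ) : Prop :=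
  ∀ u : ι → ℂ, (∀ g, (ρ g : Matrix ι ι ℂ) *ᵥ u = u) → star u ⬝ᵥ v = 0

/-- almost no pair of elements has other common fixed vectors than the whole group -/
def S_pair : Prop := ∀ (G : Type) [Group G] [TopologicalSpace G] [IsTopologicalGroup G]
  [CompactSpace G] [ConnectedSpace G] [SecondCountableTopology G] [MeasurableSpace G]
  [BorelSpace G] (μ : Measure G) [μ.IsHaarMeasure] [IsProbabilityMeasure μ] (ι : Type)
  [Fintype ι] [DecidableEq ι] (ρ : G →* Matrix.unitaryGroup ι ℂ), Continuous ρ →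
  (μ.prod μ) {p : G × G | ∃ v : ι → ℂ, v ≠ 0 ∧ OrthFix ρ v ∧
    (ρ p.1 : Matrix ι ι ℂ) *ᵥ v = v ∧ (ρ p.2 : Matrix ι ι ℂ) *ᵥ v = v} = 0

/-- Peter-Weyl: a dense sequence of coefficients -/
def S_pw : Prop := ∀ (G : Type) [Group G] [TopologicalSpace G] [IsTopologicalGroup G]
  [CompactSpace G] [T2Space G] [SecondCountableTopology G],
  ∃ f : ℕ → C(G, ℂ), (∀ k, Coef (f k)) ∧ DenseRange f

/-- the main step: for almost all `g` there are no nonzero equivariant functions with values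
orthogonal to the fixed vectors -/
def S_main : Prop := ∀ (d : ℕ) (T : ℝ → ℝ) (P : Fin d → Set ℝ) (τ : Fin d → ℝ), Sys T P τ →
  ∀ s₀ : St d, Valid T P τ s₀ → s₀.a = 0 → s₀.b = 1 → Nielsen s₀.w →
  ∀ (G : Type) [Group G] [TopologicalSpace G] [IsTopologicalGroup G]
  [CompactSpace G] [ConnectedSpace G] [SecondCountableTopology G] [MeasurableSpace G]
  [BorelSpace G] (μ : Measure G) [μ.IsHaarMeasure] [IsProbabilityMeasure μ] (ι : Type)
  [Fintype ι] [DecidableEq ι] (ρ : G →* Matrix.unitaryGroup ι ℂ), Continuous ρ →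
  ∀ᵐ g ∂(Measure.pi fun _ : Fin d => μ), ∀ F : ℝ → ι → ℂ, Measurable F →
    (∀ᵐ x ∂leb, OrthFix ρ (F x)) →
    (∀ j, ∀ᵐ x ∂leb, x ∈ P j → F (T x) = (ρ (g j) : Matrix ι ι ℂ) *ᵥ F x) →
    ∀ᵐ x ∂leb, F x = 0

end Q101Ig
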