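import Pool.Agent.Q101.IgS
import Pool.Agent.H567R2.MN.Defs

/-!
# Compact group extensions of interval exchange transformations: statements, second part

Project IG of helper101 (MP_5ca0ff_an, MP_8d8e6a_an): final assembly and weak mixing.
-/

set_option autoImplicit false

open MeasureTheory Set Filter Topology
open scoped Matrix

namespace Q101Ig

open H567MM (CorrZero)

/-- vector valued functions with `F (T x) = c ρ(g j) F x` have values in the fixed vectors -/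
def Good {d : ℕ} (T : ℝ → ℝ) (P : Fin d → Set ℝ) {G ι : Type} [Group G] [Fintype ι]
    [DecidableEq ι] (ρ : G →* Matrix.unitaryGroup ι ℂ) (g : Fin d → G) (c : ℂ) : Prop :=
  ∀ F : ℝ → ι → ℂ, Measurable F →
    (∀ j, ∀ᵐ x ∂leb, x ∈ P j → F (T x) = c • ((ρ (g j) : Matrix ι ι ℂ) *ᵥ F x)) →
    ∀ᵐ x ∂leb, ∀ h : G, (ρ h : Matrix ι ι ℂ) *ᵥ F x = F x

/-- almost every `g` is good for the multiplier one -/
def S_good1 : Prop := ∀ (d : ℕ) (T : ℝ → ℝ) (P : Fin d → Set ℝ) (τ : Fin d → ℝ), Sys T P τ →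
  ∀ s₀ : St d, Valid T P τ s₀ → s₀.a = 0 → s₀.b = 1 → Nielsen s₀.w →
  ∀ (G : Type) [Group G] [TopologicalSpace G] [IsTopologicalGroup G]
  [CompactSpace G] [ConnectedSpace G] [SecondCountableTopology G] [MeasurableSpace G]
  [BorelSpace G] (μ : Measure G) [μ.IsHaarMeasure] [IsProbabilityMeasure μ] (ι : Type)
  [Fintype ι] [DecidableEq ι] (ρ : G →* Matrix.unitaryGroup ι ℂ), Continuous ρ →
  ∀ᵐ g ∂(Measure.pi fun _ : Fin d => μ), Good T P ρ g 1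

/-- from vector valued functions to functions on the product with the group -/
def S_fin : Prop := ∀ (d : ℕ) (T : ℝ → ℝ) (P : Fin d → Set ℝ), (∀ j, MeasurableSet (P j)) →
  Ico (0 : ℝ) 1 = ⋃ j, P j → MeasurePreserving T leb leb →
  ∀ (G : Type) [Group G] [TopologicalSpace G] [IsTopologicalGroup G]
  [CompactSpace G] [T2Space G] [SecondCountableTopology G] [MeasurableSpace G]
  [BorelSpace G] (μ : Measure G) [μ.IsHaarMeasure] [IsProbabilityMeasure μ]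
  (ι : ℕ → Type) [∀ k, Fintype (ι k)] [∀ k, DecidableEq (ι k)]
  (ρ : ∀ k, G →* Matrix.unitaryGroup (ι k) ℂ) (A : ∀ k, Matrix (ι k) (ι k) ℂ) (u : ℕ → C(G, ℂ)),
  (∀ k, Continuous (ρ k)) → DenseRange u →
  (∀ k y, u k y = (A k * (ρ k y : Matrix (ι k) (ι k) ℂ)).trace) →
  ∀ (g : Fin d → G) (φ : ℝ → G), Measurable φ → (∀ j, ∀ x ∈ P j, φ x = g j) →
  ∀ c : ℂ, ‖c‖ = 1 → (∀ k, Good T P (ρ k) g c) →
  ∀ f : ℝ × G → ℂ, Measurable f → (∀ z, ‖f z‖ ≤ 1) →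
  (∀ᵐ z ∂(leb.prod μ), f (T z.1, φ z.1 * z.2) = c * f z) →
  ∃ m : ℝ → ℂ, Measurable m ∧ (∀ᵐ z ∂(leb.prod μ), f z = m z.1) ∧
    ∀ᵐ x ∂leb, m (T x) = c * m x

/-- the interval exchange transformation and its extensions are invertible -/
def S_equiv : Prop := ∀ (d : ℕ) (lam : Fin d → ℝ) (σ : Equiv.Perm (Fin d)), (∀ j, 0 < lam j) →
  ∑ j, lam j = 1 → Measurable (iet lam σ) ∧ MeasurePreserving (iet lam σ) leb leb ∧
  ∀ (G : Type) [Group G] [MeasurableSpace G] [MeasurableMul₂ G] [MeasurableInv G]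
    (g : Fin d → G), Measurable (stepFn lam g) ∧ (∀ j, ∀ x ∈ piece lam j, stepFn lam g x = g j) ∧
    ∃ e : (ℝ × G) ≃ᵐ (ℝ × G), ∀ z, e z = skew lam σ g z

/-! ## Part W: weak mixing -/

/-- products with a transformation whose correlations tend to zero in the mean are ergodic -/
def S_prodErg : Prop := ∀ (X Y : Type) [MeasurableSpace X] [MeasurableSpace Y] (μ : Measure X)
  [IsProbabilityMeasure μ] (ν : Measure Y) [IsProbabilityMeasure ν] (T : X → X) (S : Y → Y),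
  MeasurePreserving T μ μ →
  (∀ g : X → ℂ, Measurable g → (∀ x, ‖g x‖ ≤ 1) → ∫ x, g x ∂μ = 0 → CorrZero μ T g) →
  Ergodic S ν → Ergodic (Prod.map T S) (μ.prod ν)

/-- without nonconstant eigenfunctions the correlations tend to zero in the mean -/
def S_eigCorr : Prop := ∀ (Z : Type) [MeasurableSpace Z] (ρ : Measure Z) [IsProbabilityMeasure ρ]
  (e : Z ≃ᵐ Z), Ergodic e ρ →
  (∀ (c : ℂ) (f : Z → ℂ), ‖c‖ = 1 → Measurable f → (∀ z, ‖f z‖ ≤ 1) →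
    (∀ᵐ z ∂ρ, f (e z) = c * f z) → ∃ a : ℂ, ∀ᵐ z ∂ρ, f z = a) →
  ∀ g : Z → ℂ, Measurable g → (∀ z, ‖g z‖ ≤ 1) → ∫ z, g z ∂ρ = 0 → CorrZero ρ e g

/-- frequent returns of an integer cocycle: it is a coboundary -/
def S_kap : Prop := ∀ (Ω : Type) [MeasurableSpace Ω] (P : Measure Ω) [IsProbabilityMeasure P]
  (S : Ω → Ω), Ergodic S P → ∀ ψ : Ω → ℤ, Measurable ψ → ∀ c : ℝ, 0 < c →
  (∀ N₀ : ℕ, ∃ N ≥ N₀, c * N ≤ ∑ n ∈ Finset.range N, P.real {ω | birkhoffSum S ψ n ω = 0}) →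
  ∃ κ : Ω → ℤ, Measurable κ ∧ ∀ᵐ ω ∂P, κ (S ω) = κ ω + ψ ω

/-- integer coboundaries have integral zero -/
def S_cob : Prop := ∀ (X : Type) [MeasurableSpace X] (μ : Measure X) [IsProbabilityMeasure μ]
  (T : X → X), MeasurePreserving T μ μ → ∀ (ψ p : X → ℤ) (l B : ℤ), Measurable ψ →
  (∀ x, |ψ x| ≤ B) → Measurable p → (∀ᵐ x ∂μ, ψ x = l + p (T x) - p x) →
  ∫ x, (ψ x : ℝ) ∂μ = l

/-- two independent orbits seldom have the same sums -/
def S_nocol : Prop := ∀ (X : Type) [MeasurableSpace X] (μ : Measure X) [IsProbabilityMeasure μ]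
  (T : X → X), MeasurePreserving T μ μ → Ergodic (Prod.map T T) (μ.prod μ) →
  ∀ (ψ : X → ℤ) (B : ℤ), Measurable ψ → (∀ x, |ψ x| ≤ B) →
  (∀ l : ℤ, ∫ x, (ψ x : ℝ) ∂μ ≠ l) → ∀ ε : ℝ, 0 < ε → ∃ N₀ : ℕ, ∀ N ≥ N₀,
  ∑ n ∈ Finset.range N, (μ.prod μ).real {z | birkhoffSum T ψ n z.1 = birkhoffSum T ψ n z.2} ≤
    ε * N

/-- scalar twisted eigenfunctions vanish for almost all values of the step function -/
def S_chi : Prop := ∀ (d : ℕ) (T : ℝ → ℝ) (P : Fin d → Set ℝ), (∀ j, MeasurableSet (P j)) →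
  Ico (0 : ℝ) 1 = ⋃ j, P j → (∀ i j, i ≠ j → Disjoint (P i) (P j)) → MeasurePreserving T leb leb →
  Ergodic (Prod.map T T) (leb.prod leb) → (∃ j, 0 < leb (P j) ∧ leb (P j) < 1) →
  ∀ [MeasurableSpace Circle] [BorelSpace Circle] (ν : Measure Circle) [ν.IsHaarMeasure]
  [IsProbabilityMeasure ν], ∀ᵐ a ∂(Measure.pi fun _ : Fin d => ν), ∀ (c : ℂ) (F : ℝ → ℂ), ‖c‖ = 1 → Measurable F →
    (∀ j, ∀ᵐ x ∂leb, x ∈ P j → F (T x) = c * (a j : ℂ) * F x) → ∀ᵐ x ∂leb, F x = 0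

/-- nontrivial characters of connected groups preserve Haar measure -/
def S_char : Prop := ∀ (G : Type) [Group G] [TopologicalSpace G] [IsTopologicalGroup G]
  [CompactSpace G] [ConnectedSpace G] [SecondCountableTopology G] [MeasurableSpace G]
  [BorelSpace G] (μ : Measure G) [μ.IsHaarMeasure] [IsProbabilityMeasure μ] (χ : G →* Circle),
  Continuous χ → (∃ h, χ h ≠ 1) → ∀ [MeasurableSpace Circle] [BorelSpace Circle]
  (ν : Measure Circle) [ν.IsHaarMeasure] [IsProbabilityMeasure ν] (d : ℕ),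
  MeasurePreserving (fun (g : Fin d → G) i => χ (g i))
    (Measure.pi fun _ => μ) (Measure.pi fun _ => ν)

/-- finitely many joint eigenvectors detect all of them -/
def S_joint : Prop := ∀ (G : Type) [Group G] [TopologicalSpace G] [IsTopologicalGroup G]
  (ι : Type) [Fintype ι] [DecidableEq ι] (ρ : G →* Matrix.unitaryGroup ι ℂ), Continuous ρ →
  ∃ (n : ℕ) (b : Fin n → ι → ℂ) (χ : Fin n → (G →* Circle)), (∀ k, Continuous (χ k)) ∧
    (∀ k h, (ρ h : Matrix ι ι ℂ) *ᵥ b k = (χ k h : ℂ) • b k) ∧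
    ∀ v : ι → ℂ, v ≠ 0 → (∀ h, ∃ c : ℂ, (ρ h : Matrix ι ι ℂ) *ᵥ v = c • v) →
      ∃ k, star (b k) ⬝ᵥ v ≠ 0 ∧ ∀ h, (ρ h : Matrix ι ι ℂ) *ᵥ v = (χ k h : ℂ) • v

/-- almost every `g` is good for all multipliers -/
def S_goodc : Prop := ∀ (d : ℕ) (T : ℝ → ℝ) (P : Fin d → Set ℝ) (τ : Fin d → ℝ), Sys T P τ →
  Ergodic (Prod.map T T) (leb.prod leb) → (∃ j, 0 < leb (P j) ∧ leb (P j) < 1) →
  ∀ s₀ : St d, Valid T P τ s₀ → s₀.a = 0 → s₀.b = 1 → Nielsen s₀.w →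
  ∀ (G : Type) [Group G] [TopologicalSpace G] [IsTopologicalGroup G]
  [CompactSpace G] [ConnectedSpace G] [SecondCountableTopology G] [MeasurableSpace G]
  [BorelSpace G] (μ : Measure G) [μ.IsHaarMeasure] [IsProbabilityMeasure μ] (ι : Type)
  [Fintype ι] [DecidableEq ι] (ρ : G →* Matrix.unitaryGroup ι ℂ), Continuous ρ →
  ∀ᵐ g ∂(Measure.pi fun _ : Fin d => μ), ∀ c : ℂ, ‖c‖ = 1 → Good T P ρ g c

end Q101Ig
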