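import Pool.Agent.Q101.IgErg

/-!
# Weak mixing of typical compact group extensions: final assembly
-/

set_option autoImplicit false

open MeasureTheory Set Filter Topology
open scoped Matrix

namespace Q101Ig

/-- typical extensions of weakly mixing interval exchange transformations are weakly mixing -/
def S_wmx : Prop := ∀ (d : ℕ) (lam : Fin d → ℝ) (σ : Equiv.Perm (Fin d)), (∀ j, 0 < lam j) →
  ∑ j, lam j = 1 → Ergodic (Prod.map (iet lam σ) (iet lam σ)) (leb.prod leb) →
  ∀ (G : Type) [Group G] [TopologicalSpace G] [IsTopologicalGroup G]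
  [CompactSpace G] [ConnectedSpace G] [T2Space G] [SecondCountableTopology G] [MeasurableSpace G]
  [BorelSpace G] (μ : Measure G) [μ.IsHaarMeasure] [IsProbabilityMeasure μ],
  ∀ᵐ g ∂(Measure.pi fun _ : Fin d => μ),
    Ergodic (Prod.map (skew lam σ g) (skew lam σ g)) ((leb.prod μ).prod (leb.prod μ))

theorem wx_const {X : Type} [MeasurableSpace X] (μ : Measure X) [IsProbabilityMeasure μ]
    (s : Set X) (hs : MeasurableSet s) (h : μ s = 0 ∨ μ s = 1) : EventuallyConst s (ae μ) := by
  rw [eventuallyConst_set']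
  rcases h with h | h
  · left
    exact ae_eq_empty.2 h
  · right
    rw [ae_eq_univ, prob_compl_eq_zero_iff hs]
    exact h

theorem wx_erg {X : Type} [MeasurableSpace X] (μ : Measure X) [IsProbabilityMeasure μ] (T : X → X)
    (hT : MeasurePreserving T μ μ) (h : Ergodic (Prod.map T T) (μ.prod μ)) : Ergodic T μ := by
  refine ⟨hT, ⟨fun s hs hinv => ?_⟩⟩
  have h1 : Prod.map T T ⁻¹' (s ×ˢ (univ : Set X)) = s ×ˢ (univ : Set X) := by
    ext z
    simp only [mem_preimage, mem_prod, mem_univ, and_true]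
    show T z.1 ∈ s ↔ z.1 ∈ s
    conv_rhs => rw [← hinv]
    rfl
  have h2 := h.toPreErgodic.prob_eq_zero_or_one (hs.prod MeasurableSet.univ) h1
  rw [Measure.prod_prod, measure_univ, mul_one] at h2
  exact wx_const μ s hs h2

/-- weakly mixing transformations have no nonconstant eigenfunctions -/
theorem wx_eig {X : Type} [MeasurableSpace X] (μ : Measure X) [IsProbabilityMeasure μ] (T : X → X)
    (h : Ergodic (Prod.map T T) (μ.prod μ)) (c : ℂ) (hc : ‖c‖ = 1) (m : X → ℂ)
    (hm : Measurable m) (he : ∀ᵐ x ∂μ, m (T x) = c * m x) : ∃ a : ℂ, ∀ᵐ x ∂μ, m x = a := by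
  set q : X × X → ℂ := fun z => m z.1 * (starRingEnd ℂ) (m z.2) with hq
  have hqm : Measurable q :=
    (hm.comp measurable_fst).mul (Complex.continuous_conj.measurable.comp (hm.comp measurable_snd))
  have h1 : ∀ᵐ z ∂(μ.prod μ), m (T z.1) = c * m z.1 :=
    Measure.quasiMeasurePreserving_fst.ae he
  have h2 : ∀ᵐ z ∂(μ.prod μ), m (T z.2) = c * m z.2 :=
    Measure.quasiMeasurePreserving_snd.ae he
  have h3 : q ∘ Prod.map T T =ᵐ[μ.prod μ] q := by
    filter_upwards [h1, h2] with z h1 h2
    show m (T z.1) * (starRingEnd ℂ) (m (T z.2)) = m z.1 * (starRingEnd ℂ) (m z.2)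
    rw [h1, h2, map_mul]
    have h4 : c * (starRingEnd ℂ) c = 1 := by
      rw [Complex.mul_conj', hc]
      norm_num
    calc _ = (c * (starRingEnd ℂ) c) * (m z.1 * (starRingEnd ℂ) (m z.2)) := by ring
      _ = _ := by rw [h4, one_mul]
  obtain ⟨κ, hκ⟩ := h.ae_eq_const_of_ae_eq_comp₀ hqm.nullMeasurable h3
  have h4 : ∀ᵐ y ∂μ, ∀ᵐ x ∂μ, m x * (starRingEnd ℂ) (m y) = κ := by
    have h5 : ∀ᵐ z ∂(μ.prod μ), m z.1 * (starRingEnd ℂ) (m z.2) = κ := hκ
    have h6 := (Measure.measurePreserving_swap (μ := μ) (ν := μ)).quasiMeasurePreserving.ae h5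
    exact Measure.ae_ae_of_ae_prod h6
  by_cases h5 : ∀ᵐ y ∂μ, m y = 0
  · exact ⟨0, h5⟩
  · obtain ⟨y, hy1, hy2⟩ := ((Filter.not_eventually.1 h5).and_eventually h4).exists
    refine ⟨κ / (starRingEnd ℂ) (m y), ?_⟩
    filter_upwards [hy2] with x hx
    rw [eq_div_iff ((map_ne_zero _).2 hy1), hx]

/-- the lengths of the pieces of an ergodic exchange are smaller than one -/
theorem wx_piece {d : ℕ} (lam : Fin d → ℝ) (σ : Equiv.Perm (Fin d)) (hpos : ∀ j, 0 < lam j)
    (hsum : ∑ j, lam j = 1) (herg : Ergodic (iet lam σ) leb)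
    (hcov : Ico (0 : ℝ) 1 = ⋃ j, piece lam j) :
    ∃ j, 0 < leb (piece lam j) ∧ leb (piece lam j) < 1 := by
  have hne : Nonempty (Fin d) := by
    by_contra h
    rw [not_nonempty_iff] at h
    rw [Finset.univ_eq_empty, Finset.sum_empty] at hsum
    exact zero_ne_one hsum
  obtain ⟨j⟩ := hne
  have hsub : piece lam j ⊆ Ico (0 : ℝ) 1 := by
    rw [hcov]
    exact subset_iUnion _ j
  have hm : leb (piece lam j) = ENNReal.ofReal (lam j) := by
    rw [leb, Measure.restrict_apply' measurableSet_Ico, inter_eq_left.2 hsub, piece,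
      Real.volume_Ico]
    congr 1
    ring
  refine ⟨j, ?_, ?_⟩
  · rw [hm, ENNReal.ofReal_pos]
    exact hpos j
  · rw [hm]
    by_contra hcon
    rw [not_lt, ENNReal.one_le_ofReal] at hcon
    have hall : ∀ i, i = j := by
      intro i
      by_contra hij
      have h1 : lam i + lam j ≤ ∑ k, lam k := by
        rw [← Finset.sum_pair hij]
        exact Finset.sum_le_sum_of_subset_of_nonneg (Finset.subset_univ _)
          fun k _ _ => (hpos k).le
      have := hpos i
      linarith
    have hid : ∀ x, iet lam σ x = x := by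
      intro x
      have h1 : ∀ i, left' lam σ i - left lam i = 0 := by
        intro i
        have h2 : Finset.univ.filter (fun k : Fin d => σ k < σ i) = ∅ := by
          rw [Finset.filter_eq_empty_iff]
          intro k _
          rw [hall k, hall i]
          exact lt_irrefl _
        have h3 : Finset.univ.filter (fun k : Fin d => k < i) = ∅ := by
          rw [Finset.filter_eq_empty_iff]
          intro k _
          rw [hall k, hall i]
          exact lt_irrefl _
        rw [left', left, h2, h3]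
        simp
      rw [iet]
      simp only [h1]
      simp
    have h1 := herg.toPreErgodic.prob_eq_zero_or_one (s := Ico (0 : ℝ) (1 / 2)) measurableSet_Ico
      (by
        ext x
        rw [mem_preimage, hid])
    have h2 : leb (Ico (0 : ℝ) (1 / 2)) = ENNReal.ofReal (1 / 2) := by
      rw [leb, Measure.restrict_apply measurableSet_Ico, inter_eq_left.2 (by
        intro x hx
        exact ⟨hx.1, hx.2.trans (by norm_num)⟩), Real.volume_Ico, sub_zero]
    rw [h2] at h1
    rcases h1 with h1 | h1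
    · rw [ENNReal.ofReal_eq_zero] at h1
      norm_num at h1
    · rw [ENNReal.ofReal_eq_one] at h1
      norm_num at h1

theorem wm_all (hE : S_erg) (hG : S_goodc) (hfin : S_fin) (heq : S_equiv) (hinit : S_init)
    (hpw : S_pw) (hpe : S_prodErg) (hec : S_eigCorr) : S_wmx := by
  intro d lam σ hpos hsum hwm G _ _ _ _ _ _ _ _ _ μ _ _
  obtain ⟨h1, h2, h3⟩ := heq d lam σ hpos hsum
  have herg := wx_erg leb (iet lam σ) h2 hwm
  obtain ⟨hS, hV⟩ := hinit d lam σ hpos hsum herg
  have hpc := wx_piece lam σ hpos hsum herg hS.cover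
  obtain ⟨ι, _, _, ρ, A, u, hρ, hd, hA⟩ := er_rep hpw G
  have hg : ∀ k, ∀ᵐ g ∂(Measure.pi fun _ : Fin d => μ), ∀ c : ℂ, ‖c‖ = 1 →
      Good (iet lam σ) (piece lam) (ρ k) g c := fun k =>
    hG d _ _ _ hS hwm hpc _ hV rfl rfl Nielsen.base G μ (ι k) (ρ k) (hρ k)
  rw [← ae_all_iff] at hg
  filter_upwards [hg, hE d lam σ hpos hsum herg G μ] with g hg hsk
  obtain ⟨h4, h5, e, he⟩ := h3 G g
  have hee : (e : ℝ × G → ℝ × G) = skew lam σ g := funext he
  have hse : Ergodic e (leb.prod μ) := by
    rw [hee]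
    exact hsk
  have hcz := hec (ℝ × G) (leb.prod μ) e hse (by
    intro c f hc hf hb hef
    obtain ⟨m, hm, hm1, hm2⟩ := er_eig hfin heq lam σ hpos hsum _ hS G μ ι ρ A u hρ hd hA g c
      hc (fun k => hg k c hc) f hf hb (by
        filter_upwards [hef] with z hz
        rw [← he z, hz])
    obtain ⟨a, ha⟩ := wx_eig leb (iet lam σ) hwm c hc m hm hm2
    refine ⟨a, ?_⟩
    have h6 : ∀ᵐ z ∂(leb.prod μ), m z.1 = a := Measure.quasiMeasurePreserving_fst.ae ha
    filter_upwards [hm1, h6] with z h7 h8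
    rw [h7, h8])
  have := hpe (ℝ × G) (ℝ × G) (leb.prod μ) (leb.prod μ) e e hse.toMeasurePreserving hcz hse
  rwa [hee] at this

end Q101Ig
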