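import Pool.Agent.Q101.IlDefs

/-!
# The spaces `X^n_{0,1}`: induction over the norming set, list lemmas
-/

set_option autoImplicit false

namespace Q101.Il

def InW (n : ℕ) (f : ℕ →₀ ℝ) : Prop := ∃ m, f ∈ (stage n m).1
def InA (n : ℕ) (s : ℕ) (α : ℕ →₀ ℝ) : Prop := ∃ m, α ∈ (stage n m).2 s

def PR (p q : ℕ × (ℕ →₀ ℝ)) : Prop := Before p.2 q.2 ∧ p.1 < q.1 ∧ ∀ a ∈ p.2.support, a < q.1

theorem induct {n : ℕ} (P : (ℕ →₀ ℝ) → Prop) (Q : ℕ → (ℕ →₀ ℝ) → Prop)
    (h0 : ∀ i, 1 ≤ i → P (Finsupp.single i 1) ∧ P (-Finsupp.single i 1))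
    (havg : ∀ (s : ℕ) (L : List (ℕ →₀ ℝ)), L ≠ [] → (∀ f ∈ L, InW n f ∧ P f) →
      L.Pairwise Before → 2 ≤ s → L.length ≤ s → Q s ((1 / (s : ℝ)) • L.sum))
    (hQP : ∀ s α, InA n s α → Q s α → P α)
    (hsum : ∀ L : List (ℕ × (ℕ →₀ ℝ)), L ≠ [] → (∀ p ∈ L, InA n p.1 p.2 ∧ Q p.1 p.2) →
      L.Pairwise PR →
      (L.map (fun p => sInf (p.2.support : Set ℕ))).toFinset ∈ Schreier n →
      InW n (L.map Prod.snd).sum → P (L.map Prod.snd).sum) :
    (∀ f, InW n f → P f) ∧ (∀ s α, InA n s α → Q s α) := by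
  have key : ∀ m, (∀ f ∈ (stage n m).1, P f) ∧ (∀ s, ∀ α ∈ (stage n m).2 s, Q s α) := by
    intro m
    induction m with
    | zero =>
      refine ⟨?_, ?_⟩
      · rintro f ⟨i, hi, rfl | rfl⟩
        · exact (h0 i hi).1
        · exact (h0 i hi).2
      · rintro s α h
        exact absurd h (Set.notMem_empty α)
    | succ m ih =>
      have hQ : ∀ s, ∀ α ∈ (stage n (m + 1)).2 s, Q s α := by
        rintro s α (h | ⟨L, hL, hLW, hP, hs, hl, rfl⟩)
        · exact ih.2 s α h
        · exact havg s L hL (fun f hf => ⟨⟨m, hLW f hf⟩, ih.1 f (hLW f hf)⟩) hP hs hl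
      refine ⟨?_, hQ⟩
      intro f hf
      have hf' := hf
      rcases hf with (h | h) | h
      · exact ih.1 f h
      · obtain ⟨s, hs⟩ := Set.mem_iUnion.1 h
        have h1 : f ∈ (stage n (m + 1)).2 s := Or.inr hs
        exact hQP s f ⟨m + 1, h1⟩ (hQ s f h1)
      · obtain ⟨L, hL, hLA, hP, hS, rfl⟩ := h
        exact hsum L hL (fun p hp => ⟨⟨m, hLA p hp⟩, ih.2 p.1 p.2 (hLA p hp)⟩) hP hS ⟨m + 1, hf'⟩
  exact ⟨fun f ⟨m, hm⟩ => (key m).1 f hm, fun s α ⟨m, hm⟩ => (key m).2 s α hm⟩

/-! ### evaluation along a sequence of positions -/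

noncomputable def ev (j : ℕ → ℕ) (f x : ℕ →₀ ℝ) : ℝ := x.sum fun a v => v * f (j a)

theorem ev_add (j : ℕ → ℕ) (f x y : ℕ →₀ ℝ) : ev j f (x + y) = ev j f x + ev j f y := by
  unfold ev
  rw [Finsupp.sum_add_index']
  · intro a; simp
  · intro a b c; ring

theorem ev_zero (j : ℕ → ℕ) (f : ℕ →₀ ℝ) : ev j f 0 = 0 := by
  unfold ev; simp

theorem ev_smul (j : ℕ → ℕ) (f x : ℕ →₀ ℝ) (c : ℝ) : ev j f (c • x) = c * ev j f x := by
  unfold ev
  rw [Finsupp.sum_smul_index (by intro a; simp), Finsupp.mul_sum]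
  refine Finsupp.sum_congr fun a _ => ?_
  ring

theorem ev_single (j : ℕ → ℕ) (f : ℕ →₀ ℝ) (a : ℕ) : ev j f (Finsupp.single a 1) = f (j a) := by
  unfold ev
  rw [Finsupp.sum_single_index] <;> simp

theorem ev_addl (j : ℕ → ℕ) (f g x : ℕ →₀ ℝ) : ev j (f + g) x = ev j f x + ev j g x := by
  unfold ev
  rw [← Finsupp.sum_add]
  refine Finsupp.sum_congr fun a _ => ?_
  rw [Finsupp.add_apply]; ring

theorem ev_zerol (j : ℕ → ℕ) (x : ℕ →₀ ℝ) : ev j 0 x = 0 := by
  unfold ev; simp

theorem ev_smull (j : ℕ → ℕ) (f x : ℕ →₀ ℝ) (c : ℝ) : ev j (c • f) x = c * ev j f x := by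
  unfold ev
  rw [Finsupp.mul_sum]
  refine Finsupp.sum_congr fun a _ => ?_
  rw [Finsupp.smul_apply, smul_eq_mul]; ring

theorem ev_list (j : ℕ → ℕ) (f : ℕ →₀ ℝ) (L : List (ℕ →₀ ℝ)) :
    ev j f L.sum = (L.map (ev j f)).sum := by
  induction L with
  | nil => simp [ev_zero]
  | cons a L ih => simp [ev_add, ih]

theorem ev_listl (j : ℕ → ℕ) (x : ℕ →₀ ℝ) (L : List (ℕ →₀ ℝ)) :
    ev j L.sum x = (L.map (fun f => ev j f x)).sum := by
  induction L with
  | nil => simp [ev_zerol]
  | cons a L ih => simp [ev_addl, ih]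

theorem ev_eq_zero {j : ℕ → ℕ} {f x : ℕ →₀ ℝ} (h : ∀ a ∈ x.support, f (j a) = 0) :
    ev j f x = 0 := by
  unfold ev
  rw [Finsupp.sum]
  exact Finset.sum_eq_zero fun a ha => by rw [h a ha, mul_zero]

theorem exists_touch {j : ℕ → ℕ} {f x : ℕ →₀ ℝ} (h : ev j f x ≠ 0) :
    ∃ a ∈ x.support, f (j a) ≠ 0 := by
  by_contra hc
  push Not at hc
  exact h (ev_eq_zero hc)

theorem before_lt {j : ℕ → ℕ} (hj : StrictMono j) {f g : ℕ →₀ ℝ} (h : Before f g) {a b : ℕ}
    (ha : f (j a) ≠ 0) (hb : g (j b) ≠ 0) : a < b :=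
  hj.lt_iff_lt.1 (h _ (Finsupp.mem_support_iff.2 ha) _ (Finsupp.mem_support_iff.2 hb))

/-- if `g` comes after a functional touching `c`, it vanishes on vectors supported up to `c` -/
theorem ev_after {j : ℕ → ℕ} (hj : StrictMono j) {f g x : ℕ →₀ ℝ} (h : Before f g) {c : ℕ}
    (hc : f (j c) ≠ 0) (hx : ∀ a ∈ x.support, a ≤ c) : ev j g x = 0 := by
  refine ev_eq_zero fun a ha => ?_
  by_contra hg
  have := before_lt hj h hc hg
  have := hx a ha
  omega

theorem ev_before {j : ℕ → ℕ} (hj : StrictMono j) {f g x : ℕ →₀ ℝ} (h : Before g f) {c : ℕ}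
    (hc : f (j c) ≠ 0) (hx : ∀ a ∈ x.support, c ≤ a) : ev j g x = 0 := by
  refine ev_eq_zero fun a ha => ?_
  by_contra hg
  have := before_lt hj h hg hc
  have := hx a ha
  omega

theorem abs_list_sum_le (L : List ℝ) : |L.sum| ≤ (L.map (fun t => |t|)).sum := by
  induction L with
  | nil => simp
  | cons a L ih =>
    simp only [List.sum_cons, List.map_cons]
    exact (abs_add_le _ _).trans (by linarith)

theorem list_sum_le_length {ι : Type*} (L : List ι) (g : ι → ℝ) (c : ℝ) (h : ∀ x ∈ L, g x ≤ c) :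
    (L.map g).sum ≤ L.length * c := by
  induction L with
  | nil => simp
  | cons a L ih =>
    simp only [List.sum_cons, List.map_cons, List.length_cons]
    have h1 := h a (by simp)
    have h2 := ih (fun x hx => h x (by simp [hx]))
    push_cast
    linarith

/-- the staircase lemma -/
theorem stair {j : ℕ → ℕ} (hj : StrictMono j) {A : ℝ} (hA : 0 ≤ A) (ys : List (ℕ →₀ ℝ)) :
    ys.Pairwise Before → ∀ fs : List (ℕ →₀ ℝ), fs.Pairwise Before →
    (∀ f ∈ fs, ∀ y ∈ ys, |ev j f y| ≤ A) →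
    (fs.map fun f => |ev j f ys.sum|).sum ≤ (ys.length + fs.length) * A := by
  induction ys with
  | nil =>
    intro _ fs _ _
    have h1 : (fs.map fun f => |ev j f ([] : List (ℕ →₀ ℝ)).sum|).sum ≤ fs.length * (0 : ℝ) := by
      apply list_sum_le_length
      intro x _
      simp [ev_zero]
    refine h1.trans ?_
    simp only [mul_zero, List.length_nil, Nat.cast_zero, zero_add]
    positivity
  | cons G ys ihy =>
    intro hy fs
    rw [List.pairwise_cons] at hy
    induction fs with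
    | nil =>
      intro _ _
      simp only [List.map_nil, List.sum_nil]
      positivity
    | cons f fs ihf =>
      intro hf hb
      rw [List.pairwise_cons] at hf
      by_cases ht : ev j f ys.sum = 0
      · have h1 := ihf hf.2 (fun f' hf' y hy' => hb f' (by simp [hf']) y hy')
        have h2 := hb f (by simp) G (by simp)
        simp only [List.map_cons, List.sum_cons, List.length_cons] at h1 ⊢
        rw [ev_add, ht, add_zero]
        push_cast at h1 ⊢
        linarith
      · -- f touches a later row: the following functionals miss `G`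
        have hex : ∃ y ∈ ys, ev j f y ≠ 0 := by
          by_contra hc
          push Not at hc
          apply ht
          rw [ev_list]
          apply List.sum_eq_zero
          intro t ht'
          obtain ⟨y, hy', rfl⟩ := List.mem_map.1 ht'
          exact hc y hy'
        obtain ⟨y, hy', hyt⟩ := hex
        obtain ⟨c, hc, hfc⟩ := exists_touch hyt
        have h0 : ∀ f' ∈ fs, ev j f' G = 0 := by
          intro f' hf'
          refine ev_after hj (hf.1 f' hf') hfc fun a ha => ?_
          exact (hy.1 y hy' a ha c hc).le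
        have h1 := ihy hy.2 (f :: fs) (List.pairwise_cons.2 hf)
          (fun f' hf' y hy' => hb f' hf' y (by simp [hy']))
        have h2 := hb f (by simp) G (by simp)
        have h3 : (fs.map fun f => |ev j f (G :: ys).sum|) = fs.map fun f => |ev j f ys.sum| := by
          apply List.map_congr_left
          intro f' hf'
          rw [List.sum_cons, ev_add, h0 f' hf', zero_add]
        simp only [List.map_cons, List.sum_cons, List.length_cons] at h1 ⊢
        rw [List.sum_cons] at h3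
        rw [h3, ev_add]
        have h4 := abs_add_le (ev j f G) (ev j f ys.sum)
        push_cast at h1 ⊢
        linarith

/-- sums over Schreier lists acting on a vector which starts after `μ` -/
theorem tail_sum {j : ℕ → ℕ} {μ : ℕ} (hj : StrictMono j) (h1 : 1 ≤ j μ) {c d : ℝ} (hc : 0 ≤ c)
    (hd : 0 ≤ d) {z : ℕ →₀ ℝ} (hz : ∀ a ∈ z.support, μ + 1 ≤ a) (L : List (ℕ × (ℕ →₀ ℝ))) :
    L.Pairwise PR → (∀ p ∈ L, j μ < p.1) → (∀ p ∈ L, |ev j p.2 z| ≤ c / p.1 + d) →
    (L.map fun p => |ev j p.2 z|).sum ≤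
      c / j μ + d + L.length * (c / j (μ + 1) + d) := by
  have hjm : (1 : ℝ) ≤ j μ := by exact_mod_cast h1
  have hj2 : (1 : ℝ) ≤ j (μ + 1) := by
    have : j μ < j (μ + 1) := hj (Nat.lt_succ_self μ)
    exact_mod_cast (by omega : 1 ≤ j (μ + 1))
  induction L with
  | nil =>
    intro _ _ _
    simp only [List.map_nil, List.sum_nil, List.length_nil, Nat.cast_zero, zero_mul, add_zero]
    positivity
  | cons p L ih =>
    intro hp hs hb
    rw [List.pairwise_cons] at hp
    by_cases ht : ev j p.2 z = 0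
    · have := ih hp.2 (fun q hq => hs q (by simp [hq])) (fun q hq => hb q (by simp [hq]))
      simp only [List.map_cons, List.sum_cons, List.length_cons, ht, abs_zero, zero_add]
      push_cast
      have h3 : 0 ≤ c / j (μ + 1) + d := by positivity
      linarith
    · obtain ⟨a, ha, hta⟩ := exists_touch ht
      have ha2 := hz a ha
      have hhead : |ev j p.2 z| ≤ c / j μ + d := by
        refine (hb p (by simp)).trans ?_
        have h4 : (j μ : ℝ) ≤ p.1 := by exact_mod_cast (hs p (by simp)).le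
        gcongr
      have hrest : (L.map fun p => |ev j p.2 z|).sum ≤ L.length * (c / j (μ + 1) + d) := by
        apply list_sum_le_length
        intro q hq
        refine (hb q (by simp [hq])).trans ?_
        have h5 : j a < q.1 := (hp.1 q hq).2.2 _ (Finsupp.mem_support_iff.2 hta)
        have h6 : j (μ + 1) ≤ j a := hj.monotone ha2
        have h4 : (j (μ + 1) : ℝ) ≤ q.1 := by exact_mod_cast (by omega : j (μ + 1) ≤ q.1)
        gcongr
      simp only [List.map_cons, List.sum_cons, List.length_cons]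
      push_cast
      have h3 : 0 ≤ c / j (μ + 1) + d := by positivity
      linarith

end Q101.Il
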