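import Pool.Agent.Q101.IlA

/-!
# The spaces `X^n_{0,1}`: coefficients, Schreier lists, blocks and rows
-/

set_option autoImplicit false

namespace Q101.Il

theorem psum_zero (L : List (ℕ →₀ ℝ)) (p : ℕ) (h : ∀ f ∈ L, f p = 0) : L.sum p = 0 := by
  induction L with
  | nil => simp
  | cons g L ih =>
    rw [List.sum_cons, Finsupp.add_apply, h g (by simp), ih (fun f hf => h f (by simp [hf])),
      add_zero]

theorem psum (L : List (ℕ →₀ ℝ)) (hL : L.Pairwise Before) (f : ℕ →₀ ℝ) (hf : f ∈ L) (p : ℕ)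
    (hp : f p ≠ 0) : L.sum p = f p := by
  induction L with
  | nil => simp at hf
  | cons g L ih =>
    rw [List.pairwise_cons] at hL
    rw [List.sum_cons, Finsupp.add_apply]
    rcases List.mem_cons.1 hf with rfl | hf
    · rw [psum_zero L p, add_zero]
      intro h hh
      by_contra hc
      exact lt_irrefl _ (hL.1 h hh p (Finsupp.mem_support_iff.2 hp) p
        (Finsupp.mem_support_iff.2 hc))
    · rw [ih hL.2 hf]
      have : g p = 0 := by
        by_contra hc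
        exact lt_irrefl _ (hL.1 f hf p (Finsupp.mem_support_iff.2 hc) p
          (Finsupp.mem_support_iff.2 hp))
      rw [this, zero_add]

theorem psum_le (L : List (ℕ →₀ ℝ)) (hL : L.Pairwise Before) (c : ℝ) (hc : 0 ≤ c)
    (h : ∀ f ∈ L, ∀ p, |f p| ≤ c) (p : ℕ) : |L.sum p| ≤ c := by
  by_cases hz : ∀ f ∈ L, f p = 0
  · rw [psum_zero L p hz, abs_zero]; exact hc
  · push Not at hz
    obtain ⟨f, hf, hp⟩ := hz
    rw [psum L hL f hf p hp]
    exact h f hf p

theorem InA.rep {n s : ℕ} {α : ℕ →₀ ℝ} (h : InA n s α) :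
    ∃ L : List (ℕ →₀ ℝ), L ≠ [] ∧ (∀ f ∈ L, InW n f) ∧ L.Pairwise Before ∧ 2 ≤ s ∧
      L.length ≤ s ∧ α = (1 / (s : ℝ)) • L.sum := by
  obtain ⟨m, hm⟩ := h
  induction m with
  | zero => exact absurd hm (Set.notMem_empty α)
  | succ m ih =>
    rcases hm with hm | ⟨L, h1, h2, h3, h4, h5, h6⟩
    · exact ih hm
    · exact ⟨L, h1, fun f hf => ⟨m, h2 f hf⟩, h3, h4, h5, h6⟩

theorem PR_before {L : List (ℕ × (ℕ →₀ ℝ))} (h : L.Pairwise PR) :
    (L.map Prod.snd).Pairwise Before := by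
  rw [List.pairwise_map]
  exact h.imp fun h => h.1

theorem coef (n : ℕ) : (∀ f, InW n f → ∀ p, |f p| ≤ 1) ∧
    (∀ s α, InA n s α → ∀ p, |α p| ≤ 1 / (s : ℝ)) := by
  apply induct (P := fun f => ∀ p, |f p| ≤ 1) (Q := fun s α => ∀ p, |α p| ≤ 1 / (s : ℝ))
  · intro i hi
    constructor <;> intro p
    · rw [Finsupp.single_apply]
      split_ifs <;> simp
    · rw [Finsupp.neg_apply, Finsupp.single_apply]
      split_ifs <;> simp
  · intro s L _ hL hP hs _ p
    rw [Finsupp.smul_apply, smul_eq_mul, abs_mul, abs_of_nonneg (by positivity)]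
    have h1 := psum_le L hP 1 zero_le_one (fun f hf => (hL f hf).2) p
    have h2 : (0 : ℝ) ≤ 1 / s := by positivity
    nlinarith
  · intro s α hα h p
    obtain ⟨_, _, _, _, hs, _, _⟩ := hα.rep
    refine (h p).trans ?_
    have h2 : (2 : ℝ) ≤ s := by exact_mod_cast hs
    rw [div_le_one (by linarith)]
    linarith
  · intro L _ hL hP _ _ p
    apply psum_le _ (PR_before hP) 1 zero_le_one
    intro f hf q
    obtain ⟨r, hr, rfl⟩ := List.mem_map.1 hf
    obtain ⟨_, _, _, _, hs, _, _⟩ := (hL r hr).1.rep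
    refine ((hL r hr).2 q).trans ?_
    have h2 : (2 : ℝ) ≤ r.1 := by exact_mod_cast hs
    rw [div_le_one (by linarith)]
    linarith

/-- the number of terms of a Schreier sum is at most any point of its support -/
theorem schreier_len {L : List (ℕ × (ℕ →₀ ℝ))} (hP : L.Pairwise PR)
    (hS : (L.map (fun p => sInf (p.2.support : Set ℕ))).toFinset ∈ Schreier 1)
    {q : ℕ × (ℕ →₀ ℝ)} (hq : q ∈ L) {p : ℕ} (hp : p ∈ q.2.support) : L.length ≤ p := by
  obtain ⟨hne, hS⟩ := hS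
  have hpos : 1 ≤ (L.map (fun p => sInf (p.2.support : Set ℕ))).toFinset.card :=
    Finset.card_pos.2 hne
  have hnon : ∀ r ∈ L, (r.2.support : Set ℕ).Nonempty := by
    intro r hr
    by_contra hc
    rw [Set.not_nonempty_iff_eq_empty] at hc
    have h1 : (0 : ℕ) ∈ (L.map (fun p => sInf (p.2.support : Set ℕ))).toFinset := by
      rw [List.mem_toFinset, List.mem_map]
      exact ⟨r, hr, by rw [hc]; simp⟩
    have := hS 0 h1
    omega
  have hnd : (L.map (fun p => sInf (p.2.support : Set ℕ))).Nodup := by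
    have h2 : (L.map (fun p => sInf (p.2.support : Set ℕ))).Pairwise (· < ·) := by
      rw [List.pairwise_map]
      refine List.Pairwise.imp_of_mem ?_ hP
      intro a b ha hb hab
      exact hab.1 _ (Nat.sInf_mem (hnon a ha)) _ (Nat.sInf_mem (hnon b hb))
    exact h2.imp fun h => h.ne
  have hcard := List.toFinset_card_of_nodup hnd
  rw [List.length_map] at hcard
  have h1 : sInf (q.2.support : Set ℕ) ∈
      (L.map (fun p => sInf (p.2.support : Set ℕ))).toFinset := by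
    rw [List.mem_toFinset, List.mem_map]
    exact ⟨q, hq, rfl⟩
  have h3 := hS _ h1
  have h4 : sInf (q.2.support : Set ℕ) ≤ p := Nat.sInf_le hp
  omega

/-! ### the two sequences -/

def jj : ℕ → ℕ
  | 0 => 100
  | m + 1 => (jj m) ^ 9

def ii (m : ℕ) : ℕ := (jj m) ^ 3

theorem jj_ge (m : ℕ) : 100 ≤ jj m := by
  induction m with
  | zero => exact le_rfl
  | succ m ih =>
    show 100 ≤ (jj m) ^ 9
    calc 100 ≤ jj m := ih
      _ = (jj m) ^ 1 := (pow_one _).symm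
      _ ≤ (jj m) ^ 9 := Nat.pow_le_pow_right (by omega) (by norm_num)

theorem jj_lt_ii (m : ℕ) : jj m < ii m := by
  have h := jj_ge m
  calc jj m = (jj m) ^ 1 := (pow_one _).symm
    _ < (jj m) ^ 3 := Nat.pow_lt_pow_right (by omega) (by norm_num)

theorem jj_succ (m : ℕ) : jj (m + 1) = (jj m) ^ 9 := rfl

theorem ii_lt_jj (m : ℕ) : ii m < jj (m + 1) := by
  have h := jj_ge m
  exact Nat.pow_lt_pow_right (by omega) (by norm_num)

theorem jj_mono : StrictMono jj :=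
  strictMono_nat_of_lt_succ fun m => (jj_lt_ii m).trans (ii_lt_jj m)

theorem ii_mono : StrictMono ii :=
  strictMono_nat_of_lt_succ fun m => (ii_lt_jj m).trans (jj_lt_ii (m + 1))

/-! ### sequences of consecutive vectors -/

inductive SeqB (P : ℕ → ℕ → (ℕ →₀ ℝ) → Prop) : ℕ → ℕ → List (ℕ →₀ ℝ) → Prop
  | nil (a : ℕ) : SeqB P a a []
  | cons {a b c : ℕ} {x : ℕ →₀ ℝ} {L : List (ℕ →₀ ℝ)} :
      P a b x → SeqB P b c L → SeqB P a c (x :: L)

def SupIn (a b : ℕ) (x : ℕ →₀ ℝ) : Prop := a < b ∧ ∀ c ∈ x.support, a ≤ c ∧ c < b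

theorem supp_sum {L : List (ℕ →₀ ℝ)} {c : ℕ} (h : c ∈ L.sum.support) :
    ∃ x ∈ L, c ∈ x.support := by
  by_contra hc
  push Not at hc
  rw [Finsupp.mem_support_iff] at h
  exact h (psum_zero L c fun f hf => Finsupp.notMem_support_iff.1 (hc f hf))

theorem SeqB.le {P : ℕ → ℕ → (ℕ →₀ ℝ) → Prop} (hP : ∀ a b x, P a b x → SupIn a b x) {a b : ℕ}
    {L : List (ℕ →₀ ℝ)} (h : SeqB P a b L) : a ≤ b := by
  induction h with
  | nil a => exact le_rfl
  | cons h1 _ ih => exact (hP _ _ _ h1).1.le.trans ih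

theorem SeqB.supp {P : ℕ → ℕ → (ℕ →₀ ℝ) → Prop} (hP : ∀ a b x, P a b x → SupIn a b x) {a b : ℕ}
    {L : List (ℕ →₀ ℝ)} (h : SeqB P a b L) : ∀ x ∈ L, ∀ c ∈ x.support, a ≤ c ∧ c < b := by
  induction h with
  | nil a => simp
  | cons h1 h2 ih =>
    intro y hy c hc
    rcases List.mem_cons.1 hy with rfl | hy
    · have := (hP _ _ _ h1).2 c hc
      have := h2.le hP
      omega
    · have := ih y hy c hc
      have := (hP _ _ _ h1).1
      omega

theorem SeqB.supp_sum {P : ℕ → ℕ → (ℕ →₀ ℝ) → Prop} (hP : ∀ a b x, P a b x → SupIn a b x)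
    {a b : ℕ} {L : List (ℕ →₀ ℝ)} (h : SeqB P a b L) : ∀ c ∈ L.sum.support, a ≤ c ∧ c < b := by
  intro c hc
  obtain ⟨x, hx, hcx⟩ := Q101.Il.supp_sum hc
  exact h.supp hP x hx c hcx

theorem SeqB.pairwise {P : ℕ → ℕ → (ℕ →₀ ℝ) → Prop} (hP : ∀ a b x, P a b x → SupIn a b x)
    {a b : ℕ} {L : List (ℕ →₀ ℝ)} (h : SeqB P a b L) : L.Pairwise Before := by
  induction h with
  | nil a => exact List.Pairwise.nil
  | cons h1 h2 ih =>
    refine List.pairwise_cons.2 ⟨fun y hy c hc d hd => ?_, ih⟩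
    have := (hP _ _ _ h1).2 c hc
    have := h2.supp hP y hy d hd
    omega

theorem SeqB.all {P : ℕ → ℕ → (ℕ →₀ ℝ) → Prop} (hP : ∀ a b x, P a b x → SupIn a b x) {a b : ℕ}
    {L : List (ℕ →₀ ℝ)} (h : SeqB P a b L) : ∀ x ∈ L, ∃ c d, P c d x ∧ a ≤ c := by
  induction h with
  | nil a => simp
  | @cons a b c x L h1 h2 ih =>
    intro y hy
    rcases List.mem_cons.1 hy with rfl | hy
    · exact ⟨_, _, h1, le_rfl⟩
    · obtain ⟨c, d, hcd, hc⟩ := ih y hy
      exact ⟨c, d, hcd, (hP _ _ _ h1).1.le.trans hc⟩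

theorem SeqB.split {P : ℕ → ℕ → (ℕ →₀ ℝ) → Prop} {a b : ℕ}
    {L : List (ℕ →₀ ℝ)} (h : SeqB P a b L) : ∀ c, a ≤ c → c < b →
    ∃ (L1 L2 : List (ℕ →₀ ℝ)) (x : ℕ →₀ ℝ) (a1 b1 : ℕ), L = L1 ++ x :: L2 ∧
      SeqB P a a1 L1 ∧ P a1 b1 x ∧ SeqB P b1 b L2 ∧ a1 ≤ c ∧ c < b1 := by
  induction h with
  | nil a => intro c h1 h2; omega
  | @cons a b d x L h1 h2 ih =>
    intro c hc1 hc2
    by_cases hcb : c < b
    · exact ⟨[], L, x, a, b, rfl, SeqB.nil a, h1, h2, hc1, hcb⟩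
    · obtain ⟨L1, L2, y, a1, b1, rfl, h3, h4, h5, h6, h7⟩ := ih c (by omega) hc2
      exact ⟨x :: L1, L2, y, a1, b1, rfl, SeqB.cons h1 h3, h4, h5, h6, h7⟩

theorem SeqB.exists_length {P : ℕ → ℕ → (ℕ →₀ ℝ) → Prop} (h : ∀ a, ∃ b x, P a b x) (n : ℕ) :
    ∀ a, ∃ b L, SeqB P a b L ∧ L.length = n := by
  induction n with
  | zero => intro a; exact ⟨a, [], SeqB.nil a, rfl⟩
  | succ n ih =>
    intro a
    obtain ⟨b, x, hx⟩ := h a
    obtain ⟨c, L, hL, hn⟩ := ih b
    exact ⟨c, x :: L, SeqB.cons hx hL, by simp [hn]⟩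

def Row (B : ℕ → ℕ → (ℕ →₀ ℝ) → Prop) (a b : ℕ) (G : ℕ →₀ ℝ) : Prop :=
  ∃ L, SeqB B a b L ∧ L.length = ii (a - 1) + 1 ∧ G = L.sum

def Blk : ℕ → ℕ → ℕ → (ℕ →₀ ℝ) → Prop
  | 0 => fun a b x => b = a + 1 ∧ x = Finsupp.single a 1
  | k + 1 => fun a b x => ∃ L, SeqB (Row (Blk k)) (a + 1) b L ∧ L.length = ii a - 1 ∧
      x = Finsupp.single a 1 + (1 / (ii a : ℝ)) • L.sum

theorem blk_exists (k : ℕ) : ∀ a, ∃ b x, Blk k a b x := by
  induction k with
  | zero => intro a; exact ⟨a + 1, _, rfl, rfl⟩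
  | succ k ih =>
    intro a
    have h1 : ∀ a, ∃ b x, Row (Blk k) a b x := by
      intro a
      obtain ⟨b, L, hL, hn⟩ := SeqB.exists_length ih (ii (a - 1) + 1) a
      exact ⟨b, _, L, hL, hn, rfl⟩
    obtain ⟨b, L, hL, hn⟩ := SeqB.exists_length h1 (ii a - 1) (a + 1)
    exact ⟨b, _, L, hL, hn, rfl⟩

theorem row_sup {B : ℕ → ℕ → (ℕ →₀ ℝ) → Prop} (hB : ∀ a b x, B a b x → SupIn a b x) {a b : ℕ}
    {G : ℕ →₀ ℝ} (h : Row B a b G) : SupIn a b G := by
  obtain ⟨L, hL, hn, rfl⟩ := h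
  refine ⟨?_, hL.supp_sum hB⟩
  cases hL with
  | nil => simp at hn
  | cons h1 h2 => exact (hB _ _ _ h1).1.trans_le (h2.le hB)

theorem blk_sup (k : ℕ) : ∀ a b x, Blk k a b x → SupIn a b x := by
  induction k with
  | zero =>
    rintro a b x ⟨rfl, rfl⟩
    refine ⟨Nat.lt_succ_self a, fun c hc => ?_⟩
    have : c = a := by
      have := Finsupp.support_single_subset hc
      simpa using this
    omega
  | succ k ih =>
    rintro a b x ⟨L, hL, hn, rfl⟩
    have h1 := hL.le (fun a b x h => row_sup ih h)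
    refine ⟨by omega, fun c hc => ?_⟩
    rcases Finset.mem_union.1 (Finsupp.support_add hc) with h | h
    · have : c = a := by
        have := Finsupp.support_single_subset h
        simpa using this
      omega
    · have h2 := hL.supp_sum (fun a b x h => row_sup ih h) c (Finsupp.support_smul h)
      omega

end Q101.Il
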