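import Pool.Agent.Q101.IlB

/-!
# The spaces `X^n_{0,1}`: the upper bound for rows of blocks
-/

set_option autoImplicit false

namespace Q101.Il

theorem tpow {t : ℝ} (h0 : 0 < t) (h1 : t ≤ 1 / 100) (n : ℕ) (hn : 2 ≤ n) : t ^ n ≤ t / 100 := by
  obtain ⟨k, rfl⟩ : ∃ k, n = k + 2 := ⟨n - 2, by omega⟩
  have h2 : t ^ k ≤ 1 := pow_le_one₀ h0.le (by linarith)
  have h3 : t ^ (k + 2) = t ^ k * (t * t) := by ring
  rw [h3]
  have h4 : t * t ≤ t / 100 := by nlinarith
  have h5 : 0 ≤ t * t := by positivity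
  nlinarith

theorem num1 {J l D : ℝ} (hJ : 100 ≤ J) (hl : 0 ≤ l) (_hD0 : 0 ≤ D) (hD : D ≤ J) :
    10 * l / J / 2 + 10 * l / J ^ 9 +
      (3 * l / J + 2 * l / (J ^ 9) ^ 3 + D * (3 * l / J ^ 9 + 2 * l / (J ^ 9) ^ 3)) ≤
      10 * l / J := by
  have hJ0 : 0 < J := by linarith
  set t : ℝ := 1 / J with ht
  have ht0 : 0 < t := by positivity
  have ht1 : t ≤ 1 / 100 := by
    rw [ht]; gcongr
  have e1 : ∀ c : ℝ, c / J = c * t := fun c => by rw [ht]; ring
  have e9 : ∀ c : ℝ, c / J ^ 9 = c * t ^ 9 := fun c => by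
    rw [ht, one_div, inv_pow, div_eq_mul_inv]
  have e27 : ∀ c : ℝ, c / (J ^ 9) ^ 3 = c * t ^ 27 := fun c => by
    rw [ht, one_div, inv_pow, div_eq_mul_inv, ← pow_mul]
  have hJt : J * t = 1 := by rw [ht]; field_simp
  rw [e1, e9, e27, e1, e9]
  have h9 := tpow ht0 ht1 9 (by norm_num)
  have h27 := tpow ht0 ht1 27 (by norm_num)
  have h8 := tpow ht0 ht1 8 (by norm_num)
  have h26 := tpow ht0 ht1 26 (by norm_num)
  have h5 : D * (3 * l * t ^ 9 + 2 * l * t ^ 27) ≤ J * (3 * l * t ^ 9 + 2 * l * t ^ 27) := by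
    have : 0 ≤ 3 * l * t ^ 9 + 2 * l * t ^ 27 := by positivity
    gcongr
  have h6 : J * (3 * l * t ^ 9 + 2 * l * t ^ 27) = 3 * l * t ^ 8 + 2 * l * t ^ 26 := by
    have : J * (3 * l * t ^ 9 + 2 * l * t ^ 27) = (J * t) * (3 * l * t ^ 8 + 2 * l * t ^ 26) := by
      ring
    rw [this, hJt, one_mul]
  have g9 := mul_le_mul_of_nonneg_left h9 hl
  have g27 := mul_le_mul_of_nonneg_left h27 hl
  have g8 := mul_le_mul_of_nonneg_left h8 hl
  have g26 := mul_le_mul_of_nonneg_left h26 hl
  have g0 : 0 ≤ l * t := by positivity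
  have k1 : l * (t / 100) = l * t / 100 := by ring
  rw [k1] at g9 g27 g8 g26
  nlinarith

theorem row_bound {B : ℕ → ℕ → (ℕ →₀ ℝ) → Prop}
    (hB : ∀ a b x, B a b x → SupIn a b x ∧
      (∀ f, InW 1 f → |ev jj f x| ≤ 1 + 8 / (jj a : ℝ)) ∧
      (∀ s α, InA 1 s α → |ev jj α x| ≤ 3 / (s : ℝ) + 2 / (ii a : ℝ)))
    {a b : ℕ} {Ls : List (ℕ →₀ ℝ)} (hS : SeqB B a b Ls) :
    ∀ f, InW 1 f → |ev jj f Ls.sum| ≤ 1 + 8 / (jj a : ℝ) + 10 * (Ls.length : ℝ) / jj a := by
  have hsup : ∀ a b x, B a b x → SupIn a b x := fun a b x h => (hB a b x h).1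
  set l : ℝ := (Ls.length : ℝ) with hl
  have hl0 : 0 ≤ l := by positivity
  set A : ℝ := 1 + 8 / (jj a : ℝ) with hA
  set G : ℕ →₀ ℝ := Ls.sum with hG
  have hjpos : ∀ μ, (100 : ℝ) ≤ jj μ := fun μ => by exact_mod_cast jj_ge μ
  have hjpos' : ∀ μ, (0 : ℝ) < jj μ := fun μ => by linarith [hjpos μ]
  have hA1 : 0 ≤ A := by have := hjpos' a; positivity
  have hjs : ∀ μ, ((jj (μ + 1) : ℕ) : ℝ) = (jj μ : ℝ) ^ 9 := fun μ => by
    rw [jj_succ]; push_cast; rfl
  have his : ∀ μ, ((ii (μ + 1) : ℕ) : ℝ) = ((jj μ : ℝ) ^ 9) ^ 3 := fun μ => by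
    rw [ii, jj_succ]; push_cast; rfl
  set κ : ℕ → ℝ := fun μ => 10 * l / jj μ with hκ
  have hκ0 : ∀ μ, 0 ≤ κ μ := fun μ => by have := hjpos' μ; simp only [hκ]; positivity
  have hκs : ∀ μ, κ (μ + 1) ≤ κ μ / 2 := by
    intro μ
    have h1 := num1 (D := 0) (hjpos μ) hl0 le_rfl (hjpos' μ).le
    have h2 : 0 ≤ 3 * l / (jj μ : ℝ) + 2 * l / ((jj μ : ℝ) ^ 9) ^ 3 := by
      have := hjpos' μ; positivity
    simp only [hκ]
    rw [hjs]
    linarith
  have hκanti : ∀ μ ν, μ ≤ ν → κ ν ≤ κ μ := by
    intro μ ν h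
    induction ν, h using Nat.le_induction with
    | base => exact le_rfl
    | succ ν _ ih => have := hκs ν; have := hκ0 ν; linarith
  have hGsup := hS.supp_sum hsup
  have main := induct (n := 1)
    (P := fun f => ∀ μ, a ≤ μ → (∀ c, a ≤ c → c < μ → f (jj c) = 0) → |ev jj f G| ≤ A + κ μ)
    (Q := fun _ α => ∀ μ, a ≤ μ → (∀ c, a ≤ c → c < μ → α (jj c) = 0) →
      |ev jj α G| ≤ A + κ μ / 2 + κ (μ + 1)) ?_ ?_ ?_ ?_
  · intro f hf
    exact main.1 f hf a le_rfl (fun c h1 h2 => absurd h1 (by omega))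
  · -- unit vectors
    have hgen : ∀ i f, InW 1 f → (∀ p, f p ≠ 0 → p = i) → ∀ μ, |ev jj f G| ≤ A + κ μ := by
      intro i f hf hi μ
      have : |ev jj f G| ≤ A := by
        by_cases h0 : ev jj f G = 0
        · rw [h0, abs_zero]; exact hA1
        · obtain ⟨c, hc, hfc⟩ := exists_touch h0
          have hc' := hGsup c hc
          obtain ⟨M1, M2, x, a1, b1, hLs, hM1, hx, hM2, hac, hcb⟩ := hS.split c hc'.1 hc'.2
          have e1 : ev jj f M1.sum = 0 := by
            refine ev_eq_zero fun d hd => ?_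
            by_contra hfd
            have h1 := hM1.supp_sum hsup d hd
            have h2 := (hi _ hfd).trans (hi _ hfc).symm
            have h3 := jj_mono.injective h2
            omega
          have e2 : ev jj f M2.sum = 0 := by
            refine ev_eq_zero fun d hd => ?_
            by_contra hfd
            have h1 := hM2.supp_sum hsup d hd
            have h2 := (hi _ hfd).trans (hi _ hfc).symm
            have h3 := jj_mono.injective h2
            omega
          have e3 : ev jj f G = ev jj f x := by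
            rw [hG, hLs, List.sum_append, List.sum_cons, ev_add, ev_add, e1, e2]
            ring
          rw [e3]
          refine ((hB _ _ _ hx).2.1 f hf).trans ?_
          have h4 : a ≤ a1 := hM1.le hsup
          have h5 : (jj a : ℝ) ≤ jj a1 := by exact_mod_cast jj_mono.monotone h4
          have h6 := hjpos' a
          rw [hA]
          gcongr
      linarith [hκ0 μ]
    intro i hi
    refine ⟨fun μ _ _ => hgen i _ ⟨0, i, hi, Or.inl rfl⟩ ?_ μ,
      fun μ _ _ => hgen i _ ⟨0, i, hi, Or.inr rfl⟩ ?_ μ⟩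
    · intro p hp
      by_contra hc
      exact hp (by rw [Finsupp.single_apply, if_neg (fun h => hc h.symm)])
    · intro p hp
      by_contra hc
      exact hp (by rw [Finsupp.neg_apply, Finsupp.single_apply, if_neg (fun h => hc h.symm),
        neg_zero])
  · -- averages
    intro s L _ hL hP hs hlen μ hμ hu
    have hs2 : (2 : ℝ) ≤ s := by exact_mod_cast hs
    have hu' : ∀ f ∈ L, ∀ c, a ≤ c → c < μ → f (jj c) = 0 := by
      intro f hf c h1 h2
      by_contra hc
      have h3 := hu c h1 h2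
      rw [Finsupp.smul_apply, psum L hP f hf _ hc, smul_eq_mul] at h3
      rcases mul_eq_zero.1 h3 with h4 | h4
      · have : (0 : ℝ) < 1 / s := by positivity
        linarith
      · exact hc h4
    have hlist : ∀ L' : List (ℕ →₀ ℝ), L'.Pairwise Before → (∀ f ∈ L', f ∈ L) →
        (L'.map fun f => |ev jj f G|).sum ≤ κ μ - κ (μ + 1) + L'.length * (A + κ (μ + 1)) := by
      intro L'
      induction L' with
      | nil =>
        intro _ _
        simp only [List.map_nil, List.sum_nil, List.length_nil, Nat.cast_zero, zero_mul, add_zero]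
        linarith [hκs μ, hκ0 μ]
      | cons f L' ih =>
        intro hPw hin
        rw [List.pairwise_cons] at hPw
        simp only [List.map_cons, List.sum_cons, List.length_cons]
        have hfL := hin f (by simp)
        by_cases hfm : f (jj μ) = 0
        · have h1 := ih hPw.2 (fun g hg => hin g (by simp [hg]))
          have h2 := (hL f hfL).2 (μ + 1) (by omega) (by
            intro c hc1 hc2
            rcases Nat.lt_succ_iff_lt_or_eq.1 hc2 with h | h
            · exact hu' f hfL c hc1 h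
            · rw [h]; exact hfm)
          push_cast
          linarith
        · have h2 := (hL f hfL).2 μ hμ (hu' f hfL)
          have h1 : (L'.map fun f => |ev jj f G|).sum ≤ L'.length * (A + κ (μ + 1)) := by
            apply list_sum_le_length
            intro g hg
            refine (hL g (hin g (by simp [hg]))).2 (μ + 1) (by omega) ?_
            intro c hc1 hc2
            by_contra hgc
            have := before_lt jj_mono (hPw.1 g hg) hfm hgc
            omega
          push_cast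
          linarith
    have h1 := hlist L hP (fun f hf => hf)
    have h2 : |ev jj ((1 / (s : ℝ)) • L.sum) G| ≤ 1 / (s : ℝ) * (L.map fun f => |ev jj f G|).sum := by
      rw [ev_smull, ev_listl, abs_mul, abs_of_nonneg (by positivity : (0 : ℝ) ≤ 1 / s)]
      gcongr
      have := abs_list_sum_le (L.map fun f => ev jj f G)
      rwa [List.map_map] at this
    have hd : (L.length : ℝ) ≤ s := by exact_mod_cast hlen
    have hB0 : 0 ≤ A + κ (μ + 1) := by linarith [hκ0 (μ + 1)]
    have h3 : 1 / (s : ℝ) * (L.map fun f => |ev jj f G|).sum ≤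
        1 / (s : ℝ) * (κ μ - κ (μ + 1) + s * (A + κ (μ + 1))) := by
      have : (L.length : ℝ) * (A + κ (μ + 1)) ≤ s * (A + κ (μ + 1)) := by gcongr
      have h5 : (0 : ℝ) ≤ 1 / s := by positivity
      gcongr
      linarith
    have h4 : 1 / (s : ℝ) * (κ μ - κ (μ + 1) + s * (A + κ (μ + 1))) =
        1 / (s : ℝ) * (κ μ - κ (μ + 1)) + (A + κ (μ + 1)) := by
      field_simp
    have h5 : 1 / (s : ℝ) * (κ μ - κ (μ + 1)) ≤ 1 / 2 * (κ μ - κ (μ + 1)) := by
      have : 0 ≤ κ μ - κ (μ + 1) := by linarith [hκs μ, hκ0 μ]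
      gcongr
    have h6 := hκ0 (μ + 1)
    linarith
  · intro s α _ h μ hμ hu
    have h1 := h μ hμ hu
    have h2 := hκs μ
    linarith
  · -- Schreier sums
    intro L _ hL hP hSch hW μ hμ hu
    set g : ℕ →₀ ℝ := (L.map Prod.snd).sum with hg
    have hPb : (L.map Prod.snd).Pairwise Before := PR_before hP
    by_cases h0 : ev jj g G = 0
    · rw [h0, abs_zero]
      linarith [hκ0 μ]
    have hex : ∃ c, a ≤ c ∧ c < b ∧ g (jj c) ≠ 0 := by
      obtain ⟨c, hc, hgc⟩ := exists_touch h0
      have := hGsup c hc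
      exact ⟨c, this.1, this.2, hgc⟩
    classical
    set ν := Nat.find hex with hν
    obtain ⟨hν1, hν2, hν3⟩ := Nat.find_spec hex
    rw [← hν] at hν1 hν2 hν3
    have hνmin : ∀ c, a ≤ c → c < ν → g (jj c) = 0 := by
      intro c h1 h2
      by_contra h3
      exact Nat.find_min hex h2 ⟨h1, by omega, h3⟩
    have hμν : μ ≤ ν := by
      by_contra hc
      exact hν3 (hu ν hν1 (by omega))
    have hcomp : ∀ p ∈ L, ∀ c, p.2 (jj c) ≠ 0 → g (jj c) ≠ 0 := by
      intro p hp c hc
      rw [hg, psum _ hPb p.2 (List.mem_map_of_mem hp) _ hc]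
      exact hc
    -- the member touching `ν`
    have hex1 : ∃ p ∈ L, p.2 (jj ν) ≠ 0 := by
      by_contra hc
      push Not at hc
      apply hν3
      rw [hg]
      apply psum_zero
      intro f hf
      obtain ⟨p, hp, rfl⟩ := List.mem_map.1 hf
      exact hc p hp
    obtain ⟨p1, hp1, hp1ν⟩ := hex1
    obtain ⟨L1, L2, hLeq⟩ := List.append_of_mem hp1
    have hP' := hP
    rw [hLeq, List.pairwise_append] at hP'
    obtain ⟨-, hP2, hP12⟩ := hP'
    rw [List.pairwise_cons] at hP2
    -- split the row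
    obtain ⟨M1, M2, x, a1, b1, hLs, hM1, hx, hM2, hac, hcb⟩ := hS.split ν hν1 hν2
    have haa1 : a ≤ a1 := hM1.le hsup
    have hM1z : ∀ p ∈ L, ev jj p.2 M1.sum = 0 := by
      intro p hp
      refine ev_eq_zero fun d hd => ?_
      by_contra hfd
      have h1 := hM1.supp_sum hsup d hd
      exact hcomp p hp d hfd (hνmin d h1.1 (by omega))
    have hxs : ∀ c ∈ x.support, a1 ≤ c ∧ c < b1 := (hsup _ _ _ hx).2
    have hM2s := hM2.supp_sum hsup
    set Z : ℕ →₀ ℝ := M2.sum with hZ
    have hZs : ∀ c ∈ Z.support, ν + 1 ≤ c := fun c hc => by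
      have := hM2s c hc
      omega
    have hGe : ∀ f, ev jj f G = ev jj f M1.sum + (ev jj f x + ev jj f Z) := by
      intro f
      rw [hG, hLs, List.sum_append, List.sum_cons, ev_add, ev_add]
    -- earlier members vanish
    have hL1x : ∀ p ∈ L1, ev jj p.2 x = 0 := by
      intro p hp
      have hbef : Before p.2 p1.2 := (hP12 p hp p1 (by simp)).1
      refine ev_eq_zero fun d hd => ?_
      by_contra hfd
      have h1 := before_lt jj_mono hbef hfd hp1ν
      have h2 := hxs d hd
      exact hcomp p (by rw [hLeq]; simp [hp]) d hfd (hνmin d (by omega) h1)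
    have hL1Z : ∀ p ∈ L1, ev jj p.2 Z = 0 := by
      intro p hp
      have hbef : Before p.2 p1.2 := (hP12 p hp p1 (by simp)).1
      exact ev_before jj_mono hbef hp1ν fun d hd => by have := hZs d hd; omega
    -- the tail
    have hlenZ : (M2.length : ℝ) ≤ l := by
      rw [hl, hLs]
      simp only [List.length_append, List.length_cons]
      push_cast
      have : (0 : ℝ) ≤ M1.length := by positivity
      linarith
    have hZb : ∀ p ∈ L2, |ev jj p.2 Z| ≤ 3 * l / p.1 + 2 * l / ii (ν + 1) := by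
      intro p hp
      have hpL : p ∈ L := by rw [hLeq]; simp [hp]
      obtain ⟨_, _, _, _, hs, _, _⟩ := (hL p hpL).1.rep
      have hs0 : (0 : ℝ) < p.1 := by exact_mod_cast (by omega : 0 < p.1)
      have h1 : |ev jj p.2 Z| ≤ (M2.map fun y => |ev jj p.2 y|).sum := by
        rw [hZ, ev_list]
        have := abs_list_sum_le (M2.map fun y => ev jj p.2 y)
        rwa [List.map_map] at this
      refine h1.trans ?_
      have h2 : (M2.map fun y => |ev jj p.2 y|).sum ≤
          M2.length * (3 / (p.1 : ℝ) + 2 / (ii (ν + 1) : ℝ)) := by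
        apply list_sum_le_length
        intro y hy
        obtain ⟨c, d, hcd, hbc⟩ := hM2.all hsup y hy
        refine ((hB c d y hcd).2.2 p.1 p.2 (hL p hpL).1).trans ?_
        have h3 : (ii (ν + 1) : ℝ) ≤ ii c := by
          exact_mod_cast ii_mono.monotone (by omega : ν + 1 ≤ c)
        have h4 : (0 : ℝ) < ii (ν + 1) := by
          exact_mod_cast (Nat.zero_lt_of_lt (jj_lt_ii (ν + 1)))
        gcongr
      refine h2.trans ?_
      have h4 : (0 : ℝ) < ii (ν + 1) := by
        exact_mod_cast (Nat.zero_lt_of_lt (jj_lt_ii (ν + 1)))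
      have h5 : (M2.length : ℝ) * (3 / (p.1 : ℝ) + 2 / (ii (ν + 1) : ℝ)) ≤
          l * (3 / (p.1 : ℝ) + 2 / (ii (ν + 1) : ℝ)) := by gcongr
      refine h5.trans (le_of_eq ?_)
      ring
    have htail := tail_sum (j := jj) (μ := ν) jj_mono (by have := jj_ge ν; omega)
      (c := 3 * l) (d := 2 * l / ii (ν + 1)) (by positivity) (by positivity) (z := Z) hZs L2 hP2.2
      (fun p hp => (hP2.1 p hp).2.2 _ (Finsupp.mem_support_iff.2 hp1ν)) hZb
    have hL2len : (L2.length : ℝ) ≤ jj ν := by
      have h1 := schreier_len hP hSch hp1 (Finsupp.mem_support_iff.2 hp1ν)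
      have h2 : L2.length ≤ L.length := by rw [hLeq]; simp; omega
      exact_mod_cast h2.trans h1
    have hnum := num1 (D := (L2.length : ℝ)) (hjpos ν) hl0 (by positivity) hL2len
    rw [← hjs, ] at hnum
    have hsumZ : ev jj g Z = ev jj p1.2 Z + (L2.map fun p => ev jj p.2 Z).sum := by
      rw [hg, ev_listl, List.map_map, hLeq, List.map_append, List.sum_append, List.map_cons,
        List.sum_cons]
      have : (List.map ((fun f => ev jj f Z) ∘ Prod.snd) L1).sum = 0 := by
        apply List.sum_eq_zero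
        intro t ht
        obtain ⟨p, hp, rfl⟩ := List.mem_map.1 ht
        exact hL1Z p hp
      rw [this, zero_add]
      rfl
    have hsumx : ev jj g x = ev jj p1.2 x + (L2.map fun p => ev jj p.2 x).sum := by
      rw [hg, ev_listl, List.map_map, hLeq, List.map_append, List.sum_append, List.map_cons,
        List.sum_cons]
      have : (List.map ((fun f => ev jj f x) ∘ Prod.snd) L1).sum = 0 := by
        apply List.sum_eq_zero
        intro t ht
        obtain ⟨p, hp, rfl⟩ := List.mem_map.1 ht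
        exact hL1x p hp
      rw [this, zero_add]
      rfl
    have hgM1 : ev jj g M1.sum = 0 := by
      rw [hg, ev_listl]
      apply List.sum_eq_zero
      intro t ht
      rw [List.map_map] at ht
      obtain ⟨p, hp, rfl⟩ := List.mem_map.1 ht
      exact hM1z p hp
    have htabs : |(L2.map fun p => ev jj p.2 Z).sum| ≤ (L2.map fun p => |ev jj p.2 Z|).sum := by
      have := abs_list_sum_le (L2.map fun p => ev jj p.2 Z)
      rwa [List.map_map] at this
    have hκν : κ ν ≤ κ μ := hκanti μ ν hμν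
    have hfin : A + κ ν / 2 + κ (ν + 1) + (L2.map fun p => |ev jj p.2 Z|).sum ≤ A + κ ν := by
      have h1 : ((jj (ν + 1) : ℕ) : ℝ) ^ 3 = ii (ν + 1) := by
        rw [ii]; push_cast; rfl
      rw [h1] at hnum
      simp only [hκ]
      linarith
    by_cases hp1Z : ev jj p1.2 Z = 0
    · rw [hGe, hgM1, zero_add, hsumZ, hp1Z, zero_add]
      have h1 := (hB _ _ _ hx).2.1 g hW
      have h2 : 1 + 8 / (jj a1 : ℝ) ≤ A := by
        rw [hA]
        have h5 : (jj a : ℝ) ≤ jj a1 := by exact_mod_cast jj_mono.monotone haa1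
        have h6 := hjpos' a
        gcongr
      have h3 := abs_add_le (ev jj g x) (L2.map fun p => ev jj p.2 Z).sum
      have h4 := hκ0 ν
      have h5 := hκ0 (ν + 1)
      linarith
    · obtain ⟨c, hc, hpc⟩ := exists_touch hp1Z
      have hc1 := hM2s c hc
      have h2 : (L2.map fun p => ev jj p.2 x).sum = 0 := by
        apply List.sum_eq_zero
        intro t ht
        obtain ⟨p, hp, rfl⟩ := List.mem_map.1 ht
        refine ev_after jj_mono (hP2.1 p hp).1 hpc fun d hd => ?_
        have := hxs d hd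
        omega
      have h3 : ev jj g G = ev jj p1.2 G + (L2.map fun p => ev jj p.2 Z).sum := by
        rw [hGe g, hGe p1.2, hgM1, hM1z p1 hp1, hsumx, hsumZ, h2]
        ring
      rw [h3]
      have h4 := (hL p1 hp1).2 ν hν1 (by
        intro c hc1 hc2
        by_contra hcc
        exact hcomp p1 hp1 c hcc (hνmin c hc1 hc2))
      have h5 := abs_add_le (ev jj p1.2 G) (L2.map fun p => ev jj p.2 Z).sum
      linarith

end Q101.Il
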