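import Pool.Agent.Q101.IlC

/-!
# The spaces `X^n_{0,1}`: the upper bound for blocks
-/

set_option autoImplicit false

namespace Q101.Il

theorem num2 {J : ℝ} (hJ : 100 ≤ J) : 8 / J ^ 9 + 10 * (J ^ 3 + 1) / J ^ 9 ≤ 1 / J := by
  have hJ0 : 0 < J := by linarith
  set t : ℝ := 1 / J with ht
  have ht0 : 0 < t := by positivity
  have ht1 : t ≤ 1 / 100 := by
    rw [ht]; gcongr
  have e9 : ∀ c : ℝ, c / J ^ 9 = c * t ^ 9 := fun c => by
    rw [ht, one_div, inv_pow, div_eq_mul_inv]
  have hJt : J * t = 1 := by rw [ht]; field_simp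
  have e6 : J ^ 3 * t ^ 9 = t ^ 6 := by
    have : J ^ 3 * t ^ 9 = (J * t) ^ 3 * t ^ 6 := by ring
    rw [this, hJt]; ring
  rw [e9, e9]
  have h9 := tpow ht0 ht1 9 (by norm_num)
  have h6 := tpow ht0 ht1 6 (by norm_num)
  nlinarith

theorem num3 {J D : ℝ} (hJ : 100 ≤ J) (hD : D ≤ J) :
    ((1 + 8 / J) + (1 + 1 / J)) / 2 + (1 + 1 / J) / J ^ 3 +
      ((1 + 1 / J) / J + (1 + 1 / J) / J ^ 3 +
        D * ((1 + 1 / J) / J ^ 9 + (1 + 1 / J) / J ^ 3)) ≤ 1 + 8 / J := by
  have hJ0 : 0 < J := by linarith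
  set t : ℝ := 1 / J with ht
  have ht0 : 0 < t := by positivity
  have ht1 : t ≤ 1 / 100 := by
    rw [ht]; gcongr
  have e1 : ∀ c : ℝ, c / J = c * t := fun c => by rw [ht]; ring
  have e9 : ∀ c : ℝ, c / J ^ 9 = c * t ^ 9 := fun c => by
    rw [ht, one_div, inv_pow, div_eq_mul_inv]
  have e3 : ∀ c : ℝ, c / J ^ 3 = c * t ^ 3 := fun c => by
    rw [ht, one_div, inv_pow, div_eq_mul_inv]
  have hJt : J * t = 1 := by rw [ht]; field_simp
  rw [e3, e9, e1, e1]
  have h9 := tpow ht0 ht1 8 (by norm_num)
  have h3 := tpow ht0 ht1 3 (by norm_num)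
  have h2 := tpow ht0 ht1 2 (by norm_num)
  have h5 : D * ((1 + t) * t ^ 9 + (1 + t) * t ^ 3) ≤ J * ((1 + t) * t ^ 9 + (1 + t) * t ^ 3) := by
    have : 0 ≤ (1 + t) * t ^ 9 + (1 + t) * t ^ 3 := by positivity
    gcongr
  have h6 : J * ((1 + t) * t ^ 9 + (1 + t) * t ^ 3) = (1 + t) * t ^ 8 + (1 + t) * t ^ 2 := by
    have : J * ((1 + t) * t ^ 9 + (1 + t) * t ^ 3) =
        (J * t) * ((1 + t) * t ^ 8 + (1 + t) * t ^ 2) := by ring
    rw [this, hJt, one_mul]
  have k1 : (1 + t) * t ^ 8 ≤ 2 * (t / 100) := by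
    have : (0 : ℝ) ≤ t ^ 8 := by positivity
    nlinarith
  have k2 : (1 + t) * t ^ 2 ≤ 2 * (t / 100) := by
    have : (0 : ℝ) ≤ t ^ 2 := by positivity
    nlinarith
  have k3 : (1 + t) * t ^ 3 ≤ 2 * (t / 100) := by
    have : (0 : ℝ) ≤ t ^ 3 := by positivity
    nlinarith
  have k4 : (1 + t) * t ≤ 2 * t := by nlinarith
  nlinarith

theorem blk_step {B : ℕ → ℕ → (ℕ →₀ ℝ) → Prop}
    (hB : ∀ a b x, B a b x → SupIn a b x ∧
      (∀ f, InW 1 f → |ev jj f x| ≤ 1 + 8 / (jj a : ℝ)) ∧
      (∀ s α, InA 1 s α → |ev jj α x| ≤ 3 / (s : ℝ) + 2 / (ii a : ℝ)))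
    {a b : ℕ} {Ls : List (ℕ →₀ ℝ)} (hS : SeqB (Row B) (a + 1) b Ls)
    (hlen : Ls.length = ii a - 1) {x : ℕ →₀ ℝ}
    (hx : x = Finsupp.single a 1 + (1 / (ii a : ℝ)) • Ls.sum) (hxs : ∀ c ∈ x.support, a ≤ c) :
    (∀ f, InW 1 f → |ev jj f x| ≤ 1 + 8 / (jj a : ℝ)) ∧
      (∀ s α, InA 1 s α → |ev jj α x| ≤ 3 / (s : ℝ) + 2 / (ii a : ℝ)) := by
  have hsupB : ∀ a b x, B a b x → SupIn a b x := fun a b x h => (hB a b x h).1
  have hsup : ∀ a b x, Row B a b x → SupIn a b x := fun a b x h => row_sup hsupB h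
  set J : ℝ := (jj a : ℝ) with hJdef
  have hJ : 100 ≤ J := by rw [hJdef]; exact_mod_cast jj_ge a
  have hJ0 : 0 < J := by linarith
  have hI : ((ii a : ℕ) : ℝ) = J ^ 3 := by rw [ii]; push_cast; rfl
  have hI0 : (0 : ℝ) < J ^ 3 := by positivity
  set A' : ℝ := 1 + 1 / J with hA'
  set A : ℝ := 1 + 8 / J with hA
  have hA'0 : 0 ≤ A' := by positivity
  have hA'1 : 1 ≤ A' := by rw [hA']; have : 0 < 1 / J := by positivity
                           linarith
  have hA'2 : A' ≤ 2 := by
    have : 1 / J ≤ 1 := by rw [div_le_one hJ0]; linarith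
    rw [hA']; linarith
  have hAA' : A' ≤ A := by rw [hA, hA']; gcongr; norm_num
  have hA0 : 0 ≤ A := hA'0.trans hAA'
  -- bound on rows
  have hrow : ∀ f, InW 1 f → ∀ y ∈ Ls, |ev jj f y| ≤ A' := by
    intro f hf y hy
    obtain ⟨c, d, hcd, hc⟩ := hS.all hsup y hy
    obtain ⟨M, hM, hMl, rfl⟩ := hcd
    refine (row_bound hB hM f hf).trans ?_
    obtain ⟨e, rfl⟩ : ∃ e, c = e + 1 := ⟨c - 1, by omega⟩
    have he : (100 : ℝ) ≤ jj e := by exact_mod_cast jj_ge e
    have h1 := num2 he
    have h2 : ((jj (e + 1) : ℕ) : ℝ) = (jj e : ℝ) ^ 9 := by rw [jj_succ]; push_cast; rfl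
    have h3 : (M.length : ℝ) = (jj e : ℝ) ^ 3 + 1 := by
      rw [hMl, Nat.add_sub_cancel, ii]; push_cast; rfl
    rw [h2, h3]
    have h4 : 1 / (jj e : ℝ) ≤ 1 / J := by
      have : J ≤ jj e := by
        rw [hJdef]; exact_mod_cast jj_mono.monotone (by omega : a ≤ e)
      gcongr
    rw [hA']
    linarith
  have hlen' : (Ls.length : ℝ) ≤ J ^ 3 := by
    rw [← hI]; exact_mod_cast (by omega : Ls.length ≤ ii a)
  set y : ℕ →₀ ℝ := (1 / (ii a : ℝ)) • Ls.sum with hy
  have hys : ∀ c ∈ y.support, a + 1 ≤ c := fun c hc =>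
    (hS.supp_sum hsup c (Finsupp.support_smul hc)).1
  have hyf : ∀ f, InW 1 f → |ev jj f y| ≤ A' := by
    intro f hf
    have h1 : |ev jj f Ls.sum| ≤ Ls.length * A' := by
      rw [ev_list]
      have h2 := abs_list_sum_le (Ls.map (ev jj f))
      refine h2.trans ?_
      rw [List.map_map]
      exact list_sum_le_length _ _ _ fun z hz => hrow f hf z hz
    rw [hy, ev_smul, abs_mul, abs_of_nonneg (by positivity), hI]
    have h3 : (Ls.length : ℝ) * A' ≤ J ^ 3 * A' := by gcongr
    calc 1 / J ^ 3 * |ev jj f Ls.sum| ≤ 1 / J ^ 3 * (J ^ 3 * A') := by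
          gcongr
          exact h1.trans h3
      _ = A' := by field_simp
  -- sums of successive functionals on `y`
  have hyl : ∀ L : List (ℕ →₀ ℝ), L.Pairwise Before → (∀ f ∈ L, InW 1 f) →
      (L.map fun f => |ev jj f y|).sum ≤ A' + L.length * (A' / J ^ 3) := by
    intro L hL hW
    have h1 := stair jj_mono hA'0 Ls (hS.pairwise hsup) L hL (fun f hf z hz => hrow f (hW f hf) z hz)
    have h2 : (L.map fun f => |ev jj f y|).sum =
        1 / J ^ 3 * (L.map fun f => |ev jj f Ls.sum|).sum := by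
      rw [← List.sum_map_mul_left]
      congr 1
      apply List.map_congr_left
      intro f _
      rw [hy, ev_smul, abs_mul, abs_of_nonneg (by positivity), hI]
    rw [h2]
    calc 1 / J ^ 3 * (L.map fun f => |ev jj f Ls.sum|).sum
        ≤ 1 / J ^ 3 * ((J ^ 3 + L.length) * A') := by
          gcongr
          refine h1.trans ?_
          gcongr
      _ = A' + L.length * (A' / J ^ 3) := by
          field_simp
  have hyα : ∀ s α, InA 1 s α → |ev jj α y| ≤ A' / (s : ℝ) + A' / J ^ 3 := by
    intro s α hα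
    obtain ⟨L, -, hW, hL, hs, hl, rfl⟩ := hα.rep
    have hs0 : (0 : ℝ) < s := by exact_mod_cast (by omega : 0 < s)
    have h1 := hyl L hL hW
    rw [ev_smull, ev_listl, abs_mul, abs_of_nonneg (by positivity)]
    have h2 := abs_list_sum_le (L.map fun f => ev jj f y)
    rw [List.map_map] at h2
    have h3 : (L.length : ℝ) ≤ s := by exact_mod_cast hl
    calc 1 / (s : ℝ) * |(L.map fun f => ev jj f y).sum|
        ≤ 1 / (s : ℝ) * (A' + s * (A' / J ^ 3)) := by
          gcongr
          refine h2.trans (h1.trans ?_)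
          gcongr
      _ = A' / s + A' / J ^ 3 := by field_simp
  have hxe : ∀ f, ev jj f x = f (jj a) + ev jj f y := by
    intro f
    rw [hx, ev_add, ev_single]
  have hxu : ∀ f, f (jj a) = 0 → ev jj f x = ev jj f y := by
    intro f hf
    rw [hxe, hf, zero_add]
  refine ⟨?_, ?_⟩
  · have main := induct (n := 1) (P := fun f => |ev jj f x| ≤ A)
      (Q := fun _ α => |ev jj α x| ≤ (A + A') / 2 + A' / J ^ 3) ?_ ?_ ?_ ?_
    · exact main.1
    · have hgen : ∀ i f, InW 1 f → (∀ p, f p ≠ 0 → p = i) → |ev jj f x| ≤ A := by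
        intro i f hf hi
        by_cases h0 : f (jj a) = 0
        · rw [hxu f h0]
          exact (hyf f hf).trans hAA'
        · have h1 : ev jj f y = 0 := by
            refine ev_eq_zero fun c hc => ?_
            by_contra hfc
            have h2 := jj_mono.injective ((hi _ hfc).trans (hi _ h0).symm)
            have := hys c hc
            omega
          rw [hxe, h1, add_zero]
          refine ((coef 1).1 f hf _).trans ?_
          linarith
      intro i hi
      refine ⟨hgen i _ ⟨0, i, hi, Or.inl rfl⟩ ?_, hgen i _ ⟨0, i, hi, Or.inr rfl⟩ ?_⟩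
      · intro p hp
        by_contra hc
        exact hp (by rw [Finsupp.single_apply, if_neg (fun h => hc h.symm)])
      · intro p hp
        by_contra hc
        exact hp (by rw [Finsupp.neg_apply, Finsupp.single_apply, if_neg (fun h => hc h.symm),
          neg_zero])
    · intro s L _ hL hP hs hl
      have hs2 : (2 : ℝ) ≤ s := by exact_mod_cast hs
      have h1 : ∀ L' : List (ℕ →₀ ℝ), L'.Pairwise Before → (∀ f ∈ L', f ∈ L) →
          (L'.map fun f => |ev jj f x|).sum ≤ A + (L'.map fun f => |ev jj f y|).sum := by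
        intro L'
        induction L' with
        | nil => intro _ _; simpa using hA0
        | cons f L' ih =>
          intro hPw hin
          rw [List.pairwise_cons] at hPw
          simp only [List.map_cons, List.sum_cons]
          by_cases h0 : f (jj a) = 0
          · have := ih hPw.2 (fun g hg => hin g (by simp [hg]))
            rw [hxu f h0]
            linarith
          · have h2 : (L'.map fun f => |ev jj f x|) = L'.map fun f => |ev jj f y| := by
              apply List.map_congr_left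
              intro g hg
              rw [hxu g]
              by_contra hgc
              exact lt_irrefl _ (before_lt jj_mono (hPw.1 g hg) h0 hgc)
            rw [h2]
            have h3 := (hL f (hin f (by simp))).2
            have h4 := abs_nonneg (ev jj f y)
            linarith
      have h2 := h1 L hP (fun f hf => hf)
      have h3 := hyl L hP (fun f hf => (hL f hf).1)
      show |ev jj ((1 / (s : ℝ)) • L.sum) x| ≤ (A + A') / 2 + A' / J ^ 3
      rw [ev_smull, ev_listl, abs_mul, abs_of_nonneg (by positivity)]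
      have h4 := abs_list_sum_le (L.map fun f => ev jj f x)
      rw [List.map_map] at h4
      have h5 : (L.length : ℝ) ≤ s := by exact_mod_cast hl
      have h6 : (L.length : ℝ) * (A' / J ^ 3) ≤ s * (A' / J ^ 3) := by gcongr
      calc 1 / (s : ℝ) * |(L.map fun f => ev jj f x).sum|
          ≤ 1 / (s : ℝ) * ((A + A') + s * (A' / J ^ 3)) := by
            gcongr
            refine h4.trans ?_
            have h7 : (List.map ((fun t => |t|) ∘ fun f => ev jj f x) L).sum =
              (L.map fun f => |ev jj f x|).sum := rfl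
            rw [h7]
            linarith
        _ = 1 / (s : ℝ) * (A + A') + A' / J ^ 3 := by field_simp
        _ ≤ 1 / 2 * (A + A') + A' / J ^ 3 := by gcongr
        _ = (A + A') / 2 + A' / J ^ 3 := by ring
    · intro s α _ h
      have h1 := num3 (D := 0) hJ hJ0.le
      have h2 : 0 ≤ A' / J + A' / J ^ 3 := by positivity
      rw [zero_mul, add_zero] at h1
      show |ev jj α x| ≤ A
      linarith
    · intro L _ hL hP hSch hW
      show |ev jj (L.map Prod.snd).sum x| ≤ A
      set g : ℕ →₀ ℝ := (L.map Prod.snd).sum with hg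
      by_cases h0 : g (jj a) = 0
      · rw [hxu g h0]
        exact (hyf g hW).trans hAA'
      · have hex1 : ∃ p ∈ L, p.2 (jj a) ≠ 0 := by
          by_contra hc
          push Not at hc
          apply h0
          rw [hg]
          apply psum_zero
          intro f hf
          obtain ⟨p, hp, rfl⟩ := List.mem_map.1 hf
          exact hc p hp
        obtain ⟨p1, hp1, hp1ν⟩ := hex1
        obtain ⟨L1, L2, hLeq⟩ := List.append_of_mem hp1
        have hP' := hP
        rw [hLeq, List.pairwise_append] at hP'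
        obtain ⟨-, hP2, hP12⟩ := hP'
        rw [List.pairwise_cons] at hP2
        have hL1x : ∀ p ∈ L1, ev jj p.2 x = 0 := fun p hp =>
          ev_before jj_mono (hP12 p hp p1 (by simp)).1 hp1ν hxs
        have hL2x : ∀ p ∈ L2, ev jj p.2 x = ev jj p.2 y := by
          intro p hp
          refine hxu _ ?_
          by_contra hgc
          exact lt_irrefl _ (before_lt jj_mono (hP2.1 p hp).1 hp1ν hgc)
        have hsumx : ev jj g x = ev jj p1.2 x + (L2.map fun p => ev jj p.2 y).sum := by
          rw [hg, ev_listl, List.map_map, hLeq, List.map_append, List.sum_append, List.map_cons,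
            List.sum_cons]
          have h1 : (List.map ((fun f => ev jj f x) ∘ Prod.snd) L1).sum = 0 := by
            apply List.sum_eq_zero
            intro t ht
            obtain ⟨p, hp, rfl⟩ := List.mem_map.1 ht
            exact hL1x p hp
          have h2 : (List.map ((fun f => ev jj f x) ∘ Prod.snd) L2) =
              L2.map fun p => ev jj p.2 y := by
            apply List.map_congr_left
            intro p hp
            exact hL2x p hp
          rw [h1, zero_add, h2]
          rfl
        have htail := tail_sum (j := jj) (μ := a) jj_mono (by have := jj_ge a; omega)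
          (c := A') (d := A' / J ^ 3) hA'0 (by positivity) (z := y) hys L2 hP2.2
          (fun p hp => (hP2.1 p hp).2.2 _ (Finsupp.mem_support_iff.2 hp1ν))
          (fun p hp => hyα p.1 p.2 (hL p (by rw [hLeq]; simp [hp])).1)
        have hL2len : (L2.length : ℝ) ≤ J := by
          have h1 := schreier_len hP hSch hp1 (Finsupp.mem_support_iff.2 hp1ν)
          have h2 : L2.length ≤ L.length := by rw [hLeq]; simp; omega
          rw [hJdef]
          exact_mod_cast h2.trans h1
        have hnum := num3 (D := (L2.length : ℝ)) hJ hL2len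
        have hjs : ((jj (a + 1) : ℕ) : ℝ) = J ^ 9 := by rw [jj_succ]; push_cast; rfl
        rw [hjs, ← hJdef] at htail
        have htabs : |(L2.map fun p => ev jj p.2 y).sum| ≤
            (L2.map fun p => |ev jj p.2 y|).sum := by
          have := abs_list_sum_le (L2.map fun p => ev jj p.2 y)
          rwa [List.map_map] at this
        have hp1b := (hL p1 hp1).2
        rw [hsumx]
        have h5 := abs_add_le (ev jj p1.2 x) (L2.map fun p => ev jj p.2 y).sum
        linarith
  · intro s α hα
    rw [hxe, hI]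
    have h1 := (coef 1).2 s α hα (jj a)
    have h2 := hyα s α hα
    have h3 := abs_add_le (α (jj a)) (ev jj α y)
    obtain ⟨_, _, _, _, hs, _, _⟩ := hα.rep
    have hs0 : (0 : ℝ) < s := by exact_mod_cast (by omega : 0 < s)
    have h4 : A' / (s : ℝ) ≤ 2 / s := by gcongr
    have h5 : A' / J ^ 3 ≤ 2 / J ^ 3 := by gcongr
    have h6 : 3 / (s : ℝ) = 1 / s + 2 / s := by ring
    linarith

theorem blk_bound (k : ℕ) : ∀ a b x, Blk k a b x → SupIn a b x ∧
      (∀ f, InW 1 f → |ev jj f x| ≤ 1 + 8 / (jj a : ℝ)) ∧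
      (∀ s α, InA 1 s α → |ev jj α x| ≤ 3 / (s : ℝ) + 2 / (ii a : ℝ)) := by
  induction k with
  | zero =>
    intro a b x h
    refine ⟨blk_sup 0 a b x h, ?_, ?_⟩
    · intro f hf
      obtain ⟨rfl, rfl⟩ := h
      rw [ev_single]
      refine ((coef 1).1 f hf _).trans ?_
      have : (0 : ℝ) ≤ 8 / (jj a : ℝ) := by positivity
      linarith
    · intro s α hα
      obtain ⟨rfl, rfl⟩ := h
      rw [ev_single]
      refine ((coef 1).2 s α hα _).trans ?_
      have h1 : (0 : ℝ) ≤ 2 / (ii a : ℝ) := by positivity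
      have h2 : (0 : ℝ) ≤ 1 / (s : ℝ) := by positivity
      have h3 : 3 / (s : ℝ) = 3 * (1 / s) := by ring
      linarith
  | succ k ih =>
    intro a b x h
    have hsup := blk_sup (k + 1) a b x h
    obtain ⟨Ls, hS, hlen, hx⟩ := h
    exact ⟨hsup, blk_step ih hS hlen hx fun c hc => (hsup.2 c hc).1⟩

end Q101.Il
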