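import Mathlib

/-!
# The spaces `X^n_{0,1}`: definitions
-/

set_option autoImplicit false

namespace Q101.Il

/-- `f < g`: every point of the support of `f` is smaller than every point of the support of `g`. -/
def Before (f g : ℕ →₀ ℝ) : Prop := ∀ a ∈ f.support, ∀ b ∈ g.support, a < b

/-- The Schreier families: `S_0` consists of the singletons `{k}`, `k ≥ 1`; `S_1` of the nonempty
`F` with `#F ≤ min F`; `S_{k+1}` of the unions `F_1 ∪ ... ∪ F_d`, `F_1 < ... < F_d` in `S_k`,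
`1 ≤ d ≤ min F_1`. -/
def Schreier : ℕ → Set (Finset ℕ)
  | 0 => {F | ∃ k : ℕ, 1 ≤ k ∧ F = {k}}
  | 1 => {F | F.Nonempty ∧ ∀ k ∈ F, F.card ≤ k}
  | n + 2 => {F | ∃ L : List (Finset ℕ), L ≠ [] ∧ (∀ G ∈ L, G ∈ Schreier (n + 1)) ∧
      L.Pairwise (fun A B => ∀ a ∈ A, ∀ b ∈ B, a < b) ∧ F = L.foldr (· ∪ ·) ∅ ∧
      ∀ k ∈ F, L.length ≤ k}

/-- The `α`-averages of size `s` of elements of `W`: `(1/s) (f_1 + ... + f_d)` with
`f_1 < ... < f_d` in `W`, `s ≥ 2`, `1 ≤ d ≤ s`. -/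
def averages (W : Set (ℕ →₀ ℝ)) (s : ℕ) : Set (ℕ →₀ ℝ) :=
  {α | ∃ L : List (ℕ →₀ ℝ), L ≠ [] ∧ (∀ f ∈ L, f ∈ W) ∧ L.Pairwise Before ∧
    2 ≤ s ∧ L.length ≤ s ∧ α = (1 / (s : ℝ)) • L.sum}

/-- The Schreier functionals: the sums `α_1 + ... + α_d`, `d ≥ 1`, where `α_q` is an average of
size `s_q` (an element of `A s_q`), `α_1 < ... < α_d`, the set of the `min supp α_q` is in `S_n`,
`s_1 < s_2 < ...` and `s_q > max supp α_p` for all `p < q`. -/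
def schreierSums (n : ℕ) (A : ℕ → Set (ℕ →₀ ℝ)) : Set (ℕ →₀ ℝ) :=
  {g | ∃ L : List (ℕ × (ℕ →₀ ℝ)), L ≠ [] ∧ (∀ p ∈ L, p.2 ∈ A p.1) ∧
    L.Pairwise (fun p q => Before p.2 q.2 ∧ p.1 < q.1 ∧ ∀ a ∈ p.2.support, a < q.1) ∧
    (L.map (fun p => sInf (p.2.support : Set ℕ))).toFinset ∈ Schreier n ∧
    g = (L.map Prod.snd).sum}

/-- The pair `(W_m, A_m)`, where `A_m s` is the set of the `α`-averages of size `s` in `W_m`. -/
def stage (n : ℕ) : ℕ → Set (ℕ →₀ ℝ) × (ℕ → Set (ℕ →₀ ℝ))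
  | 0 => ({f | ∃ i : ℕ, 1 ≤ i ∧ (f = Finsupp.single i 1 ∨ f = -Finsupp.single i 1)}, fun _ => ∅)
  | m + 1 => ((stage n m).1 ∪ (⋃ s, averages (stage n m).1 s) ∪ schreierSums n (stage n m).2,
      fun s => (stage n m).2 s ∪ averages (stage n m).1 s)

/-- `f(x) = ∑ f_a x_a`. -/
noncomputable def pairing (f x : ℕ →₀ ℝ) : ℝ := x.sum fun a v => v * f a

/-- The norm of `X^n_{0,1}` on finitely supported sequences: `sup {f(x) : f ∈ ⋃ W_m}`. -/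
noncomputable def nrm (n : ℕ) (x : ℕ →₀ ℝ) : ℝ :=
  sSup {r : ℝ | ∃ m : ℕ, ∃ f ∈ (stage n m).1, r = pairing f x}

/-- Equivalence of two sequences of finitely supported vectors of `X^n_{0,1}`. -/
def SeqEquiv (n : ℕ) (u v : ℕ → (ℕ →₀ ℝ)) : Prop :=
  ∃ C : ℝ, 1 ≤ C ∧ ∀ a : ℕ →₀ ℝ,
    C⁻¹ * nrm n (a.sum fun m t => t • v m) ≤ nrm n (a.sum fun m t => t • u m) ∧
    nrm n (a.sum fun m t => t • u m) ≤ C * nrm n (a.sum fun m t => t • v m)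

end Q101.Il
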