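import Pool.Agent.Q101.IlD

/-!
# The spaces `X^n_{0,1}`: the lower bound, and the conclusion
-/

set_option autoImplicit false

namespace Q101.Il

theorem stage_mono (n m : ℕ) : (stage n m).1 ⊆ (stage n (m + 1)).1 :=
  fun _ hf => Or.inl (Or.inl hf)

theorem stage_zero_sub (n m : ℕ) : (stage n 0).1 ⊆ (stage n m).1 := by
  induction m with
  | zero => exact subset_rfl
  | succ m ih => exact ih.trans (stage_mono n m)

theorem ev_right {f y : ℕ →₀ ℝ} {b : ℕ} (hb : 1 ≤ b) (hf : ∀ p ∈ f.support, p ≤ ii (b - 1))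
    (hy : ∀ c ∈ y.support, b ≤ c) : ev ii f y = 0 := by
  refine ev_eq_zero fun c hc => ?_
  by_contra h
  have h1 := hf _ (Finsupp.mem_support_iff.2 h)
  have h2 := hy c hc
  have h3 : ii (b - 1) < ii c := ii_mono (by omega)
  omega

theorem ev_left {f y : ℕ →₀ ℝ} {a : ℕ} (hf : ∀ p ∈ f.support, ii a ≤ p)
    (hy : ∀ c ∈ y.support, c < a) : ev ii f y = 0 := by
  refine ev_eq_zero fun c hc => ?_
  by_contra h
  have h1 := hf _ (Finsupp.mem_support_iff.2 h)
  have h2 := hy c hc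
  have h3 : ii c < ii a := ii_mono h2
  omega

theorem seq_avg {P : ℕ → ℕ → (ℕ →₀ ℝ) → Prop} (W : Set (ℕ →₀ ℝ)) (v : ℝ) (k0 : ℕ)
    (hP : ∀ a b x, P a b x → SupIn a b x)
    (hF : ∀ a b x, P a b x → k0 ≤ a → ∃ f, f ∈ W ∧ f.support.Nonempty ∧
      (∀ p ∈ f.support, ii a ≤ p ∧ p ≤ ii (b - 1)) ∧ v ≤ ev ii f x)
    {a b : ℕ} {L : List (ℕ →₀ ℝ)} (h : SeqB P a b L) : k0 ≤ a →
    ∃ fs : List (ℕ →₀ ℝ), fs.length = L.length ∧
      (∀ f ∈ fs, f ∈ W ∧ ∀ p ∈ f.support, ii a ≤ p ∧ p ≤ ii (b - 1)) ∧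
      fs.Pairwise Before ∧ L.length * v ≤ ev ii fs.sum L.sum := by
  induction h with
  | nil a =>
    intro _
    exact ⟨[], rfl, by simp, List.Pairwise.nil, by simp [ev_zero]⟩
  | @cons a b c x L h1 h2 ih =>
    intro ha
    obtain ⟨hab, hxs⟩ := hP _ _ _ h1
    have hbc := h2.le hP
    obtain ⟨f, hfW, -, hfs, hfv⟩ := hF a b x h1 ha
    obtain ⟨fs, hl, hin, hpw, hv⟩ := ih (by omega)
    have hm1 : ii (b - 1) ≤ ii (c - 1) := ii_mono.monotone (by omega)
    have hm2 : ii a ≤ ii b := ii_mono.monotone hab.le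
    have hm3 : ii (b - 1) < ii b := ii_mono (by omega)
    refine ⟨f :: fs, by simp [hl], ?_, ?_, ?_⟩
    · intro g hg
      rcases List.mem_cons.1 hg with rfl | hg
      · exact ⟨hfW, fun p hp => ⟨(hfs p hp).1, (hfs p hp).2.trans hm1⟩⟩
      · exact ⟨(hin g hg).1, fun p hp => ⟨hm2.trans ((hin g hg).2 p hp).1, ((hin g hg).2 p hp).2⟩⟩
    · refine List.pairwise_cons.2 ⟨fun g hg p hp q hq => ?_, hpw⟩
      have h3 := (hfs p hp).2
      have h4 := ((hin g hg).2 q hq).1
      omega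
    · rw [List.sum_cons, List.sum_cons, ev_addl, ev_add, ev_add]
      have e1 : ev ii f L.sum = 0 :=
        ev_right (b := b) (by omega) (fun p hp => (hfs p hp).2)
          (fun d hd => (h2.supp_sum hP d hd).1)
      have e2 : ev ii fs.sum x = 0 := by
        refine ev_left (a := b) (fun p hp => ?_) (fun d hd => (hxs d hd).2)
        obtain ⟨g, hg, hpg⟩ := supp_sum hp
        exact ((hin g hg).2 p hpg).1
      rw [e1, e2, List.length_cons]
      push_cast
      linarith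

theorem seq_sum {P : ℕ → ℕ → (ℕ →₀ ℝ) → Prop} (A : ℕ → Set (ℕ →₀ ℝ)) (v : ℝ) (k0 : ℕ)
    (hP : ∀ a b x, P a b x → SupIn a b x)
    (hF : ∀ a b x, P a b x → k0 ≤ a → ∃ f, f ∈ A (ii (a - 1) + 1) ∧ f.support.Nonempty ∧
      (∀ p ∈ f.support, ii a ≤ p ∧ p ≤ ii (b - 1)) ∧ v ≤ ev ii f x)
    {a b : ℕ} {L : List (ℕ →₀ ℝ)} (h : SeqB P a b L) : k0 ≤ a → 1 ≤ a →
    ∃ fs : List (ℕ × (ℕ →₀ ℝ)), fs.length = L.length ∧
      (∀ f ∈ fs, f.2 ∈ A f.1 ∧ f.2.support.Nonempty ∧ ii (a - 1) + 1 ≤ f.1 ∧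
        ∀ p ∈ f.2.support, ii a ≤ p ∧ p ≤ ii (b - 1)) ∧
      fs.Pairwise PR ∧ L.length * v ≤ ev ii (fs.map Prod.snd).sum L.sum := by
  induction h with
  | nil a =>
    intro _ _
    exact ⟨[], rfl, by simp, List.Pairwise.nil, by simp [ev_zero]⟩
  | @cons a b c x L h1 h2 ih =>
    intro ha ha1
    obtain ⟨hab, hxs⟩ := hP _ _ _ h1
    have hbc := h2.le hP
    obtain ⟨f, hfW, hne, hfs, hfv⟩ := hF a b x h1 ha
    obtain ⟨fs, hl, hin, hpw, hv⟩ := ih (by omega) (by omega)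
    have hm1 : ii (b - 1) ≤ ii (c - 1) := ii_mono.monotone (by omega)
    have hm2 : ii a ≤ ii b := ii_mono.monotone hab.le
    have hm3 : ii (b - 1) < ii b := ii_mono (by omega)
    have hm4 : ii (a - 1) < ii (b - 1) := ii_mono (by omega)
    refine ⟨(ii (a - 1) + 1, f) :: fs, by simp [hl], ?_, ?_, ?_⟩
    · intro g hg
      rcases List.mem_cons.1 hg with rfl | hg
      · exact ⟨hfW, hne, le_rfl, fun p hp => ⟨(hfs p hp).1, (hfs p hp).2.trans hm1⟩⟩
      · obtain ⟨g1, g2, g3, g4⟩ := hin g hg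
        exact ⟨g1, g2, by omega, fun p hp => ⟨hm2.trans (g4 p hp).1, (g4 p hp).2⟩⟩
    · refine List.pairwise_cons.2 ⟨fun g hg => ⟨fun p hp q hq => ?_, ?_, fun p hp => ?_⟩, hpw⟩
      · obtain ⟨g1, g2, g3, g4⟩ := hin g hg
        have h3 := (hfs p hp).2
        have h4 := (g4 q hq).1
        omega
      · obtain ⟨g1, g2, g3, g4⟩ := hin g hg
        show ii (a - 1) + 1 < g.1
        omega
      · obtain ⟨g1, g2, g3, g4⟩ := hin g hg
        have h3 := (hfs p hp).2
        omega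
    · rw [List.map_cons, List.sum_cons, List.sum_cons, ev_addl, ev_add, ev_add]
      have e1 : ev ii f L.sum = 0 :=
        ev_right (b := b) (by omega) (fun p hp => (hfs p hp).2)
          (fun d hd => (h2.supp_sum hP d hd).1)
      have e2 : ev ii (fs.map Prod.snd).sum x = 0 := by
        refine ev_left (a := b) (fun p hp => ?_) (fun d hd => (hxs d hd).2)
        obtain ⟨g, hg, hpg⟩ := supp_sum hp
        obtain ⟨r, hr, rfl⟩ := List.mem_map.1 hg
        exact ((hin r hr).2.2.2 p hpg).1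
      rw [e1, e2, List.length_cons]
      push_cast
      linarith

theorem lower (k : ℕ) : ∀ a b x, Blk k a b x → k + 3 ≤ a → ∃ f, f ∈ (stage 1 (2 * k)).1 ∧
    f.support.Nonempty ∧ (∀ p ∈ f.support, ii a ≤ p ∧ p ≤ ii (b - 1)) ∧
    1 + (k : ℝ) / 4 ≤ ev ii f x := by
  induction k with
  | zero =>
    rintro a b x ⟨rfl, rfl⟩ _
    refine ⟨Finsupp.single (ii a) 1, ⟨ii a, ?_, Or.inl rfl⟩, ?_, ?_, ?_⟩
    · have := jj_lt_ii a; omega
    · exact ⟨ii a, by simp⟩
    · intro p hp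
      have : p = ii a := by simpa using Finsupp.support_single_subset hp
      simp [this]
    · rw [ev_single]; simp
  | succ k ih =>
    intro a b x hx ha
    have hsupB : ∀ a b x, Blk k a b x → SupIn a b x := blk_sup k
    have hsup : ∀ a b x, Row (Blk k) a b x → SupIn a b x := fun a b x h => row_sup hsupB h
    have hab := (blk_sup (k + 1) a b x hx).1
    obtain ⟨Ls, hS, hlen, hxe⟩ := hx
    set v : ℝ := 1 + (k : ℝ) / 4 with hv
    have hv0 : 0 < v := by positivity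
    have hrow : ∀ a b G, Row (Blk k) a b G → k + 3 ≤ a →
        ∃ f, f ∈ (stage 1 (2 * k + 1)).2 (ii (a - 1) + 1) ∧ f.support.Nonempty ∧
        (∀ p ∈ f.support, ii a ≤ p ∧ p ≤ ii (b - 1)) ∧ v ≤ ev ii f G := by
      rintro a b G ⟨M, hM, hMl, rfl⟩ ha
      obtain ⟨fs, hfl, hfin, hfpw, hfv⟩ := seq_avg (stage 1 (2 * k)).1 v (k + 3) hsupB ih hM ha
      have hl0 : (0 : ℝ) < ((ii (a - 1) + 1 : ℕ) : ℝ) := by positivity
      have hval : v ≤ ev ii ((1 / ((ii (a - 1) + 1 : ℕ) : ℝ)) • fs.sum) M.sum := by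
        rw [ev_smull]
        rw [hMl] at hfv
        calc v = 1 / ((ii (a - 1) + 1 : ℕ) : ℝ) * (((ii (a - 1) + 1 : ℕ) : ℝ) * v) := by
              field_simp
          _ ≤ _ := by gcongr
      refine ⟨(1 / ((ii (a - 1) + 1 : ℕ) : ℝ)) • fs.sum, Or.inr ⟨fs, ?_, fun f hf => (hfin f hf).1,
        hfpw, ?_, ?_, rfl⟩, ?_, ?_, hval⟩
      · intro h
        rw [h] at hfl
        simp at hfl
        omega
      · have := jj_lt_ii (a - 1)
        have := jj_ge (a - 1)
        omega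
      · omega
      · obtain ⟨c, -, hc⟩ := exists_touch (ne_of_gt (lt_of_lt_of_le hv0 hval))
        exact ⟨_, Finsupp.mem_support_iff.2 hc⟩
      · intro p hp
        obtain ⟨g, hg, hpg⟩ := supp_sum (Finsupp.support_smul hp)
        exact (hfin g hg).2 p hpg
    obtain ⟨fs, hfl, hfin, hfpw, hfv⟩ := seq_sum (stage 1 (2 * k + 1)).2 v (k + 3) hsup hrow hS
      (by omega) (by omega)
    rw [Nat.add_sub_cancel] at hfin
    have hiia : 100 < ii a := (jj_ge a).trans_lt (jj_lt_ii a)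
    have hiisucc : ii a < ii (a + 1) := ii_mono (Nat.lt_succ_self a)
    set α0 : ℕ →₀ ℝ := (1 / ((2 : ℕ) : ℝ)) • Finsupp.single (ii a) (1 : ℝ) with hα0
    have hα0v : α0 (ii a) = 1 / 2 := by
      rw [hα0, Finsupp.smul_apply, Finsupp.single_eq_same]; norm_num
    have hα0s : ∀ p ∈ α0.support, p = ii a := by
      intro p hp
      have := Finsupp.support_single_subset (Finsupp.support_smul hp)
      simpa using this
    have hall : ∀ p ∈ ((2, α0) :: fs), p.2.support.Nonempty ∧ ∀ q ∈ p.2.support,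
        ii a ≤ q ∧ q ≤ ii (b - 1) := by
      intro p hp
      rcases List.mem_cons.1 hp with rfl | hp
      · refine ⟨⟨ii a, Finsupp.mem_support_iff.2 ?_⟩, fun q hq => ?_⟩
        · show α0 (ii a) ≠ 0
          rw [hα0v]; norm_num
        · rw [hα0s q hq]
          exact ⟨le_rfl, ii_mono.monotone (by omega)⟩
      · obtain ⟨h1, h2, h3, h4⟩ := hfin p hp
        exact ⟨h2, fun q hq => ⟨hiisucc.le.trans (h4 q hq).1, (h4 q hq).2⟩⟩
    refine ⟨(((2, α0) :: fs).map Prod.snd).sum, Or.inr ⟨(2, α0) :: fs, by simp, ?_, ?_, ?_, rfl⟩,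
      ?_, ?_, ?_⟩
    · intro p hp
      rcases List.mem_cons.1 hp with rfl | hp
      · refine Or.inr ⟨[Finsupp.single (ii a) (1 : ℝ)], by simp, ?_, by simp, le_rfl, by simp, ?_⟩
        · intro f hf
          rw [List.mem_singleton] at hf
          rw [hf]
          exact stage_zero_sub 1 _ ⟨ii a, by omega, Or.inl rfl⟩
        · rw [List.sum_singleton]
      · exact (hfin p hp).1
    · refine List.pairwise_cons.2 ⟨fun q hq => ⟨fun c hc d hd => ?_, ?_, fun c hc => ?_⟩, hfpw⟩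
      · rw [hα0s c hc]
        exact hiisucc.trans_le ((hfin q hq).2.2.2 d hd).1
      · have := (hfin q hq).2.2.1
        show 2 < q.1
        omega
      · rw [hα0s c hc]
        have := (hfin q hq).2.2.1
        omega
    · refine ⟨⟨sInf (α0.support : Set ℕ), ?_⟩, fun q hq => ?_⟩
      · rw [List.mem_toFinset]; simp
      · have hcard : ((((2, α0) :: fs).map
            (fun p => sInf (p.2.support : Set ℕ))).toFinset).card ≤ ii a := by
          refine (List.toFinset_card_le _).trans ?_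
          rw [List.length_map, List.length_cons, hfl, hlen]
          omega
        rw [List.mem_toFinset, List.mem_map] at hq
        obtain ⟨p, hp, rfl⟩ := hq
        obtain ⟨h1, h2⟩ := hall p hp
        have h3 := h2 _ (Nat.sInf_mem (show ((p.2.support : Set ℕ)).Nonempty from h1))
        exact hcard.trans h3.1
    · -- nonempty support
      refine ⟨ii a, Finsupp.mem_support_iff.2 ?_⟩
      rw [List.map_cons, List.sum_cons, Finsupp.add_apply, psum_zero (fs.map Prod.snd)]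
      · show α0 (ii a) + 0 ≠ 0
        rw [hα0v]; norm_num
      · intro f hf
        obtain ⟨p, hp, rfl⟩ := List.mem_map.1 hf
        by_contra hc
        have := ((hfin p hp).2.2.2 _ (Finsupp.mem_support_iff.2 hc)).1
        omega
    · intro p hp
      obtain ⟨g, hg, hpg⟩ := supp_sum hp
      obtain ⟨r, hr, rfl⟩ := List.mem_map.1 hg
      exact (hall r hr).2 p hpg
    · rw [List.map_cons, List.sum_cons, hxe, ev_addl, ev_add, ev_add, ev_single, ev_single,
        ev_smul, ev_smul]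
      have e1 : ev ii α0 Ls.sum = 0 := by
        refine ev_eq_zero fun c hc => ?_
        by_contra h
        have h1 := hα0s _ (Finsupp.mem_support_iff.2 h)
        have h2 := ii_mono.injective h1
        have h3 := hS.supp_sum hsup c hc
        omega
      have e2 : (fs.map Prod.snd).sum (ii a) = 0 := by
        apply psum_zero
        intro f hf
        obtain ⟨p, hp, rfl⟩ := List.mem_map.1 hf
        by_contra hc
        have := ((hfin p hp).2.2.2 _ (Finsupp.mem_support_iff.2 hc)).1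
        omega
      show 1 + ((k + 1 : ℕ) : ℝ) / 4 ≤ α0 (ii a) + 1 / (ii a : ℝ) * ev ii α0 Ls.sum +
        ((fs.map Prod.snd).sum (ii a) + 1 / (ii a : ℝ) * ev ii (fs.map Prod.snd).sum Ls.sum)
      rw [hα0v, e1, e2, mul_zero, add_zero, zero_add]
      have hI : (0 : ℝ) < ii a := by positivity
      have hlr : (Ls.length : ℝ) = (ii a : ℝ) - 1 := by
        rw [hlen, Nat.cast_sub (by omega)]; simp
      rw [hlr] at hfv
      have h1 : 1 / (ii a : ℝ) * (((ii a : ℝ) - 1) * v) ≤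
          1 / (ii a : ℝ) * ev ii (fs.map Prod.snd).sum Ls.sum := by gcongr
      have h2 : 1 / (ii a : ℝ) * (((ii a : ℝ) - 1) * v) = v - v / ii a := by
        field_simp
      have h3 : v / (ii a : ℝ) ≤ 1 / 4 := by
        rw [div_le_iff₀ hI]
        have h4 : a ≤ ii a := ii_mono.le_apply
        have h5 : ((k + 4 : ℕ) : ℝ) ≤ ii a := by exact_mod_cast (by omega : k + 4 ≤ ii a)
        push_cast at h5
        rw [hv]
        linarith
      push_cast
      rw [hv] at h1 h2 h3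
      linarith

/-! ### norms -/

theorem pairing_le (n : ℕ) {f : ℕ →₀ ℝ} (hf : InW n f) (x : ℕ →₀ ℝ) :
    pairing f x ≤ ∑ a ∈ x.support, |x a| := by
  unfold pairing
  rw [Finsupp.sum]
  refine Finset.sum_le_sum fun a _ => ?_
  have h1 := (coef n).1 f hf a
  calc x a * f a ≤ |x a * f a| := le_abs_self _
    _ = |x a| * |f a| := abs_mul _ _
    _ ≤ |x a| * 1 := by gcongr
    _ = |x a| := mul_one _

theorem nrm_bdd (n : ℕ) (x : ℕ →₀ ℝ) :
    BddAbove {r : ℝ | ∃ m : ℕ, ∃ f ∈ (stage n m).1, r = pairing f x} := by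
  refine ⟨∑ a ∈ x.support, |x a|, ?_⟩
  rintro r ⟨m, f, hf, rfl⟩
  exact pairing_le n ⟨m, hf⟩ x

theorem le_nrm {n : ℕ} {f : ℕ →₀ ℝ} (hf : InW n f) (x : ℕ →₀ ℝ) : pairing f x ≤ nrm n x := by
  obtain ⟨m, hm⟩ := hf
  exact le_csSup (nrm_bdd n x) ⟨m, f, hm, rfl⟩

theorem nrm_le {n : ℕ} {x : ℕ →₀ ℝ} {c : ℝ} (h : ∀ f, InW n f → pairing f x ≤ c) :
    nrm n x ≤ c := by
  refine csSup_le ⟨_, 0, Finsupp.single 1 1, ⟨1, le_rfl, Or.inl rfl⟩, rfl⟩ ?_
  rintro r ⟨m, f, hf, rfl⟩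
  exact h f ⟨m, hf⟩

theorem pairing_place (i : ℕ → ℕ) (f x : ℕ →₀ ℝ) :
    pairing f (x.sum fun m t => t • Finsupp.single (i m) (1 : ℝ)) = ev i f x := by
  have h1 : (x.sum fun m t => t • Finsupp.single (i m) (1 : ℝ)) = Finsupp.mapDomain i x := by
    unfold Finsupp.mapDomain
    refine Finsupp.sum_congr fun a _ => ?_
    rw [Finsupp.smul_single, smul_eq_mul, mul_one]
  rw [h1]
  unfold pairing ev
  rw [Finsupp.sum_mapDomain_index]
  · intro b; simp
  · intro b m1 m2; ring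

theorem not_equiv : ¬ SeqEquiv 1 (fun m => Finsupp.single (ii m) (1 : ℝ))
    (fun m => Finsupp.single (jj m) (1 : ℝ)) := by
  rintro ⟨C, hC1, hC⟩
  obtain ⟨k, hk⟩ := exists_nat_gt (8 * C)
  obtain ⟨b, x, hx⟩ := blk_exists k (k + 3)
  obtain ⟨f, hf, -, -, hfv⟩ := lower k _ _ _ hx le_rfl
  have h1 := (hC x).2
  have h2 : 1 + (k : ℝ) / 4 ≤ nrm 1 (x.sum fun m t => t • Finsupp.single (ii m) (1 : ℝ)) := by
    refine hfv.trans ?_
    rw [← pairing_place]
    exact le_nrm ⟨_, hf⟩ _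
  have h3 : nrm 1 (x.sum fun m t => t • Finsupp.single (jj m) (1 : ℝ)) ≤ 2 := by
    refine nrm_le fun g hg => ?_
    rw [pairing_place]
    refine (le_abs_self _).trans (((blk_bound k _ _ _ hx).2.1 g hg).trans ?_)
    have h4 : (100 : ℝ) ≤ jj (k + 3) := by exact_mod_cast jj_ge _
    have h5 : 8 / (jj (k + 3) : ℝ) ≤ 1 := by
      rw [div_le_one (by linarith)]; linarith
    linarith
  nlinarith

end Q101.Il
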