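import Mathlib

set_option autoImplicit false
set_option linter.unusedSectionVars false

open Filter Topology Finset
open scoped ENNReal

namespace Q101.LUCC

variable (𝕜 : Type) [RCLike 𝕜]

/-- the space `ℓ_2 ⊕ ℓ_1` -/
abbrev X : Type := lp (fun _ : ℕ => 𝕜) 2 × lp (fun _ : ℕ => 𝕜) 1

/-- the sign `(-1)^n` -/
def sg (n : ℕ) : 𝕜 := (-1) ^ n

/-- the basis `(e_i, e_i), (e_i, -e_i)` -/
noncomputable def x (n : ℕ) : X 𝕜 :=
  (lp.single 2 (n / 2) (1 : 𝕜), sg 𝕜 n • lp.single 1 (n / 2) (1 : 𝕜))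

/-- the coordinate functionals -/
noncomputable def xs (n : ℕ) : X 𝕜 →L[𝕜] 𝕜 :=
  (2⁻¹ : 𝕜) • ((lp.evalCLM 𝕜 (fun _ : ℕ => 𝕜) 2 (n / 2)).comp (ContinuousLinearMap.fst 𝕜 _ _) +
    sg 𝕜 n • (lp.evalCLM 𝕜 (fun _ : ℕ => 𝕜) 1 (n / 2)).comp (ContinuousLinearMap.snd 𝕜 _ _))

theorem xs_apply (n : ℕ) (f : X 𝕜) :
    xs 𝕜 n f = 2⁻¹ * (f.1 (n / 2) + sg 𝕜 n * f.2 (n / 2)) := rfl

theorem sg_sq (n : ℕ) : sg 𝕜 n * sg 𝕜 n = 1 := by
  unfold sg
  rw [← mul_pow]; simp

theorem norm_sg (n : ℕ) : ‖sg 𝕜 n‖ = 1 := by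
  unfold sg; simp

theorem biorth (m n : ℕ) : xs 𝕜 m (x 𝕜 n) = if m = n then 1 else 0 := by
  rw [xs_apply]
  change 2⁻¹ * ((lp.single (E := fun _ : ℕ => 𝕜) 2 (n / 2) (1 : 𝕜)) (m / 2) +
    sg 𝕜 m * (sg 𝕜 n * (lp.single (E := fun _ : ℕ => 𝕜) 1 (n / 2) (1 : 𝕜)) (m / 2))) = _
  rw [lp.single_apply, lp.single_apply]
  by_cases h : m / 2 = n / 2
  · rw [h, Pi.single_eq_same]
    by_cases hmn : m = n
    · subst hmn
      rw [if_pos rfl, mul_one, sg_sq]
      norm_num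
    · rw [if_neg hmn, mul_one]
      have : sg 𝕜 m * sg 𝕜 n = -1 := by
        unfold sg
        rw [← pow_add]
        apply Odd.neg_one_pow
        rw [Nat.odd_iff]
        omega
      rw [this]; simp
  · rw [Pi.single_eq_of_ne h, if_neg]
    · simp
    · rintro rfl; exact h rfl

theorem norm_x (n : ℕ) : ‖x 𝕜 n‖ = 1 := by
  rw [Prod.norm_def]
  unfold x
  rw [norm_smul, norm_sg, lp.norm_single (by norm_num), lp.norm_single (by norm_num)]
  simp

theorem norm_xs_le (n : ℕ) (f : X 𝕜) : ‖xs 𝕜 n f‖ ≤ ‖f‖ := by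
  rw [xs_apply, norm_mul, norm_inv, RCLike.norm_two]
  have h1 : ‖f.1 (n / 2)‖ ≤ ‖f‖ :=
    (lp.norm_apply_le_norm (by norm_num) f.1 (n / 2)).trans (norm_fst_le f)
  have h2 : ‖f.2 (n / 2)‖ ≤ ‖f‖ :=
    (lp.norm_apply_le_norm (by norm_num) f.2 (n / 2)).trans (norm_snd_le f)
  have h3 : ‖f.1 (n / 2) + sg 𝕜 n * f.2 (n / 2)‖ ≤ ‖f.1 (n / 2)‖ + ‖f.2 (n / 2)‖ := by
    refine (norm_add_le _ _).trans ?_
    rw [norm_mul, norm_sg, one_mul]
  linarith

/-- two consecutive terms of the expansion -/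
theorem pair_sum (f : X 𝕜) (i : ℕ) :
    xs 𝕜 (2 * i) f • x 𝕜 (2 * i) + xs 𝕜 (2 * i + 1) f • x 𝕜 (2 * i + 1) =
      (lp.single 2 i (f.1 i), lp.single 1 i (f.2 i)) := by
  have e1 : 2 * i / 2 = i := by omega
  have e2 : (2 * i + 1) / 2 = i := by omega
  have s1 : sg 𝕜 (2 * i) = 1 := by unfold sg; simp
  have s2 : sg 𝕜 (2 * i + 1) = -1 := by unfold sg; rw [pow_succ]; simp
  rw [xs_apply, xs_apply, e1, e2, s1, s2]
  unfold x
  rw [e1, e2, s1, s2]
  ext j
  · change 2⁻¹ * (f.1 i + 1 * f.2 i) * (lp.single (E := fun _ : ℕ => 𝕜) 2 i (1 : 𝕜)) j +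
      2⁻¹ * (f.1 i + -1 * f.2 i) * (lp.single (E := fun _ : ℕ => 𝕜) 2 i (1 : 𝕜)) j = _
    rw [lp.single_apply]
    by_cases h : j = i
    · subst h
      change _ = (lp.single (E := fun _ : ℕ => 𝕜) 2 j (f.1 j)) j
      rw [lp.single_apply, Pi.single_eq_same, Pi.single_eq_same]
      ring
    · change _ = (lp.single (E := fun _ : ℕ => 𝕜) 2 i (f.1 i)) j
      rw [lp.single_apply, Pi.single_eq_of_ne h, Pi.single_eq_of_ne h]
      ring
  · change 2⁻¹ * (f.1 i + 1 * f.2 i) * (1 * (lp.single (E := fun _ : ℕ => 𝕜) 1 i (1 : 𝕜)) j) +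
      2⁻¹ * (f.1 i + -1 * f.2 i) * (-1 * (lp.single (E := fun _ : ℕ => 𝕜) 1 i (1 : 𝕜)) j) = _
    rw [lp.single_apply]
    by_cases h : j = i
    · subst h
      change _ = (lp.single (E := fun _ : ℕ => 𝕜) 1 j (f.2 j)) j
      rw [lp.single_apply, Pi.single_eq_same, Pi.single_eq_same]
      ring
    · change _ = (lp.single (E := fun _ : ℕ => 𝕜) 1 i (f.2 i)) j
      rw [lp.single_apply, Pi.single_eq_of_ne h, Pi.single_eq_of_ne h]
      ring

theorem even_sums (f : X 𝕜) :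
    Tendsto (fun N => ∑ n ∈ range (2 * N), xs 𝕜 n f • x 𝕜 n) atTop (𝓝 f) := by
  have h : ∀ N, ∑ n ∈ range (2 * N), xs 𝕜 n f • x 𝕜 n =
      ∑ i ∈ range N, ((lp.single 2 i (f.1 i), lp.single 1 i (f.2 i)) : X 𝕜) := by
    intro N
    induction N with
    | zero => simp
    | succ N ih =>
      rw [show 2 * (N + 1) = 2 * N + 1 + 1 by ring, sum_range_succ, sum_range_succ, ih,
        sum_range_succ _ N, ← pair_sum, add_assoc]
  simp only [h]
  have h1 := (lp.hasSum_single (E := fun _ : ℕ => 𝕜) (p := 2) (by norm_num) f.1).tendsto_sum_nat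
  have h2 := (lp.hasSum_single (E := fun _ : ℕ => 𝕜) (p := 1) (by norm_num) f.2).tendsto_sum_nat
  have h3 := h1.prodMk_nhds h2
  refine h3.congr fun N => ?_
  exact Prod.ext (by rw [Prod.fst_sum]) (by rw [Prod.snd_sum])

theorem schauder (f : X 𝕜) :
    Tendsto (fun N => ∑ n ∈ range N, xs 𝕜 n f • x 𝕜 n) atTop (𝓝 f) := by
  have h1 := even_sums 𝕜 f
  have h0 : Tendsto (fun N => xs 𝕜 (2 * N) f • x 𝕜 (2 * N)) atTop (𝓝 0) := by
    rw [tendsto_zero_iff_norm_tendsto_zero]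
    have h2 := (lp.hasSum_single (E := fun _ : ℕ => 𝕜) (p := 2) (by norm_num) f.1).summable.tendsto_atTop_zero
    have h3 := (lp.hasSum_single (E := fun _ : ℕ => 𝕜) (p := 1) (by norm_num) f.2).summable.tendsto_atTop_zero
    rw [tendsto_zero_iff_norm_tendsto_zero] at h2 h3
    have h4 := h2.add h3
    rw [add_zero] at h4
    refine squeeze_zero (fun _ => norm_nonneg _) (fun N => ?_) h4
    rw [norm_smul, norm_x, mul_one, xs_apply, norm_mul, norm_inv, RCLike.norm_two,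
      lp.norm_single (by norm_num), lp.norm_single (by norm_num)]
    have e1 : 2 * N / 2 = N := by omega
    rw [e1]
    have h5 : ‖f.1 N + sg 𝕜 (2 * N) * f.2 N‖ ≤ ‖f.1 N‖ + ‖f.2 N‖ := by
      refine (norm_add_le _ _).trans ?_
      rw [norm_mul, norm_sg, one_mul]
    have h6 := norm_nonneg (f.1 N)
    have h7 := norm_nonneg (f.2 N)
    linarith
  have h2 : Tendsto (fun N => ∑ n ∈ range (2 * N + 1), xs 𝕜 n f • x 𝕜 n) atTop (𝓝 f) := by
    have := h1.add h0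
    rw [add_zero] at this
    refine this.congr fun N => ?_
    rw [sum_range_succ]
  -- combine even and odd indices
  rw [Metric.tendsto_atTop] at h1 h2 ⊢
  intro ε hε
  obtain ⟨N1, hN1⟩ := h1 ε hε
  obtain ⟨N2, hN2⟩ := h2 ε hε
  refine ⟨2 * (N1 + N2) + 1, fun N hN => ?_⟩
  rcases Nat.even_or_odd' N with ⟨k, hk | hk⟩
  · rw [hk]; exact hN1 k (by omega)
  · rw [hk]; exact hN2 k (by omega)

variable {𝕜}

/-- the scalar inequality behind the LUCC estimate -/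
theorem scalar_ineq {u v : 𝕜} (hu : u = 0 ∨ ‖u‖ = 1) (hv : v = 0 ∨ ‖v‖ = 1) {a b : ℝ}
    (ha : 1 ≤ a) (hb : 1 ≤ b) : ‖u + v‖ ≤ ‖(a : 𝕜) * u + (b : 𝕜) * v‖ := by
  rcases hu with rfl | hu
  · rw [mul_zero, zero_add, zero_add, norm_mul, RCLike.norm_ofReal, abs_of_pos (by linarith)]
    nlinarith [norm_nonneg v]
  rcases hv with rfl | hv
  · rw [mul_zero, add_zero, add_zero, norm_mul, RCLike.norm_ofReal, abs_of_pos (by linarith)]
    nlinarith [norm_nonneg u]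
  have h1 := norm_add_sq (𝕜 := 𝕜) u v
  have h2 := norm_add_sq (𝕜 := 𝕜) ((a : 𝕜) * u) ((b : 𝕜) * v)
  have h3 : RCLike.re (inner 𝕜 ((a : 𝕜) * u) ((b : 𝕜) * v)) = a * b * RCLike.re (inner 𝕜 u v) := by
    have e1 : (a : 𝕜) * u = (a : 𝕜) • u := rfl
    have e2 : (b : 𝕜) * v = (b : 𝕜) • v := rfl
    rw [e1, e2, inner_smul_left, inner_smul_right, RCLike.conj_ofReal, ← mul_assoc,
      ← RCLike.ofReal_mul, RCLike.re_ofReal_mul]
  have h4 : |RCLike.re (inner 𝕜 u v)| ≤ 1 := by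
    refine (RCLike.abs_re_le_norm _).trans ?_
    refine (norm_inner_le_norm u v).trans ?_
    rw [hu, hv, one_mul]
  have h5 := (abs_le.1 h4).1
  rw [norm_mul, norm_mul, RCLike.norm_ofReal, RCLike.norm_ofReal, abs_of_pos (by linarith),
    abs_of_pos (by linarith), hu, hv, h3] at h2
  rw [hu, hv] at h1
  apply le_of_sq_le_sq _ (norm_nonneg _)
  rw [h1, h2]
  have hab : 1 ≤ a * b := by nlinarith
  nlinarith [sq_nonneg (a - b), mul_nonneg (sub_nonneg.2 hab) (by linarith : 0 ≤ 1 + RCLike.re (inner 𝕜 u v))]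

/-- coordinates of finite sums -/
theorem fst_sum (A : Finset ℕ) (c : ℕ → 𝕜) (i : ℕ) :
    (∑ n ∈ A, c n • x 𝕜 n).1 i =
      (if 2 * i ∈ A then c (2 * i) else 0) + (if 2 * i + 1 ∈ A then c (2 * i + 1) else 0) := by
  rw [Prod.fst_sum, lp.coeFn_sum, Finset.sum_apply]
  have h : ∀ n, (c n • x 𝕜 n).1 i =
      (if n = 2 * i then c (2 * i) else 0) + (if n = 2 * i + 1 then c (2 * i + 1) else 0) := by
    intro n
    change c n * (lp.single (E := fun _ : ℕ => 𝕜) 2 (n / 2) (1 : 𝕜)) i = _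
    rw [lp.single_apply]
    by_cases h1 : i = n / 2
    · rw [h1, Pi.single_eq_same, mul_one]
      rcases Nat.even_or_odd' n with ⟨k, hk | hk⟩
      · subst hk
        have : 2 * k / 2 = k := by omega
        rw [this]; simp
      · subst hk
        have : (2 * k + 1) / 2 = k := by omega
        rw [this]; simp
    · rw [Pi.single_eq_of_ne h1, if_neg (by omega), if_neg (by omega)]; simp
  simp only [h, Finset.sum_add_distrib, Finset.sum_ite_eq']

theorem snd_sum (A : Finset ℕ) (c : ℕ → 𝕜) (i : ℕ) :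
    (∑ n ∈ A, c n • x 𝕜 n).2 i =
      (if 2 * i ∈ A then c (2 * i) else 0) - (if 2 * i + 1 ∈ A then c (2 * i + 1) else 0) := by
  rw [Prod.snd_sum, lp.coeFn_sum, Finset.sum_apply]
  have h : ∀ n, (c n • x 𝕜 n).2 i =
      (if n = 2 * i then c (2 * i) else 0) - (if n = 2 * i + 1 then c (2 * i + 1) else 0) := by
    intro n
    change c n * (sg 𝕜 n * (lp.single (E := fun _ : ℕ => 𝕜) 1 (n / 2) (1 : 𝕜)) i) = _
    rw [lp.single_apply]
    by_cases h1 : i = n / 2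
    · rw [h1, Pi.single_eq_same, mul_one]
      rcases Nat.even_or_odd' n with ⟨k, hk | hk⟩
      · subst hk
        have : 2 * k / 2 = k := by omega
        rw [this]; simp [sg]
      · subst hk
        have : (2 * k + 1) / 2 = k := by omega
        rw [this]; simp [sg, pow_succ]
    · rw [Pi.single_eq_of_ne h1, if_neg (by omega), if_neg (by omega)]; simp
  simp only [h, Finset.sum_sub_distrib, Finset.sum_ite_eq']

theorem lucc (A : Finset ℕ) (ε : ℕ → 𝕜) (hε : ∀ n ∈ A, ‖ε n‖ = 1) (a : ℕ → ℝ)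
    (ha : ∀ n ∈ A, 1 ≤ a n) :
    ‖∑ n ∈ A, ε n • x 𝕜 n‖ ≤ ‖∑ n ∈ A, (ε n * (a n : 𝕜)) • x 𝕜 n‖ := by
  classical
  let a' : ℕ → ℝ := fun n => if n ∈ A then a n else 1
  have ha' : ∀ n, 1 ≤ a' n := by
    intro n
    change 1 ≤ (if n ∈ A then a n else 1)
    split_ifs with h
    · exact ha n h
    · exact le_rfl
  have key : ∀ n, (if n ∈ A then ε n * (a n : 𝕜) else 0) = (a' n : 𝕜) * (if n ∈ A then ε n else 0) := by
    intro n
    change _ = ((if n ∈ A then a n else 1 : ℝ) : 𝕜) * _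
    split_ifs with h
    · rw [mul_comm]
    · simp
  have hun : ∀ n, (if n ∈ A then ε n else 0) = 0 ∨ ‖(if n ∈ A then ε n else (0 : 𝕜))‖ = 1 := by
    intro n
    split_ifs with h
    · exact Or.inr (hε n h)
    · exact Or.inl rfl
  rw [Prod.norm_def, Prod.norm_def]
  apply max_le_max
  · apply lp.norm_mono (by norm_num)
    intro i
    rw [fst_sum, fst_sum, key, key]
    exact scalar_ineq (hun _) (hun _) (ha' _) (ha' _)
  · apply lp.norm_mono (by norm_num)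
    intro i
    rw [snd_sum, snd_sum, key, key, sub_eq_add_neg, sub_eq_add_neg, ← mul_neg]
    refine scalar_ineq (hun _) ?_ (ha' _) (ha' _)
    rcases hun (2 * i + 1) with h | h
    · left; rw [h, neg_zero]
    · right; rw [norm_neg, h]

theorem norm_full (m : ℕ) : ‖∑ n ∈ range (2 * m), (1 : 𝕜) • x 𝕜 n‖ ≤ 2 * √(m : ℝ) := by
  have h2 : (∑ n ∈ range (2 * m), (1 : 𝕜) • x 𝕜 n).2 = 0 := by
    apply lp.ext
    funext i
    rw [snd_sum]
    by_cases hi : i < m
    · rw [if_pos (by simp; omega), if_pos (by simp; omega)]; simp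
    · rw [if_neg (by simp; omega), if_neg (by simp; omega)]; simp
  have h1 : ‖(∑ n ∈ range (2 * m), (1 : 𝕜) • x 𝕜 n).1‖ ≤ 2 * √(m : ℝ) := by
    have hx : (∑ n ∈ range (2 * m), (1 : 𝕜) • x 𝕜 n).1 =
        ∑ i ∈ range m, lp.single (E := fun _ : ℕ => 𝕜) 2 i ((fun _ => (2 : 𝕜)) i) := by
      apply lp.ext
      funext i
      rw [fst_sum, lp.coeFn_sum, Finset.sum_apply]
      simp only [lp.single_apply]
      by_cases hi : i < m
      · rw [if_pos (by simp; omega), if_pos (by simp; omega), Finset.sum_eq_single i]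
        · rw [Pi.single_eq_same]; norm_num
        · intro b _ hb; rw [Pi.single_eq_of_ne hb.symm]
        · intro h; exact absurd (mem_range.2 hi) h
      · rw [if_neg (by simp; omega), if_neg (by simp; omega), Finset.sum_eq_zero]
        · simp
        · intro b hb
          rw [Pi.single_eq_of_ne]
          have := mem_range.1 hb
          omega
    rw [hx]
    have h := lp.norm_sum_single (E := fun _ : ℕ => 𝕜) (p := 2) (by norm_num) (fun _ => (2 : 𝕜)) (range m)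
    simp only [ENNReal.toReal_ofNat, Real.rpow_ofNat, RCLike.norm_ofNat, sum_const, card_range,
      nsmul_eq_mul] at h
    apply le_of_sq_le_sq _ (by positivity)
    rw [h, mul_pow, Real.sq_sqrt (by positivity)]
    linarith
  rw [Prod.norm_def, h2, norm_zero]
  exact max_le h1 (by positivity)

theorem norm_half (m : ℕ) :
    (m : ℝ) ≤ ‖∑ n ∈ (range m).map ⟨fun i => 2 * i, fun a b h => by simpa using h⟩,
      (1 : 𝕜) • x 𝕜 n‖ := by
  rw [Prod.norm_def]
  refine le_trans ?_ (le_max_right _ _)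
  have hx : (∑ n ∈ (range m).map ⟨fun i => 2 * i, fun a b h => by simpa using h⟩,
      (1 : 𝕜) • x 𝕜 n).2 = ∑ i ∈ range m, lp.single (E := fun _ : ℕ => 𝕜) 1 i ((fun _ => (1 : 𝕜)) i) := by
    rw [Prod.snd_sum, Finset.sum_map]
    apply Finset.sum_congr rfl
    intro i _
    change (1 : 𝕜) • (sg 𝕜 (2 * i) • lp.single (E := fun _ : ℕ => 𝕜) 1 (2 * i / 2) (1 : 𝕜)) = _
    have e1 : 2 * i / 2 = i := by omega
    have s1 : sg 𝕜 (2 * i) = 1 := by unfold sg; simp
    rw [e1, s1, one_smul, one_smul]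
  rw [hx]
  have h := lp.norm_sum_single (E := fun _ : ℕ => 𝕜) (p := 1) (by norm_num) (fun _ => (1 : 𝕜)) (range m)
  simp only [ENNReal.toReal_one, Real.rpow_one, norm_one, sum_const, card_range,
    nsmul_eq_mul, mul_one] at h
  rw [h]

end Q101.LUCC
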