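import Mathlib

set_option autoImplicit false

open Filter Topology

namespace Q101.LatLift

universe u v

section Lat

variable {X : Type u} [NormedAddCommGroup X] [NormedSpace ℝ X] [Lattice X]
  [IsOrderedAddMonoid X] [IsOrderedModule ℝ X] [HasSolidNorm X]

omit [NormedSpace ℝ X] [IsOrderedModule ℝ X] [HasSolidNorm X] in
theorem inf_add_le {a b c : X} (ha : 0 ≤ a) (hb : 0 ≤ b) (hc : 0 ≤ c) :
    a ⊓ (b + c) ≤ a ⊓ b + a ⊓ c := by
  set d := a ⊓ (b + c) with hd
  have h1 : d ≤ a := inf_le_left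
  have h2 : d ≤ b + c := inf_le_right
  have h3 : d - b ≤ a ⊓ c := by
    refine le_inf ?_ ?_
    · rw [sub_le_iff_le_add]; exact h1.trans (le_add_of_nonneg_right hb)
    · rw [sub_le_iff_le_add, add_comm]; exact h2
  have h4 : 0 ≤ a ⊓ c := le_inf ha hc
  have h5 : d - a ⊓ c ≤ a ⊓ b := by
    refine le_inf ?_ ?_
    · rw [sub_le_iff_le_add]; exact h1.trans (le_add_of_nonneg_right h4)
    · rw [sub_le_iff_le_add, add_comm, ← sub_le_iff_le_add]; exact h3
  rwa [sub_le_iff_le_add] at h5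

omit [NormedSpace ℝ X] [IsOrderedModule ℝ X] [HasSolidNorm X] in
theorem disj_add {a b c : X} (ha : 0 ≤ a) (hb : 0 ≤ b) (hc : 0 ≤ c) (h1 : a ⊓ b = 0)
    (h2 : a ⊓ c = 0) : a ⊓ (b + c) = 0 := by
  refine le_antisymm ?_ (le_inf ha (add_nonneg hb hc))
  have := inf_add_le ha hb hc
  rwa [h1, h2, add_zero] at this

omit [NormedSpace ℝ X] [IsOrderedModule ℝ X] [HasSolidNorm X] in
theorem disj_sum {ι : Type*} {a : X} (ha : 0 ≤ a) {b : ι → X} (hb : ∀ i, 0 ≤ b i)
    (h : ∀ i, a ⊓ b i = 0) (s : Finset ι) : a ⊓ ∑ i ∈ s, b i = 0 := by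
  classical
  induction s using Finset.induction_on with
  | empty => rw [Finset.sum_empty]; exact inf_eq_right.2 ha
  | insert i s his ih =>
    rw [Finset.sum_insert his]
    exact disj_add ha (hb i) (Finset.sum_nonneg fun j _ => hb j) (h i) ih

omit [NormedSpace ℝ X] [IsOrderedModule ℝ X] in
theorem disj_hasSum {ι : Type*} {a : X} (ha : 0 ≤ a) {b : ι → X} (hb : ∀ i, 0 ≤ b i)
    (h : ∀ i, a ⊓ b i = 0) {B : X} (hB : HasSum b B) : a ⊓ B = 0 := by
  have h1 : Tendsto (fun s : Finset ι => a ⊓ ∑ i ∈ s, b i) atTop (𝓝 (a ⊓ B)) :=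
    Tendsto.inf_nhds tendsto_const_nhds hB
  simp only [disj_sum ha hb h] at h1
  exact tendsto_nhds_unique h1 tendsto_const_nhds |>.symm ▸ rfl

theorem disj_smul {a b : X} (ha : 0 ≤ a) (hb : 0 ≤ b) (h : a ⊓ b = 0) {r : ℝ} (hr : 0 ≤ r) :
    a ⊓ (r • b) = 0 := by
  obtain ⟨n, hn⟩ := exists_nat_ge r
  refine le_antisymm ?_ (le_inf ha (smul_nonneg hr hb))
  have h1 : a ⊓ ∑ _i ∈ Finset.range n, b = 0 := disj_sum ha (fun _ => hb) (fun _ => h) _
  rw [Finset.sum_const, Finset.card_range] at h1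
  rw [← h1]
  refine inf_le_inf_left _ ?_
  rw [← Nat.cast_smul_eq_nsmul ℝ]
  exact smul_le_smul_of_nonneg_right hn hb

omit [NormedSpace ℝ X] [IsOrderedModule ℝ X] [HasSolidNorm X] in
/-- the positive part of a difference of disjoint elements -/
theorem posPart_sub_of_disj {a b : X} (h : a ⊓ b = 0) : (a - b) ⊔ 0 = a := by
  have h1 : (a - b) ⊔ 0 = a ⊔ b - b := by
    rw [sup_sub, sub_self]
  have h2 := inf_add_sup a b
  rw [h, zero_add] at h2
  rw [h1, h2, add_sub_cancel_right]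

omit [NormedSpace ℝ X] [IsOrderedModule ℝ X] [HasSolidNorm X] in
theorem abs_sub_of_disj {a b : X} (h : a ⊓ b = 0) : |a - b| = a + b := by
  have h1 := sup_sub_inf_eq_abs_sub b a
  have h2 := inf_add_sup a b
  rw [h, zero_add] at h2
  rw [← h1, inf_comm, h, sub_zero, sup_comm, h2]

omit [NormedSpace ℝ X] [IsOrderedModule ℝ X] [HasSolidNorm X] in
/-- the disjointification step -/
theorem disj_step {a b w : X} (h : a + b ≤ w) :
    ((a + a - w) ⊔ 0) ⊓ ((b + b - w) ⊔ 0) = 0 := by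
  refine le_antisymm ?_ (le_inf le_sup_right le_sup_right)
  have h1 : (a + a - w) ⊔ 0 ≤ (a - b) ⊔ 0 := by
    refine sup_le_sup_right ?_ _
    rw [sub_le_sub_iff]
    calc a + a + b = a + (a + b) := add_assoc _ _ _
      _ ≤ a + w := by gcongr
  have h2 : (b + b - w) ⊔ 0 ≤ -(a - b) ⊔ 0 := by
    refine sup_le_sup_right ?_ _
    rw [neg_sub, sub_le_sub_iff]
    calc b + b + a = b + (a + b) := by abel
      _ ≤ b + w := by gcongr
  calc _ ≤ ((a - b) ⊔ 0) ⊓ (-(a - b) ⊔ 0) := inf_le_inf h1 h2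
    _ = (a - b)⁺ ⊓ (a - b)⁻ := rfl
    _ ≤ 0 := (posPart_inf_negPart_eq_zero _).le

end Lat

section Hom

/-- `T` preserves finite suprema and infima. -/
def IsLatticeHom {X : Type u} {Z : Type v} [NormedAddCommGroup X] [NormedSpace ℝ X] [Lattice X]
    [NormedAddCommGroup Z] [NormedSpace ℝ Z] [Lattice Z] (T : X →L[ℝ] Z) : Prop :=
  ∀ x y, T (x ⊔ y) = T x ⊔ T y ∧ T (x ⊓ y) = T x ⊓ T y

variable {X : Type u} [NormedAddCommGroup X] [NormedSpace ℝ X] [Lattice X]
  [IsOrderedAddMonoid X] [IsOrderedModule ℝ X] [HasSolidNorm X]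
  {Z : Type v} [NormedAddCommGroup Z] [NormedSpace ℝ Z] [Lattice Z]
  [IsOrderedAddMonoid Z] [IsOrderedModule ℝ Z] [HasSolidNorm Z]

omit [IsOrderedAddMonoid X] [IsOrderedModule ℝ X] [HasSolidNorm X] [IsOrderedAddMonoid Z]
  [IsOrderedModule ℝ Z] [HasSolidNorm Z] in
theorem IsLatticeHom.map_abs {T : X →L[ℝ] Z} (hT : IsLatticeHom T) (x : X) : T |x| = |T x| := by
  rw [abs, (hT x (-x)).1, map_neg]; rfl

omit [IsOrderedModule ℝ X] [HasSolidNorm X]
  [IsOrderedModule ℝ Z] [HasSolidNorm Z] in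
theorem isLatticeHom_of_abs {T : X →L[ℝ] Z} (hT : ∀ x, T |x| = |T x|) : IsLatticeHom T := by
  intro x y
  rw [sup_eq_half_smul_add_add_abs_sub' ℝ x y, sup_eq_half_smul_add_add_abs_sub' ℝ (T x) (T y),
    inf_eq_half_smul_add_sub_abs_sub' ℝ x y, inf_eq_half_smul_add_sub_abs_sub' ℝ (T x) (T y)]
  constructor
  · rw [map_smul, map_add, map_add, hT, map_sub]
  · rw [map_smul, map_sub, map_add, hT, map_sub]

omit [IsOrderedModule ℝ X] [HasSolidNorm X]
  [IsOrderedModule ℝ Z] [HasSolidNorm Z] in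
theorem IsLatticeHom.nonneg {T : X →L[ℝ] Z} (hT : IsLatticeHom T) {x : X} (hx : 0 ≤ x) :
    0 ≤ T x := by
  rw [← abs_of_nonneg hx, hT.map_abs]
  exact abs_nonneg _

/-- `Q` is, up to isometric lattice isomorphism, the quotient map of `X` modulo the closed ideal
`ker Q`: a surjective lattice homomorphism for which the norm of `Z` is the quotient norm. -/
structure IsLatticeQuotient (Q : X →L[ℝ] Z) : Prop where
  surj : Function.Surjective Q
  lat : IsLatticeHom Q
  norm : ∀ z, IsGLB {r : ℝ | ∃ x, Q x = z ∧ r = ‖x‖} ‖z‖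

/-- Lifting of positive disjoint sequences. -/
theorem lift_disjoint [CompleteSpace X] {Q : X →L[ℝ] Z} (hQ : IsLatticeQuotient Q) {u : ℕ → Z}
    (hu : ∀ n, 0 ≤ u n) (hd : ∀ m n, m ≠ n → u m ⊓ u n = 0) :
    ∃ x : ℕ → X, (∀ n, 0 ≤ x n) ∧ (∀ m n, m ≠ n → x m ⊓ x n = 0) ∧ ∀ n, Q (x n) = u n := by
  have hy : ∀ n, ∃ y : X, 0 ≤ y ∧ Q y = u n := by
    intro n
    obtain ⟨y, hy⟩ := hQ.surj (u n)
    exact ⟨|y|, abs_nonneg y, by rw [hQ.lat.map_abs, hy, abs_of_nonneg (hu n)]⟩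
  choose y hy0 hyu using hy
  let c : ℕ → ℝ := fun n => (1 / 2) ^ n / (1 + ‖y n‖)
  have hc : ∀ n, 0 < c n := fun n => by positivity
  let z : ℕ → X := fun n => c n • y n
  have hz0 : ∀ n, 0 ≤ z n := fun n => smul_nonneg (hc n).le (hy0 n)
  have hzn : ∀ n, ‖z n‖ ≤ (1 / 2) ^ n := by
    intro n
    rw [norm_smul, Real.norm_of_nonneg (hc n).le, div_mul_eq_mul_div, div_le_iff₀ (by positivity)]
    gcongr
    linarith
  have hzs : Summable z := Summable.of_norm_bounded
    (summable_geometric_of_lt_one (by norm_num) (by norm_num)) hzn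
  set w := ∑' n, z n with hw
  have hle : ∀ m n, m ≠ n → z m + z n ≤ w := by
    intro m n hmn
    have h1 := hzs.sum_le_tsum {m, n} (fun i _ => hz0 i)
    rwa [Finset.sum_pair hmn] at h1
  refine ⟨fun n => (c n)⁻¹ • ((z n + z n - w) ⊔ 0), fun n =>
    smul_nonneg (inv_pos.2 (hc n)).le le_sup_right, fun m n hmn => ?_, fun n => ?_⟩
  · have h1 := disj_step (hle m n hmn)
    have h2 := disj_smul (a := (z m + z m - w) ⊔ 0) (b := (z n + z n - w) ⊔ 0) le_sup_right
      le_sup_right h1 (inv_pos.2 (hc n)).le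
    rw [inf_comm] at h2
    have h3 := disj_smul (smul_nonneg (inv_pos.2 (hc n)).le le_sup_right) le_sup_right h2
      (inv_pos.2 (hc m)).le
    show (c m)⁻¹ • ((z m + z m - w) ⊔ 0) ⊓ (c n)⁻¹ • ((z n + z n - w) ⊔ 0) = 0
    rw [inf_comm]; exact h3
  · show Q ((c n)⁻¹ • ((z n + z n - w) ⊔ 0)) = u n
    rw [map_smul, (hQ.lat _ _).1, map_sub, map_add, map_zero]
    have hQz : ∀ k, Q (z k) = c k • u k := fun k => by
      show Q (c k • y k) = _
      rw [map_smul, hyu]
    set b : ℕ → Z := fun k => if k = n then 0 else c k • u k with hb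
    have hsumQ : HasSum (fun k => c k • u k) (Q w) := by
      have := hzs.hasSum.mapL Q
      simpa only [hQz] using this
    have hsumb : HasSum b (Q w - c n • u n) := by
      have h1 := hsumQ.update n 0
      have h2 : Function.update (fun k => c k • u k) n 0 = b := by
        funext k
        by_cases hk : k = n
        · subst hk; simp [hb]
        · rw [Function.update_of_ne hk]; simp [hb, hk]
      rw [h2] at h1
      have h3 : 0 - c n • u n + Q w = Q w - c n • u n := by abel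
      rwa [h3] at h1
    have hcu : ∀ k, 0 ≤ c k • u k := fun k => smul_nonneg (hc k).le (hu k)
    have hdis : (c n • u n) ⊓ (Q w - c n • u n) = 0 := by
      refine disj_hasSum (hcu n) (fun k => ?_) (fun k => ?_) hsumb
      · by_cases hk : k = n
        · simp [hb, hk]
        · simp only [hb, if_neg hk]; exact hcu k
      · by_cases hk : k = n
        · simp only [hb, if_pos hk]; exact inf_eq_right.2 (hcu n)
        · simp only [hb, if_neg hk]
          refine disj_smul (hcu n) (hu k) ?_ (hc k).le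
          rw [inf_comm]
          exact disj_smul (hu k) (hu n) (hd k n hk) (hc n).le
    have h4 : Q (z n) + Q (z n) - Q w = c n • u n - (Q w - c n • u n) := by
      rw [hQz]; abel
    rw [h4, posPart_sub_of_disj hdis, smul_smul, inv_mul_cancel₀ (hc n).ne', one_smul]

end Hom

end Q101.LatLift
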