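import Pool.Agent.Q101.LfS

set_option autoImplicit false

/-! # The continuous characters of the real line -/

namespace Q101Lf

open MeasureTheory intervalIntegral

theorem char : S_char := by
  intro χ hc hm hn
  have h0 : χ 0 = 1 := by
    have h1 := hm 0 0
    rw [add_zero] at h1
    have h2 : χ 0 ≠ 0 := by
      intro h
      have h3 := hn 0
      rw [h, norm_zero] at h3
      exact zero_ne_one h3
    exact (mul_left_cancel₀ h2 (by rw [mul_one]; exact h1)).symm
  set F : ℝ → ℂ := fun s => ∫ t in (0 : ℝ)..s, χ t with hF
  have hFd : ∀ s, HasDerivAt F (χ s) s := fun s =>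
    intervalIntegral.integral_hasDerivAt_right (hc.intervalIntegrable _ _)
      (hc.stronglyMeasurableAtFilter _ _) hc.continuousAt
  have hFa : ∀ s h, F (s + h) - F s = χ s * F h := by
    intro s h
    simp only [hF]
    rw [intervalIntegral.integral_interval_sub_left (hc.intervalIntegrable _ _)
      (hc.intervalIntegrable _ _), ← intervalIntegral.integral_const_mul]
    have h1 := intervalIntegral.integral_comp_add_left (a := 0) (b := h) (fun t => χ t) s
    rw [add_zero] at h1
    rw [← h1]
    exact intervalIntegral.integral_congr fun t _ => hm s t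
  have hex : ∃ h, F h ≠ 0 := by
    by_contra hcon
    push Not at hcon
    have h1 : F = fun _ => (0 : ℂ) := funext hcon
    have h2 := hFd 0
    rw [h1, h0] at h2
    exact one_ne_zero (h2.unique (hasDerivAt_const _ _))
  obtain ⟨h, hh⟩ := hex
  have hχ : ∀ s, χ s = (F (s + h) - F s) / F h := fun s => by
    rw [hFa, mul_div_assoc, div_self hh, mul_one]
  set z : ℂ := (χ h - 1) / F h with hz
  have hχd : ∀ s, HasDerivAt χ (z * χ s) s := by
    intro s
    have h1 : HasDerivAt (fun s => (F (s + h) - F s) / F h) ((χ (s + h) - χ s) / F h) s :=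
      (((hFd (s + h)).comp_add_const s h).sub (hFd s)).div_const _
    have h2 : χ = fun s => (F (s + h) - F s) / F h := funext hχ
    rw [h2]
    convert h1 using 1
    rw [← h2, hz, hm]
    ring
  have hG : ∀ s : ℝ, HasDerivAt (fun s : ℝ => χ s * Complex.exp (-(z * s))) 0 s := by
    intro s
    have h1 : HasDerivAt (fun s : ℝ => -(z * (s : ℂ))) (-z) s := by
      have h2 : HasDerivAt (fun s : ℝ => z * (s : ℂ)) (z * 1) s :=
        (Complex.ofRealCLM.hasDerivAt (x := s)).const_mul z
      rw [mul_one] at h2
      exact h2.fun_neg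
    have h2 := (hχd s).fun_mul h1.cexp
    refine h2.congr_deriv ?_
    ring
  have hconst : ∀ s : ℝ, χ s * Complex.exp (-(z * s)) = 1 := by
    intro s
    have h1 := is_const_of_deriv_eq_zero (f := fun s : ℝ => χ s * Complex.exp (-(z * s)))
      (fun s => (hG s).differentiableAt) (fun s => (hG s).deriv) s 0
    refine h1.trans ?_
    simp [h0]
  have hexp : ∀ s : ℝ, χ s = Complex.exp (z * s) := by
    intro s
    have h1 := hconst s
    have h2 : Complex.exp (-(z * s)) * Complex.exp (z * s) = 1 := by
      rw [← Complex.exp_add]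
      simp
    calc χ s = χ s * (Complex.exp (-(z * s)) * Complex.exp (z * s)) := by rw [h2, mul_one]
      _ = (χ s * Complex.exp (-(z * s))) * Complex.exp (z * s) := by ring
      _ = _ := by rw [h1, one_mul]
  have hre : z.re = 0 := by
    have h1 := hn 1
    rw [hexp 1, Complex.norm_exp] at h1
    have h2 : (z * ((1 : ℝ) : ℂ)).re = z.re := by simp
    rw [h2, Real.exp_eq_one_iff] at h1
    exact h1
  refine ⟨z.im, fun s => ?_⟩
  rw [hexp s]
  congr 1
  have h1 : z = z.im * Complex.I := by
    apply Complex.ext
    · simp [hre]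
    · simp
  calc z * s = (z.im * Complex.I) * s := by rw [← h1]
    _ = _ := by ring

end Q101Lf
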