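import Pool.Agent.Q101.LfS

set_option autoImplicit false

/-!
# Lipschitz-free rigidity: job 14, the constant `c` is not zero
-/

open Filter Topology
open scoped RealInnerProductSpace

namespace Q101Lf

lemma lipK_inner {E : Type} [NormedAddCommGroup E] [InnerProductSpace ℝ E] (a : E) :
    LipK ‖a‖ (fun x : E => ⟪a, x⟫) := by
  intro x y
  simp only
  rw [← inner_sub_right]
  exact abs_real_inner_le_norm a (x - y)

theorem cne : S_cne := by
  intro E _ _ σ K' hK a ha α hcon
  -- `t w = ⟪a, K' w⟫` is Lipschitz and vanishes at zero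
  obtain ⟨t, ht⟩ : ∃ t : E → ℝ, t = fun w => ⟪a, K' w⟫ := ⟨_, rfl⟩
  have htS : σ.S' (fun x => ⟪a, x⟫) = t := by
    rw [ht]
    funext w
    exact hK a w
  have htL : LipK ‖a‖ t := by
    rw [← htS]
    exact σ.S'_lip (lipK_inner a)
  have ht0 : t 0 = 0 := by
    rw [← htS]
    exact σ.S'_zero _
  have htc : Continuous t := by
    refine (LipschitzWith.of_dist_le' (K := ‖a‖) fun x y => ?_).continuous
    rw [Real.dist_eq, dist_eq_norm]
    exact htL x y
  have hsL : LipK ‖a‖ (fun w => Real.sin ⟪a, K' w⟫) := by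
    intro x y
    refine (Real.abs_sin_sub_sin_le _ _).trans ?_
    have := htL x y
    rw [ht] at this
    exact this
  -- the equation `sin (t w) = α * t w`
  have heq : ∀ w, Real.sin (t w) = α * t w := by
    intro w
    have h1 := σ.S'S hsL w
    have h2 : σ.S (fun w => Real.sin ⟪a, K' w⟫) = fun x => α * ⟪a, x⟫ := funext hcon
    rw [h2] at h1
    have h3 := σ.S'_smul α (lipK_inner a) w
    rw [h3, htS] at h1
    have h4 : (⟪a, K' w⟫ : ℝ) = t w := by rw [ht]
    have h5 : (⟪a, K' 0⟫ : ℝ) = t 0 := by rw [ht]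
    rw [h4, h5, ht0, Real.sin_zero, sub_zero] at h1
    exact h1.symm
  -- `t` is not zero
  have hne : ∃ w, t w ≠ 0 := by
    by_contra h0
    push Not at h0
    have h1 := σ.SS' (lipK_inner a) a
    rw [htS] at h1
    have h2 : t = fun y => (0 : ℝ) * t y := by
      funext y
      rw [h0 y, mul_zero]
    have h3 := σ.S_smul 0 htL a
    rw [zero_mul, ← h2] at h3
    rw [h3] at h1
    simp only [inner_zero_right, sub_zero] at h1
    rw [real_inner_self_eq_norm_sq] at h1
    have : ‖a‖ ≠ 0 := norm_ne_zero_iff.2 ha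
    exact this (by
      have := h1.symm
      exact pow_eq_zero_iff (two_ne_zero) |>.1 this)
  obtain ⟨w, hw⟩ := hne
  -- the range of `t` contains an interval
  have hrange : ∀ s : ℝ, s ∈ Set.uIcc 0 (t w) → ∃ x, t x = s := by
    intro s hs
    have h1 : IsPreconnected (Set.range t) := isPreconnected_range htc
    have h2 : Set.uIcc 0 (t w) ⊆ Set.range t := by
      apply h1.ordConnected.uIcc_subset
      · exact ⟨0, ht0⟩
      · exact ⟨w, rfl⟩
    exact h2 hs
  obtain ⟨δ, hδ⟩ : ∃ δ : ℝ, δ = min 1 |t w| / 2 := ⟨_, rfl⟩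
  have hδ0 : 0 < δ := by
    rw [hδ]
    have : 0 < |t w| := abs_pos.2 hw
    positivity
  have hδ1 : δ ≤ 1 / 2 := by
    rw [hδ]
    linarith [min_le_left 1 |t w|]
  have hδ2 : 2 * δ ≤ |t w| := by
    rw [hδ]
    linarith [min_le_right 1 |t w|]
  have hlin : ∀ s : ℝ, (0 ≤ s ∧ s ≤ 2 * δ) → Real.sin s = α * s := by
    intro s hs
    rcases lt_or_ge 0 (t w) with h | h
    · obtain ⟨x, hx⟩ := hrange s (by
        rw [Set.uIcc_of_le h.le]
        rw [abs_of_pos h] at hδ2
        exact ⟨hs.1, by linarith [hs.2]⟩)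
      rw [← hx]
      exact heq x
    · obtain ⟨x, hx⟩ := hrange (-s) (by
        rw [Set.uIcc_of_ge h]
        rw [abs_of_nonpos h] at hδ2
        exact ⟨by linarith [hs.2], by linarith [hs.1]⟩)
      have := heq x
      rw [hx, Real.sin_neg] at this
      linarith
  have e1 := hlin δ ⟨hδ0.le, by linarith⟩
  have e2 := hlin (2 * δ) ⟨by linarith, le_rfl⟩
  rw [Real.sin_two_mul] at e2
  have hs : 0 < Real.sin δ := Real.sin_pos_of_pos_of_lt_pi hδ0 (by linarith [Real.pi_gt_three])
  have hc : Real.cos δ < 1 := by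
    rw [← Real.cos_zero]
    exact Real.cos_lt_cos_of_nonneg_of_le_pi le_rfl (by linarith [Real.pi_gt_three]) hδ0
  have e3 : 2 * Real.sin δ * Real.cos δ = 2 * Real.sin δ := by
    rw [e2, e1]
    ring
  nlinarith

end Q101Lf
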