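import Pool.Agent.Q101.LfS

set_option autoImplicit false

/-! # Bounds for directional increments -/

open scoped RealInnerProductSpace

namespace Q101Lf

theorem dir_aux {E : Type} [NormedAddCommGroup E] [InnerProductSpace ℝ E] {L D N : ℝ}
    {P : E → ℝ} {e : E} (hL : LipK L P) (hL0 : 0 ≤ L) (he : 0 < ‖e‖)
    (H : ∀ y : E, ∀ ρ : ℝ, 0 ≤ ρ → P (y + ρ • e) - P y ≤ D * ρ) (hN : 0 ≤ N) (x y : E) :
    (P x + N * ⟪e, x⟫) - (P y + N * ⟪e, y⟫) ≤
      Real.sqrt (((D + N * ‖e‖ ^ 2) / ‖e‖) ^ 2 + L ^ 2) * ‖x - y‖ := by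
  set z := x - y with hz
  set n := ‖e‖ with hn
  set ρ := ⟪e, z⟫ / n ^ 2 with hρ
  set z' := z - ρ • e with hz'
  set Λ := Real.sqrt (((D + N * n ^ 2) / n) ^ 2 + L ^ 2) with hΛ
  have hn2 : n ^ 2 ≠ 0 := by positivity
  have hin : ⟪e, z⟫ = n ^ 2 * ρ := by
    rw [hρ]
    field_simp
  have hxy : x = y + ρ • e + z' := by
    rw [hz', hz]
    abel
  have hort : ⟪e, z'⟫ = 0 := by
    rw [hz', inner_sub_right, inner_smul_right, real_inner_self_eq_norm_sq, hin]
    ring
  have hnorm : ‖z‖ ^ 2 = n ^ 2 * ρ ^ 2 + ‖z'‖ ^ 2 := by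
    have h1 : z = ρ • e + z' := by
      rw [hz']
      abel
    rw [h1, ← real_inner_self_eq_norm_sq, inner_add_left, inner_add_right, inner_add_right,
      inner_smul_left, inner_smul_right, inner_smul_left, inner_smul_right,
      real_inner_comm e z', hort, real_inner_self_eq_norm_sq, real_inner_self_eq_norm_sq]
    simp only [conj_trivial]
    ring
  have hNin : (P x + N * ⟪e, x⟫) - (P y + N * ⟪e, y⟫) = P x - P y + N * n ^ 2 * ρ := by
    have h1 : ⟪e, x⟫ - ⟪e, y⟫ = n ^ 2 * ρ := by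
      rw [← inner_sub_right, ← hin]
    linear_combination N * h1
  rw [hNin]
  have hΛ0 : 0 ≤ Λ := Real.sqrt_nonneg _
  have hΛL : L ≤ Λ := Real.le_sqrt_of_sq_le (by nlinarith [sq_nonneg ((D + N * n ^ 2) / n)])
  have hΛ2 : Λ ^ 2 = ((D + N * n ^ 2) / n) ^ 2 + L ^ 2 := Real.sq_sqrt (by positivity)
  rcases le_or_gt 0 ρ with h | h
  · have h1 : P x - P y ≤ L * ‖z'‖ + D * ρ := by
      have h2 := H y ρ h
      have h3 := hL x (y + ρ • e)
      have h4 : x - (y + ρ • e) = z' := by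
        rw [hz', hz]
        abel
      rw [h4] at h3
      have h5 := le_abs_self (P x - P (y + ρ • e))
      linarith
    have h2 : L * ‖z'‖ + (D + N * n ^ 2) * ρ ≤ Λ * ‖z‖ := by
      refine le_of_sq_le_sq ?_ (by positivity) |>.trans_eq rfl
      rw [mul_pow, hΛ2, hnorm]
      have h3 : (D + N * n ^ 2) * ρ = ((D + N * n ^ 2) / n) * (n * ρ) := by
        field_simp
      rw [h3]
      nlinarith [sq_nonneg (L * (n * ρ) - ((D + N * n ^ 2) / n) * ‖z'‖)]
    linarith
  · have h1 := hL x y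
    have h2 := le_abs_self (P x - P y)
    have h3 : N * n ^ 2 * ρ ≤ 0 := mul_nonpos_of_nonneg_of_nonpos (by positivity) h.le
    have h4 : L * ‖z‖ ≤ Λ * ‖z‖ := mul_le_mul_of_nonneg_right hΛL (norm_nonneg _)
    linarith

theorem dir : S_dir := by
  intro E _ _ r L D P e hL H x t ht
  by_cases he : e = 0
  · subst he
    have h1 := H 0 1 zero_le_one
    rw [smul_zero, add_zero, sub_self, mul_one] at h1
    rw [smul_zero, add_zero, sub_self]
    exact mul_nonneg h1 ht
  have hn : 0 < ‖e‖ := norm_pos_iff.2 he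
  have hL0 : 0 ≤ L := by
    have h1 := hL e 0
    rw [sub_zero] at h1
    by_contra h
    push Not at h
    have h2 := mul_neg_of_neg_of_pos h hn
    have h3 := abs_nonneg (P e - P 0)
    linarith
  -- the bound for every large parameter
  have key : ∀ N : ℝ, 0 ≤ N → r.R P (x + t • e) - r.R P x + N * ‖e‖ ^ 2 * t ≤
      Real.sqrt (((D + N * ‖e‖ ^ 2) / ‖e‖) ^ 2 + L ^ 2) * (t * ‖e‖) := by
    intro N hN
    have h1 : LipK (Real.sqrt (((D + N * ‖e‖ ^ 2) / ‖e‖) ^ 2 + L ^ 2))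
        (fun y => P y + N * ⟪e, y⟫) := by
      intro a b
      rw [abs_le]
      have h2 := dir_aux hL hL0 hn H hN a b
      have h3 := dir_aux hL hL0 hn H hN b a
      rw [norm_sub_rev b a] at h3
      exact ⟨by linarith, h2⟩
    have h2 : LipK ‖e‖ (fun y => ⟪e, y⟫) := by
      intro a b
      rw [← inner_sub_right]
      exact abs_real_inner_le_norm _ _
    have h3 : LipK (N * ‖e‖) (fun y => N * ⟪e, y⟫) := by
      intro a b
      rw [← mul_sub, abs_mul, abs_of_nonneg hN, mul_assoc]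
      exact mul_le_mul_of_nonneg_left (h2 a b) hN
    have h4 := r.lip h1 (x + t • e) x
    have h5 := le_abs_self (r.R (fun y => P y + N * ⟪e, y⟫) (x + t • e) -
      r.R (fun y => P y + N * ⟪e, y⟫) x)
    rw [r.add hL h3, r.add hL h3, r.smul N h2, r.smul N h2, r.lin, r.lin] at h5 h4
    rw [add_sub_cancel_left, norm_smul, Real.norm_of_nonneg ht] at h4
    have h6 : ⟪e, x + t • e⟫ = ⟪e, x⟫ + t * ‖e‖ ^ 2 := by
      rw [inner_add_right, inner_smul_right, real_inner_self_eq_norm_sq]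
    rw [h6] at h4 h5
    linarith
  rcases ht.eq_or_lt with rfl | htp
  · rw [zero_smul, add_zero, sub_self, mul_zero]
  refine le_of_forall_pos_le_add fun ε hε => ?_
  set B := L * ‖e‖ with hB
  set A : ℝ := |D| + 1 + t * B ^ 2 / ε with hA
  have hA1 : 0 < A - |D| := by
    rw [hA]
    have : 0 ≤ t * B ^ 2 / ε := by positivity
    linarith
  have hA0 : 0 ≤ A := by
    have := abs_nonneg D
    linarith
  have hDA : 0 < D + A := by
    have := neg_abs_le D
    linarith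
  have h1 := key (A / ‖e‖ ^ 2) (by positivity)
  have h2 : A / ‖e‖ ^ 2 * ‖e‖ ^ 2 = A := by
    field_simp
  rw [h2] at h1
  have h3 : Real.sqrt (((D + A) / ‖e‖) ^ 2 + L ^ 2) * (t * ‖e‖) =
      t * Real.sqrt ((D + A) ^ 2 + B ^ 2) := by
    have h4 : (D + A) ^ 2 + B ^ 2 = (((D + A) / ‖e‖) ^ 2 + L ^ 2) * ‖e‖ ^ 2 := by
      rw [hB]
      field_simp
    rw [h4, Real.sqrt_mul (by positivity), Real.sqrt_sq hn.le]
    ring
  rw [h3] at h1
  have h4 : Real.sqrt ((D + A) ^ 2 + B ^ 2) ≤ (D + A) + B ^ 2 / (2 * (D + A)) := by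
    refine Real.sqrt_le_iff.2 ⟨by positivity, ?_⟩
    have h5 : ((D + A) + B ^ 2 / (2 * (D + A))) ^ 2 =
        (D + A) ^ 2 + B ^ 2 + (B ^ 2 / (2 * (D + A))) ^ 2 := by
      field_simp
      ring
    rw [h5]
    have := sq_nonneg (B ^ 2 / (2 * (D + A)))
    linarith
  have h5 : t * (B ^ 2 / (2 * (D + A))) ≤ ε := by
    have h6 : t * B ^ 2 / ε ≤ 2 * (D + A) := by
      have h7 := neg_abs_le D
      have h8 := abs_nonneg D
      have h9 : 0 ≤ t * B ^ 2 / ε := by positivity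
      rw [hA]
      linarith
    rw [div_le_iff₀ hε] at h6
    rw [← mul_div_assoc, div_le_iff₀ (by positivity)]
    linarith
  have h6 := mul_le_mul_of_nonneg_left h4 ht
  nlinarith

end Q101Lf
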