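import Pool.Agent.Q101.LfS

set_option autoImplicit false

/-! # The final step -/

open scoped RealInnerProductSpace

namespace Q101Lf

theorem final : S_final := by
  intro E _ _ _ σ K' hK c v hc H
  have hin : ∀ e : E, LipK ‖e‖ (fun y => ⟪e, y⟫) := by
    intro e a b
    rw [← inner_sub_right]
    exact abs_real_inner_le_norm _ _
  have hcomp : ∀ (K : ℝ) (P : E → ℝ), LipK K P → 0 ≤ K → LipK K (fun w => P (K' w)) := by
    intro K P hP h0 a b
    exact (hP (K' a) (K' b)).trans (mul_le_mul_of_nonneg_left (hK a b) h0)
  have hiso : ∀ w w', ‖K' w - K' w'‖ = ‖w - w'‖ := by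
    intro w w'
    refine le_antisymm (hK w w') ?_
    set e := w - w' with he
    by_cases h0 : e = 0
    · rw [h0, norm_zero]
      exact norm_nonneg _
    set G := σ.S (fun y => ⟪e, y⟫) with hG
    have hGl : LipK ‖e‖ G := σ.S_lip (hin e)
    set P : E → ℝ := fun y => c * G ((1 / c) • (y - v)) with hP
    have hPl : LipK ‖e‖ P := by
      intro a b
      have h1 := hGl ((1 / c) • (a - v)) ((1 / c) • (b - v))
      have h2 : (1 / c) • (a - v) - (1 / c) • (b - v) = (1 / c) • (a - b) := by
        rw [← smul_sub]
        congr 1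
        abel
      rw [h2, norm_smul, Real.norm_eq_abs, abs_div, abs_one] at h1
      simp only [hP]
      rw [← mul_sub, abs_mul]
      have h3 : 0 < |c| := abs_pos.2 hc
      calc |c| * |G ((1 / c) • (a - v)) - G ((1 / c) • (b - v))|
          ≤ |c| * (‖e‖ * (1 / |c| * ‖a - b‖)) := mul_le_mul_of_nonneg_left h1 h3.le
        _ = ‖e‖ * ‖a - b‖ := by
          field_simp
    have h1 : σ.S (fun w => P (K' w)) = G := by
      funext x
      rw [H _ P hPl x]
      simp only [hP]
      have h2 : (1 / c) • (c • x + v - v) = x := by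
        rw [add_sub_cancel_right, smul_smul, one_div, inv_mul_cancel₀ hc, one_smul]
      rw [h2, sub_self, smul_zero, hG, σ.S_zero]
      field_simp
      ring
    have h2 : ∀ w, P (K' w) - P (K' 0) = ⟪e, w⟫ := by
      intro w
      have h3 := σ.S'S (hcomp _ P hPl (norm_nonneg _)) w
      have h4 := σ.S'S (hin e) w
      rw [h1] at h3
      rw [← hG, inner_zero_right, sub_zero] at h4
      rw [← h3, h4]
    have h3 : ⟪e, e⟫ = P (K' w) - P (K' w') := by
      have h4 := h2 w
      have h5 := h2 w'
      have h6 : ⟪e, e⟫ = ⟪e, w⟫ - ⟪e, w'⟫ := by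
        rw [← inner_sub_right]
      rw [h6, ← h4, ← h5]
      ring
    have h4 := (le_abs_self _).trans (hPl (K' w) (K' w'))
    rw [← h3, real_inner_self_eq_norm_sq, sq] at h4
    exact le_of_mul_le_mul_left h4 (norm_pos_iff.2 h0)
  have hinj : Function.Injective K' := by
    intro w w' h
    have h1 := hiso w w'
    rw [h, sub_self, norm_zero] at h1
    exact sub_eq_zero.1 (norm_eq_zero.1 h1.symm)
  have hisom : Isometry K' := Isometry.of_dist_eq fun a b => by
    rw [dist_eq_norm, dist_eq_norm, hiso]
  have hcl : IsClosed (Set.range K') := hisom.isClosedEmbedding.isClosed_range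
  have hsurj : Function.Surjective K' := by
    intro y
    set P : E → ℝ := fun y => Metric.infDist y (Set.range K') with hP
    have hPl : LipK 1 P := by
      intro a b
      have h1 := (Metric.lipschitz_infDist_pt (Set.range K')).dist_le_mul a b
      rw [Real.dist_eq, dist_eq_norm] at h1
      simpa using h1
    have hP0 : ∀ w, P (K' w) = 0 := fun w =>
      Metric.infDist_zero_of_mem (Set.mem_range_self w)
    have h0 : LipK 0 (fun w => P (K' w)) := by
      intro a b
      change |P (K' a) - P (K' b)| ≤ _
      rw [hP0, hP0]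
      simp
    have h1 : ∀ x, σ.S (fun w => P (K' w)) x = 0 := by
      intro x
      have h2 := σ.S_lip h0 x 0
      rw [σ.S_zero, sub_zero, zero_mul] at h2
      exact abs_eq_zero.1 (le_antisymm h2 (abs_nonneg _))
    have h2 : ∀ x, P (c • x + v) = P v := by
      intro x
      have h3 := H 1 P hPl x
      rw [h1] at h3
      have h4 : (1 : ℝ) / c ≠ 0 := one_div_ne_zero hc
      have h5 := (mul_eq_zero.1 h3.symm).resolve_left h4
      linarith
    have h3 : ∀ z, P z = P v := by
      intro z
      have h4 := h2 ((1 / c) • (z - v))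
      rwa [smul_smul, mul_one_div_cancel hc, one_smul, sub_add_cancel] at h4
    have h4 : P y = 0 := by rw [h3 y, ← h3 (K' 0), hP0]
    have h5 : y ∈ Set.range K' := by
      rw [hcl.mem_iff_infDist_zero ⟨K' 0, Set.mem_range_self 0⟩]
      exact h4
    exact h5
  let kE : E ≃ E := Equiv.ofBijective K' ⟨hinj, hsurj⟩
  have hk : ∀ y, K' (kE.symm y) = y := fun y => kE.apply_symm_apply y
  let aE : E ≃ E :=
    { toFun := fun x => c • x + v
      invFun := fun y => c⁻¹ • (y - v)
      left_inv := fun x => by
        simp only [add_sub_cancel_right]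
        rw [smul_smul, inv_mul_cancel₀ hc, one_smul]
      right_inv := fun y => by
        simp only []
        rw [smul_smul, mul_inv_cancel₀ hc, one_smul, sub_add_cancel] }
  have hphi : ∀ x, (aE.trans kE.symm) x = kE.symm (c • x + v) := fun x => rfl
  refine ⟨aE.trans kE.symm, fun x y => ?_, fun K F hF x y => ?_⟩
  · rw [← hiso, hphi, hphi, hk, hk, add_sub_add_right_eq_sub, ← smul_sub, norm_smul,
      Real.norm_eq_abs]
  · have hPl : LipK K (fun y => F (kE.symm y)) := by
      intro a b
      have h1 := hF (kE.symm a) (kE.symm b)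
      rwa [← hiso, hk, hk] at h1
    have h1 : F = fun w => (fun y => F (kE.symm y)) (K' w) := by
      funext w
      have h2 : kE.symm (K' w) = w := kE.symm_apply_apply w
      simp only [h2]
    have h2 := H K _ hPl x
    have h3 := H K _ hPl y
    rw [← h1] at h2 h3
    rw [h2, h3, hphi, hphi]
    ring

end Q101Lf
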