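import Mathlib

set_option autoImplicit false

/-!
# Lipschitz-free rigidity of Euclidean spaces: the abstract data

`SOp E` is the data on Lipschitz functions obtained from (the adjoint of) a surjective linear
isometry of the Lipschitz-free space of `E`; `ROp E` is the part of it which acts on functions of
the canonical map `E → E`.
-/

open Filter Topology
open scoped RealInnerProductSpace

namespace Q101Lf

/-- `f` is `K`-Lipschitz. -/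
def LipK {E : Type} [NormedAddCommGroup E] (K : ℝ) (f : E → ℝ) : Prop :=
  ∀ x y, |f x - f y| ≤ K * ‖x - y‖

/-- Linear operators on Lipschitz functions, inverse to each other up to constants, which do not
increase Lipschitz constants; `S` is approximated by differences of point evaluations. -/
structure SOp (E : Type) [NormedAddCommGroup E] [InnerProductSpace ℝ E] where
  /-- the operator -/
  S : (E → ℝ) → E → ℝ
  /-- its inverse -/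
  S' : (E → ℝ) → E → ℝ
  S_zero : ∀ F, S F 0 = 0
  S'_zero : ∀ F, S' F 0 = 0
  S_add : ∀ {K L : ℝ} {F G : E → ℝ}, LipK K F → LipK L G →
    ∀ x, S (fun y => F y + G y) x = S F x + S G x
  S'_add : ∀ {K L : ℝ} {F G : E → ℝ}, LipK K F → LipK L G →
    ∀ x, S' (fun y => F y + G y) x = S' F x + S' G x
  S_smul : ∀ {K : ℝ} {F : E → ℝ} (c : ℝ), LipK K F → ∀ x, S (fun y => c * F y) x = c * S F x
  S'_smul : ∀ {K : ℝ} {F : E → ℝ} (c : ℝ), LipK K F → ∀ x, S' (fun y => c * F y) x = c * S' F x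
  S_lip : ∀ {K : ℝ} {F : E → ℝ}, LipK K F → LipK K (S F)
  S'_lip : ∀ {K : ℝ} {F : E → ℝ}, LipK K F → LipK K (S' F)
  SS' : ∀ {K : ℝ} {F : E → ℝ}, LipK K F → ∀ x, S (S' F) x = F x - F 0
  S'S : ∀ {K : ℝ} {F : E → ℝ}, LipK K F → ∀ x, S' (S F) x = F x - F 0
  approx : ∀ (x : E) (ε : ℝ), 0 < ε → ∃ ν : E →₀ ℝ, (ν.sum fun _ a => a) = 0 ∧
    ∀ (K : ℝ) (F : E → ℝ), LipK K F → |S F x - ν.sum fun m a => a * F m| ≤ ε * K

/-- The operator `R P = S (P ∘ K')`. -/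
structure ROp (E : Type) [NormedAddCommGroup E] [InnerProductSpace ℝ E] where
  /-- the operator -/
  R : (E → ℝ) → E → ℝ
  zero : ∀ P, R P 0 = 0
  add : ∀ {K L : ℝ} {P Q : E → ℝ}, LipK K P → LipK L Q →
    ∀ x, R (fun y => P y + Q y) x = R P x + R Q x
  smul : ∀ {K : ℝ} {P : E → ℝ} (c : ℝ), LipK K P → ∀ x, R (fun y => c * P y) x = c * R P x
  lip : ∀ {K : ℝ} {P : E → ℝ}, LipK K P → LipK K (R P)
  lin : ∀ a x : E, R (fun y => ⟪a, y⟫) x = ⟪a, x⟫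
  approx : ∀ (x : E) (ε : ℝ), 0 < ε → ∃ ν : E →₀ ℝ, (ν.sum fun _ a => a) = 0 ∧
    ∀ (K : ℝ) (P : E → ℝ), LipK K P → |R P x - ν.sum fun m a => a * P m| ≤ ε * K

/-- The complex function `g_a` with `R (sin ⟪a, ·⟫) - i R (cos ⟪a, ·⟫) = g_a (⟪a, ·⟫)`. -/
noncomputable def gf {E : Type} [NormedAddCommGroup E] [InnerProductSpace ℝ E] (r : ROp E)
    (a : E) (s : ℝ) : ℂ :=
  ⟨r.R (fun y => Real.sin ⟪a, y⟫) ((s / ‖a‖ ^ 2) • a),
    -r.R (fun y => Real.cos ⟪a, y⟫) ((s / ‖a‖ ^ 2) • a)⟩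

/-- A functional on Lipschitz functions which is a limit of differences of point evaluations
(an element of the Lipschitz-free space). -/
def Approx {E : Type} [NormedAddCommGroup E] (μ : (E → ℝ) → ℝ) : Prop :=
  ∀ ε : ℝ, 0 < ε → ∃ ν : E →₀ ℝ, (ν.sum fun _ a => a) = 0 ∧
    ∀ (K : ℝ) (F : E → ℝ), LipK K F → |μ F - ν.sum fun m a => a * F m| ≤ ε * K

/-! ### The lemmas -/

/-- job 1: a Lipschitz function with derivative `≤ M` a.e. has increments `≤ M (t - s)`. -/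
def S_ll : Prop :=
  (∀ (f : ℝ → ℝ) (K M : ℝ), LipK K f → (∀ᵐ t, deriv f t ≤ M) → ∀ s t, s ≤ t →
    f t - f s ≤ M * (t - s)) ∧
  (∀ (g : ℝ → ℂ) (K : ℝ), (∀ s t, ‖g s - g t‖ ≤ K * |s - t|) → (∀ᵐ t, HasDerivAt g 0 t) →
    ∀ s t, g s = g t) ∧
  ∀ (g : ℝ → ℂ) (K : ℝ), (∀ s t, ‖g s - g t‖ ≤ K * |s - t|) → ∀ᵐ t, DifferentiableAt ℝ g t

/-- job 2: an elementary inequality. -/
def S_trig : Prop :=
  ∀ M u v w : ℝ, 0 < M →
    M * Real.cos u + M * Real.cos v + 2 * Real.cos (u + v + w) ≤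
      2 * M + 2 * Real.cos w + Real.pi ^ 2 / M

/-- job 3: the continuous characters of the real line. -/
def S_char : Prop :=
  ∀ χ : ℝ → ℂ, Continuous χ → (∀ s t, χ (s + t) = χ s * χ t) → (∀ s, ‖χ s‖ = 1) →
    ∃ c : ℝ, ∀ s : ℝ, χ s = Complex.exp (c * s * Complex.I)

/-- job 4: the one-variable part of `|g_a'| = 1` almost everywhere. -/
def S_twoR : Prop :=
  ∀ γ : ℝ → ℂ, (∀ s t, ‖γ s - γ t‖ ≤ |s - t|) →
    (∀ ψ : ℝ → ℝ, LipK 1 ψ →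
      (∀ η : ℝ, 0 < η → ∃ s t : ℝ, s < t ∧ (2 - η) * (t - s) ≤ (ψ t + t) - (ψ s + s)) →
      ∀ η : ℝ, 0 < η → ∃ (z : ℂ) (s t : ℝ), ‖z‖ = 1 ∧ s ≠ t ∧
        (2 - η) * |t - s| ≤ |(ψ t + (z * γ t).re) - (ψ s + (z * γ s).re)|) →
    ∀ᵐ s, ∃ w : ℂ, HasDerivAt γ w s ∧ ‖w‖ = 1

/-- job 5: the geometric part of `|g_a'| = 1` almost everywhere. -/
def S_twoG : Prop :=
  ∀ (E : Type) [NormedAddCommGroup E] [InnerProductSpace ℝ E] (σ : SOp E) (K' : E → E),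
    (∀ a w, σ.S' (fun x => ⟪a, x⟫) w = ⟪a, K' w⟫) → ∀ a : E, a ≠ 0 →
    ∀ H : ℝ → ℝ → ℝ, (∀ θ x, σ.S (fun w => Real.sin (⟪a, K' w⟫ - θ)) x = H θ ⟪a, x⟫) →
    ∀ ψ : ℝ → ℝ, LipK 1 ψ →
      (∀ η : ℝ, 0 < η → ∃ s t : ℝ, s < t ∧ (2 - η) * (t - s) ≤ (ψ t + t) - (ψ s + s)) →
      ∀ η : ℝ, 0 < η → ∃ θ s t : ℝ, s ≠ t ∧
        (2 - η) * |t - s| ≤ |(ψ t + H θ t) - (ψ s + H θ s)|

/-- job 6: bounds for directional increments. -/
def S_dir : Prop :=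
  ∀ (E : Type) [NormedAddCommGroup E] [InnerProductSpace ℝ E] (r : ROp E) (L D : ℝ) (P : E → ℝ)
    (e : E), LipK L P → (∀ y : E, ∀ ρ : ℝ, 0 ≤ ρ → P (y + ρ • e) - P y ≤ D * ρ) →
    ∀ x : E, ∀ t : ℝ, 0 ≤ t → r.R P (x + t • e) - r.R P x ≤ D * t

/-- job 7: the basic properties of `gf`. -/
def S_gf : Prop :=
  ∀ (E : Type) [NormedAddCommGroup E] [InnerProductSpace ℝ E] (r : ROp E) (a : E), a ≠ 0 →
    (∀ (θ : ℝ) (x : E), r.R (fun y => Real.sin (⟪a, y⟫ - θ)) x =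
      (Complex.exp (-(θ * Complex.I)) * gf r a ⟪a, x⟫).re) ∧
    (∀ s t, ‖gf r a s - gf r a t‖ ≤ |s - t|) ∧ gf r a 0 = 0

/-- job 8: the multiplicative relation. -/
def S_mul : Prop :=
  ∀ (E : Type) [NormedAddCommGroup E] [InnerProductSpace ℝ E] (r : ROp E) (a b : E),
    LinearIndependent ℝ ![a, b] → ∀ (s t : ℝ) (A B C : ℂ), HasDerivAt (gf r a) A s →
    HasDerivAt (gf r b) B t → HasDerivAt (gf r (a + b)) C (s + t) → ‖A‖ = 1 → ‖B‖ = 1 →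
    C = A * B

/-- job 9: one-variable consequences of the multiplicative relation. -/
def S_four : Prop :=
  ∀ (E : Type) [AddCommGroup E] [Module ℝ E],
    (∀ a b : E, ∃ c : E, (a ≠ 0 → LinearIndependent ℝ ![a, c]) ∧
      (b ≠ 0 → LinearIndependent ℝ ![b, c])) →
    ∀ g : E → ℝ → ℂ, (∀ a, a ≠ 0 → ∀ s t, ‖g a s - g a t‖ ≤ |s - t|) →
    (∀ a, a ≠ 0 → ∀ᵐ s, ∃ w : ℂ, HasDerivAt (g a) w s ∧ ‖w‖ = 1) →
    (∀ a b : E, LinearIndependent ℝ ![a, b] → ∀ (s t : ℝ) (A B C : ℂ), HasDerivAt (g a) A s →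
      HasDerivAt (g b) B t → HasDerivAt (g (a + b)) C (s + t) → ‖A‖ = 1 → ‖B‖ = 1 → C = A * B) →
    ∃ (c : ℝ) (C : E → ℂ), (∀ a, a ≠ 0 → ‖C a‖ = 1) ∧
      (∀ a, a ≠ 0 → ∀ s : ℝ, HasDerivAt (g a) (C a * Complex.exp (c * s * Complex.I)) s) ∧
      ∀ a b, LinearIndependent ℝ ![a, b] → C (a + b) = C a * C b

/-- job 10: the constants `C a` are a character. -/
def S_five : Prop :=
  ∀ (d : ℕ), 2 ≤ d → ∀ (r : ROp (EuclideanSpace ℝ (Fin d))) (c : ℝ), c ≠ 0 →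
    ∀ C : EuclideanSpace ℝ (Fin d) → ℂ, (∀ a, a ≠ 0 → ‖C a‖ = 1) →
    (∀ a, a ≠ 0 → ∀ s : ℝ, HasDerivAt (gf r a) (C a * Complex.exp (c * s * Complex.I)) s) →
    (∀ a b, LinearIndependent ℝ ![a, b] → C (a + b) = C a * C b) →
    ∃ v : EuclideanSpace ℝ (Fin d), ∀ a x,
      r.R (fun y => Real.sin ⟪a, y⟫) x =
        (1 / c) * (Real.sin ⟪a, c • x + v⟫ - Real.sin ⟪a, v⟫) ∧
      r.R (fun y => Real.cos ⟪a, y⟫) x =
        (1 / c) * (Real.cos ⟪a, c • x + v⟫ - Real.cos ⟪a, v⟫)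

/-- job 11: separation by trigonometric functions, for smooth compactly supported functions. -/
def S_sepa : Prop :=
  ∀ (d : ℕ) (μ : (EuclideanSpace ℝ (Fin d) → ℝ) → ℝ), Approx μ →
    (∀ a, μ (fun y => Real.sin ⟪a, y⟫) = 0) → (∀ a, μ (fun y => Real.cos ⟪a, y⟫) = 0) →
    ∀ F : EuclideanSpace ℝ (Fin d) → ℝ, ContDiff ℝ (⊤ : ℕ∞) F → HasCompactSupport F → μ F = 0

/-- job 12: approximation of Lipschitz functions by smooth compactly supported ones. -/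
def S_sepb : Prop :=
  ∀ (d : ℕ) (F : EuclideanSpace ℝ (Fin d) → ℝ) (K : ℝ), 0 ≤ K → LipK K F → F 0 = 0 →
    ∃ G : ℕ → EuclideanSpace ℝ (Fin d) → ℝ, (∀ n, ContDiff ℝ (⊤ : ℕ∞) (G n)) ∧
      (∀ n, HasCompactSupport (G n)) ∧ (∀ n, LipK K (G n)) ∧
      ∀ y, Tendsto (fun n => G n y) atTop (𝓝 (F y))

/-- job 13: the final step. -/
def S_final : Prop :=
  ∀ (E : Type) [NormedAddCommGroup E] [InnerProductSpace ℝ E] [CompleteSpace E] (σ : SOp E)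
    (K' : E → E), (∀ w w', ‖K' w - K' w'‖ ≤ ‖w - w'‖) → ∀ (c : ℝ) (v : E), c ≠ 0 →
    (∀ (K : ℝ) (P : E → ℝ), LipK K P → ∀ x,
      σ.S (fun w => P (K' w)) x = (1 / c) * (P (c • x + v) - P v)) →
    ∃ φ : E ≃ E, (∀ x y, ‖φ x - φ y‖ = |c| * ‖x - y‖) ∧
      ∀ (K : ℝ) (F : E → ℝ), LipK K F → ∀ x y,
        σ.S F x - σ.S F y = (1 / c) * (F (φ x) - F (φ y))

/-- job 14: the constant `c` is not zero. -/
def S_cne : Prop :=
  ∀ (E : Type) [NormedAddCommGroup E] [InnerProductSpace ℝ E] (σ : SOp E) (K' : E → E),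
    (∀ a w, σ.S' (fun x => ⟪a, x⟫) w = ⟪a, K' w⟫) → ∀ a : E, a ≠ 0 → ∀ α : ℝ,
    ¬ ∀ x, σ.S (fun w => Real.sin ⟪a, K' w⟫) x = α * ⟪a, x⟫

end Q101Lf
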