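import Mathlib
import Pool.Agent.Q101.LfS

set_option autoImplicit false

/-! # Job LF-10: the constants are a character -/

open Filter Topology
open scoped RealInnerProductSpace

namespace Q101Lf

section

variable {E : Type} [NormedAddCommGroup E] [InnerProductSpace ℝ E]

theorem LfFive_const (r : ROp E) (k : ℝ) (x : E) : r.R (fun _ => k) x = 0 := by
  have h1 : LipK 0 (fun _ : E => k) := by
    intro x y
    rw [sub_self, abs_zero, zero_mul]
  have h2 := r.lip h1 x 0
  rw [r.zero, zero_mul, sub_zero] at h2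
  exact abs_eq_zero.1 (le_antisymm h2 (abs_nonneg _))

theorem LfFive_cont (r : ROp E) (x : E) {s : Set ℝ} {K : ℝ} (P : ℝ → E → ℝ)
    (hL : ∀ t ∈ s, LipK K (P t)) (hc : ∀ y, Continuous fun t => P t y) :
    ContinuousOn (fun t => r.R (P t) x) s := by
  refine continuousOn_of_uniform_approx_of_continuousOn fun u hu => ?_
  obtain ⟨ε, hε, hεu⟩ := Metric.mem_uniformity_dist.1 hu
  obtain ⟨ν, -, hν⟩ := r.approx x (ε / (2 * (|K| + 1))) (by positivity)
  refine ⟨fun t => ν.sum fun m a => a * P t m, ?_, fun t ht => hεu ?_⟩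
  · unfold Finsupp.sum
    exact (continuous_finsetSum _ fun m _ => continuous_const.mul (hc m)).continuousOn
  · rw [Real.dist_eq]
    refine lt_of_le_of_lt (hν K (P t) (hL t ht)) ?_
    have h1 : ε / (2 * (|K| + 1)) * K ≤ ε / (2 * (|K| + 1)) * (|K| + 1) :=
      mul_le_mul_of_nonneg_left ((le_abs_self K).trans (by linarith)) (by positivity)
    have h2 : ε / (2 * (|K| + 1)) * (|K| + 1) = ε / 2 := by
      field_simp
    linarith

theorem LfFive_lip_sin (a : E) (θ : ℝ) : LipK ‖a‖ (fun y => Real.sin (⟪a, y⟫ - θ)) := by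
  intro x y
  calc |Real.sin (⟪a, x⟫ - θ) - Real.sin (⟪a, y⟫ - θ)| ≤ |(⟪a, x⟫ - θ) - (⟪a, y⟫ - θ)| :=
        Real.abs_sin_sub_sin_le _ _
    _ = |⟪a, x - y⟫| := by rw [inner_sub_right]; congr 1; ring
    _ ≤ ‖a‖ * ‖x - y‖ := abs_real_inner_le_norm a (x - y)

/-- the real and imaginary parts of `gf` -/
theorem LfFive_parts (h1 : S_gf) (r : ROp E) {a : E} (ha : a ≠ 0) (x : E) :
    r.R (fun y => Real.sin ⟪a, y⟫) x = (gf r a ⟪a, x⟫).re ∧
      r.R (fun y => Real.cos ⟪a, y⟫) x = -(gf r a ⟪a, x⟫).im := by
  have h2 := (h1 E r a ha).1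
  refine ⟨?_, ?_⟩
  · have h3 := h2 0 x
    simp only [sub_zero] at h3
    rw [h3]
    simp
  · have h3 := h2 (-(Real.pi / 2)) x
    have h4 : (fun y : E => Real.sin (⟪a, y⟫ - -(Real.pi / 2))) = fun y => Real.cos ⟪a, y⟫ := by
      funext y
      rw [sub_neg_eq_add, Real.sin_add_pi_div_two]
    rw [h4] at h3
    rw [h3]
    have h5 : Complex.exp (-(((-(Real.pi / 2) : ℝ) : ℂ) * Complex.I)) = Complex.I := by
      have h6 : -(((-(Real.pi / 2) : ℝ) : ℂ) * Complex.I) = Real.pi / 2 * Complex.I := by
        push_cast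
        ring
      rw [h6, Complex.exp_pi_div_two_mul_I]
    rw [h5]
    simp

/-- the function `gf` -/
theorem LfFive_gf (h1 : S_gf) (r : ROp E) {a : E} (ha : a ≠ 0) {c : ℝ} (hc : c ≠ 0) {z : ℂ}
    (hd : ∀ s : ℝ, HasDerivAt (gf r a) (z * Complex.exp (c * s * Complex.I)) s) (s : ℝ) :
    gf r a s * (c * Complex.I) = z * (Complex.exp (c * s * Complex.I) - 1) := by
  have hcI : (c : ℂ) * Complex.I ≠ 0 := mul_ne_zero (Complex.ofReal_ne_zero.2 hc) Complex.I_ne_zero
  have h2 : ∀ s : ℝ, HasDerivAt (fun s : ℝ => gf r a s * (c * Complex.I) -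
      z * (Complex.exp (c * s * Complex.I) - 1)) 0 s := by
    intro s
    have e1 : HasDerivAt (fun s : ℝ => (c : ℂ) * s * Complex.I) (c * Complex.I) s := by
      have := ((Complex.ofRealCLM.hasDerivAt (x := s)).const_mul (c : ℂ)).mul_const Complex.I
      simpa using this
    have e2 := ((hd s).mul_const ((c : ℂ) * Complex.I)).sub ((e1.cexp.sub_const 1).const_mul z)
    refine e2.congr_deriv ?_
    ring
  have h3 := is_const_of_deriv_eq_zero (fun s => (h2 s).differentiableAt) (fun s => (h2 s).deriv) s 0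
  have h4 : gf r a s * (c * Complex.I) - z * (Complex.exp (c * s * Complex.I) - 1) =
      gf r a 0 * (c * Complex.I) - z * (Complex.exp (c * (0:ℝ) * Complex.I) - 1) := h3
  rw [(h1 E r a ha).2.2] at h4
  simp only [Complex.ofReal_zero, mul_zero, zero_mul, Complex.exp_zero, sub_self] at h4
  exact sub_eq_zero.1 h4

end

/-- multiplicativity for dependent vectors -/
theorem LfFive_mul {E : Type} [AddCommGroup E] [Module ℝ E]
    (hpair : ∀ a : E, a ≠ 0 → ∃ c : E, LinearIndependent ℝ ![a, c]) (C : E → ℂ)
    (hC : ∀ a, a ≠ 0 → ‖C a‖ = 1) (h0 : C 0 = 1)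
    (hm : ∀ a b, LinearIndependent ℝ ![a, b] → C (a + b) = C a * C b) (a b : E) :
    C (a + b) = C a * C b := by
  have hne : ∀ a, C a ≠ 0 := by
    intro a h
    by_cases ha : a = 0
    · rw [ha, h0] at h
      exact one_ne_zero h
    · have := hC a ha
      rw [h, norm_zero] at this
      exact zero_ne_one this
  by_cases ha : a = 0
  · rw [ha, zero_add, h0, one_mul]
  by_cases hb : b = 0
  · rw [hb, add_zero, h0, mul_one]
  by_cases hab : LinearIndependent ℝ ![a, b]
  · exact hm a b hab
  obtain ⟨k, hk⟩ : ∃ k : ℝ, k • a = b := by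
    rw [LinearIndependent.pair_iff' ha] at hab
    push Not at hab
    exact hab
  obtain ⟨c, hc⟩ := hpair a ha
  have hk0 : k ≠ 0 := by
    rintro rfl
    rw [zero_smul] at hk
    exact hb hk.symm
  -- independence
  have i1 : LinearIndependent ℝ ![b, c] := by
    rw [LinearIndependent.pair_iff] at hc ⊢
    intro s t hst
    rw [← hk, smul_smul] at hst
    have := hc _ _ hst
    exact ⟨(mul_eq_zero.1 this.1).resolve_right hk0, this.2⟩
  have i2 : LinearIndependent ℝ ![a, b + c] := by
    rw [LinearIndependent.pair_iff] at hc ⊢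
    intro s t hst
    rw [← hk, smul_add, smul_smul, ← add_assoc, ← add_smul] at hst
    have := hc _ _ hst
    refine ⟨?_, this.2⟩
    have h1 := this.1
    rw [this.2, zero_mul, add_zero] at h1
    exact h1
  have e1 := hm a (b + c) i2
  rw [hm b c i1, ← add_assoc] at e1
  by_cases hs : a + b = 0
  · rw [hs, zero_add] at e1
    rw [hs, h0]
    have e2 : (C a * C b) * C c = 1 * C c := by
      rw [one_mul, mul_assoc]
      exact e1.symm
    exact (mul_right_cancel₀ (hne c) e2).symm
  · have hk1 : 1 + k ≠ 0 := by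
      intro h
      apply hs
      rw [← hk]
      have : a + k • a = (1 + k) • a := by rw [add_smul, one_smul]
      rw [this, h, zero_smul]
    have i3 : LinearIndependent ℝ ![a + b, c] := by
      rw [LinearIndependent.pair_iff] at hc ⊢
      intro s t hst
      have h2 : a + b = (1 + k) • a := by rw [← hk, add_smul, one_smul]
      rw [h2, smul_smul] at hst
      have := hc _ _ hst
      exact ⟨(mul_eq_zero.1 this.1).resolve_right hk1, this.2⟩
    rw [hm (a + b) c i3, ← mul_assoc] at e1
    exact mul_right_cancel₀ (hne c) e1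

theorem five (h1 : S_gf) (h2 : S_char) : S_five := by
  intro d hd r c hc C hC hder hmul
  -- partners
  have hpair : ∀ a : EuclideanSpace ℝ (Fin d), a ≠ 0 →
      ∃ b : EuclideanSpace ℝ (Fin d), LinearIndependent ℝ ![a, b] := by
    intro a ha
    by_contra hcon
    push Not at hcon
    have h3 : ∀ b : EuclideanSpace ℝ (Fin d), ∃ k : ℝ, k • a = b := by
      intro b
      have := hcon b
      rw [LinearIndependent.pair_iff' ha] at this
      push Not at this
      exact this
    have h4 : Module.finrank ℝ (EuclideanSpace ℝ (Fin d)) ≤ 1 := finrank_le_one a h3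
    rw [finrank_euclideanSpace_fin] at h4
    omega
  -- the extended character
  obtain ⟨C', hC'⟩ : ∃ C' : EuclideanSpace ℝ (Fin d) → ℂ, (∀ a, a ≠ 0 → C' a = C a) ∧ C' 0 = 1 := by
    classical
    refine ⟨Function.update C 0 1, fun a ha => ?_, ?_⟩
    · rw [Function.update_of_ne ha]
    · rw [Function.update_self]
  have hC'1 : ∀ a, a ≠ 0 → ‖C' a‖ = 1 := by
    intro a ha
    rw [hC'.1 a ha]
    exact hC a ha
  have hC'n : ∀ a, ‖C' a‖ = 1 := by
    intro a
    by_cases ha : a = 0
    · rw [ha, hC'.2, norm_one]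
    · exact hC'1 a ha
  have hC'm : ∀ a b, C' (a + b) = C' a * C' b := by
    refine LfFive_mul hpair C' hC'1 hC'.2 fun a b hab => ?_
    have ha : a ≠ 0 := hab.ne_zero 0
    have hb : b ≠ 0 := hab.ne_zero 1
    have hab0 : a + b ≠ 0 := by
      intro h
      have h' := LinearIndependent.pair_iff.1 hab 1 1 (by rw [one_smul, one_smul, h])
      exact one_ne_zero h'.1
    rw [hC'.1 a ha, hC'.1 b hb, hC'.1 _ hab0]
    exact hmul a b hab
  have hcI : (c : ℂ) * Complex.I ≠ 0 := mul_ne_zero (Complex.ofReal_ne_zero.2 hc) Complex.I_ne_zero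
  -- continuity along lines
  have hcont : ∀ a : EuclideanSpace ℝ (Fin d), a ≠ 0 → Continuous fun t : ℝ => C' (t • a) := by
    intro a ha
    have hat : ContinuousAt (fun t : ℝ => C' (t • a)) 1 := by
      have hna : ‖a‖ ^ 2 ≠ 0 := by
        have := norm_pos_iff.2 ha
        positivity
      set x : EuclideanSpace ℝ (Fin d) := (1 / (c * ‖a‖ ^ 2)) • a with hx
      have hax : ∀ t : ℝ, ⟪t • a, x⟫ = t / c := by
        intro t
        rw [hx, inner_smul_left, inner_smul_right, real_inner_self_eq_norm_sq]
        simp only [conj_trivial]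
        field_simp
      have hexp : ∀ t : ℝ, t ∈ Set.Ioo (0:ℝ) 2 → Complex.exp (t * Complex.I) - 1 ≠ 0 := by
        intro t ht h
        have h3 : Complex.exp (t * Complex.I) = 1 := sub_eq_zero.1 h
        have h4 : Real.sin t = 0 := by
          have := congrArg Complex.im h3
          rwa [Complex.exp_ofReal_mul_I_im, Complex.one_im] at this
        have h5 : 0 < Real.sin t := Real.sin_pos_of_pos_of_lt_pi ht.1
          (lt_of_lt_of_le ht.2 (by linarith [Real.pi_gt_three]))
        linarith
      have hform : ∀ t ∈ Set.Ioo (0:ℝ) 2, C' (t • a) =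
          ((r.R (fun y => Real.sin ⟪t • a, y⟫) x : ℂ) -
            (r.R (fun y => Real.cos ⟪t • a, y⟫) x : ℂ) * Complex.I) * (c * Complex.I) /
            (Complex.exp (t * Complex.I) - 1) := by
        intro t ht
        have hta : t • a ≠ 0 := smul_ne_zero ht.1.ne' ha
        have e1 := LfFive_parts h1 r hta x
        have e2 := LfFive_gf h1 r hta hc (hder _ hta) ⟪t • a, x⟫
        rw [hax t] at e1 e2
        have e3 : (c : ℂ) * ((t / c : ℝ) : ℂ) * Complex.I = t * Complex.I := by
          have : (c : ℂ) ≠ 0 := Complex.ofReal_ne_zero.2 hc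
          push_cast
          field_simp
        rw [e3] at e2
        rw [hC'.1 _ hta, eq_div_iff (hexp t ht), ← e2, e1.1, e1.2]
        congr 1
        apply Complex.ext <;> simp
      have hK : ∀ t ∈ Set.Ioo (0:ℝ) 2, ‖t • a‖ ≤ 2 * ‖a‖ := by
        intro t ht
        rw [norm_smul, Real.norm_eq_abs, abs_of_pos ht.1]
        exact mul_le_mul_of_nonneg_right ht.2.le (norm_nonneg _)
      have c1 : ContinuousOn (fun t : ℝ => r.R (fun y => Real.sin ⟪t • a, y⟫) x)
          (Set.Ioo (0:ℝ) 2) := by
        refine LfFive_cont r x (K := 2 * ‖a‖) (fun t y => Real.sin ⟪t • a, y⟫) ?_ ?_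
        · intro t ht y z
          have e1 := LfFive_lip_sin (t • a) 0 y z
          simp only [sub_zero] at e1
          exact e1.trans (mul_le_mul_of_nonneg_right (hK t ht) (norm_nonneg _))
        · intro y
          exact Real.continuous_sin.comp ((continuous_id.smul continuous_const).inner
            continuous_const)
      have c2 : ContinuousOn (fun t : ℝ => r.R (fun y => Real.cos ⟪t • a, y⟫) x)
          (Set.Ioo (0:ℝ) 2) := by
        refine LfFive_cont r x (K := 2 * ‖a‖) (fun t y => Real.cos ⟪t • a, y⟫) ?_ ?_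
        · intro t ht y z
          have e1 := LfFive_lip_sin (t • a) (-(Real.pi / 2)) y z
          simp only [sub_neg_eq_add, Real.sin_add_pi_div_two] at e1
          exact e1.trans (mul_le_mul_of_nonneg_right (hK t ht) (norm_nonneg _))
        · intro y
          exact Real.continuous_cos.comp ((continuous_id.smul continuous_const).inner
            continuous_const)
      have c3 : ContinuousOn (fun t : ℝ => ((r.R (fun y => Real.sin ⟪t • a, y⟫) x : ℂ) -
            (r.R (fun y => Real.cos ⟪t • a, y⟫) x : ℂ) * Complex.I) * (c * Complex.I) /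
            (Complex.exp (t * Complex.I) - 1)) (Set.Ioo (0:ℝ) 2) := by
        refine ContinuousOn.div ?_ ?_ hexp
        · refine ContinuousOn.mul ?_ continuousOn_const
          exact (Complex.continuous_ofReal.comp_continuousOn c1).sub
            ((Complex.continuous_ofReal.comp_continuousOn c2).mul continuousOn_const)
        · refine Continuous.continuousOn ?_
          fun_prop
      have c4 : ContinuousOn (fun t : ℝ => C' (t • a)) (Set.Ioo (0:ℝ) 2) := c3.congr hform
      exact c4.continuousAt (Ioo_mem_nhds one_pos one_lt_two)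
    rw [continuous_iff_continuousAt]
    intro t₀
    have h3 : (fun t : ℝ => C' (t • a)) =
        fun t => C' ((t - t₀ + 1) • a) * C' ((t₀ - 1) • a) := by
      funext t
      rw [← hC'm, ← add_smul]
      congr 2
      ring
    rw [h3]
    refine ContinuousAt.mul ?_ continuousAt_const
    have h4 : ContinuousAt (fun t : ℝ => C' (t • a)) ((fun t : ℝ => t - t₀ + 1) t₀) := by
      have : (fun t : ℝ => t - t₀ + 1) t₀ = 1 := by simp
      rw [this]
      exact hat
    exact ContinuousAt.comp (f := fun t : ℝ => t - t₀ + 1) h4 (by fun_prop)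
  -- the characters of the lines
  have hchar : ∀ j : Fin d, ∃ k : ℝ, ∀ t : ℝ,
      C' (t • EuclideanSpace.single j (1:ℝ)) = Complex.exp (k * t * Complex.I) := by
    intro j
    have hj : (EuclideanSpace.single j (1:ℝ) : EuclideanSpace ℝ (Fin d)) ≠ 0 := by
      intro h
      have := congrArg (fun w : EuclideanSpace ℝ (Fin d) => w j) h
      simp at this
    exact h2 _ (hcont _ hj) (fun s t => by rw [add_smul, hC'm]) (fun s => hC'n _)
  choose k hk using hchar
  set v : EuclideanSpace ℝ (Fin d) := WithLp.toLp 2 k with hv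
  have hvk : ∀ j, v j = k j := fun j => rfl
  have hCv : ∀ a, C' a = Complex.exp (⟪a, v⟫ * Complex.I) := by
    intro a
    have e1 : a = ∑ j, a j • EuclideanSpace.single j (1:ℝ) := by
      ext i
      simp [Finset.sum_apply, Pi.single_apply]
    have e2 : ∀ s : Finset (Fin d), C' (∑ j ∈ s, a j • EuclideanSpace.single j (1:ℝ)) =
        ∏ j ∈ s, C' (a j • EuclideanSpace.single j (1:ℝ)) := by
      classical
      intro s
      induction s using Finset.induction_on with
      | empty => rw [Finset.sum_empty, Finset.prod_empty, hC'.2]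
      | insert j s hj ih => rw [Finset.sum_insert hj, Finset.prod_insert hj, hC'm, ih]
    conv_lhs => rw [e1]
    rw [e2, Finset.prod_congr rfl fun j _ => hk j (a j), ← Complex.exp_sum, ← Finset.sum_mul]
    congr 2
    rw [PiLp.inner_apply]
    push_cast
    refine Finset.sum_congr rfl fun j _ => ?_
    rw [hvk]
    simp
  refine ⟨v, fun a x => ?_⟩
  by_cases ha : a = 0
  · subst ha
    simp only [inner_zero_left, Real.sin_zero, Real.cos_zero, sub_self, mul_zero]
    exact ⟨LfFive_const r 0 x, LfFive_const r 1 x⟩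
  · have e1 := LfFive_parts h1 r ha x
    have e2 := LfFive_gf h1 r ha hc (hder a ha) ⟪a, x⟫
    rw [← hC'.1 a ha, hCv a] at e2
    have e3 : Complex.exp (⟪a, v⟫ * Complex.I) * (Complex.exp (c * ⟪a, x⟫ * Complex.I) - 1) =
        Complex.exp ((⟪a, c • x + v⟫ : ℝ) * Complex.I) - Complex.exp (⟪a, v⟫ * Complex.I) := by
      rw [mul_sub, mul_one, ← Complex.exp_add]
      congr 2
      rw [inner_add_right, inner_smul_right]
      push_cast
      ring
    rw [e3] at e2
    have e4 := congrArg Complex.re e2
    have e5 := congrArg Complex.im e2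
    rw [Complex.sub_re, Complex.exp_ofReal_mul_I_re, Complex.exp_ofReal_mul_I_re] at e4
    rw [Complex.sub_im, Complex.exp_ofReal_mul_I_im, Complex.exp_ofReal_mul_I_im] at e5
    simp only [Complex.mul_re, Complex.mul_im, Complex.ofReal_re, Complex.ofReal_im, Complex.I_re,
      Complex.I_im, mul_zero, mul_one, zero_mul, sub_zero, add_zero, zero_sub, zero_add] at e4 e5
    refine ⟨?_, ?_⟩
    · rw [e1.1, ← e5]
      field_simp
    · rw [e1.2, ← e4]
      field_simp

end Q101Lf
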