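import Mathlib
import Pool.Agent.Q101.LfS

set_option autoImplicit false

/-! # Job LF-9: one-variable consequences of the multiplicative relation -/

open Filter Topology MeasureTheory

namespace Q101Lf

/-- a function on the line which has a derivative of norm one somewhere is not constant -/
theorem LfFour_ne {f : ℝ → ℂ} (h : ∀ᵐ s, ∃ w : ℂ, HasDerivAt f w s ∧ ‖w‖ = 1) :
    ∃ s, f s ≠ f 0 := by
  by_contra hcon
  push Not at hcon
  obtain ⟨s, w, hw, hw1⟩ := h.exists
  have h1 : f = fun _ => f 0 := funext hcon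
  have h2 : HasDerivAt f 0 s := by
    rw [h1]
    exact hasDerivAt_const s (f 0)
  have h3 := hw.unique h2
  rw [h3, norm_zero] at hw1
  exact zero_ne_one hw1

/-- step (1) -/
theorem LfFour_one (h1 : S_ll) {E : Type} [AddCommGroup E] [Module ℝ E] (g : E → ℝ → ℂ)
    (hl : ∀ a, a ≠ 0 → ∀ s t, ‖g a s - g a t‖ ≤ |s - t|)
    (hd : ∀ a, a ≠ 0 → ∀ᵐ s, ∃ w : ℂ, HasDerivAt (g a) w s ∧ ‖w‖ = 1)
    (hm : ∀ a b : E, LinearIndependent ℝ ![a, b] → ∀ (s t : ℝ) (A B C : ℂ), HasDerivAt (g a) A s →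
      HasDerivAt (g b) B t → HasDerivAt (g (a + b)) C (s + t) → ‖A‖ = 1 → ‖B‖ = 1 → C = A * B)
    {a b : E} (hab : LinearIndependent ℝ ![a, b]) {t : ℝ} {B : ℂ} (hB : HasDerivAt (g b) B t)
    (hB1 : ‖B‖ = 1) (s : ℝ) : g (a + b) (s + t) - g (a + b) t = B * (g a s - g a 0) := by
  have ha : a ≠ 0 := hab.ne_zero 0
  have hab0 : a + b ≠ 0 := by
    intro h
    have h' := LinearIndependent.pair_iff.1 hab 1 1 (by rw [one_smul, one_smul, h])
    exact one_ne_zero h'.1
  have h2 := h1.2.1 (fun s => g (a + b) (s + t) - B * g a s) 2 (fun s s' => by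
    have e1 := hl (a + b) hab0 (s + t) (s' + t)
    have e2 := hl a ha s s'
    have e3 : s + t - (s' + t) = s - s' := by ring
    rw [e3] at e1
    calc ‖g (a + b) (s + t) - B * g a s - (g (a + b) (s' + t) - B * g a s')‖ =
        ‖(g (a + b) (s + t) - g (a + b) (s' + t)) - B * (g a s - g a s')‖ := by
          congr 1
          ring
      _ ≤ ‖g (a + b) (s + t) - g (a + b) (s' + t)‖ + ‖B * (g a s - g a s')‖ := norm_sub_le _ _
      _ ≤ 2 * |s - s'| := by
          rw [norm_mul, hB1, one_mul]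
          linarith) (by
    have e1 := (measurePreserving_add_right volume t).quasiMeasurePreserving.ae (hd (a + b) hab0)
    filter_upwards [e1, hd a ha] with s hs hs'
    obtain ⟨w, hw, -⟩ := hs
    obtain ⟨A, hA, hA1⟩ := hs'
    have e2 := hm a b hab s t A B w hA hB hw hA1 hB1
    have e3 := (HasDerivAt.comp_add_const s t hw).sub (hA.const_mul B)
    rw [e2, mul_comm A B, sub_self] at e3
    exact e3) s 0
  have h3 : g (a + b) (s + t) - B * g a s = g (a + b) (0 + t) - B * g a 0 := h2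
  rw [zero_add] at h3
  linear_combination h3

/-- step (2) -/
theorem LfFour_two (h1 : S_ll) {E : Type} [AddCommGroup E] [Module ℝ E] (g : E → ℝ → ℂ)
    (hl : ∀ a, a ≠ 0 → ∀ s t, ‖g a s - g a t‖ ≤ |s - t|)
    (hd : ∀ a, a ≠ 0 → ∀ᵐ s, ∃ w : ℂ, HasDerivAt (g a) w s ∧ ‖w‖ = 1)
    (hm : ∀ a b : E, LinearIndependent ℝ ![a, b] → ∀ (s t : ℝ) (A B C : ℂ), HasDerivAt (g a) A s →
      HasDerivAt (g b) B t → HasDerivAt (g (a + b)) C (s + t) → ‖A‖ = 1 → ‖B‖ = 1 → C = A * B)
    {a b : E} (hab : LinearIndependent ℝ ![a, b]) :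
    ∃ m : ℝ → ℂ, Continuous m ∧ (∀ t, ‖m t‖ = 1) ∧ ∀ t, HasDerivAt (g b) (m t) t := by
  have ha : a ≠ 0 := hab.ne_zero 0
  have hb : b ≠ 0 := hab.ne_zero 1
  have hab0 : a + b ≠ 0 := by
    intro h
    have h' := LinearIndependent.pair_iff.1 hab 1 1 (by rw [one_smul, one_smul, h])
    exact one_ne_zero h'.1
  obtain ⟨s0, hs0⟩ := LfFour_ne (hd a ha)
  have hs1 : g a s0 - g a 0 ≠ 0 := sub_ne_zero.2 hs0
  have hgc : Continuous (g (a + b)) := by
    have h2 : LipschitzWith 1 (g (a + b)) := LipschitzWith.of_dist_le_mul fun s t => by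
      rw [dist_eq_norm, Real.dist_eq, NNReal.coe_one, one_mul]
      exact hl _ hab0 s t
    exact h2.continuous
  set m : ℝ → ℂ := fun t => (g (a + b) (s0 + t) - g (a + b) t) / (g a s0 - g a 0) with hmdef
  have hmc : Continuous m := by
    refine Continuous.div_const ?_ _
    exact (hgc.comp (continuous_const.add continuous_id)).sub hgc
  have hae : ∀ᵐ t, HasDerivAt (g b) (m t) t ∧ ‖m t‖ = 1 := by
    filter_upwards [hd b hb] with t ht
    obtain ⟨B, hB, hB1⟩ := ht
    have h3 := LfFour_one h1 g hl hd hm hab hB hB1 s0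
    have h4 : m t = B := by
      rw [hmdef]
      change (g (a + b) (s0 + t) - g (a + b) t) / (g a s0 - g a 0) = B
      rw [h3, mul_div_assoc, div_self hs1, mul_one]
    rw [h4]
    exact ⟨hB, hB1⟩
  have hm1 : ∀ t, ‖m t‖ = 1 := by
    have h3 : (fun t => ‖m t‖) =ᵐ[volume] fun _ => (1 : ℝ) := by
      filter_upwards [hae] with t ht
      exact ht.2
    have h4 := (Continuous.ae_eq_iff_eq volume hmc.norm continuous_const).1 h3
    exact fun t => congrFun h4 t
  refine ⟨m, hmc, hm1, ?_⟩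
  have hint : ∀ t, HasDerivAt (fun u => ∫ x in (0:ℝ)..u, m x) (m t) t := fun t =>
    (hmc.integral_hasStrictDerivAt 0 t).hasDerivAt
  have hconst := h1.2.1 (fun t => g b t - ∫ x in (0:ℝ)..t, m x) 2 (fun s s' => by
    have e1 := hl b hb s s'
    have e2 : (∫ x in (0:ℝ)..s, m x) - ∫ x in (0:ℝ)..s', m x = ∫ x in s'..s, m x := by
      rw [intervalIntegral.integral_interval_sub_left (hmc.intervalIntegrable _ _)
        (hmc.intervalIntegrable _ _)]
    have e3 : ‖∫ x in s'..s, m x‖ ≤ 1 * |s - s'| :=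
      intervalIntegral.norm_integral_le_of_norm_le_const fun x _ => (hm1 x).le
    calc ‖(g b s - ∫ x in (0:ℝ)..s, m x) - (g b s' - ∫ x in (0:ℝ)..s', m x)‖ =
        ‖(g b s - g b s') - ((∫ x in (0:ℝ)..s, m x) - ∫ x in (0:ℝ)..s', m x)‖ := by
          congr 1
          ring
      _ ≤ ‖g b s - g b s'‖ + ‖(∫ x in (0:ℝ)..s, m x) - ∫ x in (0:ℝ)..s', m x‖ := norm_sub_le _ _
      _ ≤ 2 * |s - s'| := by
          rw [e2]
          linarith) (by
    filter_upwards [hae] with t ht
    have e1 := ht.1.sub (hint t)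
    rw [sub_self] at e1
    exact e1)
  intro t
  have h5 : g b = fun t => (∫ x in (0:ℝ)..t, m x) + (g b 0 - ∫ x in (0:ℝ)..0, m x) := by
    funext t
    have h6 : g b t - ∫ x in (0:ℝ)..t, m x = g b 0 - ∫ x in (0:ℝ)..0, m x := hconst t 0
    rw [← h6]
    ring
  rw [h5]
  exact (hint t).add_const _

theorem four (h1 : S_ll) (h2 : S_char) : S_four := by
  intro E _ _ hpair g hl hd hm
  by_cases hE : ∃ a₀ : E, a₀ ≠ 0
  · obtain ⟨a₀, ha₀⟩ := hE
    have hsymm : ∀ {a b : E}, LinearIndependent ℝ ![a, b] → LinearIndependent ℝ ![b, a] := by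
      intro a b hab
      rw [LinearIndependent.pair_iff] at hab ⊢
      intro s t hst
      have := hab t s (by rw [add_comm]; exact hst)
      exact ⟨this.2, this.1⟩
    -- the derivatives
    have hD : ∀ b : E, b ≠ 0 → ∃ m : ℝ → ℂ, Continuous m ∧ (∀ t, ‖m t‖ = 1) ∧
        ∀ t, HasDerivAt (g b) (m t) t := by
      intro b hb
      obtain ⟨c, hc, -⟩ := hpair b b
      exact LfFour_two h1 g hl hd hm (hsymm (hc hb))
    obtain ⟨D, hDd⟩ : ∃ D : E → ℝ → ℂ, ∀ b, b ≠ 0 → Continuous (D b) ∧ (∀ t, ‖D b t‖ = 1) ∧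
        ∀ t, HasDerivAt (g b) (D b t) t := by
      have hD' : ∀ b : E, ∃ m : ℝ → ℂ, b ≠ 0 → Continuous m ∧ (∀ t, ‖m t‖ = 1) ∧
          ∀ t, HasDerivAt (g b) (m t) t := by
        intro b
        by_cases hb : b = 0
        · exact ⟨fun _ => 1, fun h => absurd hb h⟩
        · obtain ⟨m, hm⟩ := hD b hb
          exact ⟨m, fun _ => hm⟩
      choose D hD'' using hD'
      exact ⟨D, hD''⟩
    have hDne : ∀ b, b ≠ 0 → ∀ t, D b t ≠ 0 := by
      intro b hb t h
      have := (hDd b hb).2.1 t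
      rw [h, norm_zero] at this
      exact zero_ne_one this
    have hmul : ∀ {a b : E}, LinearIndependent ℝ ![a, b] → ∀ s t, D (a + b) (s + t) =
        D a s * D b t := by
      intro a b hab s t
      have ha : a ≠ 0 := hab.ne_zero 0
      have hb : b ≠ 0 := hab.ne_zero 1
      have hab0 : a + b ≠ 0 := by
        intro h
        have h' := LinearIndependent.pair_iff.1 hab 1 1 (by rw [one_smul, one_smul, h])
        exact one_ne_zero h'.1
      exact hm a b hab s t _ _ _ ((hDd a ha).2.2 s) ((hDd b hb).2.2 t)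
        ((hDd (a + b) hab0).2.2 (s + t)) ((hDd a ha).2.1 s) ((hDd b hb).2.1 t)
    -- the quotients agree
    have hq : ∀ {a b : E}, LinearIndependent ℝ ![a, b] → ∀ s, D a s / D a 0 = D b s / D b 0 := by
      intro a b hab s
      have e1 := hmul hab s 0
      have e2 := hmul hab 0 s
      rw [add_zero] at e1
      rw [zero_add, e1] at e2
      rw [div_eq_div_iff (hDne a (hab.ne_zero 0) 0) (hDne b (hab.ne_zero 1) 0), e2, mul_comm]
    have hqq : ∀ a b : E, a ≠ 0 → b ≠ 0 → ∀ s, D a s / D a 0 = D b s / D b 0 := by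
      intro a b ha hb s
      obtain ⟨c, hc1, hc2⟩ := hpair a b
      rw [hq (hc1 ha), hq (hc2 hb)]
    -- the character
    obtain ⟨c, hc⟩ := h2 (fun s => D a₀ s / D a₀ 0) ((hDd a₀ ha₀).1.div_const _) (by
      intro s t
      obtain ⟨b, hb, -⟩ := hpair a₀ a₀
      have hb' := hb ha₀
      have hab0 : a₀ + b ≠ 0 := by
        intro h
        have h' := LinearIndependent.pair_iff.1 hb' 1 1 (by rw [one_smul, one_smul, h])
        exact one_ne_zero h'.1
      have hb0 : b ≠ 0 := hb'.ne_zero 1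
      have e1 := hmul hb' s t
      have e2 := hmul hb' 0 0
      rw [add_zero] at e2
      change D a₀ (s + t) / D a₀ 0 = D a₀ s / D a₀ 0 * (D a₀ t / D a₀ 0)
      rw [hqq a₀ (a₀ + b) ha₀ hab0 (s + t), e1, e2, hqq a₀ b ha₀ hb0 t, mul_div_mul_comm]) (by
      intro s
      change ‖D a₀ s / D a₀ 0‖ = 1
      rw [norm_div, (hDd a₀ ha₀).2.1, (hDd a₀ ha₀).2.1, div_one])
    refine ⟨c, fun a => D a 0, fun a ha => (hDd a ha).2.1 0, fun a ha s => ?_, fun a b hab => ?_⟩
    · have e1 : D a 0 * Complex.exp (c * s * Complex.I) = D a s := by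
        have e2 : D a₀ s / D a₀ 0 = Complex.exp (c * s * Complex.I) := hc s
        rw [← e2, hqq a₀ a ha₀ ha s, mul_div_cancel₀ _ (hDne a ha 0)]
      change HasDerivAt (g a) (D a 0 * Complex.exp (c * s * Complex.I)) s
      rw [e1]
      exact (hDd a ha).2.2 s
    · have e1 := hmul hab 0 0
      rw [add_zero] at e1
      exact e1
  · push Not at hE
    refine ⟨0, fun _ => 1, fun a _ => norm_one, fun a ha => absurd (hE a) ha, fun a b _ => ?_⟩
    rw [one_mul]

end Q101Lf
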