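import Pool.Agent.Q101.LfS

set_option autoImplicit false

/-!
# Lipschitz-free rigidity: job 7, the basic properties of `gf`
-/

open Filter Topology
open scoped RealInnerProductSpace

namespace Q101Lf

lemma lipK_sin_sub {E : Type} [NormedAddCommGroup E] [InnerProductSpace ℝ E] (a : E) (θ : ℝ) :
    LipK ‖a‖ (fun x : E => Real.sin (⟪a, x⟫ - θ)) := by
  intro x y
  refine (Real.abs_sin_sub_sin_le _ _).trans ?_
  rw [sub_sub_sub_cancel_right, ← inner_sub_right]
  exact abs_real_inner_le_norm a (x - y)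

lemma lipK_sin' {E : Type} [NormedAddCommGroup E] [InnerProductSpace ℝ E] (a : E) :
    LipK ‖a‖ (fun x : E => Real.sin ⟪a, x⟫) := by
  have := lipK_sin_sub a 0
  simpa using this

lemma lipK_cos' {E : Type} [NormedAddCommGroup E] [InnerProductSpace ℝ E] (a : E) :
    LipK ‖a‖ (fun x : E => Real.cos ⟪a, x⟫) := by
  intro x y
  refine (Real.abs_cos_sub_cos_le _ _).trans ?_
  rw [← inner_sub_right]
  exact abs_real_inner_le_norm a (x - y)

lemma lipK_cmul {E : Type} [NormedAddCommGroup E] {K : ℝ} {F : E → ℝ} (c : ℝ) (h : LipK K F) :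
    LipK (|c| * K) (fun x => c * F x) := by
  intro x y
  simp only
  rw [← mul_sub, abs_mul, mul_assoc]
  exact mul_le_mul_of_nonneg_left (h x y) (abs_nonneg c)

/-- the sine with a phase -/
lemma R_sin_sub {E : Type} [NormedAddCommGroup E] [InnerProductSpace ℝ E] (r : ROp E) (a : E)
    (θ : ℝ) (x : E) : r.R (fun y => Real.sin (⟪a, y⟫ - θ)) x =
      Real.cos θ * r.R (fun y => Real.sin ⟪a, y⟫) x -
      Real.sin θ * r.R (fun y => Real.cos ⟪a, y⟫) x := by
  have e : (fun y : E => Real.sin (⟪a, y⟫ - θ)) = fun y =>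
      Real.cos θ * Real.sin ⟪a, y⟫ + (-Real.sin θ) * Real.cos ⟪a, y⟫ := by
    funext y
    rw [Real.sin_sub]
    ring
  rw [e, r.add (lipK_cmul (Real.cos θ) (lipK_sin' a)) (lipK_cmul (-Real.sin θ) (lipK_cos' a)),
    r.smul (Real.cos θ) (lipK_sin' a), r.smul (-Real.sin θ) (lipK_cos' a)]
  ring

/-- functions of `⟪a, ·⟫` are mapped to functions of `⟪a, ·⟫` -/
lemma R_dep {E : Type} [NormedAddCommGroup E] [InnerProductSpace ℝ E] (h : S_dir) (r : ROp E)
    (a : E) (ha : a ≠ 0) (P : E → ℝ) (L : ℝ) (hP : LipK L P)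
    (hinv : ∀ e : E, ⟪a, e⟫ = 0 → ∀ y, P (y + e) = P y) (x : E) :
    r.R P x = r.R P ((⟪a, x⟫ / ‖a‖ ^ 2) • a) := by
  have hna : ‖a‖ ^ 2 ≠ 0 := pow_ne_zero _ (norm_ne_zero_iff.2 ha)
  have key : ∀ (e : E), ⟪a, e⟫ = 0 → ∀ x : E, r.R P (x + e) ≤ r.R P x := by
    intro e he x
    have h1 := h E r L 0 P e hP (fun y ρ _ => by
      rw [hinv (ρ • e) (by rw [inner_smul_right, he, mul_zero]) y, sub_self, zero_mul]) x 1 zero_le_one
    rw [one_smul, zero_mul] at h1
    linarith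
  obtain ⟨e, he⟩ : ∃ e : E, e = x - (⟪a, x⟫ / ‖a‖ ^ 2) • a := ⟨_, rfl⟩
  have he0 : ⟪a, e⟫ = 0 := by
    rw [he, inner_sub_right, inner_smul_right, real_inner_self_eq_norm_sq]
    field_simp
    ring
  have e1 : x = (⟪a, x⟫ / ‖a‖ ^ 2) • a + e := by rw [he]; abel
  have h1 := key e he0 ((⟪a, x⟫ / ‖a‖ ^ 2) • a)
  rw [← e1] at h1
  have h2 := key (-e) (by rw [inner_neg_right, he0, neg_zero]) x
  have e2 : x + -e = (⟪a, x⟫ / ‖a‖ ^ 2) • a := by rw [he]; abel
  rw [e2] at h2
  exact le_antisymm h1 h2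

theorem gfp (h : S_dir) : S_gf := by
  intro E _ _ r a ha
  have hna : ‖a‖ ≠ 0 := norm_ne_zero_iff.2 ha
  have hre : ∀ (θ : ℝ) (z : ℂ), (Complex.exp (-(θ * Complex.I)) * z).re =
      Real.cos θ * z.re + Real.sin θ * z.im := by
    intro θ z
    have : Complex.exp (-(θ * Complex.I)) = Complex.exp (((-θ : ℝ) : ℂ) * Complex.I) := by
      congr 1
      push_cast
      ring
    rw [this, Complex.mul_re, Complex.exp_ofReal_mul_I_re, Complex.exp_ofReal_mul_I_im,
      Real.cos_neg, Real.sin_neg]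
    ring
  refine ⟨?_, ?_, ?_⟩
  · intro θ x
    rw [hre, R_sin_sub]
    have e1 := R_dep h r a ha (fun y => Real.sin ⟪a, y⟫) _ (lipK_sin' a) (fun e he y => by
      rw [inner_add_right, he, add_zero]) x
    have e2 := R_dep h r a ha (fun y => Real.cos ⟪a, y⟫) _ (lipK_cos' a) (fun e he y => by
      rw [inner_add_right, he, add_zero]) x
    rw [e1, e2]
    simp only [gf]
    ring
  · intro s t
    obtain ⟨z, hz⟩ : ∃ z : ℂ, z = gf r a s - gf r a t := ⟨_, rfl⟩
    rw [← hz]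
    have e1 : ‖z‖ = (Complex.exp (-((Complex.arg z : ℝ) * Complex.I)) * z).re := by
      have h1 : Complex.exp (-((Complex.arg z : ℝ) * Complex.I)) * z = (‖z‖ : ℂ) := by
        conv_lhs =>
          rw [← Complex.norm_mul_exp_arg_mul_I z]
        rw [Complex.norm_mul_exp_arg_mul_I z]
        have h2 : z = (‖z‖ : ℂ) * Complex.exp (Complex.arg z * Complex.I) :=
          (Complex.norm_mul_exp_arg_mul_I z).symm
        calc Complex.exp (-((Complex.arg z : ℝ) * Complex.I)) * z =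
            Complex.exp (-((Complex.arg z : ℝ) * Complex.I)) *
              ((‖z‖ : ℂ) * Complex.exp (Complex.arg z * Complex.I)) := by rw [← h2]
          _ = (‖z‖ : ℂ) * (Complex.exp (-((Complex.arg z : ℝ) * Complex.I)) *
              Complex.exp (Complex.arg z * Complex.I)) := by ring
          _ = (‖z‖ : ℂ) := by
              rw [← Complex.exp_add, neg_add_cancel, Complex.exp_zero, mul_one]
      rw [h1, Complex.ofReal_re]
    rw [e1, hre]
    obtain ⟨θ, hθ⟩ : ∃ θ : ℝ, θ = Complex.arg z := ⟨_, rfl⟩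
    rw [← hθ]
    have e2 : Real.cos θ * z.re + Real.sin θ * z.im =
        r.R (fun y => Real.sin (⟪a, y⟫ - θ)) ((s / ‖a‖ ^ 2) • a) -
        r.R (fun y => Real.sin (⟪a, y⟫ - θ)) ((t / ‖a‖ ^ 2) • a) := by
      rw [R_sin_sub, R_sin_sub, hz]
      simp only [gf, Complex.sub_re, Complex.sub_im]
      ring
    rw [e2]
    refine (le_abs_self _).trans ((r.lip (lipK_sin_sub a θ) _ _).trans ?_)
    rw [← sub_smul, norm_smul, Real.norm_eq_abs, ← sub_div, abs_div, abs_of_nonneg (sq_nonneg ‖a‖)]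
    have : ‖a‖ * (|s - t| / ‖a‖ ^ 2 * ‖a‖) = |s - t| := by
      field_simp
    rw [this]
  · apply Complex.ext
    · simp only [gf, zero_div, zero_smul, r.zero, Complex.zero_re]
    · simp only [gf, zero_div, zero_smul, r.zero, Complex.zero_im, neg_zero]

end Q101Lf
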