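import Pool.Agent.Q101.LfS

set_option autoImplicit false

/-!
# Lipschitz functions and their derivatives almost everywhere (job LF-1)
-/

open Filter Topology MeasureTheory Set

namespace Q101Lf

theorem LfLL_lip {V : Type} [NormedAddCommGroup V] {f : ℝ → V} {K : ℝ}
    (h : ∀ x y, ‖f x - f y‖ ≤ K * |x - y|) : LipschitzWith K.toNNReal f := by
  apply LipschitzWith.of_dist_le_mul
  intro x y
  rw [dist_eq_norm, dist_eq_norm, Real.norm_eq_abs]
  refine (h x y).trans ?_
  rw [Real.coe_toNNReal']
  exact mul_le_mul_of_nonneg_right (le_max_left _ _) (abs_nonneg _)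

theorem LfLL_ac {V : Type} [NormedAddCommGroup V] {f : ℝ → V} {K : ℝ}
    (h : ∀ x y, ‖f x - f y‖ ≤ K * |x - y|) (a b : ℝ) : AbsolutelyContinuousOnInterval f a b :=
  ((LfLL_lip h).lipschitzOnWith).absolutelyContinuousOnInterval

theorem ll : S_ll := by
  refine ⟨?_, ?_, ?_⟩
  · intro f K M hf hM s t hst
    have hac := LfLL_ac (f := f) (K := K) hf s t
    rw [← hac.integral_deriv_eq_sub]
    have h1 := intervalIntegral.integral_mono_ae hst hac.intervalIntegrable_deriv
      (intervalIntegrable_const (c := M)) hM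
    refine h1.trans (le_of_eq ?_)
    rw [intervalIntegral.integral_const, smul_eq_mul, mul_comm]
  · intro g K hg h0 s t
    have hac := LfLL_ac hg s t
    have h1 : ∀ᵐ x, x ∈ uIcc s t → HasDerivAt g 0 x := by
      filter_upwards [h0] with x hx _
      exact hx
    obtain ⟨C, hC⟩ := hac.const_of_ae_hasDerivAt_zero h1
    rw [hC s left_mem_uIcc, hC t right_mem_uIcc]
  · intro g K hg
    exact (LfLL_lip hg).ae_differentiableAt_real

end Q101Lf
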