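import Mathlib
import Pool.Agent.Q101.LfS

set_option autoImplicit false

/-! # Job LF-8: the multiplicative relation -/

open Filter Topology
open scoped RealInnerProductSpace

namespace Q101Lf

section

variable {E : Type} [NormedAddCommGroup E] [InnerProductSpace ℝ E]

theorem LfMul_solve {a b : E} (h : LinearIndependent ℝ ![a, b]) (p q : ℝ) :
    ∃ x : E, ⟪a, x⟫ = p ∧ ⟪b, x⟫ = q := by
  have hb : b ≠ 0 := h.ne_zero 1
  set Δ : ℝ := ⟪a, a⟫ * ⟪b, b⟫ - ⟪a, b⟫ ^ 2 with hΔ
  have hΔ0 : Δ ≠ 0 := by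
    intro h0
    have h1 : ⟪⟪b, b⟫ • a - ⟪a, b⟫ • b, ⟪b, b⟫ • a - ⟪a, b⟫ • b⟫ = ⟪b, b⟫ * Δ := by
      rw [inner_sub_left, inner_sub_right, inner_sub_right]
      simp only [inner_smul_left, inner_smul_right, conj_trivial]
      rw [real_inner_comm a b, hΔ]
      ring
    rw [h0, mul_zero] at h1
    have h2 := inner_self_eq_zero.1 h1
    rw [sub_eq_add_neg, ← neg_smul] at h2
    have h3 := LinearIndependent.pair_iff.1 h _ _ h2
    exact hb (inner_self_eq_zero.1 h3.1)
  refine ⟨((p * ⟪b, b⟫ - q * ⟪a, b⟫) / Δ) • a + ((q * ⟪a, a⟫ - p * ⟪a, b⟫) / Δ) • b, ?_, ?_⟩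
  · rw [inner_add_right, inner_smul_right, inner_smul_right, div_mul_eq_mul_div,
      div_mul_eq_mul_div, ← add_div, div_eq_iff hΔ0, hΔ]
    ring
  · rw [inner_add_right, inner_smul_right, inner_smul_right, div_mul_eq_mul_div,
      div_mul_eq_mul_div, ← add_div, div_eq_iff hΔ0, hΔ, real_inner_comm a b]
    ring

theorem LfMul_lip (a : E) (θ : ℝ) : LipK ‖a‖ (fun y => Real.sin (⟪a, y⟫ - θ)) := by
  intro x y
  calc |Real.sin (⟪a, x⟫ - θ) - Real.sin (⟪a, y⟫ - θ)| ≤ |(⟪a, x⟫ - θ) - (⟪a, y⟫ - θ)| :=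
        Real.abs_sin_sub_sin_le _ _
    _ = |⟪a, x - y⟫| := by rw [inner_sub_right]; congr 1; ring
    _ ≤ ‖a‖ * ‖x - y‖ := abs_real_inner_le_norm a (x - y)

end

/-- a bound for a derivative from the right -/
theorem LfMul_deriv_le {f : ℝ → ℝ} {f' D : ℝ} (hf : HasDerivAt f f' 0)
    (h : ∀ ρ, 0 ≤ ρ → f ρ - f 0 ≤ D * ρ) : f' ≤ D := by
  have h1 := hf.tendsto_slope_zero_right
  refine le_of_tendsto h1 ?_
  filter_upwards [self_mem_nhdsWithin] with ρ hρ
  have hρ0 : 0 < ρ := hρ
  have h2 := h ρ hρ0.le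
  rw [zero_add, smul_eq_mul, inv_mul_le_iff₀ hρ0]
  linarith

theorem LfMul_re {g : ℝ → ℂ} {g' : ℂ} {s k : ℝ} (z : ℂ) (hg : HasDerivAt g g' s) :
    HasDerivAt (fun ρ : ℝ => (z * g (s + k * ρ)).re) (k * (z * g').re) 0 := by
  have h1 : HasDerivAt (fun ρ : ℝ => s + k * ρ) k 0 := by
    have := ((hasDerivAt_id (0:ℝ)).const_mul k).const_add s
    simpa using this
  have h0 : s + k * 0 = s := by ring
  have h2 : HasDerivAt g g' ((fun ρ : ℝ => s + k * ρ) 0) := by
    change HasDerivAt g g' (s + k * 0)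
    rw [h0]
    exact hg
  have h3 : HasDerivAt (fun ρ : ℝ => g (s + k * ρ)) (k • g') 0 :=
    HasDerivAt.scomp (𝕜 := ℝ) (𝕜' := ℝ) (0:ℝ) h2 h1
  have h4 := (h3.const_mul z)
  have h5 := Complex.reCLM.hasFDerivAt.comp_hasDerivAt (0:ℝ) h4
  have h6 : Complex.reCLM (z * k • g') = k * (z * g').re := by
    simp
    ring
  rw [h6] at h5
  exact h5

theorem mulrel (h1 : S_dir) (h2 : S_gf) (h3 : S_trig) : S_mul := by
  intro E _ _ r a b hab s t A B C hA hB hC hA1 hB1
  have ha : a ≠ 0 := hab.ne_zero 0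
  have hb : b ≠ 0 := hab.ne_zero 1
  have hab0 : a + b ≠ 0 := by
    intro h
    have h' := LinearIndependent.pair_iff.1 hab 1 1 (by rw [one_smul, one_smul, h])
    exact one_ne_zero h'.1
  obtain ⟨e, he1, he2⟩ := LfMul_solve hab 1 1
  obtain ⟨x, hx1, hx2⟩ := LfMul_solve hab s t
  -- the main inequality
  have key : ∀ M α β γ : ℝ, 0 < M →
      M * (Complex.exp (-(α * Complex.I)) * A).re + M * (Complex.exp (-(β * Complex.I)) * B).re +
        2 * (Complex.exp (-(γ * Complex.I)) * C).re ≤
      2 * M + 2 * Real.cos (α + β - γ) + Real.pi ^ 2 / M := by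
    intro M α β γ hM
    set D := 2 * M + 2 * Real.cos (α + β - γ) + Real.pi ^ 2 / M with hD
    set P : E → ℝ := fun y => (M * Real.sin (⟪a, y⟫ - α) + M * Real.sin (⟪b, y⟫ - β)) +
      Real.sin (⟪a + b, y⟫ - γ) with hP
    have hl1 : LipK (M * ‖a‖) (fun y => M * Real.sin (⟪a, y⟫ - α)) := by
      intro x y
      have := LfMul_lip a α x y
      rw [← mul_sub, abs_mul, abs_of_pos hM, mul_assoc]
      exact mul_le_mul_of_nonneg_left this hM.le
    have hl2 : LipK (M * ‖b‖) (fun y => M * Real.sin (⟪b, y⟫ - β)) := by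
      intro x y
      have := LfMul_lip b β x y
      rw [← mul_sub, abs_mul, abs_of_pos hM, mul_assoc]
      exact mul_le_mul_of_nonneg_left this hM.le
    have hadd : ∀ {K L : ℝ} {F G : E → ℝ}, LipK K F → LipK L G →
        LipK (K + L) (fun y => F y + G y) := by
      intro K L F G hF hG x y
      have e1 := hF x y
      have e2 := hG x y
      calc |F x + G x - (F y + G y)| = |(F x - F y) + (G x - G y)| := by congr 1; ring
        _ ≤ |F x - F y| + |G x - G y| := abs_add_le _ _
        _ ≤ (K + L) * ‖x - y‖ := by rw [add_mul]; linarith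
    have hl12 := hadd hl1 hl2
    have hl3 := LfMul_lip (a + b) γ
    have hlP : LipK (M * ‖a‖ + M * ‖b‖ + ‖a + b‖) P := hadd hl12 hl3
    have hbd : ∀ y : E, ∀ ρ : ℝ, 0 ≤ ρ → P (y + ρ • e) - P y ≤ D * ρ := by
      intro y ρ hρ
      set f : ℝ → ℝ := fun ρ => (M * Real.sin (⟪a, y⟫ + ρ - α) + M * Real.sin (⟪b, y⟫ + ρ - β)) +
        Real.sin (⟪a + b, y⟫ + 2 * ρ - γ) with hf
      have hf' : ∀ ρ, HasDerivAt f ((M * Real.cos (⟪a, y⟫ + ρ - α) +
          M * Real.cos (⟪b, y⟫ + ρ - β)) + 2 * Real.cos (⟪a + b, y⟫ + 2 * ρ - γ)) ρ := by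
        intro ρ
        have e1 : HasDerivAt (fun ρ : ℝ => ⟪a, y⟫ + ρ - α) 1 ρ :=
          ((hasDerivAt_id ρ).const_add _).sub_const _
        have e2 : HasDerivAt (fun ρ : ℝ => ⟪b, y⟫ + ρ - β) 1 ρ :=
          ((hasDerivAt_id ρ).const_add _).sub_const _
        have e3 : HasDerivAt (fun ρ : ℝ => ⟪a + b, y⟫ + 2 * ρ - γ) 2 ρ := by
          have := (((hasDerivAt_id ρ).const_mul 2).const_add ⟪a + b, y⟫).sub_const γ
          simpa using this
        have e4 := ((e1.sin.const_mul M).add (e2.sin.const_mul M)).add e3.sin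
        refine e4.congr_deriv ?_
        ring
      have h4 := image_sub_le_mul_sub_of_deriv_le (f := f) (C := D)
        (fun ρ => (hf' ρ).differentiableAt) (fun ρ => by
          rw [(hf' ρ).deriv]
          have h5 := h3 M (⟪a, y⟫ + ρ - α) (⟪b, y⟫ + ρ - β) (α + β - γ) hM
          have h6 : (⟪a, y⟫ + ρ - α) + (⟪b, y⟫ + ρ - β) + (α + β - γ) =
              ⟪a + b, y⟫ + 2 * ρ - γ := by
            rw [inner_add_left]
            ring
          rw [h6] at h5
          exact h5) hρ
      have h7 : P (y + ρ • e) = f ρ := by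
        simp only [hP, hf]
        rw [inner_add_right, inner_add_right, inner_add_right, inner_smul_right, inner_smul_right,
          inner_smul_right, inner_add_left (x := a) (y := b) (z := e), he1, he2]
        ring_nf
      have h8 : P y = f 0 := by
        simp only [hP, hf]
        ring_nf
      rw [h7, h8]
      linarith
    have h9 := h1 E r _ D P e hlP hbd x
    have hRP : ∀ ρ : ℝ, r.R P (x + ρ • e) =
        M * (Complex.exp (-(α * Complex.I)) * gf r a (s + 1 * ρ)).re +
        M * (Complex.exp (-(β * Complex.I)) * gf r b (t + 1 * ρ)).re +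
        (Complex.exp (-(γ * Complex.I)) * gf r (a + b) ((s + t) + 2 * ρ)).re := by
      intro ρ
      rw [hP, r.add hl12 hl3, r.add hl1 hl2, r.smul M (LfMul_lip a α), r.smul M (LfMul_lip b β),
        (h2 E r a ha).1, (h2 E r b hb).1, (h2 E r (a + b) hab0).1, inner_add_right,
        inner_add_right, inner_add_right, inner_smul_right, inner_smul_right, inner_smul_right,
        inner_add_left (x := a) (y := b) (z := e), inner_add_left (x := a) (y := b) (z := x), he1,
        he2, hx1, hx2]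
      have e1 : s + ρ * 1 = s + 1 * ρ := by ring
      have e2 : t + ρ * 1 = t + 1 * ρ := by ring
      have e3 : s + t + ρ * (1 + 1) = s + t + 2 * ρ := by ring
      rw [e1, e2, e3]
    have hder : HasDerivAt (fun ρ : ℝ => r.R P (x + ρ • e))
        (M * (1 * (Complex.exp (-(α * Complex.I)) * A).re) +
        M * (1 * (Complex.exp (-(β * Complex.I)) * B).re) +
        2 * (Complex.exp (-(γ * Complex.I)) * C).re) 0 := by
      have h10 := (((LfMul_re (k := 1) (Complex.exp (-(α * Complex.I))) hA).const_mul M).add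
        ((LfMul_re (k := 1) (Complex.exp (-(β * Complex.I))) hB).const_mul M)).add
        (LfMul_re (k := 2) (Complex.exp (-(γ * Complex.I))) hC)
      refine h10.congr_of_eventuallyEq (Filter.Eventually.of_forall fun ρ => ?_)
      exact hRP ρ
    have h11 := LfMul_deriv_le hder (D := D) (fun ρ hρ => by
      have := h9 ρ hρ
      simpa using this)
    rw [one_mul, one_mul] at h11
    exact h11
  -- the choice of the angles
  have hAe : A = Complex.exp (A.arg * Complex.I) := by
    have := Complex.norm_mul_exp_arg_mul_I A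
    rw [hA1, Complex.ofReal_one, one_mul] at this
    exact this.symm
  have hBe : B = Complex.exp (B.arg * Complex.I) := by
    have := Complex.norm_mul_exp_arg_mul_I B
    rw [hB1, Complex.ofReal_one, one_mul] at this
    exact this.symm
  have hre : ∀ γ : ℝ, (Complex.exp (-(γ * Complex.I)) * C).re ≤
      (Complex.exp (-(γ * Complex.I)) * (A * B)).re := by
    intro γ
    have h4 : (Complex.exp (-(γ * Complex.I)) * (A * B)).re = Real.cos (A.arg + B.arg - γ) := by
      rw [hAe, hBe, ← Complex.exp_add, ← Complex.exp_add, ← hAe, ← hBe]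
      have e1 : -((γ : ℂ) * Complex.I) + ((A.arg : ℂ) * Complex.I + (B.arg : ℂ) * Complex.I) =
          ((A.arg + B.arg - γ : ℝ) : ℂ) * Complex.I := by
        push_cast
        ring
      rw [e1, Complex.exp_ofReal_mul_I_re]
    rw [h4]
    have h5 : ∀ M : ℝ, 0 < M → (Complex.exp (-(γ * Complex.I)) * C).re -
        Real.cos (A.arg + B.arg - γ) ≤ Real.pi ^ 2 / 2 / M := by
      intro M hM
      have h6 := key M A.arg B.arg γ hM
      have h7 : (Complex.exp (-(A.arg * Complex.I)) * A).re = 1 := by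
        conv_lhs => rw [hAe]
        rw [← Complex.exp_add, ← hAe, neg_add_cancel, Complex.exp_zero, Complex.one_re]
      have h8 : (Complex.exp (-(B.arg * Complex.I)) * B).re = 1 := by
        conv_lhs => rw [hBe]
        rw [← Complex.exp_add, ← hBe, neg_add_cancel, Complex.exp_zero, Complex.one_re]
      rw [h7, h8] at h6
      have h9 : Real.pi ^ 2 / M = 2 * (Real.pi ^ 2 / 2 / M) := by
        field_simp
      linarith
    by_contra hcon
    push Not at hcon
    set δ := (Complex.exp (-(γ * Complex.I)) * C).re - Real.cos (A.arg + B.arg - γ) with hδ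
    have hδ0 : 0 < δ := by linarith
    have hpi : 0 < Real.pi ^ 2 := by positivity
    have h6 := h5 (Real.pi ^ 2 / δ) (by positivity)
    have h7 : Real.pi ^ 2 / 2 / (Real.pi ^ 2 / δ) = δ / 2 := by
      field_simp
    rw [h7] at h6
    linarith
  set z := C - A * B with hz
  have h12 := hre z.arg
  have h13 : (Complex.exp (-(z.arg * Complex.I)) * z).re = ‖z‖ := by
    have h14 := Complex.norm_mul_exp_arg_mul_I z
    have h17 : Complex.exp (-(z.arg * Complex.I)) * z = (‖z‖ : ℂ) := by
      calc Complex.exp (-(z.arg * Complex.I)) * z =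
          Complex.exp (-(z.arg * Complex.I)) * (‖z‖ * Complex.exp (z.arg * Complex.I)) := by
            rw [h14]
        _ = ‖z‖ * (Complex.exp (z.arg * Complex.I) * Complex.exp (-(z.arg * Complex.I))) := by
            ring
        _ = ‖z‖ := by rw [← Complex.exp_add, add_neg_cancel, Complex.exp_zero, mul_one]
    rw [h17, Complex.ofReal_re]
  have h15 : ‖z‖ ≤ 0 := by
    rw [← h13, hz, mul_sub, Complex.sub_re]
    rw [← hz]
    linarith
  have h16 : z = 0 := norm_le_zero_iff.1 h15
  exact sub_eq_zero.1 h16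

end Q101Lf
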