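import Pool.Agent.Q101.LfS

set_option autoImplicit false

/-!
# Trigonometric functions separate (smooth case)
-/

open Filter Topology MeasureTheory
open scoped RealInnerProductSpace FourierTransform SchwartzMap

namespace Q101Lf

namespace LfSepa

variable {E : Type} [NormedAddCommGroup E] [InnerProductSpace ℝ E]

lemma lip_cos (a : E) : LipK ‖a‖ (fun y => Real.cos ⟪a, y⟫) := by
  intro x y
  have h1 : |Real.cos ⟪a, x⟫ - Real.cos ⟪a, y⟫| ≤ |⟪a, x⟫ - ⟪a, y⟫| := by
    have := Real.lipschitzWith_cos.dist_le_mul ⟪a, x⟫ ⟪a, y⟫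
    simpa [Real.dist_eq] using this
  refine h1.trans ?_
  rw [← inner_sub_right]
  exact abs_real_inner_le_norm a (x - y)

lemma lip_sin (a : E) : LipK ‖a‖ (fun y => Real.sin ⟪a, y⟫) := by
  intro x y
  have h1 : |Real.sin ⟪a, x⟫ - Real.sin ⟪a, y⟫| ≤ |⟪a, x⟫ - ⟪a, y⟫| := by
    have := Real.lipschitzWith_sin.dist_le_mul ⟪a, x⟫ ⟪a, y⟫
    simpa [Real.dist_eq] using this
  refine h1.trans ?_
  rw [← inner_sub_right]
  exact abs_real_inner_le_norm a (x - y)

/-- the exponential sum of a finite measure is small -/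
lemma exp_sum_le (μ : (E → ℝ) → ℝ) (ν : E →₀ ℝ) (ε : ℝ)
    (hν : ∀ (K : ℝ) (F : E → ℝ), LipK K F → |μ F - ν.sum fun m a => a * F m| ≤ ε * K)
    (hs : ∀ a, μ (fun y => Real.sin ⟪a, y⟫) = 0) (hc : ∀ a, μ (fun y => Real.cos ⟪a, y⟫) = 0)
    (a : E) :
    ‖∑ m ∈ ν.support, (ν m : ℂ) * Complex.exp ((⟪a, m⟫ : ℝ) * Complex.I)‖ ≤ 2 * (ε * ‖a‖) := by
  have h1 := hν _ _ (lip_cos a)
  have h2 := hν _ _ (lip_sin a)
  rw [hc a, zero_sub, abs_neg, Finsupp.sum] at h1
  rw [hs a, zero_sub, abs_neg, Finsupp.sum] at h2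
  have h3 : ∑ m ∈ ν.support, (ν m : ℂ) * Complex.exp ((⟪a, m⟫ : ℝ) * Complex.I) =
      ((∑ m ∈ ν.support, ν m * Real.cos ⟪a, m⟫ : ℝ) : ℂ) +
        ((∑ m ∈ ν.support, ν m * Real.sin ⟪a, m⟫ : ℝ) : ℂ) * Complex.I := by
    push_cast
    rw [Finset.sum_mul, ← Finset.sum_add_distrib]
    refine Finset.sum_congr rfl fun m _ => ?_
    rw [Complex.exp_mul_I]
    ring
  rw [h3]
  refine (norm_add_le _ _).trans ?_
  rw [norm_mul, Complex.norm_I, mul_one, Complex.norm_real, Complex.norm_real, Real.norm_eq_abs,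
    Real.norm_eq_abs]
  linarith

lemma inversion {d : ℕ} (F : EuclideanSpace ℝ (Fin d) → ℝ) (hF : ContDiff ℝ (⊤ : ℕ∞) F)
    (hcs : HasCompactSupport F) :
    ∃ g : 𝓢(EuclideanSpace ℝ (Fin d), ℂ), ∀ y, (F y : ℂ) =
      ∫ ξ, Complex.exp ((⟪(2 * Real.pi) • ξ, y⟫ : ℝ) * Complex.I) * g ξ := by
  have hcs' : HasCompactSupport (fun y => (F y : ℂ)) := hcs.comp_left Complex.ofReal_zero
  have hF' : ContDiff ℝ (⊤ : ℕ∞) (fun y => (F y : ℂ)) := Complex.ofRealCLM.contDiff.comp hF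
  set f : 𝓢(EuclideanSpace ℝ (Fin d), ℂ) := hcs'.toSchwartzMap hF' with hf
  refine ⟨𝓕 f, fun y => ?_⟩
  have h1 : 𝓕⁻ (𝓕 f) = f := FourierTransform.fourierInv_fourier_eq f
  have h2 : (𝓕⁻ (𝓕 f)) y = (F y : ℂ) := by rw [h1]; rfl
  rw [← h2, SchwartzMap.fourierInv_coe, Real.fourierInv_eq']
  refine integral_congr_ae (Eventually.of_forall fun ξ => ?_)
  simp only [smul_eq_mul]
  rw [real_inner_smul_left]

end LfSepa

open LfSepa in
/-- job 11: separation by trigonometric functions, for smooth compactly supported functions. -/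
theorem sepa : S_sepa := by
  intro d μ hμ hs hc F hF hcs
  obtain ⟨g, hg⟩ := inversion F hF hcs
  -- Lipschitz constant of F
  obtain ⟨K, hK⟩ : ∃ K : NNReal, LipschitzWith K F :=
    ContDiff.lipschitzWith_of_hasCompactSupport hcs hF (by simp)
  have hLip : LipK (K : ℝ) F := by
    intro x y
    have := hK.dist_le_mul x y
    rwa [Real.dist_eq, dist_eq_norm] at this
  set C0 : ℝ := ∫ ξ, ‖ξ‖ * ‖g ξ‖ with hC0
  have hint : Integrable (fun ξ => ‖ξ‖ * ‖g ξ‖) := by
    simpa using g.integrable_pow_mul volume 1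
  have hC0n : 0 ≤ C0 := integral_nonneg fun ξ => by positivity
  have key : ∀ ε : ℝ, 0 < ε → |μ F| ≤ ε * (K + 4 * Real.pi * C0) := by
    intro ε hε
    obtain ⟨ν, -, hν⟩ := hμ ε hε
    have h1 := hν K F hLip
    have hint2 : ∀ m : EuclideanSpace ℝ (Fin d), Integrable (fun ξ =>
        (ν m : ℂ) * (Complex.exp ((⟪(2 * Real.pi) • ξ, m⟫ : ℝ) * Complex.I) * g ξ)) := by
      intro m
      refine Integrable.const_mul ?_ _
      refine (g.integrable (μ := volume)).bdd_mul (c := 1) ?_ ?_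
      · refine Continuous.aestronglyMeasurable ?_
        fun_prop
      · refine Eventually.of_forall fun ξ => ?_
        rw [Complex.norm_exp_ofReal_mul_I]
    have h2 : ((ν.sum fun m a => a * F m : ℝ) : ℂ) =
        ∫ ξ, (∑ m ∈ ν.support, (ν m : ℂ) *
          Complex.exp ((⟪(2 * Real.pi) • ξ, m⟫ : ℝ) * Complex.I)) * g ξ := by
      rw [Finsupp.sum]
      push_cast
      have : ∀ m ∈ ν.support, (ν m : ℂ) * (F m : ℂ) = ∫ ξ, (ν m : ℂ) *
          (Complex.exp ((⟪(2 * Real.pi) • ξ, m⟫ : ℝ) * Complex.I) * g ξ) := by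
        intro m _
        rw [hg m, integral_const_mul]
      rw [Finset.sum_congr rfl this, ← integral_finsetSum _ fun m _ => hint2 m]
      refine integral_congr_ae (Eventually.of_forall fun ξ => ?_)
      simp only
      rw [Finset.sum_mul]
      refine Finset.sum_congr rfl fun m _ => ?_
      ring
    have h3 : |ν.sum fun m a => a * F m| ≤ ε * (4 * Real.pi * C0) := by
      have h4 : |ν.sum fun m a => a * F m| = ‖((ν.sum fun m a => a * F m : ℝ) : ℂ)‖ := by
        rw [Complex.norm_real, Real.norm_eq_abs]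
      rw [h4, h2]
      calc ‖∫ ξ, (∑ m ∈ ν.support, (ν m : ℂ) *
          Complex.exp ((⟪(2 * Real.pi) • ξ, m⟫ : ℝ) * Complex.I)) * g ξ‖
          ≤ ∫ ξ, (4 * Real.pi * ε) * (‖ξ‖ * ‖g ξ‖) := by
            refine norm_integral_le_of_norm_le (hint.const_mul _) ?_
            refine Eventually.of_forall fun ξ => ?_
            rw [norm_mul]
            have h5 := exp_sum_le μ ν ε hν hs hc ((2 * Real.pi) • ξ)
            rw [norm_smul, Real.norm_eq_abs, abs_of_pos (by positivity)] at h5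
            calc _ ≤ (2 * (ε * (2 * Real.pi * ‖ξ‖))) * ‖g ξ‖ :=
                  mul_le_mul_of_nonneg_right h5 (norm_nonneg _)
              _ = _ := by ring
        _ = ε * (4 * Real.pi * C0) := by
            rw [integral_const_mul, hC0]; ring
    have h6 : |μ F| ≤ |μ F - ν.sum fun m a => a * F m| + |ν.sum fun m a => a * F m| := by
      have := abs_add_le (μ F - ν.sum fun m a => a * F m) (ν.sum fun m a => a * F m)
      simpa using this
    calc |μ F| ≤ ε * K + ε * (4 * Real.pi * C0) := h6.trans (add_le_add h1 h3)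
      _ = _ := by ring
  have hA : 0 ≤ (K : ℝ) + 4 * Real.pi * C0 := by positivity
  have h7 : |μ F| ≤ 0 := by
    refine le_of_forall_pos_le_add fun δ hδ => ?_
    rw [zero_add]
    have h8 := key (δ / ((K : ℝ) + 4 * Real.pi * C0 + 1)) (by positivity)
    refine h8.trans ?_
    rw [div_mul_eq_mul_div, div_le_iff₀ (by positivity)]
    nlinarith
  exact abs_eq_zero.1 (le_antisymm h7 (abs_nonneg _))

end Q101Lf
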