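import Pool.Agent.Q101.LfS

set_option autoImplicit false

/-! # Approximation of Lipschitz functions by smooth compactly supported ones -/

open Filter Topology MeasureTheory
open scoped RealInnerProductSpace Convolution

namespace Q101Lf

theorem sepb_min {E : Type} [NormedAddCommGroup E] {K : ℝ} {f g : E → ℝ} (hf : LipK K f)
    (hg : LipK K g) : LipK K (fun x => min (f x) (g x)) := fun x y =>
  (abs_min_sub_min_le_max _ _ _ _).trans (max_le (hf x y) (hg x y))

theorem sepb_max {E : Type} [NormedAddCommGroup E] {K : ℝ} {f g : E → ℝ} (hf : LipK K f)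
    (hg : LipK K g) : LipK K (fun x => max (f x) (g x)) := fun x y =>
  (abs_max_sub_max_le_max _ _ _ _).trans (max_le (hf x y) (hg x y))

theorem sepb_neg {E : Type} [NormedAddCommGroup E] {K : ℝ} {f : E → ℝ} (hf : LipK K f) :
    LipK K (fun x => - f x) := by
  intro x y
  have h : (-f x - -f y) = -(f x - f y) := by ring
  change |(-f x - -f y)| ≤ _
  rw [h, abs_neg]
  exact hf x y

theorem sepb_cont {E : Type} [NormedAddCommGroup E] {K : ℝ} {f : E → ℝ}
    (hf : LipK K f) : Continuous f := by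
  refine (LipschitzWith.of_dist_le_mul (K := K.toNNReal) fun x y => ?_).continuous
  rw [Real.dist_eq, dist_eq_norm]
  exact (hf x y).trans (mul_le_mul_of_nonneg_right (Real.le_coe_toNNReal K) (norm_nonneg _))

/-- The weight. -/
noncomputable def sepbW {E : Type} [NormedAddCommGroup E] (K : ℝ) (n : ℕ) (y : E) : ℝ :=
  K * max (2 * n - ‖y‖) 0

theorem sepbW_lip {E : Type} [NormedAddCommGroup E] {K : ℝ} (hK : 0 ≤ K) (n : ℕ) :
    LipK K (sepbW (E := E) K n) := by
  intro x y
  unfold sepbW
  rw [← mul_sub, abs_mul, abs_of_nonneg hK]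
  refine mul_le_mul_of_nonneg_left ?_ hK
  refine (abs_max_sub_max_le_abs _ _ _).trans ?_
  have h : (2 * (n : ℝ) - ‖x‖ - (2 * n - ‖y‖)) = ‖y‖ - ‖x‖ := by ring
  rw [h, abs_sub_comm]
  exact abs_norm_sub_norm_le x y

/-- The truncation. -/
noncomputable def sepbF {E : Type} [NormedAddCommGroup E] (K : ℝ) (F : E → ℝ) (n : ℕ) (y : E) : ℝ :=
  max (min (F y) (sepbW K n y)) (-(sepbW K n y))

theorem sepbF_lip {E : Type} [NormedAddCommGroup E] {K : ℝ} (hK : 0 ≤ K) {F : E → ℝ}
    (hF : LipK K F) (n : ℕ) : LipK K (sepbF K F n) :=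
  sepb_max (sepb_min hF (sepbW_lip hK n)) (sepb_neg (sepbW_lip hK n))

theorem sepbF_eq {E : Type} [NormedAddCommGroup E] {K : ℝ} (hK : 0 ≤ K) {F : E → ℝ}
    (hF : LipK K F) (h0 : F 0 = 0) (n : ℕ) (y : E) (hy : ‖y‖ ≤ n) : sepbF K F n y = F y := by
  have h1 := hF y 0
  rw [h0, sub_zero, sub_zero, abs_le] at h1
  have h2 : K * ‖y‖ ≤ sepbW K n y := by
    unfold sepbW
    refine mul_le_mul_of_nonneg_left (le_max_of_le_left ?_) hK
    linarith
  unfold sepbF
  rw [min_eq_left (by linarith), max_eq_left (by linarith)]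

theorem sepbF_supp {E : Type} [NormedAddCommGroup E] [ProperSpace E] {K : ℝ} {F : E → ℝ}
    (n : ℕ) : HasCompactSupport (sepbF K F n) := by
  refine HasCompactSupport.intro (isCompact_closedBall (0 : E) (2 * n)) fun y hy => ?_
  have h1 : 2 * (n : ℝ) < ‖y‖ := by
    simpa [Metric.mem_closedBall, dist_zero_right] using hy
  have h2 : sepbW K n y = 0 := by
    unfold sepbW
    rw [max_eq_right (by linarith), mul_zero]
  unfold sepbF
  rw [h2, neg_zero]
  exact max_eq_right (min_le_right _ _)

section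
variable {E : Type} [NormedAddCommGroup E] [InnerProductSpace ℝ E] [FiniteDimensional ℝ E]
  [MeasurableSpace E] [BorelSpace E]

/-- The bumps. -/
noncomputable def sepbB (E : Type) [NormedAddCommGroup E] [InnerProductSpace ℝ E] (n : ℕ) :
    ContDiffBump (0 : E) where
  rIn := 1 / (2 * (n + 1))
  rOut := 1 / (n + 1)
  rIn_pos := by positivity
  rIn_lt_rOut := by
    apply one_div_lt_one_div_of_lt
    · positivity
    · have : (0 : ℝ) < n + 1 := by positivity
      linarith

/-- The mollification. -/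
noncomputable def sepbG (μ : Measure E) (g : E → ℝ) (n : ℕ) : E → ℝ :=
  ((sepbB E n).normed μ ⋆[ContinuousLinearMap.lsmul ℝ ℝ, μ] g)

theorem sepbG_lip (μ : Measure E) [μ.IsAddHaarMeasure] {K : ℝ} {g : E → ℝ}
    (hg : LipK K g) (n : ℕ) : LipK K (sepbG μ g n) := by
  intro x y
  set φ := (sepbB E n).normed μ with hφ
  have hφc : HasCompactSupport φ := (sepbB E n).hasCompactSupport_normed
  have hφn : ∀ t, 0 ≤ φ t := fun t => (sepbB E n).nonneg_normed t
  have hφco : Continuous φ := (sepbB E n).continuous_normed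
  have hφi : ∫ t, φ t ∂μ = 1 := (sepbB E n).integral_normed
  have hgc := sepb_cont hg
  have hint : ∀ z : E, Integrable (fun t => φ t * g (z - t)) μ := by
    intro z
    refine Continuous.integrable_of_hasCompactSupport
      (hφco.mul (hgc.comp (continuous_const.sub continuous_id))) hφc.mul_right
  have h1 : ∀ z, sepbG μ g n z = ∫ t, φ t * g (z - t) ∂μ := fun z => rfl
  rw [h1, h1, ← integral_sub (hint x) (hint y)]
  have h2 : ∫ t, φ t * (K * ‖x - y‖) ∂μ = K * ‖x - y‖ := by
    rw [integral_mul_const, hφi, one_mul]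
  rw [← h2, ← Real.norm_eq_abs]
  refine norm_integral_le_of_norm_le
    ((hφco.integrable_of_hasCompactSupport hφc).mul_const _) (Eventually.of_forall fun t => ?_)
  rw [← mul_sub, Real.norm_eq_abs, abs_mul, abs_of_nonneg (hφn t)]
  refine mul_le_mul_of_nonneg_left ?_ (hφn t)
  have h3 := hg (x - t) (y - t)
  rwa [sub_sub_sub_cancel_right] at h3

theorem sepbG_dist (μ : Measure E) [μ.IsAddHaarMeasure] {K : ℝ} (hK : 0 ≤ K) {g : E → ℝ}
    (hg : LipK K g) (n : ℕ) (x : E) : |sepbG μ g n x - g x| ≤ K * (1 / (n + 1)) := by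
  have h := ContDiffBump.dist_normed_convolution_le (φ := sepbB E n) (μ := μ) (x₀ := x) (g := g)
    (ε := K * (1 / (n + 1))) (sepb_cont hg).aestronglyMeasurable (fun y hy => ?_)
  · rwa [Real.dist_eq] at h
  · rw [Real.dist_eq]
    refine (hg y x).trans (mul_le_mul_of_nonneg_left ?_ hK)
    rw [Metric.mem_ball, dist_eq_norm] at hy
    exact hy.le

end

theorem sepb : S_sepb := by
  intro d F K hK hF h0
  refine ⟨fun n => sepbG volume (sepbF K F n) n, fun n => ?_, fun n => ?_, fun n => ?_,
    fun y => ?_⟩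
  · refine HasCompactSupport.contDiff_convolution_left _
      (sepbB _ n).hasCompactSupport_normed (sepbB _ n).contDiff_normed
      (sepb_cont (sepbF_lip hK hF n)).locallyIntegrable
  · exact HasCompactSupport.convolution _ (sepbB _ n).hasCompactSupport_normed (sepbF_supp n)
  · exact sepbG_lip _ (sepbF_lip hK hF n) n
  · obtain ⟨N, hN⟩ := exists_nat_ge ‖y‖
    have h1 : Tendsto (fun n : ℕ => K * (1 / ((n : ℝ) + 1))) atTop (𝓝 0) := by
      have := (tendsto_one_div_add_atTop_nhds_zero_nat (𝕜 := ℝ)).const_mul K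
      rwa [mul_zero] at this
    rw [tendsto_iff_norm_sub_tendsto_zero]
    refine squeeze_zero' (Eventually.of_forall fun n => norm_nonneg _) ?_ h1
    filter_upwards [eventually_ge_atTop N] with n hn
    have h2 : ‖y‖ ≤ n := hN.trans (by exact_mod_cast hn)
    have h3 := sepbG_dist volume hK (sepbF_lip hK hF n) n y
    rw [sepbF_eq hK hF h0 n y h2] at h3
    exact h3

end Q101Lf
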