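import Pool.Agent.Q101.LfS

set_option autoImplicit false

/-!
# Lipschitz-free rigidity: job 2, an elementary trigonometric inequality
-/

namespace Q101Lf

/-- the inequality of Jordan for the cosine, after reduction modulo `2 π` -/
lemma trig_aux (M u : ℝ) (hM : 0 < M) : ∃ u' : ℝ, (∃ n : ℤ, u = u' + n * (2 * Real.pi)) ∧
    2 * |u'| ≤ M * (1 - Real.cos u) + Real.pi ^ 2 / (2 * M) := by
  have hpi := Real.pi_pos
  obtain ⟨n, hn, -⟩ := existsUnique_add_zsmul_mem_Ico (a := 2 * Real.pi) (by positivity) u (-Real.pi)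
  obtain ⟨u', hu'⟩ : ∃ u' : ℝ, u' = u + n • (2 * Real.pi) := ⟨_, rfl⟩
  rw [← hu'] at hn
  have hle : |u'| ≤ Real.pi := by
    rw [abs_le]
    exact ⟨hn.1, by linarith [hn.2]⟩
  have hcos : Real.cos u' = Real.cos u := by
    rw [hu', zsmul_eq_mul]
    exact Real.cos_add_int_mul_two_pi u n
  refine ⟨u', ⟨-n, by rw [hu', zsmul_eq_mul]; push_cast; ring⟩, ?_⟩
  have h1 : Real.cos u' ≤ 1 - 2 / Real.pi ^ 2 * u' ^ 2 := Real.cos_le_one_sub_mul_cos_sq hle
  rw [← hcos]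
  have h2 : M * (2 / Real.pi ^ 2 * u' ^ 2) ≤ M * (1 - Real.cos u') :=
    mul_le_mul_of_nonneg_left (by linarith) hM.le
  have h3 : 2 * |u'| ≤ M * (2 / Real.pi ^ 2 * u' ^ 2) + Real.pi ^ 2 / (2 * M) := by
    have e : M * (2 / Real.pi ^ 2 * u' ^ 2) + Real.pi ^ 2 / (2 * M) - 2 * |u'| =
        (2 * M / Real.pi ^ 2) * (|u'| - Real.pi ^ 2 / (2 * M)) ^ 2 := by
      rw [← sq_abs u']
      field_simp
      ring
    have : 0 ≤ (2 * M / Real.pi ^ 2) * (|u'| - Real.pi ^ 2 / (2 * M)) ^ 2 := by positivity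
    linarith
  linarith

theorem trig : S_trig := by
  intro M u v w hM
  obtain ⟨u', ⟨m, hm⟩, hu⟩ := trig_aux M u hM
  obtain ⟨v', ⟨n, hn⟩, hv⟩ := trig_aux M v hM
  have e1 : Real.cos (u + v + w) = Real.cos (w + (u' + v')) := by
    rw [hm, hn, show u' + (m : ℝ) * (2 * Real.pi) + (v' + (n : ℝ) * (2 * Real.pi)) + w =
      w + (u' + v') + ((m + n : ℤ) : ℝ) * (2 * Real.pi) by push_cast; ring]
    exact Real.cos_add_int_mul_two_pi _ _
  have e2 : Real.cos (w + (u' + v')) - Real.cos w ≤ |u'| + |v'| := by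
    have h1 : |Real.cos (w + (u' + v')) - Real.cos w| ≤ |(w + (u' + v')) - w| :=
      Real.abs_cos_sub_cos_le _ _
    rw [add_sub_cancel_left] at h1
    exact (le_abs_self _).trans (h1.trans (abs_add_le _ _))
  have e3 : Real.pi ^ 2 / (2 * M) + Real.pi ^ 2 / (2 * M) = Real.pi ^ 2 / M := by
    field_simp
    ring
  rw [e1]
  nlinarith

end Q101Lf
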