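import Pool.Agent.Q101.LfS

set_option autoImplicit false

/-! # The geometric part of the almost everywhere statement -/

open scoped RealInnerProductSpace

namespace Q101Lf

theorem twoG_sin {u δ : ℝ} (hu : |u| ≤ δ) : u - δ ^ 3 ≤ Real.sin u := by
  have hδ0 : 0 ≤ δ := (abs_nonneg u).trans hu
  rcases lt_trichotomy u 0 with h | h | h
  · have h1 : -u ≤ δ := by rwa [abs_of_neg h] at hu
    have h2 := Real.sin_lt (x := -u) (by linarith)
    rw [Real.sin_neg] at h2
    have h3 : 0 ≤ δ ^ 3 := by positivity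
    linarith
  · rw [h, Real.sin_zero]
    have h3 : 0 ≤ δ ^ 3 := by positivity
    linarith
  · have h1 : u ≤ δ := by rwa [abs_of_pos h] at hu
    have h2 := Real.sin_gt_sub_cube h
    have h3 : u ^ 3 ≤ δ ^ 3 := pow_le_pow_left₀ h.le h1 3
    have h4 : 0 ≤ u ^ 3 := by positivity
    linarith

theorem twoG_sub {E : Type} [NormedAddCommGroup E] [InnerProductSpace ℝ E] (Φ : E → ℝ)
    (p q : E) (C : ℝ) (n : ℕ) (hn : 0 < n) (h : C * ‖p - q‖ ≤ Φ p - Φ q) :
    ∃ p' q' : E, ‖p' - q'‖ = ‖p - q‖ / n ∧ C * ‖p' - q'‖ ≤ Φ p' - Φ q' := by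
  have hn' : (0 : ℝ) < n := Nat.cast_pos.2 hn
  set z : ℕ → E := fun i => q + ((i : ℝ) / n) • (p - q) with hz
  have hd : ∀ i, z (i + 1) - z i = ((1 : ℝ) / n) • (p - q) := by
    intro i
    simp only [hz]
    rw [add_sub_add_left_eq_sub, ← sub_smul]
    congr 1
    push_cast
    ring
  have hnorm : ∀ i, ‖z (i + 1) - z i‖ = ‖p - q‖ / n := by
    intro i
    rw [hd, norm_smul, Real.norm_of_nonneg (by positivity)]
    ring
  have h0 : z 0 = q := by simp [hz]
  have h1 : z n = p := by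
    simp only [hz]
    rw [div_self hn'.ne', one_smul]
    abel
  have hsum : ∑ i ∈ Finset.range n, (Φ (z (i + 1)) - Φ (z i)) = Φ p - Φ q := by
    rw [Finset.sum_range_sub (fun i => Φ (z i)), h0, h1]
  by_contra hcon
  push Not at hcon
  have h2 : ∑ i ∈ Finset.range n, (Φ (z (i + 1)) - Φ (z i)) <
      ∑ _i ∈ Finset.range n, C * (‖p - q‖ / n) := by
    refine Finset.sum_lt_sum_of_nonempty (Finset.nonempty_range_iff.2 hn.ne') fun i _ => ?_
    have h3 := hcon (z (i + 1)) (z i) (hnorm i)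
    rwa [hnorm] at h3
  rw [hsum, Finset.sum_const, Finset.card_range, nsmul_eq_mul] at h2
  have h3 : (n : ℝ) * (C * (‖p - q‖ / n)) = C * ‖p - q‖ := by
    field_simp
  linarith

theorem twoG : S_twoG := by
  intro E _ _ σ K' hK a ha H hH ψ hψ hinc η₀ hη₀
  set A := ‖a‖ with hA
  have hA0 : 0 < A := norm_pos_iff.2 ha
  -- the small constant
  set η : ℝ := min (η₀ / 3) (1 / 3) with hη
  have hη0 : 0 < η := by
    rw [hη]
    exact lt_min (by positivity) (by norm_num)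
  have hη1 : 3 * η ≤ η₀ := by
    have := min_le_left (η₀ / 3) (1 / 3)
    rw [← hη] at this
    linarith
  have hη2 : η ≤ 1 / 3 := min_le_right _ _
  have hlin : LipK A (fun x => ⟪a, x⟫) := by
    intro x y
    rw [← inner_sub_right]
    exact abs_real_inner_le_norm _ _
  set g : E → ℝ := fun x => ψ ⟪a, x⟫ with hg
  have hgl : LipK A g := by
    intro x y
    have h1 := hψ ⟪a, x⟫ ⟪a, y⟫
    have h2 := hlin x y
    rw [one_mul, Real.norm_eq_abs] at h1
    exact h1.trans h2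
  set G := σ.S' g with hG
  have hGl : LipK A G := σ.S'_lip hgl
  set Fa : E → ℝ := fun w => ⟪a, K' w⟫ with hFa
  have hFe : σ.S' (fun x => ⟪a, x⟫) = Fa := funext fun w => hK a w
  have hFl : LipK A Fa := by
    rw [← hFe]
    exact σ.S'_lip hlin
  have hsF : ∀ x, σ.S Fa x = ⟪a, x⟫ := by
    intro x
    rw [← hFe, σ.SS' hlin, inner_zero_right, sub_zero]
  have hsG : ∀ x, σ.S G x = g x - g 0 := fun x => σ.SS' hgl x
  -- the points on the line
  have hxt : ∀ t : ℝ, ⟪a, (t / A ^ 2) • a⟫ = t := by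
    intro t
    rw [inner_smul_right, real_inner_self_eq_norm_sq, ← hA]
    field_simp
  have hxd : ∀ s t : ℝ, ‖(t / A ^ 2) • a - (s / A ^ 2) • a‖ = |t - s| / A := by
    intro s t
    rw [← sub_smul, norm_smul, Real.norm_eq_abs, ← sub_div, abs_div, abs_of_pos (by positivity :
      (0 : ℝ) < A ^ 2), ← hA]
    field_simp
  -- step 1
  have h1 : ∃ p q : E, p ≠ q ∧ (2 - η) * A * ‖p - q‖ ≤ (G p + Fa p) - (G q + Fa q) := by
    by_contra hcon
    push Not at hcon
    have h2 : LipK ((2 - η) * A) (fun y => G y + Fa y) := by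
      intro p q
      by_cases hpq : p = q
      · subst hpq
        simp
      · rw [abs_le]
        have h3 := hcon p q hpq
        have h4 := hcon q p (Ne.symm hpq)
        rw [norm_sub_rev q p] at h4
        exact ⟨by linarith, h3.le⟩
    obtain ⟨s, t, hst, h3⟩ := hinc (η / 2) (by positivity)
    have h4 := (le_abs_self _).trans (σ.S_lip h2 ((t / A ^ 2) • a) ((s / A ^ 2) • a))
    rw [σ.S_add hGl hFl, σ.S_add hGl hFl, hsG, hsG, hsF, hsF, hxd, hxt, hxt] at h4
    simp only [hg] at h4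
    rw [hxt, hxt, abs_of_pos (by linarith : 0 < t - s)] at h4
    have h5 : (2 - η) * A * ((t - s) / A) = (2 - η) * (t - s) := by
      field_simp
    rw [h5] at h4
    have h6 : 0 < η / 2 * (t - s) := by
      have : 0 < t - s := by linarith
      positivity
    nlinarith
  obtain ⟨p, q, hpq, h2⟩ := h1
  -- step 2
  obtain ⟨n, hn⟩ := exists_nat_gt (A * ‖p - q‖ / η)
  have hpq0 : 0 < ‖p - q‖ := norm_pos_iff.2 (sub_ne_zero.2 hpq)
  have hn0 : 0 < n := by
    have h3 : (0 : ℝ) < n := lt_of_le_of_lt (by positivity) hn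
    exact_mod_cast h3
  have hn' : (0 : ℝ) < n := Nat.cast_pos.2 hn0
  obtain ⟨p', q', h3, h4⟩ := twoG_sub (fun y => G y + Fa y) p q ((2 - η) * A) n hn0 h2
  set δ := A * ‖p' - q'‖ with hδ
  have hδ0 : 0 < δ := by
    rw [hδ, h3]
    positivity
  have hδη : δ ≤ η := by
    rw [hδ, h3]
    rw [div_lt_iff₀ hη0] at hn
    rw [← mul_div_assoc, div_le_iff₀ hn']
    linarith
  have hδ1 : δ ≤ 1 := by linarith
  have hu : |Fa p' - Fa q'| ≤ δ := hFl p' q'
  have h5 := twoG_sin hu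
  have h6 : δ ^ 3 ≤ η * δ := by
    have h7 : δ ^ 2 ≤ η := by nlinarith
    calc δ ^ 3 = δ ^ 2 * δ := by ring
      _ ≤ η * δ := mul_le_mul_of_nonneg_right h7 hδ0.le
  -- step 4
  by_contra hcon
  push Not at hcon
  set θ := Fa q' with hθ
  have hsl : LipK A (fun w => Real.sin (Fa w - θ)) := by
    intro x y
    have h7 : |Real.sin (Fa x - θ) - Real.sin (Fa y - θ)| ≤ |(Fa x - θ) - (Fa y - θ)| := by
      have h8 := Real.lipschitzWith_sin.dist_le_mul (Fa x - θ) (Fa y - θ)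
      simpa [Real.dist_eq] using h8
    refine h7.trans ?_
    rw [sub_sub_sub_cancel_right]
    exact hFl x y
  have hSl : LipK ((2 - 3 * η) * A) (σ.S (fun w => G w + Real.sin (Fa w - θ))) := by
    intro x y
    rw [σ.S_add hGl hsl, σ.S_add hGl hsl, hsG, hsG, hH, hH]
    simp only [hg]
    have h7 : |ψ ⟪a, x⟫ - ψ ⟪a, 0⟫ + H θ ⟪a, x⟫ - (ψ ⟪a, y⟫ - ψ ⟪a, 0⟫ + H θ ⟪a, y⟫)| ≤
        (2 - 3 * η) * |⟪a, x⟫ - ⟪a, y⟫| := by
      by_cases hxy : ⟪a, y⟫ = ⟪a, x⟫
      · rw [hxy]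
        simp
      · have h8 := hcon θ ⟪a, y⟫ ⟪a, x⟫ hxy
        have h9 : ψ ⟪a, x⟫ - ψ ⟪a, 0⟫ + H θ ⟪a, x⟫ - (ψ ⟪a, y⟫ - ψ ⟪a, 0⟫ + H θ ⟪a, y⟫) =
            (ψ ⟪a, x⟫ + H θ ⟪a, x⟫) - (ψ ⟪a, y⟫ + H θ ⟪a, y⟫) := by ring
        rw [h9]
        refine h8.le.trans (mul_le_mul_of_nonneg_right (by linarith) (abs_nonneg _))
    refine h7.trans ?_
    rw [mul_assoc]
    exact mul_le_mul_of_nonneg_left (hlin x y) (by linarith)
  have h7 := (le_abs_self _).trans (σ.S'_lip hSl p' q')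
  have hadd : LipK (A + A) (fun w => G w + Real.sin (Fa w - θ)) := by
    intro x y
    have h8 : (G x + Real.sin (Fa x - θ)) - (G y + Real.sin (Fa y - θ)) =
        (G x - G y) + (Real.sin (Fa x - θ) - Real.sin (Fa y - θ)) := by ring
    change |(G x + Real.sin (Fa x - θ)) - (G y + Real.sin (Fa y - θ))| ≤ _
    rw [h8, add_mul]
    exact (abs_add_le _ _).trans (add_le_add (hGl x y) (hsl x y))
  rw [σ.S'S hadd, σ.S'S hadd] at h7
  have h8 : (2 - 3 * η) * A * ‖p' - q'‖ = (2 - 3 * η) * δ := by rw [hδ, mul_assoc]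
  have h9 : (2 - η) * A * ‖p' - q'‖ = (2 - η) * δ := by rw [hδ, mul_assoc]
  rw [h8] at h7
  rw [h9] at h4
  have h10 : Real.sin (Fa q' - θ) = 0 := by rw [hθ, sub_self, Real.sin_zero]
  rw [h10] at h7
  have h11 : 0 < η * δ := by positivity
  nlinarith

end Q101Lf
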