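import Mathlib
import Pool.Agent.Q101.LfS

set_option autoImplicit false

/-! # Job LF-4: the one-variable part of `|g'| = 1` almost everywhere -/

open Filter Topology MeasureTheory

namespace Q101Lf

theorem LfTwoR_key (h : S_ll) (γ : ℝ → ℂ) (hγ : ∀ s t, ‖γ s - γ t‖ ≤ |s - t|)
    (hyp : ∀ ψ : ℝ → ℝ, LipK 1 ψ →
      (∀ η : ℝ, 0 < η → ∃ s t : ℝ, s < t ∧ (2 - η) * (t - s) ≤ (ψ t + t) - (ψ s + s)) →
      ∀ η : ℝ, 0 < η → ∃ (z : ℂ) (s t : ℝ), ‖z‖ = 1 ∧ s ≠ t ∧
        (2 - η) * |t - s| ≤ |(ψ t + (z * γ t).re) - (ψ s + (z * γ s).re)|)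
    (hγd : ∀ t, ‖deriv γ t‖ ≤ 1) (δ : ℝ) (hδ0 : 0 < δ) (hδ1 : δ ≤ 1) :
    volume {s : ℝ | DifferentiableAt ℝ γ s ∧ ‖deriv γ s‖ ≤ 1 - δ} = 0 := by
  by_contra hne
  set E0 : Set ℝ := {s : ℝ | DifferentiableAt ℝ γ s ∧ ‖deriv γ s‖ ≤ 1 - δ} with hE0
  have hE0m : MeasurableSet E0 := by
    refine (measurableSet_of_differentiableAt ℝ γ).inter ?_
    exact measurableSet_le (measurable_deriv γ).norm measurable_const
  set f0 : ℝ → ℝ := E0.indicator fun _ => (1 : ℝ) with hf0
  have hloc : LocallyIntegrable f0 volume := (locallyIntegrable_const (1:ℝ)).indicator hE0m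
  have hii : ∀ x y : ℝ, IntervalIntegrable f0 volume x y := fun x y =>
    intervalIntegrable_iff.mpr
      ((hloc.integrableOn_isCompact isCompact_uIcc).mono_set Set.uIoc_subset_uIcc)
  have hf01 : ∀ x, ‖f0 x‖ ≤ 1 := by
    intro x
    by_cases hx : x ∈ E0
    · rw [hf0, Set.indicator_of_mem hx, norm_one]
    · rw [hf0, Set.indicator_of_notMem hx, norm_zero]
      exact zero_le_one
  set ψ : ℝ → ℝ := fun s => ∫ x in (0:ℝ)..s, f0 x with hψ
  have hψL : LipK 1 ψ := by
    intro x y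
    have e1 : ψ x - ψ y = ∫ u in y..x, f0 u := by
      rw [hψ]
      exact intervalIntegral.integral_interval_sub_left (hii _ _) (hii _ _)
    rw [e1]
    exact intervalIntegral.norm_integral_le_of_norm_le_const fun u _ => hf01 u
  have hψd : ∀ᵐ s, HasDerivAt ψ (f0 s) s := by
    filter_upwards [_root_.LocallyIntegrable.ae_hasDerivAt_integral hloc] with s hs
    exact hs 0
  -- a density point
  obtain ⟨s0, hs0, hs0d⟩ : ∃ s0 ∈ E0, HasDerivAt ψ (f0 s0) s0 := by
    by_contra hcon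
    push Not at hcon
    apply hne
    rw [MeasureTheory.ae_iff] at hψd
    exact measure_mono_null (fun s hs => hcon s hs) hψd
  have hf0s : f0 s0 = 1 := by
    rw [hf0, Set.indicator_of_mem hs0]
  rw [hf0s] at hs0d
  have hnear : ∀ η : ℝ, 0 < η → ∃ s t : ℝ, s < t ∧ (2 - η) * (t - s) ≤ (ψ t + t) - (ψ s + s) := by
    intro η hη
    have e1 : HasDerivAt (fun u => ψ u + u) (1 + 1) s0 := hs0d.add (hasDerivAt_id s0)
    have e2 := e1.tendsto_slope_zero_right
    have e3 : ∀ᶠ ρ in 𝓝[>] (0:ℝ), 2 - η < ρ⁻¹ • ((ψ (s0 + ρ) + (s0 + ρ)) - (ψ s0 + s0)) :=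
      e2.eventually (lt_mem_nhds (by linarith))
    obtain ⟨ρ, hρ, hρ0⟩ := (e3.and self_mem_nhdsWithin).exists
    have hρ1 : 0 < ρ := hρ0
    refine ⟨s0, s0 + ρ, by linarith, ?_⟩
    rw [smul_eq_mul, lt_inv_mul_iff₀ hρ1] at hρ
    have e4 : s0 + ρ - s0 = ρ := by ring
    rw [e4]
    linarith
  obtain ⟨z, s, t, hz, hst, hbig⟩ := hyp ψ hψL hnear (δ / 2) (by positivity)
  -- the upper bound for the increments
  set f : ℝ → ℝ := fun u => ψ u + (z * γ u).re with hf
  have hfL : LipK 2 f := by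
    intro x y
    have e1 := hψL x y
    have e2 : |(z * γ x).re - (z * γ y).re| ≤ |x - y| := by
      rw [← Complex.sub_re, ← mul_sub]
      refine (Complex.abs_re_le_norm _).trans ?_
      rw [norm_mul, hz, one_mul]
      exact hγ x y
    have e3 : f x - f y = (ψ x - ψ y) + ((z * γ x).re - (z * γ y).re) := by
      rw [hf]
      ring
    rw [e3]
    refine (abs_add_le _ _).trans ?_
    rw [Real.norm_eq_abs] at e1 ⊢
    linarith
  have hfd : ∀ᵐ u, ∃ v : ℝ, HasDerivAt f v u ∧ |v| ≤ 2 - δ := by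
    filter_upwards [hψd, h.2.2 γ 1 (fun s t => by rw [one_mul]; exact hγ s t)] with u hu hu'
    have e1 := (hu'.hasDerivAt).const_mul z
    have e2 := Complex.reCLM.hasFDerivAt.comp_hasDerivAt u e1
    have e3 : HasDerivAt f (f0 u + (z * deriv γ u).re) u := hu.add e2
    refine ⟨_, e3, ?_⟩
    have e4 : |(z * deriv γ u).re| ≤ ‖deriv γ u‖ := by
      refine (Complex.abs_re_le_norm _).trans ?_
      rw [norm_mul, hz, one_mul]
    by_cases hmem : u ∈ E0
    · have e5 : f0 u = 1 := by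
        rw [hf0, Set.indicator_of_mem hmem]
      have e6 := hmem.2
      rw [e5]
      refine (abs_add_le _ _).trans ?_
      rw [abs_one]
      linarith
    · have e5 : f0 u = 0 := by
        rw [hf0, Set.indicator_of_notMem hmem]
      rw [e5, zero_add]
      have := hγd u
      linarith
  have hup : ∀ s t, s ≤ t → |f t - f s| ≤ (2 - δ) * (t - s) := by
    intro s t hst
    have e1 := h.1 f 2 (2 - δ) hfL (by
      filter_upwards [hfd] with u hu
      obtain ⟨v, hv, hv1⟩ := hu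
      rw [hv.deriv]
      exact (le_abs_self v).trans hv1) s t hst
    have e2 := h.1 (fun u => -f u) 2 (2 - δ) (by
      intro x y
      have := hfL x y
      rw [neg_sub_neg, abs_sub_comm]
      exact this) (by
      filter_upwards [hfd] with u hu
      obtain ⟨v, hv, hv1⟩ := hu
      have e3 : HasDerivAt (fun u => -f u) (-v) u := hv.neg
      rw [e3.deriv]
      exact (neg_le_abs v).trans hv1) s t hst
    rw [abs_le]
    constructor
    · have e3 : -f t - -f s ≤ (2 - δ) * (t - s) := e2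
      linarith
    · exact e1
  have hfinal : |f t - f s| ≤ (2 - δ) * |t - s| := by
    rcases le_total s t with h1 | h1
    · rw [abs_of_nonneg (sub_nonneg.2 h1)]
      exact hup s t h1
    · rw [abs_sub_comm, abs_sub_comm t s, abs_of_nonneg (sub_nonneg.2 h1)]
      exact hup t s h1
  have hpos : 0 < |t - s| := abs_pos.2 (sub_ne_zero.2 (Ne.symm hst))
  have e9 : (2 - δ / 2) * |t - s| ≤ |f t - f s| := hbig
  nlinarith

theorem twoR (h : S_ll) : S_twoR := by
  intro γ hγ hyp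
  have hLip : LipschitzWith 1 γ := LipschitzWith.of_dist_le_mul fun s t => by
    rw [dist_eq_norm, Real.dist_eq, NNReal.coe_one, one_mul]
    exact hγ s t
  have hγd : ∀ t, ‖deriv γ t‖ ≤ 1 := by
    intro t
    have := norm_deriv_le_of_lipschitz (x₀ := t) hLip
    simpa using this
  have h1 : ∀ n : ℕ, ∀ᵐ s, ¬ (DifferentiableAt ℝ γ s ∧ ‖deriv γ s‖ ≤ 1 - 1 / ((n : ℝ) + 1)) := by
    intro n
    rw [MeasureTheory.ae_iff]
    have h2 := LfTwoR_key h γ hγ hyp hγd (1 / ((n : ℝ) + 1)) (by positivity) (by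
      rw [div_le_one (by positivity)]
      have : (0:ℝ) ≤ n := Nat.cast_nonneg n
      linarith)
    simp only [not_not]
    exact h2
  have h2 := ae_all_iff.2 h1
  filter_upwards [h2, h.2.2 γ 1 (fun s t => by rw [one_mul]; exact hγ s t)] with s hs hs'
  refine ⟨deriv γ s, hs'.hasDerivAt, le_antisymm (hγd s) ?_⟩
  by_contra hcon
  push Not at hcon
  obtain ⟨n, hn⟩ := exists_nat_one_div_lt (sub_pos.2 hcon)
  exact hs n ⟨hs', by linarith⟩

end Q101Lf
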