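import Pool.Agent.Q101.LfMain
import Pool.Agent.Q101.LfLL
import Pool.Agent.Q101.LfTrig
import Pool.Agent.Q101.LfChar
import Pool.Agent.Q101.LfTwoR
import Pool.Agent.Q101.LfTwoG
import Pool.Agent.Q101.LfDir
import Pool.Agent.Q101.LfGf
import Pool.Agent.Q101.LfMul
import Pool.Agent.Q101.LfFour
import Pool.Agent.Q101.LfFive
import Pool.Agent.Q101.LfSepa
import Pool.Agent.Q101.LfSepb
import Pool.Agent.Q101.LfFinal
import Pool.Agent.Q101.LfCne

set_option autoImplicit false

/-!
# All lemmas together
-/

namespace Q101Lf

theorem lemmas : Lemmas where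
  ll := ll
  trig := trig
  char := char
  twoR := twoR ll
  twoG := twoG
  dir := dir
  gfp := gfp dir
  mulrel := mulrel dir (gfp dir) trig
  four := four ll char
  five := five (gfp dir) char
  sepa := sepa
  sepb := sepb
  final := final
  cne := cne

end Q101Lf
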