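import Mathlib

set_option autoImplicit false

/-!
# Lipschitz-free spaces

`F0 M` is the space of finitely supported functions `x : M → ℝ` with `∑ x m = 0` on the metric space
`M`, with the norm `‖x‖ = sup_f |∑ x m * f m|`, the supremum over all `1`-Lipschitz functions
`f : M → ℝ`. The Lipschitz-free space `LipFree M` is the completion of `F0 M`, and `mol p q` is the
element `χ_p - χ_q` of `LipFree M`.
-/

open Filter Topology

namespace Q101Lf

universe u

section Def

variable (M : Type u)

/-- The finitely supported functions `x : M → ℝ` with `∑ x m = 0`. -/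
def zeroSum : Submodule ℝ (M →₀ ℝ) where
  carrier := {x | (x.sum fun _ a => a) = 0}
  add_mem' := by
    intro x y hx hy
    simp only [Set.mem_ofPred_eq] at hx hy ⊢
    rw [Finsupp.sum_add_index' (fun _ => rfl) (fun _ _ _ => rfl), hx, hy, add_zero]
  zero_mem' := by simp
  smul_mem' := by
    intro c x hx
    simp only [Set.mem_ofPred_eq] at hx ⊢
    rw [Finsupp.sum_smul_index (fun _ => rfl)]
    have h := Finsupp.mul_sum c x (f := fun _ a => a)
    rw [← h, hx, mul_zero]

/-- The finitely supported functions `x : M → ℝ` with `∑ x m = 0`. -/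
def F0 : Type u := zeroSum M

noncomputable instance : AddCommGroup (F0 M) := inferInstanceAs (AddCommGroup (zeroSum M))

noncomputable instance : Module ℝ (F0 M) := inferInstanceAs (Module ℝ (zeroSum M))

end Def

variable {M : Type u}

/-- The pairing `∑ x m * f m`. -/
noncomputable def pair (f : M → ℝ) (x : F0 M) : ℝ := x.1.sum fun m a => a * f m

theorem pair_add (f : M → ℝ) (x y : F0 M) : pair f (x + y) = pair f x + pair f y := by
  unfold pair
  have : (x + y).1 = x.1 + y.1 := rfl
  rw [this, Finsupp.sum_add_index' (fun _ => by simp) (fun _ _ _ => by ring)]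

theorem pair_smul (f : M → ℝ) (c : ℝ) (x : F0 M) : pair f (c • x) = c * pair f x := by
  unfold pair
  have : (c • x).1 = c • x.1 := rfl
  rw [this, Finsupp.sum_smul_index (fun _ => by simp), Finsupp.mul_sum]
  simp only [mul_assoc]

theorem sum_eq (x : F0 M) : (x.1.sum fun _ a => a) = 0 := x.2

/-- `pair f` as a linear functional. -/
noncomputable def pairL (f : M → ℝ) : F0 M →ₗ[ℝ] ℝ where
  toFun := pair f
  map_add' := pair_add f
  map_smul' := pair_smul f

theorem pair_sub_const (f : M → ℝ) (c : ℝ) (x : F0 M) : pair (fun m => f m - c) x = pair f x := by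
  have h : pair (fun m => f m - c) x = pair f x - (x.1.sum fun _ a => a) * c := by
    unfold pair
    rw [Finsupp.sum_mul, ← Finsupp.sum_sub]
    refine Finsupp.sum_congr fun m _ => ?_
    ring
  rw [h, sum_eq, zero_mul, sub_zero]

variable [MetricSpace M]

theorem pair_le (m₀ : M) (x : F0 M) {K : ℝ} {f : M → ℝ}
    (hf : ∀ p q, |f p - f q| ≤ K * dist p q) :
    |pair f x| ≤ K * x.1.sum fun m a => |a| * dist m m₀ := by
  rw [← pair_sub_const f (f m₀)]
  unfold pair
  rw [Finsupp.mul_sum]
  refine (Finset.abs_sum_le_sum_abs _ _).trans (Finset.sum_le_sum fun m _ => ?_)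
  rw [abs_mul]
  have := mul_le_mul_of_nonneg_left (hf m m₀) (abs_nonneg (x.1 m))
  linarith

theorem bddAbove_pair (x : F0 M) :
    BddAbove (Set.range fun f : {f : M → ℝ // LipschitzWith 1 f} => |pair f.1 x|) := by
  rcases isEmpty_or_nonempty M with hM | hM
  · refine ⟨0, ?_⟩
    rintro _ ⟨f, rfl⟩
    have : pair f.1 x = 0 := by
      unfold pair
      exact Finset.sum_eq_zero fun m _ => (hM.false m).elim
    simp [this]
  · obtain ⟨m₀⟩ := hM
    refine ⟨1 * x.1.sum fun m a => |a| * dist m m₀, ?_⟩
    rintro _ ⟨f, rfl⟩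
    refine pair_le m₀ x fun p q => ?_
    have := f.2.dist_le_mul p q
    simpa [Real.dist_eq] using this

/-- The norm of the Lipschitz-free space. -/
noncomputable instance : Norm (F0 M) :=
  ⟨fun x => ⨆ f : {f : M → ℝ // LipschitzWith 1 f}, |pair f.1 x|⟩

theorem norm_def (x : F0 M) : ‖x‖ = ⨆ f : {f : M → ℝ // LipschitzWith 1 f}, |pair f.1 x| := rfl

instance : Nonempty {f : M → ℝ // LipschitzWith 1 f} := ⟨⟨fun _ => 0, LipschitzWith.const' 0⟩⟩

theorem pair_le_norm {f : M → ℝ} (hf : LipschitzWith 1 f) (x : F0 M) : |pair f x| ≤ ‖x‖ :=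
  le_ciSup (bddAbove_pair x) (⟨f, hf⟩ : {f : M → ℝ // LipschitzWith 1 f})

omit [MetricSpace M] in
theorem pair_eq_zero_of_const {f : M → ℝ} (hf : ∀ p q, f p = f q) (x : F0 M) : pair f x = 0 := by
  rcases isEmpty_or_nonempty M with hM | ⟨⟨m₀⟩⟩
  · unfold pair
    exact Finset.sum_eq_zero fun m _ => (hM.false m).elim
  · rw [← pair_sub_const f (f m₀)]
    unfold pair
    refine Finset.sum_eq_zero fun m _ => ?_
    simp [hf m m₀]

theorem core : NormedSpace.Core ℝ (F0 M) where
  norm_nonneg x := Real.iSup_nonneg fun f => abs_nonneg _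
  norm_smul c x := by
    simp only [norm_def, pair_smul, abs_mul, Real.norm_eq_abs]
    rw [Real.mul_iSup_of_nonneg (abs_nonneg c)]
  norm_triangle x y := by
    rw [norm_def]
    refine ciSup_le fun f => ?_
    rw [pair_add]
    exact (abs_add_le _ _).trans (add_le_add (pair_le_norm f.2 x) (pair_le_norm f.2 y))
  norm_eq_zero_iff x := by
    classical
    constructor
    · intro hx
      by_contra hne
      have hne' : x.1 ≠ 0 := fun h => hne (Subtype.ext h)
      obtain ⟨m, hm⟩ := Finsupp.support_nonempty_iff.2 hne'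
      have hm0 : x.1 m ≠ 0 := Finsupp.mem_support_iff.1 hm
      set s : Finset M := x.1.support.erase m with hs
      have hsne : s.Nonempty := by
        by_contra hemp
        rw [Finset.not_nonempty_iff_eq_empty] at hemp
        have h1 := sum_eq x
        rw [Finsupp.sum, ← Finset.add_sum_erase _ _ hm, ← hs, hemp, Finset.sum_empty, add_zero] at h1
        exact hm0 h1
      have hclosed : IsClosed (s : Set M) := s.finite_toSet.isClosed
      have hpos : 0 < Metric.infDist m (s : Set M) :=
        (hclosed.notMem_iff_infDist_pos (by simpa using hsne)).1 (by simp [hs])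
      have h2 := pair_le_norm (Metric.lipschitz_infDist_pt (s : Set M)) x
      rw [hx] at h2
      have h3 : pair (fun y => Metric.infDist y (s : Set M)) x
          = x.1 m * Metric.infDist m (s : Set M) := by
        unfold pair
        rw [Finsupp.sum, ← Finset.add_sum_erase _ _ hm, ← hs]
        rw [Finset.sum_eq_zero fun y hy => ?_, add_zero]
        change x.1 y * Metric.infDist y (s : Set M) = 0
        rw [Metric.infDist_zero_of_mem (by exact_mod_cast hy), mul_zero]
      rw [h3, abs_mul, abs_of_pos hpos] at h2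
      have h4 := mul_pos (abs_pos.2 hm0) hpos
      linarith
    · rintro rfl
      have : ∀ f : {f : M → ℝ // LipschitzWith 1 f}, |pair f.1 (0 : F0 M)| = 0 := by
        intro f
        have h := (pairL f.1).map_zero
        change pair f.1 0 = 0 at h
        rw [h, abs_zero]
      rw [norm_def]
      simp only [this, ciSup_const]

noncomputable instance : NormedAddCommGroup (F0 M) := NormedAddCommGroup.ofCore (core (M := M))

noncomputable instance : NormedSpace ℝ (F0 M) := NormedSpace.ofCore (core (M := M))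

/-- The Lipschitz-free space of `M`. -/
def LipFree (M : Type u) [MetricSpace M] : Type u := UniformSpace.Completion (F0 M)

noncomputable instance : NormedAddCommGroup (LipFree M) :=
  inferInstanceAs (NormedAddCommGroup (UniformSpace.Completion (F0 M)))

noncomputable instance : NormedSpace ℝ (LipFree M) :=
  inferInstanceAs (NormedSpace ℝ (UniformSpace.Completion (F0 M)))

/-- The element `χ_p - χ_q` of `F0 M`. -/
noncomputable def mol0 (p q : M) : F0 M :=
  ⟨Finsupp.single p 1 - Finsupp.single q 1, by
    change ((Finsupp.single p 1 - Finsupp.single q 1 : M →₀ ℝ).sum fun _ a => a) = 0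
    rw [Finsupp.sum_sub_index (fun _ _ _ => rfl), Finsupp.sum_single_index rfl,
      Finsupp.sum_single_index rfl, sub_self]⟩

/-- The inclusion of `F0 M` into its completion. -/
noncomputable def toFree : F0 M →ₗᵢ[ℝ] LipFree M := UniformSpace.Completion.toComplₗᵢ

/-- The element `χ_p - χ_q` of the Lipschitz-free space. -/
noncomputable def mol (p q : M) : LipFree M := toFree (mol0 p q)

theorem denseRange_toFree : DenseRange (toFree : F0 M → LipFree M) :=
  UniformSpace.Completion.denseRange_coe

instance : CompleteSpace (LipFree M) := inferInstanceAs (CompleteSpace (UniformSpace.Completion _))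

omit [MetricSpace M] in
theorem pair_mol0 (f : M → ℝ) (p q : M) : pair f (mol0 p q) = f p - f q := by
  change ((Finsupp.single p 1 - Finsupp.single q 1 : M →₀ ℝ).sum fun m a => a * f m) = f p - f q
  rw [Finsupp.sum_sub_index (fun _ _ _ => by ring), Finsupp.sum_single_index (by simp),
    Finsupp.sum_single_index (by simp)]
  simp

theorem norm_mol (p q : M) : ‖mol p q‖ = dist p q := by
  unfold mol
  rw [LinearIsometry.norm_map, norm_def]
  refine le_antisymm (ciSup_le fun f => ?_) ?_
  · rw [pair_mol0]
    have := f.2.dist_le_mul p q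
    simpa [Real.dist_eq] using this
  · have h : LipschitzWith 1 fun y : M => dist y q := LipschitzWith.dist_left q
    have := pair_le_norm h (mol0 p q)
    rw [pair_mol0, dist_self, sub_zero, abs_of_nonneg dist_nonneg] at this
    exact this

theorem abs_pair_le {K : ℝ} {f : M → ℝ} (hK0 : 0 ≤ K)
    (hf : ∀ p q, |f p - f q| ≤ K * dist p q) (x : F0 M) : |pair f x| ≤ K * ‖x‖ := by
  rcases hK0.eq_or_lt with rfl | hK
  · have hc : ∀ p q, f p = f q := by
      intro p q
      have h1 := hf p q
      rw [zero_mul] at h1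
      exact sub_eq_zero.1 (abs_eq_zero.1 (le_antisymm h1 (abs_nonneg _)))
    rw [pair_eq_zero_of_const hc, abs_zero, zero_mul]
  · have h1 : LipschitzWith 1 fun m => K⁻¹ * f m := by
      refine LipschitzWith.of_dist_le_mul fun p q => ?_
      rw [Real.dist_eq, ← mul_sub, abs_mul, abs_of_pos (inv_pos.2 hK)]
      have := mul_le_mul_of_nonneg_left (hf p q) (inv_pos.2 hK).le
      rw [← mul_assoc, inv_mul_cancel₀ hK.ne'] at this
      simpa using this
    have h2 := pair_le_norm h1 x
    have h3 : pair f x = K * pair (fun m => K⁻¹ * f m) x := by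
      unfold pair
      rw [Finsupp.mul_sum]
      refine Finsupp.sum_congr fun m _ => ?_
      field_simp
    rw [h3, abs_mul, abs_of_pos hK]
    exact mul_le_mul_of_nonneg_left h2 hK.le

/-- The functional on the Lipschitz-free space defined by a Lipschitz function `f`. -/
noncomputable def Phi (f : M → ℝ) : LipFree M →L[ℝ] ℝ :=
  (pairL f).extendOfNorm (toFree : F0 M →ₗᵢ[ℝ] LipFree M).toLinearMap

theorem Phi_toFree {K : ℝ} {f : M → ℝ} (hK0 : 0 ≤ K)
    (hf : ∀ p q, |f p - f q| ≤ K * dist p q) (x : F0 M) : Phi f (toFree x) = pair f x := by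
  refine LinearMap.extendOfNorm_eq (f := pairL f)
    (e := (toFree : F0 M →ₗᵢ[ℝ] LipFree M).toLinearMap) denseRange_toFree ⟨K, fun y => ?_⟩ x
  rw [Real.norm_eq_abs]
  refine (abs_pair_le hK0 hf y).trans (le_of_eq ?_)
  rw [LinearIsometry.coe_toLinearMap, LinearIsometry.norm_map]

theorem abs_Phi_le {K : ℝ} {f : M → ℝ} (hK0 : 0 ≤ K)
    (hf : ∀ p q, |f p - f q| ≤ K * dist p q) (z : LipFree M) : |Phi f z| ≤ K * ‖z‖ := by
  refine LinearMap.norm_extendOfNorm_apply_le (f := pairL f)
    (e := (toFree : F0 M →ₗᵢ[ℝ] LipFree M).toLinearMap) denseRange_toFree K (fun y => ?_) z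
  rw [Real.norm_eq_abs]
  refine (abs_pair_le hK0 hf y).trans (le_of_eq ?_)
  rw [LinearIsometry.coe_toLinearMap, LinearIsometry.norm_map]

theorem Phi_mol {K : ℝ} {f : M → ℝ} (hK0 : 0 ≤ K)
    (hf : ∀ p q, |f p - f q| ≤ K * dist p q) (p q : M) : Phi f (mol p q) = f p - f q := by
  rw [mol, Phi_toFree hK0 hf, pair_mol0]

omit [MetricSpace M] in
theorem eq_sum_mol0 (m₀ : M) (x : F0 M) : x = ∑ m ∈ x.1.support, x.1 m • mol0 m m₀ := by
  classical
  have h : ∀ f : M → ℝ, pair f x = pair f (∑ m ∈ x.1.support, x.1 m • mol0 m m₀) := by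
    intro f
    have h2 : pair f (∑ m ∈ x.1.support, x.1 m • mol0 m m₀)
        = ∑ m ∈ x.1.support, x.1 m * (f m - f m₀) := by
      change pairL f _ = _
      rw [map_sum]
      refine Finset.sum_congr rfl fun m _ => ?_
      change pair f (x.1 m • mol0 m m₀) = _
      rw [pair_smul, pair_mol0]
    rw [h2, ← pair_sub_const f (f m₀)]
    rfl
  refine Subtype.ext (Finsupp.ext fun m => ?_)
  have h1 : ∀ y : F0 M, pair (fun n => if n = m then 1 else 0) y = y.1 m := by
    intro y
    unfold pair
    rw [Finsupp.sum, Finset.sum_eq_single m]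
    · simp
    · intro b _ hb
      simp [hb]
    · intro hm
      simp [Finsupp.notMem_support_iff.1 hm]
  rw [← h1 x, h, h1]

/-- Continuous linear maps which agree on the elements `χ_p - χ_q` are equal. -/
theorem ext_mol {V : Type*} [NormedAddCommGroup V] [NormedSpace ℝ V] {A B : LipFree M →L[ℝ] V}
    (h : ∀ p q, A (mol p q) = B (mol p q)) : A = B := by
  rcases isEmpty_or_nonempty M with hM | hM
  · have hz : ∀ x : F0 M, x = 0 := fun x => Subtype.ext (Finsupp.ext fun m => (hM.false m).elim)
    have h1 : ∀ z : LipFree M, z = 0 := by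
      intro z
      refine denseRange_toFree.induction_on (p := fun z => z = 0) z (isClosed_singleton) fun x => ?_
      rw [hz x, map_zero]
    ext z
    rw [h1 z, map_zero, map_zero]
  · obtain ⟨m₀⟩ := hM
    have h1 : ∀ x : F0 M, A (toFree x) = B (toFree x) := by
      intro x
      rw [eq_sum_mol0 m₀ x]
      simp only [map_sum, map_smul]
      exact Finset.sum_congr rfl fun m _ => by rw [← mol, h]
    ext z
    exact denseRange_toFree.induction_on (p := fun z => A z = B z) z
      (isClosed_eq A.continuous B.continuous) h1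

theorem mol_self (p : M) : mol p p = 0 := by
  rw [← norm_eq_zero, norm_mol, dist_self]

theorem mol_sub (p q r : M) : mol p r - mol q r = mol p q := by
  unfold mol
  rw [← map_sub]
  congr 1
  refine Subtype.ext ?_
  change (Finsupp.single p 1 - Finsupp.single r 1) - (Finsupp.single q 1 - Finsupp.single r 1)
    = (Finsupp.single p 1 - Finsupp.single q 1 : M →₀ ℝ)
  abel

theorem Phi_add {K L : ℝ} {f g : M → ℝ} (hK0 : 0 ≤ K) (hL0 : 0 ≤ L)
    (hf : ∀ p q, |f p - f q| ≤ K * dist p q) (hg : ∀ p q, |g p - g q| ≤ L * dist p q) :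
    Phi (fun m => f m + g m) = Phi f + Phi g := by
  have hfg : ∀ p q, |(f p + g p) - (f q + g q)| ≤ (K + L) * dist p q := by
    intro p q
    have h : (f p + g p) - (f q + g q) = (f p - f q) + (g p - g q) := by ring
    rw [h, add_mul]
    exact (abs_add_le _ _).trans (add_le_add (hf p q) (hg p q))
  refine ext_mol fun p q => ?_
  rw [Phi_mol (add_nonneg hK0 hL0) hfg, _root_.add_apply, Phi_mol hK0 hf,
    Phi_mol hL0 hg]
  ring

theorem Phi_smul {K : ℝ} {f : M → ℝ} (c : ℝ) (hK0 : 0 ≤ K)
    (hf : ∀ p q, |f p - f q| ≤ K * dist p q) :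
    Phi (fun m => c * f m) = c • Phi f := by
  have hcf : ∀ p q, |c * f p - c * f q| ≤ (|c| * K) * dist p q := by
    intro p q
    rw [← mul_sub, abs_mul, mul_assoc]
    exact mul_le_mul_of_nonneg_left (hf p q) (abs_nonneg c)
  refine ext_mol fun p q => ?_
  rw [Phi_mol (mul_nonneg (abs_nonneg c) hK0) hcf, _root_.smul_apply, Phi_mol hK0 hf,
    smul_eq_mul]
  ring

/-- Elements of the Lipschitz-free space are separated by Lipschitz functions. -/
theorem eq_zero_of_Phi (z : LipFree M)
    (h : ∀ (K : ℝ) (f : M → ℝ), 0 ≤ K → (∀ p q, |f p - f q| ≤ K * dist p q) → Phi f z = 0) :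
    z = 0 := by
  refine SeparatingDual.eq_zero_of_forall_dual_eq_zero (R := ℝ) fun Ψ => ?_
  rcases isEmpty_or_nonempty M with hM | hM
  · have : Ψ = 0 := ext_mol fun p q => (hM.false p).elim
    rw [this]
    rfl
  · obtain ⟨m₀⟩ := hM
    have hf : ∀ p q, |Ψ (mol p m₀) - Ψ (mol q m₀)| ≤ ‖Ψ‖ * dist p q := by
      intro p q
      rw [← map_sub, mol_sub, ← norm_mol]
      exact Ψ.le_opNorm _
    have : Ψ = Phi fun m => Ψ (mol m m₀) := by
      refine ext_mol fun p q => ?_
      rw [Phi_mol (norm_nonneg Ψ) hf, ← map_sub, mol_sub]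
    rw [this]
    exact h _ _ (norm_nonneg Ψ) hf

end Q101Lf
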