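import Pool.Agent.Q101.LfRiesz

set_option autoImplicit false

/-!
# Lipschitz-free rigidity of Euclidean spaces: assembly
-/

open Filter Topology
open scoped RealInnerProductSpace

namespace Q101Lf

theorem LipK.mono {E : Type} [NormedAddCommGroup E] {K L : ℝ} {F : E → ℝ} (h : LipK K F)
    (hKL : K ≤ L) : LipK L F := fun x y =>
  (h x y).trans (mul_le_mul_of_nonneg_right hKL (norm_nonneg _))

section Sep

variable {d : ℕ}

theorem approx_tendsto {E : Type} [NormedAddCommGroup E] {μ : (E → ℝ) → ℝ} (hμ : Approx μ) {K : ℝ}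
    (hK : 0 ≤ K) {G : ℕ → E → ℝ} {F : E → ℝ} (hG : ∀ n, LipK K (G n)) (hF : LipK K F)
    (h : ∀ y, Tendsto (fun n => G n y) atTop (𝓝 (F y))) :
    Tendsto (fun n => μ (G n)) atTop (𝓝 (μ F)) := by
  rw [Metric.tendsto_atTop]
  intro ε hε
  obtain ⟨ν, -, hν⟩ := hμ (ε / (3 * (K + 1))) (by positivity)
  have h1 : Tendsto (fun n => ν.sum fun m a => a * G n m) atTop (𝓝 (ν.sum fun m a => a * F m)) :=
    tendsto_finsetSum _ fun m _ => (h m).const_mul _
  obtain ⟨N, hN⟩ := Metric.tendsto_atTop.1 h1 (ε / 3) (by positivity)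
  refine ⟨N, fun n hn => ?_⟩
  have h2 := hν K (G n) (hG n)
  have h3 := hν K F hF
  have h4 := hN n hn
  rw [Real.dist_eq] at h4 ⊢
  have h5 : ε / (3 * (K + 1)) * K ≤ ε / 3 := by
    rw [div_mul_eq_mul_div, div_le_div_iff₀ (by positivity) (by positivity)]
    nlinarith
  rw [abs_le] at h2 h3
  rw [abs_lt] at h4 ⊢
  constructor <;> linarith [h2.1, h2.2, h3.1, h3.2, h4.1, h4.2]

/-- The trigonometric functions determine functionals in the free space. -/
theorem sep (ha : S_sepa) (hb : S_sepb) (hd : 0 < d) {μ : (EuclideanSpace ℝ (Fin d) → ℝ) → ℝ} (hμ : Approx μ)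
    (hsin : ∀ a : (EuclideanSpace ℝ (Fin d)), μ (fun y => Real.sin ⟪a, y⟫) = 0)
    (hcos : ∀ a : (EuclideanSpace ℝ (Fin d)), μ (fun y => Real.cos ⟪a, y⟫) = 0)
    (hc : ∀ (K : ℝ) (F : EuclideanSpace ℝ (Fin d) → ℝ) (c : ℝ), LipK K F → μ (fun y => F y - c) = μ F)
    {K : ℝ} {F : EuclideanSpace ℝ (Fin d) → ℝ} (hF : LipK K F) : μ F = 0 := by
  have : Nonempty (Fin d) := ⟨⟨0, hd⟩⟩
  have : Nontrivial (EuclideanSpace ℝ (Fin d)) := inferInstance
  rw [← hc K F (F 0) hF]
  have hF' : LipK K fun y => F y - F 0 := by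
    intro x y
    have : F x - F 0 - (F y - F 0) = F x - F y := by ring
    rw [this]
    exact hF x y
  obtain ⟨G, h1, h2, h3, h4⟩ := hb d _ K hF.nonneg hF' (sub_self _)
  have h5 := approx_tendsto hμ hF.nonneg h3 hF' h4
  have h6 : (fun n => μ (G n)) = fun _ => (0 : ℝ) := by
    funext n
    exact ha d μ hμ hsin hcos (G n) (h1 n) (h2 n)
  rw [h6] at h5
  exact tendsto_nhds_unique h5 tendsto_const_nhds

end Sep

/-- All the lemmas together. -/
structure Lemmas : Prop where
  ll : S_ll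
  trig : S_trig
  char : S_char
  twoR : S_twoR
  twoG : S_twoG
  dir : S_dir
  gfp : S_gf
  mulrel : S_mul
  four : S_four
  five : S_five
  sepa : S_sepa
  sepb : S_sepb
  final : S_final
  cne : S_cne

section Main

variable {d : ℕ}

theorem exists_indep (hd : 2 ≤ d) (a b : (EuclideanSpace ℝ (Fin d))) : ∃ c : (EuclideanSpace ℝ (Fin d)), (a ≠ 0 → LinearIndependent ℝ ![a, c]) ∧
    (b ≠ 0 → LinearIndependent ℝ ![b, c]) := by
  have hrank : 1 < Module.rank ℝ (EuclideanSpace ℝ (Fin d)) := by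
    rw [← Module.finrank_eq_rank, finrank_euclideanSpace_fin]
    exact_mod_cast hd
  rcases eq_or_ne a 0 with ha | ha
  · rcases eq_or_ne b 0 with hb | hb
    · exact ⟨0, fun h => (h ha).elim, fun h => (h hb).elim⟩
    · obtain ⟨c, hc⟩ := exists_linearIndependent_pair_of_one_lt_rank hrank hb
      exact ⟨c, fun h => (h ha).elim, fun _ => hc⟩
  · obtain ⟨c, hc⟩ := exists_linearIndependent_pair_of_one_lt_rank hrank ha
    by_cases hab : LinearIndependent ℝ ![a, b]
    · rw [LinearIndependent.pair_iff] at hab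
      refine ⟨a + b, fun _ => ?_, fun _ => ?_⟩
      · rw [LinearIndependent.pair_iff]
        intro s t h
        obtain ⟨h1, h2⟩ := hab (s + t) t (by rw [← h]; module)
        exact ⟨by linarith, h2⟩
      · rw [LinearIndependent.pair_iff]
        intro s t h
        obtain ⟨h1, h2⟩ := hab t (s + t) (by rw [← h]; module)
        exact ⟨by linarith, h1⟩
    · refine ⟨c, fun _ => hc, fun hb => ?_⟩
      rw [LinearIndependent.pair_iff' ha] at hab
      push Not at hab
      obtain ⟨l, rfl⟩ := hab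
      rw [LinearIndependent.pair_iff] at hc ⊢
      intro s t h
      obtain ⟨h1, h2⟩ := hc (s * l) t (by rw [← h]; module)
      refine ⟨(mul_eq_zero.1 h1).resolve_right ?_, h2⟩
      rintro rfl
      exact hb (zero_smul _ _)

theorem deriv_norm (L : Lemmas) (σ : SOp (EuclideanSpace ℝ (Fin d))) [Nontrivial (EuclideanSpace ℝ (Fin d))] (a : (EuclideanSpace ℝ (Fin d))) (ha : a ≠ 0) :
    ∀ᵐ s, ∃ w : ℂ, HasDerivAt (gf (rop σ) a) w s ∧ ‖w‖ = 1 := by
  obtain ⟨h1, h2, h3⟩ := L.gfp (EuclideanSpace ℝ (Fin d)) (rop σ) a ha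
  refine L.twoR _ h2 fun ψ hψ hψ2 η hη => ?_
  obtain ⟨θ, s, t, hst, h⟩ := L.twoG (EuclideanSpace ℝ (Fin d)) σ (KK σ) (inner_KK σ) a ha
    (fun θ s => (Complex.exp (-(θ * Complex.I)) * gf (rop σ) a s).re) h1 ψ hψ hψ2 η hη
  refine ⟨Complex.exp (-(θ * Complex.I)), s, t, ?_, hst, h⟩
  have : -((θ : ℂ) * Complex.I) = ((-θ : ℝ) : ℂ) * Complex.I := by push_cast; ring
  rw [this, Complex.norm_exp_ofReal_mul_I]

theorem main (L : Lemmas) (hd : 2 ≤ d) (T : LipFree (EuclideanSpace ℝ (Fin d)) ≃ₗᵢ[ℝ] LipFree (EuclideanSpace ℝ (Fin d))) :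
    ∃ (c : ℝ) (φ : (EuclideanSpace ℝ (Fin d)) ≃ (EuclideanSpace ℝ (Fin d))), c ≠ 0 ∧ (∀ x y, ‖φ x - φ y‖ = |c| * ‖x - y‖) ∧
      ∀ x y, T (mol x y) = (1 / c) • mol (φ x) (φ y) := by
  have : Nonempty (Fin d) := ⟨⟨0, by omega⟩⟩
  have : Nontrivial (EuclideanSpace ℝ (Fin d)) := inferInstance
  set σ := sop T with hσ
  obtain ⟨c, C, hC1, hC2, hC3⟩ := L.four (EuclideanSpace ℝ (Fin d)) (exists_indep hd) (gf (rop σ))
    (fun a ha => (L.gfp (EuclideanSpace ℝ (Fin d)) (rop σ) a ha).2.1) (deriv_norm L σ) (L.mulrel (EuclideanSpace ℝ (Fin d)) (rop σ))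
  -- `c` is not zero
  have hc : c ≠ 0 := by
    rintro rfl
    obtain ⟨a, ha⟩ := exists_ne (0 : (EuclideanSpace ℝ (Fin d)))
    obtain ⟨h1, -, h3⟩ := L.gfp (EuclideanSpace ℝ (Fin d)) (rop σ) a ha
    refine L.cne (EuclideanSpace ℝ (Fin d)) σ (KK σ) (inner_KK σ) a ha (C a).re fun x => ?_
    have h4 := h1 0 x
    simp only [sub_zero, Complex.ofReal_zero, zero_mul, neg_zero, Complex.exp_zero, one_mul] at h4
    have h5 : ∀ s, gf (rop σ) a s = C a * s := by
      have h6 : ∀ s : ℝ, HasDerivAt (fun s : ℝ => gf (rop σ) a s - C a * s) 0 s := by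
        intro s
        have h7 := hC2 a ha s
        simp only [Complex.ofReal_zero, zero_mul, Complex.exp_zero, mul_one] at h7
        have h8 : HasDerivAt (fun s : ℝ => C a * (s : ℂ)) (C a * 1) s :=
          (Complex.ofRealCLM.hasDerivAt (x := s)).const_mul (C a)
        have h9 := h7.sub h8
        rw [mul_one, sub_self] at h9
        exact h9
      intro s
      have h7 := is_const_of_deriv_eq_zero (fun s => (h6 s).differentiableAt)
        (fun s => (h6 s).deriv) s 0
      simp only [h3, Complex.ofReal_zero, mul_zero, sub_zero] at h7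
      exact sub_eq_zero.1 h7
    rw [h5] at h4
    rw [rop_R] at h4
    rw [h4]
    simp
  obtain ⟨v, hv⟩ := L.five d hd (rop σ) c hc C hC1 hC2 hC3
  -- the formula for `R`
  have hR : ∀ (K : ℝ) (P : EuclideanSpace ℝ (Fin d) → ℝ), LipK K P → ∀ x,
      σ.S (fun w => P (KK σ w)) x = (1 / c) * (P (c • x + v) - P v) := by
    intro K P hP x
    have hAp : Approx fun P : EuclideanSpace ℝ (Fin d) → ℝ => (rop σ).R P x - (1 / c) * (P (c • x + v) - P v) := by
      intro ε hε
      obtain ⟨ν, h1, h2⟩ := (rop σ).approx x ε hε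
      refine ⟨ν - (1 / c) • (Finsupp.single (c • x + v) 1 - Finsupp.single v 1), ?_,
        fun K F hF => ?_⟩
      · rw [Finsupp.sum_sub_index (fun _ _ _ => rfl), h1, Finsupp.sum_smul_index (fun _ => rfl),
          ← Finsupp.mul_sum, Finsupp.sum_sub_index (fun _ _ _ => rfl),
          Finsupp.sum_single_index rfl, Finsupp.sum_single_index rfl]
        ring
      · have h3 : ((ν - (1 / c) • (Finsupp.single (c • x + v) 1 - Finsupp.single v 1)).sum
            fun m a => a * F m) = (ν.sum fun m a => a * F m) - (1 / c) * (F (c • x + v) - F v) := by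
          rw [Finsupp.sum_sub_index (fun _ _ _ => by ring),
            Finsupp.sum_smul_index (fun _ => by simp)]
          simp only [mul_assoc]
          rw [← Finsupp.mul_sum, Finsupp.sum_sub_index (fun _ _ _ => by ring),
            Finsupp.sum_single_index (by simp), Finsupp.sum_single_index (by simp)]
          ring
        rw [h3]
        have h4 := h2 K F hF
        have h5 : (rop σ).R F x - (1 / c) * (F (c • x + v) - F v) -
            ((ν.sum fun m a => a * F m) - (1 / c) * (F (c • x + v) - F v)) =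
            (rop σ).R F x - ν.sum fun m a => a * F m := by ring
        rw [h5]
        exact h4
    have hconst : ∀ k : ℝ, LipK 0 (fun _ : (EuclideanSpace ℝ (Fin d)) => k) := fun k p q => by simp
    have hRc : ∀ k : ℝ, (rop σ).R (fun _ => k) x = 0 := by
      intro k
      have h1 := (rop σ).lip (hconst k) x 0
      rw [(rop σ).zero, sub_zero, zero_mul] at h1
      exact abs_eq_zero.1 (le_antisymm h1 (abs_nonneg _))
    have h0 := sep L.sepa L.sepb (by omega) hAp (fun a => ?_) (fun a => ?_) (fun K F k hF => ?_) hP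
    · rw [rop_R] at h0
      linarith
    · rw [(hv a x).1, sub_self]
    · rw [(hv a x).2, sub_self]
    · have h1 : (rop σ).R (fun y => F y - k) x = (rop σ).R F x := by
        have h2 := (rop σ).add hF (hconst (-k)) x
        rw [hRc, add_zero] at h2
        simpa only [sub_eq_add_neg] using h2
      simp only [h1]
      ring
  obtain ⟨φ, h1, h2⟩ := L.final (EuclideanSpace ℝ (Fin d)) σ (KK σ) (KK_lip σ) c v hc hR
  exact ⟨c, φ, hc, h1, fun x y => sop_final T (1 / c) φ h2 x y⟩

end Main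

end Q101Lf
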