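import Pool.Agent.Q101.LfS
import Pool.Agent.Q101.LfFree

set_option autoImplicit false

/-!
# The operator on Lipschitz functions given by an isometry of the Lipschitz-free space
-/

open Filter Topology
open scoped RealInnerProductSpace

namespace Q101Lf

variable {E : Type} [NormedAddCommGroup E]

theorem LipK.nonneg [Nontrivial E] {K : ℝ} {F : E → ℝ} (h : LipK K F) : 0 ≤ K := by
  obtain ⟨x, hx⟩ := exists_ne (0 : E)
  have h1 := h x 0
  rw [sub_zero x] at h1
  have h2 : 0 < ‖x‖ := norm_pos_iff.2 hx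
  by_contra hK
  have h3 := mul_neg_of_neg_of_pos (not_le.1 hK) h2
  have h4 := abs_nonneg (F x - F 0)
  linarith

theorem LipK.dist {K : ℝ} {F : E → ℝ} (h : LipK K F) (p q : E) :
    |F p - F q| ≤ K * dist p q := by
  rw [dist_eq_norm]; exact h p q

/-- The function `x ↦ ⟨F, T (χ_x - χ_0)⟩`. -/
noncomputable def opF (T : LipFree E →L[ℝ] LipFree E) (F : E → ℝ) (x : E) : ℝ :=
  Phi F (T (mol x 0))

theorem opF_sub (T : LipFree E →L[ℝ] LipFree E) (F : E → ℝ) (x y : E) :
    opF T F x - opF T F y = Phi F (T (mol x y)) := by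
  unfold opF
  rw [← map_sub, ← map_sub, mol_sub]

theorem opF_lip [Nontrivial E] {T : LipFree E →L[ℝ] LipFree E} (hT : ∀ z, ‖T z‖ ≤ ‖z‖)
    {K : ℝ} {F : E → ℝ} (h : LipK K F) : LipK K (opF T F) := by
  intro x y
  rw [opF_sub, ← dist_eq_norm, ← norm_mol]
  exact (abs_Phi_le h.nonneg h.dist _).trans (mul_le_mul_of_nonneg_left (hT _) h.nonneg)

theorem opF_comp [Nontrivial E] {T U : LipFree E →L[ℝ] LipFree E} (hT : ∀ z, ‖T z‖ ≤ ‖z‖)
    (hTU : ∀ z, T (U z) = z) {K : ℝ} {F : E → ℝ} (h : LipK K F) (x : E) :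
    opF U (opF T F) x = F x - F 0 := by
  have h1 : Phi (opF T F) = (Phi F).comp T := by
    refine ext_mol fun p q => ?_
    rw [Phi_mol h.nonneg (opF_lip hT h).dist, opF_sub, ContinuousLinearMap.comp_apply]
  rw [opF, h1, ContinuousLinearMap.comp_apply, hTU, Phi_mol h.nonneg h.dist]

variable [InnerProductSpace ℝ E]

/-- The abstract data of an isometry of the Lipschitz-free space. -/
noncomputable def sop [Nontrivial E] (T : LipFree E ≃ₗᵢ[ℝ] LipFree E) : SOp E where
  S := opF (T : LipFree E →L[ℝ] LipFree E)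
  S' := opF (T.symm : LipFree E →L[ℝ] LipFree E)
  S_zero F := by simp [opF, mol_self]
  S'_zero F := by simp [opF, mol_self]
  S_add := by
    intro K L F G hF hG x
    rw [opF, Phi_add hF.nonneg hG.nonneg hF.dist hG.dist]
    rfl
  S'_add := by
    intro K L F G hF hG x
    rw [opF, Phi_add hF.nonneg hG.nonneg hF.dist hG.dist]
    rfl
  S_smul := by
    intro K F c hF x
    rw [opF, Phi_smul c hF.nonneg hF.dist]
    rfl
  S'_smul := by
    intro K F c hF x
    rw [opF, Phi_smul c hF.nonneg hF.dist]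
    rfl
  S_lip := fun h => opF_lip (fun z => (T.norm_map z).le) h
  S'_lip := fun h => opF_lip (fun z => (T.symm.norm_map z).le) h
  SS' := fun h => opF_comp (fun z => (T.symm.norm_map z).le) (fun z => T.symm_apply_apply z) h
  S'S := fun h => opF_comp (fun z => (T.norm_map z).le) (fun z => T.apply_symm_apply z) h
  approx := by
    intro x ε hε
    obtain ⟨y, hy⟩ := denseRange_toFree.exists_dist_lt (T (mol x 0)) hε
    refine ⟨y.1, sum_eq y, fun K F hF => ?_⟩
    have h1 : opF (T : LipFree E →L[ℝ] LipFree E) F x - (y.1.sum fun m a => a * F m)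
        = Phi F (T (mol x 0) - toFree y) := by
      rw [map_sub, Phi_toFree hF.nonneg hF.dist]
      rfl
    rw [h1]
    refine (abs_Phi_le hF.nonneg hF.dist _).trans ?_
    rw [mul_comm]
    refine mul_le_mul_of_nonneg_right ?_ hF.nonneg
    rw [← dist_eq_norm]
    exact hy.le

theorem sop_final [Nontrivial E] (T : LipFree E ≃ₗᵢ[ℝ] LipFree E) (c : ℝ) (φ : E → E)
    (h : ∀ (K : ℝ) (F : E → ℝ), LipK K F → ∀ x y,
      (sop T).S F x - (sop T).S F y = c * (F (φ x) - F (φ y))) (x y : E) :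
    T (mol x y) = c • mol (φ x) (φ y) := by
  rw [← sub_eq_zero]
  refine eq_zero_of_Phi _ fun K f hK hf => ?_
  have hF : LipK K f := fun p q => by rw [← dist_eq_norm]; exact hf p q
  have h1 := h K f hF x y
  change opF (T : LipFree E →L[ℝ] LipFree E) f x - opF (T : LipFree E →L[ℝ] LipFree E) f y = _ at h1
  rw [opF_sub] at h1
  rw [map_sub, map_smul, Phi_mol hK hf, smul_eq_mul]
  change Phi f (T (mol x y)) = _ at h1
  rw [h1, sub_self]

end Q101Lf
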