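import Pool.Agent.Q101.LfOp

set_option autoImplicit false

/-!
# The canonical map `K'` and the operator `R`
-/

open Filter Topology
open scoped RealInnerProductSpace

namespace Q101Lf

variable {E : Type} [NormedAddCommGroup E] [InnerProductSpace ℝ E]

theorem lipK_inner (a : E) : LipK ‖a‖ fun x : E => ⟪a, x⟫ := by
  intro x y
  rw [← inner_sub_right]
  exact abs_real_inner_le_norm a (x - y)

/-- The functional `a ↦ S' ⟪a, ·⟫ w`. -/
noncomputable def ff (σ : SOp E) (w : E) : E →L[ℝ] ℝ :=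
  LinearMap.mkContinuous
    { toFun := fun a => σ.S' (fun x => ⟪a, x⟫) w
      map_add' := fun a b => by
        rw [← σ.S'_add (lipK_inner a) (lipK_inner b)]
        congr 1
        funext x
        exact inner_add_left a b x
      map_smul' := fun c a => by
        rw [RingHom.id_apply, smul_eq_mul, ← σ.S'_smul c (lipK_inner a)]
        congr 1
        funext x
        exact real_inner_smul_left a x c }
    ‖w‖ (fun a => by
      change ‖σ.S' (fun x => ⟪a, x⟫) w‖ ≤ ‖w‖ * ‖a‖
      have h := σ.S'_lip (lipK_inner a) w 0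
      rw [σ.S'_zero, sub_zero, sub_zero] at h
      rw [Real.norm_eq_abs, mul_comm]
      exact h)

theorem ff_apply (σ : SOp E) (w a : E) : ff σ w a = σ.S' (fun x => ⟪a, x⟫) w := rfl

/-- The canonical map `K'`. -/
noncomputable def KK [CompleteSpace E] (σ : SOp E) (w : E) : E :=
  (InnerProductSpace.toDual ℝ E).symm (ff σ w)

theorem inner_KK [CompleteSpace E] (σ : SOp E) (a w : E) :
    σ.S' (fun x => ⟪a, x⟫) w = ⟪a, KK σ w⟫ := by
  rw [KK, real_inner_comm, InnerProductSpace.toDual_symm_apply, ff_apply]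

theorem KK_lip [CompleteSpace E] (σ : SOp E) (w w' : E) : ‖KK σ w - KK σ w'‖ ≤ ‖w - w'‖ := by
  set a := KK σ w - KK σ w' with ha
  have h := σ.S'_lip (lipK_inner a) w w'
  rw [inner_KK, inner_KK, ← inner_sub_right, ← ha, real_inner_self_eq_norm_sq] at h
  rw [abs_of_nonneg (by positivity)] at h
  rcases (norm_nonneg a).eq_or_lt with h0 | h0
  · rw [← h0]; exact norm_nonneg _
  · have h1 : ‖a‖ * ‖a‖ ≤ ‖a‖ * ‖w - w'‖ := by rw [← sq]; exact h
    exact le_of_mul_le_mul_left h1 h0

theorem LipK.comp_KK [CompleteSpace E] [Nontrivial E] (σ : SOp E) {K : ℝ} {P : E → ℝ}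
    (h : LipK K P) : LipK K fun w => P (KK σ w) := fun x y =>
  (h _ _).trans (mul_le_mul_of_nonneg_left (KK_lip σ x y) h.nonneg)

/-- The operator `R P = S (P ∘ K')`. -/
noncomputable def rop [CompleteSpace E] [Nontrivial E] (σ : SOp E) : ROp E where
  R P := σ.S fun w => P (KK σ w)
  zero _ := σ.S_zero _
  add hP hQ x := σ.S_add (hP.comp_KK σ) (hQ.comp_KK σ) x
  smul c hP x := σ.S_smul c (hP.comp_KK σ) x
  lip hP := σ.S_lip (hP.comp_KK σ)
  lin a x := by
    have h : (fun w => ⟪a, KK σ w⟫) = σ.S' fun x => ⟪a, x⟫ := by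
      funext w
      rw [inner_KK]
    rw [h, σ.SS' (lipK_inner a), inner_zero_right, sub_zero]
  approx x ε hε := by
    obtain ⟨ν, h1, h2⟩ := σ.approx x ε hε
    refine ⟨ν.mapDomain (KK σ), ?_, fun K P hP => ?_⟩
    · rw [Finsupp.sum_mapDomain_index (fun _ => rfl) (fun _ _ _ => rfl), h1]
    · rw [Finsupp.sum_mapDomain_index (fun _ => by simp) (fun _ _ _ => by ring)]
      exact h2 K _ (hP.comp_KK σ)

theorem rop_R [CompleteSpace E] [Nontrivial E] (σ : SOp E) (P : E → ℝ) :
    (rop σ).R P = σ.S fun w => P (KK σ w) := rfl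

end Q101Lf
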