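import Pool.Agent.Q101.TQG

set_option autoImplicit false
set_option linter.unusedSectionVars false

open scoped ENNReal NNReal

namespace Q101.Lorentz

/-- index set: block `N`, kind, position -/
abbrev II : Type := Σ N : ℕ, Bool × Fin (N + 1)

/-- weights -/
noncomputable def om (i : ℕ) : ℝ := 1 / √((i : ℝ) + 1)

theorem om_pos (i : ℕ) : 0 < om i := by unfold om; positivity

theorem om_le_one (i : ℕ) : om i ≤ 1 := by
  unfold om
  rw [div_le_one (by positivity), Real.one_le_sqrt]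
  have : (0 : ℝ) ≤ (i : ℕ) := by positivity
  linarith

theorem om_sq (i : ℕ) : om i ^ 2 = 1 / ((i : ℝ) + 1) := by
  unfold om; rw [div_pow, one_pow, Real.sq_sqrt (by positivity)]

/-- harmonic numbers -/
noncomputable def h (N : ℕ) : ℝ := ∑ i : Fin (N + 1), 1 / (((i : ℕ) : ℝ) + 1)

theorem h_pos (N : ℕ) : 0 < h N := by
  unfold h
  apply Finset.sum_pos
  · intro i _; positivity
  · exact ⟨0, Finset.mem_univ _⟩

theorem h_unbounded (K : ℝ) : ∃ N, K < h N := by
  have h1 := Real.tendsto_sum_range_one_div_nat_succ_atTop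
  obtain ⟨n, hn⟩ := (Filter.tendsto_atTop.1 h1 (K + 1)).exists
  refine ⟨n, ?_⟩
  have h2 : h n = ∑ i ∈ Finset.range (n + 1), 1 / ((i : ℝ) + 1) :=
    Fin.sum_univ_eq_sum_range (fun i : ℕ => 1 / ((i : ℝ) + 1)) (n + 1)
  rw [h2, Finset.sum_range_succ]
  have : (0 : ℝ) ≤ 1 / ((n : ℝ) + 1) := by positivity
  linarith

/-- normalized weights -/
noncomputable def be (N i : ℕ) : ℝ := om i / √(h N)

section Hilbert

variable {𝕜 : Type} [RCLike 𝕜] {H : Type*} [NormedAddCommGroup H] [InnerProductSpace 𝕜 H]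

theorem norm_sq_sum {ι : Type*} {v : ι → H} (hv : Orthonormal 𝕜 v) (l : ι → 𝕜) (s : Finset ι) :
    ‖∑ i ∈ s, l i • v i‖ ^ 2 = ∑ i ∈ s, ‖l i‖ ^ 2 := by
  have h1 := hv.inner_sum l l s
  have h2 : ((‖∑ i ∈ s, l i • v i‖ ^ 2 : ℝ) : 𝕜) = ((∑ i ∈ s, ‖l i‖ ^ 2 : ℝ) : 𝕜) := by
    have h3 := inner_self_eq_norm_sq_to_K (𝕜 := 𝕜) (∑ i ∈ s, l i • v i)
    push_cast
    rw [← h3, h1]
    apply Finset.sum_congr rfl
    intro i _
    rw [RCLike.conj_mul]
  exact_mod_cast h2

variable {E : II → H} (hE : Orthonormal 𝕜 E)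

variable (𝕜 E) in
/-- the vectors `z` -/
noncomputable def z (k : Bool) (N : ℕ) : H := ∑ i : Fin (N + 1), ((be N i : ℝ) : 𝕜) • E ⟨N, (k, i)⟩

include hE

theorem inner_E_z (M : ℕ) (k' : Bool) (j : Fin (M + 1)) (k : Bool) (N : ℕ) :
    inner 𝕜 (E ⟨M, (k', j)⟩) (z 𝕜 E k N) = if M = N ∧ k' = k then ((be M j : ℝ) : 𝕜) else 0 := by
  unfold z
  rw [inner_sum]
  simp only [inner_smul_right]
  by_cases hMN : M = N
  · subst hMN
    by_cases hk : k' = k
    · subst hk
      rw [if_pos ⟨rfl, rfl⟩, Finset.sum_eq_single j]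
      · rw [orthonormal_iff_ite.1 hE, if_pos rfl, mul_one]
      · intro b _ hb
        rw [orthonormal_iff_ite.1 hE, if_neg, mul_zero]
        intro h
        simp only [Sigma.mk.injEq, heq_eq_eq, Prod.mk.injEq, true_and] at h
        exact hb h.symm
      · simp
    · rw [if_neg (fun h => hk h.2), Finset.sum_eq_zero]
      intro b _
      rw [orthonormal_iff_ite.1 hE, if_neg, mul_zero]
      intro h
      simp only [Sigma.mk.injEq, heq_eq_eq, Prod.mk.injEq, true_and] at h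
      exact hk h.1
  · rw [if_neg (fun h => hMN h.1), Finset.sum_eq_zero]
    intro b _
    rw [orthonormal_iff_ite.1 hE, if_neg, mul_zero]
    intro h
    exact hMN (congrArg Sigma.fst h)

theorem inner_z_E (M : ℕ) (k' : Bool) (j : Fin (M + 1)) (k : Bool) (N : ℕ) :
    inner 𝕜 (z 𝕜 E k N) (E ⟨M, (k', j)⟩) = if M = N ∧ k' = k then ((be M j : ℝ) : 𝕜) else 0 := by
  rw [← inner_conj_symm, inner_E_z hE]
  split_ifs <;> simp

omit hE in
theorem sum_be_sq (N : ℕ) : ∑ i : Fin (N + 1), be N i * be N i = 1 := by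
  have h1 : ∀ i : Fin (N + 1), be N i * be N i = (1 / (((i : ℕ) : ℝ) + 1)) / h N := by
    intro i
    unfold be
    rw [div_mul_div_comm, Real.mul_self_sqrt (h_pos N).le, ← sq, om_sq]
  simp only [h1]
  rw [← Finset.sum_div]
  exact div_self (h_pos N).ne'

theorem orthonormal_z (k : Bool) : Orthonormal 𝕜 (z 𝕜 E k) := by
  rw [orthonormal_iff_ite]
  intro M N
  have h1 : inner 𝕜 (z 𝕜 E k M) (z 𝕜 E k N) =
      ∑ i : Fin (M + 1), ((be M i : ℝ) : 𝕜) * inner 𝕜 (E ⟨M, (k, i)⟩) (z 𝕜 E k N) := by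
    conv_lhs => rw [z]
    rw [sum_inner]
    apply Finset.sum_congr rfl
    intro i _
    rw [inner_smul_left, RCLike.conj_ofReal]
  rw [h1]
  simp only [inner_E_z hE, and_true]
  split_ifs with hMN
  · have h2 := sum_be_sq M
    have h3 : ((∑ i : Fin (M + 1), be M i * be M i : ℝ) : 𝕜) = 1 := by rw [h2]; simp
    push_cast at h3
    exact h3
  · simp

/-- the key estimate -/
theorem key_bound (k' : Bool) (κ : Bool) (A : Finset II) (c : II → 𝕜)
    (hc : ∀ s ∈ A, ‖c s‖ ≤ if s.2.1 = κ then om s.2.2 else 0) :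
    ‖∑ s ∈ A, c s • z 𝕜 E k' s.1‖ ≤ 2 * √(A.card : ℝ) := by
  classical
  let P := A.image Sigma.fst
  let σ : ℕ → 𝕜 := fun N => ∑ s ∈ A.filter (fun s => s.1 = N), c s
  have h1 : ∑ s ∈ A, c s • z 𝕜 E k' s.1 = ∑ N ∈ P, σ N • z 𝕜 E k' N := by
    rw [← Finset.sum_fiberwise_of_maps_to (s := A) (t := P) (g := Sigma.fst)
      (fun s hs => Finset.mem_image_of_mem _ hs)]
    apply Finset.sum_congr rfl
    intro N _
    rw [Finset.sum_smul]
    apply Finset.sum_congr rfl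
    intro s hs
    rw [(Finset.mem_filter.1 hs).2]
  have h2 : ∀ N, ‖σ N‖ ≤ 2 * √(((A.filter (fun s => s.1 = N)).card : ℕ) : ℝ) := by
    intro N
    set AN := A.filter (fun s => s.1 = N) with hAN
    set BN := AN.filter (fun s => s.2.1 = κ) with hBN
    calc ‖σ N‖ ≤ ∑ s ∈ AN, ‖c s‖ := norm_sum_le _ _
      _ ≤ ∑ s ∈ AN, (if s.2.1 = κ then om s.2.2 else 0) :=
          Finset.sum_le_sum fun s hs => hc s (Finset.mem_filter.1 hs).1
      _ = ∑ s ∈ BN, om s.2.2 := (Finset.sum_filter (s := AN) (fun s => s.2.1 = κ) _).symm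
      _ = ∑ i ∈ BN.image (fun s => ((s.2.2 : Fin (s.1 + 1)) : ℕ)), om i := by
          rw [Finset.sum_image]
          intro s hs t ht hst
          obtain ⟨hs1, hs2⟩ := Finset.mem_filter.1 hs
          obtain ⟨ht1, ht2⟩ := Finset.mem_filter.1 ht
          have hs3 := (Finset.mem_filter.1 hs1).2
          have ht3 := (Finset.mem_filter.1 ht1).2
          obtain ⟨N1, k1, i1⟩ := s
          obtain ⟨N2, k2, i2⟩ := t
          simp only at hs2 ht2 hs3 ht3 hst
          subst hs3 hs2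
          subst ht3 ht2
          have : i1 = i2 := Fin.ext hst
          rw [this]
      _ ≤ 2 * √(((BN.image (fun s => ((s.2.2 : Fin (s.1 + 1)) : ℕ))).card : ℕ) : ℝ) := TQG.wsum _
      _ ≤ 2 * √((AN.card : ℕ) : ℝ) := by
          apply mul_le_mul_of_nonneg_left _ (by norm_num)
          apply Real.sqrt_le_sqrt
          exact_mod_cast (Finset.card_image_le).trans (Finset.card_filter_le _ _)
  have h3 : ‖∑ s ∈ A, c s • z 𝕜 E k' s.1‖ ^ 2 ≤ (2 * √(A.card : ℝ)) ^ 2 := by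
    rw [h1, norm_sq_sum (orthonormal_z hE k'), mul_pow, Real.sq_sqrt (by positivity)]
    have h4 : (A.card : ℝ) = ∑ N ∈ P, (((A.filter (fun s => s.1 = N)).card : ℕ) : ℝ) := by
      rw [← Nat.cast_sum, ← Finset.card_eq_sum_card_fiberwise
        (fun s hs => Finset.mem_image_of_mem _ hs)]
    rw [h4, Finset.mul_sum]
    apply Finset.sum_le_sum
    intro N _
    have h5 := pow_le_pow_left₀ (norm_nonneg _) (h2 N) 2
    rw [mul_pow, Real.sq_sqrt (by positivity)] at h5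
    linarith
  exact le_of_sq_le_sq h3 (by positivity)

omit hE in
variable (𝕜 E) in
/-- the basis -/
noncomputable def X (s : II) : H :=
  E s + (if s.2.1 = false then ((om s.2.2 : ℝ) : 𝕜) else 0) • z 𝕜 E true s.1

omit hE in
variable (𝕜 E) in
/-- the dual basis -/
noncomputable def XS (s : II) : H :=
  E s - (if s.2.1 = true then ((om s.2.2 : ℝ) : 𝕜) else 0) • z 𝕜 E false s.1

theorem norm_E_sum (A : Finset II) (ε : II → 𝕜) (hε : ∀ s ∈ A, ‖ε s‖ = 1) :
    ‖∑ s ∈ A, ε s • E s‖ = √(A.card : ℝ) := by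
  rw [← Real.sqrt_sq (norm_nonneg _), norm_sq_sum hE]
  congr 1
  rw [Finset.sum_congr rfl (fun s hs => by rw [hε s hs, one_pow])]
  simp

theorem norm_X_sum (A : Finset II) (ε : II → 𝕜) (hε : ∀ s ∈ A, ‖ε s‖ = 1) :
    ‖∑ s ∈ A, ε s • X 𝕜 E s‖ ≤ 3 * √(A.card : ℝ) := by
  have h1 : ∑ s ∈ A, ε s • X 𝕜 E s = ∑ s ∈ A, ε s • E s +
      ∑ s ∈ A, (ε s * (if s.2.1 = false then ((om s.2.2 : ℝ) : 𝕜) else 0)) • z 𝕜 E true s.1 := by
    rw [← Finset.sum_add_distrib]
    apply Finset.sum_congr rfl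
    intro s _
    unfold X
    rw [smul_add, smul_smul]
  have h2 := key_bound hE true false A
    (fun s => ε s * (if s.2.1 = false then ((om s.2.2 : ℝ) : 𝕜) else 0)) (by
      intro s hs
      rw [norm_mul, hε s hs, one_mul]
      split_ifs
      · rw [RCLike.norm_ofReal, abs_of_pos (om_pos _)]
      · rw [norm_zero])
  rw [h1]
  refine (norm_add_le _ _).trans ?_
  rw [norm_E_sum hE A ε hε]
  linarith

theorem norm_XS_sum (A : Finset II) (ε : II → 𝕜) (hε : ∀ s ∈ A, ‖ε s‖ = 1) :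
    ‖∑ s ∈ A, ε s • XS 𝕜 E s‖ ≤ 3 * √(A.card : ℝ) := by
  have h1 : ∑ s ∈ A, ε s • XS 𝕜 E s = ∑ s ∈ A, ε s • E s -
      ∑ s ∈ A, (ε s * (if s.2.1 = true then ((om s.2.2 : ℝ) : 𝕜) else 0)) • z 𝕜 E false s.1 := by
    rw [← Finset.sum_sub_distrib]
    apply Finset.sum_congr rfl
    intro s _
    unfold XS
    rw [smul_sub, smul_smul]
  have h2 := key_bound hE false true A
    (fun s => ε s * (if s.2.1 = true then ((om s.2.2 : ℝ) : 𝕜) else 0)) (by
      intro s hs
      rw [norm_mul, hε s hs, one_mul]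
      split_ifs
      · rw [RCLike.norm_ofReal, abs_of_pos (om_pos _)]
      · rw [norm_zero])
  rw [h1]
  refine (norm_sub_le _ _).trans ?_
  rw [norm_E_sum hE A ε hε]
  linarith

theorem biorth (s t : II) : inner 𝕜 (XS 𝕜 E s) (X 𝕜 E t) = if s = t then 1 else 0 := by
  obtain ⟨M, k, i⟩ := s
  obtain ⟨N, l, j⟩ := t
  unfold X XS
  have hconj : (starRingEnd 𝕜) (if k = true then ((om i : ℝ) : 𝕜) else 0) =
      if k = true then ((om i : ℝ) : 𝕜) else 0 := by split_ifs <;> simp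
  rw [inner_sub_left, inner_add_right, inner_add_right, inner_smul_left, inner_smul_left,
    inner_smul_right, inner_smul_right, inner_E_z hE, inner_z_E hE, orthonormal_iff_ite.1 hE,
    hconj]
  have hz : inner 𝕜 (z 𝕜 E false M) (z 𝕜 E true N) = 0 := by
    conv_lhs => rw [z]
    rw [sum_inner, Finset.sum_eq_zero]
    intro b _
    rw [inner_smul_left, inner_E_z hE, if_neg (fun h => by simp at h), mul_zero]
  rw [hz]
  by_cases hMN : M = N
  · subst hMN
    cases k <;> cases l <;> simp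
    · unfold be
      push_cast
      ring
  · have h1 : ¬ (N = M) := fun h => hMN h.symm
    simp [hMN, h1]

theorem norm_z (k : Bool) (N : ℕ) : ‖z 𝕜 E k N‖ = 1 := (orthonormal_z hE k).1 N

theorem norm_X_le (s : II) : ‖X 𝕜 E s‖ ≤ 3 := by
  have := norm_X_sum hE {s} (fun _ => 1) (fun _ _ => norm_one)
  simpa using this

theorem norm_XS_le (s : II) : ‖XS 𝕜 E s‖ ≤ 3 := by
  have := norm_XS_sum hE {s} (fun _ => 1) (fun _ _ => norm_one)
  simpa using this

omit hE in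
theorem E_mem_span (s : II) : E s ∈ Submodule.span 𝕜 (Set.range (X 𝕜 E)) := by
  have h1 : ∀ N i, E ⟨N, (true, i)⟩ ∈ Submodule.span 𝕜 (Set.range (X 𝕜 E)) := by
    intro N i
    apply Submodule.subset_span
    refine ⟨⟨N, (true, i)⟩, ?_⟩
    unfold X
    simp
  have h2 : ∀ N, z 𝕜 E true N ∈ Submodule.span 𝕜 (Set.range (X 𝕜 E)) := fun N =>
    Submodule.sum_mem _ fun i _ => Submodule.smul_mem _ _ (h1 N i)
  have h3 : E s = X 𝕜 E s - (if s.2.1 = false then ((om s.2.2 : ℝ) : 𝕜) else 0) • z 𝕜 E true s.1 := by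
    unfold X; rw [add_sub_cancel_right]
  rw [h3]
  exact Submodule.sub_mem _ (Submodule.subset_span ⟨s, rfl⟩) (Submodule.smul_mem _ _ (h2 _))

omit hE in
theorem sep (f : H) (hf : ∀ s, inner 𝕜 (XS 𝕜 E s) f = 0) (s : II) : inner 𝕜 (E s) f = 0 := by
  have h1 : ∀ N i, inner 𝕜 (E ⟨N, (false, i)⟩) f = 0 := by
    intro N i
    have := hf ⟨N, (false, i)⟩
    unfold XS at this
    simpa using this
  have h2 : ∀ N, inner 𝕜 (z 𝕜 E false N) f = 0 := by
    intro N
    unfold z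
    rw [sum_inner, Finset.sum_eq_zero]
    intro i _
    rw [inner_smul_left, h1, mul_zero]
  have h3 := hf s
  unfold XS at h3
  rw [inner_sub_left, inner_smul_left, h2, mul_zero, sub_zero] at h3
  exact h3

/-- lower estimate for the test vectors -/
theorem lower (N : ℕ) :
    h N ≤ ‖∑ i : Fin (N + 1), ((om i : ℝ) : 𝕜) • X 𝕜 E ⟨N, (false, i)⟩‖ := by
  have h1 : inner 𝕜 (z 𝕜 E true N) (∑ i : Fin (N + 1), ((om i : ℝ) : 𝕜) • X 𝕜 E ⟨N, (false, i)⟩) =
      ((h N : ℝ) : 𝕜) := by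
    rw [inner_sum]
    have h2 : ∀ i : Fin (N + 1), inner 𝕜 (z 𝕜 E true N) (((om i : ℝ) : 𝕜) • X 𝕜 E ⟨N, (false, i)⟩) =
        ((1 / (((i : ℕ) : ℝ) + 1) : ℝ) : 𝕜) := by
      intro i
      unfold X
      have hzz : inner 𝕜 (z 𝕜 E true N) (z 𝕜 E true N) = 1 := by
        have := orthonormal_iff_ite.1 (orthonormal_z hE true) N N
        simpa using this
      rw [inner_smul_right, inner_add_right, inner_z_E hE, inner_smul_right, hzz,
        if_neg (fun h => by simp at h), if_pos rfl, zero_add, mul_one, ← RCLike.ofReal_mul,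
        ← sq, om_sq]
    simp only [h2]
    unfold h
    push_cast
    rfl
  have h2 := norm_inner_le_norm (𝕜 := 𝕜) (z 𝕜 E true N)
    (∑ i : Fin (N + 1), ((om i : ℝ) : 𝕜) • X 𝕜 E ⟨N, (false, i)⟩)
  rw [h1, norm_z hE, one_mul, RCLike.norm_ofReal, abs_of_pos (h_pos N)] at h2
  exact h2

end Hilbert

end Q101.Lorentz
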