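import Mathlib

set_option autoImplicit false

open Filter Topology
open scoped ENNReal

namespace Q101.Modular

section General

variable {X : Type*} [AddCommGroup X] [Module ℝ X]

/-- the modular space of `ρ` -/
abbrev Sp (ρ : X → ℝ≥0∞) : Type _ := {v : X // ∃ l : ℝ, 0 < l ∧ ρ (l • v) < ∞}

variable {ρ : X → ℝ≥0∞}

/-- modular convergence of sequences -/
def Conv (u : ℕ → Sp ρ) (x : Sp ρ) : Prop :=
  Tendsto (fun n => ρ ((u n : X) - (x : X))) atTop (𝓝 0)

/-- modularly closed sets -/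
def IsRClosed (F : Set (Sp ρ)) : Prop :=
  ∀ (u : ℕ → Sp ρ) (x : Sp ρ), (∀ n, u n ∈ F) → Conv u x → x ∈ F

theorem Conv.subseq {u : ℕ → Sp ρ} {x : Sp ρ} (h : Conv u x) {φ : ℕ → ℕ} (hφ : StrictMono φ) :
    Conv (fun n => u (φ n)) x := by
  have h' : Tendsto (fun n => ρ ((u n : X) - (x : X))) atTop (𝓝 0) := h
  exact h'.comp hφ.tendsto_atTop

/-- the modular topology -/
@[reducible] def top (ρ : X → ℝ≥0∞) : TopologicalSpace (Sp ρ) where
  IsOpen U := IsRClosed (ρ := ρ) Uᶜ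
  isOpen_univ := by
    intro u x hu _
    exact absurd (Set.mem_univ _) (hu 0)
  isOpen_inter := by
    intro s t hs ht u x hu hx
    by_contra hcon
    rw [Set.mem_compl_iff, not_not] at hcon
    by_cases hfreq : ∃ᶠ n in atTop, u n ∉ s
    · obtain ⟨φ, hφ, hφ'⟩ := extraction_of_frequently_atTop hfreq
      exact hs _ x hφ' (hx.subseq hφ) hcon.1
    · rw [not_frequently] at hfreq
      have hev : ∀ᶠ n in atTop, u n ∉ t := by
        filter_upwards [hfreq] with n hn hnt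
        rw [not_not] at hn
        exact hu n ⟨hn, hnt⟩
      obtain ⟨φ, hφ, hφ'⟩ := extraction_of_frequently_atTop hev.frequently
      exact ht _ x hφ' (hx.subseq hφ) hcon.2
  isOpen_sUnion := by
    intro S hS u x hu hx
    rw [Set.mem_compl_iff]
    rintro ⟨s, hs, hxs⟩
    refine hS s hs u x (fun n hn => hu n ⟨s, hs, hn⟩) hx hxs

theorem isOpen_iff {U : Set (Sp ρ)} : IsOpen[top ρ] U ↔ IsRClosed Uᶜ := Iff.rfl

theorem isClosed_iff {F : Set (Sp ρ)} : IsClosed[top ρ] F ↔ IsRClosed F := by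
  rw [← @isOpen_compl_iff _ _ (top ρ), isOpen_iff, compl_compl]

theorem eventually_mem {U : Set (Sp ρ)} (hU : IsRClosed Uᶜ) {u : ℕ → Sp ρ} {x : Sp ρ}
    (hx : x ∈ U) (h : Conv u x) : ∀ᶠ n in atTop, u n ∈ U := by
  by_contra hcon
  rw [not_eventually] at hcon
  obtain ⟨φ, hφ, hφ'⟩ := extraction_of_frequently_atTop hcon
  exact hU _ x hφ' (h.subseq hφ) hx

/-- failing separation contradicts regularity -/
theorem not_regular {F : Set (Sp ρ)} {x : Sp ρ} (hF : IsRClosed F) (hx : x ∉ F)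
    (h : ∀ U V : Set (Sp ρ), IsRClosed Uᶜ → IsRClosed Vᶜ → x ∈ U → F ⊆ V → (U ∩ V).Nonempty) :
    ¬ @RegularSpace (Sp ρ) (top ρ) := by
  intro hreg
  let _ := top ρ
  have h1 := hreg.regular (isClosed_iff.2 hF) hx
  obtain ⟨V, hV, U, hU, hd⟩ := Filter.disjoint_iff.1 h1
  obtain ⟨V', hV'o, hFV', hV'V⟩ := mem_nhdsSet_iff_exists.1 hV
  obtain ⟨U', hU'U, hU'o, hxU'⟩ := mem_nhds_iff.1 hU
  obtain ⟨y, hyU, hyV⟩ := h U' V' hU'o hV'o hxU' hFV'
  exact Set.disjoint_left.1 hd (hV'V hyV) (hU'U hyU)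

end General

section Ell

/-- the modular of `ℓ^{(p_n)}` -/
noncomputable def rho (p : ℕ → ℝ) (a : ℕ → ℝ) : ℝ≥0∞ := ∑' j, ‖a j‖ₑ ^ p j

variable {p : ℕ → ℝ}

theorem term_le_rho (a : ℕ → ℝ) (j : ℕ) : ‖a j‖ₑ ^ p j ≤ rho p a := ENNReal.le_tsum j

theorem rho_eq_zero (hp : ∀ n, 1 ≤ p n) {a : ℕ → ℝ} (h : rho p a = 0) : a = 0 := by
  funext j
  have h1 := term_le_rho (p := p) a j
  rw [h] at h1
  have h2 : ‖a j‖ₑ ^ p j = 0 := le_antisymm h1 zero_le
  rw [ENNReal.rpow_eq_zero_iff_of_pos (by linarith [hp j])] at h2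
  exact enorm_eq_zero.1 h2

/-- small modular gives small coordinates -/
theorem coord_lt (hp : ∀ n, 1 ≤ p n) {a : ℕ → ℝ} {j : ℕ} {δ : ℝ} (hδ : 0 < δ)
    (h : rho p a < ENNReal.ofReal δ ^ p j) : |a j| < δ := by
  have h1 := (term_le_rho (p := p) a j).trans_lt h
  rw [ENNReal.rpow_lt_rpow_iff (by linarith [hp j])] at h1
  rw [← ofReal_norm, Real.norm_eq_abs] at h1
  exact (ENNReal.ofReal_lt_ofReal_iff hδ).1 h1

/-- codes of nodes of the binary tree -/
def c (σ : ℕ → Bool) : ℕ → ℕ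
  | 0 => 1
  | k + 1 => 2 * c σ k + (if σ k then 1 else 0)

theorem c_bounds (σ : ℕ → Bool) (k : ℕ) : 2 ^ k ≤ c σ k ∧ c σ k < 2 ^ (k + 1) := by
  induction k with
  | zero => simp [c]
  | succ k ih =>
    rw [c, pow_succ, pow_succ 2 (k + 1)]
    split_ifs <;> omega

theorem lt_c (σ : ℕ → Bool) (k : ℕ) : k < c σ k := by
  have h1 := (c_bounds σ k).1
  have h2 : k < 2 ^ k := Nat.lt_pow_self (by norm_num)
  omega

theorem c_level {σ τ : ℕ → Bool} {k l : ℕ} (h : c σ k = c τ l) : k = l := by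
  obtain ⟨h1, h2⟩ := c_bounds σ k
  obtain ⟨h3, h4⟩ := c_bounds τ l
  by_contra hne
  rcases lt_or_gt_of_ne hne with hlt | hlt
  · have : 2 ^ (k + 1) ≤ 2 ^ l := Nat.pow_le_pow_right (by norm_num) hlt
    omega
  · have : 2 ^ (l + 1) ≤ 2 ^ k := Nat.pow_le_pow_right (by norm_num) hlt
    omega

theorem c_agree {σ τ : ℕ → Bool} {k : ℕ} (h : ∀ i < k, σ i = τ i) : c σ k = c τ k := by
  induction k with
  | zero => rfl
  | succ k ih =>
    rw [c, c, ih (fun i hi => h i (by omega)), h k (by omega)]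

theorem agree_of_c {σ τ : ℕ → Bool} {k : ℕ} (h : c σ k = c τ k) : ∀ i < k, σ i = τ i := by
  induction k with
  | zero => intro i hi; omega
  | succ k ih =>
    rw [c, c] at h
    have h1 : c σ k = c τ k ∧ σ k = τ k := by
      cases h2 : σ k <;> cases h3 : τ k <;> simp [h2, h3] at h ⊢ <;> omega
    intro i hi
    rcases Nat.lt_succ_iff_lt_or_eq.1 hi with h4 | h4
    · exact ih h1.1 i h4
    · rw [h4]; exact h1.2

theorem c_inj (σ : ℕ → Bool) : Function.Injective (c σ) := fun _ _ h => c_level h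

/-- the ratio `9/10` -/
noncomputable def rr : ℝ≥0∞ := ENNReal.ofReal (9 / 10)

theorem rr_lt_one : rr < 1 := by
  rw [rr, ← ENNReal.ofReal_one]
  exact (ENNReal.ofReal_lt_ofReal_iff one_pos).2 (by norm_num)

/-- tails of the geometric series -/
noncomputable def eps (N : ℕ) : ℝ≥0∞ := ∑' k, rr ^ (k + N)

theorem sum_rr : ∑' k, rr ^ k ≠ ∞ := by
  rw [ENNReal.tsum_geometric]
  simp only [ne_eq, ENNReal.inv_eq_top]
  exact (tsub_pos_of_lt rr_lt_one).ne'

theorem eps_tendsto : Tendsto eps atTop (𝓝 0) := ENNReal.tendsto_sum_nat_add _ sum_rr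

theorem eps_zero_lt : eps 0 < ∞ := by
  have := sum_rr
  rw [eps]
  simpa using this.lt_top

/-- small vectors far out have small modular -/
theorem rho_le_eps {g : ℕ → ℕ} (hg : StrictMono g) (hpg : ∀ c : ℕ, (c : ℝ) ≤ p (g c)) {u : ℕ → ℝ}
    {N : ℕ} (hu : ∀ j, |u j| ≤ 9 / 10) (hs : ∀ j, u j ≠ 0 → ∃ c, N ≤ c ∧ g c = j)
    (hp : ∀ n, 1 ≤ p n) :
    rho p u ≤ eps N := by
  have hinj : Function.Injective (fun k => g (k + N)) := fun a b h => by
    have := hg.injective h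
    omega
  rw [rho, eps, ← tsum_extend_zero hinj (fun k => rr ^ (k + N))]
  refine ENNReal.tsum_le_tsum fun j => ?_
  by_cases h0 : u j = 0
  · rw [h0, enorm_zero, ENNReal.zero_rpow_of_pos (by linarith [hp j])]
    exact zero_le
  · obtain ⟨c, hc, rfl⟩ := hs j h0
    obtain ⟨k, rfl⟩ := Nat.exists_eq_add_of_le' hc
    have h1 : Function.extend (fun k => g (k + N)) (fun k => rr ^ (k + N)) 0 (g (k + N)) =
        rr ^ (k + N) := hinj.extend_apply (fun k => rr ^ (k + N)) 0 k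
    rw [h1]
    have h2 : ‖u (g (k + N))‖ₑ ≤ rr := by
      rw [← ofReal_norm, Real.norm_eq_abs, rr]
      exact ENNReal.ofReal_le_ofReal (hu _)
    calc ‖u (g (k + N))‖ₑ ^ p (g (k + N)) ≤ rr ^ p (g (k + N)) :=
          ENNReal.rpow_le_rpow h2 (by linarith [hp (g (k + N))])
      _ ≤ rr ^ ((k + N : ℕ) : ℝ) := ENNReal.rpow_le_rpow_of_exponent_ge rr_lt_one.le (hpg _)
      _ = rr ^ (k + N) := ENNReal.rpow_natCast _ _

/-- the vector with level function `f` along the branch `σ` -/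
noncomputable def vec (g : ℕ → ℕ) (σ : ℕ → Bool) (f : ℕ → ℝ) : ℕ → ℝ :=
  Function.extend (fun l => g (c σ l)) f 0

theorem vec_apply {g : ℕ → ℕ} (hg : StrictMono g) (σ : ℕ → Bool) (f : ℕ → ℝ) (l : ℕ) :
    vec g σ f (g (c σ l)) = f l :=
  (hg.injective.comp (c_inj σ)).extend_apply f 0 l

theorem vec_apply' {g : ℕ → ℕ} (σ : ℕ → Bool) (f : ℕ → ℝ) {j : ℕ}
    (hj : ¬ ∃ l, g (c σ l) = j) : vec g σ f j = 0 := by
  rw [vec, Function.extend_apply' _ _ _ hj]; rfl

theorem vec_ne {g : ℕ → ℕ} {σ : ℕ → Bool} {f : ℕ → ℝ} {j : ℕ} (hj : vec g σ f j ≠ 0) :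
    ∃ l, g (c σ l) = j := by
  by_contra h
  exact hj (vec_apply' σ f h)

theorem vec_bound {g : ℕ → ℕ} (hg : StrictMono g) (σ : ℕ → Bool) {f : ℕ → ℝ} {C : ℝ}
    (hC : 0 ≤ C) (hf : ∀ l, |f l| ≤ C) (j : ℕ) : |vec g σ f j| ≤ C := by
  by_cases h : ∃ l, g (c σ l) = j
  · obtain ⟨l, rfl⟩ := h
    rw [vec_apply hg]; exact hf l
  · rw [vec_apply' σ f h]; simpa using hC

theorem vec_mem {g : ℕ → ℕ} (hg : StrictMono g) (hpg : ∀ c : ℕ, (c : ℝ) ≤ p (g c))
    (hp : ∀ n, 1 ≤ p n) (σ : ℕ → Bool) {f : ℕ → ℝ} (hf : ∀ l, |f l| ≤ 9 / 5) :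
    ∃ l : ℝ, 0 < l ∧ rho p (l • vec g σ f) < ∞ := by
  refine ⟨1 / 2, by norm_num, ?_⟩
  refine (rho_le_eps (N := 0) hg hpg (fun j => ?_) (fun j hj => ?_) hp).trans_lt eps_zero_lt
  · have := vec_bound hg σ (by norm_num) hf j
    rw [Pi.smul_apply, smul_eq_mul, abs_mul, abs_of_pos (by norm_num : (0:ℝ) < 1 / 2)]
    linarith
  · have h1 : vec g σ f j ≠ 0 := by
      intro h0; apply hj; rw [Pi.smul_apply, h0, smul_zero]
    obtain ⟨l, hl⟩ := vec_ne h1
    exact ⟨_, Nat.zero_le _, hl⟩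

/-- differences along one branch -/
theorem diff_same {g : ℕ → ℕ} (hg : StrictMono g) (hpg : ∀ c : ℕ, (c : ℝ) ≤ p (g c))
    (hp : ∀ n, 1 ≤ p n) (σ : ℕ → Bool) {f f' : ℕ → ℝ} {N : ℕ} (hN : ∀ l < N, f l = f' l)
    (hd : ∀ l, |f l - f' l| ≤ 9 / 10) :
    rho p (vec g σ f - vec g σ f') ≤ eps N := by
  refine rho_le_eps hg hpg (fun j => ?_) (fun j hj => ?_) hp
  · by_cases h : ∃ l, g (c σ l) = j
    · obtain ⟨l, rfl⟩ := h
      rw [Pi.sub_apply, vec_apply hg, vec_apply hg]; exact hd l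
    · rw [Pi.sub_apply, vec_apply' σ f h, vec_apply' σ f' h]; norm_num
  · by_cases h : ∃ l, g (c σ l) = j
    · obtain ⟨l, rfl⟩ := h
      rw [Pi.sub_apply, vec_apply hg, vec_apply hg] at hj
      refine ⟨_, ?_, rfl⟩
      have : N ≤ l := by
        by_contra hl
        exact hj (by rw [hN l (by omega), sub_self])
      exact this.trans (lt_c σ l).le
    · exact absurd (by rw [Pi.sub_apply, vec_apply' σ f h, vec_apply' σ f' h, sub_self]) hj

/-- differences along two branches with a long common part -/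
theorem diff_branch {g : ℕ → ℕ} (hg : StrictMono g) (hpg : ∀ c : ℕ, (c : ℝ) ≤ p (g c))
    (hp : ∀ n, 1 ≤ p n) {σ τ : ℕ → Bool} {f : ℕ → ℝ} {N : ℕ} (hN : ∀ l < N, σ l = τ l)
    (hf : ∀ l, N ≤ l → 0 ≤ f l ∧ f l ≤ 9 / 10) :
    rho p (vec g σ f - vec g τ f) ≤ eps N := by
  have key : ∀ j, (vec g σ f - vec g τ f) j ≠ 0 →
      |(vec g σ f - vec g τ f) j| ≤ 9 / 10 ∧ ∃ c, N ≤ c ∧ g c = j := by
    intro j hj
    by_cases h : ∃ l, g (c σ l) = j
    · obtain ⟨l, rfl⟩ := h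
      by_cases h' : ∃ l', g (c τ l') = g (c σ l)
      · obtain ⟨l', hl'⟩ := h'
        have h1 := hg.injective hl'
        have h2 := c_level h1
        subst h2
        exfalso; apply hj
        rw [Pi.sub_apply, vec_apply hg, ← h1, vec_apply hg, sub_self]
      · have hl : N ≤ l := by
          by_contra hlt
          exact h' ⟨l, by rw [c_agree (fun i hi => (hN i (by omega)).symm)]⟩
        rw [Pi.sub_apply, vec_apply hg, vec_apply' τ f h', sub_zero]
        refine ⟨?_, _, hl.trans (lt_c σ l).le, rfl⟩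
        rw [abs_of_nonneg (hf l hl).1]; exact (hf l hl).2
    · by_cases h' : ∃ l, g (c τ l) = j
      · obtain ⟨l, rfl⟩ := h'
        have hl : N ≤ l := by
          by_contra hlt
          exact h ⟨l, by rw [c_agree (fun i hi => (hN i (by omega)))]⟩
        rw [Pi.sub_apply, vec_apply' σ f h, vec_apply hg, zero_sub, abs_neg]
        refine ⟨?_, _, hl.trans (lt_c τ l).le, rfl⟩
        rw [abs_of_nonneg (hf l hl).1]; exact (hf l hl).2
      · exfalso; apply hj
        rw [Pi.sub_apply, vec_apply' σ f h, vec_apply' τ f h', sub_zero]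
  refine rho_le_eps hg hpg (fun j => ?_) (fun j hj => (key j hj).2) hp
  by_cases h0 : (vec g σ f - vec g τ f) j = 0
  · rw [h0]; norm_num
  · exact (key j h0).1

/-- level functions -/
noncomputable def fX (n l : ℕ) : ℝ := if l < n then 0 else 9 / 10

/-- level functions -/
noncomputable def fA (n m k l : ℕ) : ℝ :=
  if l < n then 0 else if m ≤ l ∧ l < k then 9 / 5 else 9 / 10

/-- level functions -/
noncomputable def fB (n m l : ℕ) : ℝ := if l < n then 0 else if m ≤ l then 9 / 5 else 9 / 10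

theorem fX_bd (n l : ℕ) : |fX n l| ≤ 9 / 10 := by rw [fX]; split_ifs <;> norm_num
theorem fX_bd' (n l : ℕ) : |fX n l| ≤ 9 / 5 := by rw [fX]; split_ifs <;> norm_num
theorem fA_bd (n m k l : ℕ) : |fA n m k l| ≤ 9 / 5 := by rw [fA]; split_ifs <;> norm_num
theorem fB_bd (n m l : ℕ) : |fB n m l| ≤ 9 / 5 := by rw [fB]; split_ifs <;> norm_num

/-- the special branches -/
def br (x : ℕ × List Bool × ℕ) (i : ℕ) : Bool :=
  if h : i < x.2.1.length then x.2.1[i] else
    decide (i = Nat.pair (Encodable.encode x) x.2.1.length)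

theorem br_at (x : ℕ × List Bool × ℕ) :
    br x (Nat.pair (Encodable.encode x) x.2.1.length) = true := by
  have h : ¬ Nat.pair (Encodable.encode x) x.2.1.length < x.2.1.length :=
    not_lt.2 (Nat.right_le_pair _ _)
  rw [br, dif_neg h]; simp

theorem br_true {x : ℕ × List Bool × ℕ} {i : ℕ} (h : br x i = true)
    (hi : i ≠ Nat.pair (Encodable.encode x) x.2.1.length) : i < x.2.1.length := by
  by_contra hcon
  rw [br, dif_neg hcon] at h
  simp [hi] at h

theorem br_inj : Function.Injective br := by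
  intro x y hxy
  by_contra hne
  have hP : Nat.pair (Encodable.encode x) x.2.1.length ≠
      Nat.pair (Encodable.encode y) y.2.1.length := by
    intro h
    exact hne (Encodable.encode_injective (Nat.pair_eq_pair.1 h).1)
  have h1 := br_true (x := y) (by rw [← hxy]; exact br_at x) hP
  have h2 := br_true (x := x) (by rw [hxy]; exact br_at y) hP.symm
  have h3 := Nat.right_le_pair (Encodable.encode x) x.2.1.length
  have h4 := Nat.right_le_pair (Encodable.encode y) y.2.1.length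
  omega

theorem br_prefix (n m : ℕ) (τ : ℕ → Bool) (k : ℕ) :
    ∀ i < k, br (n, (List.range k).map τ, m) i = τ i := by
  intro i hi
  have : i < ((n, (List.range k).map τ, m) : ℕ × List Bool × ℕ).2.1.length := by simpa using hi
  rw [br, dif_pos this]
  simp

/-- the vectors as elements of the modular space -/
noncomputable def vv {g : ℕ → ℕ} (hg : StrictMono g) (hpg : ∀ c : ℕ, (c : ℝ) ≤ p (g c))
    (hp : ∀ n, 1 ≤ p n) (σ : ℕ → Bool) (f : ℕ → ℝ) (hf : ∀ l, |f l| ≤ 9 / 5) : Sp (rho p) :=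
  ⟨vec g σ f, vec_mem hg hpg hp σ hf⟩

/-- the closed set -/
def FF {g : ℕ → ℕ} (hg : StrictMono g) (hpg : ∀ c : ℕ, (c : ℝ) ≤ p (g c))
    (hp : ∀ n, 1 ≤ p n) : Set (Sp (rho p)) :=
  Set.range fun x : ℕ × List Bool × ℕ => vv hg hpg hp (br x) (fB x.1 x.2.2) (fB_bd _ _)

theorem FF_closed {g : ℕ → ℕ} (hg : StrictMono g) (hpg : ∀ c : ℕ, (c : ℝ) ≤ p (g c))
    (hp : ∀ n, 1 ≤ p n) : IsRClosed (FF hg hpg hp) := by
  intro u z hu hz
  choose x hx using hu
  have hz' : Tendsto (fun n => rho p ((u n : ℕ → ℝ) - (z : ℕ → ℝ))) atTop (𝓝 0) := hz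
  have h1 : ∀ᶠ n in atTop, rho p ((u n : ℕ → ℝ) - (z : ℕ → ℝ)) < 1 :=
    hz'.eventually (gt_mem_nhds one_pos)
  obtain ⟨N, hN⟩ := eventually_atTop.1 h1
  by_cases hall : ∀ i, N ≤ i → x i = x N
  · have h2 : rho p ((u N : ℕ → ℝ) - (z : ℕ → ℝ)) = 0 := by
      have h3 : ∀ i, N ≤ i → u i = u N := fun i hi => by rw [← hx, ← hx, hall i hi]
      have h4 : Tendsto (fun n => rho p ((u n : ℕ → ℝ) - (z : ℕ → ℝ))) atTop
          (𝓝 (rho p ((u N : ℕ → ℝ) - (z : ℕ → ℝ)))) := by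
        refine tendsto_const_nhds.congr' ?_
        filter_upwards [eventually_ge_atTop N] with i hi
        rw [h3 i hi]
      exact tendsto_nhds_unique h4 hz'
    have h3 : (u N : ℕ → ℝ) = z := sub_eq_zero.1 (rho_eq_zero hp h2)
    have h4 : u N = z := Subtype.ext h3
    rw [← h4, ← hx]
    exact ⟨x N, rfl⟩
  · push Not at hall
    obtain ⟨i, hi, hne⟩ := hall
    exfalso
    have hbr : br (x i) ≠ br (x N) := fun h => hne (br_inj h)
    obtain ⟨q, hq⟩ := Function.ne_iff.1 hbr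
    -- large entries of `z`
    have hbig : ∀ i, N ≤ i → ∀ l, (x i).1 ≤ l → (x i).2.2 ≤ l →
        (4 / 5 : ℝ) < (z : ℕ → ℝ) (g (c (br (x i)) l)) := by
      intro i hi l hl1 hl2
      have h2 : rho p ((u i : ℕ → ℝ) - (z : ℕ → ℝ)) <
          ENNReal.ofReal 1 ^ p (g (c (br (x i)) l)) := by
        rw [ENNReal.ofReal_one, ENNReal.one_rpow]; exact hN i hi
      have h3 := coord_lt hp one_pos h2
      have h4 : (u i : ℕ → ℝ) (g (c (br (x i)) l)) = 9 / 5 := by
        rw [← hx]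
        show vec g (br (x i)) (fB (x i).1 (x i).2.2) _ = _
        rw [vec_apply hg, fB, if_neg (by omega), if_pos hl2]
      rw [Pi.sub_apply, h4] at h3
      have := (abs_lt.1 h3).2
      linarith
    set l := max (max (x i).1 (x i).2.2) (max (max (x N).1 (x N).2.2) (q + 1)) with hl
    have ha := hbig i hi l (by omega) (by omega)
    have hb := hbig N le_rfl l (by omega) (by omega)
    have hev : ∀ j, (4 / 5 : ℝ) < (z : ℕ → ℝ) j → ∀ᶠ n in atTop, (u n : ℕ → ℝ) j ≠ 0 := by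
      intro j hj
      have h2 : ∀ᶠ n in atTop, rho p ((u n : ℕ → ℝ) - (z : ℕ → ℝ)) <
          ENNReal.ofReal (4 / 5) ^ p j := by
        refine hz'.eventually (gt_mem_nhds ?_)
        exact ENNReal.rpow_pos (by simp) (by simp)
      filter_upwards [h2] with n hn h0
      have h3 := coord_lt hp (by norm_num) hn
      rw [Pi.sub_apply, h0, zero_sub, abs_neg] at h3
      have := le_abs_self ((z : ℕ → ℝ) j)
      linarith
    obtain ⟨n, hn1, hn2⟩ := ((hev _ ha).and (hev _ hb)).exists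
    rw [← hx n] at hn1 hn2
    obtain ⟨l1, hl1⟩ := vec_ne (show vec g (br (x n)) (fB (x n).1 (x n).2.2) _ ≠ 0 from hn1)
    obtain ⟨l2, hl2⟩ := vec_ne (show vec g (br (x n)) (fB (x n).1 (x n).2.2) _ ≠ 0 from hn2)
    have e1 := hg.injective hl1
    have e2 := hg.injective hl2
    have e3 := c_level e1
    have e4 := c_level e2
    rw [e3] at e1
    rw [e4] at e2
    have e5 : c (br (x i)) l = c (br (x N)) l := by rw [← e1, ← e2]
    exact hq (agree_of_c e5 q (by omega))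

theorem zero_notMem_FF {g : ℕ → ℕ} (hg : StrictMono g) (hpg : ∀ c : ℕ, (c : ℝ) ≤ p (g c))
    (hp : ∀ n, 1 ≤ p n) {z : Sp (rho p)} (hz : (z : ℕ → ℝ) = 0) : z ∉ FF hg hpg hp := by
  rintro ⟨x, hx⟩
  have h1 : vec g (br x) (fB x.1 x.2.2) = 0 := by rw [← hz, ← hx]; rfl
  have h2 := congrFun h1 (g (c (br x) (max x.1 x.2.2)))
  rw [vec_apply hg, fB, if_neg (by omega), if_pos (by omega)] at h2
  norm_num at h2

theorem conv_of_le {u : ℕ → Sp (rho p)} {z : Sp (rho p)} {N : ℕ → ℕ}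
    (hN : Tendsto N atTop atTop)
    (h : ∀ᶠ n in atTop, rho p ((u n : ℕ → ℝ) - (z : ℕ → ℝ)) ≤ eps (N n)) : Conv u z := by
  refine tendsto_of_tendsto_of_tendsto_of_le_of_le' tendsto_const_nhds (eps_tendsto.comp hN)
    (Eventually.of_forall fun _ => zero_le) h

theorem meet {g : ℕ → ℕ} (hg : StrictMono g) (hpg : ∀ c : ℕ, (c : ℝ) ≤ p (g c))
    (hp : ∀ n, 1 ≤ p n) {z : Sp (rho p)} (hz : (z : ℕ → ℝ) = 0) (U V : Set (Sp (rho p)))
    (hU : IsRClosed Uᶜ) (hV : IsRClosed Vᶜ) (hzU : z ∈ U) (hFV : FF hg hpg hp ⊆ V) :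
    (U ∩ V).Nonempty := by
  -- the sets `D`
  set D : ℕ × ℕ → Set (ℕ → Bool) := fun q =>
    {σ | ∀ k, vv hg hpg hp σ (fA q.1 q.2 k) (fA_bd _ _ _) ∈ U} with hD
  have hcov : ∀ σ, ∃ q, σ ∈ D q := by
    intro σ
    have h1 : Conv (fun n => vv hg hpg hp σ (fX n) (fX_bd' n)) z := by
      refine conv_of_le tendsto_id (Eventually.of_forall fun n => ?_)
      have h2 : (z : ℕ → ℝ) = vec g σ 0 := by
        rw [hz]; funext j
        by_cases h : ∃ l, g (c σ l) = j
        · obtain ⟨l, rfl⟩ := h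
          rw [vec_apply hg]; rfl
        · rw [vec_apply' σ _ h]; rfl
      rw [h2]
      refine diff_same hg hpg hp σ (fun l hl => ?_) (fun l => ?_)
      · rw [fX, if_pos (show l < n from hl)]; rfl
      · rw [Pi.zero_apply, sub_zero]; exact fX_bd n l
    obtain ⟨n, hn⟩ := (eventually_mem hU hzU h1).exists
    by_contra hcon
    push Not at hcon
    have h2 : ∀ m, ∃ k, vv hg hpg hp σ (fA n m k) (fA_bd _ _ _) ∉ U := by
      intro m
      have := hcon (n, m)
      simp only [hD, Set.mem_ofPred_eq, not_forall] at this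
      exact this
    choose k hk using h2
    have h3 : Conv (fun m => vv hg hpg hp σ (fA n m (k m)) (fA_bd _ _ _))
        (vv hg hpg hp σ (fX n) (fX_bd' n)) := by
      refine conv_of_le tendsto_id (Eventually.of_forall fun m => ?_)
      refine diff_same hg hpg hp σ (fun l hl => ?_) (fun l => ?_)
      · have : ¬ (m ≤ l ∧ l < k m) := fun h => absurd h.1 (not_le.2 hl)
        rw [fA, fX, if_neg this]
      · rw [fA, fX]; split_ifs <;> norm_num
    obtain ⟨m, hm⟩ := (eventually_mem hU hn h3).exists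
    exact hk m hm
  -- Baire
  have hB : ∃ q, (interior (closure (D q))).Nonempty := by
    refine nonempty_interior_of_iUnion_of_closed (fun q => isClosed_closure) ?_
    rw [Set.eq_univ_iff_forall]
    intro σ
    obtain ⟨q, hq⟩ := hcov σ
    exact Set.mem_iUnion.2 ⟨q, subset_closure hq⟩
  obtain ⟨⟨n, m⟩, τ, hτ⟩ := hB
  rw [mem_interior] at hτ
  obtain ⟨W, hWD, hWo, hτW⟩ := hτ
  obtain ⟨l0, hl0⟩ : ∃ l0, ∀ σ : ℕ → Bool, (∀ i < l0, σ i = τ i) → σ ∈ W := by
    obtain ⟨I, t, hIt, hsub⟩ := isOpen_pi_iff.1 hWo τ hτW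
    obtain ⟨b, hb⟩ := I.bddAbove
    refine ⟨b + 1, fun σ hσ => hsub ?_⟩
    intro i hi
    have : i ≤ b := hb hi
    rw [hσ i (by omega)]
    exact (hIt i hi).2
  set σ0 : ℕ → Bool := br (n, (List.range l0).map τ, m) with hσ0
  have hp0 : ∀ i < l0, σ0 i = τ i := br_prefix n m τ l0
  have hV0 : vv hg hpg hp σ0 (fB n m) (fB_bd _ _) ∈ V :=
    hFV ⟨(n, (List.range l0).map τ, m), rfl⟩
  have h4 : Conv (fun k => vv hg hpg hp σ0 (fA n m k) (fA_bd _ _ _))
      (vv hg hpg hp σ0 (fB n m) (fB_bd _ _)) := by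
    refine conv_of_le tendsto_id (Eventually.of_forall fun k => ?_)
    refine diff_same hg hpg hp σ0 (fun l hl => ?_) (fun l => ?_)
    · have : l < k := hl
      rw [fA, fB]
      by_cases h1 : m ≤ l
      · simp [h1, this]
      · simp [h1]
    · rw [fA, fB]
      by_cases h0 : l < n
      · simp [h0]; norm_num
      · rw [if_neg h0, if_neg h0]
        by_cases h1 : m ≤ l
        · rw [if_pos h1]; split_ifs <;> norm_num
        · rw [if_neg h1, if_neg (fun h => h1 h.1)]; norm_num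
  obtain ⟨k, hk⟩ := (eventually_mem hV hV0 h4).exists
  -- a neighbourhood in the tree
  have h5 : ∃ l, ∀ σ : ℕ → Bool, (∀ i < l, σ i = σ0 i) →
      vv hg hpg hp σ (fA n m k) (fA_bd _ _ _) ∈ V := by
    by_contra hcon
    push Not at hcon
    choose σs hσs hσs' using hcon
    have h6 : Conv (fun l => vv hg hpg hp (σs l) (fA n m k) (fA_bd _ _ _))
        (vv hg hpg hp σ0 (fA n m k) (fA_bd _ _ _)) := by
      refine conv_of_le tendsto_id ?_
      filter_upwards [eventually_ge_atTop k] with l hl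
      refine diff_branch hg hpg hp (fun i hi => hσs l i hi) (fun i hi => ?_)
      have h7 : ¬ (m ≤ i ∧ i < k) := fun h => by
        have : l ≤ i := hi
        omega
      rw [fA, if_neg h7]
      split_ifs <;> norm_num
    obtain ⟨l, hl⟩ := (eventually_mem hV hk h6).exists
    exact hσs' l hl
  obtain ⟨l, hl⟩ := h5
  have hcyl : IsOpen {σ : ℕ → Bool | ∀ i < max l l0, σ i = σ0 i} := by
    have : {σ : ℕ → Bool | ∀ i < max l l0, σ i = σ0 i} =
        ⋂ i ∈ Finset.range (max l l0), {σ : ℕ → Bool | σ i = σ0 i} := by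
      ext σ; simp
    rw [this]
    refine isOpen_biInter_finset fun i _ => ?_
    exact (isOpen_discrete ({σ0 i} : Set Bool)).preimage
      (continuous_apply (A := fun _ : ℕ => Bool) i)
  have hmem : σ0 ∈ closure (D (n, m)) := hWD (hl0 σ0 hp0)
  obtain ⟨σ', hσ'1, hσ'2⟩ := mem_closure_iff.1 hmem _ hcyl (fun i _ => rfl)
  refine ⟨vv hg hpg hp σ' (fA n m k) (fA_bd _ _ _), hσ'2 k, hl σ' fun i hi => ?_⟩
  exact hσ'1 i (lt_of_lt_of_le hi (le_max_left _ _))

/-- for unbounded exponents the modular topology is not regular -/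
theorem not_regular_of_unbounded (hp : ∀ n, 1 ≤ p n) (hunb : ∀ C : ℝ, ∃ n, C < p n) :
    ¬ @RegularSpace (Sp (rho p)) (top (rho p)) := by
  have hfreq : ∀ C : ℝ, ∃ᶠ n in atTop, C ≤ p n := by
    intro C
    rw [frequently_atTop]
    intro N
    obtain ⟨B, hB⟩ : ∃ B : ℝ, ∀ n < N, p n ≤ B := by
      refine ⟨∑ i ∈ Finset.range N, p i, fun n hn => ?_⟩
      exact Finset.single_le_sum (f := p) (fun i _ => by linarith [hp i]) (Finset.mem_range.2 hn)
    obtain ⟨n, hn⟩ := hunb (max B C)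
    refine ⟨n, ?_, ((le_max_right _ _).trans_lt hn).le⟩
    by_contra hlt
    have := hB n (by omega)
    have := (le_max_left B C).trans_lt hn
    linarith
  obtain ⟨g, hg, hpg⟩ := extraction_forall_of_frequently (fun c : ℕ => hfreq (c : ℝ))
  have h0 : ∃ l : ℝ, 0 < l ∧ rho p (l • (0 : ℕ → ℝ)) < ∞ := by
    refine ⟨1, one_pos, ?_⟩
    have : rho p ((1 : ℝ) • (0 : ℕ → ℝ)) = 0 := by
      rw [rho, ENNReal.tsum_eq_zero]
      intro j
      rw [smul_zero, Pi.zero_apply, enorm_zero, ENNReal.zero_rpow_of_pos (by linarith [hp j])]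
    rw [this]; exact ENNReal.zero_lt_top
  exact not_regular (x := ⟨0, h0⟩) (FF_closed hg hpg hp) (zero_notMem_FF hg hpg hp rfl)
    fun U V hU hV hzU hFV => meet hg hpg hp rfl U V hU hV hzU hFV

end Ell

end Q101.Modular
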