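import Mathlib

set_option autoImplicit false

/-!
# Monotone Schauder bases from norming sets of finitely supported functionals

`NormSet 𝕜` is a set `K` of finitely supported scalar sequences, bounded by `1`, closed under
truncation and containing the coordinate functionals.  `X N` is the completion of `c_00` for the
norm `‖x‖ = sup_{g ∈ K} |∑ g_i x_i|`, realised as the closed span of the vectors `v i = (g_i)_{g}` in
`ℓ_∞(K)`.
-/

open Filter Topology Finset
open scoped ENNReal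

namespace Q101.MonoB

/-- a norming set of functionals -/
structure NormSet (𝕜 : Type) [RCLike 𝕜] where
  K : Set (ℕ → 𝕜)
  bdd : ∀ g ∈ K, ∀ i, ‖g i‖ ≤ 1
  fin : ∀ g ∈ K, ∃ m, ∀ i, m ≤ i → g i = 0
  trunc : ∀ g ∈ K, ∀ m, (fun i => if i < m then g i else 0) ∈ K
  coord : ∀ i, (Pi.single i 1 : ℕ → 𝕜) ∈ K

variable {𝕜 : Type} [RCLike 𝕜] (N : NormSet 𝕜)

/-- the big space `ℓ_∞(K)` -/
abbrev V : Type := lp (fun _ : N.K => 𝕜) ∞

/-- the unit vectors in the big space -/
noncomputable def v (i : ℕ) : V N :=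
  ⟨fun γ => γ.1 i, memℓp_infty ⟨1, by rintro _ ⟨γ, rfl⟩; exact N.bdd γ.1 γ.2 i⟩⟩

theorem v_apply (i : ℕ) (γ : N.K) : v N i γ = γ.1 i := rfl

/-- the closed span of the unit vectors -/
noncomputable def Xs : Submodule 𝕜 (V N) := (Submodule.span 𝕜 (Set.range (v N))).topologicalClosure

/-- the space -/
abbrev X : Type := Xs N

theorem isClosed_Xs : IsClosed (Xs N : Set (V N)) := Submodule.isClosed_topologicalClosure _

noncomputable instance : CompleteSpace (X N) := (isClosed_Xs N).completeSpace_coe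

/-- the basis -/
noncomputable def e (i : ℕ) : X N :=
  ⟨v N i, Submodule.le_topologicalClosure _ (Submodule.subset_span ⟨i, rfl⟩)⟩

theorem e_coe (i : ℕ) : ((e N i : X N) : V N) = v N i := rfl

/-- evaluation functionals -/
noncomputable def ev (γ : N.K) : StrongDual 𝕜 (V N) := lp.evalCLM 𝕜 (fun _ : N.K => 𝕜) ∞ γ

theorem ev_apply (γ : N.K) (w : V N) : ev N γ w = w γ := rfl

/-- the coordinate functionals -/
noncomputable def f (i : ℕ) : StrongDual 𝕜 (X N) :=
  (ev N ⟨Pi.single i 1, N.coord i⟩).comp (Xs N).subtypeL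

theorem f_apply (i : ℕ) (x : X N) : f N i x = (x : V N) ⟨Pi.single i 1, N.coord i⟩ := rfl

theorem f_e (i j : ℕ) : f N i (e N j) = if i = j then 1 else 0 := by
  rw [f_apply, e_coe, v_apply]
  by_cases h : i = j
  · subst h; simp
  · rw [if_neg h]
    exact Pi.single_eq_of_ne (Ne.symm h) _

theorem f_sum (F : Finset ℕ) (c : ℕ → 𝕜) (k : ℕ) :
    f N k (∑ i ∈ F, c i • e N i) = if k ∈ F then c k else 0 := by
  have h0 : f N k (∑ i ∈ F, c i • e N i) = ∑ i ∈ F, f N k (c i • e N i) := map_sum _ _ _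
  rw [h0]
  have h1 : ∀ i ∈ F, f N k (c i • e N i) = if k = i then c i else 0 := by
    intro i _
    rw [map_smul, f_e, smul_eq_mul, mul_ite, mul_one, mul_zero]
  rw [Finset.sum_congr rfl h1, Finset.sum_ite_eq]

variable {N}

theorem norm_apply_le (x : X N) (γ : N.K) : ‖(x : V N) γ‖ ≤ ‖x‖ :=
  lp.norm_apply_le_norm ENNReal.top_ne_zero (x : V N) γ

theorem norm_le {x : X N} {C : ℝ} (hC : 0 ≤ C) (h : ∀ γ : N.K, ‖(x : V N) γ‖ ≤ C) : ‖x‖ ≤ C :=
  lp.norm_le_of_forall_le hC h

theorem apply_sum (F : Finset ℕ) (c : ℕ → 𝕜) (γ : N.K) :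
    ((∑ i ∈ F, c i • e N i : X N) : V N) γ = ∑ i ∈ F, c i * γ.1 i := by
  rw [← ev_apply, AddSubmonoidClass.coe_finsetSum, map_sum]
  exact Finset.sum_congr rfl fun i _ => by
    rw [Submodule.coe_smul, map_smul, e_coe, ev_apply, v_apply, smul_eq_mul]

theorem apply_eq (x : X N) {g : ℕ → 𝕜} (hg : g ∈ N.K) {m : ℕ} (hm : ∀ i, m ≤ i → g i = 0) :
    (x : V N) ⟨g, hg⟩ = ∑ i ∈ range m, g i * f N i x := by
  let φ : StrongDual 𝕜 (V N) := ev N ⟨g, hg⟩ -
    ∑ i ∈ range m, g i • ev N ⟨Pi.single i 1, N.coord i⟩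
  have h1 : Submodule.span 𝕜 (Set.range (v N)) ≤ LinearMap.ker (φ : V N →ₗ[𝕜] 𝕜) := by
    rw [Submodule.span_le]
    rintro _ ⟨j, rfl⟩
    show φ (v N j) = 0
    have h2 : φ (v N j) = g j - ∑ i ∈ range m, g i * (Pi.single i 1 : ℕ → 𝕜) j := by
      simp only [φ, ContinuousLinearMap.sub_apply, ContinuousLinearMap.sum_apply,
        ContinuousLinearMap.smul_apply, ev_apply, v_apply, smul_eq_mul]
    rw [h2]
    by_cases hj : j < m
    · rw [Finset.sum_eq_single_of_mem j (Finset.mem_range.2 hj)]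
      · simp
      · intro i _ hi
        rw [Pi.single_eq_of_ne (Ne.symm hi), mul_zero]
    · rw [hm j (not_lt.1 hj), Finset.sum_eq_zero, sub_zero]
      intro i hi
      rw [Pi.single_eq_of_ne, mul_zero]
      rintro rfl
      exact hj (Finset.mem_range.1 hi)
  have h2 : Xs N ≤ LinearMap.ker (φ : V N →ₗ[𝕜] 𝕜) :=
    Submodule.topologicalClosure_minimal _ h1 φ.isClosed_ker
  have h3 : φ (x : V N) = 0 := h2 x.2
  have h4 : φ (x : V N) = (x : V N) ⟨g, hg⟩ - ∑ i ∈ range m, g i * f N i x := by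
    simp only [φ, ContinuousLinearMap.sub_apply, ContinuousLinearMap.sum_apply,
      ContinuousLinearMap.smul_apply, ev_apply, smul_eq_mul]
    rfl
  rw [h4] at h3
  exact sub_eq_zero.1 h3

/-- a functional supported in the finite set `S` -/
theorem apply_eq_finset (x : X N) {g : ℕ → 𝕜} (hg : g ∈ N.K) {S : Finset ℕ}
    (hS : ∀ i, i ∉ S → g i = 0) : (x : V N) ⟨g, hg⟩ = ∑ i ∈ S, g i * f N i x := by
  obtain ⟨m, hm⟩ := S.exists_nat_subset_range
  rw [apply_eq x hg (m := m) (fun i hi => hS i fun h => by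
    have := Finset.mem_range.1 (hm h); omega)]
  symm
  refine Finset.sum_subset hm fun i _ hi => ?_
  rw [hS i hi, zero_mul]

theorem norm_sum_le (x : X N) {g : ℕ → 𝕜} (hg : g ∈ N.K) {S : Finset ℕ}
    (hS : ∀ i, i ∉ S → g i = 0) : ‖∑ i ∈ S, g i * f N i x‖ ≤ ‖x‖ := by
  rw [← apply_eq_finset x hg hS]
  exact norm_apply_le _ _

theorem norm_partial_le (x : X N) (m : ℕ) : ‖∑ i ∈ range m, f N i x • e N i‖ ≤ ‖x‖ := by
  refine norm_le (norm_nonneg _) fun γ => ?_
  rw [apply_sum]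
  have h1 := norm_sum_le x (N.trunc γ.1 γ.2 m) (S := range m) (fun i hi => by
    rw [Finset.mem_range] at hi; rw [if_neg hi])
  refine le_of_eq_of_le ?_ h1
  congr 1
  refine Finset.sum_congr rfl fun i hi => ?_
  rw [if_pos (Finset.mem_range.1 hi), mul_comm]

theorem total (x : X N) (h : ∀ i, f N i x = 0) : x = 0 := by
  rw [← norm_eq_zero]
  refine le_antisymm (norm_le le_rfl fun γ => ?_) (norm_nonneg _)
  obtain ⟨m, hm⟩ := N.fin γ.1 γ.2
  have h1 := apply_eq x γ.2 hm
  rw [Finset.sum_eq_zero (fun i _ => by rw [h i, mul_zero])] at h1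
  show ‖(x : V N) ⟨γ.1, γ.2⟩‖ ≤ 0
  rw [h1, norm_zero]

theorem dense : closure (Submodule.span 𝕜 (Set.range (e N)) : Set (X N)) = Set.univ := by
  rw [Set.eq_univ_iff_forall]
  intro x
  rw [Topology.IsInducing.subtypeVal.closure_eq_preimage_closure_image]
  show (x : V N) ∈ closure (Subtype.val '' (Submodule.span 𝕜 (Set.range (e N)) : Set (X N)))
  have h1 : (Subtype.val '' (Submodule.span 𝕜 (Set.range (e N)) : Set (X N))) =
      (Submodule.span 𝕜 (Set.range (v N)) : Set (V N)) := by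
    have h2 : Submodule.map (Xs N).subtype (Submodule.span 𝕜 (Set.range (e N))) =
        Submodule.span 𝕜 (Set.range (v N)) := by
      rw [Submodule.map_span, ← Set.range_comp]
      rfl
    rw [← h2]
    rfl
  rw [h1]
  exact x.2

theorem norm_e (i : ℕ) : ‖e N i‖ = 1 := by
  refine le_antisymm (norm_le zero_le_one fun γ => ?_) ?_
  · rw [e_coe, v_apply]; exact N.bdd γ.1 γ.2 i
  · have h1 := norm_apply_le (e N i) ⟨Pi.single i 1, N.coord i⟩
    rw [e_coe, v_apply] at h1
    simpa using h1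

theorem norm_f (i : ℕ) : ‖f N i‖ = 1 := by
  refine le_antisymm (ContinuousLinearMap.opNorm_le_bound _ zero_le_one fun x => ?_) ?_
  · rw [one_mul, f_apply]; exact norm_apply_le _ _
  · have h1 := (f N i).le_opNorm (e N i)
    rw [f_e, if_pos rfl, norm_e, mul_one, norm_one] at h1
    exact h1

theorem sub_apply' (x y : X N) (γ : N.K) : ((x - y : X N) : V N) γ = (x : V N) γ - (y : V N) γ :=
  rfl

end Q101.MonoB
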