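import Pool.Agent.Q101.MonoB

set_option autoImplicit false

open Filter Topology Finset
open scoped ENNReal

namespace Q101.PGap

open Q101.MonoB

/-- the selected gaps -/
structure Params where
  p : ℕ → ℕ
  q : ℕ → ℕ
  one_le : ∀ l, 1 ≤ p l
  gap : ∀ l, 8 * (l + 2) ^ 2 * p l ≤ q l
  le : ∀ l, q l ≤ p (l + 1)

namespace Params

variable (P : Params)

/-- half the length of the conditional block -/
def j (l : ℕ) : ℕ := (l + 2) * P.p l

theorem one_le_j (l : ℕ) : 1 ≤ P.j l := Nat.mul_pos (by omega) (P.one_le l)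

theorem j_le (l : ℕ) : 8 * (l + 2) * P.j l ≤ P.q l := by
  have h := P.gap l
  have h2 : 8 * (l + 2) * P.j l = 8 * (l + 2) ^ 2 * P.p l := by unfold j; ring
  omega

theorem j_le' (l : ℕ) : 16 * P.j l ≤ P.q l := by
  have h := P.j_le l
  have h2 : 16 * P.j l ≤ 8 * (l + 2) * P.j l := Nat.mul_le_mul_right _ (by omega)
  omega

theorem p_le_j (l : ℕ) : P.p l ≤ P.j l := Nat.le_mul_of_pos_left _ (by omega)

theorem p_le_q (l : ℕ) : P.p l ≤ P.q l := by
  have := P.j_le' l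
  have := P.p_le_j l
  omega

theorem p_mono : Monotone P.p := monotone_nat_of_le_succ fun l => (P.p_le_q l).trans (P.le l)

theorem q_mono : Monotone P.q := monotone_nat_of_le_succ fun l => (P.le l).trans (P.p_le_q _)

theorem end_le_q {l l' : ℕ} (h : l ≤ l') : P.p (l + 1) + 2 * P.j l ≤ P.q (l' + 1) := by
  have h7 := P.q_mono (show l + 1 ≤ l' + 1 by omega)
  have h9 := P.j_le' (l + 1)
  have h10 := P.p_le_j (l + 1)
  have h11 := P.le l
  have h12 := P.j_le' l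
  omega

theorem end_le_p {l l' : ℕ} (h : l < l') : P.p (l + 1) + 2 * P.j l ≤ P.p (l' + 1) := by
  obtain ⟨k, rfl⟩ : ∃ k, l' = k + 1 := ⟨l' - 1, by omega⟩
  exact (P.end_le_q (show l ≤ k by omega)).trans (P.le (k + 1))

theorem four_j_le {l l' : ℕ} (h : l' < l) : 4 * P.j l' ≤ P.p l := by
  have h8 := P.j_le' l'
  have h9 := P.le l'
  have h10 := P.p_mono (show l' + 1 ≤ l by omega)
  omega

/-- the admissible weights, starting points and cardinalities -/
def Fam (θ : ℝ) (t M : ℕ) : Prop :=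
  (θ = 1 ∧ t = 0 ∧ M = 1) ∨ (∃ l, θ = 1 ∧ t = P.p (l + 1) ∧ M = P.p l) ∨
    (∃ l, θ = 1 ∧ t = P.q (l + 1) ∧ M = 2 * P.j l) ∨
    (∃ l, θ = 4 * (P.j l : ℝ) / P.q l ∧ t = 0 ∧ M = P.q l)

theorem q_pos (l : ℕ) : (0 : ℝ) < P.q l := by
  have h1 := P.j_le' l
  have h2 := P.one_le_j l
  have : 0 < P.q l := by omega
  exact_mod_cast this

variable {P}

theorem Fam.nonneg {θ : ℝ} {t M : ℕ} (h : P.Fam θ t M) : 0 ≤ θ := by
  rcases h with ⟨rfl, -, -⟩ | ⟨l, rfl, -, -⟩ | ⟨l, rfl, -, -⟩ | ⟨l, rfl, -, -⟩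
  · exact zero_le_one
  · exact zero_le_one
  · exact zero_le_one
  · positivity

theorem Fam.le_one {θ : ℝ} {t M : ℕ} (h : P.Fam θ t M) : θ ≤ 1 := by
  rcases h with ⟨rfl, -, -⟩ | ⟨l, rfl, -, -⟩ | ⟨l, rfl, -, -⟩ | ⟨l, rfl, -, -⟩
  · exact le_rfl
  · exact le_rfl
  · exact le_rfl
  · rw [div_le_one (P.q_pos l)]
    have h1 := P.j_le' l
    have h2 : (16 * P.j l : ℝ) ≤ P.q l := by exact_mod_cast h1
    have h3 : (0 : ℝ) ≤ P.j l := by positivity
    linarith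

theorem Fam.bound {θ : ℝ} {t M : ℕ} (h : P.Fam θ t M) {l N : ℕ} (hM : N ≤ M)
    (hj : N ≤ 2 * P.j l) (ht : P.p (l + 1) + 2 * P.j l ≤ t → N = 0) :
    θ * N ≤ 2 * P.p l := by
  have hp1 : (1 : ℝ) ≤ P.p l := by exact_mod_cast P.one_le l
  have hMr : (N : ℝ) ≤ M := by exact_mod_cast hM
  rcases h with ⟨rfl, rfl, rfl⟩ | ⟨l', rfl, rfl, rfl⟩ | ⟨l', rfl, rfl, rfl⟩ |
    ⟨l', rfl, rfl, rfl⟩
  · rw [one_mul]
    rw [Nat.cast_one] at hMr
    linarith
  · rcases le_or_gt l' l with h6 | h6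
    · rw [one_mul]
      have h7 : (P.p l' : ℝ) ≤ P.p l := by exact_mod_cast P.p_mono h6
      linarith
    · rw [ht (P.end_le_p h6), Nat.cast_zero, mul_zero]
      linarith
  · rcases lt_or_ge l' l with h6 | h6
    · rw [one_mul]
      have h7 : 2 * P.j l' ≤ P.p l := by
        have := P.four_j_le h6
        omega
      have h8 : ((2 * P.j l' : ℕ) : ℝ) ≤ P.p l := by exact_mod_cast h7
      linarith
    · rw [ht (P.end_le_q h6), Nat.cast_zero, mul_zero]
      linarith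
  · have hq := P.q_pos l'
    have hjp : (0 : ℝ) ≤ P.j l' := by positivity
    rcases lt_or_ge l' l with h6 | h6
    · have h5 : 4 * (P.j l' : ℝ) / P.q l' * N ≤ 4 * (P.j l' : ℝ) / P.q l' * P.q l' :=
        mul_le_mul_of_nonneg_left hMr (by positivity)
      rw [div_mul_cancel₀ _ hq.ne'] at h5
      have h8 : (4 * P.j l' : ℝ) ≤ P.p l := by exact_mod_cast P.four_j_le h6
      linarith
    · have hjr : (N : ℝ) ≤ 2 * ((l + 2) * P.p l) := by
        have h9 : (P.j l : ℝ) = (l + 2) * P.p l := by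
          unfold Params.j; push_cast; ring
        rw [← h9]
        exact_mod_cast hj
      rw [div_mul_eq_mul_div, div_le_iff₀ hq]
      have h8 : (8 * (l' + 2) * P.j l' : ℝ) ≤ P.q l' := by exact_mod_cast P.j_le l'
      have h10 : (l : ℝ) ≤ l' := by exact_mod_cast h6
      calc 4 * (P.j l' : ℝ) * N ≤ 4 * (P.j l' : ℝ) * (2 * ((l + 2) * P.p l)) := by gcongr
        _ = 8 * (l + 2) * P.j l' * P.p l := by ring
        _ ≤ 8 * (l' + 2) * P.j l' * P.p l := by gcongr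
        _ ≤ P.q l' * P.p l := by gcongr
        _ ≤ 2 * P.p l * P.q l' := by nlinarith

end Params

section

variable {𝕜 : Type} [RCLike 𝕜] (P : Params)

/-- unconditional functionals: at most `M` non-zero coefficients of modulus `≤ θ`, from `t` on -/
def TA (θ : ℝ) (t M : ℕ) (g : ℕ → 𝕜) : Prop :=
  ∃ S : Finset ℕ, S.card ≤ M ∧ (∀ i ∈ S, t ≤ i) ∧ (∀ i, ‖g i‖ ≤ θ) ∧ ∀ i, i ∉ S → g i = 0

/-- the conditional functionals -/
def TC (l m : ℕ) (g : ℕ → 𝕜) : Prop :=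
  ∀ i, g i = if i ∈ Finset.Ico (P.p (l + 1)) (min m (P.p (l + 1) + 2 * P.j l)) then 1 else 0

/-- the norming set -/
def K : Set (ℕ → 𝕜) := {g | (∃ θ t M, P.Fam θ t M ∧ TA θ t M g) ∨ ∃ l m, TC P l m g}

/-- the norming set, packaged -/
def NS (𝕜 : Type) [RCLike 𝕜] (P : Params) : NormSet 𝕜 where
  K := K P
  bdd := by
    rintro g (⟨θ, t, M, hF, S, h1, h2, h3, h4⟩ | ⟨l, m, h⟩) i
    · exact (h3 i).trans hF.le_one
    · rw [h i]
      split_ifs <;> simp
  fin := by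
    rintro g (⟨θ, t, M, hF, S, h1, h2, h3, h4⟩ | ⟨l, m, h⟩)
    · obtain ⟨m, hm⟩ := S.exists_nat_subset_range
      exact ⟨m, fun i hi => h4 i fun h => by have := Finset.mem_range.1 (hm h); omega⟩
    · refine ⟨P.p (l + 1) + 2 * P.j l, fun i hi => ?_⟩
      rw [h i, if_neg]
      rw [Finset.mem_Ico]
      omega
  trunc := by
    rintro g (⟨θ, t, M, hF, S, h1, h2, h3, h4⟩ | ⟨l, m, h⟩) r
    · refine Or.inl ⟨θ, t, M, hF, S, h1, h2, fun i => ?_, fun i hi => ?_⟩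
      · show ‖if i < r then g i else 0‖ ≤ θ
        split_ifs
        · exact h3 i
        · rw [norm_zero]; exact hF.nonneg
      · show (if i < r then g i else 0) = 0
        rw [h4 i hi, ite_self]
    · refine Or.inr ⟨l, min m r, fun i => ?_⟩
      show (if i < r then g i else 0) = _
      rw [h i]
      simp only [Finset.mem_Ico]
      by_cases h1 : i < r
      · rw [if_pos h1]
        by_cases h2 : P.p (l + 1) ≤ i ∧ i < min m (P.p (l + 1) + 2 * P.j l)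
        · rw [if_pos h2, if_pos]; omega
        · rw [if_neg h2, if_neg]; omega
      · rw [if_neg h1, if_neg]; omega
  coord := by
    intro i
    refine Or.inl ⟨1, 0, 1, Or.inl ⟨rfl, rfl, rfl⟩, {i}, by simp, by simp, fun k => ?_,
      fun k hk => ?_⟩
    · by_cases h : k = i
      · subst h; simp
      · rw [Pi.single_eq_of_ne h]; simp
    · rw [Finset.mem_singleton] at hk
      exact Pi.single_eq_of_ne hk _

variable {P}

theorem sum_abs_le (x : X (NS 𝕜 P)) {θ : ℝ} {t M : ℕ} (hF : P.Fam θ t M) {S : Finset ℕ}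
    (hS : S.card ≤ M) (ht : ∀ i ∈ S, t ≤ i) : θ * ∑ i ∈ S, ‖f (NS 𝕜 P) i x‖ ≤ ‖x‖ := by
  have hc : ∀ i, ∃ c : 𝕜, ‖c‖ = 1 ∧ (‖f (NS 𝕜 P) i x‖ : 𝕜) = c * f (NS 𝕜 P) i x := fun i =>
    RCLike.exists_norm_eq_mul_self _
  choose c hc1 hc2 using hc
  let g : ℕ → 𝕜 := fun i => if i ∈ S then (θ : 𝕜) * c i else 0
  have hg : g ∈ (NS 𝕜 P).K := by
    refine Or.inl ⟨θ, t, M, hF, S, hS, ht, fun i => ?_, fun i hi => if_neg hi⟩
    show ‖if i ∈ S then (θ : 𝕜) * c i else 0‖ ≤ θ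
    split_ifs
    · rw [norm_mul, hc1, mul_one, RCLike.norm_ofReal, abs_of_nonneg hF.nonneg]
    · rw [norm_zero]; exact hF.nonneg
  have h1 := norm_sum_le x hg (S := S) (fun i hi => if_neg hi)
  have h2 : ∑ i ∈ S, g i * f (NS 𝕜 P) i x =
      ((θ * ∑ i ∈ S, ‖f (NS 𝕜 P) i x‖ : ℝ) : 𝕜) := by
    push_cast
    rw [Finset.mul_sum]
    refine Finset.sum_congr rfl fun i hi => ?_
    show (if i ∈ S then (θ : 𝕜) * c i else 0) * _ = _
    rw [if_pos hi, mul_assoc, ← hc2]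
  rw [h2, RCLike.norm_ofReal] at h1
  exact (le_abs_self _).trans h1

/-- greedy sums of admissible orders are bounded -/
theorem quasi_greedy (x : X (NS 𝕜 P)) (G : Finset ℕ)
    (hn : ∀ l, G.card ≤ P.p l ∨ P.q l ≤ G.card)
    (hG : ∀ i ∈ G, ∀ k, k ∉ G → ‖f (NS 𝕜 P) k x‖ ≤ ‖f (NS 𝕜 P) i x‖) :
    ‖∑ i ∈ G, f (NS 𝕜 P) i x • e (NS 𝕜 P) i‖ ≤ 2 * ‖x‖ := by
  have hx := norm_nonneg x
  refine norm_le (by positivity) ?_
  rintro ⟨g, hg⟩
  rw [apply_sum]
  show ‖∑ i ∈ G, f (NS 𝕜 P) i x * g i‖ ≤ _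
  have hg' := hg
  rcases hg' with ⟨θ, t, M, hF, S, h1, h2, h3, h4⟩ | ⟨l, m, h⟩
  · have h5 : (fun i => if i ∈ G then g i else 0) ∈ (NS 𝕜 P).K := by
      refine Or.inl ⟨θ, t, M, hF, S, h1, h2, fun i => ?_, fun i hi => ?_⟩
      · show ‖if i ∈ G then g i else 0‖ ≤ θ
        split_ifs
        · exact h3 i
        · rw [norm_zero]; exact hF.nonneg
      · show (if i ∈ G then g i else 0) = 0
        rw [h4 i hi, ite_self]
    have h6 := norm_sum_le x h5 (S := G) (fun i hi => if_neg hi)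
    have h7 : ∑ i ∈ G, f (NS 𝕜 P) i x * g i =
        ∑ i ∈ G, (if i ∈ G then g i else 0) * f (NS 𝕜 P) i x :=
      Finset.sum_congr rfl fun i hi => by rw [if_pos hi, mul_comm]
    rw [h7]
    linarith
  · set I := Finset.Ico (P.p (l + 1)) (min m (P.p (l + 1) + 2 * P.j l)) with hI
    have h5 : ∑ i ∈ G, f (NS 𝕜 P) i x * g i = ∑ i ∈ G ∩ I, f (NS 𝕜 P) i x := by
      rw [← Finset.filter_mem_eq_inter, Finset.sum_filter]
      refine Finset.sum_congr rfl fun i _ => ?_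
      rw [h i]
      split_ifs <;> simp
    rw [h5]
    rcases hn l with h6 | h6
    · have h7 := sum_abs_le x (P := P) (θ := 1) (t := P.p (l + 1)) (M := P.p l)
        (Or.inr (Or.inl ⟨l, rfl, rfl, rfl⟩)) (S := G ∩ I)
        ((Finset.card_le_card Finset.inter_subset_left).trans h6)
        (fun i hi => (Finset.mem_Ico.1 (Finset.mem_inter.1 hi).2).1)
      rw [one_mul] at h7
      have h8 := norm_sum_le (G ∩ I) (fun i => f (NS 𝕜 P) i x)
      linarith
    · have h7 : ∑ i ∈ G ∩ I, f (NS 𝕜 P) i x =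
          ∑ i ∈ I, g i * f (NS 𝕜 P) i x - ∑ i ∈ I \ G, f (NS 𝕜 P) i x := by
        rw [Finset.inter_comm, eq_sub_iff_add_eq, Finset.sum_inter_add_sum_sdiff]
        refine Finset.sum_congr rfl fun i hi => ?_
        rw [h i, if_pos hi, one_mul]
      have h8 : ‖∑ i ∈ I, g i * f (NS 𝕜 P) i x‖ ≤ ‖x‖ :=
        MonoB.norm_sum_le x hg (fun i hi => by rw [h i, if_neg hi])
      have hj : (1 : ℝ) ≤ P.j l := by exact_mod_cast P.one_le_j l
      have hq := P.q_pos l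
      have h9 : ∀ k ∈ I \ G, ‖f (NS 𝕜 P) k x‖ ≤ ‖x‖ / (4 * P.j l) := by
        intro k hk
        obtain ⟨G', hG', hG'c⟩ := Finset.exists_subset_card_eq h6
        have h10 := sum_abs_le x (P := P) (θ := 4 * (P.j l : ℝ) / P.q l) (t := 0) (M := P.q l)
          (Or.inr (Or.inr (Or.inr ⟨l, rfl, rfl, rfl⟩))) (S := G') hG'c.le (fun _ _ => Nat.zero_le _)
        have h11 : (P.q l : ℝ) * ‖f (NS 𝕜 P) k x‖ ≤ ∑ i ∈ G', ‖f (NS 𝕜 P) i x‖ := by
          rw [← hG'c, ← nsmul_eq_mul]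
          exact Finset.card_nsmul_le_sum _ _ _ fun i hi =>
            hG i (hG' hi) k (Finset.mem_sdiff.1 hk).2
        rw [le_div_iff₀ (by positivity)]
        have h12 : 4 * (P.j l : ℝ) / P.q l * (P.q l * ‖f (NS 𝕜 P) k x‖) ≤ ‖x‖ :=
          (mul_le_mul_of_nonneg_left h11 (by positivity)).trans h10
        rw [← mul_assoc, div_mul_cancel₀ _ hq.ne'] at h12
        linarith
      have h10 : ‖∑ i ∈ I \ G, f (NS 𝕜 P) i x‖ ≤ ‖x‖ / 2 := by
        refine (_root_.norm_sum_le _ _).trans ((Finset.sum_le_card_nsmul _ _ _ h9).trans ?_)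
        have h11 : ((I \ G).card : ℝ) ≤ 2 * P.j l := by
          have h12 := Finset.card_le_card (Finset.sdiff_subset (s := I) (t := G))
          rw [hI, Nat.card_Ico] at h12
          have h13 : (Finset.Ico (P.p (l + 1)) (min m (P.p (l + 1) + 2 * P.j l)) \ G).card ≤
            2 * P.j l := by omega
          exact_mod_cast h13
        rw [nsmul_eq_mul]
        calc ((I \ G).card : ℝ) * (‖x‖ / (4 * P.j l)) ≤ (2 * P.j l) * (‖x‖ / (4 * P.j l)) :=
              mul_le_mul_of_nonneg_right h11 (by positivity)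
          _ = ‖x‖ / 2 := by field_simp; ring
      rw [h7]
      refine (norm_sub_le _ _).trans ?_
      linarith

/-- value of the sum of basis vectors -/
theorem apply_ones (F : Finset ℕ) (γ : (NS 𝕜 P).K) :
    ((∑ i ∈ F, e (NS 𝕜 P) i : X (NS 𝕜 P)) : V (NS 𝕜 P)) γ = ∑ i ∈ F, γ.1 i := by
  have h := apply_sum F (fun _ => (1 : 𝕜)) γ
  simpa using h

theorem ones_lower (B : Finset ℕ) {θ : ℝ} {t M : ℕ} (hF : P.Fam θ t M) (ht : ∀ i ∈ B, t ≤ i) :
    θ * (min B.card M : ℕ) ≤ ‖∑ i ∈ B, e (NS 𝕜 P) i‖ := by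
  obtain ⟨S, hS, hSc⟩ := Finset.exists_subset_card_eq (min_le_left B.card M)
  let g : ℕ → 𝕜 := fun i => if i ∈ S then (θ : 𝕜) else 0
  have hg : g ∈ (NS 𝕜 P).K := by
    refine Or.inl ⟨θ, t, M, hF, S, hSc.le.trans (min_le_right _ _), fun i hi => ht i (hS hi),
      fun i => ?_, fun i hi => if_neg hi⟩
    show ‖if i ∈ S then (θ : 𝕜) else 0‖ ≤ θ
    split_ifs
    · rw [RCLike.norm_ofReal, abs_of_nonneg hF.nonneg]
    · rw [norm_zero]; exact hF.nonneg
  have h1 := norm_apply_le (∑ i ∈ B, e (NS 𝕜 P) i) ⟨g, hg⟩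
  rw [apply_ones] at h1
  have h2 : ∑ i ∈ B, g i = ((θ * (min B.card M : ℕ) : ℝ) : 𝕜) := by
    show ∑ i ∈ B, (if i ∈ S then (θ : 𝕜) else 0) = _
    rw [← Finset.sum_filter, Finset.filter_mem_eq_inter, Finset.inter_eq_right.2 hS,
      Finset.sum_const, hSc, nsmul_eq_mul, RCLike.ofReal_mul, RCLike.ofReal_natCast, mul_comm]
  have h3 : ‖∑ i ∈ B, g i‖ ≤ ‖∑ i ∈ B, e (NS 𝕜 P) i‖ := h1
  rw [h2, RCLike.norm_ofReal] at h3
  exact (le_abs_self _).trans h3

/-- order conservativity -/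
theorem order_conservative (A B : Finset ℕ) (n : ℕ) (hn : ∀ l, n ≤ P.p l ∨ P.q l ≤ n)
    (hAB : A.card = B.card) (hA : ∀ i ∈ A, i < n) (hB : ∀ i ∈ B, n ≤ i) :
    ‖∑ i ∈ A, e (NS 𝕜 P) i‖ ≤ ‖∑ i ∈ B, e (NS 𝕜 P) i‖ := by
  refine norm_le (norm_nonneg _) ?_
  rintro ⟨g, hg⟩
  rw [apply_ones]
  show ‖∑ i ∈ A, g i‖ ≤ _
  rcases hg with ⟨θ, t, M, hF, S, h1, h2, h3, h4⟩ | ⟨l, m, h⟩
  · have h5 : ∑ i ∈ A, g i = ∑ i ∈ A ∩ S, g i := by
      rw [← Finset.filter_mem_eq_inter, Finset.sum_filter]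
      refine Finset.sum_congr rfl fun i _ => ?_
      split_ifs with hi
      · rfl
      · exact h4 i hi
    rw [h5]
    rcases (A ∩ S).eq_empty_or_nonempty with h6 | ⟨a, ha⟩
    · rw [h6, Finset.sum_empty, norm_zero]; exact norm_nonneg _
    · have ha' := Finset.mem_inter.1 ha
      have h7 := ones_lower (𝕜 := 𝕜) B hF (fun i hi =>
        (h2 a ha'.2).trans ((hA a ha'.1).le.trans (hB i hi)))
      refine le_trans ?_ h7
      refine (_root_.norm_sum_le _ _).trans ((Finset.sum_le_card_nsmul _ _ _ fun i _ =>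
        h3 i).trans ?_)
      rw [nsmul_eq_mul, mul_comm]
      refine mul_le_mul_of_nonneg_left ?_ hF.nonneg
      have h8 : (A ∩ S).card ≤ min B.card M := by
        rw [← hAB]
        exact le_min (Finset.card_le_card Finset.inter_subset_left)
          ((Finset.card_le_card Finset.inter_subset_right).trans h1)
      exact_mod_cast h8
  · set I := Finset.Ico (P.p (l + 1)) (min m (P.p (l + 1) + 2 * P.j l)) with hI
    have h5 : ∑ i ∈ A, g i = ((A ∩ I).card : 𝕜) := by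
      rw [← Finset.filter_mem_eq_inter, Finset.card_filter, Nat.cast_sum]
      refine Finset.sum_congr rfl fun i _ => ?_
      rw [h i]
      split_ifs <;> simp
    rw [h5, RCLike.norm_natCast]
    rcases hn (l + 1) with h6 | h6
    · have h7 : A ∩ I = ∅ := by
        rw [Finset.eq_empty_iff_forall_notMem]
        intro i hi
        rw [Finset.mem_inter, hI, Finset.mem_Ico] at hi
        have := hA i hi.1
        omega
      rw [h7, Finset.card_empty, Nat.cast_zero]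
      exact norm_nonneg _
    · have h7 := ones_lower (𝕜 := 𝕜) B (P := P) (θ := 1) (t := P.q (l + 1)) (M := 2 * P.j l)
        (Or.inr (Or.inr (Or.inl ⟨l, rfl, rfl, rfl⟩))) (fun i hi => h6.trans (hB i hi))
      rw [one_mul] at h7
      refine le_trans ?_ h7
      have h8 : (A ∩ I).card ≤ min B.card (2 * P.j l) := by
        rw [← hAB]
        refine le_min (Finset.card_le_card Finset.inter_subset_left) ?_
        refine (Finset.card_le_card Finset.inter_subset_right).trans ?_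
        rw [hI, Nat.card_Ico]
        omega
      exact_mod_cast h8

/-! ### Failure of partial greediness -/

/-- coefficients of the test vector -/
noncomputable def cc (𝕜 : Type) [RCLike 𝕜] (P : Params) (l i : ℕ) : 𝕜 :=
  if i < P.q l - P.j l then 1
  else if P.p (l + 1) ≤ i ∧ i < P.p (l + 1) + 2 * P.j l then (-1) ^ (i - P.p (l + 1)) else 0

/-- the test vector -/
noncomputable def xx (𝕜 : Type) [RCLike 𝕜] (P : Params) (l : ℕ) : X (NS 𝕜 P) :=
  ∑ i ∈ range (P.p (l + 1) + 2 * P.j l), cc 𝕜 P l i • e (NS 𝕜 P) i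

theorem f_xx (l k : ℕ) : f (NS 𝕜 P) k (xx 𝕜 P l) = cc 𝕜 P l k := by
  unfold xx
  rw [f_sum]
  split_ifs with h
  · rfl
  · rw [Finset.mem_range] at h
    unfold cc
    have h2 := P.le l
    have h3 : ¬ k < P.q l - P.j l := by omega
    rw [if_neg h3, if_neg]
    omega

/-- the greedy set -/
noncomputable def GG (P : Params) (l : ℕ) : Finset ℕ :=
  range (P.q l - P.j l) ∪ (range (P.j l)).image (fun i => P.p (l + 1) + 2 * i)

theorem GG_disj (P : Params) (l : ℕ) : Disjoint (range (P.q l - P.j l))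
    ((range (P.j l)).image (fun i => P.p (l + 1) + 2 * i)) := by
  rw [Finset.disjoint_left]
  intro i hi hi'
  rw [Finset.mem_image] at hi'
  obtain ⟨k, hk, rfl⟩ := hi'
  rw [Finset.mem_range] at hi
  have h2 := P.le l
  omega

theorem GG_card (P : Params) (l : ℕ) : (GG P l).card = P.q l := by
  unfold GG
  rw [Finset.card_union_of_disjoint (GG_disj P l), Finset.card_range,
    Finset.card_image_of_injective _ (fun a b h => by simpa using h), Finset.card_range]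
  have := P.j_le' l
  omega

theorem GG_cc (l i : ℕ) (hi : i ∈ GG P l) : cc 𝕜 P l i = 1 := by
  unfold GG at hi
  rw [Finset.mem_union, Finset.mem_range, Finset.mem_image] at hi
  unfold cc
  rcases hi with hi | ⟨k, hk, rfl⟩
  · rw [if_pos hi]
  · rw [Finset.mem_range] at hk
    have h2 := P.le l
    rw [if_neg (by omega), if_pos (by omega), Nat.add_sub_cancel_left, pow_mul]
    simp

theorem norm_cc (l i : ℕ) : ‖cc 𝕜 P l i‖ ≤ 1 := by
  unfold cc
  split_ifs <;> simp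

/-- the alternating sums -/
theorem alt_sum (a b : ℕ) : ∑ i ∈ Finset.Ico a b, ((-1) ^ (i - a) : 𝕜) =
    if Even (b - a) then 0 else 1 := by
  rw [Finset.sum_Ico_eq_sum_range, ← neg_one_geom_sum]
  exact Finset.sum_congr rfl fun i _ => by rw [Nat.add_sub_cancel_left]

/-- `x - G(x)` is large -/
theorem large (l : ℕ) : (P.j l : ℝ) ≤
    ‖xx 𝕜 P l - ∑ i ∈ GG P l, f (NS 𝕜 P) i (xx 𝕜 P l) • e (NS 𝕜 P) i‖ := by
  set E := Finset.Ico (P.p (l + 1)) (P.p (l + 1) + 2 * P.j l) with hE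
  let g : ℕ → 𝕜 := fun i => if i ∈ E then 1 else 0
  have hg : g ∈ (NS 𝕜 P).K := Or.inr ⟨l, P.p (l + 1) + 2 * P.j l, fun i => by
    rw [min_self]⟩
  have h1 := norm_apply_le (xx 𝕜 P l -
    ∑ i ∈ GG P l, f (NS 𝕜 P) i (xx 𝕜 P l) • e (NS 𝕜 P) i) ⟨g, hg⟩
  refine le_trans ?_ h1
  have h2 : ((xx 𝕜 P l - ∑ i ∈ GG P l, f (NS 𝕜 P) i (xx 𝕜 P l) • e (NS 𝕜 P) i :
      X (NS 𝕜 P)) : V (NS 𝕜 P)) ⟨g, hg⟩ =
      ((xx 𝕜 P l : X (NS 𝕜 P)) : V (NS 𝕜 P)) ⟨g, hg⟩ -
      ((∑ i ∈ GG P l, f (NS 𝕜 P) i (xx 𝕜 P l) • e (NS 𝕜 P) i :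
      X (NS 𝕜 P)) : V (NS 𝕜 P)) ⟨g, hg⟩ := rfl
  rw [h2, apply_sum]
  unfold xx
  rw [apply_sum]
  have h3 : ∑ i ∈ range (P.p (l + 1) + 2 * P.j l), cc 𝕜 P l i * g i = 0 := by
    have h4 : ∑ i ∈ range (P.p (l + 1) + 2 * P.j l), cc 𝕜 P l i * g i =
        ∑ i ∈ E, ((-1) ^ (i - P.p (l + 1)) : 𝕜) := by
      rw [← Finset.sum_subset (s₁ := E) (s₂ := range (P.p (l + 1) + 2 * P.j l)) (fun i hi => by
        rw [hE, Finset.mem_Ico] at hi; exact Finset.mem_range.2 hi.2)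
        (fun i _ hi => by
          show cc 𝕜 P l i * (if i ∈ E then (1 : 𝕜) else 0) = 0; rw [if_neg hi, mul_zero])]
      refine Finset.sum_congr rfl fun i hi => ?_
      show cc 𝕜 P l i * (if i ∈ E then (1 : 𝕜) else 0) = _
      rw [if_pos hi, mul_one]
      rw [hE, Finset.mem_Ico] at hi
      have h2 := P.le l
      unfold cc
      rw [if_neg (by omega), if_pos hi]
    rw [h4, hE, alt_sum, if_pos]
    rw [Nat.add_sub_cancel_left]
    exact even_two_mul _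
  have h4 : ∑ i ∈ GG P l, f (NS 𝕜 P) i (∑ i ∈ range (P.p (l + 1) + 2 * P.j l),
      cc 𝕜 P l i • e (NS 𝕜 P) i) * g i = (P.j l : 𝕜) := by
    have h5 : ∀ i ∈ GG P l, f (NS 𝕜 P) i (∑ i ∈ range (P.p (l + 1) + 2 * P.j l),
        cc 𝕜 P l i • e (NS 𝕜 P) i) * g i = g i := by
      intro i hi
      have h6 := f_xx (𝕜 := 𝕜) (P := P) l i
      unfold xx at h6
      rw [h6, GG_cc l i hi, one_mul]
    rw [Finset.sum_congr rfl h5]
    unfold GG
    rw [Finset.sum_union (GG_disj P l)]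
    rw [Finset.sum_eq_zero (s := range (P.q l - P.j l)), zero_add,
      Finset.sum_image (fun a _ b _ h => by simpa using h)]
    · have h7 : ∀ i ∈ range (P.j l), g (P.p (l + 1) + 2 * i) = 1 := by
        intro i hi
        rw [Finset.mem_range] at hi
        show (if P.p (l + 1) + 2 * i ∈ E then (1 : 𝕜) else 0) = 1
        rw [if_pos]
        rw [hE, Finset.mem_Ico]
        omega
      rw [Finset.sum_congr rfl h7]
      simp
    · intro i hi
      rw [Finset.mem_range] at hi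
      show (if i ∈ E then (1 : 𝕜) else 0) = 0
      rw [if_neg]
      rw [hE, Finset.mem_Ico]
      have h2 := P.le l
      omega
  have h5 : (∑ i ∈ range (P.p (l + 1) + 2 * P.j l), cc 𝕜 P l i *
      (⟨g, hg⟩ : (NS 𝕜 P).K).1 i) = 0 := h3
  have h6 : (∑ i ∈ GG P l, f (NS 𝕜 P) i (∑ i ∈ range (P.p (l + 1) + 2 * P.j l),
      cc 𝕜 P l i • e (NS 𝕜 P) i) * (⟨g, hg⟩ : (NS 𝕜 P).K).1 i) = (P.j l : 𝕜) := h4
  rw [h5, h6, zero_sub, norm_neg, RCLike.norm_natCast]

/-- unconditional functionals on the block -/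
theorem small_TA (l : ℕ) {g : ℕ → 𝕜} {θ : ℝ} {t M : ℕ} (hF : P.Fam θ t M) (hg : TA θ t M g) :
    ‖∑ i ∈ Finset.Ico (P.p (l + 1)) (P.p (l + 1) + 2 * P.j l), cc 𝕜 P l i * g i‖ ≤
      2 * P.p l := by
  obtain ⟨S, h1, h2, h3, h4⟩ := hg
  set E := Finset.Ico (P.p (l + 1)) (P.p (l + 1) + 2 * P.j l) with hE
  have h5 : ∑ i ∈ E, cc 𝕜 P l i * g i = ∑ i ∈ E ∩ S, cc 𝕜 P l i * g i := by
    rw [← Finset.filter_mem_eq_inter, Finset.sum_filter]
    refine Finset.sum_congr rfl fun i _ => ?_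
    split_ifs with hi
    · rfl
    · rw [h4 i hi, mul_zero]
  rw [h5]
  have h6 : ‖∑ i ∈ E ∩ S, cc 𝕜 P l i * g i‖ ≤ θ * (E ∩ S).card := by
    refine (_root_.norm_sum_le _ _).trans ((Finset.sum_le_card_nsmul _ _ θ fun i _ => ?_).trans ?_)
    · rw [norm_mul]
      have h6 := norm_cc (𝕜 := 𝕜) (P := P) l i
      have h7 := h3 i
      have h8 := norm_nonneg (g i)
      nlinarith
    · rw [nsmul_eq_mul, mul_comm]
  refine h6.trans (hF.bound ((Finset.card_le_card Finset.inter_subset_right).trans h1) ?_ ?_)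
  · refine (Finset.card_le_card Finset.inter_subset_left).trans ?_
    rw [hE, Nat.card_Ico]
    omega
  · intro ht
    rw [Finset.card_eq_zero, Finset.eq_empty_iff_forall_notMem]
    intro i hi
    rw [Finset.mem_inter, hE, Finset.mem_Ico] at hi
    have := h2 i hi.2
    omega

/-- conditional functionals on the block -/
theorem small_TC (l l' m : ℕ) {g : ℕ → 𝕜} (h : TC P l' m g) :
    ‖∑ i ∈ Finset.Ico (P.p (l + 1)) (P.p (l + 1) + 2 * P.j l), cc 𝕜 P l i * g i‖ ≤ 1 := by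
  by_cases hl : l' = l
  · subst hl
    have h5 : ∑ i ∈ Finset.Ico (P.p (l' + 1)) (P.p (l' + 1) + 2 * P.j l'), cc 𝕜 P l' i * g i =
        ∑ i ∈ Finset.Ico (P.p (l' + 1)) (min m (P.p (l' + 1) + 2 * P.j l')),
          ((-1) ^ (i - P.p (l' + 1)) : 𝕜) := by
      rw [← Finset.sum_subset
        (s₁ := Finset.Ico (P.p (l' + 1)) (min m (P.p (l' + 1) + 2 * P.j l')))
        (s₂ := Finset.Ico (P.p (l' + 1)) (P.p (l' + 1) + 2 * P.j l'))]
      · refine Finset.sum_congr rfl fun i hi => ?_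
        rw [h i, if_pos hi, mul_one]
        rw [Finset.mem_Ico] at hi
        have h2 := P.le l'
        unfold cc
        rw [if_neg (by omega), if_pos (by omega)]
      · intro i hi
        rw [Finset.mem_Ico] at hi ⊢
        omega
      · intro i _ hi
        rw [h i, if_neg hi, mul_zero]
    rw [h5, alt_sum]
    split_ifs
    · rw [norm_zero]; exact zero_le_one
    · rw [norm_one]
  · have h5 : ∑ i ∈ Finset.Ico (P.p (l + 1)) (P.p (l + 1) + 2 * P.j l),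
        cc 𝕜 P l i * g i = 0 := by
      refine Finset.sum_eq_zero fun i hi => ?_
      rw [h i, if_neg, mul_zero]
      rw [Finset.mem_Ico] at hi
      rw [Finset.mem_Ico]
      intro h6
      rcases lt_or_gt_of_ne hl with h7 | h7
      · have h8 := P.end_le_p h7
        omega
      · have h8 := P.end_le_p h7
        omega
    rw [h5, norm_zero]
    exact zero_le_one

theorem sub_partial (l : ℕ) :
    xx 𝕜 P l - ∑ i ∈ range (P.q l), f (NS 𝕜 P) i (xx 𝕜 P l) • e (NS 𝕜 P) i =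
      ∑ i ∈ Finset.Ico (P.p (l + 1)) (P.p (l + 1) + 2 * P.j l),
        cc 𝕜 P l i • e (NS 𝕜 P) i := by
  rw [sub_eq_iff_eq_add]
  have h1 : ∑ i ∈ range (P.q l), f (NS 𝕜 P) i (xx 𝕜 P l) • e (NS 𝕜 P) i =
      ∑ i ∈ range (P.p (l + 1)), cc 𝕜 P l i • e (NS 𝕜 P) i := by
    rw [← Finset.sum_subset (s₁ := range (P.q l)) (s₂ := range (P.p (l + 1)))]
    · exact Finset.sum_congr rfl fun i _ => by rw [f_xx]
    · intro i hi
      rw [Finset.mem_range] at hi ⊢
      exact hi.trans_le (P.le l)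
    · intro i hi hi'
      rw [Finset.mem_range] at hi hi'
      unfold cc
      rw [if_neg (by omega), if_neg (by omega), zero_smul]
  rw [h1, add_comm]
  unfold xx
  rw [Finset.range_eq_Ico, Finset.range_eq_Ico]
  exact (Finset.sum_Ico_consecutive _ (Nat.zero_le _) (by omega)).symm

/-- `x - S(x)` is small -/
theorem small (l : ℕ) :
    ‖xx 𝕜 P l - ∑ i ∈ range (P.q l), f (NS 𝕜 P) i (xx 𝕜 P l) • e (NS 𝕜 P) i‖ ≤
      2 * P.p l := by
  have hp1 : (1 : ℝ) ≤ P.p l := by exact_mod_cast P.one_le l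
  rw [sub_partial]
  refine norm_le (by positivity) ?_
  rintro ⟨g, hg⟩
  rw [apply_sum]
  rcases hg with ⟨θ, t, M, hF, hg⟩ | ⟨l', m, h⟩
  · exact small_TA l hF hg
  · refine (small_TC l l' m h).trans ?_
    linarith

/-- no partially greedy constant -/
theorem not_partially_greedy (C : ℝ) : ∃ l,
    C * ‖xx 𝕜 P l - ∑ i ∈ range (P.q l), f (NS 𝕜 P) i (xx 𝕜 P l) • e (NS 𝕜 P) i‖ <
      ‖xx 𝕜 P l - ∑ i ∈ GG P l, f (NS 𝕜 P) i (xx 𝕜 P l) • e (NS 𝕜 P) i‖ := by
  obtain ⟨l, hl⟩ := exists_nat_gt (2 * |C|)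
  refine ⟨l, ?_⟩
  have h1 := small (𝕜 := 𝕜) (P := P) l
  have h2 := large (𝕜 := 𝕜) (P := P) l
  have h3 : (P.j l : ℝ) = (l + 2) * P.p l := by
    unfold Params.j; push_cast; ring
  have hp1 : (1 : ℝ) ≤ P.p l := by exact_mod_cast P.one_le l
  refine lt_of_lt_of_le ?_ h2
  rw [h3]
  calc C * ‖xx 𝕜 P l - ∑ i ∈ range (P.q l), f (NS 𝕜 P) i (xx 𝕜 P l) • e (NS 𝕜 P) i‖ ≤
      |C| * ‖xx 𝕜 P l - ∑ i ∈ range (P.q l), f (NS 𝕜 P) i (xx 𝕜 P l) • e (NS 𝕜 P) i‖ :=
        mul_le_mul_of_nonneg_right (le_abs_self C) (norm_nonneg _)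
    _ ≤ |C| * (2 * P.p l) := mul_le_mul_of_nonneg_left h1 (abs_nonneg C)
    _ < (l + 2) * P.p l := by nlinarith

end

end Q101.PGap
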