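import Pool.Agent.Q101.LatLift

set_option autoImplicit false

open Filter Topology

namespace Q101.PathLat

open Q101.LatLift

universe u

/-- absolutely summable sequences -/
def PP : Submodule ℝ (ℕ → ℝ) where
  carrier := {a | Summable fun n => |a n|}
  zero_mem' := by simp
  add_mem' {a b} ha hb := by
    refine Summable.of_nonneg_of_le (fun n => abs_nonneg _) (fun n => ?_) (ha.add hb)
    exact abs_add_le _ _
  smul_mem' c a ha := by
    refine (ha.mul_left |c|).congr fun n => ?_
    rw [Pi.smul_apply, smul_eq_mul, abs_mul]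

/-- the vector space of absolutely summable sequences -/
def P : Type := PP

namespace P

instance : AddCommGroup P := inferInstanceAs (AddCommGroup PP)
instance : Module ℝ P := inferInstanceAs (Module ℝ PP)

instance : Lattice P :=
  Subtype.lattice (P := fun a : ℕ → ℝ => a ∈ PP)
    (fun a b ha hb => by
      refine Summable.of_nonneg_of_le (fun n => abs_nonneg _) (fun n => ?_) (ha.add hb)
      show |max (a n) (b n)| ≤ |a n| + |b n|
      rcases max_choice (a n) (b n) with h | h <;> rw [h]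
      · exact le_add_of_nonneg_right (abs_nonneg _)
      · exact le_add_of_nonneg_left (abs_nonneg _))
    (fun a b ha hb => by
      refine Summable.of_nonneg_of_le (fun n => abs_nonneg _) (fun n => ?_) (ha.add hb)
      show |min (a n) (b n)| ≤ |a n| + |b n|
      rcases min_choice (a n) (b n) with h | h <;> rw [h]
      · exact le_add_of_nonneg_right (abs_nonneg _)
      · exact le_add_of_nonneg_left (abs_nonneg _))

theorem summable (a : P) : Summable fun n => |a.1 n| := a.2

theorem ext' {a b : P} (h : ∀ n, a.1 n = b.1 n) : a = b := Subtype.ext (funext h)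

theorem le_def {a b : P} : a ≤ b ↔ ∀ n, a.1 n ≤ b.1 n := Iff.rfl
theorem add_val (a b : P) (n : ℕ) : (a + b).1 n = a.1 n + b.1 n := rfl
theorem sub_val (a b : P) (n : ℕ) : (a - b).1 n = a.1 n - b.1 n := rfl
theorem neg_val (a : P) (n : ℕ) : (-a).1 n = -a.1 n := rfl
theorem smul_val (c : ℝ) (a : P) (n : ℕ) : (c • a).1 n = c * a.1 n := rfl
theorem zero_val (n : ℕ) : (0 : P).1 n = 0 := rfl
theorem abs_val (a : P) (n : ℕ) : (|a|).1 n = |a.1 n| := rfl

instance : IsOrderedAddMonoid P where
  add_le_add_left a b h c n := by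
    rw [add_val, add_val]
    have := h n
    linarith

instance : IsOrderedModule ℝ P where
  smul_le_smul_of_nonneg_left c hc a b h n := by
    rw [smul_val, smul_val]
    exact mul_le_mul_of_nonneg_left (h n) hc
  smul_le_smul_of_nonneg_right a ha c d h n := by
    rw [smul_val, smul_val]
    exact mul_le_mul_of_nonneg_right h (ha n)

end P

/-- shifted sequence -/
def sh (t : ℕ → ℝ) : ℕ → ℝ
  | 0 => 0
  | n + 1 => t n

/-- `t` covers `a`: `|a_n| ≤ t_n + t_{n-1}` -/
def IsCov (a : P) (s : ℝ) : Prop :=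
  ∃ t : ℕ → ℝ, (∀ n, 0 ≤ t n) ∧ HasSum t s ∧ ∀ n, |a.1 n| ≤ t n + sh t n

theorem sh_nonneg {t : ℕ → ℝ} (ht : ∀ n, 0 ≤ t n) (n : ℕ) : 0 ≤ sh t n := by
  cases n with
  | zero => exact le_rfl
  | succ n => exact ht n

theorem hasSum_sh {t : ℕ → ℝ} {s : ℝ} (h : HasSum t s) : HasSum (sh t) s := by
  rw [← hasSum_nat_add_iff' 1]
  simpa [sh] using h

theorem IsCov.nonneg {a : P} {s : ℝ} (h : IsCov a s) : 0 ≤ s := by
  obtain ⟨t, ht, hs, _⟩ := h
  exact hs.nonneg ht

theorem IsCov.tsum_le {a : P} {s : ℝ} (h : IsCov a s) : ∑' n, |a.1 n| ≤ 2 * s := by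
  obtain ⟨t, ht, hs, hc⟩ := h
  have h1 := hs.add (hasSum_sh hs)
  rw [two_mul]
  exact hasSum_le hc a.summable.hasSum h1

theorem IsCov.of_summable (a : P) : IsCov a (∑' n, |a.1 n|) :=
  ⟨fun n => |a.1 n|, fun _ => abs_nonneg _, a.summable.hasSum, fun n =>
    le_add_of_nonneg_right (sh_nonneg (fun _ => abs_nonneg _) n)⟩

theorem IsCov.mono {a b : P} {s : ℝ} (h : IsCov b s) (hab : ∀ n, |a.1 n| ≤ |b.1 n|) : IsCov a s := by
  obtain ⟨t, ht, hs, hc⟩ := h
  exact ⟨t, ht, hs, fun n => (hab n).trans (hc n)⟩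

theorem sh_add (t t' : ℕ → ℝ) (n : ℕ) : sh (fun k => t k + t' k) n = sh t n + sh t' n := by
  cases n with
  | zero => simp [sh]
  | succ n => rfl

theorem sh_mul (c : ℝ) (t : ℕ → ℝ) (n : ℕ) : sh (fun k => c * t k) n = c * sh t n := by
  cases n with
  | zero => simp [sh]
  | succ n => rfl

theorem IsCov.add {a b : P} {s r : ℝ} (ha : IsCov a s) (hb : IsCov b r) : IsCov (a + b) (s + r) := by
  obtain ⟨t, ht, hs, hc⟩ := ha
  obtain ⟨t', ht', hs', hc'⟩ := hb
  refine ⟨fun n => t n + t' n, fun n => add_nonneg (ht n) (ht' n), hs.add hs', fun n => ?_⟩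
  rw [P.add_val, sh_add]
  have := hc n
  have := hc' n
  have := abs_add_le (a.1 n) (b.1 n)
  linarith

theorem IsCov.smul {a : P} {s : ℝ} (ha : IsCov a s) (c : ℝ) : IsCov (c • a) (|c| * s) := by
  obtain ⟨t, ht, hs, hc⟩ := ha
  refine ⟨fun n => |c| * t n, fun n => mul_nonneg (abs_nonneg _) (ht n), hs.mul_left _,
    fun n => ?_⟩
  rw [P.smul_val, sh_mul, abs_mul, ← mul_add]
  exact mul_le_mul_of_nonneg_left (hc n) (abs_nonneg _)

/-- the norm -/
noncomputable instance : Norm P := ⟨fun a => sInf {s | IsCov a s}⟩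

theorem norm_def (a : P) : ‖a‖ = sInf {s | IsCov a s} := rfl

theorem bdd (a : P) : BddBelow {s | IsCov a s} := ⟨0, fun _ h => h.nonneg⟩

theorem norm_le_of_cov {a : P} {s : ℝ} (h : IsCov a s) : ‖a‖ ≤ s := csInf_le (bdd a) h

theorem le_norm {a : P} {r : ℝ} (h : ∀ s, IsCov a s → r ≤ s) : r ≤ ‖a‖ :=
  le_csInf ⟨_, IsCov.of_summable a⟩ h

theorem norm_nonneg' (a : P) : 0 ≤ ‖a‖ := le_norm fun _ h => h.nonneg

theorem tsum_le (a : P) : ∑' n, |a.1 n| ≤ 2 * ‖a‖ := by
  have : (∑' n, |a.1 n|) / 2 ≤ ‖a‖ := le_norm fun s hs => by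
    have := hs.tsum_le
    linarith
  linarith

theorem norm_le_tsum (a : P) : ‖a‖ ≤ ∑' n, |a.1 n| := norm_le_of_cov (IsCov.of_summable a)

theorem norm_smul_le' (c : ℝ) (a : P) : ‖c • a‖ ≤ |c| * ‖a‖ := by
  rcases eq_or_ne c 0 with rfl | hc
  · have : ‖(0 : ℝ) • a‖ ≤ |(0 : ℝ)| * ∑' n, |a.1 n| :=
      norm_le_of_cov ((IsCov.of_summable a).smul 0)
    simpa using this
  · have h0 : 0 < |c| := abs_pos.2 hc
    have : ‖c • a‖ / |c| ≤ ‖a‖ := le_norm fun s hs => by
      rw [div_le_iff₀ h0, mul_comm]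
      exact norm_le_of_cov (hs.smul c)
    rwa [div_le_iff₀ h0, mul_comm] at this

theorem core : NormedSpace.Core ℝ P where
  norm_nonneg := norm_nonneg'
  norm_smul c a := by
    refine le_antisymm (norm_smul_le' c a) ?_
    rcases eq_or_ne c 0 with rfl | hc
    · simpa using norm_nonneg' ((0 : ℝ) • a)
    · have h1 := norm_smul_le' c⁻¹ (c • a)
      rw [smul_smul, inv_mul_cancel₀ hc, one_smul, abs_inv] at h1
      rw [Real.norm_eq_abs]
      rwa [le_inv_mul_iff₀ (abs_pos.2 hc)] at h1
  norm_triangle a b := by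
    have h1 : ∀ s, IsCov a s → ‖a + b‖ - s ≤ ‖b‖ := fun s hs => le_norm fun r hr => by
      have := norm_le_of_cov (hs.add hr)
      linarith
    have h2 : ‖a + b‖ - ‖b‖ ≤ ‖a‖ := le_norm fun s hs => by
      have := h1 s hs
      linarith
    linarith
  norm_eq_zero_iff a := by
    constructor
    · intro h
      have h1 := tsum_le a
      rw [h, mul_zero] at h1
      refine P.ext' fun n => ?_
      have h2 := a.summable.le_tsum n fun _ _ => abs_nonneg _
      have h3 : |a.1 n| = 0 := le_antisymm (h2.trans h1) (abs_nonneg _)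
      rw [P.zero_val]
      exact abs_eq_zero.1 h3
    · rintro rfl
      refine le_antisymm ?_ (norm_nonneg' _)
      have := norm_le_tsum 0
      simpa [P.zero_val] using this

noncomputable instance : NormedAddCommGroup P := NormedAddCommGroup.ofCore core
noncomputable instance : NormedSpace ℝ P := NormedSpace.ofCore core

instance : HasSolidNorm P where
  solid a b h := by
    refine le_norm fun s hs => norm_le_of_cov (hs.mono fun n => ?_)
    exact h n

instance : CompleteSpace P := by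
  refine Metric.complete_of_cauchySeq_tendsto fun u hu => ?_
  let J : P → lp (fun _ : ℕ => ℝ) 1 := fun a => ⟨a.1, memℓp_gen (by simpa using a.summable)⟩
  have hJn : ∀ a b, ‖J a - J b‖ = ∑' n, |(a - b).1 n| := by
    intro a b
    have h := lp.norm_eq_tsum_rpow (p := 1) (by norm_num) (J a - J b)
    simp only [ENNReal.toReal_one, Real.rpow_one, div_one] at h
    rw [h]
    exact tsum_congr fun n => Real.norm_eq_abs _
  have hc : CauchySeq fun n => J (u n) := by
    rw [Metric.cauchySeq_iff]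
    intro ε hε
    obtain ⟨N, hN⟩ := Metric.cauchySeq_iff.1 hu (ε / 2) (by positivity)
    refine ⟨N, fun m hm n hn => ?_⟩
    have h1 := hN m hm n hn
    rw [dist_eq_norm] at h1 ⊢
    rw [hJn]
    have := tsum_le (u m - u n)
    linarith
  obtain ⟨z, hz⟩ := cauchySeq_tendsto_of_complete hc
  have hzs : Summable fun n => |z n| := by
    have h := (lp.memℓp z).summable (by norm_num)
    simpa using h
  let z' : P := ⟨z, hzs⟩
  refine ⟨z', ?_⟩
  rw [tendsto_iff_norm_sub_tendsto_zero] at hz ⊢
  have hJz : J z' = z := rfl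
  refine squeeze_zero (fun n => norm_nonneg _) (fun n => ?_) hz
  rw [← hJz, hJn]
  exact norm_le_tsum _

/-- unit vectors -/
noncomputable def e (n : ℕ) : P :=
  ⟨Pi.single n 1, by
    refine summable_of_ne_finset_zero (s := {n}) fun k hk => ?_
    rw [Pi.single_eq_of_ne (by simpa using hk), abs_zero]⟩

theorem e_val (n k : ℕ) : (e n).1 k = if k = n then 1 else 0 := by
  show (Pi.single n (1 : ℝ) : ℕ → ℝ) k = _
  rw [Pi.single_apply]

theorem e_nonneg (n : ℕ) : 0 ≤ e n := by
  intro k
  rw [P.zero_val, e_val]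
  split_ifs <;> norm_num

theorem e_disj {m n : ℕ} (h : m ≠ n) : e m ⊓ e n = 0 := by
  refine P.ext' fun k => ?_
  show min ((e m).1 k) ((e n).1 k) = 0
  rw [e_val, e_val]
  by_cases h1 : k = m
  · rw [if_pos h1, if_neg (by omega)]; norm_num
  · rw [if_neg h1]; split_ifs <;> norm_num

theorem norm_e_add_le (n : ℕ) : ‖e n + e (n + 1)‖ ≤ 1 := by
  refine norm_le_of_cov ⟨fun k => if k = n then 1 else 0, fun k => ?_, hasSum_ite_eq n 1,
    fun k => ?_⟩
  · show (0 : ℝ) ≤ if k = n then 1 else 0
    split_ifs <;> norm_num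
  · rw [P.add_val, e_val, e_val]
    cases k with
    | zero =>
      rcases n with _ | n
      · simp [sh]
      · simp [sh]
    | succ k =>
      simp only [sh]
      by_cases h1 : k + 1 = n
      · rw [if_pos h1, if_neg (by omega), if_neg (by omega)]; norm_num
      · by_cases h2 : k = n
        · rw [if_neg h1, if_pos (by omega), if_pos h2]; norm_num
        · rw [if_neg h1, if_neg (by omega), if_neg h2]; norm_num

theorem one_le_norm_e (n : ℕ) : 1 ≤ ‖e n‖ := by
  refine le_norm fun s hs => ?_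
  obtain ⟨t, ht, hs, hc⟩ := hs
  have h1 := hc n
  rw [e_val, if_pos rfl, abs_one] at h1
  cases n with
  | zero =>
    have := le_hasSum hs 0 fun _ _ => ht _
    simp only [sh] at h1
    linarith
  | succ n =>
    have h2 := sum_le_hasSum {n, n + 1} (fun k _ => ht k) hs
    rw [Finset.sum_pair (by omega)] at h2
    simp only [sh] at h1
    linarith

theorem norm_e_le (n : ℕ) : ‖e n‖ ≤ 1 := by
  refine (norm_le_tsum _).trans (le_of_eq ?_)
  rw [tsum_eq_single n]
  · rw [e_val]; simp
  · intro k hk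
    rw [e_val, if_neg hk, abs_zero]

/-- coordinate functionals -/
noncomputable def coord (k : ℕ) : P →L[ℝ] ℝ :=
  LinearMap.mkContinuous (⟨⟨fun a => a.1 k, fun _ _ => rfl⟩, fun _ _ => rfl⟩ : P →ₗ[ℝ] ℝ) 2
    fun a => by
      show |a.1 k| ≤ 2 * ‖a‖
      exact (a.summable.le_tsum k fun _ _ => abs_nonneg _).trans (tsum_le a)

theorem coord_apply (k : ℕ) (a : P) : coord k a = a.1 k := rfl

theorem hasSum_e (a : P) : HasSum (fun n => a.1 n • e n) a := by
  have h1 : Summable fun n => a.1 n • e n := by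
    refine Summable.of_norm_bounded a.summable fun n => ?_
    rw [norm_smul, Real.norm_eq_abs]
    exact mul_le_of_le_one_right (abs_nonneg _) (norm_e_le n)
  have h2 : ∑' n, a.1 n • e n = a := by
    refine P.ext' fun k => ?_
    have h3 := h1.hasSum.mapL (coord k)
    have h4 : HasSum (fun n => coord k (a.1 n • e n)) (a.1 k) := by
      have : (fun n => coord k (a.1 n • e n)) = fun n => if n = k then a.1 k else 0 := by
        funext n
        rw [coord_apply, P.smul_val, e_val]
        by_cases h : n = k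
        · subst h; simp
        · rw [if_neg h, if_neg (Ne.symm h), mul_zero]
      rw [this]
      exact hasSum_ite_eq k (a.1 k)
    exact h3.unique h4
  have h5 := h1.hasSum
  rwa [h2] at h5

/-- `P` is Dedekind complete. -/
theorem dedekind (S : Set P) (hS : S.Nonempty) (hb : BddAbove S) : ∃ b, IsLUB S b := by
  obtain ⟨a₀, ha₀⟩ := hS
  obtain ⟨B, hB⟩ := hb
  let T : ℕ → Set ℝ := fun n => (fun a : P => a.1 n) '' S
  have hT : ∀ n, (T n).Nonempty := fun n => ⟨_, a₀, ha₀, rfl⟩
  have hTb : ∀ n, BddAbove (T n) := fun n => ⟨B.1 n, by rintro _ ⟨a, ha, rfl⟩; exact hB ha n⟩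
  have h1 : ∀ n, a₀.1 n ≤ sSup (T n) := fun n => le_csSup (hTb n) ⟨a₀, ha₀, rfl⟩
  have h2 : ∀ n, sSup (T n) ≤ B.1 n := fun n => csSup_le (hT n) (by
    rintro _ ⟨a, ha, rfl⟩; exact hB ha n)
  let b : P := ⟨fun n => sSup (T n), by
    refine Summable.of_nonneg_of_le (fun n => abs_nonneg _) (fun n => ?_)
      (a₀.summable.add B.summable)
    have h3 := neg_abs_le (a₀.1 n)
    have h4 := le_abs_self (B.1 n)
    have h5 := abs_nonneg (a₀.1 n)
    have h6 := abs_nonneg (B.1 n)
    rw [abs_le]
    constructor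
    · linarith [h1 n]
    · linarith [h2 n]⟩
  refine ⟨b, fun a ha n => le_csSup (hTb n) ⟨a, ha, rfl⟩, fun c hc n => ?_⟩
  exact csSup_le (hT n) (by rintro _ ⟨a, ha, rfl⟩; exact hc ha n)

theorem linearIndependent_e : LinearIndependent ℝ e := by
  rw [linearIndependent_iff']
  intro s g hg i hi
  have h1 := congrArg (coord i) hg
  rw [map_sum, map_zero] at h1
  rw [Finset.sum_eq_single i] at h1
  · rw [coord_apply, P.smul_val, e_val, if_pos rfl, mul_one] at h1
    exact h1
  · intro j _ hj
    rw [coord_apply, P.smul_val, e_val, if_neg (Ne.symm hj), mul_zero]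
  · intro h; exact absurd hi h

/-- `P` is not an `ℓ_1`-sum of finite-dimensional lattices. -/
theorem not_sum {E : ℕ → Type u} [∀ n, NormedAddCommGroup (E n)] [∀ n, NormedSpace ℝ (E n)]
    [∀ n, Lattice (E n)] [∀ n, IsOrderedAddMonoid (E n)] [∀ n, FiniteDimensional ℝ (E n)]
    (U : P ≃ₗᵢ[ℝ] lp E 1) (hU : ∀ (a : P) (n : ℕ), U |a| n = |U a n|) : False := by
  classical
  have hnonneg : ∀ a : P, (∀ n, 0 ≤ U a n) → 0 ≤ a := by
    intro a ha
    have h1 : |a| = a := by
      apply U.injective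
      apply lp.ext
      funext n
      rw [hU, abs_of_nonneg (ha n)]
    rw [← h1]; exact abs_nonneg _
  have hnonneg' : ∀ a : P, 0 ≤ a → ∀ n, 0 ≤ U a n := by
    intro a ha n
    rw [← abs_of_nonneg ha, hU]; exact abs_nonneg _
  -- each unit vector lives in one summand
  have key : ∀ n, ∃ k, ∀ l, l ≠ k → U (e n) l = 0 := by
    intro n
    have hne : U (e n) ≠ 0 := by
      intro h
      have h1 := U.norm_map (e n)
      rw [h, norm_zero] at h1
      have := one_le_norm_e n
      linarith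
    obtain ⟨k, hk⟩ : ∃ k, U (e n) k ≠ 0 := by
      by_contra hcon
      push Not at hcon
      apply hne
      apply lp.ext
      funext k
      exact hcon k
    refine ⟨k, fun l hl => ?_⟩
    set b : P := U.symm (lp.single 1 k (U (e n) k)) with hb
    have hUb : U b = lp.single 1 k (U (e n) k) := U.apply_symm_apply _
    have hb0 : 0 ≤ b := by
      refine hnonneg b fun m => ?_
      rw [hUb, lp.single_apply]
      by_cases hm : m = k
      · subst hm; rw [Pi.single_eq_same]; exact hnonneg' _ (e_nonneg n) _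
      · rw [Pi.single_eq_of_ne hm]
    have hb1 : 0 ≤ e n - b := by
      refine hnonneg _ fun m => ?_
      rw [map_sub, lp.coeFn_sub, Pi.sub_apply, hUb, lp.single_apply]
      by_cases hm : m = k
      · subst hm; rw [Pi.single_eq_same, sub_self]
      · rw [Pi.single_eq_of_ne hm, sub_zero]; exact hnonneg' _ (e_nonneg n) _
    have hbe : b = b.1 n • e n := by
      refine P.ext' fun j => ?_
      rw [P.smul_val, e_val]
      by_cases hj : j = n
      · rw [if_pos hj, hj, mul_one]
      · rw [if_neg hj, mul_zero]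
        have h1 := hb0 j
        have h2 := hb1 j
        rw [P.sub_val, e_val, if_neg hj, P.zero_val] at h2
        rw [P.zero_val] at h1
        linarith
    have h3 : ∀ m, (lp.single 1 k (U (e n) k) : lp E 1) m = b.1 n • U (e n) m := by
      intro m
      rw [← hUb, hbe, map_smul, lp.coeFn_smul, Pi.smul_apply]
      congr 1
      rw [P.smul_val, e_val, if_pos rfl, mul_one]
    have h4 := h3 k
    rw [lp.single_apply_self] at h4
    have h5 : b.1 n = 1 := by
      have : (1 - b.1 n) • U (e n) k = 0 := by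
        rw [sub_smul, one_smul, ← h4, sub_self]
      rcases smul_eq_zero.1 this with h | h
      · linarith
      · exact absurd h hk
    have h6 := h3 l
    rw [lp.single_apply, Pi.single_eq_of_ne hl, h5, one_smul] at h6
    exact h6.symm
  choose k hk using key
  have hsingle : ∀ n, U (e n) = lp.single 1 (k n) (U (e n) (k n)) := by
    intro n
    apply lp.ext
    funext l
    rw [lp.single_apply]
    by_cases hl : l = k n
    · subst hl; rw [Pi.single_eq_same]
    · rw [Pi.single_eq_of_ne hl, hk n l hl]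
  have hnorm : ∀ n, 1 ≤ ‖U (e n) (k n)‖ := by
    intro n
    have h1 := U.norm_map (e n)
    rw [hsingle n, lp.norm_single (by norm_num)] at h1
    have h2 := one_le_norm_e n
    rw [← h1] at h2
    exact h2
  have hstep : ∀ n, k (n + 1) = k n := by
    intro n
    by_contra hne
    have h1 := lp.sum_rpow_le_norm_rpow (p := 1) (by norm_num) (U (e n + e (n + 1)))
      {k n, k (n + 1)}
    rw [Finset.sum_pair (Ne.symm hne)] at h1
    simp only [ENNReal.toReal_one, Real.rpow_one] at h1
    rw [U.norm_map, map_add, lp.coeFn_add, Pi.add_apply, Pi.add_apply,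
      hk (n + 1) (k n) (Ne.symm hne), hk n (k (n + 1)) hne, add_zero, zero_add] at h1
    have := norm_e_add_le n
    have := hnorm n
    have := hnorm (n + 1)
    linarith
  have hconst : ∀ n, k n = k 0 := by
    intro n
    induction n with
    | zero => rfl
    | succ n ih => rw [hstep, ih]
  let S : E (k 0) →ₗ[ℝ] P :=
    U.symm.toLinearEquiv.toLinearMap ∘ₗ
      ({ toFun := fun v => lp.single 1 (k 0) v
         map_add' := fun v w => lp.single_add _ _ _ _
         map_smul' := fun c v => lp.single_smul _ _ _ _ } : E (k 0) →ₗ[ℝ] lp E 1)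
  have hS : ∀ n, S (U (e n) (k 0)) = e n := by
    intro n
    show U.symm (lp.single 1 (k 0) (U (e n) (k 0))) = e n
    have h1 := hsingle n
    rw [hconst n] at h1
    rw [← h1, U.symm_apply_apply]
  have hli : LinearIndependent ℝ fun n => U (e n) (k 0) := by
    refine LinearIndependent.of_comp S ?_
    have : (⇑S ∘ fun n => U (e n) (k 0)) = e := funext hS
    rw [this]
    exact linearIndependent_e
  have := hli.finite
  exact not_finite ℕ

section Lift

variable {X : Type u} [NormedAddCommGroup X] [NormedSpace ℝ X] [CompleteSpace X] [Lattice X]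
  [IsOrderedAddMonoid X] [IsOrderedModule ℝ X] [HasSolidNorm X]

theorem summable_lift {x : ℕ → X} {M : ℝ} (hM : ∀ n, ‖x n‖ ≤ M) {a : ℕ → ℝ}
    (ha : Summable fun n => |a n|) : Summable fun n => a n • x n := by
  refine Summable.of_norm_bounded (ha.mul_right M) fun n => ?_
  rw [norm_smul, Real.norm_eq_abs]
  exact mul_le_mul_of_nonneg_left (hM n) (abs_nonneg _)

theorem abs_tsum {x : ℕ → X} (hx : ∀ n, 0 ≤ x n) (hd : ∀ m n, m ≠ n → x m ⊓ x n = 0) {M : ℝ}
    (hM : ∀ n, ‖x n‖ ≤ M) {a : ℕ → ℝ} (ha : Summable fun n => |a n|) :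
    |∑' n, a n • x n| = ∑' n, |a n| • x n := by
  have hp : Summable fun n => |max (a n) 0| := by
    refine Summable.of_nonneg_of_le (fun n => abs_nonneg _) (fun n => ?_) ha
    rw [abs_of_nonneg (le_max_right _ _)]
    exact max_le (le_abs_self _) (abs_nonneg _)
  have hn : Summable fun n => |max (-a n) 0| := by
    refine Summable.of_nonneg_of_le (fun n => abs_nonneg _) (fun n => ?_) ha
    rw [abs_of_nonneg (le_max_right _ _)]
    exact max_le (neg_le_abs _) (abs_nonneg _)
  have hp' := summable_lift hM hp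
  have hn' := summable_lift hM hn
  set p := ∑' n, max (a n) 0 • x n
  set q := ∑' n, max (-a n) 0 • x n
  have h1 : ∑' n, a n • x n = p - q := by
    rw [← hp'.tsum_sub hn']
    refine tsum_congr fun n => ?_
    rw [← sub_smul]
    congr 1
    rcases le_total 0 (a n) with h | h
    · rw [max_eq_left h, max_eq_right (by linarith), sub_zero]
    · rw [max_eq_right h, max_eq_left (by linarith)]; ring
  have h2 : ∑' n, |a n| • x n = p + q := by
    rw [← hp'.tsum_add hn']
    refine tsum_congr fun n => ?_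
    rw [← add_smul]
    congr 1
    rcases le_total 0 (a n) with h | h
    · rw [max_eq_left h, max_eq_right (by linarith), abs_of_nonneg h, add_zero]
    · rw [max_eq_right h, max_eq_left (by linarith), abs_of_nonpos h, zero_add]
  have hpn : ∀ n, 0 ≤ max (a n) 0 • x n := fun n => smul_nonneg (le_max_right _ _) (hx n)
  have hqn : ∀ n, 0 ≤ max (-a n) 0 • x n := fun n => smul_nonneg (le_max_right _ _) (hx n)
  have h3 : p ⊓ q = 0 := by
    refine disj_hasSum (hp'.hasSum.nonneg hpn) hqn (fun m => ?_) hn'.hasSum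
    rw [inf_comm]
    refine disj_hasSum (hqn m) hpn (fun n => ?_) hp'.hasSum
    by_cases hmn : m = n
    · subst hmn
      rcases le_total 0 (a m) with h | h
      · rw [max_eq_right (by linarith : -a m ≤ 0), zero_smul]
        exact inf_eq_left.2 (hpn m)
      · rw [max_eq_right h, zero_smul]
        exact inf_eq_right.2 (hqn m)
    · refine disj_smul (hqn m) (hx n) ?_ (le_max_right _ _)
      rw [inf_comm]
      exact disj_smul (hx n) (hx m) (hd n m (Ne.symm hmn)) (le_max_right _ _)
  rw [h1, h2, abs_sub_of_disj h3]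

theorem tsum_cov {x : ℕ → X} {M : ℝ} (hM : ∀ n, ‖x n‖ ≤ M) {t : ℕ → ℝ} (ht : ∀ n, 0 ≤ t n)
    {s : ℝ} (hs : HasSum t s) :
    HasSum (fun n => (t n + sh t n) • x n) (∑' n, t n • (x n + x (n + 1))) := by
  have ht' : Summable fun n => |t n| := by simpa only [abs_of_nonneg (ht _)] using hs.summable
  have h1 := summable_lift hM ht'
  have h2 : Summable fun n => t n • x (n + 1) := summable_lift (fun n => hM (n + 1)) ht'
  have h3 : HasSum (fun n => sh t n • x n) (∑' n, t n • x (n + 1)) := by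
    rw [← hasSum_nat_add_iff' 1]
    simpa [sh] using h2.hasSum
  have h4 := h1.hasSum.add h3
  have h5 : ∑' n, t n • (x n + x (n + 1)) = ∑' n, t n • x n + ∑' n, t n • x (n + 1) := by
    rw [← h1.tsum_add h2]
    exact tsum_congr fun n => smul_add _ _ _
  rw [h5]
  simpa only [add_smul] using h4

/-- the lattice homomorphism on `P` given by a positive disjoint sequence with
`‖x_n + x_{n+1}‖ ≤ M` -/
theorem exists_hom {x : ℕ → X} (hx : ∀ n, 0 ≤ x n) (hd : ∀ m n, m ≠ n → x m ⊓ x n = 0) {M : ℝ}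
    (hM : ∀ n, ‖x n + x (n + 1)‖ ≤ M) :
    ∃ T : P →L[ℝ] X, IsLatticeHom T ∧ (∀ n, T (e n) = x n) ∧ ‖T‖ ≤ M := by
  have hM0 : 0 ≤ M := (norm_nonneg _).trans (hM 0)
  have hxM : ∀ n, ‖x n‖ ≤ M := by
    intro n
    refine le_trans (HasSolidNorm.solid ?_) (hM n)
    rw [abs_of_nonneg (hx n), abs_of_nonneg (add_nonneg (hx n) (hx _))]
    exact le_add_of_nonneg_right (hx _)
  have hsum : ∀ a : P, Summable fun n => a.1 n • x n := fun a => summable_lift hxM a.summable
  let T0 : P →ₗ[ℝ] X :=
    { toFun := fun a => ∑' n, a.1 n • x n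
      map_add' := fun a b => by
        rw [← (hsum a).tsum_add (hsum b)]
        exact tsum_congr fun n => add_smul _ _ _
      map_smul' := fun c a => by
        rw [RingHom.id_apply, ← (hsum a).tsum_const_smul]
        exact tsum_congr fun n => mul_smul _ _ _ }
  have habs : ∀ a : P, |T0 a| = T0 |a| := fun a => abs_tsum hx hd hxM a.summable
  have hbound : ∀ a, ‖T0 a‖ ≤ M * ‖a‖ := by
    intro a
    have key : ∀ s, IsCov a s → ‖T0 a‖ ≤ M * s := by
      rintro s ⟨t, ht, hs, hc⟩
      have h1 : T0 |a| ≤ ∑' n, t n • (x n + x (n + 1)) := by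
        refine hasSum_le (fun n => ?_) (hsum |a|).hasSum (tsum_cov hxM ht hs)
        exact smul_le_smul_of_nonneg_right (hc n) (hx n)
      have h2 : ‖T0 a‖ ≤ ‖∑' n, t n • (x n + x (n + 1))‖ := by
        refine HasSolidNorm.solid ?_
        rw [habs]
        exact h1.trans (le_abs_self _)
      refine h2.trans ?_
      have h3 : HasSum (fun n => M * t n) (M * s) := hs.mul_left M
      refine tsum_of_norm_bounded h3 fun n => ?_
      rw [norm_smul, Real.norm_of_nonneg (ht n), mul_comm]
      exact mul_le_mul_of_nonneg_right (hM n) (ht n)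
    rcases hM0.eq_or_lt with h | h
    · have := key _ (IsCov.of_summable a)
      rw [← h, zero_mul] at this ⊢
      exact this
    · have : ‖T0 a‖ / M ≤ ‖a‖ := le_norm fun s hs => by
        rw [div_le_iff₀ h, mul_comm]
        exact key s hs
      rwa [div_le_iff₀ h, mul_comm] at this
  refine ⟨T0.mkContinuous M hbound, isLatticeHom_of_abs fun a => (habs a).symm, fun n => ?_,
    LinearMap.mkContinuous_norm_le _ hM0 _⟩
  show ∑' k, (e n).1 k • x k = x n
  rw [tsum_eq_single n]
  · rw [e_val, if_pos rfl, one_smul]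
  · intro k hk
    rw [e_val, if_neg hk, zero_smul]

end Lift

/-- `P` is projective. -/
theorem projective {X Z : Type u} [NormedAddCommGroup X] [NormedSpace ℝ X] [CompleteSpace X]
    [Lattice X] [IsOrderedAddMonoid X] [IsOrderedModule ℝ X] [HasSolidNorm X]
    [NormedAddCommGroup Z] [NormedSpace ℝ Z] [Lattice Z] [IsOrderedAddMonoid Z]
    [IsOrderedModule ℝ Z] [HasSolidNorm Z] {Q : X →L[ℝ] Z} (hQ : IsLatticeQuotient Q)
    {T : P →L[ℝ] Z} (hT : IsLatticeHom T) {ε : ℝ} (hε : 0 < ε) :
    ∃ T' : P →L[ℝ] X, IsLatticeHom T' ∧ Q.comp T' = T ∧ ‖T'‖ ≤ (1 + ε) * ‖T‖ := by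
  by_cases hT0 : T = 0
  · refine ⟨0, fun x y => ?_, ?_, ?_⟩
    · simp
    · rw [hT0, ContinuousLinearMap.comp_zero]
    · rw [hT0]; simp
  have hTn : 0 < ‖T‖ := norm_pos_iff.2 hT0
  set M := (1 + ε) * ‖T‖ with hMdef
  obtain ⟨x, hx, hd, hQx⟩ := lift_disjoint hQ (u := fun n => T (e n))
    (fun n => hT.nonneg (e_nonneg n)) (fun m n hmn => by
      rw [← (hT _ _).2, e_disj hmn, map_zero])
  have hy : ∀ n, ∃ y : X, 0 ≤ y ∧ Q y = T (e n + e (n + 1)) ∧ ‖y‖ ≤ M := by
    intro n
    have h1 : ‖T (e n + e (n + 1))‖ < M := by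
      calc ‖T (e n + e (n + 1))‖ ≤ ‖T‖ * ‖e n + e (n + 1)‖ := T.le_opNorm _
        _ ≤ ‖T‖ * 1 := by gcongr; exact norm_e_add_le n
        _ < M := by rw [hMdef]; nlinarith
    have h2 := hQ.norm (T (e n + e (n + 1)))
    obtain ⟨r, ⟨y, hy, rfl⟩, _, hr⟩ := h2.exists_between h1
    refine ⟨|y|, abs_nonneg y, ?_, ?_⟩
    · rw [hQ.lat.map_abs, hy, abs_of_nonneg]
      exact hT.nonneg (add_nonneg (e_nonneg _) (e_nonneg _))
    · rw [norm_abs_eq_norm]; exact hr.le
  choose y hy0 hyQ hyM using hy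
  let z : ℕ → X := fun n => x n ⊓ (y n ⊓ y (n - 1))
  have hz0 : ∀ n, 0 ≤ z n := fun n => le_inf (hx n) (le_inf (hy0 n) (hy0 _))
  have hzx : ∀ n, z n ≤ x n := fun n => inf_le_left
  have hzy : ∀ n, z n ≤ y n := fun n => inf_le_right.trans inf_le_left
  have hzy' : ∀ n, z (n + 1) ≤ y n := fun n => inf_le_right.trans inf_le_right
  have hzd : ∀ m n, m ≠ n → z m ⊓ z n = 0 := fun m n hmn =>
    le_antisymm ((inf_le_inf (hzx m) (hzx n)).trans (hd m n hmn).le) (le_inf (hz0 m) (hz0 n))
  have hle : ∀ k n, (n = k ∨ n = k + 1) → T (e n) ≤ T (e k + e (k + 1)) := by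
    intro k n hn
    rw [← sub_nonneg, ← map_sub]
    apply hT.nonneg
    rcases hn with rfl | rfl
    · rw [add_sub_cancel_left]; exact e_nonneg _
    · rw [add_sub_cancel_right]; exact e_nonneg _
  have hQz : ∀ n, Q (z n) = T (e n) := by
    intro n
    show Q (x n ⊓ (y n ⊓ y (n - 1))) = _
    rw [(hQ.lat _ _).2, (hQ.lat _ _).2, hQx, hyQ, hyQ]
    refine inf_eq_left.2 (le_inf (hle n n (Or.inl rfl)) (hle (n - 1) n ?_))
    omega
  have hzM : ∀ n, ‖z n + z (n + 1)‖ ≤ M := by
    intro n
    refine le_trans (HasSolidNorm.solid ?_) (hyM n)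
    rw [abs_of_nonneg (add_nonneg (hz0 _) (hz0 _)), abs_of_nonneg (hy0 n)]
    have h1 := inf_add_sup (z n) (z (n + 1))
    rw [hzd n (n + 1) (by omega), zero_add] at h1
    rw [← h1]
    exact sup_le (hzy n) (hzy' n)
  obtain ⟨T', hT', hT'e, hT'n⟩ := exists_hom hz0 hzd hzM
  refine ⟨T', hT', ?_, hT'n⟩
  ext a
  have h1 := (hasSum_e a).mapL (Q.comp T')
  have h2 := (hasSum_e a).mapL T
  have h3 : (fun n => (Q.comp T') (a.1 n • e n)) = fun n => T (a.1 n • e n) := by
    funext n
    show Q (T' (a.1 n • e n)) = _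
    rw [map_smul, map_smul, hT'e, hQz, map_smul]
  rw [h3] at h1
  exact h1.unique h2

end Q101.PathLat
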