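import Pool.Agent.Q101.QGLine

/-!
# Generic conformal factors
-/

set_option autoImplicit false

open Set Filter Topology MeasureTheory

noncomputable section

namespace Q101.QG

open Pool.Agent.Y262.QE Pool.Agent.Y264.QR Pool.Agent.Y378.QR

section

variable {M : Type} [MetricSpace M] [CompactSpace M] [MeasurableSpace M] [BorelSpace M]
  (μ : Measure M) [IsFiniteMeasure μ] {H : Type} [NormedAddCommGroup H] [InnerProductSpace ℝ H]
  (i : H →L[ℝ] Lp ℝ 2 μ) (a : H →L[ℝ] H →L[ℝ] ℝ) (b : C(M, ℝ) → H →L[ℝ] H →L[ℝ] ℝ)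

theorem kap_lip (hB : IsB μ i b) (h φ ψ : C(M, ℝ)) (v : H) :
    |kap μ i h ψ v - kap μ i h φ v| ≤ ‖h‖ * (Real.exp ‖ψ - φ‖ - 1) * b φ v v := by
  have h1 : kap μ i h ψ v - kap μ i h φ v =
      ∫ x, h x * (Real.exp (ψ x) * (i v x) ^ 2) - h x * (Real.exp (φ x) * (i v x) ^ 2) ∂μ := by
    unfold kap
    rw [integral_sub (cint h (wint ψ v)) (cint h (wint φ v))]
  rw [h1, hB, ← integral_const_mul, ← Real.norm_eq_abs]
  refine norm_integral_le_of_norm_le ?_ (Eventually.of_forall fun x => ?_)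
  · have h2 := (wint (μ := μ) (i := i) φ v).const_mul (‖h‖ * (Real.exp ‖ψ - φ‖ - 1))
    refine h2.congr (Eventually.of_forall fun x => ?_)
    simp only
    ring
  · have h2 : |h x| ≤ ‖h‖ := h.norm_coe_le_norm x
    have h3 : |ψ x - φ x| ≤ ‖ψ - φ‖ := (ψ - φ).norm_coe_le_norm x
    have h4 : |Real.exp (ψ x) - Real.exp (φ x)| ≤ (Real.exp ‖ψ - φ‖ - 1) * Real.exp (φ x) := by
      rw [sub_mul, one_mul, ← Real.exp_add, abs_le]
      have h5 := (abs_le.1 h3)
      constructor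
      · have h6 : Real.exp (φ x) * 2 ≤ Real.exp (ψ x) + Real.exp (‖ψ - φ‖ + φ x) := by
          have h7 : Real.exp (φ x - ‖ψ - φ‖) ≤ Real.exp (ψ x) := Real.exp_le_exp.2 (by linarith)
          have h8 : Real.exp (φ x) * 2 ≤ Real.exp (φ x - ‖ψ - φ‖) + Real.exp (‖ψ - φ‖ + φ x) := by
            have e1 : Real.exp (φ x - ‖ψ - φ‖) = Real.exp (φ x) * Real.exp (-‖ψ - φ‖) := by
              rw [← Real.exp_add]; ring_nf
            have e2 : Real.exp (‖ψ - φ‖ + φ x) = Real.exp (φ x) * Real.exp ‖ψ - φ‖ := by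
              rw [← Real.exp_add]; ring_nf
            rw [e1, e2, ← mul_add]
            refine mul_le_mul_of_nonneg_left ?_ (Real.exp_pos _).le
            have e3 := Real.one_le_cosh ‖ψ - φ‖
            rw [Real.cosh_eq] at e3
            linarith
          linarith
        linarith
      · have h6 : Real.exp (ψ x) ≤ Real.exp (‖ψ - φ‖ + φ x) := Real.exp_le_exp.2 (by linarith)
        linarith
    have h5 : h x * (Real.exp (ψ x) * (i v x) ^ 2) - h x * (Real.exp (φ x) * (i v x) ^ 2) =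
        h x * (Real.exp (ψ x) - Real.exp (φ x)) * (i v x) ^ 2 := by ring
    rw [h5, Real.norm_eq_abs, abs_mul, abs_mul, abs_of_nonneg (sq_nonneg (i v x))]
    calc |h x| * |Real.exp (ψ x) - Real.exp (φ x)| * (i v x) ^ 2
        ≤ ‖h‖ * ((Real.exp ‖ψ - φ‖ - 1) * Real.exp (φ x)) * (i v x) ^ 2 := by
          refine mul_le_mul_of_nonneg_right ?_ (sq_nonneg _)
          exact mul_le_mul h2 h4 (abs_nonneg _) (norm_nonneg _)
      _ = ‖h‖ * (Real.exp ‖ψ - φ‖ - 1) * (Real.exp (φ x) * (i v x * i v x)) := by ring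

/-- the conformal factors which are good for one index of the sequence -/
def Good (J : ℕ → ℕ) (h : C(M, ℝ)) (ε : ℝ) (K : ℕ) : Set C(M, ℝ) :=
  {φ | ∃ k, K ≤ k ∧ ∀ v, EV a (b φ) (Ev a (b φ) (J k)) v → kap μ i h φ v ≤ avg μ h φ + ε}

theorem good_nhds [CompleteSpace H] (hS : Sf μ i a) (hB : IsB μ i b) (J : ℕ → ℕ) (h : C(M, ℝ))
    (ε : ℝ) (hε : 0 < ε) (K : ℕ) (φ : C(M, ℝ)) (hφ : φ ∈ Good μ i a b J h (ε / 2) K) :
    Good μ i a b J h ε K ∈ 𝓝 φ := by
  obtain ⟨hF, hb, hk⟩ := forms μ i a b hS hB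
  obtain ⟨k, hkK, hgood⟩ := hφ
  obtain ⟨e, E, hE⟩ := tSp H a (b φ) (hF φ)
  have hmm : Ev a (b φ) (J k) = E (J k) :=
    Pool.Agent.Y592.QE.mm H a (b φ) (hF φ) e E hE (J k)
  obtain ⟨q, hq1, hq2⟩ := hk h
  obtain ⟨δ, hδ, hδ1, hst⟩ := stab a (b φ) (hF φ) e E hE (q φ) ‖h‖ (hq1 φ) (norm_nonneg _)
    (fun v => (hq2 φ v).2) (J k) (avg μ h φ + ε / 2)
    (fun v hv => by rw [(hq2 φ v).1]; exact hgood v (by rw [hmm]; exact hv)) (ε / 8)
    (by positivity)
  letI : MeasurableSpace C(M, ℝ) := borel _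
  haveI : BorelSpace C(M, ℝ) := ⟨rfl⟩
  obtain ⟨-, hav, -, -⟩ := Pool.Agent.Y689.QR.cm M μ
  have hd : Tendsto (fun ψ : C(M, ℝ) => Real.exp ‖ψ - φ‖ - 1) (𝓝 φ) (𝓝 0) := by
    have h1 : Continuous fun ψ : C(M, ℝ) => Real.exp ‖ψ - φ‖ - 1 := by fun_prop
    have h2 := h1.tendsto φ
    rwa [sub_self, norm_zero, Real.exp_zero, sub_self] at h2
  have hEc := (tLip M μ H a b hF hb).2.2.2.1 (J k)
  have e1 : ∀ᶠ ψ in 𝓝 φ, Real.exp ‖ψ - φ‖ - 1 < δ := hd.eventually (eventually_lt_nhds hδ)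
  have e2 : ∀ᶠ ψ in 𝓝 φ, |Ev a (b ψ) (J k) - Ev a (b φ) (J k)| < δ := by
    have h1 := (hEc.tendsto φ).eventually (Metric.ball_mem_nhds _ hδ)
    filter_upwards [h1] with ψ h1
    exact h1
  have e3 : ∀ᶠ ψ in 𝓝 φ, ‖h‖ * (Real.exp ‖ψ - φ‖ - 1) * 2 < ε / 8 := by
    have h1 : Tendsto (fun ψ : C(M, ℝ) => ‖h‖ * (Real.exp ‖ψ - φ‖ - 1) * 2) (𝓝 φ) (𝓝 0) := by
      have := (hd.const_mul ‖h‖).mul_const 2
      rwa [mul_zero, zero_mul] at this
    exact h1.eventually (eventually_lt_nhds (by positivity))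
  have e4 : ∀ᶠ ψ in 𝓝 φ, |avg μ h ψ - avg μ h φ| < ε / 8 := by
    have h1 := ((hav h).tendsto φ).eventually (Metric.ball_mem_nhds _ (by positivity : 0 < ε / 8))
    filter_upwards [h1] with ψ h1
    exact h1
  filter_upwards [e1, e2, e3, e4] with ψ e1 e2 e3 e4
  refine ⟨k, hkK, fun v hv => ?_⟩
  have hb1 : ∀ x, b ψ x x ≤ Real.exp ‖ψ - φ‖ * b φ x x := fun x => hb ψ φ x
  have hb2 : ∀ x, b φ x x ≤ Real.exp ‖ψ - φ‖ * b ψ x x := fun x => by
    rw [norm_sub_rev]; exact hb φ ψ x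
  have hexp : 1 ≤ Real.exp ‖ψ - φ‖ := Real.one_le_exp (norm_nonneg _)
  have hdiff : ∀ x, |b ψ x x - b φ x x| ≤ δ * b φ x x := by
    intro x
    have h0 := (hF φ).nb x
    have h0' := (hF ψ).nb x
    have h1 : b ψ x x - b φ x x ≤ (Real.exp ‖ψ - φ‖ - 1) * b φ x x := by
      have := hb1 x
      linarith
    have h2 : b φ x x - b ψ x x ≤ (Real.exp ‖ψ - φ‖ - 1) * b φ x x := by
      by_cases h3 : b ψ x x ≤ b φ x x
      · have h4 := hb2 x
        have h5 : (Real.exp ‖ψ - φ‖ - 1) * b ψ x x ≤ (Real.exp ‖ψ - φ‖ - 1) * b φ x x :=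
          mul_le_mul_of_nonneg_left h3 (by linarith)
        linarith
      · have h4 : 0 ≤ (Real.exp ‖ψ - φ‖ - 1) * b φ x x := mul_nonneg (by linarith) h0
        linarith [not_le.1 h3]
    have h3 : (Real.exp ‖ψ - φ‖ - 1) * b φ x x ≤ δ * b φ x x :=
      mul_le_mul_of_nonneg_right e1.le h0
    rw [abs_le]
    constructor <;> linarith
  have h1 := hst (b ψ) (Ev a (b ψ) (J k)) v (hF ψ).sb hdiff (by rw [← hmm]; exact e2.le) hv
  rw [(hq2 φ v).1] at h1
  have h2 : b φ v v ≤ 2 := by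
    have h3 := hb2 v
    rw [hv.2, mul_one] at h3
    linarith
  have h3 := (abs_le.1 (kap_lip μ i b hB h φ ψ v)).2
  have h4 : ‖h‖ * (Real.exp ‖ψ - φ‖ - 1) * b φ v v ≤ ‖h‖ * (Real.exp ‖ψ - φ‖ - 1) * 2 :=
    mul_le_mul_of_nonneg_left h2 (mul_nonneg (norm_nonneg _) (by linarith))
  have h5 := (abs_lt.1 e4).1
  linarith

/-- generic conformal factors in a space of functions -/
theorem generic [CompleteSpace H] (hS : Sf μ i a) (hB : IsB μ i b) (hW : Wl μ a b)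
    (J : ℕ → ℕ) (hJ : Tendsto J atTop atTop) (B : Type) [AddCommGroup B] [Module ℝ B]
    [TopologicalSpace B] [IsTopologicalAddGroup B] [ContinuousSMul ℝ B]
    (ι : B →L[ℝ] C(M, ℝ)) (hι : DenseRange ι) :
    ∀ᶠ x in residual B, ∀ (f : C(M, ℝ)) (ε : ℝ) (K : ℕ), 0 < ε → ι x ∈ Good μ i a b J f ε K := by
  obtain ⟨hF, hb, hk⟩ := forms μ i a b hS hB
  obtain ⟨T, hT1, hT2, hT3⟩ := hι.exists_countable_dense_subset
  have key : ∀ g ∈ T, ∀ n K : ℕ, ∀ᶠ x in residual B,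
      ι x ∈ Good μ i a b J g (1 / ((n : ℝ) + 1)) K := by
    intro g hg n K
    obtain ⟨y, hy⟩ := hT1 hg
    set ε : ℝ := 1 / ((n : ℝ) + 1) with hε
    have hε0 : 0 < ε := by positivity
    have hdense : Dense (interior (ι ⁻¹' Good μ i a b J g ε K)) := by
      rw [dense_iff_inter_open]
      rintro W hW' ⟨x, hx⟩
      have hc : Continuous fun t : ℝ => x + t • y := by fun_prop
      have h1 : (fun t : ℝ => x + t • y) ⁻¹' W ∈ 𝓝 (0 : ℝ) := by
        refine hc.continuousAt.preimage_mem_nhds ?_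
        simp only [zero_smul, add_zero]
        exact hW'.mem_nhds hx
      obtain ⟨η, hη, hηW⟩ := Metric.mem_nhds_iff.1 h1
      obtain ⟨t, ht0, htη, k, hkK, hgood⟩ := line μ i a b hS hB hW (ι x) g J hJ η (ε / 2) hη
        (by positivity) K
      refine ⟨x + t • y, ?_, ?_⟩
      · refine hηW ?_
        rw [Metric.mem_ball, Real.dist_eq, sub_zero, abs_of_pos ht0]
        exact htη
      · rw [mem_interior_iff_mem_nhds]
        refine ι.continuous.continuousAt.preimage_mem_nhds ?_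
        have h2 : ι (x + t • y) = ι x + t • g := by rw [map_add, map_smul, hy]
        rw [h2]
        exact good_nhds μ i a b hS hB J g ε hε0 K _ ⟨k, hkK, hgood⟩
    exact mem_of_superset (residual_of_dense_open isOpen_interior hdense) interior_subset
  have key2 : ∀ᶠ x in residual B, ∀ g ∈ T, ∀ n K : ℕ,
      ι x ∈ Good μ i a b J g (1 / ((n : ℝ) + 1)) K := by
    rw [eventually_countable_ball hT2]
    intro g hg
    rw [eventually_countable_forall]
    intro n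
    rw [eventually_countable_forall]
    intro K
    exact key g hg n K
  filter_upwards [key2] with x hx
  intro f ε K hε
  obtain ⟨n, hn⟩ := exists_nat_one_div_lt (show 0 < ε / 4 by positivity)
  obtain ⟨g, hg, hgf⟩ := Metric.mem_closure_iff.1 (hT3 f) (ε / 4) (by positivity)
  rw [dist_eq_norm] at hgf
  obtain ⟨k, hkK, hgood⟩ := hx g hg n K
  refine ⟨k, hkK, fun v hv => ?_⟩
  have h1 := hgood v hv
  letI : MeasurableSpace C(M, ℝ) := borel _
  haveI : BorelSpace C(M, ℝ) := ⟨rfl⟩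
  obtain ⟨-, -, havb, -⟩ := Pool.Agent.Y689.QR.cm M μ
  obtain ⟨q, -, hq2⟩ := hk (f - g)
  have h2 := (hq2 (ι x) v).2
  rw [(hq2 (ι x) v).1, hv.2, mul_one, kap_sub] at h2
  have h3 := havb (f - g) (ι x)
  have h4 : avg μ (f - g) (ι x) = avg μ f (ι x) - avg μ g (ι x) := by
    have := avg_add (μ := μ) (f - g) g (ι x)
    rw [sub_add_cancel] at this
    linarith
  rw [h4] at h3
  have h5 := (abs_le.1 h2).2
  have h6 := (abs_le.1 h3).1
  linarith

end

end Q101.QG
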