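import Pool.Agent.Y262.QE.Stm

/-!
# Pairs of forms: rotation of an eigenbasis, stability of eigenvectors
-/

set_option autoImplicit false

open Set Filter Topology

noncomputable section

namespace Q101.QG

open Pool.Agent.Y262.QE

variable {H : Type} [NormedAddCommGroup H] [InnerProductSpace ℝ H]

/-- `v` is a normalized eigenvector for the eigenvalue `E` -/
def EV (a b : H →L[ℝ] H →L[ℝ] ℝ) (E : ℝ) (v : H) : Prop :=
  (∀ w, a v w = E * b v w) ∧ b v v = 1

theorem sm (k : H →L[ℝ] H →L[ℝ] ℝ) (s : ℝ) (x : H) : k (s • x) (s • x) = s ^ 2 * k x x := by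
  have h1 : k (s • x) = s • k x := map_smul k s x
  rw [h1, _root_.smul_apply, map_smul, smul_eq_mul, smul_eq_mul]
  ring

/-- Cauchy-Schwarz for a form which is dominated by another one -/
theorem cs (b k : H →L[ℝ] H →L[ℝ] ℝ) (_hb : ∀ u v, b u v = b v u) (hk : ∀ u v, k u v = k v u) (K : ℝ)
    (hK : ∀ v, |k v v| ≤ K * b v v) (x y : H) :
    2 * |k x y| ≤ K * (b x x + b y y) := by
  have h1 : 4 * k x y = k (x + y) (x + y) - k (x - y) (x - y) := by
    simp only [map_add, map_sub, _root_.add_apply, _root_.sub_apply]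
    rw [hk y x]; ring
  have h2 := hK (x + y)
  have h3 := hK (x - y)
  have h4 : b (x + y) (x + y) + b (x - y) (x - y) = 2 * (b x x + b y y) := by
    simp only [map_add, map_sub, _root_.add_apply, _root_.sub_apply]
    ring
  have h5 : 4 * |k x y| ≤ |k (x + y) (x + y)| + |k (x - y) (x - y)| := by
    rw [← abs_of_pos (show (0 : ℝ) < 4 by norm_num), ← abs_mul, h1]
    exact abs_sub _ _
  have h6 : K * b (x + y) (x + y) + K * b (x - y) (x - y) = 2 * (K * (b x x + b y y)) := by
    rw [← mul_add, h4]; ring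
  linarith

/-- an eigenbasis can be rotated in such a way that it contains a given eigenvector -/
theorem rotate (a b : H →L[ℝ] H →L[ℝ] ℝ) (hF : Fm a b) (e : ℕ → H) (E : ℕ → ℝ) (hE : Eg a b e E)
    (j : ℕ) (v : H) (hv : EV a b (E j) v) : ∃ e' : ℕ → H, Eg a b e' E ∧ e' j = v := by
  set w : H := e j - v with hw
  have hej : b (e j) (e j) = 1 := by rw [hE.orth, if_pos rfl]
  have haw : ∀ x, a w x = E j * b w x := by
    intro x
    rw [hw, map_sub, map_sub, _root_.sub_apply, _root_.sub_apply,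
      hE.eig, hv.1]
    ring
  set β : ℝ := b w w with hβ
  have hβ2 : β = 2 - 2 * b v (e j) := by
    rw [hβ, hw]
    simp only [map_sub, _root_.sub_apply]
    rw [hej, hv.2, hF.sb (e j) v]; ring
  by_cases h0 : β = 0
  · have h1 : a w w + b w w = 0 := by rw [haw, ← hβ, h0]; ring
    obtain ⟨c, hc, hco⟩ := hF.co
    have h2 := hco w
    rw [h1] at h2
    have h3 : ‖w‖ ^ 2 = 0 := le_antisymm (by nlinarith [sq_nonneg ‖w‖]) (sq_nonneg _)
    have h4 : w = 0 := by
      rw [← norm_eq_zero]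
      exact pow_eq_zero_iff (two_ne_zero) |>.1 h3
    refine ⟨e, hE, ?_⟩
    rw [hw] at h4
    exact sub_eq_zero.1 h4
  · set R : H → H := fun x => x - (2 * b x w / β) • w with hR
    have hRb : ∀ x y, b (R x) y = b x y - 2 * b x w / β * b w y := by
      intro x y
      simp only [hR, map_sub, map_smul, _root_.sub_apply,
        _root_.smul_apply, smul_eq_mul]
    have hRs : ∀ x y, b x (R y) = b (R x) y := by
      intro x y
      rw [hRb, hF.sb x (R y), hRb, hF.sb y x, hF.sb w y, hF.sb x w]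
      ring
    have hRR : ∀ x y, b (R x) (R y) = b x y := by
      intro x y
      have h1 : b w (R y) = - b w y := by
        rw [hF.sb w (R y), hRb, ← hβ, hF.sb w y]
        field_simp
        ring
      rw [hRb, h1, hF.sb x (R y), hRb, hF.sb y x, hF.sb w y, hF.sb w x]
      ring
    refine ⟨fun i => R (e i), ⟨?_, ?_, hE.mono, hE.tt, ?_⟩, ?_⟩
    · intro i l
      rw [hRR]; exact hE.orth i l
    · intro i x
      have h1 : a (R (e i)) x = a (e i) x - 2 * b (e i) w / β * a w x := by
        simp only [hR, map_sub, map_smul, _root_.sub_apply,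
          _root_.smul_apply, smul_eq_mul]
      rw [h1, hRb, hE.eig, haw]
      by_cases h2 : E i = E j
      · rw [h2]; ring
      · have h3 : b (e i) w = 0 := by
          have h4 : (E i - E j) * b (e i) w = 0 := by
            have h5 := hE.eig i w
            have h6 := haw (e i)
            rw [hF.sa, hF.sb w (e i)] at h6
            rw [sub_mul, ← h5, ← h6, sub_self]
          rcases mul_eq_zero.1 h4 with h5 | h5
          · exact absurd (sub_eq_zero.1 h5) h2
          · exact h5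
        rw [h3]; ring
    · intro x
      have h1 := hE.sum (R x)
      rw [hRR] at h1
      refine h1.congr_fun ?_ |> fun h => h
      intro i
      rw [hRs]
    · show R (e j) = v
      have h1 : b (e j) w = β / 2 := by
        rw [hβ2, hw, map_sub, hej, hF.sb (e j) v]
        ring
      simp only [hR]
      rw [h1]
      have h2 : 2 * (β / 2) / β = 1 := by field_simp
      rw [h2, one_smul, hw]
      abel

/-- the gap around an eigenvalue -/
theorem gap (E : ℕ → ℝ) (hE : Tendsto E atTop atTop) (j : ℕ) :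
    ∃ (N : ℕ) (γ : ℝ), 0 < γ ∧ (∀ i, E i = E j → i < N) ∧ ∀ i, E i ≠ E j → γ ≤ |E i - E j| := by
  obtain ⟨N, hN⟩ := eventually_atTop.1 (hE.eventually_gt_atTop (E j + 1))
  have key : ∀ n : ℕ, ∃ γ : ℝ, 0 < γ ∧ γ ≤ 1 ∧ ∀ i, i < n → E i ≠ E j → γ ≤ |E i - E j| := by
    intro n
    induction n with
    | zero => exact ⟨1, one_pos, le_refl _, fun i hi => absurd hi (Nat.not_lt_zero _)⟩
    | succ n ih =>
      obtain ⟨γ, h1, h2, h3⟩ := ih
      by_cases h : E n = E j
      · refine ⟨γ, h1, h2, fun i hi hne => ?_⟩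
        rcases Nat.lt_succ_iff_lt_or_eq.1 hi with h4 | h4
        · exact h3 i h4 hne
        · exact absurd (h4 ▸ h) hne
      · refine ⟨min γ |E n - E j|, lt_min h1 (abs_pos.2 (sub_ne_zero.2 h)),
          (min_le_left _ _).trans h2, fun i hi hne => ?_⟩
        rcases Nat.lt_succ_iff_lt_or_eq.1 hi with h4 | h4
        · exact (min_le_left _ _).trans (h3 i h4 hne)
        · rw [h4]; exact min_le_right _ _
  obtain ⟨γ, h1, h2, h3⟩ := key N
  refine ⟨N, γ, h1, fun i hi => ?_, fun i hi => ?_⟩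
  · by_contra h4
    have := hN i (not_lt.1 h4)
    linarith
  · by_cases h4 : i < N
    · exact h3 i h4 hi
    · have h5 := hN i (not_lt.1 h4)
      have h6 := le_abs_self (E i - E j)
      linarith

/-- Bessel's inequality for the difference of two forms -/
theorem bes (b k : H →L[ℝ] H →L[ℝ] ℝ) (hb : ∀ u v, b u v = b v u) (hk : ∀ u v, k u v = k v u)
    (δ : ℝ) (hδ : 0 < δ) (hK : ∀ v, |k v v| ≤ δ * b v v) (e : ℕ → H)
    (he : ∀ i l, b (e i) (e l) = if i = l then 1 else 0) (v : H) (F : Finset ℕ) :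
    ∑ i ∈ F, (k v (e i)) ^ 2 ≤ δ ^ 2 * b v v := by
  set w : H := ∑ i ∈ F, (k v (e i)) • e i with hw
  set T : ℝ := ∑ i ∈ F, (k v (e i)) ^ 2 with hT
  have h1 : k v w = T := by
    rw [hw, map_sum, hT]
    exact Finset.sum_congr rfl fun i _ => by rw [map_smul, smul_eq_mul, sq]
  have h2 : b w w = T := by
    have h3 : ∀ i ∈ F, b (e i) w = k v (e i) := by
      intro i hi
      rw [hw, map_sum]
      simp only [map_smul, smul_eq_mul, he]
      simp [hi]
    have h4 : b w w = b w (∑ i ∈ F, (k v (e i)) • e i) := by rw [← hw]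
    rw [h4, map_sum, hT]
    refine Finset.sum_congr rfl fun i hi => ?_
    rw [map_smul, smul_eq_mul, hb w (e i), h3 i hi, sq]
  have h3 := cs b k hb hk δ hK (δ • v) w
  have h4 : k (δ • v) w = δ * T := by
    rw [map_smul, _root_.smul_apply, smul_eq_mul, h1]
  have h5 : b (δ • v) (δ • v) = δ ^ 2 * b v v := sm b δ v
  have hT0 : 0 ≤ T := Finset.sum_nonneg fun i _ => sq_nonneg _
  rw [h4, h5, h2, abs_of_nonneg (by positivity)] at h3
  have h6 : 0 ≤ δ * (δ ^ 2 * b v v - T) := by nlinarith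
  have h7 := (mul_nonneg_iff_of_pos_left hδ).1 h6
  linarith

/-- the eigenvectors of a form which is close to `b` are close to the eigenvectors of `b`: the
values of a third form -/
theorem stab (a b : H →L[ℝ] H →L[ℝ] ℝ) (hF : Fm a b) (e : ℕ → H) (E : ℕ → ℝ) (hE : Eg a b e E)
    (k : H →L[ℝ] H →L[ℝ] ℝ) (K : ℝ) (hk : ∀ u v, k u v = k v u) (hK0 : 0 ≤ K)
    (hK : ∀ v, |k v v| ≤ K * b v v) (j : ℕ) (c : ℝ) (hc : ∀ v, EV a b (E j) v → k v v ≤ c)
    (ε : ℝ) (hε : 0 < ε) :
    ∃ δ : ℝ, 0 < δ ∧ δ ≤ 1 / 2 ∧ ∀ (b' : H →L[ℝ] H →L[ℝ] ℝ) (E' : ℝ) (v : H),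
      (∀ x y, b' x y = b' y x) → (∀ x, |b' x x - b x x| ≤ δ * b x x) → |E' - E j| ≤ δ →
      EV a b' E' v → k v v ≤ c + ε := by
  obtain ⟨N, γ, hγ, hN, hg⟩ := gap E hE.tt j
  set Q : ℝ := 8 * (|E j| + 1) ^ 2 / γ ^ 2 with hQ
  have hQ0 : 0 ≤ Q := by positivity
  set W : ℝ := |c| * (2 + Q) + K * (2 + Q) + K * Q with hW
  have hW0 : 0 ≤ W := by positivity
  set δ : ℝ := min (1 / 2) (min (γ / 2) (ε / (W + 1))) with hδ
  have hδ0 : 0 < δ := lt_min (by norm_num) (lt_min (by positivity) (by positivity))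
  have hδ1 : δ ≤ 1 / 2 := min_le_left _ _
  have hδ2 : δ ≤ γ / 2 := (min_le_right _ _).trans (min_le_left _ _)
  have hδ3 : δ * W ≤ ε := by
    have h1 : δ ≤ ε / (W + 1) := (min_le_right _ _).trans (min_le_right _ _)
    rw [le_div_iff₀ (by positivity)] at h1
    nlinarith
  refine ⟨δ, hδ0, hδ1, ?_⟩
  intro b' E' v hs hb' hE' hv
  -- the norm of `v`
  have hB0 : 0 ≤ b v v := hF.nb v
  have hB1 : |b v v - 1| ≤ δ * b v v := by
    have := hb' v
    rwa [hv.2, abs_sub_comm] at this
  have hB2 : b v v ≤ 2 := by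
    have h1 := (abs_le.1 hB1).2
    nlinarith
  have hB3 : |b v v - 1| ≤ 2 * δ := hB1.trans (by nlinarith)
  -- the projection
  set S : Finset ℕ := (Finset.range N).filter fun i => E i = E j with hS
  have hSm : ∀ i, i ∈ S ↔ E i = E j := by
    intro i
    rw [hS, Finset.mem_filter, Finset.mem_range]
    exact ⟨fun h => h.2, fun h => ⟨hN i h, h⟩⟩
  set p : H := ∑ i ∈ S, (b v (e i)) • e i with hp
  set r : H := v - p with hr
  have hbp : ∀ x, b p x = ∑ i ∈ S, b v (e i) * b (e i) x := by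
    intro x
    rw [hp, map_sum, ContinuousLinearMap.sum_apply]
    exact Finset.sum_congr rfl fun i _ => by rw [map_smul, _root_.smul_apply, smul_eq_mul]
  have hpe : ∀ l, b p (e l) = if l ∈ S then b v (e l) else 0 := by
    intro l
    rw [hbp]
    simp only [hE.orth, mul_ite, mul_one, mul_zero]
    rw [Finset.sum_ite_eq']
  have hre : ∀ l, b r (e l) = if l ∈ S then 0 else b v (e l) := by
    intro l
    rw [hr, map_sub, _root_.sub_apply, hpe]
    split_ifs <;> ring
  have hap : ∀ x, a p x = E j * b p x := by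
    intro x
    rw [hbp, hp, map_sum, ContinuousLinearMap.sum_apply, Finset.mul_sum]
    refine Finset.sum_congr rfl fun i hi => ?_
    rw [map_smul, _root_.smul_apply, smul_eq_mul, hE.eig, (hSm i).1 hi]
    ring
  have hpr : b p r = 0 := by
    rw [hbp]
    refine Finset.sum_eq_zero fun i hi => ?_
    rw [hF.sb (e i) r, hre, if_pos hi, mul_zero]
  have hvpr : v = p + r := by rw [hr]; abel
  have hpy : b v v = b p p + b r r := by
    have h1 : b v v = b (p + r) (p + r) := by rw [← hvpr]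
    rw [h1]
    simp only [map_add, _root_.add_apply]
    rw [hpr, hF.sb r p, hpr]; ring
  -- the remainder is small
  have hrr : b r r ≤ Q * δ ^ 2 := by
    refine le_of_tendsto (hE.sum r) ?_
    filter_upwards with F
    have h1 : ∀ i ∈ F, (b r (e i)) ^ 2 ≤ (2 / γ * E') ^ 2 * ((b' - b) v (e i)) ^ 2 := by
      intro i hi
      rw [hre]
      split_ifs with h2
      · rw [zero_pow two_ne_zero]; positivity
      · have h3 : E i ≠ E j := fun h => h2 ((hSm i).2 h)
        have h4 : γ / 2 ≤ |E i - E'| := by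
          have h5 := hg i h3
          have h6 : |E i - E j| ≤ |E i - E'| + |E' - E j| := abs_sub_le _ _ _
          linarith
        have h5 : (E i - E') * b v (e i) = E' * (b' - b) v (e i) := by
          rw [_root_.sub_apply, _root_.sub_apply]
          have h6 := hE.eig i v
          have h7 := hv.1 (e i)
          rw [hF.sa, hF.sb (e i) v] at h6
          linear_combination h7 - h6
        have h6 : (γ / 2) ^ 2 * (b v (e i)) ^ 2 ≤ (E' * (b' - b) v (e i)) ^ 2 := by
          rw [← h5, mul_pow, ← sq_abs (E i - E')]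
          exact mul_le_mul_of_nonneg_right (pow_le_pow_left₀ (by positivity) h4 2) (sq_nonneg _)
        have h7 : (b v (e i)) ^ 2 = (2 / γ) ^ 2 * ((γ / 2) ^ 2 * (b v (e i)) ^ 2) := by
          field_simp
        have h8 : (2 / γ * E') ^ 2 * ((b' - b) v (e i)) ^ 2 =
            (2 / γ) ^ 2 * (E' * (b' - b) v (e i)) ^ 2 := by ring
        rw [h7, h8]
        exact mul_le_mul_of_nonneg_left h6 (by positivity)
    have h2 : ∑ i ∈ F, ((b' - b) v (e i)) ^ 2 ≤ δ ^ 2 * b v v := by
      refine bes b (b' - b) hF.sb ?_ δ hδ0 ?_ e hE.orth v F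
      · intro x y
        simp only [_root_.sub_apply]
        rw [hs, hF.sb]
      · intro x
        simp only [_root_.sub_apply]
        exact hb' x
    have hE2 : E' ^ 2 ≤ (|E j| + 1) ^ 2 := by
      rw [← sq_abs E']
      refine pow_le_pow_left₀ (abs_nonneg _) ?_ 2
      have h3 : |E'| ≤ |E j| + |E' - E j| := by
        have := abs_add_le (E j) (E' - E j)
        rwa [add_sub_cancel] at this
      linarith
    calc ∑ i ∈ F, (b r (e i)) ^ 2 ≤ ∑ i ∈ F, (2 / γ * E') ^ 2 * ((b' - b) v (e i)) ^ 2 :=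
          Finset.sum_le_sum h1
      _ = (2 / γ * E') ^ 2 * ∑ i ∈ F, ((b' - b) v (e i)) ^ 2 := by rw [Finset.mul_sum]
      _ ≤ (2 / γ * E') ^ 2 * (δ ^ 2 * b v v) := mul_le_mul_of_nonneg_left h2 (sq_nonneg _)
      _ ≤ (2 / γ * E') ^ 2 * (δ ^ 2 * 2) := by gcongr
      _ = 8 / γ ^ 2 * δ ^ 2 * E' ^ 2 := by ring
      _ ≤ 8 / γ ^ 2 * δ ^ 2 * (|E j| + 1) ^ 2 := by gcongr
      _ = Q * δ ^ 2 := by rw [hQ]; ring
  have hr0 : 0 ≤ b r r := hF.nb r
  have hp0 : 0 ≤ b p p := hF.nb p
  have hp2 : b p p ≤ 2 := by linarith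
  have hδδ : δ ^ 2 ≤ δ := by nlinarith
  -- the three terms
  have hkp : k p p ≤ c * b p p := by
    by_cases h0 : b p p = 0
    · have h1 := hK p
      rw [h0, mul_zero] at h1 ⊢
      exact (le_abs_self _).trans h1
    · have h1 : 0 < b p p := lt_of_le_of_ne hp0 (Ne.symm h0)
      set s : ℝ := (Real.sqrt (b p p))⁻¹ with hs'
      have h2 : s ^ 2 = (b p p)⁻¹ := by
        rw [hs', inv_pow, Real.sq_sqrt hp0]
      have h3 := hc (s • p) ⟨fun x => by
          rw [map_smul, map_smul, _root_.smul_apply, _root_.smul_apply, smul_eq_mul, smul_eq_mul,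
            hap]; ring, by
          rw [sm, h2, inv_mul_cancel₀ h0]⟩
      rw [sm, h2, inv_mul_eq_div, div_le_iff₀ h1] at h3
      exact h3
  have hkpr : 2 * |k p r| ≤ K * (2 + Q) * δ := by
    have h1 := cs b k hF.sb hk K hK (δ • p) r
    have h2 : k (δ • p) r = δ * k p r := by
      rw [map_smul, _root_.smul_apply, smul_eq_mul]
    have h3 : b (δ • p) (δ • p) = δ ^ 2 * b p p := sm b δ p
    rw [h2, h3, abs_mul, abs_of_pos hδ0] at h1
    have h4 : K * (δ ^ 2 * b p p + b r r) ≤ K * (δ ^ 2 * 2 + Q * δ ^ 2) := by gcongr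
    have h5 : 0 ≤ δ * (K * (2 + Q) * δ - 2 * |k p r|) := by nlinarith
    have h6 := (mul_nonneg_iff_of_pos_left hδ0).1 h5
    linarith
  have hkr : k r r ≤ K * Q * δ := by
    have h1 := (le_abs_self _).trans (hK r)
    have h2 : K * b r r ≤ K * (Q * δ ^ 2) := by gcongr
    have h3 : K * (Q * δ ^ 2) ≤ K * (Q * δ) := by gcongr
    linarith
  have hcp : c * b p p ≤ c + |c| * (2 + Q) * δ := by
    have h1 : |b p p - 1| ≤ (2 + Q) * δ := by
      have h2 : b p p - 1 = (b v v - 1) - b r r := by rw [hpy]; ring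
      rw [h2]
      have h3 := abs_sub (b v v - 1) (b r r)
      rw [abs_of_nonneg hr0] at h3
      have h4 : Q * δ ^ 2 ≤ Q * δ := by gcongr
      linarith
    have h2 : c * (b p p - 1) ≤ |c| * ((2 + Q) * δ) :=
      (le_abs_self _).trans (by rw [abs_mul]; gcongr)
    linarith
  have hkv : k v v = k p p + 2 * k p r + k r r := by
    have h1 : k v v = k (p + r) (p + r) := by rw [← hvpr]
    rw [h1]
    simp only [map_add, _root_.add_apply]
    rw [hk r p]; ring
  rw [hkv]
  have h1 : 2 * k p r ≤ 2 * |k p r| := by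
    have := le_abs_self (k p r)
    linarith
  have h2 : |c| * (2 + Q) * δ + K * (2 + Q) * δ + K * Q * δ = δ * W := by rw [hW]; ring
  linarith

end Q101.QG
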