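import Pool.Agent.Q101.QGBaire

/-!
# Closed convex hulls, almost every metric, and the transfer to surfaces
-/

set_option autoImplicit false

open Set Filter Topology MeasureTheory

noncomputable section

namespace Q101.QG

open Pool.Agent.Y262.QE Pool.Agent.Y264.QR Pool.Agent.Y378.QR

/-- separation in a finite dimensional space -/
theorem hull {C : Type} [AddCommGroup C] [Module ℝ C] (x : ℕ → C → ℝ) (y : C → ℝ)
    (hx : ∀ k, IsLinearMap ℝ (x k)) (hy : IsLinearMap ℝ y)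
    (h : ∀ (f : C) (ε : ℝ) (K : ℕ), 0 < ε → ∃ k, K ≤ k ∧ x k f ≤ y f + ε)
    (n : ℕ) (f : Fin n → C) (K : ℕ) :
    (fun i => y (f i)) ∈ closure (convexHull ℝ {q : Fin n → ℝ | ∃ k, K ≤ k ∧
      q = fun i => x k (f i)}) := by
  by_contra hcon
  obtain ⟨g, s, h1, h2⟩ := geometric_hahn_banach_closed_point
    ((convex_convexHull ℝ _).closure) isClosed_closure hcon
  set c : Fin n → ℝ := fun i => g (Pi.single i 1) with hc
  have hg : ∀ q : Fin n → ℝ, g q = ∑ i, q i * c i := by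
    intro q
    have h3 : q = ∑ i, q i • (Pi.single i 1 : Fin n → ℝ) := by
      funext l
      simp [Finset.sum_apply, Pi.single_apply]
    conv_lhs => rw [h3]
    rw [map_sum]
    exact Finset.sum_congr rfl fun i _ => by rw [map_smul, smul_eq_mul]
  have lin : ∀ z : C → ℝ, IsLinearMap ℝ z → z (-(∑ i, c i • f i)) = - g fun i => z (f i) := by
    intro z hz
    have h3 : z (-(∑ i, c i • f i)) = (hz.mk' z) (-(∑ i, c i • f i)) := rfl
    rw [h3, map_neg, map_sum, hg]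
    congr 1
    refine Finset.sum_congr rfl fun i _ => ?_
    rw [map_smul, smul_eq_mul, mul_comm]
    rfl
  obtain ⟨k, hk1, hk2⟩ := h (-(∑ i, c i • f i)) ((g fun i => y (f i)) - s) K (sub_pos.2 h2)
  rw [lin _ (hx k), lin _ hy] at hk2
  have h3 := h1 (fun i => x k (f i)) (subset_closure (subset_convexHull ℝ _ ⟨k, hk1, rfl⟩))
  linarith

section

variable {M : Type} [MetricSpace M] [CompactSpace M] [MeasurableSpace M] [BorelSpace M]
  [Nonempty M] (μ : Measure M) (D : Data M)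

/-- generic conformal factors, for the surface -/
theorem surf_generic (hD : D.IsSurf μ) (J : ℕ → ℕ) (hJ : Tendsto J atTop atTop) (B : Type)
    [AddCommGroup B] [Module ℝ B] [TopologicalSpace B] [IsTopologicalAddGroup B]
    [ContinuousSMul ℝ B] (ι : B →L[ℝ] C(M, ℝ)) (hι : DenseRange ι) :
    ∀ᶠ y in residual B,
      (∀ (f : C(M, ℝ)) (ε : ℝ) (K : ℕ), 0 < ε → ∃ k, K ≤ k ∧ ∀ (u : ℕ → M → ℝ) (lam : ℕ → ℝ),
        EigBasis (D.conf fun x => Real.exp (ι y x)) (wm μ fun x => Real.exp (ι y x)) u lam →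
        ∫ x, f x * (u (J k) x) ^ 2 ∂(wm μ fun x => Real.exp (ι y x)) ≤
          (∫ x, f x ∂(wm μ fun x => Real.exp (ι y x))) /
            (wm μ fun x => Real.exp (ι y x)).real univ + ε) ∧
      ∀ (u : ℕ → M → ℝ) (lam : ℕ → ℝ),
        EigBasis (D.conf fun x => Real.exp (ι y x)) (wm μ fun x => Real.exp (ι y x)) u lam →
        ∀ (n : ℕ) (f : Fin n → C(M, ℝ)) (K : ℕ),
          (fun l => (∫ x, f l x ∂(wm μ fun x => Real.exp (ι y x))) /
            (wm μ fun x => Real.exp (ι y x)).real univ) ∈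
          closure (convexHull ℝ {q : Fin n → ℝ | ∃ k, K ≤ k ∧ q = fun l =>
            ∫ x, f l x * (u (J k) x) ^ 2 ∂(wm μ fun x => Real.exp (ι y x))}) := by
  obtain ⟨hf, -⟩ := tFin M μ D hD
  haveI := hf
  obtain ⟨i, a, hSf, hi, ha⟩ := tPackF M μ D hD inferInstance
  obtain ⟨b, hB, hF, -, -, -⟩ := tFm M μ (HF D μ) i a hSf
  have hW := tWl M μ D hD inferInstance i a b hSf hi ha hB
  haveI : CompleteSpace (HF D μ) := by
    unfold HF
    exact (Submodule.isClosed_topologicalClosure _).completeSpace_coe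
  filter_upwards [generic μ i a b hSf hB hW J hJ B ι hι] with y hy
  have h1 : ∀ (f : C(M, ℝ)) (ε : ℝ) (K : ℕ), 0 < ε → ∃ k, K ≤ k ∧
      ∀ (u : ℕ → M → ℝ) (lam : ℕ → ℝ),
        EigBasis (D.conf fun x => Real.exp (ι y x)) (wm μ fun x => Real.exp (ι y x)) u lam →
        ∫ x, f x * (u (J k) x) ^ 2 ∂(wm μ fun x => Real.exp (ι y x)) ≤
          (∫ x, f x ∂(wm μ fun x => Real.exp (ι y x))) /
            (wm μ fun x => Real.exp (ι y x)).real univ + ε := by
    intro f ε K hε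
    obtain ⟨k, hkK, hk⟩ := hy f ε K hε
    refine ⟨k, hkK, fun u lam hu => ?_⟩
    obtain ⟨e, he1, he2⟩ := tBr M μ D hD i a b hSf hi ha hB hF (ι y) u lam hu
    have h2 := hk (e (J k)) ⟨fun w => by
      rw [Pool.Agent.Y592.QE.mm _ a (b (ι y)) (hF _) e lam he2 (J k)]
      exact he2.eig (J k) w, by rw [he2.orth, if_pos rfl]⟩
    rw [kap_eq μ i f (ι y) (e (J k)) (u (J k)) (he1 (J k)), avg_eq] at h2
    exact h2
  refine ⟨h1, fun u lam hu n f K => ?_⟩
  obtain ⟨e, he1, he2⟩ := tBr M μ D hD i a b hSf hi ha hB hF (ι y) u lam hu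
  refine hull (fun k f => ∫ x, f x * (u (J k) x) ^ 2 ∂(wm μ fun x => Real.exp (ι y x)))
    (fun f : C(M, ℝ) => (∫ x, f x ∂(wm μ fun x => Real.exp (ι y x))) /
            (wm μ fun x => Real.exp (ι y x)).real univ) ?_ ?_ ?_ n f K
  · intro k
    have h2 : (fun f : C(M, ℝ) => ∫ x, f x * (u (J k) x) ^ 2 ∂(wm μ fun x => Real.exp (ι y x))) =
        fun f => kap μ i f (ι y) (e (J k)) := by
      funext f
      rw [kap_eq μ i f (ι y) (e (J k)) (u (J k)) (he1 (J k))]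
    show IsLinearMap ℝ
      (fun f : C(M, ℝ) => ∫ x, f x * (u (J k) x) ^ 2 ∂(wm μ fun x => Real.exp (ι y x)))
    rw [h2]
    exact ⟨fun f g => kap_add f g _ _, fun c f => by rw [kap_smul, smul_eq_mul]⟩
  · have h2 : (fun f : C(M, ℝ) => (∫ x, f x ∂(wm μ fun x => Real.exp (ι y x))) /
            (wm μ fun x => Real.exp (ι y x)).real univ) = fun f => avg μ f (ι y) := by
      funext f
      rw [avg_eq]
    rw [h2]
    exact ⟨fun f g => avg_add f g _, fun c f => by rw [avg_smul, smul_eq_mul]⟩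
  · intro f ε K hε
    obtain ⟨k, hkK, hk⟩ := h1 f ε K hε
    exact ⟨k, hkK, hk u lam hu⟩

/-- weak convergence of bounded functions: the lower limit is at most the limit -/
theorem liminf_le {Ω : Type} [MeasurableSpace Ω] (P : Measure Ω) [IsProbabilityMeasure P]
    (X : ℕ → Ω → ℝ) (Y : Ω → ℝ) (C : ℝ) (K₁ : ℕ)
    (hX : ∀ k, K₁ ≤ k → AEStronglyMeasurable (X k) P) (hXb : ∀ k o, |X k o| ≤ C)
    (hY : AEStronglyMeasurable Y P) (hYb : ∀ o, |Y o| ≤ C)
    (h : ∀ χ : Ω → ℝ, Integrable χ P →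
      Tendsto (fun k => ∫ o, χ o * X k o ∂P) atTop (𝓝 (∫ o, χ o * Y o ∂P)))
    (ε : ℝ) (hε : 0 < ε) (K : ℕ) : ∀ᵐ o ∂P, ∃ k, K ≤ k ∧ X k o ≤ Y o + ε := by
  set L : ℕ := max K K₁ with hL
  set A : Set Ω := {o | ∀ k, L ≤ k → Y o + ε < X k o} with hA
  have hAm : NullMeasurableSet A P := by
    have h1 : A = ⋂ k, ⋂ (_ : L ≤ k), {o | Y o + ε < X k o} := by
      ext o; simp [hA]
    rw [h1]
    refine NullMeasurableSet.iInter fun k => NullMeasurableSet.iInter fun hk => ?_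
    exact nullMeasurableSet_lt (hY.aemeasurable.add_const ε)
      (hX k ((le_max_right _ _).trans hk)).aemeasurable
  have hχ : Integrable (A.indicator fun _ => (1 : ℝ)) P :=
    (integrable_const (1 : ℝ)).indicator₀ hAm
  have hlim := h _ hχ
  have hiY : Integrable (fun o => A.indicator (fun _ => (1 : ℝ)) o * Y o) P :=
    hχ.mul_bdd (c := C) hY (Eventually.of_forall fun o => by rw [Real.norm_eq_abs]; exact hYb o)
  have hle : ∀ᶠ k in atTop, ∫ o, A.indicator (fun _ => (1 : ℝ)) o * Y o ∂P +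
      ε * P.real A ≤ ∫ o, A.indicator (fun _ => (1 : ℝ)) o * X k o ∂P := by
    filter_upwards [eventually_ge_atTop L] with k hk
    have hiX : Integrable (fun o => A.indicator (fun _ => (1 : ℝ)) o * X k o) P :=
      hχ.mul_bdd (c := C) (hX k ((le_max_right _ _).trans hk))
        (Eventually.of_forall fun o => by rw [Real.norm_eq_abs]; exact hXb k o)
    have h1 : ε * P.real A = ∫ o, A.indicator (fun _ => (1 : ℝ)) o * ε ∂P := by
      rw [integral_mul_const, integral_indicator₀ hAm]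
      simp [mul_comm]
    rw [h1, ← integral_add hiY (hχ.mul_const ε)]
    refine integral_mono (hiY.add (hχ.mul_const ε)) hiX fun o => ?_
    simp only
    rw [← mul_add]
    by_cases ho : o ∈ A
    · rw [indicator_of_mem ho]
      have := ho k hk
      linarith
    · rw [indicator_of_notMem ho]
      simp
  have h2 := ge_of_tendsto hlim hle
  have h3 : P.real A ≤ 0 := by
    have h4 : ε * P.real A ≤ 0 := by linarith
    by_contra h5
    have := mul_pos hε (not_le.1 h5)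
    linarith
  have h4 : P A = 0 := by
    have h5 : P.real A = 0 := le_antisymm h3 measureReal_nonneg
    rwa [measureReal_eq_zero_iff] at h5
  have h5 : ∀ᵐ o ∂P, o ∉ A := by
    rw [ae_iff]
    simpa using h4
  filter_upwards [h5] with o ho
  simp only [hA, mem_setOf_eq, not_forall, not_lt] at ho
  obtain ⟨k, hk1, hk2⟩ := ho
  exact ⟨k, (le_max_left _ _).trans hk1, hk2⟩

/-- almost every conformal factor, for the surface -/
theorem surf_ae (hD : D.IsSurf μ) (J : ℕ → ℕ) (hJ : Tendsto J atTop atTop)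
    [MeasurableSpace C(M, ℝ)] [BorelSpace C(M, ℝ)]
    (P : Measure C(M, ℝ)) [IsProbabilityMeasure P] (S : Set C(M, ℝ))
    (hS : Dense (Submodule.span ℝ S : Set C(M, ℝ)))
    (hP : ∀ h ∈ S, ∀ t : ℝ, P.map (fun φ => φ + t • h) ≪ P)
    (u : C(M, ℝ) → ℕ → M → ℝ) (lam : C(M, ℝ) → ℕ → ℝ)
    (hu : ∀ φ, EigBasis (D.conf fun x => Real.exp (φ x)) (wm μ fun x => Real.exp (φ x))
      (u φ) (lam φ)) :
    ∀ᵐ φ ∂P, ∀ (n : ℕ) (f : Fin n → C(M, ℝ)) (K : ℕ),
          (fun l => (∫ x, f l x ∂(wm μ fun x => Real.exp (φ x))) /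
            (wm μ fun x => Real.exp (φ x)).real univ) ∈
          closure (convexHull ℝ {q : Fin n → ℝ | ∃ k, K ≤ k ∧ q = fun l =>
            ∫ x, f l x * (u φ (J k) x) ^ 2 ∂(wm μ fun x => Real.exp (φ x))}) := by
  obtain ⟨hf, -⟩ := tFin M μ D hD
  haveI := hf
  obtain ⟨i, a, hSf, hi, ha⟩ := tPackF M μ D hD inferInstance
  obtain ⟨b, hB, hF, -, -, -⟩ := tFm M μ (HF D μ) i a hSf
  obtain ⟨-, -, hk⟩ := forms μ i a b hSf hB
  have hW := tWl M μ D hD inferInstance i a b hSf hi ha hB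
  choose e he1 he2 using fun φ => tBr M μ D hD i a b hSf hi ha hB hF φ (u φ) (lam φ) (hu φ)
  obtain ⟨⟨J₀, hJ₀⟩, hA⟩ := tAbs M μ (HF D μ) i a b hSf hB hW e lam he2 P S hS hP
  obtain ⟨-, hav, havb, -⟩ := Pool.Agent.Y689.QR.cm M μ
  obtain ⟨K₁, hK₁⟩ := eventually_atTop.1 (hJ.eventually_ge_atTop J₀)
  have hkb : ∀ (f φ : C(M, ℝ)) (j : ℕ), |kap μ i f φ (e φ j)| ≤ ‖f‖ := by
    intro f φ j
    obtain ⟨q, -, hq⟩ := hk f
    have := (hq φ (e φ j)).2
    rwa [(hq φ _).1, (he2 φ).orth, if_pos rfl, mul_one] at this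
  have key : ∀ (f : C(M, ℝ)) (ε : ℝ) (K : ℕ), 0 < ε →
      ∀ᵐ φ ∂P, ∃ k, K ≤ k ∧ kap μ i f φ (e φ (J k)) ≤ avg μ f φ + ε := by
    intro f ε K hε
    refine liminf_le P (fun k φ => kap μ i f φ (e φ (J k))) (fun φ => avg μ f φ) ‖f‖ K₁
      (fun k hk => hJ₀ f (J k) (hK₁ k hk)) (fun k φ => hkb f φ (J k))
      (hav f).aestronglyMeasurable (fun φ => havb f φ) (fun χ hχ => ?_) ε hε K
    exact ((hA f).1 χ hχ).comp hJ
  obtain ⟨T, hT2, hT3⟩ := TopologicalSpace.exists_countable_dense C(M, ℝ)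
  have key2 : ∀ᵐ φ ∂P, ∀ g ∈ T, ∀ n K : ℕ,
      ∃ k, K ≤ k ∧ kap μ i g φ (e φ (J k)) ≤ avg μ g φ + 1 / ((n : ℝ) + 1) := by
    rw [ae_ball_iff hT2]
    intro g hg
    rw [ae_all_iff]
    intro n
    rw [ae_all_iff]
    intro K
    exact key g _ K (by positivity)
  filter_upwards [key2] with φ hφ
  intro n f K
  have h0 : ∀ (f : C(M, ℝ)) (ε : ℝ) (K : ℕ), 0 < ε →
      ∃ k, K ≤ k ∧ kap μ i f φ (e φ (J k)) ≤ avg μ f φ + ε := by
    intro f ε K hε
    obtain ⟨n, hn⟩ := exists_nat_one_div_lt (show 0 < ε / 4 by positivity)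
    obtain ⟨g, hg, hgf⟩ := Metric.mem_closure_iff.1 (hT3 f) (ε / 4) (by positivity)
    rw [dist_eq_norm] at hgf
    obtain ⟨k, hkK, h1⟩ := hφ g hg n K
    refine ⟨k, hkK, ?_⟩
    have h2 := hkb (f - g) φ (J k)
    rw [kap_sub] at h2
    have h3 := havb (f - g) φ
    have h4 : avg μ (f - g) φ = avg μ f φ - avg μ g φ := by
      have := avg_add (μ := μ) (f - g) g φ
      rw [sub_add_cancel] at this
      linarith
    rw [h4] at h3
    have h5 := (abs_le.1 h2).2
    have h6 := (abs_le.1 h3).1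
    linarith
  have h1 := hull (fun k f => kap μ i f φ (e φ (J k))) (fun f : C(M, ℝ) => avg μ f φ)
    (fun k => ⟨fun f g => kap_add f g _ _, fun c f => by rw [kap_smul, smul_eq_mul]⟩)
    ⟨fun f g => avg_add f g _, fun c f => by rw [avg_smul, smul_eq_mul]⟩ h0 n f K
  have hk' : ∀ (f : C(M, ℝ)) (j : ℕ), kap μ i f φ (e φ j) =
      ∫ x, f x * (u φ j x) ^ 2 ∂(wm μ fun x => Real.exp (φ x)) := fun f j =>
    kap_eq μ i f φ _ _ (he1 φ j)
  simpa only [hk', avg_eq] using h1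

end

end Q101.QG
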