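import Pool.Agent.Y264.QR.All
import Pool.Agent.Q101.QGForm

/-!
# A good metric on every line
-/

set_option autoImplicit false

open Set Filter Topology MeasureTheory

noncomputable section

namespace Q101.QG

open Pool.Agent.Y262.QE Pool.Agent.Y264.QR

section

variable {M : Type} [MetricSpace M] [CompactSpace M] [MeasurableSpace M] [BorelSpace M]
  (μ : Measure M) [IsFiniteMeasure μ] {H : Type} [NormedAddCommGroup H] [InnerProductSpace ℝ H]
  (i : H →L[ℝ] Lp ℝ 2 μ) (a : H →L[ℝ] H →L[ℝ] ℝ) (b : C(M, ℝ) → H →L[ℝ] H →L[ℝ] ℝ)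

/-- everything about the forms -/
theorem forms (hS : Sf μ i a) (hB : IsB μ i b) :
    (∀ φ, Fm a (b φ)) ∧ (∀ (φ ψ : C(M, ℝ)) (v : H), b φ v v ≤ Real.exp ‖φ - ψ‖ * b ψ v v) ∧
      ∀ h : C(M, ℝ), ∃ k : C(M, ℝ) → H →L[ℝ] H →L[ℝ] ℝ, (∀ φ u v, k φ u v = k φ v u) ∧
        ∀ φ v, k φ v v = kap μ i h φ v ∧ |k φ v v| ≤ ‖h‖ * b φ v v := by
  obtain ⟨b', hB', hF', -, hb', hk⟩ := tFm M μ H i a hS
  have hbb : b' = b := by
    funext φ
    ext u v
    rw [hB', hB]
  rw [hbb] at hF' hb' hk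
  refine ⟨hF', hb', fun h => ?_⟩
  obtain ⟨k, h1, h2, -⟩ := hk h
  exact ⟨k, h1, h2⟩

/-- almost everywhere on a line all eigenvectors have the same mass -/
theorem ae_all (hS : Sf μ i a) (hB : IsB μ i b) (hW : Wl μ a b) (φ h : C(M, ℝ)) (e : ℝ → ℕ → H)
    (E : ℝ → ℕ → ℝ) (hE : ∀ t, Eg a (b (φ + t • h)) (e t) (E t)) (j : ℕ)
    (hj : ∀ ψ, 0 < Ev a (b ψ) j) :
    ∀ᵐ t : ℝ, ∀ v, EV a (b (φ + t • h)) (Ev a (b (φ + t • h)) j) v →
      kap μ i h (φ + t • h) v = kap μ i h (φ + t • h) (e t j) := by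
  obtain ⟨hF, hb, hk⟩ := forms μ i a b hS hB
  have hmm : ∀ t, Ev a (b (φ + t • h)) j = E t j := fun t =>
    Pool.Agent.Y592.QE.mm H a (b (φ + t • h)) (hF _) (e t) (E t) (hE t) j
  have hex : ∀ t, ∃ e' : ℕ → H, Eg a (b (φ + t • h)) e' (E t) ∧
      ((∃ v, EV a (b (φ + t • h)) (Ev a (b (φ + t • h)) j) v ∧
        kap μ i h (φ + t • h) v ≠ kap μ i h (φ + t • h) (e t j)) →
        kap μ i h (φ + t • h) (e' j) ≠ kap μ i h (φ + t • h) (e t j)) := by
    intro t
    by_cases hb : ∃ v, EV a (b (φ + t • h)) (Ev a (b (φ + t • h)) j) v ∧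
        kap μ i h (φ + t • h) v ≠ kap μ i h (φ + t • h) (e t j)
    · obtain ⟨v, hv, hne⟩ := hb
      rw [hmm] at hv
      obtain ⟨e', h1, h2⟩ := rotate a (b (φ + t • h)) (hF _) (e t) (E t) (hE t) j v hv
      exact ⟨e', h1, fun _ => by rw [h2]; exact hne⟩
    · exact ⟨e t, hE t, fun h => absurd h hb⟩
  choose e' he1 he2 using hex
  have h1 := (tOneP M μ H i a b hS hB hW φ h e E hE).1
  have h2 := (tOneP M μ H i a b hS hB hW φ h e' E he1).1
  filter_upwards [h1, h2] with t h1 h2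
  intro v hv
  by_contra hne
  refine he2 t ⟨v, hv, hne⟩ ?_
  have h3 := (h1 j).unique (h2 j)
  have h4 := (hj (φ + t • h)).ne'
  exact (mul_right_cancel₀ h4 (neg_injective h3)).symm

/-- the integral of the mass on a line -/
theorem kap_meas (hS : Sf μ i a) (hB : IsB μ i b) (hW : Wl μ a b) (φ h : C(M, ℝ)) (e : ℝ → ℕ → H)
    (E : ℝ → ℕ → ℝ) (hE : ∀ t, Eg a (b (φ + t • h)) (e t) (E t)) (j : ℕ)
    (hj : ∀ ψ, 0 < Ev a (b ψ) j) :
    AEStronglyMeasurable (fun t => kap μ i h (φ + t • h) (e t j)) volume ∧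
      ∀ t, |kap μ i h (φ + t • h) (e t j)| ≤ ‖h‖ := by
  obtain ⟨hF, hb, hk⟩ := forms μ i a b hS hB
  constructor
  · have hc : Continuous fun s : ℝ => Ev a (b (φ + s • h)) j := by
      have h1 := (tLip M μ H a b hF hb).2.2.2.1 j
      exact h1.comp (by fun_prop : Continuous fun s : ℝ => φ + s • h)
    have h1 := (tOneP M μ H i a b hS hB hW φ h e E hE).1
    have hm : Measurable fun t : ℝ => -(deriv (fun s : ℝ => Ev a (b (φ + s • h)) j) t) /
        Ev a (b (φ + t • h)) j := ((measurable_deriv _).neg).div hc.measurable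
    refine AEStronglyMeasurable.congr hm.aestronglyMeasurable ?_
    filter_upwards [h1] with t h1
    rw [(h1 j).deriv, neg_neg, mul_div_assoc, div_self (hj _).ne', mul_one]
  · intro t
    obtain ⟨k, -, h2⟩ := hk h
    have h3 := (h2 (φ + t • h) (e t j)).2
    rw [(h2 _ _).1, (hE t).orth, if_pos rfl, mul_one] at h3
    exact h3

theorem line [CompleteSpace H] (hS : Sf μ i a) (hB : IsB μ i b) (hW : Wl μ a b) (φ h : C(M, ℝ))
    (J : ℕ → ℕ) (hJ : Tendsto J atTop atTop) (η ε : ℝ) (hη : 0 < η) (hε : 0 < ε) (K : ℕ) :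
    ∃ t : ℝ, 0 < t ∧ t < η ∧ ∃ k, K ≤ k ∧
      ∀ v, EV a (b (φ + t • h)) (Ev a (b (φ + t • h)) (J k)) v →
        kap μ i h (φ + t • h) v ≤ avg μ h (φ + t • h) + ε := by
  obtain ⟨hF, hb, hk⟩ := forms μ i a b hS hB
  choose e E hE using fun t : ℝ => tSp H a (b (φ + t • h)) (hF (φ + t • h))
  have hpos : ∀ᶠ j in atTop, ∀ ψ, 0 < Ev a (b ψ) j := by
    have h1 := ((hE 0).tt).eventually_gt_atTop 0
    filter_upwards [h1] with j hj
    rcases (tLip M μ H a b hF hb).2.2.2.2 j with h2 | h2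
    · have h3 := Pool.Agent.Y592.QE.mm H a (b (φ + (0 : ℝ) • h)) (hF _) (e 0) (E 0) (hE 0) j
      rw [h2] at h3
      exact absurd h3 hj.ne
    · exact h2
  by_contra hcon
  push Not at hcon
  set χ : ℝ → ℝ := indicator (Ioo 0 η) fun _ => 1 with hχ
  have hχi : Integrable χ volume := by
    rw [hχ, integrable_indicator_iff measurableSet_Ioo]
    exact (integrableOn_const (by simp) (by simp))
  have hχb : ∀ t, 0 ≤ χ t ∧ χ t ≤ 1 := by
    intro t
    rw [hχ]
    by_cases ht : t ∈ Ioo 0 η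
    · rw [indicator_of_mem ht]; norm_num
    · rw [indicator_of_notMem ht]; norm_num
  have hlim := (tOneP M μ H i a b hS hB hW φ h e E hE).2 χ hχi
  have hlim' := hlim.comp hJ
  have h1 := hlim'.eventually (eventually_lt_nhds
    (show (∫ t, χ t * avg μ h (φ + t • h)) < (∫ t, χ t * avg μ h (φ + t • h)) + ε * η by
      have := mul_pos hε hη
      linarith))
  obtain ⟨k, hk1, hk2, hk3⟩ := (h1.and ((hJ.eventually hpos).and (eventually_ge_atTop K))).exists
  obtain ⟨hm, hbd⟩ := kap_meas μ i a b hS hB hW φ h e E hE (J k) hk2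
  have hae := ae_all μ i a b hS hB hW φ h e E hE (J k) hk2
  letI : MeasurableSpace C(M, ℝ) := borel _
  haveI : BorelSpace C(M, ℝ) := ⟨rfl⟩
  obtain ⟨-, hav, havb, -⟩ := Pool.Agent.Y689.QR.cm M μ
  have hac : Continuous fun t : ℝ => avg μ h (φ + t • h) :=
    (hav h).comp (by fun_prop : Continuous fun s : ℝ => φ + s • h)
  have hi1 : Integrable (fun t => χ t * kap μ i h (φ + t • h) (e t (J k))) volume := by
    refine hχi.mul_bdd (c := ‖h‖) hm ?_
    exact Eventually.of_forall fun t => by rw [Real.norm_eq_abs]; exact hbd t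
  have hi2 : Integrable (fun t => χ t * avg μ h (φ + t • h)) volume := by
    refine hχi.mul_bdd (c := ‖h‖) hac.aestronglyMeasurable ?_
    exact Eventually.of_forall fun t => by rw [Real.norm_eq_abs]; exact havb h _
  have hi3 : Integrable (fun t => χ t * ε) volume := hχi.mul_const ε
  have h2 : ∫ t, χ t * ε = ε * η := by
    rw [integral_mul_const, hχ, integral_indicator measurableSet_Ioo]
    simp [hη.le, mul_comm]
  have h3 : ∫ t, (χ t * avg μ h (φ + t • h) + χ t * ε) ≤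
      ∫ t, χ t * kap μ i h (φ + t • h) (e t (J k)) := by
    refine integral_mono_ae (hi2.add hi3) hi1 ?_
    filter_upwards [hae] with t ht
    rw [← mul_add]
    by_cases ht' : t ∈ Ioo 0 η
    · obtain ⟨v, hv1, hv2⟩ := hcon t ht'.1 ht'.2 k hk3
      rw [ht v hv1] at hv2
      exact mul_le_mul_of_nonneg_left hv2.le (hχb t).1
    · have h0 : χ t = 0 := by rw [hχ]; exact indicator_of_notMem ht' _
      simp only [h0, zero_mul, le_refl]
  rw [integral_add hi2 hi3, h2] at h3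
  exact absurd hk1 (not_lt.2 h3)

end

end Q101.QG
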