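import Mathlib

/-!
# Random averages along a sparse sequence of indices: the abstract part

Bounded random variables which are weakly null have a subsequence such that, for every further
subsequence, the sums of the first `n` variables are `O(√(n log n))` almost surely: the exponential
moments are almost those of independent variables.
-/

set_option autoImplicit false

open Set Filter Topology MeasureTheory

noncomputable section

namespace Q101.RC

section

variable {Ω : Type} [MeasurableSpace Ω] (P : Measure Ω) [IsProbabilityMeasure P]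
  (Z : ℕ → ℕ → Ω → ℝ)

omit [MeasurableSpace Ω] in
theorem bprod (hb : ∀ l k o, |Z l k o| ≤ 1) (l : ℕ) (B : Finset ℕ) (o : Ω) :
    |∏ k ∈ B, Z l k o| ≤ 1 := by
  rw [Finset.abs_prod]
  exact Finset.prod_le_one (fun k _ => abs_nonneg _) fun k _ => hb l k o

omit [IsProbabilityMeasure P] in
theorem mprod (hZ : ∀ l k, AEStronglyMeasurable (Z l k) P) (l : ℕ) (B : Finset ℕ) :
    AEStronglyMeasurable (fun o => ∏ k ∈ B, Z l k o) P := by
  classical
  induction B using Finset.induction_on with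
  | empty => simpa using aestronglyMeasurable_const
  | insert k B hk ih =>
    simp only [Finset.prod_insert hk]
    exact (hZ l k).mul ih

theorem iprod (hZ : ∀ l k, AEStronglyMeasurable (Z l k) P) (hb : ∀ l k o, |Z l k o| ≤ 1) (l : ℕ)
    (B : Finset ℕ) : Integrable (fun o => ∏ k ∈ B, Z l k o) P :=
  Integrable.of_bound (mprod P Z hZ l B) 1 (Eventually.of_forall fun o => by
    rw [Real.norm_eq_abs]; exact bprod Z hb l B o)

/-- the choice of the next index -/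
theorem nxt (hZ : ∀ l k, AEStronglyMeasurable (Z l k) P) (hb : ∀ l k o, |Z l k o| ≤ 1)
    (hw : ∀ (l : ℕ) (χ : Ω → ℝ), Integrable χ P →
      Tendsto (fun k => ∫ o, χ o * Z l k o ∂P) atTop (𝓝 0)) (n j : ℕ) :
    ∃ m, n < m ∧ ∀ l ≤ j, ∀ B ⊆ Finset.range (n + 1),
      |∫ o, (∏ k ∈ B, Z l k o) * Z l m o ∂P| ≤ (1 / 4 : ℝ) ^ j := by
  have h1 : ∀ (l : ℕ) (B : Finset ℕ), ∀ᶠ m in atTop,
      |∫ o, (∏ k ∈ B, Z l k o) * Z l m o ∂P| ≤ (1 / 4 : ℝ) ^ j := by
    intro l B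
    have h2 := hw l _ (iprod P Z hZ hb l B)
    have h3 := h2.abs
    rw [abs_zero] at h3
    exact (h3.eventually_lt_const (show (0 : ℝ) < (1 / 4) ^ j by positivity)).mono
      fun m hm => hm.le
  have h2 : ∀ᶠ m in atTop, ∀ l ∈ Finset.range (j + 1), ∀ B ∈ (Finset.range (n + 1)).powerset,
      |∫ o, (∏ k ∈ B, Z l k o) * Z l m o ∂P| ≤ (1 / 4 : ℝ) ^ j := by
    rw [Filter.eventually_all_finset]
    intro l _
    rw [Filter.eventually_all_finset]
    intro B _
    exact h1 l B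
  obtain ⟨m, hm1, hm2⟩ := (h2.and (eventually_gt_atTop n)).exists
  exact ⟨m, hm2, fun l hl B hB => hm1 l (Finset.mem_range.2 (Nat.lt_succ_of_le hl)) B
    (Finset.mem_powerset.2 hB)⟩

/-- the sparse sequence -/
theorem exists_N (hZ : ∀ l k, AEStronglyMeasurable (Z l k) P) (hb : ∀ l k o, |Z l k o| ≤ 1)
    (hw : ∀ (l : ℕ) (χ : Ω → ℝ), Integrable χ P →
      Tendsto (fun k => ∫ o, χ o * Z l k o ∂P) atTop (𝓝 0)) :
    ∃ N : ℕ → ℕ, StrictMono N ∧ ∀ j, ∀ l ≤ j, ∀ B : Finset ℕ, (∀ k ∈ B, ∃ i < j, k ≤ N i) →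
      |∫ o, (∏ k ∈ B, Z l k o) * Z l (N j) o ∂P| ≤ (1 / 4 : ℝ) ^ j := by
  choose f hf1 hf2 using nxt P Z hZ hb hw
  set N : ℕ → ℕ := fun j => Nat.rec 0 (fun j x => f x (j + 1)) j with hNdef
  have hN : ∀ j, N (j + 1) = f (N j) (j + 1) := fun j => rfl
  have hmono : StrictMono N := strictMono_nat_of_lt_succ fun j => by rw [hN]; exact hf1 _ _
  refine ⟨N, hmono, ?_⟩
  intro j
  cases j with
  | zero =>
    intro l _ B _
    rw [pow_zero, ← Real.norm_eq_abs]
    refine (norm_integral_le_of_norm_le_const (C := 1) (Eventually.of_forall fun o => ?_)).trans ?_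
    · rw [norm_mul, Real.norm_eq_abs, Real.norm_eq_abs]
      have h1 := bprod Z hb l B o
      have h2 := hb l (N 0) o
      calc |∏ k ∈ B, Z l k o| * |Z l (N 0) o| ≤ 1 * 1 :=
            mul_le_mul h1 h2 (abs_nonneg _) zero_le_one
        _ = 1 := one_mul 1
    · simp
  | succ j =>
    intro l hl B hB
    rw [hN]
    refine hf2 _ _ l hl B fun k hk => ?_
    obtain ⟨i, hi, hki⟩ := hB k hk
    rw [Finset.mem_range]
    have := hmono.monotone (Nat.lt_succ_iff.1 hi)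
    omega

/-- an elementary inequality -/
theorem exp_le (x : ℝ) (hx : |x| ≤ 1 / 5) : Real.exp (x - 2 * x ^ 2) ≤ 1 + x := by
  obtain ⟨h1, h2⟩ := abs_le.1 hx
  have h3 : |x - 2 * x ^ 2| ≤ 1 := by
    rw [abs_le]
    constructor <;> nlinarith
  have h4 := (abs_le.1 (Real.abs_exp_sub_one_sub_id_le h3)).2
  have h5 : (x - 2 * x ^ 2) ^ 2 ≤ 2 * x ^ 2 := by
    have h6 : (x - 2 * x ^ 2) ^ 2 = x ^ 2 * (1 - 2 * x) ^ 2 := by ring
    have h7 : (1 - 2 * x) ^ 2 ≤ 2 := by nlinarith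
    calc (x - 2 * x ^ 2) ^ 2 = x ^ 2 * (1 - 2 * x) ^ 2 := h6
      _ ≤ x ^ 2 * 2 := mul_le_mul_of_nonneg_left h7 (sq_nonneg x)
      _ = 2 * x ^ 2 := mul_comm _ _
  linarith

theorem prod_le_two (B : Finset ℕ) (f : ℕ → ℝ) (hf : ∀ i ∈ B, |f i| ≤ 2) :
    ‖∏ i ∈ B, f i‖ ≤ 2 ^ B.card := by
  rw [norm_prod, ← Finset.prod_const]
  exact Finset.prod_le_prod (fun i _ => norm_nonneg _) hf

variable {N : ℕ → ℕ} {s : ℕ → ℕ}

omit [IsProbabilityMeasure P] in
theorem msum (hZ : ∀ l k, AEStronglyMeasurable (Z l k) P) (l : ℕ) (B : Finset ℕ) :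
    AEStronglyMeasurable (fun o => ∑ i ∈ B, Z l (N (s i)) o) P := by
  classical
  induction B using Finset.induction_on with
  | empty => simpa using aestronglyMeasurable_const
  | insert k B hk ih =>
    simp only [Finset.sum_insert hk]
    exact (hZ l _).add ih

omit [MeasurableSpace Ω] in
theorem bsum (hb : ∀ l k o, |Z l k o| ≤ 1) (l : ℕ) (B : Finset ℕ) (o : Ω) :
    |∑ i ∈ B, Z l (N (s i)) o| ≤ B.card := by
  refine (Finset.abs_sum_le_sum_abs _ _).trans ?_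
  refine (Finset.sum_le_card_nsmul B _ 1 fun i _ => hb l _ o).trans ?_
  simp

/-- products of the chosen variables with the next one -/
theorem step_le (hZ : ∀ l k, AEStronglyMeasurable (Z l k) P) (hb : ∀ l k o, |Z l k o| ≤ 1)
    (hN : StrictMono N)
    (hj : ∀ j, ∀ l ≤ j, ∀ B : Finset ℕ, (∀ k ∈ B, ∃ i < j, k ≤ N i) →
      |∫ o, (∏ k ∈ B, Z l k o) * Z l (N j) o ∂P| ≤ (1 / 4 : ℝ) ^ j)
    (hs : StrictMono s) (l : ℕ) (t : ℝ) (ht : |t| ≤ 1 / 5) (n : ℕ) (hn : l ≤ n) :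
    |∫ o, (∏ i ∈ Finset.Ico l n, (1 + t * Z l (N (s i)) o)) * Z l (N (s n)) o ∂P| ≤
      (1 / 2 : ℝ) ^ n := by
  classical
  have hns : n ≤ s n := hs.id_le n
  have e1 : ∀ o, (∏ i ∈ Finset.Ico l n, (1 + t * Z l (N (s i)) o)) * Z l (N (s n)) o =
      ∑ B ∈ (Finset.Ico l n).powerset,
        t ^ B.card * ((∏ i ∈ B, Z l (N (s i)) o) * Z l (N (s n)) o) := by
    intro o
    rw [Finset.prod_one_add, Finset.sum_mul]
    refine Finset.sum_congr rfl fun B _ => ?_
    rw [Finset.prod_mul_distrib, Finset.prod_const, mul_assoc]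
  have e2 : ∀ (B : Finset ℕ) (o : Ω), ∏ i ∈ B, Z l (N (s i)) o =
      ∏ k ∈ B.image fun i => N (s i), Z l k o := by
    intro B o
    exact (Finset.prod_image (g := fun i => N (s i)) (f := fun k => Z l k o)
      fun x _ y _ h => hs.injective (hN.injective h)).symm
  have hint : ∀ B ∈ (Finset.Ico l n).powerset, Integrable
      (fun o => t ^ B.card * ((∏ i ∈ B, Z l (N (s i)) o) * Z l (N (s n)) o)) P := by
    intro B _
    refine Integrable.const_mul ?_ _
    have h1 := (iprod P Z hZ hb l (B.image fun i => N (s i))).mul_bdd (c := 1) (hZ l (N (s n)))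
      (Eventually.of_forall fun o => by rw [Real.norm_eq_abs]; exact hb l _ o)
    refine h1.congr (Eventually.of_forall fun o => ?_)
    simp only
    rw [e2]
  simp only [e1]
  rw [integral_finsetSum _ hint]
  refine (Finset.abs_sum_le_sum_abs _ _).trans ?_
  have h3 : ∀ B ∈ (Finset.Ico l n).powerset,
      |∫ o, t ^ B.card * ((∏ i ∈ B, Z l (N (s i)) o) * Z l (N (s n)) o) ∂P| ≤
        (1 / 4 : ℝ) ^ n := by
    intro B hB
    rw [Finset.mem_powerset] at hB
    rw [integral_const_mul, abs_mul]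
    have h4 : |t ^ B.card| ≤ 1 := by
      rw [abs_pow]
      exact pow_le_one₀ (abs_nonneg _) (by linarith)
    have h5 : |∫ o, (∏ i ∈ B, Z l (N (s i)) o) * Z l (N (s n)) o ∂P| ≤ (1 / 4 : ℝ) ^ (s n) := by
      simp only [e2]
      refine hj (s n) l (hn.trans hns) _ ?_
      intro k hk
      rw [Finset.mem_image] at hk
      obtain ⟨i, hi, rfl⟩ := hk
      exact ⟨s i, hs (Finset.mem_Ico.1 (hB hi)).2, le_rfl⟩
    have h6 : (1 / 4 : ℝ) ^ (s n) ≤ (1 / 4 : ℝ) ^ n :=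
      pow_le_pow_of_le_one (by norm_num) (by norm_num) hns
    calc |t ^ B.card| * |∫ o, (∏ i ∈ B, Z l (N (s i)) o) * Z l (N (s n)) o ∂P|
        ≤ 1 * (1 / 4 : ℝ) ^ n := mul_le_mul h4 (h5.trans h6) (abs_nonneg _) zero_le_one
      _ = (1 / 4 : ℝ) ^ n := one_mul _
  refine (Finset.sum_le_card_nsmul _ _ _ h3).trans ?_
  rw [Finset.card_powerset, Nat.card_Ico, nsmul_eq_mul, Nat.cast_pow, Nat.cast_ofNat]
  have h7 : (2 : ℝ) ^ (n - l) ≤ 2 ^ n := pow_le_pow_right₀ (by norm_num) (Nat.sub_le _ _)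
  calc (2 : ℝ) ^ (n - l) * (1 / 4) ^ n ≤ 2 ^ n * (1 / 4) ^ n :=
        mul_le_mul_of_nonneg_right h7 (by positivity)
    _ = (1 / 2) ^ n := by rw [← mul_pow]; norm_num

/-- the product moments -/
theorem prod_le (hZ : ∀ l k, AEStronglyMeasurable (Z l k) P) (hb : ∀ l k o, |Z l k o| ≤ 1)
    (hN : StrictMono N)
    (hj : ∀ j, ∀ l ≤ j, ∀ B : Finset ℕ, (∀ k ∈ B, ∃ i < j, k ≤ N i) →
      |∫ o, (∏ k ∈ B, Z l k o) * Z l (N j) o ∂P| ≤ (1 / 4 : ℝ) ^ j)
    (hs : StrictMono s) (l : ℕ) (t : ℝ) (ht : |t| ≤ 1 / 5) (n : ℕ) (hn : l ≤ n) :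
    ∫ o, ∏ i ∈ Finset.Ico l n, (1 + t * Z l (N (s i)) o) ∂P ≤ 3 - 2 * (1 / 2 : ℝ) ^ n := by
  have hm : ∀ n, AEStronglyMeasurable
      (fun o => ∏ i ∈ Finset.Ico l n, (1 + t * Z l (N (s i)) o)) P := by
    classical
    intro n
    refine Finset.aestronglyMeasurable_fun_prod _ fun i _ => ?_
    exact aestronglyMeasurable_const.add ((hZ l _).const_mul t)
  have hbd : ∀ n o, ‖∏ i ∈ Finset.Ico l n, (1 + t * Z l (N (s i)) o)‖ ≤ 2 ^ n := by
    intro n o
    refine (prod_le_two _ _ fun i _ => ?_).trans ?_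
    · have h1 : |t * Z l (N (s i)) o| ≤ 1 := by
        rw [abs_mul]
        calc |t| * |Z l (N (s i)) o| ≤ 1 * 1 :=
              mul_le_mul (by linarith) (hb l _ o) (abs_nonneg _) zero_le_one
          _ = 1 := one_mul 1
      calc |1 + t * Z l (N (s i)) o| ≤ |(1 : ℝ)| + |t * Z l (N (s i)) o| := abs_add_le _ _
        _ ≤ 2 := by rw [abs_one]; linarith
    · rw [Nat.card_Ico]
      exact pow_le_pow_right₀ (by norm_num) (Nat.sub_le _ _)
  induction n, hn using Nat.le_induction with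
  | base =>
    simp only [Finset.Ico_self, Finset.prod_empty, integral_const, probReal_univ, smul_eq_mul,
      mul_one]
    have : (1 / 2 : ℝ) ^ l ≤ 1 := pow_le_one₀ (by norm_num) (by norm_num)
    linarith
  | succ n hn ih =>
    have h1 := step_le P Z hZ hb hN hj hs l t ht n hn
    have hi1 : Integrable (fun o => ∏ i ∈ Finset.Ico l n, (1 + t * Z l (N (s i)) o)) P :=
      Integrable.of_bound (hm n) _ (Eventually.of_forall fun o => hbd n o)
    have hi2 : Integrable (fun o => (∏ i ∈ Finset.Ico l n, (1 + t * Z l (N (s i)) o)) *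
        Z l (N (s n)) o) P :=
      hi1.mul_bdd (c := 1) (hZ l _) (Eventually.of_forall fun o => by
        rw [Real.norm_eq_abs]; exact hb l _ o)
    have h2 : ∫ o, ∏ i ∈ Finset.Ico l (n + 1), (1 + t * Z l (N (s i)) o) ∂P =
        ∫ o, ∏ i ∈ Finset.Ico l n, (1 + t * Z l (N (s i)) o) ∂P +
          t * ∫ o, (∏ i ∈ Finset.Ico l n, (1 + t * Z l (N (s i)) o)) * Z l (N (s n)) o ∂P := by
      rw [← integral_const_mul, ← integral_add hi1 (hi2.const_mul t)]
      refine integral_congr_ae (Eventually.of_forall fun o => ?_)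
      simp only
      rw [Finset.prod_Ico_succ_top hn]
      ring
    rw [h2]
    have h3 : t * ∫ o, (∏ i ∈ Finset.Ico l n, (1 + t * Z l (N (s i)) o)) * Z l (N (s n)) o ∂P ≤
        (1 / 2 : ℝ) ^ n := by
      refine (le_abs_self _).trans ?_
      rw [abs_mul]
      calc |t| * |∫ o, (∏ i ∈ Finset.Ico l n, (1 + t * Z l (N (s i)) o)) * Z l (N (s n)) o ∂P|
          ≤ 1 * (1 / 2 : ℝ) ^ n := mul_le_mul (by linarith) h1 (abs_nonneg _) zero_le_one
        _ = (1 / 2 : ℝ) ^ n := one_mul _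
    have h4 : (1 / 2 : ℝ) ^ (n + 1) = (1 / 2 : ℝ) ^ n * (1 / 2) := pow_succ _ _
    rw [h4]
    linarith

/-- the exponential moments -/
theorem exp_mom (hZ : ∀ l k, AEStronglyMeasurable (Z l k) P) (hb : ∀ l k o, |Z l k o| ≤ 1)
    (hN : StrictMono N)
    (hj : ∀ j, ∀ l ≤ j, ∀ B : Finset ℕ, (∀ k ∈ B, ∃ i < j, k ≤ N i) →
      |∫ o, (∏ k ∈ B, Z l k o) * Z l (N j) o ∂P| ≤ (1 / 4 : ℝ) ^ j)
    (hs : StrictMono s) (l : ℕ) (t : ℝ) (ht : |t| ≤ 1 / 5) (n : ℕ) (hn : l ≤ n) :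
    ∫ o, Real.exp (t * ∑ i ∈ Finset.Ico l n, Z l (N (s i)) o) ∂P ≤
      3 * Real.exp (2 * t ^ 2 * n) := by
  have h0 := prod_le P Z hZ hb hN hj hs l t ht n hn
  have hx : ∀ i o, |t * Z l (N (s i)) o| ≤ 1 / 5 := by
    intro i o
    rw [abs_mul]
    calc |t| * |Z l (N (s i)) o| ≤ 1 / 5 * 1 :=
          mul_le_mul ht (hb l _ o) (abs_nonneg _) (by norm_num)
      _ = 1 / 5 := mul_one _
  have h1 : ∀ o, Real.exp (t * ∑ i ∈ Finset.Ico l n, Z l (N (s i)) o) ≤
      Real.exp (2 * t ^ 2 * n) * ∏ i ∈ Finset.Ico l n, (1 + t * Z l (N (s i)) o) := by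
    intro o
    have h2 : ∏ i ∈ Finset.Ico l n, Real.exp (t * Z l (N (s i)) o - 2 * t ^ 2) ≤
        ∏ i ∈ Finset.Ico l n, (1 + t * Z l (N (s i)) o) := by
      refine Finset.prod_le_prod (fun i _ => (Real.exp_pos _).le) fun i _ => ?_
      refine le_trans (Real.exp_le_exp.2 ?_) (exp_le _ (hx i o))
      have h3 : (Z l (N (s i)) o) ^ 2 ≤ 1 := by
        rw [sq_le_one_iff_abs_le_one]; exact hb l _ o
      have h4 : (t * Z l (N (s i)) o) ^ 2 ≤ t ^ 2 := by
        rw [mul_pow]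
        calc t ^ 2 * (Z l (N (s i)) o) ^ 2 ≤ t ^ 2 * 1 :=
              mul_le_mul_of_nonneg_left h3 (sq_nonneg t)
          _ = t ^ 2 := mul_one _
      linarith
    rw [← Real.exp_sum, Finset.sum_sub_distrib, ← Finset.mul_sum, Finset.sum_const, Nat.card_Ico,
      nsmul_eq_mul] at h2
    have h5 : t * ∑ i ∈ Finset.Ico l n, Z l (N (s i)) o =
        2 * t ^ 2 * n + (t * ∑ i ∈ Finset.Ico l n, Z l (N (s i)) o - n * (2 * t ^ 2)) := by ring
    rw [h5, Real.exp_add]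
    refine mul_le_mul_of_nonneg_left (le_trans (Real.exp_le_exp.2 ?_) h2) (Real.exp_pos _).le
    have h6 : ((n - l : ℕ) : ℝ) ≤ n := by exact_mod_cast Nat.sub_le _ _
    have h7 := mul_le_mul_of_nonneg_right h6 (show (0 : ℝ) ≤ 2 * t ^ 2 by positivity)
    linarith
  have hm : AEStronglyMeasurable
      (fun o => ∏ i ∈ Finset.Ico l n, (1 + t * Z l (N (s i)) o)) P := by
    refine Finset.aestronglyMeasurable_fun_prod _ fun i _ => ?_
    exact aestronglyMeasurable_const.add ((hZ l _).const_mul t)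
  have hbd : ∀ o, ‖∏ i ∈ Finset.Ico l n, (1 + t * Z l (N (s i)) o)‖ ≤ 2 ^ (Finset.Ico l n).card := by
    intro o
    refine prod_le_two _ _ fun i _ => ?_
    calc |1 + t * Z l (N (s i)) o| ≤ |(1 : ℝ)| + |t * Z l (N (s i)) o| := abs_add_le _ _
      _ ≤ 2 := by rw [abs_one]; linarith [hx i o]
  have hi : Integrable (fun o => ∏ i ∈ Finset.Ico l n, (1 + t * Z l (N (s i)) o)) P :=
    Integrable.of_bound hm _ (Eventually.of_forall hbd)
  have h8 : ∫ o, Real.exp (t * ∑ i ∈ Finset.Ico l n, Z l (N (s i)) o) ∂P ≤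
      ∫ o, Real.exp (2 * t ^ 2 * n) * ∏ i ∈ Finset.Ico l n, (1 + t * Z l (N (s i)) o) ∂P :=
    integral_mono_of_nonneg (Eventually.of_forall fun o => (Real.exp_pos _).le)
      (hi.const_mul _) (Eventually.of_forall h1)
  rw [integral_const_mul] at h8
  refine h8.trans ?_
  rw [mul_comm]
  refine mul_le_mul_of_nonneg_right ?_ (Real.exp_pos _).le
  have : (0 : ℝ) < (1 / 2) ^ n := by positivity
  linarith

end

end Q101.RC
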