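import Pool.Agent.Q101.RCAbs

/-!
# Random averages along a sparse sequence of indices: Borel-Cantelli
-/

set_option autoImplicit false

open Set Filter Topology MeasureTheory

noncomputable section

namespace Q101.RC

section

variable {Ω : Type} [MeasurableSpace Ω] (P : Measure Ω) [IsProbabilityMeasure P]
  (Z : ℕ → ℕ → Ω → ℝ) {N : ℕ → ℕ} {s : ℕ → ℕ}

theorem iexp (hZ : ∀ l k, AEStronglyMeasurable (Z l k) P) (hb : ∀ l k o, |Z l k o| ≤ 1) (l : ℕ)
    (B : Finset ℕ) (t : ℝ) :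
    Integrable (fun o => Real.exp (t * ∑ i ∈ B, Z l (N (s i)) o)) P := by
  refine Integrable.of_bound (C := Real.exp (|t| * B.card)) ?_ (Eventually.of_forall fun o => ?_)
  · exact Real.continuous_exp.comp_aestronglyMeasurable ((msum P Z hZ l B).const_mul t)
  · rw [Real.norm_eq_abs, Real.abs_exp, Real.exp_le_exp]
    calc t * ∑ i ∈ B, Z l (N (s i)) o ≤ |t * ∑ i ∈ B, Z l (N (s i)) o| := le_abs_self _
      _ = |t| * |∑ i ∈ B, Z l (N (s i)) o| := abs_mul _ _
      _ ≤ |t| * B.card := mul_le_mul_of_nonneg_left (bsum Z hb l B o) (abs_nonneg _)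

theorem tail (hZ : ∀ l k, AEStronglyMeasurable (Z l k) P) (hb : ∀ l k o, |Z l k o| ≤ 1)
    (hN : StrictMono N)
    (hj : ∀ j, ∀ l ≤ j, ∀ B : Finset ℕ, (∀ k ∈ B, ∃ i < j, k ≤ N i) →
      |∫ o, (∏ k ∈ B, Z l k o) * Z l (N j) o ∂P| ≤ (1 / 4 : ℝ) ^ j)
    (hs : StrictMono s) (l n : ℕ) (hn : l ≤ n) (t a : ℝ) (ht0 : 0 ≤ t) (ht : t ≤ 1 / 5) :
    P.real {o | a ≤ |∑ i ∈ Finset.Ico l n, Z l (N (s i)) o|} ≤
      6 * Real.exp (2 * t ^ 2 * n - t * a) := by
  set T : Ω → ℝ := fun o => ∑ i ∈ Finset.Ico l n, Z l (N (s i)) o with hT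
  have hsub : {o | a ≤ |T o|} ⊆ {o | a ≤ T o} ∪ {o | T o ≤ -a} := by
    intro o ho
    have ho' : a ≤ |T o| := ho
    rcases le_abs.1 ho' with h | h
    · exact Or.inl h
    · exact Or.inr (show T o ≤ -a by linarith)
  have h1 := ProbabilityTheory.measure_ge_le_exp_mul_mgf (μ := P) (X := T) (t := t) a ht0
    (iexp P Z hZ hb l (Finset.Ico l n) t)
  have h2 := ProbabilityTheory.measure_le_le_exp_mul_mgf (μ := P) (X := T) (t := -t) (-a)
    (by linarith) (iexp P Z hZ hb l (Finset.Ico l n) (-t))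
  have h3 : ProbabilityTheory.mgf T P t ≤ 3 * Real.exp (2 * t ^ 2 * n) :=
    exp_mom P Z hZ hb hN hj hs l t (by rw [abs_of_nonneg ht0]; exact ht) n hn
  have h4 : ProbabilityTheory.mgf T P (-t) ≤ 3 * Real.exp (2 * t ^ 2 * n) := by
    have := exp_mom P Z hZ hb hN hj hs l (-t) (by rw [abs_neg, abs_of_nonneg ht0]; exact ht) n hn
    rwa [neg_sq] at this
  have h5 : Real.exp (2 * t ^ 2 * n - t * a) = Real.exp (-t * a) * Real.exp (2 * t ^ 2 * n) := by
    rw [← Real.exp_add]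
    ring_nf
  have h6 : Real.exp (-t * a) * ProbabilityTheory.mgf T P t ≤
      Real.exp (-t * a) * (3 * Real.exp (2 * t ^ 2 * n)) :=
    mul_le_mul_of_nonneg_left h3 (Real.exp_pos _).le
  have h7 : Real.exp (- -t * -a) * ProbabilityTheory.mgf T P (-t) ≤
      Real.exp (-t * a) * (3 * Real.exp (2 * t ^ 2 * n)) := by
    have h8 : - -t * -a = -t * a := by ring
    rw [h8]
    exact mul_le_mul_of_nonneg_left h4 (Real.exp_pos _).le
  calc P.real {o | a ≤ |T o|} ≤ P.real ({o | a ≤ T o} ∪ {o | T o ≤ -a}) := measureReal_mono hsub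
    _ ≤ P.real {o | a ≤ T o} + P.real {o | T o ≤ -a} := measureReal_union_le _ _
    _ ≤ Real.exp (-t * a) * (3 * Real.exp (2 * t ^ 2 * n)) +
        Real.exp (-t * a) * (3 * Real.exp (2 * t ^ 2 * n)) :=
      add_le_add (h1.trans h6) (h2.trans h7)
    _ = 6 * Real.exp (2 * t ^ 2 * n - t * a) := by rw [h5]; ring

theorem ev_small : ∀ᶠ n : ℕ in atTop, √(Real.log n / n) ≤ 1 / 5 := by
  have h1 : Tendsto (fun x : ℝ => Real.log x / x) atTop (𝓝 0) := by
    have := Real.isLittleO_log_id_atTop.tendsto_div_nhds_zero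
    simpa using this
  have h2 : Tendsto (fun n : ℕ => √(Real.log n / n)) atTop (𝓝 0) := by
    have h3 := ((Real.continuous_sqrt.tendsto 0).comp h1).comp
      (tendsto_natCast_atTop_atTop (R := ℝ))
    rw [Real.sqrt_zero] at h3
    exact h3
  exact (h2.eventually_lt_const (show (0 : ℝ) < 1 / 5 by norm_num)).mono fun n hn => hn.le

/-- sums along a subsequence of the sparse sequence -/
theorem sums_ae (hZ : ∀ l k, AEStronglyMeasurable (Z l k) P) (hb : ∀ l k o, |Z l k o| ≤ 1)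
    (hN : StrictMono N)
    (hj : ∀ j, ∀ l ≤ j, ∀ B : Finset ℕ, (∀ k ∈ B, ∃ i < j, k ≤ N i) →
      |∫ o, (∏ k ∈ B, Z l k o) * Z l (N j) o ∂P| ≤ (1 / 4 : ℝ) ^ j)
    (hs : StrictMono s) (l : ℕ) :
    ∀ᵐ o ∂P, ∀ᶠ n : ℕ in atTop,
      |∑ i ∈ Finset.range n, Z l (N (s i)) o| ≤ 5 * √(n * Real.log n) := by
  obtain ⟨n₀, hn₀⟩ := eventually_atTop.1
    (ev_small.and ((eventually_ge_atTop l).and (eventually_ge_atTop 3)))
  set A : ℕ → Set Ω := fun n =>
    {o | 4 * √(n * Real.log n) ≤ |∑ i ∈ Finset.Ico l n, Z l (N (s i)) o|} with hA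
  have hP : ∀ n, n₀ ≤ n → P (A n) ≤ ENNReal.ofReal (6 / (n : ℝ) ^ 2) := by
    intro n hn
    obtain ⟨h1, h2, h3⟩ := hn₀ n hn
    have hn0 : (0 : ℝ) < n := by
      have : (3 : ℝ) ≤ n := by exact_mod_cast h3
      linarith
    have hlog : 0 ≤ Real.log n := Real.log_natCast_nonneg n
    have h4 := tail P Z hZ hb hN hj hs l n h2 (√(Real.log n / n)) (4 * √(n * Real.log n))
      (Real.sqrt_nonneg _) h1
    have h5 : 2 * √(Real.log n / n) ^ 2 * n - √(Real.log n / n) * (4 * √(n * Real.log n)) =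
        -(2 * Real.log n) := by
      have e1 : √(Real.log n / n) ^ 2 = Real.log n / n := Real.sq_sqrt (div_nonneg hlog hn0.le)
      have e2 : √(Real.log n / n) * √(n * Real.log n) = Real.log n := by
        rw [← Real.sqrt_mul (div_nonneg hlog hn0.le)]
        have : Real.log n / n * (n * Real.log n) = Real.log n * Real.log n := by
          field_simp
        rw [this, Real.sqrt_mul_self hlog]
      have e3 : √(Real.log n / n) * (4 * √(n * Real.log n)) =
          4 * (√(Real.log n / n) * √(n * Real.log n)) := by ring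
      rw [e3, e1, e2]
      field_simp
      ring
    rw [h5] at h4
    have h6 : Real.exp (-(2 * Real.log n)) = 1 / (n : ℝ) ^ 2 := by
      rw [Real.exp_neg, mul_comm, Real.exp_mul, Real.exp_log hn0, one_div]
      norm_num
    rw [h6] at h4
    have h7 : P (A n) = ENNReal.ofReal (P.real (A n)) := by
      rw [measureReal_def, ENNReal.ofReal_toReal (measure_ne_top _ _)]
    rw [h7]
    refine ENNReal.ofReal_le_ofReal (h4.trans (le_of_eq ?_))
    ring
  have hsum : ∑' n, P (A (n + n₀)) ≠ ⊤ := by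
    have h1 : Summable fun n : ℕ => 6 / ((n + n₀ : ℕ) : ℝ) ^ 2 := by
      have h2 : Summable fun n : ℕ => 6 / (n : ℝ) ^ 2 := by
        have := (Real.summable_one_div_nat_pow.2 (show 1 < 2 by norm_num)).mul_left (6 : ℝ)
        refine this.congr fun n => ?_
        ring
      exact (summable_nat_add_iff n₀).2 h2
    refine ne_top_of_le_ne_top h1.tsum_ofReal_ne_top ?_
    exact ENNReal.tsum_le_tsum fun n => hP (n + n₀) (Nat.le_add_left _ _)
  filter_upwards [ae_eventually_notMem hsum] with o ho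
  obtain ⟨m, hm⟩ := eventually_atTop.1 ho
  filter_upwards [eventually_ge_atTop (m + n₀), eventually_ge_atTop (l ^ 2)] with n hn1 hn2
  obtain ⟨-, h2, h3⟩ := hn₀ n (le_trans (Nat.le_add_left _ _) hn1)
  have h4 := hm (n - n₀) (by omega)
  rw [Nat.sub_add_cancel (by omega)] at h4
  have h5 : |∑ i ∈ Finset.Ico l n, Z l (N (s i)) o| < 4 * √(n * Real.log n) := not_le.1 h4
  rw [← Finset.sum_range_add_sum_Ico _ h2]
  have h6 : |∑ i ∈ Finset.range l, Z l (N (s i)) o| ≤ l := by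
    simpa using bsum Z hb l (Finset.range l) o (N := N) (s := s)
  have h7 : (l : ℝ) ≤ √(n * Real.log n) := by
    refine Real.le_sqrt_of_sq_le ?_
    have h8 : (l : ℝ) ^ 2 ≤ n := by exact_mod_cast hn2
    have h9 : (1 : ℝ) ≤ Real.log n := by
      rw [Real.le_log_iff_exp_le (by positivity)]
      have : (3 : ℝ) ≤ n := by exact_mod_cast h3
      linarith [Real.exp_one_lt_d9]
    nlinarith
  calc |∑ i ∈ Finset.range l, Z l (N (s i)) o + ∑ i ∈ Finset.Ico l n, Z l (N (s i)) o|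
      ≤ |∑ i ∈ Finset.range l, Z l (N (s i)) o| + |∑ i ∈ Finset.Ico l n, Z l (N (s i)) o| :=
        abs_add_le _ _
    _ ≤ 5 * √(n * Real.log n) := by linarith

end

end Q101.RC
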