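import Pool.Agent.Q101.QGHull
import Pool.Agent.Q101.RCBc
import Pool.Agent.Q233.RSP.Top

/-!
# Random averages along a sparse sequence of indices: surfaces
-/

set_option autoImplicit false

open Set Filter Topology MeasureTheory

noncomputable section

namespace Q101.RC

open Pool.Agent.Y262.QE Pool.Agent.Y264.QR Pool.Agent.Y378.QR

/-- two complete systems of eigenvectors agree up to the sign at a simple eigenvalue -/
theorem sgn {H : Type} [NormedAddCommGroup H] [InnerProductSpace ℝ H]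
    (a b : H →L[ℝ] H →L[ℝ] ℝ) (hF : Fm a b) (e e' : ℕ → H) (E : ℕ → ℝ) (hE : Eg a b e E)
    (hE' : Eg a b e' E) (j : ℕ) (hj : ∀ k, k ≠ j → E k ≠ E j) :
    ∃ c : ℝ, c ^ 2 = 1 ∧ e' j = c • e j := by
  have h0 : ∀ k, k ≠ j → b (e' j) (e k) = 0 := by
    intro k hk
    have h1 := hE'.eig j (e k)
    have h2 := hE.eig k (e' j)
    rw [hF.sa (e k) (e' j), hF.sb (e k) (e' j), h1] at h2
    have h3 : (E j - E k) * b (e' j) (e k) = 0 := by linarith
    rcases mul_eq_zero.1 h3 with h | h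
    · exact absurd (sub_eq_zero.1 h).symm (hj k hk)
    · exact h
  set c : ℝ := b (e' j) (e j) with hc
  have h1 : c ^ 2 = 1 := by
    have h2 := hE.sum (e' j)
    have h3 := hasSum_single j (f := fun k => (b (e' j) (e k)) ^ 2) fun k hk => by
      rw [h0 k hk]; norm_num
    have h4 := h3.unique h2
    rw [hE'.orth, if_pos rfl] at h4
    exact h4
  refine ⟨c, h1, ?_⟩
  set w : H := e' j - c • e j with hw
  have hbw : b w w = 0 := by
    have e1 : b (e j) (e j) = 1 := by rw [hE.orth, if_pos rfl]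
    have e2 : b (e' j) (e' j) = 1 := by rw [hE'.orth, if_pos rfl]
    have e3 : b (e j) (e' j) = c := hF.sb _ _
    have e4 : b w w = b (e' j) (e' j) - c * b (e' j) (e j) - c * b (e j) (e' j) +
        c * c * b (e j) (e j) := by
      rw [hw]
      simp only [map_sub, map_smul, _root_.sub_apply, _root_.smul_apply, smul_eq_mul]
      ring
    rw [e4, e1, e2, e3, ← hc]
    nlinarith
  have haw : a w w = 0 := by
    have e1 : ∀ x, a w x = E j * b w x := by
      intro x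
      rw [hw]
      simp only [map_sub, map_smul, _root_.sub_apply, _root_.smul_apply, smul_eq_mul]
      rw [hE.eig, hE'.eig]
      ring
    rw [e1, hbw, mul_zero]
  obtain ⟨δ, hδ, hco⟩ := hF.co
  have h5 := hco w
  rw [haw, hbw, add_zero] at h5
  have h6 : ‖w‖ ^ 2 = 0 := by
    have := sq_nonneg ‖w‖
    nlinarith
  have h7 : w = 0 := norm_eq_zero.1 (pow_eq_zero_iff two_ne_zero |>.1 h6)
  exact sub_eq_zero.1 h7

section

variable {M : Type} [MetricSpace M] [CompactSpace M] [MeasurableSpace M] [BorelSpace M]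
  [Nonempty M] (μ : Measure M) (D : Data M)

theorem sqrt_div_id (n : ℕ) : √(n * Real.log n) / n = √(Real.log n / n) := by
  rcases Nat.eq_zero_or_pos n with h | h
  · subst h; simp
  · have hn : (0 : ℝ) < n := by exact_mod_cast h
    rw [Real.sqrt_div' _ hn.le, Real.sqrt_mul' _ (Real.log_natCast_nonneg n)]
    have h1 : √(n : ℝ) * √(n : ℝ) = n := Real.mul_self_sqrt hn.le
    have h2 : 0 < √(n : ℝ) := Real.sqrt_pos.2 hn
    rw [div_eq_div_iff hn.ne' h2.ne']
    calc √(n : ℝ) * √(Real.log n) * √(n : ℝ) = (√(n : ℝ) * √(n : ℝ)) * √(Real.log n) := by ring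
      _ = √(Real.log n) * n := by rw [h1, mul_comm]

theorem rate_zero (C : ℝ) : Tendsto (fun n : ℕ => C * √(Real.log n / n)) atTop (𝓝 0) := by
  have h1 : Tendsto (fun x : ℝ => Real.log x / x) atTop (𝓝 0) := by
    have := Real.isLittleO_log_id_atTop.tendsto_div_nhds_zero
    simpa using this
  have h3 := ((Real.continuous_sqrt.tendsto 0).comp h1).comp
    (tendsto_natCast_atTop_atTop (R := ℝ))
  rw [Real.sqrt_zero] at h3
  have h4 := h3.const_mul C
  rw [mul_zero] at h4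
  exact h4

/-- from a dense sequence to all functions -/
theorem all_f (κ : ℕ → C(M, ℝ) → ℝ) (y : C(M, ℝ) → ℝ) (hκb : ∀ i f, |κ i f| ≤ ‖f‖)
    (hκs : ∀ i f g, κ i (f - g) = κ i f - κ i g) (hyb : ∀ f, |y f| ≤ ‖f‖)
    (hys : ∀ f g, y (f - g) = y f - y g) (T : Set C(M, ℝ)) (hT : Dense T)
    (h : ∀ g ∈ T, Tendsto (fun n : ℕ => (∑ i ∈ Finset.range n, κ i g) / n) atTop (𝓝 (y g)))
    (f : C(M, ℝ)) : Tendsto (fun n : ℕ => (∑ i ∈ Finset.range n, κ i f) / n) atTop (𝓝 (y f)) := by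
  rw [Metric.tendsto_atTop]
  intro ε hε
  obtain ⟨g, hg, hgf⟩ := Metric.mem_closure_iff.1 (hT f) (ε / 4) (by positivity)
  rw [dist_eq_norm] at hgf
  obtain ⟨n₀, hn₀⟩ := Metric.tendsto_atTop.1 (h g hg) (ε / 4) (by positivity)
  refine ⟨n₀, fun n hn => ?_⟩
  have h1 := hn₀ n hn
  rw [Real.dist_eq] at h1 ⊢
  have h2 : |(∑ i ∈ Finset.range n, κ i f) / n - (∑ i ∈ Finset.range n, κ i g) / n| ≤
      ‖f - g‖ := by
    rw [← sub_div, ← Finset.sum_sub_distrib, abs_div, Nat.abs_cast]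
    rcases Nat.eq_zero_or_pos n with h | h
    · subst h; simp
    · have hn : (0 : ℝ) < n := by exact_mod_cast h
      rw [div_le_iff₀ hn]
      refine (Finset.abs_sum_le_sum_abs _ _).trans ?_
      refine (Finset.sum_le_card_nsmul _ _ ‖f - g‖ fun i _ => ?_).trans ?_
      · rw [← hκs]; exact hκb i _
      · rw [Finset.card_range, nsmul_eq_mul, mul_comm]
  have h3 : |y f - y g| ≤ ‖f - g‖ := by rw [← hys]; exact hyb _
  rw [abs_lt] at h1 ⊢
  rw [abs_le] at h2 h3
  constructor <;> linarith [h1.1, h1.2, h2.1, h2.2, h3.1, h3.2]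

/-- averages along a sparse sequence, for almost every conformal factor -/
theorem surf_cesaro (hD : D.IsSurf μ) (J : ℕ → ℕ) (hJ : Tendsto J atTop atTop)
    [MeasurableSpace C(M, ℝ)] [BorelSpace C(M, ℝ)]
    (P : Measure C(M, ℝ)) [IsProbabilityMeasure P] (S : Set C(M, ℝ))
    (hS : Dense (Submodule.span ℝ S : Set C(M, ℝ)))
    (hP : ∀ h ∈ S, ∀ t : ℝ, P.map (fun φ => φ + t • h) ≪ P)
    (F : Set C(M, ℝ)) (hF0 : F.Countable) :
    ∃ N : ℕ → ℕ, StrictMono N ∧ ∀ s : ℕ → ℕ, StrictMono s → ∀ᵐ φ ∂P,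
      ∀ (u : ℕ → M → ℝ) (lam : ℕ → ℝ),
      EigBasis (D.conf fun x => Real.exp (φ x)) (wm μ fun x => Real.exp (φ x)) u lam →
      (∀ f : C(M, ℝ), Tendsto (fun n : ℕ => (∑ i ∈ Finset.range n,
        ∫ x, f x * (u (J (N (s i))) x) ^ 2 ∂(wm μ fun x => Real.exp (φ x))) / n) atTop
        (𝓝 ((∫ x, f x ∂(wm μ fun x => Real.exp (φ x))) /
            (wm μ fun x => Real.exp (φ x)).real univ))) ∧
      ∀ f ∈ F, ∀ᶠ n : ℕ in atTop, |(∑ i ∈ Finset.range n,
        ∫ x, f x * (u (J (N (s i))) x) ^ 2 ∂(wm μ fun x => Real.exp (φ x))) / n -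
        (∫ x, f x ∂(wm μ fun x => Real.exp (φ x))) /
            (wm μ fun x => Real.exp (φ x)).real univ| ≤ 10 * ‖f‖ * √(Real.log n / n) := by
  have hsim := (Pool.Agent.Q233.RSP.top μ D hD P S hS hP).1
  obtain ⟨hf, -⟩ := tFin M μ D hD
  haveI := hf
  obtain ⟨i, a, hSf, hi, ha⟩ := tPackF M μ D hD inferInstance
  obtain ⟨b, hB, hF, hpos, hcmp, -⟩ := tFm M μ (HF D μ) i a hSf
  obtain ⟨-, -, hk⟩ := QG.forms μ i a b hSf hB
  have hW := tWl M μ D hD inferInstance i a b hSf hi ha hB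
  obtain ⟨-, hmon, -, -, hdich⟩ := tLip M μ (HF D μ) a b hF hcmp
  have hbr := fun φ u lam hu => tBr M μ D hD i a b hSf hi ha hB hF φ u lam hu
  choose u₀ lam₀ hu₀ using fun φ => tEx M μ D hD inferInstance φ
  choose e he1 he2 using fun φ => hbr φ (u₀ φ) (lam₀ φ) (hu₀ φ)
  obtain ⟨⟨J₀, hJ₀⟩, hA⟩ := tAbs M μ (HF D μ) i a b hSf hB hW e lam₀ he2 P S hS hP
  obtain ⟨-, hav, havb, -⟩ := Pool.Agent.Y689.QR.cm M μ
  have hmm : ∀ φ j, Ev a (b φ) j = lam₀ φ j := fun φ j =>
    Pool.Agent.Y592.QE.mm _ a (b φ) (hF φ) (e φ) (lam₀ φ) (he2 φ) j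
  -- all eigenvalues with large indices are positive, uniformly in the metric
  obtain ⟨q, hq⟩ : ∃ q, ∀ φ j, q ≤ j → 0 < Ev a (b φ) j := by
    obtain ⟨q, hq⟩ := ((he2 0).tt.eventually_gt_atTop 0).exists
    rcases hdich q with h | h
    · have := h 0
      rw [hmm] at this
      rw [this] at hq
      exact absurd hq (lt_irrefl _)
    · exact ⟨q, fun φ j hj => (h φ).trans_le (hmon φ q j hj)⟩
  obtain ⟨K₁, hK₁⟩ := eventually_atTop.1 (hJ.eventually_ge_atTop (max J₀ q))
  have hkb : ∀ (f φ : C(M, ℝ)) (v : HF D μ), b φ v v = 1 → |kap μ i f φ v| ≤ ‖f‖ := by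
    intro f φ v hv
    obtain ⟨r, -, hr⟩ := hk f
    have := (hr φ v).2
    rwa [(hr φ _).1, hv, mul_one] at this
  have hone : ∀ φ j, b φ (e φ j) (e φ j) = 1 := fun φ j => by rw [(he2 φ).orth, if_pos rfl]
  obtain ⟨T, hT2, hT3⟩ := TopologicalSpace.exists_countable_dense C(M, ℝ)
  obtain ⟨G, hG⟩ := (hF0.union hT2).exists_eq_range
    (hT3.nonempty.mono subset_union_right)
  -- the random variables
  set Z : ℕ → ℕ → C(M, ℝ) → ℝ := fun l k φ =>
    (kap μ i (G l) φ (e φ (J (k + K₁))) - avg μ (G l) φ) / (2 * ‖G l‖) with hZdef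
  have hKm : ∀ l k, AEStronglyMeasurable (fun φ => kap μ i (G l) φ (e φ (J (k + K₁)))) P :=
    fun l k => hJ₀ (G l) _ ((le_max_left _ _).trans (hK₁ _ (Nat.le_add_left _ _)))
  have hZm : ∀ l k, AEStronglyMeasurable (Z l k) P := fun l k =>
    (((hKm l k).sub (hav (G l)).aestronglyMeasurable).aemeasurable.div_const
      _).aestronglyMeasurable
  have hZb : ∀ l k φ, |Z l k φ| ≤ 1 := by
    intro l k φ
    rw [hZdef]
    simp only
    rw [abs_div, abs_of_nonneg (show (0 : ℝ) ≤ 2 * ‖G l‖ by positivity)]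
    refine div_le_one_of_le₀ ?_ (by positivity)
    have h1 := hkb (G l) φ (e φ (J (k + K₁))) (hone _ _)
    have h2 := havb (G l) φ
    calc |kap μ i (G l) φ (e φ (J (k + K₁))) - avg μ (G l) φ|
        ≤ |kap μ i (G l) φ (e φ (J (k + K₁)))| + |avg μ (G l) φ| := abs_sub _ _
      _ ≤ 2 * ‖G l‖ := by linarith
  have hJK : Tendsto (fun k => J (k + K₁)) atTop atTop := hJ.comp (tendsto_add_atTop_nat K₁)
  have hZw : ∀ (l : ℕ) (χ : C(M, ℝ) → ℝ), Integrable χ P →
      Tendsto (fun k => ∫ φ, χ φ * Z l k φ ∂P) atTop (𝓝 0) := by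
    intro l χ hχ
    have h1 := ((hA (G l)).1 χ hχ).comp hJK
    have h2 := (h1.sub_const (∫ φ, χ φ * avg μ (G l) φ ∂P)).div_const (2 * ‖G l‖)
    rw [sub_self, zero_div] at h2
    refine h2.congr fun k => ?_
    have i1 : Integrable (fun φ => χ φ * kap μ i (G l) φ (e φ (J (k + K₁)))) P :=
      hχ.mul_bdd (c := ‖G l‖) (hKm l k) (Eventually.of_forall fun φ => by
        rw [Real.norm_eq_abs]; exact hkb _ _ _ (hone _ _))
    have i2 : Integrable (fun φ => χ φ * avg μ (G l) φ) P :=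
      hχ.mul_bdd (c := ‖G l‖) (hav (G l)).aestronglyMeasurable (Eventually.of_forall fun φ => by
        rw [Real.norm_eq_abs]; exact havb _ _)
    show (∫ φ, χ φ * kap μ i (G l) φ (e φ (J (k + K₁))) ∂P - ∫ φ, χ φ * avg μ (G l) φ ∂P) /
      (2 * ‖G l‖) = _
    rw [← integral_sub i1 i2, ← integral_div]
    refine integral_congr_ae (Eventually.of_forall fun φ => ?_)
    simp only [hZdef]
    ring
  obtain ⟨N, hN, hNj⟩ := exists_N P Z hZm hZb hZw
  refine ⟨fun j => N j + K₁, fun x y hxy => Nat.add_lt_add_right (hN hxy) _, ?_⟩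
  intro s hs
  have hae : ∀ᵐ φ ∂P, ∀ l, ∀ᶠ n : ℕ in atTop,
      |∑ j ∈ Finset.range n, Z l (N (s j)) φ| ≤ 5 * √(n * Real.log n) := by
    rw [ae_all_iff]
    exact fun l => sums_ae P Z hZm hZb hN hNj hs l
  filter_upwards [hae, hsim] with φ h1 h2 u lam hu
  obtain ⟨e', he1', he2'⟩ := hbr φ u lam hu
  have hlam : lam = lam₀ φ := by
    funext j
    rw [← Pool.Agent.Y592.QE.mm _ a (b φ) (hF φ) e' lam he2' j, hmm]
  subst hlam
  have hstr : ∀ j, q ≤ j → ∀ k, k ≠ j → lam₀ φ k ≠ lam₀ φ j := by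
    intro j hj k hk hkj
    have h3 : ∀ j, q ≤ j → lam₀ φ j < lam₀ φ (j + 1) := fun j hj =>
      h2 u _ hu j (by rw [← hmm]; exact hq φ j hj)
    rcases lt_or_gt_of_ne hk with h | h
    · by_cases hqk : q ≤ k
      · have h4 := (h3 k hqk).trans_le (he2'.mono (Nat.succ_le_of_lt h))
        linarith
      · have h4 := h3 j hj
        -- `k < q ≤ j` and the eigenvalues `k, ..., j` are equal
        rcases Nat.lt_or_ge q j with h5 | h5
        · have h6 := he2'.mono (not_le.1 hqk).le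
          have h7 := (h3 q le_rfl).trans_le (he2'.mono (Nat.succ_le_of_lt h5))
          linarith
        · have h6 : j = q := le_antisymm h5 hj
          have h7 : 0 < lam₀ φ k := by
            rw [hkj, ← hmm]; exact hq φ j hj
          have h8 := (h2 u _ hu k h7).trans_le (he2'.mono (Nat.succ_le_of_lt h))
          linarith
    · have h4 := (h3 j hj).trans_le (he2'.mono (Nat.succ_le_of_lt h))
      linarith
  have hkk : ∀ (f : C(M, ℝ)) (j : ℕ), K₁ ≤ j →
      ∫ x, f x * (u (J j) x) ^ 2 ∂(wm μ fun x => Real.exp (φ x)) =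
        kap μ i f φ (e φ (J j)) := by
    intro f j hj
    have hqj : q ≤ J j := (le_max_right _ _).trans (hK₁ j hj)
    obtain ⟨c, hc1, hc2⟩ := sgn a (b φ) (hF φ) (e φ) e' (lam₀ φ) (he2 φ) he2' (J j)
      (hstr _ hqj)
    rw [← kap_eq μ i f φ (e' (J j)) (u (J j)) (he1' (J j)), hc2]
    obtain ⟨r, -, hr⟩ := hk f
    rw [← (hr φ _).1, ← (hr φ _).1, QG.sm, hc1, one_mul]
  have hrate : ∀ l, ∀ᶠ n : ℕ in atTop, |(∑ j ∈ Finset.range n,
        ∫ x, G l x * (u (J (N (s j) + K₁)) x) ^ 2 ∂(wm μ fun x => Real.exp (φ x))) / n -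
        (∫ x, G l x ∂(wm μ fun x => Real.exp (φ x))) /
            (wm μ fun x => Real.exp (φ x)).real univ| ≤ 10 * ‖G l‖ * √(Real.log n / n) := by
    intro l
    filter_upwards [h1 l, eventually_ge_atTop 1] with n hn hn1
    have hnp : (0 : ℝ) < n := by exact_mod_cast hn1
    have e1 : (∑ j ∈ Finset.range n,
        ∫ x, G l x * (u (J (N (s j) + K₁)) x) ^ 2 ∂(wm μ fun x => Real.exp (φ x))) / n -
        (∫ x, G l x ∂(wm μ fun x => Real.exp (φ x))) /
            (wm μ fun x => Real.exp (φ x)).real univ =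
        (∑ j ∈ Finset.range n, (kap μ i (G l) φ (e φ (J (N (s j) + K₁))) - avg μ (G l) φ)) / n := by
      rw [Finset.sum_sub_distrib, Finset.sum_const, Finset.card_range, nsmul_eq_mul, avg_eq, sub_div,
        mul_div_cancel_left₀ _ hnp.ne']
      congr 2
      exact Finset.sum_congr rfl fun j _ => hkk (G l) _ (Nat.le_add_left _ _)
    have e2 : ∑ j ∈ Finset.range n, (kap μ i (G l) φ (e φ (J (N (s j) + K₁))) - avg μ (G l) φ) =
        2 * ‖G l‖ * ∑ j ∈ Finset.range n, Z l (N (s j)) φ := by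
      rw [Finset.mul_sum]
      refine Finset.sum_congr rfl fun j _ => ?_
      simp only [hZdef]
      by_cases h0 : ‖G l‖ = 0
      · have h3 := hkb (G l) φ (e φ (J (N (s j) + K₁))) (hone _ _)
        have h4 := havb (G l) φ
        rw [h0] at h3 h4
        rw [abs_nonpos_iff.1 h3, abs_nonpos_iff.1 h4, h0]
        simp
      · field_simp
    rw [e1, e2, abs_div, abs_mul, Nat.abs_cast, abs_of_nonneg (show (0 : ℝ) ≤ 2 * ‖G l‖ by positivity),
      ← sqrt_div_id, mul_div_assoc]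
    have h3 : |∑ j ∈ Finset.range n, Z l (N (s j)) φ| / n ≤ 5 * √(n * Real.log n) / n :=
      div_le_div_of_nonneg_right hn hnp.le
    calc 2 * ‖G l‖ * (|∑ j ∈ Finset.range n, Z l (N (s j)) φ| / n)
        ≤ 2 * ‖G l‖ * (5 * √(n * Real.log n) / n) :=
          mul_le_mul_of_nonneg_left h3 (by positivity)
      _ = 10 * ‖G l‖ * (√(n * Real.log n) / n) := by ring
  constructor
  · refine all_f (fun j f => ∫ x, f x * (u (J (N (s j) + K₁)) x) ^ 2
      ∂(wm μ fun x => Real.exp (φ x))) (fun f => (∫ x, f x ∂(wm μ fun x => Real.exp (φ x))) /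
            (wm μ fun x => Real.exp (φ x)).real univ) ?_ ?_ ?_ ?_ T hT3 ?_
    · intro j f
      rw [hkk f _ (Nat.le_add_left _ _)]
      exact hkb _ _ _ (hone _ _)
    · intro j f g
      rw [hkk f _ (Nat.le_add_left _ _), hkk g _ (Nat.le_add_left _ _),
        hkk (f - g) _ (Nat.le_add_left _ _), kap_sub]
    · intro f
      have := havb f φ
      rwa [avg_eq] at this
    · intro f g
      have h3 := avg_add (μ := μ) (f - g) g φ
      rw [sub_add_cancel, avg_eq, avg_eq, avg_eq] at h3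
      linarith
    · intro g hg
      obtain ⟨l, rfl⟩ : g ∈ range G := hG ▸ Or.inr hg
      rw [tendsto_iff_norm_sub_tendsto_zero]
      refine squeeze_zero' (Eventually.of_forall fun n => norm_nonneg _) ?_
        (rate_zero (10 * ‖G l‖))
      filter_upwards [hrate l] with n hn
      rw [Real.norm_eq_abs]
      exact hn
  · intro f hf
    obtain ⟨l, rfl⟩ : f ∈ range G := hG ▸ Or.inl hf
    exact hrate l

end

end Q101.RC
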