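import Pool.Agent.Q101.SecondL1

set_option autoImplicit false

open Filter Topology OnePoint
open scoped ENNReal ComplexConjugate

namespace Q101.SecondC

open Pool.Agent.Results.MP_01d095_an.HilbertSum Q101.SecondL1

/-- the real Banach space of convergent complex sequences -/
abbrev C1 : Type := C(OnePoint ℕ, ℂ)

/-- eventually constant sequences -/
noncomputable def ev (f : ℕ → ℂ) (y : ℂ) (N : ℕ) (h : ∀ n, N ≤ n → f n = y) : C1 :=
  continuousMapMkNat f y (tendsto_const_nhds.congr'
    ((eventually_ge_atTop N).mono fun n hn => (h n hn).symm))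

theorem ev_coe (f : ℕ → ℂ) (y : ℂ) (N : ℕ) (h : ∀ n, N ≤ n → f n = y) (n : ℕ) :
    ev f y N h (n : OnePoint ℕ) = f n := rfl

theorem ev_infty (f : ℕ → ℂ) (y : ℂ) (N : ℕ) (h : ∀ n, N ≤ n → f n = y) :
    ev f y N h ∞ = y := rfl

/-- unit vectors -/
noncomputable def e (n : ℕ) (c : ℂ) : C1 :=
  ev (fun k => if k = n then c else 0) 0 (n + 1) fun k hk => if_neg (by omega)

theorem e_coe (n : ℕ) (c : ℂ) (k : ℕ) : e n c (k : OnePoint ℕ) = if k = n then c else 0 := rfl
theorem e_infty (n : ℕ) (c : ℂ) : e n c ∞ = 0 := rfl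

theorem ext' {x y : C1} (h : ∀ n : ℕ, x (n : OnePoint ℕ) = y (n : OnePoint ℕ)) (h' : x ∞ = y ∞) :
    x = y := by
  ext k
  refine OnePoint.rec ?_ ?_ k
  · exact h'
  · exact h

theorem tendsto_coe (x : C1) : Tendsto (fun n : ℕ => x (n : OnePoint ℕ)) atTop (𝓝 (x ∞)) :=
  (continuous_iff_from_nat x).1 x.continuous

theorem e_add (n : ℕ) (c d : ℂ) : e n (c + d) = e n c + e n d := by
  refine ext' (fun k => ?_) ?_
  · rw [ContinuousMap.add_apply, e_coe, e_coe, e_coe]; split_ifs <;> simp
  · rw [ContinuousMap.add_apply, e_infty, e_infty, e_infty, add_zero]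

theorem e_smul (n : ℕ) (r : ℝ) (c : ℂ) : e n (r • c) = r • e n c := by
  refine ext' (fun k => ?_) ?_
  · rw [ContinuousMap.smul_apply, e_coe, e_coe]; split_ifs <;> simp
  · rw [ContinuousMap.smul_apply, e_infty, e_infty, smul_zero]

theorem norm_le {x : C1} {K : ℝ} (hK : 0 ≤ K) (h : ∀ k, ‖x k‖ ≤ K) : ‖x‖ ≤ K :=
  (ContinuousMap.norm_le x hK).2 h

theorem apply_le (x : C1) (k : OnePoint ℕ) : ‖x k‖ ≤ ‖x‖ := x.norm_coe_le_norm k

theorem norm_e_le (n : ℕ) (c : ℂ) : ‖e n c‖ ≤ ‖c‖ := by
  refine norm_le (norm_nonneg _) fun k => ?_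
  refine OnePoint.rec ?_ ?_ k
  · rw [e_infty, norm_zero]; exact norm_nonneg _
  · intro m
    rw [e_coe]
    split_ifs
    · exact le_rfl
    · rw [norm_zero]; exact norm_nonneg _

section Upper

/-- the coefficients `0, 1, 0, 1, …` -/
noncomputable def aa (k : OnePoint ℕ) : ℝ :=
  Option.elim k 0 (fun n : ℕ => if Even n then 0 else 1)

theorem aa_coe (n : ℕ) : aa (n : OnePoint ℕ) = if Even n then 0 else 1 := rfl

theorem aa_cases (k : OnePoint ℕ) : aa k = 0 ∨ aa k = 1 := by
  refine OnePoint.rec ?_ ?_ k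
  · exact Or.inl rfl
  · intro n
    rw [aa_coe]
    split_ifs
    · exact Or.inl rfl
    · exact Or.inr rfl

/-- the operator as a map -/
noncomputable def Tfun (x : C1) : C1 :=
  ⟨fun k => aa k * Complex.I * (x k - x ∞) + (1 / 2 : ℝ) * Complex.I * x ∞, by
    rw [continuous_iff_from_nat]
    rw [sub_self, mul_zero, zero_add]
    have h1 : Tendsto (fun n : ℕ => x (n : OnePoint ℕ) - x ∞) atTop (𝓝 0) := by
      have := (tendsto_coe x).sub_const (x ∞)
      rwa [sub_self] at this
    have h2 : Tendsto (fun n : ℕ => (aa (n : OnePoint ℕ) : ℂ) * Complex.I *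
        (x (n : OnePoint ℕ) - x ∞)) atTop (𝓝 0) := by
      refine squeeze_zero_norm (fun n => ?_) (tendsto_zero_iff_norm_tendsto_zero.1 h1)
      rw [norm_mul, norm_mul, Complex.norm_I, mul_one, Complex.norm_real]
      refine mul_le_of_le_one_left (norm_nonneg _) ?_
      rcases aa_cases (n : OnePoint ℕ) with h | h <;> rw [h] <;> simp
    have := h2.add_const ((1 / 2 : ℝ) * Complex.I * x ∞)
    rwa [zero_add] at this⟩

theorem Tfun_apply (x : C1) (k : OnePoint ℕ) :
    Tfun x k = aa k * Complex.I * (x k - x ∞) + (1 / 2 : ℝ) * Complex.I * x ∞ := rfl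

/-- the operator -/
noncomputable def T : C1 →L[ℝ] C1 :=
  LinearMap.mkContinuous
    { toFun := Tfun
      map_add' := fun x y => by
        ext k
        rw [ContinuousMap.add_apply, Tfun_apply, Tfun_apply, Tfun_apply,
          ContinuousMap.add_apply, ContinuousMap.add_apply]
        ring
      map_smul' := fun c x => by
        ext k
        rw [ContinuousMap.smul_apply, Tfun_apply, Tfun_apply, ContinuousMap.smul_apply,
          ContinuousMap.smul_apply, RingHom.id_apply, Complex.real_smul, Complex.real_smul,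
          Complex.real_smul]
        ring }
    (5 / 2) fun x => by
      refine norm_le (by positivity) fun k => ?_
      show ‖aa k * Complex.I * (x k - x ∞) + (1 / 2 : ℝ) * Complex.I * x ∞‖ ≤ _
      refine (norm_add_le _ _).trans ?_
      rw [norm_mul, norm_mul, norm_mul, norm_mul, Complex.norm_I, mul_one, mul_one,
        Complex.norm_real, Complex.norm_real]
      have h1 : ‖aa k‖ ≤ 1 := by rcases aa_cases k with h | h <;> rw [h] <;> simp
      have h2 : ‖x k - x ∞‖ ≤ 2 * ‖x‖ := by
        refine (norm_sub_le _ _).trans ?_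
        have := apply_le x k
        have := apply_le x ∞
        linarith
      have h3 := apply_le x ∞
      have h4 : ‖(1 / 2 : ℝ)‖ = 1 / 2 := by norm_num
      rw [h4]
      nlinarith [norm_nonneg (x k - x ∞), norm_nonneg (aa k)]

theorem T_apply (x : C1) (k : OnePoint ℕ) :
    T x k = aa k * Complex.I * (x k - x ∞) + (1 / 2 : ℝ) * Complex.I * x ∞ := rfl

theorem numRadius_T_le : numRadius T ≤ 1 / 2 := by
  refine numRadius_le_of_growth (K := 1 / 2) (by norm_num) (by norm_num) fun x a hx => ?_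
  refine norm_le (by positivity) fun k => ?_
  have hk := apply_le x k
  have hi := apply_le x ∞
  rw [hx] at hk hi
  rw [ContinuousMap.add_apply, ContinuousMap.smul_apply, T_apply, Complex.real_smul]
  rcases aa_cases k with h | h
  · rw [h]
    have h1 : x k + (a : ℂ) * (((0 : ℝ) : ℂ) * Complex.I * (x k - x ∞) +
        ((1 / 2 : ℝ) : ℂ) * Complex.I * x ∞) =
        x k + ((a * (1 / 2) : ℝ) : ℂ) * Complex.I * x ∞ := by
      push_cast; ring
    rw [h1]
    refine (norm_add_le _ _).trans ?_
    rw [norm_mul, norm_mul, Complex.norm_I, mul_one, Complex.norm_real, Real.norm_eq_abs, abs_mul,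
      abs_of_pos (by norm_num : (0 : ℝ) < 1 / 2)]
    nlinarith [abs_nonneg a, norm_nonneg (x ∞), sq_nonneg a]
  · rw [h]
    have h1 : x k + (a : ℂ) * (((1 : ℝ) : ℂ) * Complex.I * (x k - x ∞) +
        ((1 / 2 : ℝ) : ℂ) * Complex.I * x ∞) =
        (1 + (a : ℂ) * Complex.I) * x k + ((-(a * (1 / 2)) : ℝ) : ℂ) * Complex.I * x ∞ := by
      push_cast; ring
    rw [h1]
    refine (norm_add_le _ _).trans ?_
    rw [norm_mul, norm_mul, norm_mul, Complex.norm_I, mul_one, Complex.norm_real,
      Real.norm_eq_abs, abs_neg, abs_mul, abs_of_pos (by norm_num : (0 : ℝ) < 1 / 2)]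
    have h2 := norm_one_add_I a
    have h3 := norm_nonneg ((1 : ℂ) + a * Complex.I)
    nlinarith [abs_nonneg a, norm_nonneg (x ∞), norm_nonneg (x k), sq_nonneg a]

/-- evaluation functionals -/
noncomputable def evf (n : ℕ) (u : ℂ) : C1 →L[ℝ] ℝ :=
  LinearMap.mkContinuous
    { toFun := fun x => (conj u * x (n : OnePoint ℕ)).re
      map_add' := fun x y => by
        rw [ContinuousMap.add_apply, mul_add, Complex.add_re]
      map_smul' := fun c x => by
        rw [ContinuousMap.smul_apply, Complex.real_smul, mul_left_comm, Complex.re_ofReal_mul]; rfl }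
    ‖u‖ fun x => by
      refine (Complex.abs_re_le_norm _).trans ?_
      rw [norm_mul, RCLike.norm_conj]
      exact mul_le_mul_of_nonneg_left (apply_le x _) (norm_nonneg _)

theorem evf_apply (n : ℕ) (u : ℂ) (x : C1) : evf n u x = (conj u * x (n : OnePoint ℕ)).re := rfl

theorem skew_val {S : C1 →L[ℝ] C1} (hS : S ∈ skew C1) {n : ℕ} {u : ℂ} (hu : ‖u‖ = 1) {x : C1}
    (hx : ‖x‖ ≤ 1) (hxn : x (n : OnePoint ℕ) = u) : (conj u * S x (n : OnePoint ℕ)).re = 0 := by
  have h1 : evf n u x = 1 := by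
    rw [evf_apply, hxn, mul_comm, Complex.mul_conj, Complex.normSq_eq_norm_sq, hu]; simp
  have h2 : ‖x‖ = 1 := by
    refine le_antisymm hx ?_
    have := apply_le x (n : OnePoint ℕ)
    rwa [hxn, hu] at this
  have h3 : ‖evf n u‖ = 1 := by
    refine le_antisymm ((LinearMap.mkContinuous_norm_le _ (norm_nonneg _) _).trans hu.le) ?_
    have := (evf n u).le_opNorm x
    rwa [h1, h2, mul_one, norm_one] at this
  exact (mem_skew.1 hS) x _ h2 h3 h1

theorem skew_vanish {S : C1 →L[ℝ] C1} (hS : S ∈ skew C1) {n : ℕ} {y : C1}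
    (hy : y (n : OnePoint ℕ) = 0) : S y (n : OnePoint ℕ) = 0 := by
  -- first for small `y`
  have key : ∀ y : C1, ‖y‖ ≤ 1 → y (n : OnePoint ℕ) = 0 → S y (n : OnePoint ℕ) = 0 := by
    intro y hy1 hy
    have h : ∀ u : ℂ, ‖u‖ = 1 → (conj u * S y (n : OnePoint ℕ)).re = 0 := by
      intro u hu
      have h1 := skew_val hS hu (x := e n u) ((norm_e_le n u).trans hu.le)
        (by rw [e_coe, if_pos rfl])
      have h2 := skew_val hS hu (x := e n u + y) (by
        refine norm_le zero_le_one fun k => ?_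
        refine OnePoint.rec ?_ ?_ k
        · rw [ContinuousMap.add_apply, e_infty, zero_add]
          exact (apply_le y _).trans hy1
        · intro m
          rw [ContinuousMap.add_apply, e_coe]
          split_ifs with hm
          · rw [hm, hy, add_zero, hu]
          · rw [zero_add]; exact (apply_le y _).trans hy1)
        (by rw [ContinuousMap.add_apply, e_coe, if_pos rfl, hy, add_zero])
      rw [map_add, ContinuousMap.add_apply, mul_add, Complex.add_re, h1, zero_add] at h2
      exact h2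
    have h1 := h 1 (by simp)
    have h2 := h Complex.I (by simp)
    apply Complex.ext
    · simpa using h1
    · simpa using h2
  have hpos : 0 < ‖y‖ + 1 := by positivity
  have h3 := key ((‖y‖ + 1)⁻¹ • y) (by
    rw [norm_smul, norm_inv, Real.norm_of_nonneg hpos.le, inv_mul_le_iff₀ hpos]
    linarith) (by rw [ContinuousMap.smul_apply, hy, smul_zero])
  rw [_root_.map_smul, ContinuousMap.smul_apply, smul_eq_zero] at h3
  rcases h3 with h3 | h3
  · exact absurd h3 (inv_pos.2 hpos).ne'
  · exact h3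

/-- the diagonal entries of a skew operator -/
theorem skew_diag {S : C1 →L[ℝ] C1} (hS : S ∈ skew C1) (x : C1) (n : ℕ) :
    S x (n : OnePoint ℕ) = (S (e n 1) (n : OnePoint ℕ)).im * Complex.I * x (n : OnePoint ℕ) := by
  have h0 : S x (n : OnePoint ℕ) = S (e n (x (n : OnePoint ℕ))) (n : OnePoint ℕ) := by
    have h1 : (x - e n (x (n : OnePoint ℕ))) (n : OnePoint ℕ) = 0 := by
      rw [ContinuousMap.sub_apply, e_coe, if_pos rfl, sub_self]
    have h2 := skew_vanish hS h1
    rw [map_sub, ContinuousMap.sub_apply, sub_eq_zero] at h2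
    exact h2
  rw [h0]
  set c := x (n : OnePoint ℕ)
  have hlin : ∀ c : ℂ, S (e n c) (n : OnePoint ℕ) = c.re * S (e n 1) (n : OnePoint ℕ) +
      c.im * S (e n Complex.I) (n : OnePoint ℕ) := by
    intro c
    have h1 : e n c = c.re • e n 1 + c.im • e n Complex.I := by
      rw [← e_smul, ← e_smul, ← e_add]
      congr 1
      conv_lhs => rw [← Complex.re_add_im c]
      simp [Complex.real_smul]
    conv_lhs => rw [h1]
    rw [map_add, _root_.map_smul, _root_.map_smul, ContinuousMap.add_apply, ContinuousMap.smul_apply,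
      ContinuousMap.smul_apply, Complex.real_smul, Complex.real_smul]
  have hval : ∀ u : ℂ, ‖u‖ = 1 → (conj u * S (e n u) (n : OnePoint ℕ)).re = 0 := fun u hu =>
    skew_val hS hu ((norm_e_le n u).trans hu.le) (by rw [e_coe, if_pos rfl])
  set P := S (e n 1) (n : OnePoint ℕ) with hP
  set Q := S (e n Complex.I) (n : OnePoint ℕ) with hQ
  have h1 : P.re = 0 := by simpa using hval 1 (by simp)
  have h2 : Q.im = 0 := by simpa [← hQ] using hval Complex.I (by simp)
  have h3 : Q.re = -P.im := by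
    have hr : √2 * √2 = 2 := Real.mul_self_sqrt (by norm_num)
    have hr0 : (0 : ℝ) < √2 := by positivity
    let u : ℂ := ⟨(√2)⁻¹, (√2)⁻¹⟩
    have hu : ‖u‖ = 1 := by
      have h4 := Complex.normSq_eq_norm_sq u
      rw [Complex.normSq_apply] at h4
      have h5 : (√2)⁻¹ * (√2)⁻¹ + (√2)⁻¹ * (√2)⁻¹ = (1 : ℝ) := by
        rw [← mul_inv, hr]; norm_num
      rw [show u.re = (√2)⁻¹ from rfl, show u.im = (√2)⁻¹ from rfl, h5] at h4
      exact (pow_eq_one_iff_of_nonneg (norm_nonneg u) two_ne_zero).1 h4.symm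
    have h4 := hval u hu
    rw [hlin u] at h4
    rw [Complex.mul_re] at h4
    simp only [Complex.conj_re, Complex.conj_im, Complex.add_re, Complex.add_im,
      Complex.mul_re, Complex.mul_im, Complex.ofReal_re, Complex.ofReal_im, h1, h2] at h4
    rw [show u.re = (√2)⁻¹ from rfl, show u.im = (√2)⁻¹ from rfl] at h4
    have h5 : (√2)⁻¹ * (√2)⁻¹ * (Q.re + P.im) = 0 := by linear_combination h4
    rw [← mul_inv, hr] at h5
    linarith
  rw [hlin c]
  apply Complex.ext
  · simp [h1, h3]; ring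
  · simp [h1, h2]; ring

theorem one_le_quotNorm_T : 1 ≤ quotNorm T := by
  apply le_csInf (nonempty_quot _)
  rintro _ ⟨S, hS, rfl⟩
  show 1 ≤ ‖T - S‖
  set b : ℕ → ℝ := fun n => (S (e n 1) (n : OnePoint ℕ)).im with hb
  -- convergence of the entries
  have hconv : Tendsto b atTop (𝓝 (S 1 ∞).im) := by
    have h1 := tendsto_coe (S 1)
    have h2 : ∀ n : ℕ, S 1 (n : OnePoint ℕ) = b n * Complex.I := by
      intro n
      have h3 := skew_diag hS 1 n
      rw [ContinuousMap.one_apply, mul_one] at h3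
      exact h3
    have h4 := (Complex.continuous_im.tendsto _).comp h1
    refine h4.congr fun n => ?_
    rw [Function.comp_apply, h2]; simp
  -- lower estimate
  have hlow : ∀ n : ℕ, ∀ s : ℝ, |s| = 1 →
      |(aa (n : OnePoint ℕ) - b n) * s + (1 / 2 - aa (n : OnePoint ℕ))| ≤ ‖T - S‖ := by
    intro n s hs
    let x : C1 := e n (s - 1) + 1
    have hx : ‖x‖ ≤ 1 := by
      refine norm_le zero_le_one fun k => ?_
      refine OnePoint.rec ?_ ?_ k
      · rw [ContinuousMap.add_apply, e_infty, ContinuousMap.one_apply]; simp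
      · intro m
        rw [ContinuousMap.add_apply, e_coe, ContinuousMap.one_apply]
        split_ifs
        · rw [sub_add_cancel, Complex.norm_real, Real.norm_eq_abs, hs]
        · simp
    have h1 := (apply_le ((T - S) x) (n : OnePoint ℕ)).trans ((T - S).le_opNorm x)
    have h2 : ‖(T - S) x (n : OnePoint ℕ)‖ ≤ ‖T - S‖ :=
      h1.trans (mul_le_of_le_one_right (norm_nonneg _) hx)
    have hxn : x (n : OnePoint ℕ) = s := by
      rw [ContinuousMap.add_apply, e_coe, if_pos rfl, ContinuousMap.one_apply, sub_add_cancel]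
    have hxi : x ∞ = 1 := by
      rw [ContinuousMap.add_apply, e_infty, ContinuousMap.one_apply, zero_add]
    have h3 : (T - S) x (n : OnePoint ℕ) =
        (((aa (n : OnePoint ℕ) - b n) * s + (1 / 2 - aa (n : OnePoint ℕ)) : ℝ) : ℂ) *
          Complex.I := by
      show T x (n : OnePoint ℕ) - S x (n : OnePoint ℕ) = _
      rw [T_apply, skew_diag hS, hxn, hxi]
      push_cast
      ring
    rw [h3, norm_mul, Complex.norm_I, mul_one, Complex.norm_real] at h2
    exact h2
  have hsub : ∀ φ : ℕ → ℕ, StrictMono φ → ∀ a : ℝ, (∀ n, aa ((φ n : ℕ) : OnePoint ℕ) = a) →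
      ∀ s : ℝ, |s| = 1 → |(a - (S 1 ∞).im) * s + (1 / 2 - a)| ≤ ‖T - S‖ := by
    intro φ hφ a ha s hs
    have h1 : Tendsto (fun n => |(a - b (φ n)) * s + (1 / 2 - a)|) atTop
        (𝓝 |(a - (S 1 ∞).im) * s + (1 / 2 - a)|) := by
      have h2 := (hconv.comp hφ.tendsto_atTop)
      exact ((((tendsto_const_nhds (x := a)).sub h2).mul_const s).add_const _).abs
    refine le_of_tendsto h1 (Eventually.of_forall fun n => ?_)
    have := hlow (φ n) s hs
    rwa [ha n] at this
  have h1 := hsub (fun n => 2 * n) (fun a b h => by show 2 * a < 2 * b; omega) 0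
    (fun n => by rw [aa_coe, if_pos (even_two_mul n)]) (-1) (by simp)
  have h2 := hsub (fun n => 2 * n + 1) (fun a b h => by show 2 * a + 1 < 2 * b + 1; omega) 1
    (fun n => by rw [aa_coe, if_neg (by simp)]) (-1) (by simp)
  have h3 := (abs_le.1 h1).2
  have h4 := (abs_le.1 h2).1
  linarith

theorem secondIndex_C1_le : secondIndex C1 ≤ 1 / 2 := by
  refine csSup_le ⟨0, zero_mem_index⟩ ?_
  rintro k ⟨hk0, hk⟩
  have h1 := hk T
  have h2 := one_le_quotNorm_T
  have h3 := numRadius_T_le
  nlinarith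

end Upper

end Q101.SecondC
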