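import Pool.Agent.Q101.SecondC

set_option autoImplicit false

open Filter Topology OnePoint
open scoped ENNReal ComplexConjugate

namespace Q101.SecondDual

open Pool.Agent.Results.MP_01d095_an.HilbertSum Q101.SecondL1 Q101.SecondC

/-- enumeration of `ℕ ∪ {∞}` -/
def kk : ℕ → OnePoint ℕ
  | 0 => ∞
  | m + 1 => (m : OnePoint ℕ)

theorem re_mul_le (y : ℂ) (x : C1) (k : OnePoint ℕ) : |(y * x k).re| ≤ ‖y‖ * ‖x‖ := by
  refine (Complex.abs_re_le_norm _).trans ?_
  rw [norm_mul]
  exact mul_le_mul_of_nonneg_left (apply_le x k) (norm_nonneg _)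

theorem summable_phi (y : L ℕ) (x : C1) : Summable fun m => (y m * x (kk m)).re :=
  Summable.of_norm_bounded ((summable_norm y).mul_right ‖x‖) fun m => re_mul_le _ _ _

/-- the functional of `y` -/
noncomputable def phi (y : L ℕ) : C1 →L[ℝ] ℝ :=
  LinearMap.mkContinuous
    { toFun := fun x => ∑' m, (y m * x (kk m)).re
      map_add' := fun x z => by
        rw [← (summable_phi y x).tsum_add (summable_phi y z)]
        refine tsum_congr fun j => ?_
        rw [ContinuousMap.add_apply, mul_add, Complex.add_re]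
      map_smul' := fun c x => by
        rw [RingHom.id_apply, smul_eq_mul, ← tsum_mul_left]
        refine tsum_congr fun j => ?_
        rw [ContinuousMap.smul_apply, Complex.real_smul, mul_left_comm, Complex.re_ofReal_mul] }
    ‖y‖ fun x => by
      rw [SecondL1.norm_eq, ← tsum_mul_right]
      exact tsum_of_norm_bounded ((summable_norm y).mul_right ‖x‖).hasSum
        fun m => re_mul_le _ _ _

theorem phi_apply (y : L ℕ) (x : C1) : phi y x = ∑' m, (y m * x (kk m)).re := rfl

theorem norm_conj_ph_le (z : ℂ) : ‖conj (ph z)‖ ≤ 1 := by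
  rw [RCLike.norm_conj]; exact norm_ph_le z

theorem mul_conj_ph (z : ℂ) : z * conj (ph z) = ‖z‖ := by rw [mul_comm]; exact conj_ph_mul z

/-- test vectors -/
noncomputable def tv (y : ℕ → ℂ) (N : ℕ) : C1 :=
  ev (fun n => if n < N then conj (ph (y (n + 1))) else conj (ph (y 0))) (conj (ph (y 0))) N
    fun n hn => if_neg (by omega)

theorem norm_tv_le (y : ℕ → ℂ) (N : ℕ) : ‖tv y N‖ ≤ 1 := by
  refine norm_le zero_le_one fun k => ?_
  refine OnePoint.rec ?_ ?_ k
  · exact norm_conj_ph_le _
  · intro m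
    show ‖(if m < N then conj (ph (y (m + 1))) else conj (ph (y 0)))‖ ≤ 1
    split_ifs <;> exact norm_conj_ph_le _

theorem norm_phi (y : L ℕ) : ‖phi y‖ = ‖y‖ := by
  refine le_antisymm (LinearMap.mkContinuous_norm_le _ (norm_nonneg _) _) ?_
  have h1 : Tendsto (fun N => phi y (tv y N)) atTop (𝓝 ‖y‖) := by
    rw [SecondL1.norm_eq]
    refine tendsto_tsum_of_dominated_convergence (summable_norm y) (fun m => ?_)
      (Eventually.of_forall fun N m => ?_)
    · refine tendsto_const_nhds.congr' ?_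
      filter_upwards [eventually_ge_atTop m] with N hN
      rcases m with _ | m
      · show ‖y 0‖ = (y 0 * conj (ph (y 0))).re
        rw [mul_conj_ph]; simp
      · show ‖y (m + 1)‖ = (y (m + 1) * (if m < N then conj (ph (y (m + 1)))
          else conj (ph (y 0)))).re
        rw [if_pos (by omega), mul_conj_ph]; simp
    · refine (re_mul_le _ _ _).trans ?_
      exact mul_le_of_le_one_right (norm_nonneg _) (norm_tv_le _ _)
  refine le_of_tendsto h1 (Eventually.of_forall fun N => ?_)
  calc phi y (tv y N) ≤ ‖phi y (tv y N)‖ := le_abs_self _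
    _ ≤ ‖phi y‖ * ‖tv y N‖ := (phi y).le_opNorm _
    _ ≤ ‖phi y‖ := mul_le_of_le_one_right (norm_nonneg _) (norm_tv_le _ _)

/-- the isometric embedding of `ℓ_1` in the dual -/
noncomputable def Phi : L ℕ →ₗᵢ[ℝ] (C1 →L[ℝ] ℝ) where
  toFun := phi
  map_add' y z := by
    ext x
    show phi (y + z) x = phi y x + phi z x
    rw [phi_apply, phi_apply, phi_apply, ← (summable_phi y x).tsum_add (summable_phi z x)]
    refine tsum_congr fun j => ?_
    rw [lp.coeFn_add, Pi.add_apply, add_mul, Complex.add_re]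
  map_smul' c y := by
    ext x
    show phi (c • y) x = c * phi y x
    rw [phi_apply, phi_apply, ← tsum_mul_left]
    refine tsum_congr fun j => ?_
    rw [lp.coeFn_smul, Pi.smul_apply, Complex.real_smul, mul_assoc, Complex.re_ofReal_mul]
  norm_map' := norm_phi

/-- a real functional on `ℂ` -/
theorem re_form {g : ℂ → ℝ} (h1 : ∀ z w, g (z + w) = g z + g w) (h2 : ∀ (c : ℝ) z, g (c • z) = c * g z)
    (z : ℂ) : (((g 1 : ℂ) - g Complex.I * Complex.I) * z).re = g z := by
  have h3 : z = z.re • (1 : ℂ) + z.im • Complex.I := by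
    conv_lhs => rw [← Complex.re_add_im z]
    simp [Complex.real_smul]
  conv_rhs => rw [h3, h1, h2, h2]
  rw [Complex.mul_re]
  simp
  ring

theorem e_sum_le (y : ℕ → ℂ) (N : ℕ) : ‖∑ n ∈ Finset.range N, e n (conj (ph (y n)))‖ ≤ 1 := by
  have hc : ∀ k : OnePoint ℕ, (∑ n ∈ Finset.range N, e n (conj (ph (y n)))) k =
      ∑ n ∈ Finset.range N, e n (conj (ph (y n))) k := fun k => by
    rw [ContinuousMap.coe_sum, Finset.sum_apply]
  refine norm_le zero_le_one fun k => ?_
  rw [hc]
  refine OnePoint.rec ?_ ?_ k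
  · simp [e_infty]
  · intro m
    simp only [e_coe]
    rw [Finset.sum_ite_eq]
    split_ifs
    · exact norm_conj_ph_le _
    · simp

theorem Phi_surjective : Function.Surjective Phi := by
  intro f
  -- the coordinates
  let y : ℕ → ℂ := fun n => (f (e n 1) : ℂ) - f (e n Complex.I) * Complex.I
  have hy : ∀ n z, (y n * z).re = f (e n z) := by
    intro n z
    refine re_form (g := fun z => f (e n z)) (fun z w => ?_) (fun c z => ?_) z
    · rw [e_add, map_add]
    · rw [e_smul, _root_.map_smul, smul_eq_mul]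
  have hsum : Summable fun n => ‖y n‖ := by
    refine summable_of_sum_range_le (c := ‖f‖) (fun _ => norm_nonneg _) fun N => ?_
    have h1 : ∑ n ∈ Finset.range N, ‖y n‖ = f (∑ n ∈ Finset.range N, e n (conj (ph (y n)))) := by
      rw [map_sum]
      refine Finset.sum_congr rfl fun n _ => ?_
      rw [← hy, mul_conj_ph, Complex.ofReal_re]
    rw [h1]
    calc f (∑ n ∈ Finset.range N, e n (conj (ph (y n)))) ≤ ‖_‖ := le_abs_self _
      _ ≤ ‖f‖ * ‖∑ n ∈ Finset.range N, e n (conj (ph (y n)))‖ := f.le_opNorm _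
      _ ≤ ‖f‖ := mul_le_of_le_one_right (norm_nonneg _) (e_sum_le _ _)
  have hs : ∀ (w : ℕ → ℂ) (K : ℝ), (∀ n, ‖w n‖ ≤ K) → Summable fun n => (y n * w n).re := by
    intro w K hw
    refine Summable.of_norm_bounded (hsum.mul_right K) fun n => ?_
    refine (Complex.abs_re_le_norm _).trans ?_
    rw [norm_mul]
    exact mul_le_mul_of_nonneg_left (hw n) (norm_nonneg _)
  -- the coordinate at infinity
  let g : ℂ → ℝ := fun z => f (ContinuousMap.const _ z) - ∑' n, (y n * z).re
  have hg1 : ∀ z w, g (z + w) = g z + g w := by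
    intro z w
    have h1 : (ContinuousMap.const (OnePoint ℕ) (z + w) : C1) =
        ContinuousMap.const _ z + ContinuousMap.const _ w := by ext; rfl
    have h2 : ∑' n, (y n * (z + w)).re = ∑' n, (y n * z).re + ∑' n, (y n * w).re := by
      rw [← (hs (fun _ => z) ‖z‖ fun _ => le_rfl).tsum_add (hs (fun _ => w) ‖w‖ fun _ => le_rfl)]
      refine tsum_congr fun n => ?_
      rw [mul_add, Complex.add_re]
    show f _ - _ = _
    rw [h1, map_add, h2]
    show _ = (f _ - _) + (f _ - _)
    ring
  have hg2 : ∀ (c : ℝ) z, g (c • z) = c * g z := by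
    intro c z
    have h1 : (ContinuousMap.const (OnePoint ℕ) (c • z) : C1) =
        c • ContinuousMap.const _ z := by ext; rfl
    have h2 : ∑' n, (y n * (c • z)).re = c * ∑' n, (y n * z).re := by
      rw [← tsum_mul_left]
      refine tsum_congr fun n => ?_
      rw [Complex.real_smul, mul_left_comm, Complex.re_ofReal_mul]
    show f _ - _ = _
    rw [h1, _root_.map_smul, smul_eq_mul, h2]
    show _ = c * (f _ - _)
    ring
  let y0 : ℂ := (g 1 : ℂ) - g Complex.I * Complex.I
  have hy0 : ∀ z, (y0 * z).re = g z := re_form hg1 hg2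
  let Y : ℕ → ℂ := fun m => Nat.casesOn m y0 y
  have hY0 : Y 0 = y0 := rfl
  have hYs : ∀ n, Y (n + 1) = y n := fun n => rfl
  have hYsum : Summable fun m => ‖Y m‖ := by
    rw [← summable_nat_add_iff 1]
    exact hsum
  refine ⟨SecondL1.mk Y hYsum, ?_⟩
  ext x
  show phi (SecondL1.mk Y hYsum) x = f x
  rw [phi_apply]
  have h1 : ∑' m, (SecondL1.mk Y hYsum m * x (kk m)).re =
      (y0 * x ∞).re + ∑' n : ℕ, (y n * x (n : OnePoint ℕ)).re := by
    rw [(summable_phi _ x).tsum_eq_zero_add]
    rfl
  rw [h1, hy0]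
  show f (ContinuousMap.const _ (x ∞)) - ∑' n, (y n * x ∞).re + _ = _
  -- the expansion of `x`
  have hd : Tendsto (fun n : ℕ => x (n : OnePoint ℕ) - x ∞) atTop (𝓝 0) := by
    have := (tendsto_coe x).sub_const (x ∞)
    rwa [sub_self] at this
  have h2 : Tendsto (fun N => ∑ n ∈ Finset.range N, e n (x (n : OnePoint ℕ) - x ∞)) atTop
      (𝓝 (x - ContinuousMap.const _ (x ∞))) := by
    rw [Metric.tendsto_atTop]
    intro ε hε
    obtain ⟨N₀, hN₀⟩ := Metric.tendsto_atTop.1 hd (ε / 2) (by positivity)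
    refine ⟨N₀, fun N hN => ?_⟩
    rw [dist_eq_norm]
    refine lt_of_le_of_lt (norm_le (K := ε / 2) (by positivity) fun k => ?_) (by linarith)
    rw [ContinuousMap.sub_apply, ContinuousMap.coe_sum, Finset.sum_apply, ContinuousMap.sub_apply,
      ContinuousMap.const_apply]
    refine OnePoint.rec ?_ ?_ k
    · simp only [e_infty]
      simp; positivity
    · intro m
      simp only [e_coe]
      rw [Finset.sum_ite_eq]
      split_ifs with h
      · simp; positivity
      · rw [zero_sub, norm_neg]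
        have := hN₀ m (by simp at h; omega)
        rw [dist_zero_right] at this
        exact this.le
  have h3 : Tendsto (fun N => ∑ n ∈ Finset.range N, (y n * (x (n : OnePoint ℕ) - x ∞)).re) atTop
      (𝓝 (f (x - ContinuousMap.const _ (x ∞)))) := by
    refine ((f.continuous.tendsto _).comp h2).congr fun N => ?_
    rw [Function.comp_apply, map_sum]
    exact Finset.sum_congr rfl fun n _ => (hy n _).symm
  have hs1 := hs (fun n => x (n : OnePoint ℕ)) ‖x‖ fun n => apply_le x _
  have hs2 := hs (fun _ => x ∞) ‖x‖ fun n => apply_le x _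
  have h4 : Tendsto (fun N => ∑ n ∈ Finset.range N, (y n * (x (n : OnePoint ℕ) - x ∞)).re) atTop
      (𝓝 (∑' n : ℕ, (y n * x (n : OnePoint ℕ)).re - ∑' n, (y n * x ∞).re)) := by
    have := (hs1.hasSum.sub hs2.hasSum).tendsto_sum_nat
    refine this.congr fun N => Finset.sum_congr rfl fun n _ => ?_
    rw [mul_sub, Complex.sub_re]
  have h5 := tendsto_nhds_unique h3 h4
  rw [map_sub] at h5
  linarith

/-- The dual of the real space of convergent complex sequences has a larger second index. -/
theorem index_dual_ge : (√2)⁻¹ ≤ secondIndex (C1 →L[ℝ] ℝ) := by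
  let E : L ℕ ≃ₗᵢ[ℝ] (C1 →L[ℝ] ℝ) := LinearIsometryEquiv.ofSurjective Phi Phi_surjective
  have _ : Nontrivial (L ℕ) := by
    refine ⟨lp.single 1 0 1, 0, fun h => ?_⟩
    have h1 := congrArg (fun z : L ℕ => z 0) h
    simp at h1
  have _ : Nontrivial (C1 →L[ℝ] ℝ) := E.symm.toEquiv.nontrivial
  refine (index_ge (J := ℕ)).trans ?_
  refine secondIndex_le_of_summand
    (E.symm : (C1 →L[ℝ] ℝ) →L[ℝ] L ℕ) (E : L ℕ →L[ℝ] (C1 →L[ℝ] ℝ)) (fun y => ?_)
    (fun y => ?_) (fun x => ?_) (fun x z hz => ?_)
  · exact E.apply_symm_apply y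
  · exact E.symm.norm_map y
  · exact (E.norm_map x).le
  · show ‖x - E.symm (E x) + E.symm z‖ = ‖x‖
    rw [E.symm_apply_apply, sub_self, zero_add, E.symm.norm_map, hz]
    exact E.norm_map x

end Q101.SecondDual
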