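import Pool.Agent.Results.MP_01d095_an.HilbertSum

set_option autoImplicit false

open Filter Topology
open scoped ENNReal ComplexConjugate

namespace Q101.SecondL1

open Pool.Agent.Results.MP_01d095_an.HilbertSum

section Growth

variable {X : Type*} [NormedAddCommGroup X] [NormedSpace ℝ X]

/-- A bound of the numerical radius by the growth of `‖x + a T x‖`. -/
theorem numRadius_le_of_growth {T : X →L[ℝ] X} {v K : ℝ} (hv : 0 ≤ v) (hK : 0 ≤ K)
    (h : ∀ (x : X) (a : ℝ), ‖x‖ = 1 → ‖x + a • T x‖ ≤ 1 + |a| * v + a ^ 2 * K) :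
    numRadius T ≤ v := by
  refine numRadius_le hv fun x φ hx hφ hφx => ?_
  have key : ∀ s : ℝ, |s| = 1 → s * φ (T x) ≤ v := by
    intro s hs
    refine le_of_forall_pos_le_add fun ε hε => ?_
    set d := ε / (K + 1) with hd
    have hd0 : 0 < d := by positivity
    have h1 := h x (s * d) hx
    have h2 : φ (x + (s * d) • T x) ≤ ‖x + (s * d) • T x‖ := by
      calc φ (x + (s * d) • T x) ≤ ‖φ (x + (s * d) • T x)‖ := le_abs_self _
        _ ≤ ‖φ‖ * ‖x + (s * d) • T x‖ := φ.le_opNorm _
        _ = _ := by rw [hφ, one_mul]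
    rw [map_add, map_smul, hφx, smul_eq_mul] at h2
    have h3 : |s * d| = d := by rw [abs_mul, hs, one_mul, abs_of_pos hd0]
    have h4 : (s * d) ^ 2 = d ^ 2 := by rw [← sq_abs, h3]
    rw [h3, h4] at h1
    have h5 : d * (s * φ (T x)) ≤ d * (v + d * K) := by nlinarith
    have h6 := le_of_mul_le_mul_left h5 hd0
    have h7 : d * K ≤ ε := by
      rw [hd, div_mul_eq_mul_div, div_le_iff₀ (by positivity)]
      nlinarith
    linarith
  rw [abs_le]
  constructor
  · have := key (-1) (by simp); linarith
  · have := key 1 (by simp); linarith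

end Growth

/-- `‖1 + i t‖ ≤ 1 + t² / 2` -/
theorem norm_one_add_I (t : ℝ) : ‖(1 : ℂ) + t * Complex.I‖ ≤ 1 + t ^ 2 / 2 := by
  have h1 : ‖(1 : ℂ) + t * Complex.I‖ ^ 2 = 1 + t ^ 2 := by
    rw [← Complex.normSq_eq_norm_sq, Complex.normSq_apply]
    simp; ring
  nlinarith [norm_nonneg ((1 : ℂ) + t * Complex.I), sq_nonneg t, sq_nonneg (t ^ 2)]

variable {J : Type}

/-- complex `ℓ_1(J)` -/
abbrev L (J : Type) : Type := lp (fun _ : J => ℂ) 1

theorem summable_norm (x : L J) : Summable fun j => ‖x j‖ := by
  have h := (lp.memℓp x).summable (by norm_num)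
  simpa using h

theorem norm_eq (x : L J) : ‖x‖ = ∑' j, ‖x j‖ := by
  have h := lp.norm_eq_tsum_rpow (p := 1) (by norm_num) x
  simpa using h

/-- constructor -/
def mk (f : J → ℂ) (h : Summable fun a => ‖f a‖) : L J :=
  ⟨f, memℓp_gen (by simpa using h)⟩

theorem norm_apply_le (x : L J) (j : J) : ‖x j‖ ≤ ‖x‖ := by
  rw [norm_eq]
  exact (summable_norm x).le_tsum j fun _ _ => norm_nonneg _

theorem re_le (w z : ℂ) (hw : ‖w‖ ≤ 1) : |(conj w * z).re| ≤ ‖z‖ := by
  refine (Complex.abs_re_le_norm _).trans ?_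
  rw [norm_mul, RCLike.norm_conj]
  exact mul_le_of_le_one_left (norm_nonneg _) hw

theorem summable_fn (w : J → ℂ) (hw : ∀ j, ‖w j‖ ≤ 1) (x : L J) :
    Summable fun j => (conj (w j) * x j).re :=
  Summable.of_norm_bounded (summable_norm x) fun j => re_le _ _ (hw j)

/-- functionals -/
noncomputable def fn (w : J → ℂ) (hw : ∀ j, ‖w j‖ ≤ 1) : L J →L[ℝ] ℝ :=
  LinearMap.mkContinuous
    { toFun := fun x => ∑' j, (conj (w j) * x j).re
      map_add' := fun x y => by
        rw [← (summable_fn w hw x).tsum_add (summable_fn w hw y)]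
        refine tsum_congr fun j => ?_
        rw [lp.coeFn_add, Pi.add_apply, mul_add, Complex.add_re]
      map_smul' := fun c x => by
        rw [RingHom.id_apply, smul_eq_mul, ← tsum_mul_left]
        refine tsum_congr fun j => ?_
        rw [lp.coeFn_smul, Pi.smul_apply, Complex.real_smul, mul_left_comm, Complex.re_ofReal_mul] }
    1 fun x => by
      rw [one_mul, norm_eq]
      exact tsum_of_norm_bounded (summable_norm x).hasSum fun j => re_le _ _ (hw j)

theorem fn_apply (w : J → ℂ) (hw : ∀ j, ‖w j‖ ≤ 1) (x : L J) :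
    fn w hw x = ∑' j, (conj (w j) * x j).re := rfl

theorem norm_fn_le (w : J → ℂ) (hw : ∀ j, ‖w j‖ ≤ 1) : ‖fn w hw‖ ≤ 1 :=
  LinearMap.mkContinuous_norm_le _ zero_le_one _

section Dec

variable [DecidableEq J]

/-- the part of the norm off the coordinate `j` -/
noncomputable def tau (j : J) (y : L J) : ℝ := ∑' k, if k = j then 0 else ‖y k‖

theorem summable_tau (j : J) (y : L J) : Summable fun k => if k = j then 0 else ‖y k‖ := by
  refine Summable.of_nonneg_of_le (fun k => ?_) (fun k => ?_) (summable_norm y)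
  · split_ifs <;> simp
  · split_ifs <;> simp

theorem norm_eq_tau (j : J) (y : L J) : ‖y‖ = ‖y j‖ + tau j y := by
  rw [norm_eq, (summable_norm y).tsum_eq_add_tsum_ite j, tau]

theorem tau_nonneg (j : J) (y : L J) : 0 ≤ tau j y :=
  tsum_nonneg fun k => by split_ifs <;> simp

theorem tau_add_le (j : J) (y z : L J) : tau j (y + z) ≤ tau j y + tau j z := by
  unfold tau
  rw [← (summable_tau j y).tsum_add (summable_tau j z)]
  refine (summable_tau j _).tsum_le_tsum (fun k => ?_) ((summable_tau j y).add (summable_tau j z))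
  split_ifs
  · simp
  · exact norm_add_le _ _

theorem tau_smul (j : J) (c : ℝ) (y : L J) : tau j (c • y) = |c| * tau j y := by
  unfold tau
  rw [← tsum_mul_left]
  refine tsum_congr fun k => ?_
  split_ifs
  · simp
  · rw [lp.coeFn_smul, Pi.smul_apply, norm_smul, Real.norm_eq_abs]

theorem tau_sub_single (j : J) (y : L J) (d : ℂ) : tau j (y - lp.single 1 j d) = tau j y := by
  unfold tau
  refine tsum_congr fun k => ?_
  split_ifs with h
  · rfl
  · rw [lp.coeFn_sub, Pi.sub_apply, lp.single_apply, Pi.single_eq_of_ne h, sub_zero]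

/-- phases: `conj (ph z) * z = ‖z‖` -/
noncomputable def ph (z : ℂ) : ℂ := if z = 0 then 0 else z / ‖z‖

theorem norm_ph_le (z : ℂ) : ‖ph z‖ ≤ 1 := by
  unfold ph
  split_ifs with h
  · simp
  · rw [norm_div, Complex.norm_real, norm_norm, div_self (norm_ne_zero_iff.2 h)]

theorem conj_ph_mul (z : ℂ) : conj (ph z) * z = ‖z‖ := by
  unfold ph
  split_ifs with h
  · simp [h]
  · have h1 : (‖z‖ : ℂ) ≠ 0 := by exact_mod_cast norm_ne_zero_iff.2 h
    rw [map_div₀, Complex.conj_ofReal, div_mul_eq_mul_div, mul_comm, Complex.mul_conj,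
      Complex.normSq_eq_norm_sq, div_eq_iff h1]
    push_cast; ring

/-- lower estimate of the numerical radius -/
theorem lower (R : L J →L[ℝ] L J) (j : J) {c : ℂ} (hc : ‖c‖ = 1) :
    |(conj c * (R (lp.single 1 j c)) j).re| + tau j (R (lp.single 1 j c)) ≤ numRadius R := by
  set y := R (lp.single 1 j c) with hy
  have key : ∀ s : ℝ, |s| = 1 → |(conj c * y j).re + s * tau j y| ≤ numRadius R := by
    intro s hs
    let w : J → ℂ := fun k => if k = j then c else s * ph (y k)
    have hw : ∀ k, ‖w k‖ ≤ 1 := by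
      intro k
      by_cases h : k = j
      · simp only [w, if_pos h]; exact hc.le
      · simp only [w, if_neg h]
        rw [norm_mul, Complex.norm_real, Real.norm_eq_abs, hs, one_mul]
        exact norm_ph_le _
    have h1 : fn w hw (lp.single 1 j c) = 1 := by
      rw [fn_apply, tsum_eq_single j]
      · rw [lp.single_apply_self]
        simp only [w, if_true]
        rw [mul_comm, Complex.mul_conj, Complex.normSq_eq_norm_sq, hc]; simp
      · intro k hk
        rw [lp.single_apply, Pi.single_eq_of_ne hk]; simp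
    have hn1 : ‖(lp.single 1 j c : L J)‖ = 1 := by
      rw [lp.norm_single (by norm_num)]; exact hc
    have h2 : ‖fn w hw‖ = 1 := by
      refine le_antisymm (norm_fn_le w hw) ?_
      have := (fn w hw).le_opNorm (lp.single 1 j c)
      rw [h1, hn1, mul_one, norm_one] at this
      exact this
    have h3 := le_numRadius R hn1 h2 h1
    have h4 : fn w hw y = (conj c * y j).re + s * tau j y := by
      rw [fn_apply, (summable_fn w hw y).tsum_eq_add_tsum_ite j, tau, ← tsum_mul_left]
      congr 1
      · simp [w]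
      · refine tsum_congr fun k => ?_
        by_cases h : k = j
        · simp [h]
        · simp only [if_neg h, w]
          rw [map_mul, Complex.conj_ofReal, mul_assoc, conj_ph_mul, ← Complex.ofReal_mul,
            Complex.ofReal_re]
    rw [← hy, h4] at h3
    exact h3
  have h1 := key 1 (by simp)
  have h2 := key (-1) (by simp)
  have h3 := tau_nonneg j y
  rcases le_total 0 (conj c * y j).re with h | h
  · rw [abs_of_nonneg h]
    have := (abs_le.1 h1).2
    linarith
  · rw [abs_of_nonpos h]
    have := (abs_le.1 h2).1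
    linarith

end Dec

/-- diagonal skew operators -/
noncomputable def dg (b : J → ℝ) (K : ℝ) (hb : ∀ j, |b j| ≤ K) : L J →L[ℝ] L J :=
  LinearMap.mkContinuous
    { toFun := fun x => mk (fun j => b j * Complex.I * x j)
        (Summable.of_nonneg_of_le (fun _ => norm_nonneg _) (fun j => by
          rw [norm_mul, norm_mul, Complex.norm_I, mul_one, Complex.norm_real]
          exact mul_le_mul_of_nonneg_right (hb j) (norm_nonneg _)) ((summable_norm x).mul_left K))
      map_add' := fun x y => by
        apply lp.ext; funext j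
        show b j * Complex.I * (x j + y j) = b j * Complex.I * x j + b j * Complex.I * y j
        ring
      map_smul' := fun c x => by
        apply lp.ext; funext j
        show b j * Complex.I * (c • x j) = c • (b j * Complex.I * x j)
        rw [Complex.real_smul, Complex.real_smul]; ring }
    K fun x => by
      rw [norm_eq, norm_eq, ← tsum_mul_left]
      refine Summable.tsum_le_tsum (fun j => ?_) (summable_norm _) ((summable_norm x).mul_left K)
      show ‖b j * Complex.I * x j‖ ≤ _
      rw [norm_mul, norm_mul, Complex.norm_I, mul_one, Complex.norm_real]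
      exact mul_le_mul_of_nonneg_right (hb j) (norm_nonneg _)

theorem dg_apply (b : J → ℝ) (K : ℝ) (hb : ∀ j, |b j| ≤ K) (x : L J) (j : J) :
    dg b K hb x j = b j * Complex.I * x j := rfl

theorem dg_skew (b : J → ℝ) (K : ℝ) (hb : ∀ j, |b j| ≤ K) : dg b K hb ∈ skew (L J) := by
  refine le_antisymm (numRadius_le_of_growth (K := K ^ 2) le_rfl (sq_nonneg K) fun x a hx => ?_)
    (numRadius_nonneg _)
  rw [mul_zero, add_zero]
  calc ‖x + a • dg b K hb x‖ = ∑' j, ‖(x + a • dg b K hb x) j‖ := norm_eq _
    _ ≤ ∑' j, (1 + a ^ 2 * K ^ 2) * ‖x j‖ := by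
        refine Summable.tsum_le_tsum (fun j => ?_) (summable_norm _) ((summable_norm x).mul_left _)
        have h1 : (x + a • dg b K hb x) j = (1 + ((a * b j : ℝ) : ℂ) * Complex.I) * x j := by
          show x j + a • (b j * Complex.I * x j) = _
          rw [Complex.real_smul]; push_cast; ring
        rw [h1, norm_mul]
        refine mul_le_mul_of_nonneg_right ((norm_one_add_I _).trans ?_) (norm_nonneg _)
        have h2 : b j ^ 2 ≤ K ^ 2 := by
          rw [← sq_abs]
          exact pow_le_pow_left₀ (abs_nonneg _) (hb j) 2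
        have h3 : (a * b j) ^ 2 ≤ a ^ 2 * K ^ 2 := by
          rw [mul_pow]; exact mul_le_mul_of_nonneg_left h2 (sq_nonneg a)
        nlinarith [sq_nonneg (a * b j)]
    _ = 1 + a ^ 2 * K ^ 2 := by rw [tsum_mul_left, ← norm_eq, hx, mul_one]

variable [DecidableEq J]

/-- the key estimate on a unit vector -/
theorem key_bound (R : L J →L[ℝ] L J) (j : J) {c : ℂ} (hc : ‖c‖ = 1) (b : ℝ)
    (hb : b = ((R (lp.single 1 j 1) j).im - (R (lp.single 1 j Complex.I) j).re) / 2) :
    ‖R (lp.single 1 j c) - lp.single 1 j (b * Complex.I * c)‖ ≤ √2 * numRadius R := by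
  have hlin : ∀ z : ℂ, R (lp.single 1 j z) = z.re • R (lp.single 1 j 1) +
      z.im • R (lp.single 1 j Complex.I) := by
    intro z
    rw [← map_smul, ← map_smul, ← map_add]
    congr 1
    rw [← lp.single_smul, ← lp.single_smul, ← lp.single_add]
    congr 1
    conv_lhs => rw [← Complex.re_add_im z]
    simp [Complex.real_smul]
  set p := (R (lp.single 1 j 1) j).re with hp
  set q := (R (lp.single 1 j 1) j).im with hq
  set s := (R (lp.single 1 j Complex.I) j).re with hs
  set t := (R (lp.single 1 j Complex.I) j).im with ht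
  have hre : ∀ z : ℂ, ((R (lp.single 1 j z)) j).re = z.re * p + z.im * s := by
    intro z
    rw [hlin z]
    show (z.re • R (lp.single 1 j 1) j + z.im • R (lp.single 1 j Complex.I) j).re = _
    simp [hp, hs]
  have him : ∀ z : ℂ, ((R (lp.single 1 j z)) j).im = z.re * q + z.im * t := by
    intro z
    rw [hlin z]
    show (z.re • R (lp.single 1 j 1) j + z.im • R (lp.single 1 j Complex.I) j).im = _
    simp [hq, ht]
  have hval : ∀ z : ℂ, (conj z * (R (lp.single 1 j z)) j).re =
      z.re * (z.re * p + z.im * s) + z.im * (z.re * q + z.im * t) := by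
    intro z
    rw [Complex.mul_re, hre, him]
    simp
  have h2 : (√2 : ℝ) * √2 = 2 := Real.mul_self_sqrt (by norm_num)
  have hs2 : (0 : ℝ) < √2 := by positivity
  set r : ℝ := (√2)⁻¹ with hr
  have hr0 : 0 < r := by positivity
  have hrr : r * r = 1 / 2 := by rw [hr, ← mul_inv, h2]; norm_num
  have hr2 : √2 * r = 1 := mul_inv_cancel₀ hs2.ne'
  have hr' : r = √2 / 2 := by
    rw [hr]; field_simp; linarith
  set x := c.re with hx
  set y := c.im with hy
  have hxy : x * x + y * y = 1 := by
    have := Complex.normSq_eq_norm_sq c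
    rw [hc, Complex.normSq_apply] at this
    simpa using this
  let c₁ : ℂ := ⟨r * (x - y), r * (x + y)⟩
  let c₂ : ℂ := ⟨r * (x + y), r * (y - x)⟩
  have hn : ∀ z : ℂ, z.re * z.re + z.im * z.im = 1 → ‖z‖ = 1 := by
    intro z hz
    have := Complex.normSq_eq_norm_sq z
    rw [Complex.normSq_apply, hz] at this
    exact (pow_eq_one_iff_of_nonneg (norm_nonneg z) two_ne_zero).1 this.symm
  have hc₁ : ‖c₁‖ = 1 := hn _ (by
    show r * (x - y) * (r * (x - y)) + r * (x + y) * (r * (x + y)) = 1
    linear_combination (2 * (x * x + y * y)) * hrr + hxy)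
  have hc₂ : ‖c₂‖ = 1 := hn _ (by
    show r * (x + y) * (r * (x + y)) + r * (y - x) * (r * (y - x)) = 1
    linear_combination (2 * (x * x + y * y)) * hrr + hxy)
  have l0 := lower R j hc
  have l1 := lower R j hc₁
  have l2 := lower R j hc₂
  rw [hval] at l0 l1 l2
  set v := numRadius R
  set T0 := tau j (R (lp.single 1 j c)) with hT0
  have htau : √2 * T0 ≤ tau j (R (lp.single 1 j c₁)) + tau j (R (lp.single 1 j c₂)) := by
    have h3 : √2 • R (lp.single 1 j c) = R (lp.single 1 j c₁) + R (lp.single 1 j c₂) := by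
      rw [← map_add, ← map_smul, ← lp.single_add, ← lp.single_smul]
      congr 2
      apply Complex.ext
      · show (√2 • c).re = r * (x - y) + r * (x + y)
        rw [Complex.smul_re, smul_eq_mul, ← hx, hr']; ring
      · show (√2 • c).im = r * (x + y) + r * (y - x)
        rw [Complex.smul_im, smul_eq_mul, ← hy, hr']; ring
    have h4 := tau_add_le j (R (lp.single 1 j c₁)) (R (lp.single 1 j c₂))
    rw [← h3, tau_smul, abs_of_pos hs2] at h4
    exact h4
  -- the skew part
  have hA : ∀ z : ℂ, ‖z‖ ^ 2 = (conj c * z).re ^ 2 + (conj c * z).im ^ 2 := by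
    intro z
    have h5 : ‖conj c * z‖ = ‖z‖ := by rw [norm_mul, RCLike.norm_conj, hc, one_mul]
    rw [← h5, ← Complex.normSq_eq_norm_sq, Complex.normSq_apply]; ring
  have hnorm : ‖R (lp.single 1 j c) - lp.single 1 j (b * Complex.I * c)‖ =
      ‖(R (lp.single 1 j c)) j - b * Complex.I * c‖ + T0 := by
    rw [norm_eq_tau j, tau_sub_single, lp.coeFn_sub, Pi.sub_apply, lp.single_apply_self]
  rw [hnorm]
  set A := (R (lp.single 1 j c)) j - b * Complex.I * c with hAdef
  have e1 : (conj c * A).re = x * (x * p + y * s) + y * (x * q + y * t) := by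
    have h6 : (conj c * A).re = (conj c * (R (lp.single 1 j c)) j).re -
        (conj c * (b * Complex.I * c)).re := by
      rw [hAdef, mul_sub, Complex.sub_re]
    have h7 : (conj c * (b * Complex.I * c)).re = 0 := by
      simp [Complex.mul_re, Complex.mul_im]; ring
    rw [h6, h7, hval]; ring
  have e2 : (conj c * A).im = x * (x * q + y * t) - y * (x * p + y * s) - b := by
    have h6 : (conj c * A).im = (conj c * (R (lp.single 1 j c)) j).im -
        (conj c * (b * Complex.I * c)).im := by
      rw [hAdef, mul_sub, Complex.sub_im]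
    have h7 : (conj c * (b * Complex.I * c)).im = b := by
      have : conj c * (b * Complex.I * c) = b * Complex.I * (c * conj c) := by ring
      rw [this, Complex.mul_conj, Complex.normSq_eq_norm_sq, hc]; simp
    rw [h6, h7, Complex.mul_im, hre, him]
    simp only [Complex.conj_re, Complex.conj_im]
    rw [← hx, ← hy]; ring
  set α := (conj c * A).re with hα
  set β := (conj c * A).im with hβ
  have e3 : 2 * β = (r * (x - y) * (r * (x - y) * p + r * (x + y) * s) +
      r * (x + y) * (r * (x - y) * q + r * (x + y) * t)) -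
      (r * (x + y) * (r * (x + y) * p + r * (y - x) * s) +
      r * (y - x) * (r * (x + y) * q + r * (y - x) * t)) := by
    rw [e2, hb]
    linear_combination (4 * x * y * p - 2 * (x * x - y * y) * s - 2 * (x * x - y * y) * q
      - 4 * x * y * t) * hrr + (q - s) * hxy
  have hl1 : |r * (x - y) * (r * (x - y) * p + r * (x + y) * s) +
      r * (x + y) * (r * (x - y) * q + r * (x + y) * t)| +
      tau j (R (lp.single 1 j c₁)) ≤ v := l1
  have hl2 : |r * (x + y) * (r * (x + y) * p + r * (y - x) * s) +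
      r * (y - x) * (r * (x + y) * q + r * (y - x) * t)| +
      tau j (R (lp.single 1 j c₂)) ≤ v := l2
  have hβ2 : 2 * |β| + √2 * T0 ≤ 2 * v := by
    have h8 : 2 * |β| = |2 * β| := by rw [abs_mul]; norm_num
    rw [h8, e3]
    have h9 := abs_sub (r * (x - y) * (r * (x - y) * p + r * (x + y) * s) +
      r * (x + y) * (r * (x - y) * q + r * (x + y) * t))
      (r * (x + y) * (r * (x + y) * p + r * (y - x) * s) +
      r * (y - x) * (r * (x + y) * q + r * (y - x) * t))
    linarith
  have hα1 : |α| + T0 ≤ v := by rw [e1]; exact l0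
  have hT : 0 ≤ T0 := tau_nonneg _ _
  have hA2 := hA A
  rw [← hα, ← hβ] at hA2
  have hsq1 : √2 ≤ 3 / 2 := by
    rw [Real.sqrt_le_left (by norm_num)]; norm_num
  have hv0 : T0 ≤ v := by linarith [abs_nonneg α]
  have hsq2 : 1 ≤ √2 := by
    rw [Real.one_le_sqrt]; norm_num
  have hfin : ‖A‖ ≤ √2 * v - T0 := by
    refine abs_le_of_sq_le_sq' ?_ ?_ |>.2
    · rw [hA2]
      have f1 : α ^ 2 ≤ (v - T0) ^ 2 := by
        rw [← sq_abs]
        exact pow_le_pow_left₀ (abs_nonneg _) (by linarith) 2
      have f2 : β ^ 2 ≤ (v - √2 * T0 / 2) ^ 2 := by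
        rw [← sq_abs]
        exact pow_le_pow_left₀ (abs_nonneg _) (by linarith) 2
      have g1 : (v - T0) ^ 2 + (v - √2 * T0 / 2) ^ 2 +
          (T0 * v * (3 / 2 - √2) + T0 * (v - T0) / 2) = (√2 * v - T0) ^ 2 := by
        linear_combination (T0 ^ 2 / 4 - v ^ 2) * h2
      have g2 : 0 ≤ T0 * v * (3 / 2 - √2) :=
        mul_nonneg (mul_nonneg hT (hT.trans hv0)) (sub_nonneg.2 hsq1)
      have g3 : 0 ≤ T0 * (v - T0) := mul_nonneg hT (sub_nonneg.2 hv0)
      linarith
    · have g4 : v ≤ √2 * v := le_mul_of_one_le_left (hT.trans hv0) hsq2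
      linarith
  linarith

/-- `n'(ℓ_1(J; ℂ)) ≥ 1/√2` for the real space `ℓ_1(J; ℂ)` -/
theorem index_ge [Nonempty J] : (√2)⁻¹ ≤ secondIndex (L J) := by
  have _ : Nontrivial (L J) := by
    obtain ⟨j⟩ := ‹Nonempty J›
    refine ⟨lp.single 1 j 1, 0, fun h => ?_⟩
    have h1 := congrArg (fun z : L J => z j) h
    simp at h1
  refine le_csSup bddAbove_index ⟨by positivity, fun R => ?_⟩
  rw [inv_mul_le_iff₀ (by positivity)]
  let b : J → ℝ := fun j =>
    ((R (lp.single 1 j 1) j).im - (R (lp.single 1 j Complex.I) j).re) / 2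
  have hb : ∀ j, |b j| ≤ ‖R‖ := by
    intro j
    have h1 : |(R (lp.single 1 j 1) j).im| ≤ ‖R‖ := by
      refine (Complex.abs_im_le_norm _).trans ((norm_apply_le _ _).trans ?_)
      refine (R.le_opNorm _).trans ?_
      rw [lp.norm_single (by norm_num)]; simp
    have h2 : |(R (lp.single 1 j Complex.I) j).re| ≤ ‖R‖ := by
      refine (Complex.abs_re_le_norm _).trans ((norm_apply_le _ _).trans ?_)
      refine (R.le_opNorm _).trans ?_
      rw [lp.norm_single (by norm_num)]; simp
    show |((R (lp.single 1 j 1) j).im - (R (lp.single 1 j Complex.I) j).re) / 2| ≤ _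
    rw [abs_div, abs_of_pos (zero_lt_two (α := ℝ)), div_le_iff₀ zero_lt_two]
    have := abs_sub ((R (lp.single 1 j 1) j).im) ((R (lp.single 1 j Complex.I) j).re)
    linarith
  refine (quotNorm_le R (dg_skew b ‖R‖ hb)).trans ?_
  refine ContinuousLinearMap.opNorm_le_bound _
    (mul_nonneg (Real.sqrt_nonneg _) (numRadius_nonneg R)) fun z => ?_
  have hterm : ∀ j, ‖(R - dg b ‖R‖ hb) (lp.single 1 j (z j))‖ ≤ √2 * numRadius R * ‖z j‖ := by
    intro j
    by_cases hz : z j = 0
    · rw [hz, lp.single_zero]; simp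
    have hz0 : (‖z j‖ : ℂ) ≠ 0 := by exact_mod_cast norm_ne_zero_iff.2 hz
    have hc : ‖z j / ‖z j‖‖ = 1 := by
      rw [norm_div, Complex.norm_real, norm_norm, div_self (norm_ne_zero_iff.2 hz)]
    have h1 : z j = ‖z j‖ • (z j / ‖z j‖) := by
      rw [Complex.real_smul, mul_div_cancel₀ _ hz0]
    have h2 : (lp.single 1 j (z j) : L J) = ‖z j‖ • (lp.single 1 j (z j / ‖z j‖) : L J) := by
      rw [← lp.single_smul]
      exact congrArg _ h1
    rw [h2, map_smul, norm_smul, norm_norm, mul_comm]
    refine mul_le_mul_of_nonneg_right ?_ (norm_nonneg _)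
    have h3 : (R - dg b ‖R‖ hb) (lp.single 1 j (z j / ‖z j‖)) =
        R (lp.single 1 j (z j / ‖z j‖)) - lp.single 1 j (b j * Complex.I * (z j / ‖z j‖)) := by
      show R _ - dg b ‖R‖ hb _ = _
      congr 1
      apply lp.ext; funext k
      rw [dg_apply, lp.single_apply, lp.single_apply]
      by_cases hk : k = j
      · subst hk; simp
      · rw [Pi.single_eq_of_ne hk, Pi.single_eq_of_ne hk, mul_zero]
    rw [h3]
    exact key_bound R j hc (b j) rfl
  have hsum := (lp.hasSum_single (by norm_num : (1 : ℝ≥0∞) ≠ ∞) z).mapL (R - dg b ‖R‖ hb)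
  rw [norm_eq z, ← tsum_mul_left]
  exact hsum.norm_le_of_bounded ((summable_norm z).mul_left _).hasSum hterm

end Q101.SecondL1
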