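import Pool.Agent.Q101.CutOff

set_option autoImplicit false
set_option linter.unusedSectionVars false

open Filter Topology

namespace Q101.SemiProj

open Q101.LatLift Q101.CutOff

universe u v

/-- `J` is a closed ideal of the Banach lattice `X`. -/
structure IsClosedIdeal {X : Type v} [NormedAddCommGroup X] [NormedSpace ℝ X] [Lattice X]
    (J : Submodule ℝ X) : Prop where
  closed : IsClosed (J : Set X)
  solid : ∀ a b : X, a ∈ J → |b| ≤ |a| → b ∈ J

/-- The bounded linear map `T` into the quotient Banach lattice `X / J`, whose modulus is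
`|[x]| = [|x|]`, is a lattice homomorphism: `T |a| = |T a|`. -/
def IsLatticeHomMod {A : Type u} {X : Type v} [NormedAddCommGroup A] [NormedSpace ℝ A] [Lattice A]
    [NormedAddCommGroup X] [NormedSpace ℝ X] [Lattice X] (J : Submodule ℝ X)
    (T : A →L[ℝ] X ⧸ J) : Prop :=
  ∀ (a : A) (x : X), (Submodule.Quotient.mk x : X ⧸ J) = T a →
    (Submodule.Quotient.mk |x| : X ⧸ J) = T |a|

section Unit

variable {X : Type v} [NormedAddCommGroup X] [NormedSpace ℝ X] [CompleteSpace X] [Lattice X]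
  [IsOrderedAddMonoid X] [IsOrderedModule ℝ X] [HasSolidNorm X]

/-- quasi-interior points of separable closed ideals -/
theorem exists_quasi {J : Submodule ℝ X} (hJ : IsClosedIdeal J)
    (hs : TopologicalSpace.IsSeparable (J : Set X)) :
    ∃ j ∈ J, 0 ≤ j ∧ ∀ x ∈ J, 0 ≤ x → ∀ ε : ℝ, 0 < ε → ∃ C : ℝ, 0 ≤ C ∧ ‖x - x ⊓ (C • j)‖ < ε := by
  have _ : TopologicalSpace.SeparableSpace J := hs.separableSpace
  let d : ℕ → J := TopologicalSpace.denseSeq J
  have hd : DenseRange d := TopologicalSpace.denseRange_denseSeq J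
  let c : ℕ → ℝ := fun n => (1 / 2) ^ n / (1 + ‖(d n : X)‖)
  have hc : ∀ n, 0 < c n := fun n => by positivity
  let z : ℕ → X := fun n => c n • |(d n : X)|
  have hz0 : ∀ n, 0 ≤ z n := fun n => smul_nonneg (hc n).le (abs_nonneg _)
  have hzJ : ∀ n, z n ∈ J := fun n =>
    J.smul_mem _ (hJ.solid _ _ (d n).2 (abs_abs _).le)
  have hzn : ∀ n, ‖z n‖ ≤ (1 / 2) ^ n := by
    intro n
    rw [norm_smul, Real.norm_of_nonneg (hc n).le, norm_abs_eq_norm, div_mul_eq_mul_div,
      div_le_iff₀ (by positivity)]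
    gcongr
    linarith
  have hzs : Summable z := Summable.of_norm_bounded
    (summable_geometric_of_lt_one (by norm_num) (by norm_num)) hzn
  refine ⟨∑' n, z n, ?_, hzs.hasSum.nonneg hz0, fun x hxJ hx ε hε => ?_⟩
  · exact hJ.closed.mem_of_tendsto hzs.hasSum (Eventually.of_forall fun s =>
      J.sum_mem fun n _ => hzJ n)
  · obtain ⟨n, hn⟩ := Metric.denseRange_iff.1 hd ⟨x, hxJ⟩ ε hε
    have hn' : ‖x - d n‖ < ε := by
      rw [← dist_eq_norm]; exact hn
    refine ⟨(c n)⁻¹, (inv_pos.2 (hc n)).le, lt_of_le_of_lt ?_ hn'⟩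
    have h1 : |(d n : X)| ≤ (c n)⁻¹ • ∑' n, z n := by
      have h2 : z n ≤ ∑' n, z n := hzs.le_tsum n fun m _ => hz0 m
      have h3 := smul_le_smul_of_nonneg_left h2 (inv_pos.2 (hc n)).le
      have h4 : (c n)⁻¹ • z n = |(d n : X)| := by
        show (c n)⁻¹ • c n • |(d n : X)| = _
        rw [smul_smul, inv_mul_cancel₀ (hc n).ne', one_smul]
      rwa [h4] at h3
    refine HasSolidNorm.solid ?_
    rw [abs_of_nonneg (sub_nonneg.2 inf_le_left)]
    calc x - x ⊓ ((c n)⁻¹ • ∑' n, z n) ≤ x - x ⊓ |(d n : X)| :=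
          sub_le_sub_left (inf_le_inf_left _ h1) _
      _ ≤ |x - d n| := by
          rw [sub_le_iff_le_add, ← sub_le_iff_le_add']
          refine le_inf ?_ ?_
          · rw [sub_le_iff_le_add]; exact le_add_of_nonneg_right (abs_nonneg _)
          · rw [sub_le_iff_le_add]
            calc x = |x| := (abs_of_nonneg hx).symm
              _ = |(d n : X) + (x - d n)| := by congr 1; abel
              _ ≤ |(d n : X)| + |x - d n| := abs_add_le _ _

end Unit

section Separable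

variable {A : Type u} [NormedAddCommGroup A] [NormedSpace ℝ A] [Lattice A]
  {X : Type v} [NormedAddCommGroup X] [NormedSpace ℝ X] [CompleteSpace X] [Lattice X]
  [IsOrderedAddMonoid X] [IsOrderedModule ℝ X] [HasSolidNorm X]

theorem F_anti {u' v' w' : X} (hu : IsUnit' u') (h : v' ≤ w') (x : X)
    (hx : F u' v' hu x = 0) : F u' w' hu x = 0 := by
  have h1 : |F u' w' hu x| ≤ |F u' v' hu x| := by
    rw [← F_abs, ← F_abs, F_of_nonneg hu (abs_nonneg x), F_of_nonneg hu (abs_nonneg x)]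
    exact M_anti_v (abs_nonneg x) h hu
  have h2 := HasSolidNorm.solid h1
  rw [hx, norm_zero] at h2
  exact norm_eq_zero.1 (le_antisymm h2 (norm_nonneg _))

theorem ker_ideal {u' v' : X} (hu : IsUnit' u') :
    IsClosedIdeal (LinearMap.ker (F u' v' hu : X →ₗ[ℝ] X)) where
  closed := (F u' v' hu).isClosed_ker
  solid a b ha hb := by
    have ha' : F u' v' hu a = 0 := ha
    show F u' v' hu b = 0
    have h1 : |F u' v' hu b| ≤ |F u' v' hu a| := by
      rw [← F_abs, ← F_abs, F_of_nonneg hu (abs_nonneg a), F_of_nonneg hu (abs_nonneg b)]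
      exact M_mono (abs_nonneg b) hb hu
    have h2 := HasSolidNorm.solid h1
    rw [ha', norm_zero] at h2
    exact norm_eq_zero.1 (le_antisymm h2 (norm_nonneg _))

/-- descending the cut-off to the quotient by its kernel -/
theorem exists_descend {F : X →L[ℝ] X} (hF : ∀ x, ‖F x‖ ≤ ‖x‖) {I : Submodule ℝ X}
    (hI : ∀ x ∈ I, F x = 0) :
    ∃ G : X ⧸ I →L[ℝ] X, (∀ x : X, G (Submodule.Quotient.mk x) = F x) ∧ ‖G‖ ≤ 1 := by
  let G0 : X ⧸ I →ₗ[ℝ] X := I.liftQ (F : X →ₗ[ℝ] X) (fun x hx => hI x hx)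
  have hG0 : ∀ x : X, G0 (Submodule.Quotient.mk x) = F x := fun x => rfl
  have hb : ∀ z, ‖G0 z‖ ≤ 1 * ‖z‖ := by
    intro z
    rw [one_mul]
    refine le_of_forall_pos_le_add fun ε hε => ?_
    obtain ⟨x, rfl, hx⟩ := Submodule.Quotient.norm_mk_lt z hε
    rw [hG0]
    exact (hF x).trans hx.le
  exact ⟨G0.mkContinuous 1 hb, hG0, LinearMap.mkContinuous_norm_le _ zero_le_one _⟩

omit [CompleteSpace X] [HasSolidNorm X] in
theorem abs_smul' {c : ℝ} (hc : 0 ≤ c) (x : X) : |c • x| = c • |x| := by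
  rcases hc.eq_or_lt with rfl | hc
  · simp
  · have h1 : ∀ {c : ℝ}, 0 < c → ∀ x : X, |c • x| ≤ c • |x| := by
      intro c hc x
      refine abs_le'.2 ⟨smul_le_smul_of_nonneg_left (le_abs_self x) hc.le, ?_⟩
      rw [← smul_neg]
      exact smul_le_smul_of_nonneg_left (neg_le_abs x) hc.le
    refine le_antisymm (h1 hc x) ?_
    have h2 := h1 (inv_pos.2 hc) (c • x)
    rw [smul_smul, inv_mul_cancel₀ hc.ne', one_smul] at h2
    have h3 := smul_le_smul_of_nonneg_left h2 hc.le
    rwa [smul_smul, mul_inv_cancel₀ hc.ne', one_smul] at h3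

end Separable

/-- `A` is semiprojective, the test spaces ranging over the universe `v`. -/
def IsSemiprojective (A : Type u) [NormedAddCommGroup A] [NormedSpace ℝ A] [Lattice A] : Prop :=
  ∀ (B : Type v) [NormedAddCommGroup B] [NormedSpace ℝ B] [CompleteSpace B]
    [TopologicalSpace.SeparableSpace B] [Lattice B] [IsOrderedAddMonoid B] [IsOrderedModule ℝ B]
    [HasSolidNorm B] (I : Submodule ℝ B) (In : ℕ → Submodule ℝ B),
    IsClosedIdeal I → (∀ n, IsClosedIdeal (In n)) → Monotone In →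
    (I : Set B) = closure (⋃ n, (In n : Set B)) →
    ∀ φ : A →L[ℝ] B ⧸ I, IsLatticeHomMod I φ → ‖φ‖ ≤ 1 →
      ∃ n, ∀ ε : ℝ, 0 < ε → ∃ ψ : A →L[ℝ] B ⧸ In n, IsLatticeHomMod (In n) ψ ∧
        (∀ (a : A) (b : B), (Submodule.Quotient.mk b : B ⧸ In n) = ψ a →
          (Submodule.Quotient.mk b : B ⧸ I) = φ a) ∧ ‖ψ‖ ≤ 1 + ε

/-- `A` is `1⁺`-projective, the test spaces ranging over the universe `v`. -/
def IsOnePlusProjective (A : Type u) [NormedAddCommGroup A] [NormedSpace ℝ A] [Lattice A] :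
    Prop :=
  ∀ (X : Type v) [NormedAddCommGroup X] [NormedSpace ℝ X] [CompleteSpace X] [Lattice X]
    [IsOrderedAddMonoid X] [IsOrderedModule ℝ X] [HasSolidNorm X] (J : Submodule ℝ X),
    IsClosedIdeal J → ∀ T : A →L[ℝ] X ⧸ J, IsLatticeHomMod J T → ∀ ε : ℝ, 0 < ε →
      ∃ T' : A →L[ℝ] X, (∀ a, T' |a| = |T' a|) ∧
        (∀ a, (Submodule.Quotient.mk (T' a) : X ⧸ J) = T a) ∧ ‖T'‖ ≤ (1 + ε) * ‖T‖

section Main

variable {A : Type u} [NormedAddCommGroup A] [NormedSpace ℝ A] [Lattice A]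
  {X : Type v} [NormedAddCommGroup X] [NormedSpace ℝ X] [CompleteSpace X] [Lattice X]
  [IsOrderedAddMonoid X] [IsOrderedModule ℝ X] [HasSolidNorm X]

/-- lifting contractions when `X` is separable -/
theorem lift_separable_one [TopologicalSpace.SeparableSpace X] (hA : IsSemiprojective.{u, v} A)
    {J : Submodule ℝ X} (hJ : IsClosedIdeal J) {T : A →L[ℝ] X ⧸ J} (hT : IsLatticeHomMod J T)
    (hT1 : ‖T‖ ≤ 1) {ε : ℝ} (hε : 0 < ε) :
    ∃ T' : A →L[ℝ] X, (∀ a, T' |a| = |T' a|) ∧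
        (∀ a, (Submodule.Quotient.mk (T' a) : X ⧸ J) = T a) ∧ ‖T'‖ ≤ 1 + ε := by
  -- quasi-interior points
  have htop : IsClosedIdeal (⊤ : Submodule ℝ X) := ⟨isClosed_univ, fun _ _ _ _ => trivial⟩
  obtain ⟨w, -, hw0, hw⟩ := exists_quasi htop
    (TopologicalSpace.IsSeparable.of_separableSpace (Set.univ : Set X))
  have hu : IsUnit' w := ⟨hw0, fun x hx ε hε => hw x trivial hx ε hε⟩
  obtain ⟨j, hjJ, hj0, hj⟩ := exists_quasi hJ
    (TopologicalSpace.IsSeparable.of_separableSpace (J : Set X))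
  let v' : ℕ → X := fun n => ((n : ℝ) + 1) • j
  have hvJ : ∀ n, v' n ∈ J := fun n => J.smul_mem _ hjJ
  have hv0 : ∀ n, 0 ≤ v' n := fun n => smul_nonneg (by positivity) hj0
  have hvm : Monotone v' := fun m n h => by
    refine smul_le_smul_of_nonneg_right ?_ hj0
    have : (m : ℝ) ≤ n := by exact_mod_cast h
    linarith
  let In : ℕ → Submodule ℝ X := fun n => LinearMap.ker (F w (v' n) hu : X →ₗ[ℝ] X)
  have hIn : ∀ n (x : X), x ∈ In n ↔ F w (v' n) hu x = 0 := fun n x => Iff.rfl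
  have hInJ : ∀ n, ∀ x ∈ In n, x ∈ J := by
    intro n x hx
    have h1 := F_mod hu (hv0 n) hJ.closed hJ.solid (hvJ n) x
    rw [(hIn n x).1 hx, sub_zero] at h1
    exact h1
  have hmono : Monotone In := fun m n h x hx => F_anti hu (hvm h) x hx
  have hclos : (J : Set X) = closure (⋃ n, (In n : Set X)) := by
    refine Set.Subset.antisymm ?_ ?_
    · -- positive elements of `J` are approximated
      have key : ∀ y ∈ J, 0 ≤ y → ∀ ε : ℝ, 0 < ε → ∃ n, ∃ z ∈ In n, ‖y - z‖ < ε := by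
        intro y hy hy0 ε hε
        obtain ⟨C, hC, hCy⟩ := hj y hy hy0 (ε / 2) (by positivity)
        obtain ⟨n, hn⟩ := exists_nat_gt (C * ‖w‖ / (ε / 2))
        have hn1 : (0 : ℝ) < (n : ℝ) + 1 := by positivity
        refine ⟨n, (y ⊓ (C • j) - (C / ((n : ℝ) + 1)) • w) ⊔ 0, ?_, ?_⟩
        · rw [hIn]
          refine F_kill hu (c := C / ((n : ℝ) + 1)) (by positivity) ?_
          rw [abs_of_nonneg le_sup_right]
          refine sup_le ?_ (smul_nonneg (by positivity) le_sup_right)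
          refine le_trans ?_ (smul_le_smul_of_nonneg_left le_sup_left (by positivity))
          rw [smul_sub]
          refine sub_le_sub_right ?_ _
          show _ ≤ (C / ((n : ℝ) + 1)) • (((n : ℝ) + 1) • j)
          rw [smul_smul, div_mul_cancel₀ _ hn1.ne']
          exact inf_le_right
        · have h1 : ‖y ⊓ (C • j) - ((y ⊓ (C • j) - (C / ((n : ℝ) + 1)) • w) ⊔ 0)‖ ≤
              ‖(C / ((n : ℝ) + 1)) • w‖ := by
            refine HasSolidNorm.solid ?_
            have hp : 0 ≤ y ⊓ (C • j) := le_inf hy0 (smul_nonneg hC hj0)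
            have hq : 0 ≤ (C / ((n : ℝ) + 1)) • w := smul_nonneg (by positivity) hw0
            have h2 : (y ⊓ (C • j) - (C / ((n : ℝ) + 1)) • w) ⊔ 0 ≤ y ⊓ (C • j) :=
              sup_le (sub_le_self _ hq) hp
            rw [abs_of_nonneg (sub_nonneg.2 h2), abs_of_nonneg hq, sub_le_comm]
            exact le_sup_left
          have h3 : ‖(C / ((n : ℝ) + 1)) • w‖ < ε / 2 := by
            rw [norm_smul, Real.norm_of_nonneg (by positivity), div_mul_eq_mul_div,
              div_lt_iff₀ hn1]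
            rw [div_lt_iff₀ (by positivity)] at hn
            nlinarith
          have h4 : y - (y ⊓ (C • j) - (C / ((n : ℝ) + 1)) • w) ⊔ 0 = (y - y ⊓ (C • j)) +
              (y ⊓ (C • j) - ((y ⊓ (C • j) - (C / ((n : ℝ) + 1)) • w) ⊔ 0)) := by abel
          rw [h4]
          refine (norm_add_le _ _).trans_lt ?_
          linarith
      intro y hy
      rw [Metric.mem_closure_iff]
      intro ε hε
      have hyJ : y ∈ J := hy
      have hp : y ⊔ 0 ∈ J := hJ.solid y _ hyJ (by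
        rw [abs_of_nonneg le_sup_right]; exact sup_le (le_abs_self y) (abs_nonneg y))
      have hq : -y ⊔ 0 ∈ J := hJ.solid y _ hyJ (by
        rw [abs_of_nonneg le_sup_right]; exact sup_le (neg_le_abs y) (abs_nonneg y))
      obtain ⟨m, z, hz, hz'⟩ := key _ hp le_sup_right (ε / 2) (by positivity)
      obtain ⟨n, z', hzn, hzn'⟩ := key _ hq le_sup_right (ε / 2) (by positivity)
      refine ⟨z - z', Set.mem_iUnion.2 ⟨max m n, (In (max m n)).sub_mem
        (hmono (le_max_left m n) hz) (hmono (le_max_right m n) hzn)⟩, ?_⟩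
      rw [dist_eq_norm]
      have h1 : y = (y ⊔ 0) - (-y ⊔ 0) := (posPart_sub_negPart y).symm
      have h2 : y - (z - z') = ((y ⊔ 0) - z) - ((-y ⊔ 0) - z') := by
        nth_rewrite 1 [h1]; abel
      rw [h2]
      refine (norm_sub_le _ _).trans_lt ?_
      linarith
    · refine closure_minimal (Set.iUnion_subset fun n x hx => hInJ n x hx) hJ.closed
  obtain ⟨n, hn⟩ := hA X J In hJ (fun n => ker_ideal hu) hmono hclos T hT hT1
  obtain ⟨ψ, hψ, hψT, hψn⟩ := hn ε hε
  obtain ⟨G, hG, hGn⟩ := exists_descend (norm_F_le w (v' n) hu) (I := In n) (fun x hx => hx)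
  refine ⟨G.comp ψ, fun a => ?_, fun a => ?_, ?_⟩
  · obtain ⟨x, hx⟩ := Submodule.Quotient.mk_surjective _ (ψ a)
    have h1 := hψ a x hx
    show G (ψ |a|) = |G (ψ a)|
    rw [← h1, ← hx, hG, hG, F_abs]
  · obtain ⟨x, hx⟩ := Submodule.Quotient.mk_surjective _ (ψ a)
    have h1 := hψT a x hx
    show (Submodule.Quotient.mk (G (ψ a)) : X ⧸ J) = T a
    rw [← hx, hG, ← h1, Submodule.Quotient.eq, ← neg_mem_iff, neg_sub]
    exact F_mod hu (hv0 n) hJ.closed hJ.solid (hvJ n) x
  · refine (ContinuousLinearMap.opNorm_comp_le _ _).trans ?_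
    have := norm_nonneg ψ
    nlinarith [norm_nonneg G]

/-- lifting when `X` is separable -/
theorem lift_separable [TopologicalSpace.SeparableSpace X] (hA : IsSemiprojective.{u, v} A)
    {J : Submodule ℝ X} (hJ : IsClosedIdeal J) {T : A →L[ℝ] X ⧸ J} (hT : IsLatticeHomMod J T)
    {ε : ℝ} (hε : 0 < ε) :
    ∃ T' : A →L[ℝ] X, (∀ a, T' |a| = |T' a|) ∧
        (∀ a, (Submodule.Quotient.mk (T' a) : X ⧸ J) = T a) ∧ ‖T'‖ ≤ (1 + ε) * ‖T‖ := by
  rcases (norm_nonneg T).eq_or_lt with h | h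
  · have hT0 : ∀ a, T a = 0 := by
      intro a
      have h1 := T.le_opNorm a
      rw [← h, zero_mul] at h1
      have h2 : ‖T a‖ = 0 := le_antisymm h1 (norm_nonneg _)
      have _ : IsClosed (J : Set X) := hJ.closed
      exact norm_eq_zero.1 h2
    refine ⟨0, fun a => by simp, fun a => ?_, by simp [← h]⟩
    rw [hT0]; rfl
  · set c := ‖T‖ with hc
    have h1 : IsLatticeHomMod J (c⁻¹ • T) := by
      intro a x hx
      have h2 : (Submodule.Quotient.mk (c • x) : X ⧸ J) = T a := by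
        rw [Submodule.Quotient.mk_smul, hx]
        show c • (c⁻¹ • T a) = T a
        rw [smul_smul, mul_inv_cancel₀ h.ne', one_smul]
      have h3 := hT a _ h2
      rw [abs_smul' h.le] at h3
      show _ = c⁻¹ • T |a|
      rw [← h3, Submodule.Quotient.mk_smul, smul_smul, inv_mul_cancel₀ h.ne', one_smul]
    have h2 : ‖c⁻¹ • T‖ ≤ 1 := by
      refine ContinuousLinearMap.opNorm_le_bound _ zero_le_one fun a => ?_
      show ‖c⁻¹ • T a‖ ≤ _
      rw [norm_smul, norm_inv, Real.norm_of_nonneg h.le, one_mul, inv_mul_le_iff₀ h]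
      exact T.le_opNorm a
    obtain ⟨T', hT'1, hT'2, hT'3⟩ := lift_separable_one hA hJ h1 h2 hε
    refine ⟨c • T', fun a => ?_, fun a => ?_, ?_⟩
    · show c • T' |a| = |c • T' a|
      rw [hT'1, abs_smul' h.le]
    · show (Submodule.Quotient.mk (c • T' a) : X ⧸ J) = T a
      rw [Submodule.Quotient.mk_smul, hT'2]
      show c • (c⁻¹ • T a) = T a
      rw [smul_smul, mul_inv_cancel₀ h.ne', one_smul]
    · rw [norm_smul, Real.norm_of_nonneg h.le, mul_comm]
      exact mul_le_mul_of_nonneg_right hT'3 h.le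

end Main

end Q101.SemiProj
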