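import Mathlib
import Pool.Agent.Q101.SemiProj

/-!
# Semiprojective separable Banach lattices are `1⁺`-projective: the non-separable test spaces
-/

namespace Q101.SemiProj

universe u v

open TopologicalSpace

section Sub

variable {X : Type v} [NormedAddCommGroup X] [NormedSpace ℝ X] [Lattice X]

/-- closed vector sublattices -/
structure IsClosedSublattice (B : Submodule ℝ X) : Prop where
  closed : IsClosed (B : Set X)
  abs : ∀ x ∈ B, |x| ∈ B

variable [IsOrderedAddMonoid X] [IsOrderedModule ℝ X]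

/-- the lattice structure of a closed vector sublattice -/
@[reducible] def subLat (B : Submodule ℝ X) (h : IsClosedSublattice B) : Lattice B :=
  Subtype.lattice (P := fun x => x ∈ B)
    (fun {x y} hx hy => by
      rw [sup_eq_half_smul_add_add_abs_sub' ℝ]
      exact B.smul_mem _ (B.add_mem (B.add_mem hx hy) (h.abs _ (B.sub_mem hy hx))))
    (fun {x y} hx hy => by
      rw [inf_eq_half_smul_add_sub_abs_sub' ℝ]
      exact B.smul_mem _ (B.sub_mem (B.add_mem hx hy) (h.abs _ (B.sub_mem hy hx))))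

/-- the steps of the construction of the sublattice generated by `s` -/
def step (s : Set X) : ℕ → Submodule ℝ X
  | 0 => Submodule.span ℝ s
  | n + 1 => Submodule.span ℝ ((step s n : Set X) ∪ (fun x : X => |x|) '' (step s n : Set X))

theorem exists_sublattice [HasSolidNorm X] {s : Set X} (hs : IsSeparable s) :
    ∃ B : Submodule ℝ X, IsClosedSublattice B ∧ s ⊆ B ∧ IsSeparable (B : Set X) := by
  let W : ℕ → Submodule ℝ X := step s
  have hWs : ∀ n, W (n + 1) =
      Submodule.span ℝ ((W n : Set X) ∪ (fun x : X => |x|) '' (W n : Set X)) :=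
    fun n => rfl
  have hc : Continuous (fun x : X => |x|) :=
    (LipschitzWith.of_dist_le_mul (K := 1) (fun x y => by
      rw [dist_eq_norm, dist_eq_norm, NNReal.coe_one, one_mul]
      exact norm_abs_sub_abs x y)).continuous
  have hWm : Monotone W := monotone_nat_of_le_succ fun n => by
    rw [hWs]
    exact fun x hx => Submodule.subset_span (Or.inl hx)
  have hsep : ∀ n, IsSeparable (W n : Set X) := by
    intro n
    induction n with
    | zero => exact hs.span
    | succ n ih =>
      rw [hWs]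
      exact (ih.union (ih.image hc)).span
  have hV : ((⨆ n, W n : Submodule ℝ X) : Set X) = ⋃ n, (W n : Set X) :=
    Submodule.coe_iSup_of_directed W hWm.directed_le
  have hVabs : ∀ x ∈ (⨆ n, W n : Submodule ℝ X), |x| ∈ (⨆ n, W n : Submodule ℝ X) := by
    intro x hx
    rw [← SetLike.mem_coe, hV, Set.mem_iUnion] at hx ⊢
    obtain ⟨n, hn⟩ := hx
    refine ⟨n + 1, ?_⟩
    rw [hWs]
    exact Submodule.subset_span (Or.inr ⟨x, hn, rfl⟩)
  refine ⟨(⨆ n, W n).topologicalClosure, ⟨Submodule.isClosed_topologicalClosure _, ?_⟩, ?_, ?_⟩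
  · intro x hx
    exact map_mem_closure hc hx hVabs
  · intro x hx
    refine Submodule.le_topologicalClosure _ ?_
    exact (le_iSup W 0) (Submodule.subset_span hx)
  · rw [Submodule.topologicalClosure_coe, hV]
    exact (IsSeparable.iUnion hsep).closure

end Sub

section Main

variable {A : Type u} [NormedAddCommGroup A] [NormedSpace ℝ A] [Lattice A] [SeparableSpace A]

theorem isOnePlusProjective (hA : IsSemiprojective.{u, v} A) : IsOnePlusProjective.{u, v} A := by
  intro X _ _ _ _ _ _ _ J hJ T hT ε hε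
  have hcl : IsClosed (J : Set X) := hJ.closed
  -- a dense countable subgroup of `A`
  let d : ℕ → A := denseSeq A
  let φ : (ℕ →₀ ℤ) →+ A := (Finsupp.linearCombination ℤ d).toAddMonoidHom
  have hφ : ∀ a : A, a ∈ closure (Set.range φ) := by
    intro a
    refine closure_mono ?_ (denseRange_denseSeq A a)
    rintro _ ⟨n, rfl⟩
    exact ⟨Finsupp.single n 1, by simp [φ, d]⟩
  -- almost optimal liftings
  have hex : ∀ (f : ℕ →₀ ℤ) (k : ℕ), ∃ x : X, (Submodule.Quotient.mk x : X ⧸ J) = T (φ f) ∧
      ‖x‖ ≤ (1 + 1 / ((k : ℝ) + 1)) * ‖T (φ f)‖ := by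
    intro f k
    rcases (norm_nonneg (T (φ f))).eq_or_lt with h | h
    · refine ⟨0, ?_, ?_⟩
      · rw [norm_eq_zero.1 h.symm]; rfl
      · rw [norm_zero]; positivity
    · obtain ⟨x, hx, hx'⟩ := Submodule.Quotient.norm_mk_lt (S := J) (T (φ f))
        (ε := 1 / ((k : ℝ) + 1) * ‖T (φ f)‖) (by positivity)
      exact ⟨x, hx, by rw [one_add_mul]; exact hx'.le⟩
  choose x hx hxn using hex
  have hs : IsSeparable (Set.range fun p : (ℕ →₀ ℤ) × ℕ => x p.1 p.2) :=
    (Set.countable_range _).isSeparable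
  obtain ⟨B, hB, hsB, hBsep⟩ := exists_sublattice hs
  letI : Lattice B := subLat B hB
  haveI : IsOrderedAddMonoid B :=
    { add_le_add_left := fun a b h c => by
        have h' : (a : X) ≤ b := h
        show (a : X) + c ≤ b + c
        exact add_le_add_left h' _ }
  haveI : IsOrderedModule ℝ B :=
    { smul_le_smul_of_nonneg_left := fun c hc a b h => by
        have h' : (a : X) ≤ b := h
        show c • (a : X) ≤ c • (b : X)
        exact smul_le_smul_of_nonneg_left h' hc
      smul_le_smul_of_nonneg_right := fun a ha c c' h => by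
        have h' : (0 : X) ≤ a := ha
        show c • (a : X) ≤ c' • (a : X)
        exact smul_le_smul_of_nonneg_right h h' }
  have habs : ∀ b : B, ((|b| : B) : X) = |(b : X)| := fun b => rfl
  haveI : HasSolidNorm B :=
    { solid := fun a b h => by
        have h' : |(a : X)| ≤ |(b : X)| := h
        show ‖(a : X)‖ ≤ ‖(b : X)‖
        exact HasSolidNorm.solid h' }
  haveI : CompleteSpace B := hB.closed.completeSpace_coe
  haveI : SeparableSpace B := hBsep.separableSpace
  -- the quotient map restricted to `B`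
  let f : NormedAddGroupHom B (X ⧸ J) :=
    { toFun := fun b => Submodule.Quotient.mk (b : X)
      map_add' := fun a b => by simp
      bound' := ⟨1, fun b => by
        rw [one_mul]
        exact Submodule.Quotient.norm_mk_le _ _⟩ }
  have hf : ∀ b : B, f b = Submodule.Quotient.mk (b : X) := fun b => rfl
  let K : AddSubgroup (X ⧸ J) := ((T : A →+ X ⧸ J).comp φ).range
  have hK : ∀ a, T a ∈ K.topologicalClosure := by
    intro a
    refine map_mem_closure T.continuous (hφ a) ?_
    rintro _ ⟨g, rfl⟩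
    exact ⟨g, rfl⟩
  have hsurj : ∀ k : ℕ, f.SurjectiveOnWith K (1 + 1 / ((k : ℝ) + 1)) := by
    rintro k _ ⟨g, rfl⟩
    exact ⟨⟨x g k, hsB ⟨(g, k), rfl⟩⟩, hx g k, hxn g k⟩
  have hlift : ∀ a : A, ∀ δ : ℝ, 0 < δ → ∃ b : B, (Submodule.Quotient.mk (b : X) : X ⧸ J) = T a ∧
      ‖b‖ ≤ (1 + δ) * ‖T a‖ := by
    intro a δ hδ
    obtain ⟨k, hk⟩ := exists_nat_one_div_lt (show (0 : ℝ) < δ / 2 by positivity)
    obtain ⟨b, hb, hb'⟩ := controlled_closure_of_complete (C := 1 + 1 / ((k : ℝ) + 1))
      (ε := δ / 2) (by positivity) (by positivity) (hsurj k) (T a) (hK a)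
    refine ⟨b, hb, hb'.trans ?_⟩
    exact mul_le_mul_of_nonneg_right (by linarith) (norm_nonneg _)
  -- the restricted problem
  let I : Submodule ℝ B := J.comap B.subtype
  have hmI : ∀ b : B, b ∈ I ↔ (b : X) ∈ J := fun b => Iff.rfl
  have hI : IsClosedIdeal I :=
    ⟨hJ.closed.preimage continuous_subtype_val, fun a b ha h => hJ.solid (a : X) b ha h⟩
  have hmk : ∀ a b : B, (Submodule.Quotient.mk a : B ⧸ I) = Submodule.Quotient.mk b ↔
      (Submodule.Quotient.mk (a : X) : X ⧸ J) = Submodule.Quotient.mk (b : X) := by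
    intro a b
    rw [Submodule.Quotient.eq, Submodule.Quotient.eq, hmI]
    rfl
  choose y hy using fun a => hlift a 1 one_pos
  let T0 : A →ₗ[ℝ] B ⧸ I :=
    { toFun := fun a => Submodule.Quotient.mk (y a)
      map_add' := fun a b => by
        rw [← Submodule.Quotient.mk_add, hmk, Submodule.coe_add, Submodule.Quotient.mk_add,
          (hy _).1, (hy _).1, (hy _).1, map_add]
      map_smul' := fun c a => by
        rw [RingHom.id_apply, ← Submodule.Quotient.mk_smul, hmk, Submodule.coe_smul,
          Submodule.Quotient.mk_smul, (hy _).1, (hy _).1, map_smul] }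
  have hT0 : ∀ (a : A) (b : B), (Submodule.Quotient.mk b : B ⧸ I) = T0 a ↔
      (Submodule.Quotient.mk (b : X) : X ⧸ J) = T a := by
    intro a b
    show Submodule.Quotient.mk b = Submodule.Quotient.mk (y a) ↔ _
    rw [hmk, (hy a).1]
  have hT0n : ∀ a, ‖T0 a‖ ≤ ‖T‖ * ‖a‖ := by
    intro a
    refine le_trans ?_ (T.le_opNorm a)
    refine le_of_forall_pos_le_add fun δ hδ => ?_
    obtain ⟨b, hb, hb'⟩ := hlift a (δ / (‖T a‖ + 1)) (by positivity)
    rw [← (hT0 a b).2 hb]
    refine (Submodule.Quotient.norm_mk_le _ _).trans (hb'.trans ?_)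
    rw [one_add_mul]
    have h1 : δ / (‖T a‖ + 1) * ‖T a‖ ≤ δ := by
      rw [div_mul_eq_mul_div, div_le_iff₀ (by positivity)]
      nlinarith [norm_nonneg (T a)]
    linarith
  let T1 : A →L[ℝ] B ⧸ I := T0.mkContinuous ‖T‖ hT0n
  have hT1 : ∀ (a : A) (b : B), (Submodule.Quotient.mk b : B ⧸ I) = T1 a ↔
      (Submodule.Quotient.mk (b : X) : X ⧸ J) = T a := hT0
  have hT1n : ‖T1‖ ≤ ‖T‖ := T0.mkContinuous_norm_le (norm_nonneg T) hT0n
  have hT1h : IsLatticeHomMod I T1 := by
    intro a b hb
    rw [hT1] at hb ⊢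
    exact hT a _ hb
  obtain ⟨T', h1, h2, h3⟩ := lift_separable (X := B) hA hI hT1h hε
  refine ⟨B.subtypeL.comp T', fun a => ?_, fun a => ?_, ?_⟩
  · show ((T' |a| : B) : X) = |((T' a : B) : X)|
    rw [h1]; rfl
  · exact (hT1 a (T' a)).1 (h2 a)
  · refine (ContinuousLinearMap.opNorm_comp_le _ _).trans ?_
    have h4 : ‖B.subtypeL‖ ≤ 1 := B.norm_subtypeL_le
    have h5 := norm_nonneg T'
    have h6 : (1 + ε) * ‖T1‖ ≤ (1 + ε) * ‖T‖ := mul_le_mul_of_nonneg_left hT1n (by positivity)
    nlinarith [norm_nonneg B.subtypeL]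

end Main

end Q101.SemiProj
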