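import Mathlib

set_option autoImplicit false

namespace Q101.StA

open MeasureTheory

/-- average over the `2 ^ n` left end points of the intervals of stage `n` -/
noncomputable def Av : ℕ → (ℝ → ℝ) → ℝ
  | 0, f => f 0
  | n + 1, f => (Av n (fun t => f (t / 3)) + Av n (fun t => f ((2 + t) / 3))) / 2

theorem left_mem {t : ℝ} (ht : t ∈ cantorSet) : t / 3 ∈ cantorSet := by
  rw [cantorSet_eq_union_halves]
  exact Or.inl ⟨t, ht, rfl⟩

theorem right_mem {t : ℝ} (ht : t ∈ cantorSet) : (2 + t) / 3 ∈ cantorSet := by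
  rw [cantorSet_eq_union_halves]
  exact Or.inr ⟨t, ht, rfl⟩

theorem Av_mono (n : ℕ) : ∀ f g : ℝ → ℝ, (∀ t ∈ cantorSet, f t ≤ g t) → Av n f ≤ Av n g := by
  induction n with
  | zero => intro f g h; exact h 0 zero_mem_cantorSet
  | succ n ih =>
    intro f g h
    have h1 := ih (fun t => f (t / 3)) (fun t => g (t / 3)) (fun t ht => h _ (left_mem ht))
    have h2 := ih (fun t => f ((2 + t) / 3)) (fun t => g ((2 + t) / 3))
      (fun t ht => h _ (right_mem ht))
    simp only [Av]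
    linarith

theorem Av_const (n : ℕ) (c : ℝ) : Av n (fun _ => c) = c := by
  induction n with
  | zero => rfl
  | succ n ih => simp only [Av, ih]; ring

theorem Av_add (n : ℕ) : ∀ f g : ℝ → ℝ, Av n (fun t => f t + g t) = Av n f + Av n g := by
  induction n with
  | zero => intro f g; rfl
  | succ n ih =>
    intro f g
    simp only [Av]
    rw [ih (fun t => f (t / 3)) (fun t => g (t / 3)),
      ih (fun t => f ((2 + t) / 3)) (fun t => g ((2 + t) / 3))]
    ring

theorem Av_mul (n : ℕ) (c : ℝ) : ∀ f : ℝ → ℝ, Av n (fun t => c * f t) = c * Av n f := by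
  induction n with
  | zero => intro f; rfl
  | succ n ih =>
    intro f
    simp only [Av]
    rw [ih (fun t => f (t / 3)), ih (fun t => f ((2 + t) / 3))]
    ring

theorem Av_sum {ι : Type*} (n : ℕ) (s : Finset ι) (F : ι → ℝ → ℝ) :
    Av n (fun t => ∑ i ∈ s, F i t) = ∑ i ∈ s, Av n (F i) := by
  classical
  induction s using Finset.induction_on with
  | empty => simp [Av_const]
  | insert a s ha ih =>
    simp only [Finset.sum_insert ha]
    rw [Av_add n (F a) (fun t => ∑ i ∈ s, F i t), ih]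

/-- length of `{v : s ≤ v ^ 2 ≤ s + ω}` -/
noncomputable def m (ω s : ℝ) : ℝ := 2 * (√(s + ω) - √s)

theorem m_nonneg {ω : ℝ} (hω : 0 ≤ ω) (s : ℝ) : 0 ≤ m ω s := by
  have := Real.sqrt_le_sqrt (show s ≤ s + ω by linarith)
  unfold m; linarith

theorem m_le_sqrt {ω : ℝ} (hω : 0 ≤ ω) (s : ℝ) : m ω s ≤ 2 * √ω := by
  unfold m
  rcases le_total 0 s with h | h
  · have : √(s + ω) ≤ √s + √ω := by
      rw [Real.sqrt_le_left (by positivity)]
      nlinarith [Real.mul_self_sqrt h, Real.mul_self_sqrt hω,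
        mul_nonneg (Real.sqrt_nonneg s) (Real.sqrt_nonneg ω)]
    linarith
  · have h1 : √s = 0 := Real.sqrt_eq_zero'.2 h
    have h2 : √(s + ω) ≤ √ω := Real.sqrt_le_sqrt (by linarith)
    rw [h1]; linarith

theorem m_far {ω : ℝ} (hω : 0 ≤ ω) {s : ℝ} (hs : s ≤ -(1 / 2) ∨ 1 / 2 ≤ s) : m ω s ≤ 3 * ω := by
  rcases hs with h | h
  · have h1 : √s = 0 := Real.sqrt_eq_zero'.2 (by linarith)
    unfold m
    rw [h1]
    rcases le_total (s + ω) 0 with h2 | h2
    · rw [Real.sqrt_eq_zero'.2 h2]; linarith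
    · have h3 : √(s + ω) ≤ √ω := Real.sqrt_le_sqrt (by linarith)
      have h4 : √ω ≤ 3 / 2 * ω := by
        rw [Real.sqrt_le_left (by linarith)]
        nlinarith
      linarith
  · unfold m
    have h1 : √s * √s = s := Real.mul_self_sqrt (by linarith)
    have h2 : √(s + ω) * √(s + ω) = s + ω := Real.mul_self_sqrt (by linarith)
    have h3 : (7 : ℝ) / 10 ≤ √s := by
      rw [Real.le_sqrt' (by norm_num)]
      linarith
    have h4 : √s ≤ √(s + ω) := Real.sqrt_le_sqrt (by linarith)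
    nlinarith

theorem m_scale {ω : ℝ} (s : ℝ) : m ω (s / 3) = (1 / √3) * m (3 * ω) s := by
  unfold m
  have h1 : √(s / 3) = √s / √3 := Real.sqrt_div' s (by norm_num)
  have h2 : √(s / 3 + ω) = √(s + 3 * ω) / √3 := by
    rw [← Real.sqrt_div' _ (by norm_num : (0:ℝ) ≤ 3)]
    congr 1; ring
  rw [h1, h2]
  ring

theorem key (n : ℕ) : ∀ s ω : ℝ, (1 / 3 : ℝ) ^ n ≤ ω → Av n (fun t => m ω (s - t)) ≤ 20 * ω := by
  induction n with
  | zero =>
    intro s ω hω
    have h1 : (1 : ℝ) ≤ ω := by simpa using hω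
    have h2 := m_le_sqrt (by linarith : (0:ℝ) ≤ ω) (s - 0)
    have h3 : √ω ≤ ω := by
      rw [Real.sqrt_le_left (by linarith)]
      nlinarith
    show m ω (s - 0) ≤ 20 * ω
    linarith
  | succ n ih =>
    intro s ω hω
    have hpos : (0:ℝ) < (1/3)^(n+1) := by positivity
    have hω0 : 0 ≤ ω := by linarith
    have hω3 : (1 / 3 : ℝ) ^ n ≤ 3 * ω := by
      rw [pow_succ] at hω; linarith
    have e1 : (fun t => m ω (s - t / 3)) = fun t => (1 / √3) * m (3 * ω) (3 * s - t) := by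
      funext t
      rw [← m_scale]; congr 1; ring
    have e2 : (fun t => m ω (s - (2 + t) / 3)) =
        fun t => (1 / √3) * m (3 * ω) (3 * s - 2 - t) := by
      funext t
      rw [← m_scale]; congr 1; ring
    simp only [Av]
    rw [e1, e2, Av_mul n (1 / √3) (fun t => m (3 * ω) (3 * s - t)),
      Av_mul n (1 / √3) (fun t => m (3 * ω) (3 * s - 2 - t))]
    have b1 := ih (3 * s) (3 * ω) hω3
    have b2 := ih (3 * s - 2) (3 * ω) hω3
    have h3 : (0:ℝ) < √3 := by positivity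
    have hs3 : (1.732 : ℝ) ≤ √3 := by
      rw [Real.le_sqrt' (by norm_num)]; norm_num
    have hs3' : √3 ≤ 1.7321 := by
      rw [Real.sqrt_le_left (by norm_num)]; norm_num
    have h33 : 1 / √3 = √3 / 3 := by
      rw [div_eq_div_iff h3.ne' (by norm_num)]
      have := Real.mul_self_sqrt (show (0:ℝ) ≤ 3 by norm_num)
      linarith
    rw [h33]
    have tot : Av n (fun t => m (3 * ω) (3 * s - t)) + Av n (fun t => m (3 * ω) (3 * s - 2 - t)) ≤
        69 * ω := by
      rcases le_total s (1/2) with h | h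
      · have : Av n (fun t => m (3 * ω) (3 * s - 2 - t)) ≤ Av n (fun _ => 3 * (3 * ω)) := by
          apply Av_mono
          intro t ht
          have := (cantorSet_subset_unitInterval ht).1
          exact m_far (by linarith) (Or.inl (by linarith))
        rw [Av_const] at this
        linarith
      · have : Av n (fun t => m (3 * ω) (3 * s - t)) ≤ Av n (fun _ => 3 * (3 * ω)) := by
          apply Av_mono
          intro t ht
          have := (cantorSet_subset_unitInterval ht).2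
          exact m_far (by linarith) (Or.inr (by linarith))
        rw [Av_const] at this
        linarith
    have hh : √3 / 3 * (Av n (fun t => m (3 * ω) (3 * s - t)) +
        Av n (fun t => m (3 * ω) (3 * s - 2 - t))) ≤ √3 / 3 * (69 * ω) :=
      mul_le_mul_of_nonneg_left tot (by positivity)
    have hh2 : √3 / 3 * (69 * ω) ≤ 1.7321 / 3 * (69 * ω) :=
      mul_le_mul_of_nonneg_right (by linarith) (by positivity)
    nlinarith

/-- measure of the preimage of an interval under a shifted square -/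
theorem vol_sq {ω : ℝ} (hω : 0 ≤ ω) (s α : ℝ) :
    volume {x : ℝ | s ≤ (x + α) ^ 2 ∧ (x + α) ^ 2 ≤ s + ω} ≤ ENNReal.ofReal (m ω s) := by
  have hsub : {x : ℝ | s ≤ (x + α) ^ 2 ∧ (x + α) ^ 2 ≤ s + ω} ⊆
      Set.Icc (√s - α) (√(s + ω) - α) ∪ Set.Icc (-√(s + ω) - α) (-√s - α) := by
    rintro x ⟨h1, h2⟩
    have a1 : √s ≤ |x + α| := by
      rw [← Real.sqrt_sq_eq_abs]; exact Real.sqrt_le_sqrt h1
    have a2 : |x + α| ≤ √(s + ω) := by
      rw [← Real.sqrt_sq_eq_abs]; exact Real.sqrt_le_sqrt h2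
    rcases le_total 0 (x + α) with h | h
    · rw [abs_of_nonneg h] at a1 a2
      left; constructor <;> linarith
    · rw [abs_of_nonpos h] at a1 a2
      right; constructor <;> linarith
  refine (measure_mono hsub).trans ((measure_union_le _ _).trans ?_)
  rw [Real.volume_Icc, Real.volume_Icc, ← ENNReal.ofReal_add]
  · apply ENNReal.ofReal_le_ofReal
    unfold m; linarith
  · have := Real.sqrt_le_sqrt (show s ≤ s + ω by linarith)
    linarith
  · have := Real.sqrt_le_sqrt (show s ≤ s + ω by linarith)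
    linarith

/-- the left end points of stage `n` -/
def F : ℕ → Set ℝ
  | 0 => {0}
  | n + 1 => (fun t => t / 3) '' F n ∪ (fun t => (2 + t) / 3) '' F n

theorem pre_sub (n : ℕ) : ∀ s ∈ preCantorSet n, ∃ t ∈ F n, t ≤ s ∧ s ≤ t + (1 / 3) ^ n := by
  induction n with
  | zero =>
    intro s hs
    exact ⟨0, rfl, hs.1, by simpa using hs.2⟩
  | succ n ih =>
    intro s hs
    rcases hs with ⟨r, hr, rfl⟩ | ⟨r, hr, rfl⟩
    · obtain ⟨t, ht, h1, h2⟩ := ih r hr
      refine ⟨t / 3, Or.inl ⟨t, ht, rfl⟩, ?_, ?_⟩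
      · simp only; linarith
      · simp only [pow_succ]; linarith
    · obtain ⟨t, ht, h1, h2⟩ := ih r hr
      refine ⟨(2 + t) / 3, Or.inr ⟨t, ht, rfl⟩, ?_, ?_⟩
      · simp only; linarith
      · simp only [pow_succ]; linarith

theorem union_bound (n : ℕ) : ∀ (H : ℝ → Set ℝ) (h : ℝ → ℝ), (∀ t, 0 ≤ h t) →
    (∀ t, volume (H t) ≤ ENNReal.ofReal (h t)) →
    volume (⋃ t ∈ F n, H t) ≤ ENNReal.ofReal (2 ^ n * Av n h) := by
  induction n with
  | zero =>
    intro H h h0 hH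
    simpa [F, Av] using hH 0
  | succ n ih =>
    intro H h h0 hH
    have hsplit : (⋃ t ∈ F (n + 1), H t) =
        (⋃ t ∈ F n, H (t / 3)) ∪ (⋃ t ∈ F n, H ((2 + t) / 3)) := by
      simp only [F, Set.biUnion_union, Set.biUnion_image]
    rw [hsplit]
    refine (measure_union_le _ _).trans ?_
    have h1 := ih (fun t => H (t / 3)) (fun t => h (t / 3)) (fun t => h0 _) (fun t => hH _)
    have h2 := ih (fun t => H ((2 + t) / 3)) (fun t => h ((2 + t) / 3)) (fun t => h0 _)
      (fun t => hH _)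
    refine (add_le_add h1 h2).trans ?_
    have p1 : 0 ≤ Av n (fun t => h (t / 3)) := by
      have := Av_mono n (fun _ => 0) (fun t => h (t / 3)) (fun t _ => h0 _)
      rwa [Av_const] at this
    have p2 : 0 ≤ Av n (fun t => h ((2 + t) / 3)) := by
      have := Av_mono n (fun _ => 0) (fun t => h ((2 + t) / 3)) (fun t _ => h0 _)
      rwa [Av_const] at this
    rw [← ENNReal.ofReal_add (by positivity) (by positivity)]
    apply ENNReal.ofReal_le_ofReal
    simp only [Av, pow_succ]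
    apply le_of_eq
    ring

/-- The set of `x` where the line is `3 ^ (-n)` close to the curves over the Cantor set is small. -/
theorem near_small (n : ℕ) (a b : ℝ) :
    volume {x : ℝ | ∃ s ∈ cantorSet, |a * x + b - x ^ 2 - s| ≤ (1 / 3) ^ n} ≤
      ENNReal.ofReal (60 * (2 / 3) ^ n) := by
  have hp : (0:ℝ) < (1/3)^n := by positivity
  have hsub : {x : ℝ | ∃ s ∈ cantorSet, |a * x + b - x ^ 2 - s| ≤ (1 / 3) ^ n} ⊆
      ⋃ t ∈ F n, {x : ℝ | (b + a ^ 2 / 4 - 2 * (1/3)^n) - t ≤ (x + (-a/2)) ^ 2 ∧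
        (x + (-a/2)) ^ 2 ≤ (b + a ^ 2 / 4 - 2 * (1/3)^n) - t + 3 * (1/3)^n} := by
    rintro x ⟨s, hs, hx⟩
    have hs' : s ∈ preCantorSet n := Set.mem_iInter.1 hs n
    obtain ⟨t, ht, h1, h2⟩ := pre_sub n s hs'
    rw [abs_le] at hx
    simp only [Set.mem_iUnion]
    refine ⟨t, ht, ?_, ?_⟩ <;> nlinarith [hx.1, hx.2]
  refine (measure_mono hsub).trans ?_
  refine (union_bound n _ (fun t => m (3 * (1/3)^n) ((b + a ^ 2 / 4 - 2 * (1/3)^n) - t))
    (fun t => m_nonneg (by positivity) _) (fun t => vol_sq (by positivity) _ _)).trans ?_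
  apply ENNReal.ofReal_le_ofReal
  have := key n (b + a ^ 2 / 4 - 2 * (1/3)^n) (3 * (1/3)^n) (by linarith)
  calc 2 ^ n * Av n (fun t => m (3 * (1/3)^n) ((b + a ^ 2 / 4 - 2 * (1/3)^n) - t))
      ≤ 2 ^ n * (20 * (3 * (1/3)^n)) := mul_le_mul_of_nonneg_left this (by positivity)
    _ = 60 * (2/3)^n := by
        rw [show (2/3:ℝ) = 2 * (1/3) by norm_num, mul_pow]; ring

/-- measure of the part of a curve inside a strip -/
noncomputable def hit (α β c w t : ℝ) : ℝ :=
  (volume {x : ℝ | x ∈ Set.Icc (0:ℝ) 1 ∧ c ≤ α * x + β * (x ^ 2 + t) ∧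
    α * x + β * (x ^ 2 + t) ≤ c + w}).toReal

theorem hit_finite (α β c w t : ℝ) : volume {x : ℝ | x ∈ Set.Icc (0:ℝ) 1 ∧
    c ≤ α * x + β * (x ^ 2 + t) ∧ α * x + β * (x ^ 2 + t) ≤ c + w} < ⊤ :=
  lt_of_le_of_lt (measure_mono (fun x hx => hx.1)) (by rw [Real.volume_Icc]; exact ENNReal.ofReal_lt_top)

theorem hit_flat {α β c w t : ℝ} (hαβ : α ^ 2 + β ^ 2 = 1) (hw : 0 ≤ w) (hβ : |β| ≤ 1 / 4) :
    hit α β c w t ≤ 3 * w := by
  have hα : (9:ℝ)/10 ≤ |α| := by
    rw [← Real.sqrt_sq_eq_abs]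
    rw [Real.le_sqrt' (by norm_num)]
    have : β ^ 2 ≤ 1/16 := by
      rw [← sq_abs]; nlinarith [abs_nonneg β]
    nlinarith
  set S := {x : ℝ | x ∈ Set.Icc (0:ℝ) 1 ∧ c ≤ α * x + β * (x ^ 2 + t) ∧
    α * x + β * (x ^ 2 + t) ≤ c + w} with hS
  have hdiam : ∀ x ∈ S, ∀ y ∈ S, |x - y| ≤ 5/2 * w := by
    rintro x ⟨hx0, hx1, hx2⟩ y ⟨hy0, hy1, hy2⟩
    have e : (α * x + β * (x ^ 2 + t)) - (α * y + β * (y ^ 2 + t)) =
        (α + β * (x + y)) * (x - y) := by ring
    have h1 : |(α + β * (x + y)) * (x - y)| ≤ w := by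
      rw [← e, abs_le]; constructor <;> linarith
    rw [abs_mul] at h1
    have h2 : (4:ℝ)/10 ≤ |α + β * (x + y)| := by
      have h3 : |β * (x + y)| ≤ 1/4 * 2 := by
        rw [abs_mul]
        apply mul_le_mul hβ _ (abs_nonneg _) (by norm_num)
        rw [abs_le]; constructor <;> linarith [hx0.1, hx0.2, hy0.1, hy0.2]
      have h4 := abs_sub_abs_le_abs_sub α (-(β * (x + y)))
      rw [abs_neg, sub_neg_eq_add] at h4
      linarith
    nlinarith [abs_nonneg (x - y)]
  unfold hit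
  rw [← hS]
  rcases S.eq_empty_or_nonempty with h | ⟨y, hy⟩
  · rw [h]; simp; linarith
  · -- use the lower bound of S
    have hbdd : BddBelow S := ⟨0, fun x hx => hx.1.1⟩
    have hsub : S ⊆ Set.Icc (sInf S) (sInf S + 5/2 * w) := by
      intro x hx
      refine ⟨csInf_le hbdd hx, ?_⟩
      have : x - 5/2 * w ≤ sInf S := by
        apply le_csInf ⟨y, hy⟩
        intro z hz
        have := hdiam x hx z hz
        rw [abs_le] at this
        linarith
      linarith
    have h1 : volume S ≤ ENNReal.ofReal (5/2 * w) := by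
      refine (measure_mono hsub).trans ?_
      rw [Real.volume_Icc]
      apply ENNReal.ofReal_le_ofReal; linarith
    have h2 := ENNReal.toReal_mono ENNReal.ofReal_ne_top h1
    rw [ENNReal.toReal_ofReal (by positivity)] at h2
    linarith

theorem hit_curved {α β c w t : ℝ} (hw : 0 ≤ w) (hβ : 1 / 4 ≤ β) :
    hit α β c w t ≤ m (4 * w) ((c / β + (α / β) ^ 2 / 4) - t) := by
  have hβ0 : 0 < β := by linarith
  unfold hit
  have h0 := m_nonneg (show (0:ℝ) ≤ 4 * w by linarith) ((c / β + (α / β) ^ 2 / 4) - t)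
  rw [← ENNReal.toReal_ofReal h0]
  apply ENNReal.toReal_mono ENNReal.ofReal_ne_top
  refine le_trans (measure_mono ?_) (vol_sq (show (0:ℝ) ≤ 4 * w by linarith)
    ((c / β + (α / β) ^ 2 / 4) - t) (α / β / 2))
  rintro x ⟨hx0, hx1, hx2⟩
  have e : (x + α / β / 2) ^ 2 = (α * x + β * (x ^ 2 + t)) / β - t + (α/β)^2/4 := by
    field_simp; ring
  have h1 : c / β ≤ (α * x + β * (x ^ 2 + t)) / β := by gcongr
  have h2 : (α * x + β * (x ^ 2 + t)) / β ≤ (c + w) / β := by gcongr
  have h3 : (c + w) / β ≤ c / β + 4 * w := by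
    rw [add_div]
    have : w / β ≤ 4 * w := by
      rw [div_le_iff₀ hβ0]; nlinarith
    linarith
  refine ⟨?_, ?_⟩
  · rw [e]; linarith
  · rw [e]; linarith

theorem hit_neg (α β c w t : ℝ) : hit α β c w t = hit (-α) (-β) (-c - w) w t := by
  unfold hit
  congr 2
  ext x
  simp only [Set.mem_ofPred_eq]
  constructor
  · rintro ⟨h1, h2, h3⟩; exact ⟨h1, by linarith, by linarith⟩
  · rintro ⟨h1, h2, h3⟩; exact ⟨h1, by linarith, by linarith⟩

theorem Av_hit {α β c w : ℝ} (hαβ : α ^ 2 + β ^ 2 = 1) (hw : 0 ≤ w) (n : ℕ)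
    (hn : (1/3 : ℝ) ^ n ≤ w) : Av n (fun t => hit α β c w t) ≤ 80 * w := by
  rcases le_total |β| (1/4) with h | h
  · have := Av_mono n (fun t => hit α β c w t) (fun _ => 3 * w) (fun t _ => hit_flat hαβ hw h)
    rw [Av_const] at this
    linarith
  · rcases le_total 0 β with h0 | h0
    · rw [abs_of_nonneg h0] at h
      have := Av_mono n (fun t => hit α β c w t) _ (fun t _ => hit_curved (α := α) (c := c) hw h)
      have h2 := key n (c / β + (α / β) ^ 2 / 4) (4 * w) (by linarith)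
      linarith
    · rw [abs_of_nonpos h0] at h
      have := Av_mono n (fun t => hit α β c w t)
        (fun t => m (4 * w) (((-c - w) / (-β) + (-α / -β) ^ 2 / 4) - t)) (fun t _ => by
        rw [hit_neg]; exact hit_curved (α := -α) (c := -c - w) hw h)
      have h2 := key n ((-c - w) / (-β) + (-α / -β) ^ 2 / 4) (4 * w) (by linarith)
      linarith

/-- the union of the curves `y = x ^ 2 + t`, `t` in the Cantor set, over `[0, 1]` -/
def A : Set (ℝ × ℝ) := {p | p.1 ∈ Set.Icc (0:ℝ) 1 ∧ p.2 - p.1 ^ 2 ∈ cantorSet}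

theorem isCompact_A : IsCompact A := by
  have : A = (fun p : ℝ × ℝ => (p.1, p.1 ^ 2 + p.2)) '' (Set.Icc (0:ℝ) 1 ×ˢ cantorSet) := by
    ext ⟨x, y⟩
    simp only [A, Set.mem_ofPred_eq, Set.mem_image, Set.mem_prod, Prod.mk.injEq, Prod.exists]
    constructor
    · rintro ⟨h1, h2⟩
      exact ⟨x, y - x ^ 2, ⟨h1, h2⟩, rfl, by ring⟩
    · rintro ⟨u, v, ⟨h1, h2⟩, rfl, rfl⟩
      exact ⟨h1, by simpa using h2⟩
  rw [this]
  apply (isCompact_Icc.prod isCompact_cantorSet).image
  fun_prop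

/-- finitely many strips of small total width do not cover `A` -/
theorem finite_cover {ι : Type*} (s : Finset ι) (α β c w : ι → ℝ)
    (hu : ∀ i ∈ s, α i ^ 2 + β i ^ 2 = 1) (hw : ∀ i ∈ s, 0 < w i)
    (hc : ∀ p ∈ A, ∃ i ∈ s, c i ≤ α i * p.1 + β i * p.2 ∧ α i * p.1 + β i * p.2 ≤ c i + w i) :
    1 ≤ 80 * ∑ i ∈ s, w i := by
  obtain ⟨n, hn⟩ : ∃ n : ℕ, ∀ i ∈ s, (1/3 : ℝ) ^ n ≤ w i := by
    classical
    have : ∀ i ∈ s, ∃ n : ℕ, (1/3 : ℝ) ^ n ≤ w i := fun i hi => by
      obtain ⟨n, hn⟩ := exists_pow_lt_of_lt_one (hw i hi) (show (1/3:ℝ) < 1 by norm_num)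
      exact ⟨n, hn.le⟩
    choose! N hN using this
    refine ⟨s.sup N, fun i hi => le_trans ?_ (hN i hi)⟩
    exact pow_le_pow_of_le_one (by norm_num) (by norm_num) (Finset.le_sup hi)
  have h1 : ∀ t ∈ cantorSet, (1:ℝ) ≤ ∑ i ∈ s, hit (α i) (β i) (c i) (w i) t := by
    intro t ht
    have hsub : Set.Icc (0:ℝ) 1 ⊆ ⋃ i ∈ s, {x : ℝ | x ∈ Set.Icc (0:ℝ) 1 ∧
        c i ≤ α i * x + β i * (x ^ 2 + t) ∧ α i * x + β i * (x ^ 2 + t) ≤ c i + w i} := by
      intro x hx
      obtain ⟨i, hi, h2⟩ := hc (x, x ^ 2 + t) ⟨hx, by simpa using ht⟩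
      simp only [Set.mem_iUnion]
      exact ⟨i, hi, hx, h2⟩
    have h2 := (measure_mono (μ := volume) hsub).trans (measure_biUnion_finset_le s _)
    rw [Real.volume_Icc] at h2
    have h3 := ENNReal.toReal_mono (ENNReal.sum_ne_top.2 (fun i _ => (hit_finite _ _ _ _ _).ne)) h2
    rw [ENNReal.toReal_sum (fun i _ => (hit_finite _ _ _ _ _).ne)] at h3
    simpa [hit] using h3
  have h2 := Av_mono n (fun _ => 1) _ h1
  rw [Av_const, Av_sum] at h2
  refine h2.trans ?_
  rw [Finset.mul_sum]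
  exact Finset.sum_le_sum (fun i hi => Av_hit (hu i hi) (hw i hi).le n (hn i hi))

/-- countably many open strips of small total width do not cover `A` -/
theorem open_cover (α β c w : ℕ → ℝ) (hu : ∀ i, α i ^ 2 + β i ^ 2 = 1) (hw : ∀ i, 0 < w i)
    (hs : Summable w) (hlt : ∑' i, w i < 1 / 80) :
    ∃ p ∈ A, ∀ i, ¬ (c i < α i * p.1 + β i * p.2 ∧ α i * p.1 + β i * p.2 < c i + w i) := by
  by_contra hcon
  push Not at hcon
  obtain ⟨s, hscov⟩ := isCompact_A.elim_finite_subcover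
    (fun i : ℕ => {p : ℝ × ℝ | c i < α i * p.1 + β i * p.2 ∧ α i * p.1 + β i * p.2 < c i + w i})
    (fun i => by
      apply IsOpen.and
      · exact isOpen_lt (by fun_prop) (by fun_prop)
      · exact isOpen_lt (by fun_prop) (by fun_prop))
    (fun p hp => by
      obtain ⟨i, hi⟩ := hcon p hp
      exact Set.mem_iUnion.2 ⟨i, hi⟩)
  have := finite_cover s α β c w (fun i _ => hu i) (fun i _ => hw i) (fun p hp => by
    have := hscov hp
    simp only [Set.mem_iUnion] at this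
    obtain ⟨i, hi, h1, h2⟩ := this
    exact ⟨i, hi, h1.le, h2.le⟩)
  have h2 : ∑ i ∈ s, w i ≤ ∑' i, w i := hs.sum_le_tsum s (fun i _ => (hw i).le)
  linarith

end Q101.StA
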