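import Pool.Agent.Q101.StA

set_option autoImplicit false

namespace Q101.StB

open MeasureTheory

/-- value at `x` of the line with value `l.1` at `0` and `l.2` at `1` -/
def ev (l : ℝ × ℝ) (x : ℝ) : ℝ := (1 - x) * l.1 + x * l.2

/-- A fan of lines: base line, abscissa of the pivot, range of slopes. -/
structure Fan where
  l : ℝ × ℝ
  z : ℝ
  r : ℝ

/-- the line of the fan with slope increment `s` -/
def Fan.ln (f : Fan) (s : ℝ) : ℝ × ℝ := (f.l.1 - s * f.z, f.l.2 + s * (1 - f.z))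

theorem ev_ln (f : Fan) (s x : ℝ) : ev (f.ln s) x = ev f.l x + s * (x - f.z) := by
  unfold ev Fan.ln; simp only; ring

def Fan.lines (f : Fan) : Set (ℝ × ℝ) := {k | ∃ s ∈ Set.Icc 0 f.r, k = f.ln s}

def lines (T : List Fan) : Set (ℝ × ℝ) := {k | ∃ f ∈ T, k ∈ f.lines}

/-- `L'` is within `η` of `L` -/
def close (η : ℝ) (L' L : Set (ℝ × ℝ)) : Prop :=
  ∀ k ∈ L', ∃ k0 ∈ L, |k.1 - k0.1| ≤ η ∧ |k.2 - k0.2| ≤ η

/-- thickened slice -/
def thick (L : Set (ℝ × ℝ)) (x ρ : ℝ) : Set ℝ := {y | ∃ k ∈ L, |ev k x - y| ≤ ρ}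

def slice (L : Set (ℝ × ℝ)) (x : ℝ) : Set ℝ := {y | ∃ k ∈ L, ev k x = y}

theorem ev_close {k k0 : ℝ × ℝ} {η x : ℝ} (h1 : |k.1 - k0.1| ≤ η) (h2 : |k.2 - k0.2| ≤ η)
    (hx : x ∈ Set.Icc (0:ℝ) 1) : |ev k x - ev k0 x| ≤ η := by
  have e : ev k x - ev k0 x = (1 - x) * (k.1 - k0.1) + x * (k.2 - k0.2) := by unfold ev; ring
  rw [e]
  rw [abs_le] at h1 h2 ⊢
  obtain ⟨hx0, hx1⟩ := hx
  constructor <;> nlinarith

theorem thick_mono {L : Set (ℝ × ℝ)} {x ρ ρ' : ℝ} (h : ρ ≤ ρ') : thick L x ρ ⊆ thick L x ρ' :=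
  fun _ ⟨k, hk, h1⟩ => ⟨k, hk, h1.trans h⟩

theorem close_thick {η : ℝ} {L' L : Set (ℝ × ℝ)} (h : close η L' L) {x ρ : ℝ}
    (hx : x ∈ Set.Icc (0:ℝ) 1) : thick L' x ρ ⊆ thick L x (ρ + η) := by
  rintro y ⟨k, hk, h1⟩
  obtain ⟨k0, hk0, h2, h3⟩ := h k hk
  refine ⟨k0, hk0, ?_⟩
  have h4 := ev_close h2 h3 hx
  rw [abs_le] at h1 h4 ⊢
  constructor <;> linarith

theorem close_trans {η η' : ℝ} {L'' L' L : Set (ℝ × ℝ)} (h : close η L'' L') (h' : close η' L' L) :
    close (η + η') L'' L := by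
  intro k hk
  obtain ⟨k0, hk0, h1, h2⟩ := h k hk
  obtain ⟨k1, hk1, h3, h4⟩ := h' k0 hk0
  refine ⟨k1, hk1, ?_, ?_⟩
  · have := abs_sub_le k.1 k0.1 k1.1; linarith
  · have := abs_sub_le k.2 k0.2 k1.2; linarith

theorem close_mono {η η' : ℝ} {L' L : Set (ℝ × ℝ)} (h : close η L' L) (hη : η ≤ η') :
    close η' L' L := fun k hk => by
  obtain ⟨k0, hk0, h1, h2⟩ := h k hk
  exact ⟨k0, hk0, h1.trans hη, h2.trans hη⟩

theorem vol_thick_fan (f : Fan) (_hr : 0 ≤ f.r) (x ρ : ℝ) (_hρ : 0 ≤ ρ) :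
    volume (thick f.lines x ρ) ≤ ENNReal.ofReal (f.r * |x - f.z| + 2 * ρ) := by
  rcases le_total 0 (x - f.z) with h | h
  · have hsub : thick f.lines x ρ ⊆ Set.Icc (ev f.l x - ρ) (ev f.l x + f.r * (x - f.z) + ρ) := by
      rintro y ⟨k, ⟨s, ⟨hs0, hs1⟩, rfl⟩, h1⟩
      rw [ev_ln, abs_le] at h1
      have := mul_le_mul_of_nonneg_right hs1 h
      have := mul_nonneg hs0 h
      constructor <;> linarith
    refine (measure_mono hsub).trans ?_
    rw [Real.volume_Icc, abs_of_nonneg h]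
    apply ENNReal.ofReal_le_ofReal; linarith
  · have hsub : thick f.lines x ρ ⊆ Set.Icc (ev f.l x + f.r * (x - f.z) - ρ) (ev f.l x + ρ) := by
      rintro y ⟨k, ⟨s, ⟨hs0, hs1⟩, rfl⟩, h1⟩
      rw [ev_ln, abs_le] at h1
      have := mul_le_mul_of_nonpos_right hs1 h
      have := mul_nonpos_of_nonneg_of_nonpos hs0 h
      constructor <;> linarith
    refine (measure_mono hsub).trans ?_
    rw [Real.volume_Icc, abs_of_nonpos h]
    apply ENNReal.ofReal_le_ofReal; linarith

theorem thick_cons (f : Fan) (T : List Fan) (x ρ : ℝ) :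
    thick (lines (f :: T)) x ρ = thick f.lines x ρ ∪ thick (lines T) x ρ := by
  ext y
  simp only [thick, lines, List.mem_cons, Set.mem_ofPred_eq, Set.mem_union]
  constructor
  · rintro ⟨k, ⟨g, rfl | hg, hk⟩, h⟩
    · exact Or.inl ⟨k, hk, h⟩
    · exact Or.inr ⟨k, ⟨g, hg, hk⟩, h⟩
  · rintro (⟨k, hk, h⟩ | ⟨k, ⟨g, hg, hk⟩, h⟩)
    · exact ⟨k, ⟨f, Or.inl rfl, hk⟩, h⟩
    · exact ⟨k, ⟨g, Or.inr hg, hk⟩, h⟩

theorem thick_nil (x ρ : ℝ) : thick (lines []) x ρ = ∅ := by
  ext y; simp [thick, lines]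

theorem vol_thick (T : List Fan) (hT : ∀ f ∈ T, 0 ≤ f.r) (x ρ : ℝ) (hρ : 0 ≤ ρ) :
    volume (thick (lines T) x ρ) ≤
      ENNReal.ofReal ((T.map (fun f => f.r * |x - f.z| + 2 * ρ)).sum) := by
  induction T with
  | nil => simp [thick_nil]
  | cons f T ih =>
    rw [thick_cons, List.map_cons, List.sum_cons]
    refine (measure_union_le _ _).trans ?_
    have h1 := vol_thick_fan f (hT f (by simp)) x ρ hρ
    have h2 := ih (fun g hg => hT g (by simp [hg]))
    rw [ENNReal.ofReal_add]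
    · exact add_le_add h1 h2
    · have := hT f (by simp); positivity
    · apply List.sum_nonneg
      intro a ha
      obtain ⟨g, hg, rfl⟩ := List.mem_map.1 ha
      have := hT g (by simp [hg]); positivity

/-- splitting an interval into `M` pieces -/
theorem split (M : ℕ) (hM : 0 < M) {r s : ℝ} (hs : s ∈ Set.Icc 0 r) :
    ∃ i < M, (i : ℝ) * (r / M) ≤ s ∧ s ≤ (i : ℝ) * (r / M) + r / M := by
  classical
  have hM' : (0:ℝ) < M := by exact_mod_cast hM
  have hr : 0 ≤ r := hs.1.trans hs.2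
  have hex : ∃ j : ℕ, s ≤ (j : ℝ) * (r / M) := ⟨M, by
    rw [mul_div_cancel₀ _ hM'.ne']; exact hs.2⟩
  set j := Nat.find hex with hj
  have hjs := Nat.find_spec hex
  have hjM : j ≤ M := Nat.find_min' hex (by rw [mul_div_cancel₀ _ hM'.ne']; exact hs.2)
  rcases Nat.eq_zero_or_pos j with h0 | h0
  · refine ⟨0, hM, by simpa using hs.1, ?_⟩
    rw [← hj, h0] at hjs
    simp only [Nat.cast_zero, zero_mul] at hjs
    have : 0 ≤ r / M := by positivity
    simp; linarith
  · refine ⟨j - 1, by omega, ?_, ?_⟩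
    · have := Nat.find_min hex (show j - 1 < Nat.find hex by omega)
      push Not at this
      exact this.le
    · have e : ((j - 1 : ℕ) : ℝ) = (j : ℝ) - 1 := by
        rw [Nat.cast_sub h0]; simp
      rw [e]
      rw [← hj] at hjs
      linarith

/-- moving the pivot -/
theorem pm (f : Fan) (hr : 0 ≤ f.r) (z' a b η : ℝ) (ha : 0 ≤ a) (hb : 0 ≤ b) (hη : 0 < η) :
    ∃ T : List Fan, (∀ g ∈ T, g.z = z' ∧ 0 ≤ g.r) ∧
      (T.map Fan.r).sum = (a + b) * f.r ∧ close η (lines T) f.lines ∧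
      ∀ x c : ℝ, x - f.z = c * (x - z') → -a ≤ c → c ≤ b → slice f.lines x ⊆ slice (lines T) x := by
  obtain ⟨M, hM⟩ := exists_nat_gt ((a + b) * f.r * (1 + |z'|) / η)
  have hM0 : (0:ℝ) < M := lt_of_le_of_lt (by positivity) hM
  have hMpos : 0 < M := by exact_mod_cast hM0
  rw [div_lt_iff₀ hη] at hM
  let q : ℝ := f.r / M
  have hq : 0 ≤ q := by positivity
  let g : ℕ → Fan := fun i => ⟨((f.ln (i * q)).1 - (-(a * q)) * z', (f.ln (i * q)).2 +
    (-(a * q)) * (1 - z')), z', (a + b) * q⟩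
  refine ⟨(List.range M).map g, ?_, ?_, ?_, ?_⟩
  · intro h hh
    obtain ⟨i, hi, rfl⟩ := List.mem_map.1 hh
    exact ⟨rfl, by positivity⟩
  · rw [List.map_map]
    have : (Fan.r ∘ g) = fun _ => (a + b) * q := rfl
    rw [this, List.map_const', List.sum_replicate, List.length_range]
    simp only [q, nsmul_eq_mul]
    field_simp
  · rintro k ⟨h, hh, s, ⟨hs0, hs1⟩, rfl⟩
    obtain ⟨i, hi, rfl⟩ := List.mem_map.1 hh
    rw [List.mem_range] at hi
    refine ⟨f.ln (i * q), ⟨i * q, ⟨by positivity, ?_⟩, rfl⟩, ?_, ?_⟩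
    · have : (i : ℝ) ≤ M := by exact_mod_cast hi.le
      calc (i : ℝ) * q ≤ M * q := mul_le_mul_of_nonneg_right this hq
        _ = f.r := by simp only [q]; field_simp
    all_goals
      have hs1' : s ≤ (a + b) * q := hs1
      have hbound : |s - a * q| ≤ (a + b) * q := by
        have := mul_nonneg ha hq
        have := mul_nonneg hb hq
        rw [abs_le]; constructor <;> nlinarith
      have hη' : (a + b) * q * (1 + |z'|) ≤ η := by
        simp only [q]
        have : (a + b) * (f.r / M) * (1 + |z'|) = (a + b) * f.r * (1 + |z'|) / M := by ring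
        rw [this, div_le_iff₀ hM0]; linarith
    · have e : ((g i).ln s).1 - (f.ln (i * q)).1 = (s - a * q) * (-z') := by
        simp only [Fan.ln, g]; ring
      rw [e, abs_mul, abs_neg]
      refine le_trans ?_ hη'
      exact mul_le_mul hbound (by linarith [abs_nonneg z']) (abs_nonneg _) (by positivity)
    · have e : ((g i).ln s).2 - (f.ln (i * q)).2 = (s - a * q) * (1 - z') := by
        simp only [Fan.ln, g]; ring
      rw [e, abs_mul]
      refine le_trans ?_ hη'
      refine mul_le_mul hbound ?_ (abs_nonneg _) (by positivity)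
      have := abs_sub (1:ℝ) z'
      rw [abs_one] at this; exact this
  · rintro x c hc hca hcb y ⟨k, ⟨s, hs, rfl⟩, rfl⟩
    obtain ⟨i, hi, h1, h2⟩ := split M hMpos hs
    refine ⟨(g i).ln (a * q + (s - i * q) * c), ⟨g i, List.mem_map.2 ⟨i, List.mem_range.2 hi, rfl⟩,
      _, ⟨?_, ?_⟩, rfl⟩, ?_⟩
    · have h3 : 0 ≤ s - i * q := by linarith
      have h4 : s - i * q ≤ q := by linarith
      nlinarith
    · have h3 : 0 ≤ s - i * q := by linarith
      have h4 : s - i * q ≤ q := by linarith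
      show a * q + (s - i * q) * c ≤ (a + b) * q
      nlinarith
    · rw [ev_ln, ev_ln, hc]
      simp only [g, ev, Fan.ln]
      have : f.z = x - c * (x - z') := by linarith
      rw [this]
      ring

theorem lines_flatMap (T : List Fan) (S : Fan → List Fan) :
    lines (T.flatMap S) = {k | ∃ f ∈ T, k ∈ lines (S f)} := by
  ext k
  simp only [lines, List.mem_flatMap, Set.mem_ofPred_eq]
  constructor
  · rintro ⟨g, ⟨f, hf, hg⟩, hk⟩
    exact ⟨f, hf, g, hg, hk⟩
  · rintro ⟨f, hf, g, hg, hk⟩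
    exact ⟨g, ⟨f, hf, hg⟩, hk⟩

theorem close_flatMap (T : List Fan) (S : Fan → List Fan) (η : ℝ)
    (h : ∀ f ∈ T, close η (lines (S f)) f.lines) : close η (lines (T.flatMap S)) (lines T) := by
  rw [lines_flatMap]
  rintro k ⟨f, hf, hk⟩
  obtain ⟨k0, hk0, h1⟩ := h f hf k hk
  exact ⟨k0, ⟨f, hf, hk0⟩, h1⟩

theorem slice_flatMap (T : List Fan) (S : Fan → List Fan) (x : ℝ)
    (h : ∀ f ∈ T, slice f.lines x ⊆ slice (lines (S f)) x) :
    slice (lines T) x ⊆ slice (lines (T.flatMap S)) x := by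
  rw [lines_flatMap]
  rintro y ⟨k, ⟨f, hf, hk⟩, hy⟩
  obtain ⟨k', hk', hy'⟩ := h f hf ⟨k, hk, hy⟩
  exact ⟨k', ⟨f, hf, hk'⟩, hy'⟩

theorem sum_flatMap (T : List Fan) (S : Fan → List Fan) (φ ψ : Fan → ℝ)
    (h : ∀ f ∈ T, ((S f).map φ).sum ≤ ψ f) : ((T.flatMap S).map φ).sum ≤ (T.map ψ).sum := by
  induction T with
  | nil => simp
  | cons f T ih =>
    simp only [List.flatMap_cons, List.map_append, List.sum_append, List.map_cons, List.sum_cons]
    have h1 := h f (by simp)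
    have h2 := ih (fun g hg => h g (by simp [hg]))
    linarith

theorem thick_flatMap_vol (T : List Fan) (S : Fan → List Fan) (x ρ : ℝ) (e : Fan → ENNReal)
    (h : ∀ f ∈ T, volume (thick (lines (S f)) x ρ) ≤ e f) :
    volume (thick (lines (T.flatMap S)) x ρ) ≤ (T.map e).sum := by
  induction T with
  | nil => simp [thick_nil]
  | cons f T ih =>
    have hsplit : thick (lines ((f :: T).flatMap S)) x ρ =
        thick (lines (S f)) x ρ ∪ thick (lines (T.flatMap S)) x ρ := by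
      ext y
      simp only [thick, lines_flatMap, List.mem_cons, Set.mem_ofPred_eq, Set.mem_union]
      constructor
      · rintro ⟨k, ⟨g, rfl | hg, hk⟩, hy⟩
        · exact Or.inl ⟨k, hk, hy⟩
        · exact Or.inr ⟨k, ⟨g, hg, hk⟩, hy⟩
      · rintro (⟨k, hk, hy⟩ | ⟨k, ⟨g, hg, hk⟩, hy⟩)
        · exact ⟨k, ⟨f, Or.inl rfl, hk⟩, hy⟩
        · exact ⟨k, ⟨g, Or.inr hg, hk⟩, hy⟩
    rw [hsplit, List.map_cons, List.sum_cons]
    exact (measure_union_le _ _).trans (add_le_add (h f (by simp))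
      (ih (fun g hg => h g (by simp [hg]))))

theorem exists_pos_le (T : List Fan) (ρ : Fan → ℝ) (h : ∀ f ∈ T, 0 < ρ f) :
    ∃ ρ' > 0, ∀ f ∈ T, ρ' ≤ ρ f := by
  induction T with
  | nil => exact ⟨1, one_pos, by simp⟩
  | cons f T ih =>
    obtain ⟨ρ', h1, h2⟩ := ih (fun g hg => h g (by simp [hg]))
    refine ⟨min (ρ f) ρ', lt_min (h f (by simp)) h1, ?_⟩
    intro g hg
    rcases List.mem_cons.1 hg with rfl | hg
    · exact min_le_left _ _
    · exact (min_le_right _ _).trans (h2 g hg)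

theorem sum_near (T : List Fan) (z x h ρ : ℝ) (hT : ∀ g ∈ T, g.z = z ∧ 0 ≤ g.r)
    (hx : |x - z| ≤ h) : (T.map (fun f => f.r * |x - f.z| + 2 * ρ)).sum ≤
      (T.map Fan.r).sum * h + 2 * ρ * T.length := by
  induction T with
  | nil => simp
  | cons g T ih =>
    simp only [List.map_cons, List.sum_cons, List.length_cons, Nat.cast_add, Nat.cast_one]
    have h2 := ih (fun g hg => hT g (by simp [hg]))
    have h3 := hT g (by simp)
    rw [h3.1]
    have h4 : g.r * |x - z| ≤ g.r * h := mul_le_mul_of_nonneg_left hx h3.2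
    nlinarith

/-- sweeping the pivot over `[u, v]` -/
theorem sweep (f : Fan) (hr : 0 ≤ f.r) (u v δ η ε : ℝ) (huv : u < v) (hδ : 0 < δ) (hη : 0 < η)
    (hε : 0 < ε) :
    ∃ T : List Fan, (∀ g ∈ T, 0 ≤ g.r) ∧ close η (lines T) f.lines ∧
      (∀ x ∈ Set.Icc (0:ℝ) 1, x ∉ Set.Ioo (u - δ) (v + δ) →
        slice f.lines x ⊆ slice (lines T) x) ∧
      ∃ ρ > 0, ∀ x ∈ Set.Icc (0:ℝ) 1, x ∈ Set.Icc u v →
        volume (thick (lines T) x ρ) ≤ ENNReal.ofReal ε := by
  set lam : ℝ := (1 + |f.z|) / δ with hlam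
  have hlam0 : 0 ≤ lam := by positivity
  set Λ0 : ℝ := (lam + lam) * f.r with hΛ0
  have hΛ00 : 0 ≤ Λ0 := by positivity
  obtain ⟨n, hn⟩ := exists_nat_gt (Λ0 * Real.exp ((v - u) / δ) * (v - u) / ε)
  have hn0 : (0:ℝ) < n := lt_of_le_of_lt (by
    have := huv; have : 0 ≤ v - u := by linarith
    positivity) hn
  rw [div_lt_iff₀ hε] at hn
  set h : ℝ := (v - u) / n with hh
  have hh0 : 0 < h := div_pos (by linarith) hn0
  have hnh : n * h = v - u := by rw [hh]; field_simp
  have hΛh : ∀ j : ℕ, j ≤ n → Λ0 * (1 + h / δ) ^ j * h < ε := by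
    intro j hj
    have h1 : (1 + h / δ) ^ j ≤ Real.exp ((v - u) / δ) := by
      have h2 : 1 + h / δ ≤ Real.exp (h / δ) := by
        have := Real.add_one_le_exp (h / δ); linarith
      calc (1 + h / δ) ^ j ≤ (Real.exp (h / δ)) ^ j := pow_le_pow_left₀ (by positivity) h2 j
        _ = Real.exp (j * (h / δ)) := by rw [← Real.exp_nat_mul]
        _ ≤ Real.exp ((v - u) / δ) := by
            apply Real.exp_le_exp.2
            rw [← hnh, mul_div_assoc]
            exact mul_le_mul_of_nonneg_right (by exact_mod_cast hj) (by positivity)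
    have h3 : Λ0 * (1 + h / δ) ^ j * h ≤ Λ0 * Real.exp ((v - u) / δ) * h :=
      mul_le_mul_of_nonneg_right (mul_le_mul_of_nonneg_left h1 hΛ00) hh0.le
    have h4 : Λ0 * Real.exp ((v - u) / δ) * h < ε := by
      rw [hh, ← mul_div_assoc, div_lt_iff₀ hn0]; linarith
    linarith
  -- bound of the measure near the common pivot
  have near : ∀ (T : List Fan) (z : ℝ) (j : ℕ), j ≤ n → (∀ g ∈ T, g.z = z ∧ 0 ≤ g.r) →
      (T.map Fan.r).sum ≤ Λ0 * (1 + h / δ) ^ j → ∀ ρ1 > 0, ∃ ρ > 0, ρ ≤ ρ1 ∧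
      ∀ x, |x - z| ≤ h → volume (thick (lines T) x ρ) ≤ ENNReal.ofReal ε := by
    intro T z j hj hT hsum ρ1 hρ1
    have hpos : 0 < ε - Λ0 * (1 + h / δ) ^ j * h := by linarith [hΛh j hj]
    refine ⟨min ρ1 ((ε - Λ0 * (1 + h / δ) ^ j * h) / (2 * (T.length + 1))),
      lt_min hρ1 (by positivity), min_le_left _ _, ?_⟩
    intro x hx
    set ρ := min ρ1 ((ε - Λ0 * (1 + h / δ) ^ j * h) / (2 * (T.length + 1))) with hρ
    have hρ0 : 0 < ρ := lt_min hρ1 (by positivity)
    refine (vol_thick T (fun g hg => (hT g hg).2) x ρ hρ0.le).trans ?_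
    apply ENNReal.ofReal_le_ofReal
    have h1 := sum_near T z x h ρ hT hx
    have h2 : ρ ≤ (ε - Λ0 * (1 + h / δ) ^ j * h) / (2 * (T.length + 1)) := min_le_right _ _
    rw [le_div_iff₀ (by positivity)] at h2
    have h3 : (T.map Fan.r).sum * h ≤ Λ0 * (1 + h / δ) ^ j * h :=
      mul_le_mul_of_nonneg_right hsum hh0.le
    nlinarith
  have main : ∀ j : ℕ, j ≤ n → ∃ T : List Fan, (∀ g ∈ T, g.z = v - j * h ∧ 0 ≤ g.r) ∧
      (T.map Fan.r).sum ≤ Λ0 * (1 + h / δ) ^ j ∧
      (∃ η' < η, close η' (lines T) f.lines) ∧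
      (∀ x ∈ Set.Icc (0:ℝ) 1, x ∉ Set.Ioo (u - δ) (v + δ) →
        slice f.lines x ⊆ slice (lines T) x) ∧
      ∃ ρ > 0, ∀ x ∈ Set.Icc (0:ℝ) 1, x ∈ Set.Icc (v - j * h - h) v →
        volume (thick (lines T) x ρ) ≤ ENNReal.ofReal ε := by
    intro j
    induction j with
    | zero =>
      intro _
      obtain ⟨T, h1, h2, h3, h4⟩ := pm f hr v lam lam (η / 2) hlam0 hlam0 (by linarith)
      obtain ⟨ρ, hρ, _, hρ2⟩ := near T v 0 (Nat.zero_le _) h1 (by rw [h2]; simp [hΛ0]) 1 one_pos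
      refine ⟨T, by simpa using h1, by rw [h2]; simp [hΛ0], ⟨η / 2, by linarith, h3⟩, ?_, ρ, hρ, ?_⟩
      · intro x hx hxn
        have hxv : δ ≤ |x - v| := by
          by_contra hcon
          push Not at hcon
          rw [abs_lt] at hcon
          exact hxn ⟨by linarith, by linarith⟩
        have hne : x - v ≠ 0 := by
          intro h0; rw [h0, abs_zero] at hxv; linarith
        have habs : |(x - f.z) / (x - v)| ≤ lam := by
          rw [abs_div, hlam]
          have h5 : |x - f.z| ≤ 1 + |f.z| := by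
            have := abs_sub x f.z
            have h6 : |x| ≤ 1 := by rw [abs_le]; constructor <;> linarith [hx.1, hx.2]
            linarith
          gcongr
        rw [abs_le] at habs
        exact h4 x ((x - f.z) / (x - v)) (by field_simp) habs.1 habs.2
      · intro x hx hxI
        apply hρ2
        simp only [Nat.cast_zero, zero_mul, sub_zero] at hxI
        rw [abs_le]; constructor <;> linarith [hxI.1, hxI.2]
    | succ j ih =>
      intro hj
      obtain ⟨T, h1, h2, ⟨η', hη', h3⟩, h4, ρ, hρ, h5⟩ := ih (by omega)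
      set κ : ℝ := min (ρ / 2) ((η - η') / 2) with hκ
      have hκ0 : 0 < κ := lt_min (by linarith) (by linarith)
      have hz : v - (j + 1 : ℕ) * h = v - j * h - h := by push_cast; ring
      have hstep : ∀ g ∈ T, ∃ S : List Fan, (∀ g' ∈ S, g'.z = v - (j + 1 : ℕ) * h ∧ 0 ≤ g'.r) ∧
          (S.map Fan.r).sum = (0 + (1 + h / δ)) * g.r ∧ close κ (lines S) g.lines ∧
          ∀ x c : ℝ, x - g.z = c * (x - (v - (j + 1 : ℕ) * h)) → -0 ≤ c → c ≤ 1 + h / δ →
            slice g.lines x ⊆ slice (lines S) x := fun g hg =>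
        pm g (h1 g hg).2 (v - (j + 1 : ℕ) * h) 0 (1 + h / δ) κ le_rfl (by positivity) hκ0
      choose! S hS1 hS2 hS3 hS4 using hstep
      have g1 : ∀ g ∈ T.flatMap S, g.z = v - (j + 1 : ℕ) * h ∧ 0 ≤ g.r := by
        intro g hg
        obtain ⟨g0, hg0, hg1⟩ := List.mem_flatMap.1 hg
        exact hS1 g0 hg0 g hg1
      have g2 : ((T.flatMap S).map Fan.r).sum ≤ Λ0 * (1 + h / δ) ^ (j + 1) := by
        refine (sum_flatMap T S Fan.r (fun g => (1 + h / δ) * g.r) (fun g hg => ?_)).trans ?_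
        · rw [hS2 g hg, zero_add]
        · rw [List.sum_map_mul_left, pow_succ]
          have : 0 ≤ 1 + h / δ := by positivity
          nlinarith
      have hcl : close κ (lines (T.flatMap S)) (lines T) := close_flatMap T S κ hS3
      obtain ⟨ρ', hρ', hρ'2, hρ'3⟩ := near (T.flatMap S) _ (j + 1) hj g1 g2 (ρ / 2) (by linarith)
      refine ⟨T.flatMap S, g1, g2, ⟨κ + η', ?_, close_trans hcl h3⟩, ?_, ρ', hρ', ?_⟩
      · have : κ ≤ (η - η') / 2 := min_le_right _ _
        linarith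
      · intro x hx hxn
        refine (h4 x hx hxn).trans (slice_flatMap T S x (fun g hg => ?_))
        have hgz := (h1 g hg).1
        have hjn : ((j:ℝ) + 1) * h ≤ v - u := by
          rw [← hnh]
          exact mul_le_mul_of_nonneg_right (by exact_mod_cast hj) hh0.le
        have hjn' : (j:ℝ) * h ≥ 0 := by positivity
        rcases le_or_gt (v + δ) x with hxv | hxv
        · have hpos : 0 < x - (v - (j + 1 : ℕ) * h) := by rw [hz]; linarith
          refine hS4 g hg x ((x - g.z) / (x - (v - (j + 1 : ℕ) * h))) (by field_simp) ?_ ?_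
          · rw [neg_zero]; apply div_nonneg _ hpos.le; rw [hgz]; linarith
          · rw [div_le_iff₀ hpos, hgz, hz]
            have : 0 ≤ h / δ * (x - (v - j * h - h)) := by
              apply mul_nonneg (by positivity); linarith
            linarith
        · have hxu : x ≤ u - δ := by
            by_contra hcon
            push Not at hcon
            exact hxn ⟨hcon, hxv⟩
          have hneg : x - (v - (j + 1 : ℕ) * h) < 0 := by rw [hz]; nlinarith
          refine hS4 g hg x ((x - g.z) / (x - (v - (j + 1 : ℕ) * h)))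
            (div_mul_cancel₀ _ hneg.ne).symm ?_ ?_
          · rw [neg_zero]; apply div_nonneg_of_nonpos _ hneg.le; rw [hgz]; nlinarith
          · rw [div_le_iff_of_neg hneg, hgz, hz]
            have h6 : x - (v - j * h - h) ≤ -δ := by nlinarith
            have h7 : h / δ * (x - (v - j * h - h)) ≤ h / δ * (-δ) :=
              mul_le_mul_of_nonneg_left h6 (by positivity)
            have h8 : h / δ * (-δ) = -h := by field_simp
            linarith
      · intro x hx hxI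
        rw [hz] at hxI
        rcases le_or_gt (v - j * h - h) x with hc | hc
        · refine (measure_mono ?_).trans (h5 x hx ⟨hc, hxI.2⟩)
          refine (close_thick hcl hx).trans (thick_mono ?_)
          have : κ ≤ ρ / 2 := min_le_left _ _
          linarith
        · apply hρ'3
          rw [hz, abs_le]; constructor <;> linarith [hxI.1]
  obtain ⟨T, h1, h2, ⟨η', hη', h3⟩, h4, ρ, hρ, h5⟩ := main n le_rfl
  refine ⟨T, fun g hg => (h1 g hg).2, close_mono h3 hη'.le, h4, ρ, hρ, fun x hx hxI => h5 x hx ?_⟩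
  rw [hnh]
  exact ⟨by linarith [hxI.1], hxI.2⟩

/-- sweeping over several cells of the grid of mesh `1 / N` -/
theorem cells (f : Fan) (hr : 0 ≤ f.r) (N : ℕ) (hN : 0 < N) (ε : ℝ) (hε : 0 < ε) (s : Finset ℕ) :
    ∀ η > 0, ∃ T : List Fan, (∀ g ∈ T, 0 ≤ g.r) ∧ close η (lines T) f.lines ∧
      (∀ x ∈ Set.Icc (0:ℝ) 1, (∀ i ∈ s, x ∉ Set.Ioo ((i:ℝ) / N - 1 / N) (((i:ℝ) + 1) / N + 1 / N)) →
        slice f.lines x ⊆ slice (lines T) x) ∧
      ∃ ρ > 0, ∀ x ∈ Set.Icc (0:ℝ) 1, (∃ i ∈ s, x ∈ Set.Icc ((i:ℝ) / N) (((i:ℝ) + 1) / N)) →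
        volume (thick (lines T) x ρ) ≤ ENNReal.ofReal ε := by
  classical
  have hN' : (0:ℝ) < N := by exact_mod_cast hN
  induction s using Finset.induction_on with
  | empty =>
    intro η hη
    refine ⟨[f], by simpa using hr, ?_, ?_, 1, one_pos, by simp⟩
    · rintro k ⟨g, hg, hk⟩
      rw [List.mem_singleton] at hg
      subst hg
      exact ⟨k, hk, by simpa using hη.le, by simpa using hη.le⟩
    · rintro x _ _ y ⟨k, hk, hy⟩
      exact ⟨k, ⟨f, by simp, hk⟩, hy⟩
  | insert i s hi ih =>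
    intro η hη
    obtain ⟨T, h1, h2, h3, ρ, hρ, h4⟩ := ih (η / 2) (by linarith)
    set κ : ℝ := min (η / 2) (ρ / 2) with hκ
    have hκ0 : 0 < κ := lt_min (by linarith) (by linarith)
    have hstep : ∀ g ∈ T, ∃ S : List Fan, (∀ g' ∈ S, 0 ≤ g'.r) ∧ close κ (lines S) g.lines ∧
        (∀ x ∈ Set.Icc (0:ℝ) 1, x ∉ Set.Ioo ((i:ℝ) / N - 1 / N) (((i:ℝ) + 1) / N + 1 / N) →
          slice g.lines x ⊆ slice (lines S) x) ∧
        ∃ ρ > 0, ∀ x ∈ Set.Icc (0:ℝ) 1, x ∈ Set.Icc ((i:ℝ) / N) (((i:ℝ) + 1) / N) →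
          volume (thick (lines S) x ρ) ≤ ENNReal.ofReal (ε / (T.length + 1)) := fun g hg =>
      sweep g (h1 g hg) _ _ (1 / N) κ (ε / (T.length + 1)) (by
        rw [div_lt_div_iff_of_pos_right hN']; linarith) (by positivity) hκ0 (by positivity)
    choose! S hS1 hS2 hS3 ρ' hρ' hS4 using hstep
    obtain ⟨ρ0, hρ0, hρ01⟩ := exists_pos_le T ρ' hρ'
    have hcl : close κ (lines (T.flatMap S)) (lines T) := close_flatMap T S κ hS2
    refine ⟨T.flatMap S, ?_, ?_, ?_, min ρ0 (ρ / 2), lt_min hρ0 (by linarith), ?_⟩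
    · intro g hg
      obtain ⟨g0, hg0, hg1⟩ := List.mem_flatMap.1 hg
      exact hS1 g0 hg0 g hg1
    · refine close_mono (close_trans hcl h2) ?_
      have : κ ≤ η / 2 := min_le_left _ _
      linarith
    · intro x hx hxn
      refine (h3 x hx (fun j hj => hxn j (Finset.mem_insert_of_mem hj))).trans
        (slice_flatMap T S x (fun g hg => ?_))
      exact hS3 g hg x hx (hxn i (Finset.mem_insert_self _ _))
    · rintro x hx ⟨j, hj, hxj⟩
      rcases Finset.mem_insert.1 hj with rfl | hj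
      · refine (thick_flatMap_vol T S x _ (fun _ => ENNReal.ofReal (ε / (T.length + 1)))
          (fun g hg => ?_)).trans ?_
        · refine (measure_mono (thick_mono ?_)).trans (hS4 g hg x hx hxj)
          exact (min_le_left _ _).trans (hρ01 g hg)
        · rw [List.map_const', List.sum_replicate, nsmul_eq_mul,
            ← ENNReal.ofReal_natCast, ← ENNReal.ofReal_mul (by positivity)]
          apply ENNReal.ofReal_le_ofReal
          have : (0:ℝ) < T.length + 1 := by positivity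
          rw [← mul_div_assoc, div_le_iff₀ this]
          nlinarith
      · refine (measure_mono ?_).trans (h4 x hx ⟨j, hj, hxj⟩)
        refine (close_thick hcl hx).trans (thick_mono ?_)
        have h5 : κ ≤ ρ / 2 := min_le_right _ _
        have h6 : min ρ0 (ρ / 2) ≤ ρ / 2 := min_le_right _ _
        linarith

end Q101.StB
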