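import Pool.Agent.Q101.StB

set_option autoImplicit false

namespace Q101.StC

open MeasureTheory Q101.StA Q101.StB

theorem ev_eq (l : ℝ × ℝ) (x : ℝ) : ev l x = (l.2 - l.1) * x + l.1 := by unfold ev; ring

theorem abs_le_of_Icc {x z : ℝ} (hx : x ∈ Set.Icc (0:ℝ) 1) : |x - z| ≤ 1 + |z| := by
  have h1 := abs_sub x z
  have h2 : |x| ≤ 1 := by rw [abs_le]; constructor <;> linarith [hx.1, hx.2]
  linarith

/-- compressing a thin fan, keeping the points of `A` covered -/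
theorem thin (g : Fan) (hr : 0 ≤ g.r) (n : ℕ) (hthin : g.r * (1 + |g.z|) ≤ (1 / 3) ^ n / 4)
    (η ε : ℝ) (hη : 0 < η) (hε : 0 < ε) :
    ∃ T : List Fan, (∀ h ∈ T, 0 ≤ h.r) ∧ close η (lines T) g.lines ∧
      (∀ p ∈ A, p.2 ∈ slice g.lines p.1 → p.2 ∈ slice (lines T) p.1) ∧
      ∃ ρ > 0, ∃ φ : ℝ → ENNReal, Measurable φ ∧
        (∀ x ∈ Set.Ico (0:ℝ) 1, volume (thick (lines T) x ρ) ≤ φ x) ∧
        ∫⁻ x in Set.Ico (0:ℝ) 1, φ x ≤
          ENNReal.ofReal (ε + 60 * (2 / 3) ^ n * (g.r * (1 + |g.z|) + ε)) := by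
  classical
  set σ : ℝ := (1 / 3) ^ n with hσ
  have hσ0 : 0 < σ := by positivity
  set B : ℝ := |g.l.2 - g.l.1| with hB
  have hB0 : 0 ≤ B := abs_nonneg _
  obtain ⟨N, hN⟩ := exists_nat_gt (8 * (B + 2) / σ)
  have hN0 : (0:ℝ) < N := lt_of_le_of_lt (by positivity) hN
  have hNpos : 0 < N := by exact_mod_cast hN0
  rw [div_lt_iff₀ hσ0] at hN
  have hN2 : (B + 2) * (2 / N) ≤ σ / 4 := by
    rw [mul_div_assoc', div_le_iff₀ hN0]; linarith
  set s : Finset ℕ := (Finset.range N).filter (fun i : ℕ => ∀ x ∈ Set.Icc (0:ℝ) 1,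
    x ∈ Set.Ioo ((i:ℝ) / N - 1 / N) (((i:ℝ) + 1) / N + 1 / N) →
      ¬ ∃ y, |y - ev g.l x| ≤ σ / 4 ∧ (x, y) ∈ A) with hs
  obtain ⟨T, h1, h2, h3, ρ0, hρ0, h4⟩ := cells g hr N hNpos ε hε s (min η (ε / 4))
    (lt_min hη (by linarith))
  set Near : Set ℝ := {x : ℝ | ∃ t ∈ cantorSet, |(g.l.2 - g.l.1) * x + g.l.1 - x ^ 2 - t| ≤
    (1 / 3) ^ n} with hNear
  have hNvol := near_small n (g.l.2 - g.l.1) g.l.1
  rw [← hNear] at hNvol
  refine ⟨T, h1, close_mono h2 (min_le_left _ _), ?_, min ρ0 (ε / 4), lt_min hρ0 (by linarith),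
    fun x => ENNReal.ofReal ε + (toMeasurable volume Near).indicator
      (fun _ => ENNReal.ofReal (g.r * (1 + |g.z|) + ε)) x, ?_, ?_, ?_⟩
  · rintro ⟨x, y⟩ hp hy
    simp only at hy ⊢
    have hx : x ∈ Set.Icc (0:ℝ) 1 := hp.1
    apply h3 x hx _ hy
    intro i hi hxi
    rw [hs, Finset.mem_filter] at hi
    apply hi.2 x hx hxi
    refine ⟨y, ?_, hp⟩
    obtain ⟨k, ⟨t, ⟨ht0, ht1⟩, rfl⟩, rfl⟩ := hy
    rw [ev_ln]
    have : ev g.l x + t * (x - g.z) - ev g.l x = t * (x - g.z) := by ring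
    rw [this, abs_mul, abs_of_nonneg ht0]
    refine le_trans ?_ hthin
    exact mul_le_mul ht1 (abs_le_of_Icc hx) (abs_nonneg _) hr
  · exact (measurable_const.indicator (measurableSet_toMeasurable _ _)).const_add _
  · intro x hx
    beta_reduce
    have hx' : x ∈ Set.Icc (0:ℝ) 1 := ⟨hx.1, hx.2.le⟩
    by_cases hN' : x ∈ Near
    · have hm : x ∈ toMeasurable volume Near := subset_toMeasurable _ _ hN'
      rw [Set.indicator_of_mem hm]
      refine le_trans ?_ (le_add_of_nonneg_left zero_le)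
      refine (measure_mono (close_thick h2 hx')).trans ?_
      have hρ1 : 0 ≤ min ρ0 (ε / 4) + min η (ε / 4) := by positivity
      refine (vol_thick_fan g hr x _ hρ1).trans ?_
      apply ENNReal.ofReal_le_ofReal
      have a1 : min ρ0 (ε / 4) ≤ ε / 4 := min_le_right _ _
      have a2 : min η (ε / 4) ≤ ε / 4 := min_le_right _ _
      have a3 : g.r * |x - g.z| ≤ g.r * (1 + |g.z|) :=
        mul_le_mul_of_nonneg_left (abs_le_of_Icc hx') hr
      linarith
    · refine le_trans ?_ le_self_add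
      set i : ℕ := ⌊x * N⌋₊ with hi
      have hxN : 0 ≤ x * N := mul_nonneg hx.1 hN0.le
      have i1 : (i:ℝ) ≤ x * N := Nat.floor_le hxN
      have i2 : x * N < i + 1 := Nat.lt_floor_add_one _
      have hiN : i < N := by
        have : (i:ℝ) < N := by
          have := mul_lt_mul_of_pos_right hx.2 hN0
          linarith
        exact_mod_cast this
      have hcell : x ∈ Set.Icc ((i:ℝ) / N) (((i:ℝ) + 1) / N) := by
        constructor
        · rw [div_le_iff₀ hN0]; exact i1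
        · rw [le_div_iff₀ hN0]; exact i2.le
      have his : i ∈ s := by
        rw [hs, Finset.mem_filter]
        refine ⟨Finset.mem_range.2 hiN, ?_⟩
        rintro x' hx'1 ⟨j1, j2⟩ ⟨y, hy, hyA⟩
        apply hN'
        refine ⟨y - x' ^ 2, hyA.2, ?_⟩
        have hd : |x - x'| ≤ 2 / N := by
          have e1 : (2:ℝ) / N = 1 / N + 1 / N := by ring
          have e2 : ((i:ℝ) + 1) / N = i / N + 1 / N := by ring
          rw [abs_le]
          constructor <;> [linarith [hcell.1, hcell.2]; linarith [hcell.1, hcell.2]]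
        have e : (g.l.2 - g.l.1) * x + g.l.1 - x ^ 2 - (y - x' ^ 2) =
            ((g.l.2 - g.l.1) - (x + x')) * (x - x') + (ev g.l x' - y) := by
          rw [ev_eq]; ring
        rw [e]
        have b1 : |((g.l.2 - g.l.1) - (x + x')) * (x - x')| ≤ σ / 4 := by
          rw [abs_mul]
          refine le_trans ?_ hN2
          apply mul_le_mul _ hd (abs_nonneg _) (by positivity)
          have := abs_sub (g.l.2 - g.l.1) (x + x')
          have h6 : |x + x'| ≤ 2 := by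
            rw [abs_le]; constructor <;> linarith [hx.1, hx.2, hx'1.1, hx'1.2]
          rw [← hB] at this
          linarith
        have b2 : |ev g.l x' - y| ≤ σ / 4 := by rw [abs_sub_comm]; exact hy
        have := abs_add_le (((g.l.2 - g.l.1) - (x + x')) * (x - x')) (ev g.l x' - y)
        linarith
      exact (measure_mono (thick_mono (min_le_left _ _))).trans (h4 x hx' ⟨i, his, hcell⟩)
  · rw [lintegral_add_left measurable_const, lintegral_const, Measure.restrict_apply_univ,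
      Real.volume_Ico, lintegral_indicator (measurableSet_toMeasurable _ _), lintegral_const,
      Measure.restrict_apply_univ]
    have h5 : (volume.restrict (Set.Ico (0:ℝ) 1)) (toMeasurable volume Near) ≤
        ENNReal.ofReal (60 * (2 / 3) ^ n) :=
      (Measure.restrict_apply_le _ _).trans (by rw [measure_toMeasurable]; exact hNvol)
    have hc : 0 ≤ g.r * (1 + |g.z|) + ε := by positivity
    rw [ENNReal.ofReal_add hε.le (by positivity), sub_zero, ENNReal.ofReal_one, mul_one]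
    gcongr
    rw [mul_comm, ENNReal.ofReal_mul (by positivity)]
    gcongr

/-- cutting a fan into thin fans -/
theorem cut (f : Fan) (hr : 0 ≤ f.r) (τ : ℝ) (hτ : 0 < τ) :
    ∃ G : List Fan, (∀ g ∈ G, 0 ≤ g.r ∧ g.r * (1 + |g.z|) ≤ τ) ∧ lines G = f.lines ∧
      (G.map (fun g => g.r * (1 + |g.z|))).sum ≤ f.r * (1 + |f.z|) := by
  obtain ⟨M, hM⟩ := exists_nat_gt (f.r * (1 + |f.z|) / τ)
  have hM0 : (0:ℝ) < M := lt_of_le_of_lt (by positivity) hM
  have hMpos : 0 < M := by exact_mod_cast hM0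
  rw [div_lt_iff₀ hτ] at hM
  let q : ℝ := f.r / M
  have hq : 0 ≤ q := by positivity
  have hqM : (M:ℝ) * q = f.r := by simp only [q]; field_simp
  let g : ℕ → Fan := fun i => ⟨f.ln (i * q), f.z, q⟩
  have hg : ∀ i s, (g i).ln s = f.ln (i * q + s) := by
    intro i s
    simp only [Fan.ln, g, Prod.mk.injEq]
    constructor <;> ring
  refine ⟨(List.range M).map g, ?_, ?_, ?_⟩
  · intro h hh
    obtain ⟨i, hi, rfl⟩ := List.mem_map.1 hh
    refine ⟨hq, ?_⟩
    show f.r / M * (1 + |f.z|) ≤ τ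
    rw [div_mul_eq_mul_div, div_le_iff₀ hM0]; linarith
  · ext k
    constructor
    · rintro ⟨h, hh, s, ⟨hs0, hs1⟩, rfl⟩
      obtain ⟨i, hi, rfl⟩ := List.mem_map.1 hh
      rw [List.mem_range] at hi
      refine ⟨i * q + s, ⟨by positivity, ?_⟩, hg i s⟩
      have h1 : ((i:ℝ) + 1) * q ≤ M * q := mul_le_mul_of_nonneg_right (by exact_mod_cast hi) hq
      have h2 : s ≤ q := hs1
      linarith
    · rintro ⟨s, hs, rfl⟩
      obtain ⟨i, hi, h1, h2⟩ := split M hMpos hs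
      refine ⟨g i, List.mem_map.2 ⟨i, List.mem_range.2 hi, rfl⟩, s - i * q, ⟨?_, ?_⟩, ?_⟩
      · show (0:ℝ) ≤ s - i * (f.r / M); linarith
      · show s - i * (f.r / M) ≤ f.r / M; linarith
      · rw [hg]; congr 1; ring
  · rw [List.map_map]
    have : ((fun g : Fan => g.r * (1 + |g.z|)) ∘ g) = fun _ => q * (1 + |f.z|) := rfl
    rw [this, List.map_const', List.sum_replicate, List.length_range, nsmul_eq_mul, ← mul_assoc,
      hqM]

theorem lintegral_list (μ : Measure ℝ) (G : List Fan) (φ : Fan → ℝ → ENNReal)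
    (h : ∀ g ∈ G, Measurable (φ g)) :
    ∫⁻ x, (G.map (fun g => φ g x)).sum ∂μ = (G.map (fun g => ∫⁻ x, φ g x ∂μ)).sum := by
  induction G with
  | nil => simp
  | cons g G ih =>
    simp only [List.map_cons, List.sum_cons]
    rw [lintegral_add_left (h g (by simp)), ih (fun g' hg' => h g' (by simp [hg']))]

theorem sum_ofReal (G : List Fan) (ψ : Fan → ℝ) (h : ∀ g ∈ G, 0 ≤ ψ g) :
    (G.map (fun g => ENNReal.ofReal (ψ g))).sum = ENNReal.ofReal ((G.map ψ).sum) := by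
  induction G with
  | nil => simp
  | cons g G ih =>
    simp only [List.map_cons, List.sum_cons]
    rw [ih (fun g' hg' => h g' (by simp [hg'])), ENNReal.ofReal_add (h g (by simp))]
    apply List.sum_nonneg
    intro a ha
    obtain ⟨g', hg', rfl⟩ := List.mem_map.1 ha
    exact h g' (by simp [hg'])

theorem sum_le_sum_list (G : List Fan) (φ ψ : Fan → ENNReal) (h : ∀ g ∈ G, φ g ≤ ψ g) :
    (G.map φ).sum ≤ (G.map ψ).sum := by
  induction G with
  | nil => simp
  | cons g G ih =>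
    simp only [List.map_cons, List.sum_cons]
    exact add_le_add (h g (by simp)) (ih (fun g' hg' => h g' (by simp [hg'])))

/-- the density step -/
theorem step (T : List Fan) (hT : ∀ f ∈ T, 0 ≤ f.r) (η ε : ℝ) (hη : 0 < η) (hε : 0 < ε) :
    ∃ T' : List Fan, (∀ f ∈ T', 0 ≤ f.r) ∧ close η (lines T') (lines T) ∧
      (∀ p ∈ A, p.2 ∈ slice (lines T) p.1 → p.2 ∈ slice (lines T') p.1) ∧
      ∃ ρ > 0, ∫⁻ x in Set.Ico (0:ℝ) 1, volume (thick (lines T') x ρ) ≤ ENNReal.ofReal ε := by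
  set Λ : ℝ := (T.map (fun g => g.r * (1 + |g.z|))).sum with hΛ
  have hΛ0 : 0 ≤ Λ := by
    apply List.sum_nonneg
    intro a ha
    obtain ⟨g', hg', rfl⟩ := List.mem_map.1 ha
    have := hT g' hg'; positivity
  obtain ⟨n, hn⟩ := exists_pow_lt_of_lt_one (show 0 < ε / (120 * (Λ + 1)) by positivity)
    (show (2/3 : ℝ) < 1 by norm_num)
  rw [lt_div_iff₀ (by positivity)] at hn
  have hpn : (0:ℝ) < (2/3)^n := by positivity
  have hpn1 : ((2:ℝ)/3)^n ≤ 1 := pow_le_one₀ (by norm_num) (by norm_num)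
  have hcut : ∀ f ∈ T, ∃ G : List Fan, (∀ g ∈ G, 0 ≤ g.r ∧ g.r * (1 + |g.z|) ≤ (1/3)^n / 4) ∧
      lines G = f.lines ∧ (G.map (fun g => g.r * (1 + |g.z|))).sum ≤ f.r * (1 + |f.z|) :=
    fun f hf => cut f (hT f hf) _ (by positivity)
  choose! C hC1 hC2 hC3 using hcut
  set G := T.flatMap C with hG
  have hG1 : ∀ g ∈ G, 0 ≤ g.r ∧ g.r * (1 + |g.z|) ≤ (1/3)^n / 4 := by
    intro g hg
    obtain ⟨f, hf, hg'⟩ := List.mem_flatMap.1 hg
    exact hC1 f hf g hg'
  have hG2 : (G.map (fun g => g.r * (1 + |g.z|))).sum ≤ Λ := sum_flatMap T C _ _ hC3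
  set ε' : ℝ := ε / (122 * (G.length + 1)) with hε'
  have hε'0 : 0 < ε' := by positivity
  have hthin : ∀ g ∈ G, ∃ T : List Fan, (∀ h ∈ T, 0 ≤ h.r) ∧ close η (lines T) g.lines ∧
      (∀ p ∈ A, p.2 ∈ slice g.lines p.1 → p.2 ∈ slice (lines T) p.1) ∧
      ∃ ρ > 0, ∃ φ : ℝ → ENNReal, Measurable φ ∧
        (∀ x ∈ Set.Ico (0:ℝ) 1, volume (thick (lines T) x ρ) ≤ φ x) ∧
        ∫⁻ x in Set.Ico (0:ℝ) 1, φ x ≤
          ENNReal.ofReal (ε' + 60 * (2 / 3) ^ n * (g.r * (1 + |g.z|) + ε')) :=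
    fun g hg => thin g (hG1 g hg).1 n (hG1 g hg).2 η ε' hη hε'0
  choose! S hS1 hS2 hS3 ρ hρ φ hφ1 hφ2 hφ3 using hthin
  obtain ⟨ρ', hρ', hρ'1⟩ := exists_pos_le G ρ hρ
  refine ⟨G.flatMap S, ?_, ?_, ?_, ρ', hρ', ?_⟩
  · intro g hg
    obtain ⟨f, hf, hg'⟩ := List.mem_flatMap.1 hg
    exact hS1 f hf g hg'
  · have h1 := close_flatMap G S η hS2
    have h2 : lines G = lines T := by
      rw [hG, lines_flatMap]
      ext k
      constructor
      · rintro ⟨f, hf, hk⟩; exact ⟨f, hf, by rwa [hC2 f hf] at hk⟩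
      · rintro ⟨f, hf, hk⟩; exact ⟨f, hf, by rwa [hC2 f hf]⟩
    rwa [h2] at h1
  · rintro p hp ⟨k, ⟨f, hf, hk⟩, hy⟩
    have hk' : k ∈ lines (C f) := by rwa [hC2 f hf]
    obtain ⟨g, hg, hkg⟩ := hk'
    have hgG : g ∈ G := List.mem_flatMap.2 ⟨f, hf, hg⟩
    obtain ⟨k', hk', hy'⟩ := hS3 g hgG p hp ⟨k, hkg, hy⟩
    rw [lines_flatMap]
    exact ⟨k', ⟨g, hgG, hk'⟩, hy'⟩
  · have h1 : ∫⁻ x in Set.Ico (0:ℝ) 1, volume (thick (lines (G.flatMap S)) x ρ') ≤
        ∫⁻ x in Set.Ico (0:ℝ) 1, (G.map (fun g => φ g x)).sum := by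
      apply setLIntegral_mono' measurableSet_Ico
      intro x hx
      apply thick_flatMap_vol G S x ρ' (fun g => φ g x)
      intro g hg
      exact (measure_mono (thick_mono (hρ'1 g hg))).trans (hφ2 g hg x hx)
    refine h1.trans ?_
    rw [lintegral_list _ G φ hφ1]
    refine (sum_le_sum_list G _ _ hφ3).trans ?_
    rw [sum_ofReal G (fun g => ε' + 60 * (2 / 3) ^ n * (g.r * (1 + |g.z|) + ε')) (fun g hg => by
      have := (hG1 g hg).1; positivity)]
    apply ENNReal.ofReal_le_ofReal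
    have h2 : (G.map (fun g => ε' + 60 * (2 / 3) ^ n * (g.r * (1 + |g.z|) + ε'))).sum =
        G.length * (ε' + 60 * (2 / 3) ^ n * ε') +
          60 * (2 / 3) ^ n * (G.map (fun g => g.r * (1 + |g.z|))).sum := by
      clear_value G ε'
      clear hG hG1 hG2 hS1 hS2 hS3 hρ hφ1 hφ2 hφ3 hρ'1 h1 hε'0 hε'
      induction G with
      | nil => simp
      | cons g G ih =>
        simp only [List.map_cons, List.sum_cons, List.length_cons, Nat.cast_add, Nat.cast_one]
        rw [ih]; ring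
    rw [h2]
    have h3 : ε' * (122 * (G.length + 1)) = ε := by rw [hε']; field_simp
    have h4 : 60 * (2 / 3 : ℝ) ^ n * (G.map (fun g => g.r * (1 + |g.z|))).sum ≤ ε / 2 := by
      have : 60 * (2 / 3 : ℝ) ^ n * (G.map (fun g => g.r * (1 + |g.z|))).sum ≤
          60 * (2 / 3 : ℝ) ^ n * Λ := mul_le_mul_of_nonneg_left hG2 (by positivity)
      nlinarith
    have h5 : (G.length : ℝ) * (ε' + 60 * (2 / 3) ^ n * ε') ≤ G.length * (61 * ε') := by
      apply mul_le_mul_of_nonneg_left _ (by positivity)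
      nlinarith
    nlinarith

theorem isCompact_fan (f : Fan) : IsCompact f.lines := by
  have : f.lines = f.ln '' Set.Icc 0 f.r := by
    ext k; constructor
    · rintro ⟨s, hs, rfl⟩; exact ⟨s, hs, rfl⟩
    · rintro ⟨s, hs, rfl⟩; exact ⟨s, hs, rfl⟩
  rw [this]
  apply isCompact_Icc.image
  unfold Fan.ln
  fun_prop

theorem isCompact_lines (T : List Fan) : IsCompact (lines T) := by
  induction T with
  | nil =>
    have : lines [] = ∅ := by ext k; simp [lines]
    rw [this]; exact isCompact_empty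
  | cons f T ih =>
    have : lines (f :: T) = f.lines ∪ lines T := by
      ext k
      simp only [lines, List.mem_cons, Set.mem_ofPred_eq, Set.mem_union]
      constructor
      · rintro ⟨g, rfl | hg, hk⟩
        · exact Or.inl hk
        · exact Or.inr ⟨g, hg, hk⟩
      · rintro (hk | ⟨g, hg, hk⟩)
        · exact ⟨f, Or.inl rfl, hk⟩
        · exact ⟨g, Or.inr hg, hk⟩
    rw [this]
    exact (isCompact_fan f).union ih

/-- closed neighbourhood -/
def Nb (L : Set (ℝ × ℝ)) (η : ℝ) : Set (ℝ × ℝ) :=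
  {k | ∃ k0 ∈ L, |k.1 - k0.1| ≤ η ∧ |k.2 - k0.2| ≤ η}

theorem isCompact_Nb {L : Set (ℝ × ℝ)} (hL : IsCompact L) (η : ℝ) : IsCompact (Nb L η) := by
  have : Nb L η = (fun p : (ℝ × ℝ) × (ℝ × ℝ) => (p.1.1 + p.2.1, p.1.2 + p.2.2)) ''
      (L ×ˢ (Set.Icc (-η) η ×ˢ Set.Icc (-η) η)) := by
    ext k
    constructor
    · rintro ⟨k0, hk0, h1, h2⟩
      refine ⟨(k0, (k.1 - k0.1, k.2 - k0.2)), ⟨hk0, abs_le.1 h1, abs_le.1 h2⟩, ?_⟩
      simp
    · rintro ⟨⟨k0, e⟩, ⟨hk0, h1, h2⟩, rfl⟩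
      refine ⟨k0, hk0, ?_, ?_⟩
      · simpa [abs_le] using h1
      · simpa [abs_le] using h2
  rw [this]
  apply (hL.prod (isCompact_Icc.prod isCompact_Icc)).image
  fun_prop

/-- the plane set of a family of lines over `[0, 1]` -/
def K (L : Set (ℝ × ℝ)) : Set (ℝ × ℝ) := {p | p.1 ∈ Set.Icc (0:ℝ) 1 ∧ ∃ k ∈ L, ev k p.1 = p.2}

theorem isCompact_K {L : Set (ℝ × ℝ)} (hL : IsCompact L) : IsCompact (K L) := by
  have : K L = (fun p : ℝ × (ℝ × ℝ) => (p.1, ev p.2 p.1)) '' (Set.Icc (0:ℝ) 1 ×ˢ L) := by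
    ext ⟨x, y⟩
    constructor
    · rintro ⟨hx, k, hk, hy⟩
      refine ⟨(x, k), ⟨hx, hk⟩, ?_⟩
      simp only at hy
      simp [hy]
    · rintro ⟨⟨x', k⟩, ⟨hx, hk⟩, h⟩
      simp only [Prod.mk.injEq] at h
      obtain ⟨rfl, rfl⟩ := h
      exact ⟨hx, k, hk, rfl⟩
  rw [this]
  apply (isCompact_Icc.prod hL).image
  unfold ev
  fun_prop

theorem limit : ∃ Λ : Set (ℝ × ℝ), IsCompact Λ ∧ (∀ p ∈ A, p ∈ K Λ) ∧ volume (K Λ) = 0 ∧
    ∀ d : ℝ, ∀ ε > 0, ∃ L : List (ℝ × ℝ), (∀ b ∈ L, 0 < b.2) ∧ (L.map (fun b => 2 * b.2)).sum ≤ ε ∧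
      ∀ k ∈ Λ, k.2 - k.1 = d → ∃ b ∈ L, |k.1 - b.1| ≤ b.2 := by
  classical
  let P : Type := {p : List Fan × ℝ // ((∀ f ∈ p.1, 0 ≤ f.r) ∧
    (∀ q ∈ A, q.2 ∈ slice (lines p.1) q.1)) ∧ 0 < p.2}
  have next : ∀ (j : ℕ) (p : P), ∃ q : P, q.1.2 ≤ p.1.2 / 2 ∧
      close (p.1.2 / 2) (lines q.1.1) (lines p.1.1) ∧
      ∫⁻ x in Set.Ico (0:ℝ) 1, volume (thick (lines q.1.1) x q.1.2) ≤
        ENNReal.ofReal (1 / ((j:ℝ) + 1)) ∧
      (q.1.1.map (fun g => 8 * |g.z| + 8)).sum * q.1.2 ≤ 1 / ((j:ℝ) + 1) := by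
    rintro j ⟨⟨T, η⟩, ⟨hT, hA⟩, hη⟩
    simp only at hT hA hη ⊢
    obtain ⟨T', h1, h2, h3, ρ, hρ, h4⟩ := step T hT (η / 2) (1 / ((j:ℝ) + 1)) (by linarith)
      (by positivity)
    set W : ℝ := (T'.map (fun g => 8 * |g.z| + 8)).sum with hW
    have hW0 : 0 ≤ W := by
      apply List.sum_nonneg
      intro a ha
      obtain ⟨g', hg', rfl⟩ := List.mem_map.1 ha
      positivity
    set η' : ℝ := min (min ρ (η / 2)) (1 / (((j:ℝ) + 1) * (W + 1))) with hη'
    have hη'0 : 0 < η' := by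
      apply lt_min (lt_min hρ (by linarith)) (by positivity)
    refine ⟨⟨(T', η'), ⟨h1, fun q hq => h3 q hq (hA q hq)⟩, hη'0⟩, ?_, h2, ?_, ?_⟩
    · exact (min_le_left _ _).trans (min_le_right _ _)
    · refine le_trans (lintegral_mono (fun x => measure_mono (thick_mono ?_))) h4
      exact (min_le_left _ _).trans (min_le_left _ _)
    · have h5 : η' ≤ 1 / (((j:ℝ) + 1) * (W + 1)) := min_le_right _ _
      calc W * η' ≤ W * (1 / (((j:ℝ) + 1) * (W + 1))) := mul_le_mul_of_nonneg_left h5 hW0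
        _ ≤ (W + 1) * (1 / (((j:ℝ) + 1) * (W + 1))) :=
            mul_le_mul_of_nonneg_right (by linarith) (by positivity)
        _ = 1 / ((j:ℝ) + 1) := by field_simp
  choose nx hn1 hn2 hn3 hn4 using next
  let p0 : P := ⟨([⟨(0, 0), -1, 2⟩], 1), ⟨by simp, by
    rintro ⟨x, y⟩ ⟨hx, hy⟩
    simp only at hx hy ⊢
    have hy1 := cantorSet_subset_unitInterval hy
    have hx1 : (0:ℝ) < x + 1 := by linarith [hx.1]
    refine ⟨Fan.ln ⟨(0, 0), -1, 2⟩ (y / (x + 1)), ⟨_, by simp, y / (x + 1), ⟨?_, ?_⟩, rfl⟩, ?_⟩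
    · have := hy1.1
      have : 0 ≤ y := by nlinarith [sq_nonneg x]
      positivity
    · simp only
      rw [div_le_iff₀ hx1]
      have := hy1.2
      nlinarith [hx.1, hx.2]
    · rw [ev_ln]
      simp only [ev]
      field_simp
      ring⟩, one_pos⟩
  let q : ℕ → P := fun j => Nat.rec p0 (fun j p => nx j p) j
  have hq : ∀ j, q (j + 1) = nx j (q j) := fun j => rfl
  set T : ℕ → List Fan := fun j => (q j).1.1 with hT
  set η : ℕ → ℝ := fun j => (q j).1.2 with hη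
  have hη0 : ∀ j, 0 < η j := fun j => (q j).2.2
  have hA : ∀ j, ∀ p ∈ A, p.2 ∈ slice (lines (T j)) p.1 := fun j => (q j).2.1.2
  have e1 : ∀ j, η (j + 1) ≤ η j / 2 := fun j => hn1 j (q j)
  have e2 : ∀ j, close (η j / 2) (lines (T (j + 1))) (lines (T j)) := fun j => hn2 j (q j)
  have e3 : ∀ j : ℕ, ∫⁻ x in Set.Ico (0:ℝ) 1, volume (thick (lines (T (j + 1))) x (η (j + 1))) ≤
      ENNReal.ofReal (1 / ((j:ℝ) + 1)) := fun j => hn3 j (q j)
  have e4 : ∀ j : ℕ, ((T (j + 1)).map (fun g => 8 * |g.z| + 8)).sum * η (j + 1) ≤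
      1 / ((j:ℝ) + 1) := fun j => hn4 j (q j)
  set N : ℕ → Set (ℝ × ℝ) := fun j => Nb (lines (T j)) (η j) with hN
  have hNc : ∀ j, IsCompact (N j) := fun j => isCompact_Nb (isCompact_lines _) _
  have hNsub : ∀ j, N (j + 1) ⊆ N j := by
    rintro j k ⟨k0, hk0, h1, h2⟩
    obtain ⟨k1, hk1, h3, h4⟩ := e2 j k0 hk0
    have := e1 j
    refine ⟨k1, hk1, ?_, ?_⟩
    · have := abs_sub_le k.1 k0.1 k1.1; linarith
    · have := abs_sub_le k.2 k0.2 k1.2; linarith
  have hNI : IsCompact (⋂ j, N j) := (hNc 0).of_isClosed_subset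
    (isClosed_iInter fun j => (hNc j).isClosed) (Set.iInter_subset _ 0)
  refine ⟨⋂ j, N j, hNI, ?_, ?_, ?_⟩
  · rintro p hp
    refine ⟨hp.1, ?_⟩
    have hne := IsCompact.nonempty_iInter_of_sequence_nonempty_isCompact_isClosed
      (fun j => N j ∩ {k | ev k p.1 = p.2})
      (fun j => Set.inter_subset_inter_left _ (hNsub j))
      (fun j => by
        obtain ⟨k, hk, hy⟩ := hA j p hp
        exact ⟨k, ⟨k, hk, by simpa using (hη0 j).le, by simpa using (hη0 j).le⟩, hy⟩)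
      ((hNc 0).inter_right (isClosed_eq (by unfold ev; fun_prop) continuous_const))
      (fun j => (hNc j).isClosed.inter (isClosed_eq (by unfold ev; fun_prop) continuous_const))
    obtain ⟨k, hk⟩ := hne
    rw [Set.mem_iInter] at hk
    exact ⟨k, Set.mem_iInter.2 (fun j => (hk j).1), (hk 0).2⟩
  · have hKc : IsCompact (K (⋂ j, N j)) := isCompact_K hNI
    have hle : ∀ j : ℕ, volume (K (⋂ j, N j)) ≤ ENNReal.ofReal (1 / ((j:ℝ) + 1)) := by
      intro j
      rw [Measure.volume_eq_prod, Measure.prod_apply hKc.measurableSet]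
      have h1 : ∫⁻ x, volume (Prod.mk x ⁻¹' K (⋂ j, N j)) ≤
          ∫⁻ x in Set.Icc (0:ℝ) 1, volume (thick (lines (T (j + 1))) x (η (j + 1))) := by
        rw [← lintegral_indicator measurableSet_Icc]
        apply lintegral_mono
        intro x
        by_cases hx : x ∈ Set.Icc (0:ℝ) 1
        · simp only [Set.indicator_of_mem hx]
          apply measure_mono
          rintro y ⟨_, k, hk, hy⟩
          obtain ⟨k0, hk0, h1, h2⟩ := Set.mem_iInter.1 hk (j + 1)
          refine ⟨k0, hk0, ?_⟩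
          simp only at hy
          rw [← hy, abs_sub_comm]
          exact ev_close h1 h2 hx
        · simp only [Set.indicator_of_notMem hx, nonpos_iff_eq_zero]
          have : Prod.mk x ⁻¹' K (⋂ j, N j) = ∅ := by
            ext y
            simp only [Set.mem_preimage, Set.mem_empty_iff_false, iff_false]
            rintro ⟨h, _⟩
            exact hx h
          rw [this, measure_empty]
      refine h1.trans ?_
      rw [← setLIntegral_congr (Ico_ae_eq_Icc (μ := volume) (a := (0:ℝ)) (b := 1))]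
      exact e3 j
    have htend : Filter.Tendsto (fun j : ℕ => ENNReal.ofReal (1 / ((j:ℝ) + 1))) Filter.atTop
        (nhds 0) := by
      rw [← ENNReal.ofReal_zero]
      exact ENNReal.tendsto_ofReal tendsto_one_div_add_atTop_nhds_zero_nat
    exact le_antisymm (ge_of_tendsto' htend hle) zero_le
  · intro d ε hε
    obtain ⟨j, hj⟩ := exists_nat_one_div_lt hε
    refine ⟨(T (j + 1)).map (fun f => (f.l.1 - (d - (f.l.2 - f.l.1)) * f.z,
      η (j + 1) * (2 * |f.z| + 1))), ?_, ?_, ?_⟩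
    · intro b hb
      obtain ⟨f, hf, rfl⟩ := List.mem_map.1 hb
      have := hη0 (j + 1)
      positivity
    · refine le_trans ?_ ((e4 j).trans hj.le)
      rw [List.map_map]
      have hh := hη0 (j + 1)
      generalize T (j + 1) = T'
      generalize η (j + 1) = η' at hh
      induction T' with
      | nil => simp
      | cons f T' ih =>
        simp only [List.map_cons, List.sum_cons, Function.comp_apply]
        have := abs_nonneg f.z
        have h9 : 0 ≤ η' * |f.z| := by positivity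
        nlinarith
    · intro k hk hkd
      obtain ⟨k0, ⟨f, hf, s, hs, rfl⟩, h1, h2⟩ := Set.mem_iInter.1 hk (j + 1)
      refine ⟨_, List.mem_map.2 ⟨f, hf, rfl⟩, ?_⟩
      simp only [Fan.ln] at h1 h2 ⊢
      have h3 : |d - (f.l.2 - f.l.1) - s| ≤ 2 * η (j + 1) := by
        rw [abs_le] at h1 h2 ⊢
        constructor <;> nlinarith
      have e : k.1 - (f.l.1 - (d - (f.l.2 - f.l.1)) * f.z) =
          (k.1 - (f.l.1 - s * f.z)) + (d - (f.l.2 - f.l.1) - s) * f.z := by ring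
      rw [e]
      refine (abs_add_le _ _).trans ?_
      rw [abs_mul]
      have := mul_le_mul_of_nonneg_right h3 (abs_nonneg f.z)
      linarith

end Q101.StC
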