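import Pool.Agent.Q101.StC

set_option autoImplicit false

namespace Q101.StD

open MeasureTheory Q101.StA Q101.StB Q101.StC

/-- a choice of pairwise different elements -/
theorem select {I : Type} (hI : Cardinal.mk I ≤ Cardinal.continuum) (D : I → Set ℝ)
    (hD : ∀ i, Cardinal.continuum ≤ Cardinal.mk (D i)) :
    ∃ f : I → ℝ, Function.Injective f ∧ ∀ i, f i ∈ D i := by
  classical
  obtain ⟨r, wo, hr⟩ := Cardinal.exists_ord_eq I
  have hwf : WellFounded r := wo.wf
  let F : ∀ i : I, (∀ j, r j i → ℝ) → ℝ := fun i g =>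
    if h : (D i \ Set.range (fun j : {j // r j i} => g j.1 j.2)).Nonempty then h.choose else 0
  let f : I → ℝ := hwf.fix F
  have hf : ∀ i, f i = F i (fun j _ => f j) := fun i => hwf.fix_eq F i
  have hne : ∀ i, (D i \ Set.range (fun j : {j // r j i} => f j.1)).Nonempty := by
    intro i
    by_contra hcon
    rw [Set.not_nonempty_iff_eq_empty, Set.sdiff_eq_empty] at hcon
    have h1 : Cardinal.mk (D i) ≤ Cardinal.mk {j // r j i} :=
      (Cardinal.mk_le_mk_of_subset hcon).trans Cardinal.mk_range_le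
    have h2 : Cardinal.mk {j // r j i} < Cardinal.mk I := by
      have h3 := Ordinal.card_typein (r := r) i
      have h4 := Cardinal.card_typein_lt (r := r) i hr
      exact h3 ▸ h4
    exact absurd ((hD i).trans h1) (not_le.2 (h2.trans_le hI))
  have hmem : ∀ i, f i ∈ D i \ Set.range (fun j : {j // r j i} => f j.1) := by
    intro i
    rw [hf i]
    have : F i (fun j _ => f j) = (hne i).choose := dif_pos (hne i)
    rw [this]
    exact (hne i).choose_spec
  refine ⟨f, ?_, fun i => (hmem i).1⟩
  intro i j hij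
  rcases trichotomous_of r i j with h | h | h
  · exact absurd ⟨⟨i, h⟩, hij⟩ (hmem j).2
  · exact h
  · exact absurd ⟨⟨j, h⟩, hij.symm⟩ (hmem i).2

theorem open_cover {ι : Type*} (α β c w : ι → ℝ) (hu : ∀ i, α i ^ 2 + β i ^ 2 = 1)
    (hw : ∀ i, 0 < w i) (hlt : ∑' i, ENNReal.ofReal (w i) < ENNReal.ofReal (1 / 80)) :
    ∃ p ∈ A, ∀ i, ¬ (c i < α i * p.1 + β i * p.2 ∧ α i * p.1 + β i * p.2 < c i + w i) := by
  by_contra hcon
  push Not at hcon
  obtain ⟨s, hscov⟩ := isCompact_A.elim_finite_subcover
    (fun i : ι => {p : ℝ × ℝ | c i < α i * p.1 + β i * p.2 ∧ α i * p.1 + β i * p.2 < c i + w i})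
    (fun i => by
      apply IsOpen.and
      · exact isOpen_lt (by fun_prop) (by fun_prop)
      · exact isOpen_lt (by fun_prop) (by fun_prop))
    (fun p hp => by
      obtain ⟨i, hi⟩ := hcon p hp
      exact Set.mem_iUnion.2 ⟨i, hi⟩)
  have h1 := finite_cover s α β c w (fun i _ => hu i) (fun i _ => hw i) (fun p hp => by
    have := hscov hp
    simp only [Set.mem_iUnion] at this
    obtain ⟨i, hi, h1, h2⟩ := this
    exact ⟨i, hi, h1.le, h2.le⟩)
  have h2 : ENNReal.ofReal (∑ i ∈ s, w i) < ENNReal.ofReal (1 / 80) := by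
    rw [ENNReal.ofReal_sum_of_nonneg (fun i _ => (hw i).le)]
    exact lt_of_le_of_lt (ENNReal.sum_le_tsum s) hlt
  rw [ENNReal.ofReal_lt_ofReal_iff (by norm_num)] at h2
  linarith

/-- index type of the countable families of strips: `(α, β, c, w)` -/
abbrev I : Type := ℕ → ℝ × ℝ × ℝ × ℝ

def Valid (F : I) : Prop :=
  (∀ i, (F i).1 ^ 2 + (F i).2.1 ^ 2 = 1 ∧ 0 ≤ (F i).2.2.2) ∧
    ∑' i, ENNReal.ofReal (F i).2.2.2 ≤ ENNReal.ofReal (1 / 1000)

/-- the closed strips of the family -/
def inStrip (F : I) (i : ℕ) (p : ℝ × ℝ) : Prop :=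
  (F i).2.2.1 ≤ (F i).1 * p.1 + (F i).2.1 * p.2 ∧
    (F i).1 * p.1 + (F i).2.1 * p.2 ≤ (F i).2.2.1 + (F i).2.2.2

noncomputable def tau (i : ℕ) : ℝ := 1 / 1000 * (1 / 2) ^ (i + 1)

theorem tau_pos (i : ℕ) : 0 < tau i := by unfold tau; positivity

theorem sum_tau : ∑' i, ENNReal.ofReal (tau i) = ENNReal.ofReal (1 / 1000) := by
  have h : HasSum tau (1 / 1000) := by
    have h1 : HasSum (fun i : ℕ => 1 / 2000 * ((1:ℝ) / 2) ^ i) (1 / 2000 * 2) :=
      hasSum_geometric_two.mul_left _
    have e : tau = fun i : ℕ => 1 / 2000 * ((1:ℝ) / 2) ^ i := by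
      funext i; unfold tau; rw [pow_succ]; ring
    rw [e]
    convert h1 using 1; norm_num
  rw [← ENNReal.ofReal_tsum_of_nonneg (fun i => (tau_pos i).le) h.summable, h.tsum_eq]

/-- enlarged open strips -/
def inOpen (F : I) (i : ℕ) (p : ℝ × ℝ) : Prop :=
  (F i).2.2.1 - tau i < (F i).1 * p.1 + (F i).2.1 * p.2 ∧
    (F i).1 * p.1 + (F i).2.1 * p.2 < (F i).2.2.1 - tau i + ((F i).2.2.2 + 2 * tau i)

theorem inOpen_of {F : I} {i : ℕ} {p : ℝ × ℝ} (h : inStrip F i p) : inOpen F i p := by
  have := tau_pos i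
  exact ⟨by linarith [h.1], by linarith [h.2]⟩

theorem mk_I : Cardinal.mk I ≤ Cardinal.continuum := by
  have h : Cardinal.mk (ℝ × ℝ × ℝ × ℝ) = Cardinal.continuum := by
    simp [Cardinal.mk_prod, Cardinal.mk_real]
  have : Cardinal.mk I = (Cardinal.mk (ℝ × ℝ × ℝ × ℝ)) ^ Cardinal.mk ℕ := by
    simp [I]
  rw [this, h]
  simp

theorem list_sum_fin (L : List (ℝ × ℝ)) (g : ℝ × ℝ → ℝ) :
    (L.map g).sum = ∑ j : Fin L.length, g (L.get j) := by
  rw [← List.sum_ofFn]
  congr 1
  conv_lhs => rw [← List.ofFn_get L]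
  rw [List.map_ofFn]
  rfl

/-- the key selection: lines of different slopes, one not covered by each family of strips -/
theorem selection : ∃ Λ : Set (ℝ × ℝ), IsCompact Λ ∧ volume (K Λ) = 0 ∧
    ∃ (f : I → ℝ) (k : I → ℝ × ℝ), Function.Injective f ∧ ∀ F, Valid F →
      k F ∈ Λ ∧ (k F).2 - (k F).1 = f F ∧
      ∃ x ∈ Set.Icc (0:ℝ) 1, ∀ i, ¬ inStrip F i (x, ev (k F) x) := by
  classical
  obtain ⟨Λ, hΛ, hA, hvol, hdir⟩ := limit
  refine ⟨Λ, hΛ, hvol, ?_⟩
  -- lines not covered by the open strips
  let LF : I → Set (ℝ × ℝ) := fun F => {k | k ∈ Λ ∧ ∃ x ∈ Set.Icc (0:ℝ) 1,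
    ∀ i, ¬ inOpen F i (x, ev k x)}
  have hLF : ∀ F, IsCompact (LF F) := by
    intro F
    have e : LF F = Prod.snd '' ((Set.Icc (0:ℝ) 1 ×ˢ Λ) ∩
        {q : ℝ × (ℝ × ℝ) | ∀ i, ¬ inOpen F i (q.1, ev q.2 q.1)}) := by
      ext k
      constructor
      · rintro ⟨hk, x, hx, h⟩
        exact ⟨(x, k), ⟨⟨hx, hk⟩, h⟩, rfl⟩
      · rintro ⟨⟨x, k'⟩, ⟨⟨hx, hk⟩, h⟩, rfl⟩
        exact ⟨hk, x, hx, h⟩
    rw [e]
    apply IsCompact.image _ continuous_snd
    apply (isCompact_Icc.prod hΛ).inter_right
    have e2 : {q : ℝ × (ℝ × ℝ) | ∀ i, ¬ inOpen F i (q.1, ev q.2 q.1)} =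
        ⋂ i, {q : ℝ × (ℝ × ℝ) | inOpen F i (q.1, ev q.2 q.1)}ᶜ := by
      ext q; simp
    rw [e2]
    apply isClosed_iInter
    intro i
    apply IsOpen.isClosed_compl
    unfold inOpen ev
    apply IsOpen.and
    · exact isOpen_lt (by fun_prop) (by fun_prop)
    · exact isOpen_lt (by fun_prop) (by fun_prop)
  let D : I → Set ℝ := fun F => if Valid F then (fun k : ℝ × ℝ => k.2 - k.1) '' LF F else Set.univ
  have hD : ∀ F, Cardinal.continuum ≤ Cardinal.mk (D F) := by
    intro F
    by_cases hF : Valid F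
    · simp only [D, if_pos hF]
      have hcl : IsClosed ((fun k : ℝ × ℝ => k.2 - k.1) '' LF F) :=
        ((hLF F).image (by fun_prop)).isClosed
      have hunc : ¬ ((fun k : ℝ × ℝ => k.2 - k.1) '' LF F).Countable := by
        intro hcount
        obtain ⟨e, he⟩ := Set.countable_iff_exists_subset_range.1 hcount
        choose L hL1 hL2 hL3 using fun n : ℕ => hdir (e n) (tau n) (tau_pos n)
        let ι : Type := ℕ ⊕ (Σ n : ℕ, Fin (L n).length)
        let s : ℕ → ℝ := fun n => √(1 + e n ^ 2)
        have hs1 : ∀ n, 1 ≤ s n := fun n => by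
          simp only [s]
          rw [Real.le_sqrt' (by norm_num)]
          nlinarith [sq_nonneg (e n)]
        have hs2 : ∀ n, s n ^ 2 = 1 + e n ^ 2 := fun n => Real.sq_sqrt (by positivity)
        let α : ι → ℝ := Sum.elim (fun i => (F i).1) (fun j => -(e j.1) / s j.1)
        let β : ι → ℝ := Sum.elim (fun i => (F i).2.1) (fun j => 1 / s j.1)
        let c : ι → ℝ := Sum.elim (fun i => (F i).2.2.1 - tau i)
          (fun j => (((L j.1).get j.2).1 - 2 * ((L j.1).get j.2).2) / s j.1)
        let w : ι → ℝ := Sum.elim (fun i => (F i).2.2.2 + 2 * tau i)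
          (fun j => 4 * ((L j.1).get j.2).2 / s j.1)
        have hbpos : ∀ j : (Σ n : ℕ, Fin (L n).length), 0 < ((L j.1).get j.2).2 :=
          fun j => hL1 j.1 _ (List.get_mem _ _)
        obtain ⟨p, hp, hpn⟩ := open_cover α β c w (by
          rintro (i | j)
          · exact (hF.1 i).1
          · simp only [α, β, Sum.elim_inr]
            have := hs1 j.1
            rw [div_pow, div_pow, ← add_div, div_eq_one_iff_eq (by positivity), hs2]
            ring) (by
          rintro (i | j)
          · simp only [w, Sum.elim_inl]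
            have := (hF.1 i).2; have := tau_pos i; linarith
          · simp only [w, Sum.elim_inr]
            have := hs1 j.1; have := hbpos j
            positivity) (by
          rw [Summable.tsum_sum ENNReal.summable ENNReal.summable]
          simp only [w, Sum.elim_inl, Sum.elim_inr]
          have b1 : ∑' i, ENNReal.ofReal ((F i).2.2.2 + 2 * tau i) ≤
              ENNReal.ofReal (3 / 1000) := by
            have : ∀ i, ENNReal.ofReal ((F i).2.2.2 + 2 * tau i) =
                ENNReal.ofReal (F i).2.2.2 + 2 * ENNReal.ofReal (tau i) := by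
              intro i
              rw [ENNReal.ofReal_add (hF.1 i).2 (by have := tau_pos i; positivity),
                ENNReal.ofReal_mul (by norm_num)]
              simp
            simp_rw [this]
            rw [ENNReal.tsum_add, ENNReal.tsum_mul_left, sum_tau]
            refine (add_le_add_left hF.2 _).trans ?_
            rw [show (2:ENNReal) = ENNReal.ofReal 2 by simp, ← ENNReal.ofReal_mul (by norm_num),
              ← ENNReal.ofReal_add (by norm_num) (by norm_num)]
            apply ENNReal.ofReal_le_ofReal; norm_num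
          have b2 : ∑' j : (Σ n : ℕ, Fin (L n).length),
              ENNReal.ofReal (4 * ((L j.1).get j.2).2 / s j.1) ≤ ENNReal.ofReal (2 / 1000) := by
            rw [ENNReal.tsum_sigma' (fun j : (Σ n : ℕ, Fin (L n).length) =>
              ENNReal.ofReal (4 * ((L j.1).get j.2).2 / s j.1))]
            have : ∀ n, ∑' j : Fin (L n).length,
                ENNReal.ofReal (4 * ((L n).get j).2 / s n) ≤ 2 * ENNReal.ofReal (tau n) := by
              intro n
              rw [tsum_fintype]
              have h1 : ∀ j : Fin (L n).length, ENNReal.ofReal (4 * ((L n).get j).2 / s n) ≤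
                  ENNReal.ofReal (2 * (2 * ((L n).get j).2)) := by
                intro j
                apply ENNReal.ofReal_le_ofReal
                have := hs1 n
                have := hbpos ⟨n, j⟩
                simp only at this
                rw [div_le_iff₀ (by positivity)]
                nlinarith
              refine (Finset.sum_le_sum (fun j _ => h1 j)).trans ?_
              rw [← ENNReal.ofReal_sum_of_nonneg (fun j _ => by
                have := hbpos ⟨n, j⟩; simp only at this; positivity), ← Finset.mul_sum,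
                ENNReal.ofReal_mul (by norm_num)]
              have h2 := hL2 n
              rw [list_sum_fin] at h2
              rw [show ENNReal.ofReal 2 = 2 by simp]
              gcongr
            refine (ENNReal.tsum_le_tsum this).trans ?_
            rw [ENNReal.tsum_mul_left, sum_tau, show (2:ENNReal) = ENNReal.ofReal 2 by simp,
              ← ENNReal.ofReal_mul (by norm_num)]
            apply ENNReal.ofReal_le_ofReal; norm_num
          refine lt_of_le_of_lt (add_le_add b1 b2) ?_
          rw [← ENNReal.ofReal_add (by norm_num) (by norm_num),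
            ENNReal.ofReal_lt_ofReal_iff (by norm_num)]
          norm_num)
        obtain ⟨hx, k, hk, hy⟩ := hA p hp
        have hkL : k ∈ LF F := ⟨hk, p.1, hx, fun i hi => hpn (Sum.inl i) (by
          rw [hy] at hi
          exact hi)⟩
        obtain ⟨n, hn⟩ := he ⟨k, hkL, rfl⟩
        obtain ⟨b, hb, hbk⟩ := hL3 n k hk hn.symm
        obtain ⟨j, hj⟩ := List.get_of_mem hb
        have hb2 : 0 < b.2 := hL1 n b hb
        apply hpn (Sum.inr ⟨n, j⟩)
        simp only [α, β, c, w, Sum.elim_inr]
        rw [hj]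
        have hs0 : 0 < s n := lt_of_lt_of_le one_pos (hs1 n)
        have hval : -(e n) / s n * p.1 + 1 / s n * p.2 = k.1 / s n := by
          have hn' : e n = k.2 - k.1 := hn
          rw [← hy, ev_eq, ← hn']
          ring
        rw [hval]
        rw [abs_le] at hbk
        constructor
        · rw [div_lt_div_iff_of_pos_right hs0]; linarith
        · rw [← add_div, div_lt_div_iff_of_pos_right hs0]; linarith
      obtain ⟨g, hg1, _, hg2⟩ := hcl.exists_nat_bool_injection_of_not_countable hunc
      have h1 : Cardinal.mk (ℕ → Bool) = Cardinal.continuum := by simp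
      rw [← h1]
      exact Cardinal.mk_le_of_injective
        (f := fun b => (⟨g b, hg1 ⟨b, rfl⟩⟩ : ((fun k : ℝ × ℝ => k.2 - k.1) '' LF F)))
        (fun a b hab => hg2 (by simpa using congrArg Subtype.val hab))
    · simp only [D, if_neg hF]
      simp [Cardinal.mk_real]
  obtain ⟨f, hf1, hf2⟩ := select mk_I D hD
  have hk : ∀ F, ∃ k : ℝ × ℝ, Valid F → k ∈ LF F ∧ k.2 - k.1 = f F := by
    intro F
    by_cases hF : Valid F
    · have := hf2 F
      simp only [D, if_pos hF] at this
      obtain ⟨k, hk, hk2⟩ := this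
      exact ⟨k, fun _ => ⟨hk, hk2⟩⟩
    · exact ⟨0, fun h => absurd h hF⟩
  choose k hk using hk
  refine ⟨f, k, hf1, fun F hF => ?_⟩
  obtain ⟨⟨h1, x, hx, h2⟩, h3⟩ := hk F hF
  exact ⟨h1, h3, x, hx, fun i hi => h2 i (inOpen_of hi)⟩

end Q101.StD
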