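import Mathlib

set_option autoImplicit false

namespace Q101.StDefs

open MeasureTheory

/-- The Euclidean plane. -/
abbrev Plane : Type := EuclideanSpace ℝ (Fin 2)

/-- `S` is a closed strip of width `w > 0`: the points between the two parallel lines
`⟪u, v⟫ = c` and `⟪u, v⟫ = c + w`, where `u` is a unit vector. -/
def IsStrip (S : Set Plane) (w : ℝ) : Prop :=
  0 < w ∧ ∃ (u : Plane) (c : ℝ), ‖u‖ = 1 ∧ S = {v | c ≤ inner ℝ u v ∧ inner ℝ u v ≤ c + w}

/-- A Besicovitch set: bounded, Lebesgue null, with a closed unit segment in every direction. -/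
def IsBesicovitch (E : Set Plane) : Prop :=
  Bornology.IsBounded E ∧ volume E = 0 ∧
    ∀ e : Plane, ‖e‖ = 1 → ∃ x : Plane, segment ℝ x (x + e) ⊆ E

/-- `E` is covered by finitely or countably many closed strips of total width less than `ε`. -/
def HasStripCover (E : Set Plane) (ε : ℝ) : Prop :=
  ∃ (ι : Type) (_ : Countable ι) (S : ι → Set Plane) (w : ι → ℝ),
    (∀ i, IsStrip (S i) (w i)) ∧ (E ⊆ ⋃ i, S i) ∧ Summable w ∧ (∑' i, w i) < ε

/-- Property (S). -/
def PropertyS (E : Set Plane) : Prop := ∀ ε : ℝ, 0 < ε → HasStripCover E ε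

/-- The union of the unit segments `[x e, x e + e]` over all unit vectors `e`. -/
def segments (x : Plane → Plane) : Set Plane :=
  ⋃ e ∈ {e : Plane | ‖e‖ = 1}, segment ℝ (x e) (x e + e)

end Q101.StDefs
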