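import Mathlib

set_option autoImplicit false

open scoped ENNReal NNReal
open Filter Topology

namespace Q101.Strongly

variable {𝕜 : Type} [RCLike 𝕜]

/-- choice of signs in an inner product space -/
theorem exists_signs {H : Type*} [NormedAddCommGroup H] [InnerProductSpace 𝕜 H]
    {ι : Type*} [DecidableEq ι] (s : Finset ι) (v : ι → H) :
    ∃ ε : ι → ℝ, (∀ j, ε j = 1 ∨ ε j = -1) ∧
      ∑ j ∈ s, ‖v j‖ ^ 2 ≤ ‖∑ j ∈ s, ((ε j : ℝ) : 𝕜) • v j‖ ^ 2 := by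
  induction s using Finset.induction_on with
  | empty => exact ⟨fun _ => 1, fun _ => Or.inl rfl, by simp⟩
  | insert a s ha ih =>
    obtain ⟨ε, hε, h⟩ := ih
    set w := ∑ j ∈ s, ((ε j : ℝ) : 𝕜) • v j with hw
    have hupd : ∀ t : ℝ, ∑ j ∈ s, ((Function.update ε a t j : ℝ) : 𝕜) • v j = w := by
      intro t
      apply Finset.sum_congr rfl
      intro j hj
      rw [Function.update_of_ne (fun h : j = a => ha (by rw [← h]; exact hj))]
    have hεt : ∀ t : ℝ, t = 1 ∨ t = -1 → ∀ j, Function.update ε a t j = 1 ∨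
        Function.update ε a t j = -1 := by
      intro t ht j
      by_cases hj : j = a
      · subst hj; simpa using ht
      · rw [Function.update_of_ne hj]; exact hε j
    by_cases hre : 0 ≤ RCLike.re (inner 𝕜 (v a) w)
    · refine ⟨Function.update ε a 1, hεt 1 (Or.inl rfl), ?_⟩
      rw [Finset.sum_insert ha, Finset.sum_insert ha, hupd, Function.update_self,
        RCLike.ofReal_one, one_smul, norm_add_sq (𝕜 := 𝕜)]
      linarith
    · refine ⟨Function.update ε a (-1), hεt (-1) (Or.inr rfl), ?_⟩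
      rw [Finset.sum_insert ha, Finset.sum_insert ha, hupd, Function.update_self,
        RCLike.ofReal_neg, RCLike.ofReal_one, neg_one_smul, norm_add_sq (𝕜 := 𝕜), norm_neg,
        inner_neg_left, map_neg]
      linarith

section Space

variable (𝕜)

/-- the space `ℓ_p` -/
abbrev L (P : ℝ≥0∞) : Type := lp (fun _ : ℕ => 𝕜) P

variable {𝕜} {P : ℝ≥0∞} [Fact (1 ≤ P)]

/-- pointwise product -/
def mul (x y : L 𝕜 P) : L 𝕜 P :=
  ⟨fun i => x i * y i, by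
    have hP : P ≠ 0 := (zero_lt_one.trans_le Fact.out).ne'
    have h1 : Memℓp (fun i => (‖x‖ : ℝ) * ‖y i‖) P :=
      ((lp.memℓp y).norm).const_mul ‖x‖
    refine h1.mono fun i => ?_
    rw [norm_mul]
    exact mul_le_mul_of_nonneg_right (lp.norm_apply_le_norm hP x i) (norm_nonneg _)⟩

theorem mul_apply (x y : L 𝕜 P) (i : ℕ) : mul x y i = x i * y i := rfl

theorem norm_mul_le' (x y : L 𝕜 P) : ‖mul x y‖ ≤ ‖x‖ * ‖y‖ := by
  have hP : P ≠ 0 := (zero_lt_one.trans_le Fact.out).ne'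
  have h : ‖mul x y‖ ≤ ‖((‖x‖ : ℝ) : 𝕜) • y‖ := by
    apply lp.norm_mono hP
    intro i
    rw [mul_apply, norm_mul]
    change _ ≤ ‖((‖x‖ : ℝ) : 𝕜) * y i‖
    rw [norm_mul, RCLike.norm_ofReal, abs_norm]
    exact mul_le_mul_of_nonneg_right (lp.norm_apply_le_norm hP x i) (norm_nonneg _)
  rwa [norm_smul, RCLike.norm_ofReal, abs_norm] at h

/-- the bilinear map `(x, y) ↦ (x_i y_i)` as a multilinear map -/
noncomputable def T (𝕜 : Type) [RCLike 𝕜] (P : ℝ≥0∞) [Fact (1 ≤ P)] :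
    ContinuousMultilinearMap 𝕜 (fun _ : Fin 2 => L 𝕜 P) (L 𝕜 P) :=
  MultilinearMap.mkContinuous
    { toFun := fun x => mul (x 0) (x 1)
      map_update_add' := by
        intro _ m i x y
        apply lp.ext
        funext k
        fin_cases i
        · simp [mul_apply, Function.update, add_mul]
        · simp [mul_apply, Function.update, mul_add]
      map_update_smul' := by
        intro _ m i c x
        apply lp.ext
        funext k
        fin_cases i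
        · simp [mul_apply, Function.update, mul_assoc]
        · simp [mul_apply, Function.update, mul_left_comm] } 1
    (by
      intro x
      rw [one_mul, Fin.prod_univ_two]
      exact norm_mul_le' _ _)

theorem T_apply (x : Fin 2 → L 𝕜 P) : T 𝕜 P x = mul (x 0) (x 1) := rfl

/-- the `p`-th power of the norm as an extended nonnegative sum -/
theorem enorm_rpow {p : ℝ} (hp : 0 < p) (hP : P.toReal = p) (f : L 𝕜 P) :
    (‖f‖ₑ) ^ p = ∑' i, (‖f i‖ₑ) ^ p := by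
  have h := lp.hasSum_norm (by rw [hP]; exact hp) f
  rw [hP] at h
  have h2 : ∀ r : ℝ, 0 ≤ r → ENNReal.ofReal (r ^ p) = (ENNReal.ofReal r) ^ p := fun r hr =>
    (ENNReal.ofReal_rpow_of_nonneg hr hp.le).symm
  have e1 : (‖f‖ₑ) ^ p = ENNReal.ofReal (‖f‖ ^ p) := by
    rw [h2 _ (norm_nonneg _), ofReal_norm]
  have e2 : ∀ i, (‖f i‖ₑ) ^ p = ENNReal.ofReal (‖f i‖ ^ p) := by
    intro i
    rw [h2 _ (norm_nonneg _), ofReal_norm]
  rw [e1, ← h.tsum_eq, ENNReal.ofReal_tsum_of_nonneg (fun i => by positivity) h.summable]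
  exact tsum_congr fun i => (e2 i).symm

theorem eval_norm_le (i : ℕ) : ‖lp.evalCLM 𝕜 (fun _ : ℕ => 𝕜) P i‖ ≤ 1 := by
  have hP : P ≠ 0 := (zero_lt_one.trans_le Fact.out).ne'
  apply ContinuousLinearMap.opNorm_le_bound _ zero_le_one
  intro f
  rw [one_mul]
  exact lp.norm_apply_le_norm hP f i

theorem sum_mul {p : ℝ} (hp : 0 < p) (hP : P.toReal = p) (b : L 𝕜 P) (x : ℕ → L 𝕜 P) (W : ℝ≥0∞)
    (hW : ∀ i, ∑' j, ‖x j i‖ₑ ^ p ≤ W ^ p) :
    (∑' j, ‖mul (x j) b‖ₑ ^ p) ^ (1 / p) ≤ W * ‖b‖ₑ := by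
  have h1 : ∑' j, ‖mul (x j) b‖ₑ ^ p ≤ (W * ‖b‖ₑ) ^ p := by
    calc ∑' j, ‖mul (x j) b‖ₑ ^ p = ∑' j, ∑' i, (‖x j i‖ₑ ^ p * ‖b i‖ₑ ^ p) := by
          apply tsum_congr
          intro j
          rw [enorm_rpow hp hP]
          apply tsum_congr
          intro i
          rw [mul_apply, enorm_mul, ENNReal.mul_rpow_of_nonneg _ _ hp.le]
      _ = ∑' i, ∑' j, (‖x j i‖ₑ ^ p * ‖b i‖ₑ ^ p) := ENNReal.tsum_comm
      _ = ∑' i, (∑' j, ‖x j i‖ₑ ^ p) * ‖b i‖ₑ ^ p := by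
          apply tsum_congr
          intro i
          rw [ENNReal.tsum_mul_right]
      _ ≤ ∑' i, W ^ p * ‖b i‖ₑ ^ p := ENNReal.tsum_le_tsum fun i => by gcongr; exact hW i
      _ = W ^ p * ‖b‖ₑ ^ p := by rw [ENNReal.tsum_mul_left, ← enorm_rpow hp hP]
      _ = _ := (ENNReal.mul_rpow_of_nonneg _ _ hp.le).symm
  calc (∑' j, ‖mul (x j) b‖ₑ ^ p) ^ (1 / p) ≤ ((W * ‖b‖ₑ) ^ p) ^ (1 / p) := by gcongr
    _ = W * ‖b‖ₑ := by
      rw [← ENNReal.rpow_mul, mul_one_div_cancel hp.ne', ENNReal.rpow_one]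

theorem mul_comm' (x y : L 𝕜 P) : mul x y = mul y x := by
  apply lp.ext; funext i; exact mul_comm _ _

/-- unit vectors -/
noncomputable def e (𝕜 : Type) [RCLike 𝕜] (P : ℝ≥0∞) (j : ℕ) : L 𝕜 P := lp.single P j (1 : 𝕜)

theorem norm_signed_sum {p : ℝ} (hp : 0 < p) (hP : P.toReal = p) (m : ℕ) (ε : Fin m → ℝ)
    (hε : ∀ j, ε j = 1 ∨ ε j = -1) :
    ‖∑ j, ((ε j : ℝ) : 𝕜) • e 𝕜 P j‖ = (m : ℝ) ^ (1 / p) := by
  have h := lp.norm_sum_single (E := fun _ : ℕ => 𝕜) (p := P) (by rw [hP]; exact hp)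
    (fun j => if hj : j < m then ((ε ⟨j, hj⟩ : ℝ) : 𝕜) else 0) (Finset.range m)
  have h1 : ∑ j, ((ε j : ℝ) : 𝕜) • e 𝕜 P j =
      ∑ j ∈ Finset.range m, lp.single P j (if hj : j < m then ((ε ⟨j, hj⟩ : ℝ) : 𝕜) else 0) := by
    rw [Finset.sum_range]
    apply Finset.sum_congr rfl
    intro j _
    rw [dif_pos j.2, e, ← lp.single_smul, smul_eq_mul, mul_one]
  have h2 : ∑ j ∈ Finset.range m, ‖(if hj : j < m then ((ε ⟨j, hj⟩ : ℝ) : 𝕜) else 0)‖ ^ P.toReal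
      = m := by
    rw [Finset.sum_range]
    have : ∀ j : Fin m, ‖(if hj : (j : ℕ) < m then ((ε ⟨j, hj⟩ : ℝ) : 𝕜) else 0)‖ ^ P.toReal = 1 := by
      intro j
      rw [dif_pos j.2, RCLike.norm_ofReal]
      rcases hε j with h | h
      · change |ε j| ^ P.toReal = 1
        rw [h]; simp
      · change |ε j| ^ P.toReal = 1
        rw [h]; simp
    rw [Finset.sum_congr rfl (fun j _ => this j)]
    simp
  rw [h1]
  rw [h2, hP] at h
  rw [← h, ← Real.rpow_mul (norm_nonneg _), mul_one_div_cancel hp.ne', Real.rpow_one]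

/-- the bilinear form of a multilinear form in two variables -/
noncomputable def bil (φ : ContinuousMultilinearMap 𝕜 (fun _ : Fin 2 => L 𝕜 P) 𝕜) :
    L 𝕜 P →ₗ[𝕜] L 𝕜 P →ₗ[𝕜] 𝕜 :=
  LinearMap.mk₂ 𝕜 (fun x y => φ ![x, y])
    (fun x x' y => by
      have h := φ.map_update_add ![x, y] 0 x x'
      have e0 : ∀ z : L 𝕜 P, Function.update ![x, y] 0 z = ![z, y] := by
        intro z; ext1 i; fin_cases i <;> simp
      rwa [e0, e0, e0] at h)
    (fun c x y => by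
      have h := φ.map_update_smul ![x, y] 0 c x
      have e0 : ∀ z : L 𝕜 P, Function.update ![x, y] 0 z = ![z, y] := by
        intro z; ext1 i; fin_cases i <;> simp
      rwa [e0, e0] at h)
    (fun x y y' => by
      have h := φ.map_update_add ![x, y] 1 y y'
      have e0 : ∀ z : L 𝕜 P, Function.update ![x, y] 1 z = ![x, z] := by
        intro z; ext1 i; fin_cases i <;> simp
      rwa [e0, e0, e0] at h)
    (fun c x y => by
      have h := φ.map_update_smul ![x, y] 1 c y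
      have e0 : ∀ z : L 𝕜 P, Function.update ![x, y] 1 z = ![x, z] := by
        intro z; ext1 i; fin_cases i <;> simp
      rwa [e0, e0] at h)

theorem bil_apply (φ : ContinuousMultilinearMap 𝕜 (fun _ : Fin 2 => L 𝕜 P) 𝕜) (x y : L 𝕜 P) :
    bil φ x y = φ ![x, y] := rfl

theorem norm_bil_le {φ : ContinuousMultilinearMap 𝕜 (fun _ : Fin 2 => L 𝕜 P) 𝕜} (hφ : ‖φ‖ ≤ 1)
    (x y : L 𝕜 P) : ‖bil φ x y‖ ≤ ‖x‖ * ‖y‖ := by
  rw [bil_apply]
  have h := φ.le_opNorm ![x, y]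
  rw [Fin.prod_univ_two] at h
  change ‖φ ![x, y]‖ ≤ ‖φ‖ * (‖x‖ * ‖y‖) at h
  have h2 : 0 ≤ ‖x‖ * ‖y‖ := by positivity
  nlinarith

theorem norm_e (j : ℕ) : ‖e 𝕜 P j‖ = 1 := by
  have hP : 0 < P := zero_lt_one.trans_le Fact.out
  rw [e, lp.norm_single hP, norm_one]

theorem form_sq_bound {p : ℝ} (hp : 0 < p) (hP : P.toReal = p) (m : ℕ)
    {φ : ContinuousMultilinearMap 𝕜 (fun _ : Fin 2 => L 𝕜 P) 𝕜} (hφ : ‖φ‖ ≤ 1) :
    ∑ a : Fin m, ∑ b : Fin m, ‖bil φ (e 𝕜 P a) (e 𝕜 P b)‖ ^ 2 ≤ (m : ℝ) ^ (4 / p) := by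
  classical
  obtain ⟨ε, hε, h1⟩ := exists_signs (𝕜 := 𝕜) (Finset.univ : Finset (Fin m))
    (fun a => (WithLp.toLp 2 (fun b : Fin m => bil φ (e 𝕜 P a) (e 𝕜 P b)) : EuclideanSpace 𝕜 (Fin m)))
  set x := ∑ a : Fin m, ((ε a : ℝ) : 𝕜) • e 𝕜 P a with hx
  obtain ⟨δ, hδ, h2⟩ := exists_signs (𝕜 := 𝕜) (Finset.univ : Finset (Fin m))
    (fun b : Fin m => bil φ x (e 𝕜 P b))
  set y := ∑ b : Fin m, ((δ b : ℝ) : 𝕜) • e 𝕜 P b with hy
  have h3 : ∑ b : Fin m, ((δ b : ℝ) : 𝕜) • bil φ x (e 𝕜 P b) = bil φ x y := by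
    rw [hy]
    exact ((map_sum (bil φ x) _ _).trans
      (Finset.sum_congr rfl fun b _ => map_smul (bil φ x) _ _)).symm
  have h4 : (∑ a : Fin m, ((ε a : ℝ) : 𝕜) •
      (WithLp.toLp 2 (fun b : Fin m => bil φ (e 𝕜 P a) (e 𝕜 P b)) : EuclideanSpace 𝕜 (Fin m))) =
      WithLp.toLp 2 (fun b : Fin m => bil φ x (e 𝕜 P b)) := by
    have hbx : bil φ x = ∑ a : Fin m, ((ε a : ℝ) : 𝕜) • bil φ (e 𝕜 P a) := by
      rw [hx]
      exact (map_sum (bil φ) _ _).trans (Finset.sum_congr rfl fun b _ => map_smul (bil φ) _ _)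
    ext b
    rw [hbx]
    simp [LinearMap.sum_apply]
  rw [h4] at h1
  simp only [EuclideanSpace.norm_sq_eq] at h1
  rw [h3] at h2
  refine (h1.trans h2).trans ?_
  have h5 := norm_bil_le hφ x y
  rw [hx, hy, norm_signed_sum hp hP m ε hε, norm_signed_sum hp hP m δ hδ, ← hx, ← hy] at h5
  have hm : (0 : ℝ) ≤ m := by positivity
  calc ‖bil φ x y‖ ^ 2 ≤ ((m : ℝ) ^ (1 / p) * (m : ℝ) ^ (1 / p)) ^ 2 :=
        pow_le_pow_left₀ (norm_nonneg _) h5 2
    _ = ((m : ℝ) ^ (1 / p)) ^ 4 := by ring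
    _ = (m : ℝ) ^ (4 / p) := by
      rw [← Real.rpow_natCast, ← Real.rpow_mul hm]
      congr 1
      push_cast; ring

theorem form_bound {p : ℝ} (hp : 2 ≤ p) (hP : P.toReal = p) (m : ℕ)
    {φ : ContinuousMultilinearMap 𝕜 (fun _ : Fin 2 => L 𝕜 P) 𝕜} (hφ : ‖φ‖ ≤ 1) :
    ∑ j : Fin 2 → Fin m, ‖φ (fun k => e 𝕜 P (j k))‖ₑ ^ p ≤ ENNReal.ofReal ((m : ℝ) ^ (4 / p)) := by
  have hp0 : 0 < p := by linarith
  have h1 : ∑ j : Fin 2 → Fin m, ‖φ (fun k => e 𝕜 P (j k))‖ₑ ^ p =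
      ENNReal.ofReal (∑ j : Fin 2 → Fin m, ‖φ (fun k => e 𝕜 P (j k))‖ ^ p) := by
    rw [ENNReal.ofReal_sum_of_nonneg (fun _ _ => by positivity)]
    apply Finset.sum_congr rfl
    intro j _
    rw [← ofReal_norm, ENNReal.ofReal_rpow_of_nonneg (norm_nonneg _) hp0.le]
  rw [h1]
  apply ENNReal.ofReal_le_ofReal
  refine le_trans ?_ (form_sq_bound hp0 hP m hφ)
  have h2 : ∑ j : Fin 2 → Fin m, ‖φ (fun k => e 𝕜 P (j k))‖ ^ p =
      ∑ a : Fin m, ∑ b : Fin m, ‖bil φ (e 𝕜 P a) (e 𝕜 P b)‖ ^ p := by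
    rw [← Fintype.sum_prod_type', ← (finTwoArrowEquiv (Fin m)).sum_comp]
    apply Finset.sum_congr rfl
    intro j _
    rw [bil_apply]
    congr 3
    ext1 k
    fin_cases k <;> rfl
  rw [h2]
  apply Finset.sum_le_sum
  intro a _
  apply Finset.sum_le_sum
  intro b _
  have h3 : ‖bil φ (e 𝕜 P a) (e 𝕜 P b)‖ ≤ 1 := by
    have := norm_bil_le hφ (e 𝕜 P a) (e 𝕜 P b)
    rwa [norm_e, norm_e, one_mul] at this
  rw [← Real.rpow_natCast]
  exact Real.rpow_le_rpow_of_exponent_ge' (norm_nonneg _) h3 (by norm_num) (by exact_mod_cast hp)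

theorem diag_bound {p : ℝ} (m : ℕ) :
    (m : ℝ≥0∞) ≤ ∑ j : Fin 2 → Fin m, ‖T 𝕜 P (fun k => e 𝕜 P (j k))‖ₑ ^ p := by
  have h1 : (m : ℝ≥0∞) = ∑ a : Fin m, ‖T 𝕜 P (fun k => e 𝕜 P ((fun _ => a : Fin 2 → Fin m) k))‖ₑ ^ p := by
    have : ∀ a : Fin m, ‖T 𝕜 P (fun k => e 𝕜 P ((fun _ => a : Fin 2 → Fin m) k))‖ₑ ^ p = 1 := by
      intro a
      have h2 : T 𝕜 P (fun k => e 𝕜 P ((fun _ => a : Fin 2 → Fin m) k)) = e 𝕜 P a := by
        rw [T_apply]
        apply lp.ext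
        funext i
        rw [mul_apply, e, lp.single_apply]
        by_cases h : i = a
        · subst h; rw [Pi.single_eq_same, mul_one]
        · rw [Pi.single_eq_of_ne h, mul_zero]
      rw [h2, ← ofReal_norm, norm_e, ENNReal.ofReal_one, ENNReal.one_rpow]
    simp [this]
  rw [h1]
  have hinj : Function.Injective (fun (a : Fin m) => (fun _ => a : Fin 2 → Fin m)) := by
    intro a b h
    exact congrFun h 0
  have h3 := Finset.sum_map (Finset.univ : Finset (Fin m)) ⟨_, hinj⟩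
    (fun j : Fin 2 → Fin m => ‖T 𝕜 P (fun k => e 𝕜 P (j k))‖ₑ ^ p)
  refine le_trans (le_of_eq h3.symm) ?_
  exact Finset.sum_le_sum_of_subset (Finset.subset_univ _)

end Space

end Q101.Strongly
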