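import Pool.Agent.Q101.PathLat

set_option autoImplicit false

open Filter Topology OnePoint

namespace Q101.SumLat

open Q101.LatLift Q101.PathLat

universe u

section Instances

instance prodOrderedModule {α β : Type*} [AddCommGroup α] [AddCommGroup β] [Module ℝ α]
    [Module ℝ β] [Lattice α] [Lattice β] [IsOrderedModule ℝ α] [IsOrderedModule ℝ β] :
    IsOrderedModule ℝ (α × β) where
  smul_le_smul_of_nonneg_left _ hc _ _ h :=
    ⟨smul_le_smul_of_nonneg_left h.1 hc, smul_le_smul_of_nonneg_left h.2 hc⟩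
  smul_le_smul_of_nonneg_right _ ha _ _ h :=
    ⟨smul_le_smul_of_nonneg_right h ha.1, smul_le_smul_of_nonneg_right h ha.2⟩

instance prodSolid {α β : Type*} [NormedAddCommGroup α] [NormedAddCommGroup β]
    [Lattice α] [Lattice β] [HasSolidNorm α] [HasSolidNorm β] :
    HasSolidNorm (α × β) where
  solid a b h := by
    rw [Prod.norm_def, Prod.norm_def]
    exact max_le_max (HasSolidNorm.solid h.1) (HasSolidNorm.solid h.2)

instance ckSolid {K : Type*} [TopologicalSpace K] [CompactSpace K] : HasSolidNorm C(K, ℝ) where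
  solid a b h := by
    rw [ContinuousMap.norm_le _ (norm_nonneg _)]
    intro k
    have h1 : |a k| ≤ |b k| := h k
    exact h1.trans (b.norm_coe_le_norm k)

end Instances

/-- The real line is projective. -/
theorem real_projective {X Z : Type u} [NormedAddCommGroup X] [NormedSpace ℝ X] [CompleteSpace X]
    [Lattice X] [IsOrderedAddMonoid X] [IsOrderedModule ℝ X] [HasSolidNorm X]
    [NormedAddCommGroup Z] [NormedSpace ℝ Z] [Lattice Z] [IsOrderedAddMonoid Z]
    [IsOrderedModule ℝ Z] [HasSolidNorm Z] {Q : X →L[ℝ] Z} (hQ : IsLatticeQuotient Q)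
    {T : ℝ →L[ℝ] Z} (hT : IsLatticeHom T) {ε : ℝ} (hε : 0 < ε) :
    ∃ T' : ℝ →L[ℝ] X, IsLatticeHom T' ∧ Q.comp T' = T ∧ ‖T'‖ ≤ (1 + ε) * ‖T‖ := by
  by_cases hT0 : T = 0
  · refine ⟨0, fun x y => ?_, ?_, ?_⟩
    · simp
    · rw [hT0, ContinuousLinearMap.comp_zero]
    · rw [hT0]; simp
  have hTn : 0 < ‖T‖ := norm_pos_iff.2 hT0
  have h1 : ‖T 1‖ < (1 + ε) * ‖T‖ := by
    have := T.le_opNorm 1
    rw [norm_one, mul_one] at this
    nlinarith
  obtain ⟨r, ⟨y, hy, rfl⟩, _, hr⟩ := (hQ.norm (T 1)).exists_between h1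
  have hy0 : (0 : X) ≤ |y| := abs_nonneg y
  have hsm : ∀ r : ℝ, |(r • |y| : X)| = |r| • |y| := by
    intro r
    rcases le_total 0 r with h | h
    · rw [abs_of_nonneg h, abs_of_nonneg (smul_nonneg h hy0)]
    · rw [abs_of_nonpos h, ← abs_neg, ← neg_smul, abs_of_nonneg (smul_nonneg (by linarith) hy0)]
  refine ⟨ContinuousLinearMap.toSpanSingleton ℝ |y|, isLatticeHom_of_abs fun r => ?_, ?_, ?_⟩
  · rw [ContinuousLinearMap.toSpanSingleton_apply, ContinuousLinearMap.toSpanSingleton_apply, hsm]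
  · refine ContinuousLinearMap.ext fun r => ?_
    have h2 : T r = r • T 1 := by rw [← _root_.map_smul, smul_eq_mul, mul_one]
    rw [ContinuousLinearMap.comp_apply, ContinuousLinearMap.toSpanSingleton_apply, _root_.map_smul, h2,
      hQ.lat.map_abs, hy, abs_of_nonneg (hT.nonneg zero_le_one)]
  · rw [ContinuousLinearMap.norm_toSpanSingleton, norm_abs_eq_norm]
    exact hr.le

/-- `e` is a topological order unit of `E`. -/
def IsTopOrderUnit {E : Type*} [NormedAddCommGroup E] [NormedSpace ℝ E] [Lattice E] (e : E) : Prop :=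
  0 ≤ e ∧ ∀ I : Submodule ℝ E, IsClosed (I : Set E) → (∀ x y : E, |x| ≤ |y| → y ∈ I → x ∈ I) →
    e ∈ I → I = ⊤

theorem real_unit : IsTopOrderUnit (1 : ℝ) := by
  refine ⟨zero_le_one, fun I _ _ h => ?_⟩
  rw [eq_top_iff]
  intro x _
  have := I.smul_mem x h
  simpa using this

/-- the unit of `P` -/
noncomputable def unit : P := ⟨fun n => (1 / 2) ^ n, by
  have := summable_geometric_of_lt_one (r := (1 / 2 : ℝ)) (by norm_num) (by norm_num)
  refine this.congr fun n => ?_
  rw [abs_of_nonneg (by positivity)]⟩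

theorem unit_isUnit : IsTopOrderUnit unit := by
  refine ⟨fun n => by show (0 : ℝ) ≤ (1 / 2) ^ n; positivity, fun I hcl hsol hI => ?_⟩
  have he : ∀ n, e n ∈ I := by
    intro n
    have h1 : ((2 : ℝ) ^ n) • unit ∈ I := I.smul_mem _ hI
    refine hsol _ _ (fun k => ?_) h1
    rw [P.abs_val, P.abs_val, P.smul_val, e_val]
    show |if k = n then (1 : ℝ) else 0| ≤ |2 ^ n * (1 / 2) ^ k|
    split_ifs with h
    · subst h
      rw [← mul_pow]; norm_num
    · rw [abs_zero]; exact abs_nonneg _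
  rw [eq_top_iff]
  intro a _
  have h1 := hasSum_e a
  have h2 : a ∈ closure (I : Set P) :=
    mem_closure_of_tendsto h1 (Eventually.of_forall fun s =>
      I.sum_mem fun n _ => I.smul_mem _ (he n))
  rwa [hcl.closure_eq] at h2

section Counterexample

/-- the embedding of `P` in the convergent sequences -/
noncomputable def io (b : P) : C(OnePoint ℕ, ℝ) :=
  continuousMapMkNat b.1 0 (by
    have h := b.summable.tendsto_atTop_zero
    exact tendsto_zero_iff_abs_tendsto_zero _ |>.2 h)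

theorem io_coe (b : P) (n : ℕ) : io b (n : OnePoint ℕ) = b.1 n := rfl
theorem io_infty (b : P) : io b ∞ = 0 := rfl

theorem ext' {x y : C(OnePoint ℕ, ℝ)} (h : ∀ n : ℕ, x (n : OnePoint ℕ) = y (n : OnePoint ℕ))
    (h' : x ∞ = y ∞) : x = y := by
  ext k
  refine OnePoint.rec ?_ ?_ k
  · exact h'
  · exact h

theorem io_add (a b : P) : io (a + b) = io a + io b := by
  refine ext' (fun n => rfl) ?_
  rw [ContinuousMap.add_apply, io_infty, io_infty, io_infty, add_zero]

theorem io_smul (c : ℝ) (a : P) : io (c • a) = c • io a := by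
  refine ext' (fun n => rfl) ?_
  rw [ContinuousMap.smul_apply, io_infty, io_infty, smul_zero]

theorem abs_le_norm (b : P) (n : ℕ) : |b.1 n| ≤ ‖b‖ := by
  refine le_norm fun s hs => ?_
  obtain ⟨t, ht, hs, hc⟩ := hs
  refine (hc n).trans ?_
  cases n with
  | zero =>
    have := le_hasSum hs 0 fun _ _ => ht _
    simp only [sh]
    linarith
  | succ n =>
    have h2 := sum_le_hasSum {n, n + 1} (fun k _ => ht k) hs
    rw [Finset.sum_pair (by omega)] at h2
    simp only [sh]
    linarith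

theorem norm_io_le (b : P) : ‖io b‖ ≤ ‖b‖ := by
  rw [ContinuousMap.norm_le _ (norm_nonneg _)]
  intro k
  refine OnePoint.rec ?_ ?_ k
  · rw [io_infty, norm_zero]; exact norm_nonneg _
  · intro n
    exact abs_le_norm b n

theorem abs_le_abs_of_le {A B : C(OnePoint ℕ, ℝ)} (hA : 0 ≤ A) (h : A ≤ B) : |A| ≤ |B| := by
  rw [abs_of_nonneg hA, abs_of_nonneg (hA.trans h)]; exact h

/-- the space `c × P` -/
def Y : Type := C(OnePoint ℕ, ℝ) × P

noncomputable instance : AddCommGroup Y := inferInstanceAs (AddCommGroup (C(OnePoint ℕ, ℝ) × P))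
noncomputable instance : Module ℝ Y := inferInstanceAs (Module ℝ (C(OnePoint ℕ, ℝ) × P))
noncomputable instance : Lattice Y := inferInstanceAs (Lattice (C(OnePoint ℕ, ℝ) × P))
instance : IsOrderedAddMonoid Y := inferInstanceAs (IsOrderedAddMonoid (C(OnePoint ℕ, ℝ) × P))
instance : IsOrderedModule ℝ Y := inferInstanceAs (IsOrderedModule ℝ (C(OnePoint ℕ, ℝ) × P))

noncomputable instance : Norm Y := ⟨fun y => max ‖y.2‖ ‖|y.1| + |io y.2|‖⟩

theorem normY_def (y : Y) : ‖y‖ = max ‖y.2‖ ‖|y.1| + |io y.2|‖ := rfl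

theorem norm_fst_le (y : Y) : ‖y.1‖ ≤ ‖y‖ := by
  rw [normY_def]
  refine le_trans (HasSolidNorm.solid ?_) (le_max_right _ _)
  have h : (0 : C(OnePoint ℕ, ℝ)) ≤ |y.1| + |io y.2| := add_nonneg (abs_nonneg _) (abs_nonneg _)
  rw [abs_of_nonneg h]
  exact le_add_of_nonneg_right (abs_nonneg _)

theorem norm_snd_le (y : Y) : ‖y.2‖ ≤ ‖y‖ := le_max_left _ _

theorem normY_le (y : Y) : ‖y‖ ≤ ‖y.1‖ + ‖y.2‖ := by
  rw [normY_def]
  refine max_le (le_add_of_nonneg_left (norm_nonneg _)) ?_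
  refine (norm_add_le _ _).trans ?_
  rw [norm_abs_eq_norm, norm_abs_eq_norm]
  exact add_le_add_right (norm_io_le _) _

theorem coreY : NormedSpace.Core ℝ Y where
  norm_nonneg y := (norm_nonneg y.2).trans (norm_snd_le y)
  norm_smul c y := by
    show max ‖c • y.2‖ ‖|c • y.1| + |io (c • y.2)|‖ = ‖c‖ * max ‖y.2‖ ‖|y.1| + |io y.2|‖
    have h1 : ∀ F : C(OnePoint ℕ, ℝ), |c • F| = |c| • |F| := by
      intro F
      ext k
      show |c * F k| = |c| * |F k|
      exact abs_mul _ _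
    rw [io_smul, h1, h1, ← smul_add, norm_smul, norm_smul, mul_max_of_nonneg _ _ (norm_nonneg c)]
    congr 2
    rw [Real.norm_eq_abs, Real.norm_eq_abs, abs_abs]
  norm_triangle x y := by
    show max ‖x.2 + y.2‖ ‖|x.1 + y.1| + |io (x.2 + y.2)|‖ ≤
      max ‖x.2‖ ‖|x.1| + |io x.2|‖ + max ‖y.2‖ ‖|y.1| + |io y.2|‖
    refine max_le ((norm_add_le _ _).trans (add_le_add (le_max_left _ _) (le_max_left _ _))) ?_
    refine le_trans ?_ (add_le_add (le_max_right _ _) (le_max_right _ _))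
    refine le_trans (HasSolidNorm.solid ?_) (norm_add_le _ _)
    rw [io_add]
    refine abs_le_abs_of_le (add_nonneg (abs_nonneg _) (abs_nonneg _)) ?_
    calc |x.1 + y.1| + |io x.2 + io y.2| ≤ (|x.1| + |y.1|) + (|io x.2| + |io y.2|) :=
          add_le_add (abs_add_le _ _) (abs_add_le _ _)
      _ = _ := add_add_add_comm _ _ _ _
  norm_eq_zero_iff y := by
    constructor
    · intro h
      have h1 : ‖y.1‖ = 0 := le_antisymm ((norm_fst_le y).trans h.le) (norm_nonneg _)
      have h2 : ‖y.2‖ = 0 := le_antisymm ((norm_snd_le y).trans h.le) (norm_nonneg _)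
      exact Prod.ext (norm_eq_zero.1 h1) (norm_eq_zero.1 h2)
    · rintro rfl
      refine le_antisymm ((normY_le 0).trans ?_) ((norm_nonneg (0 : P)).trans (norm_snd_le 0))
      show ‖(0 : C(OnePoint ℕ, ℝ))‖ + ‖(0 : P)‖ ≤ 0
      simp

noncomputable instance : NormedAddCommGroup Y := NormedAddCommGroup.ofCore coreY
noncomputable instance : NormedSpace ℝ Y := NormedSpace.ofCore coreY

theorem io_abs_mono {a b : P} (h : |a| ≤ |b|) : |io a| ≤ |io b| := by
  intro k
  refine OnePoint.rec ?_ ?_ k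
  · show |io a ∞| ≤ |io b ∞|
    rw [io_infty, io_infty]
  · intro n
    exact h n

instance : HasSolidNorm Y where
  solid a b h := by
    rw [normY_def, normY_def]
    have h1 : |a.1| ≤ |b.1| := h.1
    have h2 : |a.2| ≤ |b.2| := h.2
    refine max_le_max (HasSolidNorm.solid h2) (HasSolidNorm.solid ?_)
    exact abs_le_abs_of_le (add_nonneg (abs_nonneg _) (abs_nonneg _))
      (add_le_add h1 (io_abs_mono h2))

instance : CompleteSpace Y := by
  refine Metric.complete_of_cauchySeq_tendsto fun u hu => ?_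
  let v : ℕ → C(OnePoint ℕ, ℝ) := fun n => (u n).1
  let w : ℕ → P := fun n => (u n).2
  have hv : CauchySeq v := by
    rw [Metric.cauchySeq_iff] at hu ⊢
    intro ε hε
    obtain ⟨N, hN⟩ := hu ε hε
    refine ⟨N, fun m hm n hn => ?_⟩
    have := hN m hm n hn
    rw [dist_eq_norm] at this ⊢
    exact (norm_fst_le (u m - u n)).trans_lt this
  have hw : CauchySeq w := by
    rw [Metric.cauchySeq_iff] at hu ⊢
    intro ε hε
    obtain ⟨N, hN⟩ := hu ε hε
    refine ⟨N, fun m hm n hn => ?_⟩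
    have := hN m hm n hn
    rw [dist_eq_norm] at this ⊢
    exact (norm_snd_le (u m - u n)).trans_lt this
  obtain ⟨a, ha⟩ := cauchySeq_tendsto_of_complete hv
  obtain ⟨b, hb⟩ := cauchySeq_tendsto_of_complete hw
  let z : Y := (a, b)
  refine ⟨z, ?_⟩
  rw [tendsto_iff_norm_sub_tendsto_zero] at ha hb ⊢
  have h1 := ha.add hb
  rw [add_zero] at h1
  exact squeeze_zero (fun n => norm_nonneg _) (fun n => normY_le (u n - z)) h1

/-- the quotient map -/
noncomputable def QY : Y →L[ℝ] ℝ × P :=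
  LinearMap.mkContinuous (⟨⟨fun y => (y.1 ∞, y.2), fun _ _ => rfl⟩, fun _ _ => rfl⟩ :
    Y →ₗ[ℝ] ℝ × P) 1 fun y => by
      rw [one_mul]
      show max ‖y.1 ∞‖ ‖y.2‖ ≤ ‖y‖
      exact max_le ((y.1.norm_coe_le_norm _).trans (norm_fst_le y)) (norm_snd_le y)

theorem QY_apply (y : Y) : QY y = (y.1 ∞, y.2) := rfl

theorem norm_QY_le (y : Y) : ‖QY y‖ ≤ ‖y‖ :=
  max_le ((y.1.norm_coe_le_norm _).trans (norm_fst_le y)) (norm_snd_le y)

/-- the good preimage -/
theorem exists_pre (z : ℝ × P) : ∃ y : Y, QY y = z ∧ ‖y‖ ≤ ‖z‖ := by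
  obtain ⟨a, b⟩ := z
  set M := ‖((a, b) : ℝ × P)‖ with hM
  have ha : |a| ≤ M := le_max_left _ _
  have hb : ‖b‖ ≤ M := le_max_right _ _
  have hM0 : 0 ≤ M := norm_nonneg _
  -- truncation of `a` at `± (M - |b n|)`
  let f : ℕ → ℝ := fun n => max (-(M - |b.1 n|)) (min a (M - |b.1 n|))
  have hb0 : Tendsto (fun n => |b.1 n|) atTop (𝓝 0) := b.summable.tendsto_atTop_zero
  have hf : Tendsto f atTop (𝓝 a) := by
    have h1 : Tendsto (fun n => M - |b.1 n|) atTop (𝓝 M) := by
      have := hb0.const_sub M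
      rwa [sub_zero] at this
    have h2 := h1.neg.max ((tendsto_const_nhds (x := a)).min h1)
    have h3 : max (-M) (min a M) = a := by
      rw [min_eq_left ((le_abs_self a).trans ha), max_eq_right ((abs_le.1 ha).1)]
    rwa [h3] at h2
  let F : C(OnePoint ℕ, ℝ) := continuousMapMkNat f a hf
  let y : Y := (F, b)
  refine ⟨y, rfl, ?_⟩
  rw [normY_def]
  refine max_le hb ?_
  rw [ContinuousMap.norm_le _ hM0]
  intro k
  have hval : ∀ k, ‖(|F| + |io b|) k‖ = |F k| + |io b k| := by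
    intro k
    show |(|F k| + |io b k|)| = _
    exact abs_of_nonneg (add_nonneg (abs_nonneg _) (abs_nonneg _))
  show ‖(|F| + |io b|) k‖ ≤ M
  rw [hval]
  refine OnePoint.rec ?_ ?_ k
  · rw [io_infty, abs_zero, add_zero]; exact ha
  · intro n
    have h1 : |b.1 n| ≤ M := (abs_le_norm b n).trans hb
    show |max (-(M - |b.1 n|)) (min a (M - |b.1 n|))| + |b.1 n| ≤ M
    have h2 : |max (-(M - |b.1 n|)) (min a (M - |b.1 n|))| ≤ M - |b.1 n| := by
      rw [abs_le]
      refine ⟨le_max_left _ _, max_le (by linarith) (min_le_right _ _)⟩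
    linarith

theorem QY_quotient : IsLatticeQuotient QY where
  surj z := by
    obtain ⟨y, hy, _⟩ := exists_pre z
    exact ⟨y, hy⟩
  lat x y := ⟨rfl, rfl⟩
  norm z := by
    constructor
    · rintro _ ⟨y, rfl, rfl⟩
      exact norm_QY_le y
    · intro r hr
      obtain ⟨y, hy, hle⟩ := exists_pre z
      exact (hr ⟨y, hy, rfl⟩).trans hle

/-- no lift of the identity has norm below `2` -/
theorem no_lift {T : ℝ × P →L[ℝ] Y} (hT : IsLatticeHom T)
    (hQ : QY.comp T = ContinuousLinearMap.id ℝ (ℝ × P)) : 2 ≤ ‖T‖ := by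
  set x : Y := T (1, 0) with hx
  have hQx : QY x = (1, 0) := by
    have := DFunLike.congr_fun hQ ((1, 0) : ℝ × P)
    exact this
  have hx1 : x.1 ∞ = 1 := congrArg Prod.fst hQx
  have hlim : Tendsto (fun n : ℕ => x.1 (n : OnePoint ℕ)) atTop (𝓝 1) := by
    rw [← hx1]
    exact (continuous_iff_from_nat x.1).1 x.1.continuous
  have key : ∀ n : ℕ, x.1 (n : OnePoint ℕ) + 1 ≤ ‖T‖ := by
    intro n
    set y : Y := T (0, e n) with hy
    have hQy : QY y = (0, e n) := DFunLike.congr_fun hQ ((0, e n) : ℝ × P)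
    have hy2 : y.2 = e n := congrArg Prod.snd hQy
    have hy0 : 0 ≤ y := hT.nonneg (show (0 : ℝ × P) ≤ (0, e n) from ⟨le_rfl, e_nonneg n⟩)
    have hx0 : 0 ≤ x := hT.nonneg (show (0 : ℝ × P) ≤ (1, 0) from ⟨zero_le_one, le_rfl⟩)
    have hx2 : x.2 = 0 := congrArg Prod.snd hQx
    have hsum : T (1, e n) = x + y := by
      rw [hx, hy, ← map_add]
      congr 1
      simp
    have h1 : ‖x + y‖ ≤ ‖T‖ := by
      rw [← hsum]
      refine (T.le_opNorm _).trans (mul_le_of_le_one_right (norm_nonneg _) ?_)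
      exact max_le (by norm_num) (norm_e_le n)
    refine le_trans ?_ h1
    have h2 : ‖|(x + y).1| + |io (x + y).2|‖ ≤ ‖x + y‖ := le_max_right _ _
    refine le_trans ?_ h2
    have h3 := (|(x + y).1| + |io (x + y).2|).norm_coe_le_norm (n : OnePoint ℕ)
    refine le_trans ?_ h3
    have h4 : (|(x + y).1| + |io (x + y).2|) (n : OnePoint ℕ) =
        |x.1 (n : OnePoint ℕ) + y.1 (n : OnePoint ℕ)| + |x.2.1 n + y.2.1 n| := rfl
    rw [h4, hx2, hy2, P.zero_val, e_val, if_pos rfl, zero_add, abs_one, Real.norm_eq_abs]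
    have h5 : 0 ≤ y.1 (n : OnePoint ℕ) := hy0.1 (n : OnePoint ℕ)
    have h6 : 0 ≤ x.1 (n : OnePoint ℕ) := hx0.1 (n : OnePoint ℕ)
    rw [abs_of_nonneg (add_nonneg h6 h5), abs_of_nonneg (by positivity)]
    linarith
  have h7 := hlim.add_const 1
  have h8 := le_of_tendsto h7 (Eventually.of_forall key)
  linarith

end Counterexample

end Q101.SumLat
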