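import Pool.Agent.Q101.LUCC

set_option autoImplicit false

open Filter Topology Finset
open scoped ENNReal

namespace Q101.TBasis

/-- the level of a position -/
def lev (n : ℕ) : ℕ := Nat.log 16 (n / 2 + 1)

theorem lev_spec (n : ℕ) : 2 * 16 ^ lev n ≤ n + 2 ∧ n + 2 < 32 * 16 ^ lev n := by
  have h1 : 16 ^ lev n ≤ n / 2 + 1 := Nat.pow_log_le_self 16 (by omega)
  have h2 : n / 2 + 1 < 16 ^ (lev n + 1) := Nat.lt_pow_succ_log_self (by norm_num) _
  rw [pow_succ] at h2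
  omega

theorem lev_eq {n k : ℕ} (h1 : 2 * 16 ^ k ≤ n + 2) (h2 : n + 2 < 32 * 16 ^ k) : lev n = k := by
  unfold lev
  rw [Nat.log_eq_iff (Or.inr ⟨by norm_num, by omega⟩), pow_succ]
  omega

theorem lev_mono : Monotone lev := by
  intro a b h
  exact Nat.log_mono_right (by omega)

/-- start of a block -/
def B (k : ℕ) : ℕ := 2 * (16 ^ k - 1)

theorem B_add (k : ℕ) : B k + 2 = 2 * 16 ^ k := by
  have : 1 ≤ 16 ^ k := Nat.one_le_pow _ _ (by norm_num)
  unfold B; omega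

theorem lt_B_iff (n k : ℕ) : n < B k ↔ lev n < k := by
  have hB := B_add k
  obtain ⟨h1, h2⟩ := lev_spec n
  constructor
  · intro h
    by_contra hk
    push Not at hk
    have : 16 ^ k ≤ 16 ^ lev n := Nat.pow_le_pow_right (by norm_num) hk
    omega
  · intro h
    have : 16 ^ (lev n + 1) ≤ 16 ^ k := Nat.pow_le_pow_right (by norm_num) h
    rw [pow_succ] at this
    omega

theorem B_mono : Monotone B := by
  intro a b h
  have : 16 ^ a ≤ 16 ^ b := Nat.pow_le_pow_right (by norm_num) h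
  have h1 := B_add a
  have h2 := B_add b
  omega

/-- the block permutation: first the even indices of a block, then the odd ones -/
def pf (n : ℕ) : ℕ :=
  if n + 2 < 17 * 16 ^ lev n then 2 * (n + 1 - 16 ^ lev n)
  else 2 * (n + 1 - 16 * 16 ^ lev n) + 1

/-- the inverse of the block permutation -/
def pg (m : ℕ) : ℕ :=
  if m % 2 = 0 then m / 2 + 16 ^ lev m - 1 else m / 2 + 16 * 16 ^ lev m - 1

theorem lev_pf (n : ℕ) : lev (pf n) = lev n := by
  obtain ⟨h1, h2⟩ := lev_spec n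
  unfold pf
  apply lev_eq <;> split_ifs <;> omega

theorem lev_pg (n : ℕ) : lev (pg n) = lev n := by
  obtain ⟨h1, h2⟩ := lev_spec n
  unfold pg
  apply lev_eq <;> split_ifs <;> omega

theorem pg_pf (n : ℕ) : pg (pf n) = n := by
  obtain ⟨h1, h2⟩ := lev_spec n
  have h3 := lev_pf n
  have hpos : 0 < 16 ^ lev n := by positivity
  unfold pg
  rw [h3]
  unfold pf
  split_ifs <;> omega

theorem pf_pg (n : ℕ) : pf (pg n) = n := by
  obtain ⟨h1, h2⟩ := lev_spec n
  have h3 := lev_pg n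
  have hpos : 0 < 16 ^ lev n := by positivity
  unfold pf
  rw [h3]
  unfold pg
  split_ifs <;> omega

/-- the permutation -/
def perm : Equiv.Perm ℕ := ⟨pf, pg, pg_pf, pf_pg⟩

theorem perm_lt_iff (n k : ℕ) : perm n < B k ↔ n < B k := by
  rw [lt_B_iff, lt_B_iff]
  change lev (pf n) < k ↔ _
  rw [lev_pf]

/-- the weights `λ_{n,i}` -/
noncomputable def a (n i : ℕ) : ℝ := (1 / 2) ^ (lev i - n)

/-- the matrix -/
noncomputable def t (n j : ℕ) : ℝ := a n j - a n (j + 1)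

theorem a_anti (n : ℕ) : Antitone (a n) := by
  intro i j h
  unfold a
  apply pow_le_pow_of_le_one (by norm_num) (by norm_num)
  have := lev_mono h
  omega

theorem a_pos (n i : ℕ) : 0 < a n i := by unfold a; positivity

theorem t_nonneg (n j : ℕ) : 0 ≤ t n j := sub_nonneg.2 (a_anti n (Nat.le_succ j))

theorem tendsto_lev : Tendsto lev atTop atTop := by
  apply tendsto_atTop.2
  intro k
  refine (eventually_ge_atTop (B k)).mono fun n hn => ?_
  by_contra h
  push Not at h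
  have := (lt_B_iff n k).2 h
  omega

theorem tendsto_a (n : ℕ) : Tendsto (a n) atTop (𝓝 0) := by
  have h1 : Tendsto (fun i => lev i - n) atTop atTop :=
    (tendsto_sub_atTop_nat n).comp tendsto_lev
  exact (tendsto_pow_atTop_nhds_zero_of_lt_one (by norm_num) (by norm_num)).comp h1

theorem sum_t (n m : ℕ) : ∀ k, ∑ j ∈ range k, t n (m + j) = a n m - a n (m + k) := by
  intro k
  induction k with
  | zero => simp
  | succ k ih => rw [sum_range_succ, ih]; unfold t; rw [← add_assoc]; ring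

theorem hasSum_t (n m : ℕ) : HasSum (fun j => t n (m + j)) (a n m) := by
  rw [hasSum_iff_tendsto_nat_of_nonneg (fun j => t_nonneg n (m + j))]
  simp only [sum_t]
  have h1 : Tendsto (fun k => a n (m + k)) atTop (𝓝 0) := by
    have := (tendsto_a n).comp (tendsto_add_atTop_nat m)
    refine this.congr fun k => ?_
    change a n (k + m) = _
    rw [add_comm]
  have h2 := (tendsto_const_nhds (x := a n m)).sub h1
  rwa [sub_zero] at h2

theorem a_zero (n : ℕ) : a n 0 = 1 := by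
  unfold a
  have : lev 0 = 0 := lev_eq (by norm_num) (by norm_num)
  rw [this]; simp

theorem hasSum_t0 (n : ℕ) : HasSum (t n) 1 := by
  have := hasSum_t n 0
  simp only [zero_add, a_zero] at this
  exact this

theorem t_eventually (j : ℕ) : ∀ᶠ n in atTop, t n j = 0 := by
  refine (eventually_ge_atTop (lev (j + 1))).mono fun n hn => ?_
  unfold t a
  have h0 : lev j ≤ lev (j + 1) := lev_mono (Nat.le_succ j)
  have h1 : lev j - n = 0 := by omega
  have h2 : lev (j + 1) - n = 0 := by omega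
  rw [h1, h2]; simp

/-- a nonzero entry sits at the end of a block, at a level above `n` -/
theorem t_ne_zero {n j : ℕ} (h : t n j ≠ 0) : n < lev (j + 1) ∧ j + 1 = B (lev (j + 1)) := by
  have hm : lev j ≤ lev (j + 1) := lev_mono (Nat.le_succ j)
  have h1 : n < lev (j + 1) := by
    by_contra hn
    apply h
    unfold t a
    have h1 : lev j - n = 0 := by omega
    have h2 : lev (j + 1) - n = 0 := by omega
    rw [h1, h2]; simp
  refine ⟨h1, ?_⟩
  have h2 : lev j ≠ lev (j + 1) := by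
    intro h2
    apply h
    unfold t a
    rw [h2]; simp
  have h3 : lev j < lev (j + 1) := by omega
  have h4 := (lt_B_iff j (lev (j + 1))).2 h3
  have h5 : ¬ (j + 1 < B (lev (j + 1))) := by
    rw [lt_B_iff]; omega
  omega

/-- the recursion between rows -/
theorem a_rec (n i : ℕ) : 2 * a n i - a (n + 1) i = if lev i ≤ n then 1 else 0 := by
  unfold a
  split_ifs with h
  · have h1 : lev i - n = 0 := by omega
    have h2 : lev i - (n + 1) = 0 := by omega
    rw [h1, h2]; norm_num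
  · have h1 : lev i - n = (lev i - (n + 1)) + 1 := by omega
    rw [h1, pow_succ]; ring

theorem t_rec (n j : ℕ) : 2 * t n j - t (n + 1) j = if j + 1 = B (n + 1) then 1 else 0 := by
  have h1 := a_rec n j
  have h2 := a_rec n (j + 1)
  have h3 : 2 * t n j - t (n + 1) j =
      (if lev j ≤ n then 1 else 0) - (if lev (j + 1) ≤ n then 1 else 0) := by
    rw [← h1, ← h2]; unfold t; ring
  rw [h3]
  have h4 : lev j ≤ n ↔ j < B (n + 1) := by rw [lt_B_iff]; omega
  have h5 : lev (j + 1) ≤ n ↔ j + 1 < B (n + 1) := by rw [lt_B_iff]; omega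
  simp only [h4, h5]
  by_cases h6 : j + 1 < B (n + 1)
  · rw [if_pos (by omega), if_pos h6, if_neg (by omega)]; norm_num
  · by_cases h7 : j + 1 = B (n + 1)
    · rw [if_pos (by omega), if_neg h6, if_pos h7]; norm_num
    · rw [if_neg (by omega), if_neg h6, if_neg h7]; norm_num

section Space

variable (𝕜 : Type) [RCLike 𝕜]

open Q101.LUCC

/-- the T-basis -/
noncomputable def y (n : ℕ) : X 𝕜 := x 𝕜 (perm n)

/-- its functionals -/
noncomputable def ys (n : ℕ) : X 𝕜 →L[𝕜] 𝕜 := xs 𝕜 (perm n)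

theorem y_biorth (m n : ℕ) : ys 𝕜 m (y 𝕜 n) = if m = n then 1 else 0 := by
  unfold ys y
  rw [biorth]
  simp only [EmbeddingLike.apply_eq_iff_eq]

theorem sum_block (f : X 𝕜) (k : ℕ) :
    ∑ n ∈ range (B k), ys 𝕜 n f • y 𝕜 n = ∑ n ∈ range (B k), xs 𝕜 n f • x 𝕜 n := by
  refine Finset.sum_equiv perm (fun n => ?_) (fun n _ => rfl)
  rw [mem_range, mem_range, perm_lt_iff]

theorem tendsto_block (f : X 𝕜) :
    Tendsto (fun k => ∑ n ∈ range (B k), ys 𝕜 n f • y 𝕜 n) atTop (𝓝 f) := by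
  simp only [sum_block]
  refine (schauder 𝕜 f).comp ?_
  apply tendsto_atTop.2
  intro k
  refine (eventually_ge_atTop k).mono fun n hn => ?_
  have h1 := B_add n
  have h2 : n < 16 ^ n := Nat.lt_pow_self (by norm_num)
  omega

theorem dense (f : X 𝕜) :
    f ∈ closure ((Submodule.span 𝕜 (Set.range (y 𝕜)) : Submodule 𝕜 (X 𝕜)) : Set (X 𝕜)) := by
  refine mem_closure_of_tendsto (tendsto_block 𝕜 f) (Eventually.of_forall fun N => ?_)
  exact Submodule.sum_mem _ fun n _ => Submodule.smul_mem _ _ (Submodule.subset_span ⟨n, rfl⟩)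

theorem total (f : X 𝕜) (h : ∀ n, ys 𝕜 n f = 0) : f = 0 := by
  have h1 := tendsto_block 𝕜 f
  simp only [h, zero_smul, sum_const_zero] at h1
  exact tendsto_nhds_unique h1 tendsto_const_nhds

variable {𝕜}

/-- convergence of the summability method on block partial sums -/
theorem method {E : Type*} [NormedAddCommGroup E] [NormedSpace 𝕜 E] [CompleteSpace E]
    (S : ℕ → E) (v : E) (hS : Tendsto (fun k => S (B k)) atTop (𝓝 v)) :
    ∃ σ : ℕ → E, (∀ n, Tendsto (fun m => ∑ j ∈ range m, ((t n j : ℝ) : 𝕜) • S (j + 1)) atTop (𝓝 (σ n))) ∧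
      Tendsto σ atTop (𝓝 v) := by
  have hrep : ∀ n j, ((t n j : ℝ) : 𝕜) • S (j + 1) = ((t n j : ℝ) : 𝕜) • S (B (lev (j + 1))) := by
    intro n j
    by_cases h : t n j = 0
    · rw [h]; simp
    · rw [← (t_ne_zero h).2]
  obtain ⟨K, hK⟩ := hS.norm.bddAbove_range
  have hK' : ∀ k, ‖S (B k)‖ ≤ K := fun k => hK ⟨k, rfl⟩
  have hsum : ∀ n, Summable (fun j => ((t n j : ℝ) : 𝕜) • S (j + 1)) := by
    intro n
    refine Summable.of_norm_bounded (g := fun j => t n j * K) ((hasSum_t0 n).summable.mul_right K) ?_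
    intro j
    rw [hrep, norm_smul, RCLike.norm_ofReal, abs_of_nonneg (t_nonneg n j)]
    exact mul_le_mul_of_nonneg_left (hK' _) (t_nonneg n j)
  refine ⟨fun n => ∑' j, ((t n j : ℝ) : 𝕜) • S (j + 1), fun n => (hsum n).hasSum.tendsto_sum_nat, ?_⟩
  rw [Metric.tendsto_atTop]
  intro ε hε
  obtain ⟨N, hN⟩ := Metric.tendsto_atTop.1 hS (ε / 2) (by linarith)
  refine ⟨N, fun n hn => ?_⟩
  have h1 : HasSum (fun j => ((t n j : ℝ) : 𝕜) • v) v := by
    have h2 : HasSum (fun j => ((t n j : ℝ) : 𝕜)) ((1 : ℝ) : 𝕜) :=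
      (hasSum_t0 n).mapL RCLike.ofRealCLM
    have h3 := h2.smul_const v
    simpa using h3
  have h4 := (hsum n).hasSum.sub h1
  rw [dist_eq_norm]
  have h5 : ∀ j, ‖((t n j : ℝ) : 𝕜) • S (j + 1) - ((t n j : ℝ) : 𝕜) • v‖ ≤ t n j * (ε / 2) := by
    intro j
    by_cases h : t n j = 0
    · rw [h]; simp
    · rw [hrep, ← smul_sub, norm_smul, RCLike.norm_ofReal, abs_of_nonneg (t_nonneg n j)]
      apply mul_le_mul_of_nonneg_left _ (t_nonneg n j)
      have := hN (lev (j + 1)) (by have := (t_ne_zero h).1; omega)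
      rw [dist_eq_norm] at this
      exact this.le
  have h6 : HasSum (fun j => t n j * (ε / 2)) (1 * (ε / 2)) := (hasSum_t0 n).mul_right _
  have h7 : ‖∑' j, ((t n j : ℝ) : 𝕜) • S (j + 1) - v‖ ≤ 1 * (ε / 2) := by
    rw [← h4.tsum_eq, ← h6.tsum_eq]
    exact tsum_of_norm_bounded h6.summable.hasSum h5
  linarith

/-- uniqueness: block partial sums are recovered from the means -/
theorem unique {E : Type*} [NormedAddCommGroup E] [NormedSpace 𝕜 E]
    (S : ℕ → E) (v : E) (σ : ℕ → E)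
    (hσ : ∀ n, Tendsto (fun m => ∑ j ∈ range m, ((t n j : ℝ) : 𝕜) • S (j + 1)) atTop (𝓝 (σ n)))
    (hv : Tendsto σ atTop (𝓝 v)) : Tendsto (fun n => S (B (n + 1))) atTop (𝓝 v) := by
  have h1 : ∀ n, S (B (n + 1)) = (2 : 𝕜) • σ n - σ (n + 1) := by
    intro n
    have h2 := ((hσ n).const_smul (2 : 𝕜)).sub (hσ (n + 1))
    refine tendsto_nhds_unique ?_ h2
    refine tendsto_const_nhds.congr' ?_
    refine (eventually_ge_atTop (B (n + 1))).mono fun m hm => ?_
    change S (B (n + 1)) = (2 : 𝕜) • ∑ j ∈ range m, ((t n j : ℝ) : 𝕜) • S (j + 1) -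
      ∑ j ∈ range m, ((t (n + 1) j : ℝ) : 𝕜) • S (j + 1)
    rw [smul_sum, ← sum_sub_distrib]
    have h3 : ∀ j ∈ range m, (2 : 𝕜) • ((t n j : ℝ) : 𝕜) • S (j + 1) - ((t (n + 1) j : ℝ) : 𝕜) • S (j + 1) =
        if j + 1 = B (n + 1) then S (j + 1) else 0 := by
      intro j _
      rw [smul_smul, ← sub_smul]
      have h4 : (2 : 𝕜) * ((t n j : ℝ) : 𝕜) - ((t (n + 1) j : ℝ) : 𝕜) =
          ((2 * t n j - t (n + 1) j : ℝ) : 𝕜) := by push_cast; ring
      rw [h4, t_rec]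
      split_ifs <;> simp
    rw [sum_congr rfl h3]
    have hpos : 0 < B (n + 1) := by
      have h5 := B_add (n + 1)
      have h6 : 16 ^ 1 ≤ 16 ^ (n + 1) := Nat.pow_le_pow_right (by norm_num) (by omega)
      omega
    rw [sum_eq_single (B (n + 1) - 1)]
    · rw [if_pos (by omega)]
      congr 1; omega
    · intro b _ hb
      rw [if_neg (by omega)]
    · intro h
      exact absurd (mem_range.2 (by omega)) h
  simp only [h1]
  have h2 := (hv.const_smul (2 : 𝕜)).sub (hv.comp (tendsto_add_atTop_nat 1))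
  have h3 : (2 : 𝕜) • v - v = v := by rw [two_smul]; abel
  rw [h3] at h2
  exact h2

/-- the first coordinate sequence of the bad vector -/
noncomputable def g (i : ℕ) : ℝ := ((i : ℝ) + 1) ^ (-(3 / 4) : ℝ)

theorem g_nonneg (i : ℕ) : 0 ≤ g i := by unfold g; positivity

theorem g_sq (i : ℕ) : g i ^ (2 : ℝ) = 1 / ((i : ℝ) + 1) ^ (3 / 2 : ℝ) := by
  unfold g
  rw [← Real.rpow_mul (by positivity), one_div, ← Real.rpow_neg (by positivity)]
  norm_num

theorem g_mem : Memℓp (fun i => ((g i : ℝ) : 𝕜)) 2 := by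
  apply memℓp_gen
  simp only [RCLike.norm_ofReal, abs_of_nonneg (g_nonneg _), ENNReal.toReal_ofNat]
  have h : Summable (fun i : ℕ => 1 / ((i : ℝ)) ^ (3 / 2 : ℝ)) :=
    Real.summable_one_div_nat_rpow.2 (by norm_num)
  have h2 := (summable_nat_add_iff 1).2 h
  refine h2.congr fun i => ?_
  rw [g_sq]
  push_cast
  rfl

variable (𝕜) in
/-- the bad vector -/
noncomputable def bad : X 𝕜 := (⟨fun i => ((g i : ℝ) : 𝕜), g_mem⟩, 0)

theorem xs_bad (n : ℕ) : xs 𝕜 n (bad 𝕜) = ((g (n / 2) / 2 : ℝ) : 𝕜) := by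
  rw [xs_apply]
  change 2⁻¹ * (((g (n / 2) : ℝ) : 𝕜) + sg 𝕜 n * 0) = _
  push_cast
  ring

theorem g_lower {i k : ℕ} (h : i + 1 ≤ 16 ^ (k + 1)) : (1 / 8 : ℝ) ^ (k + 1) ≤ g i := by
  unfold g
  have h1 : ((i : ℝ) + 1) ≤ (16 : ℝ) ^ (k + 1) := by exact_mod_cast h
  have h2 : ((16 : ℝ) ^ (k + 1)) ^ (-(3 / 4) : ℝ) = (1 / 8 : ℝ) ^ (k + 1) := by
    rw [← Real.rpow_natCast, ← Real.rpow_mul (by norm_num), mul_comm, Real.rpow_mul (by norm_num),
      Real.rpow_natCast]
    congr 1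
    rw [show (16 : ℝ) = 2 ^ (4 : ℝ) by norm_num, ← Real.rpow_mul (by norm_num)]
    norm_num
  rw [← h2]
  exact Real.rpow_le_rpow_of_nonpos (by positivity) h1 (by norm_num)

theorem block_lower (n k : ℕ) (hk : n ≤ k) :
    15 / 16 ≤ ‖∑ i ∈ Ico (B k) (B k + 15 * 16 ^ k),
      (((a n i : ℝ) : 𝕜) * ys 𝕜 i (bad 𝕜)) • y 𝕜 i‖ := by
  set c : ℕ → 𝕜 := fun i => ((a n i : ℝ) : 𝕜) * ys 𝕜 i (bad 𝕜) with hc
  have h1 : ∑ i ∈ Ico (B k) (B k + 15 * 16 ^ k), c i • y 𝕜 i =
      ∑ m ∈ (Ico (B k) (B k + 15 * 16 ^ k)).map perm.toEmbedding, c (perm.symm m) • x 𝕜 m := by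
    rw [sum_map]
    apply sum_congr rfl
    intro i _
    change c i • y 𝕜 i = c (perm.symm (perm i)) • x 𝕜 (perm i)
    rw [Equiv.symm_apply_apply]; rfl
  rw [h1]
  set v := ∑ m ∈ (Ico (B k) (B k + 15 * 16 ^ k)).map perm.toEmbedding, c (perm.symm m) • x 𝕜 m
    with hv
  have h2 : ‖v.2‖ ≤ ‖v‖ := norm_snd_le v
  refine le_trans ?_ h2
  have h3 := lp.sum_rpow_le_norm_rpow (E := fun _ : ℕ => 𝕜) (p := 1) (by norm_num) v.2
    (Ico (16 ^ k - 1) (16 ^ (k + 1) - 1))
  simp only [ENNReal.toReal_one, Real.rpow_one] at h3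
  refine le_trans ?_ h3
  have hBk := B_add k
  have hpow : 16 ^ (k + 1) = 16 * 16 ^ k := by rw [pow_succ]; ring
  have hpos : 1 ≤ 16 ^ k := Nat.one_le_pow _ _ (by norm_num)
  have h4 : ∀ i ∈ Ico (16 ^ k - 1) (16 ^ (k + 1) - 1),
      (1 / 2 : ℝ) ^ (k - n) * ((1 / 8 : ℝ) ^ (k + 1) / 2) ≤ ‖v.2 i‖ := by
    intro i hi
    rw [mem_Ico, hpow] at hi
    have hl0 : lev (2 * i) = k := lev_eq (by omega) (by omega)
    have hl1 : lev (2 * i + 1) = k := lev_eq (by omega) (by omega)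
    have hp0 : perm.symm (2 * i) = i + 16 ^ k - 1 := by
      change pg (2 * i) = _
      unfold pg
      rw [hl0, if_pos (by omega)]
      omega
    have hp1 : perm.symm (2 * i + 1) = i + 16 * 16 ^ k - 1 := by
      change pg (2 * i + 1) = _
      unfold pg
      rw [hl1, if_neg (by omega)]
      omega
    have hmem : ∀ m, m ∈ (Ico (B k) (B k + 15 * 16 ^ k)).map perm.toEmbedding ↔
        (B k ≤ perm.symm m ∧ perm.symm m < B k + 15 * 16 ^ k) := by
      intro m
      rw [mem_map_equiv, mem_Ico]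
    rw [hv, snd_sum, if_pos ((hmem _).2 (by rw [hp0]; omega)),
      if_neg (fun h => by have := (hmem _).1 h; rw [hp1] at this; omega), sub_zero]
    have hpp : perm (perm.symm (2 * i)) = 2 * i := Equiv.apply_symm_apply _ _
    have hval : c (perm.symm (2 * i)) = (((1 / 2 : ℝ) ^ (k - n) * (g i / 2) : ℝ) : 𝕜) := by
      change ((a n (perm.symm (2 * i)) : ℝ) : 𝕜) * xs 𝕜 (perm (perm.symm (2 * i))) (bad 𝕜) = _
      rw [hpp, xs_bad, show 2 * i / 2 = i by omega]
      have hlev : lev (perm.symm (2 * i)) = k := by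
        change lev (pg (2 * i)) = k
        rw [lev_pg, hl0]
      unfold a
      rw [hlev]
      push_cast
      ring
    rw [hval, RCLike.norm_ofReal]
    refine le_trans ?_ (le_abs_self _)
    apply mul_le_mul_of_nonneg_left _ (by positivity)
    have := g_lower (i := i) (k := k) (by rw [hpow]; omega)
    linarith
  refine le_trans ?_ (Finset.card_nsmul_le_sum _ _ _ h4)
  rw [Nat.card_Ico, nsmul_eq_mul]
  have h5 : ((16 ^ (k + 1) - 1 - (16 ^ k - 1) : ℕ) : ℝ) = 15 * 16 ^ k := by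
    have : 16 ^ (k + 1) - 1 - (16 ^ k - 1) = 15 * 16 ^ k := by omega
    rw [this]; push_cast; ring
  rw [h5]
  have h6 : (1 / 2 : ℝ) ^ k ≤ (1 / 2 : ℝ) ^ (k - n) :=
    pow_le_pow_of_le_one (by norm_num) (by norm_num) (by omega)
  calc (15 / 16 : ℝ) = 15 * 16 ^ k * ((1 / 2 : ℝ) ^ k * ((1 / 8 : ℝ) ^ (k + 1) / 2)) := by
        rw [pow_succ, show (16 : ℝ) = 2 * 8 by norm_num, mul_pow]
        have e1 : (2 : ℝ) ^ k * (1 / 2) ^ k = 1 := by rw [← mul_pow]; norm_num
        have e2 : (8 : ℝ) ^ k * (1 / 8) ^ k = 1 := by rw [← mul_pow]; norm_num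
        calc (15 : ℝ) / (2 * 8) = 15 * (1 * 1) / 16 := by norm_num
          _ = 15 * (((2 : ℝ) ^ k * (1 / 2) ^ k) * ((8 : ℝ) ^ k * (1 / 8) ^ k)) / 16 := by
            rw [e1, e2]
          _ = _ := by ring
    _ ≤ _ := by
        apply mul_le_mul_of_nonneg_left _ (by positivity)
        exact mul_le_mul_of_nonneg_right h6 (by positivity)

/-- the tail-sum series diverges for the bad vector -/
theorem diverges (n : ℕ) (τ : X 𝕜) :
    ¬ Tendsto (fun m => ∑ i ∈ range m, (((a n i : ℝ) : 𝕜) * ys 𝕜 i (bad 𝕜)) • y 𝕜 i) atTop (𝓝 τ) := by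
  intro h
  have hB : Tendsto B atTop atTop := by
    apply tendsto_atTop.2
    intro k
    refine (eventually_ge_atTop k).mono fun n hn => ?_
    have h1 := B_add n
    have h2 : n < 16 ^ n := Nat.lt_pow_self (by norm_num)
    omega
  have hB2 : Tendsto (fun k => B k + 15 * 16 ^ k) atTop atTop :=
    tendsto_atTop_mono (fun k => Nat.le_add_right _ _) hB
  have h1 := (h.comp hB2).sub (h.comp hB)
  rw [sub_self] at h1
  have h2 := (h1.norm).eventually (gt_mem_nhds (show ‖(0 : X 𝕜)‖ < 15 / 16 by simp))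
  obtain ⟨k, hk1, hk2⟩ := (h2.and (eventually_ge_atTop n)).exists
  have h3 := block_lower (𝕜 := 𝕜) n k hk2
  have h4 : ∑ i ∈ Ico (B k) (B k + 15 * 16 ^ k), (((a n i : ℝ) : 𝕜) * ys 𝕜 i (bad 𝕜)) • y 𝕜 i =
      ∑ i ∈ range (B k + 15 * 16 ^ k), (((a n i : ℝ) : 𝕜) * ys 𝕜 i (bad 𝕜)) • y 𝕜 i -
      ∑ i ∈ range (B k), (((a n i : ℝ) : 𝕜) * ys 𝕜 i (bad 𝕜)) • y 𝕜 i :=
    sum_Ico_eq_sub _ (Nat.le_add_right _ _)
  rw [h4] at h3
  change ‖∑ i ∈ range (B k + 15 * 16 ^ k), (((a n i : ℝ) : 𝕜) * ys 𝕜 i (bad 𝕜)) • y 𝕜 i -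
      ∑ i ∈ range (B k), (((a n i : ℝ) : 𝕜) * ys 𝕜 i (bad 𝕜)) • y 𝕜 i‖ < 15 / 16 at hk1
  linarith

end Space

end Q101.TBasis
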