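import Pool.Agent.Q101.Blocks

set_option autoImplicit false
set_option linter.unusedSectionVars false

open scoped ENNReal

namespace Q101.TQG

open Q101.Blocks

theorem wsum (A : Finset ℕ) : ∑ i ∈ A, 1 / √((i : ℝ) + 1) ≤ 2 * √(A.card : ℝ) := by
  induction A using Finset.induction_on_max with
  | empty => simp
  | insert a s hs ih =>
    have ha : a ∉ s := fun h => lt_irrefl a (hs a h)
    rw [Finset.sum_insert ha, Finset.card_insert_of_notMem ha]
    have hcard : (s.card : ℝ) ≤ a := by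
      have : s ⊆ Finset.range a := fun x hx => Finset.mem_range.2 (hs x hx)
      have := Finset.card_le_card this
      rw [Finset.card_range] at this
      exact_mod_cast this
    have h1 : 1 / √((a : ℝ) + 1) ≤ 1 / √((s.card : ℝ) + 1) := by
      apply one_div_le_one_div_of_le
      · positivity
      · exact Real.sqrt_le_sqrt (by linarith)
    set k : ℝ := (s.card : ℝ) with hk
    have hk0 : 0 ≤ k := by positivity
    have h2 : 1 / √(k + 1) ≤ 2 * √(k + 1) - 2 * √k := by
      have hp : 0 < √(k + 1) := Real.sqrt_pos.2 (by linarith)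
      rw [div_le_iff₀ hp]
      have e1 : √(k+1) * √(k+1) = k + 1 := Real.mul_self_sqrt (by linarith)
      have e2 : √k * √k = k := Real.mul_self_sqrt hk0
      nlinarith [sq_nonneg (√(k+1) - √k)]
    push_cast
    rw [← hk]
    linarith

/-- the sum of the coefficients of the first part against the weights -/
noncomputable def ws {M : ℕ} (u : Fin M → ℝ) : ℝ := ∑ i : Fin M, (1 / √((i : ℕ) + 1 : ℝ)) * u i

/-- the linear map giving the norm -/
noncomputable def T (M N : ℕ) (β : ℝ) :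
    (Fin M ⊕ Fin N → ℝ) →ₗ[ℝ] EuclideanSpace ℝ (Fin M ⊕ Fin N) where
  toFun u := WithLp.toLp 2 (Sum.elim (fun i => u (Sum.inl i))
    (fun n => u (Sum.inr n) + β * ws (fun i => u (Sum.inl i))))
  map_add' u v := by
    ext x
    rcases x with i | n
    · simp
    · simp only [ws, Pi.add_apply, mul_add, Finset.sum_add_distrib, Sum.elim_inr, PiLp.add_apply]
      ring
  map_smul' c u := by
    ext x
    rcases x with i | n
    · simp
    · simp only [ws, Pi.smul_apply, smul_eq_mul, Sum.elim_inr, PiLp.smul_apply, RingHom.id_apply]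
      rw [mul_add, Finset.mul_sum, Finset.mul_sum, Finset.mul_sum]
      congr 1
      apply Finset.sum_congr rfl
      intro i _
      ring

/-- the block norm -/
noncomputable def bn (M N : ℕ) (β : ℝ) : NormOn (Fin M ⊕ Fin N) where
  N u := ‖T M N β u‖
  add_le u v := by rw [map_add]; exact norm_add_le _ _
  smul_eq c u := by rw [map_smul, norm_smul, Real.norm_eq_abs]
  eq_zero u h := by
    rw [norm_eq_zero] at h
    have h1 : ∀ i, u (Sum.inl i) = 0 := fun i => congrFun (congrArg (WithLp.ofLp) h) (Sum.inl i)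
    funext x
    rcases x with i | n
    · exact h1 i
    · have h2 : u (Sum.inr n) + β * ws (fun i => u (Sum.inl i)) = 0 :=
        congrFun (congrArg (WithLp.ofLp) h) (Sum.inr n)
      simpa [ws, h1] using h2

theorem bn_sq (M N : ℕ) (β : ℝ) (u : Fin M ⊕ Fin N → ℝ) :
    (bn M N β).N u ^ 2 = ∑ i, u (Sum.inl i) ^ 2 +
      ∑ n, (u (Sum.inr n) + β * ws (fun i => u (Sum.inl i))) ^ 2 := by
  change ‖T M N β u‖ ^ 2 = _
  rw [EuclideanSpace.norm_sq_eq, Fintype.sum_sum_type]
  simp [T]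

theorem ws_sq_le {M : ℕ} (u : Fin M → ℝ) :
    ws u ^ 2 ≤ (∑ i : Fin M, 1 / ((i : ℕ) + 1 : ℝ)) * ∑ i, u i ^ 2 := by
  have h := Finset.sum_mul_sq_le_sq_mul_sq (Finset.univ : Finset (Fin M))
    (fun i => 1 / √((i : ℕ) + 1 : ℝ)) u
  have e : ∀ i : Fin M, (1 / √((i : ℕ) + 1 : ℝ)) ^ 2 = 1 / ((i : ℕ) + 1 : ℝ) := by
    intro i
    rw [div_pow, one_pow, Real.sq_sqrt (by positivity)]
  simp only [e] at h
  exact h

theorem wsumFin {M : ℕ} (A : Finset (Fin M)) :
    ∑ i ∈ A, 1 / √((i : ℕ) + 1 : ℝ) ≤ 2 * √(A.card : ℝ) := by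
  have h := wsum (A.map Fin.valEmbedding)
  rw [Finset.card_map, Finset.sum_map] at h
  simpa using h

theorem near (M N : ℕ) (β H a : ℝ) (hM : 0 < M) (ha : 0 < a)
    (hH : H = ∑ i : Fin M, 1 / ((i : ℕ) + 1 : ℝ)) (hHpos : 0 < H)
    (hβ : β = 1 / (√M * H)) (hN : N * β ^ 2 ≤ 1)
    (u v : Fin M ⊕ Fin N → ℝ) (hu : ∀ x, |u x| ≤ 1)
    (hv : ∀ x, v x = 0 ∨ (v x = u x ∧ a ≤ |u x|)) :
    (bn M N β).N v ≤ √(1 + 2 * (4 / a ^ 2 + 2 + 8 / a) + 8 / a ^ 2) * (bn M N β).N u := by
  have hβ0 : 0 < β := by rw [hβ]; positivity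
  set S1 := ∑ i, u (Sum.inl i) ^ 2 with hS1
  set s := ws (fun i => u (Sum.inl i)) with hs
  set s' := ws (fun i => v (Sum.inl i)) with hs'
  set S2 := ∑ n, (u (Sum.inr n) + β * s) ^ 2 with hS2
  have hS1n : 0 ≤ S1 := Finset.sum_nonneg fun i _ => sq_nonneg _
  have hS2n : 0 ≤ S2 := Finset.sum_nonneg fun i _ => sq_nonneg _
  have vabs : ∀ x, |v x| ≤ |u x| := by
    intro x
    rcases hv x with h | ⟨h, _⟩
    · rw [h]; simp
    · rw [h]
  have vsq : ∀ x, v x ^ 2 ≤ u x ^ 2 := fun x => sq_le_sq.2 (vabs x)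
  -- (i)
  have h1 : ∑ i, v (Sum.inl i) ^ 2 ≤ S1 := Finset.sum_le_sum fun i _ => vsq _
  -- (ii)
  have h2 : s' ^ 2 ≤ 4 / a ^ 2 * S1 := by
    classical
    set A := Finset.univ.filter (fun i : Fin M => a ≤ |u (Sum.inl i)|) with hA
    have hs1 : |s'| ≤ 2 * √(A.card : ℝ) := by
      refine le_trans ?_ (wsumFin A)
      rw [hs', ws]
      refine (Finset.abs_sum_le_sum_abs _ _).trans ?_
      rw [← Finset.sum_subset (Finset.subset_univ A)]
      · apply Finset.sum_le_sum
        intro i _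
        rw [abs_mul, abs_of_nonneg (by positivity)]
        calc 1 / √((i : ℕ) + 1 : ℝ) * |v (Sum.inl i)| ≤ 1 / √((i : ℕ) + 1 : ℝ) * 1 := by
              apply mul_le_mul_of_nonneg_left _ (by positivity)
              exact (vabs _).trans (hu _)
          _ = _ := mul_one _
      · intro i _ hi
        rcases hv (Sum.inl i) with h | ⟨_, h⟩
        · rw [h]; simp
        · exact absurd (Finset.mem_filter.2 ⟨Finset.mem_univ i, h⟩) hi
    have hcard : (A.card : ℝ) * a ^ 2 ≤ S1 := by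
      calc (A.card : ℝ) * a ^ 2 = ∑ i ∈ A, a ^ 2 := by rw [Finset.sum_const, nsmul_eq_mul]
        _ ≤ ∑ i ∈ A, u (Sum.inl i) ^ 2 := by
            apply Finset.sum_le_sum
            intro i hi
            have := (Finset.mem_filter.1 hi).2
            rw [← sq_abs (u _)]
            exact pow_le_pow_left₀ ha.le this 2
        _ ≤ S1 := Finset.sum_le_sum_of_subset_of_nonneg (Finset.subset_univ _)
            fun i _ _ => sq_nonneg _
    have : s' ^ 2 ≤ 4 * A.card := by
      have := pow_le_pow_left₀ (abs_nonneg _) hs1 2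
      rw [sq_abs, mul_pow, Real.sq_sqrt (by positivity)] at this
      linarith
    have ha2 : 0 < a ^ 2 := by positivity
    calc s' ^ 2 ≤ 4 * A.card := this
      _ ≤ 4 / a ^ 2 * S1 := by
        rw [div_mul_eq_mul_div, le_div_iff₀ ha2]
        nlinarith
  -- (iii)
  have h3 : ∑ n, v (Sum.inr n) ^ 2 ≤ (4 / a ^ 2 + 2 + 8 / a) * (S1 + S2) := by
    by_cases hc : 2 / H ≤ a / 2
    · have hbs : |β * s| ≤ a / 2 := by
        refine le_trans ?_ hc
        rw [abs_mul, abs_of_pos hβ0]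
        have : |s| ≤ 2 * √(M : ℝ) := by
          have h := wsumFin (Finset.univ : Finset (Fin M))
          rw [Finset.card_univ, Fintype.card_fin] at h
          refine le_trans ?_ h
          rw [hs, ws]
          refine (Finset.abs_sum_le_sum_abs _ _).trans ?_
          apply Finset.sum_le_sum
          intro i _
          rw [abs_mul, abs_of_nonneg (by positivity)]
          calc 1 / √((i : ℕ) + 1 : ℝ) * |u (Sum.inl i)| ≤ 1 / √((i : ℕ) + 1 : ℝ) * 1 := by
                apply mul_le_mul_of_nonneg_left _ (by positivity)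
                exact hu _
            _ = _ := mul_one _
        calc β * |s| ≤ β * (2 * √(M : ℝ)) := mul_le_mul_of_nonneg_left this hβ0.le
          _ = 2 / H := by
            rw [hβ]
            have : √(M : ℝ) ≠ 0 := (Real.sqrt_pos.2 (by exact_mod_cast hM)).ne'
            field_simp
      have hn : ∀ n, v (Sum.inr n) ^ 2 ≤ 4 / a ^ 2 * (u (Sum.inr n) + β * s) ^ 2 := by
        intro n
        rcases hv (Sum.inr n) with h | ⟨h, h'⟩
        · rw [h, zero_pow two_ne_zero]; positivity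
        · have h4 : a / 2 ≤ |u (Sum.inr n) + β * s| := by
            have := abs_sub_abs_le_abs_sub (u (Sum.inr n)) (-(β * s))
            rw [abs_neg, sub_neg_eq_add] at this
            linarith
          have h5 : (a / 2) ^ 2 ≤ (u (Sum.inr n) + β * s) ^ 2 := by
            rw [← sq_abs (u (Sum.inr n) + β * s)]
            exact pow_le_pow_left₀ (by positivity) h4 2
          have h6 : v (Sum.inr n) ^ 2 ≤ 1 := by
            rw [h, ← sq_abs]
            exact pow_le_one₀ (abs_nonneg _) (hu _)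
          refine h6.trans ?_
          rw [div_mul_eq_mul_div, le_div_iff₀ (by positivity)]
          nlinarith
      calc ∑ n, v (Sum.inr n) ^ 2 ≤ ∑ n, 4 / a ^ 2 * (u (Sum.inr n) + β * s) ^ 2 :=
            Finset.sum_le_sum fun n _ => hn n
        _ = 4 / a ^ 2 * S2 := by rw [← Finset.mul_sum]
        _ ≤ _ := by
          have : 0 ≤ 4 / a ^ 2 := by positivity
          have h8 : 0 ≤ 8 / a := by positivity
          nlinarith [mul_nonneg this hS1n, mul_nonneg h8 hS1n, mul_nonneg h8 hS2n]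
    · push Not at hc
      have hH' : H < 4 / a := by
        rw [lt_div_iff₀ ha]
        rw [lt_div_iff₀ hHpos] at hc
        linarith
      have hs2 : s ^ 2 ≤ H * S1 := by
        rw [hH]; exact ws_sq_le _
      have hn : ∀ n, v (Sum.inr n) ^ 2 ≤ 2 * (u (Sum.inr n) + β * s) ^ 2 + 2 * β ^ 2 * s ^ 2 := by
        intro n
        refine (vsq _).trans ?_
        nlinarith [sq_nonneg (u (Sum.inr n) + 2 * (β * s))]
      calc ∑ n, v (Sum.inr n) ^ 2
          ≤ ∑ n : Fin N, (2 * (u (Sum.inr n) + β * s) ^ 2 + 2 * β ^ 2 * s ^ 2) :=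
            Finset.sum_le_sum fun n _ => hn n
        _ = 2 * S2 + 2 * (N * β ^ 2) * s ^ 2 := by
            rw [Finset.sum_add_distrib, ← Finset.mul_sum, Finset.sum_const, Finset.card_univ,
              Fintype.card_fin, nsmul_eq_mul]
            ring
        _ ≤ 2 * S2 + 2 * s ^ 2 := by nlinarith [sq_nonneg s]
        _ ≤ 2 * S2 + 2 * (4 / a * S1) := by nlinarith
        _ ≤ _ := by
          have h7 : 0 ≤ 4 / a ^ 2 := by positivity
          have h8 : 0 ≤ 8 / a := by positivity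
          have h9 : 4 / a = (8 / a) / 2 := by ring
          rw [h9]
          nlinarith [mul_nonneg h7 hS1n, mul_nonneg h7 hS2n, mul_nonneg h8 hS2n]
  -- (iv)
  have h4 : ∑ n, (v (Sum.inr n) + β * s') ^ 2 ≤ 2 * ∑ n, v (Sum.inr n) ^ 2 + 2 * s' ^ 2 := by
    calc ∑ n, (v (Sum.inr n) + β * s') ^ 2
        ≤ ∑ n : Fin N, (2 * v (Sum.inr n) ^ 2 + 2 * β ^ 2 * s' ^ 2) := by
          apply Finset.sum_le_sum
          intro n _
          nlinarith [sq_nonneg (v (Sum.inr n) - β * s')]
      _ = 2 * ∑ n, v (Sum.inr n) ^ 2 + 2 * (N * β ^ 2) * s' ^ 2 := by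
          rw [Finset.sum_add_distrib, ← Finset.mul_sum, Finset.sum_const, Finset.card_univ,
            Fintype.card_fin, nsmul_eq_mul]
          ring
      _ ≤ _ := by nlinarith [sq_nonneg s']
  have hfin : (bn M N β).N v ^ 2 ≤
      (1 + 2 * (4 / a ^ 2 + 2 + 8 / a) + 8 / a ^ 2) * (bn M N β).N u ^ 2 := by
    rw [bn_sq, bn_sq]
    change ∑ i, v (Sum.inl i) ^ 2 + ∑ n, (v (Sum.inr n) + β * s') ^ 2 ≤ _ * (S1 + S2)
    have h7 : 0 ≤ 8 / a ^ 2 := by positivity
    have h8 : 4 / a ^ 2 = (8 / a ^ 2) / 2 := by ring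
    have h9 := mul_nonneg h7 hS2n
    rw [h8] at h2
    nlinarith
  have hc0 : 0 ≤ (1 + 2 * (4 / a ^ 2 + 2 + 8 / a) + 8 / a ^ 2) := by positivity
  rw [← Real.sqrt_sq ((bn M N β).nonneg v), ← Real.sqrt_sq ((bn M N β).nonneg u),
    ← Real.sqrt_mul hc0]
  exact Real.sqrt_le_sqrt hfin

/-- the test vector of the block -/
noncomputable def tv (M N : ℕ) : Fin M ⊕ Fin N → ℝ :=
  Sum.elim (fun i => 1 / √((i : ℕ) + 1 : ℝ)) (fun _ => - (1 / √(M : ℝ)))

/-- its signs -/
def sv (M N : ℕ) : Fin M ⊕ Fin N → ℝ := Sum.elim (fun _ => 1) (fun _ => -1)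

theorem tv_div (M N : ℕ) (hM : 0 < M) (x : Fin M ⊕ Fin N) : tv M N x / ‖tv M N x‖ = sv M N x := by
  have hM' : 0 < √(M : ℝ) := Real.sqrt_pos.2 (by exact_mod_cast hM)
  rcases x with i | n
  · simp only [tv, sv, Sum.elim_inl, Real.norm_eq_abs]
    have : 0 < √((i : ℕ) + 1 : ℝ) := Real.sqrt_pos.2 (by positivity)
    rw [abs_of_pos (by positivity)]
    field_simp
  · simp only [tv, sv, Sum.elim_inr, Real.norm_eq_abs, abs_neg]
    rw [abs_of_pos (by positivity)]
    field_simp

theorem le_tv (M N : ℕ) (hM : 0 < M) (x : Fin M ⊕ Fin N) : 1 / √(M : ℝ) ≤ ‖tv M N x‖ := by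
  have hM' : 0 < √(M : ℝ) := Real.sqrt_pos.2 (by exact_mod_cast hM)
  rcases x with i | n
  · simp only [tv, Sum.elim_inl, Real.norm_eq_abs]
    have : 0 < √((i : ℕ) + 1 : ℝ) := Real.sqrt_pos.2 (by positivity)
    rw [abs_of_pos (by positivity)]
    apply one_div_le_one_div_of_le this
    apply Real.sqrt_le_sqrt
    have := i.2
    exact_mod_cast this
  · simp only [tv, Sum.elim_inr, Real.norm_eq_abs, abs_neg]
    rw [abs_of_pos (by positivity)]

theorem bn_tv (M N : ℕ) (β H : ℝ) (hM : 0 < M)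
    (hH : H = ∑ i : Fin M, 1 / ((i : ℕ) + 1 : ℝ)) (hHpos : 0 < H)
    (hβ : β = 1 / (√M * H)) : (bn M N β).N (tv M N) = √H := by
  have hM' : 0 < √(M : ℝ) := Real.sqrt_pos.2 (by exact_mod_cast hM)
  have h : (bn M N β).N (tv M N) ^ 2 = H := by
    rw [bn_sq]
    have e1 : ∑ i, tv M N (Sum.inl i) ^ 2 = H := by
      rw [hH]
      apply Finset.sum_congr rfl
      intro i _
      simp only [tv, Sum.elim_inl]
      rw [div_pow, one_pow, Real.sq_sqrt (by positivity)]
    have e2 : ws (fun i => tv M N (Sum.inl i)) = H := by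
      rw [hH, ws]
      apply Finset.sum_congr rfl
      intro i _
      simp only [tv, Sum.elim_inl]
      rw [← sq, div_pow, one_pow, Real.sq_sqrt (by positivity)]
    rw [e1, e2]
    have e3 : ∀ n, tv M N (Sum.inr n) + β * H = 0 := by
      intro n
      simp only [tv, Sum.elim_inr]
      rw [hβ]
      field_simp
      ring
    simp [e3]
  rw [← h, Real.sqrt_sq ((bn M N β).nonneg _)]

theorem bn_sv (M N : ℕ) (β H : ℝ) (hM : 0 < M) (hHpos : 4 ≤ H)
    (hβ : β = 1 / (√M * H)) : √(N : ℝ) / 2 ≤ (bn M N β).N (sv M N) := by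
  have hM' : 0 < √(M : ℝ) := Real.sqrt_pos.2 (by exact_mod_cast hM)
  have hβ0 : 0 < β := by rw [hβ]; positivity
  have h : (N : ℝ) / 4 ≤ (bn M N β).N (sv M N) ^ 2 := by
    rw [bn_sq]
    have e1 : 0 ≤ ∑ i, sv M N (Sum.inl i) ^ 2 := Finset.sum_nonneg fun i _ => sq_nonneg _
    have e2 : β * ws (fun i => sv M N (Sum.inl i)) ≤ 1 / 2 := by
      have : ws (fun i => sv M N (Sum.inl i)) ≤ 2 * √(M : ℝ) := by
        have h := wsumFin (Finset.univ : Finset (Fin M))
        rw [Finset.card_univ, Fintype.card_fin] at h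
        simpa [ws, sv] using h
      calc β * ws (fun i => sv M N (Sum.inl i)) ≤ β * (2 * √(M : ℝ)) :=
            mul_le_mul_of_nonneg_left this hβ0.le
        _ = 2 / H := by rw [hβ]; field_simp
        _ ≤ 1 / 2 := by
          rw [div_le_div_iff₀ (by linarith) (by norm_num)]
          linarith
    have e4 : ∀ n, 1 / 4 ≤ (sv M N (Sum.inr n) + β * ws (fun i => sv M N (Sum.inl i))) ^ 2 := by
      intro n
      have : sv M N (Sum.inr n) = -1 := rfl
      rw [this]
      nlinarith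
    have e5 : (N : ℝ) / 4 ≤
        ∑ n : Fin N, (sv M N (Sum.inr n) + β * ws (fun i => sv M N (Sum.inl i))) ^ 2 := by
      calc (N : ℝ) / 4 = ∑ n : Fin N, (1 / 4 : ℝ) := by
            rw [Finset.sum_const, Finset.card_univ, Fintype.card_fin, nsmul_eq_mul]; ring
        _ ≤ _ := Finset.sum_le_sum fun n _ => e4 n
    linarith
  have h2 : √((N : ℝ) / 4) ≤ (bn M N β).N (sv M N) := by
    rw [← Real.sqrt_sq ((bn M N β).nonneg (sv M N))]
    exact Real.sqrt_le_sqrt h
  have h3 : √((N : ℝ) / 4) = √(N : ℝ) / 2 := by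
    rw [Real.sqrt_div (by positivity)]
    congr 1
    rw [show (4 : ℝ) = 2 ^ 2 by norm_num, Real.sqrt_sq (by norm_num)]
  rw [← h3]; exact h2

/-- bounds on coordinates -/
theorem coord_le (M N : ℕ) (β H : ℝ) (hM : 0 < M)
    (hH : H = ∑ i : Fin M, 1 / ((i : ℕ) + 1 : ℝ)) (hHpos : 1 ≤ H)
    (hHM : H ≤ M)
    (hβ : β = 1 / (√M * H)) (u : Fin M ⊕ Fin N → ℝ) (x : Fin M ⊕ Fin N) :
    |u x| ≤ 2 * (bn M N β).N u := by
  have hM' : 0 < √(M : ℝ) := Real.sqrt_pos.2 (by exact_mod_cast hM)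
  have hβ0 : 0 < β := by rw [hβ]; positivity
  have hsq := bn_sq M N β u
  set s := ws (fun i => u (Sum.inl i)) with hs
  have hS1 : ∑ i, u (Sum.inl i) ^ 2 ≤ (bn M N β).N u ^ 2 := by
    rw [hsq]
    have : 0 ≤ ∑ n, (u (Sum.inr n) + β * s) ^ 2 := Finset.sum_nonneg fun i _ => sq_nonneg _
    linarith
  have hS2 : ∑ n, (u (Sum.inr n) + β * s) ^ 2 ≤ (bn M N β).N u ^ 2 := by
    rw [hsq]
    have : 0 ≤ ∑ i, u (Sum.inl i) ^ 2 := Finset.sum_nonneg fun i _ => sq_nonneg _
    linarith
  have hn := (bn M N β).nonneg u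
  rcases x with i | n
  · have h1 : u (Sum.inl i) ^ 2 ≤ (bn M N β).N u ^ 2 :=
      le_trans (Finset.single_le_sum (f := fun i => u (Sum.inl i) ^ 2)
        (fun i _ => sq_nonneg _) (Finset.mem_univ i)) hS1
    have := abs_le_of_sq_le_sq h1 hn
    linarith
  · have h1 : (u (Sum.inr n) + β * s) ^ 2 ≤ (bn M N β).N u ^ 2 :=
      le_trans (Finset.single_le_sum (f := fun n => (u (Sum.inr n) + β * s) ^ 2)
        (fun i _ => sq_nonneg _) (Finset.mem_univ n)) hS2
    have h1' := abs_le_of_sq_le_sq h1 hn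
    have h2 : (β * s) ^ 2 ≤ (bn M N β).N u ^ 2 := by
      have : s ^ 2 ≤ H * (bn M N β).N u ^ 2 := by
        have h := ws_sq_le (fun i => u (Sum.inl i))
        rw [← hH] at h
        refine h.trans ?_
        exact mul_le_mul_of_nonneg_left hS1 (by linarith)
      calc (β * s) ^ 2 = β ^ 2 * s ^ 2 := by ring
        _ ≤ β ^ 2 * (H * (bn M N β).N u ^ 2) := mul_le_mul_of_nonneg_left this (by positivity)
        _ = (β ^ 2 * H) * (bn M N β).N u ^ 2 := by ring
        _ ≤ 1 * (bn M N β).N u ^ 2 := by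
          apply mul_le_mul_of_nonneg_right _ (by positivity)
          rw [hβ, div_pow, mul_pow, Real.sq_sqrt (by positivity), one_pow]
          have hM1 : (1 : ℝ) ≤ M := by exact_mod_cast hM
          rw [div_mul_eq_mul_div, div_le_one (by positivity)]
          nlinarith
        _ = _ := one_mul _
    have h2' := abs_le_of_sq_le_sq h2 hn
    calc |u (Sum.inr n)| = |(u (Sum.inr n) + β * s) - β * s| := by ring_nf
      _ ≤ |u (Sum.inr n) + β * s| + |β * s| := abs_sub _ _
      _ ≤ _ := by linarith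

/-- norms of basis vectors -/
theorem basis_le (M N : ℕ) (β : ℝ) (hN : N * β ^ 2 ≤ 1) (x : Fin M ⊕ Fin N) :
    (bn M N β).N (Pi.single x 1) ≤ 2 := by
  have h : (bn M N β).N (Pi.single x 1) ^ 2 ≤ 2 ^ 2 := by
    rw [bn_sq]
    rcases x with i | n
    · have e1 : ∑ i', (Pi.single (Sum.inl i) (1 : ℝ) : Fin M ⊕ Fin N → ℝ) (Sum.inl i') ^ 2 = 1 := by
        rw [Finset.sum_eq_single i]
        · simp
        · intro b _ hb
          rw [Pi.single_eq_of_ne (by simpa using hb)]; simp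
        · simp
      have e2 : ws (fun i' => (Pi.single (Sum.inl i) (1 : ℝ) : Fin M ⊕ Fin N → ℝ) (Sum.inl i'))
          = 1 / √((i : ℕ) + 1 : ℝ) := by
        rw [ws, Finset.sum_eq_single i]
        · simp
        · intro b _ hb
          rw [Pi.single_eq_of_ne (by simpa using hb)]; simp
        · simp
      have e3 : 1 / √((i : ℕ) + 1 : ℝ) ≤ 1 := by
        rw [div_le_one (by positivity)]
        rw [Real.one_le_sqrt]
        have : (0 : ℝ) ≤ (i : ℕ) := by positivity
        linarith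
      have e3' : 0 ≤ 1 / √((i : ℕ) + 1 : ℝ) := by positivity
      rw [e1, e2]
      have e4 : ∀ n, (Pi.single (Sum.inl i) (1 : ℝ) : Fin M ⊕ Fin N → ℝ) (Sum.inr n) = 0 := by
        intro n; simp
      simp only [e4, zero_add]
      rw [Finset.sum_const, Finset.card_univ, Fintype.card_fin, nsmul_eq_mul]
      have : (N : ℝ) * (β * (1 / √((i : ℕ) + 1 : ℝ))) ^ 2 ≤ 1 := by
        calc (N : ℝ) * (β * (1 / √((i : ℕ) + 1 : ℝ))) ^ 2
            = (N * β ^ 2) * (1 / √((i : ℕ) + 1 : ℝ)) ^ 2 := by ring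
          _ ≤ 1 * 1 := by
            apply mul_le_mul hN (pow_le_one₀ e3' e3) (by positivity) (by norm_num)
          _ = 1 := one_mul _
      linarith
    · have e1 : ∀ i', (Pi.single (Sum.inr n) (1 : ℝ) : Fin M ⊕ Fin N → ℝ) (Sum.inl i') = 0 := by
        intro i'; simp
      have e2 : ws (fun i' => (Pi.single (Sum.inr n) (1 : ℝ) : Fin M ⊕ Fin N → ℝ) (Sum.inl i'))
          = 0 := by
        simp [ws]
      rw [e2]
      have e3 : ∑ n', ((Pi.single (Sum.inr n) (1 : ℝ) : Fin M ⊕ Fin N → ℝ) (Sum.inr n') + β * 0) ^ 2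
          = 1 := by
        rw [Finset.sum_eq_single n]
        · simp
        · intro b _ hb
          rw [Pi.single_eq_of_ne (by simpa using hb)]; simp
        · simp
      rw [e3]
      simp only [e1]
      norm_num
  exact le_of_sq_le_sq h (by norm_num)

end Q101.TQG
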