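import Pool.Agent.Q101.Blocks

set_option autoImplicit false
set_option linter.unusedSectionVars false

open scoped ENNReal

namespace Q101.Twist

open Q101.Blocks

/-- index set of a block: levels `k ≤ J`, level `k` of size `m ^ k` -/
abbrev Ix (m J : ℕ) : Type := Σ k : Fin (J + 1), Fin (m ^ (k : ℕ))

variable {m J : ℕ}

/-- sum over a level -/
noncomputable def sm (u : Ix m J → ℝ) (k : Fin (J + 1)) : ℝ := ∑ i, u ⟨k, i⟩

/-- mean over the previous level -/
noncomputable def pv (u : Ix m J → ℝ) (k : Fin (J + 1)) : ℝ :=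
  if (k : ℕ) = 0 then 0 else sm u ⟨(k : ℕ) - 1, by omega⟩ / (m : ℝ) ^ ((k : ℕ) - 1)

theorem sm_add (u v : Ix m J → ℝ) (k : Fin (J + 1)) : sm (u + v) k = sm u k + sm v k := by
  unfold sm; rw [← Finset.sum_add_distrib]; rfl

theorem sm_smul (c : ℝ) (u : Ix m J → ℝ) (k : Fin (J + 1)) : sm (c • u) k = c * sm u k := by
  unfold sm; rw [Finset.mul_sum]; rfl

theorem pv_add (u v : Ix m J → ℝ) (k : Fin (J + 1)) : pv (u + v) k = pv u k + pv v k := by
  unfold pv; rw [sm_add]; split_ifs <;> ring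

theorem pv_smul (c : ℝ) (u : Ix m J → ℝ) (k : Fin (J + 1)) : pv (c • u) k = c * pv u k := by
  unfold pv; rw [sm_smul]; split_ifs <;> ring

/-- the twist -/
noncomputable def Phi (m J : ℕ) (δ : ℝ) : (Ix m J → ℝ) →ₗ[ℝ] (Ix m J → ℝ) where
  toFun u := fun s => u s + δ * pv u s.1
  map_add' u v := by
    funext s
    simp only [Pi.add_apply, pv_add]; ring
  map_smul' c u := by
    funext s
    simp only [Pi.smul_apply, pv_smul, smul_eq_mul, RingHom.id_apply]; ring

theorem Phi_apply (δ : ℝ) (u : Ix m J → ℝ) (s : Ix m J) : Phi m J δ u s = u s + δ * pv u s.1 := rfl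

theorem Phi_inj (δ : ℝ) (u : Ix m J → ℝ) (h : Phi m J δ u = 0) : u = 0 := by
  have key : ∀ (n : ℕ) (hn : n < J + 1) (i : Fin (m ^ n)), u ⟨⟨n, hn⟩, i⟩ = 0 := by
    intro n
    induction n with
    | zero =>
      intro hn i
      have := congrFun h ⟨⟨0, hn⟩, i⟩
      rw [Phi_apply] at this
      simpa [pv] using this
    | succ n ih =>
      intro hn i
      have := congrFun h ⟨⟨n + 1, hn⟩, i⟩
      rw [Phi_apply] at this
      have h0 : pv u ⟨n + 1, hn⟩ = 0 := by
        unfold pv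
        rw [if_neg (by simp)]
        have : sm u ⟨(n + 1 : ℕ) - 1, by omega⟩ = 0 := by
          unfold sm
          apply Finset.sum_eq_zero
          intro i _
          exact ih (by omega) i
        change sm u ⟨(n + 1 : ℕ) - 1, _⟩ / _ = 0
        rw [this, zero_div]
      simp only [h0, mul_zero, add_zero] at this
      exact this
  funext s
  obtain ⟨⟨n, hn⟩, i⟩ := s
  exact key n hn i

/-- the target space of a block -/
abbrev E (m J : ℕ) : Type := ∀ k : Fin (J + 1), PiLp 1 (fun _ : Fin (m ^ (k : ℕ)) => ℝ)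

/-- plain linear identification -/
noncomputable def Id (m J : ℕ) : (Ix m J → ℝ) →ₗ[ℝ] E m J where
  toFun y := fun k => WithLp.toLp 1 (fun i => y ⟨k, i⟩)
  map_add' _ _ := rfl
  map_smul' _ _ := rfl

theorem Id_inj (y : Ix m J → ℝ) (h : Id m J y = 0) : y = 0 := by
  funext s
  have := congrFun h s.1
  exact congrFun (congrArg WithLp.ofLp this) s.2

/-- the norm of a block with twist `δ` -/
noncomputable def nb (m J : ℕ) (δ : ℝ) : NormOn (Ix m J) where
  N u := ‖Id m J (Phi m J δ u)‖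
  add_le u v := by rw [map_add, map_add]; exact norm_add_le _ _
  smul_eq c u := by rw [map_smul, map_smul, norm_smul, Real.norm_eq_abs]
  eq_zero u h := Phi_inj δ u (Id_inj _ (norm_eq_zero.1 h))

theorem level_norm (y : Ix m J → ℝ) (k : Fin (J + 1)) : ‖Id m J y k‖ = ∑ i, |y ⟨k, i⟩| := by
  change ‖(WithLp.toLp 1 (fun i => y ⟨k, i⟩) : PiLp 1 (fun _ : Fin (m ^ (k : ℕ)) => ℝ))‖ = _
  rw [PiLp.norm_eq_of_L1]
  rfl

theorem level_le (δ : ℝ) (u : Ix m J → ℝ) (k : Fin (J + 1)) :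
    ∑ i, |Phi m J δ u ⟨k, i⟩| ≤ (nb m J δ).N u := by
  rw [← level_norm]
  exact norm_le_pi_norm (Id m J (Phi m J δ u)) k

theorem nb_le {δ : ℝ} {u : Ix m J → ℝ} {R : ℝ} (hR : 0 ≤ R)
    (h : ∀ k, ∑ i, |Phi m J δ u ⟨k, i⟩| ≤ R) : (nb m J δ).N u ≤ R := by
  change ‖Id m J (Phi m J δ u)‖ ≤ R
  rw [pi_norm_le_iff_of_nonneg hR]
  intro k
  rw [level_norm]
  exact h k

theorem abs_sm_le (u : Ix m J → ℝ) (k : Fin (J + 1)) : |sm u k| ≤ ∑ i, |u ⟨k, i⟩| :=
  Finset.abs_sum_le_sum_abs _ _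

/-- upper bound for the norm from level sums -/
theorem nb_le_of_levels (hm : 0 < m) {δ : ℝ} (hδ : 0 ≤ δ) {u : Ix m J → ℝ} {R : ℝ} (hR : 0 ≤ R)
    (h : ∀ k, ∑ i, |u ⟨k, i⟩| ≤ R) : (nb m J δ).N u ≤ (1 + δ * m) * R := by
  have hm' : (0 : ℝ) < m := by exact_mod_cast hm
  apply nb_le (by positivity)
  intro k
  have h1 : ∑ i, |Phi m J δ u ⟨k, i⟩| ≤ ∑ i, |u ⟨k, i⟩| + (m : ℝ) ^ (k : ℕ) * (δ * |pv u k|) := by
    calc ∑ i, |Phi m J δ u ⟨k, i⟩| ≤ ∑ i : Fin (m ^ (k : ℕ)), (|u ⟨k, i⟩| + δ * |pv u k|) := by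
          apply Finset.sum_le_sum
          intro i _
          rw [Phi_apply]
          refine (abs_add_le _ _).trans ?_
          rw [abs_mul, abs_of_nonneg hδ]
      _ = _ := by
          rw [Finset.sum_add_distrib, Finset.sum_const, Finset.card_univ, Fintype.card_fin,
            nsmul_eq_mul]
          push_cast
          ring
  have h2 : (m : ℝ) ^ (k : ℕ) * (δ * |pv u k|) ≤ δ * m * R := by
    unfold pv
    split_ifs with hk
    · rw [abs_zero, mul_zero, mul_zero]; positivity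
    · have h3 : |sm u ⟨(k : ℕ) - 1, by omega⟩| ≤ R := (abs_sm_le _ _).trans (h _)
      have h4 : (m : ℝ) ^ (k : ℕ) = m * m ^ ((k : ℕ) - 1) := by
        rw [← pow_succ']
        congr 1; omega
      rw [abs_div, abs_of_pos (pow_pos hm' ((k : ℕ) - 1)), h4]
      have h5 : (m : ℝ) * m ^ ((k : ℕ) - 1) * (δ * (|sm u ⟨(k : ℕ) - 1, by omega⟩| /
          m ^ ((k : ℕ) - 1))) = δ * m * |sm u ⟨(k : ℕ) - 1, by omega⟩| := by
        have : (m : ℝ) ^ ((k : ℕ) - 1) ≠ 0 := by positivity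
        field_simp
      rw [h5]
      exact mul_le_mul_of_nonneg_left h3 (by positivity)
  have := h k
  linarith

theorem coord_le (hm : 0 < m) {δ : ℝ} (hδ : 0 ≤ δ) (hδ2 : δ ≤ 1 / 2) (u : Ix m J → ℝ) (s : Ix m J) :
    |u s| ≤ 2 * (nb m J δ).N u := by
  have hm' : (0 : ℝ) < m := by exact_mod_cast hm
  set N := (nb m J δ).N u with hN
  have hN0 : 0 ≤ N := (nb m J δ).nonneg u
  have hy : ∀ s, |Phi m J δ u s| ≤ N := by
    intro s
    refine le_trans ?_ (level_le δ u s.1)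
    exact Finset.single_le_sum (f := fun i => |Phi m J δ u ⟨s.1, i⟩|) (fun i _ => abs_nonneg _)
      (Finset.mem_univ s.2)
  have key : ∀ (n : ℕ) (hn : n < J + 1) (i : Fin (m ^ n)), |u ⟨⟨n, hn⟩, i⟩| ≤ 2 * N := by
    intro n
    induction n with
    | zero =>
      intro hn i
      have := hy ⟨⟨0, hn⟩, i⟩
      rw [Phi_apply] at this
      have h0 : pv u ⟨0, hn⟩ = 0 := by unfold pv; simp
      simp only [h0, mul_zero, add_zero] at this
      linarith
    | succ n ih =>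
      intro hn i
      have h1 := hy ⟨⟨n + 1, hn⟩, i⟩
      rw [Phi_apply] at h1
      have h0 : |pv u ⟨n + 1, hn⟩| ≤ 2 * N := by
        unfold pv
        rw [if_neg (by simp)]
        change |sm u ⟨n, by omega⟩ / (m : ℝ) ^ n| ≤ 2 * N
        rw [abs_div, abs_of_pos (pow_pos hm' n), div_le_iff₀ (pow_pos hm' n)]
        refine (abs_sm_le _ _).trans ?_
        calc ∑ i : Fin (m ^ n), |u ⟨⟨n, by omega⟩, i⟩| ≤ ∑ i : Fin (m ^ n), 2 * N :=
              Finset.sum_le_sum fun i _ => ih (by omega) i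
          _ = 2 * N * m ^ n := by
            rw [Finset.sum_const, Finset.card_univ, Fintype.card_fin, nsmul_eq_mul]
            push_cast; ring
      have h2 : |u ⟨⟨n + 1, hn⟩, i⟩| ≤
          |u ⟨⟨n + 1, hn⟩, i⟩ + δ * pv u ⟨n + 1, hn⟩| + |δ * pv u ⟨n + 1, hn⟩| := by
        have := abs_sub (u ⟨⟨n + 1, hn⟩, i⟩ + δ * pv u ⟨n + 1, hn⟩) (δ * pv u ⟨n + 1, hn⟩)
        rwa [add_sub_cancel_right] at this
      have h3 : |δ * pv u ⟨n + 1, hn⟩| ≤ 1 / 2 * (2 * N) := by
        rw [abs_mul, abs_of_nonneg hδ]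
        exact mul_le_mul hδ2 h0 (abs_nonneg _) (by norm_num)
      simp only at h1 h2
      linarith
  obtain ⟨⟨n, hn⟩, i⟩ := s
  exact key n hn i

/-- near unconditionality when the twist is small against `a` -/
theorem near (hm : 0 < m) {δ a : ℝ} (hδ : 0 ≤ δ) (ha : 0 < a) (hδa : δ ≤ a / 2)
    (u v : Ix m J → ℝ) (hu : ∀ s, |u s| ≤ 1) (hv : ∀ s, v s = 0 ∨ (v s = u s ∧ a ≤ |u s|)) :
    (nb m J δ).N v ≤ (1 + δ * m) * (2 / a * (nb m J δ).N u) := by
  have hm' : (0 : ℝ) < m := by exact_mod_cast hm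
  have hN0 : 0 ≤ (nb m J δ).N u := (nb m J δ).nonneg u
  apply nb_le_of_levels hm hδ (by positivity)
  intro k
  have hpv : |pv u k| ≤ 1 := by
    unfold pv
    split_ifs with hk
    · simp
    · rw [abs_div, abs_of_pos (pow_pos hm' ((k : ℕ) - 1)), div_le_one (pow_pos hm' _)]
      refine (abs_sm_le _ _).trans ?_
      calc ∑ i : Fin (m ^ ((k : ℕ) - 1)), |u ⟨⟨(k : ℕ) - 1, by omega⟩, i⟩|
          ≤ ∑ i : Fin (m ^ ((k : ℕ) - 1)), (1 : ℝ) := Finset.sum_le_sum fun i _ => hu _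
        _ = _ := by
          rw [Finset.sum_const, Finset.card_univ, Fintype.card_fin, nsmul_eq_mul]
          push_cast; ring
  have h1 : ∀ i, |v ⟨k, i⟩| ≤ 2 / a * |Phi m J δ u ⟨k, i⟩| := by
    intro i
    rcases hv ⟨k, i⟩ with h | ⟨h, h'⟩
    · rw [h, abs_zero]; positivity
    · have h2 : |δ * pv u k| ≤ a / 2 := by
        rw [abs_mul, abs_of_nonneg hδ]
        calc δ * |pv u k| ≤ δ * 1 := mul_le_mul_of_nonneg_left hpv hδ
          _ ≤ a / 2 := by linarith
      have h3 : a / 2 ≤ |Phi m J δ u ⟨k, i⟩| := by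
        rw [Phi_apply]
        have := abs_sub_abs_le_abs_sub (u ⟨k, i⟩) (-(δ * pv u k))
        rw [abs_neg, sub_neg_eq_add] at this
        simp only
        linarith
      have h4 : |v ⟨k, i⟩| ≤ 1 := by rw [h]; exact hu _
      refine h4.trans ?_
      rw [div_mul_eq_mul_div, le_div_iff₀ ha]
      linarith
  calc ∑ i, |v ⟨k, i⟩| ≤ ∑ i, 2 / a * |Phi m J δ u ⟨k, i⟩| := Finset.sum_le_sum fun i _ => h1 i
    _ = 2 / a * ∑ i, |Phi m J δ u ⟨k, i⟩| := by rw [Finset.mul_sum]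
    _ ≤ _ := mul_le_mul_of_nonneg_left (level_le δ u k) (by positivity)

/-- crude bound -/
theorem crude (hm : 0 < m) {δ : ℝ} (hδ : 0 ≤ δ) (hδ2 : δ ≤ 1 / 2)
    (u v : Ix m J → ℝ) (hv : ∀ s, |v s| ≤ |u s|) :
    (nb m J δ).N v ≤ (1 + δ * m) * (Fintype.card (Ix m J) * (2 * (nb m J δ).N u)) := by
  have hN0 : 0 ≤ (nb m J δ).N u := (nb m J δ).nonneg u
  apply nb_le_of_levels hm hδ (by positivity)
  intro k
  calc ∑ i, |v ⟨k, i⟩| ≤ ∑ i : Fin (m ^ (k : ℕ)), 2 * (nb m J δ).N u :=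
        Finset.sum_le_sum fun i _ => (hv _).trans (coord_le hm hδ hδ2 u _)
    _ = (m ^ (k : ℕ) : ℕ) * (2 * (nb m J δ).N u) := by
        rw [Finset.sum_const, Finset.card_univ, Fintype.card_fin, nsmul_eq_mul]
    _ ≤ _ := by
        apply mul_le_mul_of_nonneg_right _ (by positivity)
        have : m ^ (k : ℕ) ≤ Fintype.card (Ix m J) := by
          have h1 : Fintype.card (Fin (m ^ (k : ℕ))) ≤ Fintype.card (Ix m J) :=
            Fintype.card_le_of_injective (fun i => (⟨k, i⟩ : Ix m J)) (fun a b h => by simpa using h)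
          simpa using h1
        exact_mod_cast this

theorem basis_le (hm : 0 < m) {δ : ℝ} (hδ : 0 ≤ δ) (s : Ix m J) :
    (nb m J δ).N (Pi.single s 1) ≤ 1 + δ * m := by
  have h : (nb m J δ).N (Pi.single s 1) ≤ (1 + δ * m) * 1 := by
    apply nb_le_of_levels hm hδ zero_le_one
    intro k
    obtain ⟨k0, i0⟩ := s
    by_cases hk : k = k0
    · subst hk
      rw [Finset.sum_eq_single i0]
      · simp
      · intro b _ hb
        rw [Pi.single_eq_of_ne (by simpa using hb)]; simp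
      · simp
    · rw [Finset.sum_eq_zero]
      · exact zero_le_one
      · intro i _
        rw [Pi.single_eq_of_ne (fun h => hk (congrArg Sigma.fst h))]; simp
  linarith

/-- the tail test vectors -/
noncomputable def tl (m J : ℕ) (δ : ℝ) (k : ℕ) : Ix m J → ℝ :=
  fun s => if k ≤ (s.1 : ℕ) then (-δ) ^ (s.1 : ℕ) else 0

theorem tl_zero_norm (hm : 0 < m) (δ : ℝ) : (nb m J δ).N (tl m J δ 0) ≤ 1 := by
  have hm' : (0 : ℝ) < m := by exact_mod_cast hm
  apply nb_le zero_le_one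
  intro k
  by_cases hk : (k : ℕ) = 0
  · have h1 : ∀ i : Fin (m ^ (k : ℕ)), |Phi m J δ (tl m J δ 0) ⟨k, i⟩| = 1 := by
      intro i
      rw [Phi_apply]
      have h0 : pv (tl m J δ 0) k = 0 := by unfold pv; rw [if_pos hk]
      simp only [h0, mul_zero, add_zero]
      unfold tl
      simp [hk]
    rw [Finset.sum_congr rfl fun i _ => h1 i, Finset.sum_const, Finset.card_univ,
      Fintype.card_fin, hk]
    simp
  · rw [Finset.sum_eq_zero]
    · exact zero_le_one
    · intro i _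
      have h0 : pv (tl m J δ 0) k = (-δ) ^ ((k : ℕ) - 1) := by
        unfold pv
        rw [if_neg hk]
        unfold sm tl
        simp only [zero_le, if_true, Finset.sum_const, Finset.card_univ, Fintype.card_fin,
          nsmul_eq_mul]
        push_cast
        rw [mul_div_assoc, mul_comm, div_mul_cancel₀]
        positivity
      rw [Phi_apply]
      simp only [h0]
      have h2 : tl m J δ 0 ⟨k, i⟩ = (-δ) ^ (k : ℕ) := by simp [tl]
      rw [h2]
      have h3 : (-δ) ^ (k : ℕ) = (-δ) * (-δ) ^ ((k : ℕ) - 1) := by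
        rw [← pow_succ']; congr 1; omega
      rw [h3]
      ring_nf
      simp

theorem tl_last_norm (hm : 0 < m) (hJ : 0 < J) {δ : ℝ} (hδ : 0 ≤ δ) :
    (δ * m) ^ J ≤ (nb m J δ).N (tl m J δ J) := by
  refine le_trans ?_ (level_le δ (tl m J δ J) (Fin.last J))
  have h1 : ∀ i : Fin (m ^ ((Fin.last J : Fin (J + 1)) : ℕ)),
      |Phi m J δ (tl m J δ J) ⟨Fin.last J, i⟩| = δ ^ J := by
    intro i
    rw [Phi_apply]
    have h0 : pv (tl m J δ J) (Fin.last J) = 0 := by
      unfold pv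
      rw [if_neg (by simp; omega)]
      have : sm (tl m J δ J) ⟨((Fin.last J : Fin (J + 1)) : ℕ) - 1, by simp⟩ = 0 := by
        unfold sm tl
        apply Finset.sum_eq_zero
        intro i _
        rw [if_neg]
        simp only [Fin.val_last]
        omega
      rw [this, zero_div]
    simp only [h0, mul_zero, add_zero]
    unfold tl
    simp only [Fin.val_last, le_refl, if_true]
    rw [abs_pow, abs_neg, abs_of_nonneg hδ]
  rw [Finset.sum_congr rfl fun i _ => h1 i, Finset.sum_const, Finset.card_univ,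
    Fintype.card_fin, nsmul_eq_mul, Fin.val_last]
  push_cast
  rw [mul_pow, mul_comm]

end Q101.Twist
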