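import Pool.Agent.Q101.Twist

set_option autoImplicit false
set_option linter.unusedSectionVars false

open scoped ENNReal

namespace Q101.Twist

open Q101.Blocks

/-- index types of the blocks -/
abbrev Io (J : ℕ) : Type := Ix (J + 2) J

/-- twist parameters -/
noncomputable def dl (c : ℝ) (J : ℕ) : ℝ := if 2 * c ≤ ((J + 2 : ℕ) : ℝ) then c / ((J + 2 : ℕ) : ℝ) else 0

variable {c : ℝ}

theorem dl_nonneg (hc : 0 ≤ c) (J : ℕ) : 0 ≤ dl c J := by
  unfold dl; split_ifs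
  · positivity
  · exact le_rfl

theorem dl_le_half (J : ℕ) : dl c J ≤ 1 / 2 := by
  unfold dl
  have h : (0 : ℝ) < ((J + 2 : ℕ) : ℝ) := by positivity
  split_ifs with h1
  · rw [div_le_div_iff₀ h (by norm_num)]; linarith
  · norm_num

theorem dl_mul_le (hc : 0 ≤ c) (J : ℕ) : dl c J * ((J + 2 : ℕ) : ℝ) ≤ c := by
  unfold dl
  have h : (0 : ℝ) < ((J + 2 : ℕ) : ℝ) := by positivity
  split_ifs with h1
  · rw [div_mul_cancel₀ _ h.ne']
  · rw [zero_mul]; exact hc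

theorem dl_mul_eq {J : ℕ} (h : 2 * c ≤ ((J + 2 : ℕ) : ℝ)) : dl c J * ((J + 2 : ℕ) : ℝ) = c := by
  unfold dl
  have h0 : (0 : ℝ) < ((J + 2 : ℕ) : ℝ) := by positivity
  rw [if_pos h, div_mul_cancel₀ _ h0.ne']

/-- norms of the blocks -/
noncomputable def dd (c : ℝ) (J : ℕ) : NormOn (Io J) := nb (J + 2) J (dl c J)

/-- the untwisted norms -/
noncomputable def d0 (J : ℕ) : NormOn (Io J) := nb (J + 2) J 0

/-- the common space -/
abbrev X0 : Type := Sp d0 1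

theorem Phi_zero (m J : ℕ) (u : Ix m J → ℝ) : Phi m J 0 u = u := by
  funext s; rw [Phi_apply]; ring

/-- the blockwise isomorphisms -/
noncomputable def phi (c : ℝ) (J : ℕ) : (Io J → ℝ) ≃ₗ[ℝ] (Io J → ℝ) :=
  LinearEquiv.ofInjectiveEndo (Phi (J + 2) J (dl c J)) (by
    rw [← LinearMap.ker_eq_bot, LinearMap.ker_eq_bot']
    exact Phi_inj _)

theorem phi_norm (c : ℝ) (J : ℕ) (u : Io J → ℝ) : (d0 J).N (phi c J u) = (dd c J).N u := by
  change ‖Id (J + 2) J (Phi (J + 2) J 0 (Phi (J + 2) J (dl c J) u))‖ =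
    ‖Id (J + 2) J (Phi (J + 2) J (dl c J) u)‖
  rw [Phi_zero]

/-- the isometry between the twisted sum and the common space -/
noncomputable def iso (c : ℝ) : Sp (dd c) 1 ≃ₗᵢ[ℝ] X0 := mapIso (phi c) (phi_norm c)

theorem near_sum (hc : 0 ≤ c) {a : ℝ} (ha : 0 < a) :
    ∃ K : ℝ, ∀ f : Sp (dd c) 1, (∀ s, |cf (dd c) 1 s f| ≤ 1) →
      ∀ A : Finset (Σ J, Io J), (∀ s ∈ A, a ≤ |cf (dd c) 1 s f|) →
        ‖∑ s ∈ A, cf (dd c) 1 s f • bv (dd c) 1 s‖ ≤ K * ‖f‖ := by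
  obtain ⟨J0, hJ0⟩ := exists_nat_gt (2 * c / a)
  let KJ : ℕ → ℝ := fun J => (1 + c) * (Fintype.card (Io J) * 2)
  have hKJ : ∀ J, 0 ≤ KJ J := fun J => by
    change 0 ≤ (1 + c) * ((Fintype.card (Io J) : ℝ) * 2); positivity
  refine ⟨(1 + c) * (2 / a) + ∑ J ∈ Finset.range J0, KJ J, fun f hf A hA => ?_⟩
  have hS : 0 ≤ ∑ J ∈ Finset.range J0, KJ J := Finset.sum_nonneg fun J _ => hKJ J
  apply norm_le_of_block_le (dd c) 1 (by positivity)
  intro J
  rw [co_sum (dd c) 1 A (fun s => cf (dd c) 1 s f) J]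
  set v : Io J → ℝ := fun i => if (⟨J, i⟩ : Σ J, Io J) ∈ A then cf (dd c) 1 ⟨J, i⟩ f else 0 with hv
  have hN0 : 0 ≤ (dd c J).N (co (dd c) 1 f J) := (dd c J).nonneg _
  have hδ := dl_nonneg hc J
  have hm : 0 < J + 2 := by omega
  by_cases hsmall : dl c J ≤ a / 2
  · have h1 := near (J := J) hm hδ ha hsmall (co (dd c) 1 f J) v (fun i => hf ⟨J, i⟩) (by
      intro i
      rw [hv]
      dsimp only
      split_ifs with h
      · exact Or.inr ⟨rfl, hA _ h⟩
      · exact Or.inl rfl)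
    have h2 := dl_mul_le hc J
    calc (dd c J).N v ≤ (1 + dl c J * ((J + 2 : ℕ) : ℝ)) * (2 / a * (dd c J).N (co (dd c) 1 f J)) := h1
      _ ≤ (1 + c) * (2 / a * (dd c J).N (co (dd c) 1 f J)) := by
          apply mul_le_mul_of_nonneg_right _ (by positivity)
          linarith
      _ = (1 + c) * (2 / a) * (dd c J).N (co (dd c) 1 f J) := by ring
      _ ≤ _ := by
          apply mul_le_mul_of_nonneg_right _ hN0
          linarith
  · have h1 := crude (J := J) hm hδ (dl_le_half J) (co (dd c) 1 f J) v (by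
      intro i
      rw [hv]
      dsimp only
      split_ifs with h
      · exact le_rfl
      · rw [abs_zero]; exact abs_nonneg _)
    have h2 := dl_mul_le hc J
    have hJ : J < J0 := by
      push Not at hsmall
      unfold dl at hsmall
      split_ifs at hsmall with h3
      · have h4 : (0 : ℝ) < ((J + 2 : ℕ) : ℝ) := by positivity
        rw [div_lt_div_iff₀ (by norm_num) h4] at hsmall
        have h5 : ((J + 2 : ℕ) : ℝ) < 2 * c / a := by
          rw [lt_div_iff₀ ha]; linarith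
        have h6 : (J : ℝ) < J0 := by
          push_cast at h5
          linarith
        exact_mod_cast h6
      · linarith
    have h3 : KJ J ≤ ∑ J ∈ Finset.range J0, KJ J :=
      Finset.single_le_sum (f := KJ) (fun J _ => hKJ J) (Finset.mem_range.2 hJ)
    calc (dd c J).N v ≤ (1 + dl c J * ((J + 2 : ℕ) : ℝ)) *
          (Fintype.card (Io J) * (2 * (dd c J).N (co (dd c) 1 f J))) := h1
      _ ≤ (1 + c) * (Fintype.card (Io J) * (2 * (dd c J).N (co (dd c) 1 f J))) := by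
          apply mul_le_mul_of_nonneg_right _ (by positivity)
          linarith
      _ = KJ J * (dd c J).N (co (dd c) 1 f J) := by
          change _ = (1 + c) * ((Fintype.card (Io J) : ℝ) * 2) * _; ring
      _ ≤ _ := by
          apply mul_le_mul_of_nonneg_right _ hN0
          have : 0 ≤ (1 + c) * (2 / a) := by positivity
          linarith

theorem bv_norm_le (hc : 0 ≤ c) (s : Σ J, Io J) : ‖bv (dd c) 1 s‖ ≤ 1 + c := by
  rw [norm_bv]
  have h1 := basis_le (J := s.1) (by omega : 0 < s.1 + 2) (dl_nonneg hc s.1) s.2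
  have h2 := dl_mul_le hc s.1
  exact h1.trans (by linarith)

theorem cf_bound (hc : 0 ≤ c) (s : Σ J, Io J) (f : Sp (dd c) 1) :
    |cf (dd c) 1 s f| ≤ 2 * ‖f‖ :=
  abs_cf_le (dd c) 1 (by norm_num)
    (fun J i u => coord_le (J := J) (by omega : 0 < J + 2) (dl_nonneg hc J) (dl_le_half J) u i) s f

/-- the indices of level `k` of block `J` -/
def lvl (J k : ℕ) : Finset (Σ J, Io J) :=
  (Finset.univ.filter (fun s : Io J => (s.1 : ℕ) = k)).map
    (Function.Embedding.sigmaMk (β := fun J => Io J) J)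

theorem mem_lvl {J k : ℕ} (s : Σ J, Io J) : s ∈ lvl J k ↔ s.1 = J ∧ (s.2.1 : ℕ) = k := by
  unfold lvl
  rw [Finset.mem_map]
  constructor
  · rintro ⟨t, ht, rfl⟩
    exact ⟨rfl, (Finset.mem_filter.1 ht).2⟩
  · rintro ⟨h1, h2⟩
    obtain ⟨J', t⟩ := s
    change J' = J at h1
    subst h1
    exact ⟨t, Finset.mem_filter.2 ⟨Finset.mem_univ _, h2⟩, rfl⟩

/-- the tails of the test vector -/
noncomputable def F (c : ℝ) (J k : ℕ) : Sp (dd c) 1 := blk (dd c) 1 J (tl (J + 2) J (dl c J) k)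

theorem cf_F_same (J k : ℕ) (i : Io J) : cf (dd c) 1 ⟨J, i⟩ (F c J k) =
    if k ≤ (i.1 : ℕ) then (-(dl c J)) ^ (i.1 : ℕ) else 0 := cf_blk_same (dd c) 1 J i _

theorem cf_F_ne {J J' : ℕ} (h : J' ≠ J) (k : ℕ) (i : Io J') : cf (dd c) 1 ⟨J', i⟩ (F c J k) = 0 :=
  cf_blk_ne (dd c) 1 h i _


/-- decomposition of a tail -/
theorem F_split {J : ℕ} (hδ : dl c J ≠ 0) (k : ℕ) :
    F c J k = (-(dl c J)) ^ k • (∑ s ∈ lvl J k, (1 : ℝ) • bv (dd c) 1 s +
      ((-(dl c J)) ^ k)⁻¹ • F c J (k + 1)) := by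
  have hk : (-(dl c J)) ^ k ≠ 0 := pow_ne_zero _ (neg_ne_zero.2 hδ)
  apply ext_cf
  rintro ⟨J', i⟩
  rw [map_smul, map_add, map_smul, cf_sum (dd c) 1 (lvl J k) (fun _ => 1)]
  simp only [smul_eq_mul]
  by_cases hJ : J' = J
  · subst hJ
    rw [cf_F_same, cf_F_same]
    by_cases h1 : (i.1 : ℕ) = k
    · have hmem : (⟨J', i⟩ : Σ J, Io J) ∈ lvl J' k := (mem_lvl _).2 ⟨rfl, h1⟩
      rw [if_pos h1.ge, if_pos hmem, if_neg (by omega), h1]; ring
    · rw [if_neg (fun h => h1 ((mem_lvl _).1 h).2)]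
      by_cases h2 : k ≤ (i.1 : ℕ)
      · rw [if_pos h2, if_pos (by omega), zero_add, ← mul_assoc, mul_inv_cancel₀ hk, one_mul]
      · rw [if_neg h2, if_neg (by omega)]; ring
  · rw [cf_F_ne hJ, cf_F_ne hJ, if_neg (fun h => hJ ((mem_lvl _).1 h).1)]; ring

theorem norm_F_zero (c : ℝ) (J : ℕ) : ‖F c J 0‖ ≤ 1 := by
  unfold F
  rw [norm_blk]
  exact tl_zero_norm (by omega) _

theorem norm_F_last (hc : 0 ≤ c) {J : ℕ} (hJ : 0 < J) :
    (dl c J * ((J + 2 : ℕ) : ℝ)) ^ J ≤ ‖F c J J‖ := by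
  unfold F
  rw [norm_blk]
  exact tl_last_norm (by omega) hJ (dl_nonneg hc J)

theorem qglc_fails (ν : Seminorm ℝ (Sp (dd c) 1)) {L c1 c2 : ℝ} (hL : 0 ≤ L) (hc1 : 0 < c1)
    (hν1 : ∀ f, c1 * ‖f‖ ≤ ν f) (hν2 : ∀ f, ν f ≤ c2 * ‖f‖)
    (hc : c = 2 * (1 + L))
    (hq : ∀ (A : Finset (Σ J, Io J)) (g : Sp (dd c) 1), (∀ s, |cf (dd c) 1 s g| ≤ 1) →
      (∀ s ∈ A, cf (dd c) 1 s g = 0) →
      ν (∑ s ∈ A, (1 : ℝ) • bv (dd c) 1 s) ≤ L * ν (∑ s ∈ A, (1 : ℝ) • bv (dd c) 1 s + g)) :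
    False := by
  have hcpos : 0 < c := by rw [hc]; linarith
  -- a large block
  obtain ⟨J1, hJ1⟩ := exists_nat_gt (2 * c)
  obtain ⟨J2, hJ2⟩ := pow_unbounded_of_one_lt (c2 / c1) (one_lt_two : (1 : ℝ) < 2)
  set J := J1 + J2 + 1 with hJ
  have hJc : 2 * c ≤ ((J + 2 : ℕ) : ℝ) := by
    rw [hJ]; push_cast
    have : (0 : ℝ) ≤ (J2 : ℝ) := by positivity
    linarith
  set δ := dl c J with hδd
  have hδm : δ * ((J + 2 : ℕ) : ℝ) = c := dl_mul_eq hJc
  have hδ0 : 0 < δ := by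
    rcases (dl_nonneg hcpos.le J).eq_or_lt with h | h
    · rw [hδd, ← h, zero_mul] at hδm
      exact absurd hδm hcpos.ne
    · exact h
  have hδ1 : δ ≤ 1 := (dl_le_half J).trans (by norm_num)
  have hstep : ∀ k, ν (F c J (k + 1)) ≤ (1 + L) * ν (F c J k) := by
    intro k
    set S := ∑ s ∈ lvl J k, (1 : ℝ) • bv (dd c) 1 s with hS
    set g := ((-δ) ^ k)⁻¹ • F c J (k + 1) with hg
    have hk : (-δ) ^ k ≠ 0 := pow_ne_zero _ (neg_ne_zero.2 hδ0.ne')
    have hsplit : F c J k = (-δ) ^ k • (S + g) := F_split hδ0.ne' k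
    have hg1 : ∀ s, |cf (dd c) 1 s g| ≤ 1 := by
      rintro ⟨J', i⟩
      rw [hg, map_smul, smul_eq_mul]
      by_cases hJ' : J' = J
      · subst hJ'
        rw [cf_F_same]
        split_ifs with h1
        · have h2 : (-δ) ^ (i.1 : ℕ) = (-δ) ^ k * (-δ) ^ ((i.1 : ℕ) - k) := by
            rw [← pow_add]; congr 1; omega
          rw [← hδd, h2, ← mul_assoc, inv_mul_cancel₀ hk, one_mul, abs_pow, abs_neg,
            abs_of_pos hδ0]
          exact pow_le_one₀ hδ0.le hδ1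
        · simp
      · rw [cf_F_ne hJ']; simp
    have hg2 : ∀ s ∈ lvl J k, cf (dd c) 1 s g = 0 := by
      rintro ⟨J', i⟩ hs
      obtain ⟨h1, h2⟩ := (mem_lvl _).1 hs
      change J' = J at h1
      subst h1
      change (i.1 : ℕ) = k at h2
      rw [hg, map_smul, cf_F_same, if_neg (by omega), smul_zero]
    have h1 := hq (lvl J k) g hg1 hg2
    have h2 : F c J (k + 1) = F c J k - (-δ) ^ k • S := by
      rw [hsplit, hg, smul_add, smul_smul, mul_inv_cancel₀ hk, one_smul]; abel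
    have h3 : ν ((-δ) ^ k • S) ≤ L * ν (F c J k) := by
      rw [hsplit, map_smul_eq_mul, map_smul_eq_mul]
      have h4 : 0 ≤ ‖(-δ) ^ k‖ := norm_nonneg _
      calc ‖(-δ) ^ k‖ * ν S ≤ ‖(-δ) ^ k‖ * (L * ν (S + g)) := mul_le_mul_of_nonneg_left h1 h4
        _ = _ := by ring
    rw [h2]
    have h5 := map_sub_le_add ν (F c J k) ((-δ) ^ k • S)
    linarith
  have hind : ∀ k, ν (F c J k) ≤ (1 + L) ^ k * ν (F c J 0) := by
    intro k
    induction k with
    | zero => simp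
    | succ k ih =>
      calc ν (F c J (k + 1)) ≤ (1 + L) * ν (F c J k) := hstep k
        _ ≤ (1 + L) * ((1 + L) ^ k * ν (F c J 0)) := mul_le_mul_of_nonneg_left ih (by linarith)
        _ = _ := by ring
  have h1 : ν (F c J 0) ≤ c2 := by
    have h2 : ‖F c J 0‖ ≤ 1 := norm_F_zero c J
    have h3 : 0 ≤ c2 := by
      by_contra hneg
      push Not at hneg
      have h4 := hν1 (F c J J)
      have h5 := hν2 (F c J J)
      have h6 : 0 < ‖F c J J‖ := by
        have h7 := norm_F_last hcpos.le (J := J) (by omega)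
        rw [dl_mul_eq hJc] at h7
        exact lt_of_lt_of_le (pow_pos hcpos J) h7
      nlinarith
    calc ν (F c J 0) ≤ c2 * ‖F c J 0‖ := hν2 _
      _ ≤ c2 * 1 := mul_le_mul_of_nonneg_left h2 h3
      _ = c2 := mul_one _
  have h2 : c ^ J ≤ ‖F c J J‖ := by
    have h7 := norm_F_last hcpos.le (J := J) (by omega)
    rwa [dl_mul_eq hJc] at h7
  have h3 : c1 * c ^ J ≤ (1 + L) ^ J * c2 := by
    have e1 : c1 * c ^ J ≤ c1 * ‖F c J J‖ := mul_le_mul_of_nonneg_left h2 hc1.le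
    have e2 := hν1 (F c J J)
    have e3 := hind J
    have e4 : (1 + L) ^ J * ν (F c J 0) ≤ (1 + L) ^ J * c2 :=
      mul_le_mul_of_nonneg_left h1 (pow_nonneg (by linarith) _)
    linarith
  rw [hc, mul_pow] at h3
  have h4 : c1 * 2 ^ J ≤ c2 := by
    have h5 : 0 < (1 + L) ^ J := by positivity
    have h6 : (1 + L) ^ J * (c1 * 2 ^ J) ≤ (1 + L) ^ J * c2 := by linarith
    exact le_of_mul_le_mul_left h6 h5
  have h5 : (2 : ℝ) ^ J2 ≤ 2 ^ J := pow_le_pow_right₀ (by norm_num) (by omega)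
  rw [div_lt_iff₀ hc1] at hJ2
  have h6 : c1 * 2 ^ J2 ≤ c1 * 2 ^ J := mul_le_mul_of_nonneg_left h5 hc1.le
  linarith

end Q101.Twist
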