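import Pool.Agent.Q101.WkB

/-! # Relatively weakly compact sets of functionals: a quantitative control measure -/

open Filter Topology

namespace Q101.Wk

section abstract

variable {𝕜 : Type} [RCLike 𝕜] {X : Type*} [NormedAddCommGroup X] [NormedSpace 𝕜 X]

theorem clusterPt_closed {Z : Type*} [TopologicalSpace Z] {x : Z} {u : ℕ → Z}
    (h : MapClusterPt x atTop u) {C : Set Z} (hC : IsClosed C) (hu : ∀ᶠ n in atTop, u n ∈ C) : x ∈ C := by
  by_contra hx
  have h1 : Cᶜ ∈ 𝓝 x := hC.isOpen_compl.mem_nhds hx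
  have h2 := h.frequently h1
  obtain ⟨n, h3, h4⟩ := (h2.and_eventually hu).exists
  exact h3 h4

theorem cont_weak (f : StrongDual 𝕜 X) :
    Continuous (fun y : WeakSpace 𝕜 X => f ((toWeakSpace 𝕜 X).symm y)) :=
  WeakBilin.eval_continuous (topDualPairing 𝕜 X).flip f

/-- The gliding hump in abstract form. -/
theorem abstract_hump {K0 : Set X} (hK : RelWeaklyCompact 𝕜 K0) {r : ℕ → X} (hr : ∀ i, r i ∈ K0)
    {g : ℕ → StrongDual 𝕜 X} (hg : ∀ m, ‖g m‖ ≤ 1) {z : X} {e : ℝ} (he : 0 < e)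
    (h1 : ∀ i m, i ≤ m → ‖g m (r i) - g i (r i)‖ ≤ e / 8)
    (h2 : ∀ i m, m < i → ‖g m (r i) - g m z‖ ≤ 1 / (i : ℝ))
    {L : 𝕜} (h3 : Tendsto (fun m => g m z) atTop (𝓝 L))
    (h4 : ∀ i, e < ‖g (i + 1) (r (i + 1)) - g i (r (i + 1))‖) : False := by
  -- cluster point of the functionals
  have hcomp : IsCompact (WeakDual.toStrongDual ⁻¹' Metric.closedBall (0 : StrongDual 𝕜 X) 1) :=
    WeakDual.isCompact_closedBall (𝕜 := 𝕜) (E := X) 0 1
  set u : ℕ → WeakDual 𝕜 X := fun m => StrongDual.toWeakDual (g m) with hu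
  obtain ⟨G, -, hG⟩ := hcomp.exists_mapClusterPt (f := atTop) (u := u)
    (Filter.tendsto_principal.2 (Eventually.of_forall fun m => by
      show u m ∈ WeakDual.toStrongDual ⁻¹' Metric.closedBall (0 : StrongDual 𝕜 X) 1
      rw [Set.mem_preimage, Metric.mem_closedBall, dist_zero_right]
      exact hg m))
  -- cluster point of the vectors
  obtain ⟨w, -, hw⟩ := hK.exists_mapClusterPt (f := atTop) (u := fun i => toWeakSpace 𝕜 X (r i))
    (Filter.tendsto_principal.2 (Eventually.of_forall fun i => subset_closure ⟨_, hr i, rfl⟩))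
  set G' : StrongDual 𝕜 X := WeakDual.toStrongDual G with hG'
  set w' : X := (toWeakSpace 𝕜 X).symm w with hw'
  have evG : ∀ x : X, Continuous (fun F : WeakDual 𝕜 X => WeakDual.toStrongDual F x) := fun x =>
    WeakDual.eval_continuous x
  -- (a)
  have a1 : ∀ i, ‖G' (r i) - g i (r i)‖ ≤ e / 8 := by
    intro i
    refine clusterPt_closed hG (C := {F : WeakDual 𝕜 X | ‖WeakDual.toStrongDual F (r i) - g i (r i)‖ ≤ e / 8})
      ?_ ?_
    · exact isClosed_le ((evG (r i)).sub continuous_const).norm continuous_const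
    · filter_upwards [eventually_ge_atTop i] with m hm
      exact h1 i m hm
  -- (b)
  have b1 : ∀ m, g m w' = g m z := by
    intro m
    have h5 : ∀ d > 0, ‖g m w' - g m z‖ ≤ d := by
      intro d hd
      refine clusterPt_closed hw (C := {y : WeakSpace 𝕜 X | ‖g m ((toWeakSpace 𝕜 X).symm y) - g m z‖ ≤ d})
        ?_ ?_
      · exact isClosed_le ((cont_weak (g m)).sub continuous_const).norm continuous_const
      · have h6 : Tendsto (fun i : ℕ => 1 / (i : ℝ)) atTop (𝓝 0) := tendsto_one_div_atTop_nhds_zero_nat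
        filter_upwards [eventually_gt_atTop m, h6.eventually_le_const hd] with i hi hi2
        show ‖g m ((toWeakSpace 𝕜 X).symm (toWeakSpace 𝕜 X (r i))) - g m z‖ ≤ d
        rw [LinearEquiv.symm_apply_apply]
        exact (h2 i m hi).trans hi2
    have h7 : ‖g m w' - g m z‖ ≤ 0 := le_of_forall_gt_imp_ge_of_dense h5
    exact sub_eq_zero.1 (norm_le_zero_iff.1 h7)
  -- (c)
  have c1 : G' w' = L := by
    have h5 : ∀ d > 0, ‖G' w' - L‖ ≤ d := by
      intro d hd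
      refine clusterPt_closed hG (C := {F : WeakDual 𝕜 X | ‖WeakDual.toStrongDual F w' - L‖ ≤ d}) ?_ ?_
      · exact isClosed_le ((evG w').sub continuous_const).norm continuous_const
      · have h6 := (tendsto_iff_norm_sub_tendsto_zero.1 h3).eventually_le_const hd
        filter_upwards [h6] with m hm
        show ‖g m w' - L‖ ≤ d
        rw [b1]; exact hm
    have h7 : ‖G' w' - L‖ ≤ 0 := le_of_forall_gt_imp_ge_of_dense h5
    exact sub_eq_zero.1 (norm_le_zero_iff.1 h7)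
  -- (d)
  have d1 : ∃ᶠ i in atTop, ‖G' (r i) - L‖ < e / 8 := by
    have h5 : {y : WeakSpace 𝕜 X | ‖G' ((toWeakSpace 𝕜 X).symm y) - L‖ < e / 8} ∈ 𝓝 w := by
      refine IsOpen.mem_nhds ?_ ?_
      · exact isOpen_lt ((cont_weak G').sub continuous_const).norm continuous_const
      · show ‖G' w' - L‖ < e / 8
        rw [c1, sub_self, norm_zero]; positivity
    exact hw.frequently h5
  have h6 : Tendsto (fun i : ℕ => 1 / (i : ℝ)) atTop (𝓝 0) := tendsto_one_div_atTop_nhds_zero_nat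
  have h7 := h6.eventually_lt_const (show 0 < e / 8 by positivity)
  have h8 := (tendsto_iff_norm_sub_tendsto_zero.1 h3).eventually_lt_const (show 0 < e / 8 by positivity)
  have h9 : ∀ᶠ i : ℕ in atTop, ‖g (i - 1) z - L‖ < e / 8 := by
    have : Tendsto (fun i : ℕ => i - 1) atTop atTop := tendsto_sub_atTop_nat 1
    exact this.eventually h8
  obtain ⟨i, hi1, hi2, hi3, hi4⟩ := (d1.and_eventually (h7.and (h9.and (eventually_ge_atTop 1)))).exists
  obtain ⟨j, rfl⟩ : ∃ j, i = j + 1 := ⟨i - 1, by omega⟩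
  rw [Nat.add_sub_cancel] at hi3
  have k1 := a1 (j + 1)
  have k2 := h2 (j + 1) j (Nat.lt_succ_self j)
  have k3 := h4 j
  have k4 : g (j + 1) (r (j + 1)) - g j (r (j + 1))
      = -(G' (r (j + 1)) - g (j + 1) (r (j + 1))) + (G' (r (j + 1)) - L) - (g j z - L)
        - (g j (r (j + 1)) - g j z) := by ring
  have k5 := norm_sub_le (-(G' (r (j + 1)) - g (j + 1) (r (j + 1))) + (G' (r (j + 1)) - L) - (g j z - L))
    (g j (r (j + 1)) - g j z)
  have k6 := norm_sub_le (-(G' (r (j + 1)) - g (j + 1) (r (j + 1))) + (G' (r (j + 1)) - L)) (g j z - L)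
  have k7 := norm_add_le (-(G' (r (j + 1)) - g (j + 1) (r (j + 1)))) (G' (r (j + 1)) - L)
  rw [norm_neg] at k7
  rw [k4] at k3
  linarith

end abstract

/-! ### domination -/

section dom

variable {𝕜 : Type} [RCLike 𝕜]

/-- `|ρ v| ≤ η` for all `|v| ≤ |f|`. -/
def Dom (r : StrongDual 𝕜 C(Ca, 𝕜)) (f : C(Ca, 𝕜)) (η : ℝ) : Prop :=
  ∀ v : C(Ca, 𝕜), (∀ s, ‖v s‖ ≤ ‖f s‖) → ‖r v‖ ≤ η

theorem Dom.mono {r : StrongDual 𝕜 C(Ca, 𝕜)} {f : C(Ca, 𝕜)} {η η' : ℝ} (h : Dom r f η) (hη : η ≤ η') :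
    Dom r f η' := fun v hv => (h v hv).trans hη

/-- The modulus. -/
noncomputable def modf (f : C(Ca, 𝕜)) : C(Ca, 𝕜) :=
  ⟨fun s => ((‖f s‖ : ℝ) : 𝕜), RCLike.continuous_ofReal.comp f.continuous.norm⟩

theorem modify {r : StrongDual 𝕜 C(Ca, 𝕜)} {f g : C(Ca, 𝕜)} (hf : ‖f‖ ≤ 1) (hg : ‖g‖ ≤ 1) {e : ℝ}
    (hr : e < ‖r f‖) : ∃ g' : C(Ca, 𝕜), ‖g'‖ ≤ 1 ∧ e < ‖r g' - r g‖ ∧
      ∀ (y : StrongDual 𝕜 C(Ca, 𝕜)) (η : ℝ), Dom y f η → ‖y g' - y g‖ ≤ 2 * η := by
  have hf1 : ∀ s, ‖f s‖ ≤ 1 := fun s => (f.norm_coe_le_norm s).trans hf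
  have hg1 : ∀ s, ‖g s‖ ≤ 1 := fun s => (g.norm_coe_le_norm s).trans hg
  -- for a unimodular c, the function g(1-|f|) + c f
  have key : ∀ c : 𝕜, ‖c‖ = 1 → ‖g - g * modf f + c • f‖ ≤ 1 ∧
      ∀ (y : StrongDual 𝕜 C(Ca, 𝕜)) (η : ℝ), Dom y f η →
        ‖y (g - g * modf f + c • f) - y g‖ ≤ 2 * η := by
    intro c hc
    refine ⟨?_, fun y η hy => ?_⟩
    · rw [ContinuousMap.norm_le _ zero_le_one]
      intro s
      show ‖g s - g s * ((‖f s‖ : ℝ) : 𝕜) + c • f s‖ ≤ 1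
      have h1 : g s - g s * ((‖f s‖ : ℝ) : 𝕜) = ((1 - ‖f s‖ : ℝ) : 𝕜) * g s := by push_cast; ring
      rw [h1]
      refine (norm_add_le _ _).trans ?_
      rw [norm_mul, RCLike.norm_ofReal, abs_of_nonneg (by linarith [hf1 s]), norm_smul, hc, one_mul]
      have := hf1 s
      have := hg1 s
      nlinarith [norm_nonneg (g s)]
    · have h1 : y (g - g * modf f + c • f) - y g = 2 * y ((1 / 2 : 𝕜) • (c • f - g * modf f)) := by
        rw [map_smul, ← map_sub, smul_eq_mul]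
        have : g - g * modf f + c • f - g = c • f - g * modf f := by abel
        rw [this]; ring
      rw [h1, norm_mul, RCLike.norm_ofNat]
      refine mul_le_mul_of_nonneg_left (hy _ fun s => ?_) (by norm_num)
      show ‖(1 / 2 : 𝕜) • (c • f s - g s * ((‖f s‖ : ℝ) : 𝕜))‖ ≤ ‖f s‖
      rw [norm_smul]
      have h2 : ‖c • f s - g s * ((‖f s‖ : ℝ) : 𝕜)‖ ≤ 2 * ‖f s‖ := by
        refine (norm_sub_le _ _).trans ?_
        rw [norm_smul, hc, one_mul, norm_mul, RCLike.norm_ofReal, abs_of_nonneg (norm_nonneg _)]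
        have := hg1 s
        nlinarith [norm_nonneg (f s)]
      have h3 : ‖(1 / 2 : 𝕜)‖ = 1 / 2 := by rw [norm_div, norm_one, RCLike.norm_ofNat]
      rw [h3]; linarith
  -- choose the sign
  have h1 := key 1 norm_one
  have h2 := key (-1) (by rw [norm_neg, norm_one])
  by_cases h3 : e < ‖r (g - g * modf f + (1 : 𝕜) • f) - r g‖
  · exact ⟨_, h1.1, h3, h1.2⟩
  · refine ⟨_, h2.1, ?_, h2.2⟩
    by_contra h4
    rw [not_lt] at h3 h4
    have h5 : (r (g - g * modf f + (1 : 𝕜) • f) - r g) - (r (g - g * modf f + (-1 : 𝕜) • f) - r g)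
        = 2 * r f := by
      simp only [map_add, map_sub, map_smul, smul_eq_mul]; ring
    have h6 := norm_sub_le (r (g - g * modf f + (1 : 𝕜) • f) - r g) (r (g - g * modf f + (-1 : 𝕜) • f) - r g)
    rw [h5, norm_mul, RCLike.norm_ofNat] at h6
    linarith

theorem Dom.add {r r' : StrongDual 𝕜 C(Ca, 𝕜)} {f : C(Ca, 𝕜)} {η η' : ℝ} (h : Dom r f η)
    (h' : Dom r' f η') : Dom (r + r') f (η + η') := fun v hv =>
  (norm_add_le _ _).trans (add_le_add (h v hv) (h' v hv))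

theorem Dom.smul {r : StrongDual 𝕜 C(Ca, 𝕜)} {f : C(Ca, 𝕜)} {η : ℝ} (h : Dom r f η) (c : 𝕜) :
    Dom (c • r) f (‖c‖ * η) := fun v hv => by
  show ‖c • r v‖ ≤ _
  rw [norm_smul]
  exact mul_le_mul_of_nonneg_left (h v hv) (norm_nonneg _)

/-- elements of the closed span are dominated -/
theorem dom_span {r : ℕ → StrongDual 𝕜 C(Ca, 𝕜)} {f : ℕ → C(Ca, 𝕜)} (hf : ∀ n, ‖f n‖ ≤ 1)
    (h : ∀ i, ∀ η > 0, ∀ᶠ n in atTop, Dom (r i) (f n) η) {z : StrongDual 𝕜 C(Ca, 𝕜)}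
    (hz : z ∈ closure (Submodule.span 𝕜 (Set.range r) : Set (StrongDual 𝕜 C(Ca, 𝕜)))) :
    ∀ η > 0, ∀ᶠ n in atTop, Dom z (f n) η := by
  have h1 : ∀ y ∈ Submodule.span 𝕜 (Set.range r), ∀ η > 0, ∀ᶠ n in atTop, Dom y (f n) η := by
    intro y hy
    induction hy using Submodule.span_induction with
    | mem y hy => obtain ⟨i, rfl⟩ := hy; exact h i
    | zero => 
      intro η hη
      exact Eventually.of_forall fun n v _ => by
        show ‖(0 : StrongDual 𝕜 C(Ca, 𝕜)) v‖ ≤ η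
        simpa using hη.le
    | add a b _ _ ha hb =>
      intro η hη
      filter_upwards [ha (η / 2) (half_pos hη), hb (η / 2) (half_pos hη)] with n h2 h3
      exact (h2.add h3).mono (by linarith)
    | smul c a _ ha =>
      intro η hη
      filter_upwards [ha (η / (‖c‖ + 1)) (by positivity)] with n h2
      refine (h2.smul c).mono ?_
      rw [mul_div_assoc', div_le_iff₀ (by positivity)]
      nlinarith [norm_nonneg c]
  intro η hη
  obtain ⟨y, hy, hyz⟩ := Metric.mem_closure_iff.1 hz (η / 2) (half_pos hη)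
  filter_upwards [h1 y hy (η / 2) (half_pos hη)] with n hn v hv
  have h2 : z v = (z - y) v + y v := by simp
  have h3 : ‖v‖ ≤ 1 := by
    rw [ContinuousMap.norm_le _ zero_le_one]
    exact fun s => (hv s).trans (((f n).norm_coe_le_norm s).trans (hf n))
  have h4 : ‖(z - y) v‖ ≤ η / 2 := by
    refine ((z - y).le_opNorm v).trans ?_
    rw [dist_eq_norm] at hyz
    nlinarith [norm_nonneg (z - y), norm_nonneg v]
  rw [h2]
  exact (norm_add_le _ _).trans (by linarith [hn v hv])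

/-- **No humps** in a relatively weakly compact set. -/
theorem no_humps {K0 : Set (StrongDual 𝕜 C(Ca, 𝕜))} (hK : RelWeaklyCompact 𝕜 K0) {e : ℝ} (he : 0 < e)
    (H : ∀ (F : Finset (StrongDual 𝕜 C(Ca, 𝕜))) (η : ℝ), (∀ r ∈ F, r ∈ K0) → 0 < η →
      ∃ r ∈ K0, ∃ f : C(Ca, 𝕜), ‖f‖ ≤ 1 ∧ e < ‖r f‖ ∧ ∀ r' ∈ F, Dom r' f η) : False := by
  classical
  -- the sequence
  obtain ⟨q, hq1, hq2⟩ := exists_seq_of_forall_finset_exists
    (fun x : ℕ × StrongDual 𝕜 C(Ca, 𝕜) × C(Ca, 𝕜) => x.2.1 ∈ K0 ∧ ‖x.2.2‖ ≤ 1 ∧ e < ‖x.2.1 x.2.2‖)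
    (fun x y => x.1 < y.1 ∧ Dom x.2.1 y.2.2 (e / 64 * (1 / 2) ^ y.1)) (by
      intro S hS
      obtain ⟨r, hr, f, hf, hrf, hd⟩ := H (S.image fun x => x.2.1) (e / 64 * (1 / 2) ^ (S.sup Prod.fst + 1))
        (by
          intro r hr
          obtain ⟨x, hx, rfl⟩ := Finset.mem_image.1 hr
          exact (hS x hx).1) (by positivity)
      refine ⟨(S.sup Prod.fst + 1, r, f), ⟨hr, hf, hrf⟩, fun x hx => ⟨?_, hd _ (Finset.mem_image_of_mem _ hx)⟩⟩
      exact Nat.lt_succ_of_le (Finset.le_sup (f := Prod.fst) hx))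
  set N : ℕ → ℕ := fun n => (q n).1 with hN
  set r : ℕ → StrongDual 𝕜 C(Ca, 𝕜) := fun n => (q n).2.1 with hr
  set f : ℕ → C(Ca, 𝕜) := fun n => (q n).2.2 with hf
  have hNn : ∀ n, n ≤ N n := by
    intro n
    induction n with
    | zero => exact Nat.zero_le _
    | succ n ih => exact Nat.succ_le_of_lt (ih.trans_lt (hq2 n (n + 1) (Nat.lt_succ_self n)).1)
  have hdom : ∀ i n, i < n → Dom (r i) (f n) (e / 64 * (1 / 2) ^ n) := by
    intro i n hin
    refine (hq2 i n hin).2.mono ?_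
    refine mul_le_mul_of_nonneg_left ?_ (by positivity)
    exact pow_le_pow_of_le_one (by norm_num) (by norm_num) (hNn n)
  have hrK : ∀ n, r n ∈ K0 := fun n => (hq1 n).1
  have hf1 : ∀ n, ‖f n‖ ≤ 1 := fun n => (hq1 n).2.1
  have hrf : ∀ n, e < ‖r n (f n)‖ := fun n => (hq1 n).2.2
  -- the cluster point
  obtain ⟨w, -, hw⟩ := hK.exists_mapClusterPt (f := atTop)
    (u := fun i => toWeakSpace 𝕜 (StrongDual 𝕜 C(Ca, 𝕜)) (r i))
    (Filter.tendsto_principal.2 (Eventually.of_forall fun i => subset_closure ⟨_, hrK i, rfl⟩))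
  set z : StrongDual 𝕜 C(Ca, 𝕜) := (toWeakSpace 𝕜 _).symm w with hz
  have hzs : z ∈ closure (Submodule.span 𝕜 (Set.range r) : Set (StrongDual 𝕜 C(Ca, 𝕜))) := by
    have h1 : Convex ℝ (Submodule.span 𝕜 (Set.range r) : Set (StrongDual 𝕜 C(Ca, 𝕜))) :=
      ((Submodule.span 𝕜 (Set.range r)).restrictScalars ℝ).convex
    have h2 := h1.toWeakSpace_closure (𝕜 := 𝕜)
    have h3 : w ∈ closure (toWeakSpace 𝕜 (StrongDual 𝕜 C(Ca, 𝕜)) ''
        (Submodule.span 𝕜 (Set.range r) : Set (StrongDual 𝕜 C(Ca, 𝕜)))) :=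
      clusterPt_closed hw isClosed_closure (Eventually.of_forall fun i =>
        subset_closure ⟨_, Submodule.subset_span ⟨i, rfl⟩, rfl⟩)
    rw [← h2] at h3
    obtain ⟨y, hy, hyw⟩ := h3
    rw [hz, ← hyw, LinearEquiv.symm_apply_apply]
    exact hy
  have hzd := dom_span hf1 (fun i η hη => by
    have h1 : Tendsto (fun n : ℕ => e / 64 * (1 / 2 : ℝ) ^ n) atTop (𝓝 (e / 64 * 0)) :=
      (tendsto_pow_atTop_nhds_zero_of_lt_one (by norm_num) (by norm_num)).const_mul _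
    rw [mul_zero] at h1
    filter_upwards [eventually_gt_atTop i, h1.eventually_le_const hη] with n hn hn2
    exact (hdom i n hn).mono hn2) hzs
  -- the recursion
  have step : ∀ (i : ℕ) (st : ℕ × C(Ca, 𝕜) × Finset C(Ca, 𝕜)), ∃ st' : ℕ × C(Ca, 𝕜) × Finset C(Ca, 𝕜),
      ‖st.2.1‖ ≤ 1 → (st.1 < st'.1 ∧ ‖st'.2.1‖ ≤ 1 ∧ st'.2.2 = insert st.2.1 st.2.2 ∧
        (∀ g ∈ st'.2.2, ‖r st'.1 g - z g‖ ≤ 1 / ((i : ℝ) + 1)) ∧
        (∀ (y : StrongDual 𝕜 C(Ca, 𝕜)) (η : ℝ), Dom y (f st'.1) η → ‖y st'.2.1 - y st.2.1‖ ≤ 2 * η) ∧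
        Dom z (f st'.1) ((1 / 2) ^ i) ∧ e < ‖r st'.1 st'.2.1 - r st'.1 st.2.1‖) := by
    rintro i ⟨k, g, S⟩
    by_cases hg : ‖g‖ ≤ 1
    swap
    · exact ⟨(0, 0, ∅), fun h => absurd h hg⟩
    have h1 : {y : WeakSpace 𝕜 (StrongDual 𝕜 C(Ca, 𝕜)) | ∀ g' ∈ insert g S,
        ‖((toWeakSpace 𝕜 _).symm y) g' - z g'‖ < 1 / ((i : ℝ) + 1)} ∈ 𝓝 w := by
      refine (Filter.eventually_all_finset _).2 fun g' _ => ?_
      have h2 := cont_weak (𝕜 := 𝕜) (NormedSpace.inclusionInDoubleDual 𝕜 C(Ca, 𝕜) g')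
      have h3 : Continuous fun y : WeakSpace 𝕜 (StrongDual 𝕜 C(Ca, 𝕜)) =>
          ‖((toWeakSpace 𝕜 _).symm y) g' - z g'‖ := (h2.sub continuous_const).norm
      refine (isOpen_lt h3 continuous_const).mem_nhds ?_
      show ‖z g' - z g'‖ < 1 / ((i : ℝ) + 1)
      rw [sub_self, norm_zero]; positivity
    obtain ⟨n, hn1, hn2, hn3⟩ := ((hw.frequently h1).and_eventually
      ((eventually_gt_atTop k).and (hzd ((1 / 2) ^ i) (by positivity)))).exists
    obtain ⟨g', hg', hgr, hgd⟩ := modify (hf1 n) hg (hrf n)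
    refine ⟨(n, g', insert g S), fun _ => ⟨hn2, hg', rfl, fun g'' hg'' => ?_, hgd, hn3, hgr⟩⟩
    exact (hn1 g'' hg'').le
  choose next hnext using step
  set st : ℕ → ℕ × C(Ca, 𝕜) × Finset C(Ca, 𝕜) := fun n => Nat.rec (0, 0, ∅) (fun i s => next i s) n with hst
  have hst_succ : ∀ i, st (i + 1) = next i (st i) := fun i => rfl
  have hst1 : ∀ i, ‖(st i).2.1‖ ≤ 1 := by
    intro i
    induction i with
    | zero => show ‖(0 : C(Ca, 𝕜))‖ ≤ 1; simp
    | succ i ih => rw [hst_succ]; exact (hnext i (st i) ih).2.1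
  have hP : ∀ i, _ := fun i => hnext i (st i) (hst1 i)
  simp only [← hst_succ] at hP
  have hmono : StrictMono fun i => (st i).1 := strictMono_nat_of_lt_succ fun i => (hP i).1
  have hmem : ∀ i j, j < i → (st j).2.1 ∈ (st i).2.2 := by
    intro i
    induction i with
    | zero => intro j hj; exact absurd hj (Nat.not_lt_zero j)
    | succ i ih =>
      intro j hj
      rw [(hP i).2.2.1]
      rcases Nat.lt_succ_iff_lt_or_eq.1 hj with h | h
      · exact Finset.mem_insert_of_mem (ih j h)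
      · rw [h]; exact Finset.mem_insert_self _ _
  have hge : ∀ i, i ≤ (st i).1 := fun i => hmono.le_apply
  -- differences
  have hdiff : ∀ i j, j ≤ i → ‖r (st j).1 (st (i + 1)).2.1 - r (st j).1 (st i).2.1‖
      ≤ e / 32 * (1 / 2) ^ (i + 1) := by
    intro i j hj
    have h1 : (st j).1 < (st (i + 1)).1 := hmono (Nat.lt_succ_of_le hj)
    have h2 := (hP i).2.2.2.2.1 (r (st j).1) _ (hdom _ _ h1)
    refine h2.trans ?_
    have h3 : (1 / 2 : ℝ) ^ (st (i + 1)).1 ≤ (1 / 2) ^ (i + 1) :=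
      pow_le_pow_of_le_one (by norm_num) (by norm_num) (hge _)
    nlinarith
  have hdiff2 : ∀ j k, ‖r (st j).1 (st (j + k)).2.1 - r (st j).1 (st j).2.1‖
      ≤ e / 8 * (1 - (1 / 2) ^ k) := by
    intro j k
    induction k with
    | zero => simp
    | succ k ih =>
      have h1 := hdiff (j + k) j (Nat.le_add_right _ _)
      have h2 : r (st j).1 (st (j + (k + 1))).2.1 - r (st j).1 (st j).2.1
          = (r (st j).1 (st (j + k + 1)).2.1 - r (st j).1 (st (j + k)).2.1)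
            + (r (st j).1 (st (j + k)).2.1 - r (st j).1 (st j).2.1) := by
        rw [← add_assoc]; ring
      rw [h2]
      refine (norm_add_le _ _).trans ?_
      have h3 : (1 / 2 : ℝ) ^ (j + k + 1) ≤ (1 / 2) ^ (k + 1) :=
        pow_le_pow_of_le_one (by norm_num) (by norm_num) (by omega)
      have h4 : (1 / 2 : ℝ) ^ (k + 1) = (1 / 2) ^ k / 2 := by rw [pow_succ]; ring
      have h5 : (0 : ℝ) < (1 / 2) ^ k := by positivity
      rw [h4] at h3 ⊢
      nlinarith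
  -- Cauchy at z
  have hcau : CauchySeq fun m => z (st m).2.1 := by
    refine cauchySeq_of_le_geometric (1 / 2) 2 (by norm_num) fun m => ?_
    rw [dist_comm, dist_eq_norm]
    exact (hP m).2.2.2.2.1 z _ (hP m).2.2.2.2.2.1
  obtain ⟨L, hL⟩ := cauchySeq_tendsto_of_complete hcau
  refine abstract_hump (X := StrongDual 𝕜 C(Ca, 𝕜)) hK (r := fun i => r (st i).1) (fun i => hrK _)
    (g := fun m => NormedSpace.inclusionInDoubleDual 𝕜 C(Ca, 𝕜) (st m).2.1) (z := z) (e := e) ?_ he ?_ ?_ hL ?_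
  · intro m
    exact (NormedSpace.double_dual_bound 𝕜 C(Ca, 𝕜) _).trans (hst1 m)
  · intro i m him
    obtain ⟨k, rfl⟩ := Nat.exists_eq_add_of_le him
    refine (hdiff2 i k).trans ?_
    have : (0 : ℝ) < (1 / 2) ^ k := by positivity
    nlinarith
  · intro i m hmi
    obtain ⟨j, rfl⟩ : ∃ j, i = j + 1 := ⟨i - 1, by omega⟩
    have h1 := (hP j).2.2.2.1 _ (hmem (j + 1) m hmi)
    push_cast
    exact h1
  · intro i
    exact (hP i).2.2.2.2.2.2

end dom

end Q101.Wk
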