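import Pool.Agent.Q101.WkA

/-! # Job A: the control measure -/

open Filter Topology

namespace Q101.Wk

variable {𝕜 : Type} [RCLike 𝕜]

theorem mem_lev {n : ℕ} {l : List Bool} (h : l ∈ lev n) : l.length = n := by
  induction n generalizing l with
  | zero => rw [lev, Finset.mem_singleton] at h; rw [h]; rfl
  | succ n ih =>
    rw [lev, Finset.mem_union] at h
    rcases h with h | h
    · obtain ⟨a, ha, rfl⟩ := Finset.mem_image.1 h
      rw [List.length_cons, ih ha]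
    · obtain ⟨a, ha, rfl⟩ := Finset.mem_image.1 h
      rw [List.length_cons, ih ha]

theorem pre_mem_lev (n : ℕ) (s : Ca) : pre n s ∈ lev n := by
  induction n with
  | zero => rw [lev, Finset.mem_singleton]; rfl
  | succ n ih =>
    rw [lev, Finset.mem_union, pre]
    cases h : s n
    · exact Or.inr (Finset.mem_image_of_mem _ ih)
    · exact Or.inl (Finset.mem_image_of_mem _ ih)

theorem cyl_apply (l : List Bool) (s : Ca) : cyl 𝕜 l s = if pre l.length s = l then 1 else 0 := by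
  show (Cyl l).indicator 1 s = _
  by_cases h : pre l.length s = l
  · rw [if_pos h, Set.indicator_of_mem (show s ∈ Cyl l from h)]; rfl
  · rw [if_neg h, Set.indicator_of_notMem (show s ∉ Cyl l from h)]

theorem cyl_apply_lev {n : ℕ} {l : List Bool} (h : l ∈ lev n) (s : Ca) :
    cyl 𝕜 l s = if pre n s = l then 1 else 0 := by
  rw [cyl_apply, mem_lev h]

theorem norm_cyl_apply_le (l : List Bool) (s : Ca) : ‖cyl 𝕜 l s‖ ≤ 1 := by
  rw [cyl_apply]; split_ifs <;> simp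

theorem cyl_add : TreeAdd (cyl 𝕜) := by
  intro l
  ext s
  rw [ContinuousMap.add_apply, cyl_apply, cyl_apply, cyl_apply, List.length_cons, List.length_cons,
    pre]
  by_cases h : pre l.length s = l
  · cases h2 : s l.length <;> simp [h]
  · simp [h]

theorem cyl_nil : cyl 𝕜 [] = 1 := by
  ext s; rw [cyl_apply]; simp [pre]

theorem sum_cyl (n : ℕ) : ∑ l ∈ lev n, cyl 𝕜 l = 1 := by
  rw [sum_lev_add cyl_add, cyl_nil]

/-! ### variation -/

/-- The variation of `r` on a cylinder. -/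
noncomputable def vr (r : StrongDual 𝕜 C(Ca, 𝕜)) (l : List Bool) : ℝ :=
  sSup {x | ∃ v : C(Ca, 𝕜), (∀ s, ‖v s‖ ≤ ‖cyl 𝕜 l s‖) ∧ x = ‖r v‖}

theorem vr_bdd (r : StrongDual 𝕜 C(Ca, 𝕜)) (l : List Bool) :
    BddAbove {x | ∃ v : C(Ca, 𝕜), (∀ s, ‖v s‖ ≤ ‖cyl 𝕜 l s‖) ∧ x = ‖r v‖} := by
  refine ⟨‖r‖, ?_⟩
  rintro x ⟨v, hv, rfl⟩
  have h1 : ‖v‖ ≤ 1 := by
    rw [ContinuousMap.norm_le _ zero_le_one]
    exact fun s => (hv s).trans (norm_cyl_apply_le l s)
  exact (r.le_opNorm v).trans (mul_le_of_le_one_right (norm_nonneg _) h1)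

theorem le_vr {r : StrongDual 𝕜 C(Ca, 𝕜)} {l : List Bool} {v : C(Ca, 𝕜)}
    (hv : ∀ s, ‖v s‖ ≤ ‖cyl 𝕜 l s‖) : ‖r v‖ ≤ vr r l := le_csSup (vr_bdd r l) ⟨v, hv, rfl⟩

theorem vr_ne (r : StrongDual 𝕜 C(Ca, 𝕜)) (l : List Bool) :
    {x | ∃ v : C(Ca, 𝕜), (∀ s, ‖v s‖ ≤ ‖cyl 𝕜 l s‖) ∧ x = ‖r v‖}.Nonempty :=
  ⟨_, 0, fun s => by simp, rfl⟩

theorem vr_nonneg (r : StrongDual 𝕜 C(Ca, 𝕜)) (l : List Bool) : 0 ≤ vr r l := by
  have := le_vr (r := r) (l := l) (v := 0) (fun s => by simp)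
  simpa using this

theorem vr_add (r : StrongDual 𝕜 C(Ca, 𝕜)) : TreeAdd (vr r) := by
  intro l
  have hc : ∀ s, cyl 𝕜 l s = cyl 𝕜 (true :: l) s + cyl 𝕜 (false :: l) s := fun s => by
    have := cyl_add (𝕜 := 𝕜) l
    rw [this]; rfl
  have hval : ∀ s, (cyl 𝕜 (true :: l) s = 0 ∧ cyl 𝕜 (false :: l) s = 0) ∨
      (cyl 𝕜 (true :: l) s = 1 ∧ cyl 𝕜 (false :: l) s = 0) ∨
      (cyl 𝕜 (true :: l) s = 0 ∧ cyl 𝕜 (false :: l) s = 1) := by
    intro s
    rw [cyl_apply, cyl_apply, List.length_cons, List.length_cons, pre]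
    by_cases h : pre l.length s = l
    · cases h2 : s l.length <;> simp [h]
    · simp [h]
  refine le_antisymm ?_ ?_
  · refine csSup_le (vr_ne r l) ?_
    rintro x ⟨v, hv, rfl⟩
    have h1 : v = v * cyl 𝕜 (true :: l) + v * cyl 𝕜 (false :: l) := by
      ext s
      rw [ContinuousMap.add_apply, ContinuousMap.mul_apply, ContinuousMap.mul_apply, ← mul_add, ← hc s]
      have h2 := hv s
      rw [cyl_apply] at h2 ⊢
      split_ifs at h2 ⊢ with h3
      · rw [mul_one]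
      · rw [norm_zero] at h2
        rw [mul_zero]; exact norm_le_zero_iff.1 h2
    have hb : ∀ b, ∀ s, ‖(v * cyl 𝕜 (b :: l)) s‖ ≤ ‖cyl 𝕜 (b :: l) s‖ := by
      intro b s
      rw [ContinuousMap.mul_apply, norm_mul]
      exact mul_le_of_le_one_left (norm_nonneg _) ((hv s).trans (norm_cyl_apply_le _ _))
    rw [h1, map_add]
    exact (norm_add_le _ _).trans (add_le_add (le_vr (hb true)) (le_vr (hb false)))
  · have key : ∀ v w : C(Ca, 𝕜), (∀ s, ‖v s‖ ≤ ‖cyl 𝕜 (true :: l) s‖) → (∀ s, ‖w s‖ ≤ ‖cyl 𝕜 (false :: l) s‖) →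
        ‖r v‖ + ‖r w‖ ≤ vr r l := by
      intro v w hv hw
      obtain ⟨c, hc1, hc2⟩ := RCLike.exists_norm_eq_mul_self (r v)
      obtain ⟨d, hd1, hd2⟩ := RCLike.exists_norm_eq_mul_self (r w)
      have h1 : ‖r (c • v + d • w)‖ = ‖r v‖ + ‖r w‖ := by
        rw [map_add, map_smul, map_smul, smul_eq_mul, smul_eq_mul, ← hc2, ← hd2, ← RCLike.ofReal_add,
          RCLike.norm_ofReal, abs_of_nonneg (by positivity)]
      rw [← h1]
      refine le_vr fun s => ?_
      have h2 : ‖(c • v + d • w) s‖ ≤ ‖v s‖ + ‖w s‖ := by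
        rw [ContinuousMap.add_apply, ContinuousMap.smul_apply, ContinuousMap.smul_apply]
        refine (norm_add_le _ _).trans ?_
        rw [norm_smul, norm_smul, hc1, hd1, one_mul, one_mul]
      refine h2.trans ((add_le_add (hv s) (hw s)).trans ?_)
      rw [hc s]
      rcases hval s with ⟨h3, h4⟩ | ⟨h3, h4⟩ | ⟨h3, h4⟩ <;> rw [h3, h4] <;> simp
    have h1 : vr r (true :: l) ≤ vr r l - vr r (false :: l) := by
      refine csSup_le (vr_ne r _) ?_
      rintro x ⟨v, hv, rfl⟩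
      have h2 : vr r (false :: l) ≤ vr r l - ‖r v‖ := by
        refine csSup_le (vr_ne r _) ?_
        rintro y ⟨w, hw, rfl⟩
        have := key v w hv hw
        linarith
      linarith
    linarith

/-- **Job A**, with a bound on the norms. -/
theorem jobA {K0 : Set (StrongDual 𝕜 C(Ca, 𝕜))} (hK : RelWeaklyCompact 𝕜 K0) {C0 : ℝ}
    (hC : ∀ r ∈ K0, ‖r‖ ≤ C0) {e : ℝ} (he : 0 < e) :
    ∃ (lam : List Bool → ℝ) (R : ℝ), 0 < R ∧ (∀ l, 0 < lam l) ∧ TreeAdd lam ∧
      ∀ ρ ∈ K0, ∀ n, ∑ l ∈ lev n, max 0 (‖ρ (cyl 𝕜 l)‖ - R * lam l) ≤ e := by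
  classical
  by_contra hcon
  refine no_humps hK he fun F η hF hη => ?_
  set lam : List Bool → ℝ := fun l => ∑ r ∈ F, vr r l + (1 / 2) ^ l.length with hlam
  have hl : ∀ l, 0 < lam l := fun l => by
    have : 0 ≤ ∑ r ∈ F, vr r l := Finset.sum_nonneg fun r _ => vr_nonneg r l
    rw [hlam]; positivity
  have hla : TreeAdd lam := by
    intro l
    simp only [hlam, List.length_cons]
    have h1 : ∑ r ∈ F, vr r l = ∑ r ∈ F, vr r (true :: l) + ∑ r ∈ F, vr r (false :: l) := by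
      rw [← Finset.sum_add_distrib]
      exact Finset.sum_congr rfl fun r _ => vr_add r l
    rw [h1, pow_succ]
    ring
  set R : ℝ := (|C0| + 1) / η with hR
  have hR0 : 0 < R := by positivity
  have h1 : ∃ ρ ∈ K0, ∃ n, e < ∑ l ∈ lev n, max 0 (‖ρ (cyl 𝕜 l)‖ - R * lam l) := by
    by_contra h
    push Not at h
    exact hcon ⟨lam, R, hR0, hl, hla, h⟩
  obtain ⟨ρ, hρ, n, hn⟩ := h1
  set G := (lev n).filter (fun l => R * lam l < ‖ρ (cyl 𝕜 l)‖) with hG
  choose c hc1 hc2 using fun l => RCLike.exists_norm_eq_mul_self (ρ (cyl 𝕜 l))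
  set f : C(Ca, 𝕜) := ∑ l ∈ G, c l • cyl 𝕜 l with hf
  have hfs : ∀ s, f s = if pre n s ∈ G then c (pre n s) else 0 := by
    intro s
    rw [hf, ContinuousMap.sum_apply]
    have h2 : ∀ l ∈ G, (c l • cyl 𝕜 l) s = if pre n s = l then c l else 0 := by
      intro l hl
      rw [ContinuousMap.smul_apply, cyl_apply_lev (Finset.mem_filter.1 hl).1]
      split_ifs <;> simp
    rw [Finset.sum_congr rfl h2, Finset.sum_ite_eq]
  have hf1 : ∀ s, ‖f s‖ ≤ 1 := by
    intro s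
    rw [hfs]
    split_ifs
    · exact (hc1 _).le
    · simp
  have hf2 : ‖f‖ ≤ 1 := by rw [ContinuousMap.norm_le _ zero_le_one]; exact hf1
  have hρf : ‖ρ f‖ = ∑ l ∈ G, ‖ρ (cyl 𝕜 l)‖ := by
    have h2 : ρ f = ((∑ l ∈ G, ‖ρ (cyl 𝕜 l)‖ : ℝ) : 𝕜) := by
      rw [hf, map_sum]
      push_cast
      refine Finset.sum_congr rfl fun l _ => ?_
      rw [map_smul, smul_eq_mul, ← hc2]
    rw [h2, RCLike.norm_ofReal, abs_of_nonneg (Finset.sum_nonneg fun _ _ => norm_nonneg _)]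
  refine ⟨ρ, hρ, f, hf2, ?_, fun r' hr' v hv => ?_⟩
  · rw [hρf]
    refine hn.trans_le ?_
    rw [hG, Finset.sum_filter]
    refine Finset.sum_le_sum fun l _ => ?_
    have := mul_pos hR0 (hl l)
    split_ifs with h2
    · exact max_le (norm_nonneg _) (by linarith)
    · exact max_le le_rfl (by linarith)
  · have hsum : ∑ l ∈ G, lam l ≤ η := by
      have h2 : R * ∑ l ∈ G, lam l ≤ ‖ρ f‖ := by
        rw [hρf, Finset.mul_sum]
        exact Finset.sum_le_sum fun l hl => (Finset.mem_filter.1 hl).2.le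
      have h3 : ‖ρ f‖ ≤ |C0| + 1 := by
        have h4 := ρ.le_opNorm f
        have h5 := hC ρ hρ
        have h6 := le_abs_self C0
        nlinarith [norm_nonneg ρ, norm_nonneg f]
      have h4 : R * ∑ l ∈ G, lam l ≤ R * η := by
        have : R * η = |C0| + 1 := by rw [hR]; field_simp
        rw [this]; exact h2.trans h3
      exact le_of_mul_le_mul_left h4 hR0
    have hv1 : v = ∑ l ∈ lev n, v * cyl 𝕜 l := by
      rw [← Finset.mul_sum, sum_cyl, mul_one]
    have hz : ∀ l ∈ lev n, ‖r' (v * cyl 𝕜 l)‖ ≤ if R * lam l < ‖ρ (cyl 𝕜 l)‖ then lam l else 0 := by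
      intro l hln
      split_ifs with h2
      · have h3 : ‖r' (v * cyl 𝕜 l)‖ ≤ vr r' l := by
          refine le_vr fun s => ?_
          rw [ContinuousMap.mul_apply, norm_mul]
          exact mul_le_of_le_one_left (norm_nonneg _) ((hv s).trans (hf1 s))
        refine h3.trans ?_
        have h4 : vr r' l ≤ ∑ r ∈ F, vr r l :=
          Finset.single_le_sum (f := fun r => vr r l) (fun r _ => vr_nonneg r l) hr'
        have h5 : (0 : ℝ) < (1 / 2) ^ l.length := by positivity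
        simp only [hlam]
        linarith
      · have h3 : v * cyl 𝕜 l = 0 := by
          ext s
          rw [ContinuousMap.mul_apply, cyl_apply_lev hln]
          split_ifs with h4
          · have h5 := hv s
            rw [hfs, if_neg, norm_zero] at h5
            · rw [norm_le_zero_iff.1 h5]; simp
            · rw [h4]
              intro h6
              exact h2 (Finset.mem_filter.1 h6).2
          · simp
        rw [h3, map_zero, norm_zero]
    calc ‖r' v‖ = ‖∑ l ∈ lev n, r' (v * cyl 𝕜 l)‖ := by rw [← map_sum, ← hv1]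
      _ ≤ ∑ l ∈ lev n, ‖r' (v * cyl 𝕜 l)‖ := norm_sum_le _ _
      _ ≤ ∑ l ∈ lev n, (if R * lam l < ‖ρ (cyl 𝕜 l)‖ then lam l else 0) := Finset.sum_le_sum hz
      _ = ∑ l ∈ G, lam l := by rw [hG, Finset.sum_filter]
      _ ≤ η := hsum

end Q101.Wk
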