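import Pool.Agent.Q101.WkS

/-! # Fractional stopping on the binary tree -/

open Filter Topology

namespace Q101.Wk

theorem sum_lev_succ {M : Type*} [AddCommMonoid M] (n : ℕ) (f : List Bool → M) :
    ∑ l ∈ lev (n + 1), f l = ∑ l ∈ lev n, (f (true :: l) + f (false :: l)) := by
  rw [lev, Finset.sum_union, Finset.sum_image, Finset.sum_image, Finset.sum_add_distrib]
  · intro a _ b _ h; exact (List.cons.inj h).2
  · intro a _ b _ h; exact (List.cons.inj h).2
  · rw [Finset.disjoint_left]
    intro l h1 h2
    obtain ⟨a, _, rfl⟩ := Finset.mem_image.1 h1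
    obtain ⟨b, _, hb⟩ := Finset.mem_image.1 h2
    have := (List.cons.inj hb).1
    exact Bool.noConfusion this

theorem sum_lev_zero {M : Type*} [AddCommMonoid M] (f : List Bool → M) :
    ∑ l ∈ lev 0, f l = f [] := by rw [lev, Finset.sum_singleton]

theorem sum_lev_add {M : Type*} [AddCommMonoid M] {f : List Bool → M} (hf : TreeAdd f) (n : ℕ) :
    ∑ l ∈ lev n, f l = f [] := by
  induction n with
  | zero => exact sum_lev_zero f
  | succ n ih => 
    rw [sum_lev_succ, ← ih]
    exact Finset.sum_congr rfl fun l _ => (hf l).symm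

/-- The cut-off function. -/
noncomputable def cut (a x : ℝ) : ℝ := max 0 (min 1 (a + 1 - x))

theorem cut_nonneg (a x : ℝ) : 0 ≤ cut a x := le_max_left _ _
theorem cut_le_one (a x : ℝ) : cut a x ≤ 1 := max_le zero_le_one (min_le_left _ _)

theorem cut_lt_one {a x : ℝ} (h : cut a x < 1) : a < x := by
  by_contra hx
  push Not at hx
  have : cut a x = 1 := by
    rw [cut, min_eq_left (by linarith), max_eq_right zero_le_one]
  linarith

theorem cut_pos {a x : ℝ} (h : 0 < cut a x) : x < a + 1 := by
  by_contra hx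
  push Not at hx
  have : cut a x = 0 := by
    rw [cut, max_eq_left]
    exact (min_le_right _ _).trans (by linarith)
  linarith

theorem cut_eq_zero {a x : ℝ} (h : a + 1 ≤ x) : cut a x = 0 := by
  rw [cut, max_eq_left]
  exact (min_le_right _ _).trans (by linarith)

theorem continuous_cut (a : ℝ) : Continuous (cut a) := by
  unfold cut; fun_prop

section fixed

variable {𝕜 : Type} [RCLike 𝕜] (a R : ℝ) (lam : List Bool → ℝ) (m : List Bool → 𝕜)

/-- Normalised density. -/
noncomputable def dn (l : List Bool) : ℝ := ‖m l‖ / (R * lam l)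

/-- The stopping weight and the accumulated loss. -/
noncomputable def tv : List Bool → ℝ × ℝ
  | [] => (cut a (dn R lam m []), 0)
  | b :: l =>
    ((tv l).1 * cut a (dn R lam m (b :: l)) * cut a (tv l).2,
      (tv l).2 + ‖((tv l).1 : 𝕜) * m l
        - (((tv l).1 * cut a (dn R lam m (true :: l)) * cut a (tv l).2 : ℝ) : 𝕜) * m (true :: l)
        - (((tv l).1 * cut a (dn R lam m (false :: l)) * cut a (tv l).2 : ℝ) : 𝕜) * m (false :: l)‖
        / (R * lam l))

/-- stopping weight -/
noncomputable def th (l : List Bool) : ℝ := (tv a R lam m l).1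
/-- accumulated loss -/
noncomputable def V (l : List Bool) : ℝ := (tv a R lam m l).2
/-- the loss at a node -/
noncomputable def loss (l : List Bool) : 𝕜 :=
  (th a R lam m l : 𝕜) * m l - (th a R lam m (true :: l) : 𝕜) * m (true :: l)
    - (th a R lam m (false :: l) : 𝕜) * m (false :: l)
/-- the redistributed mass -/
noncomputable def sm : List Bool → 𝕜
  | [] => 0
  | b :: l => ((lam (b :: l) / lam l : ℝ) : 𝕜) * (sm l + loss a R lam m l)
/-- the new function -/
noncomputable def nuf (l : List Bool) : 𝕜 := (th a R lam m l : 𝕜) * m l + sm a R lam m l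

theorem th_cons (b : Bool) (l : List Bool) : th a R lam m (b :: l)
    = th a R lam m l * cut a (dn R lam m (b :: l)) * cut a (V a R lam m l) := rfl

theorem V_nil : V a R lam m [] = 0 := rfl

theorem V_cons (b : Bool) (l : List Bool) : V a R lam m (b :: l)
    = V a R lam m l + ‖loss a R lam m l‖ / (R * lam l) := rfl

theorem th_nil : th a R lam m [] = cut a (dn R lam m []) := rfl

variable {a R lam m}

theorem th_nonneg (l : List Bool) : 0 ≤ th a R lam m l := by
  induction l with
  | nil => exact cut_nonneg _ _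
  | cons b l ih => 
    rw [th_cons]
    exact mul_nonneg (mul_nonneg ih (cut_nonneg _ _)) (cut_nonneg _ _)

theorem th_cons_le (b : Bool) (l : List Bool) : th a R lam m (b :: l) ≤ th a R lam m l := by
  rw [th_cons, mul_assoc]
  exact mul_le_of_le_one_right (th_nonneg l) (mul_le_one₀ (cut_le_one _ _) (cut_nonneg _ _) (cut_le_one _ _))

theorem th_le_one (l : List Bool) : th a R lam m l ≤ 1 := by
  induction l with
  | nil => exact cut_le_one _ _
  | cons b l ih => exact (th_cons_le b l).trans ih

theorem th_le_cut (l : List Bool) : th a R lam m l ≤ cut a (dn R lam m l) := by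
  cases l with
  | nil => exact le_rfl
  | cons b l =>
    rw [th_cons]
    calc th a R lam m l * cut a (dn R lam m (b :: l)) * cut a (V a R lam m l)
        ≤ 1 * cut a (dn R lam m (b :: l)) * 1 := by
          refine mul_le_mul (mul_le_mul_of_nonneg_right (th_le_one l) (cut_nonneg _ _)) (cut_le_one _ _)
            (cut_nonneg _ _) (mul_nonneg zero_le_one (cut_nonneg _ _))
      _ = _ := by ring

theorem V_le_cons (hR : 0 < R) (hl : ∀ l, 0 < lam l) (b : Bool) (l : List Bool) :
    V a R lam m l ≤ V a R lam m (b :: l) := by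
  rw [V_cons]
  have := mul_pos hR (hl l)
  have : 0 ≤ ‖loss a R lam m l‖ / (R * lam l) := by positivity
  linarith

theorem V_nonneg (hR : 0 < R) (hl : ∀ l, 0 < lam l) (l : List Bool) : 0 ≤ V a R lam m l := by
  induction l with
  | nil => exact le_rfl
  | cons b l ih => exact ih.trans (V_le_cons hR hl b l)

theorem norm_m_le (hR : 0 < R) (hl : ∀ l, 0 < lam l) {l : List Bool} (h : 0 < th a R lam m l) :
    ‖m l‖ ≤ (a + 1) * (R * lam l) := by
  have h1 := cut_pos (h.trans_le (th_le_cut l))
  rw [dn, div_lt_iff₀ (mul_pos hR (hl l))] at h1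
  exact h1.le

theorem norm_th_m_le (ha : 0 ≤ a) (hR : 0 < R) (hl : ∀ l, 0 < lam l) (l : List Bool) :
    ‖(th a R lam m l : 𝕜) * m l‖ ≤ th a R lam m l * ((a + 1) * (R * lam l)) := by
  rw [norm_mul, RCLike.norm_ofReal, abs_of_nonneg (th_nonneg l)]
  rcases (th_nonneg (a := a) (R := R) (lam := lam) (m := m) l).eq_or_lt with h | h
  · rw [← h, zero_mul, zero_mul]
  · exact mul_le_mul_of_nonneg_left (norm_m_le hR hl h) h.le

theorem loss_zero {l : List Bool} (h : th a R lam m l = 0) : loss a R lam m l = 0 := by
  have h1 : ∀ b, th a R lam m (b :: l) = 0 := fun b =>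
    le_antisymm ((th_cons_le b l).trans h.le) (th_nonneg _)
  rw [loss, h1, h1, h]
  simp

theorem norm_loss_le (ha : 0 ≤ a) (hR : 0 < R) (hl : ∀ l, 0 < lam l) (hla : TreeAdd lam)
    (l : List Bool) : ‖loss a R lam m l‖ ≤ 2 * ((a + 1) * (R * lam l)) := by
  have h1 := norm_th_m_le (m := m) ha hR hl l
  have h2 := norm_th_m_le (m := m) ha hR hl (true :: l)
  have h3 := norm_th_m_le (m := m) ha hR hl (false :: l)
  have e1 := norm_sub_le ((th a R lam m l : 𝕜) * m l - (th a R lam m (true :: l) : 𝕜) * m (true :: l))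
    ((th a R lam m (false :: l) : 𝕜) * m (false :: l))
  have e2 := norm_sub_le ((th a R lam m l : 𝕜) * m l) ((th a R lam m (true :: l) : 𝕜) * m (true :: l))
  have t1 := th_le_one (a := a) (R := R) (lam := lam) (m := m) l
  have t2 := th_le_one (a := a) (R := R) (lam := lam) (m := m) (true :: l)
  have t3 := th_le_one (a := a) (R := R) (lam := lam) (m := m) (false :: l)
  have p : ∀ l, 0 ≤ (a + 1) * (R * lam l) := fun l => by have := hl l; positivity
  have q1 : th a R lam m l * ((a + 1) * (R * lam l)) ≤ (a + 1) * (R * lam l) :=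
    mul_le_of_le_one_left (p _) t1
  have q2 : th a R lam m (true :: l) * ((a + 1) * (R * lam (true :: l))) ≤ (a + 1) * (R * lam (true :: l)) :=
    mul_le_of_le_one_left (p _) t2
  have q3 : th a R lam m (false :: l) * ((a + 1) * (R * lam (false :: l))) ≤ (a + 1) * (R * lam (false :: l)) :=
    mul_le_of_le_one_left (p _) t3
  have h4 : (a + 1) * (R * lam l) = (a + 1) * (R * lam (true :: l)) + (a + 1) * (R * lam (false :: l)) := by
    rw [hla l]; ring
  rw [loss]
  linarith

theorem V_bound (ha : 0 ≤ a) (hR : 0 < R) (hl : ∀ l, 0 < lam l) (hla : TreeAdd lam) (l : List Bool) :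
    V a R lam m l ≤ 4 * (a + 1) ∧ (0 < th a R lam m l → V a R lam m l ≤ 3 * (a + 1)) := by
  induction l with
  | nil => rw [V_nil]; exact ⟨by linarith, fun _ => by linarith⟩
  | cons b l ih =>
    have hp := mul_pos hR (hl l)
    rcases (th_nonneg (a := a) (R := R) (lam := lam) (m := m) l).eq_or_lt with h | h
    · have h1 : V a R lam m (b :: l) = V a R lam m l := by
        rw [V_cons, loss_zero h.symm, norm_zero, zero_div, add_zero]
      rw [h1]
      refine ⟨ih.1, fun h2 => ?_⟩
      have := th_cons_le (a := a) (R := R) (lam := lam) (m := m) b l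
      linarith
    · have h3 := ih.2 h
      rcases le_or_gt (a + 1) (V a R lam m l) with h4 | h4
      · have h5 : ∀ b, th a R lam m (b :: l) = 0 := fun b => by
          rw [th_cons, cut_eq_zero h4, mul_zero]
        have h6 : ‖loss a R lam m l‖ ≤ (a + 1) * (R * lam l) := by
          rw [loss, h5, h5]
          simp only [RCLike.ofReal_zero, zero_mul, sub_zero]
          refine (norm_th_m_le ha hR hl l).trans ?_
          exact mul_le_of_le_one_left (by positivity) (th_le_one l)
        have h7 : ‖loss a R lam m l‖ / (R * lam l) ≤ a + 1 := by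
          rw [div_le_iff₀ hp]; exact h6
        rw [V_cons]
        refine ⟨by linarith, fun h8 => ?_⟩
        rw [h5] at h8
        exact absurd h8 (lt_irrefl 0)
      · have h6 := norm_loss_le (m := m) ha hR hl hla l
        have h7 : ‖loss a R lam m l‖ / (R * lam l) ≤ 2 * (a + 1) := by
          rw [div_le_iff₀ hp]; linarith
        rw [V_cons]
        exact ⟨by linarith, fun _ => by linarith⟩

theorem norm_sm_le (hR : 0 < R) (hl : ∀ l, 0 < lam l) (l : List Bool) :
    ‖sm a R lam m l‖ ≤ R * V a R lam m l * lam l := by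
  induction l with
  | nil => rw [sm, norm_zero, V_nil]; simp
  | cons b l ih =>
    have hp := hl l
    have hp2 := hl (b :: l)
    rw [sm, norm_mul, RCLike.norm_ofReal, abs_of_nonneg (by positivity), V_cons]
    have h1 : ‖sm a R lam m l + loss a R lam m l‖ ≤ R * V a R lam m l * lam l + ‖loss a R lam m l‖ :=
      (norm_add_le _ _).trans (by linarith)
    have h2 : R * (V a R lam m l + ‖loss a R lam m l‖ / (R * lam l)) * lam (b :: l)
        = lam (b :: l) / lam l * (R * V a R lam m l * lam l + ‖loss a R lam m l‖) := by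
      field_simp
    rw [h2]
    exact mul_le_mul_of_nonneg_left h1 (by positivity)

theorem nuf_bound (ha : 0 ≤ a) (hR : 0 < R) (hl : ∀ l, 0 < lam l) (hla : TreeAdd lam) (l : List Bool) :
    ‖nuf a R lam m l‖ ≤ 5 * (a + 1) * R * lam l := by
  have hp := hl l
  have h1 := norm_th_m_le (m := m) ha hR hl l
  have h2 := norm_sm_le (a := a) (m := m) hR hl l
  have h3 := (V_bound (m := m) ha hR hl hla l).1
  have h4 : th a R lam m l * ((a + 1) * (R * lam l)) ≤ (a + 1) * (R * lam l) :=
    mul_le_of_le_one_left (by positivity) (th_le_one l)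
  have h5 : R * V a R lam m l * lam l ≤ R * (4 * (a + 1)) * lam l := by gcongr
  have h6 := norm_add_le ((th a R lam m l : 𝕜) * m l) (sm a R lam m l)
  rw [nuf]
  linarith

theorem nuf_add (hl : ∀ l, 0 < lam l) (hla : TreeAdd lam) : TreeAdd (nuf a R lam m) := by
  intro l
  have hp := hl l
  have hc : (lam l : 𝕜) ≠ 0 := by exact_mod_cast hp.ne'
  have h1 : ((lam (true :: l) / lam l : ℝ) : 𝕜) + ((lam (false :: l) / lam l : ℝ) : 𝕜) = 1 := by
    rw [← RCLike.ofReal_add, ← add_div, ← hla l, div_self hp.ne', RCLike.ofReal_one]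
  have h2 : ((lam (true :: l) / lam l : ℝ) : 𝕜) * (sm a R lam m l + loss a R lam m l)
      + ((lam (false :: l) / lam l : ℝ) : 𝕜) * (sm a R lam m l + loss a R lam m l)
      = sm a R lam m l + loss a R lam m l := by
    rw [← add_mul, h1, one_mul]
  rw [nuf, nuf, nuf, sm, sm]
  have h3 : loss a R lam m l = (th a R lam m l : 𝕜) * m l - (th a R lam m (true :: l) : 𝕜) * m (true :: l)
    - (th a R lam m (false :: l) : 𝕜) * m (false :: l) := rfl
  linear_combination -h2 - h3

theorem norm_loss_le' (hm : TreeAdd m) (l : List Bool) : ‖loss a R lam m l‖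
    ≤ (th a R lam m l - th a R lam m (true :: l)) * ‖m (true :: l)‖
      + (th a R lam m l - th a R lam m (false :: l)) * ‖m (false :: l)‖ := by
  have h1 : loss a R lam m l = ((th a R lam m l - th a R lam m (true :: l) : ℝ) : 𝕜) * m (true :: l)
      + ((th a R lam m l - th a R lam m (false :: l) : ℝ) : 𝕜) * m (false :: l) := by
    rw [loss, hm l]
    push_cast
    ring
  rw [h1]
  refine (norm_add_le _ _).trans ?_
  rw [norm_mul, norm_mul, RCLike.norm_ofReal, RCLike.norm_ofReal,
    abs_of_nonneg (sub_nonneg.2 (th_cons_le _ _)), abs_of_nonneg (sub_nonneg.2 (th_cons_le _ _))]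

/-- `R Y_n ≤ P_n`. -/
theorem Y_le_P (hR : 0 < R) (hl : ∀ l, 0 < lam l) (hla : TreeAdd lam) (hm : TreeAdd m) (n : ℕ) :
    ∑ l ∈ lev n, R * V a R lam m l * lam l ≤ ∑ l ∈ lev n, (1 - th a R lam m l) * ‖m l‖ := by
  induction n with
  | zero =>
    rw [sum_lev_zero, sum_lev_zero, V_nil]
    have := th_le_one (a := a) (R := R) (lam := lam) (m := m) []
    have h2 : 0 ≤ (1 - th a R lam m []) * ‖m []‖ := mul_nonneg (by linarith) (norm_nonneg _)
    linarith
  | succ n ih =>
    rw [sum_lev_succ, sum_lev_succ]
    have h1 : ∀ l, R * V a R lam m (true :: l) * lam (true :: l) + R * V a R lam m (false :: l) * lam (false :: l)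
        = R * V a R lam m l * lam l + ‖loss a R lam m l‖ := by
      intro l
      have hp := hl l
      rw [V_cons, V_cons]
      have h2 : R * (V a R lam m l + ‖loss a R lam m l‖ / (R * lam l)) * lam (true :: l)
        + R * (V a R lam m l + ‖loss a R lam m l‖ / (R * lam l)) * lam (false :: l)
        = R * (V a R lam m l + ‖loss a R lam m l‖ / (R * lam l)) * lam l := by
        rw [hla l]; ring
      rw [h2]
      field_simp
    have h3 : ∀ l, (1 - th a R lam m l) * ‖m l‖ + ‖loss a R lam m l‖
        ≤ (1 - th a R lam m (true :: l)) * ‖m (true :: l)‖ + (1 - th a R lam m (false :: l)) * ‖m (false :: l)‖ := by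
      intro l
      have h4 := norm_loss_le' (a := a) (R := R) (lam := lam) hm l
      have h5 : ‖m l‖ ≤ ‖m (true :: l)‖ + ‖m (false :: l)‖ := by
        rw [hm l]; exact norm_add_le _ _
      have h6 := th_le_one (a := a) (R := R) (lam := lam) (m := m) l
      have h7 : (1 - th a R lam m l) * ‖m l‖
          ≤ (1 - th a R lam m l) * (‖m (true :: l)‖ + ‖m (false :: l)‖) :=
        mul_le_mul_of_nonneg_left h5 (by linarith)
      nlinarith
    calc ∑ l ∈ lev n, (R * V a R lam m (true :: l) * lam (true :: l)
          + R * V a R lam m (false :: l) * lam (false :: l))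
        = ∑ l ∈ lev n, R * V a R lam m l * lam l + ∑ l ∈ lev n, ‖loss a R lam m l‖ := by
          rw [← Finset.sum_add_distrib]
          exact Finset.sum_congr rfl fun l _ => h1 l
      _ ≤ ∑ l ∈ lev n, (1 - th a R lam m l) * ‖m l‖ + ∑ l ∈ lev n, ‖loss a R lam m l‖ := by linarith
      _ = ∑ l ∈ lev n, ((1 - th a R lam m l) * ‖m l‖ + ‖loss a R lam m l‖) := by
          rw [← Finset.sum_add_distrib]
      _ ≤ _ := Finset.sum_le_sum fun l _ => h3 l

variable (a R lam m) in
/-- some ancestor-or-self has large density -/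
def big : List Bool → Prop
  | [] => a < dn R lam m []
  | b :: l => big l ∨ a < dn R lam m (b :: l)

theorem pos_add (x y z : ℝ) (h : z ≤ x + y) : max 0 z ≤ max 0 x + max 0 y := by
  refine max_le (by positivity) (h.trans (add_le_add (le_max_right _ _) (le_max_right _ _)))

open Classical in
theorem big_sum (ha : 1 < a) (hR : 0 < R) (hl : ∀ l, 0 < lam l) (hla : TreeAdd lam) (hm : TreeAdd m)
    (n : ℕ) : (a - 1) * (R * ∑ l ∈ (lev n).filter (big a R lam m), lam l)
      ≤ ∑ l ∈ lev n, max 0 (‖m l‖ - R * lam l) := by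
  set F : List Bool → ℝ := fun l => if big a R lam m l then
    max 0 (‖m l‖ - R * lam l) - (a - 1) * (R * lam l) else 0 with hF
  have key : ∀ l, a < dn R lam m l → 0 ≤ max 0 (‖m l‖ - R * lam l) - (a - 1) * (R * lam l) := by
    intro l h
    rw [dn, lt_div_iff₀ (mul_pos hR (hl l))] at h
    have := le_max_right 0 (‖m l‖ - R * lam l)
    nlinarith
  have h1 : ∀ l, F l ≤ F (true :: l) + F (false :: l) := by
    intro l
    by_cases hb : big a R lam m l
    · have h2 : ∀ b, big a R lam m (b :: l) := fun b => Or.inl hb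
      simp only [hF, if_pos hb, if_pos (h2 _)]
      have h3 : ‖m l‖ - R * lam l ≤ (‖m (true :: l)‖ - R * lam (true :: l))
          + (‖m (false :: l)‖ - R * lam (false :: l)) := by
        have h5 : ‖m l‖ ≤ ‖m (true :: l)‖ + ‖m (false :: l)‖ := by
          rw [hm l]; exact norm_add_le _ _
        rw [hla l]
        linarith
      have h4 := pos_add _ _ _ h3
      have h5 : (a - 1) * (R * lam l) = (a - 1) * (R * lam (true :: l)) + (a - 1) * (R * lam (false :: l)) := by
        rw [hla l]; ring
      linarith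
    · have h2 : ∀ b, 0 ≤ F (b :: l) := by
        intro b
        simp only [hF]
        split_ifs with h3
        · rcases h3 with h3 | h3
          · exact absurd h3 hb
          · exact key _ h3
        · exact le_rfl
      have h3 : F l = 0 := by simp only [hF, if_neg hb]
      rw [h3]
      exact add_nonneg (h2 _) (h2 _)
  have h2 : ∀ n, 0 ≤ ∑ l ∈ lev n, F l := by
    intro n
    induction n with
    | zero =>
      rw [sum_lev_zero]
      simp only [hF]
      split_ifs with h3
      · exact key _ h3
      · exact le_rfl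
    | succ n ih =>
      rw [sum_lev_succ]
      exact ih.trans (Finset.sum_le_sum fun l _ => h1 l)
  have h3 : ∑ l ∈ lev n, F l = ∑ l ∈ (lev n).filter (big a R lam m), max 0 (‖m l‖ - R * lam l)
      - (a - 1) * (R * ∑ l ∈ (lev n).filter (big a R lam m), lam l) := by
    rw [Finset.mul_sum, Finset.mul_sum, ← Finset.sum_sub_distrib, Finset.sum_filter]
  have h4 : ∑ l ∈ (lev n).filter (big a R lam m), max 0 (‖m l‖ - R * lam l)
      ≤ ∑ l ∈ lev n, max 0 (‖m l‖ - R * lam l) :=
    Finset.sum_le_sum_of_subset_of_nonneg (Finset.filter_subset _ _) fun _ _ _ => le_max_left _ _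
  have := h2 n
  linarith

theorem th_lt_one (hR : 0 < R) (hl : ∀ l, 0 < lam l) {l : List Bool} (h : th a R lam m l < 1) :
    big a R lam m l ∨ a < V a R lam m l := by
  induction l with
  | nil => exact Or.inl (cut_lt_one h)
  | cons b l ih =>
    by_cases h1 : th a R lam m l < 1
    · rcases ih h1 with h2 | h2
      · exact Or.inl (Or.inl h2)
      · exact Or.inr (h2.trans_le (V_le_cons hR hl b l))
    · have h2 : th a R lam m l = 1 := le_antisymm (th_le_one l) (not_lt.1 h1)
      by_cases h3 : cut a (dn R lam m (b :: l)) < 1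
      · exact Or.inl (Or.inr (cut_lt_one h3))
      · have h4 : cut a (dn R lam m (b :: l)) = 1 := le_antisymm (cut_le_one _ _) (not_lt.1 h3)
        rw [th_cons, h2, h4, one_mul, one_mul] at h
        exact Or.inr ((cut_lt_one h).trans_le (V_le_cons hR hl b l))

open Classical in
theorem P_le {d : ℝ} (ha : 1 < a) (hR : 0 < R) (hl : ∀ l, 0 < lam l) (hla : TreeAdd lam)
    (hm : TreeAdd m) (n : ℕ) (hd : ∑ l ∈ lev n, max 0 (‖m l‖ - R * lam l) ≤ d) :
    (a - 1) ^ 2 * ∑ l ∈ lev n, (1 - th a R lam m l) * ‖m l‖ ≤ a ^ 2 * d := by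
  set P := ∑ l ∈ lev n, (1 - th a R lam m l) * ‖m l‖ with hP
  have h1 : P ≤ ∑ l ∈ (lev n).filter (fun l => th a R lam m l < 1), ‖m l‖ := by
    rw [hP, Finset.sum_filter]
    refine Finset.sum_le_sum fun l _ => ?_
    split_ifs with h
    · have := th_nonneg (a := a) (R := R) (lam := lam) (m := m) l
      exact mul_le_of_le_one_left (norm_nonneg _) (by linarith)
    · have : th a R lam m l = 1 := le_antisymm (th_le_one l) (not_lt.1 h)
      rw [this]; simp
  have h2 : ∑ l ∈ (lev n).filter (fun l => th a R lam m l < 1), ‖m l‖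
      ≤ ∑ l ∈ (lev n).filter (fun l => th a R lam m l < 1), (R * lam l)
        + ∑ l ∈ lev n, max 0 (‖m l‖ - R * lam l) := by
    have h3 : ∑ l ∈ (lev n).filter (fun l => th a R lam m l < 1), max 0 (‖m l‖ - R * lam l)
        ≤ ∑ l ∈ lev n, max 0 (‖m l‖ - R * lam l) :=
      Finset.sum_le_sum_of_subset_of_nonneg (Finset.filter_subset _ _) fun _ _ _ => le_max_left _ _
    refine le_trans ?_ (add_le_add le_rfl h3)
    rw [← Finset.sum_add_distrib]
    refine Finset.sum_le_sum fun l _ => ?_
    have := le_max_right 0 (‖m l‖ - R * lam l)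
    linarith
  have h4 : ∑ l ∈ (lev n).filter (fun l => th a R lam m l < 1), (R * lam l)
      ≤ R * ∑ l ∈ (lev n).filter (big a R lam m), lam l
        + (∑ l ∈ lev n, R * V a R lam m l * lam l) / a := by
    rw [Finset.mul_sum, Finset.sum_div, Finset.sum_filter, Finset.sum_filter, ← Finset.sum_add_distrib]
    refine Finset.sum_le_sum fun l _ => ?_
    have hp := hl l
    have hV := V_nonneg (a := a) (m := m) hR hl l
    have hq : 0 ≤ R * V a R lam m l * lam l / a := by positivity
    have hq2 : 0 ≤ (if big a R lam m l then R * lam l else 0) := by split_ifs <;> positivity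
    split_ifs with h h5 h5
    · linarith
    · have h6 := (th_lt_one hR hl h).resolve_left h5
      have : R * lam l ≤ R * V a R lam m l * lam l / a := by
        rw [le_div_iff₀ (by linarith)]
        have : 0 < R * lam l := mul_pos hR hp
        nlinarith
      linarith
    · have : 0 < R * lam l := mul_pos hR hp
      linarith
    · linarith
  have h5 := big_sum ha hR hl hla hm n
  have h6 := Y_le_P (a := a) hR hl hla hm n
  rw [← hP] at h6
  set Bg := R * ∑ l ∈ (lev n).filter (big a R lam m), lam l with hBg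
  set Y := ∑ l ∈ lev n, R * V a R lam m l * lam l with hY
  have ha1 : 0 < a - 1 := by linarith
  have ha0 : 0 < a := by linarith
  have h7 : P ≤ Bg + Y / a + d := by linarith
  have h8 : (a - 1) * Bg ≤ d := h5.trans hd
  have h9 : Y / a ≤ P / a := by gcongr
  have h10 : (a - 1) * P ≤ a * (Bg + d) := by
    have h11 : P ≤ Bg + P / a + d := by linarith
    have h12 : a * P ≤ a * (Bg + P / a + d) := mul_le_mul_of_nonneg_left h11 ha0.le
    have h13 : a * (P / a) = P := by field_simp
    nlinarith
  nlinarith

theorem total_le {d : ℝ} (ha : 1 < a) (hR : 0 < R) (hl : ∀ l, 0 < lam l) (hla : TreeAdd lam)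
    (hm : TreeAdd m) (n : ℕ) (hd : ∑ l ∈ lev n, max 0 (‖m l‖ - R * lam l) ≤ d) :
    ∑ l ∈ lev n, ‖m l - nuf a R lam m l‖ ≤ 2 * (a / (a - 1)) ^ 2 * d := by
  have h1 := P_le ha hR hl hla hm n hd
  have h2 := Y_le_P (a := a) hR hl hla hm n
  have h3 : ∑ l ∈ lev n, ‖m l - nuf a R lam m l‖ ≤ ∑ l ∈ lev n, (1 - th a R lam m l) * ‖m l‖
      + ∑ l ∈ lev n, R * V a R lam m l * lam l := by
    rw [← Finset.sum_add_distrib]
    refine Finset.sum_le_sum fun l _ => ?_
    have h4 : m l - nuf a R lam m l = ((1 - th a R lam m l : ℝ) : 𝕜) * m l - sm a R lam m l := by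
      rw [nuf]; push_cast; ring
    rw [h4]
    refine (norm_sub_le _ _).trans (add_le_add ?_ (norm_sm_le hR hl l))
    rw [norm_mul, RCLike.norm_ofReal, abs_of_nonneg (by linarith [th_le_one (a := a) (R := R) (lam := lam) (m := m) l])]
  have ha1 : 0 < a - 1 := by linarith
  have h5 : ∑ l ∈ lev n, (1 - th a R lam m l) * ‖m l‖ ≤ (a / (a - 1)) ^ 2 * d := by
    rw [div_pow, div_mul_eq_mul_div, le_div_iff₀ (by positivity)]
    linarith
  linarith

end fixed

/-- **Job B.** -/
theorem jobB (𝕜 : Type) [RCLike 𝕜] : StB 𝕜 := by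
  intro K _ m lam R d k hR hl hla hm hk hd
  -- choice of the threshold
  obtain ⟨a, ha, hak⟩ : ∃ a : ℝ, 1 < a ∧ 2 * (a / (a - 1)) ^ 2 ≤ k := by
    set e : ℝ := min 1 ((k - 2) / 6) with he
    have he0 : 0 < e := lt_min one_pos (by linarith)
    have he1 : e ≤ 1 := min_le_left _ _
    have he2 : e ≤ (k - 2) / 6 := min_le_right _ _
    refine ⟨1 + 1 / e, by linarith [one_div_pos.2 he0], ?_⟩
    have h1 : (1 + 1 / e) / (1 + 1 / e - 1) = 1 + e := by field_simp; ring
    rw [h1]
    nlinarith
  have ha0 : 0 ≤ a := by linarith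
  -- continuity
  have hdn : ∀ l, Continuous fun t => dn R lam (fun l => m l t) l := fun l => by
    unfold dn; fun_prop
  have hcut := continuous_cut a
  have htv : ∀ l, Continuous fun t => tv a R lam (fun l => m l t) l := by
    intro l
    induction l with
    | nil => 
      simp only [tv]
      exact (hcut.comp (hdn [])).prodMk continuous_const
    | cons b l ih =>
      have i1 : Continuous fun t => (tv a R lam (fun l => m l t) l).1 := continuous_fst.comp ih
      have i2 : Continuous fun t => (tv a R lam (fun l => m l t) l).2 := continuous_snd.comp ih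
      have i3 : ∀ b, Continuous fun t => (tv a R lam (fun l => m l t) l).1
          * cut a (dn R lam (fun l => m l t) (b :: l)) * cut a (tv a R lam (fun l => m l t) l).2 :=
        fun b => (i1.mul (hcut.comp (hdn _))).mul (hcut.comp i2)
      have i4 : ∀ f : K → ℝ, Continuous f → Continuous fun t => ((f t : ℝ) : 𝕜) :=
        fun f hf => RCLike.continuous_ofReal.comp hf
      simp only [tv]
      refine (i3 b).prodMk (i2.add (Continuous.div_const (Continuous.norm ?_) _))
      exact (((i4 _ i1).mul (m l).continuous).sub ((i4 _ (i3 true)).mul (m _).continuous)).sub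
        ((i4 _ (i3 false)).mul (m _).continuous)
  have hth : ∀ l, Continuous fun t => ((th a R lam (fun l => m l t) l : ℝ) : 𝕜) := fun l =>
    RCLike.continuous_ofReal.comp (continuous_fst.comp (htv l))
  have hloss : ∀ l, Continuous fun t => loss a R lam (fun l => m l t) l := fun l => by
    unfold loss
    exact (((hth l).mul (m l).continuous).sub ((hth _).mul (m _).continuous)).sub
      ((hth _).mul (m _).continuous)
  have hsm : ∀ l, Continuous fun t => sm a R lam (fun l => m l t) l := by
    intro l
    induction l with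
    | nil => simp only [sm]; exact continuous_const
    | cons b l ih => 
      simp only [sm]
      exact continuous_const.mul (ih.add (hloss l))
  have hnu : ∀ l, Continuous fun t => nuf a R lam (fun l => m l t) l := fun l => by
    unfold nuf
    exact ((hth l).mul (m l).continuous).add (hsm l)
  have hmt : ∀ t, TreeAdd (fun l => m l t) := fun t l => by
    have := hm l
    show m l t = m (true :: l) t + m (false :: l) t
    rw [this]; rfl
  refine ⟨fun l => ⟨fun t => nuf a R lam (fun l => m l t) l, hnu l⟩, 5 * (a + 1) * R, ?_, ?_, ?_⟩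
  · intro l
    ext t
    exact nuf_add hl hla l
  · intro l t
    exact nuf_bound ha0 hR hl hla l
  · intro t n
    have h1 := total_le ha hR hl hla (hmt t) n (hd t n)
    have hd0 : 0 ≤ d := (Finset.sum_nonneg fun _ _ => le_max_left _ _).trans (hd t n)
    exact h1.trans (mul_le_mul_of_nonneg_right hak hd0)

end Q101.Wk
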