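import Pool.Agent.Q101.WkL

/-! # Job D: dominated operators are weakly compact -/

open Filter Topology MeasureTheory
open scoped ENNReal InnerProductSpace CompactlySupported

namespace Q101.Wk

section hilbert

variable {𝕜 : Type} [RCLike 𝕜] {H : Type*} [NormedAddCommGroup H] [InnerProductSpace 𝕜 H] [CompleteSpace H]

/-- Hilbert spaces are reflexive. -/
theorem reflexive_hilbert (F : StrongDual 𝕜 (StrongDual 𝕜 H)) :
    ∃ y : H, NormedSpace.inclusionInDoubleDual 𝕜 H y = F := by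
  set φ : H →L[𝕜] 𝕜 := LinearMap.mkContinuous
    { toFun := fun x => star (F (InnerProductSpace.toDual 𝕜 H x))
      map_add' := fun x y => by simp
      map_smul' := fun c x => by
        simp only [map_smulₛₗ, RingHom.id_apply, smul_eq_mul, star_mul', RCLike.star_def,
          RCLike.conj_conj] } ‖F‖ (fun x => by
        show ‖star (F (InnerProductSpace.toDual 𝕜 H x))‖ ≤ ‖F‖ * ‖x‖
        rw [norm_star]
        refine (F.le_opNorm _).trans ?_
        rw [LinearIsometryEquiv.norm_map]) with hφ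
  refine ⟨(InnerProductSpace.toDual 𝕜 H).symm φ, ?_⟩
  ext f
  rw [NormedSpace.dual_def]
  obtain ⟨x, rfl⟩ := (InnerProductSpace.toDual 𝕜 H).surjective f
  rw [InnerProductSpace.toDual_apply_apply, ← inner_conj_symm, InnerProductSpace.toDual_symm_apply]
  show (starRingEnd 𝕜) (star (F (InnerProductSpace.toDual 𝕜 H x))) = _
  rw [RCLike.star_def, RCLike.conj_conj]

theorem ball_weakly_compact (r : ℝ) : RelWeaklyCompact 𝕜 (Metric.closedBall (0 : H) r) := by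
  refine NormedSpace.isCompact_closure_of_isBounded 𝕜 H _ ?_ ?_
  · refine Metric.isBounded_closedBall (x := (0 : H)) (r := r) |>.subset ?_
    intro x hx
    obtain ⟨y, hy, hyx⟩ := hx
    have : y = x := (toWeakSpace 𝕜 H).injective hyx
    rwa [← this]
  · intro F _
    obtain ⟨y, hy⟩ := reflexive_hilbert (WeakDual.toStrongDual F)
    refine ⟨toWeakSpace 𝕜 H y, ?_⟩
    have : WeakDual.toStrongDual (NormedSpace.inclusionInDoubleDualWeak 𝕜 H (toWeakSpace 𝕜 H y))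
      = WeakDual.toStrongDual F := hy
    exact WeakDual.toStrongDual.injective this

/-- Operators which factor through a Hilbert space are weakly compact. -/
theorem factor_weakly_compact {E F : Type*} [NormedAddCommGroup E] [NormedSpace 𝕜 E]
    [NormedAddCommGroup F] [NormedSpace 𝕜 F] (A : E →L[𝕜] H) (B : H →L[𝕜] F) :
    WeaklyCompactOp (B.comp A) := by
  have h1 := ball_weakly_compact (𝕜 := 𝕜) (H := H) ‖A‖
  have h2 := h1.image (WeakSpace.map B).continuous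
  refine h2.of_isClosed_subset isClosed_closure ?_
  refine closure_minimal ?_ h2.isClosed
  rintro _ ⟨_, ⟨x, hx, rfl⟩, rfl⟩
  refine ⟨toWeakSpace 𝕜 H (A x), subset_closure ⟨A x, ?_, rfl⟩, rfl⟩
  rw [Metric.mem_closedBall, dist_zero_right] at hx ⊢
  refine (A.le_opNorm x).trans ?_
  exact mul_le_of_le_one_right (norm_nonneg _) hx

end hilbert

/-- The measure of a positive additive tree function. -/
theorem exists_measure (lam : List Bool → ℝ) (hl : ∀ l, 0 < lam l) (hla : TreeAdd lam) :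
    ∃ (Λ : C(Ca, ℝ) →L[ℝ] ℝ) (μ : Measure Ca) (_ : IsFiniteMeasure μ), (∀ l, Λ (cyl ℝ l) = lam l) ∧
      ∀ f : C(Ca, ℝ), ∫ s, f s ∂μ = Λ f := by
  obtain ⟨Λ, hΛ, hΛ1⟩ := jobL ℝ ℝ lam (lam []) hla (by
    intro n c hc
    refine (norm_sum_le _ _).trans ?_
    rw [← sum_lev_add hla n]
    refine Finset.sum_le_sum fun l _ => ?_
    rw [norm_smul, Real.norm_of_nonneg (hl l).le]
    exact mul_le_of_le_one_left (hl l).le (hc l))
  have hpos : ∀ f : C(Ca, ℝ), (∀ s, 0 ≤ f s) → 0 ≤ Λ f := by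
    intro f hf
    refine le_of_forall_pos_le_add fun e he => ?_
    have he' : 0 < e / (‖Λ‖ + 1) := by positivity
    obtain ⟨n, hn⟩ := unif f.continuous he'
    have h1 := approx_cyl f he' hn
    have h2 : 0 ≤ Λ (∑ l ∈ lev n, f (ext l) • cyl ℝ l) := by
      rw [map_sum]
      refine Finset.sum_nonneg fun l _ => ?_
      rw [map_smul, hΛ]
      exact mul_nonneg (hf _) (hl l).le
    have h3 : Λ f = Λ (f - ∑ l ∈ lev n, f (ext l) • cyl ℝ l) + Λ (∑ l ∈ lev n, f (ext l) • cyl ℝ l) := by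
      rw [← map_add, sub_add_cancel]
    have h4 : |Λ (f - ∑ l ∈ lev n, f (ext l) • cyl ℝ l)| ≤ e := by
      rw [← Real.norm_eq_abs]
      refine (Λ.le_opNorm _).trans ((mul_le_mul_of_nonneg_left h1 (norm_nonneg _)).trans ?_)
      rw [mul_div_assoc', div_le_iff₀ (by positivity)]
      nlinarith [norm_nonneg Λ]
    have := neg_abs_le (Λ (f - ∑ l ∈ lev n, f (ext l) • cyl ℝ l))
    linarith
  set Λ' : C_c(Ca, ℝ) →ₚ[ℝ] ℝ := PositiveLinearMap.mk₀
    { toFun := fun f => Λ f.toContinuousMap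
      map_add' := fun f g => by rw [← map_add]; rfl
      map_smul' := fun c f => by rw [RingHom.id_apply, ← map_smul]; rfl } (fun f hf => hpos _ (fun s => hf s)) with hΛ'
  refine ⟨Λ, RealRMK.rieszMeasure Λ', inferInstance, hΛ, fun f => ?_⟩
  exact RealRMK.integral_rieszMeasure Λ' (CompactlySupportedContinuousMap.continuousMapEquiv f)

/-- **Job D.** -/
theorem jobD (𝕜 : Type) [RCLike 𝕜] : StD 𝕜 := by
  intro K _ _ W lam B hl hla hW
  obtain ⟨Λ, μ, hμ, hΛ, hint⟩ := exists_measure lam hl hla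
  -- the L¹ bound
  have h1 : ∀ (g : C(Ca, 𝕜)) (t : K), ‖W g t‖ ≤ B * ∫ s, ‖g s‖ ∂μ := by
    intro g t
    have hB : 0 ≤ B := by
      have h2 := (norm_nonneg _).trans (hW [] t)
      exact nonneg_of_mul_nonneg_left h2 (hl [])
    set G : C(Ca, ℝ) := ⟨fun s => ‖g s‖, g.continuous.norm⟩ with hG
    have h2 : ∫ s, ‖g s‖ ∂μ = Λ G := hint G
    rw [h2]
    refine le_of_forall_pos_le_add fun e he => ?_
    set d : ℝ := e / (‖W‖ + B * ‖Λ‖ + 1) with hd
    have hd0 : 0 < d := by positivity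
    obtain ⟨n, hn⟩ := unif g.continuous hd0
    have h3 := approx_cyl g hd0 hn
    have h4 := approx_cyl G hd0 (n := n) (fun s t hst => by
      refine lt_of_le_of_lt ?_ (hn s t hst)
      show dist ‖g s‖ ‖g t‖ ≤ dist (g s) (g t)
      rw [dist_eq_norm, dist_eq_norm, Real.norm_eq_abs]
      exact abs_norm_sub_norm_le _ _)
    have h5 : ‖W (∑ l ∈ lev n, g (ext l) • cyl 𝕜 l) t‖ ≤ B * Λ (∑ l ∈ lev n, G (ext l) • cyl ℝ l) := by
      rw [map_sum, map_sum, ContinuousMap.sum_apply, Finset.mul_sum]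
      refine (norm_sum_le _ _).trans (Finset.sum_le_sum fun l _ => ?_)
      rw [map_smul, map_smul, ContinuousMap.smul_apply, norm_smul, hΛ, smul_eq_mul]
      have h6 := hW l t
      have h7 : G (ext l) = ‖g (ext l)‖ := rfl
      rw [h7]
      calc ‖g (ext l)‖ * ‖W (cyl 𝕜 l) t‖ ≤ ‖g (ext l)‖ * (B * lam l) :=
            mul_le_mul_of_nonneg_left h6 (norm_nonneg _)
        _ = B * (‖g (ext l)‖ * lam l) := by ring
    have h6 : ‖W (g - ∑ l ∈ lev n, g (ext l) • cyl 𝕜 l) t‖ ≤ ‖W‖ * d :=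
      (ContinuousMap.norm_coe_le_norm _ _).trans ((W.le_opNorm _).trans
        (mul_le_mul_of_nonneg_left h3 (norm_nonneg _)))
    have h7 : |Λ (G - ∑ l ∈ lev n, G (ext l) • cyl ℝ l)| ≤ ‖Λ‖ * d := by
      rw [← Real.norm_eq_abs]
      exact (Λ.le_opNorm _).trans (mul_le_mul_of_nonneg_left h4 (norm_nonneg _))
    have h8 : W g t = W (g - ∑ l ∈ lev n, g (ext l) • cyl 𝕜 l) t + W (∑ l ∈ lev n, g (ext l) • cyl 𝕜 l) t := by
      rw [← ContinuousMap.add_apply, ← map_add, sub_add_cancel]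
    have h9 : Λ (∑ l ∈ lev n, G (ext l) • cyl ℝ l) = Λ G - Λ (G - ∑ l ∈ lev n, G (ext l) • cyl ℝ l) := by
      rw [← map_sub, sub_sub_cancel]
    have h10 := neg_abs_le (Λ (G - ∑ l ∈ lev n, G (ext l) • cyl ℝ l))
    have h11 : B * Λ (∑ l ∈ lev n, G (ext l) • cyl ℝ l) ≤ B * (Λ G + ‖Λ‖ * d) :=
      mul_le_mul_of_nonneg_left (by rw [h9]; linarith) hB
    have h12 : (‖W‖ + B * ‖Λ‖) * d ≤ e := by
      rw [hd, mul_div_assoc', div_le_iff₀ (by positivity)]
      nlinarith [norm_nonneg W, norm_nonneg Λ, mul_nonneg hB (norm_nonneg Λ)]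
    rw [h8]
    refine (norm_add_le _ _).trans ?_
    nlinarith
  -- the L² bound
  have h2 : ∀ g : C(Ca, 𝕜), ∫ s, ‖g s‖ ∂μ ≤ (μ Set.univ).toReal ^ (1 / 2 : ℝ) * ‖ContinuousMap.toLp 2 μ 𝕜 g‖ := by
    intro g
    have e1 : AEStronglyMeasurable (g : Ca → 𝕜) μ := g.continuous.aestronglyMeasurable
    have e2 := eLpNorm_le_eLpNorm_mul_rpow_measure_univ (p := 1) (q := 2) (by norm_num) e1
    have e3 : ∫ s, ‖g s‖ ∂μ = (eLpNorm (g : Ca → 𝕜) 1 μ).toReal := by
      rw [eLpNorm_one_eq_lintegral_enorm, integral_norm_eq_lintegral_enorm e1]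
    have e4 : ‖ContinuousMap.toLp 2 μ 𝕜 g‖ = (eLpNorm (g : Ca → 𝕜) 2 μ).toReal := by
      rw [Lp.norm_def]
      congr 1
      exact eLpNorm_congr_ae (ContinuousMap.coeFn_toLp μ g)
    have e5 : eLpNorm (g : Ca → 𝕜) 2 μ ≠ ∞ := by
      rw [← eLpNorm_congr_ae (ContinuousMap.coeFn_toLp (p := 2) (𝕜 := 𝕜) μ g)]
      exact Lp.eLpNorm_ne_top _
    have e6 : (1 / (1 : ℝ≥0∞).toReal - 1 / (2 : ℝ≥0∞).toReal) = (1 / 2 : ℝ) := by
      norm_num
    rw [e6] at e2
    rw [e3, e4]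
    have e7 : μ Set.univ ^ (1 / 2 : ℝ) ≠ ∞ := ENNReal.rpow_ne_top_of_nonneg (by norm_num) (measure_ne_top _ _)
    have e8 := ENNReal.toReal_mono (ENNReal.mul_ne_top e5 e7) e2
    rw [ENNReal.toReal_mul, ← ENNReal.toReal_rpow] at e8
    linarith
  -- extension
  set M : ℝ := |B| * (μ Set.univ).toReal ^ (1 / 2 : ℝ) with hM
  have hM0 : 0 ≤ M := by positivity
  have h3 : ∀ g : C(Ca, 𝕜), ‖W g‖ ≤ M * ‖ContinuousMap.toLp 2 μ 𝕜 g‖ := by
    intro g
    rw [ContinuousMap.norm_le _ (by positivity)]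
    intro t
    have h4 : 0 ≤ ∫ s, ‖g s‖ ∂μ := integral_nonneg fun _ => norm_nonneg _
    refine (h1 g t).trans ((mul_le_mul_of_nonneg_right (le_abs_self B) h4).trans ?_)
    rw [hM, mul_assoc]
    exact mul_le_mul_of_nonneg_left (h2 g) (abs_nonneg _)
  have hd : DenseRange (ContinuousMap.toLp 2 μ 𝕜 : C(Ca, 𝕜) →L[𝕜] Lp 𝕜 2 μ) :=
    ContinuousMap.toLp_denseRange _ _ _ (by norm_num)
  have hfac : ∃ V : Lp 𝕜 2 μ →L[𝕜] C(K, 𝕜), ∀ g, V (ContinuousMap.toLp 2 μ 𝕜 g) = W g := by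
    refine ⟨(W : C(Ca, 𝕜) →ₗ[𝕜] C(K, 𝕜)).extendOfNorm
      ((ContinuousMap.toLp 2 μ 𝕜 : C(Ca, 𝕜) →L[𝕜] Lp 𝕜 2 μ) : C(Ca, 𝕜) →ₗ[𝕜] Lp 𝕜 2 μ), fun g => ?_⟩
    exact LinearMap.extendOfNorm_eq hd ⟨M, h3⟩ g
  obtain ⟨V, hV⟩ := hfac
  have hW2 : W = V.comp (ContinuousMap.toLp 2 μ 𝕜) := by
    ext1 g
    exact (hV g).symm
  rw [hW2]
  exact factor_weakly_compact _ _

end Q101.Wk
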