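import Pool.Agent.Q101.WkL

/-! # Job M: a regular averaging operator (Milutin's lemma for the interval) -/

open Filter Topology

namespace Q101.Wk

/-- The interval of a node: left end and length. -/
noncomputable def aa : List Bool → ℝ
  | [] => 0
  | true :: l => aa l
  | false :: l => aa l + (2 / 3 : ℝ) ^ l.length / 3

/-- The cut-off of a node. -/
noncomputable def hh (l : List Bool) (x : ℝ) : ℝ :=
  max 0 (min 1 (2 - 3 * (x - aa l) / (2 / 3 : ℝ) ^ l.length))

/-- The partition functions. -/
noncomputable def ch : List Bool → ℝ → ℝ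
  | [], _ => 1
  | true :: l, x => ch l x * hh l x
  | false :: l, x => ch l x * (1 - hh l x)

theorem hh_nonneg (l : List Bool) (x : ℝ) : 0 ≤ hh l x := le_max_left _ _
theorem hh_le_one (l : List Bool) (x : ℝ) : hh l x ≤ 1 := max_le zero_le_one (min_le_left _ _)

theorem continuous_hh (l : List Bool) : Continuous (hh l) := by
  unfold hh
  fun_prop

theorem continuous_ch (l : List Bool) : Continuous (ch l) := by
  induction l with
  | nil => exact continuous_const
  | cons b l ih =>
    cases b
    · exact ih.mul (continuous_const.sub (continuous_hh l))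
    · exact ih.mul (continuous_hh l)

theorem ch_nonneg (l : List Bool) (x : ℝ) : 0 ≤ ch l x := by
  induction l with
  | nil => exact zero_le_one
  | cons b l ih =>
    cases b
    · exact mul_nonneg ih (sub_nonneg.2 (hh_le_one l x))
    · exact mul_nonneg ih (hh_nonneg l x)

theorem ch_add (l : List Bool) (x : ℝ) : ch l x = ch (true :: l) x + ch (false :: l) x := by
  rw [ch, ch]; ring

theorem sum_ch (n : ℕ) (x : ℝ) : ∑ l ∈ lev n, ch l x = 1 := by
  have := sum_lev_add (f := fun l => ch l x) (fun l => ch_add l x) n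
  rw [this, ch]

/-- Support. -/
theorem ch_supp {x : ℝ} (hx0 : 0 ≤ x) (hx1 : x ≤ 1) (l : List Bool) (h : ch l x ≠ 0) :
    aa l ≤ x ∧ x ≤ aa l + (2 / 3 : ℝ) ^ l.length := by
  induction l with
  | nil => rw [aa]; simp; exact ⟨hx0, hx1⟩
  | cons b l ih =>
    have hp : (0 : ℝ) < (2 / 3 : ℝ) ^ l.length := by positivity
    cases b
    · rw [ch] at h
      have h1 := left_ne_zero_of_mul h
      have h2 := right_ne_zero_of_mul h
      obtain ⟨h3, h4⟩ := ih h1
      rw [aa, List.length_cons, pow_succ]
      have h5 : hh l x < 1 := lt_of_le_of_ne (hh_le_one l x) (fun h6 => h2 (by rw [h6, sub_self]))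
      have h6 : 2 - 3 * (x - aa l) / (2 / 3 : ℝ) ^ l.length < 1 := by
        by_contra h7
        rw [not_lt] at h7
        have : hh l x = 1 := by rw [hh, min_eq_left h7, max_eq_right zero_le_one]
        linarith
      have h7 : 1 < 3 * (x - aa l) / (2 / 3 : ℝ) ^ l.length := by linarith
      rw [lt_div_iff₀ hp] at h7
      constructor <;> linarith
    · rw [ch] at h
      have h1 := left_ne_zero_of_mul h
      have h2 := right_ne_zero_of_mul h
      obtain ⟨h3, h4⟩ := ih h1
      rw [aa, List.length_cons, pow_succ]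
      have h5 : 0 < hh l x := lt_of_le_of_ne (hh_nonneg l x) (Ne.symm h2)
      have h6 : 0 < 2 - 3 * (x - aa l) / (2 / 3 : ℝ) ^ l.length := by
        by_contra h7
        rw [not_lt] at h7
        have : hh l x = 0 := by
          rw [hh, max_eq_left]
          exact (min_le_right _ _).trans h7
        linarith
      have h7 : 3 * (x - aa l) / (2 / 3 : ℝ) ^ l.length < 2 := by linarith
      rw [div_lt_iff₀ hp] at h7
      constructor <;> linarith

/-! ### the map onto the interval -/

theorem aa_nonneg (l : List Bool) : 0 ≤ aa l := by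
  induction l with
  | nil => exact le_rfl
  | cons b l ih => cases b <;> rw [aa] <;> positivity

theorem aa_le (l : List Bool) : aa l + (2 / 3 : ℝ) ^ l.length ≤ 1 := by
  induction l with
  | nil => rw [aa]; simp
  | cons b l ih =>
    have hp : (0 : ℝ) < (2 / 3 : ℝ) ^ l.length := by positivity
    cases b <;> rw [aa, List.length_cons, pow_succ] <;> linarith

theorem aa_mono (b : Bool) (l : List Bool) : aa l ≤ aa (b :: l) ∧
    aa (b :: l) + (2 / 3 : ℝ) ^ (b :: l).length ≤ aa l + (2 / 3 : ℝ) ^ l.length := by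
  have hp : (0 : ℝ) < (2 / 3 : ℝ) ^ l.length := by positivity
  cases b <;> rw [aa, List.length_cons, pow_succ] <;> constructor <;> linarith

theorem aa_dist (s : Ca) (n k : ℕ) : aa (pre n s) ≤ aa (pre (n + k) s) ∧
    aa (pre (n + k) s) + (2 / 3 : ℝ) ^ (n + k) ≤ aa (pre n s) + (2 / 3 : ℝ) ^ n := by
  induction k with
  | zero => exact ⟨le_rfl, le_rfl⟩
  | succ k ih =>
    have h1 := aa_mono (s (n + k)) (pre (n + k) s)
    rw [List.length_cons, length_pre] at h1
    rw [← add_assoc, pre]
    exact ⟨ih.1.trans h1.1, h1.2.trans ih.2⟩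

theorem exists_pt : ∃ p : Ca → ℝ, ∀ s n, aa (pre n s) ≤ p s ∧ p s ≤ aa (pre n s) + (2 / 3 : ℝ) ^ n := by
  have h1 : ∀ s, Monotone fun n => aa (pre n s) := fun s =>
    monotone_nat_of_le_succ fun n => (aa_dist s n 1).1
  have h2 : ∀ s, BddAbove (Set.range fun n => aa (pre n s)) := fun s => by
    refine ⟨1, ?_⟩
    rintro _ ⟨n, rfl⟩
    have := aa_le (pre n s)
    have hp : (0 : ℝ) < (2 / 3 : ℝ) ^ (pre n s).length := by positivity
    show aa (pre n s) ≤ 1
    linarith
  refine ⟨fun s => ⨆ n, aa (pre n s), fun s n => ⟨le_ciSup (h2 s) n, ?_⟩⟩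
  refine ciSup_le fun m => ?_
  rcases le_total n m with h | h
  · obtain ⟨k, rfl⟩ := Nat.exists_eq_add_of_le h
    have := (aa_dist s n k).2
    have hp : (0 : ℝ) < (2 / 3 : ℝ) ^ (n + k) := by positivity
    linarith
  · have := h1 s h
    have hp : (0 : ℝ) < (2 / 3 : ℝ) ^ n := by positivity
    show aa (pre m s) ≤ _
    have h3 : aa (pre m s) ≤ aa (pre n s) := this
    linarith

/-- **Job M.** -/
theorem jobM (𝕜 : Type) [RCLike 𝕜] : StM 𝕜 := by
  -- the operator A
  set a : List Bool → C(unitInterval, 𝕜) := fun l =>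
    ⟨fun x => ((ch l x : ℝ) : 𝕜), RCLike.continuous_ofReal.comp ((continuous_ch l).comp continuous_subtype_val)⟩
    with ha
  have haa : TreeAdd a := by
    intro l
    ext x
    show ((ch l x : ℝ) : 𝕜) = ((ch (true :: l) x : ℝ) : 𝕜) + ((ch (false :: l) x : ℝ) : 𝕜)
    rw [ch_add]; push_cast; ring
  obtain ⟨A, hA, hA1⟩ := jobL 𝕜 C(unitInterval, 𝕜) a 1 haa (by
    intro n c hc
    rw [ContinuousMap.norm_le _ zero_le_one]
    intro x
    rw [ContinuousMap.sum_apply]
    refine (norm_sum_le _ _).trans ?_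
    refine le_trans ?_ (sum_ch n (x : ℝ)).le
    refine Finset.sum_le_sum fun l _ => ?_
    show ‖c l • ((ch l x : ℝ) : 𝕜)‖ ≤ _
    rw [norm_smul, RCLike.norm_ofReal, abs_of_nonneg (ch_nonneg _ _)]
    exact mul_le_of_le_one_left (ch_nonneg _ _) (hc l))
  -- the map
  obtain ⟨p, hp⟩ := exists_pt
  have hp01 : ∀ s, p s ∈ Set.Icc (0 : ℝ) 1 := fun s => by
    have := hp s 0
    simp only [pre, aa, pow_zero, zero_add] at this
    exact this
  have hpc : Continuous p := by
    rw [Metric.continuous_iff']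
    intro s e he
    obtain ⟨n, hn⟩ := exists_pow_lt_of_lt_one he (show (2 / 3 : ℝ) < 1 by norm_num)
    filter_upwards [(isOpen_pre n (pre n s)).mem_nhds rfl] with t ht
    have h1 := hp s n
    have h2 := hp t n
    have ht' : pre n t = pre n s := ht
    rw [ht'] at h2
    rw [Real.dist_eq, abs_lt]
    constructor <;> linarith
  set P : C(Ca, unitInterval) := ⟨fun s => ⟨p s, hp01 s⟩, hpc.subtype_mk _⟩ with hP
  set J : C(unitInterval, 𝕜) →L[𝕜] C(Ca, 𝕜) := LinearMap.mkContinuous
    { toFun := fun f => f.comp P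
      map_add' := fun f g => rfl
      map_smul' := fun c f => rfl } 1 (fun f => by
        show ‖f.comp P‖ ≤ 1 * ‖f‖
        rw [one_mul, ContinuousMap.norm_le _ (norm_nonneg _)]
        exact fun s => f.norm_coe_le_norm _) with hJ
  refine ⟨A, J, hA1, LinearMap.mkContinuous_norm_le _ zero_le_one _, ?_⟩
  ext1 f
  show A (f.comp P) = f
  have key : ∀ e > 0, ‖A (f.comp P) - f‖ ≤ 2 * e := by
    intro e he
    -- uniform continuity
    obtain ⟨δ, hδ, hf⟩ := Metric.uniformContinuous_iff.1 (CompactSpace.uniformContinuous_of_continuous f.continuous) e he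
    obtain ⟨n, hn⟩ := exists_pow_lt_of_lt_one hδ (show (2 / 3 : ℝ) < 1 by norm_num)
    have hx : ∀ l : List Bool, aa l ∈ Set.Icc (0 : ℝ) 1 := fun l => by
      have := aa_le l
      have hp : (0 : ℝ) < (2 / 3 : ℝ) ^ l.length := by positivity
      exact ⟨aa_nonneg l, by linarith⟩
    set g : C(Ca, 𝕜) := ∑ l ∈ lev n, f ⟨aa l, hx l⟩ • cyl 𝕜 l with hg
    have h1 : ‖f.comp P - g‖ ≤ e := by
      rw [ContinuousMap.norm_le _ he.le]
      intro s
      have h2 : g s = f ⟨aa (pre n s), hx _⟩ := by
        rw [hg, ContinuousMap.sum_apply]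
        have h2 : ∀ l ∈ lev n, (f ⟨aa l, hx l⟩ • cyl 𝕜 l) s = if pre n s = l then f ⟨aa l, hx l⟩ else 0 := by
          intro l hl
          rw [ContinuousMap.smul_apply, cyl_apply_lev hl]
          split_ifs <;> simp
        rw [Finset.sum_congr rfl h2, Finset.sum_ite_eq, if_pos (pre_mem_lev n s)]
      rw [ContinuousMap.sub_apply, h2, ← dist_eq_norm]
      refine (hf ?_).le
      have h3 := hp s n
      show dist (p s) (aa (pre n s)) < δ
      rw [Real.dist_eq, abs_lt]
      constructor <;> linarith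
    have h2 : ‖A g - f‖ ≤ e := by
      rw [ContinuousMap.norm_le _ he.le]
      intro x
      have h3 : A g x = ∑ l ∈ lev n, f ⟨aa l, hx l⟩ * ((ch l x : ℝ) : 𝕜) := by
        rw [hg, map_sum, ContinuousMap.sum_apply]
        refine Finset.sum_congr rfl fun l _ => ?_
        rw [map_smul, hA]
        rfl
      have h4 : f x = ∑ l ∈ lev n, f x * ((ch l x : ℝ) : 𝕜) := by
        rw [← Finset.mul_sum]
        have := sum_ch n (x : ℝ)
        have h5 : ∑ l ∈ lev n, ((ch l x : ℝ) : 𝕜) = 1 := by
          rw [← RCLike.ofReal_sum, this, RCLike.ofReal_one]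
        rw [h5, mul_one]
      have h5 : (A g - f) x = ∑ l ∈ lev n, (f ⟨aa l, hx l⟩ - f x) * ((ch l x : ℝ) : 𝕜) := by
        rw [ContinuousMap.sub_apply, h3]
        conv_lhs => rw [h4]
        rw [← Finset.sum_sub_distrib]
        exact Finset.sum_congr rfl fun l _ => by ring
      rw [h5]
      refine (norm_sum_le _ _).trans ?_
      have h6 : ∀ l ∈ lev n, ‖(f ⟨aa l, hx l⟩ - f x) * ((ch l x : ℝ) : 𝕜)‖ ≤ e * ch l x := by
        intro l hl
        rw [norm_mul, RCLike.norm_ofReal, abs_of_nonneg (ch_nonneg _ _)]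
        by_cases h7 : ch l (x : ℝ) = 0
        · rw [h7, mul_zero, mul_zero]
        · refine mul_le_mul_of_nonneg_right ?_ (ch_nonneg _ _)
          have h8 := ch_supp x.2.1 x.2.2 l h7
          rw [mem_lev hl] at h8
          rw [← dist_eq_norm]
          refine (hf ?_).le
          show dist (aa l) (x : ℝ) < δ
          rw [Real.dist_eq, abs_lt]
          constructor <;> linarith
      refine (Finset.sum_le_sum h6).trans ?_
      rw [← Finset.mul_sum, sum_ch, mul_one]
    have h3 : A (f.comp P) - f = A (f.comp P - g) + (A g - f) := by rw [map_sub]; abel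
    rw [h3]
    refine (norm_add_le _ _).trans ?_
    have h4 : ‖A (f.comp P - g)‖ ≤ e := by
      refine (A.le_opNorm _).trans ?_
      nlinarith [norm_nonneg (f.comp P - g), norm_nonneg A]
    linarith
  have h0 : ‖A (f.comp P) - f‖ ≤ 0 := by
    refine le_of_forall_gt_imp_ge_of_dense fun d hd => ?_
    have := key (d / 2) (half_pos hd)
    linarith
  exact sub_eq_zero.1 (norm_le_zero_iff.1 h0)

end Q101.Wk
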