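import Pool.Agent.Q101.WkD
import Pool.Agent.Q101.WkM

/-! # Assembly: `‖T‖_w ≤ 2 ‖T^*‖_w` -/

open Filter Topology

namespace Q101.Wk

section general

variable {𝕜 : Type} [RCLike 𝕜] {E F G : Type*} [NormedAddCommGroup E] [NormedSpace 𝕜 E]
  [NormedAddCommGroup F] [NormedSpace 𝕜 F] [NormedAddCommGroup G] [NormedSpace 𝕜 G]

theorem RelWeaklyCompact.mono {S S' : Set F} (h : RelWeaklyCompact 𝕜 S) (hs : S' ⊆ S) :
    RelWeaklyCompact 𝕜 S' :=
  IsCompact.of_isClosed_subset h isClosed_closure (closure_mono (Set.image_mono hs))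

theorem RelWeaklyCompact.map {S : Set E} (h : RelWeaklyCompact 𝕜 S) (L : E →L[𝕜] F) :
    RelWeaklyCompact 𝕜 (L '' S) := by
  have h2 := IsCompact.image h (WeakSpace.map L).continuous
  refine h2.of_isClosed_subset isClosed_closure ?_
  refine closure_minimal ?_ h2.isClosed
  rintro _ ⟨_, ⟨x, hx, rfl⟩, rfl⟩
  exact ⟨toWeakSpace 𝕜 E x, subset_closure ⟨x, hx, rfl⟩, rfl⟩

theorem WeaklyCompactOp.comp {W : F →L[𝕜] G} (h : WeaklyCompactOp W) {J : E →L[𝕜] F} (hJ : ‖J‖ ≤ 1) :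
    WeaklyCompactOp (W.comp J) := by
  refine RelWeaklyCompact.mono h ?_
  rintro _ ⟨x, hx, rfl⟩
  refine ⟨J x, ?_, rfl⟩
  rw [Metric.mem_closedBall, dist_zero_right] at hx ⊢
  exact (J.le_opNorm x).trans (mul_le_one₀ hJ (norm_nonneg _) hx)

theorem weaklyCompact_zero : WeaklyCompactOp (0 : E →L[𝕜] F) := by
  have h1 : ((0 : E →L[𝕜] F) '' Metric.closedBall 0 1) ⊆ {0} := by
    rintro _ ⟨x, _, rfl⟩; rfl
  refine RelWeaklyCompact.mono (S := {0}) ?_ h1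
  rw [RelWeaklyCompact, Set.image_singleton, closure_singleton]
  exact isCompact_singleton

theorem wnorm_le {T W : E →L[𝕜] F} (h : WeaklyCompactOp W) : wnorm T ≤ ‖T - W‖ :=
  csInf_le ⟨0, by rintro r ⟨W, _, rfl⟩; exact norm_nonneg _⟩ ⟨W, h, rfl⟩

theorem exists_of_wnorm_lt {T : E →L[𝕜] F} {d : ℝ} (h : wnorm T < d) :
    ∃ W : E →L[𝕜] F, WeaklyCompactOp W ∧ ‖T - W‖ < d := by
  obtain ⟨r, ⟨W, hW, rfl⟩, hr⟩ := exists_lt_of_csInf_lt (s := {r | ∃ W : E →L[𝕜] F, WeaklyCompactOp W ∧ r = ‖T - W‖})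
    ⟨_, 0, weaklyCompact_zero, rfl⟩ h
  exact ⟨W, hW, hr⟩

/-- The family of functionals obtained from a weakly compact approximation of the adjoint. -/
theorem gen_family {C : Type*} [NormedAddCommGroup C] [NormedSpace 𝕜 C] (T : E →L[𝕜] F)
    {S : StrongDual 𝕜 F →L[𝕜] StrongDual 𝕜 E} (hS : WeaklyCompactOp S) (A : C →L[𝕜] E) (hA : ‖A‖ ≤ 1)
    {d : ℝ} (hd : ‖adj T - S‖ ≤ d) {ι : Type*} (δ : ι → StrongDual 𝕜 F) (hδ : ∀ t, ‖δ t‖ ≤ 1) :
    ∃ r : ι → StrongDual 𝕜 C, RelWeaklyCompact 𝕜 (Set.range r) ∧ (∃ C0, ∀ t, ‖r t‖ ≤ C0) ∧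
      ∀ t g, ‖δ t (T (A g)) - r t g‖ ≤ d * ‖g‖ := by
  have hd0 : 0 ≤ d := le_trans (norm_nonneg (adj T - S)) hd
  refine ⟨fun t => adj A (S (δ t)), ?_, ⟨‖adj A‖ * ‖S‖, fun t => ?_⟩, fun t g => ?_⟩
  · refine RelWeaklyCompact.mono (RelWeaklyCompact.map hS (adj A)) ?_
    rintro _ ⟨t, rfl⟩
    exact ⟨S (δ t), ⟨δ t, by rw [Metric.mem_closedBall, dist_zero_right]; exact hδ t, rfl⟩, rfl⟩
  · refine ((adj A).le_opNorm _).trans (mul_le_mul_of_nonneg_left ?_ (norm_nonneg _))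
    exact (S.le_opNorm _).trans (mul_le_of_le_one_right (norm_nonneg _) (hδ t))
  · show ‖((adj T - S) (δ t)) (A g)‖ ≤ d * ‖g‖
    have h2 : ‖(adj T - S) (δ t)‖ ≤ d :=
      ((adj T - S).le_opNorm _).trans ((mul_le_of_le_one_right (norm_nonneg _) (hδ t)).trans hd)
    refine (ContinuousLinearMap.le_opNorm _ _).trans ?_
    exact mul_le_mul h2 ((A.le_opNorm g).trans (mul_le_of_le_one_left (norm_nonneg _) hA))
      (norm_nonneg _) hd0

theorem adj_apply (T : E →L[𝕜] F) (φ : StrongDual 𝕜 F) (x : E) : adj T φ x = φ (T x) := rfl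

end general

variable {𝕜 : Type} [RCLike 𝕜]

theorem sum_norm_le (ψ : StrongDual 𝕜 C(Ca, 𝕜)) (n : ℕ) : ∑ l ∈ lev n, ‖ψ (cyl 𝕜 l)‖ ≤ ‖ψ‖ := by
  choose c hc1 hc2 using fun l => RCLike.exists_norm_eq_mul_self (ψ (cyl 𝕜 l))
  set f : C(Ca, 𝕜) := ∑ l ∈ lev n, c l • cyl 𝕜 l with hf
  have hf1 : ‖f‖ ≤ 1 := by
    rw [ContinuousMap.norm_le _ zero_le_one]
    intro s
    have h1 : f s = c (pre n s) := by
      rw [hf, ContinuousMap.sum_apply]
      have h2 : ∀ l ∈ lev n, (c l • cyl 𝕜 l) s = if pre n s = l then c l else 0 := by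
        intro l hl
        rw [ContinuousMap.smul_apply, cyl_apply_lev hl]
        split_ifs <;> simp
      rw [Finset.sum_congr rfl h2, Finset.sum_ite_eq, if_pos (pre_mem_lev n s)]
    rw [h1, hc1]
  have h2 : ψ f = ((∑ l ∈ lev n, ‖ψ (cyl 𝕜 l)‖ : ℝ) : 𝕜) := by
    rw [hf, map_sum]
    push_cast
    refine Finset.sum_congr rfl fun l _ => ?_
    rw [map_smul, smul_eq_mul, ← hc2]
  have h3 := ψ.le_opNorm f
  rw [h2, RCLike.norm_ofReal] at h3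
  have h4 := le_abs_self (∑ l ∈ lev n, ‖ψ (cyl 𝕜 l)‖)
  nlinarith [norm_nonneg ψ, norm_nonneg f]

theorem norm_le_of_sum (ψ : StrongDual 𝕜 C(Ca, 𝕜)) {c : ℝ}
    (h : ∀ n, ∑ l ∈ lev n, ‖ψ (cyl 𝕜 l)‖ ≤ c) (g : C(Ca, 𝕜)) : ‖ψ g‖ ≤ c * ‖g‖ := by
  refine le_of_forall_pos_le_add fun e he => ?_
  have he' : 0 < e / (‖ψ‖ + 1) := by positivity
  obtain ⟨n, hn⟩ := unif g.continuous he'
  have h1 := approx_cyl g he' hn
  have h2 : ‖ψ (∑ l ∈ lev n, g (ext l) • cyl 𝕜 l)‖ ≤ c * ‖g‖ := by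
    rw [map_sum]
    refine (norm_sum_le _ _).trans ?_
    calc ∑ l ∈ lev n, ‖ψ (g (ext l) • cyl 𝕜 l)‖ ≤ ∑ l ∈ lev n, ‖g‖ * ‖ψ (cyl 𝕜 l)‖ := by
          refine Finset.sum_le_sum fun l _ => ?_
          rw [map_smul, norm_smul]
          exact mul_le_mul_of_nonneg_right (g.norm_coe_le_norm _) (norm_nonneg _)
      _ = ‖g‖ * ∑ l ∈ lev n, ‖ψ (cyl 𝕜 l)‖ := by rw [Finset.mul_sum]
      _ ≤ ‖g‖ * c := mul_le_mul_of_nonneg_left (h n) (norm_nonneg _)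
      _ = c * ‖g‖ := mul_comm _ _
  have h3 : ψ g = ψ (g - ∑ l ∈ lev n, g (ext l) • cyl 𝕜 l) + ψ (∑ l ∈ lev n, g (ext l) • cyl 𝕜 l) := by
    rw [← map_add, sub_add_cancel]
  have h4 : ‖ψ (g - ∑ l ∈ lev n, g (ext l) • cyl 𝕜 l)‖ ≤ e := by
    refine (ψ.le_opNorm _).trans ((mul_le_mul_of_nonneg_left h1 (norm_nonneg _)).trans ?_)
    rw [mul_div_assoc', div_le_iff₀ (by positivity)]
    nlinarith [norm_nonneg ψ]
  rw [h3]
  exact (norm_add_le _ _).trans (by linarith)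

/-- The main estimate. -/
theorem main_estimate {K : Type} [TopologicalSpace K] [CompactSpace K]
    (T : C(unitInterval, 𝕜) →L[𝕜] C(K, 𝕜)) {A : C(Ca, 𝕜) →L[𝕜] C(unitInterval, 𝕜)}
    {J : C(unitInterval, 𝕜) →L[𝕜] C(Ca, 𝕜)} (hJ : ‖J‖ ≤ 1)
    (hAJ : A.comp J = ContinuousLinearMap.id 𝕜 _) {r : K → StrongDual 𝕜 C(Ca, 𝕜)}
    (hK : RelWeaklyCompact 𝕜 (Set.range r)) {C0 : ℝ} (hC0 : ∀ t, ‖r t‖ ≤ C0) {d e k : ℝ} (hd0 : 0 ≤ d)
    (hd : ∀ t g, ‖T (A g) t - r t g‖ ≤ d * ‖g‖) (he : 0 < e) (hk : 2 < k) :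
    wnorm T ≤ k * (d + e) := by
  set δ : K → StrongDual 𝕜 C(K, 𝕜) := fun t => ContinuousMap.evalCLM 𝕜 t with hδ
  obtain ⟨lam, R, hR, hl, hla, hH⟩ := jobA hK (C0 := C0) (by
    rintro _ ⟨t, rfl⟩
    exact hC0 t) he
  -- the tree of functions
  set m : List Bool → C(K, 𝕜) := fun l => T (A (cyl 𝕜 l)) with hm
  have hma : TreeAdd m := fun l => by
    simp only [hm]
    rw [cyl_add l, map_add, map_add]
  have hmd : ∀ t n, ∑ l ∈ lev n, max 0 (‖m l t‖ - R * lam l) ≤ d + e := by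
    intro t n
    set ψ : StrongDual 𝕜 C(Ca, 𝕜) := (δ t).comp (T.comp A) - r t with hψ
    have h1 : ‖ψ‖ ≤ d := ContinuousLinearMap.opNorm_le_bound _ hd0 fun g => hd t g
    have h2 := (sum_norm_le ψ n).trans h1
    have h3 := hH (r t) ⟨t, rfl⟩ n
    have h4 : ∀ l, max 0 (‖m l t‖ - R * lam l)
        ≤ ‖ψ (cyl 𝕜 l)‖ + max 0 (‖r t (cyl 𝕜 l)‖ - R * lam l) := by
      intro l
      have h5 : m l t = ψ (cyl 𝕜 l) + r t (cyl 𝕜 l) := by
        have : ψ (cyl 𝕜 l) = T (A (cyl 𝕜 l)) t - r t (cyl 𝕜 l) := rfl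
        rw [this, sub_add_cancel]
      have h6 := norm_add_le (ψ (cyl 𝕜 l)) (r t (cyl 𝕜 l))
      rw [← h5] at h6
      have h7 := le_max_right 0 (‖r t (cyl 𝕜 l)‖ - R * lam l)
      have h8 := le_max_left 0 (‖r t (cyl 𝕜 l)‖ - R * lam l)
      exact max_le (by positivity) (by linarith)
    calc ∑ l ∈ lev n, max 0 (‖m l t‖ - R * lam l)
        ≤ ∑ l ∈ lev n, (‖ψ (cyl 𝕜 l)‖ + max 0 (‖r t (cyl 𝕜 l)‖ - R * lam l)) :=
          Finset.sum_le_sum fun l _ => h4 l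
      _ ≤ d + e := by rw [Finset.sum_add_distrib]; linarith
  obtain ⟨nu, B, hnu, hnuB, hmn⟩ := jobB 𝕜 K m lam R (d + e) k hR hl hla hma hk hmd
  -- the operator
  have hkd : 0 ≤ k * (d + e) := by positivity
  obtain ⟨W', hW', _⟩ := jobL 𝕜 C(K, 𝕜) nu (|B| * lam []) hnu (by
    intro n c hc
    have hl0 := (hl []).le
    rw [ContinuousMap.norm_le _ (by positivity)]
    intro t
    rw [ContinuousMap.sum_apply]
    refine (norm_sum_le _ _).trans ?_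
    rw [← sum_lev_add hla n, Finset.mul_sum]
    refine Finset.sum_le_sum fun l _ => ?_
    rw [ContinuousMap.smul_apply, norm_smul]
    have h1 := hnuB l t
    have h2 : B * lam l ≤ |B| * lam l := mul_le_mul_of_nonneg_right (le_abs_self B) (hl l).le
    have h3 := hc l
    nlinarith [norm_nonneg (nu l t), norm_nonneg (c l)])
  have hWc : WeaklyCompactOp W' := jobD 𝕜 K W' lam B hl hla (fun l t => by rw [hW']; exact hnuB l t)
  have hfin : ‖T - W'.comp J‖ ≤ k * (d + e) := by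
    refine ContinuousLinearMap.opNorm_le_bound _ hkd fun f => ?_
    rw [ContinuousMap.norm_le _ (by positivity)]
    intro t
    set ψ : StrongDual 𝕜 C(Ca, 𝕜) := (δ t).comp (T.comp A - W') with hψ
    have h1 := norm_le_of_sum ψ (c := k * (d + e)) (fun n => by
      refine le_trans (le_of_eq (Finset.sum_congr rfl fun l _ => ?_)) (hmn t n)
      have : ψ (cyl 𝕜 l) = T (A (cyl 𝕜 l)) t - W' (cyl 𝕜 l) t := rfl
      rw [this, hW']) (J f)
    have h2 : (T - W'.comp J) f t = ψ (J f) := by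
      have h3 : A (J f) = f := DFunLike.congr_fun hAJ f
      have : ψ (J f) = T (A (J f)) t - W' (J f) t := rfl
      rw [this, h3]
      rfl
    rw [h2]
    refine h1.trans (mul_le_mul_of_nonneg_left ?_ hkd)
    exact (J.le_opNorm f).trans (mul_le_of_le_one_left (norm_nonneg _) hJ)
  exact (wnorm_le (hWc.comp hJ)).trans hfin

/-- **Main theorem.** -/
theorem main (𝕜 : Type) [RCLike 𝕜] : StMain 𝕜 := by
  intro K _ _ T
  have h0 : 0 ≤ wnorm (adj T) := Real.sInf_nonneg (by rintro r ⟨W, _, rfl⟩; exact norm_nonneg _)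
  have h1 : ∀ e > 0, wnorm T ≤ (2 + e) * (wnorm (adj T) + e + e) := by
    intro e he
    obtain ⟨S, hS, hd⟩ := exists_of_wnorm_lt (T := adj T) (d := wnorm (adj T) + e) (by linarith)
    obtain ⟨A, J, hA, hJ, hAJ⟩ := jobM 𝕜
    obtain ⟨r, hr, ⟨C0, hC0⟩, hrd⟩ := gen_family T hS A hA hd.le
      (fun t : K => (ContinuousMap.evalCLM 𝕜 t : StrongDual 𝕜 C(K, 𝕜))) (fun t =>
        ContinuousLinearMap.opNorm_le_bound _ zero_le_one fun f => by
          rw [one_mul]; exact f.norm_coe_le_norm t)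
    exact main_estimate T hJ hAJ hr hC0 (by linarith) hrd he (by linarith)
  have h2 : Tendsto (fun e : ℝ => (2 + e) * (wnorm (adj T) + e + e)) (𝓝[>] 0) (𝓝 (2 * wnorm (adj T))) := by
    have h3 : Continuous fun e : ℝ => (2 + e) * (wnorm (adj T) + e + e) := by fun_prop
    have h4 := (h3.tendsto 0).mono_left (nhdsWithin_le_nhds (s := Set.Ioi 0))
    simpa using h4
  exact ge_of_tendsto h2 (by filter_upwards [self_mem_nhdsWithin] with e he; exact h1 e he)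

end Q101.Wk
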