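import Pool.Agent.Q101.WkA2

/-! # Job L: integration of tree functions -/

open Filter Topology

namespace Q101.Wk

variable {𝕜 : Type} [RCLike 𝕜]

/-- A point of the cylinder of `l`. -/
def ext : List Bool → Ca
  | [] => fun _ => false
  | b :: l => Function.update (ext l) l.length b

theorem pre_ext (l : List Bool) : pre l.length (ext l) = l := by
  induction l with
  | nil => rfl
  | cons b l ih =>
    rw [List.length_cons, pre, ext, Function.update_self]
    congr 1
    conv_rhs => rw [← ih]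
    refine pre_congr fun i hi => ?_
    rw [Function.update_of_ne (Nat.ne_of_lt hi)]

theorem mem_lev_length (l : List Bool) : l ∈ lev l.length := by
  have := pre_mem_lev l.length (ext l)
  rwa [pre_ext] at this

theorem pre_drop (n k : ℕ) (s : Ca) : (pre (n + k) s).drop k = pre n s := by
  induction k with
  | zero => rfl
  | succ k ih => rw [← add_assoc, pre, List.drop_succ_cons, ih]

theorem pre_inj {n : ℕ} {s t : Ca} (h : pre n s = pre n t) : ∀ i < n, s i = t i := by
  induction n with
  | zero => intro i hi; exact absurd hi (Nat.not_lt_zero i)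
  | succ n ih =>
    rw [pre, pre] at h
    intro i hi
    rcases Nat.lt_succ_iff_lt_or_eq.1 hi with h1 | h1
    · exact ih (List.cons.inj h).2 i h1
    · rw [h1]; exact (List.cons.inj h).1

/-- uniform continuity -/
theorem unif {Y : Type*} [PseudoMetricSpace Y] {g : Ca → Y} (hg : Continuous g) {e : ℝ} (he : 0 < e) :
    ∃ n, ∀ s t, pre n s = pre n t → dist (g s) (g t) < e := by
  by_contra hcon
  push Not at hcon
  choose s t hst hd using hcon
  obtain ⟨x, φ, hφ, hx⟩ := CompactSpace.tendsto_subseq s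
  have hy : Tendsto (t ∘ φ) atTop (𝓝 x) := by
    rw [tendsto_pi_nhds] at hx ⊢
    intro i
    refine (hx i).congr' ?_
    filter_upwards [eventually_gt_atTop i] with n hn
    exact pre_inj (hst (φ n)) i (hn.trans_le (hφ.le_apply))
  have h1 := ((hg.tendsto x).comp hx).dist ((hg.tendsto x).comp hy)
  rw [dist_self] at h1
  obtain ⟨n, hn⟩ := (h1.eventually_lt_const he).exists
  exact absurd hn (not_lt.2 (hd (φ n)))

theorem sum_refine {X : Type*} [AddCommGroup X] [Module 𝕜 X] {a : List Bool → X} (ha : TreeAdd a)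
    (c : List Bool → 𝕜) (n k : ℕ) :
    ∑ l ∈ lev n, c l • a l = ∑ l ∈ lev (n + k), c (l.drop k) • a l := by
  induction k with
  | zero => simp
  | succ k ih =>
    rw [ih, ← add_assoc, sum_lev_succ]
    refine Finset.sum_congr rfl fun l _ => ?_
    rw [List.drop_succ_cons, List.drop_succ_cons, ← smul_add, ← ha l]

theorem drop_eq {n k : ℕ} {l : List Bool} (hl : l ∈ lev (n + k)) : pre n (ext l) = l.drop k := by
  rw [← pre_drop n k (ext l), ← mem_lev hl, pre_ext]

/-- **Job L.** -/
theorem jobL (𝕜 : Type) [RCLike 𝕜] : StL 𝕜 := by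
  intro X _ _ _ a M ha hM
  have hM0 : 0 ≤ M := (norm_nonneg _).trans (hM 0 0 (fun l => by simp))
  have hM' : ∀ (n : ℕ) (c : List Bool → 𝕜) (δ : ℝ), 0 ≤ δ → (∀ l ∈ lev n, ‖c l‖ ≤ δ) →
      ‖∑ l ∈ lev n, c l • a l‖ ≤ M * δ := by
    intro n c δ hδ hc
    rcases hδ.eq_or_lt with h | h
    · have h1 : ∑ l ∈ lev n, c l • a l = 0 := Finset.sum_eq_zero fun l hl => by
        have := hc l hl
        rw [← h] at this
        rw [norm_le_zero_iff.1 this, zero_smul]
      rw [h1, norm_zero, ← h, mul_zero]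
    · classical
      have h1 := hM n (fun l => if l ∈ lev n then ((δ⁻¹ : ℝ) : 𝕜) * c l else 0) (fun l => by
        split_ifs with h2
        · rw [norm_mul, RCLike.norm_ofReal, abs_of_nonneg (inv_nonneg.2 hδ), inv_mul_le_iff₀ h, mul_one]
          exact hc l h2
        · simp)
      have h2 : ∑ l ∈ lev n, (if l ∈ lev n then ((δ⁻¹ : ℝ) : 𝕜) * c l else 0) • a l
          = ((δ⁻¹ : ℝ) : 𝕜) • ∑ l ∈ lev n, c l • a l := by
        rw [Finset.smul_sum]
        refine Finset.sum_congr rfl fun l hl => ?_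
        rw [if_pos hl, mul_smul]
      rw [h2, norm_smul, RCLike.norm_ofReal, abs_of_nonneg (inv_nonneg.2 hδ), inv_mul_le_iff₀ h] at h1
      linarith
  set I : ℕ → C(Ca, 𝕜) → X := fun n g => ∑ l ∈ lev n, g (ext l) • a l with hI
  have hbd : ∀ n g, ‖I n g‖ ≤ M * ‖g‖ := fun n g =>
    hM' n _ _ (norm_nonneg _) fun l _ => g.norm_coe_le_norm _
  have hdiff : ∀ (g : C(Ca, 𝕜)) (e : ℝ) (n k : ℕ), 0 < e → (∀ s t, pre n s = pre n t → dist (g s) (g t) < e) →
      ‖I (n + k) g - I n g‖ ≤ M * e := by
    intro g e n k he hn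
    have h1 : I (n + k) g - I n g = ∑ l ∈ lev (n + k), (g (ext l) - g (ext (l.drop k))) • a l := by
      simp only [hI]
      rw [sum_refine ha (fun l => g (ext l)) n k, ← Finset.sum_sub_distrib]
      refine Finset.sum_congr rfl fun l _ => ?_
      rw [sub_smul]
    rw [h1]
    refine hM' _ _ _ he.le fun l hl => ?_
    rw [← dist_eq_norm]
    refine (hn _ _ ?_).le
    have h2 : (l.drop k).length = n := by rw [List.length_drop, mem_lev hl]; omega
    rw [drop_eq hl]
    conv_lhs => rw [← pre_ext (l.drop k)]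
    rw [h2]
  have hcau : ∀ g, CauchySeq fun n => I n g := by
    intro g
    rw [Metric.cauchySeq_iff']
    intro e he
    obtain ⟨n, hn⟩ := unif g.continuous (show 0 < e / (M + 1) by positivity)
    refine ⟨n, fun m hm => ?_⟩
    obtain ⟨k, rfl⟩ := Nat.exists_eq_add_of_le hm
    rw [dist_eq_norm]
    refine (hdiff g _ n k (by positivity) hn).trans_lt ?_
    rw [mul_div_assoc', div_lt_iff₀ (by positivity)]
    nlinarith
  choose J hJ using fun g => cauchySeq_tendsto_of_complete (hcau g)
  have hadd : ∀ g h, J (g + h) = J g + J h := by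
    intro g h
    refine tendsto_nhds_unique (hJ _) (((hJ g).add (hJ h)).congr fun n => ?_)
    simp only [hI]
    rw [← Finset.sum_add_distrib]
    refine Finset.sum_congr rfl fun l _ => ?_
    rw [ContinuousMap.add_apply, add_smul]
  have hsmul : ∀ (c : 𝕜) g, J (c • g) = c • J g := by
    intro c g
    refine tendsto_nhds_unique (hJ _) (((hJ g).const_smul c).congr fun n => ?_)
    simp only [hI]
    rw [Finset.smul_sum]
    refine Finset.sum_congr rfl fun l _ => ?_
    rw [ContinuousMap.smul_apply, smul_assoc]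
  have hJb : ∀ g, ‖J g‖ ≤ M * ‖g‖ := fun g =>
    le_of_tendsto (hJ g).norm (Eventually.of_forall fun n => hbd n g)
  refine ⟨LinearMap.mkContinuous ⟨⟨J, hadd⟩, hsmul⟩ M hJb, fun l => ?_, ?_⟩
  · show J (cyl 𝕜 l) = a l
    refine tendsto_nhds_unique (hJ _) ?_
    refine tendsto_const_nhds.congr' ?_
    filter_upwards [eventually_ge_atTop l.length] with m hm
    obtain ⟨k, rfl⟩ := Nat.exists_eq_add_of_le hm
    simp only [hI]
    have h1 : ∑ l' ∈ lev (l.length + k), cyl 𝕜 l (ext l') • a l'
        = ∑ l' ∈ lev (l.length + k), (fun l'' => if l'' = l then (1 : 𝕜) else 0) (l'.drop k) • a l' := by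
      refine Finset.sum_congr rfl fun l' hl' => ?_
      rw [cyl_apply, drop_eq hl']
    rw [h1, ← sum_refine ha (fun l'' => if l'' = l then (1 : 𝕜) else 0), Finset.sum_eq_single l]
    · simp
    · intro b _ hb
      rw [if_neg hb, zero_smul]
    · intro h
      exact absurd (mem_lev_length l) h
  · exact LinearMap.mkContinuous_norm_le _ hM0 _

/-- Simple functions approximate. -/
theorem approx_cyl (g : C(Ca, 𝕜)) {e : ℝ} (he : 0 < e) {n : ℕ}
    (hn : ∀ s t, pre n s = pre n t → dist (g s) (g t) < e) :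
    ‖g - ∑ l ∈ lev n, g (ext l) • cyl 𝕜 l‖ ≤ e := by
  rw [ContinuousMap.norm_le _ he.le]
  intro s
  have h1 : (∑ l ∈ lev n, g (ext l) • cyl 𝕜 l : C(Ca, 𝕜)) s = g (ext (pre n s)) := by
    rw [ContinuousMap.sum_apply]
    have h2 : ∀ l ∈ lev n, (g (ext l) • cyl 𝕜 l) s = if pre n s = l then g (ext l) else 0 := by
      intro l hl
      rw [ContinuousMap.smul_apply, cyl_apply_lev hl]
      split_ifs <;> simp
    rw [Finset.sum_congr rfl h2, Finset.sum_ite_eq, if_pos (pre_mem_lev n s)]
  rw [ContinuousMap.sub_apply, h1, ← dist_eq_norm]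
  refine (hn _ _ ?_).le
  have h3 := pre_ext (pre n s)
  rw [length_pre] at h3
  exact h3.symm

end Q101.Wk
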