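import Mathlib

/-! # MP_f76f53_an: definitions and the statements of the steps -/

open Filter Topology

namespace Q101.Wk

/-- The Cantor space. -/
abbrev Ca : Type := ℕ → Bool

/-- The initial segment of length `n`, in reversed order (the last coordinate comes first). -/
def pre : ℕ → Ca → List Bool
  | 0, _ => []
  | n + 1, s => s n :: pre n s

/-- The nodes of level `n` of the binary tree (reversed words of length `n`). -/
def lev : ℕ → Finset (List Bool)
  | 0 => {[]}
  | n + 1 => (lev n).image (List.cons true) ∪ (lev n).image (List.cons false)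

/-- Additive functions on the binary tree; the children of `l` are `true :: l` and `false :: l`. -/
def TreeAdd {M : Type*} [Add M] (a : List Bool → M) : Prop :=
  ∀ l, a l = a (true :: l) + a (false :: l)

theorem length_pre (n : ℕ) (s : Ca) : (pre n s).length = n := by
  induction n with
  | zero => rfl
  | succ n ih => rw [pre, List.length_cons, ih]

theorem pre_congr {n : ℕ} {s t : Ca} (h : ∀ i < n, s i = t i) : pre n s = pre n t := by
  induction n with
  | zero => rfl
  | succ n ih => rw [pre, pre, h n (Nat.lt_succ_self n), ih fun i hi => h i (hi.trans (Nat.lt_succ_self n))]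

theorem isOpen_pre (n : ℕ) (l : List Bool) : IsOpen {s : Ca | pre n s = l} := by
  rw [isOpen_iff_mem_nhds]
  intro s hs
  have h1 : {t : Ca | ∀ i ∈ Finset.range n, t i = s i} ∈ 𝓝 s := by
    refine (Filter.eventually_all_finset _).2 fun i _ => ?_
    have hc : Continuous fun p : Ca => p i := continuous_apply i
    exact ((isOpen_discrete ({s i} : Set Bool)).preimage hc).mem_nhds rfl
  filter_upwards [h1] with t ht
  show pre n t = l
  rw [← hs]
  exact pre_congr fun i hi => ht i (Finset.mem_range.2 hi)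

/-- The cylinder of the node `l`. -/
def Cyl (l : List Bool) : Set Ca := {s | pre l.length s = l}

theorem isClopen_Cyl (l : List Bool) : IsClopen (Cyl l) := by
  refine ⟨?_, isOpen_pre _ _⟩
  rw [← isOpen_compl_iff]
  have : (Cyl l)ᶜ = ⋃ l' ∈ {l' | l' ≠ l}, {s : Ca | pre l.length s = l'} := by
    ext s
    simp [Cyl]
  rw [this]
  exact isOpen_biUnion fun l' _ => isOpen_pre _ _

variable (𝕜 : Type) [RCLike 𝕜]

open Classical in
/-- The indicator function of the cylinder of the node `l`. -/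
noncomputable def cyl (l : List Bool) : C(Ca, 𝕜) :=
  ⟨(Cyl l).indicator 1, (isClopen_Cyl l).continuous_indicator continuous_const⟩ 

section
variable {𝕜}
variable {E F : Type*} [NormedAddCommGroup E] [NormedSpace 𝕜 E] [NormedAddCommGroup F] [NormedSpace 𝕜 F]

/-- Relatively weakly compact sets of a normed space. -/
def RelWeaklyCompact (𝕜 : Type) [RCLike 𝕜] {F : Type*} [NormedAddCommGroup F] [NormedSpace 𝕜 F]
    (S : Set F) : Prop := IsCompact (closure (toWeakSpace 𝕜 F '' S))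

/-- Weakly compact operators: the image of the closed unit ball is relatively weakly compact. -/
def WeaklyCompactOp (W : E →L[𝕜] F) : Prop := RelWeaklyCompact 𝕜 (W '' Metric.closedBall 0 1)

/-- The adjoint `T^* : F^* → E^*`, `T^* φ = φ ∘ T`. -/
noncomputable def adj (T : E →L[𝕜] F) : StrongDual 𝕜 F →L[𝕜] StrongDual 𝕜 E :=
  (ContinuousLinearMap.compL 𝕜 E F 𝕜).flip T

/-- The weak essential norm. -/
noncomputable def wnorm (T : E →L[𝕜] F) : ℝ :=
  sInf {r | ∃ W : E →L[𝕜] F, WeaklyCompactOp W ∧ r = ‖T - W‖}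

end

/-- **Job L** (integration of a tree function of bounded semivariation). -/
def StL : Prop := ∀ (X : Type) [NormedAddCommGroup X] [NormedSpace 𝕜 X] [CompleteSpace X]
  (a : List Bool → X) (M : ℝ), TreeAdd a →
    (∀ (n : ℕ) (c : List Bool → 𝕜), (∀ l, ‖c l‖ ≤ 1) → ‖∑ l ∈ lev n, c l • a l‖ ≤ M) →
    ∃ I : C(Ca, 𝕜) →L[𝕜] X, (∀ l, I (cyl 𝕜 l) = a l) ∧ ‖I‖ ≤ M

/-- **Job M** (Milutin: a regular averaging operator for a continuous surjection of the Cantor space
onto the interval). -/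
def StM : Prop := ∃ (A : C(Ca, 𝕜) →L[𝕜] C(unitInterval, 𝕜)) (J : C(unitInterval, 𝕜) →L[𝕜] C(Ca, 𝕜)),
  ‖A‖ ≤ 1 ∧ ‖J‖ ≤ 1 ∧ A.comp J = ContinuousLinearMap.id 𝕜 _

/-- **Job A** (control measures, quantitatively). -/
def StA : Prop := ∀ K0 : Set (StrongDual 𝕜 C(Ca, 𝕜)), RelWeaklyCompact 𝕜 K0 → ∀ ε : ℝ, 0 < ε →
  ∃ (lam : List Bool → ℝ) (R : ℝ), 0 < R ∧ (∀ l, 0 < lam l) ∧ TreeAdd lam ∧
    ∀ ρ ∈ K0, ∀ n, ∑ l ∈ lev n, max 0 (‖ρ (cyl 𝕜 l)‖ - R * lam l) ≤ ε

/-- **Job B** (fractional stopping). -/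
def StB : Prop := ∀ (K : Type) [TopologicalSpace K] (m : List Bool → C(K, 𝕜)) (lam : List Bool → ℝ)
  (R d k : ℝ), 0 < R → (∀ l, 0 < lam l) → TreeAdd lam → TreeAdd m → 2 < k →
    (∀ t n, ∑ l ∈ lev n, max 0 (‖m l t‖ - R * lam l) ≤ d) →
    ∃ (nu : List Bool → C(K, 𝕜)) (B : ℝ), TreeAdd nu ∧ (∀ l t, ‖nu l t‖ ≤ B * lam l) ∧
      ∀ t n, ∑ l ∈ lev n, ‖m l t - nu l t‖ ≤ k * d

/-- **Job D** (dominated operators are weakly compact). -/
def StD : Prop := ∀ (K : Type) [TopologicalSpace K] [CompactSpace K] (W : C(Ca, 𝕜) →L[𝕜] C(K, 𝕜))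
  (lam : List Bool → ℝ) (B : ℝ), (∀ l, 0 < lam l) → TreeAdd lam →
    (∀ l t, ‖W (cyl 𝕜 l) t‖ ≤ B * lam l) → WeaklyCompactOp W

/-- The main theorem. -/
def StMain : Prop := ∀ (K : Type) [TopologicalSpace K] [CompactSpace K]
  (T : C(unitInterval, 𝕜) →L[𝕜] C(K, 𝕜)), wnorm T ≤ 2 * wnorm (adj T)

end Q101.Wk
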